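import Pool.Agent.E6b.C1Aux

open scoped NNReal TensorProduct IntermediateField BigOperators Classical Topology
open Filter

namespace Pool.Agent.E6b

variable {r₁ r₂ : ℕ} {ι : Type} (M₁ : Mdl Qb r₁ ι) (M₂ : Mdl Qb r₂ ι)

instance instIsDomainTB : IsDomain (TB M₁ M₂) := C1_dom2 M₁ M₂

/-- function field of the product of two models, and its algebraic closure -/
abbrev TK : Type := FractionRing (TB M₁ M₂)

abbrev TL : Type := AlgebraicClosure (TK M₁ M₂)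

instance instCharZeroTK : CharZero (TK M₁ M₂) :=
  charZero_of_injective_algebraMap (algebraMap Qb (TK M₁ M₂)).injective

noncomputable def uK (k : Fin r₁ ⊕ Fin r₂) : TK M₁ M₂ := algebraMap _ _ (uB M₁ M₂ k)

noncomputable def uL (k : Fin r₁ ⊕ Fin r₂) : TL M₁ M₂ := algebraMap (TB M₁ M₂) _ (uB M₁ M₂ k)

noncomputable def x1L : TL M₁ M₂ := algebraMap (TB M₁ M₂) _ (x1B M₁ M₂)

noncomputable def x2L : TL M₁ M₂ := algebraMap (TB M₁ M₂) _ (x2B M₁ M₂)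

theorem exists_basis_TB : ∃ b : Module.Basis (Fin M₁.m.natDegree × Fin M₂.m.natDegree) (R0 r₁ r₂)
    (TB M₁ M₂), ∀ i, b i = x1B M₁ M₂ ^ (i.1 : ℕ) * x2B M₁ M₂ ^ (i.2 : ℕ) := C1_basis M₁ M₂

instance instFreeTB : Module.Free (R0 r₁ r₂) (TB M₁ M₂) :=
  Module.Free.of_basis (exists_basis_TB M₁ M₂).choose

instance instFiniteTB : Module.Finite (R0 r₁ r₂) (TB M₁ M₂) :=
  Module.Finite.of_basis (exists_basis_TB M₁ M₂).choose

theorem e1B_m : e1B M₁ M₂ M₁.m = 0 := C1_m1 M₁ M₂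
theorem e2B_m : e2B M₁ M₂ M₂.m = 0 := C1_m2 M₁ M₂
theorem e1B_C (p : MvPolynomial (Fin r₁) Qb) : e1B M₁ M₂ (Polynomial.C p) =
    algebraMap (R0 r₁ r₂) _ (MvPolynomial.rename Sum.inl p) := by
  rw [e1B, C1_ev2, Polynomial.eval₂_C]
  exact C1_aeval1 M₁ M₂ p
theorem e2B_C (p : MvPolynomial (Fin r₂) Qb) : e2B M₁ M₂ (Polynomial.C p) =
    algebraMap (R0 r₁ r₂) _ (MvPolynomial.rename Sum.inr p) := by
  rw [e2B, C1_ev2, Polynomial.eval₂_C]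
  exact C1_aeval2 M₁ M₂ p
theorem algebraMap_R0_injective : Function.Injective (algebraMap (R0 r₁ r₂) (TB M₁ M₂)) :=
  FaithfulSMul.algebraMap_injective _ _

/-- universal property -/
theorem exists_lift_TB {R : Type} [CommRing R] [Algebra Qb R] (u : Fin r₁ ⊕ Fin r₂ → R) (ξ₁ ξ₂ : R)
    (h₁ : ev2 (fun k => u (.inl k)) ξ₁ M₁.m = 0) (h₂ : ev2 (fun k => u (.inr k)) ξ₂ M₂.m = 0) :
    ∃ χ : TB M₁ M₂ →ₐ[Qb] R, (∀ k, χ (uB M₁ M₂ k) = u k) ∧ χ (x1B M₁ M₂) = ξ₁ ∧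
      χ (x2B M₁ M₂) = ξ₂ := C1_lift M₁ M₂ u ξ₁ ξ₂ h₁ h₂

theorem hom_algebraMap_TB {R : Type} [CommRing R] [Algebra Qb R] (χ : TB M₁ M₂ →ₐ[Qb] R)
    (p : R0 r₁ r₂) : χ (algebraMap _ _ p) = MvPolynomial.aeval (fun k => χ (uB M₁ M₂ k)) p := by
  have : χ.comp (IsScalarTower.toAlgHom Qb (R0 r₁ r₂) (TB M₁ M₂)) =
      MvPolynomial.aeval fun k => χ (uB M₁ M₂ k) :=
    MvPolynomial.algHom_ext fun k => by simp [uB]
  rw [← this]
  rfl

theorem C1_injL : Function.Injective (algebraMap (TB M₁ M₂) (TL M₁ M₂)) := by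
  rw [IsScalarTower.algebraMap_eq (TB M₁ M₂) (TK M₁ M₂) (TL M₁ M₂)]
  exact (algebraMap (TK M₁ M₂) (TL M₁ M₂)).injective.comp (IsFractionRing.injective _ _)

theorem C1_aevalK (p : R0 r₁ r₂) : MvPolynomial.aeval (uK M₁ M₂) p =
    algebraMap (TB M₁ M₂) (TK M₁ M₂) (algebraMap _ _ p) :=
  (hom_algebraMap_TB M₁ M₂ (IsScalarTower.toAlgHom Qb (TB M₁ M₂) (TK M₁ M₂)) p).symm

theorem C1_aevalL (p : R0 r₁ r₂) : MvPolynomial.aeval (uL M₁ M₂) p =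
    algebraMap (TB M₁ M₂) (TL M₁ M₂) (algebraMap _ _ p) :=
  (hom_algebraMap_TB M₁ M₂ (IsScalarTower.toAlgHom Qb (TB M₁ M₂) (TL M₁ M₂)) p).symm

theorem algebraicIndependent_uK : AlgebraicIndependent Qb (uK M₁ M₂) :=
  algebraicIndependent_iff_injective_aeval.2 fun p q h => by
    rw [C1_aevalK, C1_aevalK] at h
    exact algebraMap_R0_injective M₁ M₂ (IsFractionRing.injective _ _ h)

theorem algebraicIndependent_uL : AlgebraicIndependent Qb (uL M₁ M₂) :=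
  algebraicIndependent_iff_injective_aeval.2 fun p q h => by
    rw [C1_aevalL, C1_aevalL] at h
    exact algebraMap_R0_injective M₁ M₂ (C1_injL M₁ M₂ h)

theorem C1_memE {s : Set (TK M₁ M₂)} (hs : Set.range (uK M₁ M₂) ⊆ s) (p : R0 r₁ r₂) :
    algebraMap (TB M₁ M₂) (TK M₁ M₂) (algebraMap _ _ p) ∈ IntermediateField.adjoin Qb s := by
  rw [← C1_aevalK]
  refine IntermediateField.algebra_adjoin_le_adjoin Qb s (Algebra.adjoin_mono hs ?_)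
  rw [Algebra.adjoin_range_eq_range_aeval]
  exact ⟨p, rfl⟩

theorem C1_span : Submodule.span (IntermediateField.adjoin Qb (Set.range (uK M₁ M₂)))
    (Set.range fun i => algebraMap (TB M₁ M₂) (TK M₁ M₂) ((exists_basis_TB M₁ M₂).choose i)) =
      ⊤ := by
  set b := (exists_basis_TB M₁ M₂).choose
  set W := Submodule.span (IntermediateField.adjoin Qb (Set.range (uK M₁ M₂)))
    (Set.range fun i => algebraMap (TB M₁ M₂) (TK M₁ M₂) (b i))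
  have h1 : ∀ a, algebraMap (TB M₁ M₂) (TK M₁ M₂) a ∈ W := fun a => by
    rw [← b.sum_repr a, map_sum]
    refine W.sum_mem fun i _ => ?_
    rw [Algebra.smul_def, map_mul]
    exact W.smul_mem ⟨_, C1_memE M₁ M₂ subset_rfl (b.repr a i)⟩
      (Submodule.subset_span ⟨i, rfl⟩)
  refine eq_top_iff.2 fun x _ => ?_
  obtain ⟨a, c, hc, rfl⟩ := IsFractionRing.div_surjective (A := TB M₁ M₂) x
  have hc0 := nonZeroDivisors.ne_zero hc
  obtain ⟨d, hd⟩ := C1_dvd_norm (R := R0 r₁ r₂) c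
  have hd0 : d ≠ 0 := fun e => by
    rw [e, mul_zero, map_eq_zero_iff _ (algebraMap_R0_injective M₁ M₂),
      Algebra.norm_eq_zero_iff] at hd
    exact hc0 hd
  have h2 := W.smul_mem ⟨_, inv_mem (C1_memE M₁ M₂ subset_rfl (Algebra.norm (R0 r₁ r₂) c))⟩
    (h1 (a * d))
  have hd1 : algebraMap (TB M₁ M₂) (TK M₁ M₂) d ≠ 0 :=
    (map_ne_zero_iff _ (IsFractionRing.injective _ _)).2 hd0
  convert h2 using 1
  change _ = (algebraMap (TB M₁ M₂) (TK M₁ M₂) (algebraMap _ _ (Algebra.norm (R0 r₁ r₂) c)))⁻¹ *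
    algebraMap (TB M₁ M₂) (TK M₁ M₂) (a * d)
  rw [hd, map_mul, map_mul, inv_mul_eq_div, mul_div_mul_right _ _ hd1]

instance instFiniteTK :
    FiniteDimensional (IntermediateField.adjoin Qb (Set.range (uK M₁ M₂))) (TK M₁ M₂) :=
  Module.finite_def.2 (C1_span M₁ M₂ ▸ Submodule.fg_span (Set.finite_range _))

theorem finrank_TK_le : Module.finrank (IntermediateField.adjoin Qb (Set.range (uK M₁ M₂)))
    (TK M₁ M₂) ≤ M₁.m.natDegree * M₂.m.natDegree := by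
  simpa using finrank_le_of_span_eq_top (C1_span M₁ M₂)

theorem adjoin_TK : IntermediateField.adjoin Qb (Set.range (uK M₁ M₂) ∪
    {algebraMap _ _ (x1B M₁ M₂), algebraMap _ _ (x2B M₁ M₂)}) = ⊤ := by
  obtain ⟨b, hb⟩ := exists_basis_TB M₁ M₂
  set E := IntermediateField.adjoin Qb (Set.range (uK M₁ M₂) ∪
    {algebraMap _ _ (x1B M₁ M₂), algebraMap _ _ (x2B M₁ M₂)})
  have h1 : ∀ a, algebraMap (TB M₁ M₂) (TK M₁ M₂) a ∈ E := fun a => by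
    rw [← b.sum_repr a, map_sum]
    refine E.sum_mem fun i _ => ?_
    rw [Algebra.smul_def, map_mul, hb, map_mul, map_pow, map_pow]
    refine mul_mem (C1_memE M₁ M₂ Set.subset_union_left _) (mul_mem (pow_mem ?_ _) (pow_mem ?_ _))
    · exact IntermediateField.subset_adjoin _ _ (Set.mem_union_right _ (Set.mem_insert _ _))
    · exact IntermediateField.subset_adjoin _ _
        (Set.mem_union_right _ (Set.mem_insert_of_mem _ rfl))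
  refine eq_top_iff.2 fun x _ => ?_
  obtain ⟨a, c, -, rfl⟩ := IsFractionRing.div_surjective (A := TB M₁ M₂) x
  exact div_mem (h1 a) (h1 c)

theorem C1_q1 : e1B M₁ M₂ (Polynomial.C M₁.q) ≠ 0 := by
  rw [e1B_C, map_ne_zero_iff _ (algebraMap_R0_injective M₁ M₂),
    map_ne_zero_iff _ (MvPolynomial.rename_injective _ Sum.inl_injective)]
  exact M₁.q_ne

theorem C1_q2 : e2B M₁ M₂ (Polynomial.C M₂.q) ≠ 0 := by
  rw [e2B_C, map_ne_zero_iff _ (algebraMap_R0_injective M₁ M₂),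
    map_ne_zero_iff _ (MvPolynomial.rename_injective _ Sum.inr_injective)]
  exact M₂.q_ne

theorem C1_evL1 (p : PP Qb r₁) : algebraMap (TB M₁ M₂) (TL M₁ M₂) (e1B M₁ M₂ p) =
    ev2 (fun k => uL M₁ M₂ (.inl k)) (x1L M₁ M₂) p :=
  map_ev2 (IsScalarTower.toAlgHom Qb (TB M₁ M₂) (TL M₁ M₂)) _ _ p

theorem C1_evL2 (p : PP Qb r₂) : algebraMap (TB M₁ M₂) (TL M₁ M₂) (e2B M₁ M₂ p) =
    ev2 (fun k => uL M₁ M₂ (.inr k)) (x2L M₁ M₂) p :=
  map_ev2 (IsScalarTower.toAlgHom Qb (TB M₁ M₂) (TL M₁ M₂)) _ _ p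

theorem isPt1_TL : M₁.IsPt (fun k => uL M₁ M₂ (.inl k)) (x1L M₁ M₂) := by
  refine ⟨by rw [← C1_evL1, e1B_m, map_zero], ?_⟩
  have h := (map_ne_zero_iff _ (C1_injL M₁ M₂)).2 (C1_q1 M₁ M₂)
  rwa [C1_evL1, C1_ev2, Polynomial.eval₂_C] at h
theorem isPt2_TL : M₂.IsPt (fun k => uL M₁ M₂ (.inr k)) (x2L M₁ M₂) := by
  refine ⟨by rw [← C1_evL2, e2B_m, map_zero], ?_⟩
  have h := (map_ne_zero_iff _ (C1_injL M₁ M₂)).2 (C1_q2 M₁ M₂)
  rwa [C1_evL2, C1_ev2, Polynomial.eval₂_C] at h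

theorem nrB_ne_zero {b : TB M₁ M₂} (hb : b ≠ 0) : nrB M₁ M₂ b ≠ 0 :=
  Algebra.norm_ne_zero_iff.2 hb

theorem dvd_nrB (b : TB M₁ M₂) : b ∣ algebraMap (R0 r₁ r₂) _ (nrB M₁ M₂ b) :=
  C1_dvd_norm b

/-- the good points above torsion points are dense -/
theorem eq_zero_of_tors {b : TB M₁ M₂}
    (h : ∀ χ : TB M₁ M₂ →ₐ[Qb] Qb, Tors M₁ M₂ χ → GdP M₁ M₂ χ → χ b = 0) : b = 0 := by
  by_contra hb
  refine nrB_ne_zero M₁ M₂ (mul_ne_zero (mul_ne_zero hb (C1_q1 M₁ M₂)) (C1_q2 M₁ M₂)) ?_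
  refine MvPolynomial.funext_set (fun _ => {x : Qb | ∃ n : ℕ, 0 < n ∧ x ^ n = 1})
    (fun _ => C1_inf) fun u hu => ?_
  obtain ⟨ξ₁, h₁⟩ := C1_root M₁ fun k => u (.inl k)
  obtain ⟨ξ₂, h₂⟩ := C1_root M₂ fun k => u (.inr k)
  obtain ⟨χ, hχ, -, -⟩ := exists_lift_TB M₁ M₂ u ξ₁ ξ₂ h₁ h₂
  have h3 := map_dvd χ (dvd_nrB M₁ M₂
    (b * e1B M₁ M₂ (Polynomial.C M₁.q) * e2B M₁ M₂ (Polynomial.C M₂.q)))
  have h4 : χ (b * e1B M₁ M₂ (Polynomial.C M₁.q) * e2B M₁ M₂ (Polynomial.C M₂.q)) = 0 := by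
    rw [map_mul, map_mul]
    by_contra e
    exact left_ne_zero_of_mul (left_ne_zero_of_mul e) (h χ (fun k => hχ k ▸ hu k trivial)
      ⟨right_ne_zero_of_mul (left_ne_zero_of_mul e), right_ne_zero_of_mul e⟩)
  rw [h4, zero_dvd_iff, hom_algebraMap_TB, funext hχ] at h3
  rw [map_zero]
  exact h3

/-- the valuation ring `O` dominates the point `χ` -/
def Dom (O : VS Qb (TL M₁ M₂)) (χ : TB M₁ M₂ →ₐ[Qb] Qb) : Prop :=
  ∀ b, algebraMap _ (TL M₁ M₂) b ∈ O.1 ∧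
    rs O (algebraMap _ (TL M₁ M₂) b) = algebraMap Qb (RF O) (χ b)

theorem exists_dom (χ : TB M₁ M₂ →ₐ[Qb] Qb) : ∃ O, Dom M₁ M₂ O χ := by
  let L := IsScalarTower.toAlgHom Qb (TB M₁ M₂) (TL M₁ M₂)
  have hinj : Function.Injective L := C1_injL M₁ M₂
  obtain ⟨O, h1, h2⟩ := exists_vs_dom L.range (χ.comp (AlgEquiv.ofInjective L hinj).symm.toAlgHom)
  have h3 : ∀ x, L x ∈ O.1 := fun x => h1 (AlgEquiv.ofInjective L hinj x)
  have h4 : ∀ x, χ x = 0 → O.1.valuation (L x) < 1 := fun x hx => by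
    refine (h2 (AlgEquiv.ofInjective L hinj x)).2 ?_
    change χ ((AlgEquiv.ofInjective L hinj).symm (AlgEquiv.ofInjective L hinj x)) = 0
    rw [AlgEquiv.symm_apply_apply, hx]
  refine ⟨O, fun b => ⟨h3 b, ?_⟩⟩
  have h5 := (rs_eq_zero_iff O (h3 _)).2 (h4 (b - algebraMap Qb _ (χ b)) (by simp))
  have h6 : L b = L (b - algebraMap Qb _ (χ b)) + algebraMap Qb _ (χ b) := by
    rw [map_sub, L.commutes, sub_add_cancel]
  change rs O (L b) = _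
  rw [h6, rs_add O (h3 _) (O.2 _), h5, zero_add, rs_algebraMap]

/-- combination of monomials -/
noncomputable def cmb {I J : Type} (M₁ : Mdl Qb r₁ (I ⊕ J)) (M₂ : Mdl Qb r₂ (I ⊕ J))
    {A₁ A₂ c N : ℕ} (μ₁ : Fin N → Mon J r₁ A₁ c) (μ₂ : Fin N → Mon J r₂ A₂ c) (w : Fin N → Qb) :
    TB M₁ M₂ := ∑ i, w i • (e1B M₁ M₂ (M₁.mon (μ₁ i)) * e2B M₁ M₂ (M₂.mon (μ₂ i)))

end Pool.Agent.E6b
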