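import Pool.Agent.E6b.M1

/-! The coordinate ring of the product of two models is a domain. -/

namespace Pool.Agent.E6b

open Polynomial

theorem C1_dom {A L : Type} [CommRing A] [Field L] {r : ℕ} {f : A[X]} (hf : f.Monic)
    (φ : A →+* MvPolynomial (Fin r) L) (hφ : Function.Injective φ) (h : Irreducible (f.map φ)) :
    IsDomain (AdjoinRoot f) := by
  have hp : Prime (f.map φ) := h.prime
  have := hφ.isDomain
  refine AdjoinRoot.isDomain_of_prime ⟨hf.ne_zero, fun e => hp.not_isUnit (e.map (mapRingHom φ)),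
    fun a b hab => ?_⟩
  rw [← map_dvd_map φ hφ hf, Polynomial.map_mul] at hab
  rw [← map_dvd_map φ hφ hf, ← map_dvd_map φ hφ hf]
  exact hp.dvd_or_dvd hab

theorem C1_dvd_norm {R S : Type} [CommRing R] [CommRing S] [Algebra R S] [Module.Free R S]
    [Module.Finite R S] (x : S) : x ∣ algebraMap R S (Algebra.norm R x) := by
  have h1 : aeval x (Algebra.lmul R S x).charpoly = 0 := by
    apply Algebra.lmul_injective (R := R)
    rw [← aeval_algHom_apply, LinearMap.aeval_self_charpoly, map_zero]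
  have h2 : x ∣ algebraMap R S ((Algebra.lmul R S x).charpoly.coeff 0) := by
    rw [← (Algebra.lmul R S x).charpoly.X_mul_divX_add, map_add, map_mul, aeval_X, aeval_C] at h1
    exact ⟨-aeval x (Algebra.lmul R S x).charpoly.divX, by linear_combination h1⟩
  rw [Algebra.norm_apply]
  change x ∣ algebraMap R S (LinearMap.det (Algebra.lmul R S x))
  rw [LinearMap.det_eq_sign_charpoly_coeff, map_mul]
  exact h2.mul_left _

theorem C1_inf : {x : Qb | ∃ n : ℕ, 0 < n ∧ x ^ n = 1}.Infinite := by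
  choose z hz using fun n : ℕ => HasEnoughRootsOfUnity.exists_primitiveRoot Qb (n + 1)
  refine Set.infinite_of_injective_forall_mem (f := z) (fun a b e => ?_)
    fun n => ⟨n + 1, n.succ_pos, (hz n).pow_eq_one⟩
  exact Nat.succ_injective ((hz a).unique (e ▸ hz b))

theorem C1_ev2 {K R : Type} [Field K] [CommRing R] [Algebra K R] {r : ℕ} (u : Fin r → R) (ξ : R)
    (p : PP K r) : ev2 u ξ p = p.eval₂ (MvPolynomial.aeval u : _ →ₐ[K] R).toRingHom ξ := rfl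

theorem C1_root {r : ℕ} {ι : Type} (M : Mdl Qb r ι) (u : Fin r → Qb) : ∃ ξ, ev2 u ξ M.m = 0 := by
  have h : (M.m.map (MvPolynomial.aeval u : _ →ₐ[Qb] Qb).toRingHom).degree ≠ 0 := by
    rw [M.monic.degree_map]
    intro e
    exact M.irr.not_isUnit (by rw [M.monic.degree_le_zero_iff_eq_one.1 e.le]; exact isUnit_one)
  obtain ⟨ξ, hξ⟩ := IsAlgClosed.exists_root _ h
  exact ⟨ξ, by rw [C1_ev2, eval₂_eq_eval_map]; exact hξ⟩

variable {r₁ r₂ : ℕ} {ι : Type} (M₁ : Mdl Qb r₁ ι) (M₂ : Mdl Qb r₂ ι)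

theorem C1_monic1 : (tm1 (r₂ := r₂) M₁).Monic := M₁.monic.map _

theorem C1_monic2 : (tm2 M₁ M₂).Monic := M₂.monic.map _

theorem C1_dom1 : IsDomain (AdjoinRoot (tm1 (r₂ := r₂) M₁)) := by
  let L := FractionRing (MvPolynomial (Fin r₂) Qb)
  refine C1_dom (C1_monic1 M₁)
    ((MvPolynomial.map (algebraMap (MvPolynomial (Fin r₂) Qb) L)).comp
      (MvPolynomial.sumRingEquiv Qb (Fin r₁) (Fin r₂)).toRingHom)
    ((MvPolynomial.map_injective _ (IsFractionRing.injective _ _)).comp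
      (MvPolynomial.sumRingEquiv Qb (Fin r₁) (Fin r₂)).injective) ?_
  rw [tm1, Polynomial.map_map]
  convert irreducible_map ((algebraMap (MvPolynomial (Fin r₂) Qb) L).comp MvPolynomial.C)
    M₁.monic M₁.irr using 2
  refine MvPolynomial.ringHom_ext (fun c => ?_) fun k => ?_ <;> simp

theorem C1_emb : ∃ φ : AdjoinRoot (tm1 (r₂ := r₂) M₁) →+* MvPolynomial (Fin r₂) (AdjoinRoot M₁.m),
    Function.Injective φ ∧ φ.comp ((AdjoinRoot.of _).comp (MvPolynomial.rename Sum.inr).toRingHom) =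
      MvPolynomial.map ((AdjoinRoot.of M₁.m).comp MvPolynomial.C) := by
  let g : AdjoinRoot M₁.m →+* AdjoinRoot (tm1 (r₂ := r₂) M₁) :=
    AdjoinRoot.lift ((AdjoinRoot.of _).comp (MvPolynomial.rename Sum.inl).toRingHom)
      (AdjoinRoot.root _) (by rw [← eval₂_map]; exact AdjoinRoot.eval₂_root _)
  let ψ : MvPolynomial (Fin r₂) (AdjoinRoot M₁.m) →+* AdjoinRoot (tm1 (r₂ := r₂) M₁) :=
    MvPolynomial.eval₂Hom g fun k => AdjoinRoot.of _ (MvPolynomial.X (.inr k))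
  let φ₀ : R0 r₁ r₂ →+* MvPolynomial (Fin r₂) (AdjoinRoot M₁.m) :=
    MvPolynomial.eval₂Hom (MvPolynomial.C.comp ((AdjoinRoot.of M₁.m).comp MvPolynomial.C))
      (Sum.elim (fun k => MvPolynomial.C (AdjoinRoot.of M₁.m (MvPolynomial.X k))) MvPolynomial.X)
  have h0 : φ₀.comp (MvPolynomial.rename Sum.inl).toRingHom =
      MvPolynomial.C.comp (AdjoinRoot.of M₁.m) := by
    refine MvPolynomial.ringHom_ext (fun c => ?_) fun k => ?_ <;> simp [φ₀]
  let φ : AdjoinRoot (tm1 (r₂ := r₂) M₁) →+* MvPolynomial (Fin r₂) (AdjoinRoot M₁.m) :=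
    AdjoinRoot.lift φ₀ (MvPolynomial.C (AdjoinRoot.root _)) (by
      rw [tm1, eval₂_map, h0, ← hom_eval₂, AdjoinRoot.eval₂_root, map_zero])
  have h1 : ψ.comp φ = RingHom.id _ := by
    refine AdjoinRoot.ringHom_ext (MvPolynomial.ringHom_ext (fun c => ?_) fun k => ?_) ?_
    · simp [φ, φ₀, ψ, g]
    · rcases k with k | k <;> simp [φ, φ₀, ψ, g]
    · simp [φ, ψ, g]
  refine ⟨φ, Function.LeftInverse.injective (g := ψ) fun x => RingHom.congr_fun h1 x, ?_⟩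
  refine MvPolynomial.ringHom_ext (fun c => ?_) fun k => ?_ <;> simp [φ, φ₀]

theorem C1_dom2 : IsDomain (TB M₁ M₂) := by
  have : IsDomain (AdjoinRoot M₁.m) := AdjoinRoot.isDomain_of_prime M₁.irr.prime
  let L := FractionRing (AdjoinRoot M₁.m)
  obtain ⟨φ, h1, h2⟩ := C1_emb (r₂ := r₂) M₁
  refine C1_dom (C1_monic2 M₁ M₂) ((MvPolynomial.map (algebraMap (AdjoinRoot M₁.m) L)).comp φ)
    ((MvPolynomial.map_injective _ (IsFractionRing.injective _ _)).comp h1) ?_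
  rw [tm2, Polynomial.map_map, RingHom.comp_assoc, h2]
  convert irreducible_map ((algebraMap (AdjoinRoot M₁.m) L).comp
    ((AdjoinRoot.of M₁.m).comp MvPolynomial.C)) M₂.monic M₂.irr using 2
  refine MvPolynomial.ringHom_ext (fun c => ?_) fun k => ?_ <;> simp

theorem C1_basis : ∃ b : Module.Basis (Fin M₁.m.natDegree × Fin M₂.m.natDegree) (R0 r₁ r₂)
    (TB M₁ M₂), ∀ i, b i = x1B M₁ M₂ ^ (i.1 : ℕ) * x2B M₁ M₂ ^ (i.2 : ℕ) := by
  have := C1_dom1 (r₂ := r₂) M₁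
  have e1 : (tm1 (r₂ := r₂) M₁).natDegree = M₁.m.natDegree := M₁.monic.natDegree_map _
  have e2 : (tm2 M₁ M₂).natDegree = M₂.m.natDegree := M₂.monic.natDegree_map _
  let b1 := (AdjoinRoot.powerBasis' (C1_monic1 (r₂ := r₂) M₁)).basis.reindex (finCongr e1)
  let b2 := (AdjoinRoot.powerBasis' (C1_monic2 M₁ M₂)).basis.reindex (finCongr e2)
  refine ⟨b1.smulTower b2, fun i => ?_⟩
  rw [Module.Basis.smulTower_apply, Module.Basis.reindex_apply, Module.Basis.reindex_apply,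
    PowerBasis.basis_eq_pow, PowerBasis.basis_eq_pow, Algebra.smul_def, map_pow]
  rfl

theorem C1_aeval1 (p : MvPolynomial (Fin r₁) Qb) :
    MvPolynomial.aeval (fun k => uB M₁ M₂ (.inl k)) p =
      algebraMap (R0 r₁ r₂) (TB M₁ M₂) (MvPolynomial.rename Sum.inl p) := by
  have : (MvPolynomial.aeval fun k => uB M₁ M₂ (.inl k)) =
      (IsScalarTower.toAlgHom Qb (R0 r₁ r₂) (TB M₁ M₂)).comp (MvPolynomial.rename Sum.inl) :=
    MvPolynomial.algHom_ext fun k => by simp [uB]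
  rw [this]
  rfl

theorem C1_aeval2 (p : MvPolynomial (Fin r₂) Qb) :
    MvPolynomial.aeval (fun k => uB M₁ M₂ (.inr k)) p =
      algebraMap (R0 r₁ r₂) (TB M₁ M₂) (MvPolynomial.rename Sum.inr p) := by
  have : (MvPolynomial.aeval fun k => uB M₁ M₂ (.inr k)) =
      (IsScalarTower.toAlgHom Qb (R0 r₁ r₂) (TB M₁ M₂)).comp (MvPolynomial.rename Sum.inr) :=
    MvPolynomial.algHom_ext fun k => by simp [uB]
  rw [this]
  rfl

theorem C1_m1 : e1B M₁ M₂ M₁.m = 0 := by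
  have h : (MvPolynomial.aeval (fun k => uB M₁ M₂ (.inl k)) : _ →ₐ[Qb] _).toRingHom =
      (AdjoinRoot.of (tm2 M₁ M₂)).comp
        ((AdjoinRoot.of _).comp (MvPolynomial.rename Sum.inl).toRingHom) :=
    RingHom.ext fun p => C1_aeval1 M₁ M₂ p
  rw [e1B, C1_ev2, h, x1B, ← hom_eval₂, ← eval₂_map]
  exact (congrArg _ (AdjoinRoot.eval₂_root _)).trans (map_zero _)

theorem C1_m2 : e2B M₁ M₂ M₂.m = 0 := by
  have h : (MvPolynomial.aeval (fun k => uB M₁ M₂ (.inr k)) : _ →ₐ[Qb] _).toRingHom =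
      (AdjoinRoot.of (tm2 M₁ M₂)).comp
        ((AdjoinRoot.of _).comp (MvPolynomial.rename Sum.inr).toRingHom) :=
    RingHom.ext fun p => C1_aeval2 M₁ M₂ p
  rw [e2B, C1_ev2, h, x2B, ← eval₂_map]
  exact AdjoinRoot.eval₂_root _

theorem C1_lift {R : Type} [CommRing R] [Algebra Qb R] (u : Fin r₁ ⊕ Fin r₂ → R) (ξ₁ ξ₂ : R)
    (h₁ : ev2 (fun k => u (.inl k)) ξ₁ M₁.m = 0) (h₂ : ev2 (fun k => u (.inr k)) ξ₂ M₂.m = 0) :
    ∃ χ : TB M₁ M₂ →ₐ[Qb] R, (∀ k, χ (uB M₁ M₂ k) = u k) ∧ χ (x1B M₁ M₂) = ξ₁ ∧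
      χ (x2B M₁ M₂) = ξ₂ := by
  let χ₁ : AdjoinRoot (tm1 (r₂ := r₂) M₁) →ₐ[Qb] R :=
    AdjoinRoot.liftAlgHom _ (MvPolynomial.aeval u) ξ₁ (by
      rw [tm1, eval₂_map, ← h₁, C1_ev2]
      congr 1
      refine MvPolynomial.ringHom_ext (fun c => ?_) fun k => ?_ <;> simp)
  have e1 : ∀ p, χ₁ (AdjoinRoot.of _ p) = MvPolynomial.aeval u p := fun p =>
    AdjoinRoot.liftAlgHom_of _ _ _ _ _
  refine ⟨AdjoinRoot.liftAlgHom _ χ₁ ξ₂ ?_, fun k => ?_, ?_, AdjoinRoot.liftAlgHom_root _ _ _ _⟩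
  · rw [tm2, eval₂_map, ← h₂, C1_ev2]
    congr 1
    refine MvPolynomial.ringHom_ext (fun c => ?_) fun k => ?_ <;> simp [e1]
  · exact (AdjoinRoot.liftAlgHom_of _ _ _ _ _).trans ((e1 _).trans (MvPolynomial.aeval_X _ _))
  · exact (AdjoinRoot.liftAlgHom_of _ _ _ _ _).trans (AdjoinRoot.liftAlgHom_root _ _ _ _)

end Pool.Agent.E6b
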