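import Pool.Agent.E6b.Gelf

open scoped NNReal TensorProduct IntermediateField BigOperators Classical Topology
open Filter

namespace Pool.Agent.E6b

section Size

variable {σ : Type} {p : ℕ} {v : AbsoluteValue Qb ℝ}

theorem C2_th_mul (p : ℕ) (a b : ℝ) : th p (a * b) = th p a * th p b := by
  unfold th
  split_ifs <;> simp

theorem C2_th_pow (p : ℕ) (a : ℝ) (n : ℕ) : th p (a ^ n) = th p a ^ n := by
  unfold th
  split_ifs <;> simp

theorem C2_th_nonneg (p : ℕ) {a : ℝ} (ha : 0 ≤ a) : 0 ≤ th p a := by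
  unfold th
  split_ifs
  · exact ha
  · exact zero_le_one

theorem C2_one_le_th2 (p : ℕ) : 1 ≤ th p 2 := H2_one_le_th p one_le_two

theorem C2_th_le (p : ℕ) {n E : ℕ} (h : n ≤ E) : th p n ≤ th p 2 ^ E := by
  rw [← C2_th_pow]
  refine H2_th_mono p ?_
  exact_mod_cast h.trans Nat.lt_two_pow_self.le

/-- sum of the sizes of the coefficients -/
noncomputable def C2_l1 (v : AbsoluteValue Qb ℝ) (P : MvPolynomial σ Qb) : ℝ :=
  ∑ m ∈ P.support, v (P.coeff m)

theorem C2_l1_eq (P : MvPolynomial σ Qb) {s : Finset (σ →₀ ℕ)} (hs : P.support ⊆ s) :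
    C2_l1 v P = ∑ m ∈ s, v (P.coeff m) :=
  Finset.sum_subset hs fun m _ hm => by rw [MvPolynomial.notMem_support_iff.1 hm, map_zero]

theorem C2_l1_nonneg (P : MvPolynomial σ Qb) : 0 ≤ C2_l1 v P :=
  Finset.sum_nonneg fun _ _ => v.nonneg _

theorem C2_l1_add (P Q : MvPolynomial σ Qb) : C2_l1 v (P + Q) ≤ C2_l1 v P + C2_l1 v Q := by
  rw [C2_l1_eq (P + Q) MvPolynomial.support_add, C2_l1_eq P Finset.subset_union_left,
    C2_l1_eq Q Finset.subset_union_right, ← Finset.sum_add_distrib]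
  exact Finset.sum_le_sum fun m _ => by rw [MvPolynomial.coeff_add]; exact v.add_le _ _

theorem C2_l1_sum {ι : Type*} (s : Finset ι) (f : ι → MvPolynomial σ Qb) :
    C2_l1 v (∑ i ∈ s, f i) ≤ ∑ i ∈ s, C2_l1 v (f i) := by
  induction s using Finset.induction_on with
  | empty => simp [C2_l1]
  | insert a s ha ih =>
    rw [Finset.sum_insert ha, Finset.sum_insert ha]
    exact (C2_l1_add _ _).trans (by linarith)

theorem C2_l1_monomial (m : σ →₀ ℕ) (a : Qb) : C2_l1 v (MvPolynomial.monomial m a) ≤ v a := by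
  rw [C2_l1_eq _ MvPolynomial.support_monomial_subset]
  simp

theorem C2_l1_mul (P Q : MvPolynomial σ Qb) : C2_l1 v (P * Q) ≤ C2_l1 v P * C2_l1 v Q := by
  have e : P * Q = ∑ m ∈ P.support, ∑ n ∈ Q.support,
      MvPolynomial.monomial (m + n) (P.coeff m * Q.coeff n) := by
    conv_lhs => rw [P.as_sum, Q.as_sum]
    rw [Finset.sum_mul_sum]
    simp only [MvPolynomial.monomial_mul]
  rw [e]
  refine (C2_l1_sum _ _).trans ?_
  unfold C2_l1
  rw [Finset.sum_mul_sum]
  refine Finset.sum_le_sum fun m _ => (C2_l1_sum _ _).trans (Finset.sum_le_sum fun n _ => ?_)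
  exact (C2_l1_monomial _ _).trans (map_mul v _ _).le

/-- local size of a polynomial -/
noncomputable def C2_sz (p : ℕ) (v : AbsoluteValue Qb ℝ) (P : MvPolynomial σ Qb) : ℝ :=
  if p = 0 then C2_l1 v P else nrm v P.coeffs

theorem C2_sz_nonneg (P : MvPolynomial σ Qb) : 0 ≤ C2_sz p v P := by
  unfold C2_sz
  split_ifs
  · exact C2_l1_nonneg P
  · exact nrm_nonneg _ _

theorem C2_nrm_le_sz (P : MvPolynomial σ Qb) : nrm v P.coeffs ≤ C2_sz p v P := by
  unfold C2_sz
  split_ifs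
  · refine Gelf_nrm_le v P (C2_l1_nonneg P) fun m => ?_
    by_cases hm : m ∈ P.support
    · exact Finset.single_le_sum (f := fun m => v (P.coeff m)) (fun _ _ => v.nonneg _) hm
    · rw [MvPolynomial.notMem_support_iff.1 hm, map_zero]
      exact C2_l1_nonneg P
  · exact le_rfl

theorem C2_sz_mul (h : IsPl p v) (P Q : MvPolynomial σ Qb) :
    C2_sz p v (P * Q) ≤ C2_sz p v P * C2_sz p v Q := by
  unfold C2_sz
  split_ifs with hp
  · exact C2_l1_mul P Q
  · exact (nrm_coeffs_mul h hp P Q).le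

theorem C2_sz_monomial (m : σ →₀ ℕ) (a : Qb) : C2_sz p v (MvPolynomial.monomial m a) ≤ v a := by
  unfold C2_sz
  split_ifs
  · exact C2_l1_monomial m a
  · refine Gelf_nrm_le v _ (v.nonneg a) fun n => ?_
    rw [MvPolynomial.coeff_monomial]
    split_ifs
    · exact le_rfl
    · rw [map_zero]; exact v.nonneg a

theorem C2_sz_sum (h : IsPl p v) {ι : Type*} (s : Finset ι) (f : ι → MvPolynomial σ Qb) {M : ℝ}
    (hM : 0 ≤ M) (hf : ∀ i ∈ s, C2_sz p v (f i) ≤ M) :
    C2_sz p v (∑ i ∈ s, f i) ≤ th p s.card * M := by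
  by_cases hp : p = 0
  · simp only [C2_sz, th, if_pos hp] at hf ⊢
    refine (C2_l1_sum s f).trans ?_
    simpa using Finset.sum_le_card_nsmul s _ M hf
  · simp only [C2_sz, if_neg hp] at hf ⊢
    refine Gelf_nrm_le v _ (mul_nonneg (C2_th_nonneg p (Nat.cast_nonneg _)) hM) fun m => ?_
    rw [MvPolynomial.coeff_sum]
    exact h.sum_le s _ hM fun i hi => (Gelf_coeff_le v _ m).trans (hf i hi)

/-- bounds for the degrees and the local size -/
structure C2_Bd (p : ℕ) (v : AbsoluteValue Qb ℝ) (a : σ → ℕ) (c : ℝ) (P : MvPolynomial σ Qb) :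
    Prop where
  deg : ∀ k, P.degreeOf k ≤ a k
  sz : C2_sz p v P ≤ c

variable {a a' : σ → ℕ} {c c' : ℝ} {P Q : MvPolynomial σ Qb}

theorem C2_Bd.nonneg (h : C2_Bd p v a c P) : 0 ≤ c := (C2_sz_nonneg P).trans h.sz

theorem C2_Bd.mono (h : C2_Bd p v a c P) (ha : ∀ k, a k ≤ a' k) (hc : c ≤ c') :
    C2_Bd p v a' c' P := ⟨fun k => (h.deg k).trans (ha k), h.sz.trans hc⟩

theorem C2_Bd.mul (h : IsPl p v) (hP : C2_Bd p v a c P) (hQ : C2_Bd p v a' c' Q) :
    C2_Bd p v (fun k => a k + a' k) (c * c') (P * Q) :=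
  ⟨fun k => (MvPolynomial.degreeOf_mul_le k P Q).trans (add_le_add (hP.deg k) (hQ.deg k)),
    (C2_sz_mul h P Q).trans (mul_le_mul hP.sz hQ.sz (C2_sz_nonneg Q) hP.nonneg)⟩

theorem C2_Bd_C (x : Qb) : C2_Bd p v (fun _ => 0) (v x) (MvPolynomial.C x : MvPolynomial σ Qb) :=
  ⟨fun k => (MvPolynomial.degreeOf_C x k).le, C2_sz_monomial 0 x⟩

theorem C2_Bd_zero (hc : 0 ≤ c) : C2_Bd p v a c (0 : MvPolynomial σ Qb) := by
  have := C2_Bd_C (σ := σ) (p := p) (v := v) 0
  rw [map_zero, map_zero] at this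
  exact this.mono (fun _ => Nat.zero_le _) hc

theorem C2_Bd_one (hc : 1 ≤ c) : C2_Bd p v a c (1 : MvPolynomial σ Qb) := by
  have := C2_Bd_C (σ := σ) (p := p) (v := v) 1
  rw [map_one, map_one] at this
  exact this.mono (fun _ => Nat.zero_le _) hc

theorem C2_Bd.neg (h : IsPl p v) (hP : C2_Bd p v a c P) : C2_Bd p v a c (-P) := by
  have := (C2_Bd_C (σ := σ) (-1)).mul h hP
  rw [AbsoluteValue.map_neg, map_one, one_mul, map_neg, map_one, neg_one_mul] at this
  exact this.mono (fun _ => by simp) le_rfl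

theorem C2_Bd_sum (h : IsPl p v) {ι : Type*} (s : Finset ι) (f : ι → MvPolynomial σ Qb)
    (hc : 0 ≤ c) (hf : ∀ i ∈ s, C2_Bd p v a c (f i)) :
    C2_Bd p v a (th p s.card * c) (∑ i ∈ s, f i) :=
  ⟨fun k => (MvPolynomial.degreeOf_sum_le k s f).trans
    (Finset.sup_le fun i hi => (hf i hi).deg k), C2_sz_sum h s f hc fun i hi => (hf i hi).sz⟩

theorem C2_Bd_prod (h : IsPl p v) {ι : Type*} (s : Finset ι) (f : ι → MvPolynomial σ Qb)
    (hf : ∀ i ∈ s, C2_Bd p v a c (f i)) :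
    C2_Bd p v (fun k => s.card * a k) (c ^ s.card) (∏ i ∈ s, f i) := by
  induction s using Finset.induction_on with
  | empty => simpa using C2_Bd_one le_rfl
  | insert i s hi ih =>
    rw [Finset.prod_insert hi, Finset.card_insert_of_notMem hi]
    refine ((hf i (Finset.mem_insert_self _ _)).mul h
      (ih fun j hj => hf j (Finset.mem_insert_of_mem hj))).mono (fun k => ?_) ?_
    · exact le_of_eq (by ring)
    · exact le_of_eq (by ring)

theorem C2_Bd_det (h : IsPl p v) {I : Type} [Fintype I] [DecidableEq I]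
    (M : Matrix I I (MvPolynomial σ Qb)) (hc : 0 ≤ c) (hM : ∀ i j, C2_Bd p v a c (M i j)) :
    C2_Bd p v (fun k => Fintype.card I * a k)
      (th p (Fintype.card I).factorial * c ^ Fintype.card I) M.det := by
  rw [Matrix.det_apply, ← Fintype.card_perm]
  refine C2_Bd_sum h Finset.univ _ (pow_nonneg hc _) fun s _ => ?_
  have := C2_Bd_prod h Finset.univ (fun i => M (s i) i) fun i _ => hM _ _
  rcases Int.units_eq_one_or (Equiv.Perm.sign s) with e | e
  · rw [e, one_smul]; exact this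
  · rw [e, Units.neg_smul, one_smul]; exact this.neg h

theorem C2_card_support (r D : ℕ) : ∃ K : ℕ, ∀ q : MvPolynomial (Fin r) Qb, q.totalDegree ≤ D →
    q.support.card ≤ K := by
  refine ⟨(Finsupp.finite_of_degree_le (σ := Fin r) D).toFinset.card, fun q hq => ?_⟩
  refine Finset.card_le_card fun m hm => ?_
  rw [Set.Finite.mem_toFinset]
  exact (MvPolynomial.le_totalDegree hm).trans hq

theorem C2_Bd_rename (h : IsPl p v) {τ : Type} (f : τ → σ) {χ : σ → ℕ} (hχ : ∀ i, 1 ≤ χ (f i))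
    {S : Finset Qb} {D : ℕ} {q : MvPolynomial τ Qb} (hq : q.totalDegree ≤ D) (hS : q.coeffs ⊆ S) :
    C2_Bd p v (fun k => D * χ k) (th p q.support.card * nrm v S) (MvPolynomial.rename f q) := by
  constructor
  · intro k
    by_cases hk : χ k = 0
    · rw [MvPolynomial.degreeOf_le_iff]
      intro m hm
      obtain ⟨u, rfl, -⟩ := MvPolynomial.coeff_rename_ne_zero f q m (MvPolynomial.mem_support_iff.1 hm)
      rw [Finsupp.mapDomain_of_notMem_range]
      · exact Nat.zero_le _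
      · rintro ⟨i, rfl⟩
        have := hχ i
        omega
    · refine (MvPolynomial.degreeOf_le_totalDegree _ _).trans
        ((MvPolynomial.totalDegree_rename_le f q).trans (hq.trans ?_))
      exact Nat.le_mul_of_pos_right _ (Nat.pos_of_ne_zero hk)
  · conv_lhs => rw [q.as_sum, map_sum]
    refine C2_sz_sum h _ _ (nrm_nonneg _ _) fun m hm => ?_
    rw [MvPolynomial.rename_monomial]
    exact (C2_sz_monomial _ _).trans
      (le_nrm v (hS (MvPolynomial.coeff_mem_coeffs m (MvPolynomial.mem_support_iff.1 hm))))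

end Size

section Mat

variable {σ : Type} {p : ℕ} {v : AbsoluteValue Qb ℝ} {A I : Type} [CommRing A]
  [Algebra (MvPolynomial σ Qb) A] [Fintype I] [DecidableEq I]

/-- bounds for the entries of the matrix of multiplication -/
def C2_BE (p : ℕ) (v : AbsoluteValue Qb ℝ) (b : Module.Basis I (MvPolynomial σ Qb) A)
    (a : σ → ℕ) (c : ℝ) (z : A) : Prop :=
  0 ≤ c ∧ ∀ i j, C2_Bd p v a c (Algebra.leftMulMatrix b z i j)

variable {b : Module.Basis I (MvPolynomial σ Qb) A} {a a' : σ → ℕ} {c c' : ℝ} {z z' : A}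

theorem C2_BE.mono (h : C2_BE p v b a c z) (ha : ∀ k, a k ≤ a' k) (hc : c ≤ c') :
    C2_BE p v b a' c' z := ⟨h.1.trans hc, fun i j => (h.2 i j).mono ha hc⟩

theorem C2_BE.mul (h : IsPl p v) {E : ℕ} (hE : Fintype.card I ≤ E) (hz : C2_BE p v b a c z)
    (hz' : C2_BE p v b a' c' z') :
    C2_BE p v b (fun k => a k + a' k) (th p 2 ^ E * (c * c')) (z * z') := by
  have h0 := mul_nonneg hz.1 hz'.1
  refine ⟨mul_nonneg (pow_nonneg (C2_th_nonneg p zero_le_two) _) h0, fun i j => ?_⟩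
  rw [map_mul, Matrix.mul_apply]
  exact (C2_Bd_sum h Finset.univ _ h0 fun k _ => (hz.2 i k).mul h (hz'.2 k j)).mono
    (fun _ => le_rfl) (mul_le_mul_of_nonneg_right (C2_th_le p hE) h0)

theorem C2_BE_sum (h : IsPl p v) {ι : Type*} (s : Finset ι) (f : ι → A) (hc : 0 ≤ c)
    (hf : ∀ i ∈ s, C2_BE p v b a c (f i)) : C2_BE p v b a (th p s.card * c) (∑ i ∈ s, f i) := by
  refine ⟨mul_nonneg (C2_th_nonneg p (Nat.cast_nonneg _)) hc, fun i j => ?_⟩
  rw [map_sum, Matrix.sum_apply]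
  exact C2_Bd_sum h s _ hc fun k hk => (hf k hk).2 i j

theorem C2_BE.smul (h : IsPl p v) {P : MvPolynomial σ Qb} (hP : C2_Bd p v a c P)
    (hz : C2_BE p v b a' c' z) : C2_BE p v b (fun k => a k + a' k) (c * c') (P • z) := by
  refine ⟨mul_nonneg hP.nonneg hz.1, fun i j => ?_⟩
  rw [map_smul, Matrix.smul_apply, smul_eq_mul]
  exact hP.mul h (hz.2 i j)

theorem C2_BE_one (hc : 1 ≤ c) : C2_BE p v b a c 1 := by
  refine ⟨zero_le_one.trans hc, fun i j => ?_⟩
  rw [map_one, Matrix.one_apply]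
  split_ifs
  · exact C2_Bd_one hc
  · exact C2_Bd_zero (zero_le_one.trans hc)

/-- elements of the type of one block -/
def C2_Ty (p : ℕ) (v : AbsoluteValue Qb ℝ) (b : Module.Basis I (MvPolynomial σ Qb) A)
    (χ : σ → ℕ) (U : ℝ) (n : ℕ) (z : A) : Prop := C2_BE p v b (fun k => n * χ k) (U ^ n) z

variable {χ : σ → ℕ} {U : ℝ} {n n' E : ℕ}

theorem C2_Ty.mono (hU : th p 2 ≤ U) (hz : C2_Ty p v b χ U n z) (hn : n ≤ n') :
    C2_Ty p v b χ U n' z :=
  C2_BE.mono hz (fun _ => Nat.mul_le_mul_right _ hn)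
    (pow_le_pow_right₀ ((C2_one_le_th2 p).trans hU) hn)

theorem C2_Ty.mul (h : IsPl p v) (hU : th p 2 ≤ U) (hE : Fintype.card I ≤ E)
    (hz : C2_Ty p v b χ U n z) (hz' : C2_Ty p v b χ U n' z') :
    C2_Ty p v b χ U (n + n' + E) (z * z') := by
  refine (C2_BE.mul h hE hz hz').mono (fun k => ?_) ?_
  · nlinarith [Nat.zero_le (E * χ k)]
  · have h0 := mul_nonneg hz.1 hz'.1
    calc th p 2 ^ E * (U ^ n * U ^ n') ≤ U ^ E * (U ^ n * U ^ n') :=
          mul_le_mul_of_nonneg_right (pow_le_pow_left₀ (C2_th_nonneg p zero_le_two) hU _) h0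
      _ = U ^ (n + n' + E) := by ring

theorem C2_Ty_prod (h : IsPl p v) (hU : th p 2 ≤ U) (hE : Fintype.card I ≤ E) {ι : Type*}
    (s : Finset ι) (f : ι → A) (hf : ∀ i ∈ s, C2_Ty p v b χ U n (f i)) :
    C2_Ty p v b χ U (s.card * (n + E)) (∏ i ∈ s, f i) := by
  induction s using Finset.induction_on with
  | empty => exact C2_BE_one (by simp)
  | insert i s hi ih =>
    rw [Finset.prod_insert hi, Finset.card_insert_of_notMem hi]
    exact ((hf i (Finset.mem_insert_self _ _)).mul h hU hE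
      (ih fun j hj => hf j (Finset.mem_insert_of_mem hj))).mono hU (le_of_eq (by ring))

theorem C2_Ty_sum (h : IsPl p v) (hU : th p 2 ≤ U) {ι : Type*} (s : Finset ι) (f : ι → A)
    (hs : s.card ≤ n') (hf : ∀ i ∈ s, C2_Ty p v b χ U n (f i)) :
    C2_Ty p v b χ U (n + n') (∑ i ∈ s, f i) := by
  have hU0 : 0 ≤ U := (C2_th_nonneg p zero_le_two).trans hU
  refine (C2_BE_sum h s f (pow_nonneg hU0 n) hf).mono (fun k => ?_) ?_
  · nlinarith [Nat.zero_le (n' * χ k)]
  · calc th p s.card * U ^ n ≤ U ^ n' * U ^ n :=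
          mul_le_mul_of_nonneg_right ((C2_th_le p hs).trans
            (pow_le_pow_left₀ (C2_th_nonneg p zero_le_two) hU _)) (pow_nonneg hU0 n)
      _ = U ^ (n + n') := by ring

omit [Fintype I] [DecidableEq I] in
theorem C2_repr {K : Type} [Fintype K] (φ : K → I) (hφ : Function.Injective φ)
    (g : K → MvPolynomial σ Qb) (i : I) :
    b.repr (∑ k, g k • b (φ k)) i = 0 ∨ ∃ k, b.repr (∑ k, g k • b (φ k)) i = g k := by
  have e : b.repr (∑ k, g k • b (φ k)) i = ∑ k, g k * if φ k = i then 1 else 0 := by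
    rw [map_sum, Finsupp.finsetSum_apply]
    refine Finset.sum_congr rfl fun k _ => ?_
    rw [map_smul, Finsupp.smul_apply, Module.Basis.repr_self, Finsupp.single_apply, smul_eq_mul]
  rw [e]
  by_cases hi : ∃ k, φ k = i
  · obtain ⟨k, rfl⟩ := hi
    refine Or.inr ⟨k, ?_⟩
    rw [Finset.sum_eq_single k]
    · simp
    · intro k' _ hk
      rw [if_neg fun e => hk (hφ e), mul_zero]
    · simp
  · refine Or.inl (Finset.sum_eq_zero fun k _ => ?_)
    rw [if_neg fun e => hi ⟨k, e⟩, mul_zero]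

end Mat

section Block

/-- small degrees, coefficients in `S` -/
def C2_Ok {r : ℕ} (D : ℕ) (S : Finset Qb) (q : Polynomial (MvPolynomial (Fin r) Qb)) : Prop :=
  q.natDegree ≤ D ∧ ∀ i, (q.coeff i).totalDegree ≤ D ∧ (q.coeff i).coeffs ⊆ S

theorem C2_shift {R R' A : Type} [CommRing R] [CommRing R'] [CommRing A] [Algebra R' A]
    (ψ : R → R') (ε : Polynomial R →+* A)
    (hC : ∀ q, ε (Polynomial.C q) = algebraMap R' A (ψ q)) {m : Polynomial R} (hm : m.Monic)
    (h0 : ε m = 0) (j : Fin m.natDegree) : ∃ g : Fin m.natDegree → R',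
      (∀ k, g k = 0 ∨ g k = 1 ∨ ∃ i, g k = -ψ (m.coeff i)) ∧
      ε Polynomial.X * ε Polynomial.X ^ (j : ℕ) = ∑ k, g k • ε Polynomial.X ^ (k : ℕ) := by
  by_cases hj : (j : ℕ) + 1 < m.natDegree
  · refine ⟨fun k => if k = ⟨j + 1, hj⟩ then 1 else 0, fun k => ?_, ?_⟩
    · by_cases hk : k = ⟨j + 1, hj⟩ <;> simp [hk]
    · simp [pow_succ']
  · have hj' : (j : ℕ) + 1 = m.natDegree := by have := j.2; omega
    refine ⟨fun k => -ψ (m.coeff k), fun k => Or.inr (Or.inr ⟨k, rfl⟩), ?_⟩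
    rw [← pow_succ', hj']
    have e := congrArg ε hm.as_sum
    rw [h0, map_add, map_pow, map_sum, Finset.sum_range] at e
    simp only [map_mul, map_pow, hC] at e
    simp only [Algebra.smul_def, map_neg, neg_mul, Finset.sum_neg_distrib]
    exact eq_neg_of_add_eq_zero_left e.symm

theorem C2_block (r D E : ℕ) : ∃ L : ℕ, ∀ {σ A I : Type} [CommRing A]
    [Algebra (MvPolynomial σ Qb) A] [Fintype I] [DecidableEq I]
    (b : Module.Basis I (MvPolynomial σ Qb) A) (f : Fin r → σ) (χ : σ → ℕ)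
    (ε : Polynomial (MvPolynomial (Fin r) Qb) →+* A) (S : Finset Qb)
    (m : Polynomial (MvPolynomial (Fin r) Qb)), Fintype.card I ≤ E → (∀ i, 1 ≤ χ (f i)) →
    (∀ q, ε (Polynomial.C q) = algebraMap _ A (MvPolynomial.rename f q)) → (1 : Qb) ∈ S →
    C2_Ok D S m → (∀ i j, Algebra.leftMulMatrix b (ε Polynomial.X) i j = 0 ∨
      Algebra.leftMulMatrix b (ε Polynomial.X) i j = 1 ∨
      ∃ k, Algebra.leftMulMatrix b (ε Polynomial.X) i j = -MvPolynomial.rename f (m.coeff k)) →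
    ∀ p v, IsPl p v → ∀ {ι : Type} [Fintype ι] (q : ι → Polynomial (MvPolynomial (Fin r) Qb)),
      (∀ i, C2_Ok D S (q i)) →
      C2_Ty p v b χ (th p 2 * nrm v S) (Fintype.card ι * L) (ε (∏ i, q i)) := by
  obtain ⟨K, hK⟩ := C2_card_support r D
  refine ⟨(D + K + 1) + D * (D + K + 1 + E) + E + (D + 1) + E, ?_⟩
  intro σ A I _ _ _ _ b f χ ε S m hE hχ hC h1 hm hx p v h ι _ q hq
  have hN : 1 ≤ nrm v S := by simpa using le_nrm v h1
  have hθ := C2_one_le_th2 p
  set U := th p 2 * nrm v S with hUdef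
  have hU : th p 2 ≤ U := le_mul_of_one_le_right (zero_le_one.trans hθ) hN
  have hU' : nrm v S ≤ U := le_mul_of_one_le_left (zero_le_one.trans hN) hθ
  have hU1 : 1 ≤ U := hθ.trans hU
  have hren : ∀ t : MvPolynomial (Fin r) Qb, t.totalDegree ≤ D → t.coeffs ⊆ S →
      C2_Bd p v (fun k => (D + K + 1) * χ k) (U ^ (D + K + 1)) (MvPolynomial.rename f t) := by
    intro t ht hS
    refine (C2_Bd_rename h f hχ ht hS).mono (fun k => Nat.mul_le_mul_right _ (by omega)) ?_
    calc th p t.support.card * nrm v S ≤ U ^ K * U :=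
          mul_le_mul ((C2_th_le p (hK t ht)).trans
            (pow_le_pow_left₀ (zero_le_one.trans hθ) hU _)) hU' (nrm_nonneg _ _) (by positivity)
      _ = U ^ (K + 1) := by ring
      _ ≤ U ^ (D + K + 1) := pow_le_pow_right₀ hU1 (by omega)
  have hX : C2_Ty p v b χ U (D + K + 1) (ε Polynomial.X) := by
    refine ⟨by positivity, fun i j => ?_⟩
    rcases hx i j with e | e | ⟨k, e⟩
    · rw [e]; exact C2_Bd_zero (by positivity)
    · rw [e]; exact C2_Bd_one (one_le_pow₀ hU1)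
    · rw [e]; exact (hren _ (hm.2 k).1 (hm.2 k).2).neg h
  have hCq : ∀ t : MvPolynomial (Fin r) Qb, t.totalDegree ≤ D → t.coeffs ⊆ S →
      C2_Ty p v b χ U (D + K + 1) (ε (Polynomial.C t)) := by
    intro t ht hS
    rw [hC, Algebra.algebraMap_eq_smul_one]
    exact (C2_BE.smul h (hren t ht hS) (C2_BE_one (a := fun _ => 0) le_rfl)).mono
      (fun _ => by simp) (by simp)
  have hpow : ∀ i, i ≤ D → C2_Ty p v b χ U (D * (D + K + 1 + E)) (ε Polynomial.X ^ i) := by
    intro i hi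
    have := C2_Ty_prod h hU hE (Finset.range i) (fun _ => ε Polynomial.X) fun _ _ => hX
    rw [Finset.prod_const, Finset.card_range] at this
    exact this.mono hU (Nat.mul_le_mul_right _ hi)
  have hone : ∀ t, C2_Ok D S t →
      C2_Ty p v b χ U ((D + K + 1) + D * (D + K + 1 + E) + E + (D + 1)) (ε t) := by
    intro t ht
    rw [t.as_sum_range_C_mul_X_pow, map_sum]
    refine C2_Ty_sum h hU _ _ (by rw [Finset.card_range]; have := ht.1; omega) fun i hi => ?_
    rw [map_mul, map_pow]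
    refine (hCq _ (ht.2 i).1 (ht.2 i).2).mul h hU hE (hpow i ?_)
    have := Finset.mem_range.1 hi
    have := ht.1
    omega
  rw [map_prod]
  exact C2_Ty_prod h hU hE Finset.univ _ fun i _ => hone _ (hq i)

end Block

end Pool.Agent.E6b
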