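import Pool.Agent.E6b.C1
import Pool.Agent.E6b.C2Aux

open scoped NNReal TensorProduct IntermediateField BigOperators Classical Topology
open Filter

namespace Pool.Agent.E6b

theorem C2_ok_of {r D : ℕ} {S : Finset Qb} {q : PP Qb r} (h : CxP D q) (hS : cfs q ⊆ S) :
    C2_Ok (D + 1) S q := by
  refine ⟨h.1.trans (Nat.le_succ _), fun i => ⟨(h.2 i).trans (Nat.le_succ _), ?_⟩⟩
  by_cases hi : i ∈ q.support
  · exact (Finset.subset_biUnion_of_mem (fun i => (q.coeff i).coeffs) hi).trans hS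
  · rw [Polynomial.notMem_support_iff.1 hi, MvPolynomial.coeffs_zero]
    exact Finset.empty_subset _

theorem C2_ok_xp {r D : ℕ} {S : Finset Qb} (h1 : (1 : Qb) ∈ S) (o : Option (Option (Fin r))) :
    C2_Ok (D + 1) S (xp Qb r o) := by
  have hs : ({1} : Finset Qb) ⊆ S := Finset.singleton_subset_iff.2 h1
  have hz : (0 : MvPolynomial (Fin r) Qb).totalDegree ≤ D + 1 ∧
      (0 : MvPolynomial (Fin r) Qb).coeffs ⊆ S := ⟨by simp, by simp⟩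
  have ho : (1 : MvPolynomial (Fin r) Qb).totalDegree ≤ D + 1 ∧
      (1 : MvPolynomial (Fin r) Qb).coeffs ⊆ S := ⟨by simp, MvPolynomial.coeffs_one.trans hs⟩
  rcases o with _ | _ | k
  · refine ⟨by simp [xp], fun i => ?_⟩
    rw [xp, Polynomial.coeff_one]
    split_ifs
    · exact ho
    · exact hz
  · refine ⟨by simp [xp], fun i => ?_⟩
    rw [xp, Polynomial.coeff_X]
    split_ifs
    · exact ho
    · exact hz
  · refine ⟨by simp [xp], fun i => ?_⟩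
    rw [xp, Polynomial.coeff_C]
    split_ifs
    · refine ⟨by simp, ?_⟩
      rw [← mul_one (MvPolynomial.X k), MvPolynomial.coeffs_X_mul]
      exact ho.2
    · exact hz

section

variable {r : ℕ} {I J : Type} [Fintype I] [Fintype J] (M : Mdl Qb r (I ⊕ J))

theorem C2_one_mem : (1 : Qb) ∈ M.S := Finset.mem_insert_self _ _

theorem C2_cfs_m : cfs M.m ⊆ M.S := fun _ ha => by
  simp only [Mdl.S, Finset.mem_insert, Finset.mem_union]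
  exact Or.inr (Or.inl (Or.inl (Or.inl ha)))

theorem C2_cfs_P (l : I ⊕ J) : cfs (M.P l) ⊆ M.S := fun _ ha => by
  simp only [Mdl.S, Finset.mem_insert, Finset.mem_union, Finset.mem_biUnion]
  exact Or.inr (Or.inr ⟨l, Finset.mem_univ _, ha⟩)

theorem C2_mon {Δ A c : ℕ} (hM : M.Cx Δ) (μ : Mon J r A c) :
    ∃ q : Fin A ⊕ Fin c → PP Qb r, (∀ i, C2_Ok (Δ + 1) M.S (q i)) ∧ M.mon μ = ∏ i, q i := by
  refine ⟨Sum.elim (fun i => M.P (.inr (μ.1 i))) fun i => xp Qb r (μ.2 i), ?_, ?_⟩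
  · rintro (i | i)
    · exact C2_ok_of (hM.2.2.1 _) (C2_cfs_P M _)
    · exact C2_ok_xp (C2_one_mem M) _
  · rw [Fintype.prod_sum_type]
    rfl

end

theorem C2_ev2_X {R : Type} [CommRing R] [Algebra Qb R] {r : ℕ} (u : Fin r → R) (ξ : R) :
    ev2 u ξ (Polynomial.X : PP Qb r) = ξ := by
  simp [ev2]

section

variable {r₁ r₂ : ℕ} {ι : Type} (M₁ : Mdl Qb r₁ ι) (M₂ : Mdl Qb r₂ ι)
  (b : Module.Basis (Fin M₁.m.natDegree × Fin M₂.m.natDegree) (R0 r₁ r₂) (TB M₁ M₂))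
  (hb : ∀ i, b i = x1B M₁ M₂ ^ (i.1 : ℕ) * x2B M₁ M₂ ^ (i.2 : ℕ))

include hb

theorem C2_comp1 (i j : Fin M₁.m.natDegree × Fin M₂.m.natDegree) :
    Algebra.leftMulMatrix b ((e1B M₁ M₂).toRingHom Polynomial.X) i j = 0 ∨
    Algebra.leftMulMatrix b ((e1B M₁ M₂).toRingHom Polynomial.X) i j = 1 ∨
    ∃ k, Algebra.leftMulMatrix b ((e1B M₁ M₂).toRingHom Polynomial.X) i j =
      -MvPolynomial.rename Sum.inl (M₁.m.coeff k) := by
  obtain ⟨g, hg, e⟩ := C2_shift (R' := R0 r₁ r₂) (fun q => MvPolynomial.rename Sum.inl q)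
    (e1B M₁ M₂).toRingHom (e1B_C M₁ M₂) M₁.monic (e1B_m M₁ M₂) j.1
  have hx : (e1B M₁ M₂).toRingHom Polynomial.X = x1B M₁ M₂ := C2_ev2_X _ _
  rw [hx] at e ⊢
  have e2 : x1B M₁ M₂ * b j = ∑ k, g k • b (k, j.2) := by
    rw [hb, ← mul_assoc, e, Finset.sum_mul]
    refine Finset.sum_congr rfl fun k _ => ?_
    rw [hb, smul_mul_assoc]
  rw [Algebra.leftMulMatrix_eq_repr_mul, e2]
  rcases C2_repr (b := b) (fun k => (k, j.2)) (fun _ _ h => congrArg Prod.fst h) g i with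
    h | ⟨k, h⟩
  · exact Or.inl h
  · rw [h]; exact hg k

theorem C2_comp2 (i j : Fin M₁.m.natDegree × Fin M₂.m.natDegree) :
    Algebra.leftMulMatrix b ((e2B M₁ M₂).toRingHom Polynomial.X) i j = 0 ∨
    Algebra.leftMulMatrix b ((e2B M₁ M₂).toRingHom Polynomial.X) i j = 1 ∨
    ∃ k, Algebra.leftMulMatrix b ((e2B M₁ M₂).toRingHom Polynomial.X) i j =
      -MvPolynomial.rename Sum.inr (M₂.m.coeff k) := by
  obtain ⟨g, hg, e⟩ := C2_shift (R' := R0 r₁ r₂) (fun q => MvPolynomial.rename Sum.inr q)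
    (e2B M₁ M₂).toRingHom (e2B_C M₁ M₂) M₂.monic (e2B_m M₁ M₂) j.2
  have hx : (e2B M₁ M₂).toRingHom Polynomial.X = x2B M₁ M₂ := C2_ev2_X _ _
  rw [hx] at e ⊢
  have e2 : x2B M₁ M₂ * b j = ∑ k, g k • b (j.1, k) := by
    rw [hb, mul_left_comm, e, Finset.mul_sum]
    refine Finset.sum_congr rfl fun k _ => ?_
    rw [hb, mul_smul_comm]
  rw [Algebra.leftMulMatrix_eq_repr_mul, e2]
  rcases C2_repr (b := b) (fun k => (j.1, k)) (fun _ _ h => congrArg Prod.snd h) g i with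
    h | ⟨k, h⟩
  · exact Or.inl h
  · rw [h]; exact hg k

end

theorem C2_local (r₁ r₂ Δ : ℕ) : ∃ L : ℕ, ∀ {I J : Type} [Fintype I] [Fintype J]
    (M₁ : Mdl Qb r₁ (I ⊕ J)) (M₂ : Mdl Qb r₂ (I ⊕ J)), M₁.Cx Δ → M₂.Cx Δ → ∃ e ≤ Δ * Δ,
    ∀ {A₁ A₂ c N : ℕ} (μ₁ : Fin N → Mon J r₁ A₁ c) (μ₂ : Fin N → Mon J r₂ A₂ c) (w : Fin N → Qb)
      (p : ℕ) (v : AbsoluteValue Qb ℝ), IsPl p v →
      C2_Bd p v (Sum.elim (fun _ => e * ((A₁ + c) * L)) fun _ => e * ((A₂ + c) * L))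
        (th p e.factorial * (th p N * (nv v w * (th p 2 ^ (Δ * Δ) *
          ((th p 2 * nrm v M₁.S) ^ ((A₁ + c) * L) * (th p 2 * nrm v M₂.S) ^ ((A₂ + c) * L))))) ^ e)
        (nrB M₁ M₂ (cmb M₁ M₂ μ₁ μ₂ w)) := by
  obtain ⟨L₁, hL₁⟩ := C2_block r₁ (Δ + 1) (Δ * Δ)
  obtain ⟨L₂, hL₂⟩ := C2_block r₂ (Δ + 1) (Δ * Δ)
  refine ⟨L₁ + L₂, ?_⟩
  intro I J _ _ M₁ M₂ h₁ h₂
  obtain ⟨b, hb⟩ := exists_basis_TB M₁ M₂
  have hE : Fintype.card (Fin M₁.m.natDegree × Fin M₂.m.natDegree) ≤ Δ * Δ := by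
    rw [Fintype.card_prod, Fintype.card_fin, Fintype.card_fin]
    exact Nat.mul_le_mul h₁.1.1 h₂.1.1
  refine ⟨_, hE, ?_⟩
  intro A₁ A₂ c N μ₁ μ₂ w p v h
  have hθ := C2_one_le_th2 p
  have hN₁ : 1 ≤ nrm v M₁.S := by simpa using le_nrm v (C2_one_mem M₁)
  have hN₂ : 1 ≤ nrm v M₂.S := by simpa using le_nrm v (C2_one_mem M₂)
  have hU₁ : th p 2 ≤ th p 2 * nrm v M₁.S := le_mul_of_one_le_right (zero_le_one.trans hθ) hN₁
  have hU₂ : th p 2 ≤ th p 2 * nrm v M₂.S := le_mul_of_one_le_right (zero_le_one.trans hθ) hN₂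
  have k₁ : ∀ i, C2_Ty p v b (Sum.elim (fun _ => 1) fun _ => 0) (th p 2 * nrm v M₁.S)
      ((A₁ + c) * (L₁ + L₂)) (e1B M₁ M₂ (M₁.mon (μ₁ i))) := by
    intro i
    obtain ⟨q, hq, e⟩ := C2_mon M₁ h₁ (μ₁ i)
    have := hL₁ b Sum.inl (Sum.elim (fun _ => 1) fun _ => 0) (e1B M₁ M₂).toRingHom M₁.S M₁.m hE
      (fun _ => le_rfl) (e1B_C M₁ M₂) (C2_one_mem M₁) (C2_ok_of h₁.1 (C2_cfs_m M₁))
      (C2_comp1 M₁ M₂ b hb) p v h q hq
    rw [Fintype.card_sum, Fintype.card_fin, Fintype.card_fin, ← e] at this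
    exact this.mono hU₁ (Nat.mul_le_mul_left _ (Nat.le_add_right _ _))
  have k₂ : ∀ i, C2_Ty p v b (Sum.elim (fun _ => 0) fun _ => 1) (th p 2 * nrm v M₂.S)
      ((A₂ + c) * (L₁ + L₂)) (e2B M₁ M₂ (M₂.mon (μ₂ i))) := by
    intro i
    obtain ⟨q, hq, e⟩ := C2_mon M₂ h₂ (μ₂ i)
    have := hL₂ b Sum.inr (Sum.elim (fun _ => 0) fun _ => 1) (e2B M₁ M₂).toRingHom M₂.S M₂.m hE
      (fun _ => le_rfl) (e2B_C M₁ M₂) (C2_one_mem M₂) (C2_ok_of h₂.1 (C2_cfs_m M₂))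
      (C2_comp2 M₁ M₂ b hb) p v h q hq
    rw [Fintype.card_sum, Fintype.card_fin, Fintype.card_fin, ← e] at this
    exact this.mono hU₂ (Nat.mul_le_mul_left _ (Nat.le_add_left _ _))
  have hW : 0 ≤ nv v w := nrm_nonneg _ _
  have k₃ : C2_BE p v b (Sum.elim (fun _ => (A₁ + c) * (L₁ + L₂)) fun _ => (A₂ + c) * (L₁ + L₂))
      (th p N * (nv v w * (th p 2 ^ (Δ * Δ) * ((th p 2 * nrm v M₁.S) ^ ((A₁ + c) * (L₁ + L₂)) *
        (th p 2 * nrm v M₂.S) ^ ((A₂ + c) * (L₁ + L₂)))))) (cmb M₁ M₂ μ₁ μ₂ w) := by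
    have := C2_BE_sum (b := b) h Finset.univ
      (fun i => w i • (e1B M₁ M₂ (M₁.mon (μ₁ i)) * e2B M₁ M₂ (M₂.mon (μ₂ i))))
      (a := Sum.elim (fun _ => (A₁ + c) * (L₁ + L₂)) fun _ => (A₂ + c) * (L₁ + L₂))
      (c := nv v w * (th p 2 ^ (Δ * Δ) * ((th p 2 * nrm v M₁.S) ^ ((A₁ + c) * (L₁ + L₂)) *
        (th p 2 * nrm v M₂.S) ^ ((A₂ + c) * (L₁ + L₂))))) (by positivity) fun i _ => by
        rw [← algebraMap_smul (R0 r₁ r₂) (w i), MvPolynomial.algebraMap_eq]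
        refine (C2_BE.smul h (C2_Bd_C (w i)) (C2_BE.mul h hE (k₁ i) (k₂ i))).mono ?_ ?_
        · rintro (k | k) <;> simp
        · exact mul_le_mul_of_nonneg_right
            (le_nrm v (Finset.mem_image_of_mem w (Finset.mem_univ i))) (by positivity)
    rw [Finset.card_univ, Fintype.card_fin] at this
    exact this
  rw [nrB, Algebra.norm_eq_matrix_det b]
  refine (C2_Bd_det h _ k₃.1 k₃.2).mono ?_ le_rfl
  rintro (k | k) <;> simp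

theorem C2_th_bound (p : ℕ) {e E N n₁ n₂ : ℕ} (he : e ≤ E) {W N₁ N₂ : ℝ} (hW : 0 ≤ W)
    (h₁ : 1 ≤ N₁) (h₂ : 1 ≤ N₂) :
    th p e.factorial * (th p N * (W * (th p 2 ^ E *
      ((th p 2 * N₁) ^ n₁ * (th p 2 * N₂) ^ n₂)))) ^ e ≤
    th p (2 ^ (E.factorial + E * E + E * n₁ + E * n₂) * ((N : ℝ) + 1) ^ E) *
      (W ^ e * N₁ ^ (E * n₁) * N₂ ^ (E * n₂)) := by
  have hθ := C2_one_le_th2 p
  have hN : 1 ≤ th p ((N : ℝ) + 1) :=
    H2_one_le_th p (le_add_of_nonneg_left (Nat.cast_nonneg N))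
  have hN0 : 0 ≤ th p (N : ℝ) := C2_th_nonneg p (Nat.cast_nonneg N)
  have hNN : th p (N : ℝ) ≤ th p ((N : ℝ) + 1) := H2_th_mono p (by linarith)
  have a1 : th p e.factorial ≤ th p 2 ^ E.factorial := C2_th_le p (Nat.factorial_le he)
  set Y := th p 2 ^ E * ((th p 2 * N₁) ^ n₁ * (th p 2 * N₂) ^ n₂) with hY
  have hY1 : 1 ≤ Y := one_le_mul_of_one_le_of_one_le (one_le_pow₀ hθ)
    (one_le_mul_of_one_le_of_one_le (one_le_pow₀ (one_le_mul_of_one_le_of_one_le hθ h₁))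
      (one_le_pow₀ (one_le_mul_of_one_le_of_one_le hθ h₂)))
  have a2 : th p (N : ℝ) ^ e ≤ th p ((N : ℝ) + 1) ^ E :=
    (pow_le_pow_left₀ hN0 hNN e).trans (pow_le_pow_right₀ hN he)
  have a3 : Y ^ e ≤ Y ^ E := pow_le_pow_right₀ hY1 he
  rw [C2_th_mul, C2_th_pow, C2_th_pow]
  calc th p e.factorial * (th p N * (W * Y)) ^ e
      = th p e.factorial * (th p N ^ e * (W ^ e * Y ^ e)) := by rw [mul_pow, mul_pow]
    _ ≤ th p 2 ^ E.factorial * (th p ((N : ℝ) + 1) ^ E * (W ^ e * Y ^ E)) := by gcongr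
    _ = _ := by rw [hY]; ring

/-- degree and height of the norm of a combination of monomials -/
theorem norm_bound (r₁ r₂ Δ : ℕ) : ∃ C : ℕ, ∀ {I J : Type} [Fintype I] [Fintype J]
    (M₁ : Mdl Qb r₁ (I ⊕ J)) (M₂ : Mdl Qb r₂ (I ⊕ J)), M₁.Cx Δ → M₂.Cx Δ →
    ∀ {A₁ A₂ c N : ℕ} (μ₁ : Fin N → Mon J r₁ A₁ c) (μ₂ : Fin N → Mon J r₂ A₂ c) (w : Fin N → Qb),
      (∀ k, (nrB M₁ M₂ (cmb M₁ M₂ μ₁ μ₂ w)).degreeOf (.inl k) ≤ C * (A₁ + c)) ∧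
      (∀ k, (nrB M₁ M₂ (cmb M₁ M₂ μ₁ μ₂ w)).degreeOf (.inr k) ≤ C * (A₂ + c)) ∧
      hp (nrB M₁ M₂ (cmb M₁ M₂ μ₁ μ₂ w)) ≤ C * (hv w + Real.log (N + 1) +
        (A₁ + c) * (ht M₁.S + 1) + (A₂ + c) * (ht M₂.S + 1) + 1) := by
  obtain ⟨L, hL⟩ := C2_local r₁ r₂ Δ
  set E := Δ * Δ with hEdef
  refine ⟨E.factorial + E * E + E * L + E, ?_⟩
  intro I J _ _ M₁ M₂ h₁ h₂ A₁ A₂ c N μ₁ μ₂ w
  obtain ⟨e, he, hloc⟩ := hL M₁ M₂ h₁ h₂
  have hdeg : ∀ n : ℕ, e * (n * L) ≤ (E.factorial + E * E + E * L + E) * n := fun n => by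
    calc e * (n * L) ≤ E * (n * L) := Nat.mul_le_mul_right _ he
      _ = E * L * n := by ring
      _ ≤ _ := Nat.mul_le_mul_right _ (by omega)
  obtain ⟨v₀, hv₀⟩ := exists_isPl (p := 0) (Or.inl rfl)
  refine ⟨fun k => ((hloc μ₁ μ₂ w 0 v₀ hv₀).deg (.inl k)).trans (hdeg _),
    fun k => ((hloc μ₁ μ₂ w 0 v₀ hv₀).deg (.inr k)).trans (hdeg _), ?_⟩
  have hw0 : 0 ≤ hv w := ht_nonneg _
  have hs₁ : 0 ≤ ht M₁.S := ht_nonneg _
  have hs₂ : 0 ≤ ht M₂.S := ht_nonneg _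
  have hN1 : (1 : ℝ) ≤ (N : ℝ) + 1 := le_add_of_nonneg_left (Nat.cast_nonneg N)
  have hlN : 0 ≤ Real.log ((N : ℝ) + 1) := Real.log_nonneg hN1
  by_cases hn : nrB M₁ M₂ (cmb M₁ M₂ μ₁ μ₂ w) = 0
  · rw [hn, hp, htSpec.zero _ (by simp)]
    positivity
  have hw : w ≠ 0 := by
    rintro rfl
    apply hn
    simp [cmb, nrB]
  have key := ht_le_of_local (r := Fin 3) (Gelf_exists_ne hn) ![Finset.univ.image w, M₁.S, M₂.S]
    (fun i => by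
      fin_cases i
      · exact H2_vec_ne hw
      · exact ⟨1, C2_one_mem M₁, one_ne_zero⟩
      · exact ⟨1, C2_one_mem M₂, one_ne_zero⟩)
    ![(e : ℝ), (E * ((A₁ + c) * L) : ℕ), (E * ((A₂ + c) * L) : ℕ)]
    (c := 2 ^ (E.factorial + E * E + E * ((A₁ + c) * L) + E * ((A₂ + c) * L)) * ((N : ℝ) + 1) ^ E)
    (by positivity) fun p v h => by
      refine (C2_nrm_le_sz (p := p) _).trans ((hloc μ₁ μ₂ w p v h).sz.trans ?_)
      refine (C2_th_bound p he (nrm_nonneg _ _) (by simpa using le_nrm v (C2_one_mem M₁))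
        (by simpa using le_nrm v (C2_one_mem M₂))).trans (le_of_eq ?_)
      simp only [Fin.prod_univ_three, Matrix.cons_val_zero, Matrix.cons_val_one, Matrix.cons_val,
        Real.rpow_natCast]
  simp only [Fin.sum_univ_three, Matrix.cons_val_zero, Matrix.cons_val_one, Matrix.cons_val] at key
  rw [Real.log_mul (by positivity) (by positivity), Real.log_pow, Real.log_pow] at key
  have hl2 : Real.log 2 ≤ 1 := by
    have := Real.log_le_sub_one_of_pos (x := 2) two_pos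
    linarith
  have heE : (e : ℝ) ≤ E := by exact_mod_cast he
  refine key.trans ?_
  change _ + (e * hv w + _ + _) ≤ _
  push_cast
  set F : ℝ := (E.factorial : ℝ)
  have hF : 0 ≤ F := Nat.cast_nonneg _
  set a₁ : ℝ := (A₁ : ℝ) + c
  set a₂ : ℝ := (A₂ : ℝ) + c
  have ha₁ : 0 ≤ a₁ := by positivity
  have ha₂ : 0 ≤ a₂ := by positivity
  have hE0 : (0 : ℝ) ≤ E := Nat.cast_nonneg _
  have hL0 : (0 : ℝ) ≤ L := Nat.cast_nonneg _
  have b1 : (F + E * E + E * (a₁ * L) + E * (a₂ * L)) * Real.log 2 ≤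
      F + E * E + E * (a₁ * L) + E * (a₂ * L) := mul_le_of_le_one_right (by positivity) hl2
  have b2 : (e : ℝ) * hv w ≤ E * hv w := mul_le_mul_of_nonneg_right heE hw0
  have b3 : 0 ≤ (F + E * E + E * L) * (hv w + Real.log ((N : ℝ) + 1)) := by positivity
  have b4 : 0 ≤ (F + E * E + E) * (a₁ * (ht M₁.S + 1) + a₂ * (ht M₂.S + 1)) := by positivity
  have b5 : (0 : ℝ) ≤ E * L + E := by positivity
  nlinarith

end Pool.Agent.E6b
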