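import Pool.Agent.E6b.M1

open scoped NNReal TensorProduct IntermediateField BigOperators Classical Topology
open Filter

namespace Pool.Agent.E6b

theorem C3_ev2_C {K R : Type} [Field K] [CommRing R] [Algebra K R] {r : ℕ} (u : Fin r → R) (ξ : R)
    (c : MvPolynomial (Fin r) K) : ev2 u ξ (Polynomial.C c) = MvPolynomial.aeval u c :=
  Polynomial.eval₂_C _ _

theorem C3_ev2_X {K R : Type} [Field K] [CommRing R] [Algebra K R] {r : ℕ} (u : Fin r → R)
    (ξ : R) : ev2 (K := K) u ξ Polynomial.X = ξ :=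
  Polynomial.eval₂_X _ _

theorem C3_ev2_map {K R : Type} [Field K] [CommRing R] [Algebra K R] {r : ℕ} (u : Fin r → R)
    (ξ : R) (p : PP K r) :
    (p.map (MvPolynomial.aeval u : MvPolynomial (Fin r) K →ₐ[K] R).toRingHom).eval ξ =
      ev2 u ξ p :=
  Polynomial.eval_map _ _

theorem C3_coeffs_sub {K : Type} [Field K] {r : ℕ} (p : PP K r) (i : ℕ) :
    (p.coeff i).coeffs ⊆ cfs p := by
  by_cases h : p.coeff i = 0
  · rw [h, MvPolynomial.coeffs_zero]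
    exact Finset.empty_subset _
  · exact Finset.subset_biUnion_of_mem (fun i => (p.coeff i).coeffs)
      (Polynomial.mem_support_iff.2 h)

theorem C3_cfs_C {K : Type} [Field K] {r : ℕ} (c : MvPolynomial (Fin r) K) :
    cfs (Polynomial.C c) ⊆ c.coeffs := by
  refine Finset.biUnion_subset.2 fun i _ => ?_
  rw [Polynomial.coeff_C]
  split_ifs
  · exact Finset.Subset.refl _
  · rw [MvPolynomial.coeffs_zero]
    exact Finset.empty_subset _

theorem C3_cx_C {K : Type} [Field K] {r Δ : ℕ} {c : MvPolynomial (Fin r) K}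
    (h : c.totalDegree ≤ Δ) : CxP Δ (Polynomial.C c) := by
  refine ⟨by rw [Polynomial.natDegree_C]; exact Nat.zero_le _, fun i => ?_⟩
  rw [Polynomial.coeff_C]
  split_ifs
  · exact h
  · rw [MvPolynomial.totalDegree_zero]
    exact Nat.zero_le _

section
variable {K : Type} [Field K] {r : ℕ} {ι : Type} [Fintype ι] (M : Mdl K r ι)

theorem C3_one_mem : (1 : K) ∈ M.S := Finset.mem_insert_self _ _

theorem C3_m_sub : cfs M.m ⊆ M.S := fun a ha => by simp [Mdl.S, ha]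

theorem C3_q_sub : M.q.coeffs ⊆ M.S := fun a ha => by simp [Mdl.S, ha]

theorem C3_P'_sub : cfs M.P' ⊆ M.S := fun a ha => by simp [Mdl.S, ha]

theorem C3_P_sub (l : ι) : cfs (M.P l) ⊆ M.S := fun _ ha =>
  Finset.mem_insert_of_mem (Finset.mem_union_right _
    (Finset.mem_biUnion.2 ⟨l, Finset.mem_univ _, ha⟩))

end

open MvPowerSeries

theorem C3_SB_one {σ : Type} [Fintype σ] {S : Finset Qb} (h1 : 1 ∈ S) :
    SB S 1 (1 : MvPowerSeries σ Qb) := by
  have := SB.C (σ := σ) h1 h1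
  rwa [map_one] at this

theorem C3_SB_pow (σ : Type) [Fintype σ] (k n : ℕ) : ∃ k' : ℕ, ∀ (S : Finset Qb)
    (W : MvPowerSeries σ Qb), 1 ∈ S → SB S k W → ∀ i ≤ n, SB S k' (W ^ i) := by
  induction n with
  | zero =>
    refine ⟨1, fun S W h1 _ i hi => ?_⟩
    rw [Nat.le_zero.1 hi, pow_zero]
    exact C3_SB_one h1
  | succ n ih =>
    obtain ⟨k', hk'⟩ := ih
    refine ⟨2 * (k' + k) + Fintype.card σ + 1, fun S W h1 hW i hi => ?_⟩
    rcases Nat.lt_or_ge i (n + 1) with h | h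
    · exact (hk' S W h1 hW i (by omega)).mono h1 (Finset.Subset.refl _) (by omega)
    · rw [le_antisymm hi h, pow_succ]
      exact SB.mul h1 ((hk' S W h1 hW n le_rfl).mono h1 (Finset.Subset.refl _) (by omega))
        (hW.mono h1 (Finset.Subset.refl _) (by omega))

theorem C3_SB_sum {σ : Type} [Fintype σ] {S : Finset Qb} (h1 : 1 ∈ S) {k : ℕ} (n : ℕ)
    (f : ℕ → MvPowerSeries σ Qb) (hf : ∀ i < n, SB S k (f i)) :
    SB S (k + n) (∑ i ∈ Finset.range n, f i) := by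
  induction n with
  | zero =>
    intro p v _ m
    rw [Finset.sum_range_zero, map_zero, map_zero]
    exact pow_nonneg (zero_le_one.trans (TB1_one_le p v h1)) _
  | succ n ih =>
    rw [Finset.sum_range_succ]
    exact SB.add h1 (ih fun i hi => hf i (by omega))
      ((hf n (by omega)).mono h1 (Finset.Subset.refl _) (Nat.le_add_right _ _))

theorem C3_SB (σ : Type) [Fintype σ] (r k Δ : ℕ) : ∃ k' : ℕ, ∀ (S : Finset Qb)
    (x : Fin r → MvPowerSeries σ Qb) (W : MvPowerSeries σ Qb) (P : PP Qb r), 1 ∈ S →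
    (∀ i, SB S k (x i)) → SB S k W → CxP Δ P → cfs P ⊆ S → SB S k' (ev2 x W P) := by
  obtain ⟨k₁, h₁⟩ := exists_SB_aeval σ (Fin r) k Δ
  obtain ⟨k₂, h₂⟩ := C3_SB_pow σ k Δ
  refine ⟨2 * (k₁ + k₂) + Fintype.card σ + 1 + (Δ + 1), fun S x W P h1 hx hW hP hS => ?_⟩
  have e : ev2 x W P = ∑ i ∈ Finset.range (Δ + 1), MvPolynomial.aeval x (P.coeff i) * W ^ i :=
    Polynomial.eval₂_eq_sum_range' _ (Nat.lt_succ_of_le hP.1) _
  rw [e]
  refine C3_SB_sum h1 _ _ fun i hi => SB.mul h1 ?_ ?_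
  · exact (h₁ S x _ h1 hx (hP.2 i) ((C3_coeffs_sub P i).trans hS)).mono h1
      (Finset.Subset.refl _) (by omega)
  · exact (h₂ S W h1 hW i (by omega)).mono h1 (Finset.Subset.refl _) (by omega)

/-- the constant coefficient -/
noncomputable def C3_cc (σ : Type) : MvPowerSeries σ Qb →ₐ[Qb] Qb :=
  { (constantCoeff : MvPowerSeries σ Qb →+* Qb) with commutes' := fun a => constantCoeff_C a }

theorem C3_cc_ev2 {σ : Type} {r : ℕ} (x : Fin r → MvPowerSeries σ Qb) (W : MvPowerSeries σ Qb)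
    {u : Fin r → Qb} {ξ : Qb} (hx : ∀ i, constantCoeff (x i) = u i) (hW : constantCoeff W = ξ)
    (P : PP Qb r) : constantCoeff (ev2 x W P) = ev2 u ξ P := by
  have := map_ev2 (C3_cc σ) x W P
  rw [← hW, ← funext hx]
  exact this

theorem C3_ht {S T : Finset Qb} (h1 : 1 ∈ S) (k : ℕ)
    (h : ∀ p v, IsPl p v → ∀ a ∈ T, v a ≤ (th p 2 * nrm v S) ^ k) : ht T ≤ k * (ht S + 1) := by
  have h2 := ht_le_of_local1 (s := insert 1 T) (t := S) ⟨1, Finset.mem_insert_self _ _, one_ne_zero⟩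
    ⟨1, h1, one_ne_zero⟩ k (c := 2 ^ k) (by positivity) fun p v hv => by
      rw [TB1_th_pow, ← mul_pow]
      have h3 : 1 ≤ (th p 2 * nrm v S) ^ k := one_le_pow₀ (TB1_one_le p v h1)
      refine nrm_le v (zero_le_one.trans h3) fun a ha => ?_
      rcases Finset.mem_insert.1 ha with rfl | ha
      · rwa [map_one]
      · exact h p v hv a ha
  have h3 := ht_mono (Finset.subset_insert 1 T)
  have h4 : Real.log 2 ≤ 1 := by
    have := Real.log_le_sub_one_of_pos (x := 2) two_pos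
    linarith
  rw [Real.log_pow] at h2
  have h5 : (k : ℝ) * Real.log 2 ≤ k * 1 := mul_le_mul_of_nonneg_left h4 (Nat.cast_nonneg k)
  linarith

/-- heights of families of values -/
theorem C3_val (r Δ : ℕ) : ∃ k : ℕ, ∀ (S T : Finset Qb) (u : Fin r → Qb) (ξ : Qb), 1 ∈ S →
    (∀ i, u i ∈ S) → ξ ∈ S →
    (∀ a ∈ T, a = 1 ∨ ∃ P : PP Qb r, CxP Δ P ∧ cfs P ⊆ S ∧ a = ev2 u ξ P) →
    ht T ≤ k * (ht S + 1) := by
  obtain ⟨k, hk⟩ := C3_SB Unit r 1 Δ
  refine ⟨k, fun S T u ξ h1 hu hξ hT => C3_ht h1 k fun p v hv a ha => ?_⟩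
  rcases hT a ha with rfl | ⟨P, hP, hS, rfl⟩
  · rw [map_one]
    exact one_le_pow₀ (TB1_one_le p v h1)
  · have h2 := hk S (fun i => C (u i)) (C ξ) P h1 (fun i => SB.C h1 (hu i)) (SB.C h1 hξ) hP hS
      p v hv 0
    rwa [coeff_zero_eq_constantCoeff_apply, C3_cc_ev2 _ _ (fun i => constantCoeff_C (u i))
      (constantCoeff_C ξ), map_zero, zero_add, mul_one] at h2

theorem C3_union {S : Finset Qb} (hS : 1 ∈ S) {ι : Type} [Fintype ι] (g : ι → Qb) :
    ht (S ∪ Finset.univ.image g) ≤ ht S + ∑ i, h1 (g i) := by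
  have h2 := H2_two (s := S ∪ Finset.univ.image g) (t := S) (u := insert 1 (Finset.univ.image g))
    ⟨1, Finset.mem_union_left _ hS, one_ne_zero⟩ ⟨1, hS, one_ne_zero⟩
    ⟨1, Finset.mem_insert_self _ _, one_ne_zero⟩ one_pos fun p v _ => by
      have a1 := TB1_one_le_nrm v hS
      have a2 := TB1_one_le_nrm v (Finset.mem_insert_self 1 (Finset.univ.image g))
      rw [H2_th_one, one_mul]
      refine nrm_le v (by positivity) fun a ha => ?_
      rcases Finset.mem_union.1 ha with ha | ha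
      · exact (le_nrm v ha).trans (le_mul_of_one_le_right (by positivity) a2)
      · exact (le_nrm v (Finset.mem_insert_of_mem ha)).trans
          (le_mul_of_one_le_left (by positivity) a1)
  have h3 := H2_ins Finset.univ g
  rw [Real.log_one] at h2
  linarith

theorem C3_norm {σ : Type} [Fintype σ] {S : Finset Qb} (h1 : 1 ∈ S) {k : ℕ} {ι : Type} [Fintype ι]
    (F : ι → MvPowerSeries σ Qb) (a : ι → Qb) (ha : ∀ i, constantCoeff (F i) = a i)
    (h0 : ∃ i, a i ≠ 0) (hi : ∀ i, (a i)⁻¹ ∈ S) (hF : ∀ i, SB S (k + 1) (F i))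
    (v : AbsoluteValue Qb ℝ) : ∃ (t : Qb) (G : ι → MvPowerSeries σ Qb), v t = nv v a ∧
      (∀ i, F i = C t * G i) ∧ (∀ i, SB S (2 * (k + 1) + Fintype.card σ + 1) (G i)) ∧
      ∀ i, v (constantCoeff (G i)) ≤ 1 := by
  obtain ⟨i₁, hi₁⟩ := h0
  have : Nonempty ι := ⟨i₁⟩
  obtain ⟨i₀, e⟩ := exists_nv_eq v a
  have hp : 0 < v (a i₀) := e ▸ (v.pos hi₁).trans_le (le_nv v a i₁)
  have hne : a i₀ ≠ 0 := fun h => by simp [h] at hp
  refine ⟨a i₀, fun i => C (a i₀)⁻¹ * F i, e, fun i => ?_, fun i => ?_, fun i => ?_⟩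
  · rw [← mul_assoc, ← map_mul, mul_inv_cancel₀ hne, map_one, one_mul]
  · exact SB.mul h1 ((SB.C h1 (hi i₀)).mono h1 (Finset.Subset.refl _) (by omega)) (hF i)
  · rw [map_mul, constantCoeff_C, ha, map_mul, map_inv₀, inv_mul_le_iff₀ hp, mul_one, e]
    exact le_nv v a i

theorem C3_base {r : ℕ} {S : Finset Qb} (hS : 1 ∈ S) (u : Fin r → Qb) (ξ : Qb) :
    ∃ S₀ : Finset Qb, S ⊆ S₀ ∧ (∀ i, u i ∈ S₀) ∧ ξ ∈ S₀ ∧ ht S₀ ≤ ht S + (∑ i, h1 (u i) + h1 ξ) := by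
  refine ⟨S ∪ Finset.univ.image fun o : Option (Fin r) => o.elim ξ u, Finset.subset_union_left,
    fun i => Finset.mem_union_right _ (Finset.mem_image.2 ⟨some i, Finset.mem_univ _, rfl⟩),
    Finset.mem_union_right _ (Finset.mem_image.2 ⟨none, Finset.mem_univ _, rfl⟩), ?_⟩
  have := C3_union hS fun o : Option (Fin r) => o.elim ξ u
  rw [Fintype.sum_option] at this
  simp only [Option.elim] at this ⊢
  linarith

theorem C3_h1 {r Δ k : ℕ} (hk : ∀ (S T : Finset Qb) (u : Fin r → Qb) (ξ : Qb), 1 ∈ S →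
    (∀ i, u i ∈ S) → ξ ∈ S →
    (∀ a ∈ T, a = 1 ∨ ∃ P : PP Qb r, CxP Δ P ∧ cfs P ⊆ S ∧ a = ev2 u ξ P) →
    ht T ≤ k * (ht S + 1)) {S : Finset Qb} {u : Fin r → Qb} {ξ : Qb} (hS : 1 ∈ S)
    (hu : ∀ i, u i ∈ S) (hξ : ξ ∈ S) {P : PP Qb r} (hP : CxP Δ P) (hc : cfs P ⊆ S) :
    h1 (ev2 u ξ P) ≤ k * (ht S + 1) := by
  refine hk S _ u ξ hS hu hξ fun a ha => ?_
  rcases Finset.mem_insert.1 ha with rfl | ha
  · exact Or.inl rfl
  · exact Or.inr ⟨P, hP, hc, Finset.mem_singleton.1 ha⟩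

theorem C3_xp_none {R : Type} [CommRing R] [Algebra Qb R] {r : ℕ} (u : Fin r → R) (ξ : R) :
    ev2 u ξ (xp Qb r none) = 1 := map_one _

theorem C3_xp_T {R : Type} [CommRing R] [Algebra Qb R] {r : ℕ} (u : Fin r → R) (ξ : R) :
    ev2 u ξ (xp Qb r (some none)) = ξ := C3_ev2_X u ξ

theorem C3_xp_u {R : Type} [CommRing R] [Algebra Qb R] {r : ℕ} (u : Fin r → R) (ξ : R)
    (i : Fin r) : ev2 u ξ (xp Qb r (some (some i))) = u i :=
  (C3_ev2_C u ξ _).trans (MvPolynomial.aeval_X _ _)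

theorem C3_set (r Δ nJ : ℕ) : ∃ k : ℕ, ∀ {I J : Type} [Fintype I] [Fintype J],
    Fintype.card J ≤ nJ → ∀ (M : Mdl Qb r (I ⊕ J)), M.Cx Δ → ∀ (u : Fin r → Qb) (ξ : Qb),
    M.IsPt u ξ → ∃ S : Finset Qb, M.S ⊆ S ∧ (∀ i, u i ∈ S) ∧ ξ ∈ S ∧
      (ev2 u ξ (Polynomial.derivative M.m))⁻¹ ∈ S ∧ (∀ j, (ev2 u ξ (M.P (.inr j)))⁻¹ ∈ S) ∧
      (∀ l, (ev2 u ξ (xp Qb r l))⁻¹ ∈ S) ∧
      ht S ≤ k * (ht M.S + (∑ i, h1 (u i) + h1 ξ) + 1) := by
  obtain ⟨k, hk⟩ := C3_val r Δ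
  refine ⟨1 + 2 * k + nJ * k + (r + 2), fun {I J} _ _ hJ M hM u ξ hpt => ?_⟩
  obtain ⟨S₀, s1, s2, s3, s4⟩ := C3_base (C3_one_mem M) u ξ
  have s0 : (1 : Qb) ∈ S₀ := s1 (C3_one_mem M)
  let g : Option (J ⊕ Option (Option (Fin r))) → Qb := fun o =>
    o.elim (ev2 u ξ (Polynomial.derivative M.m))⁻¹
      (Sum.elim (fun j => (ev2 u ξ (M.P (.inr j)))⁻¹) fun l => (ev2 u ξ (xp Qb r l))⁻¹)
  have hg : ∀ o, g o ∈ S₀ ∪ Finset.univ.image g := fun o =>
    Finset.mem_union_right _ (Finset.mem_image_of_mem _ (Finset.mem_univ o))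
  refine ⟨S₀ ∪ Finset.univ.image g, s1.trans Finset.subset_union_left,
    fun i => Finset.mem_union_left _ (s2 i), Finset.mem_union_left _ s3, hg none,
    fun j => hg (some (.inl j)), fun l => hg (some (.inr l)), ?_⟩
  have t0 := C3_union s0 g
  rw [Fintype.sum_option, Fintype.sum_sum_type] at t0
  have n0 := ht_nonneg S₀
  have t1 : h1 (g none) ≤ 2 * (k * (ht S₀ + 1)) := by
    obtain ⟨c, hc⟩ := M.sep
    have e := congrArg (ev2 u ξ) hc
    rw [map_sub, map_mul, map_mul, hpt.1, zero_mul, sub_eq_zero] at e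
    have hq : ev2 u ξ (Polynomial.C M.q) ≠ 0 := by rw [C3_ev2_C]; exact hpt.2
    have e2 : g none = ev2 u ξ M.P' * (ev2 u ξ (Polynomial.C M.q))⁻¹ := by
      have h3 := hpt.derivative_ne_zero
      have h4 : ev2 u ξ M.P' ≠ 0 := left_ne_zero_of_mul (e ▸ hq)
      rw [← e, mul_inv, ← mul_assoc, mul_inv_cancel₀ h4, one_mul]
      rfl
    have a1 := C3_h1 hk s0 s2 s3 hM.2.2.2 ((C3_P'_sub M).trans s1)
    have a2 := C3_h1 hk s0 s2 s3 (C3_cx_C hM.2.1) ((C3_cfs_C _).trans ((C3_q_sub M).trans s1))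
    have a3 := h1_mul_le (ev2 u ξ M.P') (ev2 u ξ (Polynomial.C M.q))⁻¹
    rw [h1_inv] at a3
    rw [e2]
    linarith
  have t2 : ∑ j : J, h1 (g (some (.inl j))) ≤ nJ * (k * (ht S₀ + 1)) := by
    refine (Finset.sum_le_card_nsmul _ _ (k * (ht S₀ + 1)) fun j _ => ?_).trans ?_
    · change h1 (ev2 u ξ (M.P (.inr j)))⁻¹ ≤ _
      rw [h1_inv]
      exact C3_h1 hk s0 s2 s3 (hM.2.2.1 _) ((C3_P_sub M _).trans s1)
    · rw [nsmul_eq_mul, Finset.card_univ]
      exact mul_le_mul_of_nonneg_right (by exact_mod_cast hJ) (by positivity)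
  have t3 : ∑ l : Option (Option (Fin r)), h1 (g (some (.inr l))) ≤ (r + 2) * ht S₀ := by
    refine (Finset.sum_le_card_nsmul _ _ (ht S₀) fun l _ => ?_).trans ?_
    · change h1 (ev2 u ξ (xp Qb r l))⁻¹ ≤ _
      rw [h1_inv]
      refine ht_mono (Finset.insert_subset s0 (Finset.singleton_subset_iff.2 ?_))
      rcases l with _ | _ | i
      · rwa [C3_xp_none]
      · rwa [C3_xp_T]
      · rw [C3_xp_u]
        exact s2 i
    · rw [nsmul_eq_mul, Finset.card_univ, Fintype.card_option, Fintype.card_option,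
        Fintype.card_fin]
      push_cast
      exact le_of_eq (by ring)
  have t4 : ht (S₀ ∪ Finset.univ.image g) ≤
      ((1 + 2 * k + nJ * k + (r + 2) : ℕ) : ℝ) * (ht S₀ + 1) := by
    push_cast
    have : (0 : ℝ) ≤ r := Nat.cast_nonneg r
    linarith
  exact t4.trans (mul_le_mul_of_nonneg_left (by linarith) (Nat.cast_nonneg _))

open MvPowerSeries in
/-- Taylor coefficients of long monomials at a point of a model -/
theorem taylor_bound (r Δ nJ : ℕ) : ∃ k : ℕ, ∀ {I J : Type} [Fintype I] [Fintype J],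
    Fintype.card J ≤ nJ → ∀ (M : Mdl Qb r (I ⊕ J)), M.Cx Δ → ∀ (u : Fin r → Qb) (ξ : Qb),
    M.IsPt u ξ → (∃ j, ev2 u ξ (M.P (.inr j)) ≠ 0) →
    ∃ (W : MvPowerSeries (Fin r) Qb) (S : Finset Qb), constantCoeff W = ξ ∧
      ev2 (fun i => C (u i) + X i) W M.m = 0 ∧ 1 ∈ S ∧
      ht S ≤ k * (ht M.S + (∑ i, h1 (u i) + h1 ξ) + 1) ∧
      ∀ {A c : ℕ} (μ : Mon J r A c) (p : ℕ) (v : AbsoluteValue Qb ℝ), IsPl p v →
        ∀ m : Fin r →₀ ℕ, v (coeff m (ev2 (fun i => C (u i) + X i) W (M.mon μ))) ≤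
          nv v (fun j => ev2 u ξ (M.P (.inr j))) ^ A * nv v (fun l => ev2 u ξ (xp Qb r l)) ^ c *
            th p 2 ^ (r * (A + c) + m.degree) * (th p 2 * nrm v S) ^ (k * m.degree) := by
  obtain ⟨k₀, h₀⟩ := C3_set r Δ nJ
  obtain ⟨k₁, h₁⟩ := exists_SB_aeval (Fin r) (Fin r) 1 Δ
  obtain ⟨k₂, h₂⟩ := exists_implicit (Fin r) k₁ Δ
  obtain ⟨k₃, h₃⟩ := C3_SB (Fin r) r (k₂ + 1) Δ
  refine ⟨k₀ + 2 * (2 * (k₂ + k₃ + 1) + r + 1), fun {I J} _ _ hJ M hM u ξ hpt hP0 => ?_⟩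
  obtain ⟨S, s1, s2, s3, s4, s5, s6, s7⟩ := h₀ hJ M hM u ξ hpt
  have s0 : (1 : Qb) ∈ S := s1 (C3_one_mem M)
  set x : Fin r → MvPowerSeries (Fin r) Qb := fun i => C (u i) + X i with hxdef
  have hx : ∀ i, SB S 1 (x i) := fun i => SB.shiftX s0 (s2 i) i
  have hx0 : ∀ i, constantCoeff (x i) = u i := fun i => by simp [hxdef]
  have em : (M.m.map (MvPolynomial.aeval x :
      MvPolynomial (Fin r) Qb →ₐ[Qb] MvPowerSeries (Fin r) Qb).toRingHom).map
        (constantCoeff : MvPowerSeries (Fin r) Qb →+* Qb) =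
      M.m.map (MvPolynomial.aeval u : MvPolynomial (Fin r) Qb →ₐ[Qb] Qb).toRingHom := by
    rw [Polynomial.map_map]
    congr 1
    refine MvPolynomial.ringHom_ext (fun a => ?_) fun i => ?_
    · simp [MvPowerSeries.algebraMap_apply]
    · simpa using hx0 i
  obtain ⟨W, w0, w1, w2⟩ := h₂ S (M.m.map (MvPolynomial.aeval x :
      MvPolynomial (Fin r) Qb →ₐ[Qb] MvPowerSeries (Fin r) Qb).toRingHom) ξ s0
    (Polynomial.natDegree_map_le.trans hM.1.1)
    (fun i => by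
      rw [Polynomial.coeff_map]
      exact h₁ S x _ s0 hx (hM.1.2 i) ((C3_coeffs_sub _ i).trans ((C3_m_sub M).trans s1))) s3
    (by rw [em, C3_ev2_map]; exact hpt.1)
    (by rw [em, Polynomial.derivative_map, C3_ev2_map]; exact hpt.derivative_ne_zero)
    (by rw [em, Polynomial.derivative_map, C3_ev2_map]; exact s4)
  rw [C3_ev2_map] at w1
  refine ⟨W, S, w0, w1, s0, s7.trans (mul_le_mul_of_nonneg_right (by exact_mod_cast Nat.le_add_right _ _) ?_),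
    fun {A c} μ p v hv m => ?_⟩
  · have a1 := ht_nonneg M.S
    have a2 := h1_nonneg ξ
    have a3 : 0 ≤ ∑ i, h1 (u i) := Finset.sum_nonneg fun i _ => h1_nonneg _
    linarith
  have rf := Finset.Subset.refl S
  obtain ⟨t, G, ht1, hG1, hG2, hG3⟩ := C3_norm s0 (k := k₂ + k₃) (fun j => ev2 x W (M.P (.inr j)))
    (fun j => ev2 u ξ (M.P (.inr j))) (fun j => C3_cc_ev2 x W hx0 w0 _) hP0 s5
    (fun j => (h₃ S x W _ s0 (fun i => (hx i).mono s0 rf (by omega)) (w2.mono s0 rf (by omega))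
      (hM.2.2.1 _) ((C3_P_sub M _).trans s1)).mono s0 rf (by omega)) v
  obtain ⟨t', G', ht1', hG1', hG2', hG3'⟩ := C3_norm s0 (k := k₂ + k₃)
    (fun l => ev2 x W (xp Qb r l)) (fun l => ev2 u ξ (xp Qb r l))
    (fun l => C3_cc_ev2 x W hx0 w0 _) ⟨none, by rw [C3_xp_none]; exact one_ne_zero⟩ s6
    (fun l => by
      rcases l with _ | _ | i
      · rw [C3_xp_none]
        exact (C3_SB_one s0).mono s0 rf (by omega)
      · rw [C3_xp_T]
        exact w2.mono s0 rf (by omega)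
      · rw [C3_xp_u]
        exact (hx i).mono s0 rf (by omega)) v
  have e : ev2 x W (M.mon μ) = C (t ^ A * t' ^ c) *
      ∏ i : Fin A ⊕ Fin c, Sum.elim (fun i => G (μ.1 i)) (fun i => G' (μ.2 i)) i := by
    rw [Mdl.mon, map_mul, map_prod, map_prod, Fintype.prod_sum_type]
    simp only [hG1, hG1', Finset.prod_mul_distrib, Finset.prod_const, Finset.card_univ,
      Fintype.card_fin, Sum.elim_inl, Sum.elim_inr, map_mul, map_pow]
    ring
  have b := coeff_prod_le s0 Finset.univ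
    (fun i : Fin A ⊕ Fin c => Sum.elim (fun i => G (μ.1 i)) (fun i => G' (μ.2 i)) i)
    (fun i _ => by
      rcases i with i | i
      · exact hG2 _
      · exact hG2' _) hv
    (fun i _ => by
      rcases i with i | i
      · exact hG3 _
      · exact hG3' _) m
  rw [Finset.card_univ, Fintype.card_sum, Fintype.card_fin, Fintype.card_fin,
    Fintype.card_fin] at b
  rw [e, coeff_C_mul, map_mul, map_mul, map_pow, map_pow, ht1, ht1', mul_assoc (_ * _)]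
  refine mul_le_mul_of_nonneg_left (b.trans (mul_le_mul_of_nonneg_left
    (pow_le_pow_right₀ (TB1_one_le p v s0) (Nat.mul_le_mul_right _ (Nat.le_add_left _ _)))
    (pow_nonneg (zero_le_one.trans (TB1_th_one_le p)) _))) ?_
  exact mul_nonneg (pow_nonneg (nrm_nonneg _ _) _) (pow_nonneg (nrm_nonneg _ _) _)

theorem hv_xp_le {r : ℕ} (u : Fin r → Qb) (ξ : Qb) :
    hv (fun l => ev2 u ξ (xp Qb r l)) ≤ ∑ i, h1 (u i) + h1 ξ := by
  refine (hv_le_sum _).trans (le_of_eq ?_)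
  rw [Fintype.sum_option, Fintype.sum_option, C3_xp_none, C3_xp_T, H2_h1_one, zero_add, add_comm]
  simp only [C3_xp_u]

/-- heights at a point above a torsion point -/
theorem tors_bound (r Δ : ℕ) : ∃ C : ℝ, 0 ≤ C ∧ ∀ {I J : Type} [Fintype I] [Fintype J]
    (M : Mdl Qb r (I ⊕ J)), M.Cx Δ → ∀ (u : Fin r → Qb) (ξ : Qb),
    (∀ k, ∃ n : ℕ, 0 < n ∧ u k ^ n = 1) → ev2 u ξ M.m = 0 →
      hv (fun j => ev2 u ξ (M.P (.inr j))) ≤ C * (ht M.S + 1) ∧
      hv (fun l => ev2 u ξ (xp Qb r l)) ≤ C * (ht M.S + 1) := by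
  obtain ⟨k, hk⟩ := C3_val r Δ
  refine ⟨(k + 1) * (k + 2), by positivity, fun {I J} _ _ M hM u ξ hu h0 => ?_⟩
  have u0 : ∑ i, h1 (u i) = 0 := Finset.sum_eq_zero fun i _ => by
    obtain ⟨n, hn, e⟩ := hu i
    exact h1_rootOfUnity hn e
  have n0 := ht_nonneg M.S
  have k0 : (0 : ℝ) ≤ k := Nat.cast_nonneg k
  have hξ : h1 ξ ≤ k * (ht M.S + 1) + 1 := by
    obtain ⟨S₁, s1, s2, s3, s4⟩ := C3_base (C3_one_mem M) u 1
    rw [u0, H2_h1_one] at s4
    have a1 := h1_root_le (M.monic.map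
      (MvPolynomial.aeval u : MvPolynomial (Fin r) Qb →ₐ[Qb] Qb).toRingHom).ne_zero (a := ξ)
      ((C3_ev2_map u ξ M.m).trans h0)
    have a2 := hk S₁ (M.m.map
      (MvPolynomial.aeval u : MvPolynomial (Fin r) Qb →ₐ[Qb] Qb).toRingHom).coeffs u 1 s3 s2 s3
      fun a ha => by
        obtain ⟨i, -, rfl⟩ := Polynomial.mem_coeffs_iff.1 ha
        refine Or.inr ⟨Polynomial.C (M.m.coeff i), C3_cx_C (hM.1.2 i),
          (C3_cfs_C _).trans ((C3_coeffs_sub _ i).trans ((C3_m_sub M).trans s1)), ?_⟩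
        rw [Polynomial.coeff_map, C3_ev2_C]
        rfl
    have a3 : Real.log 2 ≤ 1 := by
      have := Real.log_le_sub_one_of_pos (x := 2) two_pos
      linarith
    have a4 : (k : ℝ) * (ht S₁ + 1) ≤ k * (ht M.S + 1) := mul_le_mul_of_nonneg_left (by linarith) k0
    linarith
  constructor
  · obtain ⟨S₀, s1, s2, s3, s4⟩ := C3_base (C3_one_mem M) u ξ
    have a2 := hk S₀ (Finset.univ.image fun j => ev2 u ξ (M.P (.inr j))) u ξ (s1 (C3_one_mem M))
      s2 s3 fun a ha => by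
        obtain ⟨j, -, rfl⟩ := Finset.mem_image.1 ha
        exact Or.inr ⟨_, hM.2.2.1 _, (C3_P_sub M _).trans s1, rfl⟩
    have a3 : ht S₀ + 1 ≤ (k + 2) * (ht M.S + 1) := by linarith
    have a4 := mul_le_mul_of_nonneg_left a3 k0
    have a5 : (0 : ℝ) ≤ (k + 2) * (ht M.S + 1) := by positivity
    unfold hv
    linarith
  · have a1 := hv_xp_le u ξ
    have a5 : (0 : ℝ) ≤ (k + 1) * (k + 1) * (ht M.S + 1) := by positivity
    linarith

theorem C3_hv_mul {ι : Type} [Fintype ι] (x y : ι → Qb) :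
    hv (fun i => x i * y i) ≤ hv x + hv y := by
  by_cases h : x = 0 ∨ y = 0
  · have e : hv (fun i => x i * y i) = 0 := htSpec.zero _ fun a ha => by
      obtain ⟨i, -, rfl⟩ := Finset.mem_image.1 ha
      rcases h with h | h <;> simp [h]
    rw [e]
    exact add_nonneg (hv_nonneg x) (hv_nonneg y)
  · rw [not_or] at h
    rw [← hv_segre h.1 h.2]
    exact hv_comp_le (fun p : ι × ι => x p.1 * y p.2) fun i => (i, i)

theorem C3_hv_prod {ι κ : Type} [Fintype ι] [Fintype κ] (y : κ → Qb) (n : ℕ)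
    (μ : ι → Fin n → κ) : hv (fun i => ∏ a, y (μ i a)) ≤ n * hv y := by
  induction n with
  | zero =>
    rw [Nat.cast_zero, zero_mul, ← htSpec.single 1 one_ne_zero]
    refine ht_mono fun a ha => ?_
    obtain ⟨i, -, rfl⟩ := Finset.mem_image.1 ha
    simp
  | succ n ih =>
    simp only [Fin.prod_univ_succ]
    have a1 := C3_hv_mul (fun i => y (μ i 0)) fun i => ∏ a : Fin n, y (μ i a.succ)
    have a2 := ih fun i a => μ i a.succ
    have a3 : hv (fun i => y (μ i 0)) ≤ hv y := hv_comp_le y fun i => μ i 0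
    push_cast
    linarith

theorem C3_hv_mon {r : ℕ} {I J : Type} [Fintype J] (M : Mdl Qb r (I ⊕ J)) {A c N : ℕ}
    (μ : Fin N → Mon J r A c) (u : Fin r → Qb) (ξ : Qb) :
    hv (fun i => ev2 u ξ (M.mon (μ i))) ≤
      A * hv (fun j => ev2 u ξ (M.P (.inr j))) + c * hv (fun l => ev2 u ξ (xp Qb r l)) := by
  simp only [Mdl.mon, map_mul, map_prod]
  exact (C3_hv_mul _ _).trans (add_le_add
    (C3_hv_prod (fun j => ev2 u ξ (M.P (.inr j))) A fun i => (μ i).1)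
    (C3_hv_prod (fun l => ev2 u ξ (xp Qb r l)) c fun i => (μ i).2))

/-- height of a vector of products of two monomials -/
theorem hv_mon_le {r₁ r₂ : ℕ} {I J : Type} [Fintype I] [Fintype J] (M₁ : Mdl Qb r₁ (I ⊕ J))
    (M₂ : Mdl Qb r₂ (I ⊕ J)) {A₁ A₂ c N : ℕ} (μ₁ : Fin N → Mon J r₁ A₁ c)
    (μ₂ : Fin N → Mon J r₂ A₂ c) (u₁ : Fin r₁ → Qb) (ξ₁ : Qb) (u₂ : Fin r₂ → Qb) (ξ₂ : Qb) :
    hv (fun i => ev2 u₁ ξ₁ (M₁.mon (μ₁ i)) * ev2 u₂ ξ₂ (M₂.mon (μ₂ i))) ≤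
      A₁ * hv (fun j => ev2 u₁ ξ₁ (M₁.P (.inr j))) + c * hv (fun l => ev2 u₁ ξ₁ (xp Qb r₁ l)) +
      A₂ * hv (fun j => ev2 u₂ ξ₂ (M₂.P (.inr j))) + c * hv (fun l => ev2 u₂ ξ₂ (xp Qb r₂ l)) := by
  have a1 := C3_hv_mul (fun i => ev2 u₁ ξ₁ (M₁.mon (μ₁ i))) fun i => ev2 u₂ ξ₂ (M₂.mon (μ₂ i))
  have a2 := C3_hv_mon M₁ μ₁ u₁ ξ₁
  have a3 := C3_hv_mon M₂ μ₂ u₂ ξ₂
  linarith

end Pool.Agent.E6b
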