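import Pool.Agent.E6b.C1

open scoped NNReal TensorProduct IntermediateField BigOperators Classical Topology
open Filter

namespace Pool.Agent.E6b

open MvPowerSeries

section aux

theorem C4_shf_neg {σ : Type} (p : σ → Qb) (F : MvPolynomial σ Qb) :
    shf (-p) (shf p F) = F := by
  unfold shf
  induction F using MvPolynomial.induction_on with
  | C a => simp
  | add P Q hP hQ => simp only [map_add, hP, hQ]
  | mul_X P i hP => simp only [map_mul, hP]; simp

theorem C4_shf_eq_zero {σ : Type} {p : σ → Qb} {F : MvPolynomial σ Qb} (h : shf p F = 0) :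
    F = 0 := by
  rw [← C4_shf_neg p F, h]
  exact map_zero _

theorem C4_aeval {σ : Type} (p : σ → Qb) (F : MvPolynomial σ Qb) :
    MvPolynomial.aeval (fun k => (C (p k) + X k : MvPowerSeries σ Qb)) F =
      (shf p F : MvPowerSeries σ Qb) := by
  unfold shf
  induction F using MvPolynomial.induction_on with
  | C a => simp [MvPowerSeries.algebraMap_apply]
  | add P Q hP hQ => simp only [map_add, hP, hQ, MvPolynomial.coe_add]
  | mul_X P i hP =>
    simp only [map_mul, hP, MvPolynomial.coe_mul, MvPolynomial.aeval_X, MvPolynomial.coe_add,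
      MvPolynomial.coe_X, MvPolynomial.coe_C]
    ring

/-- the constant coefficient as an algebra homomorphism -/
noncomputable def C4_cc (σ : Type) : MvPowerSeries σ Qb →ₐ[Qb] Qb :=
  { (constantCoeff : MvPowerSeries σ Qb →+* Qb) with
    commutes' := fun c => by simp [MvPowerSeries.algebraMap_apply] }

theorem C4_cc_apply {σ : Type} (f : MvPowerSeries σ Qb) : C4_cc σ f = constantCoeff f := rfl

variable {B K L : Type} [CommRing B] [IsDomain B] [Field K] [Algebra B K] [IsFractionRing B K]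
  [Field L] [Algebra K L] [Algebra B L] [IsScalarTower B K L]

/-- the valuation ring of an order function -/
def C4_O0 (K : Type) [Field K] [Algebra B K] [IsFractionRing B K] (wo : B → ℕ∞)
    (hmul : ∀ a b, wo (a * b) = wo a + wo b) (hadd : ∀ a b, min (wo a) (wo b) ≤ wo (a + b))
    (hneg : ∀ a, wo (-a) = wo a) (htop : ∀ a, wo a = ⊤ ↔ a = 0) : ValuationSubring K where
  carrier := {x | ∃ a b : B, b ≠ 0 ∧ x * algebraMap B K b = algebraMap B K a ∧ wo b ≤ wo a}
  mul_mem' := by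
    rintro x y ⟨a, b, hb, h1, h2⟩ ⟨a', b', hb', h1', h2'⟩
    refine ⟨a * a', b * b', mul_ne_zero hb hb', ?_, ?_⟩
    · rw [map_mul, map_mul, ← h1, ← h1']; ring
    · rw [hmul, hmul]; exact add_le_add h2 h2'
  one_mem' := ⟨1, 1, one_ne_zero, one_mul _, le_rfl⟩
  add_mem' := by
    rintro x y ⟨a, b, hb, h1, h2⟩ ⟨a', b', hb', h1', h2'⟩
    refine ⟨a * b' + a' * b, b * b', mul_ne_zero hb hb', ?_, le_trans ?_ (hadd _ _)⟩
    · rw [map_add, map_mul, map_mul, map_mul, ← h1, ← h1']; ring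
    · rw [hmul, hmul, hmul, le_min_iff]
      exact ⟨add_le_add h2 le_rfl, by rw [add_comm]; exact add_le_add h2' le_rfl⟩
  zero_mem' := ⟨0, 1, one_ne_zero, by simp, by rw [(htop 0).2 rfl]; exact le_top⟩
  neg_mem' := by
    rintro x ⟨a, b, hb, h1, h2⟩
    exact ⟨-a, b, hb, by rw [map_neg, ← h1, neg_mul], by rw [hneg]; exact h2⟩
  mem_or_inv_mem' := by
    intro x
    obtain ⟨a, b, hb, rfl⟩ := IsFractionRing.div_surjective (A := B) x
    have hb0 : b ≠ 0 := nonZeroDivisors.ne_zero hb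
    have hb1 : algebraMap B K b ≠ 0 := by
      simpa using hb0
    rcases le_or_gt (wo b) (wo a) with h | h
    · exact Or.inl ⟨a, b, hb0, div_mul_cancel₀ _ hb1, h⟩
    · have ha0 : a ≠ 0 := fun e => h.ne_top ((htop a).2 e)
      have ha1 : algebraMap B K a ≠ 0 := by
        simpa using ha0
      exact Or.inr ⟨b, a, ha0, by rw [inv_div]; exact div_mul_cancel₀ _ ha1, h.le⟩

theorem C4_exists_O (K : Type) [Field K] [Algebra B K] [IsFractionRing B K] (L : Type) [Field L]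
    [Algebra K L] [Algebra B L] [IsScalarTower B K L] (wo : B → ℕ∞)
    (hmul : ∀ a b, wo (a * b) = wo a + wo b) (hadd : ∀ a b, min (wo a) (wo b) ≤ wo (a + b))
    (hneg : ∀ a, wo (-a) = wo a) (htop : ∀ a, wo a = ⊤ ↔ a = 0) :
    ∃ O : ValuationSubring L, ∀ (y : L) (a b : B), b ≠ 0 →
      y * algebraMap B L b = algebraMap B L a →
      (y ∈ O ↔ wo b ≤ wo a) ∧ (O.valuation y < 1 ↔ wo b < wo a) := by
  obtain ⟨O, hO⟩ := exists_vs_lift L (C4_O0 K wo hmul hadd hneg htop)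
  have hinj : ∀ b : B, b ≠ 0 → algebraMap B K b ≠ 0 := fun b hb => by simpa using hb
  have hinj' : ∀ b : B, b ≠ 0 → algebraMap B L b ≠ 0 := fun b hb => by
    rw [IsScalarTower.algebraMap_apply B K L]
    exact (map_ne_zero _).2 (hinj b hb)
  have key : ∀ (y : L) (a b : B), b ≠ 0 → y * algebraMap B L b = algebraMap B L a →
      (y ∈ O ↔ wo b ≤ wo a) := by
    intro y a b hb h
    have hy : y = algebraMap K L (algebraMap B K a / algebraMap B K b) := by
      rw [map_div₀, ← IsScalarTower.algebraMap_apply, ← IsScalarTower.algebraMap_apply,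
        eq_div_iff (hinj' b hb), h]
    rw [hy, ← ValuationSubring.mem_comap, hO]
    constructor
    · rintro ⟨a', b', hb', h1, h2⟩
      have h3 : a * b' = a' * b := by
        apply IsFractionRing.injective B K
        rw [map_mul, map_mul, ← h1]
        field_simp [hinj b hb]
      have h4 : wo b + wo b' ≤ wo a + wo b' := by
        rw [← hmul a, h3, hmul, add_comm]
        exact add_le_add h2 le_rfl
      exact (WithTop.add_le_add_iff_right fun e => hb' ((htop b').1 e)).1 h4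
    · intro h2
      exact ⟨a, b, hb, div_mul_cancel₀ _ (hinj b hb), h2⟩
  refine ⟨O, fun y a b hb h => ⟨key y a b hb h, ?_⟩⟩
  by_cases ha : a = 0
  · have hy : y = 0 := by
      rw [ha, map_zero] at h
      exact (mul_eq_zero.1 h).resolve_right (hinj' b hb)
    rw [hy, map_zero, ha, (htop 0).2 rfl]
    exact ⟨fun _ => lt_top_iff_ne_top.2 fun e => hb ((htop b).1 e), fun _ => zero_lt_one⟩
  · have hy : y ≠ 0 := by
      rintro rfl
      rw [zero_mul] at h
      exact hinj' a ha h.symm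
    have h1 := key y⁻¹ b a ha (by rw [← h, inv_mul_cancel_left₀ hy])
    have h0 : O.valuation y ≠ 0 := by simpa using hy
    rw [← O.valuation_le_one_iff, map_inv₀, inv_le_one₀ (zero_lt_iff.mpr h0)] at h1
    rw [← not_le, ← not_le, h1]

theorem C4_weight {σ : Type} [Fintype σ] (dd : σ → ℕ) (hd : ∀ k, 0 < dd k) :
    ∃ w : σ → ℕ, (∀ k, 0 < w k) ∧ ∀ m : σ →₀ ℕ,
      ∑ k, (m k : ℝ) / dd k = (Finsupp.weight w m : ℕ) / ∏ i, (dd i : ℝ) := by
  refine ⟨fun k => ∏ i ∈ Finset.univ.erase k, dd i, fun k => Finset.prod_pos fun i _ => hd i,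
    fun m => ?_⟩
  rw [Finsupp.weight_apply, Finsupp.sum_fintype _ _ (by simp)]
  push_cast
  rw [Finset.sum_div]
  refine Finset.sum_congr rfl fun k _ => ?_
  have h1 : (dd k : ℝ) ≠ 0 := by exact_mod_cast (hd k).ne'
  have h2 : ∏ i ∈ Finset.univ.erase k, (dd i : ℝ) ≠ 0 :=
    Finset.prod_ne_zero_iff.2 fun i _ => by exact_mod_cast (hd i).ne'
  rw [← Finset.mul_prod_erase _ (fun i => (dd i : ℝ)) (Finset.mem_univ k), smul_eq_mul]
  push_cast
  field_simp

theorem C4_pos {σ : Type} {w : σ → ℕ} (hw : ∀ k, 0 < w k) {f : MvPowerSeries σ Qb}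
    (hf : constantCoeff f = 0) : 0 < f.weightedOrder w := by
  refine lt_of_lt_of_le (by simp) (nat_le_weightedOrder w (n := 1) fun d hd => ?_)
  have h0 : d = 0 := by
    ext k
    have h1 := Finsupp.le_weight w (hw k).ne' d
    simp only [Finsupp.coe_zero, Pi.zero_apply]
    omega
  rw [h0, coeff_zero_eq_constantCoeff_apply, hf]

end aux

variable {r₁ r₂ : ℕ} {ι : Type} (M₁ : Mdl Qb r₁ ι) (M₂ : Mdl Qb r₂ ι)

/-- Taylor expansion on the product of two models -/
theorem exists_tay (u₁ : Fin r₁ → Qb) (u₂ : Fin r₂ → Qb) (W₁ : MvPowerSeries (Fin r₁) Qb)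
    (W₂ : MvPowerSeries (Fin r₂) Qb) (h₁ : ev2 (fun i => C (u₁ i) + X i) W₁ M₁.m = 0)
    (h₂ : ev2 (fun i => C (u₂ i) + X i) W₂ M₂.m = 0) :
    ∃ (T : TB M₁ M₂ →ₐ[Qb] MvPowerSeries (Fin r₁ ⊕ Fin r₂) Qb) (χ : TB M₁ M₂ →ₐ[Qb] Qb),
      Function.Injective T ∧ (∀ b, constantCoeff (T b) = χ b) ∧
      (∀ p, T (e1B M₁ M₂ p) = rename Sum.inl (ev2 (fun i => C (u₁ i) + X i) W₁ p)) ∧
      (∀ p, T (e2B M₁ M₂ p) = rename Sum.inr (ev2 (fun i => C (u₂ i) + X i) W₂ p)) ∧
      (∀ p : R0 r₁ r₂, T (algebraMap _ _ p) = (shf (Sum.elim u₁ u₂) p : MvPowerSeries _ Qb)) ∧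
      (∀ k, χ (uB M₁ M₂ k) = Sum.elim u₁ u₂ k) ∧ χ (x1B M₁ M₂) = constantCoeff W₁ ∧
      χ (x2B M₁ M₂) = constantCoeff W₂ := by
  have e₁ : ∀ p, rename (Sum.inl : Fin r₁ → Fin r₁ ⊕ Fin r₂)
      (ev2 (fun i => C (u₁ i) + X i) W₁ p) =
      ev2 (fun k => (C (u₁ k) + X (Sum.inl k) : MvPowerSeries (Fin r₁ ⊕ Fin r₂) Qb))
        (rename Sum.inl W₁) p := fun p => by
    rw [map_ev2]
    simp only [map_add, rename_C, rename_X]
  have e₂ : ∀ p, rename (Sum.inr : Fin r₂ → Fin r₁ ⊕ Fin r₂)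
      (ev2 (fun i => C (u₂ i) + X i) W₂ p) =
      ev2 (fun k => (C (u₂ k) + X (Sum.inr k) : MvPowerSeries (Fin r₁ ⊕ Fin r₂) Qb))
        (rename Sum.inr W₂) p := fun p => by
    rw [map_ev2]
    simp only [map_add, rename_C, rename_X]
  obtain ⟨T, hu, hx1, hx2⟩ := exists_lift_TB M₁ M₂
    (fun k => (C (Sum.elim u₁ u₂ k) + X k : MvPowerSeries (Fin r₁ ⊕ Fin r₂) Qb))
    (rename Sum.inl W₁) (rename Sum.inr W₂)
    (by simp only [Sum.elim_inl]; rw [← e₁, h₁, map_zero])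
    (by simp only [Sum.elim_inr]; rw [← e₂, h₂, map_zero])
  have hR : ∀ p : R0 r₁ r₂,
      T (algebraMap _ _ p) = (shf (Sum.elim u₁ u₂) p : MvPowerSeries _ Qb) := fun p => by
    rw [hom_algebraMap_TB, ← C4_aeval]
    simp only [hu]
  refine ⟨T, (C4_cc _).comp T, ?_, fun _ => rfl, fun p => ?_, fun p => ?_, hR, fun k => ?_, ?_, ?_⟩
  · rw [injective_iff_map_eq_zero]
    intro b hb
    by_contra h0
    obtain ⟨c, hc⟩ := dvd_nrB M₁ M₂ b
    have h1 := hR (nrB M₁ M₂ b)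
    rw [hc, map_mul, hb, zero_mul] at h1
    exact nrB_ne_zero M₁ M₂ h0 (C4_shf_eq_zero (MvPolynomial.coe_eq_zero_iff.1 h1.symm))
  · rw [e₁, e1B, map_ev2, hx1]
    simp only [hu, Sum.elim_inl]
  · rw [e₂, e2B, map_ev2, hx2]
    simp only [hu, Sum.elim_inr]
  · rw [AlgHom.comp_apply, hu, C4_cc_apply]
    simp
  · rw [AlgHom.comp_apply, hx1, C4_cc_apply, constantCoeff_rename]
  · rw [AlgHom.comp_apply, hx2, C4_cc_apply, constantCoeff_rename]

/-- Leading coefficients for a weighted order. -/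
theorem exists_lead (T : TB M₁ M₂ →ₐ[Qb] MvPowerSeries (Fin r₁ ⊕ Fin r₂) Qb)
    (χ : TB M₁ M₂ →ₐ[Qb] Qb) (hT : Function.Injective T) (hχ : ∀ b, constantCoeff (T b) = χ b)
    {p : Fin r₁ ⊕ Fin r₂ → Qb}
    (hp : ∀ q : R0 r₁ r₂, T (algebraMap _ _ q) = (shf p q : MvPowerSeries _ Qb))
    (dd : Fin r₁ ⊕ Fin r₂ → ℕ) (hd : ∀ k, 0 < dd k) :
    ∃ O, Dom M₁ M₂ O χ ∧ ∀ (b : TB M₁ M₂) (ϑ : ℝ), b ≠ 0 → ¬ IdxGe (nrB M₁ M₂ b) p dd ϑ →
      ∃ m : Fin r₁ ⊕ Fin r₂ →₀ ℕ, ∑ k, (m k : ℝ) / dd k < ϑ ∧ coeff m (T b) ≠ 0 ∧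
        ∀ (b' : TB M₁ M₂) (y : TL M₁ M₂) (c : Qb), y ∈ O.1 → rs O y = algebraMap Qb (RF O) c →
          algebraMap _ (TL M₁ M₂) b' = y * algebraMap _ (TL M₁ M₂) b →
          coeff m (T b') = c * coeff m (T b) := by
  obtain ⟨w, hw0, hw⟩ := C4_weight dd hd
  have hT0 : ∀ a, T a = 0 ↔ a = 0 := fun a => map_eq_zero_iff T hT
  obtain ⟨O, hO⟩ := C4_exists_O (TK M₁ M₂) (TL M₁ M₂) (fun b => (T b).weightedOrder w)
    (fun a b => by rw [map_mul, weightedOrder_mul])
    (fun a b => by rw [map_add]; exact min_weightedOrder_le_add w)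
    (fun a => by rw [map_neg, weightedOrder_neg])
    (fun a => by rw [weightedOrder_eq_top_iff, hT0])
  have hB : ∀ b : TB M₁ M₂, algebraMap _ (TL M₁ M₂) b ∈ O := fun b =>
    (hO _ b 1 one_ne_zero (by rw [map_one, mul_one])).1.2 (by simp)
  have hc : ∀ c : Qb, algebraMap Qb (TL M₁ M₂) c =
      algebraMap (TB M₁ M₂) (TL M₁ M₂) (algebraMap Qb _ c) := fun c =>
    IsScalarTower.algebraMap_apply _ _ _ c
  refine ⟨⟨O, fun c => by rw [hc]; exact hB _⟩, fun b => ⟨hB b, ?_⟩, fun b ϑ hb hI => ?_⟩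
  · have h1 : algebraMap _ (TL M₁ M₂) b =
        algebraMap _ (TL M₁ M₂) (b - algebraMap Qb _ (χ b)) + algebraMap Qb _ (χ b) := by
      rw [map_sub, hc, sub_add_cancel]
    rw [h1, rs_add _ (hB _) (by rw [hc]; exact hB _), rs_algebraMap,
      (rs_eq_zero_iff _ (hB _)).2, zero_add]
    refine (hO _ (b - algebraMap Qb _ (χ b)) 1 one_ne_zero (by rw [map_one, mul_one])).2.2 ?_
    simp only [map_one, weightedOrder_one]
    refine C4_pos hw0 ?_
    rw [hχ, map_sub, AlgHom.commutes]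
    exact sub_self _
  · have hb0 : T b ≠ 0 := fun e => hb ((hT0 b).1 e)
    obtain ⟨m, hm, hmw⟩ := exists_coeff_ne_zero_and_weightedOrder w
      ((ne_zero_iff_weightedOrder_finite w).1 hb0)
    refine ⟨m, ?_, hm, fun b' y c hy hyc hb' => ?_⟩
    · unfold IdxGe at hI
      push Not at hI
      obtain ⟨m', hm', hlt⟩ := hI
      refine lt_of_le_of_lt ?_ hlt
      obtain ⟨c, hc'⟩ := dvd_nrB M₁ M₂ b
      have h1 : coeff m' (T b * T c) ≠ 0 := by
        rw [← map_mul, ← hc', hp, MvPolynomial.coeff_coe]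
        exact MvPolynomial.mem_support_iff.1 hm'
      have h2 := weightedOrder_le w h1
      rw [weightedOrder_mul, ← hmw] at h2
      have h3 : Finsupp.weight w m ≤ Finsupp.weight w m' := by
        exact_mod_cast le_self_add.trans h2
      rw [hw, hw]
      exact div_le_div_of_nonneg_right (by exact_mod_cast h3)
        (Finset.prod_nonneg fun i _ => Nat.cast_nonneg _)
    · have hcO : algebraMap Qb (TL M₁ M₂) (-c) ∈ O := by rw [hc]; exact hB _
      have h1 := (rs_eq_zero_iff ⟨O, fun c => by rw [hc]; exact hB _⟩ (O.add_mem _ _ hy hcO)).1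
        (by rw [rs_add _ hy hcO, hyc, rs_algebraMap, ← map_add, add_neg_cancel, map_zero])
      have h2 := (hO _ (b' - algebraMap Qb _ c * b) b hb (by
        rw [map_sub, map_mul, hb', ← hc, map_neg]; ring)).2.1 h1
      have h3 := coeff_eq_zero_of_lt_weightedOrder w (d := m) (hmw.trans_lt h2)
      rw [map_sub, map_mul, AlgHom.commutes, ← Algebra.smul_def, map_sub, map_smul,
        smul_eq_mul, sub_eq_zero] at h3
      exact h3

end Pool.Agent.E6b
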