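import Mathlib

open scoped NNReal TensorProduct IntermediateField BigOperators Classical Topology
open Filter

namespace Pool.Agent.E6b

theorem NT_bilin {G M : Type} [AddCommGroup G] [AddCommGroup M]
    (hM : ∀ x : M, 2 • x = 0 → x = 0) (q : G → M)
    (h : ∀ a b, q (a + b) + q (a - b) = 2 • q a + 2 • q b) :
    ∃ β : G →+ G →+ M, (∀ a b, β a b = q (a + b) - q a - q b) ∧ ∀ a, β a a = 2 • q a := by
  have h0 : q 0 = 0 := by
    apply hM
    have := h 0 0
    rw [add_zero, sub_zero] at this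
    linear_combination (norm := abel1) -this
  have h3 : ∀ a b c, q (a + b + c) - q (a + b) - q c =
      (q (a + c) - q a - q c) + (q (b + c) - q b - q c) := by
    intro a b c
    rw [← sub_eq_zero]
    apply hM
    have e1 := h (a + b) c
    have e2 := h a (b - c)
    have e3 := h (a + c) b
    have e4 := h b c
    rw [show a + (b - c) = a + b - c by abel, show a - (b - c) = a + c - b by abel] at e2
    rw [show a + c + b = a + b + c by abel] at e3
    linear_combination (norm := abel1) e1 + e3 - e2 - e4 - e4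
  refine ⟨AddMonoidHom.mk' (fun a => AddMonoidHom.mk' (fun b => q (a + b) - q a - q b)
    fun b c => ?_) fun a b => ?_, fun a b => rfl, fun a => ?_⟩
  · have := h3 b c a
    rw [add_comm (b + c) a, add_comm b a, add_comm c a] at this
    linear_combination (norm := abel1) this
  · ext c
    exact h3 a b c
  · have := h a a
    rw [sub_self, h0] at this
    change q (a + a) - q a - q a = _
    linear_combination (norm := abel1) this

theorem NT_lim {G : Type} [AddCommGroup G] (q : G → ℝ) (hq : ∀ a, 0 ≤ q a) {C : ℝ}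
    (h : ∀ a b, |q (a + b) + q (a - b) - 2 * q a - 2 * q b| ≤ C) (a : G) :
    ∃ x : ℝ, Tendsto (fun n : ℕ => q (2 ^ n • a) / 4 ^ n) atTop (𝓝 x) ∧ |q a - x| ≤ C := by
  have h0 : 2 * q 0 ≤ C := by
    have := h 0 0
    rw [add_zero, sub_zero, abs_le] at this
    linarith [this.1]
  have hu : ∀ n : ℕ, dist (q (2 ^ n • a) / 4 ^ n) (q (2 ^ (n + 1) • a) / 4 ^ (n + 1)) ≤
      3 * C / 8 * (1 / 4) ^ n := by
    intro n
    have h1 := h (2 ^ n • a) (2 ^ n • a)
    rw [sub_self, ← two_nsmul, ← mul_nsmul', ← pow_succ', abs_le] at h1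
    have h2 : |4 * q (2 ^ n • a) - q (2 ^ (n + 1) • a)| ≤ 3 * C / 2 := by
      rw [abs_le]
      constructor <;> linarith [h1.1, h1.2, hq 0]
    have e : q (2 ^ n • a) / 4 ^ n - q (2 ^ (n + 1) • a) / 4 ^ (n + 1) =
        (4 * q (2 ^ n • a) - q (2 ^ (n + 1) • a)) * (1 / 4 * (1 / 4) ^ n) := by
      rw [one_div, inv_pow]
      field_simp
      ring
    rw [Real.dist_eq, e, abs_mul, abs_of_pos (by positivity : (0 : ℝ) < 1 / 4 * (1 / 4) ^ n)]
    calc _ ≤ 3 * C / 2 * (1 / 4 * (1 / 4) ^ n) := by gcongr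
      _ = _ := by ring
  have hr : (1 / 4 : ℝ) < 1 := by norm_num
  obtain ⟨x, hx⟩ := cauchySeq_tendsto_of_complete (cauchySeq_of_le_geometric _ _ hr hu)
  refine ⟨x, hx, ?_⟩
  have := dist_le_of_le_geometric_of_tendsto₀ _ _ hr hu hx
  simp only [pow_zero, one_smul, div_one, Real.dist_eq] at this
  have e : 3 * C / 8 / (1 - 1 / 4) = C / 2 := by ring
  linarith [hq 0]

/-- Tate's limit. -/
theorem exists_tate {G : Type} [AddCommGroup G] (q : G → ℝ) (hq : ∀ a, 0 ≤ q a) {C : ℝ}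
    (h : ∀ a b, |q (a + b) + q (a - b) - 2 * q a - 2 * q b| ≤ C) :
    ∃ B : G →+ G →+ ℝ, (∀ a b, B a b = B b a) ∧ (∀ a, 0 ≤ B a a) ∧
      ∀ a, |q a - B a a| ≤ C := by
  choose r hr hrC using NT_lim q hq h
  have hpar : ∀ a b, r (a + b) + r (a - b) = 2 • r a + 2 • r b := by
    intro a b
    have h1 := (((hr (a + b)).add (hr (a - b))).sub ((hr a).const_mul 2)).sub
      ((hr b).const_mul 2)
    have h2 : Tendsto (fun n : ℕ => C / 4 ^ n) atTop (𝓝 0) :=
      tendsto_const_nhds.div_atTop (tendsto_pow_atTop_atTop_of_one_lt (by norm_num))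
    have h3 := tendsto_nhds_unique h1 (squeeze_zero_norm (fun n => by
      have e : q (2 ^ n • (a + b)) / 4 ^ n + q (2 ^ n • (a - b)) / 4 ^ n -
          2 * (q (2 ^ n • a) / 4 ^ n) - 2 * (q (2 ^ n • b) / 4 ^ n) =
          (q (2 ^ n • a + 2 ^ n • b) + q (2 ^ n • a - 2 ^ n • b) - 2 * q (2 ^ n • a) -
            2 * q (2 ^ n • b)) / 4 ^ n := by
        rw [smul_add, smul_sub]
        ring
      rw [e, Real.norm_eq_abs, abs_div, abs_of_pos (by positivity : (0 : ℝ) < 4 ^ n)]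
      gcongr
      exact h _ _) h2)
    simp only [nsmul_eq_mul, Nat.cast_ofNat]
    linarith
  obtain ⟨β, hβ, hβ2⟩ := NT_bilin (fun x hx => by simpa using hx) r hpar
  have hd : ∀ a, ((1 / 2 : ℝ) • β) a a = r a := by
    intro a
    simp only [AddMonoidHom.smul_apply, hβ2, nsmul_eq_mul, smul_eq_mul, Nat.cast_ofNat]
    ring
  refine ⟨(1 / 2 : ℝ) • β, fun a b => ?_, fun a => ?_, fun a => by rw [hd]; exact hrC a⟩
  · simp only [AddMonoidHom.smul_apply, hβ, add_comm a b]
    ring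
  · rw [hd]
    exact ge_of_tendsto' (hr a) fun n => div_nonneg (hq _) (by positivity)

theorem psd_cs {G : Type} [AddCommGroup G] (B : G →+ G →+ ℝ) (hs : ∀ a b, B a b = B b a)
    (hp : ∀ a, 0 ≤ B a a) (a b : G) : B a b ^ 2 ≤ B a a * B b b := by
  have h1 : ∀ r : ℚ, 0 ≤ B a a * ((r : ℝ) * r) + 2 * B a b * r + B b b := by
    intro r
    have h2 := hp (r.num • a + (r.den : ℤ) • b)
    simp only [map_add, map_zsmul, AddMonoidHom.add_apply, AddMonoidHom.zsmul_apply, zsmul_eq_mul,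
      hs b a, Int.cast_natCast] at h2
    have hd : (0 : ℝ) < r.den := by exact_mod_cast r.den_pos
    have e : (r.num : ℝ) = r * r.den := by exact_mod_cast (Rat.mul_den_eq_num r).symm
    rw [e] at h2
    refine le_of_mul_le_mul_left (a := (r.den : ℝ) * r.den) ?_ (by positivity)
    linarith
  have h2 : ∀ x : ℝ, 0 ≤ B a a * (x * x) + 2 * B a b * x + B b b := fun x =>
    Rat.denseRange_cast.induction_on x (isClosed_le continuous_const (by fun_prop)) h1
  have h3 := discrim_le_zero h2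
  unfold discrim at h3
  linarith

theorem psd_sum_le {G ι : Type} [AddCommGroup G] (B : G →+ G →+ ℝ) (hs : ∀ a b, B a b = B b a)
    (hp : ∀ a, 0 ≤ B a a) (s : Finset ι) (a : ι → G) :
    B (∑ i ∈ s, a i) (∑ i ∈ s, a i) ≤ s.card * ∑ i ∈ s, B (a i) (a i) := by
  have h1 : ∀ x y, B x y ≤ B x x / 2 + B y y / 2 := by
    intro x y
    have := hp (x - y)
    simp only [map_sub, AddMonoidHom.sub_apply, hs y x] at this
    linarith
  simp only [map_sum, AddMonoidHom.finsetSum_apply]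
  refine (Finset.sum_le_sum fun i _ => Finset.sum_le_sum fun j _ => h1 _ _).trans_eq ?_
  simp only [Finset.sum_add_distrib, Finset.sum_const, nsmul_eq_mul, ← Finset.mul_sum,
    ← Finset.sum_div]
  ring

theorem NT_inv {G : Type} [AddCommGroup G] (B : G →+ G →+ ℝ) (hs : ∀ a b, B a b = B b a)
    (S : Finset G) : ∃ P : (S → ℝ) →ₗ[ℝ] (S → ℝ), ∀ a ∈ AddSubgroup.closure (S : Set G),
      ∀ b ∈ AddSubgroup.closure (S : Set G),
        B a b = (fun i : S => B i a) ⬝ᵥ P fun i : S => B i b := by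
  set M : Matrix S S ℝ := Matrix.of fun i j => B i j with hM
  obtain ⟨σ, hσ⟩ := M.mulVecLin.rangeRestrict.exists_rightInverse_of_surjective
    (LinearMap.range_rangeRestrict _)
  obtain ⟨P, hP⟩ := σ.exists_extend
  have h1 : ∀ x, M.mulVec (P (M.mulVec x)) = M.mulVec x := by
    intro x
    have e1 := LinearMap.congr_fun hP ⟨M.mulVec x, x, rfl⟩
    have e2 := congrArg Subtype.val (LinearMap.congr_fun hσ ⟨M.mulVec x, x, rfl⟩)
    simp only [LinearMap.comp_apply, Submodule.subtype_apply] at e1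
    rw [e1]
    exact e2
  have h2 : ∀ k : S → ℤ, (fun i : S => B i (∑ j : S, k j • (j : G))) =
      M.mulVec fun j => (k j : ℝ) := by
    intro k
    funext i
    simp [hM, Matrix.mulVec, dotProduct, mul_comm]
  refine ⟨P, fun a ha b hb => ?_⟩
  obtain ⟨k, rfl⟩ := AddSubgroup.mem_closure_iff_of_fintype.1 ha
  obtain ⟨l, rfl⟩ := AddSubgroup.mem_closure_iff_of_fintype.1 hb
  have hT : M.transpose = M := by
    ext i j
    exact hs _ _
  have h3 : ∀ x y : S → ℝ, M.mulVec x ⬝ᵥ y = x ⬝ᵥ M.mulVec y := by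
    intro x y
    rw [Matrix.dotProduct_mulVec, ← Matrix.mulVec_transpose, hT]
  erw [h2, h2]
  rw [h3, h1, ← h2]
  simp [dotProduct, Finset.mul_sum]
  exact Finset.sum_comm

/-- directions in a finitely generated group accumulate -/
theorem exists_close {G : Type} [AddCommGroup G] (B : G →+ G →+ ℝ) (hs : ∀ a b, B a b = B b a)
    (hp : ∀ a, 0 ≤ B a a) (Γ : AddSubgroup G) (hΓ : Γ.FG) (U : Ultrafilter ℕ) (a : ℕ → G)
    (ha : ∀ n, a n ∈ Γ) (H : ℕ → ℝ) (hH : ∀ n, 0 < H n) {c : ℝ}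
    (hc : ∀ n, B (a n) (a n) ≤ c * H n) {ε : ℝ} (hε : 0 < ε) :
    ∃ T ∈ U, ∀ m ∈ T, ∀ n ∈ T,
      B (a m) (a m) / H m - 2 * B (a m) (a n) / Real.sqrt (H m * H n) + B (a n) (a n) / H n ≤ ε := by
  obtain ⟨S, rfl⟩ := hΓ
  obtain ⟨P, hP⟩ := NT_inv B hs S
  set y : ℕ → S → ℝ := fun n => (Real.sqrt (H n))⁻¹ • fun i : S => B i (a n) with hy
  have hsq : ∀ n, 0 < Real.sqrt (H n) := fun n => Real.sqrt_pos.2 (hH n)
  have h1 : ∀ m n, y m ⬝ᵥ P (y n) = B (a m) (a n) / Real.sqrt (H m * H n) := by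
    intro m n
    rw [hy, map_smul, smul_dotProduct, dotProduct_smul, ← hP _ (ha m) _ (ha n),
      Real.sqrt_mul (hH m).le, smul_eq_mul, smul_eq_mul]
    field_simp
  have hK : IsCompact (Set.pi Set.univ fun i : S =>
      Set.Icc (-Real.sqrt (B i i * c)) (Real.sqrt (B i i * c))) :=
    isCompact_univ_pi fun i => isCompact_Icc
  obtain ⟨z, -, hz⟩ := hK.ultrafilter_le_nhds' (U.map y) (by
    rw [Ultrafilter.mem_map]
    refine univ_mem' fun n i _ => abs_le.1 (Real.abs_le_sqrt ?_)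
    have e : y n i ^ 2 = B i (a n) ^ 2 / H n := by
      rw [hy]
      simp only [Pi.smul_apply, smul_eq_mul, mul_pow, inv_pow, Real.sq_sqrt (hH n).le]
      ring
    rw [e, div_le_iff₀ (hH n), mul_assoc]
    exact (psd_cs B hs hp _ _).trans (mul_le_mul_of_nonneg_left (hc n) (hp _)))
  have hz' : Tendsto y U (𝓝 z) := hz
  have hPc : Continuous P := P.continuous_of_finiteDimensional
  have hψ : Continuous fun w : (S → ℝ) × (S → ℝ) =>
      w.1 ⬝ᵥ P w.1 - 2 * (w.1 ⬝ᵥ P w.2) + w.2 ⬝ᵥ P w.2 := by fun_prop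
  have h2 := (hψ.tendsto (z, z)).comp ((hz'.prodMap hz').mono_right nhds_prod_eq.ge)
  have h3 := h2.eventually (gt_mem_nhds (a := ε) (by linarith))
  obtain ⟨T, hT, hT'⟩ := eventually_prod_self_iff'.1 h3
  refine ⟨T, hT, fun m hm n hn => ?_⟩
  have h4 := hT' m hm n hn
  simp only [Function.comp, Prod.map, h1, Real.sqrt_mul_self (hH _).le] at h4
  rw [mul_div_assoc]
  exact h4.le

/-- a function to a torsion free group satisfying the parallelogram law is quadratic. -/
theorem quad_of_par {G M : Type} [AddCommGroup G] [AddCommGroup M]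
    (hM : ∀ x : M, 2 • x = 0 → x = 0) (q : G → M)
    (h : ∀ a b, q (a + b) + q (a - b) = 2 • q a + 2 • q b) (a b : G) (s t : ℤ) :
    q (s • a + t • b) = (s ^ 2) • q a + (t ^ 2) • q b + (s * t) • (q (a + b) - q a - q b) := by
  obtain ⟨β, hβ, hβ2⟩ := NT_bilin hM q h
  have h1 : ∀ (x y : G) (s t : ℤ), β (s • x) (t • y) = (s * t) • β x y := by
    intro x y s t
    rw [map_zsmul, map_zsmul, AddMonoidHom.zsmul_apply, smul_smul, mul_comm]
  have h2 : ∀ (x : G) (s : ℤ), q (s • x) = (s ^ 2) • q x := by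
    intro x s
    rw [← sub_eq_zero]
    apply hM
    rw [smul_sub, ← hβ2, h1, hβ2, smul_comm, sq, sub_self]
  rw [← hβ, ← h1, hβ, h2, h2]
  abel

end Pool.Agent.E6b
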