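import Pool.Agent.E6b.H1b

open scoped NNReal TensorProduct IntermediateField BigOperators Classical Topology
open Filter

namespace Pool.Agent.E6b

/-- absolute logarithmic projective height of a finite set of algebraic numbers -/
noncomputable def ht : Finset Qb → ℝ := Classical.choose exists_ht

theorem htSpec : HtSpec ht := Classical.choose_spec exists_ht

/-- height of a vector -/
noncomputable def hv {ι : Type*} [Fintype ι] (x : ι → Qb) : ℝ := ht (Finset.univ.image x)

/-- local norm of a vector -/
noncomputable def nv {ι : Type*} [Fintype ι] (v : AbsoluteValue Qb ℝ) (x : ι → Qb) : ℝ :=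
  nrm v (Finset.univ.image x)

/-- height of a number -/
noncomputable def h1 (a : Qb) : ℝ := ht {1, a}

/-- height of a polynomial -/
noncomputable def hp {σ : Type*} (P : MvPolynomial σ Qb) : ℝ := ht P.coeffs

/-- proportional vectors -/
def Prp {ι K : Type*} [Field K] (x y : ι → K) : Prop := ∃ μ : K, μ ≠ 0 ∧ ∀ i, x i = μ * y i

end Pool.Agent.E6b
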