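import Pool.Agent.E6b.V1
import Pool.Agent.E6b.HDefs2
import Pool.Agent.E6b.NT

open scoped NNReal TensorProduct IntermediateField BigOperators Classical Topology
open Filter

namespace Pool.Agent.E6b

theorem P5_range {K Ω : Type} [Field K] [IsAlgClosed K] [Field Ω] [Algebra K Ω] {G : Ω}
    (h : IsAlgebraic K G) : G ∈ (algebraMap K Ω).range :=
  minpoly.mem_range_of_degree_eq_one K G
    (IsAlgClosed.degree_eq_one_of_irreducible K (minpoly.irreducible h.isIntegral))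

theorem P5_exists_prp {κ K Ω : Type} [Field κ] [Field K] [IsAlgClosed K] [Field Ω] [Algebra κ K]
    [Algebra κ Ω] (τ : K →ₐ[κ] Ω) {ι : Type} [Fintype ι] {x : ι → Ω} (hx : x ≠ 0) {k : ℕ}
    (hk : 0 < k) {γ : Ω} (h : ∀ O : VS κ Ω, (∀ c, τ c ∈ O.1) → vs O.1 x ^ k = O.1.valuation γ) :
    ∃ y : ι → K, Prp x fun i => τ (y i) := by
  let _ : Algebra K Ω := (τ : K →+* Ω).toAlgebra
  have hτ : ∀ c, algebraMap K Ω c = τ c := fun _ => rfl
  obtain ⟨i0, hi0⟩ := Function.ne_iff.mp hx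
  have hi0' : x i0 ≠ 0 := hi0
  have hγ : γ ≠ 0 := by
    intro h0
    have h1 := h ⟨⊤, fun _ => ValuationSubring.mem_top _⟩ fun _ => ValuationSubring.mem_top _
    rw [h0, map_zero] at h1
    exact vs_ne_zero _ hx (pow_eq_zero_iff hk.ne' |>.mp h1)
  have h1 : ∀ i, x i ^ k / γ ∈ (algebraMap K Ω).range := by
    intro i
    refine P5_range (isAlgebraic_of_forall_mem fun O => ?_)
    have h2 := h ⟨O.1, fun c => by rw [← τ.commutes c]; exact O.2 _⟩ fun c => O.2 c
    rw [V1_div_mem _ _ hγ, ← h2, map_pow]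
    exact pow_le_pow_left' (le_vs O.1 x i) k
  have h2 : ∀ i, x i / x i0 ∈ (algebraMap K Ω).range := by
    intro i
    obtain ⟨c, hc⟩ := h1 i
    obtain ⟨c0, hc0⟩ := h1 i0
    refine P5_range (IsAlgebraic.of_pow hk ?_)
    have h3 : (x i / x i0) ^ k = algebraMap K Ω (c / c0) := by
      rw [map_div₀, hc, hc0, div_pow]
      field_simp
    rw [h3]
    exact isAlgebraic_algebraMap _
  choose y hy using h2
  refine ⟨y, x i0, hi0', fun i => ?_⟩
  change x i = x i0 * τ (y i)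
  rw [← hτ, hy]
  field_simp

theorem P5_val_one {κ K Ω : Type} [Field κ] [Field K] [Field Ω] [Algebra κ K]
    [Algebra κ Ω] (τ : K →ₐ[κ] Ω) (O : ValuationSubring Ω) (h : ∀ c, τ c ∈ O) {c : K}
    (hc : c ≠ 0) : O.valuation (τ c) = 1 := by
  have h1 := (O.valuation_le_one_iff _).mpr (h c)
  have h2 := (O.valuation_le_one_iff _).mpr (h c⁻¹)
  have h3 : O.valuation (τ c) ≠ 0 := by simpa using hc
  rw [map_inv₀, map_inv₀, inv_le_one₀ (zero_lt_iff.mpr h3)] at h2
  exact le_antisymm h1 h2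

theorem P5_vs_one {κ K Ω : Type} [Field κ] [Field K] [Field Ω] [Algebra κ K]
    [Algebra κ Ω] (τ : K →ₐ[κ] Ω) (O : ValuationSubring Ω) (h : ∀ c, τ c ∈ O) {ι : Type}
    [Fintype ι] {x : ι → K} (hx : x ≠ 0) : vs O (fun i => τ (x i)) = 1 := by
  obtain ⟨i, hi⟩ := Function.ne_iff.mp hx
  refine le_antisymm (vs_le O fun j => (O.valuation_le_one_iff _).mpr (h _)) ?_
  rw [← P5_val_one τ O h (c := x i) hi]
  exact le_vs O (fun i => τ (x i)) i

theorem P5_ne_zero_of_prp {K Ω ι : Type} [Field K] [Field Ω] {f : K → Ω} (hf : f 0 = 0)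
    {x : ι → Ω} {y : ι → K} (hx : x ≠ 0) (h : Prp x fun i => f (y i)) : y ≠ 0 := by
  rintro rfl
  obtain ⟨μ, -, h⟩ := h
  refine hx (funext fun i => ?_)
  have h1 : x i = μ * f 0 := h i
  rw [h1, hf, mul_zero]
  rfl

/-- the size of a vector proportional to a `K`-vector is principal -/
theorem P5_vs_prp {κ K Ω : Type} [Field κ] [Field K] [Field Ω] [Algebra κ K]
    [Algebra κ Ω] (τ : K →ₐ[κ] Ω) {ι : Type} [Fintype ι] {x : ι → Ω} {y : ι → K} (hx : x ≠ 0)
    (h : Prp x fun i => τ (y i)) : ∃ μ : Ω, μ ≠ 0 ∧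
      ∀ O : ValuationSubring Ω, (∀ c, τ c ∈ O) → vs O x = O.valuation μ := by
  have hy := P5_ne_zero_of_prp (map_zero τ) hx h
  obtain ⟨μ, hμ, h⟩ := h
  refine ⟨μ, hμ, fun O hO => ?_⟩
  have e : x = fun i => μ * τ (y i) := funext h
  rw [e, vs_smul, P5_vs_one τ O hO hy, mul_one]

theorem P5_of_segre {K Ω ι ι' : Type} [Field K] [Field Ω] (f : K → Ω) {x : ι → Ω} {x' : ι' → Ω}
    (hx' : x' ≠ 0) {y : ι × ι' → K} (h : Prp (fun p : ι × ι' => x p.1 * x' p.2) fun p => f (y p)) :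
    ∃ y' : ι → K, Prp x fun i => f (y' i) := by
  obtain ⟨j, hj⟩ := Function.ne_iff.mp hx'
  have hj' : x' j ≠ 0 := hj
  obtain ⟨μ, hμ, h⟩ := h
  refine ⟨fun i => y (i, j), μ / x' j, div_ne_zero hμ hj', fun i => ?_⟩
  have h1 : x i * x' j = μ * f (y (i, j)) := h (i, j)
  field_simp
  exact h1

theorem P5_segre_ne_zero {Ω ι ι' : Type} [Field Ω] {x : ι → Ω} {x' : ι' → Ω} (hx : x ≠ 0)
    (hx' : x' ≠ 0) : (fun p : ι × ι' => x p.1 * x' p.2) ≠ 0 := by
  obtain ⟨i, hi⟩ := Function.ne_iff.mp hx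
  obtain ⟨j, hj⟩ := Function.ne_iff.mp hx'
  exact Function.ne_iff.mpr ⟨(i, j), mul_ne_zero hi hj⟩

theorem P5_equiv {A B : Type} [Field A] [Field B] (f : A →+* B) (O : ValuationSubring B) :
    (O.comap f).valuation.IsEquiv (O.valuation.comap f) := by
  refine Valuation.isEquiv_of_val_le_one fun x => ?_
  rw [ValuationSubring.valuation_le_one_iff, ValuationSubring.mem_comap, Valuation.comap_apply,
    ValuationSubring.valuation_le_one_iff]

theorem P5_val_eq {A B : Type} [Field A] [Field B] (f : A →+* B) (O : ValuationSubring B)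
    (x y : A) : (O.comap f).valuation x = (O.comap f).valuation y ↔
      O.valuation (f x) = O.valuation (f y) :=
  (P5_equiv f O).eq_iff

theorem P5_norm {K Ω : Type} [Field K] [Field Ω] [Algebra K Ω] [IsAlgClosed Ω]
    [Algebra.IsAlgebraic K Ω] {γ : Ω} (hγ : γ ≠ 0) : ∃ k : ℕ, 0 < k ∧ ∃ g : K, g ≠ 0 ∧
      ∀ (O : ValuationSubring Ω) (v : O.ValueGroup), (∀ σ : Ω ≃ₐ[K] Ω, O.valuation (σ γ) = v) →
        O.valuation (algebraMap K Ω g) = v ^ k := by
  have hi : IsIntegral K γ := Algebra.IsIntegral.isIntegral γ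
  have : IsAlgClosure K Ω := ⟨inferInstance, inferInstance⟩
  refine ⟨(minpoly K γ).natDegree, minpoly.natDegree_pos hi, (minpoly K γ).coeff 0,
    minpoly.coeff_zero_ne_zero hi hγ, fun O v h => ?_⟩
  have hs : ((minpoly K γ).map (algebraMap K Ω)).Splits := IsAlgClosed.splits _
  have h1 := hs.coeff_zero_eq_prod_roots_of_monic ((minpoly.monic hi).map _)
  have h2 := hs.natDegree_eq_card_roots
  rw [Polynomial.coeff_map] at h1
  rw [Polynomial.natDegree_map] at h2
  rw [h1, map_mul, map_pow, Valuation.map_neg, map_one, one_pow, one_mul, map_multiset_prod, h2,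
    ← Multiset.prod_replicate]
  congr 1
  rw [Multiset.eq_replicate]
  refine ⟨Multiset.card_map _ _, fun b hb => ?_⟩
  obtain ⟨r, hr, rfl⟩ := Multiset.mem_map.mp hb
  have h3 : IsConjRoot K γ r := (isConjRoot_iff_mem_minpoly_aroots hi).mpr hr
  obtain ⟨σ, hσ⟩ := h3.symm.exists_algEquiv
  rw [← hσ]
  exact h σ

section
variable {κ K Ω : Type} [Field κ] [Field K] [Field Ω] [Algebra κ K] [Algebra κ Ω] [Algebra K Ω]
  [IsScalarTower κ K Ω]

/-- descent of a principal class -/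
theorem P5_descend [IsAlgClosed Ω] [Algebra.IsAlgebraic K Ω] {l m : VC κ K} {γ : Ω} (hγ : γ ≠ 0)
    (h : ∀ (O0 : VS κ K) (O : VS κ Ω), O.1.comap (algebraMap K Ω) = O0.1 →
      O.1.valuation (algebraMap K Ω (l O0)) =
        O.1.valuation γ * O.1.valuation (algebraMap K Ω (m O0))) : QEq l m := by
  obtain ⟨k, hk, g, hg, hn⟩ := P5_norm (K := K) hγ
  refine ⟨k, hk, Units.mk0 g hg, veq_iff.mpr fun O0 => ?_⟩
  obtain ⟨O, hO⟩ := exists_vs_lift Ω O0.1
  have hm : (m O0 : K) ≠ 0 := Units.ne_zero _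
  have hm' : algebraMap K Ω (m O0) ≠ 0 := by simp
  have h1 : ∀ σ : Ω ≃ₐ[K] Ω,
      O.valuation (σ γ) = O.valuation (algebraMap K Ω (l O0 / m O0)) := by
    intro σ
    have hc : (O.comap (σ : Ω →+* Ω)).comap (algebraMap K Ω) = O0.1 := by
      rw [← hO]
      ext x
      simp only [ValuationSubring.mem_comap, RingHom.coe_coe, AlgEquiv.commutes]
    have h2 := h O0 ⟨O.comap (σ : Ω →+* Ω), fun c => by
      rw [IsScalarTower.algebraMap_apply κ K Ω, ← ValuationSubring.mem_comap, hc]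
      exact O0.2 c⟩ hc
    rw [← map_mul] at h2
    have h3 := (P5_val_eq (σ : Ω →+* Ω) O _ _).mp h2
    simp only [RingHom.coe_coe, map_mul, AlgEquiv.commutes] at h3
    have h4 : O.valuation (algebraMap K Ω (m O0)) ≠ 0 := by simp
    rw [map_div₀, map_div₀, h3, mul_div_cancel_right₀ _ h4]
  have h5 := hn O _ h1
  have h6 := (P5_val_eq (algebraMap K Ω) O (((l ^ k) O0 : Kˣ) : K)
    (((cstC κ (Units.mk0 g hg) * m ^ k) O0 : Kˣ) : K)).mpr (by
      simp only [Pi.pow_apply, Pi.mul_apply, cstC, Units.val_pow_eq_pow_val, Units.val_mul,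
        Units.val_mk0, map_pow, map_mul]
      have h4 : O.valuation (algebraMap K Ω (m O0)) ≠ 0 := by simp
      rw [h5, map_div₀, map_div₀, ← mul_pow, div_mul_cancel₀ _ h4])
  rw [hO] at h6
  exact h6

omit [Algebra κ Ω] [IsScalarTower κ K Ω] in
theorem P5_vs_gen {ι : Type} [Fintype ι] {x : ι → K} (hx : x ≠ 0) (O0 : VS κ K)
    (O : ValuationSubring Ω) (h : O.comap (algebraMap K Ω) = O0.1) :
    vs O (fun i => algebraMap K Ω (x i)) = O.valuation (algebraMap K Ω (gen κ x O0)) := by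
  obtain ⟨⟨j, hj⟩, h1⟩ := gen_spec (κ := κ) hx O0
  apply le_antisymm
  · refine vs_le O fun i => ?_
    have h2 := h1 i
    rw [← h, ValuationSubring.mem_comap, map_div₀, V1_div_mem _ _ (by simp)] at h2
    exact h2
  · rw [← hj]
    exact le_vs O (fun i => algebraMap K Ω (x i)) j

end

section
variable {κ K : Type} [Field κ] [Field K] [Algebra κ K]

/-- classes which are trivial up to torsion -/
def P5H (κ K : Type) [Field κ] [Field K] [Algebra κ K] : Subgroup (VC κ K) where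
  carrier := {l | QEq l 1}
  one_mem' := QEq.refl 1
  mul_mem' := fun {a b} ha hb => by
    have h := QEq.mul ha hb
    rwa [mul_one] at h
  inv_mem' := fun {a} ha => by
    have h := V1_qeq_inv ha
    rwa [inv_one] at h

/-- the class in the quotient -/
def P5m (l : VC κ K) : Additive (VC κ K ⧸ P5H κ K) := Additive.ofMul (QuotientGroup.mk l)

theorem P5m_eq {l m : VC κ K} : P5m l = P5m m ↔ QEq l m := by
  unfold P5m
  rw [Additive.ofMul.apply_eq_iff_eq, QuotientGroup.eq]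
  constructor
  · intro h
    have h1 : QEq (l⁻¹ * m) 1 := h
    have h2 := (QEq.refl l).mul h1
    rw [mul_inv_cancel_left, mul_one] at h2
    exact h2.symm
  · intro h
    have h1 := (QEq.refl l⁻¹).mul h.symm
    rw [inv_mul_cancel] at h1
    exact h1

theorem P5m_mul (l m : VC κ K) : P5m (l * m) = P5m l + P5m m := rfl

theorem P5m_pow (l : VC κ K) (n : ℕ) : P5m (l ^ n) = n • P5m l := by
  unfold P5m
  rw [QuotientGroup.mk_pow, ofMul_pow]

theorem P5m_zpow (l : VC κ K) (n : ℤ) : P5m (l ^ n) = n • P5m l := by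
  unfold P5m
  rw [QuotientGroup.mk_zpow, ofMul_zpow]

theorem P5m_one : P5m (1 : VC κ K) = 0 := rfl

theorem P5m_surj (x : Additive (VC κ K ⧸ P5H κ K)) : ∃ l, P5m l = x :=
  QuotientGroup.mk_surjective (Additive.toMul x)

theorem P5m_tf (x : Additive (VC κ K ⧸ P5H κ K)) (h : 2 • x = 0) : x = 0 := by
  obtain ⟨l, rfl⟩ := P5m_surj x
  rw [← P5m_pow, ← P5m_one, P5m_eq, ← one_pow 2] at h
  rw [← P5m_one, P5m_eq]
  exact h.of_pow two_pos

theorem P5m_prp {ι : Type} [Finite ι] {x y : ι → K} (hy : y ≠ 0) (h : Prp x y) :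
    P5m (gen κ x) = P5m (gen κ y) := by
  obtain ⟨μ, hμ, h⟩ := h
  refine P5m_eq.mpr ⟨1, one_pos, Units.mk0 μ hμ, ?_⟩
  rw [pow_one, pow_one]
  exact qeq_gen_of_prp hy hμ h

end

end Pool.Agent.E6b
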