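import Pool.Agent.E6b.U2

open scoped NNReal TensorProduct IntermediateField BigOperators Classical Topology
open Filter

namespace Pool.Agent.E6b

theorem U3_bd {ι ι' : Type} [Fintype ι] [Fintype ι'] (a : ι → Qb) {b : ι' → Qb} (hb : b ≠ 0) :
    ∃ M : ℕ, ∀ p v, IsPl p v → nv v a ≤ M * nv v b := by
  obtain ⟨j, hj⟩ := Function.ne_iff.1 hb
  choose C hC using fun i => exists_bound (a i / b j)
  refine ⟨Finset.univ.sup fun i => ⌈C i⌉₊, fun p v hv => nv_le v
    (mul_nonneg (Nat.cast_nonneg _) (nrm_nonneg _ _)) fun i => ?_⟩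
  have h1 : (⌈C i⌉₊ : ℝ) ≤ ((Finset.univ.sup fun i => ⌈C i⌉₊ : ℕ) : ℝ) :=
    Nat.cast_le.2 (Finset.le_sup (f := fun i => ⌈C i⌉₊) (Finset.mem_univ i))
  rw [← div_mul_cancel₀ (a i) hj, map_mul]
  exact mul_le_mul ((hC i p v hv).trans ((Nat.le_ceil _).trans h1)) (le_nv v b j) (v.nonneg _)
    (Nat.cast_nonneg _)

theorem U3_lg {ι ι' : Type} [Fintype ι] [Fintype ι'] (a : ι → Qb) {b : ι' → Qb} (hb : b ≠ 0) :
    ∃ M : ℕ, ∀ p v, IsPl p v → M ≤ p → nv v a ≤ nv v b := by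
  obtain ⟨j, hj⟩ := Function.ne_iff.1 hb
  choose N hN using fun i => H1a_eventually_le_one (a i / b j)
  refine ⟨Finset.univ.sup N, fun p v hv hp => nv_le v (nrm_nonneg _ _) fun i => ?_⟩
  rw [← div_mul_cancel₀ (a i) hj, map_mul]
  exact (mul_le_of_le_one_left (v.nonneg _)
    (hN i p v hv ((Finset.le_sup (Finset.mem_univ i)).trans hp))).trans (le_nv v b j)

theorem U3_best {ι ι' : Type} [Fintype ι] [Fintype ι'] {a : ι → Qb} {b : ι' → Qb} (ha : a ≠ 0)
    (hb : b ≠ 0) : ∃ p v, IsPl p v ∧ ∀ C : ℕ, (∃ q w, IsPl q w ∧ C * nv w b < nv w a) →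
      C * nv v b < nv v a := by
  obtain ⟨M, hM⟩ := U3_bd a hb
  obtain ⟨v0, hv0⟩ := exists_isPl (p := 0) (Or.inl rfl)
  obtain ⟨p, v, hv, hlt⟩ := Nat.findGreatest_spec
    (P := fun C : ℕ => ∃ q w, IsPl q w ∧ C * nv w b < nv w a) (Nat.zero_le M)
    ⟨0, v0, hv0, by
      rw [Nat.cast_zero, zero_mul]
      exact nrm_pos v0 (H2_vec_ne ha)⟩
  refine ⟨p, v, hv, fun C hC => lt_of_le_of_lt (mul_le_mul_of_nonneg_right (Nat.cast_le.2 ?_)
    (nrm_nonneg _ _)) hlt⟩
  refine Nat.le_findGreatest ?_ hC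
  obtain ⟨q, w, hw, h1⟩ := hC
  exact Nat.cast_le.1 (lt_of_mul_lt_mul_right (h1.trans_le (hM q w hw)) (nrm_nonneg _ _)).le

theorem U3_last {ι ι' : Type} [Fintype ι] [Fintype ι'] (a : ι → Qb) {b : ι' → Qb} (hb : b ≠ 0) :
    ∃ p v, IsPl p v ∧ ∀ q w, IsPl q w → nv w b < nv w a → q ≤ p ∧ nv v b < nv v a := by
  obtain ⟨M, hM⟩ := U3_lg a hb
  have hle : ∀ q w, IsPl q w → nv w b < nv w a → q ≤ M := fun q w hw h1 => by
    by_contra hn
    exact absurd (hM q w hw (not_le.1 hn).le) (not_le.2 h1)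
  by_cases hex : ∃ q w, IsPl q w ∧ nv w b < nv w a
  · obtain ⟨q0, w0, hw0, h0⟩ := hex
    obtain ⟨v, hv, hlt⟩ := Nat.findGreatest_spec
      (P := fun q : ℕ => ∃ w, IsPl q w ∧ nv w b < nv w a) (hle q0 w0 hw0 h0) ⟨w0, hw0, h0⟩
    exact ⟨_, v, hv, fun q w hw h1 => ⟨Nat.le_findGreatest (hle q w hw h1) ⟨w, hw, h1⟩, hlt⟩⟩
  · obtain ⟨v0, hv0⟩ := exists_isPl (p := 0) (Or.inl rfl)
    exact ⟨0, v0, hv0, fun q w hw h1 => absurd ⟨q, w, hw, h1⟩ hex⟩

theorem U3_core (U : Ultrafilter ℕ) {ι ι' : Type} [Fintype ι] [Fintype ι'] (a : ℕ → ι → Qb)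
    (b : ℕ → ι' → Qb) (ha : ∀ n, a n ≠ 0) (hb : ∀ n, b n ≠ 0)
    (h : ∀ O : VS Qb (UP U Qb), vs O.1 (fun i => gm U fun n => a n i) ≤
      vs O.1 fun j => gm U fun n => b n j) :
    ∃ C : ℝ, ∀ᶠ n in (U : Filter ℕ), hv (a n) ≤ hv (b n) + C := by
  have h1 : ∃ C : ℕ, ∀ᶠ n in (U : Filter ℕ), ∀ p v, IsPl p v → nv v (a n) ≤ C * nv v (b n) := by
    by_contra hn
    choose p v hv hbest using fun n => U3_best (ha n) (hb n)
    obtain ⟨O, hO⟩ := U2_vs_bdd U p v hv
    obtain ⟨z, hz, hle⟩ := U2_key U a b (ha _) (hb _) v O.1 (h O)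
    obtain ⟨C, hC⟩ := (hO z).1 hz
    have h3 := Ultrafilter.eventually_not.2 fun h4 => hn ⟨⌈C⌉₊, h4⟩
    obtain ⟨n, h4, h5, h6⟩ := (hle.and (hC.and h3)).exists
    push Not at h6
    exact absurd (hbest n _ h6) (not_lt.2 (h4.trans
      (mul_le_mul_of_nonneg_right (h5.trans (Nat.le_ceil C)) (nrm_nonneg _ _))))
  have h2 : ∃ N : ℕ, ∀ᶠ n in (U : Filter ℕ), ∀ p v, IsPl p v → N ≤ p →
      nv v (a n) ≤ nv v (b n) := by
    by_contra hn
    choose p v hv hlast using fun n => U3_last (a n) (hb n)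
    have h3 : ∀ N : ℕ, ∀ᶠ n in (U : Filter ℕ), N ≤ p n ∧ nv (v n) (b n) < nv (v n) (a n) := by
      intro N
      filter_upwards [Ultrafilter.eventually_not.2 fun h4 => hn ⟨N, h4⟩] with n h5
      push Not at h5
      obtain ⟨q, w, hw, h6, h7⟩ := h5
      exact ⟨h6.trans (hlast n q w hw h7).1, (hlast n q w hw h7).2⟩
    have hp : Tendsto p (U : Filter ℕ) atTop :=
      tendsto_atTop.2 fun N => (h3 N).mono fun n h4 => h4.1
    obtain ⟨O, hO, -⟩ := exists_vs_one U p v hv hp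
    obtain ⟨z, hz, hle⟩ := U2_key U a b (ha _) (hb _) v O.1 (h O)
    obtain ⟨n, h4, h5, h6⟩ := (hle.and (((hO z).1 hz).and (h3 0))).exists
    exact absurd h6.2 (not_lt.2 (h4.trans (mul_le_of_le_one_left (nrm_nonneg _ _) h5)))
  obtain ⟨C, hC⟩ := h1
  obtain ⟨N, hN⟩ := h2
  refine ⟨N * Real.log (C + 1), ?_⟩
  filter_upwards [hC, hN] with n hC hN
  rw [add_comm]
  refine ht_le_of_local_bad N (le_add_of_nonneg_left (Nat.cast_nonneg C)) (H2_vec_ne (ha n))
    (H2_vec_ne (hb n)) fun p v hv => ?_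
  split_ifs with hp
  · exact (hC p v hv).trans (mul_le_mul_of_nonneg_right (by linarith) (nrm_nonneg _ _))
  · rw [one_mul]
    exact hN p v hv (not_lt.1 hp)

theorem U3_vs {Ω ι : Type} [Field Ω] [Fintype ι] [Nonempty ι] (O : ValuationSubring Ω) (γ : Ω)
    (y : ι → Ω) : O.valuation γ * vs O y ≤ vs O fun j => γ * y j := by
  obtain ⟨j, -, hj⟩ := Finset.exists_mem_eq_sup (Finset.univ : Finset ι) Finset.univ_nonempty
    fun j => O.valuation (y j)
  rw [vs, hj, ← map_mul]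
  exact Finset.le_sup (f := fun j => O.valuation (γ * y j)) (Finset.mem_univ j)

theorem U3_smooth (L Ω : Type) [Field L] [CharZero L] [Field Ω] [Algebra L Ω] :
    Algebra.FormallySmooth L Ω := by
  obtain ⟨s, hs⟩ := exists_isTranscendenceBasis L Ω
  have := hs.isAlgebraic_field
  exact Algebra.FormallySmooth.of_algebraicIndependent_of_isSeparable hs.1

theorem U3_lift {A Ω B : Type} [CommRing A] [CommRing Ω] [CommRing B] [Algebra A Ω]
    [Algebra.FormallySmooth A Ω] (φ : A →+* B) (π : B →+* Ω) (hπ : Function.Surjective π)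
    (hn : IsNilpotent (RingHom.ker π)) (hc : ∀ l, π (φ l) = algebraMap A Ω l) :
    ∃ ψ : Ω →+* B, (∀ x, π (ψ x) = x) ∧ ∀ l, ψ (algebraMap A Ω l) = φ l := by
  let _ : Algebra A B := φ.toAlgebra
  let g : B →ₐ[A] Ω := { π with commutes' := hc }
  let ψ := Algebra.FormallySmooth.liftOfSurjective (AlgHom.id A Ω) g hπ hn
  exact ⟨ψ.toRingHom, fun x => Algebra.FormallySmooth.liftOfSurjective_apply _ g hπ hn x,
    fun l => ψ.commutes l⟩

theorem U3_ext {K A Ω : Type} [Field K] [CommRing A] [Field Ω] [Algebra K A] [Algebra K Ω]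
    [Algebra A Ω] [IsScalarTower K A Ω] [Algebra.FormallySmooth A Ω] (δ : Derivation K A Ω) :
    ∃ δ' : Derivation K Ω Ω, ∀ x, δ' (algebraMap A Ω x) = δ x := by
  let φ : A →+* TrivSqZeroExt Ω Ω :=
    { toFun := fun l => TrivSqZeroExt.inl (algebraMap A Ω l) + TrivSqZeroExt.inr (δ l)
      map_one' := by
        refine TrivSqZeroExt.ext ?_ ?_ <;> simp
      map_mul' := fun x y => by
        refine TrivSqZeroExt.ext (by simp) ?_
        simp [Algebra.smul_def (A := Ω) (R := A), mul_comm]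
      map_zero' := by
        refine TrivSqZeroExt.ext ?_ ?_ <;> simp
      map_add' := fun x y => by
        refine TrivSqZeroExt.ext ?_ ?_ <;> simp }
  have hφ1 : ∀ l, (φ l).fst = algebraMap A Ω l := fun l => by simp [φ]
  have hφ2 : ∀ l, (φ l).snd = δ l := fun l => by simp [φ]
  obtain ⟨ψ, h1, h2⟩ := U3_lift φ (TrivSqZeroExt.fstHom Ω Ω Ω).toRingHom
    (fun x => ⟨TrivSqZeroExt.inl x, rfl⟩) ⟨2, by
      rw [sq, Ideal.zero_eq_bot, eq_bot_iff, Ideal.mul_le]
      intro r hr t ht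
      have hr' : r.fst = 0 := hr
      have ht' : t.fst = 0 := ht
      rw [Ideal.mem_bot]
      refine TrivSqZeroExt.ext ?_ ?_ <;> simp [hr', ht']⟩ hφ1
  have h1' : ∀ x, (ψ x).fst = x := h1
  have hmul : ∀ x y, (ψ (x * y)).snd = x * (ψ y).snd + y * (ψ x).snd := fun x y => by
    rw [map_mul, TrivSqZeroExt.snd_mul, h1', h1']
    simp [mul_comm]
  let D : Ω →ₗ[K] Ω :=
    { toFun := fun x => (ψ x).snd
      map_add' := fun x y => by rw [map_add, TrivSqZeroExt.snd_add]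
      map_smul' := fun c x => by
        rw [Algebra.smul_def, hmul, IsScalarTower.algebraMap_apply K A Ω, h2, hφ2,
          Derivation.map_algebraMap, mul_zero, add_zero, RingHom.id_apply, Algebra.smul_def,
          IsScalarTower.algebraMap_apply K A Ω] }
  refine ⟨Derivation.mk' D hmul, fun x => ?_⟩
  change (ψ (algebraMap A Ω x)).snd = δ x
  rw [h2, hφ2]

/-- Transfer along one ultrafilter. -/
theorem transferU (U : Ultrafilter ℕ) {ι ι' : Type} [Fintype ι] [Fintype ι'] (a : ℕ → ι → Qb)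
    (b : ℕ → ι' → Qb) (ha : ∀ n, a n ≠ 0) (hb : ∀ n, b n ≠ 0) (γ : UP U Qb) (hγ : γ ≠ 0)
    (h : ∀ O : VS Qb (UP U Qb), vs O.1 (fun i => gm U fun n => a n i) ≤
      O.1.valuation γ * vs O.1 fun j => gm U fun n => b n j) :
    ∃ C : ℝ, ∀ᶠ n in (U : Filter ℕ), hv (a n) ≤ hv (b n) + C := by
  obtain ⟨g0, rfl⟩ := gm_surj U γ
  let g : ℕ → Qb := fun n => if g0 n = 0 then 1 else g0 n
  have hg : ∀ n, g n ≠ 0 := fun n => by
    simp only [g]
    split_ifs with h0
    · exact one_ne_zero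
    · exact h0
  have e : gm U g0 = gm U g := by
    rw [gm_eq_iff]
    filter_upwards [Ultrafilter.eventually_not.2 fun h0 => hγ ((gm_eq_zero_iff U g0).2 h0)]
      with n h0
    exact (if_neg h0).symm
  obtain ⟨j0, -⟩ := Function.ne_iff.1 (hb 0)
  have : Nonempty ι' := ⟨j0⟩
  obtain ⟨C, hC⟩ := U3_core U a (fun n j => g n * b n j) ha
    (fun n h0 => hb n (funext fun j => (mul_eq_zero.1 (congrFun h0 j)).resolve_left (hg n)))
    fun O => (h O).trans (by
      rw [e]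
      exact U3_vs O.1 _ _)
  refine ⟨C, hC.mono fun n h1 => ?_⟩
  rwa [hv_congr (x := fun j => g n * b n j) (y := b n) ⟨g n, hg n, fun _ => rfl⟩] at h1

/-- a function bounded along every ultrafilter is bounded -/
theorem bdd_of_ultra {D : Type} (f : D → ℝ)
    (h : ∀ (U : Ultrafilter ℕ) (d : ℕ → D), ∃ C : ℝ, ∀ᶠ n in (U : Filter ℕ), f (d n) ≤ C) :
    ∃ C : ℝ, ∀ d, f d ≤ C := by
  by_contra hn
  push Not at hn
  choose d hd using fun n : ℕ => hn n
  obtain ⟨C, hC⟩ := h (hyperfilter ℕ) d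
  have h3 : ∀ᶠ n : ℕ in (hyperfilter ℕ : Ultrafilter ℕ), C ≤ (n : ℝ) :=
    Nat.hyperfilter_le_atTop (tendsto_natCast_atTop_atTop.eventually_ge_atTop C)
  obtain ⟨n, h4, h5⟩ := (hC.and h3).exists
  exact absurd (hd n) (not_lt.2 (h4.trans h5))

/-- the relative algebraic closure of a subfield of an algebraically closed field -/
theorem exists_acl {κ Ω : Type} [Field κ] [Field Ω] [IsAlgClosed Ω] [Algebra κ Ω] (S : Set Ω) :
    ∃ K : IntermediateField κ Ω, IsAlgClosed K ∧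
      ∀ x, x ∈ K ↔ IsAlgebraic (IntermediateField.adjoin κ S) x :=
  ⟨(algebraicClosure (IntermediateField.adjoin κ S) Ω).restrictScalars κ,
    IsAlgClosure.isAlgClosed (K := algebraicClosure (IntermediateField.adjoin κ S) Ω)
      (IntermediateField.adjoin κ S), fun _ => mem_algebraicClosure_iff⟩

/-- embeddings extend to algebraic extensions -/
theorem exists_extend {κ K K' Ω : Type} [Field κ] [Field K] [Field K'] [Field Ω] [IsAlgClosed Ω]
    [Algebra κ K] [Algebra κ K'] [Algebra κ Ω] [Algebra K K'] [IsScalarTower κ K K']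
    [Algebra.IsAlgebraic K K'] (τ : K →ₐ[κ] Ω) :
    ∃ τ' : K' →ₐ[κ] Ω, ∀ x, τ' (algebraMap K K' x) = τ x := by
  let _ : Algebra K Ω := τ.toRingHom.toAlgebra
  have : IsScalarTower κ K Ω := IsScalarTower.of_algebraMap_eq fun c => (τ.commutes c).symm
  let σ : K' →ₐ[K] Ω := IsAlgClosed.lift
  exact ⟨σ.restrictScalars κ, fun x => σ.commutes x⟩

/-- derivations -/
theorem exists_derivation {K Ω : Type} [Field K] [CharZero K] [Field Ω] [Algebra K Ω] {x : Ω}
    (hx : Transcendental K x) : ∃ δ : Derivation K Ω Ω, δ x = 1 := by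
  let _ : Algebra (Polynomial K) Ω := (Polynomial.aeval x).toRingHom.toAlgebra
  have : IsScalarTower K (Polynomial K) Ω :=
    IsScalarTower.of_algebraMap_eq fun c => ((Polynomial.aeval x).commutes c).symm
  have : FaithfulSMul (Polynomial K) Ω :=
    (faithfulSMul_iff_algebraMap_injective _ _).2 (transcendental_iff_injective.1 hx)
  let _ := FractionRing.liftAlgebra (Polynomial K) Ω
  have := FractionRing.isScalarTower_liftAlgebra (Polynomial K) Ω
  have : Algebra.FormallySmooth (Polynomial K) (FractionRing (Polynomial K)) :=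
    Algebra.FormallySmooth.of_isLocalization (nonZeroDivisors _)
  have := U3_smooth (FractionRing (Polynomial K)) Ω
  have : Algebra.FormallySmooth (Polynomial K) Ω :=
    Algebra.FormallySmooth.comp _ (FractionRing (Polynomial K)) _
  obtain ⟨δ, hδ⟩ := U3_ext (K := K)
    ((Algebra.linearMap (Polynomial K) Ω).compDer Polynomial.derivative')
  refine ⟨δ, ?_⟩
  have h1 := hδ Polynomial.X
  have h2 : algebraMap (Polynomial K) Ω Polynomial.X = x := Polynomial.aeval_X x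
  rw [h2] at h1
  rw [h1]
  change algebraMap (Polynomial K) Ω (Polynomial.derivative Polynomial.X) = 1
  rw [Polynomial.derivative_X, map_one]

/-- derivations extend to field extensions -/
theorem exists_derivation_extend {K L Ω : Type} [Field K] [CharZero K] [Field L] [Field Ω]
    [Algebra K L] [Algebra K Ω] [Algebra L Ω] [IsScalarTower K L Ω] (δ : Derivation K L Ω) :
    ∃ δ' : Derivation K Ω Ω, ∀ x, δ' (algebraMap L Ω x) = δ x := by
  have : CharZero L := charZero_of_injective_algebraMap (algebraMap K L).injective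
  have := U3_smooth L Ω
  exact U3_ext δ

end Pool.Agent.E6b
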