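import Pool.Agent.E6b.P3
import Pool.Agent.E6b.U3
import Pool.Agent.E6b.NT
import Pool.Agent.E6b.P5Aux1

open scoped NNReal TensorProduct IntermediateField BigOperators Classical Topology
open Filter

namespace Pool.Agent.E6b

variable {κ F : Type} [Field κ] [IsAlgClosed κ] [CharZero κ] [Field F] [Algebra κ F] [IsFF κ F]
  {o : Place κ F} {Ω : Type} [Field Ω] [IsAlgClosed Ω] [CharZero Ω] [Algebra κ Ω]

theorem P5_th {D : DO o Ω} (h : deg D = (genus κ F : ℤ) - 1) :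
    Th (- clD o Ω D) ↔ ell D = 0 := by
  unfold Th
  rw [neg_neg, ellC_clD, h, sub_self, zero_smul, add_zero]

theorem P5_exists_deg (w : Cl o Ω) (n : ℤ) : ∃ E : DO o Ω, deg E = n ∧ clD o Ω E = w := by
  obtain ⟨D, rfl⟩ := clD_surj w
  refine ⟨D + (n - deg D) • pd (oo o Ω), ?_, ?_⟩
  · rw [deg_add, deg_zsmul, deg_pd]
    ring
  · rw [map_add, map_zsmul, clD_oo, smul_zero, add_zero]

theorem P5_base_finite {D : DO o Ω} (h : 0 < ell D) :
    {P : PO o Ω | ell (D - pd P) = ell D}.Finite := by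
  by_contra hinf
  obtain ⟨S, hS, hc⟩ := Set.Infinite.exists_subset_card_eq hinf ((deg D).toNat + 1)
  have h1 := card_base_le h S fun P hP => hS hP
  rw [hc] at h1
  have h2 := Int.self_le_toNat (deg D)
  push_cast at h1
  omega

theorem P5_pd_nonneg (P : PO o Ω) : (0 : DO o Ω) ≤ pd P := by
  intro Q
  unfold pd
  rw [Finsupp.single_apply]
  split_ifs <;> simp

theorem P5_drop {D : DO o Ω} {P : PO o Ω} (h : ell (D - pd P) ≠ ell D) :
    ell (D - pd P) + 1 = ell D := by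
  have h1 := ell_add_pd_le (D - pd P) P
  rw [sub_add_cancel] at h1
  have h2 : ell (D - pd P) ≤ ell D := ell_mono (sub_le_self _ (P5_pd_nonneg P))
  omega

section
variable {K : Type} [Field K] [IsAlgClosed K] [CharZero K] [Algebra κ K] (τ : K →ₐ[κ] Ω)

omit [IsAlgClosed κ] [CharZero κ] [IsAlgClosed Ω] [CharZero Ω] [CharZero K] in
/-- a vector whose size is principal for all valuation rings containing `K` comes from `K` -/
theorem exists_prp_of_vs {ι : Type} [Fintype ι] {x : ι → Ω} (hx : x ≠ 0) {k : ℕ} (hk : 0 < k)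
    {γ : Ω} (h : ∀ O : VS κ Ω, (∀ c, τ c ∈ O.1) → vs O.1 x ^ k = O.1.valuation γ) :
    ∃ y : ι → K, Prp x fun i => τ (y i) := P5_exists_prp τ hx hk h

theorem P5_step {D D' : DO o Ω} (h : 0 < ell D) (h' : 0 < ell D') : ∃ p : Pt o K,
    ell (D - (bc o τ).dv (pd (plc p))) + 1 = ell D ∧
      ell (D' - (bc o τ).dv (pd (plc p))) + 1 = ell D' := by
  have hi : Function.Injective fun p : Pt o K => (bc o τ).plc (plc p) :=
    (bc o τ).plc_injective.comp plc_injective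
  have hf := ((P5_base_finite h).union (P5_base_finite h')).preimage hi.injOn
  obtain ⟨p, hp⟩ := hf.exists_notMem
  rw [Set.mem_preimage, Set.mem_union, not_or] at hp
  refine ⟨p, ?_, ?_⟩
  · rw [BC.dv_pd]
    exact P5_drop hp.1
  · rw [BC.dv_pd]
    exact P5_drop hp.2

theorem P5_steps (n : ℕ) : ∀ {D D' : DO o Ω}, ell D = n + 1 → ell D' = n + 1 →
    ∃ Q : DO o K, deg Q = n ∧ ell (D - (bc o τ).dv Q) = 1 ∧ ell (D' - (bc o τ).dv Q) = 1 := by
  induction n with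
  | zero =>
    intro D D' h h'
    exact ⟨0, by simpa using deg_zero, by simpa using h, by simpa using h'⟩
  | succ n ih =>
    intro D D' h h'
    obtain ⟨p, hp, hp'⟩ := P5_step τ (D := D) (D' := D') (by omega) (by omega)
    obtain ⟨Q, hQ, h1, h2⟩ := ih (D := D - (bc o τ).dv (pd (plc p)))
      (D' := D' - (bc o τ).dv (pd (plc p))) (by omega) (by omega)
    refine ⟨pd (plc p) + Q, ?_, ?_, ?_⟩
    · rw [deg_add, deg_pd, hQ]
      push_cast
      ring
    · rw [map_add, ← sub_sub]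
      exact h1
    · rw [map_add, ← sub_sub]
      exact h2

theorem P5_vs_bc (a : Cl o K) : ∃ μ : Ω, μ ≠ 0 ∧ ∀ O : ValuationSubring Ω, (∀ c, τ c ∈ O) →
    vs O (Psym ((bc o τ).cl a)) = O.valuation μ := by
  have h := (bc_ok (o := o) τ).Psym a
  rw [bc_τ] at h
  exact P5_vs_prp τ (Psym_ne_zero _) h

theorem P5_psi {w : Cl o Ω} {x : JJ o × JJ o → K} (h : Prp (Psym w) fun j => τ (x j))
    (a : Cl o K) : ∃ y : JJ o → K, Prp (Psi (w + (bc o τ).cl a)) fun j => τ (y j) := by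
  obtain ⟨γ, hγ, hp⟩ := par_val w ((bc o τ).cl a)
  obtain ⟨μ, hμ, h1⟩ := P5_vs_prp τ (Psym_ne_zero w) h
  obtain ⟨ν, hν, h2⟩ := P5_vs_bc τ a
  obtain ⟨y, hy⟩ := exists_prp_of_vs τ
    (P5_segre_ne_zero (Psym_ne_zero (w + (bc o τ).cl a)) (Psym_ne_zero (w - (bc o τ).cl a)))
    one_pos (γ := γ * (μ * ν) ^ 2) fun O hO => by
      rw [pow_one, vs_segre, hp O, h1 O.1 hO, h2 O.1 hO, map_mul, map_pow, map_mul]
  obtain ⟨y', hy'⟩ := P5_of_segre τ (Psym_ne_zero _) hy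
  exact P5_of_segre τ (Psi_ne_zero _) hy'

theorem P5_th_red {w : Cl o Ω} {y : JJ o → K} (h : Prp (Psi w) fun j => τ (y j)) {j : JJ o}
    (hj : Psi w j ≠ 0) (O : VS κ Ω) (hO : ∀ c, τ c ∈ O.1) : Th (redCl O o (w + aj Ω j)) := by
  have hy := P5_ne_zero_of_prp (map_zero τ) (Psi_ne_zero w) h
  have h1 := Psi_red O w h.symm (P5_vs_one τ O.1 hO hy)
  have hyj : y j ≠ 0 := by
    intro h0
    obtain ⟨μ, -, h⟩ := h
    have h2 : Psi w j = μ * τ (y j) := h j
    rw [h0, map_zero, mul_zero] at h2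
    exact hj h2
  have h3 : rs O (τ (y j)) ≠ 0 := by
    rw [Ne, rs_eq_zero_iff O (hO _), P5_val_one τ O.1 hO hyj]
    exact lt_irrefl _
  obtain ⟨μ, -, h1⟩ := h1
  have h4 : rs O (τ (y j)) = μ * Psi (redCl O o w) j := h1 j
  rw [h4] at h3
  rw [map_add, redCl_aj]
  exact ((Psi_ne_zero_iff _ j).mp (right_ne_zero_of_mul h3)).1

/-- a class whose theta vector is defined over `K` is defined over `K` -/
theorem mem_range_cl_of_prp {w : Cl o Ω} {x : JJ o × JJ o → K} (h : Prp (Psym w) fun j => τ (x j)) :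
    w ∈ Set.range (bc o τ).cl := by
  rcases Nat.eq_zero_or_pos (genus κ F) with hg | hg
  · have := subsingleton_Cl (o := o) (Ω := Ω) hg
    exact ⟨0, Subsingleton.elim _ _⟩
  obtain ⟨j, -⟩ := exists_j w
  obtain ⟨n, hn⟩ : ∃ n, genus κ F = n + 1 := ⟨genus κ F - 1, by omega⟩
  obtain ⟨E, hE, hE1⟩ := P5_exists_deg (-w) (2 * (genus κ F : ℤ) - 1)
  obtain ⟨E', hE', hE1'⟩ := P5_exists_deg (-w + aj Ω j + aj Ω j) (2 * (genus κ F : ℤ) - 1)
  have hl : ∀ D : DO o Ω, deg D = 2 * (genus κ F : ℤ) - 1 → ell D = n + 1 := by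
    intro D hD
    have h1 := rr_large (D := D) (by rw [genus_FO, hD])
    rw [genus_FO, hD, hn] at h1
    push_cast at h1
    omega
  obtain ⟨Q, hQ, h1, h1'⟩ := P5_steps τ n (hl E hE) (hl E' hE')
  obtain ⟨R, hR, hR1⟩ := exists_eff_of_ell_pos (D := E - (bc o τ).dv Q) (by omega)
  have hRc : clD o Ω R = -w - clD o Ω ((bc o τ).dv Q) := by
    rw [← hR1.clD, map_sub, hE1]
  have hRd : deg R = genus κ F := by
    rw [← hR1.deg, deg_sub, BC.deg_dv, hE, hQ, hn]
    push_cast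
    ring
  have hsup : (R.support : Set (PO o Ω)) ⊆ Set.range (bc o τ).plc := by
    intro P hP
    by_contra hP'
    rcases eq_oo_or_plc P with rfl | ⟨y, rfl⟩
    · exact hP' ⟨_, BC.plc_oo _⟩
    have hy : y ∉ Set.range (bc o τ).pt := by
      rintro ⟨p, rfl⟩
      exact hP' ⟨_, BC.plc_plc _ p⟩
    obtain ⟨p, hp, hp'⟩ := P5_step τ (D := E - (bc o τ).dv Q) (D' := E' - (bc o τ).dv Q)
      (by omega) (by omega)
    obtain ⟨y', hy'⟩ := P5_psi τ h (clD o K (Q + pd (plc p)) - aj K j)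
    have hd : ∀ D : DO o Ω, deg D = 2 * (genus κ F : ℤ) - 1 →
        deg (D - (bc o τ).dv Q - (bc o τ).dv (pd (plc p))) = (genus κ F : ℤ) - 1 := by
      intro D hD
      rw [deg_sub, deg_sub, BC.deg_dv, BC.deg_dv, deg_pd, hD, hQ, hn]
      push_cast
      ring
    have ha : (bc o τ).cl (clD o K (Q + pd (plc p)) - aj K j) =
        clD o Ω ((bc o τ).dv Q) + clD o Ω ((bc o τ).dv (pd (plc p))) - aj Ω j := by
      rw [map_sub, (bc_ok τ).cl_aj, BC.cl_clD, map_add, map_add]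
    have e1 : w + (bc o τ).cl (clD o K (Q + pd (plc p)) - aj K j) + aj Ω j =
        - clD o Ω (E - (bc o τ).dv Q - (bc o τ).dv (pd (plc p))) := by
      rw [ha, map_sub, map_sub, hE1]
      abel
    have e2 : w + (bc o τ).cl (clD o K (Q + pd (plc p)) - aj K j) - aj Ω j =
        - clD o Ω (E' - (bc o τ).dv Q - (bc o τ).dv (pd (plc p))) := by
      rw [ha, map_sub, map_sub, hE1']
      abel
    have hj : Psi (w + (bc o τ).cl (clD o K (Q + pd (plc p)) - aj K j)) j ≠ 0 := by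
      rw [Psi_ne_zero_iff, e1, e2, P5_th (hd E hE), P5_th (hd E' hE')]
      constructor <;> omega
    obtain ⟨O, hO, hred⟩ := exists_spec τ hy p
    have h3 := P5_th_red τ hy' hj O hO
    have e3 : clD o Ω (E - (bc o τ).dv Q - (bc o τ).dv (pd (plc p))) =
        clD o Ω (R - pd (plc (τ.comp p))) := by
      rw [map_sub, hR1.clD, BC.dv_pd, BC.plc_plc, bc_pt, map_sub]
    have e4 : redD O o (R - pd (plc (τ.comp p))) = redD O o (R - pd (plc y)) := by
      rw [map_sub, map_sub, redD_pd, redD_pd, hred]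
    rw [e1, e3, map_neg, redCl_clD, e4, P5_th (by rw [deg_redD, deg_sub, hRd, deg_pd])] at h3
    have h4 : (0 : DO o Ω) ≤ R - pd (plc y) := by
      intro P
      have h5 : 0 ≤ R P := hR P
      have h6 : R (plc y) ≠ 0 := Finsupp.mem_support_iff.mp hP
      have h7 : 0 ≤ R (plc y) := hR _
      unfold pd
      rw [Finsupp.sub_apply, Finsupp.single_apply, Finsupp.zero_apply]
      split_ifs with h8
      · rw [← h8]
        omega
      · omega
    have h5 := redD_mono O h4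
    rw [map_zero] at h5
    have h6 := one_le_ell h5
    omega
  have hR0 : (bc o τ).dv (Finsupp.comapDomain _ R (bc o τ).plc_injective.injOn) = R :=
    Finsupp.mapDomain_comapDomain _ (bc o τ).plc_injective R hsup
  refine ⟨- clD o K (Q + Finsupp.comapDomain _ R (bc o τ).plc_injective.injOn), ?_⟩
  rw [map_neg, BC.cl_clD, map_add, hR0, map_add, hRc]
  abel

theorem mem_range_cl_of_two {w : Cl o Ω} (h : 2 • w ∈ Set.range (bc o τ).cl) :
    w ∈ Set.range (bc o τ).cl := by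
  obtain ⟨a, ha⟩ := h
  obtain ⟨γ, hγ, hp⟩ := par_val w w
  obtain ⟨μ, hμ, h1⟩ := P5_vs_bc τ a
  obtain ⟨ν, hν, h2⟩ := P5_vs_bc (o := o) τ 0
  rw [ha, two_nsmul] at h1
  rw [map_zero, ← sub_self w] at h2
  obtain ⟨y, hy⟩ := exists_prp_of_vs τ (Psym_ne_zero w) (k := 2 * 2) (by norm_num)
    (γ := μ * ν / γ) fun O hO => by
    have h3 := hp O
    have h4 : O.1.valuation γ ≠ 0 := by simpa using hγ
    rw [h1 O.1 hO, h2 O.1 hO] at h3
    rw [map_div₀, map_mul, h3, mul_div_cancel_left₀ _ h4, pow_mul, pow_two (vs O.1 (Psym w))]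
  exact mem_range_cl_of_prp τ hy

end

theorem finite_two_torsion : {w : Cl o Ω | 2 • w = 0}.Finite := by
  refine finite_of_clU fun U w hw => mem_range_cl_of_two _ ⟨0, ?_⟩
  rw [map_zero, two_nsmul, ← clU_add, eq_comm, clU_eq_zero_iff]
  refine Eventually.of_forall fun n => ?_
  rw [← two_nsmul]
  exact hw n

theorem finite_fibre_Psym (x : JJ o × JJ o → Ω) : {w : Cl o Ω | Prp (Psym w) x}.Finite := by
  refine finite_of_clU fun U w hw => mem_range_cl_of_prp _ (x := x) ?_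
  exact (Psym_clU U w).trans
    ((prp_gm_iff U (fun n => Psym (w n)) fun _ => x).mpr (Eventually.of_forall hw))

section
variable {K : Type} [Field K] [Algebra K Ω] [Algebra κ K] [IsScalarTower κ K Ω]
  [Algebra.IsAlgebraic K Ω]

omit [Algebra.IsAlgebraic K Ω] in
theorem RatC.add {a b : Cl o Ω} (ha : RatC K a) (hb : RatC K b) : RatC K (a + b) := fun σ => by
  rw [map_add, ha σ, hb σ]

omit [Algebra.IsAlgebraic K Ω] in
theorem RatC.zsmul {a : Cl o Ω} (ha : RatC K a) (n : ℤ) : RatC K (n • a) := fun σ => by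
  rw [map_zsmul, ha σ]

omit [Algebra.IsAlgebraic K Ω] in
theorem ratC_clz {ι : Type} [Fintype ι] {z : ι → Pt o Ω}
    (h : ∀ a (i : Fin (MM o)), z a (eb o i) ∈ (algebraMap K Ω).range) : RatC K (clz z) := by
  intro σ
  rw [BC.cl_clz]
  congr 1
  funext a
  rw [bc_pt]
  refine pt_ext o (funext fun i => ?_)
  obtain ⟨c, hc⟩ := h a i
  change σ (z a (eb o i)) = z a (eb o i)
  rw [← hc, AlgEquiv.commutes]

theorem RatC.exists_prp {a : Cl o Ω} (ha : RatC K a) :
    ∃ x : JJ o × JJ o → K, Prp (Psym a) fun j => algebraMap K Ω (x j) := by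
  have : CharZero K := (algebraMap K Ω).charZero
  have : IsAlgClosure K Ω := ⟨inferInstance, inferInstance⟩
  obtain ⟨j0, hj0⟩ := Function.ne_iff.mp (Psym_ne_zero a)
  have hj : Psym a j0 ≠ 0 := hj0
  have h1 : ∀ j, Psym a j / Psym a j0 ∈ Set.range (algebraMap K Ω) := by
    intro j
    rw [InfiniteGalois.mem_range_algebraMap_iff_fixed]
    intro σ
    have h2 := (bc_ok (o := o) ((σ : Ω →ₐ[K] Ω).restrictScalars κ)).Psym a
    rw [ha σ, bc_τ] at h2
    obtain ⟨μ, hμ, h2⟩ := h2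
    have h3 : ∀ i, Psym a i = μ * σ (Psym a i) := h2
    rw [map_div₀]
    conv_rhs => rw [h3 j, h3 j0, mul_div_mul_left _ _ hμ]
  choose y hy using h1
  refine ⟨y, Psym a j0, hj, fun j => ?_⟩
  change Psym a j = Psym a j0 * algebraMap K Ω (y j)
  rw [hy]
  field_simp

/-- the subgroup of rational classes -/
def P5G (o : Place κ F) (Ω : Type) [Field Ω] [IsAlgClosed Ω] [CharZero Ω] [Algebra κ Ω] (K : Type)
    [Field K] [Algebra K Ω] [Algebra κ K] [IsScalarTower κ K Ω] : AddSubgroup (Cl o Ω) where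
  carrier := {w | RatC K w}
  zero_mem' := fun _ => map_zero _
  add_mem' := RatC.add
  neg_mem' := fun {a} ha σ => by rw [map_neg, ha σ]

/-- the valuative class of a rational class -/
noncomputable def P5q (a : P5G o Ω K) : Additive (VC κ K ⧸ P5H κ K) :=
  P5m (gen κ (RatC.exists_prp a.2).choose)

theorem P5q_eq (a : P5G o Ω K) {x : JJ o × JJ o → K}
    (h : Prp (Psym a.1) fun j => algebraMap K Ω (x j)) : P5q a = P5m (gen κ x) :=
  P5m_prp (P5_ne_zero_of_prp (map_zero _) (Psym_ne_zero _) h)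
    (Prp.of_map (algebraMap K Ω) ((RatC.exists_prp a.2).choose_spec.symm.trans h))

omit [Algebra.IsAlgebraic K Ω] [IsScalarTower κ K Ω] in
theorem P5_vs_rat {w : Cl o Ω} {x : JJ o × JJ o → K}
    (h : Prp (Psym w) fun j => algebraMap K Ω (x j)) : ∃ μ : Ω, μ ≠ 0 ∧
      ∀ (O0 : VS κ K) (O : ValuationSubring Ω), O.comap (algebraMap K Ω) = O0.1 →
        vs O (Psym w) = O.valuation μ * O.valuation (algebraMap K Ω (gen κ x O0)) := by
  have hx := P5_ne_zero_of_prp (map_zero _) (Psym_ne_zero _) h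
  obtain ⟨μ, hμ, h⟩ := h
  refine ⟨μ, hμ, fun O0 O hO => ?_⟩
  have e : Psym w = fun j => μ * algebraMap K Ω (x j) := funext h
  rw [e, vs_smul, P5_vs_gen hx O0 O hO]

theorem P5q_par (a b : P5G o Ω K) : P5q (a + b) + P5q (a - b) = 2 • P5q a + 2 • P5q b := by
  obtain ⟨x1, h1⟩ := RatC.exists_prp (a + b).2
  obtain ⟨x2, h2⟩ := RatC.exists_prp (a - b).2
  obtain ⟨xa, ha⟩ := RatC.exists_prp a.2
  obtain ⟨xb, hb⟩ := RatC.exists_prp b.2
  rw [P5q_eq _ h1, P5q_eq _ h2, P5q_eq _ ha, P5q_eq _ hb, ← P5m_pow, ← P5m_pow, ← P5m_mul,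
    ← P5m_mul, P5m_eq]
  obtain ⟨γ, hγ, hp⟩ := par_val a.1 b.1
  obtain ⟨μ1, hμ1, e1⟩ := P5_vs_rat h1
  obtain ⟨μ2, hμ2, e2⟩ := P5_vs_rat h2
  obtain ⟨μa, hμa, ea⟩ := P5_vs_rat ha
  obtain ⟨μb, hμb, eb⟩ := P5_vs_rat hb
  refine P5_descend (Ω := Ω) (γ := γ * (μa * μb) ^ 2 / (μ1 * μ2))
    (div_ne_zero (mul_ne_zero hγ (pow_ne_zero _ (mul_ne_zero hμa hμb))) (mul_ne_zero hμ1 hμ2))
    fun O0 O hO => ?_
  have h3 := hp O
  have e1' := e1 O0 O.1 hO
  have e2' := e2 O0 O.1 hO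
  rw [AddSubgroup.coe_add] at e1'
  rw [AddSubgroup.coe_sub] at e2'
  rw [e1', e2', ea O0 O.1 hO, eb O0 O.1 hO] at h3
  have h4 : O.1.valuation μ1 ≠ 0 := by simpa using hμ1
  have h5 : O.1.valuation μ2 ≠ 0 := by simpa using hμ2
  simp only [Pi.mul_apply, Pi.pow_apply, Units.val_mul, Units.val_pow_eq_pow_val, map_mul,
    map_pow, map_div₀]
  rw [div_mul_eq_mul_div, eq_div_iff (mul_ne_zero h4 h5), mul_mul_mul_comm,
    mul_comm _ (O.1.valuation μ1), mul_comm _ (O.1.valuation μ2), h3]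
  simp only [mul_pow]
  ac_rfl

theorem P5_alg {M : Type} [AddCommGroup M] (A B C : M) (s t : ℤ) :
    s ^ 2 • A + t ^ 2 • B + (s * t) • (C - A - B) =
      (s ^ 2 - s * t) • A + (t ^ 2 - s * t) • B + (s * t) • C := by
  module

/-- the valuative class of the symmetric theta vector is a quadratic form -/
theorem quad_val {a b : Cl o Ω} (ha : RatC K a) (hb : RatC K b) (s t : ℤ)
    {xa xb xab x : JJ o × JJ o → K} (h1 : Prp (Psym a) fun j => algebraMap K Ω (xa j))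
    (h2 : Prp (Psym b) fun j => algebraMap K Ω (xb j))
    (h3 : Prp (Psym (a + b)) fun j => algebraMap K Ω (xab j))
    (h : Prp (Psym (s • a + t • b)) fun j => algebraMap K Ω (x j)) :
    QEq (gen κ x)
      (gen κ xa ^ (s ^ 2 - s * t) * gen κ xb ^ (t ^ 2 - s * t) * gen κ xab ^ (s * t)) := by
  have hq := quad_of_par P5m_tf (P5q (o := o) (Ω := Ω) (K := K)) P5q_par ⟨a, ha⟩ ⟨b, hb⟩ s t
  have e0 : (s • (⟨a, ha⟩ : P5G o Ω K) + t • (⟨b, hb⟩ : P5G o Ω K)).1 = s • a + t • b := by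
    rw [AddSubgroup.coe_add, AddSubgroupClass.coe_zsmul, AddSubgroupClass.coe_zsmul]
  have e := P5q_eq (K := K) (s • (⟨a, ha⟩ : P5G o Ω K) + t • ⟨b, hb⟩) (x := x) (by
    rw [e0]; exact h)
  have e1 := P5q_eq (K := K) (⟨a, ha⟩ : P5G o Ω K) (x := xa) h1
  have e2 := P5q_eq (K := K) (⟨b, hb⟩ : P5G o Ω K) (x := xb) h2
  have e4 : ((⟨a, ha⟩ : P5G o Ω K) + (⟨b, hb⟩ : P5G o Ω K)).1 = a + b := AddSubgroup.coe_add _ _ _
  have e3 := P5q_eq (K := K) ((⟨a, ha⟩ : P5G o Ω K) + ⟨b, hb⟩) (x := xab) (by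
    rw [e4]; exact h3)
  rw [e, e1, e2, e3] at hq
  rw [← P5m_eq, hq, P5m_mul, P5m_mul, P5m_zpow, P5m_zpow, P5m_zpow]
  exact P5_alg _ _ _ s t

end

end Pool.Agent.E6b
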