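import Pool.Agent.E6b.O3
import Pool.Agent.E6b.U3

open scoped NNReal TensorProduct IntermediateField BigOperators Classical Topology
open Filter

namespace Pool.Agent.E6b

/-- a derivation as a homomorphism to the dual numbers -/
noncomputable def Rig_hom {κ Ω L : Type} [Field κ] [Field Ω] [Field L] [Algebra κ Ω] [Algebra κ L]
    [Algebra Ω L] [IsScalarTower κ Ω L] (δ : Derivation κ Ω Ω) : Ω →ₐ[κ] TrivSqZeroExt L L where
  toFun c := TrivSqZeroExt.inl (algebraMap Ω L c) + TrivSqZeroExt.inr (algebraMap Ω L (δ c))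
  map_one' := by ext <;> simp
  map_mul' a b := by ext <;> simp [mul_comm, -DualNumber.inr_eq_smul_eps]
  map_zero' := by ext <;> simp
  map_add' a b := by ext <;> simp [-DualNumber.inr_eq_smul_eps]
  commutes' c := by
    ext <;> simp [TrivSqZeroExt.algebraMap_eq_inl', ← IsScalarTower.algebraMap_apply]

theorem Rig_of_hom {κ L : Type} [Field κ] [Field L] [Algebra κ L] (Ψ : L →ₐ[κ] TrivSqZeroExt L L)
    (h : ∀ f, (Ψ f).fst = f) : ∃ d : Derivation κ L L, ∀ f, d f = (Ψ f).snd :=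
  ⟨Derivation.mk' (((TrivSqZeroExt.sndHom L L).restrictScalars κ).comp Ψ.toLinearMap)
    fun a b => by simp [h, mul_comm], fun _ => rfl⟩

section
variable {κ F : Type} [Field κ] [IsAlgClosed κ] [CharZero κ] [Field F] [Algebra κ F] [IsFF κ F]
  {κ₀ : Type} [Field κ₀] [Algebra κ₀ F] (d : Derivation κ₀ F F) (P : Place κ F)

omit [IsAlgClosed κ] [CharZero κ] [IsFF κ F] in
theorem Rig_log_mul {f g : F} (hf : f ≠ 0) (hg : g ≠ 0) :
    d (f * g) / (f * g) = d f / f + d g / g := by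
  rw [d.leibniz, smul_eq_mul, smul_eq_mul]
  field_simp
  ring

omit [IsAlgClosed κ] [CharZero κ] [IsFF κ F] in
theorem Rig_log_zpow {f : F} (hf : f ≠ 0) (n : ℤ) : d (f ^ n) / f ^ n = n * (d f / f) := by
  rw [d.leibniz_zpow, smul_eq_mul, zsmul_eq_mul, zpow_sub_one₀ hf]
  have := zpow_ne_zero n hf
  field_simp

theorem Rig_unit (hP : ∀ f ∈ P.O, d f ∈ P.O) {f : F} (h0 : P.ord f = 0) : d f / f ∈ P.O := by
  rw [div_eq_mul_inv]
  exact mul_mem (hP f (P.mem_iff.2 h0.ge)) (P.mem_iff.2 (by rw [P.ord_inv]; omega))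

theorem Rig_split (hP : ∀ f ∈ P.O, d f ∈ P.O) {π f : F} (hπ : π ≠ 0) (h1 : P.ord π = 1)
    (hf : f ≠ 0) : ∃ u ∈ P.O, d f / f = algebraMap κ F (P.ord f) * (d π / π) + u := by
  have hz := zpow_ne_zero (P.ord f) hπ
  have hu : f / π ^ P.ord f ≠ 0 := div_ne_zero hf hz
  refine ⟨_, Rig_unit d P hP (f := f / π ^ P.ord f) ?_, ?_⟩
  · rw [P.ord_div hf hz, P.ord_zpow, h1]; ring
  · rw [map_intCast, ← Rig_log_zpow d hπ, ← Rig_log_mul d hz hu, mul_div_cancel₀ _ hz]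

theorem Rig_ev_mul (hP : ∀ f ∈ P.O, d f ∈ P.O) {π h : F} (h1 : P.ord π = 1) (hh : h ∈ P.O) :
    P.ev (d (π * h)) = P.ev h * P.ev (d π) := by
  have hπ : π ∈ P.O := P.mem_iff.2 (by omega)
  rw [d.leibniz, smul_eq_mul, smul_eq_mul,
    P.ev_add (mul_mem hπ (hP _ hh)) (mul_mem hh (hP _ hπ)), P.ev_mul hπ (hP _ hh),
    P.ev_mul hh (hP _ hπ), (P.ev_eq_zero_iff hπ).2 (Or.inr (by omega)), zero_mul, zero_add]

theorem Rig_mem_div {f s a : F} (hf : f ∈ P.O) (hs : s ∈ P.O) (h0 : P.ev s ≠ 0) (e : f * s = a)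
    (ha : d a ∈ P.O) (hd : d s ∈ P.O) : d f ∈ P.O := by
  have s1 : s ≠ 0 := fun h => h0 (by rw [h, F1a_ev_zero])
  have e3 : d f = (d a - f * d s) / s := by
    rw [eq_div_iff s1, ← e, d.leibniz, smul_eq_mul, smul_eq_mul]; ring
  rw [e3]
  exact (P.ev_div (sub_mem ha (mul_mem hf hd)) hs h0).1

omit [IsAlgClosed κ] [CharZero κ] [IsFF κ F] in
theorem Rig_log_div {a s : F} (hs : s ≠ 0) (ha : d a / a ∈ P.O) (hd : d s / s ∈ P.O) :
    d (a / s) / (a / s) ∈ P.O := by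
  by_cases hf : a / s = 0
  · rw [hf, div_zero]; exact zero_mem _
  have e := Rig_log_mul d hf hs
  rw [div_mul_cancel₀ _ hs] at e
  rw [eq_sub_of_add_eq e.symm]
  exact sub_mem ha hd

omit [IsAlgClosed κ] [CharZero κ] [IsFF κ F] in
theorem Rig_of_log (h : ∀ f, d f / f ∈ P.O) {f : F} (hf : f ∈ P.O) : d f ∈ P.O := by
  by_cases h0 : f = 0
  · rw [h0, map_zero]; exact zero_mem _
  · rw [← div_mul_cancel₀ (d f) h0]; exact mul_mem (h f) hf

theorem Rig_div_mem {f g : F} (h : g = 0 ∨ f = 0 ∨ P.ord g ≤ P.ord f) : f / g ∈ P.O := by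
  by_cases hg : g = 0
  · rw [hg, div_zero]; exact zero_mem _
  by_cases hf : f = 0
  · rw [hf, zero_div]; exact zero_mem _
  have := (h.resolve_left hg).resolve_left hf
  rw [Place.mem_iff, Place.ord_div _ hf hg]
  omega

theorem Rig_case1 (hP : ∀ f ∈ P.O, d f ∈ P.O)
    (h : ∀ f ∈ P.O, ∃ a s, s ∈ P.O ∧ P.ev s ≠ 0 ∧ f * s = a ∧ (P.ev a = 0 → P.ev (d a) = 0))
    {f : F} (hf : f ≠ 0) : d f / f ∈ P.O := by
  obtain ⟨π, hπ, h1⟩ := P.exists_ord_eq 1
  have hπO : π ∈ P.O := P.mem_iff.2 (by omega)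
  obtain ⟨u, hu, e⟩ := Rig_split d P hP hπ h1 hf
  obtain ⟨a, s, hs, s0, rfl, h2⟩ := h π hπO
  have e3 := h2 (by
    rw [P.ev_mul hπO hs, (P.ev_eq_zero_iff hπO).2 (Or.inr (by omega)), zero_mul])
  rw [Rig_ev_mul d P hP h1 hs] at e3
  have e4 := (P.ev_eq_zero_iff (hP _ hπO)).1 ((mul_eq_zero.1 e3).resolve_left s0)
  rw [e]
  exact add_mem (mul_mem (P.const _) (Rig_div_mem P (Or.inr (e4.imp_right fun h => by omega)))) hu

theorem Rig_case2 (hP : ∀ f ∈ P.O, d f ∈ P.O) {x : F} (hx : x ∈ P.O) (dx : d x = 0) {c : κ}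
    (hc : d (algebraMap κ F (P.ev x)) = algebraMap κ F c) (c0 : c ≠ 0) {f : F} (hf : f ≠ 0)
    (hn : P.ord f ≠ 0) : P.ord (d f / f) = -1 := by
  obtain ⟨π, hπ, h1⟩ := P.exists_ord_eq 1
  have hπO : π ∈ P.O := P.mem_iff.2 (by omega)
  obtain ⟨u, hu, e⟩ := Rig_split d P hP hπ h1 hf
  obtain ⟨g, hg⟩ : ∃ g, g = algebraMap κ F (P.ev x) - x := ⟨_, rfl⟩
  have dg : d g = algebraMap κ F c := by rw [hg, map_sub, dx, hc, sub_zero]
  have g0 : g ≠ 0 := fun h => by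
    rw [h, map_zero, eq_comm, map_eq_zero] at dg
    exact c0 dg
  have gO : g ∈ P.O := hg ▸ sub_mem (P.const _) hx
  have g1 : P.ev g = 0 := by rw [hg, P.ev_sub (P.const _) hx, Place.ev_algebraMap, sub_self]
  have g2 := ((P.ev_eq_zero_iff gO).1 g1).resolve_left g0
  have e2 := Rig_ev_mul d P hP h1 (h := g / π) (Rig_div_mem P (Or.inr (Or.inr (by omega))))
  rw [mul_div_cancel₀ _ hπ, dg, Place.ev_algebraMap] at e2
  have e3 : P.ev (d π) ≠ 0 := fun h => c0 (by rw [e2, h, mul_zero])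
  rw [Ne, P.ev_eq_zero_iff (hP _ hπO), not_or] at e3
  have e4 := P.mem_iff.1 (hP _ hπO)
  have n0 : algebraMap κ F (P.ord f) ≠ 0 := by
    rw [Ne, map_eq_zero, Int.cast_eq_zero]; exact hn
  have q0 := div_ne_zero e3.1 hπ
  have e5 : P.ord (algebraMap κ F (P.ord f) * (d π / π)) = -1 := by
    rw [Place.ord_mul _ n0 q0, Place.ord_algebraMap, Place.ord_div _ e3.1 hπ]
    omega
  have := P.mem_iff.1 hu
  rw [e, (P.ord_add_eq (mul_ne_zero n0 q0) (Or.inr (by omega))).2, e5]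

end

variable {κ F : Type} [Field κ] [IsAlgClosed κ] [CharZero κ] [Field F] [Algebra κ F] [IsFF κ F]
  {o : Place κ F} {Ω : Type} [Field Ω] [IsAlgClosed Ω] [CharZero Ω] [Algebra κ Ω]

theorem Rig_exists (δ : Derivation κ Ω Ω) : ∃ d : Derivation κ (FO o Ω) (FO o Ω),
    (∀ c, d (algebraMap Ω (FO o Ω) c) = algebraMap Ω (FO o Ω) (δ c)) ∧
      ∀ a, d (iF o Ω a) = 0 := by
  let Φ : AO o Ω →ₐ[κ] TrivSqZeroExt (FO o Ω) (FO o Ω) :=
    Algebra.TensorProduct.lift (Rig_hom δ)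
      ((TrivSqZeroExt.inlAlgHom κ (FO o Ω) (FO o Ω)).comp (iF o Ω)) fun _ _ => Commute.all _ _
  have hΦ : ∀ c a, Φ (c ⊗ₜ[κ] a) = Rig_hom δ c * TrivSqZeroExt.inl (iF o Ω a) := fun _ _ => rfl
  have h1 : ∀ f, (Φ f).fst = algebraMap _ (FO o Ω) f := by
    intro f
    induction f using TensorProduct.induction_on with
    | zero => simp
    | tmul c a => rw [hΦ, algebraMap_tmul]; simp [Rig_hom]
    | add a b ha hb => rw [map_add, map_add, TrivSqZeroExt.fst_add, ha, hb]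
  have hu : ∀ s : nonZeroDivisors (AO o Ω), IsUnit (Φ s) := fun s => by
    rw [TrivSqZeroExt.isUnit_iff_isUnit_fst, h1]
    exact IsLocalization.map_units _ s
  let Ψ : FO o Ω →ₐ[κ] TrivSqZeroExt (FO o Ω) (FO o Ω) := IsLocalization.liftAlgHom hu
  have hΨ : ∀ f, Ψ (algebraMap _ (FO o Ω) f) = Φ f := fun f => IsLocalization.lift_eq hu f
  have h2 : ∀ f, (Ψ f).fst = f := by
    intro f
    obtain ⟨a, s, hs, rfl⟩ := IsFractionRing.div_surjective (A := AO o Ω) f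
    have := map_div₀ ((TrivSqZeroExt.fstHom κ (FO o Ω) (FO o Ω)).comp Ψ)
      (algebraMap _ (FO o Ω) a) (algebraMap _ (FO o Ω) s)
    refine this.trans ?_
    change (Ψ _).fst / (Ψ _).fst = _
    rw [hΨ, hΨ, h1, h1]
  obtain ⟨d, hd⟩ := Rig_of_hom Ψ h2
  refine ⟨d, fun c => ?_, fun a => ?_⟩
  · have : algebraMap Ω (FO o Ω) c = algebraMap _ (FO o Ω) (c ⊗ₜ[κ] (1 : AA o) : AO o Ω) := by
      rw [algebraMap_tmul, map_one, mul_one]
    rw [hd, this, hΨ, hΦ]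
    simp [Rig_hom, -DualNumber.inr_eq_smul_eps]
  · have : iF o Ω a = algebraMap _ (FO o Ω) ((1 : Ω) ⊗ₜ[κ] a : AO o Ω) := by
      rw [algebraMap_tmul, map_one, one_mul]
    rw [hd, this, hΨ, hΦ]
    simp

/-- the derivation on the base change -/
noncomputable def Rig_D (δ : Derivation κ Ω Ω) : AO o Ω →ₗ[κ] AO o Ω :=
  LinearMap.rTensor (AA o) δ.toLinearMap

omit [IsAlgClosed Ω] [CharZero Ω] in
theorem Rig_D_tmul (δ : Derivation κ Ω Ω) (c : Ω) (a : AA o) :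
    Rig_D δ (c ⊗ₜ[κ] a : AO o Ω) = δ c ⊗ₜ[κ] a := rfl

omit [IsAlgClosed Ω] [CharZero Ω] in
theorem Rig_D_repr (δ : Derivation κ Ω Ω) (f : AO o Ω) (i : ℕ) :
    (ebO o Ω).repr (Rig_D δ f) i = δ ((ebO o Ω).repr f i) := by
  induction f using TensorProduct.induction_on with
  | zero => simp
  | tmul c a =>
    rw [Rig_D_tmul, ebO, Algebra.TensorProduct.basis_repr_tmul,
      Algebra.TensorProduct.basis_repr_tmul]
    simp [mul_comm]
  | add a b ha hb => simp [ha, hb]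

theorem Rig_D_ev (δ : Derivation κ Ω Ω) {y : Pt o Ω} (hy : ∀ a, δ (y a) = 0) (f : AO o Ω) :
    evA y (Rig_D δ f) = δ (evA y f) := by
  induction f using TensorProduct.induction_on with
  | zero => simp
  | tmul c a => rw [Rig_D_tmul, evA_tmul, evA_tmul]; simp [hy, mul_comm]
  | add a b ha hb => simp [ha, hb]

theorem Rig_top {f : AO o Ω} (hf : f ≠ 0) : ∃ i, (ebO o Ω).repr f i ≠ 0 ∧
    (∀ j, (ebO o Ω).repr f j ≠ 0 → j ≤ i) ∧
    (oo o Ω).ord (algebraMap _ (FO o Ω) f) = - (pn o i : ℤ) := by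
  have hn : ((ebO o Ω).repr f).support.Nonempty :=
    Finsupp.support_nonempty_iff.2 (by simpa using hf)
  have h1 := Finsupp.mem_support_iff.1 (Finset.max'_mem _ hn)
  have h2 : ∀ j, (ebO o Ω).repr f j ≠ 0 → j ≤ ((ebO o Ω).repr f).support.max' hn :=
    fun j hj => Finset.le_max' _ _ (Finsupp.mem_support_iff.2 hj)
  exact ⟨_, h1, h2, oo_ord h1 fun j hj => by_contra fun h => absurd (h2 j h) (not_le.2 hj)⟩

/-- a derivation of the constants extends to the function field, trivially on `AA o` -/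
theorem exists_derF (δ : Derivation κ Ω Ω) : ∃ d : Derivation κ (FO o Ω) (FO o Ω),
    (∀ c, d (algebraMap Ω (FO o Ω) c) = algebraMap Ω (FO o Ω) (δ c)) ∧ (∀ a, d (iF o Ω a) = 0) ∧
    (∀ (P : PO o Ω) (f : FO o Ω), f ∈ P.O → d f ∈ P.O) ∧
    (∀ f : FO o Ω, d f / f ∈ (oo o Ω).O) ∧
    ∀ (y : Pt o Ω) (f : FO o Ω), f ≠ 0 →
      ((∀ a, δ (y a) = 0) → d f / f ∈ (plc y).O) ∧
      ((plc y).ord f = 0 → d f / f ∈ (plc y).O) ∧
      ((∃ a, δ (y a) ≠ 0) → (plc y).ord f ≠ 0 → (plc y).ord (d f / f) = -1) := by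
  obtain ⟨d, hc, ha⟩ := Rig_exists (o := o) δ
  have hD : ∀ f : AO o Ω, d (algebraMap _ (FO o Ω) f) = algebraMap _ (FO o Ω) (Rig_D δ f) := by
    intro f
    induction f using TensorProduct.induction_on with
    | zero => simp
    | tmul c a =>
      rw [Rig_D_tmul, algebraMap_tmul, algebraMap_tmul, d.leibniz, hc, ha, smul_zero, zero_add,
        smul_eq_mul, mul_comm]
    | add a b h1 h2 =>
      rw [RingHom.map_add, d.map_add, h1, h2, LinearMap.map_add, RingHom.map_add]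
  have hA : ∀ f : AO o Ω,
      d (algebraMap _ (FO o Ω) f) / algebraMap _ (FO o Ω) f ∈ (oo o Ω).O := by
    intro f
    rw [hD]
    refine Rig_div_mem _ ?_
    by_cases hf : f = 0
    · exact Or.inl (hf ▸ RingHom.map_zero _)
    by_cases h0 : Rig_D δ f = 0
    · exact Or.inr (Or.inl (h0 ▸ RingHom.map_zero _))
    obtain ⟨i, -, hi, oi⟩ := Rig_top hf
    obtain ⟨j, hj, -, oj⟩ := Rig_top h0
    have hji : j ≤ i := hi j fun h => hj (by rw [Rig_D_repr, h, δ.map_zero])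
    have := (ebSpec o).mono.monotone hji
    refine Or.inr (Or.inr ?_)
    rw [oi, oj]
    omega
  have hoo : ∀ f : FO o Ω, d f / f ∈ (oo o Ω).O := by
    intro f
    obtain ⟨a, s, hs, rfl⟩ := IsFractionRing.div_surjective (A := AO o Ω) f
    exact Rig_log_div d _ (IsFractionRing.to_map_ne_zero_of_mem_nonZeroDivisors hs) (hA a) (hA s)
  have hO : ∀ (P : PO o Ω) (f : FO o Ω), f ∈ P.O → d f ∈ P.O := by
    intro P f hf
    rcases eq_oo_or_plc P with rfl | ⟨y, rfl⟩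
    · exact Rig_of_log d _ hoo hf
    · obtain ⟨a, s, hs, e⟩ := exists_div_plc y hf
      exact Rig_mem_div d _ hf (plc_spec y s).1 ((plc_spec y s).2.symm ▸ hs) e
        (hD a ▸ (plc_spec y _).1) (hD s ▸ (plc_spec y _).1)
  refine ⟨d, hc, ha, hO, hoo, fun y f hf => ⟨fun hy => ?_, Rig_unit d _ (hO _),
    fun ⟨a, hy⟩ hn => ?_⟩⟩
  · refine Rig_case1 d _ (hO _) (fun g hg => ?_) hf
    obtain ⟨a, s, hs, e⟩ := exists_div_plc y hg
    refine ⟨_, _, (plc_spec y s).1, (plc_spec y s).2.symm ▸ hs, e, fun h => ?_⟩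
    rw [(plc_spec y _).2] at h
    rw [hD, (plc_spec y _).2, Rig_D_ev δ hy, h, δ.map_zero]
  · exact Rig_case2 d _ (hO _) (plc_iF y a).1 (ha a) ((plc_iF y a).2.symm ▸ hc (y a)) hy hf hn

/-- rigidity -/
theorem rig {K : Type} [Field K] [IsAlgClosed K] [CharZero K] [Algebra κ K] (τ : K →ₐ[κ] Ω)
    {ι : Type} [Fintype ι] (z : ι → Pt o Ω) (hz : Function.Injective z) (n : ι → ℤ)
    (hn : ∀ a, n a ≠ 0) (h : ∑ a, n a • cl (z a) ∈ Set.range (bc o τ).cl)
    (hm : ∃ a, z a ∉ Set.range (bc o τ).pt) : 2 ≤ ell (dz z) := by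
  obtain ⟨a₀, ha₀⟩ := hm
  letI : Algebra K Ω := τ.toRingHom.toAlgebra
  haveI : IsScalarTower κ K Ω := IsScalarTower.of_algebraMap_eq fun c => (τ.commutes c).symm
  obtain ⟨δ', hδ'⟩ := exists_derivation (K := K) (x := z a₀ (wN o))
    (F0_transcendental (injective_of_notMem_range τ ha₀).1)
  obtain ⟨d, -, -, -, hoo, hd⟩ := exists_derF (o := o) (δ'.restrictScalars κ)
  obtain ⟨w, hw⟩ := h
  obtain ⟨D, rfl⟩ := clD_surj w
  have h1 : clD o Ω (∑ a, n a • pd (plc (z a))) = clD o Ω ((bc o τ).dv D) := by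
    rw [← BC.cl_clD, hw, map_sum]
    exact Finset.sum_congr rfl fun a _ => map_zsmul _ _ _
  obtain ⟨k, f, hf, e⟩ := clD_eq_iff.1 h1
  have key : ∀ y : Pt o Ω, (∃ a, δ' (y a) ≠ 0) →
      (plc y).ord f = -∑ a, if z a = y then n a else 0 := by
    rintro y ⟨a, hy⟩
    have hr : plc y ∉ Set.range (bc o τ).plc := by
      rintro ⟨P, hP⟩
      rcases eq_oo_or_plc P with rfl | ⟨y₀, rfl⟩
      · rw [BC.plc_oo] at hP
        exact plc_ne_oo y hP.symm
      · rw [BC.plc_plc, bc_pt] at hP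
        rw [← plc_injective hP] at hy
        exact hy (δ'.map_algebraMap (y₀ a))
    have e1 := congrArg (fun E : DO o Ω => E (plc y)) e
    have e2 : (bc o τ).dv D (plc y) = 0 := Finsupp.mapDomain_of_notMem_range _ _ hr
    simp only [Finsupp.add_apply, Finsupp.smul_apply, Finsupp.finsetSum_apply, e2, dv_apply,
      F1_pd_apply, if_neg (plc_ne_oo y).symm, plc_injective.eq_iff, smul_eq_mul, mul_ite, mul_one,
      mul_zero] at e1
    omega
  refine (two_le_ell_iff (dz_nonneg z)).2 ⟨d f / f, mem_LL.2 (Or.inr fun P => ?_), ?_⟩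
  · have h0 : d f / f ∈ P.O → -dz z P ≤ P.ord (d f / f) := fun h => by
      have h2 := P.mem_iff.1 h
      have h3 : 0 ≤ dz z P := dz_nonneg z P
      omega
    rcases eq_oo_or_plc P with rfl | ⟨y, rfl⟩
    · exact h0 (hoo f)
    by_cases hy : ∀ a, δ' (y a) = 0
    · exact h0 ((hd y f hf).1 hy)
    push Not at hy
    by_cases ho : (plc y).ord f = 0
    · exact h0 ((hd y f hf).2.1 ho)
    rw [(hd y f hf).2.2 hy ho, dz_apply, neg_le_neg_iff, Nat.one_le_cast, Finset.one_le_card]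
    by_contra hne
    apply ho
    rw [key y hy, Finset.sum_eq_zero, neg_zero]
    intro a _
    exact if_neg fun ha => hne ⟨a, Finset.mem_filter.2 ⟨Finset.mem_univ _, ha⟩⟩
  · rintro ⟨c, hc⟩
    have hy : ∃ a, δ' (z a₀ a) ≠ 0 := ⟨wN o, by rw [hδ']; exact one_ne_zero⟩
    have ho : (plc (z a₀)).ord f ≠ 0 := by
      rw [key _ hy]
      simpa [hz.eq_iff] using hn a₀
    have := (hd _ f hf).2.2 hy ho
    rw [← hc, Place.ord_algebraMap] at this
    omega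

end Pool.Agent.E6b
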