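import Pool.Agent.E6b.V6

open scoped NNReal TensorProduct IntermediateField BigOperators Classical Topology
open Filter

namespace Pool.Agent.E6b

theorem V7_prod_bound (r₁ r₂ c s t a : ℕ) (hs : 0 < s) (ht : 0 < t) (ha : 0 < a) (k₀ : Fin r₁) :
    a * s ^ 2 * ∏ k ∈ Finset.univ.erase (Sum.inl k₀ : Fin r₁ ⊕ Fin r₂),
      (Sum.elim (fun _ => c * s ^ 2 * a) (fun _ => c * t ^ 2 * a) k + 1) ≤
      (c + 1) ^ (r₁ + r₂) * (s ^ (2 * r₁) * t ^ (2 * r₂) * a ^ (r₁ + r₂)) := by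
  set w : Fin r₁ ⊕ Fin r₂ → ℕ := Sum.elim (fun _ => (c + 1) * a * s ^ 2)
    (fun _ => (c + 1) * a * t ^ 2) with hw
  have h1 : ∏ k ∈ Finset.univ.erase (Sum.inl k₀ : Fin r₁ ⊕ Fin r₂),
      (Sum.elim (fun _ => c * s ^ 2 * a) (fun _ => c * t ^ 2 * a) k + 1) ≤
      ∏ k ∈ Finset.univ.erase (Sum.inl k₀ : Fin r₁ ⊕ Fin r₂), w k := by
    apply Finset.prod_le_prod'
    intro k _
    have hs2 : 0 < a * s ^ 2 := by positivity
    have ht2 : 0 < a * t ^ 2 := by positivity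
    rcases k with k | k
    · simp only [hw, Sum.elim_inl]; nlinarith
    · simp only [hw, Sum.elim_inr]; nlinarith
  have h2 : w (Sum.inl k₀) * ∏ k ∈ Finset.univ.erase (Sum.inl k₀ : Fin r₁ ⊕ Fin r₂), w k =
      ∏ k, w k := Finset.mul_prod_erase _ _ (Finset.mem_univ _)
  have h3 : ∏ k, w k = (c + 1) ^ (r₁ + r₂) * (s ^ (2 * r₁) * t ^ (2 * r₂) * a ^ (r₁ + r₂)) := by
    rw [Fintype.prod_sum_type]
    simp only [hw, Sum.elim_inl, Sum.elim_inr, Finset.prod_const, Finset.card_univ,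
      Fintype.card_fin, mul_pow, pow_add, ← pow_mul]
    ring
  have h4 : a * s ^ 2 ≤ w (Sum.inl k₀) := by
    simp only [hw, Sum.elim_inl]
    have : 0 ≤ c * (a * s ^ 2) := Nat.zero_le _
    nlinarith
  rw [← h3, ← h2]
  exact Nat.mul_le_mul h4 h1

theorem V7_cstC_pow {κ Ω : Type} [Field κ] [Field Ω] [Algebra κ Ω] (g : Ωˣ) (m : ℕ) :
    (cstC κ g : VC κ Ω) ^ m = cstC κ (g ^ m) := by
  funext O; simp [cstC]

theorem V7_vle {κ Ω : Type} [Field κ] [Field Ω] [Algebra κ Ω] {r₁ r₂ : ℕ}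
    (u : Fin r₁ ⊕ Fin r₂ → Ω) (l : VC κ Ω) (p q k m : ℕ) (g : Ωˣ)
    (h : VLe (l ^ k) (cstC κ g *
      ((∏ i, pen κ (u (.inl i))) ^ p * (∏ i, pen κ (u (.inr i))) ^ q) ^ k)) :
    VLe (l ^ (k * m)) (cstC κ (g ^ m) * ∏ i, pen κ (u i) ^
      (Sum.elim (fun _ => p * (k * m)) (fun _ => q * (k * m)) i : ℕ)) := by
  have h1 := h.pow m
  rw [← pow_mul, mul_pow, V7_cstC_pow, ← pow_mul] at h1
  convert h1 using 2
  rw [Fintype.prod_sum_type]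
  simp only [Sum.elim_inl, Sum.elim_inr]
  rw [Finset.prod_pow, Finset.prod_pow, mul_pow, ← pow_mul, ← pow_mul]

theorem V7_vle_mul_inv {κ Ω : Type} [Field κ] [Field Ω] [Algebra κ Ω] (l : VC κ Ω) (t : Ω)
    (b : ℕ) : VLe (l * (pen κ t ^ b)⁻¹) l := by
  have h1 : VLe (1 : VC κ Ω) (pen κ t) := one_vle_gen (j := 0) rfl
  have h2 := (h1.pow b).inv
  rw [one_pow, inv_one] at h2
  have h3 := (VLe.refl l).mul h2
  rwa [mul_one] at h3

/-- Main dimension count. -/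
theorem vol_main (r₁ r₂ e c : ℕ) : ∃ E : ℕ, 0 < E ∧
    ∀ {κ Ω : Type} [Field κ] [CharZero κ] [Field Ω] [Algebra κ Ω]
      (u : Fin r₁ ⊕ Fin r₂ → Ω), AlgebraicIndependent κ u →
      ∀ [FiniteDimensional (IntermediateField.adjoin κ (Set.range u)) Ω],
      Module.finrank (IntermediateField.adjoin κ (Set.range u)) Ω ≤ e →
      ∀ {J : Type} [Fintype J] (x₁ x₂ xp : J → Ω), x₁ ≠ 0 → x₂ ≠ 0 → xp ≠ 0 →
      ∀ (x : ℕ → ℕ → J → Ω), (∀ s t, x s t ≠ 0) →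
      (∀ s t : ℕ, 0 < s → 0 < t → QEq (gen κ (x s t) * gen κ xp ^ (s * t))
        (gen κ x₁ ^ (s ^ 2 + s * t) * gen κ x₂ ^ (t ^ 2 + s * t))) →
      (∀ s t : ℕ, 0 < s → 0 < t → QLe (gen κ (x s t))
        ((∏ k, pen κ (u (.inl k))) ^ (c * s ^ 2) * (∏ k, pen κ (u (.inr k))) ^ (c * t ^ 2))) →
      (∃ (j₀ : J) (j : Fin (r₁ + r₂) → J), x 1 1 j₀ ≠ 0 ∧
        AlgebraicIndependent κ fun i => x 1 1 (j i) / x 1 1 j₀) →
      ∀ (k₀ : Fin r₁) (s t : ℕ), 0 < s → 0 < t → ∃ k : ℕ, 0 < k ∧ ∀ᶠ D : ℕ in atTop,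
        Module.Finite κ
          (TT (gen κ (x s t) ^ (k * D * E) * (pen κ (u (.inl k₀)) ^ (k * D * s ^ 2))⁻¹)) ∧
        (s : ℝ) ^ (2 * r₁) * (t : ℝ) ^ (2 * r₂) * ((k * D * E : ℕ) : ℝ) ^ (r₁ + r₂) /
          (4 * (r₁ + r₂).factorial) ≤ Module.finrank κ
            (TT (gen κ (x s t) ^ (k * D * E) * (pen κ (u (.inl k₀)) ^ (k * D * s ^ 2))⁻¹)) := by
  set E : ℕ := 4 * (r₁ + r₂).factorial * (e + 1) * (c + 1) ^ (r₁ + r₂) + 1 with hE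
  have hE0 : 0 < E := Nat.succ_pos _
  refine ⟨E, hE0, ?_⟩
  intro κ Ω _ _ _ _ u hu _ he J _ x₁ x₂ xp h₁ h₂ hp x hx hq hb hpos k₀ s t hs ht
  obtain ⟨k, hk, g, hg⟩ := hb s t hs ht
  refine ⟨k, hk, ?_⟩
  have hlow := vol_lower u hu x₁ x₂ xp h₁ h₂ hp x hx hq c hb hpos s t hs ht
  have htend : Tendsto (fun D : ℕ => k * D * E) atTop atTop := by
    refine tendsto_atTop_mono (fun D => ?_) tendsto_id
    have : 1 * D * 1 ≤ k * D * E := Nat.mul_le_mul (Nat.mul_le_mul_right _ hk) hE0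
    simpa using this
  filter_upwards [htend.eventually hlow, eventually_gt_atTop 0] with D hD hD0
  set a : ℕ := k * D * E with ha
  have ha0 : 0 < a := by positivity
  have hv := V7_vle u (gen κ (x s t)) (c * s ^ 2) (c * t ^ 2) k (D * E) g hg
  rw [← mul_assoc k D E, ← ha] at hv
  have hfin0 := (ub u hu (Sum.elim (fun _ => c * s ^ 2 * a) (fun _ => c * t ^ 2 * a))).1
  have hfin1 := (finite_TT_cstC_mul (g ^ (D * E)) _).2 hfin0
  have hfin : Module.Finite κ (TT (gen κ (x s t) ^ a)) :=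
    Submodule.finiteDimensional_of_le hv.TT_le
  obtain ⟨hres, hres'⟩ := ub_res u hu _ (Sum.inl k₀) _ hv
  have hsub := pencil_sub (u (.inl k₀)) (gen κ (x s t) ^ a) (k * D * s ^ 2)
  refine ⟨Submodule.finiteDimensional_of_le (V7_vle_mul_inv _ _ _).TT_le, ?_⟩
  have hpb := V7_prod_bound r₁ r₂ c s t a hs ht ha0 k₀
  set R : ℕ := ∏ k ∈ Finset.univ.erase (Sum.inl k₀ : Fin r₁ ⊕ Fin r₂),
      (Sum.elim (fun _ => c * s ^ 2 * a) (fun _ => c * t ^ 2 * a) k + 1) with hR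
  set M : ℕ := s ^ (2 * r₁) * t ^ (2 * r₂) * a ^ (r₁ + r₂) with hM
  set F : ℕ := (r₁ + r₂).factorial with hF
  set ρ : ℕ := Module.finrank κ⟮u (.inl k₀)⟯ (TT (resC κ⟮u (.inl k₀)⟯ (gen κ (x s t) ^ a)))
    with hρ
  have hρ1 : ρ ≤ e * R := by
    refine hres'.trans (Nat.mul_le_mul he (le_of_eq ?_))
    rw [hR]
    exact Finset.prod_congr (Finset.ext fun _ => by simp only [Finset.mem_erase]) fun _ _ => rfl
  have key : 4 * F * (k * D * s ^ 2 * ρ) ≤ M := by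
    refine Nat.le_of_mul_le_mul_left ?_ hE0
    calc E * (4 * F * (k * D * s ^ 2 * ρ)) = 4 * F * (a * s ^ 2 * ρ) := by rw [ha]; ring
      _ ≤ 4 * F * (a * s ^ 2 * (e * R)) := by gcongr
      _ = 4 * F * e * (a * s ^ 2 * R) := by ring
      _ ≤ 4 * F * e * ((c + 1) ^ (r₁ + r₂) * M) := by gcongr
      _ = (4 * F * e * (c + 1) ^ (r₁ + r₂)) * M := by ring
      _ ≤ E * M := by
        apply Nat.mul_le_mul_right
        rw [hE]
        have : 4 * F * e * (c + 1) ^ (r₁ + r₂) ≤ 4 * F * (e + 1) * (c + 1) ^ (r₁ + r₂) := by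
          gcongr; omega
        omega
  have hF0 : (0 : ℝ) < F := by exact_mod_cast Nat.factorial_pos _
  have hMc : (s : ℝ) ^ (2 * r₁) * (t : ℝ) ^ (2 * r₂) * (a : ℝ) ^ (r₁ + r₂) = (M : ℝ) := by
    rw [hM]; push_cast; ring
  rw [hMc] at hD ⊢
  have key' : 4 * (F : ℝ) * ((k * D * s ^ 2 * ρ : ℕ) : ℝ) ≤ M := by exact_mod_cast key
  have hsub' : (Module.finrank κ (TT (gen κ (x s t) ^ a)) : ℝ) ≤
      Module.finrank κ (TT (gen κ (x s t) ^ a * (pen κ (u (.inl k₀)) ^ (k * D * s ^ 2))⁻¹)) +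
        ((k * D * s ^ 2 * ρ : ℕ) : ℝ) := by exact_mod_cast hsub
  rw [div_le_iff₀ (by positivity)] at hD ⊢
  nlinarith

end Pool.Agent.E6b
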