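import Pool.Agent.E6b.C1
import Pool.Agent.E6b.P5
import Pool.Agent.E6b.Rig
import Pool.Agent.E6b.V7

open scoped NNReal TensorProduct IntermediateField BigOperators Classical Topology
open Filter

namespace Pool.Agent.E6b

/-- independent elements algebraic over a family give an independent subfamily -/
theorem C5_sub {κ Ω J ι : Type} [Field κ] [Field Ω] [Algebra κ Ω] [Fintype ι] {n : ℕ}
    (hn : Fintype.card ι = n) (v : J → Ω) {u : ι → Ω} (hu : AlgebraicIndependent κ u)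
    (h : ∀ k, IsAlgebraic (IntermediateField.adjoin κ (Set.range v)) (u k)) :
    ∃ j : Fin n → J, AlgebraicIndependent κ fun i => v (j i) := by
  have h1 : Set.range u ⊆ (AlgebraicIndependent.matroid κ Ω).closure (Set.range v) := by
    rintro _ ⟨i, rfl⟩
    rw [AlgebraicIndependent.matroid_closure_eq, SetLike.mem_coe, Subalgebra.mem_algebraicClosure]
    exact IntermediateField.isAlgebraic_adjoin_iff.1 (h i)
  have h2 : (AlgebraicIndependent.matroid κ Ω).Indep (Set.range u) :=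
    AlgebraicIndependent.matroid_indep_iff.2 hu.to_subtype_range
  have h3 := h2.encard_le_eRk_of_subset h1
  obtain ⟨I, hI⟩ := (AlgebraicIndependent.matroid κ Ω).exists_isBasis (Set.range v)
  have h6 : (Set.range u).encard = (n : ℕ∞) := by
    rw [← Set.image_univ, hu.injective.encard_image, ← hn]
    simp
  rw [Matroid.eRk_closure_eq, ← hI.encard_eq_eRk, h6] at h3
  obtain ⟨T, hTI, hT⟩ := Set.exists_subset_encard_eq h3
  have hfin : T.Finite := Set.finite_of_encard_eq_coe hT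
  have : Fintype T := hfin.fintype
  have hc : Fintype.card T = n := by
    rw [Set.encard_eq_coe_toFinset_card, Set.toFinset_card] at hT
    exact_mod_cast hT
  let e : Fin n ≃ T := (Fintype.equivFinOfCardEq hc).symm
  have hind : AlgebraicIndependent κ fun x : T => (x : Ω) :=
    AlgebraicIndependent.matroid_indep_iff.1 (hI.indep.subset hTI)
  choose j hj using fun i : Fin n => hI.subset (hTI (e i).2)
  refine ⟨j, ?_⟩
  have : (fun i => v (j i)) = (fun x : T => (x : Ω)) ∘ e := funext hj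
  rw [this]
  exact hind.comp e e.injective

theorem C5_rs_div {κ Ω : Type} [Field κ] [Field Ω] [Algebra κ Ω] (O : VS κ Ω) {x y : Ω}
    (hx : x ∈ O.1) (hy : y ∈ O.1) (h : rs O y ≠ 0) :
    x / y ∈ O.1 ∧ rs O (x / y) = rs O x / rs O y := by
  have h1 : O.1.valuation y = 1 :=
    le_antisymm ((O.1.valuation_le_one_iff y).2 hy)
      (not_lt.1 fun h' => h ((rs_eq_zero_iff O hy).2 h'))
  have h0 : y ≠ 0 := fun e => by simp [e] at h1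
  have h2 : x / y ∈ O.1 := by
    rw [V1_div_mem O.1 x h0, h1]
    exact (O.1.valuation_le_one_iff x).2 hx
  refine ⟨h2, ?_⟩
  rw [eq_div_iff h, ← rs_mul O h2 hy, div_mul_cancel₀ _ h0]

theorem C5_ev2_C {K R : Type} [Field K] [CommRing R] [Algebra K R] {r : ℕ} (u : Fin r → R) (ξ : R)
    (p : MvPolynomial (Fin r) K) : ev2 u ξ (Polynomial.C p) = MvPolynomial.aeval u p :=
  Polynomial.eval₂_C _ _

theorem C5_val {K B R ι : Type} [Field K] [CommRing B] [Algebra K B] [Field R] [Algebra K R]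
    {r : ℕ} (M : Mdl K r ι) (φ : B →ₐ[K] R) (u : Fin r → B) (ξ : B) (l : ι) :
    M.val (fun k => φ (u k)) (φ ξ) l = φ (ev2 u ξ (M.P l)) / φ (ev2 u ξ (Polynomial.C M.q)) := by
  rw [map_ev2, map_ev2, C5_ev2_C]
  rfl

theorem C5_val_red {K B Ω ι : Type} [Field K] [CommRing B] [Algebra K B] [Field Ω] [Algebra K Ω]
    {r : ℕ} (M : Mdl K r ι) (φ : B →ₐ[K] Ω) (χ : B →ₐ[K] K) (u : Fin r → B) (ξ : B) {O : VS K Ω}
    (hO : ∀ b, φ b ∈ O.1 ∧ rs O (φ b) = algebraMap K (RF O) (χ b))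
    (hq : χ (ev2 u ξ (Polynomial.C M.q)) ≠ 0) (l : ι) :
    M.val (fun k => φ (u k)) (φ ξ) l ∈ O.1 ∧ rs O (M.val (fun k => φ (u k)) (φ ξ) l) =
      algebraMap K (RF O) (M.val (fun k => χ (u k)) (χ ξ) l) := by
  have h := C5_rs_div O (hO (ev2 u ξ (M.P l))).1 (hO (ev2 u ξ (Polynomial.C M.q))).1 (by
    rw [(hO _).2]
    exact (map_ne_zero _).2 hq)
  rw [C5_val, C5_val, map_div₀, ← (hO _).2, ← (hO _).2]
  exact h

variable {F : Type} [Field F] [Algebra Qb F] [IsFF Qb F] {o : Place Qb F} {d r₁ r₂ : ℕ}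

theorem C5_red {B Ω : Type} [CommRing B] [Algebra Qb B] [Field Ω] [IsAlgClosed Ω] [CharZero Ω]
    [Algebra Qb Ω] {r : ℕ} (M : Mdl Qb r (IX o d)) (φ : B →ₐ[Qb] Ω) (χ : B →ₐ[Qb] Qb)
    (u : Fin r → B) (ξ : B) {O : VS Qb Ω}
    (hO : ∀ b, φ b ∈ O.1 ∧ rs O (φ b) = algebraMap Qb (RF O) (χ b))
    (hq : χ (ev2 u ξ (Polynomial.C M.q)) ≠ 0) {z : Fin d → Pt o Ω}
    (hz : M.Crd (fun k => φ (u k)) (φ ξ) z) :
    ∃ h : ∀ a, Intg O (z a), (∃ y, M.Crd (fun k => χ (u k)) (χ ξ) y) ∧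
      ∀ y, M.Crd (fun k => χ (u k)) (χ ξ) y →
        ∀ a, redp O (z a) (h a) = (bc o (Algebra.ofId Qb (RF O))).pt (y a) := by
  have hv := C5_val_red M φ χ u ξ hO hq
  have h : ∀ a, Intg O (z a) := fun a => by
    have h1 : genus Qb F + 1 < MM o := by unfold MM; omega
    rw [intg_iff]
    have h2 := hz a ⟨_, h1⟩
    exact h2 ▸ (hv _).1
  have he : ∀ a (i : Fin (MM o)), redp O (z a) (h a) (eb o i) =
      algebraMap Qb (RF O) (M.val (fun k => χ (u k)) (χ ξ) (.inl (a, i))) := fun a i => by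
    rw [redp_apply, hz a i, (hv _).2]
  refine ⟨h, ?_, fun y hy a => pt_ext o (funext fun i => ?_)⟩
  · choose y hy using fun a => ((bc o (Algebra.ofId Qb (RF O))).mem_range_pt
      (y := redp O (z a) (h a))).2 fun i => ⟨_, by rw [bc_τ]; exact (he a i).symm⟩
    refine ⟨y, fun a i => (algebraMap Qb (RF O)).injective ?_⟩
    rw [← he, ← hy a, bc_pt]
    rfl
  · unfold cd
    rw [he, bc_pt, ← hy a i]
    rfl

theorem C5_spec {Ω : Type} [Field Ω] [IsAlgClosed Ω] [CharZero Ω] [Algebra Qb Ω] {O : VS Qb Ω}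
    {w : Cl o Ω} {w' : Cl o Qb} (h : redCl O o w = (bc o (Algebra.ofId Qb (RF O))).cl w')
    {x : JJ o × JJ o → Ω} (hx : Prp x (Psym w)) (h1 : vs O.1 x = 1) :
    Prp (fun j => rs O (x j)) fun j => algebraMap Qb (RF O) (Psym w' j) := by
  have h2 := Psym_red O w hx h1
  rw [h] at h2
  have h3 := (bc_ok (o := o) (Algebra.ofId Qb (RF O))).Psym w'
  rw [bc_τ] at h3
  exact h2.trans h3

theorem C5_spec1 {B Ω : Type} [CommRing B] [Algebra Qb B] [Field Ω] [IsAlgClosed Ω] [CharZero Ω]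
    [Algebra Qb Ω] {r : ℕ} (M : Mdl Qb r (IX o d)) (φ : B →ₐ[Qb] Ω) (χ : B →ₐ[Qb] Qb)
    (u : Fin r → B) (ξ : B) {O : VS Qb Ω}
    (hO : ∀ b, φ b ∈ O.1 ∧ rs O (φ b) = algebraMap Qb (RF O) (χ b))
    (hq : χ (ev2 u ξ (Polynomial.C M.q)) ≠ 0) {z : Fin d → Pt o Ω}
    (hz : M.Crd (fun k => φ (u k)) (φ ξ) z)
    (hp : Prp (Psym (clz z)) fun j => M.val (fun k => φ (u k)) (φ ξ) (.inr j))
    (h1 : ∃ j, M.val (fun k => φ (u k)) (φ ξ) (.inr j) = 1) {y : Fin d → Pt o Qb}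
    (hy : M.Crd (fun k => χ (u k)) (χ ξ) y) :
    Prp (fun j => χ (ev2 u ξ (M.P (.inr j)))) (Psym (clz y)) := by
  have hv := C5_val_red M φ χ u ξ hO hq
  obtain ⟨h, -, hr⟩ := C5_red M φ χ u ξ hO hq hz
  have h2 : vs O.1 (fun j => M.val (fun k => φ (u k)) (φ ξ) (.inr j)) = 1 := by
    refine le_antisymm (vs_le O.1 fun j => (O.1.valuation_le_one_iff _).2 (hv _).1) ?_
    obtain ⟨j, hj⟩ := h1
    have := le_vs O.1 (fun j => M.val (fun k => φ (u k)) (φ ξ) (.inr j)) j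
    rwa [hj, map_one] at this
  have h3 := C5_spec (w' := clz y) (by
    rw [redCl_clz O h, BC.cl_clz]
    exact congrArg clz (funext (hr y hy))) hp.symm h2
  simp only [(hv _).2] at h3
  refine Prp.trans ⟨_, hq, fun j => ?_⟩ (Prp.of_map _ h3)
  rw [C5_val, mul_div_cancel₀ _ hq]

theorem C5_ratC {B K Ω : Type} [CommRing B] [Algebra Qb B] [Field K] [Algebra Qb K] [Field Ω]
    [IsAlgClosed Ω] [CharZero Ω] [Algebra Qb Ω] [Algebra K Ω] [IsScalarTower Qb K Ω]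
    [Algebra.IsAlgebraic K Ω] {r : ℕ} (M : Mdl Qb r (IX o d)) (φ : B →ₐ[Qb] Ω)
    (hφ : ∀ b, φ b ∈ (algebraMap K Ω).range) (u : Fin r → B) (ξ : B) {z : Fin d → Pt o Ω}
    (hz : M.Crd (fun k => φ (u k)) (φ ξ) z) : RatC K (clz z) := by
  refine ratC_clz fun a i => ?_
  obtain ⟨x, hx⟩ := hφ (ev2 u ξ (M.P (.inl (a, i))))
  obtain ⟨y, hy⟩ := hφ (ev2 u ξ (Polynomial.C M.q))
  exact ⟨x / y, by rw [hz a i, C5_val, map_div₀, hx, hy]⟩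

theorem C5_pos {Ω : Type} [Field Ω] [IsAlgClosed Ω] [CharZero Ω] [Algebra Qb Ω]
    {z₁ z₂ : Fin d → Pt o Ω} (hi : Function.Injective (Sum.elim z₁ z₂))
    (hl : ell (dz (Sum.elim z₁ z₂)) = 1) {x : JJ o × JJ o → Ω}
    (hx : Prp (Psym (clz z₁ - clz z₂)) x) (a : Fin d ⊕ Fin d) (f : AA o) :
    IsAlgebraic (IntermediateField.adjoin Qb (Set.range x)) (Sum.elim z₁ z₂ a f) := by
  obtain ⟨K, hK, hmem⟩ := exists_acl (κ := Qb) (Set.range x)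
  have : CharZero K := charZero_of_injective_algebraMap (algebraMap Qb K).injective
  have hxK : ∀ j, x j ∈ K := fun j => (hmem _).2 (isAlgebraic_algebraMap
    (⟨x j, IntermediateField.subset_adjoin _ _ ⟨j, rfl⟩⟩ :
      IntermediateField.adjoin Qb (Set.range x)))
  have h1 := mem_range_cl_of_prp K.val (x := fun j => ⟨x j, hxK j⟩) hx
  have h2 : Sum.elim z₁ z₂ a ∈ Set.range (bc o K.val).pt := by
    by_contra h
    have h3 := rig K.val (Sum.elim z₁ z₂) hi (Sum.elim (fun _ => 1) fun _ => -1)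
      (fun a => by cases a <;> simp) (by
        rw [Fintype.sum_sum_type]
        simpa [clz_eq_sum, sub_eq_add_neg] using h1) ⟨a, h⟩
    omega
  obtain ⟨y, hy⟩ := h2
  rw [← hmem, ← hy, bc_pt]
  exact (y f).2

/-- generic families of points on the product of two models -/
structure Gen (M₁ : Mdl Qb r₁ (IX o d)) (M₂ : Mdl Qb r₂ (IX o d)) where
  z₁ : Fin d → Pt o (TL M₁ M₂)
  z₂ : Fin d → Pt o (TL M₁ M₂)
  crd₁ : M₁.Crd (fun k => uL M₁ M₂ (.inl k)) (x1L M₁ M₂) z₁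
  crd₂ : M₂.Crd (fun k => uL M₁ M₂ (.inr k)) (x2L M₁ M₂) z₂
  prp₁ : Prp (Psym (clz z₁)) fun j => M₁.val (fun k => uL M₁ M₂ (.inl k)) (x1L M₁ M₂) (.inr j)
  prp₂ : Prp (Psym (clz z₂)) fun j => M₂.val (fun k => uL M₁ M₂ (.inr k)) (x2L M₁ M₂) (.inr j)
  one₁ : ∃ j, M₁.val (fun k => uL M₁ M₂ (.inl k)) (x1L M₁ M₂) (.inr j) = 1
  one₂ : ∃ j, M₂.val (fun k => uL M₁ M₂ (.inr k)) (x2L M₁ M₂) (.inr j) = 1
  u₁ : ∀ k, ∃ (a : Fin d) (i : Fin (MM o)), uL M₁ M₂ (.inl k) = z₁ a (eb o i)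
  u₂ : ∀ k, ∃ (a : Fin d) (i : Fin (MM o)), uL M₁ M₂ (.inr k) = z₂ a (eb o i)

variable {M₁ : Mdl Qb r₁ (IX o d)} {M₂ : Mdl Qb r₂ (IX o d)}

theorem exists_gen (h₁ : M₁.Real) (h₂ : M₂.Real) : Nonempty (Gen M₁ M₂) := by
  obtain ⟨z₁, a1, a2, a3, a4⟩ := h₁ (TL M₁ M₂) _ _
    ((algebraicIndependent_uL M₁ M₂).comp Sum.inl Sum.inl_injective) (isPt1_TL M₁ M₂)
  obtain ⟨z₂, b1, b2, b3, b4⟩ := h₂ (TL M₁ M₂) _ _
    ((algebraicIndependent_uL M₁ M₂).comp Sum.inr Sum.inr_injective) (isPt2_TL M₁ M₂)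
  exact ⟨⟨z₁, z₂, a1, b1, a2, b2, a3, b3, a4, b4⟩⟩

variable (M₁ M₂) in
/-- the generic point -/
noncomputable def C5_i : TB M₁ M₂ →ₐ[Qb] TL M₁ M₂ := IsScalarTower.toAlgHom Qb (TB M₁ M₂) (TL M₁ M₂)

theorem C5_i_mem (b : TB M₁ M₂) : C5_i M₁ M₂ b ∈ (algebraMap (TK M₁ M₂) (TL M₁ M₂)).range :=
  ⟨algebraMap _ _ b, (IsScalarTower.algebraMap_apply _ _ _ b).symm⟩

variable (G : Gen M₁ M₂)

theorem Gen.ratC₁ : RatC (TK M₁ M₂) (clz G.z₁) :=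
  C5_ratC M₁ (C5_i M₁ M₂) C5_i_mem (fun k => uB M₁ M₂ (.inl k)) (x1B M₁ M₂) G.crd₁

theorem Gen.ratC₂ : RatC (TK M₁ M₂) (clz G.z₂) :=
  C5_ratC M₂ (C5_i M₁ M₂) C5_i_mem (fun k => uB M₁ M₂ (.inr k)) (x2B M₁ M₂) G.crd₂

theorem Gen.exists_num (s t : ℤ) : ∃ n : JJ o × JJ o → TB M₁ M₂,
    Prp (Psym (s • clz G.z₁ + t • clz G.z₂)) fun j => algebraMap _ (TL M₁ M₂) (n j) := by
  obtain ⟨x, hx⟩ := ((G.ratC₁.zsmul s).add (G.ratC₂.zsmul t)).exists_prp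
  obtain ⟨b, hb⟩ := IsLocalization.exist_integer_multiples_of_finite
    (nonZeroDivisors (TB M₁ M₂)) x
  choose n hn using hb
  have h0 : algebraMap (TB M₁ M₂) (TK M₁ M₂) b ≠ 0 :=
    IsFractionRing.to_map_ne_zero_of_mem_nonZeroDivisors b.2
  refine ⟨n, hx.trans (Prp.symm ⟨algebraMap (TK M₁ M₂) _ (algebraMap (TB M₁ M₂) _ b),
    (map_ne_zero _).2 h0, fun j => ?_⟩)⟩
  rw [← map_mul, ← Algebra.smul_def, ← hn j]
  exact IsScalarTower.algebraMap_apply _ _ _ _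

/-- the families of points above a point `χ` of the product -/
def Above (M₁ : Mdl Qb r₁ (IX o d)) (M₂ : Mdl Qb r₂ (IX o d)) (χ : TB M₁ M₂ →ₐ[Qb] Qb)
    (y₁ y₂ : Fin d → Pt o Qb) : Prop :=
  M₁.Crd (fun k => χ (uB M₁ M₂ (.inl k))) (χ (x1B M₁ M₂)) y₁ ∧
    M₂.Crd (fun k => χ (uB M₁ M₂ (.inr k))) (χ (x2B M₁ M₂)) y₂

include G in
theorem Gen.exists_above {χ : TB M₁ M₂ →ₐ[Qb] Qb} (hχ : GdP M₁ M₂ χ) :
    ∃ y₁ y₂, Above M₁ M₂ χ y₁ y₂ := by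
  obtain ⟨O, hO⟩ := exists_dom M₁ M₂ χ
  obtain ⟨-, ⟨y₁, h₁⟩, -⟩ := C5_red M₁ (C5_i M₁ M₂) χ (fun k => uB M₁ M₂ (.inl k)) (x1B M₁ M₂)
    hO hχ.1 G.crd₁
  obtain ⟨-, ⟨y₂, h₂⟩, -⟩ := C5_red M₂ (C5_i M₁ M₂) χ (fun k => uB M₁ M₂ (.inr k)) (x2B M₁ M₂)
    hO hχ.2 G.crd₂
  exact ⟨y₁, y₂, h₁, h₂⟩

/-- specialisation of theta vectors -/
theorem Gen.spec {χ : TB M₁ M₂ →ₐ[Qb] Qb} (hχ : GdP M₁ M₂ χ) {y₁ y₂ : Fin d → Pt o Qb}
    (hy : Above M₁ M₂ χ y₁ y₂) {O : VS Qb (TL M₁ M₂)} (hO : Dom M₁ M₂ O χ) (s t : ℤ)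
    {x : JJ o × JJ o → TL M₁ M₂} (hx : Prp x (Psym (s • clz G.z₁ + t • clz G.z₂)))
    (h1 : vs O.1 x = 1) :
    Prp (fun j => rs O (x j)) fun j => algebraMap Qb (RF O) (Psym (s • clz y₁ + t • clz y₂) j) := by
  obtain ⟨i₁, -, h₁⟩ := C5_red M₁ (C5_i M₁ M₂) χ (fun k => uB M₁ M₂ (.inl k)) (x1B M₁ M₂)
    hO hχ.1 G.crd₁
  obtain ⟨i₂, -, h₂⟩ := C5_red M₂ (C5_i M₁ M₂) χ (fun k => uB M₁ M₂ (.inr k)) (x2B M₁ M₂)
    hO hχ.2 G.crd₂
  refine C5_spec ?_ hx h1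
  rw [map_add, map_add, map_zsmul, map_zsmul, map_zsmul, map_zsmul, redCl_clz O i₁,
    redCl_clz O i₂, BC.cl_clz, BC.cl_clz, funext (h₁ y₁ hy.1), funext (h₂ y₂ hy.2)]

include G in
theorem Gen.spec₁ {χ : TB M₁ M₂ →ₐ[Qb] Qb} (hχ : GdP M₁ M₂ χ) {y₁ y₂ : Fin d → Pt o Qb}
    (hy : Above M₁ M₂ χ y₁ y₂) :
    Prp (fun j => χ (e1B M₁ M₂ (M₁.P (.inr j)))) (Psym (clz y₁)) ∧
      Prp (fun j => χ (e2B M₁ M₂ (M₂.P (.inr j)))) (Psym (clz y₂)) := by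
  obtain ⟨O, hO⟩ := exists_dom M₁ M₂ χ
  exact ⟨C5_spec1 M₁ (C5_i M₁ M₂) χ (fun k => uB M₁ M₂ (.inl k)) (x1B M₁ M₂) hO hχ.1 G.crd₁
      G.prp₁ G.one₁ hy.1,
    C5_spec1 M₂ (C5_i M₁ M₂) χ (fun k => uB M₁ M₂ (.inr k)) (x2B M₁ M₂) hO hχ.2 G.crd₂
      G.prp₂ G.one₂ hy.2⟩

theorem Gen.ell_eq_one {χ : TB M₁ M₂ →ₐ[Qb] Qb} (hχ : GdP M₁ M₂ χ) {y₁ y₂ : Fin d → Pt o Qb}
    (hy : Above M₁ M₂ χ y₁ y₂) (hi : Function.Injective (Sum.elim y₁ y₂))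
    (hl : ell (dz (Sum.elim y₁ y₂)) = 1) :
    Function.Injective (Sum.elim G.z₁ G.z₂) ∧ ell (dz (Sum.elim G.z₁ G.z₂)) = 1 := by
  obtain ⟨O, hO⟩ := exists_dom M₁ M₂ χ
  obtain ⟨i₁, -, h₁⟩ := C5_red M₁ (C5_i M₁ M₂) χ (fun k => uB M₁ M₂ (.inl k)) (x1B M₁ M₂)
    hO hχ.1 G.crd₁
  obtain ⟨i₂, -, h₂⟩ := C5_red M₂ (C5_i M₁ M₂) χ (fun k => uB M₁ M₂ (.inr k)) (x2B M₁ M₂)
    hO hχ.2 G.crd₂
  have i : ∀ a, Intg O (Sum.elim G.z₁ G.z₂ a) := Sum.forall.2 ⟨i₁, i₂⟩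
  have h : ∀ a, redp O (Sum.elim G.z₁ G.z₂ a) (i a) =
      (bc o (Algebra.ofId Qb (RF O))).pt (Sum.elim y₁ y₂ a) :=
    Sum.forall.2 ⟨h₁ y₁ hy.1, h₂ y₂ hy.2⟩
  refine ⟨fun a b e => hi ((bc o (Algebra.ofId Qb (RF O))).pt_injective ?_),
    le_antisymm ?_ (one_le_ell (dz_nonneg _))⟩
  · rw [← h, ← h]
    congr 1
  · refine (ell_le_red O _).trans_eq ?_
    rw [redD_dz O i, funext h, ← BC.dv_dz, BC.ell_dv, hl]

/-- the difference map is generically finite -/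
theorem Gen.pos (hi : Function.Injective (Sum.elim G.z₁ G.z₂))
    (hl : ell (dz (Sum.elim G.z₁ G.z₂)) = 1) {x : JJ o × JJ o → TK M₁ M₂}
    (hx : Prp (Psym (clz G.z₁ - clz G.z₂)) fun j => algebraMap _ (TL M₁ M₂) (x j)) :
    ∃ (j₀ : JJ o × JJ o) (j : Fin (r₁ + r₂) → JJ o × JJ o), x j₀ ≠ 0 ∧
      AlgebraicIndependent Qb fun i => x (j i) / x j₀ := by
  obtain ⟨j₀, hj₀⟩ := Function.ne_iff.1 (hx.symm.ne_zero (Psym_ne_zero _))
  have h0 : x j₀ ≠ 0 := fun e => hj₀ (by rw [e, map_zero]; rfl)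
  have h1 : Prp (Psym (clz G.z₁ - clz G.z₂))
      fun j => algebraMap _ (TL M₁ M₂) (x j / x j₀) :=
    hx.trans ⟨_, hj₀, fun j => by rw [← map_mul, mul_div_cancel₀ _ h0]⟩
  have h2 := C5_pos hi hl h1
  obtain ⟨j, hj⟩ := C5_sub (n := r₁ + r₂) (by simp)
    (fun j => algebraMap _ (TL M₁ M₂) (x j / x j₀)) (algebraicIndependent_uL M₁ M₂) (by
      rintro (k | k)
      · obtain ⟨a, i, e⟩ := G.u₁ k
        rw [e]
        exact h2 (.inl a) _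
      · obtain ⟨a, i, e⟩ := G.u₂ k
        rw [e]
        exact h2 (.inr a) _)
  exact ⟨j₀, j, h0, AlgebraicIndependent.of_comp
    (IsScalarTower.toAlgHom Qb (TK M₁ M₂) (TL M₁ M₂)) hj⟩

end Pool.Agent.E6b
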