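import Pool.Agent.E6b.M1
import Pool.Agent.E6b.V7

open scoped NNReal TensorProduct IntermediateField BigOperators Classical Topology
open Filter

namespace Pool.Agent.E6b

section
variable {κ Ω : Type} [Field κ] [Field Ω] [Algebra κ Ω]

theorem C6_ev2_eq {r : ℕ} {R : Type} [CommRing R] [Algebra κ R] (u : Fin r → R) (ξ : R)
    (p : PP κ r) : ev2 u ξ p = p.eval₂ (MvPolynomial.aeval u).toRingHom ξ := rfl

theorem C6_ev2_C {r : ℕ} {R : Type} [CommRing R] [Algebra κ R] (u : Fin r → R) (ξ : R)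
    (p : MvPolynomial (Fin r) κ) : ev2 u ξ (Polynomial.C p) = MvPolynomial.aeval u p := by
  rw [C6_ev2_eq, Polynomial.eval₂_C]; rfl

theorem C6_ev2_X {r : ℕ} {R : Type} [CommRing R] [Algebra κ R] (u : Fin r → R) (ξ : R) :
    ev2 u ξ (Polynomial.X : PP κ r) = ξ := by
  rw [C6_ev2_eq, Polynomial.eval₂_X]

theorem C6_ev2_mem {r Δ : ℕ} (u : Fin r → Ω) (ξ : Ω) {m : PP κ r} (hm : m.Monic) (h : CxP Δ m)
    (h0 : ev2 u ξ m = 0) {p : PP κ r} (hp : CxP Δ p) :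
    ev2 u ξ p ∈ TT ((∏ k, pen κ (u k)) ^ (Δ + Δ * Δ)) := by
  have hξ : ξ ∈ TT ((∏ k, pen κ (u k)) ^ Δ) := root_mem_TT u m hm h.2 h0
  rw [C6_ev2_eq, Polynomial.eval₂_eq_sum_range]
  refine Submodule.sum_mem _ fun i hi => ?_
  have hi' : i ≤ Δ := le_trans (Nat.lt_succ_iff.mp (Finset.mem_range.mp hi)) hp.1
  have h1 := mul_mem_TT (aeval_mem_TT u (p.coeff i) (hp.2 i)) (V6_pow_mem hξ i)
  rw [← pow_mul, ← pow_add] at h1
  exact V2_mono u (Nat.add_le_add_left (Nat.mul_le_mul_left _ hi') _) h1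

theorem C6_cxP_mono {r Δ Δ' : ℕ} {p : PP κ r} (h : CxP Δ p) (h' : Δ ≤ Δ') : CxP Δ' p :=
  ⟨h.1.trans h', fun i => (h.2 i).trans h'⟩

theorem C6_cxP_C {r Δ : ℕ} {p : MvPolynomial (Fin r) κ} (h : p.totalDegree ≤ Δ) :
    CxP Δ (Polynomial.C p : PP κ r) := by
  refine ⟨by simp, fun i => ?_⟩
  rw [Polynomial.coeff_C]
  split_ifs
  · exact h
  · simp

theorem C6_cxP_xp {r Δ : ℕ} (h : 1 ≤ Δ) (l : Option (Option (Fin r))) : CxP Δ (xp κ r l) := by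
  rcases l with _ | _ | k
  · exact C6_cxP_C (p := 1) (by simp)
  · refine ⟨?_, fun i => ?_⟩
    · exact le_trans Polynomial.natDegree_X_le h
    · show (Polynomial.coeff (Polynomial.X : PP κ r) i).totalDegree ≤ Δ
      rw [Polynomial.coeff_X]
      split_ifs <;> simp
  · exact C6_cxP_C (by rw [MvPolynomial.totalDegree_X]; exact h)

theorem C6_prod_mem {l : VC κ Ω} {n : ℕ} {z : Fin n → Ω} (h : ∀ i, z i ∈ TT l) :
    ∏ i, z i ∈ TT (l ^ n) := by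
  have := V6_prod_mem Finset.univ h fun _ => 1
  simpa using this

theorem C6_span_pow {J : Type} (a : J → Ω) (A : ℕ) :
    Submodule.span κ (Set.range a) ^ A ≤
      Submodule.span κ (Set.range fun μ : Fin A → J => ∏ i, a (μ i)) := by
  rw [Submodule.span_pow]
  refine Submodule.span_mono ?_
  intro x hx
  obtain ⟨f, rfl⟩ := Set.mem_pow.mp hx
  choose μ hμ using fun i => (f i).2
  refine ⟨μ, ?_⟩
  rw [List.prod_ofFn]
  exact Finset.prod_congr rfl fun i _ => hμ i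

theorem C6_span_mul {A B : Type} (a : A → Ω) (b : B → Ω) :
    Submodule.span κ (Set.range a) * Submodule.span κ (Set.range b) ≤
      Submodule.span κ (Set.range fun p : A × B => a p.1 * b p.2) := by
  rw [Submodule.span_mul_span]
  refine Submodule.span_mono ?_
  rintro _ ⟨_, ⟨i, rfl⟩, _, ⟨j, rfl⟩, rfl⟩
  exact ⟨(i, j), rfl⟩

theorem C6_gen_comp {A T : Type} [Finite A] [Finite T] {a : A → Ω} (ha : a ≠ 0) {f : T → A}
    (hf : Function.Surjective f) : VLe (gen κ a) (gen κ (a ∘ f)) := by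
  have hne : a ∘ f ≠ 0 := by
    intro h0
    apply ha
    funext i
    obtain ⟨t, rfl⟩ := hf i
    exact congrFun h0 t
  refine gen_vle_of_mem ha fun i => ?_
  obtain ⟨t, rfl⟩ := hf i
  exact mem_TT_gen hne t

/-- the conductor for four families, only the first two being raised to a variable power -/
theorem C6_cond [CharZero κ] {A B C D : Type} [Fintype A] [Fintype B] [Fintype C] [Fintype D]
    (a : A → Ω) (b : B → Ω) (c : C → Ω) (e : D → Ω) (ha : ∃ j, a j = 1) (hb : ∃ j, b j = 1)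
    (hc : ∃ j, c j = 1) (he : ∃ j, e j = 1)
    (hgen : IntermediateField.adjoin κ (Set.range c ∪ Set.range e) = ⊤) :
    ∃ (γ : Ω) (n : ℕ), γ ≠ 0 ∧ ∀ (p q : ℕ), ∀ G ∈ TT (gen κ a ^ p * gen κ b ^ q),
      γ * G ∈ Submodule.span κ (Set.range
        fun μ : ((Fin (p + n) → A) × (Fin n → C)) × ((Fin (q + n) → B) × (Fin n → D)) =>
          ((∏ i, a (μ.1.1 i)) * ∏ i, c (μ.1.2 i)) * ((∏ i, b (μ.2.1 i)) * ∏ i, e (μ.2.2 i))) := by
  obtain ⟨ja, hja⟩ := ha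
  obtain ⟨jb, hjb⟩ := hb
  obtain ⟨jc, hjc⟩ := hc
  obtain ⟨je, hje⟩ := he
  have s1 : Function.Surjective fun t : A × B × C × D => t.1 := fun x => ⟨(x, jb, jc, je), rfl⟩
  have s2 : Function.Surjective fun t : A × B × C × D => t.2.1 := fun x => ⟨(ja, x, jc, je), rfl⟩
  have s3 : Function.Surjective fun t : A × B × C × D => t.2.2.1 := fun x => ⟨(ja, jb, x, je), rfl⟩
  have s4 : Function.Surjective fun t : A × B × C × D => t.2.2.2 := fun x => ⟨(ja, jb, jc, x), rfl⟩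
  obtain ⟨γ, n, hγ, H⟩ := exists_conductor (κ := κ) (I := Fin 4) (ι := fun _ => A × B × C × D)
    ![a ∘ fun t => t.1, b ∘ fun t => t.2.1, c ∘ fun t => t.2.2.1, e ∘ fun t => t.2.2.2]
    (by
      intro i
      fin_cases i
      · exact ⟨(ja, jb, jc, je), hja⟩
      · exact ⟨(ja, jb, jc, je), hjb⟩
      · exact ⟨(ja, jb, jc, je), hjc⟩
      · exact ⟨(ja, jb, jc, je), hje⟩)
    (by
      rw [eq_top_iff, ← hgen]
      refine IntermediateField.adjoin.mono _ _ _ (Set.union_subset ?_ ?_)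
      · refine Set.subset_iUnion_of_subset 2 ?_
        exact (s3.range_comp c).ge
      · refine Set.subset_iUnion_of_subset 3 ?_
        exact (s4.range_comp e).ge)
  refine ⟨γ, n, hγ, fun p q G hG => ?_⟩
  have ha0 : a ≠ 0 := fun h => by simp [h] at hja
  have hb0 : b ≠ 0 := fun h => by simp [h] at hjb
  have h1 := H ![p, q, 0, 0] G (by
    rw [Fin.prod_univ_four]
    simp only [Matrix.cons_val_zero, Matrix.cons_val_one, Matrix.cons_val, pow_zero, mul_one]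
    exact (((C6_gen_comp ha0 s1).pow p).mul ((C6_gen_comp hb0 s2).pow q)).TT_le hG)
  rw [Fin.prod_univ_four] at h1
  simp only [Matrix.cons_val_zero, Matrix.cons_val_one, Matrix.cons_val, zero_add] at h1
  rw [s1.range_comp, s2.range_comp, s3.range_comp, s4.range_comp, mul_assoc, mul_mul_mul_comm] at h1
  refine C6_span_mul (fun μ : (Fin (p + n) → A) × (Fin n → C) => (∏ i, a (μ.1 i)) * ∏ i, c (μ.2 i))
    (fun μ : (Fin (q + n) → B) × (Fin n → D) => (∏ i, b (μ.1 i)) * ∏ i, e (μ.2 i)) ?_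
  refine SetLike.le_def.mp (mul_le_mul' ?_ ?_) h1
  · exact le_trans (mul_le_mul' (C6_span_pow a _) (C6_span_pow c _)) (C6_span_mul _ _)
  · exact le_trans (mul_le_mul' (C6_span_pow b _) (C6_span_pow e _)) (C6_span_mul _ _)

theorem C6_q1 {x a b p : VC κ Ω} (s t : ℕ)
    (h : QEq x (a ^ ((s : ℤ) ^ 2 - s * (-(t : ℤ))) * b ^ ((-(t : ℤ)) ^ 2 - s * (-(t : ℤ))) *
      p ^ ((s : ℤ) * (-(t : ℤ))))) :
    QEq (x * p ^ (s * t)) (a ^ (s ^ 2 + s * t) * b ^ (t ^ 2 + s * t)) := by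
  have h1 := h.mul (QEq.refl (p ^ (s * t)))
  have e : a ^ ((s : ℤ) ^ 2 - s * (-(t : ℤ))) * b ^ ((-(t : ℤ)) ^ 2 - s * (-(t : ℤ))) *
      p ^ ((s : ℤ) * (-(t : ℤ))) * p ^ (s * t) = a ^ (s ^ 2 + s * t) * b ^ (t ^ 2 + s * t) := by
    rw [← zpow_natCast p, ← zpow_natCast a, ← zpow_natCast b, mul_assoc, ← zpow_add]
    have e1 : (s : ℤ) * (-(t : ℤ)) + ((s * t : ℕ) : ℤ) = 0 := by push_cast; ring
    have e2 : (s : ℤ) ^ 2 - s * (-(t : ℤ)) = ((s ^ 2 + s * t : ℕ) : ℤ) := by push_cast; ring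
    have e3 : (-(t : ℤ)) ^ 2 - s * (-(t : ℤ)) = ((t ^ 2 + s * t : ℕ) : ℤ) := by push_cast; ring
    rw [e1, e2, e3, zpow_zero, mul_one]
  rwa [e] at h1

theorem C6_q2 {x y a b p : VC κ Ω} (s t : ℕ)
    (h : QEq x (a ^ ((s : ℤ) ^ 2 - s * (-(t : ℤ))) * b ^ ((-(t : ℤ)) ^ 2 - s * (-(t : ℤ))) *
      p ^ ((s : ℤ) * (-(t : ℤ)))))
    (h' : QEq y (a ^ ((s : ℤ) ^ 2 - s * (t : ℤ)) * b ^ ((t : ℤ) ^ 2 - s * (t : ℤ)) *
      p ^ ((s : ℤ) * (t : ℤ)))) :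
    QEq (x * y) (a ^ (2 * s ^ 2) * b ^ (2 * t ^ 2)) := by
  have h1 := h.mul h'
  have e : a ^ ((s : ℤ) ^ 2 - s * (-(t : ℤ))) * b ^ ((-(t : ℤ)) ^ 2 - s * (-(t : ℤ))) *
      p ^ ((s : ℤ) * (-(t : ℤ))) * (a ^ ((s : ℤ) ^ 2 - s * (t : ℤ)) *
        b ^ ((t : ℤ) ^ 2 - s * (t : ℤ)) * p ^ ((s : ℤ) * (t : ℤ))) =
      a ^ (2 * s ^ 2) * b ^ (2 * t ^ 2) := by
    rw [mul_mul_mul_comm, mul_mul_mul_comm (a ^ _), ← zpow_add, ← zpow_add, ← zpow_add,
      ← zpow_natCast a, ← zpow_natCast b]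
    have e1 : (s : ℤ) * (-(t : ℤ)) + s * t = 0 := by ring
    have e2 : (s : ℤ) ^ 2 - s * (-(t : ℤ)) + ((s : ℤ) ^ 2 - s * (t : ℤ)) =
      ((2 * s ^ 2 : ℕ) : ℤ) := by push_cast; ring
    have e3 : (-(t : ℤ)) ^ 2 - s * (-(t : ℤ)) + ((t : ℤ) ^ 2 - s * (t : ℤ)) =
      ((2 * t ^ 2 : ℕ) : ℤ) := by push_cast; ring
    rw [e1, e2, e3, zpow_zero, mul_one]
  rwa [e] at h1

theorem C6_qle_div {J : Type} [Finite J] {n : J → Ω} {q : Ω} (hq : q ≠ 0)
    (h0 : (fun j => n j / q) ≠ 0) {m : VC κ Ω} (h : ∀ j, n j ∈ TT m) :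
    QLe (gen κ fun j => n j / q) m := by
  refine ⟨1, one_pos, (Units.mk0 q hq)⁻¹, ?_⟩
  rw [pow_one, pow_one]
  refine gen_vle_of_mem h0 fun j => ?_
  rw [mem_TT_cstC_mul]
  have : n j / q / (((Units.mk0 q hq)⁻¹ : Ωˣ) : Ω) = n j := by
    simp [hq]
  rw [this]
  exact h j

theorem C6_hb {x y a b B₁ B₂ : VC κ Ω} (s t c : ℕ)
    (h : QEq (x * y) (a ^ (2 * s ^ 2) * b ^ (2 * t ^ 2))) (hy : QLe 1 y) (ha : QLe a (B₁ ^ c))
    (hb : QLe b (B₂ ^ c)) : QLe x (B₁ ^ (2 * c * s ^ 2) * B₂ ^ (2 * c * t ^ 2)) := by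
  have h1 := (QEq.refl x).qle.mul hy
  rw [mul_one] at h1
  have h2 := (ha.pow (2 * s ^ 2)).mul (hb.pow (2 * t ^ 2))
  rw [← pow_mul, ← pow_mul] at h2
  have e1 : c * (2 * s ^ 2) = 2 * c * s ^ 2 := by ring
  have e2 : c * (2 * t ^ 2) = 2 * c * t ^ 2 := by ring
  rw [e1, e2] at h2
  exact (h1.trans h.qle).trans h2

/-- sections times the complementary monomials -/
theorem C6_sec {J : Type} [Finite J] {x a b : VC κ Ω} {n : J → Ω} (hn : n ≠ 0) {k s : ℕ} {g : Ωˣ}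
    (h : VLe ((x * gen κ n) ^ k) (cstC κ g * (a ^ (2 * s ^ 2) * b ^ (2 * 1 ^ 2)) ^ k)) (m e : ℕ)
    (t : Ω) {G : Ω} (hG : G ∈ TT (x ^ (k * m) * (pen κ t ^ e)⁻¹)) (j : J) (ε : Bool) :
    G * (n j ^ (k * m) * t ^ (if ε then e else 0)) / ((g ^ m : Ωˣ) : Ω) ∈
      TT (a ^ (2 * (k * m) * s ^ 2) * b ^ (2 * (k * m))) := by
  have h1 : t ^ (if ε then e else 0) ∈ TT (pen κ t ^ e) := by
    cases ε
    · have := V6_pow_mem (mem_TT_gen (κ := κ) (V5_pen_ne t) 0) e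
      simpa [pen] using this
    · have := V6_pow_mem (mem_TT_gen (κ := κ) (V5_pen_ne t) 1) e
      simpa [pen] using this
  have h2 := mul_mem_TT hG (mul_mem_TT (V6_pow_mem (mem_TT_gen (κ := κ) hn j) (k * m)) h1)
  have e1 : x ^ (k * m) * (pen κ t ^ e)⁻¹ * (gen κ n ^ (k * m) * pen κ t ^ e) =
      ((x * gen κ n) ^ k) ^ m := by
    rw [mul_mul_mul_comm, inv_mul_cancel, mul_one, ← mul_pow, pow_mul]
  rw [e1] at h2
  have h3 := (h.pow m).TT_le h2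
  have e2 : (cstC κ g * (a ^ (2 * s ^ 2) * b ^ (2 * 1 ^ 2)) ^ k) ^ m =
      cstC κ (g ^ m) * (a ^ (2 * (k * m) * s ^ 2) * b ^ (2 * (k * m))) := by
    rw [mul_pow, V7_cstC_pow, ← pow_mul, mul_pow, ← pow_mul, ← pow_mul]
    have f1 : 2 * s ^ 2 * (k * m) = 2 * (k * m) * s ^ 2 := by ring
    have f2 : 2 * 1 ^ 2 * (k * m) = 2 * (k * m) := by ring
    rw [f1, f2]
  rw [e2, mem_TT_cstC_mul] at h3
  exact h3

theorem C6_map_mul (W : Submodule κ Ω) [Module.Finite κ W] {c : Ω} (hc : c ≠ 0) :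
    ∃ W' : Submodule κ Ω, Module.Finite κ W' ∧ Module.finrank κ W' = Module.finrank κ W ∧
      ∀ g ∈ W', ∃ g₀ ∈ W, g = c * g₀ := by
  have hi : Function.Injective (LinearMap.mulLeft κ c) := fun x y h => mul_left_cancel₀ hc h
  refine ⟨W.map (LinearMap.mulLeft κ c), inferInstance,
    (Submodule.equivMapOfInjective _ hi W).finrank_eq.symm, ?_⟩
  rintro _ ⟨g₀, hg, rfl⟩
  exact ⟨g₀, hg, rfl⟩

theorem C6_span_scale {A : Type} (f f' : A → Ω) (c : Ω) (h : ∀ i, c * f i = f' i) {x : Ω}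
    (hx : x ∈ Submodule.span κ (Set.range f)) : c * x ∈ Submodule.span κ (Set.range f') := by
  induction hx using Submodule.span_induction with
  | mem x hx =>
    obtain ⟨i, rfl⟩ := hx
    exact Submodule.subset_span ⟨i, (h i).symm⟩
  | zero => simp
  | add x y _ _ hx hy => rw [mul_add]; exact Submodule.add_mem _ hx hy
  | smul a x _ hx => rw [mul_smul_comm]; exact Submodule.smul_mem _ _ hx

end

end Pool.Agent.E6b
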