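import Pool.Agent.E6b.C5
import Pool.Agent.E6b.C6Aux

open scoped NNReal TensorProduct IntermediateField BigOperators Classical Topology
open Filter

namespace Pool.Agent.E6b

variable {F : Type} [Field F] [Algebra Qb F] [IsFF Qb F] {o : Place Qb F} {d : ℕ}

/-- the vectors `P (inr j) / q` in the function field of the product -/
noncomputable def xK1 {r₁ r₂ : ℕ} {I J : Type} (M₁ : Mdl Qb r₁ (I ⊕ J)) (M₂ : Mdl Qb r₂ (I ⊕ J))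
    (j : J) : TK M₁ M₂ :=
  algebraMap _ _ (e1B M₁ M₂ (M₁.P (.inr j))) / algebraMap _ _ (e1B M₁ M₂ (Polynomial.C M₁.q))

noncomputable def xK2 {r₁ r₂ : ℕ} {I J : Type} (M₁ : Mdl Qb r₁ (I ⊕ J)) (M₂ : Mdl Qb r₂ (I ⊕ J))
    (j : J) : TK M₁ M₂ :=
  algebraMap _ _ (e2B M₁ M₂ (M₂.P (.inr j))) / algebraMap _ _ (e2B M₁ M₂ (Polynomial.C M₂.q))

section
variable {r₁ r₂ : ℕ} {ι : Type} (M₁ : Mdl Qb r₁ ι) (M₂ : Mdl Qb r₂ ι)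

theorem C6_e1K (p : PP Qb r₁) : algebraMap _ (TK M₁ M₂) (e1B M₁ M₂ p) =
    ev2 (fun k => uK M₁ M₂ (.inl k)) (algebraMap _ (TK M₁ M₂) (x1B M₁ M₂)) p :=
  map_ev2 (IsScalarTower.toAlgHom Qb (TB M₁ M₂) (TK M₁ M₂)) _ _ p

theorem C6_e2K (p : PP Qb r₂) : algebraMap _ (TK M₁ M₂) (e2B M₁ M₂ p) =
    ev2 (fun k => uK M₁ M₂ (.inr k)) (algebraMap _ (TK M₁ M₂) (x2B M₁ M₂)) p :=
  map_ev2 (IsScalarTower.toAlgHom Qb (TB M₁ M₂) (TK M₁ M₂)) _ _ p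

theorem C6_KL (b : TB M₁ M₂) : algebraMap (TK M₁ M₂) (TL M₁ M₂) (algebraMap _ (TK M₁ M₂) b) =
    algebraMap _ (TL M₁ M₂) b := (IsScalarTower.algebraMap_apply _ _ _ b).symm

theorem C6_e1L (p : PP Qb r₁) :
    algebraMap (TK M₁ M₂) (TL M₁ M₂) (algebraMap _ (TK M₁ M₂) (e1B M₁ M₂ p)) =
      ev2 (fun k => uL M₁ M₂ (.inl k)) (x1L M₁ M₂) p := by
  rw [C6_KL]
  exact map_ev2 (IsScalarTower.toAlgHom Qb (TB M₁ M₂) (TL M₁ M₂)) _ _ p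

theorem C6_e2L (p : PP Qb r₂) :
    algebraMap (TK M₁ M₂) (TL M₁ M₂) (algebraMap _ (TK M₁ M₂) (e2B M₁ M₂ p)) =
      ev2 (fun k => uL M₁ M₂ (.inr k)) (x2L M₁ M₂) p := by
  rw [C6_KL]
  exact map_ev2 (IsScalarTower.toAlgHom Qb (TB M₁ M₂) (TL M₁ M₂)) _ _ p

theorem C6_q1_ne : algebraMap _ (TK M₁ M₂) (e1B M₁ M₂ (Polynomial.C M₁.q)) ≠ 0 := by
  intro h
  have h1 := C6_e1L M₁ M₂ (Polynomial.C M₁.q)
  rw [h, map_zero, C6_ev2_C] at h1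
  exact (isPt1_TL M₁ M₂).2 h1.symm

theorem C6_q2_ne : algebraMap _ (TK M₁ M₂) (e2B M₁ M₂ (Polynomial.C M₂.q)) ≠ 0 := by
  intro h
  have h1 := C6_e2L M₁ M₂ (Polynomial.C M₂.q)
  rw [h, map_zero, C6_ev2_C] at h1
  exact (isPt2_TL M₁ M₂).2 h1.symm

theorem C6_gen_xp : IntermediateField.adjoin Qb
    (Set.range (fun l => algebraMap _ (TK M₁ M₂) (e1B M₁ M₂ (xp Qb r₁ l))) ∪
      Set.range (fun l => algebraMap _ (TK M₁ M₂) (e2B M₁ M₂ (xp Qb r₂ l)))) = ⊤ := by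
  rw [eq_top_iff, ← adjoin_TK M₁ M₂]
  refine IntermediateField.adjoin.mono _ _ _ (Set.union_subset ?_ ?_)
  · rintro _ ⟨k | k, rfl⟩
    · refine Or.inl ⟨some (some k), ?_⟩
      show algebraMap _ (TK M₁ M₂) (e1B M₁ M₂ (Polynomial.C (MvPolynomial.X k))) = _
      rw [C6_e1K, C6_ev2_C, MvPolynomial.aeval_X]
    · refine Or.inr ⟨some (some k), ?_⟩
      show algebraMap _ (TK M₁ M₂) (e2B M₁ M₂ (Polynomial.C (MvPolynomial.X k))) = _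
      rw [C6_e2K, C6_ev2_C, MvPolynomial.aeval_X]
  · rintro _ (rfl | rfl)
    · refine Or.inl ⟨some none, ?_⟩
      show algebraMap _ (TK M₁ M₂) (e1B M₁ M₂ Polynomial.X) = _
      rw [C6_e1K, C6_ev2_X]
    · refine Or.inr ⟨some none, ?_⟩
      show algebraMap _ (TK M₁ M₂) (e2B M₁ M₂ Polynomial.X) = _
      rw [C6_e2K, C6_ev2_X]

end

theorem C6_x1 {r₁ r₂ : ℕ} {I J : Type} (M₁ : Mdl Qb r₁ (I ⊕ J)) (M₂ : Mdl Qb r₂ (I ⊕ J)) (j : J) :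
    M₁.val (fun k => uL M₁ M₂ (.inl k)) (x1L M₁ M₂) (.inr j) =
      algebraMap (TK M₁ M₂) (TL M₁ M₂) (xK1 M₁ M₂ j) := by
  rw [xK1, map_div₀, C6_e1L, C6_e1L, C6_ev2_C, Mdl.val]

theorem C6_x2 {r₁ r₂ : ℕ} {I J : Type} (M₁ : Mdl Qb r₁ (I ⊕ J)) (M₂ : Mdl Qb r₂ (I ⊕ J)) (j : J) :
    M₂.val (fun k => uL M₁ M₂ (.inr k)) (x2L M₁ M₂) (.inr j) =
      algebraMap (TK M₁ M₂) (TL M₁ M₂) (xK2 M₁ M₂ j) := by
  rw [xK2, map_div₀, C6_e2L, C6_e2L, C6_ev2_C, Mdl.val]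

theorem C6_mon {r₁ r₂ : ℕ} {I J : Type} (M₁ : Mdl Qb r₁ (I ⊕ J)) (M₂ : Mdl Qb r₂ (I ⊕ J))
    {A₁ A₂ c : ℕ} (μ : Mon J r₁ A₁ c × Mon J r₂ A₂ c) :
    (algebraMap _ (TK M₁ M₂) (e1B M₁ M₂ (Polynomial.C M₁.q)) ^ A₁ *
      algebraMap _ (TK M₁ M₂) (e2B M₁ M₂ (Polynomial.C M₂.q)) ^ A₂) *
      (((∏ i, xK1 M₁ M₂ (μ.1.1 i)) *
          ∏ i, algebraMap _ (TK M₁ M₂) (e1B M₁ M₂ (xp Qb r₁ (μ.1.2 i)))) *
        ((∏ i, xK2 M₁ M₂ (μ.2.1 i)) *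
          ∏ i, algebraMap _ (TK M₁ M₂) (e2B M₁ M₂ (xp Qb r₂ (μ.2.2 i))))) =
      algebraMap _ (TK M₁ M₂) (e1B M₁ M₂ (M₁.mon μ.1) * e2B M₁ M₂ (M₂.mon μ.2)) := by
  have h1 := pow_ne_zero A₁ (C6_q1_ne M₁ M₂)
  have h2 := pow_ne_zero A₂ (C6_q2_ne M₁ M₂)
  simp only [Mdl.mon, xK1, xK2, map_mul, map_prod, Finset.prod_div_distrib, Finset.prod_const,
    Finset.card_univ, Fintype.card_fin]
  field_simp

theorem C6_ne {J K L : Type} [Field K] [Field L] [Algebra K L] {y : J → L} {x : J → K}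
    (hy : y ≠ 0) (h : Prp y fun j => algebraMap K L (x j)) : x ≠ 0 := by
  rintro rfl
  obtain ⟨μ, -, hμ⟩ := h
  exact hy (funext fun j => by simp [hμ j])

/-- elements of bounded degree are sections of a power of the box class -/
theorem e1B_mem_TT {r₁ r₂ Δ : ℕ} {ι : Type} (M₁ : Mdl Qb r₁ ι) (M₂ : Mdl Qb r₂ ι)
    (h : CxP Δ M₁.m) {p : PP Qb r₁} (hp : CxP Δ p) : algebraMap _ (TK M₁ M₂) (e1B M₁ M₂ p) ∈
      TT ((∏ k, pen Qb (uK M₁ M₂ (.inl k))) ^ (Δ + Δ * Δ)) := by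
  rw [C6_e1K]
  exact C6_ev2_mem _ _ M₁.monic h (by rw [← C6_e1K, e1B_m, map_zero]) hp

theorem e2B_mem_TT {r₁ r₂ Δ : ℕ} {ι : Type} (M₁ : Mdl Qb r₁ ι) (M₂ : Mdl Qb r₂ ι)
    (h : CxP Δ M₂.m) {p : PP Qb r₂} (hp : CxP Δ p) : algebraMap _ (TK M₁ M₂) (e2B M₁ M₂ p) ∈
      TT ((∏ k, pen Qb (uK M₁ M₂ (.inr k))) ^ (Δ + Δ * Δ)) := by
  rw [C6_e2K]
  exact C6_ev2_mem _ _ M₂.monic h (by rw [← C6_e2K, e2B_m, map_zero]) hp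

/-- Many sections `G`; multiplied by `n j ^ a * u ^ (0 or b)` and a fixed factor they become
combinations of monomials. -/
theorem exists_sections (r₁ r₂ Δ : ℕ) : ∃ E : ℕ, 0 < E ∧
    ∀ (M₁ : Mdl Qb r₁ (IX o d)) (M₂ : Mdl Qb r₂ (IX o d)), M₁.Cx Δ → M₂.Cx Δ →
    ∀ G : Gen M₁ M₂, Function.Injective (Sum.elim G.z₁ G.z₂) →
      ell (dz (Sum.elim G.z₁ G.z₂)) = 1 → ∀ (k₀ : Fin r₁) (s : ℕ), 0 < s →
      ∀ n : JJ o × JJ o → TB M₁ M₂,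
        Prp (Psym ((s : ℤ) • clz G.z₁ + (1 : ℤ) • clz G.z₂))
          (fun j => algebraMap _ (TL M₁ M₂) (n j)) →
        ∃ k c : ℕ, 0 < k ∧ ∀ᶠ D : ℕ in atTop, ∃ W : Submodule Qb (TK M₁ M₂), Module.Finite Qb W ∧
          (s : ℝ) ^ (2 * r₁) * ((k * D * E : ℕ) : ℝ) ^ (r₁ + r₂) / (4 * (r₁ + r₂).factorial) ≤
            Module.finrank Qb W ∧
          ∀ g ∈ W, ∀ (j : JJ o × JJ o) (ε : Bool),
            g * algebraMap _ (TK M₁ M₂) (n j ^ (k * D * E) *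
              uB M₁ M₂ (.inl k₀) ^ (if ε then k * D * s ^ 2 else 0)) ∈
            Submodule.span Qb (Set.range fun μ : Mon (JJ o × JJ o) r₁ (2 * (k * D * E) * s ^ 2 + c) c ×
                Mon (JJ o × JJ o) r₂ (2 * (k * D * E) + c) c =>
              algebraMap _ (TK M₁ M₂) (e1B M₁ M₂ (M₁.mon μ.1) * e2B M₁ M₂ (M₂.mon μ.2))) := by
  obtain ⟨E, hE, H⟩ := vol_main r₁ r₂ (Δ * Δ) (2 * (Δ + Δ * Δ))
  refine ⟨E, hE, fun M₁ M₂ c₁ c₂ G hi hl k₀ s hs n hn => ?_⟩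
  have p1 : Prp (Psym (clz G.z₁)) fun j => algebraMap (TK M₁ M₂) (TL M₁ M₂) (xK1 M₁ M₂ j) := by
    have := G.prp₁
    simp only [C6_x1] at this
    exact this
  have p2 : Prp (Psym (clz G.z₂)) fun j => algebraMap (TK M₁ M₂) (TL M₁ M₂) (xK2 M₁ M₂ j) := by
    have := G.prp₂
    simp only [C6_x2] at this
    exact this
  have o1 : ∃ j, xK1 M₁ M₂ j = 1 := by
    obtain ⟨j, hj⟩ := G.one₁
    rw [C6_x1] at hj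
    exact ⟨j, (algebraMap (TK M₁ M₂) (TL M₁ M₂)).injective (by rw [hj, map_one])⟩
  have o2 : ∃ j, xK2 M₁ M₂ j = 1 := by
    obtain ⟨j, hj⟩ := G.one₂
    rw [C6_x2] at hj
    exact ⟨j, (algebraMap (TK M₁ M₂) (TL M₁ M₂)).injective (by rw [hj, map_one])⟩
  have n1 := C6_ne (Psym_ne_zero _) p1
  have n2 := C6_ne (Psym_ne_zero _) p2
  obtain ⟨y, hy⟩ := (G.ratC₁.add G.ratC₂).exists_prp
  choose X hX using fun s t : ℤ => ((G.ratC₁.zsmul s).add (G.ratC₂.zsmul t)).exists_prp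
  have hQ := fun s t : ℤ => quad_val G.ratC₁ G.ratC₂ s t p1 p2 hy (hX s t)
  have b1 : QLe (gen Qb (xK1 M₁ M₂)) ((∏ k, pen Qb (uK M₁ M₂ (.inl k))) ^ (Δ + Δ * Δ)) :=
    C6_qle_div (C6_q1_ne M₁ M₂) n1 fun j => e1B_mem_TT M₁ M₂ c₁.1 (c₁.2.2.1 _)
  have b2 : QLe (gen Qb (xK2 M₁ M₂)) ((∏ k, pen Qb (uK M₁ M₂ (.inr k))) ^ (Δ + Δ * Δ)) :=
    C6_qle_div (C6_q2_ne M₁ M₂) n2 fun j => e2B_mem_TT M₁ M₂ c₂.1 (c₂.2.2.1 _)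
  obtain ⟨k, hk, hD⟩ := H (uK M₁ M₂) (algebraicIndependent_uK M₁ M₂)
    ((finrank_TK_le M₁ M₂).trans (Nat.mul_le_mul c₁.1.1 c₂.1.1)) (xK1 M₁ M₂) (xK2 M₁ M₂) y n1 n2
    (C6_ne (Psym_ne_zero _) hy) (fun s t => X s (-(t : ℤ)))
    (fun s t => C6_ne (Psym_ne_zero _) (hX _ _)) (fun s t _ _ => C6_q1 s t (hQ _ _))
    (fun s t _ _ => C6_hb s t _ (C6_q2 s t (hQ _ _) (hQ _ _))
      (qle_one_gen (C6_ne (Psym_ne_zero _) (hX _ _))) b1 b2)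
    (G.pos hi hl (by
      have := hX ((1 : ℕ) : ℤ) (-((1 : ℕ) : ℤ))
      rwa [Nat.cast_one, one_zsmul, neg_one_zsmul, ← sub_eq_add_neg] at this)) k₀ s 1 hs one_pos
  have pn : Prp (Psym ((s : ℤ) • clz G.z₁ + ((1 : ℕ) : ℤ) • clz G.z₂)) fun j =>
      algebraMap (TK M₁ M₂) (TL M₁ M₂) (algebraMap _ (TK M₁ M₂) (n j)) := by
    simp only [C6_KL]
    exact hn
  obtain ⟨k', hk', g, hg, -⟩ := C6_q2 s 1 (hQ _ _) (quad_val G.ratC₁ G.ratC₂ _ _ p1 p2 hy pn)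
  obtain ⟨γ, c, hγ, hc⟩ := C6_cond (xK1 M₁ M₂) (xK2 M₁ M₂)
    (fun l => algebraMap _ (TK M₁ M₂) (e1B M₁ M₂ (xp Qb r₁ l)))
    (fun l => algebraMap _ (TK M₁ M₂) (e2B M₁ M₂ (xp Qb r₂ l))) o1 o2
    ⟨none, by show algebraMap _ (TK M₁ M₂) (e1B M₁ M₂ 1) = 1; rw [map_one, map_one]⟩
    ⟨none, by show algebraMap _ (TK M₁ M₂) (e2B M₁ M₂ 1) = 1; rw [map_one, map_one]⟩
    (C6_gen_xp M₁ M₂)
  refine ⟨k * k', c, Nat.mul_pos hk hk', ?_⟩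
  filter_upwards [(V6_tend hk').eventually hD] with D hD
  obtain ⟨hf, hr⟩ := hD
  have e0 : k * (k' * D) = k * k' * D := (mul_assoc _ _ _).symm
  have e1 : k * k' * D * E = k' * (k * D * E) := by ring
  rw [e0] at hf hr
  rw [Nat.cast_one, one_pow, mul_one] at hr
  obtain ⟨W, hW, hW1, hW2⟩ := C6_map_mul (TT (gen Qb (X s (-((1 : ℕ) : ℤ))) ^ (k * k' * D * E) *
    (pen Qb (uK M₁ M₂ (.inl k₀)) ^ (k * k' * D * s ^ 2))⁻¹))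
    (c := (algebraMap _ (TK M₁ M₂) (e1B M₁ M₂ (Polynomial.C M₁.q)) ^
        (2 * (k * k' * D * E) * s ^ 2 + c) *
      algebraMap _ (TK M₁ M₂) (e2B M₁ M₂ (Polynomial.C M₂.q)) ^ (2 * (k * k' * D * E) + c)) *
      (γ / ((g ^ (k * D * E) : (TK M₁ M₂)ˣ) : TK M₁ M₂)))
    (mul_ne_zero (mul_ne_zero (pow_ne_zero _ (C6_q1_ne M₁ M₂)) (pow_ne_zero _ (C6_q2_ne M₁ M₂)))
      (div_ne_zero hγ (Units.ne_zero _)))
  refine ⟨W, hW, by rw [hW1]; exact hr, fun w hw j ε => ?_⟩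
  obtain ⟨w₀, hw₀, rfl⟩ := hW2 w hw
  have h1 := C6_sec (C6_ne (Psym_ne_zero _) pn) hg (k * D * E) (k * k' * D * s ^ 2)
    (uK M₁ M₂ (.inl k₀)) (G := w₀) (by rw [← e1]; exact hw₀) j ε
  rw [← e1] at h1
  have h2 := C6_span_scale _ _ _ (C6_mon M₁ M₂) (hc _ _ _ h1)
  convert h2 using 1
  rw [map_mul, map_pow, map_pow, uK]
  ring

/-- upper bound for the number of independent monomials -/
theorem card_mon_le (r₁ r₂ Δ : ℕ) : ∃ C : ℕ, ∀ {I J : Type} (M₁ : Mdl Qb r₁ (I ⊕ J))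
    (M₂ : Mdl Qb r₂ (I ⊕ J)), M₁.Cx Δ → M₂.Cx Δ → ∀ {A₁ A₂ c N : ℕ} (μ₁ : Fin N → Mon J r₁ A₁ c)
      (μ₂ : Fin N → Mon J r₂ A₂ c),
      (LinearIndependent Qb fun i => e1B M₁ M₂ (M₁.mon (μ₁ i)) * e2B M₁ M₂ (M₂.mon (μ₂ i))) →
      N ≤ C * (A₁ + c + 1) ^ r₁ * (A₂ + c + 1) ^ r₂ := by
  refine ⟨Δ * Δ * ((Δ + 1 + (Δ + 1) * (Δ + 1) + 1) ^ r₁ * (Δ + 1 + (Δ + 1) * (Δ + 1) + 1) ^ r₂),
    fun M₁ M₂ c₁ c₂ A₁ A₂ c N μ₁ μ₂ hli => ?_⟩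
  generalize hB : Δ + 1 + (Δ + 1) * (Δ + 1) = B
  obtain ⟨hf, hr⟩ := ub (uK M₁ M₂) (algebraicIndependent_uK M₁ M₂)
    (Sum.elim (fun _ => B * (A₁ + c)) fun _ => B * (A₂ + c))
  have hm : ∀ i, algebraMap _ (TK M₁ M₂) (e1B M₁ M₂ (M₁.mon (μ₁ i)) * e2B M₁ M₂ (M₂.mon (μ₂ i))) ∈
      TT (∏ k, pen Qb (uK M₁ M₂ k) ^
        (Sum.elim (fun _ => B * (A₁ + c)) (fun _ => B * (A₂ + c)) k : ℕ)) := by
    intro i
    rw [Fintype.prod_sum_type]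
    simp only [Sum.elim_inl, Sum.elim_inr, Mdl.mon, map_mul, map_prod]
    rw [Finset.prod_pow, Finset.prod_pow, pow_mul, pow_mul, pow_add, pow_add, ← hB]
    have l : Δ ≤ Δ + 1 := Nat.le_succ _
    refine mul_mem_TT (mul_mem_TT (C6_prod_mem fun _ => ?_) (C6_prod_mem fun _ => ?_))
      (mul_mem_TT (C6_prod_mem fun _ => ?_) (C6_prod_mem fun _ => ?_))
    · exact e1B_mem_TT M₁ M₂ (C6_cxP_mono c₁.1 l) (C6_cxP_mono (c₁.2.2.1 _) l)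
    · exact e1B_mem_TT M₁ M₂ (C6_cxP_mono c₁.1 l) (C6_cxP_xp (Nat.le_add_left _ _) _)
    · exact e2B_mem_TT M₁ M₂ (C6_cxP_mono c₂.1 l) (C6_cxP_mono (c₂.2.2.1 _) l)
    · exact e2B_mem_TT M₁ M₂ (C6_cxP_mono c₂.1 l) (C6_cxP_xp (Nat.le_add_left _ _) _)
  have h1 := hli.map' (IsScalarTower.toAlgHom Qb (TB M₁ M₂) (TK M₁ M₂)).toLinearMap
    (LinearMap.ker_eq_bot.mpr (IsFractionRing.injective (TB M₁ M₂) (TK M₁ M₂)))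
  have h2 : LinearIndependent Qb fun i => (⟨_, hm i⟩ : TT (∏ k, pen Qb (uK M₁ M₂ k) ^
      (Sum.elim (fun _ => B * (A₁ + c)) (fun _ => B * (A₂ + c)) k : ℕ))) :=
    LinearIndependent.of_comp (Submodule.subtype _) h1
  have h3 := h2.fintype_card_le_finrank
  rw [Fintype.card_fin] at h3
  have e : ∏ k : Fin r₁ ⊕ Fin r₂,
      ((Sum.elim (fun _ => B * (A₁ + c)) (fun _ => B * (A₂ + c)) k : ℕ) + 1) =
      (B * (A₁ + c) + 1) ^ r₁ * (B * (A₂ + c) + 1) ^ r₂ := by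
    rw [Fintype.prod_sum_type]
    simp only [Sum.elim_inl, Sum.elim_inr, Finset.prod_const, Finset.card_univ, Fintype.card_fin]
  rw [e] at hr
  have h4 := (finrank_TK_le M₁ M₂).trans (Nat.mul_le_mul c₁.1.1 c₂.1.1)
  have h5 := Nat.mul_le_mul h4 (Nat.mul_le_mul (V5_pow_le B (A₁ + c) r₁) (V5_pow_le B (A₂ + c) r₂))
  refine h3.trans (hr.trans (h5.trans (le_of_eq ?_)))
  ring

end Pool.Agent.E6b
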