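import Pool.Agent.E6b.H2
import Pool.Agent.E6b.NT

open scoped NNReal TensorProduct IntermediateField BigOperators Classical Topology
open Filter

namespace Pool.Agent.E6b

/-- the linear condition attached to a pair of indices -/
noncomputable def C7row {X : Type} {N : ℕ} (β : Fin N → Qb) (ρ : X → Qb) (x x' : X) :
    X × Fin N → Qb := fun p =>
  (if p.1 = x then β p.2 * ρ x' else 0) - (if p.1 = x' then β p.2 * ρ x else 0)

theorem C7row_sum {X : Type} [Fintype X] {N : ℕ} (β : Fin N → Qb) (ρ : X → Qb) (x x' : X)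
    (w : X × Fin N → Qb) : ∑ p, C7row β ρ x x' p * w p =
      (∑ i, w (x, i) * β i) * ρ x' - (∑ i, w (x', i) * β i) * ρ x := by
  have h : ∀ (y : X) (c : Qb),
      ∑ p : X × Fin N, (if p.1 = y then β p.2 * c else 0) * w p = (∑ i, w (y, i) * β i) * c := by
    intro y c
    rw [Fintype.sum_prod_type, Finset.sum_eq_single y, Finset.sum_mul]
    · exact Finset.sum_congr rfl fun i _ => by rw [if_pos rfl]; ring
    · intro z _ hz
      exact Finset.sum_eq_zero fun i _ => by rw [if_neg hz, zero_mul]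
    · intro hy
      exact absurd (Finset.mem_univ y) hy
  simp only [C7row, sub_mul, Finset.sum_sub_distrib, h]

theorem C7_hv_zero {ι : Type} [Fintype ι] {x : ι → Qb} (h : ∀ i, x i = 0) : hv x = 0 :=
  htSpec.zero _ fun a ha => by
    obtain ⟨i, -, rfl⟩ := Finset.mem_image.1 ha
    exact h i

theorem C7_hv_le {ι ι' : Type} [Fintype ι] [Fintype ι'] {x : ι → Qb} {y : ι' → Qb}
    (h : ∀ p v, IsPl p v → ∀ i, v (x i) ≤ nv v y) : hv x ≤ hv y :=
  H2_le fun p v hv => nv_le v (nrm_nonneg v _) (h p v hv)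

theorem C7_segre_le {ι ι' : Type} [Fintype ι] [Fintype ι'] (x : ι → Qb) (y : ι' → Qb) :
    hv (fun p : ι × ι' => x p.1 * y p.2) ≤ hv x + hv y := by
  by_cases hx : x = 0
  · rw [C7_hv_zero fun p => by simp [hx]]
    exact add_nonneg (hv_nonneg x) (hv_nonneg y)
  by_cases hy : y = 0
  · rw [C7_hv_zero fun p => by simp [hy]]
    exact add_nonneg (hv_nonneg x) (hv_nonneg y)
  exact (hv_segre hx hy).le

theorem C7row_hv {X : Type} [Fintype X] {N : ℕ} (β : Fin N → Qb) (ρ : X → Qb) (x x' : X) :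
    hv (C7row β ρ x x') ≤ hv β + hv ρ := by
  refine le_trans (C7_hv_le fun p v _ i => ?_) (C7_segre_le β ρ)
  have h0 : v 0 ≤ nv v fun p : Fin N × X => β p.1 * ρ p.2 := by
    rw [map_zero]; exact nrm_nonneg v _
  rw [C7row]
  by_cases h1 : i.1 = x
  · by_cases h2 : i.1 = x'
    · rw [if_pos h1, if_pos h2, ← h1, ← h2, sub_self]
      exact h0
    · rw [if_pos h1, if_neg h2, sub_zero]
      exact le_nv v (fun p : Fin N × X => β p.1 * ρ p.2) (i.2, x')
  · by_cases h2 : i.1 = x'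
    · rw [if_neg h1, if_pos h2, zero_sub, AbsoluteValue.map_neg]
      exact le_nv v (fun p : Fin N × X => β p.1 * ρ p.2) (i.2, x)
    · rw [if_neg h1, if_neg h2, sub_zero]
      exact h0

theorem C7row_gal {X : Type} {N : ℕ} {β β' : Fin N → Qb} {ρ ρ' : X → Qb} (σ : Qb ≃ₐ[ℚ] Qb)
    (hβ : ∀ i, β' i = σ (β i)) (hρ : Prp ρ' fun x => σ (ρ x)) (x x' : X) :
    Prp (C7row β' ρ' x x') fun p => σ (C7row β ρ x x' p) := by
  obtain ⟨μ, hμ, h⟩ := hρ
  refine ⟨μ, hμ, fun p => ?_⟩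
  simp only [C7row, hβ, h, map_sub, apply_ite σ, map_mul, map_zero]
  split_ifs <;> ring

/-- the twisted power of a vector -/
noncomputable def C7rho {J : Type} (ψ : J → Qb) (ζ : Qb) (a b : ℕ) (x : J × Bool) : Qb :=
  ψ x.1 ^ a * ζ ^ (if x.2 then b else 0)

theorem C7rho_hv {J : Type} [Fintype J] (ψ : J → Qb) {ζ : Qb} (hζ : ∃ n : ℕ, 0 < n ∧ ζ ^ n = 1)
    (a b : ℕ) : hv (C7rho ψ ζ a b) ≤ a * hv ψ := by
  obtain ⟨n, hn, h⟩ := hζ
  rw [← hv_pow]
  refine C7_hv_le fun p v hp x => ?_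
  rw [C7rho, map_mul, map_pow v ζ, hp.rootOfUnity hn h, one_pow, mul_one]
  exact le_nv v (fun j => ψ j ^ a) x.1

theorem C7rho_gal {J : Type} {ψ ψ' : J → Qb} (σ : Qb ≃ₐ[ℚ] Qb) (h : Prp ψ' fun j => σ (ψ j))
    (ζ : Qb) (a b : ℕ) : Prp (C7rho ψ' (σ ζ) a b) fun x => σ (C7rho ψ ζ a b x) := by
  obtain ⟨μ, hμ, h⟩ := h
  refine ⟨μ ^ a, pow_ne_zero _ hμ, fun x => ?_⟩
  simp only [C7rho, h, map_mul, map_pow, mul_pow, mul_assoc]

theorem C7_psd {G : Type} [AddCommGroup G] (B : G →+ G →+ ℝ) (hs : ∀ a b, B a b = B b a)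
    (hp : ∀ a, 0 ≤ B a a) (s : ℕ) (a b : G) :
    B ((s : ℤ) • a + (1 : ℤ) • b) ((s : ℤ) • a + (1 : ℤ) • b) ≤
      2 * (s : ℝ) ^ 2 * B a a + 2 * B b b := by
  have h := hp ((s : ℤ) • a - b)
  simp only [map_add, map_sub, map_zsmul, AddMonoidHom.add_apply, AddMonoidHom.sub_apply,
    AddMonoidHom.zsmul_apply, one_smul, zsmul_eq_mul, Int.cast_natCast, hs b a] at h ⊢
  nlinarith [h]

theorem C7_exp (C : ℝ) (r : ℕ) : ∀ᶠ D : ℕ in atTop, Real.log (C * (D : ℝ) ^ r + 1) ≤ D := by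
  have h := (Real.tendsto_exp_div_pow_atTop r).comp tendsto_natCast_atTop_atTop
  filter_upwards [h.eventually_ge_atTop (|C| + 1), eventually_ge_atTop 1] with D h1 h2
  have h3 : (1 : ℝ) ≤ (D : ℝ) ^ r := one_le_pow₀ (by exact_mod_cast h2)
  have h4 : (|C| + 1) * (D : ℝ) ^ r ≤ Real.exp D := (le_div_iff₀ (by positivity)).1 h1
  have h5 : |C * (D : ℝ) ^ r + 1| ≤ Real.exp D := by
    refine (abs_add_le _ _).trans ?_
    rw [abs_mul, abs_of_nonneg (by positivity : (0 : ℝ) ≤ (D : ℝ) ^ r), abs_one]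
    nlinarith
  rw [← Real.log_abs]
  rcases (abs_nonneg (C * (D : ℝ) ^ r + 1)).eq_or_lt with h6 | h6
  · rw [← h6, Real.log_zero]
    positivity
  · exact (Real.log_le_iff_le_exp h6).2 h5

/-- a finite family has an independent spanning subfamily indexed by `Fin N` -/
theorem C7_indep {K V ι : Type} [Field K] [AddCommGroup V] [Module K V] [Finite ι] (v : ι → V) :
    ∃ (N : ℕ) (μ : Fin N → ι), LinearIndependent K (fun i => v (μ i)) ∧
      ∀ g ∈ Submodule.span K (Set.range v), ∃ w : Fin N → K, ∑ i, w i • v (μ i) = g := by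
  obtain ⟨κ, a, ha, hsp, hli⟩ := exists_linearIndependent' K v
  have : Finite κ := Finite.of_injective a ha
  obtain ⟨N, ⟨e⟩⟩ := Finite.exists_equiv_fin κ
  refine ⟨N, fun i => a (e.symm i), hli.comp e.symm e.symm.injective, fun g hg => ?_⟩
  rw [← hsp, ← e.symm.surjective.range_comp (v ∘ a)] at hg
  exact (Submodule.mem_span_range_iff_exists_fun K).1 hg

theorem C7_count {C₁ r₁ r₂ a s c N : ℕ} (hs : 0 < s) (hc : 2 * c + 1 ≤ a)
    (h : N ≤ C₁ * (2 * a * s ^ 2 + c + c + 1) ^ r₁ * (2 * a + c + c + 1) ^ r₂) :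
    N ≤ C₁ * 3 ^ (r₁ + r₂) * (s ^ (2 * r₁) * a ^ (r₁ + r₂)) := by
  have h1 : a ≤ a * s ^ 2 := Nat.le_mul_of_pos_right _ (by positivity)
  have h2 : 2 * a * s ^ 2 + c + c + 1 ≤ 3 * a * s ^ 2 := by nlinarith
  have h3 : 2 * a + c + c + 1 ≤ 3 * a := by omega
  refine h.trans ((Nat.mul_le_mul (Nat.mul_le_mul_left _ (Nat.pow_le_pow_left h2 _))
    (Nat.pow_le_pow_left h3 _)).trans (le_of_eq ?_))
  rw [mul_pow, mul_pow, mul_pow, ← pow_mul]
  ring

end Pool.Agent.E6b
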