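import Pool.Agent.E6b.C6
import Pool.Agent.E6b.C3
import Pool.Agent.E6b.C7Aux

open scoped NNReal TensorProduct IntermediateField BigOperators Classical Topology
open Filter

namespace Pool.Agent.E6b

section gal

variable (σ : Qb ≃ₐ[ℚ] Qb) {r : ℕ}

theorem C7_aeval_gal (u : Fin r → Qb) {q : MvPolynomial (Fin r) Qb} (h : ∀ a ∈ q.coeffs, σ a = a) :
    MvPolynomial.aeval (fun k => σ (u k)) q = σ (MvPolynomial.aeval u q) := by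
  rw [MvPolynomial.aeval_def, MvPolynomial.aeval_def, MvPolynomial.eval₂_eq, MvPolynomial.eval₂_eq,
    map_sum]
  refine Finset.sum_congr rfl fun m hm => ?_
  rw [map_mul, map_prod, Algebra.algebraMap_self, RingHom.id_apply,
    h _ (MvPolynomial.coeff_mem_coeffs m (MvPolynomial.mem_support_iff.1 hm))]
  simp only [map_pow]

theorem C7_ev2_eq {K R : Type} [Field K] [CommRing R] [Algebra K R] (u : Fin r → R) (ξ : R)
    (p : PP K r) :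
    ev2 u ξ p = ∑ i ∈ p.support, MvPolynomial.aeval u (p.coeff i) * ξ ^ i :=
  Polynomial.eval₂_eq_sum

theorem C7_ev2_C {K R : Type} [Field K] [CommRing R] [Algebra K R] (u : Fin r → R) (ξ : R)
    (q : MvPolynomial (Fin r) K) : ev2 u ξ (Polynomial.C q) = MvPolynomial.aeval u q :=
  Polynomial.eval₂_C _ _

theorem C7_ev2_X {K R : Type} [Field K] [CommRing R] [Algebra K R] (u : Fin r → R) (ξ : R) :
    ev2 u ξ (Polynomial.X : PP K r) = ξ :=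
  Polynomial.eval₂_X _ _

theorem C7_ev2_gal (u : Fin r → Qb) (ξ : Qb) {p : PP Qb r} (h : ∀ a ∈ cfs p, σ a = a) :
    ev2 (fun k => σ (u k)) (σ ξ) p = σ (ev2 u ξ p) := by
  rw [C7_ev2_eq, C7_ev2_eq, map_sum]
  refine Finset.sum_congr rfl fun i hi => ?_
  rw [map_mul, map_pow, C7_aeval_gal σ u fun a ha => h a (Finset.mem_biUnion.2 ⟨i, hi, ha⟩)]

theorem C7_mdl_gal {I J : Type} [Fintype I] [Fintype J] (M : Mdl Qb r (I ⊕ J))
    (h : ∀ a ∈ M.S, σ a = a) (u : Fin r → Qb) (ξ : Qb) :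
    ev2 (fun k => σ (u k)) (σ ξ) M.m = σ (ev2 u ξ M.m) ∧
    MvPolynomial.aeval (fun k => σ (u k)) M.q = σ (MvPolynomial.aeval u M.q) ∧
    (∀ l, M.val (fun k => σ (u k)) (σ ξ) l = σ (M.val u ξ l)) ∧
    ∀ {A c : ℕ} (μ : Mon J r A c),
      ev2 (fun k => σ (u k)) (σ ξ) (M.mon μ) = σ (ev2 u ξ (M.mon μ)) := by
  have h1 := C7_ev2_gal σ u ξ (p := M.m) fun a ha => h a (by simp [Mdl.S, ha])
  have h2 := C7_aeval_gal σ u (q := M.q) fun a ha => h a (by simp [Mdl.S, ha])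
  have h3 := fun l => C7_ev2_gal σ u ξ (p := M.P l) fun a ha => h a
    (Finset.mem_insert_of_mem (Finset.mem_union_right _
      (Finset.mem_biUnion.2 ⟨l, Finset.mem_univ l, ha⟩)))
  have h4 : ∀ l, ev2 (fun k => σ (u k)) (σ ξ) (xp Qb r l) = σ (ev2 u ξ (xp Qb r l)) := by
    rintro (_ | _ | k)
    · simp only [xp, map_one]
    · simp only [xp, C7_ev2_X]
    · simp only [xp, C7_ev2_C, MvPolynomial.aeval_X]
  refine ⟨h1, h2, fun l => ?_, fun μ => ?_⟩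
  · rw [Mdl.val, Mdl.val, h3, h2, map_div₀]
  · simp only [Mdl.mon, map_mul, map_prod, h3, h4]

end gal

theorem C7_e1 {r₁ r₂ : ℕ} {ι : Type} {M₁ : Mdl Qb r₁ ι} {M₂ : Mdl Qb r₂ ι}
    (χ : TB M₁ M₂ →ₐ[Qb] Qb) (p : PP Qb r₁) : χ (e1B M₁ M₂ p) =
      ev2 (fun k => χ (uB M₁ M₂ (.inl k))) (χ (x1B M₁ M₂)) p := map_ev2 χ _ _ p

theorem C7_e2 {r₁ r₂ : ℕ} {ι : Type} {M₁ : Mdl Qb r₁ ι} {M₂ : Mdl Qb r₂ ι}
    (χ : TB M₁ M₂ →ₐ[Qb] Qb) (p : PP Qb r₂) : χ (e2B M₁ M₂ p) =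
      ev2 (fun k => χ (uB M₁ M₂ (.inr k))) (χ (x2B M₁ M₂)) p := map_ev2 χ _ _ p

theorem C7_rs_pow {κ Ω : Type} [Field κ] [Field Ω] [Algebra κ Ω] (O : VS κ Ω) {x : Ω}
    (hx : x ∈ O.1) (n : ℕ) : rs O (x ^ n) = rs O x ^ n := by
  induction n with
  | zero => simpa using rs_algebraMap O 1
  | succ n ih => rw [pow_succ, rs_mul O (pow_mem hx n) hx, ih, pow_succ]

variable {F : Type} [Field F] [Algebra Qb F] [IsFF Qb F] {o : Place Qb F} {d r₁ r₂ : ℕ}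
  {M₁ : Mdl Qb r₁ (IX o d)} {M₂ : Mdl Qb r₂ (IX o d)}

/-- conjugate of a point of the product -/
theorem C7_conj (σ : Qb ≃ₐ[ℚ] Qb) (h₁ : ∀ a ∈ M₁.S, σ a = a) (h₂ : ∀ a ∈ M₂.S, σ a = a)
    (β : BC o Qb Qb) (hβ : ∀ x, β.τ x = σ x) {χ : TB M₁ M₂ →ₐ[Qb] Qb} (hT : Tors M₁ M₂ χ)
    (hG : GdP M₁ M₂ χ) {y₁ y₂ : Fin d → Pt o Qb} (hy : Above M₁ M₂ χ y₁ y₂) :
    ∃ χ' : TB M₁ M₂ →ₐ[Qb] Qb, Tors M₁ M₂ χ' ∧ GdP M₁ M₂ χ' ∧
      Above M₁ M₂ χ' (fun a => β.pt (y₁ a)) (fun a => β.pt (y₂ a)) ∧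
      (∀ k, χ' (uB M₁ M₂ k) = σ (χ (uB M₁ M₂ k))) ∧
      ∀ {A₁ A₂ c : ℕ} (μ₁ : Mon (JJ o × JJ o) r₁ A₁ c) (μ₂ : Mon (JJ o × JJ o) r₂ A₂ c),
        χ' (e1B M₁ M₂ (M₁.mon μ₁) * e2B M₁ M₂ (M₂.mon μ₂)) =
          σ (χ (e1B M₁ M₂ (M₁.mon μ₁) * e2B M₁ M₂ (M₂.mon μ₂))) := by
  obtain ⟨a1, a2, a3, a4⟩ := C7_mdl_gal σ M₁ h₁ (fun k => χ (uB M₁ M₂ (.inl k))) (χ (x1B M₁ M₂))
  obtain ⟨b1, b2, b3, b4⟩ := C7_mdl_gal σ M₂ h₂ (fun k => χ (uB M₁ M₂ (.inr k))) (χ (x2B M₁ M₂))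
  obtain ⟨χ', c1, c2, c3⟩ := exists_lift_TB M₁ M₂ (fun k => σ (χ (uB M₁ M₂ k)))
    (σ (χ (x1B M₁ M₂))) (σ (χ (x2B M₁ M₂)))
    (by rw [a1, ← C7_e1, e1B_m, map_zero, map_zero])
    (by rw [b1, ← C7_e2, e2B_m, map_zero, map_zero])
  refine ⟨χ', fun k => ?_, ⟨?_, ?_⟩, ⟨fun a i => ?_, fun a i => ?_⟩, c1, fun μ₁ μ₂ => ?_⟩
  · obtain ⟨n, hn, h⟩ := hT k
    exact ⟨n, hn, by rw [c1, ← map_pow, h, map_one]⟩
  · have h := hG.1
    rw [C7_e1, C7_ev2_C] at h ⊢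
    simp only [c1]
    rw [a2]
    exact (map_ne_zero σ).2 h
  · have h := hG.2
    rw [C7_e2, C7_ev2_C] at h ⊢
    simp only [c1]
    rw [b2]
    exact (map_ne_zero σ).2 h
  · simp only [c1, c2]
    rw [a3, β.pt_eb, hβ, hy.1 a i]
  · simp only [c1, c3]
    rw [b3, β.pt_eb, hβ, hy.2 a i]
  · rw [map_mul, map_mul, map_mul, C7_e1, C7_e1, C7_e2, C7_e2]
    simp only [c1, c2, c3]
    rw [a4, b4]

variable (G : Gen M₁ M₂) {s t : ℤ} {n : JJ o × JJ o → TB M₁ M₂}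

theorem C7_n_ne (hn : Prp (Psym (s • clz G.z₁ + t • clz G.z₂))
    fun j => algebraMap _ (TL M₁ M₂) (n j)) :
    (fun j => algebraMap _ (TL M₁ M₂) (n j)) ≠ 0 := hn.symm.ne_zero (Psym_ne_zero _)

/-- identities specialise -/
theorem C7_spec (hn : Prp (Psym (s • clz G.z₁ + t • clz G.z₂))
      fun j => algebraMap _ (TL M₁ M₂) (n j)) {χ : TB M₁ M₂ →ₐ[Qb] Qb} (hG : GdP M₁ M₂ χ)
    {y₁ y₂ : Fin d → Pt o Qb} (hy : Above M₁ M₂ χ y₁ y₂) {b b' u u' : TB M₁ M₂} {a : ℕ}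
    {j j' : JJ o × JJ o} (h : b * (n j' ^ a * u') = b' * (n j ^ a * u)) :
    χ b * (Psym (s • clz y₁ + t • clz y₂) j' ^ a * χ u') =
      χ b' * (Psym (s • clz y₁ + t • clz y₂) j ^ a * χ u) := by
  obtain ⟨O, hO⟩ := exists_dom M₁ M₂ χ
  have h0 := C7_n_ne G hn
  have : Nonempty (JJ o × JJ o) := ⟨j⟩
  obtain ⟨j₁, hj₁⟩ := exists_vs_eq O.1 fun j => algebraMap _ (TL M₁ M₂) (n j)
  have h1 := vs_ne_zero O.1 h0
  have h2 : algebraMap _ (TL M₁ M₂) (n j₁) ≠ 0 := fun h => h1 (by rw [← hj₁, h, map_zero])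
  obtain ⟨x, hx⟩ : ∃ x : JJ o × JJ o → TL M₁ M₂, x = fun j =>
    (algebraMap _ (TL M₁ M₂) (n j₁))⁻¹ * algebraMap _ (TL M₁ M₂) (n j) := ⟨_, rfl⟩
  have h3 : vs O.1 x = 1 := by
    rw [hx, vs_smul, map_inv₀, hj₁, inv_mul_cancel₀ h1]
  have h4 : ∀ j, x j ∈ O.1 := fun j =>
    (O.1.valuation_le_one_iff _).1 ((le_vs O.1 x j).trans h3.le)
  have h5 : Prp x fun j => algebraMap _ (TL M₁ M₂) (n j) :=
    ⟨_, inv_ne_zero h2, fun j => congrFun hx j⟩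
  obtain ⟨μ, hμ, h6⟩ := G.spec hG hy hO s t (h5.trans hn.symm) h3
  have h7 : algebraMap _ (TL M₁ M₂) b * (x j' ^ a * algebraMap _ (TL M₁ M₂) u') =
      algebraMap _ (TL M₁ M₂) b' * (x j ^ a * algebraMap _ (TL M₁ M₂) u) := by
    have h8 := congrArg (algebraMap _ (TL M₁ M₂)) h
    simp only [map_mul, map_pow] at h8
    simp only [hx, mul_pow]
    linear_combination (algebraMap _ (TL M₁ M₂) (n j₁))⁻¹ ^ a * h8
  have h9 : ∀ (b u : TB M₁ M₂) (j : JJ o × JJ o),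
      rs O (algebraMap _ (TL M₁ M₂) b * (x j ^ a * algebraMap _ (TL M₁ M₂) u)) =
        μ ^ a * algebraMap Qb (RF O) (χ b * (Psym (s • clz y₁ + t • clz y₂) j ^ a * χ u)) := by
    intro b u j
    rw [rs_mul O (hO b).1 (mul_mem (pow_mem (h4 j) a) (hO u).1),
      rs_mul O (pow_mem (h4 j) a) (hO u).1, C7_rs_pow O (h4 j), (hO b).2, (hO u).2]
    have h10 : rs O (x j) = μ * algebraMap Qb (RF O) (Psym (s • clz y₁ + t • clz y₂) j) := h6 j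
    rw [h10, map_mul, map_mul, map_pow, mul_pow]
    ring
  have h11 := congrArg (rs O) h7
  rw [h9, h9] at h11
  exact (algebraMap Qb (RF O)).injective (mul_left_cancel₀ (pow_ne_zero a hμ) h11)

/-- identities at all torsion points hold generically -/
theorem C7_gen (hn : Prp (Psym (s • clz G.z₁ + t • clz G.z₂))
      fun j => algebraMap _ (TL M₁ M₂) (n j)) {b b' u u' : TB M₁ M₂} {a : ℕ}
    {j j' : JJ o × JJ o} (h : ∀ χ : TB M₁ M₂ →ₐ[Qb] Qb, Tors M₁ M₂ χ → GdP M₁ M₂ χ →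
      ∀ y₁ y₂, Above M₁ M₂ χ y₁ y₂ → χ b * (Psym (s • clz y₁ + t • clz y₂) j' ^ a * χ u') =
        χ b' * (Psym (s • clz y₁ + t • clz y₂) j ^ a * χ u)) :
    b * (n j' ^ a * u') = b' * (n j ^ a * u) := by
  obtain ⟨j₁, hj₁⟩ := Function.ne_iff.1 (C7_n_ne G hn)
  have h1 : n j₁ ≠ 0 := fun h => hj₁ (by rw [h, map_zero]; rfl)
  have h2 : (b * (n j' ^ a * u') - b' * (n j ^ a * u)) * n j₁ = 0 := by
    refine eq_zero_of_tors M₁ M₂ fun χ hT hG => ?_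
    rw [map_mul]
    by_cases h3 : χ (n j₁) = 0
    · rw [h3, mul_zero]
    obtain ⟨y₁, y₂, hy⟩ := G.exists_above hG
    obtain ⟨O, hO⟩ := exists_dom M₁ M₂ χ
    have h4 : vs O.1 (fun j => algebraMap _ (TL M₁ M₂) (n j)) = 1 := by
      refine le_antisymm (vs_le O.1 fun j => (O.1.valuation_le_one_iff _).2 (hO _).1) ?_
      refine le_trans (not_lt.1 fun h5 => h3 ?_) (le_vs O.1 _ j₁)
      have h6 := (rs_eq_zero_iff O (hO (n j₁)).1).2 h5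
      rw [(hO _).2] at h6
      exact (map_eq_zero _).1 h6
    have h7 := G.spec hG hy hO s t hn.symm h4
    simp only [(hO _).2] at h7
    obtain ⟨μ, -, h8⟩ := h7.of_map (algebraMap Qb (RF O))
    have h9 := h χ hT hG y₁ y₂ hy
    simp only [map_sub, map_mul, map_pow, h8, mul_pow]
    linear_combination μ ^ a * (μ * Psym (s • clz y₁ + t • clz y₂) j₁) * h9
  exact sub_eq_zero.1 ((mul_eq_zero.1 h2).resolve_right h1)

end Pool.Agent.E6b
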