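import Pool.Agent.E6b.HDefs

/-!
Nonarchimedean absolute values on the algebraic numbers: centres, conjugacy, inertia.
-/

open NumberField IsDedekindDomain

namespace Pool.Agent.E6b.H1c

instance instIsAlgClosureQb : IsAlgClosure ℚ Qb := AlgebraicClosure.instIsAlgClosure ℚ

instance instIsGaloisQb : IsGalois ℚ Qb := IsAlgClosure.isGalois ℚ Qb

/-- The absolute Galois group of the rationals. -/
abbrev GQ : Type := Qb ≃ₐ[ℚ] Qb

/-- τ lies in the inertia group of v. -/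
def Inr {F : Type} [Field F] (v : AbsoluteValue F ℝ) (τ : F → F) : Prop :=
  ∀ x, v x ≤ 1 → v (τ x - x) < 1

section

variable {F : Type} [Field F] {v : AbsoluteValue F ℝ}

/-- The valuation ring of v. -/
def BValA_ring (hv : IsNonarchimedean v) : ValuationSubring F where
  carrier := {x | v x ≤ 1}
  mul_mem' := fun {a b} ha hb => by
    show v (a * b) ≤ 1
    rw [map_mul]
    exact mul_le_one₀ ha (v.nonneg _) hb
  one_mem' := by simp
  add_mem' := fun {a b} ha hb => (hv a b).trans (max_le ha hb)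
  zero_mem' := by simp
  neg_mem' := fun {a} ha => by simpa using ha
  mem_or_inv_mem' := fun x => by
    rcases le_total (v x) 1 with h | h
    · exact Or.inl h
    · right
      show v x⁻¹ ≤ 1
      rw [map_inv₀]
      exact inv_le_one_of_one_le₀ h

theorem v_int (hv : IsNonarchimedean v) {x : F} (hx : IsIntegral ℤ x) : v x ≤ 1 := by
  have h : IsIntegral (BValA_ring hv) x := hx.tower_top
  obtain ⟨y, rfl⟩ := IsIntegrallyClosed.isIntegral_iff.1 h
  exact y.2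

end

variable {v : AbsoluteValue Qb ℝ}

theorem val_one {L : Type} [Field L] [NumberField L] {w : AbsoluteValue L ℝ}
    (Q : HeightOneSpectrum (𝓞 L)) (hQ : ∀ x : 𝓞 L, x ∈ Q.asIdeal ↔ w x < 1)
    (hw : IsNonarchimedean w) {y : L} (hy : w y = 1) : Q.valuation L y = 1 := by
  have h1 : ∀ a : 𝓞 L, a ∉ Q.asIdeal ↔ w (algebraMap (𝓞 L) L a) = 1 := fun a => by
    rw [hQ, not_lt]
    exact ⟨fun h => le_antisymm (v_int hw a.isIntegral_coe) h, fun h => h.ge⟩
  obtain ⟨n, d, h | h⟩ := Q.exists_primeCompl_mul_eq_or_mul_eq y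
  · have hd : d.1 ∉ Q.asIdeal := d.2
    have hn : n ∉ Q.asIdeal := by rw [h1, ← h, map_mul, hy, (h1 _).1 hd, mul_one]
    have := congrArg (Q.valuation L) h
    rwa [map_mul, Q.valuation_eq_one_iff_notMem.2 hd, Q.valuation_eq_one_iff_notMem.2 hn,
      mul_one] at this
  · have hd : d.1 ∉ Q.asIdeal := d.2
    have hn : n ∉ Q.asIdeal := by
      have := (h1 _).1 hd
      rwa [← h, map_mul, hy, one_mul, ← h1] at this
    have := congrArg (Q.valuation L) h
    rwa [map_mul, Q.valuation_eq_one_iff_notMem.2 hd, Q.valuation_eq_one_iff_notMem.2 hn,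
      mul_one] at this

theorem frac (hv : IsNonarchimedean v) {q : ℕ} (hq : q.Prime) (h : v q < 1) {x : Qb}
    (hx : v x ≤ 1) : ∃ a b : Qb, IsIntegral ℤ a ∧ IsIntegral ℤ b ∧ v b = 1 ∧ x * b = a := by
  let K := IntermediateField.adjoin ℚ {x}
  have : FiniteDimensional ℚ K :=
    IntermediateField.adjoin.finiteDimensional (Algebra.IsIntegral.isIntegral x)
  have : NumberField K := NumberField.of_module_finite ℚ K
  let f : 𝓞 K →+* Qb := (algebraMap K Qb).comp (algebraMap (𝓞 K) K)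
  have hf : ∀ a : 𝓞 K, IsIntegral ℤ (f a) := fun a =>
    (RingOfIntegers.isIntegral a).map f.toIntAlgHom
  have hf1 : ∀ a : 𝓞 K, v (f a) ≤ 1 := fun a => v_int hv (hf a)
  let P : Ideal (𝓞 K) :=
    { carrier := {a | v (f a) < 1}
      add_mem' := fun {a b} ha hb => by
        show v (f (a + b)) < 1
        rw [map_add]
        exact (hv _ _).trans_lt (max_lt ha hb)
      zero_mem' := by simp
      smul_mem' := fun c a ha => by
        show v (f (c * a)) < 1
        rw [map_mul, map_mul]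
        exact (mul_le_of_le_one_left (v.nonneg _) (hf1 c)).trans_lt ha }
  have hP : ∀ a, a ∈ P ↔ v (f a) < 1 := fun a => Iff.rfl
  have hPp : P.IsPrime := by
    refine ⟨fun e => ?_, fun {a b} hab => ?_⟩
    · have := (hP 1).1 (e ▸ Submodule.mem_top)
      simp at this
    · rw [hP, map_mul, map_mul] at hab
      by_contra hc
      rw [not_or, hP, hP, not_lt, not_lt] at hc
      exact absurd hab (not_lt.2 (one_le_mul_of_one_le_of_one_le hc.1 hc.2))
  have hP0 : P ≠ ⊥ := fun e => by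
    have h1 : (q : 𝓞 K) ∈ P := by rw [hP, map_natCast]; exact h
    rw [e, Ideal.mem_bot] at h1
    exact hq.ne_zero (Nat.cast_eq_zero.1 h1)
  let Q : HeightOneSpectrum (𝓞 K) := ⟨P, hPp, hP0⟩
  obtain ⟨n, d, hnd⟩ := Q.exists_primeCompl_mul_eq_or_mul_eq
    (⟨x, IntermediateField.mem_adjoin_simple_self ℚ x⟩ : K)
  have hd : v (f d) = 1 := le_antisymm (hf1 _) (not_lt.1 d.2)
  rcases hnd with e | e
  · exact ⟨f n, f d, hf _, hf _, hd, congrArg (algebraMap K Qb) e⟩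
  · have e' : x * f n = f d := congrArg (algebraMap K Qb) e
    refine ⟨f d, f n, hf _, hf _, le_antisymm (hf1 _) ?_, e'⟩
    rw [← hd, ← e', map_mul]
    exact mul_le_of_le_one_left (v.nonneg _) hx

section generic

open scoped Pointwise

variable (K E : Type) [Field K] [Field E] [Algebra K E]

lemma BValB_coe (g : E ≃ₐ[K] E) (b : 𝓞 E) : ((g • b : 𝓞 E) : E) = g (b : E) := rfl

lemma BValB_alg (x : 𝓞 K) : ((algebraMap (𝓞 K) (𝓞 E) x : 𝓞 E) : E) = algebraMap K E (x : K) :=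
  rfl

lemma BValB_comm : SMulCommClass (E ≃ₐ[K] E) (𝓞 K) (𝓞 E) := by
  refine ⟨fun g a b => RingOfIntegers.ext ?_⟩
  rw [Algebra.smul_def, Algebra.smul_def, BValB_coe]
  simp only [map_mul]
  congr 1
  exact g.commutes (a : K)

variable [IsGalois K E]

lemma BValB_inv : Algebra.IsInvariant (𝓞 K) (𝓞 E) (E ≃ₐ[K] E) := by
  refine ⟨fun b hb => ?_⟩
  obtain ⟨c, hc⟩ := (InfiniteGalois.mem_range_algebraMap_iff_fixed (k := K) (b : E)).2
    fun g => congrArg (fun z : 𝓞 E => (z : E)) (hb g)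
  have hi : IsIntegral ℤ c := by
    rw [← isIntegral_algHom_iff (algebraMap K E).toIntAlgHom (algebraMap K E).injective]
    have := RingOfIntegers.isIntegral_coe b
    rw [← RingOfIntegers.coe_eq_algebraMap, ← hc] at this
    exact this
  exact ⟨⟨c, hi⟩, RingOfIntegers.ext hc⟩

lemma BValB_open (b : 𝓞 E) :
    IsOpen (MulAction.stabilizer (E ≃ₐ[K] E) b : Set (E ≃ₐ[K] E)) := by
  have h := stabilizer_isOpen_of_isIntegral (K := K) (b : E)
  have e : MulAction.stabilizer (E ≃ₐ[K] E) b = MulAction.stabilizer (E ≃ₐ[K] E) (b : E) := by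
    ext g
    rw [MulAction.mem_stabilizer_iff, MulAction.mem_stabilizer_iff, ← RingOfIntegers.eq_iff]
    rfl
  rw [e]
  exact h

variable {E}

lemma BValB_conj (P P' : Ideal (𝓞 E)) [P.IsPrime] [P'.IsPrime]
    (h : ∀ x : 𝓞 K, algebraMap (𝓞 K) (𝓞 E) x ∈ P ↔ algebraMap (𝓞 K) (𝓞 E) x ∈ P') :
    ∃ ρ : E ≃ₐ[K] E, ∀ b, b ∈ P ↔ ρ • b ∈ P' := by
  let _ : TopologicalSpace (𝓞 E) := ⊥
  have : DiscreteTopology (𝓞 E) := ⟨rfl⟩
  have := BValB_comm K E
  have := BValB_inv K E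
  have : ContinuousSMul (E ≃ₐ[K] E) (𝓞 E) :=
    continuousSMul_iff_stabilizer_isOpen.2 (BValB_open K E)
  obtain ⟨ρ, hρ⟩ := Algebra.IsInvariant.exists_smul_of_under_eq_of_profinite (A := 𝓞 K)
    (G := E ≃ₐ[K] E) P P' (Ideal.ext h)
  exact ⟨ρ, fun b => by rw [hρ, Ideal.smul_mem_pointwise_smul_iff]⟩

lemma BValB_surj (P : Ideal (𝓞 E)) [P.IsPrime] (e : 𝓞 E ≃+* 𝓞 E) (he : ∀ b, b ∈ P ↔ e b ∈ P)
    (hK : ∀ x : 𝓞 K, e (algebraMap (𝓞 K) (𝓞 E) x) - algebraMap (𝓞 K) (𝓞 E) x ∈ P) :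
    ∃ ρ : E ≃ₐ[K] E, (∀ b, b ∈ P → ρ⁻¹ • b ∈ P) ∧ ∀ b, e b - ρ • b ∈ P := by
  let _ : TopologicalSpace (𝓞 E) := ⊥
  have : DiscreteTopology (𝓞 E) := ⟨rfl⟩
  have := BValB_comm K E
  have := BValB_inv K E
  have : ContinuousSMul (E ≃ₐ[K] E) (𝓞 E) :=
    continuousSMul_iff_stabilizer_isOpen.2 (BValB_open K E)
  have hP : P = P.map (e : 𝓞 E →+* 𝓞 E) := by
    ext b
    obtain ⟨c, rfl⟩ := e.surjective b
    rw [← he]
    exact (Ideal.apply_mem_of_equiv_iff (f := e)).symm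
  let σ : (𝓞 E ⧸ P) ≃ₐ[𝓞 K ⧸ P.under (𝓞 K)] (𝓞 E ⧸ P) :=
    AlgEquiv.ofRingEquiv (f := Ideal.quotientEquiv P P e hP) (by
      intro x
      obtain ⟨x, rfl⟩ := Ideal.Quotient.mk_surjective x
      exact Ideal.Quotient.eq.2 (hK x))
  obtain ⟨ρ, hρ⟩ := Ideal.Quotient.stabilizerHom_surjective_of_profinite (G := E ≃ₐ[K] E)
    (P.under (𝓞 K)) P σ
  refine ⟨ρ.1, fun b hb => ?_, fun b => ?_⟩
  · have h1 : ρ.1 • P = P := ρ.2
    rw [← Ideal.mem_pointwise_smul_iff_inv_smul_mem, h1]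
    exact hb
  · have h1 := DFunLike.congr_fun hρ (Ideal.Quotient.mk P b)
    exact Ideal.Quotient.eq.1 h1.symm

end generic

/-- The center of a nonarchimedean absolute value. -/
def BValB_cen {v : AbsoluteValue Qb ℝ} (hv : IsNonarchimedean v) : Ideal (𝓞 Qb) where
  carrier := {b | v (b : Qb) < 1}
  add_mem' := fun {a b} ha hb => lt_of_le_of_lt (hv (a : Qb) (b : Qb)) (max_lt ha hb)
  zero_mem' := by
    show v 0 < 1
    rw [map_zero]
    exact one_pos
  smul_mem' := fun c b hb => by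
    show v ((c : Qb) * (b : Qb)) < 1
    rw [map_mul]
    exact mul_lt_one_of_nonneg_of_lt_one_right (v_int hv c.2) (v.nonneg _) hb

lemma BValB_mem {v : AbsoluteValue Qb ℝ} (hv : IsNonarchimedean v) (b : 𝓞 Qb) :
    b ∈ BValB_cen hv ↔ v (b : Qb) < 1 := Iff.rfl

lemma BValB_prime {v : AbsoluteValue Qb ℝ} (hv : IsNonarchimedean v) : (BValB_cen hv).IsPrime := by
  refine ⟨fun h => ?_, fun {a b} h => ?_⟩
  · have h1 : v 1 < 1 := (BValB_mem hv 1).1 (h ▸ Submodule.mem_top)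
    rw [map_one] at h1
    exact lt_irrefl _ h1
  · have h1 : v ((a : Qb) * (b : Qb)) < 1 := h
    rw [map_mul] at h1
    by_contra hc
    rw [not_or, BValB_mem, BValB_mem, not_lt, not_lt] at hc
    exact absurd h1 (not_lt.2 (one_le_mul_of_one_le_of_one_le hc.1 hc.2))

lemma BValB_int {R : Type} [CommRing R] (P : Ideal R) [hP : P.IsPrime] {q : ℕ} (hq : q.Prime)
    (h : (q : R) ∈ P) (n : ℤ) : (n : R) ∈ P ↔ (q : ℤ) ∣ n := by
  constructor
  · intro hn
    by_contra hd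
    obtain ⟨a, b, hab⟩ := (Nat.prime_iff_prime_int.1 hq).irreducible.coprime_iff_not_dvd.2 hd
    have h1 := congrArg (fun z : ℤ => (z : R)) hab
    push_cast at h1
    exact hP.ne_top ((Ideal.eq_top_iff_one P).2
      (h1 ▸ P.add_mem (P.mul_mem_left _ h) (P.mul_mem_left _ hn)))
  · rintro ⟨c, rfl⟩
    push_cast
    exact P.mul_mem_right _ h

theorem lift_inr (L : IntermediateField ℚ Qb) [FiniteDimensional ℚ L] {v : AbsoluteValue Qb ℝ}
    (hv : IsNonarchimedean v) {q : ℕ} (hq : q.Prime) (h : v q < 1) (s : L ≃ₐ[ℚ] L)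
    (hs : ∀ x : 𝓞 L, v ((s (x : L) : Qb) - ((x : L) : Qb)) < 1) :
    ∃ τ : GQ, Inr v τ ∧ ∀ x : L, τ (x : Qb) = (s x : Qb) := by
  obtain ⟨τ₀, h₀⟩ : ∃ τ₀ : GQ, ∀ x : L, τ₀ (x : Qb) = (s x : Qb) :=
    ⟨s.liftNormal Qb, fun x => s.liftNormal_commutes Qb x⟩
  have := BValB_prime hv
  set P := BValB_cen hv with hPdef
  have hs' : ∀ τ : GQ, (∀ x : L, τ (x : Qb) = (s x : Qb)) → ∀ x : 𝓞 L,
      τ • algebraMap (𝓞 L) (𝓞 Qb) x - algebraMap (𝓞 L) (𝓞 Qb) x ∈ P := by
    intro τ hτ x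
    have := hs x
    rw [← hτ] at this
    exact this
  obtain ⟨ρ, hρ⟩ := BValB_conj L P
    (P.comap (MulSemiringAction.toRingHom GQ (𝓞 Qb) τ₀)) fun x => by
      rw [Ideal.mem_comap, MulSemiringAction.toRingHom_apply]
      have := hs' τ₀ h₀ x
      exact ⟨fun hx => by simpa using P.add_mem this hx,
        fun hx => by simpa using P.sub_mem hx this⟩
  obtain ⟨τ₁, h₁, h₂⟩ : ∃ τ₁ : GQ, (∀ x : L, τ₁ (x : Qb) = (s x : Qb)) ∧
      ∀ b, b ∈ P ↔ τ₁ • b ∈ P := by
    refine ⟨τ₀ * ρ.restrictScalars ℚ, fun x => ?_, fun b => hρ b⟩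
    rw [AlgEquiv.mul_apply, ← h₀]
    exact congrArg τ₀ (ρ.commutes x)
  obtain ⟨ρ', h₃, h₄⟩ := BValB_surj L P (MulSemiringAction.toRingEquiv GQ (𝓞 Qb) τ₁) h₂
    (hs' τ₁ h₁)
  obtain ⟨τ, h₅, h₆⟩ : ∃ τ : GQ, (∀ x : L, τ (x : Qb) = (s x : Qb)) ∧
      ∀ b : 𝓞 Qb, v (τ (b : Qb) - b) < 1 := by
    refine ⟨(ρ'⁻¹).restrictScalars ℚ * τ₁, fun x => ?_, fun b => ?_⟩
    · rw [AlgEquiv.mul_apply, h₁]
      exact (ρ'⁻¹).commutes (s x)
    · have := h₃ _ (h₄ b)
      rw [smul_sub, inv_smul_smul] at this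
      exact this
  refine ⟨τ, fun x hx => ?_, h₅⟩
  obtain ⟨a, b, ha, hb, hb1, hab⟩ := frac hv hq h hx
  have e1 : v (τ a - a) < 1 := h₆ ⟨a, ha⟩
  have e2 : v (τ b - b) < 1 := h₆ ⟨b, hb⟩
  have e3 : 1 ≤ v (τ b) := by
    by_contra hc
    have h7 := hv (τ b) (-(τ b - b))
    rw [v.map_neg, show τ b + -(τ b - b) = b by ring, hb1] at h7
    exact absurd h7 (not_le.2 (max_lt (not_le.1 hc) e2))
  have e4 : (τ x - x) * τ b = (τ a - a) + -(x * (τ b - b)) := by
    rw [← hab, map_mul]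
    ring
  have e5 : v (τ x - x) * v (τ b) < 1 := by
    rw [← map_mul, e4]
    refine lt_of_le_of_lt (hv _ _) (max_lt e1 ?_)
    rw [v.map_neg, map_mul]
    exact mul_lt_one_of_nonneg_of_lt_one_right hx (v.nonneg _) e2
  exact lt_of_le_of_lt (le_mul_of_one_le_right (v.nonneg _) e3) e5


theorem bvalc_pow {K N : Type} [Field K] [NumberField K] [Field N] [NumberField N] [Algebra K N]
    (G : Type) [Group G] [Finite G] [MulSemiringAction G N] [IsGaloisGroup G K N]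
    (w : HeightOneSpectrum (𝓞 N)) (x : K) :
    w.valuation N (algebraMap K N x) =
      (w.under (𝓞 K)).valuation K x ^ Nat.card (w.asIdeal.inertia G) := by
  have : w.asIdeal.LiesOver (w.under (𝓞 K)).asIdeal := ⟨rfl⟩
  have := w.isPrime
  have := (w.under (𝓞 K)).isMaximal
  rw [← HeightOneSpectrum.valuation_liesOver N (w.under (𝓞 K)) w x,
    Ideal.ramificationIdx'_eq_ramificationIdx _ _ (w.under (𝓞 K)).ne_bot,
    Ideal.card_inertia_eq_ramificationIdxIn (w.under (𝓞 K)).asIdeal w.asIdeal,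
    Ideal.ramificationIdxIn_eq_ramificationIdx (w.under (𝓞 K)).asIdeal w.asIdeal G]


theorem bvalc_top {K N : Type} [Field K] [NumberField K] [Field N] [NumberField N] [Algebra K N]
    (G : Type) [Group G] [Finite G] [MulSemiringAction G N] [IsGaloisGroup G K N]
    (w : HeightOneSpectrum (𝓞 N)) (hG : ∀ (σ : G) (x : 𝓞 N), σ • x - x ∈ w.asIdeal) (x : K) :
    w.valuation N (algebraMap K N x) = (w.under (𝓞 K)).valuation K x ^ Nat.card G := by
  have htop : w.asIdeal.inertia G = ⊤ := eq_top_iff.2 fun σ _ => hG σ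
  rw [bvalc_pow G w x, htop, Subgroup.card_top]


theorem bvalc_ex {K N : Type} [Field K] [NumberField K] [Field N] [NumberField N] [Algebra K N]
    [IsGalois K N] (w : HeightOneSpectrum (𝓞 N)) {y : N}
    (hy : ∀ σ : N ≃ₐ[K] N, (∀ x : 𝓞 N, σ • x - x ∈ w.asIdeal) → σ y = y) :
    ∃ x : K, w.valuation N (algebraMap K N x) = w.valuation N y := by
  set I := w.asIdeal.inertia (N ≃ₐ[K] N) with hI
  set E : IntermediateField K N := FixedPoints.intermediateField I with hE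
  have : IsGaloisGroup I E N := IsGaloisGroup.subgroup (N ≃ₐ[K] N) K N I
  have hyE : y ∈ E := fun σ => hy σ.1 σ.2
  have h1 := bvalc_top I w (fun σ x => σ.2 x) (⟨y, hyE⟩ : E)
  obtain ⟨x, hx⟩ := (w.under (𝓞 K)).valuation_surjective K
    ((w.under (𝓞 E)).valuation E (⟨y, hyE⟩ : E))
  exact ⟨x, by rw [bvalc_pow (N ≃ₐ[K] N) w x, hx]; exact h1.symm⟩


theorem bvalc_le {N : Type} [Field N] [NumberField N] {a : AbsoluteValue N ℝ}
    (ha : IsNonarchimedean a) (w : HeightOneSpectrum (𝓞 N))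
    (hw : ∀ x : 𝓞 N, x ∈ w.asIdeal ↔ a x < 1) {u : N} (hu : w.valuation N u ≤ 1) : a u ≤ 1 := by
  obtain ⟨n, d, h⟩ := w.exists_primeCompl_mul_eq_of_integer u hu
  have hd : 1 ≤ a (d : 𝓞 N) := not_lt.1 fun h1 => d.2 ((hw d).2 h1)
  have hn : a n ≤ 1 := v_int ha n.isIntegral_coe
  have h2 : a u * a (d : 𝓞 N) = a n := by rw [← map_mul]; exact congrArg a h
  nlinarith [a.nonneg u]


theorem bvalc_center {N : Type} [Field N] [NumberField N] {a : AbsoluteValue N ℝ}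
    (ha : IsNonarchimedean a) {q : ℕ} (hq : q.Prime) (h : a q < 1) :
    ∃ w : HeightOneSpectrum (𝓞 N), ∀ x : 𝓞 N, x ∈ w.asIdeal ↔ a x < 1 := by
  let P : Ideal (𝓞 N) :=
    { carrier := {x | a x < 1}
      zero_mem' := by simp
      add_mem' := fun {x y} hx hy => by
        have := ha (x : N) (y : N)
        change a ((x : N) + y) < 1
        exact this.trans_lt (max_lt hx hy)
      smul_mem' := fun c x hx => by
        change a ((c : N) * x) < 1
        rw [map_mul]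
        exact mul_lt_one_of_nonneg_of_lt_one_right (v_int ha c.isIntegral_coe) (a.nonneg _) hx }
  have hP : ∀ x : 𝓞 N, x ∈ P ↔ a x < 1 := fun _ => Iff.rfl
  refine ⟨⟨P, ⟨?_, fun {x y} hxy => ?_⟩, ?_⟩, hP⟩
  · rw [Ideal.ne_top_iff_one, hP]
    simp
  · by_contra hc
    rw [not_or, hP, hP, not_lt, not_lt] at hc
    have h1 : a ((x : N) * y) < 1 := hxy
    rw [map_mul] at h1
    nlinarith [hc.1, hc.2]
  · intro h0
    have h1 : (q : 𝓞 N) ∈ P := by rw [hP]; simpa using h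
    rw [h0, Ideal.mem_bot, Nat.cast_eq_zero] at h1
    exact hq.ne_zero h1

theorem ram_a (L : IntermediateField ℚ Qb) [FiniteDimensional ℚ L] (hv : IsNonarchimedean v)
    {q : ℕ} (hq : q.Prime) (h : v q < 1) {y : Qb}
    (hy : ∀ τ : GQ, (∀ x ∈ L, τ x = x) → Inr v τ → τ y = y) : ∃ x ∈ L, v x = v y := by
  by_cases hy0 : y = 0
  · exact ⟨0, L.zero_mem, by rw [hy0]⟩
  have : FiniteDimensional ℚ (IntermediateField.adjoin ℚ {y}) :=
    IntermediateField.adjoin.finiteDimensional (Algebra.IsIntegral.isIntegral y)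
  set M : IntermediateField ℚ Qb := L ⊔ IntermediateField.adjoin ℚ {y} with hM
  set N : IntermediateField ℚ Qb := IntermediateField.normalClosure ℚ M Qb with hN
  have hMN : M ≤ N := IntermediateField.le_normalClosure M
  have hLN : L ≤ N := le_sup_left.trans hMN
  have hyN : y ∈ N := hMN (le_sup_right (a := L) (IntermediateField.mem_adjoin_simple_self ℚ y))
  have : NumberField L := NumberField.of_module_finite ℚ L
  have : NumberField N := NumberField.of_module_finite ℚ N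
  have : Normal ℚ Qb := IsAlgClosure.normal ℚ Qb
  have : Normal ℚ N := normalClosure.normal ℚ M Qb
  have : IsGalois ℚ N := IsGalois.mk
  let _ : Algebra L N := (IntermediateField.inclusion hLN).toAlgebra
  have : IsScalarTower ℚ L N := IsScalarTower.of_algebraMap_eq fun x => rfl
  have : IsGalois L N := IsGalois.tower_top_of_isGalois ℚ L N
  let a : AbsoluteValue N ℝ := v.comp (f := algebraMap N Qb) (RingHom.injective _)
  have ha : IsNonarchimedean a := fun x z => hv (x : Qb) (z : Qb)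
  have hq1 : a q < 1 := by
    change v (algebraMap N Qb q) < 1
    rwa [map_natCast]
  obtain ⟨w, hw⟩ := bvalc_center ha hq hq1
  obtain ⟨x, hx⟩ := bvalc_ex (K := L) w (y := ⟨y, hyN⟩) fun σ hσ => by
    obtain ⟨τ, hτ, e⟩ := lift_inr N hv hq h (σ.restrictScalars ℚ) fun x => (hw _).1 (hσ x)
    have h1 : τ y = y := hy τ (fun x hx => by
      have h2 := e ⟨x, hLN hx⟩
      have h3 : σ ⟨x, hLN hx⟩ = ⟨x, hLN hx⟩ := σ.commutes ⟨x, hx⟩
      exact h2.trans (congrArg Subtype.val h3)) hτ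
    exact Subtype.ext ((e ⟨y, hyN⟩).symm.trans h1)
  have hy1 : (⟨y, hyN⟩ : N) ≠ 0 := fun e => hy0 (congrArg Subtype.val e)
  have hy2 : w.valuation N ⟨y, hyN⟩ ≠ 0 := (Valuation.ne_zero_iff _).2 hy1
  have hx1 : algebraMap L N x ≠ 0 := (Valuation.ne_zero_iff _).1 (hx ▸ hy2)
  have h1 := bvalc_le ha w hw (u := algebraMap L N x / ⟨y, hyN⟩)
    (by rw [map_div₀, hx, div_self hy2])
  have h2 := bvalc_le ha w hw (u := ⟨y, hyN⟩ / algebraMap L N x)
    (by rw [map_div₀, hx, div_self hy2])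
  rw [map_div₀, div_le_one (a.pos hy1)] at h1
  rw [map_div₀, div_le_one (a.pos hx1)] at h2
  exact ⟨x, x.2, le_antisymm h1 h2⟩

end Pool.Agent.E6b.H1c
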