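import Pool.Agent.E6b.HDefs

/-!
Finiteness of the group of elements of a number field with even order outside a finite set of
primes, modulo squares.
-/

open NumberField IsDedekindDomain
open scoped nonZeroDivisors

namespace Pool.Agent.E6b.H1c

/-- `T` lies in finitely many classes modulo squares. -/
def FinSq {L : Type} [Field L] (T : L → Prop) : Prop :=
  ∃ R : Set L, R.Finite ∧ ∀ θ, T θ → ∃ r ∈ R, ∃ u : L, θ = r * u ^ 2

lemma finSq_cover {L X : Type} [Field L] [Finite X] (T T1 : L → Prop)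
    (P : L → X → Prop) (h1 : ∀ a, T a → ∃ y, P a y)
    (h2 : ∀ a b y, T a → T b → P a y → P b y → ∃ c u, T1 c ∧ a = c * b * u ^ 2)
    (h3 : FinSq T1) : FinSq T := by
  obtain ⟨R1, hR1, h3⟩ := h3
  have : ∀ y : X, ∃ b : L, (∃ a, T a ∧ P a y) → T b ∧ P b y := by
    intro y
    by_cases h : ∃ a, T a ∧ P a y
    · obtain ⟨a, ha⟩ := h
      exact ⟨a, fun _ => ha⟩
    · exact ⟨0, fun h' => absurd h' h⟩
  choose b hb using this
  refine ⟨Set.image2 (fun y r => b y * r) Set.univ R1, Set.finite_univ.image2 _ hR1, ?_⟩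
  intro θ hθ
  obtain ⟨y, hP⟩ := h1 θ hθ
  obtain ⟨hb1, hb2⟩ := hb y ⟨θ, hθ, hP⟩
  obtain ⟨c, u, hc, e⟩ := h2 θ (b y) y hθ hb1 hP hb2
  obtain ⟨r, hr, u', hu⟩ := h3 _ hc
  refine ⟨b y * r, Set.mem_image2_of_mem (Set.mem_univ y) hr, u * u', ?_⟩
  rw [e, hu]
  ring

variable {L : Type} [Field L] [NumberField L]

lemma finSq_units : FinSq (fun θ : L => ∃ u : (𝓞 L)ˣ, θ = ((u : 𝓞 L) : L)) := by
  have : Group.FG (𝓞 L)ˣ := Group.fg_iff_monoid_fg.2 inferInstance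
  have hfi := Subgroup.finiteIndex_range_powMonoidHom_of_fg (𝓞 L)ˣ (n := 2) two_ne_zero
  set H := (powMonoidHom (α := (𝓞 L)ˣ) 2).range with hH
  have : Finite ((𝓞 L)ˣ ⧸ H) := Subgroup.finite_quotient_of_finiteIndex
  refine ⟨Set.range fun q : (𝓞 L)ˣ ⧸ H => (((q.out : (𝓞 L)ˣ) : 𝓞 L) : L), Set.finite_range _, ?_⟩
  rintro θ ⟨u, rfl⟩
  obtain ⟨h, e⟩ := QuotientGroup.mk_out_eq_mul H u
  obtain ⟨t, ht⟩ := h.2
  refine ⟨_, ⟨(u : (𝓞 L)ˣ ⧸ H), rfl⟩, (((t⁻¹ : (𝓞 L)ˣ) : 𝓞 L) : L), ?_⟩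
  have e2 : u = (u : (𝓞 L)ˣ ⧸ H).out * t⁻¹ ^ 2 := by
    rw [e, ← ht, powMonoidHom_apply, mul_assoc, ← mul_pow, mul_inv_cancel, one_pow, mul_one]
  have e3 := congrArg (fun z : (𝓞 L)ˣ => algebraMap (𝓞 L) L (z : 𝓞 L)) e2
  simpa only [Units.val_mul, Units.val_pow_eq_pow_val, map_mul, map_pow] using e3

/-- The order of θ at Q, up to sign. -/
noncomputable def ordAt (Q : HeightOneSpectrum (𝓞 L)) (θ : L) : ℤ :=
  WithZero.log (Q.valuation L θ)

lemma ordAt_mul (Q : HeightOneSpectrum (𝓞 L)) {a b : L} (ha : a ≠ 0) (hb : b ≠ 0) :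
    ordAt Q (a * b) = ordAt Q a + ordAt Q b := by
  simp only [ordAt, map_mul]
  exact WithZero.log_mul ((Valuation.ne_zero_iff _).2 ha) ((Valuation.ne_zero_iff _).2 hb)

lemma ordAt_pow (Q : HeightOneSpectrum (𝓞 L)) (a : L) (n : ℕ) :
    ordAt Q (a ^ n) = n * ordAt Q a := by
  simp only [ordAt, map_pow, WithZero.log_pow, nsmul_eq_mul]

lemma pow_ideal {x : 𝓞 L} (hx : x ≠ 0)
    (h : ∀ Q : HeightOneSpectrum (𝓞 L), Even (ordAt Q (x : L))) :
    ∃ A : Ideal (𝓞 L), Ideal.span {x} = A ^ 2 := by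
  have hs : (Ideal.span {x} : Ideal (𝓞 L)) ≠ 0 := by simpa using hx
  obtain ⟨b, hb⟩ := Associates.is_pow_of_dvd_count (a := Associates.mk (Ideal.span {x}))
    (Associates.mk_ne_zero.2 hs) (k := 2) (by
      intro P hP
      obtain ⟨P, rfl⟩ := Associates.mk_surjective P
      rw [Associates.irreducible_mk] at hP
      have := (h (HeightOneSpectrum.ofPrime hP.prime)).two_dvd
      rw [ordAt, show (x : L) = algebraMap (𝓞 L) L x from rfl,
        HeightOneSpectrum.valuation_of_algebraMap, HeightOneSpectrum.intValuation_if_neg _ hx,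
        WithZero.log_exp, dvd_neg] at this
      exact Int.natCast_dvd_natCast.1 this)
  obtain ⟨A, rfl⟩ := Associates.mk_surjective b
  refine ⟨A, ?_⟩
  rwa [← Associates.mk_pow, Associates.mk_eq_mk_iff_associated, associated_iff_eq] at hb

lemma finSq_even :
    FinSq (fun θ : L => θ ≠ 0 ∧ ∀ Q : HeightOneSpectrum (𝓞 L), Even (ordAt Q θ)) := by
  refine finSq_cover (X := ClassGroup (𝓞 L)) _ _
    (fun θ y => ∃ (A : (Ideal (𝓞 L))⁰) (d : L) (x : 𝓞 L), d ≠ 0 ∧ θ * d ^ 2 = x ∧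
      Ideal.span {x} = A.1 ^ 2 ∧ y = ClassGroup.mk0 A) ?_ ?_ finSq_units
  · rintro θ ⟨h0, h⟩
    obtain ⟨a, b, hb, rfl⟩ := IsFractionRing.div_surjective (A := 𝓞 L) θ
    have hb0 : b ≠ 0 := nonZeroDivisors.ne_zero hb
    have hb1 : algebraMap (𝓞 L) L b ≠ 0 := by simpa using hb0
    have e : algebraMap (𝓞 L) L a / algebraMap (𝓞 L) L b * algebraMap (𝓞 L) L b ^ 2 =
        ((a * b : 𝓞 L) : L) := by
      rw [show ((a * b : 𝓞 L) : L) = algebraMap (𝓞 L) L (a * b) from rfl, map_mul]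
      field_simp
    have hx : a * b ≠ 0 := by
      intro h1
      rw [h1] at e
      exact mul_ne_zero h0 (pow_ne_zero _ hb1) e
    obtain ⟨A, hA⟩ := pow_ideal hx (fun Q => by
      rw [← e, ordAt_mul Q h0 (pow_ne_zero _ hb1), ordAt_pow]
      exact (h Q).add (Even.mul_right (by decide) _))
    have hA0 : A ≠ 0 := by
      rintro rfl
      rw [zero_pow two_ne_zero] at hA
      exact hx (by simpa using hA)
    exact ⟨_, ⟨A, mem_nonZeroDivisors_of_ne_zero hA0⟩, _, _, hb1, e, hA, rfl⟩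
  · rintro a b y - - ⟨A, d, x, hd, hx, hA, hy⟩ ⟨A', d', x', hd', hx', hA', hy'⟩
    obtain ⟨r, t, hr, ht, hrt⟩ := ClassGroup.mk0_eq_mk0_iff.1 (hy.symm.trans hy')
    have e2 : Ideal.span {t ^ 2 * x'} = Ideal.span {r ^ 2 * x} := by
      rw [← Ideal.span_singleton_mul_span_singleton, ← Ideal.span_singleton_mul_span_singleton,
        ← Ideal.span_singleton_pow, ← Ideal.span_singleton_pow, hA, hA', ← mul_pow, ← mul_pow, hrt]
    obtain ⟨u, hu⟩ := Ideal.span_singleton_eq_span_singleton.1 e2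
    have hr' : (r : L) ≠ 0 := by simpa using hr
    refine ⟨_, t * d' / (r * d), ⟨u, rfl⟩, ?_⟩
    have hu' : (t : L) ^ 2 * x' * ((u : 𝓞 L) : L) = (r : L) ^ 2 * x := by
      have := congrArg (algebraMap (𝓞 L) L) hu
      simpa only [map_mul, map_pow] using this
    rw [← hx, ← hx'] at hu'
    field_simp
    linear_combination -hu'

lemma finSq_outside (S : Set (HeightOneSpectrum (𝓞 L))) (hS : S.Finite) :
    FinSq (fun θ : L => θ ≠ 0 ∧ ∀ Q ∉ S, Even (ordAt Q θ)) := by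
  have := hS.to_subtype
  refine finSq_cover (X := S → Prop) _ _ (fun θ y => y = fun Q => Even (ordAt Q.1 θ))
    (fun a _ => ⟨_, rfl⟩) ?_ finSq_even
  rintro a b y ⟨ha, ha'⟩ ⟨hb, hb'⟩ rfl e
  refine ⟨a * b, b⁻¹, ⟨mul_ne_zero ha hb, fun Q => ?_⟩, by field_simp⟩
  rw [ordAt_mul Q ha hb, Int.even_add]
  by_cases hQ : Q ∈ S
  · exact iff_of_eq (congrFun e ⟨Q, hQ⟩)
  · exact iff_of_true (ha' Q hQ) (hb' Q hQ)

end Pool.Agent.E6b.H1c
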