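import Pool.Agent.E6b.H1a
import Pool.Agent.E6b.H1cAux
import Pool.Agent.E6b.H1cAux2

open scoped NNReal TensorProduct IntermediateField BigOperators Classical Topology
open Filter

namespace Pool.Agent.E6b

section

open NumberField IsDedekindDomain H1c

lemma H1c_spec {p : ℕ} {v : AbsoluteValue Qb ℝ} (hv : IsPl p v) (hp : p ≠ 0) :
    p.Prime ∧ IsNonarchimedean v ∧ v (p : Qb) = (p : ℝ)⁻¹ ∧ v (p : Qb) < 1 := by
  rcases hv with ⟨h, -⟩ | ⟨h1, h2, h3⟩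
  · exact absurd h hp
  · refine ⟨h1, h2, h3, ?_⟩
    rw [h3]
    exact inv_lt_one_of_one_lt₀ (by exact_mod_cast h1.one_lt)

lemma H1c_conj {p : ℕ} (hp : p.Prime) (P P' : Ideal (𝓞 Qb)) [P.IsPrime] [P'.IsPrime]
    (h1 : (p : 𝓞 Qb) ∈ P) (h2 : (p : 𝓞 Qb) ∈ P') : ∃ ρ : GQ, ∀ b, b ∈ P ↔ ρ • b ∈ P' :=
  BValB_conj ℚ P P' fun x => by
    obtain ⟨n, rfl⟩ := Rat.ringOfIntegersEquiv.symm.surjective x
    rw [eq_intCast Rat.ringOfIntegersEquiv.symm, map_intCast, BValB_int P hp h1,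
      BValB_int _ hp h2]

lemma H1c_cen {p : ℕ} {v : AbsoluteValue Qb ℝ} (hv : IsNonarchimedean v) (h : v (p : Qb) < 1) :
    (p : 𝓞 Qb) ∈ BValB_cen hv := by
  rw [BValB_mem, RingOfIntegers.coe_eq_algebraMap, map_natCast]
  exact h

lemma H1c_le {p : ℕ} (hp : p.Prime) {v w : AbsoluteValue Qb ℝ} (hv : IsNonarchimedean v)
    (hw : IsNonarchimedean w) (h : v (p : Qb) < 1)
    (e : ∀ b : Qb, IsIntegral ℤ b → w b < 1 → v b < 1) {x : Qb} (hx : v x ≤ 1) : w x ≤ 1 := by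
  obtain ⟨a, b, ha, hb, hb1, hab⟩ := frac hv hp h hx
  have h1 : 1 ≤ w b := not_lt.1 fun hc => absurd (e b hb hc) (by rw [hb1]; exact lt_irrefl _)
  have h2 : w x * w b ≤ 1 := by rw [← map_mul, hab]; exact v_int hw ha
  exact (le_mul_of_one_le_right (w.nonneg _) h1).trans h2

lemma H1c_eq {p : ℕ} {v w : AbsoluteValue Qb ℝ} (hv : IsPl p v) (hw : IsPl p w) (hp : p ≠ 0)
    (e : ∀ b : Qb, IsIntegral ℤ b → (w b < 1 ↔ v b < 1)) (x : Qb) : w x = v x := by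
  obtain ⟨h0, v1, v2, v3⟩ := H1c_spec hv hp
  obtain ⟨-, w1, w2, w3⟩ := H1c_spec hw hp
  have hle : ∀ x, v x ≤ 1 ↔ w x ≤ 1 := fun x =>
    ⟨H1c_le h0 v1 w1 v3 fun b hb => (e b hb).1, H1c_le h0 w1 v1 w3 fun b hb => (e b hb).2⟩
  have heq : v.IsEquiv w := fun x y => by
    by_cases hy : y = 0
    · subst hy
      simp
    · have := hle (x / y)
      rwa [map_div₀, map_div₀, div_le_one (v.pos hy), div_le_one (w.pos hy)] at this
  obtain ⟨c, -, hc⟩ := AbsoluteValue.isEquiv_iff_exists_rpow_eq.1 heq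
  have h1 : v (p : Qb) ^ c = v (p : Qb) ^ (1 : ℝ) := by
    rw [Real.rpow_one]
    exact (congrFun hc (p : Qb)).trans (w2.trans v2.symm)
  have h2 : c = 1 :=
    (Real.rpow_right_inj (v.pos (Nat.cast_ne_zero.2 hp)) v3.ne).1 h1
  rw [← congrFun hc x, h2]
  exact Real.rpow_one _

lemma H1c_center (K : IntermediateField ℚ Qb) [FiniteDimensional ℚ K] (Q : Ideal (𝓞 K))
    [Q.IsMaximal] {p : ℕ} (hp : p.Prime) (hq : (p : 𝓞 K) ∈ Q) :
    ∃ v, IsPl p v ∧ ∀ x : 𝓞 K, x ∈ Q ↔ v ((x : K) : Qb) < 1 := by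
  obtain ⟨P, hP, hPQ⟩ := Ideal.exists_ideal_over_maximal_of_isIntegral (S := 𝓞 Qb) Q
    (by rw [RingOfIntegers.ker_algebraMap_eq_bot]; exact bot_le)
  obtain ⟨v, hv⟩ := exists_isPl (Or.inr hp)
  obtain ⟨-, v1, -, v3⟩ := H1c_spec hv hp.ne_zero
  have := BValB_prime v1
  have h1 : (p : 𝓞 Qb) ∈ P := by
    rw [← hPQ, Ideal.mem_comap, map_natCast] at hq
    exact hq
  obtain ⟨ρ, hρ⟩ := H1c_conj hp P (BValB_cen v1) h1 (H1c_cen v1 v3)
  refine ⟨_, hv.comp ρ, fun x => ?_⟩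
  rw [← hPQ, Ideal.mem_comap, hρ, BValB_mem]
  rfl

lemma H1c_root (K : IntermediateField ℚ Qb) [FiniteDimensional ℚ K] (χ : K.fixingSubgroup →* ℤˣ)
    (L : IntermediateField ℚ Qb) [FiniteDimensional ℚ L]
    (hL : ∀ σ : K.fixingSubgroup, (∀ x ∈ L, (σ : GQ) x = x) → χ σ = 1) :
    ∃ a : Qb, a ≠ 0 ∧ ∀ σ : K.fixingSubgroup, (σ : GQ) a = ((χ σ : ℤ) : Qb) * a := by
  by_cases hχ : ∀ σ, χ σ = 1
  · exact ⟨1, one_ne_zero, fun σ => by rw [hχ]; simp⟩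
  push Not at hχ
  obtain ⟨s, hs⟩ := hχ
  have hs' : χ s = -1 := (Int.units_eq_one_or _).resolve_left hs
  set H : Subgroup GQ := χ.ker.map K.fixingSubgroup.subtype with hHdef
  have hopen : IsOpen (H : Set GQ) := by
    refine Subgroup.isOpen_mono (H₁ := K.fixingSubgroup ⊓ L.fixingSubgroup) ?_
      (K.fixingSubgroup_isOpen.inter L.fixingSubgroup_isOpen)
    rintro σ ⟨h1, h2⟩
    exact ⟨⟨σ, h1⟩, hL _ ((IntermediateField.mem_fixingSubgroup_iff L σ).1 h2), rfl⟩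
  have hH : (IntermediateField.fixedField H).fixingSubgroup = H :=
    InfiniteGalois.fixingSubgroup_fixedField ⟨H, H.isClosed_of_isOpen hopen⟩
  have hsH : (s : GQ) ∉ (IntermediateField.fixedField H).fixingSubgroup := by
    rw [hH]
    rintro ⟨t, ht, e⟩
    have : t = s := Subtype.ext e
    exact hs (this ▸ ht)
  rw [IntermediateField.mem_fixingSubgroup_iff] at hsH
  push Not at hsH
  obtain ⟨y, hy, hsy⟩ := hsH
  have fix : ∀ τ : K.fixingSubgroup, χ τ = 1 → (τ : GQ) y = y := fun τ hτ =>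
    (IntermediateField.mem_fixedField_iff H y).1 hy _ ⟨τ, hτ, rfl⟩
  have mov : ∀ τ : K.fixingSubgroup, χ τ = -1 → (τ : GQ) y = (s : GQ) y := fun τ hτ => by
    have h1 := fix (s⁻¹ * τ) (by rw [map_mul, map_inv, hs', hτ]; simp)
    nth_rewrite 2 [← h1]
    rw [← AlgEquiv.mul_apply, ← Subgroup.coe_mul, mul_inv_cancel_left]
  refine ⟨y - (s : GQ) y, sub_ne_zero.2 hsy.symm, fun σ => ?_⟩
  rw [map_sub, ← AlgEquiv.mul_apply, ← Subgroup.coe_mul]
  rcases Int.units_eq_one_or (χ σ) with h | h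
  · rw [fix σ h, mov (σ * s) (by rw [map_mul, h, hs', one_mul]), h]
    simp
  · rw [mov σ h, fix (σ * s) (by rw [map_mul, h, hs']; simp), h]
    simp

end

/-- two places above the same `p` are Galois conjugate over `ℚ`. -/
theorem IsPl.exists_conj {p : ℕ} {v w : AbsoluteValue Qb ℝ} (hv : IsPl p v) (hw : IsPl p w) :
    ∃ σ : Qb ≃ₐ[ℚ] Qb, ∀ x, w x = v (σ x) := by
  by_cases hp : p = 0
  · subst hp
    obtain ⟨-, ι, h1⟩ | h1 := hv
    swap
    · exact absurd h1.1 Nat.not_prime_zero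
    obtain ⟨-, κ, h2⟩ | h2 := hw
    swap
    · exact absurd h2.1 Nat.not_prime_zero
    let _ : Algebra Qb ℂ := ι.toAlgebra
    have : IsScalarTower ℚ Qb ℂ := IsScalarTower.of_algebraMap_eq fun x => by
      simp [RingHom.algebraMap_toAlgebra]
    refine ⟨κ.toRatAlgHom.restrictNormal' Qb, fun x => ?_⟩
    rw [h1, h2]
    exact congrArg norm (κ.toRatAlgHom.restrictNormal_commutes Qb x).symm
  · obtain ⟨h0, v1, -, v3⟩ := H1c_spec hv hp
    obtain ⟨-, w1, -, w3⟩ := H1c_spec hw hp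
    have := H1c.BValB_prime v1
    have := H1c.BValB_prime w1
    obtain ⟨ρ, hρ⟩ := H1c_conj h0 _ _ (H1c_cen w1 w3) (H1c_cen v1 v3)
    exact ⟨ρ, H1c_eq (hv.comp ρ) hw hp fun b hb => hρ ⟨b, hb⟩⟩

/-- `K(S,2)` is finite: finitely many quadratic characters of the absolute Galois group of a number
field are trivial on all inertia groups above the primes `p ≥ N`. -/
theorem finite_unram_char (K : IntermediateField ℚ Qb) [FiniteDimensional ℚ K] (N : ℕ) :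
    {χ : K.fixingSubgroup →* ℤˣ |
      (∃ L : IntermediateField ℚ Qb, FiniteDimensional ℚ L ∧
        ∀ σ : K.fixingSubgroup, (∀ x ∈ L, (σ : Qb ≃ₐ[ℚ] Qb) x = x) → χ σ = 1) ∧
      ∀ p v, IsPl p v → N ≤ p → p ≠ 0 → ∀ σ : K.fixingSubgroup,
        (∀ x, v x ≤ 1 → v ((σ : Qb ≃ₐ[ℚ] Qb) x - x) < 1) → χ σ = 1}.Finite := by
  have : NumberField K := NumberField.of_module_finite ℚ K
  have hm : (Ideal.span {((N.factorial : ℕ) : NumberField.RingOfIntegers K)}) ≠ 0 := by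
    simpa using N.factorial_ne_zero
  obtain ⟨R, hR, hRs⟩ := H1c.finSq_outside (L := K) _ (Ideal.finite_factors hm)
  choose r hr using fun f : K => IsAlgClosed.exists_pow_nat_eq (f : Qb) two_pos
  refine (hR.biUnion (t := fun f => {χ : K.fixingSubgroup →* ℤˣ | r f ≠ 0 ∧
      ∀ σ : K.fixingSubgroup, (σ : Qb ≃ₐ[ℚ] Qb) (r f) = ((χ σ : ℤ) : Qb) * r f}) ?_).subset ?_
  · intro f _
    refine Set.Subsingleton.finite ?_
    rintro χ ⟨h0, h1⟩ χ' ⟨-, h2⟩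
    ext σ
    have := mul_right_cancel₀ h0 ((h1 σ).symm.trans (h2 σ))
    exact_mod_cast this
  rintro χ ⟨⟨L, hL, hL'⟩, hun⟩
  obtain ⟨a, ha0, ha⟩ := H1c_root K χ L hL'
  have hsq : a ^ 2 ∈ K := by
    rw [← InfiniteGalois.fixedField_fixingSubgroup K, IntermediateField.mem_fixedField_iff]
    intro σ hσ
    rw [map_pow, ha ⟨σ, hσ⟩, mul_pow, ← Int.cast_pow, ← Units.val_pow_eq_pow_val,
      Int.units_sq]
    simp
  have hα : (⟨a ^ 2, hsq⟩ : K) ≠ 0 := fun e => pow_ne_zero 2 ha0 (congrArg Subtype.val e)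
  obtain ⟨f, hf, β, e⟩ := hRs ⟨a ^ 2, hsq⟩ ⟨hα, fun Q hQ => by
    have := Q.isMaximal
    obtain ⟨p, n, -, hpQ, hp, -⟩ := Ideal.exists_prime_and_absNorm_eq_pow Q.asIdeal
    have hNp : N ≤ p := by
      by_contra hc
      obtain ⟨c, hc⟩ := (hp.dvd_factorial).2 (not_le.1 hc).le
      refine hQ (Ideal.dvd_span_singleton.2 ?_)
      rw [hc, Nat.cast_mul]
      exact Q.asIdeal.mul_mem_right _ hpQ
    obtain ⟨v, hv, hQv⟩ := H1c_center K Q.asIdeal hp hpQ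
    obtain ⟨-, v1, -, v3⟩ := H1c_spec hv hp.ne_zero
    obtain ⟨x, hx, hxa⟩ := H1c.ram_a K v1 hp v3 (y := a) fun τ h1 h2 => by
      have h3 : τ ∈ K.fixingSubgroup := (IntermediateField.mem_fixingSubgroup_iff K τ).2 h1
      have h4 := ha ⟨τ, h3⟩
      rw [hun p v hv hNp hp.ne_zero ⟨τ, h3⟩ h2] at h4
      simpa using h4
    have hx0 : x ≠ 0 := by
      rintro rfl
      rw [map_zero] at hxa
      exact (v.pos ha0).ne hxa
    have hx1 : (⟨x, hx⟩ : K) ≠ 0 := fun e => hx0 (congrArg Subtype.val e)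
    have h5 := H1c.val_one (w := v.comp (f := algebraMap K Qb) (RingHom.injective _)) Q hQv
      (fun x z => v1 (x : Qb) (z : Qb)) (y := ⟨a ^ 2, hsq⟩ / ⟨x, hx⟩ ^ 2) (by
        change v (a ^ 2 / x ^ 2) = 1
        rw [map_div₀, map_pow, map_pow, hxa, div_self (pow_ne_zero 2 (v.pos ha0).ne')])
    rw [map_div₀, div_eq_one_iff_eq ((Valuation.ne_zero_iff _).2 (pow_ne_zero 2 hx1))] at h5
    have h6 : H1c.ordAt Q ⟨a ^ 2, hsq⟩ = H1c.ordAt Q (⟨x, hx⟩ ^ 2) := congrArg WithZero.log h5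
    rw [h6, H1c.ordAt_pow]
    exact Even.mul_right (by decide) _⟩
  have e1 : a ^ 2 = (r f * β) ^ 2 := by
    rw [mul_pow, hr]
    exact congrArg Subtype.val e
  have h0 : r f * β ≠ 0 := fun h => pow_ne_zero 2 ha0 (by rw [e1, h]; simp)
  refine Set.mem_biUnion hf ⟨left_ne_zero_of_mul h0, fun σ => ?_⟩
  have hβ : (σ : Qb ≃ₐ[ℚ] Qb) β = β := (IntermediateField.mem_fixingSubgroup_iff K _).1 σ.2 _ β.2
  have h1 := ha σ
  refine mul_right_cancel₀ (right_ne_zero_of_mul h0) ?_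
  rcases sq_eq_sq_iff_eq_or_eq_neg.1 e1 with h | h
  · rw [h, map_mul, hβ] at h1
    rw [h1, mul_assoc]
  · rw [h, map_neg, map_mul, hβ, mul_neg, neg_inj] at h1
    rw [h1, mul_assoc]

end Pool.Agent.E6b
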