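import Pool.Agent.E6b.H2

open scoped NNReal TensorProduct IntermediateField BigOperators Classical Topology
open Filter

namespace Pool.Agent.E6b

open Polynomial

theorem H3_isAlgebraic : Algebra.IsAlgebraic ℚ Qb := by
  convert AlgebraicClosure.isAlgebraic ℚ
  · rfl
  · exact Subsingleton.elim _ _

theorem H3_isAlgClosure : IsAlgClosure ℚ Qb :=
  ⟨inferInstance, H3_isAlgebraic⟩

theorem H3_isGalois : IsGalois ℚ Qb :=
  have := H3_isAlgClosure
  IsAlgClosure.isGalois ℚ Qb

theorem H3_h1_zero : h1 (0 : Qb) ≤ 0 := by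
  have := h1_natCast_le 0
  simpa using this

theorem H3_h1_one : h1 (1 : Qb) ≤ 0 := by
  have := h1_pow (1 : Qb) 0
  simp only [pow_zero, Nat.cast_zero, zero_mul] at this
  exact this.le

/-- coprime integers: the logarithm of the larger one is at most the height of the pair. -/
theorem H3_log_le_ht {a b : ℤ} (hab : IsCoprime a b) {M : ℝ} (hM : 0 < M)
    (h : M ≤ |(a : ℝ)| ∨ M ≤ |(b : ℝ)|) :
    Real.log M ≤ ht {(a : Qb), (b : Qb)} := by
  have hne : ∃ x ∈ ({(a : Qb), (b : Qb)} : Finset Qb), x ≠ 0 := by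
    rcases h with h | h
    · refine ⟨a, by simp, ?_⟩
      intro h0
      have : a = 0 := by exact_mod_cast h0
      subst this
      simp at h
      linarith
    · refine ⟨b, by simp, ?_⟩
      intro h0
      have : b = 0 := by exact_mod_cast h0
      subst this
      simp at h
      linarith
  have key := ht_le_of_local1 (s := {(1 : Qb)}) (t := {(a : Qb), (b : Qb)})
    ⟨1, by simp, one_ne_zero⟩ hne 1 (c := M⁻¹) (inv_pos.mpr hM) ?_
  · rw [htSpec.single 1 one_ne_zero, Real.log_inv] at key
    simp only [Nat.cast_one, one_mul] at key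
    linarith
  · intro p v hv
    have ha : v (a : Qb) ≤ nrm v {(a : Qb), (b : Qb)} := le_nrm v (by simp)
    have hb : v (b : Qb) ≤ nrm v {(a : Qb), (b : Qb)} := le_nrm v (by simp)
    have h0 := nrm_nonneg v {(a : Qb), (b : Qb)}
    rw [pow_one]
    by_cases hp : p = 0
    · subst hp
      have e1 : v (a : Qb) = |(a : ℝ)| := by
        have := hv.eq_abs (a : ℚ)
        simpa using this
      have e2 : v (b : Qb) = |(b : ℝ)| := by
        have := hv.eq_abs (b : ℚ)
        simpa using this
      have hM' : M ≤ nrm v {(a : Qb), (b : Qb)} := by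
        rcases h with h | h
        · exact h.trans (e1 ▸ ha)
        · exact h.trans (e2 ▸ hb)
      refine nrm_le v (mul_nonneg (by simp [th, hM.le]) h0) ?_
      intro x hx
      rw [Finset.mem_singleton] at hx
      subst hx
      simp only [th, if_true, map_one]
      rw [← div_eq_inv_mul, le_div_iff₀ hM]
      linarith
    · refine nrm_le v (mul_nonneg (by simp [th, hp]) h0) ?_
      intro x hx
      rw [Finset.mem_singleton] at hx
      subst hx
      simp only [th, if_neg hp, one_mul]
      obtain ⟨c, d, hcd⟩ := hab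
      have e : (1 : Qb) = (c : Qb) * a + (d : Qb) * b := by
        have := congrArg (fun z : ℤ => (z : Qb)) hcd
        simpa using this.symm
      have hc : v (c : Qb) ≤ 1 :=
        hv.le_one_of_isIntegral hp (by simpa using isIntegral_algebraMap (R := ℤ) (A := Qb) (x := c))
      have hd : v (d : Qb) ≤ 1 :=
        hv.le_one_of_isIntegral hp (by simpa using isIntegral_algebraMap (R := ℤ) (A := Qb) (x := d))
      rw [e]
      refine (hv.nonarch hp _ _).trans (max_le ?_ ?_)
      · rw [map_mul]
        calc v c * v a ≤ 1 * v a := mul_le_mul_of_nonneg_right hc (v.nonneg _)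
          _ ≤ _ := by rw [one_mul]; exact ha
      · rw [map_mul]
        calc v d * v b ≤ 1 * v b := mul_le_mul_of_nonneg_right hd (v.nonneg _)
          _ ≤ _ := by rw [one_mul]; exact hb

theorem H3_h1_rat (q : ℚ) : h1 (q : Qb) = ht {((q.den : ℤ) : Qb), (q.num : Qb)} := by
  have hd : ((q.den : ℤ) : Qb) ≠ 0 := by exact_mod_cast q.den_nz
  have := ht_smul hd {1, (q : Qb)}
  rw [h1, ← this]
  congr 1
  rw [Finset.image_insert, Finset.image_singleton, mul_one]
  congr 2
  have h2 : (q.den : ℚ) * q = q.num := Rat.den_mul_eq_num q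
  have := congrArg (fun z : ℚ => (z : Qb)) h2
  simp only [Rat.cast_mul, Rat.cast_natCast, Rat.cast_intCast] at this
  rw [Int.cast_natCast]
  exact this

/-- Northcott over `ℚ`. -/
theorem H3_northcott_rat (B : ℝ) : {q : ℚ | h1 (q : Qb) ≤ B}.Finite := by
  obtain ⟨N, hN⟩ := exists_nat_ge (Real.exp B)
  have hfin : ((fun z : ℤ × ℤ => (z.1 : ℚ) / (z.2 : ℚ)) ''
      (Set.Icc (-(N : ℤ)) N ×ˢ Set.Icc (-(N : ℤ)) N)).Finite :=
    ((Set.finite_Icc _ _).prod (Set.finite_Icc _ _)).image _
  refine hfin.subset ?_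
  intro q hq
  change h1 (q : Qb) ≤ B at hq
  rw [H3_h1_rat] at hq
  have hcop : IsCoprime (q.den : ℤ) q.num := by
    rw [Int.isCoprime_iff_gcd_eq_one]
    have := q.reduced
    rw [Int.gcd, Int.natAbs_natCast, Nat.gcd_comm]
    exact this
  have bound : ∀ z : ℤ, z = q.den ∨ z = q.num → z ∈ Set.Icc (-(N : ℤ)) N := by
    intro z hz
    rw [Set.mem_Icc, ← abs_le]
    by_cases h0 : z = 0
    · subst h0; simp
    · have hpos : (0 : ℝ) < |(z : ℝ)| := abs_pos.mpr (by exact_mod_cast h0)
      have h2 := H3_log_le_ht hcop hpos (by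
        rcases hz with hz | hz
        · left; rw [hz]
        · right; rw [hz])
      have h3 : |(z : ℝ)| ≤ Real.exp B := by
        rw [← Real.log_le_iff_le_exp hpos]
        exact h2.trans hq
      have h4 : |(z : ℝ)| ≤ (N : ℝ) := h3.trans hN
      exact_mod_cast h4
  refine ⟨(q.num, (q.den : ℤ)), ⟨bound _ (Or.inr rfl), bound _ (Or.inl rfl)⟩, ?_⟩
  simpa using Rat.num_div_den q

/-- coefficients of a split monic polynomial with roots of bounded height. -/
theorem H3_coeff_bound (B : ℝ) (d : ℕ) : ∃ E : ℝ, 0 ≤ E ∧ ∀ s : Multiset Qb, Multiset.card s ≤ d →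
    (∀ a ∈ s, h1 a ≤ B) → ∀ n, h1 ((s.map (fun r => (X - C r : Qb[X]))).prod.coeff n) ≤ E := by
  have base : ∀ n, h1 ((1 : Qb[X]).coeff n) ≤ 0 := by
    intro n
    rw [coeff_one]
    split_ifs
    · exact H3_h1_one
    · exact H3_h1_zero
  induction d with
  | zero =>
    refine ⟨0, le_rfl, ?_⟩
    intro s hs _ n
    have : s = 0 := Multiset.card_eq_zero.mp (Nat.le_zero.mp hs)
    subst this
    simpa using base n
  | succ d ih =>
    obtain ⟨E, hE, ih⟩ := ih
    have hl : 0 ≤ Real.log 2 := Real.log_nonneg (by norm_num)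
    refine ⟨E + (|B| + E) + Real.log 2, by positivity, ?_⟩
    intro s hs hB n
    rcases Multiset.empty_or_exists_mem s with rfl | ⟨a, ha⟩
    · have := base n
      simp only [Multiset.map_zero, Multiset.prod_zero]
      have h2 : 0 ≤ E + (|B| + E) + Real.log 2 := by positivity
      linarith
    · obtain ⟨t, rfl⟩ := Multiset.exists_cons_of_mem ha
      rw [Multiset.card_cons] at hs
      have ht' := ih t (by omega) (fun x hx => hB x (Multiset.mem_cons_of_mem hx))
      have haB : h1 a ≤ |B| := (hB a ha).trans (le_abs_self B)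
      rw [Multiset.map_cons, Multiset.prod_cons]
      set P := (t.map (fun r => (X - C r : Qb[X]))).prod
      have e : ((X - C a) * P).coeff n = (X * P).coeff n + (-(a * P.coeff n)) := by
        rw [sub_mul, coeff_sub, coeff_C_mul, sub_eq_add_neg]
      have h2 : h1 ((X * P).coeff n) ≤ E := by
        cases n with
        | zero => rw [coeff_X_mul_zero]; exact H3_h1_zero.trans hE
        | succ n => rw [coeff_X_mul]; exact ht' n
      have h3 : h1 (-(a * P.coeff n)) ≤ |B| + E := by
        rw [h1_neg]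
        exact (h1_mul_le _ _).trans (add_le_add haB (ht' n))
      rw [e]
      refine (h1_add_le _ _).trans ?_
      linarith

/-- Northcott -/
theorem northcott (B : ℝ) (d : ℕ) :
    {a : Qb | h1 a ≤ B ∧ (minpoly ℚ a).natDegree ≤ d}.Finite := by
  have := H3_isGalois
  obtain ⟨E, -, hE⟩ := H3_coeff_bound B d
  refine (Polynomial.bUnion_roots_finite (algebraMap ℚ Qb) d (H3_northcott_rat E)).subset ?_
  rintro a ⟨haB, had⟩
  have halg : IsAlgebraic ℚ a := Algebra.IsAlgebraic.isAlgebraic a
  have hint : IsIntegral ℚ a := halg.isIntegral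
  have hm : ((minpoly ℚ a).map (algebraMap ℚ Qb)).Monic := (minpoly.monic hint).map _
  have hs : ((minpoly ℚ a).map (algebraMap ℚ Qb)).Splits := IsAlgClosed.splits _
  simp only [Set.mem_iUnion]
  refine ⟨minpoly ℚ a, ⟨had, ?_⟩, ?_⟩
  · intro i
    have h2 := hE ((minpoly ℚ a).map (algebraMap ℚ Qb)).roots ?_ ?_ i
    · rw [← hs.eq_prod_roots_of_monic hm, coeff_map] at h2
      simpa using h2
    · refine (card_roots' _).trans ?_
      rw [natDegree_map]
      exact had
    · intro r hr
      rw [mem_roots hm.ne_zero, IsRoot.def, eval_map_algebraMap] at hr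
      obtain ⟨σ, hσ⟩ := minpoly.exists_algEquiv_of_root' halg hr
      rw [← hσ, h1_gal]
      exact haB
  · rw [Finset.mem_coe, Multiset.mem_toFinset, mem_roots hm.ne_zero, IsRoot.def,
      eval_map_algebraMap]
    exact minpoly.aeval ℚ a

theorem northcott_field (K : IntermediateField ℚ Qb) [FiniteDimensional ℚ K] (B : ℝ) :
    {a : Qb | a ∈ K ∧ h1 a ≤ B}.Finite := by
  refine (northcott B (Module.finrank ℚ K)).subset ?_
  rintro a ⟨haK, haB⟩
  refine ⟨haB, ?_⟩
  have h := minpoly.natDegree_le (A := ℚ) (⟨a, haK⟩ : K)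
  rwa [← minpoly.algebraMap_eq (A := ℚ) (algebraMap K Qb).injective] at h

/-- an element fixed by all automorphisms fixing `K` lies in `K`. -/
theorem mem_of_fixed (K : IntermediateField ℚ Qb) {a : Qb}
    (h : ∀ σ : Qb ≃ₐ[ℚ] Qb, (∀ x ∈ K, σ x = x) → σ a = a) : a ∈ K := by
  have := H3_isGalois
  rw [← InfiniteGalois.fixedField_fixingSubgroup K, IntermediateField.mem_fixedField_iff]
  intro σ hσ
  exact h σ ((IntermediateField.mem_fixingSubgroup_iff K σ).mp hσ)

/-- an element with at most `d` conjugates over `K`. -/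
theorem natDegree_minpoly_le (K : IntermediateField ℚ Qb) [FiniteDimensional ℚ K] {a : Qb}
    (s : Finset Qb) (h : ∀ σ : Qb ≃ₐ[ℚ] Qb, (∀ x ∈ K, σ x = x) → σ a ∈ s) :
    (minpoly ℚ a).natDegree ≤ s.card * Module.finrank ℚ K := by
  have := H3_isGalois
  have : IsGalois K Qb := IsGalois.tower_top_of_isGalois ℚ K Qb
  have halg : IsAlgebraic K a := Algebra.IsAlgebraic.isAlgebraic a
  have hint : IsIntegral K a := halg.isIntegral
  have hsep : (minpoly K a).Separable := Algebra.IsSeparable.isSeparable K a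
  have hcard : (minpoly K a).natDegree ≤ s.card := by
    rw [← card_rootSet_eq_natDegree (K := Qb) hsep (IsAlgClosed.splits _)]
    have hsub : (minpoly K a).rootSet Qb ⊆ (s : Set Qb) := by
      intro r hr
      have hr' := (mem_rootSet.mp hr).2
      obtain ⟨σ, hσ⟩ := minpoly.exists_algEquiv_of_root' halg hr'
      rw [← hσ]
      exact h (σ.restrictScalars ℚ) (fun x hx => σ.commutes ⟨x, hx⟩)
    rw [← Set.toFinset_card]
    exact Finset.card_le_card (fun x hx => hsub (Set.mem_toFinset.mp hx))
  have : FiniteDimensional K K⟮a⟯ := IntermediateField.adjoin.finiteDimensional hint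
  have : FiniteDimensional ℚ K⟮a⟯ := Module.Finite.trans K K⟮a⟯
  have h1' := minpoly.natDegree_le (A := ℚ) (IntermediateField.AdjoinSimple.gen K a)
  have h2 : minpoly ℚ (IntermediateField.AdjoinSimple.gen K a) = minpoly ℚ a := by
    rw [← minpoly.algebraMap_eq (A := ℚ) (algebraMap K⟮a⟯ Qb).injective,
      IntermediateField.AdjoinSimple.algebraMap_gen]
  rw [h2, ← Module.finrank_mul_finrank ℚ K K⟮a⟯, IntermediateField.adjoin.finrank hint] at h1'
  refine h1'.trans ?_
  rw [mul_comm]
  exact Nat.mul_le_mul_right _ hcard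

end Pool.Agent.E6b
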