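import Pool.Agent.E6b.P6
import Pool.Agent.E6b.H1c
import Pool.Agent.E6b.H3

open scoped NNReal TensorProduct IntermediateField BigOperators Classical Topology
open Filter

namespace Pool.Agent.E6b

theorem MW1_sign : ∃ e : ZMod 2 → ℤˣ, (∀ r s, e (r + s) = e r * e s) ∧ ∀ r, e r = 1 → r = 0 :=
  ⟨fun r => if r.val = 0 then 1 else -1, by decide, by decide⟩

/-- sign characters separate the points of the two torsion -/
theorem MW1_char {A : Type} [AddCommGroup A] {a : A} (h2 : 2 • a = 0) (ha : a ≠ 0) :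
    ∃ ψ : A → ℤˣ, (∀ b c, 2 • b = 0 → 2 • c = 0 → ψ (b + c) = ψ b * ψ c) ∧ ψ a ≠ 1 := by
  let T : AddSubgroup A := (nsmulAddMonoidHom (α := A) 2).ker
  have hT : ∀ b, b ∈ T ↔ 2 • b = 0 := fun b => Iff.rfl
  let : Module (ZMod 2) T := AddCommGroup.zmodModule fun x => Subtype.ext ((hT x).1 x.2)
  have : Fact (Nat.Prime 2) := ⟨Nat.prime_two⟩
  have ha' : (⟨a, (hT a).2 h2⟩ : T) ≠ 0 := fun h => ha (congrArg Subtype.val h)
  obtain ⟨f, hf⟩ := not_forall.1 (mt (Module.forall_dual_apply_eq_zero_iff (ZMod 2) _).1 ha')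
  obtain ⟨e, he, he1⟩ := MW1_sign
  refine ⟨fun b => if h : b ∈ T then e (f ⟨b, h⟩) else 1, fun b c hb hc => ?_, ?_⟩
  · have hb' := (hT b).2 hb
    have hc' := (hT c).2 hc
    simp only [dif_pos hb', dif_pos hc', dif_pos (T.add_mem hb' hc')]
    rw [← he, ← map_add]
    rfl
  · simp only [dif_pos ((hT a).2 h2)]
    exact fun h => hf (he1 _ h)

/-- the group theoretic part of the weak Mordell-Weil theorem -/
theorem MW1_abs {Γ A : Type} [Group Γ] [AddCommGroup A] (act : Γ → A →+ A)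
    (hmul : ∀ σ σ' a, act (σ * σ') a = act σ (act σ' a)) (hT : {a : A | 2 • a = 0}.Finite)
    (hfix : ∀ σ a, 2 • a = 0 → act σ a = a) (hdiv : ∀ w : A, ∃ x : A, 2 • x = w)
    (X : Set (Γ →* ℤˣ)) (hX : X.Finite)
    (hmem : ∀ x : A, (∀ σ, 2 • (act σ x - x) = 0) → ∀ χ : Γ →* ℤˣ,
      (∀ σ, act σ x = x → χ σ = 1) → χ ∈ X) :
    ∃ S : Finset A, ∀ w, (∀ σ, act σ w = w) →
      ∃ s ∈ S, ∃ x, (∀ σ, act σ x = x) ∧ w = s + 2 • x := by
  choose x hx using hdiv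
  let T := {t : A // 2 • t = 0 ∧ t ≠ 0}
  have : Finite T := (hT.subset fun t (ht : 2 • t = 0 ∧ t ≠ 0) => ht.1).to_subtype
  have : Finite X := hX.to_subtype
  have hψ := fun t : T => MW1_char t.2.1 t.2.2
  choose ψ hψ hψ1 using hψ
  have hψ0 : ∀ t, ψ t 0 = 1 := fun t => by
    have := hψ t 0 0 (smul_zero _) (smul_zero _)
    rw [add_zero] at this
    exact left_eq_mul.1 this
  let G := {w : A // ∀ σ, act σ w = w}
  have : Nonempty G := ⟨⟨0, fun σ => map_zero _⟩⟩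
  have hk : ∀ (w : G) σ, 2 • (act σ (x w) - x w) = 0 := fun w σ => by
    rw [smul_sub, ← map_nsmul, hx, w.2, sub_self]
  have hk2 : ∀ (w : G) σ σ', act (σ * σ') (x w) - x w =
      (act σ (x w) - x w) + (act σ' (x w) - x w) := fun w σ σ' => by
    have := hfix σ _ (hk w σ')
    rw [map_sub] at this
    rw [hmul, ← this]
    abel
  let χ : G → T → Γ →* ℤˣ := fun w t => MonoidHom.mk' (fun σ => ψ t (act σ (x w) - x w))
    fun σ σ' => by rw [hk2, hψ t _ _ (hk w σ) (hk w σ')]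
  have hχ : ∀ w t σ, χ w t σ = ψ t (act σ (x w) - x w) := fun _ _ _ => rfl
  let Φ : G → T → X := fun w t => ⟨χ w t, hmem (x w) (hk w) _ fun σ h => by
    rw [hχ, h, sub_self, hψ0]⟩
  refine ⟨(Set.finite_range fun c => (Function.invFun Φ c).1).toFinset, fun w hw => ?_⟩
  let w₁ : G := ⟨w, hw⟩
  let w₂ : G := Function.invFun Φ (Φ w₁)
  have h12 : Φ w₂ = Φ w₁ := Function.invFun_eq ⟨w₁, rfl⟩
  refine ⟨w₂.1, (Set.Finite.mem_toFinset _).2 ⟨Φ w₁, rfl⟩, x w₁ - x w₂, fun σ => ?_, ?_⟩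
  · by_contra hne
    have hd : 2 • ((act σ (x w₁) - x w₁) - (act σ (x w₂) - x w₂)) = 0 := by
      rw [smul_sub, hk, hk, sub_self]
    have hd0 : (act σ (x w₁) - x w₁) - (act σ (x w₂) - x w₂) ≠ 0 := fun h => hne (by
      rw [map_sub, ← sub_eq_zero, ← h]; abel)
    let t : T := ⟨_, hd, hd0⟩
    have e1 : χ w₂ t σ = χ w₁ t σ := by
      have := congrArg Subtype.val (congrFun h12 t)
      exact DFunLike.congr_fun this σ
    have e2 := hψ t _ _ hd (hk w₂ σ)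
    rw [sub_add_cancel, ← hχ, ← hχ, e1] at e2
    exact hψ1 t (right_eq_mul.1 e2)
  · rw [smul_sub, hx, hx]
    simp [w₁]

variable {F : Type} [Field F] [Algebra Qb F] [IsFF Qb F] (o : Place Qb F)

theorem MW1_fd {S : Set Qb} (hS : S.Finite) : FiniteDimensional ℚ (IntermediateField.adjoin ℚ S) :=
  have := hS.to_subtype
  IntermediateField.finiteDimensional_adjoin fun x _ => (H3_isAlgebraic.isAlgebraic x).isIntegral

/-- a number field over which the curve and the auxiliary data are defined -/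
theorem exists_defField : ∃ K : IntermediateField ℚ Qb, FiniteDimensional ℚ K ∧
    ∀ σ : Qb ≃ₐ[ℚ] Qb, (∀ x ∈ K, σ x = x) → ∃ β : BC o Qb Qb, (∀ x, β.τ x = σ x) ∧ β.Ok := by
  obtain ⟨S, hS⟩ := exists_ok_finset o
  refine ⟨IntermediateField.adjoin ℚ (S : Set Qb), MW1_fd S.finite_toSet, fun σ hσ => ?_⟩
  obtain ⟨β, h1, h2⟩ := hS Qb Qb (σ : Qb →+* Qb) fun c hc =>
    hσ c (IntermediateField.subset_adjoin ℚ _ hc)
  exact ⟨β, fun x => by rw [h1]; rfl, h2⟩

theorem exists_algEquiv_of_bc (β : BC o Qb Qb) : ∃ σ : Qb ≃ₐ[ℚ] Qb, ∀ x, β.τ x = σ x := by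
  have := H3_isAlgebraic
  exact ⟨AlgEquiv.ofBijective β.τ.toRatAlgHom (Algebra.IsAlgebraic.algHom_bijective _),
    fun _ => rfl⟩

theorem GK_mono {K K' : IntermediateField ℚ Qb} (h : K ≤ K') : GK o K ≤ GK o K' :=
  fun _ hw β hβ => hw β fun x hx => hβ x (h hx)

theorem exists_mem_GK (w : Cl o Qb) :
    ∃ K : IntermediateField ℚ Qb, FiniteDimensional ℚ K ∧ w ∈ GK o K := by
  obtain ⟨z, -, -, rfl⟩ := exists_rep w (Fin (2 * genus Qb F)) (by simp) Set.finite_empty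
  refine ⟨IntermediateField.adjoin ℚ
    (Set.range fun q : Fin (2 * genus Qb F) × Fin (MM o) => z q.1 (eb o q.2)),
    MW1_fd (Set.finite_range _), fun β hβ => ?_⟩
  rw [β.cl_clz]
  congr 1
  funext a
  apply pt_ext
  funext i
  simp only [cd]
  rw [β.pt_eb]
  exact hβ _ (IntermediateField.subset_adjoin ℚ _ ⟨(a, i), rfl⟩)

theorem MW1_le {v : AbsoluteValue Qb ℝ} (hv : IsNonarchimedean v) {τ : Qb →+* Qb}
    (h : ∀ x, v x ≤ 1 → v (τ x - x) < 1) {x : Qb} (hx : v x ≤ 1) : v (τ x) ≤ 1 := by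
  have := hv (τ x - x) x
  rw [sub_add_cancel] at this
  exact this.trans (max_le (h x hx).le hx)

theorem MW1_le' {v : AbsoluteValue Qb ℝ} (hv : IsNonarchimedean v) {τ : Qb →+* Qb}
    (h : ∀ x, v x ≤ 1 → v (τ x - x) < 1) {x : Qb} (hx : v (τ x) ≤ 1) : v x ≤ 1 := by
  by_contra hc
  rw [not_le] at hc
  have hx0 : x ≠ 0 := by
    rintro rfl
    rw [map_zero] at hc
    linarith
  have h1 : v x⁻¹ < 1 := by
    rw [map_inv₀]
    exact inv_lt_one_of_one_lt₀ hc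
  have h2 := hv (τ x⁻¹ - x⁻¹) x⁻¹
  rw [sub_add_cancel] at h2
  have h3 : v (τ x⁻¹) < 1 := h2.trans_lt (max_lt (h _ h1.le) h1)
  rw [map_inv₀, map_inv₀] at h3
  have h4 : 0 < v (τ x) := v.pos ((map_ne_zero τ).2 hx0)
  have h5 := (inv_lt_one₀ h4).1 h3
  linarith

theorem MW1_rs {κ Ω : Type} [Field κ] [Field Ω] [Algebra κ Ω] (O : VS κ Ω) {a b : Ω}
    (hb : b ∈ O.1) (h : O.1.valuation (a - b) < 1) : rs O a = rs O b := by
  have h1 : a - b ∈ O.1 := (O.1.valuation_le_one_iff _).1 h.le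
  have h2 := rs_add O h1 hb
  rw [sub_add_cancel, (rs_eq_zero_iff O h1).2 h, zero_add] at h2
  exact h2

theorem MW1_red (U : Ultrafilter ℕ) (v : ℕ → AbsoluteValue Qb ℝ)
    (hv : ∀ n, IsNonarchimedean (v n)) (O : VS Qb (UP U Qb))
    (h1 : ∀ x : ℕ → Qb, gm U x ∈ O.1 ↔ ∀ᶠ n in (U : Filter ℕ), v n (x n) ≤ 1)
    (h2 : ∀ x : ℕ → Qb, O.1.valuation (gm U x) < 1 ↔ ∀ᶠ n in (U : Filter ℕ), v n (x n) < 1)
    (β : ℕ → BC o Qb Qb) (hβ : ∀ n x, v n x ≤ 1 → v n ((β n).τ x - x) < 1) (y : ℕ → Pt o Qb) :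
    red O (plc (ptU U fun n => (β n).pt (y n))) = red O (plc (ptU U y)) := by
  have hI : Intg O (ptU U fun n => (β n).pt (y n)) ↔ Intg O (ptU U y) := by
    rw [intg_iff, intg_iff, ptU_apply, ptU_apply, h1, h1]
    refine eventually_congr (Eventually.of_forall fun n => ?_)
    rw [wN, (β n).pt_eb]
    exact ⟨MW1_le' (hv n) (hβ n), MW1_le (hv n) (hβ n)⟩
  by_cases h : Intg O (ptU U y)
  · rw [red_plc O h, red_plc O (hI.2 h)]
    congr 1
    apply pt_ext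
    funext i
    simp only [cd, redp_apply]
    apply MW1_rs O (h _)
    rw [ptU_apply, ptU_apply, ← gm_sub, h2]
    filter_upwards [(h1 _).1 (h (eb o i))] with n hn
    rw [(β n).pt_eb]
    exact hβ n _ hn
  · rw [red_plc_of_not O h, red_plc_of_not O (mt hI.1 h)]

/-- inertia at large primes acts trivially on division points -/
theorem exists_unram : ∃ N : ℕ, ∀ p v, IsPl p v → N ≤ p → p ≠ 0 → ∀ β : BC o Qb Qb,
    (∀ x, v x ≤ 1 → v (β.τ x - x) < 1) → ∀ x : Cl o Qb, 2 • (β.cl x - x) = 0 → β.cl x = x := by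
  by_contra hc
  push Not at hc
  choose p v hv hN hp β hβ x h2 hne using hc
  let U : Ultrafilter ℕ := hyperfilter ℕ
  have hpt : Tendsto p (U : Filter ℕ) atTop :=
    tendsto_atTop_mono hN (Nat.hyperfilter_le_atTop)
  obtain ⟨O, h1, h1'⟩ := exists_vs_one U p v hv hpt
  obtain ⟨t, -, ht⟩ := exists_eventually_eq U (finite_two_torsion (o := o) (Ω := Qb))
    (f := fun n => (β n).cl (x n) - x n) (Eventually.of_forall h2)
  have ht0 : t ≠ 0 := by
    obtain ⟨n, hn⟩ := ht.exists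
    rw [← hn]
    exact sub_ne_zero.2 (hne n)
  have hz := fun n => exists_rep (x n) (Fin (2 * genus Qb F)) (by simp) Set.finite_empty
  choose z _ _ hz using hz
  have e1 : clU U (fun n => (β n).cl (x n) - x n) = (bc o (dU U Qb Qb)).cl t := by
    rw [← clU_const, clU_eq_iff]
    exact ht
  have e2 : clU U (fun n => (β n).cl (x n) - x n) =
      clz (fun a => ptU U fun n => (β n).pt (z n a)) - clz fun a => ptU U fun n => z n a := by
    rw [clU_sub, ← clU_clz, ← clU_clz]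
    obtain rfl : x = fun n => clz (z n) := funext fun n => (hz n).symm
    simp only [BC.cl_clz]
  have e3 : redCl O o (clU U fun n => (β n).cl (x n) - x n) = 0 := by
    rw [e2, map_sub, clz_eq_sum, clz_eq_sum, map_sum, map_sum, sub_eq_zero]
    refine Finset.sum_congr rfl fun a _ => redCl_cl_congr O ?_
    exact MW1_red o U v (fun n => (hv n).nonarch (hp n)) O h1 h1' β hβ fun n => z n a
  rw [e1, redCl_bc O (dU U Qb Qb) O.2] at e3
  exact ht0 (BC.cl_injective _ (e3.trans (map_zero _).symm))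

/-- weak Mordell-Weil -/
theorem weak_mw (K₀ : IntermediateField ℚ Qb) [FiniteDimensional ℚ K₀] :
    ∃ K : IntermediateField ℚ Qb, K₀ ≤ K ∧ FiniteDimensional ℚ K ∧
      (∀ σ : Qb ≃ₐ[ℚ] Qb, (∀ x ∈ K, σ x = x) → ∃ β : BC o Qb Qb, (∀ x, β.τ x = σ x) ∧ β.Ok) ∧
      ∃ S : Finset (Cl o Qb), ∀ w ∈ GK o K, ∃ s ∈ S, ∃ x ∈ GK o K, w = s + 2 • x := by
  obtain ⟨K₁, hK₁, hdef⟩ := exists_defField o
  choose L hL hLm using exists_mem_GK o
  have hT := finite_two_torsion (o := o) (Ω := Qb)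
  have := hT.to_subtype
  let K₂ : IntermediateField ℚ Qb := ⨆ t : {w : Cl o Qb | 2 • w = 0}, L t
  have : ∀ t : {w : Cl o Qb | 2 • w = 0}, FiniteDimensional ℚ (L t) := fun t => hL t
  have : FiniteDimensional ℚ K₂ := IntermediateField.finiteDimensional_iSup_of_finite
  let K : IntermediateField ℚ Qb := (K₀ ⊔ K₁) ⊔ K₂
  have hK : FiniteDimensional ℚ K := IntermediateField.finiteDimensional_sup _ _
  have hdef' : ∀ σ : Qb ≃ₐ[ℚ] Qb, (∀ x ∈ K, σ x = x) →
      ∃ β : BC o Qb Qb, (∀ x, β.τ x = σ x) ∧ β.Ok := fun σ hσ =>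
    hdef σ fun x hx => hσ x ((le_sup_right.trans le_sup_left : K₁ ≤ K) hx)
  refine ⟨K, le_sup_left.trans le_sup_left, hK, hdef', ?_⟩
  have hfx : ∀ σ : K.fixingSubgroup, ∀ x ∈ K, (σ : Qb ≃ₐ[ℚ] Qb) x = x := fun σ =>
    (IntermediateField.mem_fixingSubgroup_iff K _).1 σ.2
  choose β hβ _ using fun σ : K.fixingSubgroup => hdef' σ (hfx σ)
  have hGK : ∀ w, w ∈ GK o K ↔ ∀ σ, (β σ).cl w = w := fun w => by
    refine ⟨fun h σ => h _ fun x hx => by rw [hβ, hfx σ x hx], fun h b hb => ?_⟩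
    obtain ⟨σ, hσ⟩ := exists_algEquiv_of_bc o b
    have hm : σ ∈ K.fixingSubgroup := (IntermediateField.mem_fixingSubgroup_iff K _).2
      fun x hx => by rw [← hσ, hb x hx]
    have : b = β ⟨σ, hm⟩ := BC.ext_τ (RingHom.ext fun x => by rw [hσ, hβ])
    rw [this]
    exact h _
  obtain ⟨N, hN⟩ := exists_unram o
  obtain ⟨S, hS⟩ := MW1_abs (fun σ : K.fixingSubgroup => (β σ).cl) (fun σ σ' a => by
      have : β (σ * σ') = (β σ).comp (β σ') := BC.ext_τ (RingHom.ext fun x => by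
        change _ = (β σ).τ ((β σ').τ x)
        rw [hβ, hβ, hβ]; rfl)
      simp only [this, BC.comp_cl]) hT
    (fun σ a ha => (hGK a).1 (GK_mono o
      ((le_iSup (fun t : {w : Cl o Qb | 2 • w = 0} => L t) ⟨a, ha⟩).trans le_sup_right) (hLm a)) σ)
    exists_two_smul _ (finite_unram_char K N) fun x hx χ hχ =>
      ⟨⟨L x, hL x, fun σ hσ => hχ σ (hLm x _ fun y hy => by rw [hβ, hσ y hy])⟩,
        fun p v hv hp hp0 σ hσ => hχ σ (hN p v hv hp hp0 _ (fun y hy => by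
          rw [hβ]; exact hσ y hy) x (hx σ))⟩
  refine ⟨S, fun w hw => ?_⟩
  obtain ⟨s, hs, x, hx, e⟩ := hS w ((hGK w).1 hw)
  exact ⟨s, hs, x, (hGK x).2 hx, e⟩

end Pool.Agent.E6b
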