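import Mathlib

open scoped BigOperators Classical

namespace Pool.Agent.E6b

theorem Sieg_frame {κ : Type} [Fintype κ] (U : Submodule ℝ (κ → ℝ)) :
    ∃ (ρ : ℕ) (b : Fin ρ → κ → ℝ), Module.finrank ℝ U + ρ = Fintype.card κ ∧
      (∀ l i, |b l i| ≤ 1) ∧ ∀ z : κ → ℝ, z - ∑ l, (∑ i, b l i * z i) • b l ∈ U := by
  let e : EuclideanSpace ℝ κ ≃ₗ[ℝ] (κ → ℝ) := WithLp.linearEquiv 2 ℝ (κ → ℝ)
  let U' : Submodule ℝ (EuclideanSpace ℝ κ) := U.map e.symm.toLinearMap
  let B := stdOrthonormalBasis ℝ U'ᗮ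
  refine ⟨Module.finrank ℝ U'ᗮ, fun l => e (B l : EuclideanSpace ℝ κ), ?_, ?_, ?_⟩
  · have h1 := Submodule.finrank_add_finrank_orthogonal U'
    have h2 : Module.finrank ℝ U' = Module.finrank ℝ U := LinearEquiv.finrank_map_eq e.symm U
    rw [h2] at h1
    simpa using h1
  · intro l i
    have h1 : ‖(B l : EuclideanSpace ℝ κ)‖ = 1 := B.orthonormal.1 l
    have h2 := PiLp.norm_apply_le (B l : EuclideanSpace ℝ κ) i
    rw [h1] at h2
    simpa [e] using h2
  · intro z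
    have h1 := Submodule.sub_starProjection_mem_orthogonal (K := U'ᗮ) (e.symm z)
    rw [Submodule.orthogonal_orthogonal, B.starProjection_eq_sum_rankOne] at h1
    obtain ⟨u, hu, hu'⟩ := h1
    have h3 : u = e (e.symm z - (∑ i, InnerProductSpace.rankOne ℝ (B i : EuclideanSpace ℝ κ)
        (B i : EuclideanSpace ℝ κ)) (e.symm z)) := by
      rw [← hu']; simp
    suffices h4 : z - ∑ l, (∑ i, e (B l : EuclideanSpace ℝ κ) i * z i) •
        e (B l : EuclideanSpace ℝ κ) = u by rw [h4]; exact hu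
    rw [h3, map_sub, LinearEquiv.apply_symm_apply, sum_apply, map_sum]
    congr 1
    refine Finset.sum_congr rfl fun l _ => ?_
    rw [InnerProductSpace.rankOne_apply, map_smul]
    congr 1
    simp [e, PiLp.inner_apply, mul_comm]

theorem Sieg_pigeon {κ : Type} [Fintype κ] (U : Submodule ℝ (κ → ℝ)) {d T : ℕ} {η A : ℝ}
    (hd : d ≤ Module.finrank ℝ U) (hη : 0 < η) (hA1 : 1 ≤ A) (hM : 0 < Fintype.card κ)
    (hA : 2 * (Fintype.card κ : ℝ) ^ 2 / η ≤ A)
    (hT : A ^ Fintype.card κ < ((T : ℝ) + 1) ^ d) :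
    ∃ x : κ → ℤ, x ≠ 0 ∧ (∀ i, |x i| ≤ T) ∧ ∃ u ∈ U, ∀ i, |(x i : ℝ) - u i| ≤ η := by
  obtain ⟨ρ, b, hρ, hb, hU⟩ := Sieg_frame U
  set M := Fintype.card κ with hMdef
  have hM' : (0 : ℝ) < M := by exact_mod_cast hM
  set δ := η / M with hδ
  have hδ0 : 0 < δ := by positivity
  let K : ℕ := ⌊A * T⌋₊ + 1
  let f : (κ → Fin (T + 1)) → Fin ρ → ℕ := fun y l =>
    ⌊(∑ i, b l i * ((y i : ℕ) : ℝ) + M * T) / δ⌋₊
  have hbd : ∀ (y : κ → Fin (T + 1)) l, |∑ i, b l i * ((y i : ℕ) : ℝ)| ≤ M * T := by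
    intro y l
    calc _ ≤ ∑ i, |b l i * ((y i : ℕ) : ℝ)| := Finset.abs_sum_le_sum_abs _ _
      _ ≤ ∑ _i : κ, (T : ℝ) := by
        refine Finset.sum_le_sum fun i _ => ?_
        rw [abs_mul, Nat.abs_cast]
        have h1 : ((y i : ℕ) : ℝ) ≤ T := by exact_mod_cast Nat.lt_succ_iff.mp (y i).2
        calc _ ≤ 1 * ((y i : ℕ) : ℝ) := by gcongr; exact hb l i
          _ ≤ T := by linarith
      _ = M * T := by simp [hMdef]
  have hmaps : ∀ y ∈ (Finset.univ : Finset (κ → Fin (T + 1))),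
      f y ∈ Fintype.piFinset fun _ : Fin ρ => Finset.range K := by
    intro y _
    rw [Fintype.mem_piFinset]
    intro l
    rw [Finset.mem_range, Nat.lt_succ_iff]
    refine Nat.floor_le_floor ?_
    have h1 := (abs_le.mp (hbd y l)).2
    rw [div_le_iff₀ hδ0]
    have h2 : 2 * (M : ℝ) ≤ A * δ := by
      rw [div_le_iff₀ hη] at hA
      rw [hδ, mul_div_assoc', le_div_iff₀ hM']
      nlinarith
    have h3 : (0 : ℝ) ≤ T := Nat.cast_nonneg _
    nlinarith
  have hcard : (Fintype.piFinset fun _ : Fin ρ => Finset.range K).card <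
      (Finset.univ : Finset (κ → Fin (T + 1))).card := by
    rw [Fintype.card_piFinset]
    simp only [Finset.card_range, Finset.prod_const, Finset.card_univ, Fintype.card_fin,
      Fintype.card_fun]
    have hK : (K : ℝ) ≤ A * (T + 1) := by
      have : (⌊A * T⌋₊ : ℝ) ≤ A * T := Nat.floor_le (by positivity)
      simp only [K]
      push_cast
      linarith
    have hT1 : (1 : ℝ) ≤ T + 1 := by have : (0 : ℝ) ≤ T := Nat.cast_nonneg _; linarith
    have h1 : (K : ℝ) ^ ρ < ((T : ℝ) + 1) ^ M := by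
      calc (K : ℝ) ^ ρ ≤ (A * (T + 1)) ^ ρ := by gcongr
        _ = A ^ ρ * (T + 1) ^ ρ := mul_pow _ _ _
        _ ≤ A ^ M * (T + 1) ^ ρ := by
          gcongr
          omega
        _ < (T + 1) ^ d * (T + 1) ^ ρ := by gcongr
        _ = (T + 1) ^ (d + ρ) := (pow_add _ _ _).symm
        _ ≤ (T + 1) ^ M := by
          gcongr
          omega
    exact_mod_cast h1
  obtain ⟨y, -, y', -, hne, hf⟩ := Finset.exists_ne_map_eq_of_card_lt_of_maps_to hcard hmaps
  let z : κ → ℝ := fun i => ((y i : ℕ) : ℝ) - ((y' i : ℕ) : ℝ)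
  have hz : ∀ l, |∑ i, b l i * z i| ≤ δ := by
    intro l
    have h1 : f y l = f y' l := congrFun hf l
    simp only [f] at h1
    have ha := (abs_le.mp (hbd y l)).1
    have ha' := (abs_le.mp (hbd y' l)).1
    set s := ∑ i, b l i * ((y i : ℕ) : ℝ)
    set s' := ∑ i, b l i * ((y' i : ℕ) : ℝ)
    have e1 : ∑ i, b l i * z i = s - s' := by
      simp only [z, s, s', mul_sub, Finset.sum_sub_distrib]
    have p1 : 0 ≤ (s + M * T) / δ := div_nonneg (by linarith) hδ0.le
    have p2 : 0 ≤ (s' + M * T) / δ := div_nonneg (by linarith) hδ0.le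
    have q1 := Nat.floor_le p1
    have q2 := Nat.floor_le p2
    have r1 := Nat.lt_floor_add_one ((s + M * T) / δ)
    have r2 := Nat.lt_floor_add_one ((s' + M * T) / δ)
    rw [h1] at q1 r1
    have t1 : (s - s') / δ = (s + M * T) / δ - (s' + M * T) / δ := by ring
    have t2 : |(s - s') / δ| ≤ 1 := by rw [t1, abs_le]; constructor <;> linarith
    rw [abs_div, abs_of_pos hδ0, div_le_one hδ0] at t2
    rwa [e1]
  refine ⟨fun i => ((y i : ℕ) : ℤ) - ((y' i : ℕ) : ℤ), ?_, ?_, _, hU z, ?_⟩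
  · intro h
    apply hne
    funext i
    have := congrFun h i
    simp only [Pi.zero_apply] at this
    exact Fin.ext (by omega)
  · intro i
    have h1 := (y i).2
    have h2 := (y' i).2
    simp only [abs_le]
    constructor <;> omega
  · intro i
    have e1 : (((((y i : ℕ) : ℤ) - ((y' i : ℕ) : ℤ) : ℤ) : ℝ)) = z i := by simp [z]
    rw [e1]
    simp only [Pi.sub_apply, Finset.sum_apply, Pi.smul_apply, smul_eq_mul, sub_sub_cancel]
    have hρM : (ρ : ℝ) ≤ M := by exact_mod_cast (by omega : ρ ≤ M)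
    calc _ ≤ ∑ l, |(∑ j, b l j * z j) * b l i| := Finset.abs_sum_le_sum_abs _ _
      _ ≤ ∑ _l : Fin ρ, δ := by
        refine Finset.sum_le_sum fun l _ => ?_
        rw [abs_mul]
        calc _ ≤ δ * 1 := mul_le_mul (hz l) (hb l i) (abs_nonneg _) hδ0.le
          _ = δ := mul_one _
      _ = ρ * δ := by simp
      _ ≤ M * δ := by gcongr
      _ = η := by rw [hδ]; field_simp

end Pool.Agent.E6b
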