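import Pool.Agent.E6b.H3
import Pool.Agent.E6b.SiegAux

open scoped NNReal TensorProduct IntermediateField BigOperators Classical Topology
open Filter

namespace Pool.Agent.E6b

/-- common kernel of a set of rows -/
def kerR {ι : Type} [Fintype ι] (R : Set (ι → Qb)) : Submodule Qb (ι → Qb) where
  carrier := {w | ∀ r ∈ R, ∑ i, r i * w i = 0}
  add_mem' := by
    intro a b ha hb r hr
    simp only [Pi.add_apply, mul_add, Finset.sum_add_distrib, ha r hr, hb r hr, add_zero]
  zero_mem' := by intro r _; simp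
  smul_mem' := by
    intro c a ha r hr
    have := ha r hr
    simp only [Pi.smul_apply, smul_eq_mul, mul_left_comm _ c, ← Finset.mul_sum, this, mul_zero]

theorem Sieg_desc (L : IntermediateField ℚ Qb) {ι : Type} [Fintype ι] (W : Submodule Qb (ι → Qb))
    (hW : ∀ σ : Qb ≃ₐ[ℚ] Qb, (∀ a ∈ L, σ a = a) → ∀ w ∈ W, (fun i => σ (w i)) ∈ W) :
    W ≤ Submodule.span Qb {u | u ∈ W ∧ ∀ i, u i ∈ L} := by
  let sp : (ι → Qb) → Finset ι := fun w => Finset.univ.filter fun i => w i ≠ 0
  have hsp : ∀ w i, i ∈ sp w ↔ w i ≠ 0 := by intro w i; simp [sp]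
  have key : ∀ n : ℕ, ∀ w ∈ W, (sp w).card = n →
      w ∈ Submodule.span Qb {u | u ∈ W ∧ ∀ i, u i ∈ L} := by
    intro n
    induction n using Nat.strong_induction_on with
    | _ n ih =>
    intro w hw hn
    by_cases h0 : w = 0
    · rw [h0]; exact Submodule.zero_mem _
    have hex : ∃ m, ∃ u ∈ W, u ≠ 0 ∧ sp u ⊆ sp w ∧ (sp u).card = m :=
      ⟨_, w, hw, h0, subset_rfl, rfl⟩
    obtain ⟨u, hu, hu0, hus, hum⟩ := Nat.find_spec hex
    obtain ⟨i, hi⟩ := Function.ne_iff.mp hu0
    simp only [Pi.zero_apply] at hi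
    let u' : ι → Qb := (u i)⁻¹ • u
    have hu' : u' ∈ W := W.smul_mem _ hu
    have hu'i : u' i = 1 := by simp [u', hi]
    have hu's : ∀ j, u j = 0 → u' j = 0 := by intro j hj; simp [u', hj]
    have hL : ∀ j, u' j ∈ L := by
      intro j
      refine mem_of_fixed L fun σ hσ => ?_
      by_contra hne
      let t : ι → Qb := (fun j => σ (u' j)) - u'
      have ht : t ∈ W := W.sub_mem (hW σ hσ _ hu') hu'
      have hsub : sp t ⊆ (sp u).erase i := by
        intro l hl
        rw [hsp] at hl
        rw [Finset.mem_erase, hsp]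
        constructor
        · rintro rfl
          apply hl
          simp [t, hu'i]
        · intro h
          apply hl
          simp [t, hu's l h]
      have hlt : (sp t).card < Nat.find hex := by
        rw [← hum]
        exact lt_of_le_of_lt (Finset.card_le_card hsub)
          (Finset.card_erase_lt_of_mem ((hsp _ _).mpr hi))
      refine Nat.find_min hex hlt ⟨t, ht, ?_, ?_, rfl⟩
      · intro h
        have := congrFun h j
        simp only [t, Pi.sub_apply, Pi.zero_apply, sub_eq_zero] at this
        exact hne this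
      · exact hsub.trans ((Finset.erase_subset _ _).trans hus)
    have hwi : i ∈ sp w := hus ((hsp _ _).mpr hi)
    have hsub : sp (w - w i • u') ⊆ (sp w).erase i := by
      intro l hl
      rw [hsp] at hl
      rw [Finset.mem_erase]
      constructor
      · rintro rfl
        apply hl
        simp [hu'i]
      · by_contra h
        have h1 : w l = 0 := by simpa [hsp] using h
        have h2 : u l = 0 := by
          by_contra h2
          exact h (hus ((hsp _ _).mpr h2))
        apply hl
        simp [h1, hu's l h2]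
    have h1 := ih _ (by
      rw [← hn]
      exact lt_of_le_of_lt (Finset.card_le_card hsub) (Finset.card_erase_lt_of_mem hwi))
      (w - w i • u') (W.sub_mem hw (W.smul_mem _ hu')) rfl
    have h2 : w i • u' ∈ Submodule.span Qb {u | u ∈ W ∧ ∀ i, u i ∈ L} :=
      Submodule.smul_mem _ _ (Submodule.subset_span ⟨hu', hL⟩)
    simpa using Submodule.add_mem _ h1 h2
  intro w hw
  exact key _ w hw rfl

/-- the rational points of a subspace -/
def Sieg_WL (L : IntermediateField ℚ Qb) {ι : Type} (W : Submodule Qb (ι → Qb)) :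
    Submodule L (ι → L) where
  carrier := {u | (fun i => (u i : Qb)) ∈ W}
  add_mem' := by
    intro a b ha hb
    exact W.add_mem ha hb
  zero_mem' := W.zero_mem
  smul_mem' := by
    intro c a ha
    exact W.smul_mem (c : Qb) ha

theorem Sieg_rank (L : IntermediateField ℚ Qb) {ι : Type} [Fintype ι] (W : Submodule Qb (ι → Qb))
    (hW : ∀ σ : Qb ≃ₐ[ℚ] Qb, (∀ a ∈ L, σ a = a) → ∀ w ∈ W, (fun i => σ (w i)) ∈ W) :
    Module.finrank Qb W ≤ Module.finrank L (Sieg_WL L W) := by
  let b := Module.finBasis L (Sieg_WL L W)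
  let v : Fin (Module.finrank L (Sieg_WL L W)) → ι → Qb := fun m i => ((b m).1 i : Qb)
  have h1 : W ≤ Submodule.span Qb (Set.range v) := by
    refine (Sieg_desc L W hW).trans (Submodule.span_le.mpr ?_)
    rintro u ⟨hu, huL⟩
    let u' : Sieg_WL L W := ⟨fun i => ⟨u i, huL i⟩, hu⟩
    have h2 : u = ∑ m, ((b.repr u' m : L) : Qb) • v m := by
      funext i
      have h3 := congrArg (fun t : Sieg_WL L W => ((t.1 i : L) : Qb)) (b.sum_repr u')
      simp only [Submodule.coe_sum, Submodule.coe_smul, Finset.sum_apply, Pi.smul_apply,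
        smul_eq_mul, IntermediateField.coe_sum, MulMemClass.coe_mul] at h3
      simp only [Finset.sum_apply, Pi.smul_apply, smul_eq_mul, v]
      exact h3.symm
    rw [SetLike.mem_coe, h2]
    exact Submodule.sum_mem _ fun m _ => Submodule.smul_mem _ _ (Submodule.subset_span ⟨m, rfl⟩)
  refine (Submodule.finrank_mono h1).trans ?_
  simpa [Set.finrank] using finrank_range_le_card (R := Qb) v

theorem Sieg_stab (L : IntermediateField ℚ Qb) {ι : Type} [Fintype ι] (R : Set (ι → Qb))
    (hR : ∀ r ∈ R, ∀ σ : Qb ≃ₐ[ℚ] Qb, (∀ a ∈ L, σ a = a) → ∃ r' ∈ R, Prp r' fun i => σ (r i))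
    (σ : Qb ≃ₐ[ℚ] Qb) (hσ : ∀ a ∈ L, σ a = a) (w : ι → Qb) (hw : w ∈ kerR R) :
    (fun i => σ (w i)) ∈ kerR R := by
  intro r hr
  obtain ⟨r', hr', μ, hμ, e⟩ := hR r hr σ.symm (fun a ha => by
    rw [AlgEquiv.symm_apply_eq, hσ a ha])
  have h1 := hw r' hr'
  simp only [e, mul_assoc, ← Finset.mul_sum, mul_eq_zero, hμ, false_or] at h1
  have h2 := congrArg σ h1
  simpa using h2

theorem Sieg_U (L : IntermediateField ℚ Qb) {J : Type} [Fintype J] (θ : Module.Basis J ℚ L)
    {ι : Type} [Fintype ι] (R : Set (ι → Qb)) :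
    ∃ U : Submodule ℝ (ι × J → ℝ),
      Fintype.card J * Module.finrank L (Sieg_WL L (kerR R)) ≤ Module.finrank ℝ U ∧
      ∀ u ∈ U, ∀ r ∈ R, ∀ e : Qb →+* ℂ, ∑ p : ι × J, e (r p.1 * (θ p.2 : Qb)) * (u p : ℂ) = 0 := by
  let b := Module.finBasis L (Sieg_WL L (kerR R))
  let B := θ.smulTower b
  let Ψ : Sieg_WL L (kerR R) →ₗ[ℚ] (ι × J → ℚ) :=
    { toFun := fun w p => θ.repr (w.1 p.1) p.2
      map_add' := by intro a b; funext p; simp
      map_smul' := by intro c a; funext p; simp }
  have hΨ : LinearMap.ker Ψ = ⊥ := by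
    rw [LinearMap.ker_eq_bot']
    intro w hw
    ext i
    have : θ.repr (w.1 i) = 0 := by
      ext j
      exact congrFun hw (i, j)
    simpa using this
  have h1 : LinearIndependent ℚ (Ψ ∘ B) := B.linearIndependent.map' Ψ hΨ
  have h2 : LinearIndependent ℝ (fun q => algebraMap ℚ ℝ ∘ (Ψ ∘ B) q) :=
    linearIndependent_algebraMap_comp_iff.mpr h1
  refine ⟨Submodule.span ℝ (Set.range fun q => algebraMap ℚ ℝ ∘ (Ψ ∘ B) q), ?_, ?_⟩
  · rw [finrank_span_eq_card h2]
    simp
  · intro u hu r hr e
    induction hu using Submodule.span_induction with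
    | mem x hx =>
      obtain ⟨q, rfl⟩ := hx
      have h3 : ∑ i, r i * (((B q).1 i : L) : Qb) = 0 := (B q).2 r hr
      have h4 := congrArg e h3
      rw [map_zero, map_sum] at h4
      rw [← h4, Fintype.sum_prod_type]
      refine Finset.sum_congr rfl fun i _ => ?_
      have h5 := congrArg (fun t : L => (t : Qb)) (θ.sum_repr ((B q).1 i))
      simp only [IntermediateField.coe_sum] at h5
      rw [← h5, Finset.mul_sum, map_sum]
      refine Finset.sum_congr rfl fun j _ => ?_
      simp [Ψ, Rat.smul_def, mul_comm, mul_assoc]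
    | zero => simp
    | add x y _ _ hx hy =>
      simp only [Pi.add_apply, Complex.ofReal_add, mul_add, Finset.sum_add_distrib, hx, hy,
        add_zero]
    | smul c x _ hx =>
      simp only [Pi.smul_apply, smul_eq_mul, Complex.ofReal_mul, mul_left_comm _ (c : ℂ),
        ← Finset.mul_sum, hx, mul_zero]

theorem Sieg_th {p : ℕ} {v : AbsoluteValue Qb ℝ} (hv : IsPl p v) (hp : p ≠ 0) {κ : Type}
    [Fintype κ] (f : κ → Qb) {M : ℝ} (hM : 0 ≤ M) (hf : ∀ i, v (f i) ≤ M) :
    v (∑ i, f i) ≤ M := by
  have := hv.sum_le Finset.univ f hM fun i _ => hf i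
  simpa [th, hp] using this

theorem Sieg_arch {v : AbsoluteValue Qb ℝ} (hv : IsPl 0 v) :
    ∃ e : Qb →+* ℂ, ∀ x, v x = ‖e x‖ := by
  rcases hv with ⟨-, h⟩ | ⟨h, -⟩
  · exact h
  · exact absurd h Nat.not_prime_zero

theorem Sieg_single (v : AbsoluteValue Qb ℝ) (a : Qb) : nrm v {a} = v a := by
  obtain ⟨b, hb, e⟩ := exists_nrm_eq v (s := {a}) (by simp)
  rw [Finset.mem_singleton] at hb
  rw [← e, hb]

/-- Absolute Siegel lemma. -/
theorem siegel_abs (L : IntermediateField ℚ Qb) [FiniteDimensional ℚ L] :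
    ∃ c : ℝ, 0 ≤ c ∧ ∀ (ι : Type) [Fintype ι] (R : Set (ι → Qb)) (β : ℝ) (k : ℕ), 0 ≤ β → 0 < k →
      (∀ r ∈ R, hv r ≤ β) →
      (∀ r ∈ R, ∀ σ : Qb ≃ₐ[ℚ] Qb, (∀ a ∈ L, σ a = a) → ∃ r' ∈ R, Prp r' fun i => σ (r i)) →
      k ≤ Module.finrank Qb (kerR R) →
      ∃ w ∈ kerR R, w ≠ 0 ∧ hv w ≤
        (Fintype.card ι : ℝ) / k * (β + c + 3 * Real.log (Fintype.card ι)) + c := by
  obtain ⟨s, θ, hθ⟩ := FiniteDimensional.exists_is_basis_integral ℤ ℚ L
  have hθ' : ∀ j, IsIntegral ℤ ((θ j : L) : Qb) := fun j =>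
    (hθ j).map (L.val.restrictScalars ℤ)
  obtain ⟨C, hC1, hC⟩ : ∃ C : ℝ, 1 ≤ C ∧ ∀ j p v, IsPl p v → v ((θ j : L) : Qb) ≤ C := by
    choose c hc using fun j => exists_bound ((θ j : L) : Qb)
    refine ⟨1 + ∑ j, |c j|, le_add_of_nonneg_right (by positivity), fun j p v hv => ?_⟩
    have h1 : |c j| ≤ ∑ j, |c j| :=
      Finset.single_le_sum (f := fun j => |c j|) (fun _ _ => abs_nonneg _) (Finset.mem_univ j)
    linarith [hc j p v hv, le_abs_self (c j)]
  set g := Fintype.card s with hg
  have hg0 : 0 < g := by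
    rw [hg, ← Module.finrank_eq_card_basis θ]
    exact Module.finrank_pos
  have hg1 : (1 : ℝ) ≤ g := by exact_mod_cast hg0
  have hgC : 1 ≤ (g : ℝ) * C := one_le_mul_of_one_le_of_one_le hg1 hC1
  have hgC' : (g : ℝ) * C ≤ 4 * g ^ 3 * C := by
    have : (g : ℝ) ≤ 4 * g ^ 3 := by nlinarith [one_le_pow₀ (n := 2) hg1]
    gcongr
  refine ⟨Real.log (4 * g ^ 3 * C), Real.log_nonneg (hgC.trans hgC'), ?_⟩
  intro ι _ R β k hβ hk hh hR hkr
  set N := Fintype.card ι with hN
  have hkN : k ≤ N := by
    refine hkr.trans ((Submodule.finrank_le _).trans ?_)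
    simp [hN]
  have hN1 : (1 : ℝ) ≤ N := by exact_mod_cast (by omega : 1 ≤ N)
  have hk0 : (0 : ℝ) < k := by exact_mod_cast hk
  obtain ⟨U, hU1, hU2⟩ := Sieg_U L θ R
  have hd : g * k ≤ Module.finrank ℝ U :=
    (Nat.mul_le_mul_left _ (hkr.trans (Sieg_rank L _ (Sieg_stab L R hR)))).trans hU1
  have hM : Fintype.card (ι × s) = N * g := by simp [hN, hg]
  set η : ℝ := Real.exp (-β) / (2 * (N * g) * C) with hη
  have hη0 : 0 < η := by positivity
  set A : ℝ := 4 * g ^ 3 * C * N ^ 3 * Real.exp β with hA
  have hA1 : 1 ≤ A := by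
    refine one_le_mul_of_one_le_of_one_le (one_le_mul_of_one_le_of_one_le (hgC.trans hgC')
      (one_le_pow₀ hN1)) (Real.one_le_exp hβ)
  have hA0 : 0 < A := by linarith
  set X : ℝ := A ^ ((N : ℝ) / k) with hX
  have hX1 : 1 ≤ X := Real.one_le_rpow hA1 (by positivity)
  obtain ⟨x, hx0, hxT, u, hu, hxu⟩ := Sieg_pigeon U (T := ⌊X⌋₊) (A := A) hd hη0 hA1
    (by rw [hM]; exact Nat.mul_pos (by omega) hg0)
    (by
      rw [hM, hη, hA, Real.exp_neg]
      push_cast
      field_simp
      norm_num)
    (by
      rw [hM]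
      have h1 : A ^ (N * g) = X ^ (g * k) := by
        rw [hX, ← Real.rpow_natCast, ← Real.rpow_natCast, ← Real.rpow_mul hA0.le]
        congr 1
        push_cast
        field_simp
      rw [h1]
      exact pow_lt_pow_left₀ (Nat.lt_floor_add_one X) (by linarith) (by positivity))
  let w : ι → Qb := fun i => ∑ j, (x (i, j) : Qb) * ((θ j : L) : Qb)
  have hwint : ∀ i, IsIntegral ℤ (w i) := fun i =>
    IsIntegral.sum _ fun j _ => (isIntegral_intCast _).mul (hθ' j)
  have hw0 : w ≠ 0 := by
    intro h
    apply hx0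
    funext ⟨i, j⟩
    have h1 : ∑ j, ((x (i, j) : ℚ)) • θ j = 0 := by
      apply Subtype.val_injective
      have := congrFun h i
      simpa [w, Rat.smul_def] using this
    have h2 := Fintype.linearIndependent_iff.mp θ.linearIndependent _ h1 j
    simpa using h2
  refine ⟨w, ?_, hw0, ?_⟩
  · intro r hr
    by_contra ha
    have hr0 : r ≠ 0 := by
      rintro rfl
      simp at ha
    have hc : 0 < (N * g : ℝ) * C * η := by positivity
    have h1 := ht_le_of_local1 (s := {∑ i, r i * w i}) (t := Finset.univ.image r)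
      ⟨_, Finset.mem_singleton_self _, ha⟩ (H2_vec_ne hr0) 1 hc (by
        intro p v hv
        rw [Sieg_single, pow_one]
        have hnv : 0 ≤ nv v r := nrm_nonneg _ _
        change _ ≤ _ * nv v r
        by_cases hp : p = 0
        · subst hp
          obtain ⟨e, he⟩ := Sieg_arch hv
          have h2 := hU2 u hu r hr e
          have h3 : e (∑ i, r i * w i) =
              ∑ q : ι × s, e (r q.1 * (θ q.2 : Qb)) * (((x q : ℝ) - u q : ℝ) : ℂ) := by
            simp only [Complex.ofReal_sub, mul_sub, Finset.sum_sub_distrib, h2, sub_zero]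
            rw [Fintype.sum_prod_type, map_sum]
            refine Finset.sum_congr rfl fun i _ => ?_
            simp only [w, Finset.mul_sum, map_sum]
            refine Finset.sum_congr rfl fun j _ => ?_
            simp [mul_comm, mul_left_comm]
          rw [he, h3]
          calc _ ≤ ∑ q : ι × s, ‖e (r q.1 * (θ q.2 : Qb)) * (((x q : ℝ) - u q : ℝ) : ℂ)‖ :=
                norm_sum_le _ _
            _ ≤ ∑ _q : ι × s, nv v r * C * η := by
                refine Finset.sum_le_sum fun q _ => ?_
                rw [norm_mul, ← he, map_mul, Complex.norm_real, Real.norm_eq_abs]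
                have h4 := le_nv v r q.1
                have h5 := hC q.2 0 v hv
                have h6 := hxu q
                have h7 := v.nonneg (θ q.2 : Qb)
                gcongr
            _ = _ := by
                simp only [Finset.sum_const, Finset.card_univ, hM, nsmul_eq_mul, th, if_true]
                push_cast
                ring
        · simp only [th, hp, if_false, one_mul]
          refine Sieg_th hv hp _ hnv fun i => ?_
          rw [map_mul]
          calc _ ≤ nv v r * 1 :=
                mul_le_mul (le_nv v r i) (hv.le_one_of_isIntegral hp (hwint i)) (v.nonneg _) hnv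
            _ = _ := mul_one _)
    rw [htSpec.single _ ha] at h1
    have h2 : (N * g : ℝ) * C * η = Real.exp (-β) / 2 := by
      rw [hη]; field_simp
    have h3 := hh r hr
    rw [h2, Real.log_div (Real.exp_pos _).ne' two_ne_zero, Real.log_exp] at h1
    have h4 : 0 < Real.log 2 := Real.log_pos one_lt_two
    simp only [hv] at h3
    push_cast at h1
    linarith
  · have hc : 0 < (g : ℝ) * C * X := by positivity
    have h1 := ht_le_of_local1 (s := Finset.univ.image w) (t := {1}) (H2_vec_ne hw0)
      ⟨1, Finset.mem_singleton_self _, one_ne_zero⟩ 1 hc (by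
        intro p v hv
        rw [Sieg_single, map_one, one_pow, mul_one]
        by_cases hp : p = 0
        · subst hp
          simp only [th, if_true]
          refine nv_le v hc.le fun i => ?_
          have h2 := hv.sum_le Finset.univ (fun j => (x (i, j) : Qb) * ((θ j : L) : Qb))
            (M := X * C) (by positivity) (fun j _ => by
              rw [map_mul]
              have h3 : v (x (i, j) : Qb) ≤ X := by
                have h4 := hv.eq_abs (x (i, j) : ℚ)
                simp only [Rat.cast_intCast] at h4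
                rw [h4]
                have h5 : |(x (i, j) : ℝ)| ≤ (⌊X⌋₊ : ℝ) := by exact_mod_cast hxT (i, j)
                exact h5.trans (Nat.floor_le (by linarith))
              exact mul_le_mul h3 (hC j 0 v hv) (v.nonneg _) (by linarith))
          simp only [th, if_true, Finset.card_univ] at h2
          calc _ ≤ _ := h2
            _ = _ := by rw [← hg]; ring
        · simp only [th, hp, if_false]
          exact nv_le v zero_le_one fun i => hv.le_one_of_isIntegral hp (hwint i))
    have hlA : Real.log A = β + Real.log (4 * g ^ 3 * C) + 3 * Real.log N := by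
      rw [hA, Real.log_mul (by positivity) (by positivity), Real.log_exp,
        Real.log_mul (by positivity) (by positivity), Real.log_pow]
      push_cast
      ring
    rw [htSpec.single _ one_ne_zero, mul_zero, add_zero,
      Real.log_mul (by positivity) (by positivity), hX, Real.log_rpow hA0, hlA] at h1
    have h2 : Real.log (g * C) ≤ Real.log (4 * g ^ 3 * C) := Real.log_le_log (by positivity) hgC'
    simp only [hv]
    linarith

end Pool.Agent.E6b
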