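import Pool.Agent.E6b.C6
import Pool.Agent.E6b.C3
import Pool.Agent.E6b.Sieg
import Pool.Agent.E6b.MW1
import Pool.Agent.E6b.C7Aux2

open scoped NNReal TensorProduct IntermediateField BigOperators Classical Topology
open Filter

namespace Pool.Agent.E6b

theorem C7_real {a c S p₁ x₁ p₂ x₂ H₁ H₂ C₂ C₃ C₄ h q : ℝ} (hS : 1 ≤ S) (hc : 0 ≤ c)
    (ha : 2 * c ≤ a) (hH₁ : 1 ≤ H₁) (hH₂ : 1 ≤ H₂) (h₂ : 0 ≤ C₂) (h₃ : 0 ≤ C₃) (h₄ : 0 ≤ C₄)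
    (a1 : p₁ ≤ C₂ * H₁) (a2 : x₁ ≤ C₂ * H₁) (a3 : p₂ ≤ C₃ * H₂) (a4 : x₂ ≤ C₃ * H₂)
    (hh : h ≤ (2 * a * S + c) * p₁ + c * x₁ + (2 * a + c) * p₂ + c * x₂)
    (hq : q ≤ 2 * S * (p₁ + C₄) + 2 * (p₂ + C₄) + C₄) :
    h + a * q ≤ (5 * C₂ + 5 * C₃ + 3 * C₄) * a * (S * H₁ + H₂) := by
  have ha0 : 0 ≤ a := by linarith
  have hS0 : 0 ≤ S := by linarith
  have hP : 0 ≤ C₂ * H₁ := by positivity
  have hQ : 0 ≤ C₃ * H₂ := by positivity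
  have b1 : (2 * a * S + c) * p₁ ≤ (2 * a * S + c) * (C₂ * H₁) := by gcongr
  have b2 : c * x₁ ≤ c * (C₂ * H₁) := by gcongr
  have b3 : (2 * a + c) * p₂ ≤ (2 * a + c) * (C₃ * H₂) := by gcongr
  have b4 : c * x₂ ≤ c * (C₃ * H₂) := by gcongr
  have b5 : 2 * c * (C₂ * H₁) ≤ a * S * (C₂ * H₁) :=
    mul_le_mul_of_nonneg_right (ha.trans (le_mul_of_one_le_right ha0 hS)) hP
  have b6 : 2 * c * (C₃ * H₂) ≤ a * (C₃ * H₂) := mul_le_mul_of_nonneg_right ha hQ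
  have b7 : S * p₁ ≤ S * (C₂ * H₁) := by gcongr
  have b8 : C₄ * (S * 1) ≤ C₄ * (S * H₁) := by gcongr
  have b9 : C₄ * 1 ≤ C₄ * H₂ := by gcongr
  have c1 : 0 ≤ C₂ * H₂ := by positivity
  have c2 : 0 ≤ C₃ * (S * H₁) := by positivity
  have c3 : 0 ≤ C₄ * S := by positivity
  have c4 : 3 * (S * (C₂ * H₁)) + 3 * (C₃ * H₂) + q ≤
      (5 * C₂ + 5 * C₃ + 3 * C₄) * (S * H₁ + H₂) := by linarith
  have c5 := mul_le_mul_of_nonneg_left c4 ha0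
  linarith

theorem C7_final {n κ B β c K C₅ C₂ E T x : ℝ} (hκ : 0 < κ) (hn : 1 ≤ n) (h5 : n ≤ C₅ * κ)
    (hT : 1 ≤ T) (hK : 0 ≤ K) (hc : 0 ≤ c) (hcK : c ≤ K) (hl : Real.log n ≤ K) (hβ : 0 ≤ β)
    (hB : β = C₂ * (K * E) * T) (hx : x ≤ n / κ * (β + c + 3 * Real.log n) + c)
    (hB' : B = C₅ * (C₂ * E + 4) + 1) : x ≤ B * K * T := by
  have h1 : n / κ ≤ C₅ := (div_le_iff₀ hκ).2 h5
  have h2 : 0 ≤ Real.log n := Real.log_nonneg hn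
  have h3 : 0 ≤ n / κ := by positivity
  have h4 : K * 1 ≤ K * T := by gcongr
  have h6 : n / κ * (β + c + 3 * Real.log n) ≤ C₅ * (β + 4 * (K * T)) :=
    mul_le_mul h1 (by linarith) (by positivity) (h3.trans h1)
  rw [hB] at h6 hx
  rw [hB']
  linarith

variable {F : Type} [Field F] [Algebra Qb F] [IsFF Qb F] (o : Place Qb F) (d : ℕ)

theorem C7_height (r₁ r₂ Δ : ℕ) : ∃ C : ℝ, 0 ≤ C ∧
    ∀ (M₁ : Mdl Qb r₁ (IX o d)) (M₂ : Mdl Qb r₂ (IX o d)), M₁.Cx Δ → M₂.Cx Δ → Gen M₁ M₂ →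
    ∀ χ : TB M₁ M₂ →ₐ[Qb] Qb, Tors M₁ M₂ χ → GdP M₁ M₂ χ → ∀ y₁ y₂, Above M₁ M₂ χ y₁ y₂ →
    ∀ (s a c N : ℕ), 0 < s → 2 * c ≤ a →
    ∀ (μ₁ : Fin N → Mon (JJ o × JJ o) r₁ (2 * a * s ^ 2 + c) c)
      (μ₂ : Fin N → Mon (JJ o × JJ o) r₂ (2 * a + c) c),
      hv (fun i => χ (e1B M₁ M₂ (M₁.mon (μ₁ i)) * e2B M₁ M₂ (M₂.mon (μ₂ i)))) +
        a * hv (Psym ((s : ℤ) • clz y₁ + (1 : ℤ) • clz y₂)) ≤
        C * a * (s ^ 2 * (ht M₁.S + 1) + (ht M₂.S + 1)) := by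
  obtain ⟨C₂, h₂, hC₂⟩ := tors_bound r₁ Δ
  obtain ⟨C₃, h₃, hC₃⟩ := tors_bound r₂ Δ
  obtain ⟨C₄, hsym, hpos, hC₄⟩ := ntB_spec o
  have h₄ : 0 ≤ C₄ := (abs_nonneg _).trans (hC₄ 0)
  refine ⟨5 * C₂ + 5 * C₃ + 3 * C₄, by positivity, ?_⟩
  intro M₁ M₂ c₁ c₂ G χ hT hG y₁ y₂ hy s a c N hs hc μ₁ μ₂
  obtain ⟨a1, a2⟩ := hC₂ M₁ c₁ (fun k => χ (uB M₁ M₂ (.inl k))) (χ (x1B M₁ M₂))
    (fun k => hT _) (by rw [← C7_e1, e1B_m, map_zero])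
  obtain ⟨a3, a4⟩ := hC₃ M₂ c₂ (fun k => χ (uB M₁ M₂ (.inr k))) (χ (x2B M₁ M₂))
    (fun k => hT _) (by rw [← C7_e2, e2B_m, map_zero])
  have a5 := hv_mon_le M₁ M₂ μ₁ μ₂ (fun k => χ (uB M₁ M₂ (.inl k))) (χ (x1B M₁ M₂))
    (fun k => χ (uB M₁ M₂ (.inr k))) (χ (x2B M₁ M₂))
  obtain ⟨b1, b2⟩ := G.spec₁ hG hy
  have b3 := hv_congr b1
  have b4 := hv_congr b2
  simp only [C7_e1] at b3
  simp only [C7_e2] at b4
  have b5 := abs_le.1 (hC₄ (clz y₁))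
  have b6 := abs_le.1 (hC₄ (clz y₂))
  have b7 := abs_le.1 (hC₄ ((s : ℤ) • clz y₁ + (1 : ℤ) • clz y₂))
  have b8 := C7_psd (ntB o) hsym hpos s (clz y₁) (clz y₂)
  simp only [hq] at b5 b6 b7
  rw [← b3] at b5
  rw [← b4] at b6
  simp only [map_mul, C7_e1, C7_e2]
  push_cast at a5
  refine C7_real (one_le_pow₀ (by exact_mod_cast hs)) (Nat.cast_nonneg c) (by exact_mod_cast hc)
    (by linarith [ht_nonneg M₁.S]) (by linarith [ht_nonneg M₂.S]) h₂ h₃ h₄ a1 a2 a3 a4 a5 ?_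
  have b9 := mul_le_mul_of_nonneg_left b5.1 (sq_nonneg (s : ℝ))
  linarith

section

variable {o d} {r₁ r₂ : ℕ} {M₁ : Mdl Qb r₁ (IX o d)} {M₂ : Mdl Qb r₂ (IX o d)} (k₀ : Fin r₁)
  (s t : ℤ) (a b : ℕ) {A₁ A₂ c N : ℕ} (μ₁ : Fin N → Mon (JJ o × JJ o) r₁ A₁ c)
  (μ₂ : Fin N → Mon (JJ o × JJ o) r₂ A₂ c)

variable (M₁ M₂) in
/-- the linear conditions at the torsion points -/
def C7R : Set (((JJ o × JJ o) × Bool) × Fin N → Qb) :=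
  {r | ∃ (χ : TB M₁ M₂ →ₐ[Qb] Qb) (y₁ y₂ : Fin d → Pt o Qb) (x x' : (JJ o × JJ o) × Bool),
    Tors M₁ M₂ χ ∧ GdP M₁ M₂ χ ∧ Above M₁ M₂ χ y₁ y₂ ∧
    r = C7row (fun i => χ (e1B M₁ M₂ (M₁.mon (μ₁ i)) * e2B M₁ M₂ (M₂.mon (μ₂ i))))
      (C7rho (Psym (s • clz y₁ + t • clz y₂)) (χ (uB M₁ M₂ (.inl k₀))) a b) x x'}

theorem C7R_gal (σ : Qb ≃ₐ[ℚ] Qb) (h₁ : ∀ a ∈ M₁.S, σ a = a) (h₂ : ∀ a ∈ M₂.S, σ a = a)
    (β : BC o Qb Qb) (hβ : ∀ x, β.τ x = σ x) (hok : β.Ok) :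
    ∀ r ∈ C7R M₁ M₂ k₀ s t a b μ₁ μ₂, ∃ r' ∈ C7R M₁ M₂ k₀ s t a b μ₁ μ₂,
      Prp r' fun i => σ (r i) := by
  rintro _ ⟨χ, y₁, y₂, x, x', hT, hG, hy, rfl⟩
  obtain ⟨χ', hT', hG', hy', c1, c2⟩ := C7_conj σ h₁ h₂ β hβ hT hG hy
  refine ⟨_, ⟨χ', _, _, x, x', hT', hG', hy', rfl⟩, C7row_gal σ (fun i => c2 _ _) ?_ x x'⟩
  rw [c1]
  refine C7rho_gal σ ?_ _ a b
  have h := hok.Psym (s • clz y₁ + t • clz y₂)
  simp only [hβ] at h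
  rwa [map_add, map_zsmul, map_zsmul, β.cl_clz, β.cl_clz] at h

theorem C7_cmb (χ : TB M₁ M₂ →ₐ[Qb] Qb) (w : Fin N → Qb) : χ (cmb M₁ M₂ μ₁ μ₂ w) =
    ∑ i, w i * χ (e1B M₁ M₂ (M₁.mon (μ₁ i)) * e2B M₁ M₂ (M₂.mon (μ₂ i))) := by
  simp only [cmb, map_sum, map_smul, smul_eq_mul]

variable {s t} (G : Gen M₁ M₂) {n : JJ o × JJ o → TB M₁ M₂}

theorem C7_ker (hn : Prp (Psym (s • clz G.z₁ + t • clz G.z₂))
      fun j => algebraMap _ (TL M₁ M₂) (n j)) (w : ((JJ o × JJ o) × Bool) × Fin N → Qb) :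
    w ∈ kerR (C7R M₁ M₂ k₀ s t a b μ₁ μ₂) ↔ ∀ x x' : (JJ o × JJ o) × Bool,
      cmb M₁ M₂ μ₁ μ₂ (fun i => w (x, i)) *
        (n x'.1 ^ a * uB M₁ M₂ (.inl k₀) ^ (if x'.2 then b else 0)) =
      cmb M₁ M₂ μ₁ μ₂ (fun i => w (x', i)) *
        (n x.1 ^ a * uB M₁ M₂ (.inl k₀) ^ (if x.2 then b else 0)) := by
  constructor
  · intro h x x'
    refine C7_gen G hn fun χ hT hG y₁ y₂ hy => ?_
    have h1 := h _ ⟨χ, y₁, y₂, x, x', hT, hG, hy, rfl⟩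
    rw [C7row_sum, sub_eq_zero] at h1
    rw [C7_cmb, C7_cmb, map_pow, map_pow]
    exact h1
  · rintro h _ ⟨χ, y₁, y₂, x, x', -, hG, hy, rfl⟩
    have h1 := C7_spec G hn hG hy (h x x')
    rw [C7_cmb, C7_cmb, map_pow, map_pow] at h1
    rw [C7row_sum, sub_eq_zero]
    exact h1

theorem C7_rank (hn : Prp (Psym (s • clz G.z₁ + t • clz G.z₂))
      fun j => algebraMap _ (TL M₁ M₂) (n j)) (W : Submodule Qb (TK M₁ M₂))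
    (hW : ∀ g ∈ W, ∀ x : (JJ o × JJ o) × Bool, ∃ w : Fin N → Qb,
      algebraMap _ (TK M₁ M₂) (cmb M₁ M₂ μ₁ μ₂ w) = g * algebraMap _ (TK M₁ M₂)
        (n x.1 ^ a * uB M₁ M₂ (.inl k₀) ^ (if x.2 then b else 0))) :
    Module.finrank Qb W ≤ Module.finrank Qb (kerR (C7R M₁ M₂ k₀ s t a b μ₁ μ₂)) := by
  obtain ⟨j₁, hj₁⟩ := Function.ne_iff.1 (C7_n_ne G hn)
  have h1 : n j₁ ≠ 0 := fun h => hj₁ (by rw [h, map_zero]; rfl)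
  have hinj := IsFractionRing.injective (TB M₁ M₂) (TK M₁ M₂)
  have h2 : algebraMap _ (TK M₁ M₂) (n j₁ ^ a * uB M₁ M₂ (.inl k₀) ^ 0) ≠ 0 := by
    rw [pow_zero, mul_one]
    exact (map_ne_zero_iff _ hinj).2 (pow_ne_zero _ h1)
  obtain ⟨Ψ, hΨ⟩ : ∃ Ψ : (((JJ o × JJ o) × Bool) × Fin N → Qb) →ₗ[Qb] TK M₁ M₂, ∀ w, Ψ w =
      algebraMap _ (TK M₁ M₂) (cmb M₁ M₂ μ₁ μ₂ fun i => w ((j₁, false), i)) *
        (algebraMap _ (TK M₁ M₂) (n j₁ ^ a * uB M₁ M₂ (.inl k₀) ^ 0))⁻¹ :=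
    ⟨(LinearMap.mulRight Qb (algebraMap _ (TK M₁ M₂) (n j₁ ^ a * uB M₁ M₂ (.inl k₀) ^ 0))⁻¹).comp
      ((IsScalarTower.toAlgHom Qb (TB M₁ M₂) (TK M₁ M₂)).toLinearMap.comp
        ((Fintype.linearCombination Qb fun i =>
          e1B M₁ M₂ (M₁.mon (μ₁ i)) * e2B M₁ M₂ (M₂.mon (μ₂ i))).comp
            (LinearMap.funLeft Qb Qb fun i => ((j₁, false), i)))), fun _ => rfl⟩
  refine le_trans (Submodule.finrank_mono fun g hg => ?_) (Submodule.finrank_map_le Ψ _)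
  choose w hw using hW g hg
  refine ⟨fun p => w p.1 p.2, (C7_ker k₀ a b μ₁ μ₂ G hn _).2 fun x x' => hinj ?_, ?_⟩
  · rw [map_mul, map_mul _ (cmb _ _ _ _ _), hw x, hw x']
    ring
  · rw [hΨ]
    exact (congrArg (· * _) (hw (j₁, false))).trans (mul_inv_cancel_right₀ h2 g)

end

/-- the auxiliary sections of small height -/
theorem exists_aux (r₁ r₂ Δ : ℕ) : ∃ (E : ℕ) (C : ℝ), 0 < E ∧ 0 ≤ C ∧
    ∀ (M₁ : Mdl Qb r₁ (IX o d)) (M₂ : Mdl Qb r₂ (IX o d)), M₁.Cx Δ → M₂.Cx Δ →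
    ∀ G : Gen M₁ M₂, Function.Injective (Sum.elim G.z₁ G.z₂) →
      ell (dz (Sum.elim G.z₁ G.z₂)) = 1 → ∀ (k₀ : Fin r₁) (s : ℕ), 0 < s →
      ∀ n : JJ o × JJ o → TB M₁ M₂,
        Prp (Psym ((s : ℤ) • clz G.z₁ + (1 : ℤ) • clz G.z₂))
          (fun j => algebraMap _ (TL M₁ M₂) (n j)) →
        ∃ k c : ℕ, 0 < k ∧ ∀ᶠ D : ℕ in atTop, ∃ (N : ℕ)
          (μ₁ : Fin N → Mon (JJ o × JJ o) r₁ (2 * (k * D * E) * s ^ 2 + c) c)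
          (μ₂ : Fin N → Mon (JJ o × JJ o) r₂ (2 * (k * D * E) + c) c)
          (w : ((JJ o × JJ o) × Bool) × Fin N → Qb),
          (∃ x, cmb M₁ M₂ μ₁ μ₂ (fun i => w (x, i)) ≠ 0) ∧
          (∀ x x' : (JJ o × JJ o) × Bool,
            cmb M₁ M₂ μ₁ μ₂ (fun i => w (x, i)) * (n x'.1 ^ (k * D * E) *
              uB M₁ M₂ (.inl k₀) ^ (if x'.2 then k * D * s ^ 2 else 0)) =
            cmb M₁ M₂ μ₁ μ₂ (fun i => w (x', i)) * (n x.1 ^ (k * D * E) *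
              uB M₁ M₂ (.inl k₀) ^ (if x.2 then k * D * s ^ 2 else 0))) ∧
          hv w ≤ C * (k * D) * (s ^ 2 * (ht M₁.S + 1) + (ht M₂.S + 1)) ∧
          Real.log (N + 1) ≤ k * D := by
  obtain ⟨E, hE, hsec⟩ := exists_sections (o := o) (d := d) r₁ r₂ Δ
  obtain ⟨C₁, hC₁⟩ := card_mon_le r₁ r₂ Δ
  obtain ⟨C₂, hC₂, hht⟩ := C7_height o d r₁ r₂ Δ
  obtain ⟨K, hK, hKβ⟩ := exists_defField o
  obtain ⟨C₃, hC₃⟩ : ∃ C₃ : ℕ, C₃ = Fintype.card ((JJ o × JJ o) × Bool) * (C₁ * 3 ^ (r₁ + r₂)) :=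
    ⟨_, rfl⟩
  refine ⟨E, C₃ * (4 * (r₁ + r₂).factorial) * (C₂ * E + 4) + 1, hE, by positivity, ?_⟩
  intro M₁ M₂ h₁ h₂ G hi hl k₀ s hs n hn
  obtain ⟨k, c, hk, hev⟩ := hsec M₁ M₂ h₁ h₂ G hi hl k₀ s hs n hn
  refine ⟨k, c, hk, ?_⟩
  have hfd := MW1_fd (M₁.S ∪ M₂.S).finite_toSet
  obtain ⟨cL, hcL, hsieg⟩ :=
    siegel_abs (K ⊔ IntermediateField.adjoin ℚ ((M₁.S ∪ M₂.S : Finset Qb) : Set Qb))
  filter_upwards [hev, C7_exp (C₃ * (s ^ (2 * r₁) * (k * E) ^ (r₁ + r₂))) (r₁ + r₂),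
    eventually_ge_atTop (2 * c + 1), tendsto_natCast_atTop_atTop.eventually_ge_atTop cL]
    with D hD h3 h4 h5
  obtain ⟨W, -, hW, hmem⟩ := hD
  have hDk : D ≤ k * D := Nat.le_mul_of_pos_left _ hk
  have hDa : 2 * c + 1 ≤ k * D * E := h4.trans (hDk.trans (Nat.le_mul_of_pos_right _ hE))
  have hDk' : (D : ℝ) ≤ k * D := by exact_mod_cast hDk
  obtain ⟨N, μ, hli, hsp⟩ := C7_indep (K := Qb)
    fun μ : Mon (JJ o × JJ o) r₁ (2 * (k * D * E) * s ^ 2 + c) c ×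
      Mon (JJ o × JJ o) r₂ (2 * (k * D * E) + c) c =>
      algebraMap _ (TK M₁ M₂) (e1B M₁ M₂ (M₁.mon μ.1) * e2B M₁ M₂ (M₂.mon μ.2))
  have hli' : LinearIndependent Qb fun i =>
      e1B M₁ M₂ (M₁.mon (μ i).1) * e2B M₁ M₂ (M₂.mon (μ i).2) :=
    LinearIndependent.of_comp (IsScalarTower.toAlgHom Qb (TB M₁ M₂) (TK M₁ M₂)).toLinearMap hli
  have hN := C7_count hs hDa (hC₁ M₁ M₂ h₁ h₂ (fun i => (μ i).1) (fun i => (μ i).2) hli')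
  have hrk := C7_rank k₀ (k * D * E) (k * D * s ^ 2) (fun i => (μ i).1) (fun i => (μ i).2) G hn W
    fun g hg x => by
      obtain ⟨w, hw⟩ := hsp _ (hmem g hg x.1 x.2)
      refine ⟨w, Eq.trans ?_ hw⟩
      rw [cmb, map_sum]
      exact Finset.sum_congr rfl fun i _ =>
        map_smul (IsScalarTower.toAlgHom Qb (TB M₁ M₂) (TK M₁ M₂)) _ _
  have ha0 : 0 < k * D * E := by omega
  have hκ : (0 : ℝ) < Module.finrank Qb W := lt_of_lt_of_le (by positivity) hW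
  have hT : (1 : ℝ) ≤ s ^ 2 * (ht M₁.S + 1) + (ht M₂.S + 1) := by
    have a1 := ht_nonneg M₁.S
    have a2 := ht_nonneg M₂.S
    have a3 : (0 : ℝ) ≤ s ^ 2 * (ht M₁.S + 1) := by positivity
    linarith
  have hβ : (0 : ℝ) ≤ C₂ * (k * D * E : ℕ) * (s ^ 2 * (ht M₁.S + 1) + (ht M₂.S + 1)) := by
    positivity
  obtain ⟨w, hw, hw0, hwh⟩ := hsieg _
    (C7R M₁ M₂ k₀ s 1 (k * D * E) (k * D * s ^ 2) (fun i => (μ i).1) fun i => (μ i).2) _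
    (Module.finrank Qb W) hβ (by exact_mod_cast hκ)
    (by
      rintro _ ⟨χ, y₁, y₂, x, x', hT, hG, hy, rfl⟩
      refine (C7row_hv _ _ x x').trans (le_trans ?_
        (hht M₁ M₂ h₁ h₂ G χ hT hG y₁ y₂ hy s _ c N hs (by omega) (fun i => (μ i).1)
          fun i => (μ i).2))
      exact add_le_add le_rfl (C7rho_hv _ (hT _) _ _))
    (fun r hr σ hσ => by
      obtain ⟨β, b1, b2⟩ := hKβ σ fun x hx => hσ x ((le_sup_left : K ≤ _) hx)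
      have b3 : ∀ x ∈ M₁.S ∪ M₂.S, σ x = x := fun x hx =>
        hσ x ((le_sup_right : _ ≤ K ⊔ _) (IntermediateField.subset_adjoin ℚ _ hx))
      exact C7R_gal k₀ s 1 _ _ _ _ σ (fun x hx => b3 x (Finset.mem_union_left _ hx))
        (fun x hx => b3 x (Finset.mem_union_right _ hx)) β b1 b2 r hr)
    hrk
  obtain ⟨p, hp⟩ := Function.ne_iff.1 hw0
  have hcard : Fintype.card (((JJ o × JJ o) × Bool) × Fin N) ≤
      C₃ * (s ^ (2 * r₁) * (k * D * E) ^ (r₁ + r₂)) := by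
    rw [Fintype.card_prod, Fintype.card_fin, hC₃, mul_assoc]
    exact Nat.mul_le_mul_left _ hN
  have hN' : N ≤ Fintype.card (((JJ o × JJ o) × Bool) × Fin N) := by
    rw [Fintype.card_prod, Fintype.card_fin]
    exact Nat.le_mul_of_pos_left _ (Fintype.card_pos_iff.2 ⟨p.1⟩)
  have hpos : 0 < Fintype.card (((JJ o × JJ o) × Bool) × Fin N) := Fintype.card_pos_iff.2 ⟨p⟩
  generalize Fintype.card (((JJ o × JJ o) × Bool) × Fin N) = m at hwh hcard hN' hpos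
  have hcard' : (m : ℝ) ≤ C₃ * (s ^ (2 * r₁) * ((k * D * E : ℕ) : ℝ) ^ (r₁ + r₂)) := by
    exact_mod_cast hcard
  have hlog : Real.log (m + 1) ≤ k * D := by
    refine le_trans (Real.log_le_log (by positivity) ?_) (h3.trans hDk')
    refine add_le_add (hcard'.trans (le_of_eq ?_)) le_rfl
    push_cast
    ring
  have hm : (1 : ℝ) ≤ m := by exact_mod_cast hpos
  refine ⟨N, fun i => (μ i).1, fun i => (μ i).2, w, ⟨p.1, fun h => hp ?_⟩,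
    (C7_ker k₀ _ _ _ _ G hn w).1 hw, ?_, ?_⟩
  · exact Fintype.linearIndependent_iff.1 hli' (fun i => w (p.1, i)) h p.2
  · refine C7_final hκ hm ?_ hT (by positivity) hcL (h5.trans hDk')
      ((Real.log_le_log (by positivity) (by linarith)).trans hlog) hβ (by push_cast; ring) hwh rfl
    rw [div_le_iff₀ (by positivity)] at hW
    exact hcard'.trans ((mul_le_mul_of_nonneg_left hW (Nat.cast_nonneg _)).trans_eq (by ring))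
  · refine le_trans (Real.log_le_log (by positivity) ?_) hlog
    exact add_le_add (by exact_mod_cast hN') le_rfl

end Pool.Agent.E6b
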