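import Pool.Agent.E6b.H2

open scoped NNReal TensorProduct IntermediateField BigOperators Classical Topology
open Filter

namespace Pool.Agent.E6b

/-- the local height estimate -/
theorem C8_loc {α : Type} [Fintype α] {N : ℕ} (w : α × Fin N → Qb) (f₁ f₂ : Fin N → Qb)
    {P₁ X₁ S₁ P₂ X₂ S₂ : Finset Qb} (hP₁ : ∃ a ∈ P₁, a ≠ 0) (hX₁ : ∃ a ∈ X₁, a ≠ 0)
    (hS₁ : ∃ a ∈ S₁, a ≠ 0) (hP₂ : ∃ a ∈ P₂, a ≠ 0) (hX₂ : ∃ a ∈ X₂, a ≠ 0)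
    (hS₂ : ∃ a ∈ S₂, a ≠ 0) {A₁ A₂ c e₁ e₂ g₁ g₂ : ℕ}
    (h₁ : ∀ p v, IsPl p v → ∀ i, v (f₁ i) ≤
      nrm v P₁ ^ A₁ * nrm v X₁ ^ c * th p 2 ^ e₁ * (th p 2 * nrm v S₁) ^ g₁)
    (h₂ : ∀ p v, IsPl p v → ∀ i, v (f₂ i) ≤
      nrm v P₂ ^ A₂ * nrm v X₂ ^ c * th p 2 ^ e₂ * (th p 2 * nrm v S₂) ^ g₂)
    {y : α → Qb} (hy : ∀ x, y x = ∑ i, w (x, i) * (f₁ i * f₂ i)) (h0 : y ≠ 0) :
    hv y ≤ Real.log (N + 1) + (e₁ + g₁ + e₂ + g₂) + hv w + A₁ * ht P₁ + c * ht X₁ + g₁ * ht S₁ +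
      A₂ * ht P₂ + c * ht X₂ + g₂ * ht S₂ := by
  have hw : w ≠ 0 := by
    rintro rfl
    exact h0 (funext fun x => by simp [hy])
  have key := ht_le_of_local (r := Fin 7) (H2_vec_ne h0)
    ![Finset.univ.image w, P₁, X₁, S₁, P₂, X₂, S₂]
    (by
      intro i
      fin_cases i
      exacts [H2_vec_ne hw, hP₁, hX₁, hS₁, hP₂, hX₂, hS₂])
    (fun i => ((![1, A₁, c, g₁, A₂, c, g₂] : Fin 7 → ℕ) i : ℝ))
    (c := (N + 1) * 2 ^ (e₁ + g₁ + e₂ + g₂)) (by positivity) fun p v hp => by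
      have t0 : 0 ≤ th p 2 := zero_le_one.trans (H2_one_le_th p one_le_two)
      have t1 : th p ((N + 1) * 2 ^ (e₁ + g₁ + e₂ + g₂)) =
          th p (N + 1) * th p 2 ^ (e₁ + g₁ + e₂ + g₂) := by
        unfold th
        split_ifs <;> simp
      have t2 : th p ((Finset.univ : Finset (Fin N)).card) ≤ th p (N + 1) :=
        H2_th_mono p (by simp)
      have t3 : 0 ≤ th p (N + 1) :=
        zero_le_one.trans (H2_one_le_th p (by linarith [Nat.cast_nonneg (α := ℝ) N]))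
      have n0 := nrm_nonneg v (Finset.univ.image w)
      have n1 := nrm_nonneg v P₁
      have n2 := nrm_nonneg v X₁
      have n3 := nrm_nonneg v S₁
      have n4 := nrm_nonneg v P₂
      have n5 := nrm_nonneg v X₂
      have n6 := nrm_nonneg v S₂
      simp only [Real.rpow_natCast, Fin.prod_univ_seven, t1]
      simp only [Matrix.cons_val]
      refine nv_le v (by positivity) fun x => ?_
      rw [hy]
      refine (hp.sum_le _ _ (M := nrm v (Finset.univ.image w) *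
        ((nrm v P₁ ^ A₁ * nrm v X₁ ^ c * th p 2 ^ e₁ * (th p 2 * nrm v S₁) ^ g₁) *
          (nrm v P₂ ^ A₂ * nrm v X₂ ^ c * th p 2 ^ e₂ * (th p 2 * nrm v S₂) ^ g₂)))
        (by positivity) fun i _ => ?_).trans
        ((mul_le_mul_of_nonneg_right t2 (by positivity)).trans (le_of_eq (by ring)))
      rw [map_mul, map_mul]
      exact mul_le_mul (le_nv v w _) (mul_le_mul (h₁ p v hp i) (h₂ p v hp i) (v.nonneg _)
        (by positivity)) (by positivity) n0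
  rw [Real.log_mul (by positivity) (by positivity), Real.log_pow, Fin.sum_univ_seven] at key
  simp only [Matrix.cons_val, Nat.cast_one, one_mul] at key
  have l2 : Real.log 2 ≤ 1 := by linarith [Real.log_two_lt_d9]
  have l3 := mul_le_of_le_one_right (Nat.cast_nonneg (α := ℝ) (e₁ + g₁ + e₂ + g₂)) l2
  push_cast at key l3
  unfold hv
  linarith

/-- the final inequality -/
theorem C8_real {t E S H₁ H₂ σ₁ σ₂ q₁ q₂ q Nm hu c m₁ m₂ ϑ C₀ C₁ k₁ k₂ r₁ r₂ : ℝ} (ht : 0 < t)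
    (hE : 1 ≤ E) (hS : 1 ≤ S) (hH₁ : 1 ≤ H₁) (hH₂ : 1 ≤ H₂) (hσ₁ : 0 ≤ σ₁) (hσ₂ : 0 ≤ σ₂)
    (hq₁ : 0 ≤ q₁) (hq₂ : 0 ≤ q₂) (hc : 0 ≤ c) (hϑ : 0 < ϑ) (hC₀ : 0 ≤ C₀) (hC₁ : 0 ≤ C₁)
    (hk₁ : 0 ≤ k₁) (hk₂ : 0 ≤ k₂) (hr₁ : 0 ≤ r₁) (hr₂ : 0 ≤ r₂)
    (par : 2 * S * q₁ + 2 * q₂ - Nm - C₀ * (2 * S + 3) ≤ q)
    (main : t * E * q + t * S * hu ≤ t + (r₁ * (2 * (t * E) * S + c + c) + m₁ + k₁ * m₁ +
        (r₂ * (2 * (t * E) + c + c) + m₂) + k₂ * m₂) + C₁ * t * (S * H₁ + H₂) +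
      (2 * (t * E) * S + c) * q₁ + c * σ₁ + k₁ * m₁ * (k₁ * (H₁ + σ₁)) +
      (2 * (t * E) + c) * q₂ + c * σ₂ + k₂ * m₂ * (k₂ * (H₂ + σ₂)))
    (hct : c * (q₁ + q₂ + σ₁ + σ₂ + 1) ≤ t) (hm₁ : m₁ ≤ ϑ * (t * E * S)) (hm₂ : m₂ ≤ ϑ * (t * E)) :
    S * hu ≤ E * Nm + (3 * E * C₀ + 2 + C₁ + 4 * E * (r₁ + r₂) +
        E * (k₁ ^ 2 + k₂ ^ 2 + k₁ + k₂ + 1)) * (1 + ϑ) * (S * H₁ + H₂) +
      (3 * E * C₀ + 2 + C₁ + 4 * E * (r₁ + r₂) + E * (k₁ ^ 2 + k₂ ^ 2 + k₁ + k₂ + 1)) * ϑ *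
        (S * σ₁ + σ₂) := by
  obtain ⟨γ, rfl⟩ : ∃ γ, c = t * γ := ⟨c / t, by field_simp⟩
  obtain ⟨μ₁, rfl⟩ : ∃ μ, m₁ = t * μ := ⟨m₁ / t, by field_simp⟩
  obtain ⟨μ₂, rfl⟩ : ∃ μ, m₂ = t * μ := ⟨m₂ / t, by field_simp⟩
  have a0 : E * q + S * hu ≤ 1 + (r₁ * (2 * E * S + 2 * γ) + μ₁ + k₁ * μ₁ +
        (r₂ * (2 * E + 2 * γ) + μ₂) + k₂ * μ₂) + C₁ * (S * H₁ + H₂) +
      (2 * E * S + γ) * q₁ + γ * σ₁ + k₁ ^ 2 * (μ₁ * (H₁ + σ₁)) +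
      (2 * E + γ) * q₂ + γ * σ₂ + k₂ ^ 2 * (μ₂ * (H₂ + σ₂)) :=
    le_of_mul_le_mul_left (by linarith) ht
  have a1 : γ * (q₁ + q₂ + σ₁ + σ₂ + 1) ≤ 1 := le_of_mul_le_mul_left (by linarith) ht
  have a2 : μ₁ ≤ ϑ * (E * S) := le_of_mul_le_mul_left (by linarith) ht
  have a3 : μ₂ ≤ ϑ * E := le_of_mul_le_mul_left (by linarith) ht
  have a4 : 0 ≤ γ := le_of_mul_le_mul_left (by linarith) ht
  have hE0 : 0 ≤ E := by linarith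
  have hS0 : 0 ≤ S := by linarith
  have a5 : γ ≤ 1 := by
    have := mul_nonneg a4 (show 0 ≤ q₁ + q₂ + σ₁ + σ₂ by linarith)
    linarith
  obtain ⟨P, hP⟩ : ∃ P, P = S * H₁ + H₂ := ⟨_, rfl⟩
  obtain ⟨R, hR⟩ : ∃ R, R = S * σ₁ + σ₂ := ⟨_, rfl⟩
  have b0 : S ≤ S * H₁ := le_mul_of_one_le_right hS0 hH₁
  have b1 : S + 1 ≤ P := by linarith
  have b2 : 0 ≤ S * σ₁ := mul_nonneg hS0 hσ₁
  have hP0 : 0 ≤ P := by linarith
  have hR0 : 0 ≤ R := by linarith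
  have b3 : P ≤ E * P := le_mul_of_one_le_left hP0 hE
  have b4 : E * S ≤ E * P := mul_le_mul_of_nonneg_left (by linarith) hE0
  have b5 : E * 1 ≤ E * P := mul_le_mul_of_nonneg_left (by linarith) hE0
  have p0 := mul_le_mul_of_nonneg_left par hE0
  have p1 : E * C₀ * (2 * S + 3) ≤ E * C₀ * (3 * P) :=
    mul_le_mul_of_nonneg_left (by linarith) (mul_nonneg hE0 hC₀)
  have p4 : r₁ * (2 * E * S + 2 * γ) ≤ r₁ * (4 * (E * P)) :=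
    mul_le_mul_of_nonneg_left (by linarith) hr₁
  have p4' : r₂ * (2 * E + 2 * γ) ≤ r₂ * (4 * (E * P)) :=
    mul_le_mul_of_nonneg_left (by linarith) hr₂
  have hϑE : 0 ≤ ϑ * E := mul_nonneg hϑ.le hE0
  have p5 : k₁ ^ 2 * (μ₁ * (H₁ + σ₁)) ≤ k₁ ^ 2 * (ϑ * E * (P + R)) := by
    refine mul_le_mul_of_nonneg_left ?_ (sq_nonneg _)
    have h1 := mul_le_mul_of_nonneg_right a2 (show 0 ≤ H₁ + σ₁ by linarith)
    have h2 := mul_le_mul_of_nonneg_left (show S * (H₁ + σ₁) ≤ P + R by linarith) hϑE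
    linarith
  have p6 : k₂ ^ 2 * (μ₂ * (H₂ + σ₂)) ≤ k₂ ^ 2 * (ϑ * E * (P + R)) := by
    refine mul_le_mul_of_nonneg_left ?_ (sq_nonneg _)
    have h1 := mul_le_mul_of_nonneg_right a3 (show 0 ≤ H₂ + σ₂ by linarith)
    have h2 := mul_le_mul_of_nonneg_left (show H₂ + σ₂ ≤ P + R by linarith) hϑE
    linarith
  have p7 : ϑ * E * (S + 1) ≤ ϑ * E * P := mul_le_mul_of_nonneg_left b1 hϑE
  have p8 : 0 ≤ ϑ * E * S := mul_nonneg hϑE hS0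
  have p9 : k₁ * μ₁ ≤ k₁ * (ϑ * E * P) := mul_le_mul_of_nonneg_left (by linarith) hk₁
  have p10 : k₂ * μ₂ ≤ k₂ * (ϑ * E * P) := mul_le_mul_of_nonneg_left (by linarith) hk₂
  have z1 : 0 ≤ E * (k₁ ^ 2 + k₂ ^ 2 + k₁ + k₂ + 1) * P := by positivity
  have z2 : 0 ≤ (3 * E * C₀ + 2 + C₁ + 4 * E * (r₁ + r₂)) * ϑ * (P + R) := by positivity
  have z3 : 0 ≤ E * (k₁ + k₂ + 1) * ϑ * R := by positivity
  rw [← hP] at a0
  rw [← hP, ← hR]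
  linarith

/-- the bound for the height of the norm -/
theorem C8_real2 {t a S H₁ H₂ c C₁ C₂ B₀ B x l hF : ℝ} (ht : 1 ≤ t) (ha : t ≤ a) (hS : 1 ≤ S)
    (hH₁ : 1 ≤ H₁) (hH₂ : 1 ≤ H₂) (hc : c ≤ t) (hC₁ : 0 ≤ C₁) (hC₂ : 0 ≤ C₂) (hB₀ : 0 ≤ B₀)
    (hB : B₀ * (C₂ * (C₁ + 6) + 1) ≤ B) (hx : x ≤ C₁ * t * (S * H₁ + H₂)) (hl : l ≤ t)
    (h : hF ≤ C₂ * (x + l + (2 * a * S + c + c) * H₁ + (2 * a + c + c) * H₂ + 1)) :
    B₀ * (hF + a * S) ≤ B * (S * H₁ + H₂) * a := by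
  obtain ⟨P, hP⟩ : ∃ P, P = S * H₁ + H₂ := ⟨_, rfl⟩
  have ha0 : 0 ≤ a := by linarith
  have b0 : S ≤ S * H₁ := le_mul_of_one_le_right (by linarith) hH₁
  have b1 : a * 1 ≤ a * P := mul_le_mul_of_nonneg_left (by linarith) ha0
  have b2 : a * S ≤ a * P := mul_le_mul_of_nonneg_left (by linarith) ha0
  have b3 : a * 1 ≤ a * S := mul_le_mul_of_nonneg_left hS ha0
  have b4 : (2 * a * S + c + c) * H₁ ≤ (4 * (a * S)) * H₁ :=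
    mul_le_mul_of_nonneg_right (by linarith) (by linarith)
  have b5 : (2 * a + c + c) * H₂ ≤ (4 * a) * H₂ :=
    mul_le_mul_of_nonneg_right (by linarith) (by linarith)
  have b6 : C₁ * (t * P) ≤ C₁ * (a * P) :=
    mul_le_mul_of_nonneg_left (mul_le_mul_of_nonneg_right ha (by linarith)) hC₁
  have b7 : a * P = a * S * H₁ + a * H₂ := by rw [hP]; ring
  rw [← hP] at hx ⊢
  have b8 : C₂ * (x + l + (2 * a * S + c + c) * H₁ + (2 * a + c + c) * H₂ + 1) ≤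
      C₂ * ((C₁ + 6) * (a * P)) := mul_le_mul_of_nonneg_left (by linarith) hC₂
  have b9 : B₀ * (hF + a * S) ≤ B₀ * ((C₂ * (C₁ + 6) + 1) * (a * P)) :=
    mul_le_mul_of_nonneg_left (by linarith) hB₀
  have b10 := mul_le_mul_of_nonneg_right hB (show 0 ≤ a * P by linarith)
  linarith

theorem C8_hv_bool (u : Qb) (b : ℕ) : hv (fun ε : Bool => u ^ (if ε then b else 0)) = b * h1 u := by
  have e : (fun ε : Bool => u ^ (if ε then b else 0)) = fun ε : Bool => (if ε then u else 1) ^ b :=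
    funext fun ε => by cases ε <;> simp
  rw [e, hv_pow, hv, h1]
  congr 2
  ext x
  simp [eq_comm, or_comm]

end Pool.Agent.E6b
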