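import Pool.Agent.E6b.C7
import Pool.Agent.E6b.C2
import Pool.Agent.E6b.C4
import Pool.Agent.E6b.C8Aux

open scoped NNReal TensorProduct IntermediateField BigOperators Classical Topology
open Filter

namespace Pool.Agent.E6b

variable {F : Type} [Field F] [Algebra Qb F] [IsFF Qb F] (o : Place Qb F) (d : ℕ)

theorem C8_rs_pow {κ Ω : Type} [Field κ] [Field Ω] [Algebra κ Ω] (O : VS κ Ω) {x : Ω}
    (hx : x ∈ O.1) (n : ℕ) : rs O (x ^ n) = rs O x ^ n := by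
  induction n with
  | zero => simpa using rs_algebraMap O 1
  | succ n ih => rw [pow_succ, rs_mul O (pow_mem hx n) hx, ih, pow_succ]

section
variable {o d} {r₁ r₂ Δ : ℕ}

/-- the special point of the product -/
theorem C8_pt (L₁ : Lev o d r₁ Δ) (L₂ : Lev o d r₂ Δ) {χ : TB L₁.M L₂.M →ₐ[Qb] Qb}
    (hu : ∀ k, χ (uB L₁.M L₂.M k) = Sum.elim L₁.u L₂.u k) (h₁ : χ (x1B L₁.M L₂.M) = L₁.ξ)
    (h₂ : χ (x2B L₁.M L₂.M) = L₂.ξ) :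
    (∀ p, χ (e1B L₁.M L₂.M p) = ev2 L₁.u L₁.ξ p) ∧ (∀ p, χ (e2B L₁.M L₂.M p) = ev2 L₂.u L₂.ξ p) ∧
      GdP L₁.M L₂.M χ ∧ Above L₁.M L₂.M χ L₁.z L₂.z := by
  have e₁ : (fun k => χ (uB L₁.M L₂.M (.inl k))) = L₁.u := funext fun k => hu _
  have e₂ : (fun k => χ (uB L₁.M L₂.M (.inr k))) = L₂.u := funext fun k => hu _
  have f₁ : ∀ p, χ (e1B L₁.M L₂.M p) = ev2 L₁.u L₁.ξ p := fun p => by
    rw [e1B, map_ev2, e₁, h₁]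
  have f₂ : ∀ p, χ (e2B L₁.M L₂.M p) = ev2 L₂.u L₂.ξ p := fun p => by
    rw [e2B, map_ev2, e₂, h₂]
  refine ⟨f₁, f₂, ⟨?_, ?_⟩, ?_, ?_⟩
  · rw [f₁]
    simpa [ev2] using L₁.pt.2
  · rw [f₂]
    simpa [ev2] using L₂.pt.2
  · rw [e₁, h₁]
    exact L₁.crd
  · rw [e₂, h₂]
    exact L₂.crd

theorem C8_prp (L₁ : Lev o d r₁ Δ) (L₂ : Lev o d r₂ Δ) (G : Gen L₁.M L₂.M) :
    Prp (fun j => ev2 L₁.u L₁.ξ (L₁.M.P (.inr j))) (Psym (clz L₁.z)) ∧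
      Prp (fun j => ev2 L₂.u L₂.ξ (L₂.M.P (.inr j))) (Psym (clz L₂.z)) := by
  obtain ⟨χ, h1, h2, h3⟩ := exists_lift_TB L₁.M L₂.M (Sum.elim L₁.u L₂.u) L₁.ξ L₂.ξ
    L₁.pt.1 L₂.pt.1
  obtain ⟨f₁, f₂, hg, ha⟩ := C8_pt L₁ L₂ h1 h2 h3
  have h := G.spec₁ hg ha
  simpa only [f₁, f₂] using h

/-- the ratios of the numerators at a valuation ring dominating a point -/
theorem C8_ratio {M₁ : Mdl Qb r₁ (IX o d)} {M₂ : Mdl Qb r₂ (IX o d)} (G : Gen M₁ M₂)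
    {χ : TB M₁ M₂ →ₐ[Qb] Qb} (hχ : GdP M₁ M₂ χ) {y₁ y₂ : Fin d → Pt o Qb}
    (hy : Above M₁ M₂ χ y₁ y₂) {O : VS Qb (TL M₁ M₂)} (hO : Dom M₁ M₂ O χ) (s t : ℤ)
    {n : JJ o × JJ o → TL M₁ M₂} (hn : Prp (Psym (s • clz G.z₁ + t • clz G.z₂)) n) :
    ∃ j₁, n j₁ ≠ 0 ∧ Psym (s • clz y₁ + t • clz y₂) j₁ ≠ 0 ∧ ∀ j, n j / n j₁ ∈ O.1 ∧
      rs O (n j / n j₁) = algebraMap Qb (RF O)
        (Psym (s • clz y₁ + t • clz y₂) j / Psym (s • clz y₁ + t • clz y₂) j₁) := by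
  have h0 : n ≠ 0 := hn.symm.ne_zero (Psym_ne_zero _)
  have : Nonempty (JJ o × JJ o) := ⟨(Function.ne_iff.1 h0).choose⟩
  obtain ⟨j₁, hj⟩ := exists_vs_eq O.1 n
  have h1 : O.1.valuation (n j₁) ≠ 0 := hj ▸ vs_ne_zero O.1 h0
  have h2 : n j₁ ≠ 0 := fun h => h1 (by rw [h, map_zero])
  have h3 : Prp (fun j => (n j₁)⁻¹ * n j) n := ⟨_, inv_ne_zero h2, fun _ => rfl⟩
  obtain ⟨μ, -, hμ⟩ := G.spec hχ hy hO s t (h3.trans hn.symm)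
    (by rw [vs_smul, ← hj, map_inv₀, inv_mul_cancel₀ h1])
  have h4 : 1 = μ * algebraMap Qb (RF O) (Psym (s • clz y₁ + t • clz y₂) j₁) := by
    have h5 := hμ j₁
    simp only [inv_mul_cancel₀ h2] at h5
    rw [← h5]
    simpa using (rs_algebraMap O 1).symm
  refine ⟨j₁, h2, fun h => ?_, fun j => ⟨(V1_div_mem O.1 _ h2).2 (hj ▸ le_vs O.1 n j), ?_⟩⟩
  · rw [h, map_zero, mul_zero] at h4
    exact one_ne_zero h4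
  · rw [div_eq_inv_mul, map_div₀, div_eq_inv_mul, ← eq_inv_of_mul_eq_one_left h4.symm]
    exact hμ j

/-- the norm has small index -/
theorem C8_idx {r₁ r₂ C₂ B₀ ρ B s t a c : ℕ} {C₁ H₁ H₂ x l ϑ : ℝ} {u₁ : Fin r₁ → Qb}
    {u₂ : Fin r₂ → Qb}
    (hP : ∀ d₁ d₂ : ℕ, 0 < d₂ → d₂ ≤ d₁ → ρ * d₂ ≤ d₁ →
      ∀ (F : MvPolynomial (Fin r₁ ⊕ Fin r₂) Qb) (p₁ : Fin r₁ → Qb) (p₂ : Fin r₂ → Qb), F ≠ 0 →
      (∀ j, F.degreeOf (.inl j) ≤ 4 * C₂ * d₁) → (∀ j, F.degreeOf (.inr j) ≤ 4 * C₂ * d₂) →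
      IdxGe F (Sum.elim p₁ p₂) (Sum.elim (fun _ => d₁) fun _ => d₂) ϑ →
      (∃ q : MvPolynomial (Fin r₁) Qb, q ≠ 0 ∧ q.totalDegree ≤ B₀ ∧ MvPolynomial.eval p₁ q = 0 ∧
        hp q * d₁ ≤ B₀ * (hp F + d₁)) ∨
      (∃ q : MvPolynomial (Fin r₂) Qb, q ≠ 0 ∧ q.totalDegree ≤ B₀ ∧ MvPolynomial.eval p₂ q = 0 ∧
        hp q * d₂ ≤ B₀ * (hp F + d₁)))
    (hs : 0 < s) (hBs : B ≤ s) (hρ : ρ ≤ B) (hB₀ : B₀ ≤ B)
    (hB : B₀ * (C₂ * (C₁ + 6) + 1) ≤ (B : ℝ)) (ht : 0 < t) (hta : t ≤ a) (hc : c ≤ t)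
    (hH₁ : 1 ≤ H₁) (hH₂ : 1 ≤ H₂) (hC₁ : 0 ≤ C₁)
    (g₁ : ∀ q : MvPolynomial (Fin r₁) Qb, q ≠ 0 → q.totalDegree ≤ B → MvPolynomial.eval u₁ q = 0 →
      B * (s ^ 2 * H₁ + H₂) < hp q * s ^ 2)
    (g₂ : ∀ q : MvPolynomial (Fin r₂) Qb, q ≠ 0 → q.totalDegree ≤ B → MvPolynomial.eval u₂ q = 0 →
      B * (s ^ 2 * H₁ + H₂) < hp q)
    {Q : MvPolynomial (Fin r₁ ⊕ Fin r₂) Qb} (hQ : Q ≠ 0)
    (d₁ : ∀ k, Q.degreeOf (.inl k) ≤ C₂ * (2 * a * s ^ 2 + c + c))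
    (d₂ : ∀ k, Q.degreeOf (.inr k) ≤ C₂ * (2 * a + c + c))
    (hx : x ≤ C₁ * t * (s ^ 2 * H₁ + H₂)) (hl : l ≤ t)
    (hh : hp Q ≤ C₂ * (x + l + ((2 * a * s ^ 2 + c : ℕ) + c) * H₁ + ((2 * a + c : ℕ) + c) * H₂ + 1)) :
    ¬ IdxGe Q (Sum.elim u₁ u₂) (Sum.elim (fun _ => a * s ^ 2) fun _ => a) ϑ := by
  intro hI
  have s1 : 1 ≤ s ^ 2 := Nat.one_le_pow _ _ hs
  have s2 : s ≤ s ^ 2 := Nat.le_self_pow two_ne_zero s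
  have s3 : a ≤ a * s ^ 2 := Nat.le_mul_of_pos_right _ s1
  have a0 : (0 : ℝ) < a := by exact_mod_cast ht.trans_le hta
  push_cast at hh
  have key := C8_real2 (S := (s : ℝ) ^ 2) (by exact_mod_cast ht) (by exact_mod_cast hta)
    (by exact_mod_cast s1) hH₁ hH₂ (by exact_mod_cast hc) hC₁ (Nat.cast_nonneg C₂)
    (Nat.cast_nonneg B₀) hB hx hl hh
  rcases hP (a * s ^ 2) a (by omega) s3
    (by rw [mul_comm]; exact Nat.mul_le_mul_left _ (by omega)) Q u₁ u₂ hQ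
    (fun k => (d₁ k).trans (by
      rw [mul_comm 4, mul_assoc C₂, mul_assoc 2]
      exact Nat.mul_le_mul_left _ (by omega)))
    (fun k => (d₂ k).trans (by
      rw [mul_comm 4, mul_assoc C₂]
      exact Nat.mul_le_mul_left _ (by omega))) hI with ⟨q, q1, q2, q3, q4⟩ | ⟨q, q1, q2, q3, q4⟩
  · have h1 := mul_lt_mul_of_pos_right (g₁ q q1 (q2.trans hB₀) q3) a0
    push_cast at q4
    linarith
  · have h1 := mul_lt_mul_of_pos_right (g₂ q q1 (q2.trans hB₀) q3) a0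
    push_cast at q4
    linarith

theorem C8_deg {r₁ r₂ d₁ d₂ : ℕ} (h₁ : 0 < d₁) (h₂ : 0 < d₂) {ϑ : ℝ} (m : Fin r₁ ⊕ Fin r₂ →₀ ℕ)
    (h : ∑ k, (m k : ℝ) / (Sum.elim (fun _ => d₁) (fun _ => d₂) k : ℕ) < ϑ) :
    ((m.comapDomain Sum.inl Sum.inl_injective.injOn).degree : ℝ) ≤ ϑ * d₁ ∧
      ((m.comapDomain Sum.inr Sum.inr_injective.injOn).degree : ℝ) ≤ ϑ * d₂ := by
  simp only [Fintype.sum_sum_type, Sum.elim_inl, Sum.elim_inr, ← Finset.sum_div] at h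
  simp only [Finsupp.degree_eq_sum, Finsupp.comapDomain_apply, Nat.cast_sum]
  have a1 : 0 ≤ (∑ k, (m (.inl k) : ℝ)) / d₁ := by positivity
  have a2 : 0 ≤ (∑ k, (m (.inr k) : ℝ)) / d₂ := by positivity
  exact ⟨(div_le_iff₀ (by exact_mod_cast h₁)).1 (by linarith),
    (div_le_iff₀ (by exact_mod_cast h₂)).1 (by linarith)⟩

/-- the parallelogram law -/
theorem C8_par {C : ℝ} (h1 : ∀ a b, ntB o a b = ntB o b a) (h2 : ∀ a, |hq a - ntB o a a| ≤ C)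
    (s : ℕ) (a b : Cl o Qb) : 2 * (s : ℝ) ^ 2 * hq a + 2 * hq b -
      ntB o ((s : ℤ) • a - b) ((s : ℤ) • a - b) - C * (2 * (s : ℝ) ^ 2 + 3) ≤
      hq ((s : ℤ) • a + (1 : ℤ) • b) := by
  have e1 := (abs_le.1 (h2 ((s : ℤ) • a + (1 : ℤ) • b))).1
  have e2 := mul_le_mul_of_nonneg_left (abs_le.1 (h2 a)).2 (sq_nonneg (s : ℝ))
  have e3 := (abs_le.1 (h2 b)).2
  simp only [one_smul, map_add, map_sub, map_zsmul, AddMonoidHom.add_apply, AddMonoidHom.sub_apply,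
    AddMonoidHom.smul_apply, zsmul_eq_mul, Int.cast_natCast, h1 b a] at e1 ⊢
  linarith

end

/-- Vojta's inequality for two generic special points -/
theorem core (r₁ r₂ Δ : ℕ) : ∃ E C : ℝ, 0 ≤ E ∧ 0 ≤ C ∧ ∀ ϑ : ℝ, 0 < ϑ → ∃ B : ℕ,
    ∀ (L₁ : Lev o d r₁ Δ) (L₂ : Lev o d r₂ Δ) (k₀ : Fin r₁) (s : ℕ), 0 < s → B ≤ s →
      Function.Injective (Sum.elim L₁.z L₂.z) → ell (dz (Sum.elim L₁.z L₂.z)) = 1 →
      (∀ q : MvPolynomial (Fin r₁) Qb, q ≠ 0 → q.totalDegree ≤ B → MvPolynomial.eval L₁.u q = 0 →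
        B * (s ^ 2 * (L₁.hh + 1) + (L₂.hh + 1)) < hp q * s ^ 2) →
      (∀ q : MvPolynomial (Fin r₂) Qb, q ≠ 0 → q.totalDegree ≤ B → MvPolynomial.eval L₂.u q = 0 →
        B * (s ^ 2 * (L₁.hh + 1) + (L₂.hh + 1)) < hp q) →
      s ^ 2 * h1 (L₁.u k₀) ≤
        E * ntB o ((s : ℤ) • clz L₁.z - clz L₂.z) ((s : ℤ) • clz L₁.z - clz L₂.z) +
          C * (1 + ϑ) * (s ^ 2 * (L₁.hh + 1) + (L₂.hh + 1)) + C * ϑ * (s ^ 2 * L₁.hs + L₂.hs) := by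
  obtain ⟨E, C₁, hE, hC₁, haux⟩ := exists_aux o d r₁ r₂ Δ
  obtain ⟨C₂, hnorm⟩ := norm_bound r₁ r₂ Δ
  obtain ⟨k₁, tay₁⟩ := taylor_bound r₁ Δ (Fintype.card (JJ o × JJ o))
  obtain ⟨k₂, tay₂⟩ := taylor_bound r₂ Δ (Fintype.card (JJ o × JJ o))
  obtain ⟨C₀, nt1, -, nt3⟩ := ntB_spec o
  have hC₀ : 0 ≤ C₀ := (abs_nonneg _).trans (nt3 0)
  refine ⟨E, 3 * E * C₀ + 2 + C₁ + 4 * E * (r₁ + r₂) + E * (k₁ ^ 2 + k₂ ^ 2 + k₁ + k₂ + 1),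
    Nat.cast_nonneg E, by positivity, fun ϑ hϑ => ?_⟩
  obtain ⟨B₀, ρ, hP⟩ := prod_thm r₁ r₂ (4 * C₂) hϑ
  refine ⟨ρ + B₀ + ⌈B₀ * (C₂ * (C₁ + 6) + 1)⌉₊, fun L₁ L₂ k₀ s hs hBs hi hl g₁ g₂ => ?_⟩
  obtain ⟨G⟩ := exists_gen L₁.real L₂.real
  obtain ⟨p₁, p₂⟩ := C8_prp L₁ L₂ G
  have p₁' := p₁.ne_zero (Psym_ne_zero _)
  have p₂' := p₂.ne_zero (Psym_ne_zero _)
  obtain ⟨W₁, S₁, w11, w12, w13, w14, w15⟩ :=
    tay₁ le_rfl L₁.M L₁.cx L₁.u L₁.ξ L₁.pt (Function.ne_iff.1 p₁')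
  obtain ⟨W₂, S₂, w21, w22, w23, w24, w25⟩ :=
    tay₂ le_rfl L₂.M L₂.cx L₂.u L₂.ξ L₂.pt (Function.ne_iff.1 p₂')
  obtain ⟨T, χ, t1, t2, t3, t4, t5, t6, t7, t8⟩ := exists_tay L₁.M L₂.M L₁.u L₂.u W₁ W₂ w12 w22
  obtain ⟨-, -, hg, ha⟩ := C8_pt L₁ L₂ t6 (t7.trans w11) (t8.trans w21)
  obtain ⟨gi, gl⟩ := G.ell_eq_one hg ha hi hl
  obtain ⟨n, hn⟩ := G.exists_num s 1
  obtain ⟨k, c, hk, hD⟩ := haux L₁.M L₂.M L₁.cx L₂.cx G gi gl k₀ s hs n hn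
  have σ₁ : 0 ≤ L₁.hs := add_nonneg (Finset.sum_nonneg fun _ _ => h1_nonneg _) (h1_nonneg _)
  have σ₂ : 0 ≤ L₂.hs := add_nonneg (Finset.sum_nonneg fun _ _ => h1_nonneg _) (h1_nonneg _)
  have q₁ : 0 ≤ hq (clz L₁.z) := hv_nonneg _
  have q₂ : 0 ≤ hq (clz L₂.z) := hv_nonneg _
  have H₁ : 1 ≤ L₁.hh + 1 := le_add_of_nonneg_left (ht_nonneg _)
  have H₂ : 1 ≤ L₂.hh + 1 := le_add_of_nonneg_left (ht_nonneg _)
  obtain ⟨D, ⟨N, μ₁, μ₂, w, ⟨x₀, hx₀⟩, hrel, hw, hN⟩, hD1⟩ := (hD.and (Filter.eventually_ge_atTop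
    (⌈c * (hq (clz L₁.z) + hq (clz L₂.z) + L₁.hs + L₂.hs + 1)⌉₊ + 1))).exists
  have hDk : D ≤ k * D := Nat.le_mul_of_pos_left _ hk
  have hct : c * (hq (clz L₁.z) + hq (clz L₂.z) + L₁.hs + L₂.hs + 1) ≤ (k * D : ℕ) :=
    Nat.ceil_le.1 (by omega)
  rw [← Nat.cast_mul] at hw hN
  generalize k * D = t at *
  have ht0 : 0 < t := by omega
  have hc : c ≤ t := by
    have h := mul_nonneg (Nat.cast_nonneg (α := ℝ) c)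
      (show 0 ≤ hq (clz L₁.z) + hq (clz L₂.z) + L₁.hs + L₂.hs by linarith)
    exact_mod_cast (show (c : ℝ) ≤ t by linarith)
  have ha0 : 0 < t * E := Nat.mul_pos ht0 hE
  have ha1 : 0 < t * E * s ^ 2 := by positivity
  obtain ⟨O, hO, hlead⟩ := exists_lead L₁.M L₂.M T χ t1 t2 t5
    (Sum.elim (fun _ => t * E * s ^ 2) fun _ => t * E) (by rintro (k | k) <;> assumption)
  obtain ⟨j₁, n0, ψ0, hj⟩ := C8_ratio G hg ha hO s 1 hn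
  have n1 : n j₁ ≠ 0 := fun h => n0 (by rw [h, map_zero])
  have b0 : cmb L₁.M L₂.M μ₁ μ₂ (fun i => w ((j₁, false), i)) ≠ 0 := by
    intro h
    have h1 := hrel x₀ (j₁, false)
    rw [h, zero_mul] at h1
    exact mul_ne_zero hx₀ (mul_ne_zero (pow_ne_zero _ n1) (by simp)) h1
  obtain ⟨d₁, d₂, hh⟩ := hnorm L₁.M L₂.M L₁.cx L₂.cx μ₁ μ₂ fun i => w ((j₁, false), i)
  obtain ⟨m, m1, m2, m3⟩ := hlead _ ϑ b0 (C8_idx hP hs hBs (by omega) (by omega)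
    ((Nat.le_ceil _).trans (by exact_mod_cast Nat.le_add_left _ _)) ht0
    (Nat.le_mul_of_pos_right _ hE) hc H₁ H₂ hC₁ g₁ g₂ (nrB_ne_zero _ _ b0) d₁ d₂
    ((hv_comp_le w fun i => ((j₁, false), i)).trans hw) hN hh)
  obtain ⟨m4, m5⟩ := C8_deg ha1 ha0 m m1
  generalize hψ : Psym ((s : ℤ) • clz L₁.z + (1 : ℤ) • clz L₂.z) = ψ at ψ0 hj
  have hy : ∀ x : (JJ o × JJ o) × Bool,
      MvPowerSeries.coeff m (T (cmb L₁.M L₂.M μ₁ μ₂ fun i => w (x, i))) =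
        (ψ x.1 / ψ j₁) ^ (t * E) * L₁.u k₀ ^ (if x.2 then t * s ^ 2 else 0) *
          MvPowerSeries.coeff m (T (cmb L₁.M L₂.M μ₁ μ₂ fun i => w ((j₁, false), i))) := by
    intro x
    obtain ⟨u1, u2⟩ := hO (uB L₁.M L₂.M (.inl k₀))
    refine m3 _ ((algebraMap _ (TL L₁.M L₂.M) (n x.1) / algebraMap _ (TL L₁.M L₂.M) (n j₁)) ^
      (t * E) * algebraMap _ (TL L₁.M L₂.M) (uB L₁.M L₂.M (.inl k₀)) ^
        (if x.2 then t * s ^ 2 else 0)) _ (mul_mem (pow_mem (hj _).1 _) (pow_mem u1 _)) ?_ ?_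
    · rw [rs_mul O (pow_mem (hj _).1 _) (pow_mem u1 _), C8_rs_pow O (hj _).1, C8_rs_pow O u1,
        (hj _).2, u2, t6, map_mul, map_pow, map_pow, Sum.elim_inl]
    · have h1 := congrArg (algebraMap _ (TL L₁.M L₂.M)) (hrel x (j₁, false))
      simp only [map_mul, map_pow, Bool.false_eq_true, if_false, pow_zero, mul_one] at h1
      rw [div_pow, div_mul_eq_mul_div, div_mul_eq_mul_div, eq_div_iff (pow_ne_zero _ n0), h1,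
        mul_comm]
  have hψ0 : (fun j => ψ j ^ (t * E)) ≠ 0 := Function.ne_iff.2 ⟨j₁, pow_ne_zero _ ψ0⟩
  have hlow : hv (fun x : (JJ o × JJ o) × Bool =>
      MvPowerSeries.coeff m (T (cmb L₁.M L₂.M μ₁ μ₂ fun i => w (x, i)))) =
      (t * E : ℕ) * hq ((s : ℤ) • clz L₁.z + (1 : ℤ) • clz L₂.z) +
        (t * s ^ 2 : ℕ) * h1 (L₁.u k₀) := by
    rw [hq, hψ, ← hv_pow, ← C8_hv_bool, ← hv_segre hψ0 (Function.ne_iff.2 ⟨false, by simp⟩)]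
    refine hv_congr ⟨_, div_ne_zero m2 (pow_ne_zero (t * E) ψ0), fun x => ?_⟩
    beta_reduce
    rw [hy x, div_pow]
    ring
  have hup := C8_loc w _ _ (H2_vec_ne p₁') (H2_vec_ne (Function.ne_iff.2 ⟨none, by simp [xp]⟩))
    ⟨1, w13, one_ne_zero⟩ (H2_vec_ne p₂') (H2_vec_ne (Function.ne_iff.2 ⟨none, by simp [xp]⟩))
    ⟨1, w23, one_ne_zero⟩
    (fun p v hv i => w15 (μ₁ i) p v hv (m.comapDomain Sum.inl Sum.inl_injective.injOn))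
    (fun p v hv i => w25 (μ₂ i) p v hv (m.comapDomain Sum.inr Sum.inr_injective.injOn))
    (y := fun x => MvPowerSeries.coeff m (T (cmb L₁.M L₂.M μ₁ μ₂ fun i => w (x, i))))
    (fun x => by
      simp only [cmb, map_sum, map_smul, map_mul, t3, t4, coeff_rename_mul, smul_eq_mul])
    (Function.ne_iff.2 ⟨(j₁, false), m2⟩)
  have e₁ : ht (Finset.univ.image fun j => ev2 L₁.u L₁.ξ (L₁.M.P (.inr j))) = hq (clz L₁.z) :=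
    hv_congr p₁
  have e₂ : ht (Finset.univ.image fun j => ev2 L₂.u L₂.ξ (L₂.M.P (.inr j))) = hq (clz L₂.z) :=
    hv_congr p₂
  have x₁ : c * ht (Finset.univ.image fun l => ev2 L₁.u L₁.ξ (xp Qb r₁ l)) ≤ c * L₁.hs :=
    mul_le_mul_of_nonneg_left (hv_xp_le _ _) (Nat.cast_nonneg c)
  have x₂ : c * ht (Finset.univ.image fun l => ev2 L₂.u L₂.ξ (xp Qb r₂ l)) ≤ c * L₂.hs :=
    mul_le_mul_of_nonneg_left (hv_xp_le _ _) (Nat.cast_nonneg c)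
  rw [hlow, e₁, e₂] at hup
  generalize (m.comapDomain Sum.inl Sum.inl_injective.injOn).degree = m₁ at hup m4
  generalize (m.comapDomain Sum.inr Sum.inr_injective.injOn).degree = m₂ at hup m5
  have y₁ : (k₁ * m₁ : ℝ) * ht S₁ ≤ k₁ * m₁ * (k₁ * (L₁.hh + 1 + L₁.hs)) :=
    mul_le_mul_of_nonneg_left (w14.trans_eq (by rw [Lev.hh, Lev.hs]; ring)) (by positivity)
  have y₂ : (k₂ * m₂ : ℝ) * ht S₂ ≤ k₂ * m₂ * (k₂ * (L₂.hh + 1 + L₂.hs)) :=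
    mul_le_mul_of_nonneg_left (w24.trans_eq (by rw [Lev.hh, Lev.hs]; ring)) (by positivity)
  push_cast at hup m4 m5
  change hv w ≤ C₁ * t * (s ^ 2 * (L₁.hh + 1) + (L₂.hh + 1)) at hw
  exact C8_real (t := t) (by exact_mod_cast ht0) (by exact_mod_cast hE)
    (by exact_mod_cast Nat.one_le_pow _ _ hs) H₁ H₂ σ₁ σ₂ q₁ q₂ (Nat.cast_nonneg c) hϑ hC₀ hC₁
    (Nat.cast_nonneg k₁) (Nat.cast_nonneg k₂) (Nat.cast_nonneg r₁) (Nat.cast_nonneg r₂)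
    (C8_par nt1 nt3 s _ _) (by linarith) hct m4 m5

end Pool.Agent.E6b
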