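import Pool.Agent.E6b.M2
import Pool.Agent.E6b.P5

open scoped NNReal TensorProduct IntermediateField BigOperators Classical Topology
open Filter

namespace Pool.Agent.E6b

variable {F : Type} [Field F] [Algebra Qb F] [IsFF Qb F] {o : Place Qb F} {d : ℕ}

/-- a transcendence basis inside a finite family, through a given member -/
theorem M3_basis {K Ω ι : Type} [Field K] [Field Ω] [Algebra K Ω] [Finite ι] (c : ι → Ω) (i₀ : ι)
    (h : Transcendental K (c i₀)) : ∃ (r : ℕ) (π : Fin r → ι) (k₀ : Fin r), π k₀ = i₀ ∧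
      AlgebraicIndependent K (fun k => c (π k)) ∧
      ∀ i, IsAlgebraic (IntermediateField.adjoin K (Set.range fun k => c (π k))) (c i) := by
  have h0 : AlgebraicIndepOn K c {i₀} :=
    (algebraicIndependent_singleton_iff (⟨i₀, rfl⟩ : ({i₀} : Set ι))).2 h
  obtain ⟨s, ⟨hs0, hs⟩, hm⟩ := (Set.toFinite {s : Set ι | i₀ ∈ s ∧ AlgebraicIndepOn K c s}).exists_maximal
    ⟨{i₀}, rfl, h0⟩
  obtain ⟨r, ⟨e⟩⟩ := Finite.exists_equiv_fin s
  have hr : (Set.range fun k => c (e.symm k)) = c '' s := by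
    ext x
    constructor
    · rintro ⟨k, rfl⟩
      exact ⟨_, (e.symm k).2, rfl⟩
    · rintro ⟨i, hi, rfl⟩
      exact ⟨e ⟨i, hi⟩, by simp⟩
  refine ⟨r, fun k => e.symm k, e ⟨i₀, hs0⟩, by simp,
    (algebraicIndependent_equiv e.symm (f := fun i : s => c i)).2 hs, fun i => ?_⟩
  rw [hr, IntermediateField.isAlgebraic_adjoin_iff]
  by_contra hc
  have h1 : i ∈ s := hm ⟨Set.mem_insert_of_mem _ hs0, hs.insert hc⟩ (Set.subset_insert i s)
    (Set.mem_insert i s)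
  exact hc (isAlgebraic_algebraMap
    (⟨_, Algebra.subset_adjoin ⟨i, h1, rfl⟩⟩ : Algebra.adjoin K (c '' s)))

theorem M3_mem_of_isIntegral {K Ω : Type} [Field K] [Field Ω] [Algebra K Ω]
    (L : IntermediateField K Ω) [IsAlgClosed L] {x : Ω} (hx : IsIntegral L x) : x ∈ L := by
  obtain ⟨y, hy⟩ := minpoly.mem_range_of_degree_eq_one L x
    (IsAlgClosed.degree_eq_one_of_irreducible L (minpoly.irreducible hx))
  exact hy ▸ y.2

theorem M3_root_mem {K Ω : Type} [Field K] [Field Ω] [Algebra K Ω] (L : IntermediateField K Ω)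
    [IsAlgClosed L] {r : ℕ} {m : PP K r} (hm : m.Monic) {u : Fin r → Ω} (hu : ∀ k, u k ∈ L) {ξ : Ω}
    (h : ev2 u ξ m = 0) : ξ ∈ L := by
  refine M3_mem_of_isIntegral L
    ⟨m.map (MvPolynomial.aeval fun k => (⟨u k, hu k⟩ : L)).toRingHom, hm.map _, ?_⟩
  rw [Polynomial.eval₂_map, ← h]
  change _ = m.eval₂ (MvPolynomial.aeval u).toRingHom ξ
  congr 1
  ext <;> simp

theorem M3_exists_root {K Ω : Type} [Field K] [Field Ω] [IsAlgClosed Ω] [Algebra K Ω] {r : ℕ}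
    {m : PP K r} (hm : m.Monic) (hi : Irreducible m) (u : Fin r → Ω) : ∃ ξ : Ω, ev2 u ξ m = 0 := by
  obtain ⟨ξ, hξ⟩ := IsAlgClosed.exists_root (m.map (MvPolynomial.aeval u).toRingHom) (by
    rw [hm.degree_map]
    intro h0
    exact hi.ne_one (hm.degree_le_zero_iff_eq_one.1 h0.le))
  exact ⟨ξ, by rwa [Polynomial.IsRoot, Polynomial.eval_map] at hξ⟩

theorem M3_ev2_C {K R : Type} [Field K] [CommRing R] [Algebra K R] {r : ℕ} (u : Fin r → R) (ξ : R)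
    (q : MvPolynomial (Fin r) K) : ev2 u ξ (Polynomial.C q) = MvPolynomial.aeval u q :=
  Polynomial.eval₂_C _ _

theorem M3_val_map {K R R' : Type} [Field K] [Field R] [Algebra K R] [Field R'] [Algebra K R']
    {r : ℕ} {ι : Type} (M : Mdl K r ι) (φ : R →ₐ[K] R') (u : Fin r → R) (ξ : R) (l : ι) :
    φ (M.val u ξ l) = M.val (fun k => φ (u k)) (φ ξ) l := by
  rw [Mdl.val, Mdl.val, map_div₀, map_ev2, ← M3_ev2_C u ξ, map_ev2, M3_ev2_C]

/-- the geometric meaning of a vector of values -/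
def M3_Dat {r : ℕ} {Ω : Type} [Field Ω] [IsAlgClosed Ω] [CharZero Ω] [Algebra Qb Ω]
    (u : Fin r → Ω) (t : IX o d → Ω) (z : Fin d → Pt o Ω) : Prop :=
  (∀ a (i : Fin (MM o)), z a (eb o i) = t (.inl (a, i))) ∧
    Prp (Psym (clz z)) (fun j => t (.inr j)) ∧ (∃ j, t (.inr j) = 1) ∧
    ∀ k, ∃ (a : Fin d) (i : Fin (MM o)), u k = z a (eb o i)

section
variable {r : ℕ} {Ω Ω' : Type} [Field Ω] [IsAlgClosed Ω] [CharZero Ω] [Algebra Qb Ω]
  [Field Ω'] [IsAlgClosed Ω'] [CharZero Ω'] [Algebra Qb Ω']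

theorem M3_psym (τ : Ω →ₐ[Qb] Ω') (z : Fin d → Pt o Ω) :
    Prp (Psym (clz fun a => τ.comp (z a))) fun j => τ (Psym (clz z) j) := by
  have h := (bc_ok (o := o) τ).Psym (clz z)
  rw [BC.cl_clz, bc_τ] at h
  simp only [bc_pt] at h
  exact h

theorem M3_pts (τ : Ω →ₐ[Qb] Ω') {z : Fin d → Pt o Ω'}
    (h : ∀ a (i : Fin (MM o)), ∃ x, τ x = z a (eb o i)) :
    ∃ z₀ : Fin d → Pt o Ω, z = fun a => τ.comp (z₀ a) := by
  have h1 : ∀ a, ∃ y : Pt o Ω, (bc o τ).pt y = z a := fun a =>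
    (bc o τ).mem_range_pt.2 fun i => by
      rw [bc_τ]
      exact h a i
  choose z₀ hz using h1
  exact ⟨z₀, funext fun a => by rw [← hz, bc_pt]⟩

theorem M3_push (τ : Ω →ₐ[Qb] Ω') {u : Fin r → Ω} {t : IX o d → Ω} {z : Fin d → Pt o Ω}
    (h : M3_Dat u t z) : M3_Dat (fun k => τ (u k)) (fun l => τ (t l)) fun a => τ.comp (z a) := by
  obtain ⟨h1, h2, ⟨j, h3⟩, h4⟩ := h
  refine ⟨fun a i => congrArg τ (h1 a i), (M3_psym τ z).trans (h2.map (τ : Ω →+* Ω')),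
    ⟨j, by simp only [h3, map_one]⟩, fun k => ?_⟩
  obtain ⟨a, i, h⟩ := h4 k
  exact ⟨a, i, congrArg τ h⟩

theorem M3_descend (τ : Ω →ₐ[Qb] Ω') {u : Fin r → Ω} {t : IX o d → Ω} {z : Fin d → Pt o Ω'}
    (h : M3_Dat (fun k => τ (u k)) (fun l => τ (t l)) z) : ∃ z₀, M3_Dat u t z₀ := by
  obtain ⟨h1, h2, ⟨j, h3⟩, h4⟩ := h
  obtain ⟨z₀, rfl⟩ := M3_pts τ fun a i => ⟨_, (h1 a i).symm⟩
  refine ⟨z₀, fun a i => τ.injective (h1 a i),
    Prp.of_map (τ : Ω →+* Ω') ((M3_psym τ z₀).symm.trans h2),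
    ⟨j, τ.injective (h3.trans (map_one τ).symm)⟩, fun k => ?_⟩
  obtain ⟨a, i, h⟩ := h4 k
  exact ⟨a, i, τ.injective h⟩

/-- the normalised theta vector is defined over the field of the coordinates -/
theorem M3_theta (τ : Ω →ₐ[Qb] Ω') {z : Fin d → Pt o Ω'}
    (h : ∀ a (i : Fin (MM o)), ∃ x, τ x = z a (eb o i)) {x : JJ o × JJ o → Ω'}
    (hx : Prp (Psym (clz z)) x) {j₀ : JJ o × JJ o} (h1 : x j₀ = 1) (j : JJ o × JJ o) :
    ∃ y, τ y = x j := by
  obtain ⟨z₀, rfl⟩ := M3_pts τ h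
  obtain ⟨μ, -, hμ⟩ := hx.symm.trans (M3_psym τ z₀)
  have h2 := hμ j₀
  rw [h1] at h2
  refine ⟨Psym (clz z₀) j / Psym (clz z₀) j₀, ?_⟩
  rw [map_div₀, hμ j, eq_inv_of_mul_eq_one_left h2.symm, div_eq_inv_mul]

/-- transport from one generic point to another one -/
theorem M3_transport {K : Type} [Field K] [Algebra Qb K] [Algebra K Ω] [IsScalarTower Qb K Ω]
    [Algebra K Ω'] [IsScalarTower Qb K Ω'] (M : Mdl K r (IX o d)) {u : Fin r → Ω} {ξ : Ω}
    (hu : AlgebraicIndependent K u) (hp : ev2 u ξ M.m = 0) {u' : Fin r → Ω'} {ξ' : Ω'}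
    (hu' : AlgebraicIndependent K u') (hp' : ev2 u' ξ' M.m = 0) {z : Fin d → Pt o Ω}
    (h : M3_Dat u (M.val u ξ) z) : ∃ z', M3_Dat u' (M.val u' ξ') z' := by
  obtain ⟨L, hL, hm⟩ := exists_acl (κ := K) (Set.range u)
  have h1 : ∀ k, u k ∈ L := fun k => (hm _).2 (isAlgebraic_algebraMap
    (⟨_, IntermediateField.subset_adjoin K _ ⟨k, rfl⟩⟩ : IntermediateField.adjoin K (Set.range u)))
  have h2 : ξ ∈ L := M3_root_mem L M.monic h1 hp
  obtain ⟨τ, h3, h4⟩ := exists_hom_generic M.monic M.irr hu hp hu' hp' L h1 h2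
    fun x hx => (hm x).1 hx
  obtain ⟨z₀, h5⟩ := M3_descend (L.val.restrictScalars Qb) (u := fun k => ⟨u k, h1 k⟩)
    (t := M.val (fun k => (⟨u k, h1 k⟩ : L)) ⟨ξ, h2⟩) (z := z) (by
      simp only [AlgHom.restrictScalars_apply, M3_val_map M L.val]
      exact h)
  have h6 := M3_push (τ.restrictScalars Qb) h5
  simp only [AlgHom.restrictScalars_apply, M3_val_map M τ, h3, h4] at h6
  exact ⟨_, h6⟩

theorem M3_los (U : Ultrafilter ℕ) {u : ℕ → Fin r → Ω} {t : ℕ → IX o d → Ω}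
    {z : Fin d → Pt o (UP U Ω)}
    (h : M3_Dat (fun k => gm U fun n => u n k) (fun l => gm U fun n => t n l) z) :
    ∀ᶠ n in (U : Filter ℕ), ∃ z', M3_Dat (u n) (t n) z' := by
  obtain ⟨h1, h2, ⟨j, h3⟩, h4⟩ := h
  choose y hy using fun a => ptU_surj U (z a)
  obtain rfl : z = fun a => ptU U fun n => y a n := funext fun a => (hy a).symm
  choose a i h4 using h4
  have e1 : ∀ᶠ n in (U : Filter ℕ), ∀ a (i : Fin (MM o)), y a n (eb o i) = t n (.inl (a, i)) :=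
    eventually_all.2 fun a => eventually_all.2 fun i => (gm_eq_iff U _ _).1 (h1 a i)
  have e2 : ∀ᶠ n in (U : Filter ℕ), Prp (Psym (clz fun a => y a n)) fun j => t n (.inr j) := by
    rw [← clU_clz U fun n a => y a n] at h2
    exact (prp_gm_iff U _ _).1 ((Psym_clU U _).symm.trans h2)
  have e3 : ∀ᶠ n in (U : Filter ℕ), t n (.inr j) = 1 := (gm_eq_iff U _ fun _ => 1).1 h3
  have e4 : ∀ᶠ n in (U : Filter ℕ), ∀ k, u n k = y (a k) n (eb o (i k)) :=
    eventually_all.2 fun k => (gm_eq_iff U _ _).1 (h4 k)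
  filter_upwards [e1, e2, e3, e4] with n e1 e2 e3 e4
  exact ⟨fun a => y a n, e1, e2, ⟨j, e3⟩, fun k => ⟨a k, i k, e4 k⟩⟩

end

/-- it is enough to check `Real` at one generic point -/
theorem Mdl.real_of_one {r : ℕ} (M : Mdl Qb r (IX o d)) {Ω : Type} [Field Ω] [IsAlgClosed Ω]
    [CharZero Ω] [Algebra Qb Ω] {u : Fin r → Ω} {ξ : Ω} (hu : AlgebraicIndependent Qb u)
    (hp : M.IsPt u ξ) {z : Fin d → Pt o Ω} (h1 : M.Crd u ξ z)
    (h2 : Prp (Psym (clz z)) fun j => M.val u ξ (.inr j)) (h3 : ∃ j, M.val u ξ (.inr j) = 1)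
    (h4 : ∀ k, ∃ (a : Fin d) (i : Fin (MM o)), u k = z a (eb o i)) : M.Real := by
  intro Ω' _ _ _ _ u' ξ' hu' hp'
  exact M3_transport M hu hp.1 hu' hp'.1 ⟨h1, h2, h3, h4⟩

section
variable (U : Ultrafilter ℕ) (K : IntermediateField Qb (UP U Qb)) {r Δ : ℕ} {ι : Type}

/-- a model which is the limit of a sequence of models -/
def M3_Seq (M : Mdl K r ι) (Δ : ℕ) (Ms : ℕ → Mdl Qb r ι) : Prop :=
  (∀ n, (Ms n).Cx Δ) ∧
    LimP U (M.m.map (MvPolynomial.map (algebraMap K (UP U Qb)))) (fun n => (Ms n).m) ∧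
    LimP U (Polynomial.C (M.q.map (algebraMap K (UP U Qb)))) (fun n => Polynomial.C (Ms n).q) ∧
    ∀ l, LimP U ((M.P l).map (MvPolynomial.map (algebraMap K (UP U Qb)))) fun n => (Ms n).P l

variable {L : Type} [Field L] [Algebra Qb L]

theorem M3_ev2 [Algebra K (UP U L)] (φ : UP U Qb →+* UP U L)
    (hφ : ∀ x : ℕ → Qb, φ (gm U x) = gm U fun n => algebraMap Qb L (x n))
    (hK : ∀ c : K, algebraMap K (UP U L) c = φ c) {p : PP K r} {ps : ℕ → PP Qb r}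
    (h : LimP U (p.map (MvPolynomial.map (algebraMap K (UP U Qb)))) ps) (hΔ : ∀ n, CxP Δ (ps n))
    (u : ℕ → Fin r → L) (ξ : ℕ → L) :
    ev2 (fun k => gm U fun n => u n k) (gm U ξ) p = gm U fun n => ev2 (u n) (ξ n) (ps n) := by
  rw [← h.ev2 U hΔ φ hφ u ξ, Polynomial.eval₂_map]
  change p.eval₂ (MvPolynomial.aeval fun k => gm U fun n => u n k).toRingHom (gm U ξ) = _
  congr 1
  ext c
  · simp [hK]
  · simp

theorem M3_lim [Algebra K (UP U L)] (φ : UP U Qb →+* UP U L)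
    (hφ : ∀ x : ℕ → Qb, φ (gm U x) = gm U fun n => algebraMap Qb L (x n))
    (hK : ∀ c : K, algebraMap K (UP U L) c = φ c) {M : Mdl K r ι} {Ms : ℕ → Mdl Qb r ι}
    (h : M3_Seq U K M Δ Ms) (u : ℕ → Fin r → L) (ξ : ℕ → L) :
    (ev2 (fun k => gm U fun n => u n k) (gm U ξ) M.m =
      gm U fun n => ev2 (u n) (ξ n) (Ms n).m) ∧
    (MvPolynomial.aeval (fun k => gm U fun n => u n k) M.q =
      gm U fun n => MvPolynomial.aeval (u n) (Ms n).q) ∧
    ∀ l, M.val (fun k => gm U fun n => u n k) (gm U ξ) l =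
      gm U fun n => (Ms n).val (u n) (ξ n) l := by
  obtain ⟨h0, h1, h2, h3⟩ := h
  have hq : MvPolynomial.aeval (fun k => gm U fun n => u n k) M.q =
      gm U fun n => MvPolynomial.aeval (u n) (Ms n).q := by
    rw [← Polynomial.map_C] at h2
    have := M3_ev2 U K φ hφ hK (Δ := Δ) h2 (fun n => ⟨by simp, fun i => by
      rw [Polynomial.coeff_C]
      split_ifs
      · exact (h0 n).2.1
      · simp⟩) u ξ
    simpa only [M3_ev2_C] using this
  refine ⟨M3_ev2 U K φ hφ hK h1 (fun n => (h0 n).1) u ξ, hq, fun l => ?_⟩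
  rw [Mdl.val, hq, M3_ev2 U K φ hφ hK (h3 l) (fun n => (h0 n).2.2.1 l) u ξ, ← gm_div]
  rfl

theorem M3_real [IsAlgClosed L] [CharZero L] {X : Fin r → L} (hX : AlgebraicIndependent Qb X)
    {M : Mdl K r (IX o d)} {Ms : ℕ → Mdl Qb r (IX o d)} (h : M3_Seq U K M Δ Ms)
    {u : Fin r → UP U Qb} {ξ : UP U Qb} (hu : AlgebraicIndependent K u) (hp : ev2 u ξ M.m = 0)
    {z : Fin d → Pt o (UP U Qb)} (hz : M3_Dat u (M.val u ξ) z) :
    ∀ᶠ n in (U : Filter ℕ), (Ms n).Real := by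
  obtain ⟨φ, hφ⟩ := exists_upMap U (L := Qb) (L' := L)
  let _ : Algebra K (UP U L) :=
    ((φ : UP U Qb →+* UP U L).comp (algebraMap K (UP U Qb))).toAlgebra
  have hK : ∀ c : K, algebraMap K (UP U L) c = (φ : UP U Qb →+* UP U L) c := fun c => rfl
  have : @IsScalarTower Qb K (UP U L) Algebra.toSMul Algebra.toSMul Algebra.toSMul :=
    IsScalarTower.of_algebraMap_eq fun c => (φ.commutes c).symm
  choose ξ' hξ' using fun n => M3_exists_root (Ms n).monic (Ms n).irr X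
  obtain ⟨h1, -, h3⟩ := M3_lim U K (φ : UP U Qb →+* UP U L) hφ hK h (fun _ => X) ξ'
  have h4 : AlgebraicIndependent K fun k => gm U fun _ : ℕ => X k := by
    refine algebraicIndependent_iff.2 fun p hp => ?_
    apply MvPolynomial.map_injective _ (algebraMap K (UP U Qb)).injective
    rw [map_zero]
    refine algebraicIndependent_gm U hX (φ : UP U Qb →+* UP U L) hφ _ ?_
    rw [MvPolynomial.eval₂_map]
    exact hp
  obtain ⟨z', h5⟩ := M3_transport M hu hp h4 (ξ' := gm U ξ')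
    (h1.trans ((gm_eq_zero_iff U _).2 (Eventually.of_forall hξ'))) hz
  rw [funext h3] at h5
  filter_upwards [M3_los U (u := fun _ => X) (t := fun n => (Ms n).val X (ξ' n)) h5] with n hn
  obtain ⟨y, e1, e2, e3, e4⟩ := hn
  exact (Ms n).real_of_one hX ⟨hξ' n, fun e => (Ms n).q_ne (algebraicIndependent_iff.1 hX _ e)⟩
    e1 e2 e3 e4

end

theorem M3_hh (U : Ultrafilter ℕ) {H : ℕ → ℝ} (hH : Tendsto H (U : Filter ℕ) atTop) {k : ℕ}
    {c : Fin k → ℕ → Qb} (hc : ∀ i, Tendsto (fun n => h1 (c i n) / H n) (U : Filter ℕ) (𝓝 0))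
    {S : ℕ → Finset Qb} (h1S : ∀ n, 1 ∈ S n)
    (hS : ∀ᶠ n in (U : Filter ℕ), ∀ a ∈ S n, ∃ i, a = c i n) {ε : ℝ} (hε : 0 < ε) :
    ∀ᶠ n in (U : Filter ℕ), ht (S n) ≤ ε * H n := by
  have h2 := tendsto_finsetSum Finset.univ fun i _ => hc i
  rw [Finset.sum_const_zero] at h2
  filter_upwards [hS, h2.eventually (ge_mem_nhds hε), hH.eventually_gt_atTop 0] with n e1 e2 e3
  rw [← Finset.sum_div, div_le_iff₀ e3] at e2
  have e4 := ht_insert_one_le (S n)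
  rw [Finset.insert_eq_of_mem (h1S n)] at e4
  refine e4.trans (le_trans ?_ e2)
  refine le_trans (Finset.sum_le_sum_of_subset_of_nonneg (t := Finset.univ.image fun i => c i n)
    (fun a ha => ?_) fun a _ _ => h1_nonneg a)
    (Finset.sum_image_le_of_nonneg fun a _ => h1_nonneg a)
  obtain ⟨i, rfl⟩ := e1 a ha
  exact Finset.mem_image_of_mem _ (Finset.mem_univ i)

/-- models along an ultrafilter -/
theorem mex (U : Ultrafilter ℕ) (z : ℕ → Fin d → Pt o Qb) (a₀ : Fin d)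
    (hH : Tendsto (fun n => h1 (z n a₀ (wN o))) (U : Filter ℕ) atTop)
    (hmax : ∀ᶠ n in (U : Filter ℕ), ∀ a, h1 (z n a (wN o)) ≤ h1 (z n a₀ (wN o))) :
    ∃ (r Δ : ℕ) (k₀ : Fin r) (c : ℝ) (u : ℕ → Fin r → Qb),
      (∀ n, u n k₀ = z n a₀ (wN o)) ∧
      (∀ B : ℕ, ∃ η : ℝ, 0 < η ∧ ∀ᶠ n in (U : Filter ℕ), ∀ q : MvPolynomial (Fin r) Qb, q ≠ 0 →
        q.totalDegree ≤ B → MvPolynomial.eval (u n) q = 0 → η * h1 (z n a₀ (wN o)) ≤ hp q) ∧
      ∀ ε : ℝ, 0 < ε → ∀ᶠ n in (U : Filter ℕ), ∃ L : Lev o d r Δ, L.u = u n ∧ L.z = z n ∧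
        L.hh ≤ ε * h1 (z n a₀ (wN o)) ∧ L.hs ≤ c * h1 (z n a₀ (wN o)) := by
  obtain ⟨K, hKc, hK⟩ := exists_small U _ hH
  obtain ⟨Kf, hKfc, hKf⟩ := exists_fin U _ hH
  have hle : K ≤ Kf := fun x hx => by
    obtain ⟨y, rfl⟩ := gm_surj U x
    refine (hKf y).2 ⟨1, ?_⟩
    filter_upwards [((hK y).1 hx).eventually (ge_mem_nhds one_pos), hH.eventually_gt_atTop 0]
      with n e1 e2
    exact (div_le_iff₀ e2).1 e1
  set zh : Fin d → Pt o (UP U Qb) := fun a => ptU U fun n => z n a with hzh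
  have hN : genus Qb F + 1 < MM o := by
    rw [MM]
    omega
  have htr : Transcendental K (zh a₀ (wN o)) := fun ha => by
    have e1 := (hK fun n => z n a₀ (wN o)).1 (M3_mem_of_isIntegral K ha.isIntegral)
    have e2 : Tendsto (fun n => h1 (z n a₀ (wN o)) / h1 (z n a₀ (wN o))) (U : Filter ℕ) (𝓝 1) := by
      refine tendsto_const_nhds.congr' ?_
      filter_upwards [hH.eventually_gt_atTop 0] with n e
      exact (div_self e.ne').symm
    exact zero_ne_one (tendsto_nhds_unique e1 e2)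
  obtain ⟨r, π, k₀, hπ, hind, halg⟩ := M3_basis (K := K)
    (fun p : Fin d × Fin (MM o) => zh p.1 (eb o p.2)) (a₀, ⟨_, hN⟩) htr
  obtain ⟨j₀, hj₀⟩ : ∃ j, Psym (clz zh) j ≠ 0 := Function.ne_iff.1 (Psym_ne_zero _)
  have hx : Prp (Psym (clz zh)) fun j => Psym (clz zh) j / Psym (clz zh) j₀ :=
    ⟨_, hj₀, fun j => (mul_div_cancel₀ _ hj₀).symm⟩
  obtain ⟨M, ξh, hpt, hval, -⟩ := exists_mdl (ι := IX o d) _ hind
    (Sum.elim (fun p => zh p.1 (eb o p.2)) fun j => Psym (clz zh) j / Psym (clz zh) j₀) (by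
      rintro (p | j)
      · exact halg p
      · obtain ⟨L, hL, hm⟩ := exists_acl (κ := K) (Set.range fun k => zh (π k).1 (eb o (π k).2))
        obtain ⟨y, hy⟩ := M3_theta (L.val.restrictScalars Qb)
          (fun a i => ⟨⟨_, (hm _).2 (halg (a, i))⟩, rfl⟩) hx (div_self hj₀) j
        exact (hm _).1 (show _ / _ ∈ L from hy ▸ y.2))
  obtain ⟨Δ, Ms, s0, s1, s2, s3, k, c, hc, hS⟩ := exists_mdl_seq U K M
  have hseq : M3_Seq U K M Δ Ms := ⟨s0, s1, s2, s3⟩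
  obtain ⟨ξ, rfl⟩ := gm_surj U ξh
  obtain ⟨l1, l2, l3⟩ := M3_lim U K (L := Qb) (RingHom.id _) (fun _ => rfl) (fun _ => rfl) hseq
    (fun n k => z n (π k).1 (eb o (π k).2)) ξ
  have hdat : M3_Dat (fun k => zh (π k).1 (eb o (π k).2))
      (M.val (fun k => zh (π k).1 (eb o (π k).2)) (gm U ξ)) zh := by
    rw [funext hval]
    exact ⟨fun _ _ => rfl, hx, ⟨j₀, div_self hj₀⟩, fun k => ⟨_, _, rfl⟩⟩
  have e1 := M3_real U K (hind.restrictScalars (algebraMap Qb K).injective) hseq hind hpt.1 hdat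
  have e2 := (gm_eq_zero_iff U _).1 (l1.symm.trans hpt.1)
  have e3 := (gm_ne_iff U _ fun _ => 0).1 fun e => hpt.2 (l2.trans e)
  have e4 : ∀ᶠ n in (U : Filter ℕ), ∀ a (i : Fin (MM o)), z n a (eb o i) =
      (Ms n).val (fun k => z n (π k).1 (eb o (π k).2)) (ξ n) (.inl (a, i)) :=
    eventually_all.2 fun a => eventually_all.2 fun i =>
      (gm_eq_iff U _ _).1 ((hdat.1 a i).trans (l3 _))
  have hco : ∀ a (i : Fin (MM o)), zh a (eb o i) ∈ Kf := fun a i => by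
    have f1 : zh a (wN o) ∈ Kf := (hKf _).2 ⟨1, hmax.mono fun n hn => by
      rw [one_mul]
      exact hn a⟩
    obtain ⟨y, hy⟩ := mem_range_pt_of_wN Kf.val (y := zh a) ⟨⟨_, f1⟩, rfl⟩
    rw [← hy, bc_pt]
    exact (y (eb o i)).2
  have hξ : gm U ξ ∈ Kf := by
    have : IsAlgClosed (IntermediateField.extendScalars hle) := hKfc
    exact M3_root_mem (IntermediateField.extendScalars hle) M.monic (fun k => hco _ _) hpt.1
  obtain ⟨c₀, hc₀⟩ := (hKf _).1 hξ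
  choose c₁ hc₁ using fun k => (hKf fun n => z n (π k).1 (eb o (π k).2)).1 (hco _ _)
  refine ⟨r, Δ, k₀, ∑ k, c₁ k + c₀, fun n k => z n (π k).1 (eb o (π k).2), fun n => ?_,
    generic_of_indep U _ hH K (fun x hx => (hK x).2 hx) _ hind, fun ε hε => ?_⟩
  · simp only [hπ]
    rfl
  filter_upwards [e1, e2, e3, e4, hc₀, eventually_all.2 hc₁,
    M3_hh U hH (fun i => (hK _).1 (hc i)) (S := fun n => (Ms n).S)
      (fun n => Finset.mem_insert_self _ _) hS hε] with n e1 e2 e3 e4 e5 e6 e7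
  refine ⟨⟨Ms n, s0 n, e1, _, ξ n, ⟨e2, e3⟩, z n, e4⟩, rfl, rfl, e7, ?_⟩
  rw [add_mul, Finset.sum_mul]
  exact add_le_add (Finset.sum_le_sum fun k _ => e6 k) e5

end Pool.Agent.E6b
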