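import Pool.Agent.E6b.V1

open scoped NNReal TensorProduct IntermediateField BigOperators Classical Topology
open Filter

namespace Pool.Agent.E6b

variable {κ Ω : Type} [Field κ] [Field Ω] [Algebra κ Ω]

theorem V2_pen (t : Ω) (O : VS κ Ω) :
    O.1.valuation (pen κ t O : Ω) = max 1 (O.1.valuation t) := by
  have h : (![1, t] : Fin 2 → Ω) ≠ 0 := fun e => one_ne_zero (congrFun e 0)
  rw [pen, valuation_gen h]
  apply le_antisymm
  · refine vs_le _ fun i => ?_
    fin_cases i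
    · simp
    · simp
  · refine max_le ?_ (le_vs O.1 ![1, t] 1)
    have := le_vs O.1 ![1, t] 0
    simpa using this

theorem V2_one_le (t : Ω) (O : VS κ Ω) : 1 ≤ O.1.valuation (pen κ t O : Ω) := by
  rw [V2_pen]; exact le_max_left _ _

theorem V2_le (t : Ω) (O : VS κ Ω) : O.1.valuation t ≤ O.1.valuation (pen κ t O : Ω) := by
  rw [V2_pen]; exact le_max_right _ _

theorem V2_eq_one {t : Ω} {O : VS κ Ω} (h : t ∈ O.1) : O.1.valuation (pen κ t O : Ω) = 1 := by
  rw [V2_pen]; exact max_eq_left ((O.1.valuation_le_one_iff t).2 h)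

theorem V2_mulz (l m : VC κ Ω) (b : ℤ) (O : VS κ Ω) :
    O.1.valuation ((l * m ^ b) O : Ω) =
      O.1.valuation (l O : Ω) * O.1.valuation (m O : Ω) ^ b := by
  rw [Pi.mul_apply, Pi.pow_apply, Units.val_mul, map_mul, Units.val_zpow_eq_zpow_val, map_zpow₀]

theorem V2_prod {σ : Type} (s : Finset σ) (l : σ → VC κ Ω) (b : σ → ℕ) (O : VS κ Ω) :
    O.1.valuation ((∏ k ∈ s, l k ^ b k) O : Ω) =
      ∏ k ∈ s, O.1.valuation (l k O : Ω) ^ b k := by
  rw [Finset.prod_apply, Units.coe_prod, map_prod]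
  refine Finset.prod_congr rfl fun k _ => ?_
  rw [Pi.pow_apply, Units.val_pow_eq_pow_val, map_pow]

theorem V2_down (t : Ω) (l : VC κ Ω) {b c : ℤ} (h : b ≤ c) :
    TT (l * pen κ t ^ b) ≤ TT (l * pen κ t ^ c) := by
  refine VLe.TT_le (vle_iff.2 fun O => ?_)
  rw [V2_mulz, V2_mulz]
  exact mul_le_mul_right (zpow_le_zpow_right₀ (V2_one_le t O) h) _

theorem V2_res (t : Ω) (l : VC κ Ω) (b : ℤ) {G : Ω} (hG : G ∈ TT (l * pen κ t ^ b)) :
    G ∈ TT (resC κ⟮t⟯ l) := by
  refine mem_TT_iff.2 fun O => ?_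
  have h := mem_TT_iff.1 hG ⟨O.1, fun c => by
    rw [IsScalarTower.algebraMap_apply κ κ⟮t⟯ Ω]; exact O.2 _⟩
  rw [V2_mulz, V2_eq_one (κ := κ) (t := t) (O.2 (IntermediateField.AdjoinSimple.gen κ t)),
    one_zpow, mul_one] at h
  exact h

theorem V2_lead {ι : Type} [Fintype ι] (t : Ω) (l : VC κ Ω) (b : ℤ) (F : ι → Ω)
    (hF : ∀ i, F i ∈ TT (l * pen κ t ^ b)) (P : ι → Polynomial κ) (N : ℕ)
    (hN : ∀ i, (P i).natDegree ≤ N) (h : ∑ i, Polynomial.aeval t (P i) * F i = 0) :
    ∑ i, (P i).coeff N • F i ∈ TT (l * pen κ t ^ (b - 1)) := by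
  have hG : ∑ i, (P i).coeff N • F i ∈ TT (l * pen κ t ^ b) :=
    Submodule.sum_mem _ fun i _ => Submodule.smul_mem _ _ (hF i)
  have key : t ^ N * ∑ i, (P i).coeff N • F i =
      -∑ i, ∑ j ∈ Finset.range N, (P i).coeff j • (t ^ j * F i) := by
    rw [eq_neg_iff_add_eq_zero, ← h, Finset.mul_sum, ← Finset.sum_add_distrib]
    refine Finset.sum_congr rfl fun i _ => ?_
    rw [Polynomial.aeval_eq_sum_range' (Nat.lt_succ_of_le (hN i)), Finset.sum_range_succ, add_mul,
      Finset.sum_mul, add_comm]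
    simp only [smul_mul_assoc, mul_smul_comm]
  refine mem_TT_iff.2 fun O => ?_
  by_cases ht : t ∈ O.1
  · have h1 := mem_TT_iff.1 hG O
    rw [V2_mulz, V2_eq_one ht, one_zpow] at h1 ⊢
    exact h1
  · have h1 : 1 < O.1.valuation t := not_le.1 fun h => ht ((O.1.valuation_le_one_iff t).1 h)
    have h0 : 0 < O.1.valuation t := zero_lt_one.trans h1
    have h2 : O.1.valuation (pen κ t O : Ω) = O.1.valuation t := by
      rw [V2_pen]; exact max_eq_right h1.le
    rw [V2_mulz, h2]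
    refine le_of_mul_le_mul_left ?_ (pow_pos h0 N)
    rw [← map_pow, ← map_mul, key, Valuation.map_neg]
    refine Valuation.map_sum_le _ fun i _ => Valuation.map_sum_le _ fun j hj => ?_
    have h3 := mem_TT_iff.1 (Submodule.smul_mem _ ((P i).coeff j) (hF i)) O
    rw [V2_mulz, h2] at h3
    rw [← mul_smul_comm, map_mul, map_pow, map_pow]
    refine (mul_le_mul_right h3 _).trans ?_
    have h4 : O.1.valuation t ^ b = O.1.valuation t * O.1.valuation t ^ (b - 1) := by
      rw [← zpow_one_add₀ h0.ne', add_sub_cancel]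
    rw [h4, mul_left_comm (O.1.valuation (l O : Ω)), ← mul_assoc, ← pow_succ]
    exact mul_le_mul_left (pow_le_pow_right₀ h1.le (Finset.mem_range.1 hj)) _

theorem V2_indep {ι : Type} [Fintype ι] (t : Ω) (l : VC κ Ω) (b : ℤ) (F : ι → Ω)
    (hF : ∀ i, F i ∈ TT (l * pen κ t ^ b))
    (H : ∀ c : ι → κ, ∑ i, c i • F i ∈ TT (l * pen κ t ^ (b - 1)) → ∀ i, c i = 0) :
    LinearIndependent κ⟮t⟯ F := by
  rw [Fintype.linearIndependent_iff]
  intro g hg
  have h1 : ∀ i, ∃ r s : Polynomial κ, Polynomial.aeval t s ≠ 0 ∧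
      Polynomial.aeval t r = (g i : Ω) * Polynomial.aeval t s := fun i => by
    obtain ⟨r, s, h⟩ := (IntermediateField.mem_adjoin_simple_iff κ (g i : Ω)).1 (g i).2
    by_cases hs : Polynomial.aeval t s = 0
    · refine ⟨0, 1, by simp, ?_⟩
      rw [h, hs, div_zero, zero_mul, map_zero]
    · exact ⟨r, s, hs, by rw [h, div_mul_cancel₀ _ hs]⟩
  choose r s hs hr using h1
  obtain ⟨P, hP⟩ : ∃ P : ι → Polynomial κ, ∀ i, Polynomial.aeval t (P i) =
      (∏ j, Polynomial.aeval t (s j)) * (g i : Ω) :=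
    ⟨fun i => r i * ∏ j ∈ Finset.univ.erase i, s j, fun i => by
      rw [map_mul, map_prod, hr, ← Finset.mul_prod_erase _ _ (Finset.mem_univ i)]
      ring⟩
  have hD : ∏ j, Polynomial.aeval t (s j) ≠ 0 := Finset.prod_ne_zero_iff.2 fun j _ => hs j
  have h2 : ∑ i, Polynomial.aeval t (P i) * F i = 0 := by
    have : ∑ i, (g i : Ω) * F i = 0 := hg
    simp only [hP, mul_assoc]
    rw [← Finset.mul_sum, this, mul_zero]
  have h3 : ∀ N : ℕ, (∀ i, (P i).degree < N) → ∀ i, P i = 0 := by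
    intro N
    induction N with
    | zero => exact fun h i => Polynomial.degree_eq_bot.1 (Nat.WithBot.lt_zero_iff.1 (h i))
    | succ N ih =>
      intro h
      have h4 : ∀ i, (P i).natDegree ≤ N := fun i =>
        Polynomial.natDegree_le_iff_coeff_eq_zero.2 fun j hj =>
          Polynomial.coeff_eq_zero_of_degree_lt ((h i).trans_le (Nat.cast_le.2 hj))
      have h5 := H _ (V2_lead t l b F hF P N h4 h2)
      refine ih fun i => (Polynomial.degree_lt_iff_coeff_zero _ _).2 fun j hj => ?_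
      rcases hj.eq_or_lt with rfl | hj
      · exact h5 i
      · exact Polynomial.coeff_eq_zero_of_natDegree_lt ((h4 i).trans_lt hj)
  have h4 := h3 (Finset.univ.sup (fun i => (P i).natDegree) + 1) fun i =>
    Polynomial.degree_le_natDegree.trans_lt (Nat.cast_lt.2 (Nat.lt_succ_of_le
      (Finset.le_sup (f := fun i => (P i).natDegree) (Finset.mem_univ i))))
  intro i
  have h5 := hP i
  rw [h4 i, map_zero] at h5
  exact Subtype.ext ((mul_eq_zero.1 h5.symm).resolve_left hD)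

/-- Pencil lemma. -/
theorem pencil (t : Ω) (l : VC κ Ω) (b : ℤ) [Module.Finite κ (TT (l * pen κ t ^ (b - 1)))]
    [Module.Finite κ⟮t⟯ (TT (resC κ⟮t⟯ l))] :
    Module.Finite κ (TT (l * pen κ t ^ b)) ∧
      Module.finrank κ (TT (l * pen κ t ^ b)) ≤ Module.finrank κ (TT (l * pen κ t ^ (b - 1))) +
        Module.finrank κ⟮t⟯ (TT (resC κ⟮t⟯ l)) := by
  have hle := V2_down t l (sub_one_lt b).le
  obtain ⟨p, hp⟩ : ∃ p : Submodule κ (TT (l * pen κ t ^ b)),
      p = (TT (l * pen κ t ^ (b - 1))).comap (TT (l * pen κ t ^ b)).subtype := ⟨_, rfl⟩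
  have e : p ≃ₗ[κ] TT (l * pen κ t ^ (b - 1)) := hp ▸ Submodule.comapSubtypeEquivOfLe hle
  have hr : Module.rank κ (TT (l * pen κ t ^ b) ⧸ p) ≤
      Module.finrank κ⟮t⟯ (TT (resC κ⟮t⟯ l)) := by
    refine rank_le fun s hs => ?_
    choose F hF using fun i : s => p.mkQ_surjective i.1
    have h1 : LinearIndependent κ⟮t⟯ fun i => (F i : Ω) := by
      refine V2_indep t l b _ (fun i => (F i).2) fun c hc => ?_
      refine Fintype.linearIndependent_iff.1 hs c ?_
      have h2 : ∑ i, c i • F i ∈ p := by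
        refine hp.ge ?_
        rw [Submodule.mem_comap, map_sum]
        exact hc
      have h3 := (Submodule.Quotient.mk_eq_zero p).2 h2
      rw [← Submodule.mkQ_apply, map_sum] at h3
      simpa only [map_smul, hF] using h3
    have h2 : LinearIndependent κ⟮t⟯ fun i =>
        (⟨F i, V2_res t l b (F i).2⟩ : TT (resC κ⟮t⟯ l)) :=
      LinearIndependent.of_comp (TT (resC κ⟮t⟯ l)).subtype h1
    simpa using h2.fintype_card_le_finrank
  have f1 : Module.Finite κ p := Module.Finite.equiv e.symm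
  have f2 : Module.Finite κ (TT (l * pen κ t ^ b) ⧸ p) :=
    Module.rank_lt_aleph0_iff.1 (hr.trans_lt (Cardinal.natCast_lt_aleph0))
  have f3 : Module.Finite κ (TT (l * pen κ t ^ b)) := Module.Finite.of_submodule_quotient p
  refine ⟨f3, ?_⟩
  rw [← p.finrank_quotient_add_finrank, e.finrank_eq, add_comm]
  exact Nat.add_le_add_left (Module.finrank_le_of_rank_le hr) _

theorem pencil_sub (t : Ω) (l : VC κ Ω) (b : ℕ) [Module.Finite κ (TT l)]
    [Module.Finite κ⟮t⟯ (TT (resC κ⟮t⟯ l))] :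
    Module.finrank κ (TT l) ≤ Module.finrank κ (TT (l * (pen κ t ^ b)⁻¹)) +
        b * Module.finrank κ⟮t⟯ (TT (resC κ⟮t⟯ l)) := by
  rw [← zpow_natCast, ← zpow_neg]
  induction b with
  | zero => rw [Nat.cast_zero, neg_zero, zpow_zero, mul_one]; simp
  | succ b ih =>
    have h1 : TT (l * pen κ t ^ (-(b : ℤ) - 1)) ≤ TT l := by
      have := V2_down t l (show -(b : ℤ) - 1 ≤ 0 by omega)
      rwa [zpow_zero, mul_one] at this
    have := Submodule.finiteDimensional_of_le h1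
    have h2 := (pencil t l (-(b : ℤ))).2
    have h3 : (-((b + 1 : ℕ) : ℤ)) = -(b : ℤ) - 1 := by push_cast; ring
    rw [h3, add_mul, one_mul]
    omega

theorem V2_resC {σ : Type} (K : Type) [Field K] [Algebra κ K] [Algebra K Ω] [IsScalarTower κ K Ω]
    (s : Finset σ) (u : σ → Ω) (b : σ → ℕ) :
    resC K (∏ k ∈ s, pen κ (u k) ^ b k) = ∏ k ∈ s, pen K (u k) ^ b k := by
  funext O
  simp only [resC, Finset.prod_apply, Pi.pow_apply]
  rfl

theorem V2_bot {σ : Type} (s : Finset σ) (u : σ → Ω) (b : σ → ℕ) {t : Ω}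
    (ht : Transcendental (IntermediateField.adjoin κ (u '' s)) t) :
    TT ((∏ k ∈ s, pen κ (u k) ^ b k) * pen κ t ^ (-1 : ℤ)) = ⊥ := by
  refine (Submodule.eq_bot_iff _).2 fun G hG => ?_
  by_contra h0
  have key : ∀ O : VS (IntermediateField.adjoin κ (u '' s)) Ω, G ∈ O.1 ∧ G * t ∈ O.1 := by
    intro O
    obtain ⟨O', hO'⟩ : ∃ O' : VS κ Ω, O'.1 = O.1 := ⟨⟨O.1, fun c => by
      rw [IsScalarTower.algebraMap_apply κ (IntermediateField.adjoin κ (u '' s)) Ω]
      exact O.2 _⟩, rfl⟩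
    have h := mem_TT_iff.1 hG O'
    have h1 : ∏ k ∈ s, O'.1.valuation (pen κ (u k) O' : Ω) ^ b k = 1 := by
      refine Finset.prod_eq_one fun k hk => ?_
      rw [V2_eq_one, one_pow]
      rw [hO']
      exact O.2 ⟨u k, IntermediateField.subset_adjoin _ _ ⟨k, hk, rfl⟩⟩
    have h2 : 0 < O'.1.valuation (pen κ t O' : Ω) := zero_lt_one.trans_le (V2_one_le t O')
    rw [V2_mulz, V2_prod, h1, one_mul, zpow_neg_one] at h
    rw [← hO', ← O'.1.valuation_le_one_iff, ← O'.1.valuation_le_one_iff, map_mul]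
    refine ⟨h.trans (inv_le_one_of_one_le₀ (V2_one_le t O')), ?_⟩
    refine (mul_le_mul' h (V2_le t O')).trans_eq (inv_mul_cancel₀ h2.ne')
  have a1 := isAlgebraic_of_forall_mem fun O => (key O).1
  have a2 := isAlgebraic_of_forall_mem fun O => (key O).2
  have a3 := a1.inv.mul a2
  rw [inv_mul_cancel_left₀ h0] at a3
  exact ht a3

theorem V2_ub {σ : Type} (u : σ → Ω) (b : σ → ℕ) (L : Subfield Ω) [FiniteDimensional L Ω]
    (s : Finset σ) : ∀ (K : Type) [Field K] [Algebra K Ω],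
    (∀ k ∈ s, Transcendental (IntermediateField.adjoin K (u '' (s.erase k))).toSubfield (u k)) →
    (IntermediateField.adjoin K (u '' s)).toSubfield = L →
    Module.Finite K (TT (∏ k ∈ s, pen K (u k) ^ b k)) ∧
      Module.finrank K (TT (∏ k ∈ s, pen K (u k) ^ b k)) ≤
        Module.finrank L Ω * ∏ k ∈ s, (b k + 1) := by
  induction s using Finset.induction_on with
  | empty =>
    intro K _ _ _ hL
    rw [Finset.coe_empty, Set.image_empty, IntermediateField.adjoin_empty] at hL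
    subst hL
    have h1 : FiniteDimensional (⊥ : IntermediateField K Ω) Ω := ‹_›
    have h2 : FiniteDimensional K Ω := FiniteDimensional.trans K (⊥ : IntermediateField K Ω) Ω
    refine ⟨inferInstance, ?_⟩
    rw [Finset.prod_empty (f := fun k => b k + 1), mul_one]
    refine (Submodule.finrank_le _).trans_eq ?_
    exact (IntermediateField.finrank_bot' (F := K) (E := Ω)).symm
  | insert k₀ s hk ih =>
    intro K _ _ hT hL
    have hA : ∀ S : Set Ω, (IntermediateField.adjoin K⟮u k₀⟯ S).toSubfield =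
        (IntermediateField.adjoin K (insert (u k₀) S)).toSubfield := fun S => by
      rw [Set.insert_eq, ← IntermediateField.adjoin_adjoin_left]
      rfl
    obtain ⟨f1, f2⟩ := ih K⟮u k₀⟯ (fun k hks => by
      have h := hT k (Finset.mem_insert_of_mem hks)
      have hne : k₀ ≠ k := fun e => hk (e ▸ hks)
      rw [Finset.erase_insert_of_ne hne, Finset.coe_insert, Set.image_insert_eq, ← hA] at h
      exact h) (by rw [hA, ← hL, Finset.coe_insert, Set.image_insert_eq])
    rw [← V2_resC (κ := K)] at f1 f2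
    have h0 := hT k₀ (Finset.mem_insert_self _ _)
    rw [Finset.erase_insert hk] at h0
    have hb := V2_bot s u b (κ := K) h0
    have key : ∀ n : ℕ,
        Module.Finite K (TT ((∏ k ∈ s, pen K (u k) ^ b k) * pen K (u k₀) ^ ((n : ℤ) - 1))) ∧
        Module.finrank K (TT ((∏ k ∈ s, pen K (u k) ^ b k) * pen K (u k₀) ^ ((n : ℤ) - 1))) ≤
          n * (Module.finrank L Ω * ∏ k ∈ s, (b k + 1)) := by
      intro n
      induction n with
      | zero =>
        rw [Nat.cast_zero, zero_sub, hb]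
        exact ⟨inferInstance, by simp⟩
      | succ n ihn =>
        have := ihn.1
        obtain ⟨g1, g2⟩ := pencil (u k₀) (∏ k ∈ s, pen K (u k) ^ b k) (n : ℤ)
        rw [Nat.cast_succ, add_sub_cancel_right]
        refine ⟨g1, g2.trans ?_⟩
        rw [add_mul, one_mul]
        exact Nat.add_le_add ihn.2 f2
    have h := key (b k₀ + 1)
    rw [Nat.cast_succ, add_sub_cancel_right, zpow_natCast, mul_comm _ (pen K (u k₀) ^ b k₀),
      mul_left_comm] at h
    rw [Finset.prod_insert hk, Finset.prod_insert hk]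
    exact h

theorem V2_trans {σ : Type} {u : σ → Ω} (hu : AlgebraicIndependent κ u) {S : Set σ} {k : σ}
    (hk : k ∉ S) : Transcendental (IntermediateField.adjoin κ (u '' S)).toSubfield (u k) :=
  (IntermediateField.transcendental_adjoin_iff (F := κ) (s := u '' S) (x := u k)).2
    (hu.transcendental_adjoin hk)

/-- Upper bound for the sections of a box class. -/
theorem ub {σ : Type} [Fintype σ] (u : σ → Ω) (hu : AlgebraicIndependent κ u)
    [FiniteDimensional (IntermediateField.adjoin κ (Set.range u)) Ω] (b : σ → ℕ) :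
    Module.Finite κ (TT (∏ k, pen κ (u k) ^ b k)) ∧
      Module.finrank κ (TT (∏ k, pen κ (u k) ^ b k)) ≤
        Module.finrank (IntermediateField.adjoin κ (Set.range u)) Ω * ∏ k, (b k + 1) := by
  have : FiniteDimensional (IntermediateField.adjoin κ (Set.range u)).toSubfield Ω := ‹_›
  exact V2_ub u b (IntermediateField.adjoin κ (Set.range u)).toSubfield Finset.univ κ
    (fun k _ => V2_trans hu (by simp)) (by rw [Finset.coe_univ, Set.image_univ])

/-- the same on the generic fibre of the pencil `u k₀` -/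
theorem ub_res {σ : Type} [Fintype σ] (u : σ → Ω) (hu : AlgebraicIndependent κ u)
    [FiniteDimensional (IntermediateField.adjoin κ (Set.range u)) Ω] (b : σ → ℕ) (k₀ : σ)
    (g : Ωˣ) {l : VC κ Ω} (hl : VLe l (cstC κ g * ∏ k, pen κ (u k) ^ b k)) :
    Module.Finite κ⟮u k₀⟯ (TT (resC κ⟮u k₀⟯ l)) ∧
      Module.finrank κ⟮u k₀⟯ (TT (resC κ⟮u k₀⟯ l)) ≤
        Module.finrank (IntermediateField.adjoin κ (Set.range u)) Ω *
          ∏ k ∈ Finset.univ.erase k₀, (b k + 1) := by
  have : FiniteDimensional (IntermediateField.adjoin κ (Set.range u)).toSubfield Ω := ‹_›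
  have hA : ∀ S : Set σ, (IntermediateField.adjoin κ⟮u k₀⟯ (u '' S)).toSubfield =
      (IntermediateField.adjoin κ (u '' insert k₀ S)).toSubfield := fun S => by
    rw [Set.image_insert_eq, Set.insert_eq, ← IntermediateField.adjoin_adjoin_left]
    rfl
  obtain ⟨f1, f2⟩ := V2_ub u b (IntermediateField.adjoin κ (Set.range u)).toSubfield
    (Finset.univ.erase k₀) κ⟮u k₀⟯
    (fun k hk => by
      rw [hA]
      exact V2_trans hu (by simpa using Finset.ne_of_mem_erase hk))
    (by rw [hA, ← Finset.coe_insert, Finset.insert_erase (Finset.mem_univ _), Finset.coe_univ,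
      Set.image_univ])
  have h1 : TT (resC κ⟮u k₀⟯ l) ≤
      TT (cstC κ⟮u k₀⟯ g * ∏ k ∈ Finset.univ.erase k₀, pen κ⟮u k₀⟯ (u k) ^ b k) := by
    refine VLe.TT_le (vle_iff.2 fun O => ?_)
    have h := vle_iff.1 hl ⟨O.1, fun c => by
      rw [IsScalarTower.algebraMap_apply κ κ⟮u k₀⟯ Ω]; exact O.2 _⟩
    rw [Pi.mul_apply, Units.val_mul, map_mul, V2_prod,
      ← Finset.mul_prod_erase _ _ (Finset.mem_univ k₀),
      V2_eq_one (κ := κ) (t := u k₀) (O.2 (IntermediateField.AdjoinSimple.gen κ (u k₀))),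
      one_pow, one_mul] at h
    rw [Pi.mul_apply, Units.val_mul, map_mul, V2_prod]
    exact h
  have f3 := (finite_TT_cstC_mul g _).2 f1
  refine ⟨Submodule.finiteDimensional_of_le h1, (Submodule.finrank_mono h1).trans ?_⟩
  rw [finrank_TT_cstC_mul]
  exact f2

theorem V2_box {σ : Type} [Fintype σ] (u : σ → Ω) (Δ : ℕ) (O : VS κ Ω) :
    O.1.valuation (((∏ k, pen κ (u k)) ^ Δ) O : Ω) =
      ∏ k, O.1.valuation (pen κ (u k) O : Ω) ^ Δ := by
  rw [← Finset.prod_pow, V2_prod]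

theorem V2_mono {σ : Type} [Fintype σ] (u : σ → Ω) {a c : ℕ} (h : a ≤ c) :
    TT ((∏ k, pen κ (u k)) ^ a) ≤ TT ((∏ k, pen κ (u k)) ^ c) := by
  refine VLe.TT_le (vle_iff.2 fun O => ?_)
  rw [V2_box, V2_box]
  exact Finset.prod_le_prod' fun k _ => pow_le_pow_right₀ (V2_one_le _ O) h

theorem V2_root {σ : Type} [Fintype σ] (u : σ → Ω) {A : Type} [CommRing A] (f : A →+* Ω)
    (m : Polynomial A) (hm : m.Monic) {Δ : ℕ}
    (hΔ : ∀ i < m.natDegree, f (m.coeff i) ∈ TT ((∏ k, pen κ (u k)) ^ Δ)) {ξ : Ω}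
    (hξ : m.eval₂ f ξ = 0) : ξ ∈ TT ((∏ k, pen κ (u k)) ^ Δ) := by
  refine mem_TT_iff.2 fun O => ?_
  by_contra hlt
  rw [not_le] at hlt
  have h1 : 1 ≤ O.1.valuation (((∏ k, pen κ (u k)) ^ Δ) O : Ω) := by
    rw [V2_box]
    exact Finset.one_le_prod' fun k _ => one_le_pow₀ (V2_one_le _ O)
  have h2 : 1 < O.1.valuation ξ := h1.trans_lt hlt
  have h0 : 0 < O.1.valuation ξ := zero_lt_one.trans h2
  rw [Polynomial.eval₂_eq_sum_range, Finset.sum_range_succ, hm.coeff_natDegree, map_one, one_mul,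
    add_eq_zero_iff_neg_eq] at hξ
  have h3 : O.1.valuation (∑ i ∈ Finset.range m.natDegree, f (m.coeff i) * ξ ^ i) <
      O.1.valuation ξ ^ m.natDegree := by
    refine Valuation.map_sum_lt _ (pow_pos h0 _).ne' fun i hi => ?_
    have hi' := Finset.mem_range.1 hi
    rw [map_mul, map_pow]
    refine (mul_lt_mul_of_pos_right ((mem_TT_iff.1 (hΔ i hi') O).trans_lt hlt)
      (pow_pos h0 i)).trans_le ?_
    rw [← pow_succ']
    exact pow_le_pow_right₀ h2.le hi'
  rw [← map_pow, ← hξ, Valuation.map_neg] at h3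
  exact lt_irrefl _ h3

theorem aeval_mem_TT {σ : Type} [Fintype σ] (u : σ → Ω) (P : MvPolynomial σ κ) {Δ : ℕ}
    (hP : P.totalDegree ≤ Δ) : MvPolynomial.aeval u P ∈ TT ((∏ k, pen κ (u k)) ^ Δ) := by
  rw [MvPolynomial.aeval_def, MvPolynomial.eval₂_eq']
  refine Submodule.sum_mem _ fun d hd => ?_
  rw [← Algebra.smul_def]
  refine Submodule.smul_mem _ _ (mem_TT_iff.2 fun O => ?_)
  rw [V2_box, map_prod]
  refine Finset.prod_le_prod' fun k _ => ?_
  rw [map_pow]
  exact (pow_le_pow_left' (V2_le _ O) _).trans (pow_le_pow_right₀ (V2_one_le _ O)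
    ((MvPolynomial.monomial_le_degreeOf k hd).trans
      ((MvPolynomial.degreeOf_le_totalDegree P k).trans hP)))

theorem root_mem_TT {σ : Type} [Fintype σ] (u : σ → Ω) (m : Polynomial (MvPolynomial σ κ))
    (hm : m.Monic) {Δ : ℕ} (hΔ : ∀ i, (m.coeff i).totalDegree ≤ Δ) {ξ : Ω}
    (hξ : m.eval₂ (MvPolynomial.aeval u).toRingHom ξ = 0) : ξ ∈ TT ((∏ k, pen κ (u k)) ^ Δ) :=
  V2_root u _ m hm (fun i _ => aeval_mem_TT u _ (hΔ i)) hξ

theorem exists_gen_vle {σ ι : Type} [Fintype σ] [Finite ι] (u : σ → Ω)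
    [Algebra.IsAlgebraic (IntermediateField.adjoin κ (Set.range u)) Ω] {l : ι → Ω} (hl : l ≠ 0) :
    ∃ (g : Ωˣ) (c : ℕ), VLe (gen κ l) (cstC κ g * (∏ k, pen κ (u k)) ^ c) := by
  have := Fintype.ofFinite ι
  have halg : Algebra.IsAlgebraic (Algebra.adjoin κ (Set.range u)) Ω :=
    IntermediateField.isAlgebraic_adjoin_iff_top.1 ‹_›
  obtain ⟨y, hy, hint⟩ := Algebra.IsAlgebraic.exists_integral_multiples
    (Algebra.adjoin κ (Set.range u)) (Finset.univ.image l)
  have h1 : ∀ a : Algebra.adjoin κ (Set.range u), ∃ Δ : ℕ,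
      (a : Ω) ∈ TT ((∏ k, pen κ (u k)) ^ Δ) := fun a => by
    obtain ⟨P, hP⟩ := (Algebra.adjoin_range_eq_range_aeval κ u).le a.2
    exact ⟨_, hP ▸ aeval_mem_TT u P le_rfl⟩
  choose D hD using h1
  have h2 : ∀ j, ∃ Δ : ℕ, y • l j ∈ TT ((∏ k, pen κ (u k)) ^ Δ) := fun j => by
    obtain ⟨m, hm, hξ⟩ := hint (l j) (Finset.mem_image_of_mem _ (Finset.mem_univ j))
    refine ⟨(Finset.range m.natDegree).sup fun i => D (m.coeff i), V2_root u _ m hm
      (fun i hi => V2_mono u ?_ (hD _)) hξ⟩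
    exact Finset.le_sup (f := fun i => D (m.coeff i)) (Finset.mem_range.2 hi)
  choose c hc using h2
  have hy' : (y : Ω) ≠ 0 := fun e => hy (Subtype.ext e)
  refine ⟨(Units.mk0 _ hy')⁻¹, Finset.univ.sup c, gen_vle_of_mem hl fun j => ?_⟩
  rw [mem_TT_cstC_mul, Units.val_inv_eq_inv_val, div_inv_eq_mul, Units.val_mk0, mul_comm]
  exact V2_mono u (Finset.le_sup (Finset.mem_univ j)) (hc j)

end Pool.Agent.E6b
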