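import Pool.Agent.E6b.P3
import Pool.Agent.E6b.U3
import Pool.Agent.E6b.NT
import Pool.Agent.E6b.V2

open scoped NNReal TensorProduct IntermediateField BigOperators Classical Topology
open Filter

namespace Pool.Agent.E6b

/-- the vector `A` is (up to a scalar) the ultralimit of the nonzero vectors `a n` -/
def P4_T (U : Ultrafilter ℕ) {ι : Type} (a : ℕ → ι → Qb) (A : ι → UP U Qb) : Prop :=
  (∀ n, a n ≠ 0) ∧ Prp A fun i => gm U fun n => a n i

theorem P4_segre_ne {ι ι' K : Type} [Field K] {x : ι → K} {y : ι' → K} (hx : x ≠ 0)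
    (hy : y ≠ 0) : (fun p : ι × ι' => x p.1 * y p.2) ≠ 0 := by
  obtain ⟨i, hi⟩ := Function.ne_iff.1 hx
  obtain ⟨j, hj⟩ := Function.ne_iff.1 hy
  exact Function.ne_iff.2 ⟨(i, j), mul_ne_zero hi hj⟩

theorem P4_T_segre {U : Ultrafilter ℕ} {ι ι' : Type} {a : ℕ → ι → Qb} {A : ι → UP U Qb}
    {b : ℕ → ι' → Qb} {B : ι' → UP U Qb} (ha : P4_T U a A) (hb : P4_T U b B) :
    P4_T U (fun n (p : ι × ι') => a n p.1 * b n p.2) fun p => A p.1 * B p.2 := by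
  refine ⟨fun n => P4_segre_ne (ha.1 n) (hb.1 n), ?_⟩
  obtain ⟨μ, hμ, h⟩ := ha.2
  obtain ⟨ν, hν, h'⟩ := hb.2
  refine ⟨μ * ν, mul_ne_zero hμ hν, fun p => ?_⟩
  show A p.1 * B p.2 = μ * ν * gm U fun n => a n p.1 * b n p.2
  rw [h, h', gm_mul U (fun n => a n p.1) fun n => b n p.2]
  ring

theorem P4_T_le {U : Ultrafilter ℕ} {ι ι' : Type} [Fintype ι] [Fintype ι'] {a : ℕ → ι → Qb}
    {A : ι → UP U Qb} {b : ℕ → ι' → Qb} {B : ι' → UP U Qb} (ha : P4_T U a A) (hb : P4_T U b B)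
    {γ : UP U Qb} (hγ : γ ≠ 0)
    (h : ∀ O : VS Qb (UP U Qb), vs O.1 A ≤ O.1.valuation γ * vs O.1 B) :
    ∃ C : ℝ, ∀ᶠ n in (U : Filter ℕ), hv (a n) ≤ hv (b n) + C := by
  obtain ⟨μ, hμ, h1⟩ := ha.2
  obtain ⟨ν, hν, h2⟩ := hb.2
  refine transferU U a b ha.1 hb.1 (μ⁻¹ * γ * ν)
    (mul_ne_zero (mul_ne_zero (inv_ne_zero hμ) hγ) hν) fun O => ?_
  have h3 := h O
  rw [funext h1, funext h2, vs_smul, vs_smul] at h3
  have h4 : 0 < O.1.valuation μ := zero_lt_iff.2 ((Valuation.ne_zero_iff _).2 hμ)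
  rw [map_mul, map_mul, map_inv₀, mul_assoc, mul_assoc, le_inv_mul_iff₀ h4]
  exact h3

theorem P4_T_abs {U : Ultrafilter ℕ} {ι ι' : Type} [Fintype ι] [Fintype ι'] {a : ℕ → ι → Qb}
    {A : ι → UP U Qb} {b : ℕ → ι' → Qb} {B : ι' → UP U Qb} (ha : P4_T U a A) (hb : P4_T U b B)
    {γ : UP U Qb} (hγ : γ ≠ 0)
    (h : ∀ O : VS Qb (UP U Qb), vs O.1 A = O.1.valuation γ * vs O.1 B) :
    ∃ C : ℝ, ∀ᶠ n in (U : Filter ℕ), |hv (a n) - hv (b n)| ≤ C := by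
  obtain ⟨C, hC⟩ := P4_T_le ha hb hγ fun O => (h O).le
  obtain ⟨C', hC'⟩ := P4_T_le hb ha (inv_ne_zero hγ) fun O => by
    rw [h O, map_inv₀, inv_mul_cancel_left₀ ((Valuation.ne_zero_iff _).2 hγ)]
  refine ⟨max C C', ?_⟩
  filter_upwards [hC, hC'] with n h1 h2
  have h3 := le_max_left C C'
  have h4 := le_max_right C C'
  rw [abs_le]
  constructor <;> linarith

theorem P4_hv_pair (a : Qb) : hv ![1, a] = h1 a := by
  unfold hv h1
  congr 1
  ext x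
  simp [Fin.exists_fin_two, eq_comm]

theorem P4_pair_ne {K : Type} [Field K] (a : K) (c : ℕ) :
    (fun i => (![1, a] : Fin 2 → K) i ^ c) ≠ 0 :=
  Function.ne_iff.2 ⟨0, by simp⟩

theorem P4_T_pair (U : Ultrafilter ℕ) (a : ℕ → Qb) (c : ℕ) :
    P4_T U (fun n i => (![1, a n] : Fin 2 → Qb) i ^ c)
      fun i => (![1, gm U a] : Fin 2 → UP U Qb) i ^ c := by
  refine ⟨fun n => P4_pair_ne _ _, 1, one_ne_zero, fun i => ?_⟩
  show _ = 1 * gm U fun n => (![1, a n] : Fin 2 → Qb) i ^ c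
  rw [one_mul, gm_pow U fun n => (![1, a n] : Fin 2 → Qb) i]
  fin_cases i
  · rfl
  · rfl

section
variable {κ F : Type} [Field κ] [IsAlgClosed κ] [CharZero κ] [Field F] [Algebra κ F] [IsFF κ F]
  (o : Place κ F)

/-- the generic point -/
noncomputable def P4_y0 : Pt o (AlgebraicClosure F) :=
  (IsScalarTower.toAlgHom κ F (AlgebraicClosure F)).comp (AA o).val

theorem P4_alg : Algebra.IsAlgebraic
    (IntermediateField.adjoin κ (Set.range fun _ : Unit => P4_y0 o (wN o)))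
    (AlgebraicClosure F) := by
  have hfin : FiniteDimensional κ⟮(wN o : F)⟯ F :=
    finiteDimensional_of_transcendental (transcendental_of_notMem (wN_notMem o))
  have halg : Algebra.IsAlgebraic κ⟮(wN o : F)⟯ (AlgebraicClosure F) :=
    Algebra.IsAlgebraic.trans _ F _
  set K := IntermediateField.adjoin κ (Set.range fun _ : Unit => P4_y0 o (wN o)) with hK
  have hle : κ⟮(wN o : F)⟯ ≤ K.comap (IsScalarTower.toAlgHom κ F (AlgebraicClosure F)) := by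
    rw [IntermediateField.adjoin_simple_le_iff]
    exact IntermediateField.subset_adjoin κ _ ⟨(), rfl⟩
  let f : κ⟮(wN o : F)⟯ →+* K :=
    ((algebraMap F (AlgebraicClosure F)).comp (algebraMap κ⟮(wN o : F)⟯ F)).codRestrict K
      fun x => hle x.2
  refine ⟨fun x => ?_⟩
  exact (halg.isAlgebraic x).ringHom_of_comp_eq f (RingHom.id _) f.injective rfl

theorem P4_inj {Ω : Type} [Field Ω] [IsAlgClosed Ω] [Algebra κ Ω] (y : Pt o Ω)
    (hy : Function.Injective y) :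
    ∃ τ : AlgebraicClosure F →ₐ[κ] Ω, τ.comp (P4_y0 o) = y := by
  obtain ⟨τ, hτ⟩ := exists_extend (K' := AlgebraicClosure F)
    (IsFractionRing.liftAlgHom (K := F) hy : F →ₐ[κ] Ω)
  refine ⟨τ, AlgHom.ext fun a => ?_⟩
  have h := hτ (algebraMap (AA o) F a)
  rw [IsFractionRing.liftAlgHom_apply, IsFractionRing.lift_algebraMap] at h
  exact h

theorem P4_gen : ∃ c : ℕ, ∀ (Ω : Type) [Field Ω] [IsAlgClosed Ω] [CharZero Ω] [Algebra κ Ω]
    (y : Pt o Ω), Function.Injective y → ∃ γ : Ω, γ ≠ 0 ∧ ∀ O : VS κ Ω,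
      vs O.1 (Psym (cl y)) ≤
        O.1.valuation γ * vs O.1 fun i => (![1, y (wN o)] : Fin 2 → Ω) i ^ c := by
  have : CharZero (AlgebraicClosure F) :=
    charZero_of_injective_algebraMap (algebraMap κ (AlgebraicClosure F)).injective
  have := P4_alg o
  have hl := Psym_ne_zero (cl (P4_y0 o))
  obtain ⟨g, c, h⟩ := exists_gen_vle (κ := κ) (fun _ : Unit => P4_y0 o (wN o)) hl
  refine ⟨c, fun Ω _ _ _ _ y hy => ?_⟩
  obtain ⟨τ, rfl⟩ := P4_inj o y hy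
  obtain ⟨μ, hμ, h1⟩ := (bc_ok (o := o) τ).Psym (cl (P4_y0 o))
  rw [BC.cl_cl, bc_pt, bc_τ] at h1
  have hg : τ (g : AlgebraicClosure F) ≠ 0 := (map_ne_zero τ).2 g.ne_zero
  refine ⟨μ * τ g, mul_ne_zero hμ hg, fun O => ?_⟩
  rw [funext h1, vs_smul, map_mul, mul_assoc]
  refine mul_le_mul_right (vs_le _ fun j => ?_) _
  let O0 : VS κ (AlgebraicClosure F) :=
    ⟨O.1.comap (τ : AlgebraicClosure F →+* Ω), fun c => by
      rw [ValuationSubring.mem_comap]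
      have := O.2 c
      rwa [← τ.commutes c] at this⟩
  have h2 := (gen_spec (κ := κ) hl O0).2 j
  have h3 := O0.1.mul_mem _ _ h2 (h O0)
  have hp : (![1, P4_y0 o (wN o)] : Fin 2 → AlgebraicClosure F) ≠ 0 :=
    fun e => one_ne_zero (congrFun e 0)
  obtain ⟨i, hi⟩ := (gen_spec (κ := κ) hp O0).1
  have h4 : ((cstC κ g * (∏ _k : Unit, pen κ (P4_y0 o (wN o))) ^ c) O0 : AlgebraicClosure F) =
      g * (![1, P4_y0 o (wN o)] : Fin 2 → AlgebraicClosure F) i ^ c := by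
    rw [hi, Fintype.prod_unique]
    rfl
  have h5 : (![1, P4_y0 o (wN o)] : Fin 2 → AlgebraicClosure F) i ≠ 0 := by
    rw [hi]
    exact Units.ne_zero _
  rw [div_mul_div_cancel₀ (Units.ne_zero _), h4] at h3
  have h6 : τ ((![1, P4_y0 o (wN o)] : Fin 2 → AlgebraicClosure F) i) =
      (![1, (τ.comp (P4_y0 o)) (wN o)] : Fin 2 → Ω) i := by
    fin_cases i
    · exact map_one τ
    · rfl
  have h7 : τ (Psym (cl (P4_y0 o)) j) /
      (τ g * (![1, (τ.comp (P4_y0 o)) (wN o)] : Fin 2 → Ω) i ^ c) ∈ O.1 := by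
    rw [← h6, ← map_pow, ← map_mul, ← map_div₀]
    exact h3
  rw [V1_div_mem _ _ (mul_ne_zero hg (pow_ne_zero _ (by
    rw [← h6]
    exact (map_ne_zero τ).2 h5))), map_mul] at h7
  exact h7.trans (mul_le_mul_right
    (le_vs O.1 (fun i => (![1, (τ.comp (P4_y0 o)) (wN o)] : Fin 2 → Ω) i ^ c) i) _)

end

variable {F : Type} [Field F] [Algebra Qb F] [IsFF Qb F] (o : Place Qb F)

theorem P4_T_Psi (U : Ultrafilter ℕ) (w : ℕ → Cl o Qb) :
    P4_T U (fun n => Psi (w n)) (Psi (clU U w)) := ⟨fun _ => Psi_ne_zero _, Psi_clU U w⟩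

theorem P4_T_Psym (U : Ultrafilter ℕ) (w : ℕ → Cl o Qb) :
    P4_T U (fun n => Psym (w n)) (Psym (clU U w)) := ⟨fun _ => Psym_ne_zero _, Psym_clU U w⟩

theorem P4_cube (U : Ultrafilter ℕ) (a b c : ℕ → Cl o Qb) : ∃ C : ℝ, ∀ᶠ n in (U : Filter ℕ),
    |hv (Psi (a n + b n + c n)) + hv (Psi (a n)) + hv (Psi (b n)) + hv (Psi (c n)) -
      hv (Psi (a n + b n)) - hv (Psi (a n + c n)) - hv (Psi (b n + c n))| ≤ C := by
  obtain ⟨γ, hγ, h⟩ := cube_val (clU U a) (clU U b) (clU U c)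
  have h1 := P4_T_Psi o U fun n => a n + b n + c n
  have h2 := P4_T_Psi o U fun n => a n + b n
  have h3 := P4_T_Psi o U fun n => a n + c n
  have h4 := P4_T_Psi o U fun n => b n + c n
  rw [clU_add U (fun n => a n + b n) c, clU_add] at h1
  rw [clU_add] at h2 h3 h4
  have g1 := P4_T_segre h1 (P4_T_Psi o U a)
  have g2 := P4_T_segre g1 (P4_T_Psi o U b)
  have g3 := P4_T_segre g2 (P4_T_Psi o U c)
  have g4 := P4_T_segre h2 h3
  have g5 := P4_T_segre g4 h4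
  obtain ⟨C, hC⟩ := P4_T_abs g3 g5 hγ fun O => by
    have h5 := h O
    rw [← vs_segre, ← vs_segre, ← vs_segre, ← vs_segre, ← vs_segre] at h5
    exact h5
  refine ⟨C, hC.mono fun n hn => ?_⟩
  rw [hv_segre (g2.1 n) (Psi_ne_zero (c n)), hv_segre (g1.1 n) (Psi_ne_zero (b n)),
    hv_segre (h1.1 n) (Psi_ne_zero (a n)), hv_segre (g4.1 n) (Psi_ne_zero (b n + c n)),
    hv_segre (h2.1 n) (Psi_ne_zero (a n + c n))] at hn
  convert hn using 2
  ring

theorem cube_ht : ∃ C : ℝ, ∀ a b c : Cl o Qb,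
    |hv (Psi (a + b + c)) + hv (Psi a) + hv (Psi b) + hv (Psi c) -
      hv (Psi (a + b)) - hv (Psi (a + c)) - hv (Psi (b + c))| ≤ C := by
  obtain ⟨C, hC⟩ := bdd_of_ultra (fun d : Cl o Qb × Cl o Qb × Cl o Qb =>
    |hv (Psi (d.1 + d.2.1 + d.2.2)) + hv (Psi d.1) + hv (Psi d.2.1) + hv (Psi d.2.2) -
      hv (Psi (d.1 + d.2.1)) - hv (Psi (d.1 + d.2.2)) - hv (Psi (d.2.1 + d.2.2))|)
    fun U d => P4_cube o U (fun n => (d n).1) (fun n => (d n).2.1) fun n => (d n).2.2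
  exact ⟨C, fun a b c => hC (a, b, c)⟩

theorem P4_par (U : Ultrafilter ℕ) (a b : ℕ → Cl o Qb) : ∃ C : ℝ, ∀ᶠ n in (U : Filter ℕ),
    |hq (a n + b n) + hq (a n - b n) - 2 * hq (a n) - 2 * hq (b n)| ≤ C := by
  obtain ⟨γ, hγ, h⟩ := par_val (clU U a) (clU U b)
  have h1 := P4_T_Psym o U fun n => a n + b n
  have h2 := P4_T_Psym o U fun n => a n - b n
  rw [clU_add] at h1
  rw [clU_sub] at h2
  have g1 := P4_T_segre h1 h2
  have g2 := P4_T_segre (P4_T_Psym o U a) (P4_T_Psym o U b)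
  have g3 := P4_T_segre g2 g2
  obtain ⟨C, hC⟩ := P4_T_abs g1 g3 hγ fun O => by
    rw [vs_segre O.1 _ (Psym (clU U a - clU U b)),
      vs_segre O.1 (fun p : (JJ o × JJ o) × JJ o × JJ o =>
        Psym (clU U a) p.1 * Psym (clU U b) p.2) fun p : (JJ o × JJ o) × JJ o × JJ o =>
        Psym (clU U a) p.1 * Psym (clU U b) p.2,
      vs_segre O.1 _ (Psym (clU U b)), ← sq]
    exact h O
  refine ⟨C, hC.mono fun n hn => ?_⟩
  rw [hv_segre (g2.1 n) (g2.1 n), hv_segre (h1.1 n) (h2.1 n),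
    hv_segre (Psym_ne_zero (a n)) (Psym_ne_zero (b n))] at hn
  unfold hq
  convert hn using 2
  ring

theorem par_ht : ∃ C : ℝ, ∀ a b : Cl o Qb,
    |hq (a + b) + hq (a - b) - 2 * hq a - 2 * hq b| ≤ C := by
  obtain ⟨C, hC⟩ := bdd_of_ultra (fun d : Cl o Qb × Cl o Qb =>
    |hq (d.1 + d.2) + hq (d.1 - d.2) - 2 * hq d.1 - 2 * hq d.2|)
    fun U d => P4_par o U (fun n => (d n).1) fun n => (d n).2
  exact ⟨C, fun a b => hC (a, b)⟩

/-- the canonical height -/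
theorem exists_nt : ∃ (B : Cl o Qb →+ Cl o Qb →+ ℝ) (C : ℝ), (∀ a b, B a b = B b a) ∧
    (∀ a, 0 ≤ B a a) ∧ ∀ a, |hq a - B a a| ≤ C := by
  obtain ⟨C, hC⟩ := par_ht o
  obtain ⟨B, hB⟩ := exists_tate (hq (o := o)) (fun a => hv_nonneg _) hC
  exact ⟨B, C, hB⟩

theorem up_ht : ∃ c : ℝ, 0 ≤ c ∧ ∀ y : Pt o Qb, hq (cl y) ≤ c * (h1 (y (wN o)) + 1) := by
  obtain ⟨c, hc⟩ := P4_gen o
  obtain ⟨C, hC⟩ := bdd_of_ultra (fun y : Pt o Qb => hq (cl y) - c * h1 (y (wN o))) fun U y => by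
    rcases pt_const_or_inj o (ptU U y) with ⟨p, hp⟩ | hy
    · have h1' : ptU U y = ptU U fun _ => p :=
        AlgHom.ext fun a => (hp a).trans (U2_const U (p a)).symm
      refine ⟨hq (cl p) - c * h1 (p (wN o)), ((ptU_eq_iff U _ _).1 h1').mono fun n hn => ?_⟩
      rw [hn]
    · obtain ⟨γ, hγ, h⟩ := hc (UP U Qb) (ptU U y) hy
      have h2 := P4_T_Psym o U fun n => cl (y n)
      rw [clU_cl] at h2
      obtain ⟨C, hC⟩ := P4_T_le h2 (P4_T_pair U (fun n => y n (wN o)) c) hγ h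
      refine ⟨C, hC.mono fun n hn => ?_⟩
      rw [hv_pow, P4_hv_pair] at hn
      unfold hq
      linarith
  refine ⟨max c (max C 0), (le_max_right C 0).trans (le_max_right _ _), fun y => ?_⟩
  have h2 := hC y
  have h3 := h1_nonneg (y (wN o))
  have h4 : (c : ℝ) ≤ max (c : ℝ) (max C 0) := le_max_left _ _
  have h5 : C ≤ max (c : ℝ) (max C 0) := (le_max_left C 0).trans (le_max_right _ _)
  have h6 := mul_le_mul_of_nonneg_right h4 h3
  rw [mul_add, mul_one]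
  linarith

end Pool.Agent.E6b
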