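import Pool.Agent.E6b.MW1
import Pool.Agent.E6b.P4

open scoped NNReal TensorProduct IntermediateField BigOperators Classical Topology
open Filter

namespace Pool.Agent.E6b

variable {F : Type} [Field F] [Algebra Qb F] [IsFF Qb F] (o : Place Qb F)

theorem northcott_GK (K : IntermediateField ℚ Qb) [FiniteDimensional ℚ K] (B : ℝ) :
    {w : Cl o Qb | w ∈ GK o K ∧ hq w ≤ B}.Finite := by
  obtain ⟨K₀, hfin, hK₀⟩ := exists_defField o
  have hT := northcott_field (K ⊔ K₀) B
  have hX : {x : JJ o × JJ o → Qb | ∀ j, x j ∈ {a : Qb | a ∈ K ⊔ K₀ ∧ h1 a ≤ B}}.Finite :=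
    Set.Finite.pi' fun _ => hT
  refine (hX.biUnion fun x _ => finite_fibre_Psym (o := o) x).subset ?_
  rintro w ⟨hw, hB⟩
  obtain ⟨j₀, hj₀⟩ := Function.ne_iff.1 (Psym_ne_zero w)
  have hj : Psym w j₀ ≠ 0 := hj₀
  refine Set.mem_biUnion (x := fun j => Psym w j / Psym w j₀) (fun j => ⟨?_, ?_⟩) ?_
  · refine mem_of_fixed _ fun σ hσ => ?_
    obtain ⟨β, hβ, hok⟩ := hK₀ σ fun x hx => hσ x ((le_sup_right : K₀ ≤ K ⊔ K₀) hx)
    have h1 : β.cl w = w := hw β fun x hx => by
      rw [hβ, hσ x ((le_sup_left : K ≤ K ⊔ K₀) hx)]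
    obtain ⟨μ, hμ, h2⟩ := hok.Psym w
    rw [h1] at h2
    have h3 := h2 j
    have h4 := h2 j₀
    simp only [hβ] at h3 h4
    rw [map_div₀, ← mul_div_mul_left _ _ hμ, ← h3, ← h4]
  · exact (h1_le_of_mem (Finset.mem_image_of_mem _ (Finset.mem_univ j))
      (Finset.mem_image_of_mem _ (Finset.mem_univ j₀)) hj).trans hB
  · exact ⟨Psym w j₀, hj, fun j => (mul_div_cancel₀ _ hj).symm⟩

/-- Mordell-Weil -/
theorem mw (K : IntermediateField ℚ Qb) [FiniteDimensional ℚ K] : (GK o K).FG := by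
  obtain ⟨K', hle, hfin, -, S, hS⟩ := weak_mw o K
  obtain ⟨C, hC⟩ := par_ht o
  have hN : Northcott fun x : GK o K' => hq x.1 :=
    ⟨fun B => ((northcott_GK o K' B).preimage Subtype.val_injective.injOn).subset
      fun x hx => ⟨x.2, hx⟩⟩
  have hI : (nsmulAddMonoidHom (α := GK o K') 2).range.FiniteIndex := by
    have hf : (Subtype.val ⁻¹' (S : Set (Cl o Qb)) : Set (GK o K')).Finite :=
      S.finite_toSet.preimage Subtype.val_injective.injOn
    have hq : Finite (GK o K' ⧸ (nsmulAddMonoidHom (α := GK o K') 2).range) := by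
      rw [← Set.finite_univ_iff]
      refine (hf.image QuotientAddGroup.mk).subset fun q _ => ?_
      obtain ⟨w, rfl⟩ := QuotientAddGroup.mk_surjective q
      obtain ⟨s, hs, x, hx, e⟩ := hS w.1 w.2
      have hs' : s ∈ GK o K' := by
        have : s = w.1 - 2 • x := by rw [e, add_sub_cancel_right]
        rw [this]
        exact sub_mem w.2 (nsmul_mem hx 2)
      refine ⟨⟨s, hs'⟩, hs, QuotientAddGroup.eq.2 ⟨⟨x, hx⟩, Subtype.ext ?_⟩⟩
      change 2 • x = -s + w.1
      rw [e, neg_add_cancel_left]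
    exact AddSubgroup.finiteIndex_of_finite_quotient
  have hFG : AddGroup.FG (GK o K') :=
    AddCommGroup.fg_of_descent' (h := fun x : GK o K' => hq x.1) (C := C) hI
      (fun x => hv_nonneg _) fun x y => by
        have := hC x.1 y.1
        rw [mul_add, ← sub_sub]
        exact this
  have h1 : (GK o K').toIntSubmodule.FG := by
    rw [Submodule.fg_iff_addSubgroup_fg, AddSubgroup.toIntSubmodule_toAddSubgroup]
    exact (AddGroup.fg_iff_addSubgroup_fg _).1 hFG
  have h2 : (GK o K).toIntSubmodule.FG := h1.of_le fun x hx => GK_mono o hle hx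
  rwa [Submodule.fg_iff_addSubgroup_fg, AddSubgroup.toIntSubmodule_toAddSubgroup] at h2

end Pool.Agent.E6b
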