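import Pool.Agent.E6b.C8
import Pool.Agent.E6b.M3
import Pool.Agent.E6b.MW2

open scoped NNReal TensorProduct IntermediateField BigOperators Classical Topology
open Filter

namespace Pool.Agent.E6b

theorem C9_quad {x y w : ℝ} (hx : 0 ≤ x) (hw : 0 ≤ w) (h : y ^ 2 ≤ x * w) (a b : ℝ) :
    0 ≤ a ^ 2 * x - 2 * a * b * y + b ^ 2 * w := by
  rcases hx.eq_or_lt with h0 | h0
  · subst h0
    have hy : y = 0 := by
      have : y ^ 2 ≤ 0 := by simpa using h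
      exact pow_eq_zero_iff two_ne_zero |>.1 (le_antisymm this (sq_nonneg y))
    subst hy
    have := mul_nonneg (sq_nonneg b) hw
    linarith
  · refine le_of_mul_le_mul_left ?_ h0
    have h1 := sq_nonneg (a * x - b * y)
    have h2 := mul_nonneg (sq_nonneg b) (sub_nonneg.2 h)
    nlinarith

/-- two close directions and a well chosen multiplier -/
theorem C9_close {x y w G₁ G₂ c ε N : ℝ} (hx : 0 ≤ x) (hw : 0 ≤ w) (h : y ^ 2 ≤ x * w)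
    (hG₁ : 0 < G₁) (hN : 1 ≤ N) (hG₂ : N ^ 2 * G₁ ≤ G₂) (hc : w ≤ c * G₂)
    (hcl : x / G₁ - 2 * y / Real.sqrt (G₁ * G₂) + w / G₂ ≤ ε) :
    ∃ s : ℕ, N ≤ s ∧ G₂ ≤ s ^ 2 * G₁ ∧ s ^ 2 * G₁ ≤ 4 * G₂ ∧
      s ^ 2 * x - 2 * s * y + w ≤ 2 * ε * (s ^ 2 * G₁) + 2 * c * G₁ := by
  have hG₂0 : 0 < G₂ := lt_of_lt_of_le (by positivity) hG₂
  obtain ⟨t, ht0, ht⟩ : ∃ t : ℝ, 0 < t ∧ G₂ = G₁ * t ^ 2 := by
    refine ⟨Real.sqrt (G₂ / G₁), Real.sqrt_pos.2 (by positivity), ?_⟩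
    rw [Real.sq_sqrt (by positivity)]
    field_simp
  have hNt : N ≤ t := by
    refine (pow_le_pow_iff_left₀ (by linarith) ht0.le two_ne_zero).1 ?_
    rw [ht, mul_comm] at hG₂
    exact le_of_mul_le_mul_left hG₂ hG₁
  have ht1 : 1 ≤ t := hN.trans hNt
  have hs1 : t ≤ (⌈t⌉₊ : ℝ) := Nat.le_ceil t
  have hs2 : (⌈t⌉₊ : ℝ) < t + 1 := Nat.ceil_lt_add_one ht0.le
  refine ⟨⌈t⌉₊, hNt.trans hs1, ?_, ?_, ?_⟩
  · rw [ht, mul_comm]
    exact mul_le_mul_of_nonneg_right (pow_le_pow_left₀ ht0.le hs1 2) hG₁.le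
  · have h1 : (⌈t⌉₊ : ℝ) ^ 2 ≤ (2 * t) ^ 2 := pow_le_pow_left₀ (by positivity) (by linarith) 2
    have h2 := mul_le_mul_of_nonneg_right h1 hG₁.le
    rw [ht]
    linarith
  · generalize (⌈t⌉₊ : ℝ) = s at hs1 hs2
    have hsq : Real.sqrt (G₁ * G₂) = G₁ * t := by
      rw [ht, show G₁ * (G₁ * t ^ 2) = (G₁ * t) ^ 2 by ring]
      exact Real.sqrt_sq (by positivity)
    rw [hsq, ht] at hcl
    obtain ⟨l, hl⟩ : ∃ l : ℝ, s = l * t := ⟨s / t, by field_simp⟩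
    have h1 : s ^ 2 * x - 2 * s * l * y + l ^ 2 * w ≤ ε * (s ^ 2 * G₁) := by
      have h2 := mul_le_mul_of_nonneg_right hcl (show 0 ≤ s ^ 2 * G₁ by positivity)
      refine le_trans (le_of_eq ?_) h2
      rw [hl]
      field_simp
    have h3 := C9_quad hx hw h s (2 * l - 1)
    have h4 : (l - 1) ^ 2 * t ^ 2 ≤ 1 := by
      have e : (l - 1) ^ 2 * t ^ 2 = (s - t) ^ 2 := by rw [hl]; ring
      rw [e]
      exact pow_le_one₀ (by linarith) (by linarith)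
    have hc0 : 0 ≤ c := by
      by_contra hc0
      have := mul_neg_of_neg_of_pos (not_le.1 hc0) hG₂0
      linarith
    have h5 : (l - 1) ^ 2 * w ≤ c * G₁ := by
      have h6 := mul_le_mul_of_nonneg_left hc (sq_nonneg (l - 1))
      have h7 := mul_le_mul_of_nonneg_left h4 (mul_nonneg hc0 hG₁.le)
      rw [ht] at h6
      linarith
    linarith

/-- the height of the two models -/
theorem C9_mid {S H₁ H₂ ε a₁ a₂ : ℝ} (hS : 1 ≤ S) (hH : 1 ≤ H₁) (h2 : H₂ + 1 ≤ S * (H₁ + 1))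
    (hε : 0 ≤ ε) (ha₁ : a₁ ≤ ε * H₁) (ha₂ : a₂ ≤ ε * H₂) :
    S * (a₁ + 1) + (a₂ + 1) ≤ S * (3 * ε * H₁ + 2) := by
  have h3 : H₂ ≤ 2 * (S * H₁) := by nlinarith
  have h4 := mul_le_mul_of_nonneg_left h3 hε
  have h5 := mul_le_mul_of_nonneg_left ha₁ (by linarith : (0 : ℝ) ≤ S)
  linarith

/-- the final numerical contradiction -/
theorem C9_final {S H₁ H₂ ε E C c c₀ ϑ Q m b₁ b₂ : ℝ} (hS : 1 ≤ S) (hH : 1 ≤ H₁)
    (h2 : H₂ + 1 ≤ S * (H₁ + 1)) (hε : 0 ≤ ε) (hE : 0 ≤ E) (hC : 0 ≤ C) (hc : 0 ≤ c)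
    (hϑ : 0 ≤ ϑ) (hϑ1 : ϑ ≤ 1) (k1 : C * ϑ * c ≤ 1 / 24) (k2 : E * ε ≤ 1 / 32)
    (k3 : C * ε ≤ 1 / 48) (k4 : 32 * E * c₀ ≤ S) (k5 : 32 * C ≤ H₁)
    (hQ : Q ≤ 2 * ε * (S * (H₁ + 1)) + 2 * c₀ * (H₁ + 1)) (hm : m ≤ S * (3 * ε * H₁ + 2))
    (hb₁ : b₁ ≤ c * H₁) (hb₂ : b₂ ≤ c * H₂)
    (h : S * H₁ ≤ E * Q + C * (1 + ϑ) * m + C * ϑ * (S * b₁ + b₂)) : False := by
  have hS0 : 0 ≤ S := by linarith
  have hH0 : 0 ≤ H₁ := by linarith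
  have hX : 0 < S * H₁ := by positivity
  have hX1 : S ≤ S * H₁ := le_mul_of_one_le_right hS0 hH
  have a1 : E * Q ≤ 1 / 4 * (S * H₁) := by
    have e1 := mul_le_mul_of_nonneg_left hQ hE
    have e2 : E * ε * (S * (H₁ + 1)) ≤ 1 / 32 * (S * (H₁ + 1)) :=
      mul_le_mul_of_nonneg_right k2 (by positivity)
    have e3 : 32 * E * c₀ * (H₁ + 1) ≤ S * (H₁ + 1) :=
      mul_le_mul_of_nonneg_right k4 (by positivity)
    linarith
  have a2 : C * (1 + ϑ) * m ≤ 1 / 4 * (S * H₁) := by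
    have e1 : C * (1 + ϑ) * m ≤ C * (1 + ϑ) * (S * (3 * ε * H₁ + 2)) :=
      mul_le_mul_of_nonneg_left hm (by positivity)
    have e2 : C * (1 + ϑ) * (S * (3 * ε * H₁ + 2)) ≤ C * 2 * (S * (3 * ε * H₁ + 2)) :=
      mul_le_mul_of_nonneg_right (mul_le_mul_of_nonneg_left (by linarith) hC) (by positivity)
    have e3 : C * ε * (S * H₁) ≤ 1 / 48 * (S * H₁) := mul_le_mul_of_nonneg_right k3 hX.le
    have e4 : S * (32 * C) ≤ S * H₁ := mul_le_mul_of_nonneg_left k5 hS0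
    linarith
  have a3 : C * ϑ * (S * b₁ + b₂) ≤ 1 / 8 * (S * H₁) := by
    have e1 : S * b₁ ≤ S * (c * H₁) := mul_le_mul_of_nonneg_left hb₁ hS0
    have e2 : c * H₂ ≤ c * (2 * (S * H₁)) := mul_le_mul_of_nonneg_left (by linarith) hc
    have e3 : C * ϑ * (S * b₁ + b₂) ≤ C * ϑ * (3 * c * (S * H₁)) :=
      mul_le_mul_of_nonneg_left (by linarith) (by positivity)
    have e4 : C * ϑ * c * (S * H₁) ≤ 1 / 24 * (S * H₁) := mul_le_mul_of_nonneg_right k1 hX.le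
    linarith
  linarith

theorem C9_small {a k : ℝ} (ha : 0 ≤ a) (hk : 0 < k) :
    ∃ δ : ℝ, 0 < δ ∧ ∀ ε, 0 ≤ ε → ε ≤ δ → a * ε ≤ k := by
  refine ⟨k / (a + 1), by positivity, fun ε h0 h => ?_⟩
  rw [le_div_iff₀ (by positivity)] at h
  linarith

variable {F : Type} [Field F] [Algebra Qb F] [IsFF Qb F] (o : Place Qb F) {d : ℕ}

theorem ntB_clz_le : ∃ c : ℝ, 0 ≤ c ∧ ∀ (z : Fin d → Pt o Qb) (H : ℝ),
    (∀ a, h1 (z a (wN o)) ≤ H) → ntB o (clz z) (clz z) ≤ c * (H + 1) := by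
  obtain ⟨C, hs, hp, hC⟩ := ntB_spec o
  obtain ⟨c, hc0, hc⟩ := up_ht o
  have hC0 : 0 ≤ C := (abs_nonneg _).trans (hC 0)
  refine ⟨d * (d * (c + C)), by positivity, fun z H hz => ?_⟩
  rw [clz_eq_sum]
  refine (psd_sum_le (ntB o) hs hp Finset.univ _).trans ?_
  rw [Finset.card_univ, Fintype.card_fin, mul_assoc]
  refine mul_le_mul_of_nonneg_left ?_ (Nat.cast_nonneg d)
  have h : ∀ a, ntB o (cl (z a)) (cl (z a)) ≤ (c + C) * (H + 1) := fun a => by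
    have h1' := (abs_le.1 (hC (cl (z a)))).1
    have h2 := hc (z a)
    have h3 := h1_nonneg (z a (wN o))
    have h4 := hz a
    have h5 : c * (h1 (z a (wN o)) + 1) ≤ c * (H + 1) :=
      mul_le_mul_of_nonneg_left (by linarith) hc0
    have h6 : C ≤ C * (H + 1) := le_mul_of_one_le_right hC0 (by linarith)
    linarith
  refine (Finset.sum_le_sum fun a _ => h a).trans_eq ?_
  rw [Finset.sum_const, Finset.card_univ, Fintype.card_fin, nsmul_eq_mul, mul_assoc]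

/-- heights tend to infinity -/
theorem C9_tendsto (e : ℕ) (y : ℕ → Pt o Qb) (hi : Function.Injective y)
    (he : ∀ n, (minpoly ℚ (y n (wN o))).natDegree ≤ e) :
    Tendsto (fun n => h1 (y n (wN o))) cofinite atTop := by
  refine tendsto_atTop.2 fun B => ?_
  rw [eventually_cofinite]
  have h1' : (⋃ c ∈ {a : Qb | h1 a ≤ B ∧ (minpoly ℚ a).natDegree ≤ e},
      {p : Pt o Qb | p (wN o) = c}).Finite :=
    (northcott B e).biUnion fun c _ => finite_pt_wN c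
  refine (h1'.preimage hi.injOn).subset fun n hn => ?_
  simp only [Set.mem_preimage, Set.mem_iUnion, Set.mem_ofPred_eq] at hn ⊢
  exact ⟨_, ⟨(not_le.1 hn).le, he n⟩, rfl⟩

/-- Theorem V for points -/
theorem thmV_pt (hd : 0 < d) (K : IntermediateField ℚ Qb) [FiniteDimensional ℚ K] (e : ℕ)
    (z : ℕ → Fin d → Pt o Qb) (hi : Function.Injective fun p : ℕ × Fin d => z p.1 p.2)
    (hK : ∀ n, clz (z n) ∈ GK o K) (he : ∀ n a, (minpoly ℚ (z n a (wN o))).natDegree ≤ e) :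
    ∃ m n, m ≠ n ∧ ell (dz (Sum.elim (z m) (z n))) ≠ 1 := by
  by_contra hcon
  have hone : ∀ m n, m ≠ n → ell (dz (Sum.elim (z m) (z n))) = 1 := fun m n hmn => by
    by_contra h
    exact hcon ⟨m, n, hmn, h⟩
  have : Nonempty (Fin d) := ⟨⟨0, hd⟩⟩
  let U : Ultrafilter ℕ := hyperfilter ℕ
  have hU : (U : Filter ℕ) ≤ cofinite := hyperfilter_le_cofinite
  choose am ham using fun n => Finite.exists_max fun a : Fin d => h1 (z n a (wN o))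
  obtain ⟨a₀, -, ha₀⟩ := exists_eventually_eq U (s := Set.univ) Set.finite_univ (f := am)
    (Eventually.of_forall fun n => Set.mem_univ _)
  have hH : Tendsto (fun n => h1 (z n a₀ (wN o))) (U : Filter ℕ) atTop :=
    (C9_tendsto o e (fun n => z n a₀)
      (fun m n h => congrArg Prod.fst (hi (a₁ := (m, a₀)) (a₂ := (n, a₀)) h))
      fun n => he n a₀).mono_left hU
  have hmax : ∀ᶠ n in (U : Filter ℕ), ∀ a, h1 (z n a (wN o)) ≤ h1 (z n a₀ (wN o)) :=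
    ha₀.mono fun n hn a => hn ▸ ham n a
  obtain ⟨r, Δ, k₀, c, u, hu0, hgen, hlev⟩ := mex U z a₀ hH hmax
  obtain ⟨E, C, hE, hC, hcore⟩ := core o d r r Δ
  obtain ⟨c₀, hc₀, hnt⟩ := ntB_clz_le o (d := d)
  obtain ⟨C', hs, hp', -⟩ := ntB_spec o
  obtain ⟨ϑ₀, hϑ₀, kϑ⟩ := C9_small (a := C * |c|) (k := 1 / 24) (by positivity) (by norm_num)
  obtain ⟨ϑ, hϑ, hϑ1, hϑ2⟩ : ∃ ϑ : ℝ, 0 < ϑ ∧ ϑ ≤ 1 ∧ ϑ ≤ ϑ₀ :=
    ⟨min 1 ϑ₀, lt_min one_pos hϑ₀, min_le_left _ _, min_le_right _ _⟩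
  have k1 : C * ϑ * |c| ≤ 1 / 24 := by
    have := kϑ ϑ hϑ.le hϑ2
    linarith
  obtain ⟨B, hB⟩ := hcore ϑ hϑ
  obtain ⟨η, hη, hgenB⟩ := hgen B
  obtain ⟨δ₁, hδ₁, kδ₁⟩ := C9_small (a := E) (k := 1 / 32) hE (by norm_num)
  obtain ⟨δ₂, hδ₂, kδ₂⟩ := C9_small (a := C) (k := 1 / 48) hC (by norm_num)
  obtain ⟨δ₃, hδ₃, kδ₃⟩ := C9_small (a := B) (k := η / 48) (Nat.cast_nonneg B) (by positivity)
  obtain ⟨ε, hε, hε1, hε2, hε3⟩ : ∃ ε : ℝ, 0 < ε ∧ ε ≤ δ₁ ∧ ε ≤ δ₂ ∧ ε ≤ δ₃ :=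
    ⟨min δ₁ (min δ₂ δ₃), lt_min hδ₁ (lt_min hδ₂ hδ₃), min_le_left _ _,
      (min_le_right _ _).trans (min_le_left _ _), (min_le_right _ _).trans (min_le_right _ _)⟩
  have k2 := kδ₁ ε hε.le hε1
  have k3 := kδ₂ ε hε.le hε2
  have k6 := kδ₃ ε hε.le hε3
  obtain ⟨T, hT, hclose⟩ := exists_close (ntB o) hs hp' (GK o K) (mw o K) U (fun n => clz (z n))
    hK (fun n => h1 (z n (am n) (wN o)) + 1)
    (fun n => add_pos_of_nonneg_of_pos (h1_nonneg _) one_pos) (c := c₀)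
    (fun n => hnt (z n) _ (ham n)) hε
  have hT' : ∀ᶠ n in (U : Filter ℕ), n ∈ T := hT
  have hgood := hT'.and (ha₀.and (hgenB.and ((hlev ε hε).and (hH.eventually_ge_atTop 1))))
  obtain ⟨n₁, ⟨t₁, a₁, g₁, ⟨L₁, u₁, z₁, hh₁, hs₁⟩, o₁⟩, p₁, q₁⟩ :=
    (hgood.and ((hH.eventually_ge_atTop (32 * C)).and
      (hH.eventually_gt_atTop (32 * B / η)))).exists
  obtain ⟨N, hN1, hNB, hNE⟩ : ∃ N : ℝ, 1 ≤ N ∧ (B : ℝ) ≤ N ∧ 32 * E * c₀ ≤ N :=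
    ⟨max 1 (max B (32 * E * c₀)), le_max_left _ _, (le_max_left _ _).trans (le_max_right _ _),
      (le_max_right _ _).trans (le_max_right _ _)⟩
  obtain ⟨n₂, ⟨t₂, a₂, g₂, ⟨L₂, u₂, z₂, hh₂, hs₂⟩, o₂⟩, p₂, q₂⟩ :=
    (hgood.and ((hH.eventually_ge_atTop (N ^ 2 * (h1 (z n₁ a₀ (wN o)) + 1))).and
      (hU (eventually_cofinite_ne n₁)))).exists
  have hne : n₁ ≠ n₂ := fun h => q₂ h.symm
  have hcl := hclose n₁ t₁ n₂ t₂
  have hw := hnt (z n₂) _ (ham n₂)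
  simp only [a₁, a₂] at hcl hw
  have hu₁ := hu0 n₁
  generalize h1 (z n₂ a₀ (wN o)) = H₂ at *
  generalize hH₁ : h1 (z n₁ a₀ (wN o)) = H₁ at *
  obtain ⟨s, s1, s2, s3, s4⟩ := C9_close (hp' _) (hp' _) (psd_cs (ntB o) hs hp' _ _)
    (by linarith : 0 < H₁ + 1) hN1 (by linarith : N ^ 2 * (H₁ + 1) ≤ H₂ + 1) hw hcl
  have hs1 : (1 : ℝ) ≤ s := hN1.trans s1
  have hS1 : (1 : ℝ) ≤ s ^ 2 := one_le_pow₀ hs1
  have hsS : (s : ℝ) ≤ s ^ 2 := by nlinarith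
  have hmid := C9_mid hS1 o₁ s2 hε.le hh₁ hh₂
  have hB0 : (0 : ℝ) ≤ B := Nat.cast_nonneg B
  have hkey : (B : ℝ) * (s ^ 2 * (L₁.hh + 1) + (L₂.hh + 1)) < η / 8 * (s ^ 2 * H₁) := by
    have e1 := mul_le_mul_of_nonneg_left hmid hB0
    rw [div_lt_iff₀ hη] at q₁
    have e2 : (B : ℝ) * ε * H₁ ≤ η / 48 * H₁ := mul_le_mul_of_nonneg_right k6 (by linarith)
    have e3 : (B : ℝ) * (3 * ε * H₁ + 2) < η / 8 * H₁ := by linarith
    have e4 := mul_lt_mul_of_pos_left e3 (by linarith : (0 : ℝ) < s ^ 2)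
    linarith
  have hinj : Function.Injective (Sum.elim (z n₁) (z n₂)) :=
    Function.Injective.sumElim
      (fun a b h => congrArg Prod.snd (hi (a₁ := (n₁, a)) (a₂ := (n₁, b)) h))
      (fun a b h => congrArg Prod.snd (hi (a₁ := (n₂, a)) (a₂ := (n₂, b)) h))
      fun a b h => hne (congrArg Prod.fst (hi (a₁ := (n₁, a)) (a₂ := (n₂, b)) h))
  have hfin := hB L₁ L₂ k₀ s (by exact_mod_cast (by linarith : (0 : ℝ) < s))
    (by exact_mod_cast hNB.trans s1) (by rw [z₁, z₂]; exact hinj)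
    (by rw [z₁, z₂]; exact hone _ _ hne) (fun q hq hdq hev => ?_) fun q hq hdq hev => ?_
  · rw [u₁, hu₁, hH₁, z₁, z₂] at hfin
    refine C9_final hS1 o₁ s2 hε.le hE hC (abs_nonneg c) hϑ.le hϑ1 k1 k2 k3
      (hNE.trans (s1.trans hsS)) p₁ ?_ hmid
      (hs₁.trans (mul_le_mul_of_nonneg_right (le_abs_self c) (by linarith)))
      (hs₂.trans (mul_le_mul_of_nonneg_right (le_abs_self c) (by linarith))) hfin
    refine le_trans (le_of_eq ?_) s4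
    simp only [map_sub, map_zsmul, AddMonoidHom.sub_apply, AddMonoidHom.zsmul_apply, zsmul_eq_mul,
      Int.cast_natCast, hs (clz (z n₂)) (clz (z n₁))]
    ring
  · have e1 := g₁ q hq hdq (u₁ ▸ hev)
    have e2 := mul_le_mul_of_nonneg_right e1 (by linarith : (0 : ℝ) ≤ s ^ 2)
    have e3 : 0 ≤ η * (s ^ 2 * H₁) := by
      have : 0 ≤ H₁ := by linarith
      positivity
    linarith
  · have e1 := g₂ q hq hdq (u₂ ▸ hev)
    have e2 : s ^ 2 * H₁ ≤ 8 * H₂ := by linarith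
    have e3 := mul_le_mul_of_nonneg_left e2 hη.le
    linarith

end Pool.Agent.E6b
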