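import Pool.Agent.E6b.FDefs0

open scoped NNReal TensorProduct IntermediateField BigOperators Classical Topology
open Filter

namespace Pool.Agent.E6b

theorem F0_finite_of_range {A B L : Type} [CommRing A] [CommRing B] [CommRing L] [Algebra A L]
    [Algebra B L] [Module.Finite A L] (h : ∀ a : A, ∃ b : B, algebraMap B L b = algebraMap A L a) :
    Module.Finite B L := by
  obtain ⟨S, hS⟩ := Module.Finite.fg_top (R := A) (M := L)
  refine ⟨⟨S, ?_⟩⟩
  rw [eq_top_iff]
  intro x _
  have hx : x ∈ Submodule.span A (S : Set L) := hS ▸ Submodule.mem_top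
  induction hx using Submodule.span_induction with
  | mem y hy => exact Submodule.subset_span hy
  | zero => exact Submodule.zero_mem _
  | add y z _ _ hy hz => exact Submodule.add_mem _ (hy trivial) (hz trivial)
  | smul a y _ hy =>
    obtain ⟨b, hb⟩ := h a
    have : a • y = b • y := by rw [Algebra.smul_def, Algebra.smul_def, hb]
    rw [this]
    exact Submodule.smul_mem _ _ (hy trivial)

theorem F0_mem_of_integral {A L : Type} [CommRing A] [Field L] [Algebra A L]
    (O : ValuationSubring L) (h : ∀ a : A, algebraMap A L a ∈ O) {x : L} (hx : IsIntegral A x) :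
    x ∈ O := by
  let φ : A →+* O := (algebraMap A L).codRestrict O h
  have h1 : IsIntegral O x := by
    have := IsIntegral.map_of_comp_eq φ (RingHom.id L) (by ext a; rfl) hx
    simpa using this
  obtain ⟨y, hy⟩ := IsIntegrallyClosed.algebraMap_eq_of_integral h1
  rw [← hy]
  exact y.2

section
variable {κ F : Type} [Field κ] [Field F] [Algebra κ F] {P : Place κ F} {v : F → ℤ}

theorem F0_one (hv : OrdSpec P v) : v 1 = 0 := by
  have := hv.mul 1 1 one_ne_zero one_ne_zero
  rw [mul_one] at this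
  omega

theorem F0_inv (hv : OrdSpec P v) {f : F} (hf : f ≠ 0) : v f⁻¹ = - v f := by
  have := hv.mul f f⁻¹ hf (inv_ne_zero hf)
  rw [mul_inv_cancel₀ hf, F0_one hv] at this
  omega

theorem F0_zpow (hv : OrdSpec P v) {f : F} (hf : f ≠ 0) (n : ℤ) : v (f ^ n) = n * v f := by
  induction n using Int.induction_on with
  | zero => simp [F0_one hv]
  | succ n ih => rw [zpow_add_one₀ hf, hv.mul _ _ (zpow_ne_zero _ hf) hf, ih]; ring
  | pred n ih =>
    rw [zpow_sub_one₀ hf, hv.mul _ _ (zpow_ne_zero _ hf) (inv_ne_zero hf), ih, F0_inv hv hf]; ring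

end

variable {κ F F' : Type} [Field κ] [IsAlgClosed κ] [CharZero κ] [Field F] [Algebra κ F] [IsFF κ F]
  [Field F'] [Algebra κ F'] [IsFF κ F']

omit [IsAlgClosed κ] [CharZero κ] in
theorem F0_finiteDimensional {t : F} (ht : Transcendental κ t) :
    FiniteDimensional κ⟮t⟯ F := by
  obtain ⟨s, hs, hfin⟩ := IsFF.ex (κ := κ) (F := F)
  have h1 : IsAlgebraic κ⟮s⟯ t := Algebra.IsAlgebraic.isAlgebraic t
  have h2 : IsAlgebraic κ⟮t⟯ s :=
    IntermediateField.isAlgebraic_adjoin_iff.mpr (IsAlgebraic.adjoin_singleton hs ht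
      (IntermediateField.isAlgebraic_adjoin_iff.mp h1))
  have h3 : FiniteDimensional κ⟮t⟯ κ⟮t⟯⟮s⟯ :=
    IntermediateField.adjoin.finiteDimensional h2.isIntegral
  have h4 : Module.Finite κ⟮t⟯⟮s⟯ F := by
    refine F0_finite_of_range (A := κ⟮s⟯) fun a => ?_
    have hle : κ⟮s⟯ ≤ (κ⟮t⟯⟮s⟯).restrictScalars κ := by
      rw [IntermediateField.adjoin_le_iff]
      intro x hx
      rw [Set.mem_singleton_iff.1 hx]
      exact IntermediateField.mem_adjoin_simple_self κ⟮t⟯ s
    exact ⟨⟨a.1, hle a.2⟩, rfl⟩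
  exact Module.Finite.trans κ⟮t⟯⟮s⟯ F

omit [CharZero κ] [IsFF κ F] in
theorem F0_transcendental {t : F} (ht : t ∉ (algebraMap κ F).range) : Transcendental κ t := by
  intro h
  have hi := h.isIntegral
  exact ht (minpoly.mem_range_of_degree_eq_one κ t
    (IsAlgClosed.degree_eq_one_of_irreducible κ (minpoly.irreducible hi)))

open scoped IntermediateField.algebraAdjoinAdjoin in
omit [IsAlgClosed κ] in
theorem F0_exists_of_mem (P : Place κ F) {t : F} (ht : Transcendental κ t) (htO : t ∈ P.O) :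
    ∃ v, OrdSpec P v := by
  have hfin : FiniteDimensional κ⟮t⟯ F := F0_finiteDimensional ht
  have hpid : IsPrincipalIdealRing (Algebra.adjoin κ {t}) :=
    IsPrincipalIdealRing.of_surjective (Polynomial.algEquivOfTranscendental κ t ht).toRingHom
      (Polynomial.algEquivOfTranscendental κ t ht).surjective
  have hchar : CharZero κ⟮t⟯ := charZero_of_injective_algebraMap (algebraMap κ κ⟮t⟯).injective
  have hsep : Algebra.IsSeparable κ⟮t⟯ F := inferInstance
  have hded : IsDedekindDomain (integralClosure (Algebra.adjoin κ {t}) F) :=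
    integralClosure.isDedekindDomain (Algebra.adjoin κ {t}) κ⟮t⟯ F
  have hfr : IsFractionRing (integralClosure (Algebra.adjoin κ {t}) F) F :=
    integralClosure.isFractionRing_of_finite_extension κ⟮t⟯ F
  have hA : ∀ a : Algebra.adjoin κ {t}, algebraMap _ F a ∈ P.O := by
    intro a
    have hle : Algebra.adjoin κ {t} ≤
        { P.O.toSubring.toSubsemiring with algebraMap_mem' := P.const } := by
      rw [Algebra.adjoin_le_iff]
      intro x hx
      rw [Set.mem_singleton_iff.1 hx]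
      exact htO
    exact hle a.2
  have hB : ∀ b : integralClosure (Algebra.adjoin κ {t}) F, algebraMap _ F b ∈ P.O :=
    fun b => F0_mem_of_integral P.O hA b.2
  generalize integralClosure (Algebra.adjoin κ {t}) F = B at hded hfr hB
  let φ : B →+* P.O := (algebraMap B F).codRestrict P.O hB
  have hunit : ∀ d : B, d ∉ (IsLocalRing.maximalIdeal P.O).comap φ → (algebraMap B F d)⁻¹ ∈ P.O := by
    intro d hd
    rw [Ideal.mem_comap, IsLocalRing.mem_maximalIdeal, mem_nonunits_iff, not_not] at hd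
    obtain ⟨u, hu⟩ := hd.exists_right_inv
    have h1 : algebraMap B F d * (u : F) = 1 := congrArg Subtype.val hu
    rw [inv_eq_of_mul_eq_one_right h1]
    exact u.2
  have hne : (IsLocalRing.maximalIdeal P.O).comap φ ≠ ⊥ := by
    intro h0
    apply P.ne_top
    rw [eq_top_iff]
    intro x _
    obtain ⟨a, b, hb, rfl⟩ := IsFractionRing.div_surjective B x
    rw [div_eq_mul_inv]
    refine P.O.mul_mem _ _ (hB a) (hunit b ?_)
    rw [h0, Ideal.mem_bot]
    exact nonZeroDivisors.ne_zero hb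
  let p : IsDedekindDomain.HeightOneSpectrum B :=
    ⟨(IsLocalRing.maximalIdeal P.O).comap φ, Ideal.comap_isPrime _ _, hne⟩
  have hle : ∀ x : F, p.valuation F x ≤ 1 → x ∈ P.O := by
    intro x hx
    obtain ⟨n, d, hnd⟩ := p.exists_primeCompl_mul_eq_of_integer x hx
    have hd := hunit d d.2
    have hd0 : algebraMap B F d ≠ 0 := by
      intro h0
      have : (d : B) = 0 := IsFractionRing.injective B F (by rw [h0, map_zero])
      exact d.2 (this ▸ p.asIdeal.zero_mem)
    rw [(eq_mul_inv_iff_mul_eq₀ hd0).2 hnd]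
    exact P.O.mul_mem _ _ (hB n) hd
  obtain ⟨π, hπ⟩ := p.valuation_exists_uniformizer F
  have hπ0 : π ≠ 0 := by
    intro h
    rw [h, map_zero] at hπ
    exact WithZero.exp_ne_zero hπ.symm
  have hv0 : ∀ x : F, x ≠ 0 → p.valuation F x ≠ 0 := fun x hx => (Valuation.ne_zero_iff _).2 hx
  have hge : ∀ x ∈ P.O, p.valuation F x ≤ 1 := by
    intro x hx
    by_contra hc
    rw [not_le] at hc
    have hx0 : x ≠ 0 := by
      rintro rfl
      simp at hc
    apply P.ne_top
    rw [eq_top_iff]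
    intro y _
    by_cases hy0 : y = 0
    · rw [hy0]; exact P.O.zero_mem
    have hl : 0 < WithZero.log (p.valuation F x) := by
      rw [← WithZero.log_one (M := ℤ), WithZero.log_lt_log one_ne_zero (hv0 x hx0)]
      exact hc
    obtain ⟨n, hn⟩ : ∃ n : ℕ, WithZero.log (p.valuation F y) ≤ n :=
      ⟨(WithZero.log (p.valuation F y)).toNat, Int.self_le_toNat _⟩
    have h1 : p.valuation F (y / x ^ n) ≤ 1 := by
      rw [← WithZero.log_le_log (hv0 _ (div_ne_zero hy0 (pow_ne_zero _ hx0))) one_ne_zero,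
        map_div₀, map_pow, WithZero.log_div (hv0 y hy0) (pow_ne_zero _ (hv0 x hx0)),
        WithZero.log_pow, WithZero.log_one, nsmul_eq_mul]
      nlinarith
    have h2 : y = y / x ^ n * x ^ n := by field_simp
    rw [h2]
    exact P.O.mul_mem _ _ (hle _ h1) (pow_mem hx n)
  refine ⟨fun f => - WithZero.log (p.valuation F f), ⟨by simp, fun f g hf hg => ?_,
    fun f hf => ?_, π, hπ0, ?_⟩⟩
  · rw [map_mul, WithZero.log_mul (hv0 f hf) (hv0 g hg)]
    ring
  · rw [neg_nonneg, ← WithZero.log_one (M := ℤ), WithZero.log_le_log (hv0 f hf) one_ne_zero]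
    exact ⟨hge f, hle f⟩
  · simp [hπ]

theorem exists_ordSpec (P : Place κ F) : ∃ v, OrdSpec P v := by
  obtain ⟨t, ht, -⟩ := IsFF.ex (κ := κ) (F := F)
  rcases P.O.mem_or_inv_mem t with h | h
  · exact F0_exists_of_mem P ht h
  · exact F0_exists_of_mem P (fun h' => ht (IsAlgebraic.inv_iff.1 h')) h

theorem F0_spec (P : Place κ F) : OrdSpec P P.ord := by
  have h := exists_ordSpec P
  unfold Place.ord
  rw [dif_pos h]
  exact h.choose_spec

omit [IsAlgClosed κ] [CharZero κ] [IsFF κ F] in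
theorem OrdSpec.unique {P : Place κ F} {v w : F → ℤ} (hv : OrdSpec P v) (hw : OrdSpec P w) :
    v = w := by
  obtain ⟨π, hπ0, hπ⟩ := hv.unif
  have key : ∀ f, f ≠ 0 → w f = v f * w π := by
    intro f hf
    have hu : f * π ^ (- v f) ≠ 0 := mul_ne_zero hf (zpow_ne_zero _ hπ0)
    have h1 : v (f * π ^ (- v f)) = 0 := by
      rw [hv.mul _ _ hf (zpow_ne_zero _ hπ0), F0_zpow hv hπ0, hπ]; ring
    have h2 := (hw.mem _ hu).1 ((hv.mem _ hu).2 h1.ge)
    have h3 := (hw.mem _ (inv_ne_zero hu)).1 ((hv.mem _ (inv_ne_zero hu)).2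
      (by rw [F0_inv hv hu, h1]; rfl))
    rw [F0_inv hw hu] at h3
    have h4 : w (f * π ^ (- v f)) = 0 := by omega
    rw [hw.mul _ _ hf (zpow_ne_zero _ hπ0), F0_zpow hw hπ0] at h4
    linarith
  obtain ⟨ρ, hρ0, hρ⟩ := hw.unif
  have h5 : 0 ≤ w π := (hw.mem _ hπ0).1 ((hv.mem _ hπ0).2 (by omega))
  have h6 : w π = 1 := by
    have h7 := key ρ hρ0
    rw [hρ] at h7
    exact Int.eq_one_of_mul_eq_one_left h5 h7.symm
  funext f
  by_cases hf : f = 0
  · rw [hf, hv.zero, hw.zero]
  · rw [key f hf, h6, mul_one]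

theorem Place.ord_add_ge (P : Place κ F) {f g : F} (hf : f ≠ 0) (hg : g ≠ 0) (h : f + g ≠ 0) :
    min (P.ord f) (P.ord g) ≤ P.ord (f + g) := by
  have hv := F0_spec P
  have key : ∀ f g : F, f ≠ 0 → g ≠ 0 → f + g ≠ 0 → P.ord f ≤ P.ord g → P.ord f ≤ P.ord (f + g) := by
    intro f g hf hg h hle
    have h1 : g * f⁻¹ ∈ P.O := by
      rw [hv.mem _ (mul_ne_zero hg (inv_ne_zero hf)), hv.mul _ _ hg (inv_ne_zero hf), F0_inv hv hf]
      omega
    have h2 : (f + g) * f⁻¹ ∈ P.O := by
      rw [add_mul, mul_inv_cancel₀ hf]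
      exact P.O.add_mem _ _ P.O.one_mem h1
    rw [hv.mem _ (mul_ne_zero h (inv_ne_zero hf)), hv.mul _ _ h (inv_ne_zero hf),
      F0_inv hv hf] at h2
    omega
  rcases le_total (P.ord f) (P.ord g) with hle | hle
  · exact (min_le_left _ _).trans (key f g hf hg h hle)
  · rw [add_comm] at h ⊢
    exact (min_le_right _ _).trans (key g f hg hf h hle)

theorem Place.ord_algebraMap (P : Place κ F) (c : κ) : P.ord (algebraMap κ F c) = 0 := by
  have hv := F0_spec P
  by_cases hc : c = 0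
  · rw [hc, map_zero, hv.zero]
  have h0 : algebraMap κ F c ≠ 0 := (map_ne_zero _).2 hc
  have h1 := (hv.mem _ h0).1 (P.const c)
  have h2 := (hv.mem _ (inv_ne_zero h0)).1 (by rw [← map_inv₀]; exact P.const _)
  rw [F0_inv hv h0] at h2
  omega

theorem Place.ord_mul (P : Place κ F) {f g : F} (hf : f ≠ 0) (hg : g ≠ 0) :
    P.ord (f * g) = P.ord f + P.ord g := (F0_spec P).mul f g hf hg

theorem FHom.finite (φ : FHom κ F F') : FiniteDimensional φ.f.fieldRange F' := by
  obtain ⟨t, ht, -⟩ := IsFF.ex (κ := κ) (F := F)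
  have h1 : φ.f t ∉ (algebraMap κ F').range := by
    rintro ⟨c, hc⟩
    obtain ⟨x, rfl⟩ := φ.c.surjective c
    rw [← φ.comm] at hc
    exact ht (φ.f.injective hc ▸ isAlgebraic_algebraMap x)
  have h2 : FiniteDimensional κ⟮φ.f t⟯ F' := F0_finiteDimensional (F0_transcendental h1)
  refine F0_finite_of_range (A := κ⟮φ.f t⟯) fun a => ?_
  have hle : κ⟮φ.f t⟯ ≤ φ.f.fieldRange.toIntermediateField (fun c => by
      obtain ⟨x, rfl⟩ := φ.c.surjective c
      exact ⟨_, φ.comm x⟩) := by
    rw [IntermediateField.adjoin_le_iff]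
    intro x hx
    rw [Set.mem_singleton_iff.1 hx]
    exact ⟨t, rfl⟩
  exact ⟨⟨a.1, hle a.2⟩, rfl⟩

theorem FHom.comap_ne_top (φ : FHom κ F F') (R : Place κ F') : R.O.comap φ.f ≠ ⊤ := by
  intro h
  have hfin := φ.finite
  apply R.ne_top
  rw [eq_top_iff]
  intro x _
  refine F0_mem_of_integral (A := φ.f.fieldRange) R.O ?_ (Algebra.IsIntegral.isIntegral x)
  rintro ⟨a, y, rfl⟩
  have hy : y ∈ R.O.comap φ.f := h ▸ ValuationSubring.mem_top y
  exact hy

theorem finiteDimensional_of_transcendental {t : F} (ht : Transcendental κ t) :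
    FiniteDimensional κ⟮t⟯ F := F0_finiteDimensional ht

theorem transcendental_of_notMem {t : F} (ht : t ∉ (algebraMap κ F).range) :
    Transcendental κ t := F0_transcendental ht

theorem isFF_intermediateField (K : IntermediateField κ F) (hK : K ≠ ⊥) : IsFF κ K := by
  obtain ⟨s, hsK, hs⟩ := SetLike.exists_of_lt (bot_lt_iff_ne_bot.2 hK)
  have hs' : s ∉ (algebraMap κ F).range := fun h => hs (IntermediateField.mem_bot.2 h)
  have ht := F0_transcendental hs'
  have h1 := F0_finiteDimensional ht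
  refine ⟨⟨⟨s, hsK⟩, (transcendental_algebraMap_iff (algebraMap K F).injective).1 ht, ?_⟩⟩
  have h2 : Module.Finite κ⟮(⟨s, hsK⟩ : K)⟯ F := by
    refine F0_finite_of_range (A := κ⟮s⟯) fun a => ?_
    have h3 : κ⟮s⟯ = (κ⟮(⟨s, hsK⟩ : K)⟯).map K.val := by
      rw [IntermediateField.adjoin_map]
      simp
    obtain ⟨b, hb, hab⟩ : a.1 ∈ (κ⟮(⟨s, hsK⟩ : K)⟯).map K.val := h3 ▸ a.2
    exact ⟨⟨b, hb⟩, hab⟩
  exact Module.Finite.left _ K F

theorem isFF_of_finite {K : Type} [Field K] [Algebra κ K] [Algebra F K] [IsScalarTower κ F K]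
    [FiniteDimensional F K] : IsFF κ K := by
  obtain ⟨t, ht, hfin⟩ := IsFF.ex (κ := κ) (F := F)
  refine ⟨⟨algebraMap F K t, (transcendental_algebraMap_iff (algebraMap F K).injective).2 ht, ?_⟩⟩
  have h1 : Module.Finite κ⟮t⟯ K := Module.Finite.trans F K
  refine F0_finite_of_range (A := κ⟮t⟯) fun a => ?_
  have h3 : κ⟮algebraMap F K t⟯ = (κ⟮t⟯).map (IsScalarTower.toAlgHom κ F K) := by
    rw [IntermediateField.adjoin_map]
    simp
  have h4 : algebraMap F K a.1 ∈ κ⟮algebraMap F K t⟯ := h3 ▸ ⟨a.1, a.2, rfl⟩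
  exact ⟨⟨_, h4⟩, rfl⟩

instance instIsFFRatFunc : IsFF κ (RatFunc κ) := by
  refine ⟨⟨RatFunc.X, RatFunc.transcendental_X, ?_⟩⟩
  refine F0_finite_of_range (A := RatFunc κ) fun a => ?_
  have h : a ∈ κ⟮(RatFunc.X : RatFunc κ)⟯ := by
    rw [RatFunc.adjoin_X]
    exact IntermediateField.mem_top
  exact ⟨⟨a, h⟩, rfl⟩

end Pool.Agent.E6b
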