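import Pool.Agent.E6b.F1a

open scoped NNReal TensorProduct IntermediateField BigOperators Classical Topology
open Filter

namespace Pool.Agent.E6b

variable {κ F : Type} [Field κ] [IsAlgClosed κ] [CharZero κ] [Field F] [Algebra κ F] [IsFF κ F]

omit [IsAlgClosed κ] [CharZero κ] [IsFF κ F] in
theorem F1_aeval_mem (P : Place κ F) {t : F} (ht : t ∈ P.O) (p : Polynomial κ) :
    Polynomial.aeval t p ∈ P.O := by
  induction p using Polynomial.induction_on' with
  | add p q hp hq => rw [map_add]; exact add_mem hp hq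
  | monomial n c => rw [Polynomial.aeval_monomial]; exact mul_mem (P.const c) (pow_mem ht n)

theorem F1_ord_aeval {t : F} (p : Polynomial κ) (hp : Polynomial.aeval t p ≠ 0) :
    ∃ m : ℤ, ∀ P : Place κ F, 0 < P.ord t → P.ord (Polynomial.aeval t p) = m * P.ord t := by
  have hp0 : p ≠ 0 := by rintro rfl; simp at hp
  obtain ⟨q, hq, hd⟩ := Polynomial.exists_eq_pow_rootMultiplicity_mul_and_not_dvd p hp0 0
  set k := Polynomial.rootMultiplicity 0 p
  rw [map_zero, sub_zero] at hq hd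
  rw [Polynomial.X_dvd_iff] at hd
  refine ⟨k, fun P hP => ?_⟩
  have ht0 : t ≠ 0 := by rintro rfl; rw [P.ord_zero] at hP; exact lt_irrefl _ hP
  have htO : t ∈ P.O := P.mem_iff.2 hP.le
  have e : Polynomial.aeval t q =
      algebraMap κ F (q.coeff 0) + Polynomial.aeval t q.divX * t := by
    conv_lhs => rw [← Polynomial.divX_mul_X_add q]
    rw [map_add, map_mul, Polynomial.aeval_X, Polynomial.aeval_C, add_comm]
  have hc : algebraMap κ F (q.coeff 0) ≠ 0 := by simpa using hd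
  have h1 := P.ord_add_eq (g := Polynomial.aeval t q.divX * t) hc (by
    by_cases h : Polynomial.aeval t q.divX = 0
    · left; rw [h, zero_mul]
    · right
      rw [P.ord_algebraMap, P.ord_mul h ht0]
      have := P.mem_iff.1 (F1_aeval_mem P htO q.divX)
      omega)
  rw [← e, P.ord_algebraMap] at h1
  rw [hq, map_mul, map_pow, Polynomial.aeval_X, P.ord_mul (pow_ne_zero _ ht0) h1.1, h1.2,
    P.ord_pow, add_zero]

theorem F1_ord_adjoin {t a : F} (ha : a ∈ κ⟮t⟯) (ha0 : a ≠ 0) :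
    ∃ m : ℤ, ∀ P : Place κ F, 0 < P.ord t → P.ord a = m * P.ord t := by
  obtain ⟨r, s, rfl⟩ := (IntermediateField.mem_adjoin_simple_iff κ a).1 ha
  have hr : Polynomial.aeval t r ≠ 0 := fun h => ha0 (by rw [h, zero_div])
  have hs : Polynomial.aeval t s ≠ 0 := fun h => ha0 (by rw [h, div_zero])
  obtain ⟨m, hm⟩ := F1_ord_aeval r hr
  obtain ⟨n, hn⟩ := F1_ord_aeval s hs
  exact ⟨m - n, fun P hP => by rw [P.ord_div hr hs, hm P hP, hn P hP]; ring⟩

theorem F1_sum_ne_zero (P : Place κ F) {ι : Type*} (s : Finset ι) (f : ι → F) {i₀ : ι}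
    (hi : i₀ ∈ s) (h0 : f i₀ ≠ 0)
    (h : ∀ i ∈ s, i ≠ i₀ → f i = 0 ∨ P.ord (f i₀) < P.ord (f i)) :
    ∑ i ∈ s, f i ≠ 0 ∧ P.ord (∑ i ∈ s, f i) = P.ord (f i₀) := by
  rw [← Finset.add_sum_erase s f hi]
  refine P.ord_add_eq h0 ?_
  have := P.le_ord_sum (s.erase i₀) f (n := P.ord (f i₀) + 1) (fun i hi => by
    rcases h i (Finset.mem_of_mem_erase hi) (Finset.ne_of_mem_erase hi) with h | h
    · exact Or.inl h
    · exact Or.inr (by omega))
  rcases this with h | h
  · exact Or.inl h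
  · exact Or.inr (by omega)

/-- The zeros of a non-constant function, counted with multiplicity, are at most the degree. -/
theorem F1_sum_ord_le {t : F} (ht : t ∉ (algebraMap κ F).range) (S : Finset (Place κ F))
    (hS : ∀ P ∈ S, 0 < P.ord t) : ∑ P ∈ S, P.ord t ≤ Module.finrank κ⟮t⟯ F := by
  have := finiteDimensional_of_transcendental (transcendental_of_notMem ht)
  set T : Finset (Σ _ : Place κ F, ℕ) := S.sigma fun P => Finset.range (P.ord t).toNat with hT
  have hTm : ∀ x ∈ T, x.1 ∈ S ∧ (x.2 : ℤ) < x.1.ord t := by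
    intro x hx
    rw [hT, Finset.mem_sigma, Finset.mem_range] at hx
    exact ⟨hx.1, by have := hx.2; omega⟩
  choose y hy0 hy using fun x : (Σ _ : Place κ F, ℕ) =>
    weak_approx S (fun Q => if Q = x.1 then (x.2 : ℤ) else Q.ord t)
  have hli : LinearIndependent κ⟮t⟯ (fun x : T => y x.1) := by
    rw [Fintype.linearIndependent_iff]
    intro g hg
    by_contra hne
    push Not at hne
    have hm : ∀ x : T, ∃ m : ℤ, g x ≠ 0 → ∀ P : Place κ F, 0 < P.ord t →
        P.ord (g x : F) = m * P.ord t := by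
      intro x
      by_cases h : g x = 0
      · exact ⟨0, fun h' => absurd h h'⟩
      · obtain ⟨m, hm⟩ := F1_ord_adjoin (g x).2 (fun h' => h (Subtype.ext h'))
        exact ⟨m, fun _ => hm⟩
    choose m hm using hm
    obtain ⟨x₁, hx₁, hmin₁⟩ := Finset.exists_min_image (Finset.univ.filter fun x => g x ≠ 0) m
      (by obtain ⟨x, hx⟩ := hne; exact ⟨x, by simpa using hx⟩)
    obtain ⟨x₀, hx₀, hmin₀⟩ := Finset.exists_min_image
      (Finset.univ.filter fun x => g x ≠ 0 ∧ m x = m x₁) (fun x => x.1.2)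
      ⟨x₁, by simpa using hx₁⟩
    simp only [Finset.mem_filter, Finset.mem_univ, true_and] at hx₁ hmin₁ hx₀ hmin₀
    set P := x₀.1.1 with hP
    have hPS : P ∈ S := (hTm _ x₀.2).1
    have he : 0 < P.ord t := hS P hPS
    have hk₀ : (x₀.1.2 : ℤ) < P.ord t := (hTm _ x₀.2).2
    have hord : ∀ x : T, g x ≠ 0 → g x • y x.1 ≠ 0 ∧ P.ord (g x • y x.1) =
        m x * P.ord t + if P = x.1.1 then (x.1.2 : ℤ) else P.ord t := by
      intro x hx
      have hx' : (g x : F) ≠ 0 := fun h => hx (Subtype.ext h)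
      have e : g x • y x.1 = (g x : F) * y x.1 := rfl
      rw [e]
      exact ⟨mul_ne_zero hx' (hy0 _), by rw [P.ord_mul hx' (hy0 _), hm x hx P he, hy _ P hPS]⟩
    refine (F1_sum_ne_zero P Finset.univ (fun x : T => g x • y x.1) (Finset.mem_univ x₀)
      (hord x₀ hx₀.1).1 ?_).1 hg
    intro x _ hx
    by_cases h : g x = 0
    · left; rw [h, zero_smul]
    right
    rw [(hord x₀ hx₀.1).2, (hord x h).2, if_pos rfl]
    have h1 : m x₀ ≤ m x := by rw [hx₀.2]; exact hmin₁ x h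
    have h2 : m x₀ * P.ord t ≤ m x * P.ord t := mul_le_mul_of_nonneg_right h1 he.le
    split_ifs with h3
    · rcases h1.eq_or_lt with h4 | h4
      · have h5 := hmin₀ x ⟨h, by rw [← h4, hx₀.2]⟩
        have h6 : x₀.1.2 ≠ x.1.2 := fun h6 =>
          hx (Subtype.ext (Sigma.ext h3 (heq_of_eq h6))).symm
        rw [h4]
        omega
      · have h5 : (m x₀ + 1) * P.ord t ≤ m x * P.ord t :=
          mul_le_mul_of_nonneg_right (by omega) he.le
        have h6 : (0 : ℤ) ≤ (x.1.2 : ℤ) := Int.natCast_nonneg _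
        nlinarith
    · omega
  have hc := hli.fintype_card_le_finrank
  rw [Fintype.card_coe, hT, Finset.card_sigma] at hc
  calc ∑ P ∈ S, P.ord t = ((∑ P ∈ S, (Finset.range (P.ord t).toNat).card : ℕ) : ℤ) := by
        push_cast
        refine Finset.sum_congr rfl fun P hP => ?_
        rw [Finset.card_range, Int.toNat_of_nonneg (hS P hP).le]
    _ ≤ _ := by exact_mod_cast hc

theorem F1_finite_zeros (t : F) : {P : Place κ F | 0 < P.ord t}.Finite := by
  by_cases ht : t ∈ (algebraMap κ F).range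
  · obtain ⟨c, rfl⟩ := ht
    simp [Place.ord_algebraMap]
  by_contra hinf
  obtain ⟨S, hS, hc⟩ := Set.Infinite.exists_subset_card_eq hinf (Module.finrank κ⟮t⟯ F + 1)
  have h1 := F1_sum_ord_le ht S (fun P hP => hS hP)
  have h2 : ∑ _P ∈ S, (1 : ℤ) ≤ ∑ P ∈ S, P.ord t :=
    Finset.sum_le_sum fun P hP => (hS hP : 0 < P.ord t)
  rw [Finset.sum_const, hc] at h2
  simp only [nsmul_eq_mul, mul_one] at h2
  push_cast at h2
  omega

theorem F1_finite_support (f : F) : (Function.support fun P : Place κ F => P.ord f).Finite := by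
  refine ((F1_finite_zeros (κ := κ) f).union (F1_finite_zeros (κ := κ) f⁻¹)).subset ?_
  intro P hP
  simp only [Function.mem_support] at hP
  simp only [Set.mem_union, Set.mem_ofPred_eq, P.ord_inv]
  omega

theorem dv_apply (f : F) (P : Place κ F) : dv κ f P = P.ord f := by
  unfold dv
  rw [dif_pos (F1_finite_support f)]
  rfl
theorem dinf_apply (f : F) (P : Place κ F) : dinf κ f P = max (- P.ord f) 0 := by
  unfold dinf
  rw [Finsupp.mapRange_apply, dv_apply]
theorem dv_mul {f g : F} (hf : f ≠ 0) (hg : g ≠ 0) : dv κ (f * g) = dv κ f + dv κ g := by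
  ext P
  rw [Finsupp.add_apply, dv_apply, dv_apply, dv_apply, P.ord_mul hf hg]
theorem dv_inv (f : F) : dv κ f⁻¹ = - dv κ f := by
  ext P
  rw [Finsupp.neg_apply, dv_apply, dv_apply, P.ord_inv]
theorem dv_div {f g : F} (hf : f ≠ 0) (hg : g ≠ 0) : dv κ (f / g) = dv κ f - dv κ g := by
  ext P
  rw [Finsupp.sub_apply, dv_apply, dv_apply, dv_apply, P.ord_div hf hg]
theorem dv_zpow (f : F) (n : ℤ) : dv κ (f ^ n) = n • dv κ f := by
  ext P
  rw [Finsupp.smul_apply, dv_apply, dv_apply, P.ord_zpow, smul_eq_mul]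
theorem dv_algebraMap (c : κ) : dv κ (algebraMap κ F c) = 0 := by
  ext P
  rw [dv_apply, P.ord_algebraMap, Finsupp.zero_apply]
theorem dv_prod {ι : Type*} (s : Finset ι) (f : ι → F) (hf : ∀ i ∈ s, f i ≠ 0) :
    dv κ (∏ i ∈ s, f i) = ∑ i ∈ s, dv κ (f i) := by
  ext P
  rw [dv_apply, P.ord_prod s f hf, Finsupp.finsetSum_apply]
  exact Finset.sum_congr rfl fun i _ => (dv_apply _ _).symm

theorem F1_dv_one : dv κ (1 : F) = 0 := by
  have := dv_algebraMap (F := F) (1 : κ)
  rwa [map_one] at this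

/-- the degree as an additive homomorphism -/
noncomputable def F1_degHom (κ F : Type) [Field κ] [Field F] [Algebra κ F] : Dv κ F →+ ℤ :=
  Finsupp.liftAddHom fun _ => AddMonoidHom.id ℤ

omit [IsAlgClosed κ] [CharZero κ] [IsFF κ F] in
theorem F1_deg_eq (D : Dv κ F) : deg D = F1_degHom κ F D := rfl

omit [IsAlgClosed κ] [CharZero κ] [IsFF κ F] in
theorem deg_add (D E : Dv κ F) : deg (D + E) = deg D + deg E := by
  simp only [F1_deg_eq, map_add]
omit [IsAlgClosed κ] [CharZero κ] [IsFF κ F] in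
theorem deg_sub (D E : Dv κ F) : deg (D - E) = deg D - deg E := by
  simp only [F1_deg_eq, map_sub]
omit [IsAlgClosed κ] [CharZero κ] [IsFF κ F] in
theorem deg_neg (D : Dv κ F) : deg (-D) = - deg D := by
  simp only [F1_deg_eq, map_neg]
omit [IsAlgClosed κ] [CharZero κ] [IsFF κ F] in
theorem deg_zero : deg (0 : Dv κ F) = 0 := by
  simp only [F1_deg_eq, map_zero]
omit [IsAlgClosed κ] [CharZero κ] [IsFF κ F] in
theorem deg_zsmul (n : ℤ) (D : Dv κ F) : deg (n • D) = n * deg D := by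
  simp only [F1_deg_eq, map_zsmul, smul_eq_mul]
omit [IsAlgClosed κ] [CharZero κ] [IsFF κ F] in
theorem deg_nsmul (n : ℕ) (D : Dv κ F) : deg (n • D) = n * deg D := by
  simp only [F1_deg_eq, map_nsmul, nsmul_eq_mul]
omit [IsAlgClosed κ] [CharZero κ] [IsFF κ F] in
theorem deg_sum {ι : Type*} (s : Finset ι) (D : ι → Dv κ F) :
    deg (∑ i ∈ s, D i) = ∑ i ∈ s, deg (D i) := by
  simp only [F1_deg_eq, map_sum]
omit [IsAlgClosed κ] [CharZero κ] [IsFF κ F] in
theorem deg_single (P : Place κ F) (n : ℤ) : deg (Finsupp.single P n : Dv κ F) = n := by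
  unfold deg
  exact Finsupp.sum_single_index rfl
omit [IsAlgClosed κ] [CharZero κ] [IsFF κ F] in
theorem deg_pd (P : Place κ F) : deg (pd P) = 1 := deg_single P 1
omit [IsAlgClosed κ] [CharZero κ] [IsFF κ F] in
theorem deg_ind (S : Finset (Place κ F)) : deg (ind S) = S.card := by
  unfold ind
  rw [deg_sum]
  simp [deg_pd]
omit [IsAlgClosed κ] [CharZero κ] [IsFF κ F] in
theorem F1_pd_apply (P Q : Place κ F) : pd P Q = if P = Q then 1 else 0 := by
  unfold pd
  rw [Finsupp.single_apply]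
omit [IsAlgClosed κ] [CharZero κ] [IsFF κ F] in
theorem ind_apply (S : Finset (Place κ F)) (P : Place κ F) : ind S P = if P ∈ S then 1 else 0 := by
  unfold ind
  rw [Finsupp.finsetSum_apply]
  simp [F1_pd_apply]
omit [IsAlgClosed κ] [CharZero κ] [IsFF κ F] in
theorem F1_deg_nonneg {D : Dv κ F} (h : 0 ≤ D) : 0 ≤ deg D :=
  Finset.sum_nonneg fun P _ => h P
omit [IsAlgClosed κ] [CharZero κ] [IsFF κ F] in
theorem deg_mono {D E : Dv κ F} (h : D ≤ E) : deg D ≤ deg E := by
  have := F1_deg_nonneg (sub_nonneg.2 h)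
  rw [deg_sub] at this
  omega
omit [IsAlgClosed κ] [CharZero κ] [IsFF κ F] in
theorem card_support_le_deg {D : Dv κ F} (h : 0 ≤ D) : (D.support.card : ℤ) ≤ deg D := by
  have h2 : ∑ _P ∈ D.support, (1 : ℤ) ≤ ∑ P ∈ D.support, D P := by
    refine Finset.sum_le_sum fun P hP => ?_
    have h1 : 0 ≤ D P := h P
    have h3 := Finsupp.mem_support_iff.1 hP
    omega
  rw [Finset.sum_const] at h2
  simp only [nsmul_eq_mul, mul_one] at h2
  exact h2
omit [IsAlgClosed κ] [CharZero κ] [IsFF κ F] in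
theorem eq_of_le_of_deg_le {D E : Dv κ F} (h : D ≤ E) (h' : deg E ≤ deg D) : D = E := by
  have h1 := card_support_le_deg (sub_nonneg.2 h)
  rw [deg_sub] at h1
  have h2 : (E - D).support.card = 0 := by omega
  rw [Finset.card_eq_zero, Finsupp.support_eq_empty, sub_eq_zero] at h2
  exact h2.symm
omit [IsAlgClosed κ] [CharZero κ] [IsFF κ F] in
theorem exists_eq_sum_pd {D : Dv κ F} (h : 0 ≤ D) {n : ℕ} (hn : deg D = n) :
    ∃ P : Fin n → Place κ F, D = ∑ i, pd (P i) := by
  induction n generalizing D with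
  | zero =>
    refine ⟨Fin.elim0, ?_⟩
    rw [Finset.univ_eq_empty, Finset.sum_empty]
    exact (eq_of_le_of_deg_le h (by rw [hn, deg_zero]; simp)).symm
  | succ n ih =>
    have h0 : D ≠ 0 := by
      rintro rfl
      rw [deg_zero] at hn
      omega
    obtain ⟨Q, hQ⟩ := Finsupp.support_nonempty_iff.2 h0
    have h1 : 0 ≤ D - pd Q := by
      intro R
      have h2 : 0 ≤ D R := h R
      have h3 := Finsupp.mem_support_iff.1 hQ
      simp only [Finsupp.coe_zero, Pi.zero_apply, Finsupp.sub_apply, F1_pd_apply]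
      split_ifs with h4
      · subst h4; omega
      · omega
    obtain ⟨P, hP⟩ := ih h1 (by rw [deg_sub, deg_pd, hn]; push_cast; ring)
    refine ⟨Fin.cons Q P, ?_⟩
    rw [Fin.sum_univ_succ]
    simp only [Fin.cons_zero, Fin.cons_succ]
    rw [← hP]
    abel

theorem mem_LL {D : Dv κ F} {f : F} : f ∈ LL D ↔ f = 0 ∨ ∀ P : Place κ F, - D P ≤ P.ord f :=
  Iff.rfl
theorem mem_LL_iff {D : Dv κ F} {f : F} (hf : f ≠ 0) : f ∈ LL D ↔ 0 ≤ D + dv κ f := by
  rw [mem_LL, or_iff_right hf, Finsupp.le_def]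
  refine forall_congr' fun P => ?_
  rw [Finsupp.add_apply, dv_apply, Finsupp.zero_apply]
  omega
theorem LL_mono {D E : Dv κ F} (h : D ≤ E) : LL D ≤ LL E := by
  intro f hf
  rw [mem_LL] at hf ⊢
  refine hf.imp_right fun hf P => ?_
  have h1 : D P ≤ E P := h P
  have h2 := hf P
  omega
theorem mul_mem_LL {D E : Dv κ F} {f g : F} (hf : f ∈ LL D) (hg : g ∈ LL E) :
    f * g ∈ LL (D + E) := by
  by_cases hf0 : f = 0
  · rw [hf0, zero_mul]; exact zero_mem _
  by_cases hg0 : g = 0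
  · rw [hg0, mul_zero]; exact zero_mem _
  refine mem_LL.2 (Or.inr fun P => ?_)
  have h1 := (mem_LL.1 hf).resolve_left hf0 P
  have h2 := (mem_LL.1 hg).resolve_left hg0 P
  rw [P.ord_mul hf0 hg0, Finsupp.add_apply]
  omega
theorem mem_LL_dinf (f : F) : f ∈ LL (dinf κ f) := by
  refine mem_LL.2 (Or.inr fun P => ?_)
  rw [dinf_apply]
  omega

theorem LinEq.refl (D : Dv κ F) : LinEq D D := ⟨1, one_ne_zero, by rw [F1_dv_one, add_zero]⟩
theorem LinEq.symm {D E : Dv κ F} (h : LinEq D E) : LinEq E D := by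
  obtain ⟨f, hf, rfl⟩ := h
  exact ⟨f⁻¹, inv_ne_zero hf, by rw [dv_inv]; abel⟩
theorem LinEq.trans {D E G : Dv κ F} (h : LinEq D E) (h' : LinEq E G) : LinEq D G := by
  obtain ⟨f, hf, rfl⟩ := h
  obtain ⟨g, hg, rfl⟩ := h'
  exact ⟨f * g, mul_ne_zero hf hg, by rw [dv_mul hf hg]; abel⟩
theorem LinEq.add {D E D' E' : Dv κ F} (h : LinEq D E) (h' : LinEq D' E') :
    LinEq (D + D') (E + E') := by
  obtain ⟨f, hf, rfl⟩ := h
  obtain ⟨g, hg, rfl⟩ := h'
  exact ⟨f * g, mul_ne_zero hf hg, by rw [dv_mul hf hg]; abel⟩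
theorem LinEq.neg {D E : Dv κ F} (h : LinEq D E) : LinEq (-D) (-E) := by
  obtain ⟨f, hf, rfl⟩ := h
  exact ⟨f⁻¹, inv_ne_zero hf, by rw [dv_inv]; abel⟩
theorem LinEq.sub {D E D' E' : Dv κ F} (h : LinEq D E) (h' : LinEq D' E') :
    LinEq (D - D') (E - E') := by
  rw [sub_eq_add_neg, sub_eq_add_neg]
  exact h.add h'.neg
theorem LinEq.sum {ι : Type*} (s : Finset ι) {D E : ι → Dv κ F} (h : ∀ i ∈ s, LinEq (D i) (E i)) :
    LinEq (∑ i ∈ s, D i) (∑ i ∈ s, E i) := by
  induction s using Finset.induction_on with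
  | empty => simpa using LinEq.refl (0 : Dv κ F)
  | insert a s ha ih =>
    rw [Finset.sum_insert ha, Finset.sum_insert ha]
    exact (h a (Finset.mem_insert_self a s)).add
      (ih fun i hi => h i (Finset.mem_insert_of_mem hi))
theorem LinEq.bpf {D E : Dv κ F} (h : LinEq D E) (hD : BPF D) : BPF E := by
  obtain ⟨g, hg, rfl⟩ := h
  intro P
  obtain ⟨f, hf, h1, h2⟩ := hD P
  refine ⟨f / g, div_ne_zero hf hg, fun Q => ?_, ?_⟩
  · have := h1 Q
    rw [Q.ord_div hf hg, Finsupp.add_apply, dv_apply]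
    omega
  · rw [P.ord_div hf hg, Finsupp.add_apply, dv_apply]
    omega

end Pool.Agent.E6b
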