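import Pool.Agent.E6b.FDefs

open scoped NNReal TensorProduct IntermediateField BigOperators Classical Topology
open Filter

namespace Pool.Agent.E6b

variable {κ F : Type} [Field κ] [IsAlgClosed κ] [CharZero κ] [Field F] [Algebra κ F] [IsFF κ F]

theorem Place.ordSpec (P : Place κ F) : OrdSpec P P.ord := by
  have h := exists_ordSpec P
  unfold Place.ord
  rw [dif_pos h]
  exact h.choose_spec

theorem Place.ord_zero (P : Place κ F) : P.ord 0 = 0 := P.ordSpec.zero

theorem Place.ord_one (P : Place κ F) : P.ord 1 = 0 := by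
  have h := P.ord_mul (f := 1) (g := 1) one_ne_zero one_ne_zero
  rw [one_mul] at h
  omega

theorem Place.ord_neg (P : Place κ F) (f : F) : P.ord (-f) = P.ord f := by
  by_cases hf : f = 0
  · simp [hf]
  have h1 : P.ord (-1) = 0 := by
    have h := P.ord_mul (f := -1) (g := -1) (by simp) (by simp)
    rw [neg_mul_neg, one_mul, P.ord_one] at h
    omega
  have h := P.ord_mul (f := -1) (g := f) (by simp) hf
  rw [neg_one_mul, h1, zero_add] at h
  exact h

theorem Place.ord_inv (P : Place κ F) (f : F) : P.ord f⁻¹ = - P.ord f := by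
  by_cases hf : f = 0
  · simp [hf, P.ord_zero]
  have h := P.ord_mul hf (inv_ne_zero hf)
  rw [mul_inv_cancel₀ hf, P.ord_one] at h
  omega

theorem Place.ord_div (P : Place κ F) {f g : F} (hf : f ≠ 0) (hg : g ≠ 0) :
    P.ord (f / g) = P.ord f - P.ord g := by
  rw [div_eq_mul_inv, P.ord_mul hf (inv_ne_zero hg), P.ord_inv]
  ring

theorem Place.ord_pow (P : Place κ F) (f : F) (n : ℕ) : P.ord (f ^ n) = n * P.ord f := by
  by_cases hf : f = 0
  · rcases Nat.eq_zero_or_pos n with rfl | hn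
    · simp [P.ord_one]
    · rw [hf, zero_pow hn.ne', P.ord_zero, mul_zero]
  induction n with
  | zero => simp [P.ord_one]
  | succ n ih =>
    rw [pow_succ, P.ord_mul (pow_ne_zero _ hf) hf, ih]
    push_cast
    ring

theorem Place.ord_zpow (P : Place κ F) (f : F) (n : ℤ) : P.ord (f ^ n) = n * P.ord f := by
  obtain ⟨m, rfl | rfl⟩ := Int.eq_nat_or_neg n
  · rw [zpow_natCast, P.ord_pow]
  · rw [zpow_neg, zpow_natCast, P.ord_inv, P.ord_pow]
    ring

theorem Place.ord_smul (P : Place κ F) {c : κ} (hc : c ≠ 0) (f : F) : P.ord (c • f) = P.ord f := by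
  by_cases hf : f = 0
  · simp [hf]
  rw [Algebra.smul_def, P.ord_mul (by simpa using hc) hf, P.ord_algebraMap, zero_add]

theorem Place.ord_prod (P : Place κ F) {ι : Type*} (s : Finset ι) (f : ι → F)
    (hf : ∀ i ∈ s, f i ≠ 0) : P.ord (∏ i ∈ s, f i) = ∑ i ∈ s, P.ord (f i) := by
  induction s using Finset.induction_on with
  | empty => simp [P.ord_one]
  | insert a s ha ih =>
    rw [Finset.prod_insert ha, Finset.sum_insert ha,
      P.ord_mul (hf a (Finset.mem_insert_self a s))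
        (Finset.prod_ne_zero_iff.2 fun i hi => hf i (Finset.mem_insert_of_mem hi)),
      ih fun i hi => hf i (Finset.mem_insert_of_mem hi)]

theorem F1a_le_ord_add (P : Place κ F) {f g : F} {n : ℤ} (hf : f = 0 ∨ n ≤ P.ord f)
    (hg : g = 0 ∨ n ≤ P.ord g) : f + g = 0 ∨ n ≤ P.ord (f + g) := by
  by_cases h0 : f + g = 0
  · exact Or.inl h0
  by_cases hf0 : f = 0
  · simpa [hf0] using hg
  by_cases hg0 : g = 0
  · simpa [hg0] using hf
  exact Or.inr (le_trans (le_min (hf.resolve_left hf0) (hg.resolve_left hg0))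
    (P.ord_add_ge hf0 hg0 h0))

theorem Place.le_ord_sum (P : Place κ F) {ι : Type*} (s : Finset ι) (f : ι → F) {n : ℤ}
    (hf : ∀ i ∈ s, f i = 0 ∨ n ≤ P.ord (f i)) :
    ∑ i ∈ s, f i = 0 ∨ n ≤ P.ord (∑ i ∈ s, f i) := by
  induction s using Finset.induction_on with
  | empty => simp
  | insert a s ha ih =>
    rw [Finset.sum_insert ha]
    exact F1a_le_ord_add P (hf a (Finset.mem_insert_self a s))
      (ih fun i hi => hf i (Finset.mem_insert_of_mem hi))

theorem Place.ord_add_eq (P : Place κ F) {f g : F} (hf : f ≠ 0) (h : g = 0 ∨ P.ord f < P.ord g) :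
    f + g ≠ 0 ∧ P.ord (f + g) = P.ord f := by
  by_cases hg : g = 0
  · simpa [hg] using hf
  have hlt := h.resolve_left hg
  have h0 : f + g ≠ 0 := by
    intro h0
    have : g = -f := by linear_combination h0
    rw [this, P.ord_neg] at hlt
    exact lt_irrefl _ hlt
  refine ⟨h0, ?_⟩
  have h1 := P.ord_add_ge hf hg h0
  have h2 := P.ord_add_ge h0 (neg_ne_zero.2 hg) (by simpa using hf)
  rw [add_neg_cancel_right, P.ord_neg] at h2
  omega

theorem Place.mem_iff (P : Place κ F) {f : F} : f ∈ P.O ↔ 0 ≤ P.ord f := by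
  by_cases hf : f = 0
  · simp [hf, P.ord_zero]
  exact P.ordSpec.mem f hf

theorem Place.valuation_lt_one_iff (P : Place κ F) {f : F} :
    P.O.valuation f < 1 ↔ f = 0 ∨ 0 < P.ord f := by
  rw [← ValuationSubring.mem_nonunits_iff, ValuationSubring.mem_nonunits_iff_or, P.mem_iff,
    P.ord_inv]
  constructor
  · rintro (h | h)
    · exact Or.inl h
    · exact Or.inr (by omega)
  · rintro (h | h)
    · exact Or.inl h
    · exact Or.inr (by omega)

theorem Place.valuation_le_iff (P : Place κ F) {f g : F} (hf : f ≠ 0) (hg : g ≠ 0) :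
    P.O.valuation f ≤ P.O.valuation g ↔ P.ord g ≤ P.ord f := by
  have hv : 0 < P.O.valuation g := by
    rw [zero_lt_iff]
    simpa using hg
  rw [← div_le_one₀ hv, ← map_div₀, ValuationSubring.valuation_le_one_iff, P.mem_iff,
    P.ord_div hf hg]
  omega

theorem Place.exists_ord_eq (P : Place κ F) (n : ℤ) : ∃ f : F, f ≠ 0 ∧ P.ord f = n := by
  obtain ⟨π, hπ, h1⟩ := P.ordSpec.unif
  exact ⟨π ^ n, zpow_ne_zero _ hπ, by rw [P.ord_zpow, h1, mul_one]⟩

theorem F1a_isUnit_iff (P : Place κ F) {x : P.O} (hx : (x : F) ≠ 0) :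
    IsUnit x ↔ P.ord (x : F) = 0 := by
  constructor
  · intro hu
    obtain ⟨y, hy⟩ := hu.exists_right_inv
    have h1 : (x : F) * y = 1 := by exact_mod_cast congrArg (fun z : P.O => (z : F)) hy
    have hy0 : (y : F) ≠ 0 := right_ne_zero_of_mul_eq_one h1
    have h2 := P.ord_mul hx hy0
    rw [h1, P.ord_one] at h2
    have h3 := P.mem_iff.1 x.2
    have h4 := P.mem_iff.1 y.2
    omega
  · intro h
    have hm : (x : F)⁻¹ ∈ P.O := by
      rw [P.mem_iff, P.ord_inv, h]
      simp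
    exact IsUnit.of_mul_eq_one ⟨_, hm⟩ (Subtype.ext (mul_inv_cancel₀ hx))

theorem Place.isDVR (P : Place κ F) : IsDiscreteValuationRing P.O := by
  obtain ⟨π, hπ, h1⟩ := P.ordSpec.unif
  have hm : π ∈ P.O := P.mem_iff.2 (by omega)
  refine IsDiscreteValuationRing.ofHasUnitMulPowIrreducibleFactorization ⟨⟨π, hm⟩, ⟨?_, ?_⟩, ?_⟩
  · rw [F1a_isUnit_iff P (x := ⟨π, hm⟩) hπ]
    simp only
    omega
  · intro a b hab
    have h2 : π = (a : F) * b := congrArg (fun z : P.O => (z : F)) hab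
    have ha : (a : F) ≠ 0 := by
      intro h
      rw [h, zero_mul] at h2
      exact hπ h2
    have hb : (b : F) ≠ 0 := by
      intro h
      rw [h, mul_zero] at h2
      exact hπ h2
    have h3 := P.ord_mul ha hb
    rw [← h2, h1] at h3
    have h4 := P.mem_iff.1 a.2
    have h5 := P.mem_iff.1 b.2
    rw [F1a_isUnit_iff P ha, F1a_isUnit_iff P hb]
    omega
  · intro x hx
    have hx0 : (x : F) ≠ 0 := fun h => hx (Subtype.ext h)
    have h4 := P.mem_iff.1 x.2
    obtain ⟨n, hn⟩ := Int.eq_ofNat_of_zero_le h4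
    have hp : π ^ n ≠ 0 := pow_ne_zero _ hπ
    have ho : P.ord ((x : F) / π ^ n) = 0 := by
      rw [P.ord_div hx0 hp, P.ord_pow, h1, hn]
      ring
    have hmem : (x : F) / π ^ n ∈ P.O := P.mem_iff.2 ho.ge
    have hu : IsUnit (⟨_, hmem⟩ : P.O) :=
      (F1a_isUnit_iff P (x := ⟨_, hmem⟩) (div_ne_zero hx0 hp)).2 ho
    refine ⟨n, hu.unit, Subtype.ext ?_⟩
    simp only [IsUnit.unit_spec, MulMemClass.coe_mul, SubmonoidClass.coe_pow]
    field_simp

theorem Place.eq_of_le {P Q : Place κ F} (h : P.O ≤ Q.O) : P = Q := by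
  refine Place.ext (le_antisymm h fun f hf => ?_)
  by_contra hn
  have hlt : P.ord f < 0 := by
    rw [P.mem_iff] at hn
    omega
  have hf0 : f ≠ 0 := by
    rintro rfl
    rw [P.ord_zero] at hlt
    exact lt_irrefl _ hlt
  apply Q.ne_top
  refine top_unique fun g _ => ?_
  by_cases hg : g = 0
  · rw [hg]
    exact Q.O.zero_mem
  have hp : f ^ (P.ord g).natAbs ≠ 0 := pow_ne_zero _ hf0
  have h1 : g / f ^ (P.ord g).natAbs ∈ P.O := by
    rw [P.mem_iff, P.ord_div hg hp, P.ord_pow]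
    have h2 : -(P.ord g) ≤ ((P.ord g).natAbs : ℤ) := by omega
    have h3 : (0 : ℤ) ≤ ((P.ord g).natAbs : ℤ) := by omega
    nlinarith
  have h2 := Q.O.mul_mem _ _ (h h1) (pow_mem hf (P.ord g).natAbs)
  rwa [div_mul_cancel₀ _ hp] at h2

omit [IsAlgClosed κ] [CharZero κ] [Algebra κ F] [IsFF κ F] [Field κ] in
theorem F1a_mem_of_integral (O : ValuationSubring F) {R : Type} [CommRing R] [Algebra R F]
    (h : ∀ r, algebraMap R F r ∈ O) {x : F} (hx : IsIntegral R x) : x ∈ O := by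
  let _ : Algebra R O := ((algebraMap R F).codRestrict O h).toAlgebra
  have : IsScalarTower R O F := IsScalarTower.of_algebraMap_eq fun _ => rfl
  obtain ⟨y, hy⟩ := (IsIntegrallyClosed.isIntegral_iff (R := O) (K := F)).1 hx.tower_top
  rw [← hy]
  exact y.2

theorem F1a_aeval_unit (P : Place κ F) {f : F}
    (h : ∀ c : κ, f - algebraMap κ F c ≠ 0 ∧ P.ord (f - algebraMap κ F c) = 0)
    {s : Polynomial κ} (hs : s ≠ 0) :
    Polynomial.aeval f s ≠ 0 ∧ P.ord (Polynomial.aeval f s) = 0 := by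
  have key : ∀ m : Multiset κ,
      Polynomial.aeval f (m.map fun a => Polynomial.X - Polynomial.C a).prod ≠ 0 ∧
      P.ord (Polynomial.aeval f (m.map fun a => Polynomial.X - Polynomial.C a).prod) = 0 := by
    intro m
    induction m using Multiset.induction_on with
    | empty => simp [P.ord_one]
    | cons a m ih =>
      rw [Multiset.map_cons, Multiset.prod_cons, map_mul, map_sub, Polynomial.aeval_X,
        Polynomial.aeval_C]
      refine ⟨mul_ne_zero (h a).1 ih.1, ?_⟩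
      rw [P.ord_mul (h a).1 ih.1, (h a).2, ih.2, add_zero]
  have hl : algebraMap κ F s.leadingCoeff ≠ 0 := by simpa using hs
  rw [(IsAlgClosed.splits s).eq_prod_roots, map_mul, Polynomial.aeval_C]
  refine ⟨mul_ne_zero hl (key _).1, ?_⟩
  rw [P.ord_mul hl (key _).1, (key _).2, P.ord_algebraMap, add_zero]

theorem F1a_exists_ev (P : Place κ F) {f : F} (hf : f ∈ P.O) :
    ∃ c : κ, P.O.valuation (f - algebraMap κ F c) < 1 := by
  by_contra hn
  have h : ∀ c : κ, f - algebraMap κ F c ≠ 0 ∧ P.ord (f - algebraMap κ F c) = 0 := by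
    intro c
    have h1 : ¬ (f - algebraMap κ F c = 0 ∨ 0 < P.ord (f - algebraMap κ F c)) := fun h =>
      hn ⟨c, P.valuation_lt_one_iff.2 h⟩
    have h2 := P.mem_iff.1 (sub_mem hf (P.const c))
    exact ⟨fun h => h1 (Or.inl h), by
      by_contra h3
      exact h1 (Or.inr (by omega))⟩
  have hr : f ∉ (algebraMap κ F).range := by
    rintro ⟨c, hc⟩
    exact (h c).1 (by rw [hc, sub_self])
  have := finiteDimensional_of_transcendental (transcendental_of_notMem hr)
  apply P.ne_top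
  refine top_unique fun g _ => ?_
  refine F1a_mem_of_integral P.O (R := κ⟮f⟯) (fun r => ?_) (IsIntegral.of_finite _ g)
  obtain ⟨p, q, hpq⟩ := (IntermediateField.mem_adjoin_simple_iff κ (r : F)).1 r.2
  change (r : F) ∈ P.O
  rw [hpq]
  by_cases hp : p = 0
  · simp [hp]
  by_cases hq : q = 0
  · simp [hq]
  rw [P.mem_iff, P.ord_div (F1a_aeval_unit P h hp).1 (F1a_aeval_unit P h hq).1,
    (F1a_aeval_unit P h hp).2, (F1a_aeval_unit P h hq).2]
  simp

theorem F1a_ev_val (P : Place κ F) {f : F} (hf : f ∈ P.O) :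
    P.O.valuation (f - algebraMap κ F (P.ev f)) < 1 := by
  have h := F1a_exists_ev P hf
  unfold Place.ev
  rw [dif_pos h]
  exact h.choose_spec

theorem F1a_ev_eq_of_val (P : Place κ F) {f : F} {c : κ}
    (h : P.O.valuation (f - algebraMap κ F c) < 1) : P.ev f = c := by
  have hf : f ∈ P.O := by
    have h1 := add_mem ((P.O.valuation_le_one_iff _).1 h.le) (P.const c)
    rwa [sub_add_cancel] at h1
  have h1 := P.O.valuation.map_sub_lt h (F1a_ev_val P hf)
  have h2 : f - algebraMap κ F c - (f - algebraMap κ F (P.ev f)) = algebraMap κ F (P.ev f - c) := by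
    rw [map_sub]
    ring
  rw [h2, P.valuation_lt_one_iff, P.ord_algebraMap] at h1
  rcases h1 with h1 | h1
  · have h3 : P.ev f - c = 0 := (map_eq_zero _).1 h1
    exact sub_eq_zero.1 h3
  · exact absurd h1 (lt_irrefl _)

theorem Place.ev_spec (P : Place κ F) {f : F} (hf : f ∈ P.O) :
    f = algebraMap κ F (P.ev f) ∨ 0 < P.ord (f - algebraMap κ F (P.ev f)) := by
  have h := P.valuation_lt_one_iff.1 (F1a_ev_val P hf)
  rwa [sub_eq_zero] at h

theorem Place.ev_eq (P : Place κ F) {f : F} {c : κ}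
    (h : f = algebraMap κ F c ∨ 0 < P.ord (f - algebraMap κ F c)) : P.ev f = c :=
  F1a_ev_eq_of_val P (P.valuation_lt_one_iff.2 (by rwa [sub_eq_zero]))

theorem Place.ev_algebraMap (P : Place κ F) (c : κ) : P.ev (algebraMap κ F c) = c :=
  P.ev_eq (Or.inl rfl)

theorem Place.ev_add (P : Place κ F) {f g : F} (hf : f ∈ P.O) (hg : g ∈ P.O) :
    P.ev (f + g) = P.ev f + P.ev g := by
  apply F1a_ev_eq_of_val
  have h := P.O.valuation.map_add_lt (F1a_ev_val P hf) (F1a_ev_val P hg)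
  convert h using 2
  rw [map_add]
  ring

theorem Place.ev_sub (P : Place κ F) {f g : F} (hf : f ∈ P.O) (hg : g ∈ P.O) :
    P.ev (f - g) = P.ev f - P.ev g := by
  apply F1a_ev_eq_of_val
  have h := P.O.valuation.map_sub_lt (F1a_ev_val P hf) (F1a_ev_val P hg)
  convert h using 2
  rw [map_sub]
  ring

omit [IsAlgClosed κ] [CharZero κ] [IsFF κ F] in
theorem F1a_val_mul_lt (P : Place κ F) {f g : F} (hf : P.O.valuation f < 1) (hg : g ∈ P.O) :
    P.O.valuation (f * g) < 1 := by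
  rw [map_mul]
  exact lt_of_le_of_lt (mul_le_of_le_one_right' ((P.O.valuation_le_one_iff _).2 hg)) hf

theorem Place.ev_mul (P : Place κ F) {f g : F} (hf : f ∈ P.O) (hg : g ∈ P.O) :
    P.ev (f * g) = P.ev f * P.ev g := by
  apply F1a_ev_eq_of_val
  have h := P.O.valuation.map_add_lt (F1a_val_mul_lt P (F1a_ev_val P hf) hg)
    (F1a_val_mul_lt P (F1a_ev_val P hg) (P.const (P.ev f)))
  convert h using 2
  rw [map_mul]
  ring

theorem Place.ev_smul (P : Place κ F) (c : κ) {f : F} (hf : f ∈ P.O) :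
    P.ev (c • f) = c * P.ev f := by
  rw [Algebra.smul_def, P.ev_mul (P.const c) hf, P.ev_algebraMap]

theorem F1a_ev_zero (P : Place κ F) : P.ev 0 = 0 := by
  simpa using P.ev_algebraMap 0

theorem Place.ev_sum (P : Place κ F) {ι : Type*} (s : Finset ι) (f : ι → F)
    (hf : ∀ i ∈ s, f i ∈ P.O) : P.ev (∑ i ∈ s, f i) = ∑ i ∈ s, P.ev (f i) := by
  induction s using Finset.induction_on with
  | empty => simp [F1a_ev_zero]
  | insert a s ha ih =>
    rw [Finset.sum_insert ha, Finset.sum_insert ha,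
      P.ev_add (hf a (Finset.mem_insert_self a s))
        (sum_mem fun i hi => hf i (Finset.mem_insert_of_mem hi)),
      ih fun i hi => hf i (Finset.mem_insert_of_mem hi)]

theorem Place.ev_aeval (P : Place κ F) {σ : Type*} (x : σ → F) (hx : ∀ i, x i ∈ P.O)
    (Q : MvPolynomial σ κ) : MvPolynomial.aeval x Q ∈ P.O ∧
      P.ev (MvPolynomial.aeval x Q) = MvPolynomial.eval (fun i => P.ev (x i)) Q := by
  induction Q using MvPolynomial.induction_on with
  | C c =>
    rw [MvPolynomial.aeval_C, MvPolynomial.eval_C]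
    exact ⟨P.const c, P.ev_algebraMap c⟩
  | add p q hp hq =>
    rw [map_add, map_add]
    exact ⟨add_mem hp.1 hq.1, by rw [P.ev_add hp.1 hq.1, hp.2, hq.2]⟩
  | mul_X p i hp =>
    rw [map_mul, map_mul, MvPolynomial.aeval_X, MvPolynomial.eval_X]
    exact ⟨mul_mem hp.1 (hx i), by rw [P.ev_mul hp.1 (hx i), hp.2]⟩

theorem Place.ev_eq_zero_iff (P : Place κ F) {f : F} (hf : f ∈ P.O) :
    P.ev f = 0 ↔ f = 0 ∨ 0 < P.ord f := by
  constructor
  · intro h
    have h1 := P.ev_spec hf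
    rw [h] at h1
    simpa using h1
  · intro h
    exact P.ev_eq (by simpa using h)

theorem Place.ev_div (P : Place κ F) {f g : F} (hf : f ∈ P.O) (hg : g ∈ P.O) (h : P.ev g ≠ 0) :
    f / g ∈ P.O ∧ P.ev (f / g) = P.ev f / P.ev g := by
  have h1 : ¬ (g = 0 ∨ 0 < P.ord g) := fun h' => h ((P.ev_eq_zero_iff hg).2 h')
  have hg0 : g ≠ 0 := fun h' => h1 (Or.inl h')
  have h2 : g⁻¹ ∈ P.O := by
    rw [P.mem_iff, P.ord_inv]
    by_contra h3
    exact h1 (Or.inr (by omega))
  have h3 : f / g ∈ P.O := by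
    rw [div_eq_mul_inv]
    exact mul_mem hf h2
  refine ⟨h3, ?_⟩
  have h4 := P.ev_mul h3 hg
  rw [div_mul_cancel₀ _ hg0] at h4
  rw [h4, mul_div_cancel_right₀ _ h]

theorem F1a_sep_two {P Q : Place κ F} (h : Q ≠ P) : ∃ z : F, 0 < P.ord z ∧ Q.ord z < 0 := by
  have h1 : ¬ P.O ≤ Q.O := fun h' => h (Place.eq_of_le h').symm
  have h2 : ¬ Q.O ≤ P.O := fun h' => h (Place.eq_of_le h')
  obtain ⟨a, ha, ha'⟩ := SetLike.not_le_iff_exists.1 h1
  obtain ⟨b, hb, hb'⟩ := SetLike.not_le_iff_exists.1 h2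
  have ha0 : a ≠ 0 := fun h' => ha' (h' ▸ Q.O.zero_mem)
  have hb0 : b ≠ 0 := fun h' => hb' (h' ▸ P.O.zero_mem)
  rw [Place.mem_iff] at ha ha' hb hb'
  refine ⟨a / b, ?_, ?_⟩
  · rw [P.ord_div ha0 hb0]
    omega
  · rw [Q.ord_div ha0 hb0]
    omega

theorem F1a_ne_zero_of_ord (P : Place κ F) {f : F} (h : P.ord f ≠ 0) : f ≠ 0 := by
  rintro rfl
  exact h P.ord_zero

theorem F1a_sep (P : Place κ F) (S : Finset (Place κ F)) (hS : P ∉ S) :
    ∃ u : F, 0 < P.ord u ∧ ∀ Q ∈ S, Q.ord u < 0 := by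
  induction S using Finset.induction_on with
  | empty =>
    obtain ⟨π, _, h1⟩ := P.exists_ord_eq 1
    exact ⟨π, by omega, by simp⟩
  | insert R S hR ih =>
    obtain ⟨y, hy, hy'⟩ := ih fun h => hS (Finset.mem_insert_of_mem h)
    by_cases hRy : R.ord y < 0
    · refine ⟨y, hy, fun Q hQ => ?_⟩
      rcases Finset.mem_insert.1 hQ with rfl | hQ
      · exact hRy
      · exact hy' Q hQ
    obtain ⟨z, hz, hz'⟩ := F1a_sep_two (P := P) (Q := R)
      (fun h => hS (h ▸ Finset.mem_insert_self R S))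
    have hy0 : y ≠ 0 := F1a_ne_zero_of_ord P hy.ne'
    have hz0 : z ≠ 0 := F1a_ne_zero_of_ord P hz.ne'
    set r : ℕ := S.sup (fun Q => (Q.ord z).natAbs) + 1 with hr
    have hyr : y ^ r ≠ 0 := pow_ne_zero _ hy0
    have hr1 : (1 : ℤ) ≤ r := by omega
    have hRu := R.ord_add_eq hz0 (g := y ^ r) (Or.inr (by
      rw [R.ord_pow]
      nlinarith))
    refine ⟨z + y ^ r, ?_, fun Q hQ => ?_⟩
    · have h1 := F1a_le_ord_add P (f := z) (g := y ^ r) (n := 1) (Or.inr hz) (Or.inr (by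
        rw [P.ord_pow]
        nlinarith))
      exact h1.resolve_left hRu.1
    · rcases Finset.mem_insert.1 hQ with rfl | hQ
      · rw [hRu.2]
        exact hz'
      · have h1 := hy' Q hQ
        have h2 : (Q.ord z).natAbs ≤ S.sup (fun Q => (Q.ord z).natAbs) :=
          Finset.le_sup (f := fun Q => (Q.ord z).natAbs) hQ
        have h3 : -(r : ℤ) < Q.ord z := by omega
        have h4 := Q.ord_add_eq hyr (g := z) (Or.inr (by
          rw [Q.ord_pow]
          nlinarith))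
        rw [add_comm, h4.2, Q.ord_pow]
        nlinarith

theorem F1a_idem (P : Place κ F) (S : Finset (Place κ F)) (hS : P ∉ S) (N : ℕ) :
    ∃ w : F, w ≠ 0 ∧ w - 1 ≠ 0 ∧ (N : ℤ) ≤ P.ord (w - 1) ∧ ∀ Q ∈ S, (N : ℤ) ≤ Q.ord w := by
  obtain ⟨u, hu, hu'⟩ := F1a_sep P S hS
  have hu0 : u ≠ 0 := F1a_ne_zero_of_ord P hu.ne'
  have hp : u ^ (N + 1) ≠ 0 := pow_ne_zero _ hu0
  have hN : (0 : ℤ) ≤ N := by omega
  have h1 := P.ord_add_eq (f := 1) (g := u ^ (N + 1)) one_ne_zero (Or.inr (by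
    rw [P.ord_pow, P.ord_one]
    push_cast
    nlinarith))
  have h2 : (1 + u ^ (N + 1))⁻¹ - 1 = -(u ^ (N + 1) / (1 + u ^ (N + 1))) := by
    have := h1.1
    field_simp
    ring
  refine ⟨(1 + u ^ (N + 1))⁻¹, inv_ne_zero h1.1, ?_, ?_, fun Q hQ => ?_⟩
  · rw [h2]
    exact neg_ne_zero.2 (div_ne_zero hp h1.1)
  · rw [h2, P.ord_neg, P.ord_div hp h1.1, h1.2, P.ord_one, P.ord_pow]
    push_cast
    nlinarith
  · have h3 := hu' Q hQ
    have h4 := Q.ord_add_eq hp (g := 1) (Or.inr (by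
      rw [Q.ord_pow, Q.ord_one]
      push_cast
      nlinarith))
    rw [Q.ord_inv, add_comm, h4.2, Q.ord_pow]
    push_cast
    nlinarith

theorem F1a_approx (S : Finset (Place κ F)) (g : Place κ F → F) (n : ℤ) :
    ∃ f : F, ∀ P ∈ S, f = g P ∨ n ≤ P.ord (f - g P) := by
  have h := fun P : Place κ F => F1a_idem P (S.erase P) (Finset.notMem_erase P S)
    (S.sup fun Q => (n - Q.ord (g P)).natAbs)
  choose w hw0 hw1 hwP hwQ using h
  have hb : ∀ P : Place κ F, ∀ Q ∈ S,
      n - Q.ord (g P) ≤ ((S.sup fun Q => (n - Q.ord (g P)).natAbs : ℕ) : ℤ) := by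
    intro P Q hQ
    have h2 : (n - Q.ord (g P)).natAbs ≤ S.sup fun Q => (n - Q.ord (g P)).natAbs :=
      Finset.le_sup (f := fun Q => (n - Q.ord (g P)).natAbs) hQ
    omega
  refine ⟨∑ P ∈ S, g P * w P, fun Q hQ => ?_⟩
  rw [← sub_eq_zero]
  have h1 : ∑ P ∈ S, g P * w P - g Q = g Q * (w Q - 1) + ∑ P ∈ S.erase Q, g P * w P := by
    rw [← Finset.add_sum_erase S _ hQ]
    ring
  rw [h1]
  refine F1a_le_ord_add Q ?_ (Q.le_ord_sum _ _ fun P hP => ?_)
  · by_cases hg : g Q = 0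
    · exact Or.inl (by rw [hg, zero_mul])
    · right
      rw [Q.ord_mul hg (hw1 Q)]
      have h2 := hwP Q
      have h3 := hb Q Q hQ
      omega
  · by_cases hg : g P = 0
    · exact Or.inl (by rw [hg, zero_mul])
    · right
      rw [Q.ord_mul hg (hw0 P)]
      have h2 := hwQ P Q (Finset.mem_erase.2 ⟨(Finset.mem_erase.1 hP).1.symm, hQ⟩)
      have h3 := hb P Q hQ
      omega

/-- weak approximation -/
theorem weak_approx (S : Finset (Place κ F)) (n : Place κ F → ℤ) :
    ∃ f : F, f ≠ 0 ∧ ∀ P ∈ S, P.ord f = n P := by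
  rcases S.eq_empty_or_nonempty with rfl | ⟨P₀, hP₀⟩
  · exact ⟨1, one_ne_zero, by simp⟩
  choose g hg0 hg using fun P : Place κ F => P.exists_ord_eq (n P)
  obtain ⟨f, hf⟩ := F1a_approx S g (((S.sup fun Q => (n Q).natAbs : ℕ) : ℤ) + 1)
  have key : ∀ P ∈ S, f ≠ 0 ∧ P.ord f = n P := by
    intro P hP
    have h2 : (n P).natAbs ≤ S.sup fun Q => (n Q).natAbs :=
      Finset.le_sup (f := fun Q => (n Q).natAbs) hP
    have h1 := P.ord_add_eq (hg0 P) (g := f - g P) (by
      rcases hf P hP with h | h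
      · exact Or.inl (sub_eq_zero.2 h)
      · right
        rw [hg]
        omega)
    rwa [add_sub_cancel, hg] at h1
  exact ⟨f, (key P₀ hP₀).1, fun P hP => (key P hP).2⟩

theorem weak_approx' (S : Finset (Place κ F)) (g : Place κ F → F) (n : ℤ) :
    ∃ f : F, ∀ P ∈ S, f = g P ∨ n ≤ P.ord (f - g P) := F1a_approx S g n

theorem isIntegral_of_forall_mem (B : Subalgebra κ F) {f : F}
    (h : ∀ P : Place κ F, (∀ b ∈ B, b ∈ P.O) → f ∈ P.O) : IsIntegral B f := by
  by_contra hn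
  have hR : f ∉ (integralClosure B F).toSubring := hn
  have : IsIntegrallyClosedIn (integralClosure B F).toSubring F :=
    inferInstanceAs (IsIntegrallyClosedIn (integralClosure B F) F)
  obtain ⟨V, hV, hfV⟩ := Subring.exists_le_valuationSubring_of_isIntegrallyClosedIn hR
  have hB : ∀ b ∈ B, b ∈ V := fun b hb => hV ((integralClosure B F).algebraMap_mem ⟨b, hb⟩)
  refine hfV (h ⟨V, fun c => hB _ (B.algebraMap_mem c), ?_⟩ hB)
  rintro rfl
  exact hfV (ValuationSubring.mem_top f)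

theorem mem_range_of_forall_mem {f : F} (h : ∀ P : Place κ F, f ∈ P.O) :
    f ∈ (algebraMap κ F).range := by
  by_contra hn
  apply transcendental_of_notMem hn
  have h1 := isIntegral_of_forall_mem (⊥ : Subalgebra κ F) (f := f) fun P _ => h P
  have : Algebra.IsIntegral κ (⊥ : Subalgebra κ F) := by
    constructor
    rintro ⟨x, hx⟩
    obtain ⟨c, rfl⟩ := Algebra.mem_bot.1 hx
    exact isIntegral_algebraMap (x := c)
  exact (isIntegral_trans (R := κ) f h1).isAlgebraic

/-- Chevalley: a point of an affine model comes from a place. -/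
theorem exists_place_of_algHom (B : Subalgebra κ F) (hB : ∃ b ∈ B, b ∉ (algebraMap κ F).range)
    (χ : B →ₐ[κ] κ) : ∃ P : Place κ F, ∀ b : B, (b : F) ∈ P.O ∧ P.ev b = χ b := by
  obtain ⟨V, hV, hI⟩ := Ideal.image_subset_nonunits_valuationSubring (A := B.toSubring)
    (RingHom.ker (show B.toSubring →+* κ from χ.toRingHom)) (RingHom.ker_ne_top _)
  have key : ∀ b : B, V.valuation ((b : F) - algebraMap κ F (χ b)) < 1 := by
    intro b
    rw [← ValuationSubring.mem_nonunits_iff]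
    refine hI ⟨(b - algebraMap κ B (χ b) : B), ?_, rfl⟩
    change χ (b - algebraMap κ B (χ b)) = 0
    simp
  have hne : V ≠ ⊤ := by
    rintro rfl
    obtain ⟨b, hb, hb'⟩ := hB
    have h1 := key ⟨b, hb⟩
    rw [← ValuationSubring.mem_nonunits_iff, ValuationSubring.mem_nonunits_iff_or] at h1
    rcases h1 with h1 | h1
    · exact hb' ⟨_, (sub_eq_zero.1 h1).symm⟩
    · exact h1 (ValuationSubring.mem_top _)
  refine ⟨⟨V, fun c => hV (B.algebraMap_mem c), hne⟩, fun b => ⟨hV b.2, ?_⟩⟩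
  exact F1a_ev_eq_of_val _ (key b)

theorem F1a_exists_pole {t : F} (ht : t ∉ (algebraMap κ F).range) :
    ∃ P : Place κ F, P.ord t < 0 := by
  by_contra hn
  refine ht (mem_range_of_forall_mem fun P => P.mem_iff.2 ?_)
  by_contra h
  exact hn ⟨P, by omega⟩

theorem exists_place_ev {t : F} (ht : t ∉ (algebraMap κ F).range) (c : κ) :
    ∃ P : Place κ F, 0 < P.ord (t - algebraMap κ F c) := by
  have h1 : (t - algebraMap κ F c)⁻¹ ∉ (algebraMap κ F).range := by
    rintro ⟨d, hd⟩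
    refine ht ⟨d⁻¹ + c, ?_⟩
    rw [map_add, map_inv₀, hd, inv_inv, sub_add_cancel]
  obtain ⟨P, hP⟩ := F1a_exists_pole h1
  rw [P.ord_inv] at hP
  exact ⟨P, by omega⟩

theorem exists_pole {t : F} (ht : t ∉ (algebraMap κ F).range) : ∃ P : Place κ F, P.ord t < 0 :=
  F1a_exists_pole ht

instance instInfinitePlace : Infinite (Place κ F) := by
  obtain ⟨t, ht, -⟩ := IsFF.ex (κ := κ) (F := F)
  have hr : t ∉ (algebraMap κ F).range := by
    rintro ⟨c, rfl⟩
    exact ht (isAlgebraic_algebraMap c)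
  choose P hP using exists_place_ev hr
  refine Infinite.of_injective P fun c d hcd => ?_
  have h1 := (P c).ev_eq (Or.inr (hP c))
  have h2 := (P d).ev_eq (Or.inr (hP d))
  rw [← hcd, h1] at h2
  exact h2

end Pool.Agent.E6b
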