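import Pool.Agent.E6b.F2Aux1

open scoped NNReal TensorProduct IntermediateField BigOperators Classical Topology
open Filter

namespace Pool.Agent.E6b

variable {κ F : Type} [Field κ] [IsAlgClosed κ] [CharZero κ] [Field F] [Algebra κ F] [IsFF κ F]

theorem F2_ord_aeval (P : Place κ F) {t : F} (ht : P.ord t < 0) {p : Polynomial κ} (hp : p ≠ 0) :
    Polynomial.aeval t p ≠ 0 ∧ P.ord (Polynomial.aeval t p) = p.natDegree * P.ord t := by
  have ht0 : t ≠ 0 := fun h => by
    rw [h, P.ord_zero] at ht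
    exact lt_irrefl _ ht
  have hl : p.coeff p.natDegree ≠ 0 := Polynomial.leadingCoeff_ne_zero.2 hp
  have h1 : P.ord (p.coeff p.natDegree • t ^ p.natDegree) = p.natDegree * P.ord t := by
    rw [P.ord_smul hl, P.ord_pow]
  have h2 := P.le_ord_sum (Finset.range p.natDegree) (fun i => p.coeff i • t ^ i)
    (n := p.natDegree * P.ord t + 1) (fun i hi => by
      by_cases hc : p.coeff i = 0
      · exact Or.inl (by simp [hc])
      · refine Or.inr ?_
        rw [P.ord_smul hc, P.ord_pow]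
        have h3 : (i : ℤ) + 1 ≤ p.natDegree := by exact_mod_cast Finset.mem_range.1 hi
        nlinarith)
  rw [Polynomial.aeval_eq_sum_range, Finset.sum_range_succ_comm, ← h1]
  refine P.ord_add_eq (smul_ne_zero hl (pow_ne_zero _ ht0)) ?_
  rw [h1]
  exact h2.imp_right fun h => by omega

theorem F2_ord_adjoin {t : F} (φ : κ⟮t⟯) (hφ : φ ≠ 0) :
    ∃ m : ℤ, ∀ P : Place κ F, P.ord t < 0 → P.ord (φ : F) = m * (- P.ord t) := by
  obtain ⟨r, s, h⟩ := (IntermediateField.mem_adjoin_simple_iff κ (φ : F)).1 φ.2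
  have h0 : (φ : F) ≠ 0 := fun h => hφ (Subtype.ext h)
  have hr : r ≠ 0 := fun hr => h0 (by rw [h, hr, map_zero, zero_div])
  have hs : s ≠ 0 := fun hs => h0 (by rw [h, hs, map_zero, div_zero])
  refine ⟨(s.natDegree : ℤ) - r.natDegree, fun P hP => ?_⟩
  obtain ⟨r1, r2⟩ := F2_ord_aeval P hP hr
  obtain ⟨s1, s2⟩ := F2_ord_aeval P hP hs
  rw [h, P.ord_div r1 s1, r2, s2]
  ring

theorem F2_deg_dinf_le {t : F} (ht : t ∉ (algebraMap κ F).range) :
    deg (dinf κ t) ≤ Module.finrank κ⟮t⟯ F := by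
  haveI := finiteDimensional_of_transcendental (transcendental_of_notMem ht)
  set S := (dinf κ t).support with hS
  have hSm : ∀ P ∈ S, P.ord t < 0 := by
    intro P hP
    have h1 := Finsupp.mem_support_iff.1 hP
    rw [dinf_apply] at h1
    omega
  have hy : ∀ i : (Σ P : S, Fin (- P.1.ord t).toNat), ∃ y : F, y ≠ 0 ∧
      ∀ Q ∈ S, Q.ord y = if Q = i.1.1 then (i.2.1 : ℤ) else - Q.ord t := fun i =>
    weak_approx S fun Q => if Q = i.1.1 then (i.2.1 : ℤ) else - Q.ord t
  choose y hy0 hy using hy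
  have hli : LinearIndependent κ⟮t⟯ y := by
    rw [Fintype.linearIndependent_iff]
    intro g hg
    by_contra hne
    push Not at hne
    have hm : ∀ i, ∃ m : ℤ, g i ≠ 0 →
        ∀ P : Place κ F, P.ord t < 0 → P.ord (g i : F) = m * (- P.ord t) := by
      intro i
      by_cases h : g i = 0
      · exact ⟨0, fun h' => absurd h h'⟩
      · obtain ⟨m, hm⟩ := F2_ord_adjoin (g i) h
        exact ⟨m, fun _ => hm⟩
    choose m hm using hm
    obtain ⟨i0, hi0, hmin⟩ := Finset.exists_min_image (Finset.univ.filter fun i => g i ≠ 0)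
      (fun i => toLex (m i, (i.2.1 : ℕ))) (by
        obtain ⟨i, hi⟩ := hne
        exact ⟨i, by simpa using hi⟩)
    have hg0 : g i0 ≠ 0 := (Finset.mem_filter.1 hi0).2
    have hP0 := hSm _ i0.1.2
    have hord : ∀ i, g i ≠ 0 → i0.1.1.ord (g i • y i) =
        m i * (- i0.1.1.ord t) + if i0.1.1 = i.1.1 then (i.2.1 : ℤ) else - i0.1.1.ord t := by
      intro i hi
      have h0 : (g i : F) ≠ 0 := fun h => hi (Subtype.ext h)
      rw [IntermediateField.smul_def, smul_eq_mul, i0.1.1.ord_mul h0 (hy0 i), hm i hi _ hP0,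
        hy i _ i0.1.2]
    have hj0 : (i0.2.1 : ℤ) < - i0.1.1.ord t := by
      have := i0.2.2
      omega
    have h2 := i0.1.1.le_ord_sum (Finset.univ.erase i0) (fun i => g i • y i)
      (n := m i0 * (- i0.1.1.ord t) + i0.2.1 + 1) (fun i hi => by
        by_cases hc : g i = 0
        · exact Or.inl (by simp [hc])
        refine Or.inr ?_
        rw [hord i hc]
        have h3 := hmin i (by simpa using hc)
        rw [Prod.Lex.toLex_le_toLex] at h3
        dsimp only at h3
        have hne' : i ≠ i0 := Finset.ne_of_mem_erase hi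
        rcases h3 with h3 | ⟨h3, h4⟩
        · have h5 : m i0 + 1 ≤ m i := h3
          have h6 : (0 : ℤ) ≤ if i0.1.1 = i.1.1 then (i.2.1 : ℤ) else - i0.1.1.ord t := by
            split_ifs
            · positivity
            · omega
          nlinarith
        · rw [← h3]
          split_ifs with h5
          · have h6 : (i0.2.1 : ℕ) ≠ i.2.1 := by
              intro h6
              apply hne'
              obtain ⟨a, b⟩ := i
              obtain ⟨a0, b0⟩ := i0
              have h7 : a0 = a := Subtype.ext h5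
              subst h7
              have h8 : b0 = b := Fin.ext h6
              rw [h8]
            omega
          · omega)
    have h0 : g i0 • y i0 ≠ 0 := smul_ne_zero hg0 (hy0 i0)
    have h3 := (i0.1.1.ord_add_eq h0 (g := ∑ i ∈ Finset.univ.erase i0, g i • y i) (by
      rw [hord i0 hg0, if_pos rfl]
      exact h2.imp_right fun h => by omega)).1
    rw [Finset.add_sum_erase _ (fun i => g i • y i) (Finset.mem_univ i0)] at h3
    exact h3 hg
  have hc := hli.fintype_card_le_finrank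
  rw [Fintype.card_sigma] at hc
  simp only [Fintype.card_fin] at hc
  have h4 : deg (dinf κ t) = ((∑ P : S, (- P.1.ord t).toNat : ℕ) : ℤ) := by
    rw [Nat.cast_sum, Finset.sum_coe_sort S fun P => (((- P.ord t).toNat : ℕ) : ℤ)]
    unfold deg Finsupp.sum
    refine Finset.sum_congr rfl fun P _ => ?_
    change dinf κ t P = _
    rw [dinf_apply]
    omega
  rw [h4]
  exact_mod_cast hc

theorem F2_pow_mem (t : F) {i m : ℕ} (h : i ≤ m) : t ^ i ∈ LL (m • dinf κ t) := by
  refine mem_LL.2 (Or.inr fun P => ?_)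
  rw [P.ord_pow, Finsupp.smul_apply, dinf_apply, nsmul_eq_mul]
  have h1 : (i : ℤ) ≤ m := by exact_mod_cast h
  have h2 : (0 : ℤ) ≤ i := by positivity
  have h3 := le_max_left (- P.ord t) 0
  have h4 := le_max_right (- P.ord t) 0
  nlinarith

theorem F2_count {t : F} (ht : t ∉ (algebraMap κ F).range) {ι : Type} [Fintype ι] (y : ι → F)
    (hy : LinearIndependent κ⟮t⟯ y) (C : Dv κ F) (h : ∀ i, y i ∈ LL C) (m : ℕ) :
    (m + 1) * Fintype.card ι ≤ ell (m • dinf κ t + C) := by
  haveI := F2_finite (m • dinf κ t + C)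
  have h1 : LinearIndependent κ fun i : ℕ => t ^ i := by
    have h2 := (Polynomial.basisMonomials κ).linearIndependent.map'
      (Polynomial.aeval t : Polynomial κ →ₐ[κ] F).toLinearMap
      (LinearMap.ker_eq_bot.2 (transcendental_iff_injective.1 (transcendental_of_notMem ht)))
    have h3 : (fun i : ℕ => t ^ i) = (Polynomial.aeval t : Polynomial κ →ₐ[κ] F).toLinearMap ∘
        Polynomial.basisMonomials κ := by
      ext i
      simp
    rw [h3]
    exact h2
  have h2 : LinearIndependent κ fun i : Fin (m + 1) =>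
      (IntermediateField.AdjoinSimple.gen κ t) ^ (i : ℕ) := by
    refine LinearIndependent.of_comp (κ⟮t⟯).val.toLinearMap ?_
    exact h1.comp (fun i : Fin (m + 1) => (i : ℕ)) Fin.val_injective
  have h3 := linearIndependent_smul h2 hy
  have h4 : ∀ p : Fin (m + 1) × ι,
      (IntermediateField.AdjoinSimple.gen κ t) ^ (p.1 : ℕ) • y p.2 ∈ LL (m • dinf κ t + C) := by
    intro p
    rw [IntermediateField.smul_def, smul_eq_mul]
    exact mul_mem_LL (F2_pow_mem t (Nat.lt_succ_iff.1 p.1.2)) (h p.2)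
  have h5 : LinearIndependent κ fun p : Fin (m + 1) × ι =>
      (⟨_, h4 p⟩ : LL (m • dinf κ t + C)) :=
    LinearIndependent.of_comp (LL (m • dinf κ t + C)).subtype h3
  have h6 := h5.fintype_card_le_finrank
  rwa [Fintype.card_prod, Fintype.card_fin] at h6

theorem F2_exists_basis {t : F} (ht : t ∉ (algebraMap κ F).range) :
    ∃ (y : Fin (Module.finrank κ⟮t⟯ F) → F) (C : Dv κ F), LinearIndependent κ⟮t⟯ y ∧ 0 ≤ C ∧
      ∀ i, y i ∈ LL C := by
  haveI := finiteDimensional_of_transcendental (transcendental_of_notMem ht)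
  let b := Module.finBasis κ⟮t⟯ F
  refine ⟨b, ∑ i, dinf κ (b i), b.linearIndependent,
    Finset.sum_nonneg fun i _ => F2_dinf_nonneg _, fun i => ?_⟩
  exact LL_mono (Finset.single_le_sum (f := fun i => dinf κ (b i))
    (fun i _ => F2_dinf_nonneg _) (Finset.mem_univ i)) (mem_LL_dinf (b i))

theorem F2_deg_dinf {t : F} (ht : t ∉ (algebraMap κ F).range) :
    deg (dinf κ t) = Module.finrank κ⟮t⟯ F := by
  refine le_antisymm (F2_deg_dinf_le ht) ?_
  obtain ⟨y, C, hy, hC, h⟩ := F2_exists_basis ht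
  have hC0 := F2_deg_nonneg hC
  obtain ⟨m, hm⟩ : ∃ m : ℕ, (m : ℤ) = deg C + 2 := ⟨(deg C + 2).toNat, by omega⟩
  have h1 := F2_count ht y hy C h m
  have h2 := F2_ell_add_le 0 (add_nonneg (nsmul_nonneg (F2_dinf_nonneg t) m) hC)
  rw [zero_add, F2_ell_zero, deg_add, deg_nsmul] at h2
  rw [Fintype.card_fin] at h1
  have h3 : ((m : ℤ) + 1) * (Module.finrank κ⟮t⟯ F : ℤ) ≤ ell (m • dinf κ t + C) := by
    exact_mod_cast h1
  have h4 : (0 : ℤ) ≤ (Module.finrank κ⟮t⟯ F : ℤ) := by positivity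
  by_contra h5
  have h6 : deg (dinf κ t) + 1 ≤ (Module.finrank κ⟮t⟯ F : ℤ) := not_le.1 h5
  have h7 : (0 : ℤ) ≤ m := by positivity
  push_cast at h2
  nlinarith

theorem F2_deg_dv (f : F) : deg (dv κ f) = 0 := by
  by_cases hf : f ∈ (algebraMap κ F).range
  · obtain ⟨c, rfl⟩ := hf
    rw [dv_algebraMap, deg_zero]
  have hf' : f⁻¹ ∉ (algebraMap κ F).range := by
    rintro ⟨c, hc⟩
    exact hf ⟨c⁻¹, by rw [map_inv₀, hc, inv_inv]⟩
  have h1 : dv κ f = dinf κ f⁻¹ - dinf κ f := by
    ext P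
    rw [Finsupp.sub_apply, dinf_apply, dinf_apply, dv_apply, P.ord_inv]
    omega
  have h2 : κ⟮f⁻¹⟯ = κ⟮f⟯ := by
    apply le_antisymm
    · rw [IntermediateField.adjoin_simple_le_iff]
      exact inv_mem (IntermediateField.mem_adjoin_simple_self κ f)
    · rw [IntermediateField.adjoin_simple_le_iff]
      have h3 := inv_mem (IntermediateField.mem_adjoin_simple_self κ f⁻¹)
      rwa [inv_inv] at h3
  rw [h1, deg_sub, F2_deg_dinf hf, F2_deg_dinf hf',
    congrArg (fun K : IntermediateField κ F => Module.finrank K F) h2, sub_self]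

/-- the quantity `deg D - ell D` is monotone up to linear equivalence -/
theorem F2_r_mono {D E : Dv κ F} {f : F} (hf : f ≠ 0) (h : D ≤ E + dv κ f) :
    deg D - ell D ≤ deg E - ell E := by
  have h1 := F2_ell_add_le D (sub_nonneg.2 h)
  rw [add_sub_cancel, F2_ell_add_dv E hf, deg_sub, deg_add, F2_deg_dv] at h1
  omega

theorem F2_exists_ne {D : Dv κ F} (h : 0 < ell D) : ∃ f ∈ LL D, f ≠ 0 := by
  by_contra h1
  push Not at h1
  have h2 : LL D = ⊥ := (Submodule.eq_bot_iff _).2 h1
  unfold ell at h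
  rw [h2, finrank_bot] at h
  exact lt_irrefl _ h

theorem F2_bound {t : F} (ht : t ∉ (algebraMap κ F).range) {ι : Type} [Fintype ι] (y : ι → F)
    (hy : LinearIndependent κ⟮t⟯ y) (hc : Fintype.card ι = Module.finrank κ⟮t⟯ F) (C : Dv κ F)
    (h : ∀ i, y i ∈ LL C) (D : Dv κ F) : deg D + 1 - ell D ≤ deg C := by
  haveI := finiteDimensional_of_transcendental (transcendental_of_notMem ht)
  have hn : 1 ≤ (Module.finrank κ⟮t⟯ F : ℤ) := by exact_mod_cast Module.finrank_pos
  have h1 : ∀ m : ℕ, deg (m • dinf κ t + C) - ell (m • dinf κ t + C) ≤ deg C - 1 := by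
    intro m
    have h2 := F2_count ht y hy C h m
    rw [hc] at h2
    have h3 : ((m : ℤ) + 1) * (Module.finrank κ⟮t⟯ F : ℤ) ≤ ell (m • dinf κ t + C) := by
      exact_mod_cast h2
    rw [deg_add, deg_nsmul, F2_deg_dinf ht]
    nlinarith
  have hD : (0 : Dv κ F) ≤ D ⊔ 0 := le_sup_right
  have hD0 := F2_deg_nonneg hD
  obtain ⟨m, hm⟩ : ∃ m : ℕ, (m : ℤ) = deg (D ⊔ 0) := ⟨(deg (D ⊔ 0)).toNat, by omega⟩
  have h4 := F2_r_mono (D := m • dinf κ t + C - (D ⊔ 0)) (E := m • dinf κ t + C) one_ne_zero (by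
    rw [← map_one (algebraMap κ F), dv_algebraMap, add_zero]
    exact sub_le_self _ hD)
  have h5 := h1 m
  rw [deg_sub, deg_add, deg_nsmul, F2_deg_dinf ht] at h4
  rw [deg_add, deg_nsmul, F2_deg_dinf ht] at h5
  have h6 : (0 : ℤ) ≤ m := by positivity
  have h7 : 0 < ell (m • dinf κ t + C - (D ⊔ 0)) := by
    have : (0 : ℤ) < ell (m • dinf κ t + C - (D ⊔ 0)) := by nlinarith
    exact_mod_cast this
  obtain ⟨f, hf, hf0⟩ := F2_exists_ne h7
  rw [mem_LL_iff hf0, sub_add_eq_add_sub, sub_nonneg] at hf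
  have h8 := F2_r_mono hf0 (le_sup_left.trans hf)
  have h9 := h1 m
  omega

end Pool.Agent.E6b
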