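import Pool.Agent.E6b.F1
import Pool.Agent.E6b.F2Aux2

open scoped NNReal TensorProduct IntermediateField BigOperators Classical Topology
open Filter

namespace Pool.Agent.E6b

variable {κ F : Type} [Field κ] [IsAlgClosed κ] [CharZero κ] [Field F] [Algebra κ F] [IsFF κ F]

theorem deg_dinf {t : F} (ht : t ∉ (algebraMap κ F).range) :
    deg (dinf κ t) = Module.finrank κ⟮t⟯ F := F2_deg_dinf ht
theorem deg_dv (f : F) : deg (dv κ f) = 0 := F2_deg_dv f
theorem LinEq.deg {D E : Dv κ F} (h : LinEq D E) : deg D = deg E := by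
  obtain ⟨f, -, rfl⟩ := h
  rw [deg_add, deg_dv, add_zero]
theorem LinEq.ell {D E : Dv κ F} (h : LinEq D E) : ell D = ell E := by
  obtain ⟨f, hf, rfl⟩ := h
  exact (F2_ell_add_dv D hf).symm
instance instFiniteLL (D : Dv κ F) : Module.Finite κ (LL D) := F2_finite D
theorem ell_zero : ell (0 : Dv κ F) = 1 := F2_ell_zero
theorem ell_mono {D E : Dv κ F} (h : D ≤ E) : ell D ≤ ell E :=
  Submodule.finrank_mono (LL_mono h)
theorem LL_eq_bot {D : Dv κ F} (h : deg D < 0) : LL D = ⊥ := by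
  rw [Submodule.eq_bot_iff]
  intro f hf
  by_contra h0
  have h1 := F2_deg_nonneg ((mem_LL_iff h0).1 hf)
  rw [deg_add, deg_dv] at h1
  omega
theorem ell_eq_zero_iff {D : Dv κ F} : ell D = 0 ↔ LL D = ⊥ :=
  Submodule.finrank_eq_zero
theorem ell_add_pd_le (D : Dv κ F) (P : Place κ F) : ell (D + pd P) ≤ ell D + 1 := by
  have h := (F2_step (D + pd P) P (F2_finite _)).2
  rwa [add_sub_cancel_right] at h
theorem ell_add_le (D : Dv κ F) {E : Dv κ F} (h : 0 ≤ E) : (ell (D + E) : ℤ) ≤ ell D + deg E :=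
  F2_ell_add_le D h
theorem ell_le {D : Dv κ F} (h : -1 ≤ deg D) : (ell D : ℤ) ≤ deg D + 1 := by
  rcases Nat.eq_zero_or_pos (ell D) with h0 | h0
  · omega
  obtain ⟨f, hf, hf0⟩ := F2_exists_ne h0
  have h1 := F2_ell_add_le 0 ((mem_LL_iff hf0).1 hf)
  rw [zero_add, F2_ell_add_dv D hf0, ell_zero, deg_add, deg_dv] at h1
  omega
theorem ell_sub_pd_lt_iff (D : Dv κ F) (P : Place κ F) :
    ell (D - pd P) < ell D ↔ ∃ f ∈ LL D, f ≠ 0 ∧ P.ord f = - D P := by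
  have hle := LL_mono (F2_sub_pd_le D P)
  constructor
  · intro h
    have h1 : LL (D - pd P) < LL D := lt_of_le_of_ne hle fun h1 => by
      unfold ell at h
      rw [h1] at h
      exact lt_irrefl _ h
    obtain ⟨f, hf, hf'⟩ := SetLike.exists_of_lt h1
    exact ⟨f, hf, (F2_notMem_sub_pd hf).1 hf'⟩
  · rintro ⟨f, hf, hf'⟩
    exact Submodule.finrank_lt_finrank_of_lt (lt_of_le_of_ne hle fun h1 =>
      (F2_notMem_sub_pd hf).2 hf' (h1 ▸ hf))
theorem exists_eff_of_ell_pos {D : Dv κ F} (h : 0 < ell D) : ∃ E, 0 ≤ E ∧ LinEq D E := by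
  obtain ⟨f, hf, hf0⟩ := F2_exists_ne h
  exact ⟨D + dv κ f, (mem_LL_iff hf0).1 hf, f, hf0, rfl⟩
theorem one_le_ell {D : Dv κ F} (h : 0 ≤ D) : 1 ≤ ell D := by
  have h1 := ell_mono h
  rwa [ell_zero] at h1
theorem two_le_ell_iff {D : Dv κ F} (h : 0 ≤ D) :
    2 ≤ ell D ↔ ∃ f ∈ LL D, f ∉ (algebraMap κ F).range := by
  have hle := LL_mono h
  have h0 : Module.finrank κ (LL (0 : Dv κ F)) = 1 := ell_zero
  constructor
  · intro h2
    have h1 : LL 0 < LL D := lt_of_le_of_ne hle fun h1 => by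
      unfold ell at h2
      rw [← h1, h0] at h2
      omega
    obtain ⟨f, hf, hf'⟩ := SetLike.exists_of_lt h1
    exact ⟨f, hf, fun h3 => hf' (F2_mem_LL_zero.2 h3)⟩
  · rintro ⟨f, hf, hf'⟩
    have h1 := Submodule.finrank_lt_finrank_of_lt (lt_of_le_of_ne hle fun h1 =>
      hf' (F2_mem_LL_zero.1 (h1 ▸ hf)))
    rw [h0] at h1
    exact h1
theorem eq_of_ell_eq_one {D E : Dv κ F} (hD : 0 ≤ D) (hE : 0 ≤ E) (h : LinEq D E)
    (h1 : ell D = 1) : D = E := by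
  obtain ⟨f, hf, rfl⟩ := h
  have h2 : f ∈ (algebraMap κ F).range := by
    by_contra h2
    have h3 := (two_le_ell_iff hD).2 ⟨f, (mem_LL_iff hf).2 hE, h2⟩
    omega
  obtain ⟨c, rfl⟩ := h2
  rw [dv_algebraMap, add_zero]
theorem linEq_zero_of_ell_pos {D : Dv κ F} (h0 : deg D = 0) (h : 0 < ell D) : LinEq D 0 := by
  obtain ⟨E, hE, hDE⟩ := exists_eff_of_ell_pos h
  have h1 : 0 = E := eq_of_le_of_deg_le hE (by rw [← hDE.deg, h0, deg_zero])
  rw [h1]
  exact hDE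

theorem F2_bdd : BddAbove {n : ℕ | ∃ D : Dv κ F, (n : ℤ) = deg D + 1 - ell D} := by
  obtain ⟨t, ht, -⟩ := IsFF.ex (κ := κ) (F := F)
  have ht' : t ∉ (algebraMap κ F).range := by
    rintro ⟨c, rfl⟩
    exact ht (isAlgebraic_algebraMap c)
  obtain ⟨y, C, hy, -, h⟩ := F2_exists_basis ht'
  refine ⟨(deg C).toNat, ?_⟩
  rintro n ⟨D, hD⟩
  have h1 := F2_bound ht' y hy (Fintype.card_fin _) C h D
  omega

theorem F2_nonempty : {n : ℕ | ∃ D : Dv κ F, (n : ℤ) = deg D + 1 - ell D}.Nonempty :=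
  ⟨0, 0, by rw [deg_zero, ell_zero]; rfl⟩

/-- Riemann's inequality -/
theorem riemann (D : Dv κ F) : deg D + 1 - genus κ F ≤ ell D := by
  by_cases h : 0 ≤ deg D + 1 - ell D
  · have h1 : (deg D + 1 - ell D).toNat ≤ genus κ F :=
      le_csSup F2_bdd ⟨D, Int.toNat_of_nonneg h⟩
    omega
  · omega
theorem exists_ell_eq : ∃ D : Dv κ F, (ell D : ℤ) = deg D + 1 - genus κ F := by
  obtain ⟨D, hD⟩ := Nat.sSup_mem (F2_nonempty (κ := κ) (F := F)) F2_bdd
  refine ⟨D, ?_⟩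
  change (genus κ F : ℤ) = _ at hD
  omega
theorem exists_rr_large : ∃ c : ℤ, ∀ D : Dv κ F, c ≤ deg D →
    (ell D : ℤ) = deg D + 1 - genus κ F := by
  obtain ⟨D0, hD0⟩ := exists_ell_eq (κ := κ) (F := F)
  refine ⟨deg D0 + genus κ F, fun D hD => ?_⟩
  have h1 := riemann (D - D0)
  rw [deg_sub] at h1
  obtain ⟨f, hf, hf0⟩ := F2_exists_ne (D := D - D0) (by omega)
  rw [mem_LL_iff hf0, sub_add_eq_add_sub, sub_nonneg] at hf
  have h2 := F2_r_mono hf0 hf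
  have h3 := riemann D
  omega
theorem genus_le {t : F} (ht : t ∉ (algebraMap κ F).range) {ι : Type} [Fintype ι] (y : ι → F)
    (hy : LinearIndependent κ⟮t⟯ y) (hc : Fintype.card ι = Module.finrank κ⟮t⟯ F) (c : ℕ)
    (h : ∀ i, y i ∈ LL (c • dinf κ t)) : genus κ F ≤ Fintype.card ι * c := by
  obtain ⟨D, hD⟩ := exists_ell_eq (κ := κ) (F := F)
  have h1 := F2_bound ht y hy hc _ h D
  rw [deg_nsmul, deg_dinf ht, ← hc] at h1
  have h2 : (genus κ F : ℤ) ≤ (Fintype.card ι : ℤ) * c := by linarith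
  exact_mod_cast h2
/-- base points -/
theorem card_base_le {D : Dv κ F} (h : 0 < ell D) (S : Finset (Place κ F))
    (hS : ∀ P ∈ S, ell (D - pd P) = ell D) : (S.card : ℤ) ≤ deg D := by
  obtain ⟨f, hf, hf0⟩ := F2_exists_ne h
  have h1 : ind S ≤ D + dv κ f := by
    intro P
    have h2 := (mem_LL.1 hf).resolve_left hf0 P
    rw [ind_apply, Finsupp.add_apply, dv_apply]
    split_ifs with hP
    · have h3 : P.ord f ≠ - D P := fun h3 =>
        ((ell_sub_pd_lt_iff D P).2 ⟨f, hf, hf0, h3⟩).ne (hS P hP)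
      omega
    · omega
  have h2 := deg_mono h1
  rwa [deg_ind, deg_add, deg_dv, add_zero] at h2
theorem BPF.exists_avoid {D : Dv κ F} (h : BPF D) (T : Finset (Place κ F)) :
    ∃ f ∈ LL D, f ≠ 0 ∧ ∀ P ∈ T, P.ord f = - D P := by
  obtain ⟨P0⟩ : Nonempty (Place κ F) := inferInstance
  have h1 : ⊤ ∉ (insert P0 T).image fun P => (LL (D - pd P)).comap (LL D).subtype := by
    intro h1
    obtain ⟨P, -, hP⟩ := Finset.mem_image.1 h1
    obtain ⟨f, hf0, hf, hfP⟩ := h P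
    have hf' : f ∈ LL D := mem_LL.2 (Or.inr hf)
    have h2 : (⟨f, hf'⟩ : LL D) ∈ (LL (D - pd P)).comap (LL D).subtype := hP ▸ Submodule.mem_top
    exact (F2_notMem_sub_pd hf').2 ⟨hf0, hfP⟩ h2
  obtain ⟨f, hf⟩ := (Set.ne_univ_iff_exists_notMem _).1
    (Subspace.biUnion_ne_univ_of_top_notMem h1)
  have h2 : ∀ P ∈ insert P0 T, (f : F) ≠ 0 ∧ P.ord (f : F) = - D P := fun P hP =>
    (F2_notMem_sub_pd f.2).1 fun h2 => hf (Set.mem_biUnion
      (Finset.mem_coe.2 (Finset.mem_image_of_mem _ hP)) h2)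
  exact ⟨f, f.2, (h2 P0 (Finset.mem_insert_self _ _)).1,
    fun P hP => (h2 P (Finset.mem_insert_of_mem hP)).2⟩
theorem BPF.exists_dinf {D : Dv κ F} (h : BPF D) :
    ∃ φ : F, φ ≠ 0 ∧ LinEq D (dinf κ φ) := by
  obtain ⟨f, hf, hf0, -⟩ := h.exists_avoid ∅
  obtain ⟨g, hg, hg0, hg'⟩ := h.exists_avoid (D + dv κ f).support
  refine ⟨g / f, div_ne_zero hg0 hf0, f, hf0, ?_⟩
  ext P
  have h1 := (mem_LL.1 hf).resolve_left hf0 P
  have h2 := (mem_LL.1 hg).resolve_left hg0 P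
  have h3 := hg' P
  rw [Finsupp.mem_support_iff, Finsupp.add_apply, dv_apply] at h3
  rw [dinf_apply, P.ord_div hg0 hf0, Finsupp.add_apply, dv_apply]
  by_cases h4 : D P + P.ord f = 0
  · omega
  · have h5 := h3 h4
    omega
theorem bpf_dinf (φ : F) : BPF (dinf κ φ) := by
  intro P
  by_cases h : P.ord φ < 0
  · refine ⟨φ, fun h0 => ?_, fun Q => ?_, ?_⟩
    · rw [h0, P.ord_zero] at h
      exact lt_irrefl _ h
    · rw [dinf_apply]
      omega
    · rw [dinf_apply]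
      omega
  · refine ⟨1, one_ne_zero, fun Q => ?_, ?_⟩
    · rw [dinf_apply, Q.ord_one]
      omega
    · rw [dinf_apply, P.ord_one]
      omega
theorem BPF.two_le_ell {D : Dv κ F} (h : BPF D) (hD : 0 < deg D) : 2 ≤ ell D := by
  obtain ⟨φ, -, hφ⟩ := h.exists_dinf
  rw [hφ.ell]
  refine (two_le_ell_iff (F2_dinf_nonneg φ)).2 ⟨φ, mem_LL_dinf φ, ?_⟩
  rintro ⟨c, rfl⟩
  have h1 : dinf κ (algebraMap κ F c) = 0 := by
    ext P
    rw [dinf_apply, P.ord_algebraMap]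
    rfl
  rw [hφ.deg, h1, deg_zero] at hD
  exact lt_irrefl _ hD

end Pool.Agent.E6b
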