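import Pool.Agent.E6b.F1

open scoped NNReal TensorProduct IntermediateField BigOperators Classical Topology
open Filter

namespace Pool.Agent.E6b

variable {κ F : Type} [Field κ] [IsAlgClosed κ] [CharZero κ] [Field F] [Algebra κ F] [IsFF κ F]

theorem F2_pd_apply (P Q : Place κ F) : pd P Q = if P = Q then 1 else 0 := by
  unfold pd
  rw [Finsupp.single_apply]

theorem F2_pd_nonneg (P : Place κ F) : 0 ≤ pd P := by
  intro Q
  rw [F2_pd_apply]
  split_ifs <;> simp

theorem F2_le_add_pd (D : Dv κ F) (P : Place κ F) : D ≤ D + pd P :=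
  le_add_of_nonneg_right (F2_pd_nonneg P)

theorem F2_sub_pd_le (D : Dv κ F) (P : Place κ F) : D - pd P ≤ D :=
  sub_le_self _ (F2_pd_nonneg P)

theorem F2_dinf_nonneg (f : F) : 0 ≤ dinf κ f := by
  intro P
  rw [dinf_apply]
  exact le_max_right _ _

theorem F2_dv_zero : dv κ (0 : F) = 0 := by
  ext P
  rw [dv_apply, P.ord_zero]
  rfl

theorem F2_mem_LL_zero {f : F} : f ∈ LL (0 : Dv κ F) ↔ f ∈ (algebraMap κ F).range := by
  constructor
  · intro h
    refine mem_range_of_forall_mem fun P => P.mem_iff.2 ?_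
    rcases mem_LL.1 h with rfl | h
    · rw [P.ord_zero]
    · simpa using h P
  · rintro ⟨c, rfl⟩
    refine mem_LL.2 (Or.inr fun P => ?_)
    rw [P.ord_algebraMap]
    simp

theorem F2_LL_zero : LL (0 : Dv κ F) = Submodule.span κ {(1 : F)} := by
  ext f
  rw [F2_mem_LL_zero, Submodule.mem_span_singleton]
  constructor
  · rintro ⟨c, rfl⟩
    exact ⟨c, by rw [Algebra.smul_def, mul_one]⟩
  · rintro ⟨c, rfl⟩
    exact ⟨c, by rw [Algebra.smul_def, mul_one]⟩

theorem F2_notMem_sub_pd {D : Dv κ F} {P : Place κ F} {f : F} (hf : f ∈ LL D) :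
    f ∉ LL (D - pd P) ↔ f ≠ 0 ∧ P.ord f = - D P := by
  constructor
  · intro h
    have h0 : f ≠ 0 := fun h0 => h (h0 ▸ Submodule.zero_mem _)
    refine ⟨h0, ?_⟩
    have h1 := (mem_LL.1 hf).resolve_left h0
    by_contra h2
    refine h (mem_LL.2 (Or.inr fun Q => ?_))
    rw [Finsupp.sub_apply, F2_pd_apply]
    have h3 := h1 Q
    split_ifs with hPQ
    · subst hPQ
      omega
    · omega
  · rintro ⟨h0, h1⟩ h
    have h2 := (mem_LL.1 h).resolve_left h0 P
    rw [Finsupp.sub_apply, F2_pd_apply, if_pos rfl] at h2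
    omega

theorem F2_exists_fun (D : Dv κ F) (P : Place κ F) :
    ∃ φ : LL D →ₗ[κ] κ, LinearMap.ker φ = (LL (D - pd P)).comap (LL D).subtype := by
  obtain ⟨u, hu0, hu⟩ := P.exists_ord_eq (D P)
  have hm : ∀ f : LL D, u * (f : F) ∈ P.O := by
    intro f
    rw [P.mem_iff]
    by_cases h0 : (f : F) = 0
    · rw [h0, mul_zero, P.ord_zero]
    · have h1 := (mem_LL.1 f.2).resolve_left h0 P
      rw [P.ord_mul hu0 h0, hu]
      omega
  refine ⟨⟨⟨fun f => P.ev (u * f), fun f g => ?_⟩, fun c f => ?_⟩, ?_⟩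
  · rw [Submodule.coe_add, mul_add, P.ev_add (hm f) (hm g)]
  · simp only [Submodule.coe_smul, RingHom.id_apply, smul_eq_mul]
    rw [mul_smul_comm, P.ev_smul c (hm f)]
  · ext f
    rw [LinearMap.mem_ker, Submodule.mem_comap]
    change P.ev (u * f) = 0 ↔ (f : F) ∈ LL (D - pd P)
    rw [P.ev_eq_zero_iff (hm f), ← not_iff_not, F2_notMem_sub_pd f.2]
    by_cases h0 : (f : F) = 0
    · simp [h0]
    · have h1 := (mem_LL.1 f.2).resolve_left h0 P
      rw [P.ord_mul hu0 h0, hu]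
      simp only [mul_eq_zero, hu0, h0, or_self, false_or, not_lt, ne_eq, not_false_eq_true,
        true_and]
      omega

theorem F2_step (D : Dv κ F) (P : Place κ F) (h : Module.Finite κ (LL (D - pd P))) :
    Module.Finite κ (LL D) ∧ ell D ≤ ell (D - pd P) + 1 := by
  obtain ⟨φ, hφ⟩ := F2_exists_fun D P
  have e : LinearMap.ker φ ≃ₗ[κ] LL (D - pd P) :=
    (LinearEquiv.ofEq _ _ hφ).trans (Submodule.comapSubtypeEquivOfLe (LL_mono (F2_sub_pd_le D P)))
  have hk : Module.Finite κ (LinearMap.ker φ) := Module.Finite.equiv e.symm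
  have hf : Module.Finite κ (LL D) := by
    refine ⟨Submodule.fg_of_fg_map_of_fg_inf_ker φ (IsNoetherian.noetherian _) ?_⟩
    rw [top_inf_eq]
    exact Module.Finite.iff_fg.1 hk
  refine ⟨hf, ?_⟩
  have h1 := φ.finrank_range_add_finrank_ker
  have h2 := (LinearMap.range φ).finrank_le
  rw [Module.finrank_self] at h2
  rw [e.finrank_eq] at h1
  unfold ell
  omega

theorem F2_steps (D : Dv κ F) (h : Module.Finite κ (LL D)) (n : ℕ) (P : Fin n → Place κ F) :
    Module.Finite κ (LL (D + ∑ i, pd (P i))) ∧ ell (D + ∑ i, pd (P i)) ≤ ell D + n := by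
  induction n with
  | zero =>
    rw [Finset.univ_eq_empty, Finset.sum_empty, add_zero]
    exact ⟨h, le_rfl⟩
  | succ n ih =>
    obtain ⟨h1, h2⟩ := ih fun i => P i.castSucc
    rw [Fin.sum_univ_castSucc, ← add_assoc]
    obtain ⟨h3, h4⟩ := F2_step (D + ∑ i : Fin n, pd (P i.castSucc) + pd (P (Fin.last n)))
      (P (Fin.last n)) (by rwa [add_sub_cancel_right])
    rw [add_sub_cancel_right] at h4
    exact ⟨h3, by omega⟩

theorem F2_deg_nonneg {D : Dv κ F} (h : 0 ≤ D) : 0 ≤ deg D := by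
  have h1 := deg_mono h
  rwa [deg_zero] at h1

theorem F2_finite (D : Dv κ F) : Module.Finite κ (LL D) := by
  have h0 : Module.Finite κ (LL (0 : Dv κ F)) := by
    rw [F2_LL_zero]
    infer_instance
  have h1 : (0 : Dv κ F) ≤ D ⊔ 0 := le_sup_right
  obtain ⟨P, hP⟩ := exists_eq_sum_pd h1 (Int.toNat_of_nonneg (F2_deg_nonneg h1)).symm
  have h2 := (F2_steps 0 h0 _ P).1
  rw [zero_add, ← hP] at h2
  exact Module.Finite.of_injective (Submodule.inclusion (LL_mono (le_sup_left : D ≤ D ⊔ 0)))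
    (Submodule.inclusion_injective _)

theorem F2_ell_add_le (D : Dv κ F) {E : Dv κ F} (h : 0 ≤ E) :
    (ell (D + E) : ℤ) ≤ ell D + deg E := by
  have h1 := (Int.toNat_of_nonneg (F2_deg_nonneg h)).symm
  obtain ⟨P, hP⟩ := exists_eq_sum_pd h h1
  have h2 := (F2_steps D (F2_finite D) _ P).2
  rw [← hP] at h2
  omega

theorem F2_ell_zero : ell (0 : Dv κ F) = 1 := by
  unfold ell
  rw [F2_LL_zero]
  exact finrank_span_singleton one_ne_zero

theorem F2_ell_add_dv (D : Dv κ F) {f : F} (hf : f ≠ 0) : ell (D + dv κ f) = ell D := by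
  have h : (LL (D + dv κ f)).map
      (((Units.mk0 f hf).mulLeftLinearEquiv κ F : F ≃ₗ[κ] F) : F →ₗ[κ] F) = LL D := by
    ext g
    rw [Submodule.mem_map_equiv]
    change f⁻¹ * g ∈ _ ↔ _
    by_cases hg : g = 0
    · simp [hg]
    · rw [mem_LL_iff hg, mem_LL_iff (mul_ne_zero (inv_ne_zero hf) hg), dv_mul (inv_ne_zero hf) hg,
        dv_inv, add_assoc, add_neg_cancel_left]
  unfold ell
  rw [← h, LinearEquiv.finrank_map_eq]

end Pool.Agent.E6b
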