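import Pool.Agent.E6b.F3Aux1

open scoped NNReal TensorProduct IntermediateField BigOperators Classical Topology
open Filter

namespace Pool.Agent.E6b

variable {κ F : Type} [Field κ] [IsAlgClosed κ] [CharZero κ] [Field F] [Algebra κ F] [IsFF κ F]

/-- Weil differentials bounded by a divisor -/
noncomputable def F3Om (D : Dv κ F) : Submodule κ (Module.Dual κ (F3A κ F)) :=
  (F3B D).dualAnnihilator

theorem F3_mem_Om {D : Dv κ F} {ω : Module.Dual κ (F3A κ F)} :
    ω ∈ F3Om D ↔ (∀ α ∈ F3AD D, ω α = 0) ∧ ∀ f : F, ω (F3dg κ f) = 0 := by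
  rw [F3Om, Submodule.mem_dualAnnihilator]
  constructor
  · intro h
    exact ⟨fun α hα => h α (Submodule.mem_sup_left hα),
      fun f => h _ (Submodule.mem_sup_right ⟨f, rfl⟩)⟩
  · rintro ⟨h1, h2⟩ w hw
    obtain ⟨α, hα, β, ⟨f, rfl⟩, rfl⟩ := Submodule.mem_sup.1 hw
    rw [map_add, h1 α hα, h2, add_zero]

theorem F3Om_finrank (D : Dv κ F) : Module.Finite κ (F3Om D) ∧
    (Module.finrank κ (F3Om D) : ℤ) = ell D - deg D - 1 + genus κ F := by
  obtain ⟨h1, h2⟩ := F3_codim D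
  refine ⟨Submodule.finite_dualAnnihilator_iff.2 h1, ?_⟩
  rw [← h2, F3Om, ← (F3B D).dualQuotEquivDualAnnihilator.finrank_eq, Subspace.dual_finrank_eq]

/-- the action of functions on a differential -/
noncomputable def F3act (ω : Module.Dual κ (F3A κ F)) : F →ₗ[κ] Module.Dual κ (F3A κ F) where
  toFun f :=
    { toFun := fun α => ω (f • α)
      map_add' := fun a b => by rw [smul_add, map_add]
      map_smul' := fun c a => by rw [smul_comm f c a, map_smul]; rfl }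
  map_add' f g := by
    ext α
    change ω ((f + g) • α) = ω (f • α) + ω (g • α)
    rw [add_smul, map_add]
  map_smul' c f := by
    ext α
    change ω ((c • f) • α) = c • ω (f • α)
    rw [smul_assoc, map_smul]

theorem F3act_apply (ω : Module.Dual κ (F3A κ F)) (f : F) (α : F3A κ F) :
    F3act ω f α = ω (f • α) := rfl

theorem F3act_mul (ω : Module.Dual κ (F3A κ F)) (f g : F) :
    F3act (F3act ω f) g = F3act ω (f * g) := by
  ext α
  rw [F3act_apply, F3act_apply, F3act_apply, mul_smul]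

theorem F3act_one (ω : Module.Dual κ (F3A κ F)) : F3act ω 1 = ω := by
  ext α
  rw [F3act_apply, one_smul]

theorem F3act_zero (f : F) : F3act (0 : Module.Dual κ (F3A κ F)) f = 0 := by
  ext α
  rfl

theorem F3act_eq_zero {ω : Module.Dual κ (F3A κ F)} (hω : ω ≠ 0) {f : F} (h : F3act ω f = 0) :
    f = 0 := by
  by_contra hf
  apply hω
  rw [← F3act_one ω, ← mul_inv_cancel₀ hf, ← F3act_mul, h, F3act_zero]

theorem F3act_mem {D E : Dv κ F} {ω : Module.Dual κ (F3A κ F)} (hω : ω ∈ F3Om D) {f : F}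
    (hf : f ∈ LL E) : F3act ω f ∈ F3Om (D - E) := by
  rw [F3_mem_Om] at hω ⊢
  refine ⟨fun α hα => hω.1 _ fun P => ?_, fun g => hω.2 (f * g)⟩
  refine ((F3_mem_LL.1 hf P).mul (hα P)).mono ?_
  simp

/-- the differentials form a line over the function field -/
theorem F3_line {D₁ D₂ : Dv κ F} {ω₁ ω₂ : Module.Dual κ (F3A κ F)} (h₁ : ω₁ ∈ F3Om D₁)
    (h₂ : ω₂ ∈ F3Om D₂) (hne : ω₁ ≠ 0) : ∃ f : F, ω₂ = F3act ω₁ f := by
  by_cases h0 : ω₂ = 0
  · exact ⟨0, by rw [h0, map_zero]⟩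
  obtain ⟨B, -, hB⟩ := F3_exists_ge (0 : Dv κ F)
    (max 1 (3 * genus κ F - deg D₁ - deg D₂))
  obtain ⟨hfin, hr⟩ := F3Om_finrank (-B)
  have hl : ell (-B) = 0 := ell_eq_zero_iff.2 (LL_eq_bot (by rw [deg_neg]; omega))
  let Φ : (LL (D₁ + B) × LL (D₂ + B)) →ₗ[κ] F3Om (-B) :=
    LinearMap.codRestrict (F3Om (-B))
      (((F3act ω₁).domRestrict (LL (D₁ + B))).coprod (-(F3act ω₂).domRestrict (LL (D₂ + B))))
      (by
        rintro ⟨f, g⟩
        have a1 := F3act_mem h₁ f.2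
        have a2 := F3act_mem h₂ g.2
        rw [sub_add_cancel_left] at a1 a2
        exact add_mem a1 (neg_mem a2))
  have hk : LinearMap.ker Φ ≠ ⊥ := by
    refine LinearMap.ker_ne_bot_of_finrank_lt (K := κ) (V := LL (D₁ + B) × LL (D₂ + B))
      (V₂ := F3Om (-B)) (f := Φ) ?_
    rw [Module.finrank_prod]
    have r1 := riemann (D₁ + B)
    have r2 := riemann (D₂ + B)
    rw [deg_add] at r1 r2
    rw [deg_neg, hl] at hr
    change _ < ell (D₁ + B) + ell (D₂ + B)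
    omega
  obtain ⟨⟨f, g⟩, hfg, hne'⟩ := (Submodule.ne_bot_iff _).1 hk
  have e : F3act ω₁ f = F3act ω₂ g := by
    have := congrArg Subtype.val (LinearMap.mem_ker.1 hfg)
    change F3act ω₁ f + - F3act ω₂ g = 0 at this
    rwa [add_neg_eq_zero] at this
  have hg : (g : F) ≠ 0 := by
    intro hg
    rw [hg, map_zero] at e
    exact hne' (Prod.ext (Subtype.ext (F3act_eq_zero hne e)) (Subtype.ext hg))
  refine ⟨f * (g : F)⁻¹, ?_⟩
  rw [← F3act_mul, e, F3act_mul, mul_inv_cancel₀ hg, F3act_one]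

theorem F3Om_sup {D E : Dv κ F} {ω : Module.Dual κ (F3A κ F)} (hD : ω ∈ F3Om D)
    (hE : ω ∈ F3Om E) : ω ∈ F3Om (D ⊔ E) := by
  rw [F3_mem_Om] at hD hE ⊢
  refine ⟨fun α hα => ?_, hD.2⟩
  have h1 : ∀ P, F3ge P (- D P) (if E P ≤ D P then α.1 P else 0) := by
    intro P
    split_ifs with h
    · have := hα P
      rwa [Finsupp.sup_apply, sup_eq_left.2 h] at this
    · exact F3ge_zero _ _
  let β : F3A κ F := ⟨fun P => if E P ≤ D P then α.1 P else 0, D, h1⟩
  have h2 : α - β ∈ F3AD E := by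
    intro P
    change F3ge P (- E P) (α.1 P - if E P ≤ D P then α.1 P else 0)
    split_ifs with h
    · rw [sub_self]; exact F3ge_zero _ _
    · have := hα P
      rwa [Finsupp.sup_apply, sup_eq_right.2 (not_le.1 h).le, ← sub_zero (α.1 P)] at this
  have : α = β + (α - β) := by abel
  rw [this, map_add, hD.1 β h1, hE.1 _ h2, add_zero]

/-- the divisor of a differential -/
theorem F3_exists_max {D : Dv κ F} {ω : Module.Dual κ (F3A κ F)} (hD : ω ∈ F3Om D) (hne : ω ≠ 0) :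
    ∃ W : Dv κ F, ω ∈ F3Om W ∧ ∀ E, ω ∈ F3Om E → E ≤ W := by
  obtain ⟨c, hc⟩ := F3B_eq_top (κ := κ) (F := F)
  obtain ⟨n, ⟨W, hW, rfl⟩, hmax⟩ := Int.exists_greatest_of_bdd
    (P := fun n => ∃ E : Dv κ F, ω ∈ F3Om E ∧ deg E = n)
    ⟨c, by
      rintro _ ⟨E, hE, rfl⟩
      by_contra h
      rw [F3Om, hc E (not_le.1 h).le, Submodule.dualAnnihilator_top, Submodule.mem_bot] at hE
      exact hne hE⟩ ⟨_, D, hD, rfl⟩
  refine ⟨W, hW, fun E hE => ?_⟩
  have h1 := hmax _ ⟨_, F3Om_sup hW hE, rfl⟩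
  have h2 := eq_of_le_of_deg_le (le_sup_left : W ≤ W ⊔ E) h1
  rw [h2]
  exact le_sup_right

theorem F3_exists_canonical : ∃ W : Dv κ F, ∀ D : Dv κ F,
    (ell (W - D) : ℤ) = ell D - deg D - 1 + genus κ F := by
  obtain ⟨B, -, hB⟩ := F3_exists_ge (0 : Dv κ F) 2
  obtain ⟨hfin, hr⟩ := F3Om_finrank (-B)
  rw [deg_neg] at hr
  have hb : F3Om (-B) ≠ ⊥ := by
    intro h
    rw [h, finrank_bot] at hr
    omega
  obtain ⟨ω, hω, hne⟩ := (Submodule.ne_bot_iff _).1 hb
  obtain ⟨W, hW, hmax⟩ := F3_exists_max hω hne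
  refine ⟨W, fun D => ?_⟩
  rw [← (F3Om_finrank D).2]
  let Φ : LL (W - D) →ₗ[κ] F3Om D :=
    LinearMap.codRestrict (F3Om D) ((F3act ω).domRestrict (LL (W - D)))
      (fun f => by simpa using F3act_mem hW f.2)
  have hinj : Function.Injective Φ := by
    rw [injective_iff_map_eq_zero]
    intro f hf
    exact Subtype.ext (F3act_eq_zero hne (congrArg Subtype.val hf))
  have hsurj : Function.Surjective Φ := by
    rintro ⟨ω', hω'⟩
    obtain ⟨f, rfl⟩ := F3_line hW hω' hne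
    by_cases hf : f = 0
    · exact ⟨0, Subtype.ext (by simp [hf])⟩
    have h1 : f⁻¹ ∈ LL (dv κ f) := by
      rw [mem_LL_iff (inv_ne_zero hf), dv_inv, add_neg_cancel]
    have h2 := F3act_mem hω' h1
    rw [F3act_mul, mul_inv_cancel₀ hf, F3act_one] at h2
    have h3 := hmax _ h2
    refine ⟨⟨f, (mem_LL_iff hf).2 fun P => ?_⟩, rfl⟩
    have := h3 P
    simp only [Finsupp.coe_sub, Pi.sub_apply, Finsupp.coe_zero, Pi.zero_apply, Finsupp.coe_add,
      Pi.add_apply] at this ⊢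
    omega
  rw [← (LinearEquiv.ofBijective Φ ⟨hinj, hsurj⟩).finrank_eq]
  rfl

end Pool.Agent.E6b
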