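import Pool.Agent.E6b.F3Aux1

open scoped NNReal TensorProduct IntermediateField BigOperators Classical Topology
open Filter

namespace Pool.Agent.E6b

open Polynomial

section
variable {κ F : Type} [Field κ] [Field F] [Algebra κ F]

/-- elements congruent to a constant modulo `s R` -/
def F3T (R : Subalgebra κ F) {s : F} (hs : s ∈ R) : Subalgebra κ F where
  carrier := {x | ∃ c : κ, ∃ z ∈ R, x = algebraMap κ F c + s * z}
  mul_mem' := by
    rintro _ _ ⟨c, z, hz, rfl⟩ ⟨c', z', hz', rfl⟩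
    refine ⟨c * c', algebraMap κ F c * z' + algebraMap κ F c' * z + s * z * z',
      add_mem (add_mem (mul_mem (R.algebraMap_mem _) hz') (mul_mem (R.algebraMap_mem _) hz))
        (mul_mem (mul_mem hs hz) hz'), ?_⟩
    rw [map_mul]; ring
  add_mem' := by
    rintro _ _ ⟨c, z, hz, rfl⟩ ⟨c', z', hz', rfl⟩
    refine ⟨c + c', z + z', add_mem hz hz', ?_⟩
    rw [map_add]; ring
  algebraMap_mem' c := ⟨c, 0, zero_mem _, by simp⟩

theorem F3_mem_T {R : Subalgebra κ F} {s : F} (hs : s ∈ R) {x : F} :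
    x ∈ F3T R hs ↔ ∃ c : κ, ∃ z ∈ R, x = algebraMap κ F c + s * z := Iff.rfl

/-- second order expansion inside a subalgebra -/
theorem F3_taylor {A O : Subalgebra κ F} (h : A ≤ O) (M : A[X]) {a b : F} (ha : a ∈ O)
    (hb : b ∈ O) : aeval a (derivative M) ∈ O ∧
      ∃ k ∈ O, aeval (a + b) M = aeval a M + aeval a (derivative M) * b + k * b ^ 2 := by
  let ι : A →+* O := (Subalgebra.inclusion h).toRingHom
  have key : ∀ (p : A[X]) (z : O), (((p.map ι).eval z : O) : F) = aeval (z : F) p := by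
    intro p z
    rw [eval_map, aeval_def]
    exact hom_eval₂ p ι O.val.toRingHom z
  obtain ⟨k, hk⟩ := (M.map ι).binomExpansion ⟨a, ha⟩ ⟨b, hb⟩
  rw [derivative_map] at hk
  refine ⟨by rw [← key _ ⟨a, ha⟩]; exact Subtype.mem _, k, k.2, ?_⟩
  have := congrArg (fun z : O => (z : F)) hk
  simp only [Subalgebra.coe_add, Subalgebra.coe_mul, Subalgebra.coe_pow, key] at this
  exact this

open scoped IntermediateField.algebraAdjoinAdjoin in
theorem F3_exists_rel [CharZero κ] (t y : F) [FiniteDimensional κ⟮t⟯ F] :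
    ∃ M : (Algebra.adjoin κ {t})[X], aeval y M = 0 ∧ aeval y (derivative M) ≠ 0 := by
  have : CharZero κ⟮t⟯ := algebraRat.charZero _
  have hsep : (minpoly κ⟮t⟯ y).Separable := Algebra.IsSeparable.isSeparable κ⟮t⟯ y
  have hd := hsep.aeval_derivative_ne_zero (minpoly.aeval κ⟮t⟯ y)
  obtain ⟨b, hb, hM⟩ := IsLocalization.integerNormalization_spec
    (nonZeroDivisors (Algebra.adjoin κ {t})) (minpoly κ⟮t⟯ y)
  refine ⟨_, IsLocalization.integerNormalization_aeval_eq_zero
    (nonZeroDivisors (Algebra.adjoin κ {t})) _ (minpoly.aeval κ⟮t⟯ y), ?_⟩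
  rw [← aeval_map_algebraMap κ⟮t⟯, ← derivative_map, hM, derivative_smul, aeval_def,
    ← algebraMap_smul κ⟮t⟯ b, eval₂_smul, ← aeval_def]
  refine mul_ne_zero ?_ hd
  have := nonZeroDivisors.ne_zero hb
  simpa using this

end

variable {κ F : Type} [Field κ] [IsAlgClosed κ] [CharZero κ] [Field F] [Algebra κ F] [IsFF κ F]

theorem F3_adjoin_le (P : Place κ F) {S : Set F} (h : ∀ x ∈ S, x ∈ P.O) :
    ∀ x ∈ Algebra.adjoin κ S, x ∈ P.O := by
  intro x hx
  induction hx using Algebra.adjoin_induction with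
  | mem x hx => exact h x hx
  | algebraMap c => exact P.const c
  | add x y _ _ hx hy => exact add_mem hx hy
  | mul x y _ _ hx hy => exact mul_mem hx hy

theorem F3_dvd (P : Place κ F) {s : F} (hs0 : s ≠ 0) (hpos : 0 < P.ord s) (R : Subalgebra κ F)
    (hs : s ∈ R) (hR : ∀ x ∈ R, x ∈ P.O) (hT : R ≤ F3T R hs) :
    ∀ x ∈ R, x ≠ 0 → P.ord s ∣ P.ord x := by
  have key : ∀ n : ℕ, ∀ x ∈ R, x ≠ 0 → P.ord x < n → P.ord s ∣ P.ord x := by
    intro n
    induction n with
    | zero =>
      intro x hx _ h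
      have := P.mem_iff.1 (hR x hx)
      omega
    | succ n ih =>
      intro x hx h0 h
      obtain ⟨c, z, hz, rfl⟩ := (F3_mem_T hs).1 (hT hx)
      have hz0 := P.mem_iff.1 (hR z hz)
      by_cases hc : c = 0
      · subst hc
        rw [map_zero, zero_add] at h0 h ⊢
        have hz1 : z ≠ 0 := right_ne_zero_of_mul h0
        rw [P.ord_mul hs0 hz1] at h ⊢
        exact dvd_add dvd_rfl (ih z hz hz1 (by omega))
      · have := P.ord_add_eq (f := algebraMap κ F c) (g := s * z) (by simpa using hc) (by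
          by_cases hz1 : z = 0
          · exact Or.inl (by simp [hz1])
          · refine Or.inr ?_
            rw [P.ord_mul hs0 hz1, P.ord_algebraMap]; omega)
        rw [this.2, P.ord_algebraMap]
        exact dvd_zero _
  intro x hx h0
  exact key ((P.ord x).toNat + 1) x hx h0 (by omega)

theorem F3_unram {t y : F} (ht : t ∉ (algebraMap κ F).range) (hy : κ⟮t⟯⟮y⟯ = ⊤)
    {A : Subalgebra κ F} (hA : A ≤ Algebra.adjoin κ {t})
    (M : A[X]) (hM : aeval y M = 0) (hM' : aeval y (derivative M) ≠ 0)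
    (P : Place κ F) (h1 : t ∈ P.O) (h2 : y ∈ P.O) (h3 : P.ord (aeval y (derivative M)) = 0) :
    P.ord (t - algebraMap κ F (P.ev t)) = 1 := by
  set s := t - algebraMap κ F (P.ev t) with hsd
  set u := algebraMap κ F (P.ev y) - y with hud
  have hs0 : s ≠ 0 := fun h => ht ⟨_, (sub_eq_zero.1 h).symm⟩
  have hpos : 0 < P.ord s := (P.ev_spec h1).resolve_left fun h => ht ⟨_, h.symm⟩
  have hu : F3ge P 1 u := by
    have : F3ge P 1 (y - algebraMap κ F (P.ev y)) :=
      (P.ev_spec h2).imp (fun h => sub_eq_zero.2 h) id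
    simpa using this.neg
  set O := Algebra.adjoin κ {t, y} with hO
  have hAO : A ≤ O := hA.trans (Algebra.adjoin_mono (by simp))
  have htO : t ∈ O := Algebra.subset_adjoin (by simp)
  have hyO : y ∈ O := Algebra.subset_adjoin (by simp)
  have huO : u ∈ O := sub_mem (O.algebraMap_mem _) hyO
  have hOP : ∀ x ∈ O, x ∈ P.O := F3_adjoin_le P (by rintro x (rfl | rfl) <;> assumption)
  obtain ⟨hdO, k, hk, hexp⟩ := F3_taylor hAO M hyO huO
  set d := aeval y (derivative M) with hd
  set N := d + k * u with hN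
  have hku : F3ge P 1 (k * u) := by
    have h0 : F3ge P 0 k := Or.inr (P.mem_iff.1 (hOP k hk))
    simpa using h0.mul hu
  have hNo : N ≠ 0 ∧ P.ord N = P.ord d := P.ord_add_eq hM' (hku.imp id fun h => by omega)
  rw [h3] at hNo
  have hNO : N ∈ O := add_mem hdO (mul_mem hk huO)
  have huN : u * N ∈ A := by
    have e1 : u * N = aeval (algebraMap A F (algebraMap κ A (P.ev y))) M := by
      rw [← IsScalarTower.algebraMap_apply, show algebraMap κ F (P.ev y) = y + u by simp [hud],
        hexp, hM, hN]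
      ring
    rw [e1, aeval_algebraMap_apply_eq_algebraMap_eval]
    exact Subtype.mem _
  set R := Algebra.adjoin κ {t, y, N⁻¹} with hR
  have hOR : O ≤ R := Algebra.adjoin_mono (by intro x hx; rcases hx with rfl | rfl <;> simp)
  have hNR : N⁻¹ ∈ R := Algebra.subset_adjoin (by simp)
  have hsR : s ∈ R := sub_mem (hOR htO) (R.algebraMap_mem _)
  have hRP : ∀ x ∈ R, x ∈ P.O := F3_adjoin_le P (by
    rintro x (rfl | rfl | rfl)
    · assumption
    · assumption
    · rw [P.mem_iff, P.ord_inv, hNo.2]; simp)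
  have hsz : ∀ z ∈ R, F3ge P 1 (s * z) := by
    intro z hz
    have h0 : F3ge P 0 z := Or.inr (P.mem_iff.1 (hRP z hz))
    have h1 : F3ge P 1 s := Or.inr hpos
    simpa using h1.mul h0
  have htT : t ∈ F3T R hsR := ⟨P.ev t, 1, one_mem _, by simp [hsd]⟩
  have hAT : A ≤ F3T R hsR := hA.trans (Algebra.adjoin_le (by rintro x rfl; exact htT))
  have hyT : y ∈ F3T R hsR := by
    obtain ⟨c, z, hz, e⟩ := (F3_mem_T hsR).1 (hAT huN)
    have hc : c = 0 := by
      by_contra hc
      have h4 : F3ge P 1 (u * N) := by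
        have h0 : F3ge P 0 N := Or.inr hNo.2.ge
        simpa using hu.mul h0
      have h5 : F3ge P 1 (algebraMap κ F c) := by
        have := h4.add (hsz z hz).neg
        rwa [e, add_neg_cancel_right] at this
      rcases h5 with h5 | h5
      · exact hc (by simpa using h5)
      · rw [P.ord_algebraMap] at h5; omega
    rw [hc, map_zero, zero_add] at e
    refine ⟨P.ev y, -(z * N⁻¹), neg_mem (mul_mem hz hNR), ?_⟩
    have : u = s * z * N⁻¹ := by rw [← e, mul_assoc, mul_inv_cancel₀ hNo.1, mul_one]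
    rw [mul_neg, ← mul_assoc, ← this, hud]; ring
  have hOT : O ≤ F3T R hsR := Algebra.adjoin_le (by rintro x (rfl | rfl) <;> assumption)
  have hNT : N⁻¹ ∈ F3T R hsR := by
    obtain ⟨c, z, hz, e⟩ := (F3_mem_T hsR).1 (hOT hNO)
    have hc : algebraMap κ F c ≠ 0 := by
      intro hc
      rw [hc, zero_add] at e
      rcases hsz z hz with h | h
      · exact hNo.1 (e.trans h)
      · rw [← e, hNo.2] at h; omega
    refine ⟨c⁻¹, -(z * N⁻¹ * algebraMap κ F c⁻¹),
      neg_mem (mul_mem (mul_mem hz hNR) (R.algebraMap_mem _)), ?_⟩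
    have hN0 := hNo.1
    rw [map_inv₀]
    field_simp
    rw [e]; ring
  have hRT : R ≤ F3T R hsR := Algebra.adjoin_le (by rintro x (rfl | rfl | rfl) <;> assumption)
  have hdvd := F3_dvd P hs0 hpos R hsR hRP hRT
  obtain ⟨π, hπ0, hπ⟩ := P.exists_ord_eq 1
  have hmem : π ∈ κ⟮t, y⟯ := by
    rw [← IntermediateField.adjoin_simple_adjoin_simple, hy]
    trivial
  obtain ⟨a, ha, b, hb, rfl⟩ := IntermediateField.mem_adjoin_iff_div.1 hmem
  have ha0 : a ≠ 0 := fun h => hπ0 (by simp [h])
  have hb0 : b ≠ 0 := fun h => hπ0 (by simp [h])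
  rw [P.ord_div ha0 hb0] at hπ
  have h1 : P.ord s ∣ 1 := hπ ▸ dvd_sub (hdvd a (hOR ha) ha0) (hdvd b (hOR hb) hb0)
  exact Int.eq_one_of_dvd_one hpos.le h1

theorem F3_finite_ram {t : F} (ht : t ∉ (algebraMap κ F).range) :
    {P : Place κ F | P.ord (t - algebraMap κ F (P.ev t)) ≠ 1}.Finite := by
  have := finiteDimensional_of_transcendental (transcendental_of_notMem ht)
  have : CharZero κ⟮t⟯ := algebraRat.charZero _
  obtain ⟨y, hy⟩ := Field.exists_primitive_element κ⟮t⟯ F
  obtain ⟨M, hM, hM'⟩ := F3_exists_rel (κ := κ) t y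
  refine ((dv κ t).support ∪ (dv κ y).support ∪
    (dv κ (aeval y (derivative M))).support).finite_toSet.subset fun P hP => ?_
  by_contra hc
  simp only [Finset.coe_union, Set.mem_union, Finset.mem_coe, Finsupp.mem_support_iff, dv_apply,
    not_or, not_not] at hc
  exact hP (F3_unram ht hy le_rfl M hM hM' P (P.mem_iff.2 hc.1.1.ge) (P.mem_iff.2 hc.1.2.ge) hc.2)

end Pool.Agent.E6b
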