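import Pool.Agent.E6b.F2
import Pool.Agent.E6b.F3Aux2
import Pool.Agent.E6b.F3Aux3

open scoped NNReal TensorProduct IntermediateField BigOperators Classical Topology
open Filter

namespace Pool.Agent.E6b

variable {κ F : Type} [Field κ] [IsAlgClosed κ] [CharZero κ] [Field F] [Algebra κ F] [IsFF κ F]

/-- Riemann-Roch (Weil differentials) -/
theorem exists_canonical : ∃ W : Dv κ F, ∀ D : Dv κ F,
    (ell (W - D) : ℤ) = ell D - deg D - 1 + genus κ F := F3_exists_canonical

theorem canonical_deg {W : Dv κ F} (hW : ∀ D : Dv κ F,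
    (ell (W - D) : ℤ) = ell D - deg D - 1 + genus κ F) :
    deg W = 2 * genus κ F - 2 ∧ ell W = genus κ F := by
  have h0 := hW 0
  have h1 := hW W
  rw [sub_zero, ell_zero, deg_zero] at h0
  rw [sub_self, ell_zero] at h1
  omega

theorem rr_large {D : Dv κ F} (h : 2 * (genus κ F : ℤ) - 1 ≤ deg D) :
    (ell D : ℤ) = deg D + 1 - genus κ F := by
  obtain ⟨W, hW⟩ := exists_canonical (κ := κ) (F := F)
  have h1 := (canonical_deg hW).1
  have h2 : ell (W - D) = 0 := ell_eq_zero_iff.2 (LL_eq_bot (by rw [deg_sub]; omega))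
  have h3 := hW D
  omega

theorem bpf_of_large {D : Dv κ F} (h : 2 * (genus κ F : ℤ) ≤ deg D) : BPF D := by
  intro P
  have h1 := rr_large (D := D) (by omega)
  have h2 := rr_large (D := D - pd P) (by rw [deg_sub, deg_pd]; omega)
  rw [deg_sub, deg_pd] at h2
  obtain ⟨f, hf, hf0, hP⟩ := (ell_sub_pd_lt_iff D P).1 (by omega)
  exact ⟨f, hf0, (mem_LL.1 hf).resolve_left hf0, hP⟩

theorem card_h1_le {D : Dv κ F} (h : deg D + 1 - genus κ F < ell D) (S : Finset (Place κ F))
    (hS : ∀ P ∈ S, ell D < ell (D + pd P)) : (S.card : ℤ) ≤ 2 * genus κ F - 2 - deg D := by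
  obtain ⟨W, hW⟩ := exists_canonical (κ := κ) (F := F)
  have h1 := (canonical_deg hW).1
  have h2 := hW D
  have h3 := card_base_le (D := W - D) (by omega) S (by
    intro P hP
    have a1 := hW (D + pd P)
    have a2 := hS P hP
    have a3 := ell_add_pd_le D P
    rw [deg_add, deg_pd, ← sub_sub] at a1
    omega)
  rw [deg_sub] at h3
  omega

theorem exists_eff {D : Dv κ F} (h : (genus κ F : ℤ) ≤ deg D) : ∃ E, 0 ≤ E ∧ LinEq D E := by
  have := riemann D
  exact exists_eff_of_ell_pos (by omega)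

/-- a divisor of degree `g - 1` without sections -/
theorem exists_ell_zero : ∃ D : Dv κ F, deg D = genus κ F - 1 ∧ ell D = 0 := by
  have key : ∀ n : ℕ, ∀ D : Dv κ F, ell D = n → (ell D : ℤ) = deg D + 1 - genus κ F →
      ∃ D : Dv κ F, deg D = genus κ F - 1 ∧ ell D = 0 := by
    intro n
    induction n with
    | zero => exact fun D h1 h2 => ⟨D, by omega, h1⟩
    | succ n ih =>
      intro D h1 h2
      have : ∃ P, ell (D - pd P) ≠ ell D := by
        by_contra hc
        push Not at hc
        obtain ⟨S, hS⟩ := Infinite.exists_subset_card_eq (Place κ F) ((deg D).toNat + 1)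
        have := card_base_le (D := D) (by omega) S fun P _ => hc P
        omega
      obtain ⟨P, hP⟩ := this
      have a1 := ell_add_pd_le (D - pd P) P
      rw [sub_add_cancel] at a1
      have a2 := ell_mono (sub_le_self D (F3_pd_nonneg P))
      refine ih (D - pd P) (by omega) ?_
      rw [deg_sub, deg_pd]
      omega
  obtain ⟨D, hD⟩ := exists_ell_eq (κ := κ) (F := F)
  exact key _ D rfl hD

/-- a non-constant function is unramified at almost all places -/
theorem finite_ram {t : F} (ht : t ∉ (algebraMap κ F).range) :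
    {P : Place κ F | P.ord (t - algebraMap κ F (P.ev t)) ≠ 1}.Finite := F3_finite_ram ht

/-- moving lemma -/
theorem BPF.exists_reduced {D : Dv κ F} (h : BPF D) (T : Finset (Place κ F)) :
    ∃ S : Finset (Place κ F), Disjoint S T ∧ LinEq D (ind S) := by
  obtain ⟨φ, hφ0, hφ⟩ := h.exists_dinf
  by_cases hc : φ ∈ (algebraMap κ F).range
  · obtain ⟨c, rfl⟩ := hc
    refine ⟨∅, Finset.disjoint_empty_left _, ?_⟩
    have : dinf κ (algebraMap κ F c) = ind ∅ := by
      ext P
      rw [dinf_apply, P.ord_algebraMap, ind_apply]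
      simp
    rwa [this] at hφ
  have hfin := finite_ram hc
  obtain ⟨c, hcn⟩ := Infinite.exists_notMem_finset
    ((hfin.toFinset ∪ T).image fun P : Place κ F => P.ev φ)
  have hne : φ - algebraMap κ F c ≠ 0 := fun h => hc ⟨c, (sub_eq_zero.1 h).symm⟩
  have hz : ∀ P : Place κ F, 0 < P.ord (φ - algebraMap κ F c) →
      P ∉ T ∧ P.ord (φ - algebraMap κ F c) = 1 := by
    intro P hP
    have e : P.ev φ = c := P.ev_eq (Or.inr hP)
    have h1 : P ∉ hfin.toFinset ∪ T := fun hm => hcn (Finset.mem_image.2 ⟨P, hm, e⟩)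
    rw [Finset.mem_union, not_or, Set.Finite.mem_toFinset, Set.mem_ofPred_eq, not_not, e] at h1
    exact ⟨h1.2, h1.1⟩
  let S := (dv κ (φ - algebraMap κ F c)).support.filter
    fun P => 0 < P.ord (φ - algebraMap κ F c)
  have hS : ∀ P, P ∈ S ↔ 0 < P.ord (φ - algebraMap κ F c) := by
    intro P
    simp only [S, Finset.mem_filter, Finsupp.mem_support_iff, dv_apply]
    exact ⟨fun h => h.2, fun h => ⟨h.ne', h⟩⟩
  refine ⟨S, Finset.disjoint_left.2 fun P hP => (hz P ((hS P).1 hP)).1,
    hφ.trans ⟨_, hne, ?_⟩⟩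
  ext P
  rw [Finsupp.add_apply, dinf_apply, dv_apply, ind_apply]
  by_cases h0 : P.ord φ < 0
  · have h1 := P.ord_add_eq (g := - algebraMap κ F c) hφ0
      (Or.inr (by rw [P.ord_neg, P.ord_algebraMap]; exact h0))
    rw [← sub_eq_add_neg] at h1
    rw [if_neg (by rw [hS, h1.2]; omega), h1.2]
    omega
  · have h1 : 0 ≤ P.ord (φ - algebraMap κ F c) :=
      P.mem_iff.1 (sub_mem (P.mem_iff.2 (not_lt.1 h0)) (P.const c))
    split_ifs with h2
    · rw [(hz P ((hS P).1 h2)).2]; omega
    · rw [hS] at h2; omega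

/-- genus one: every class of degree one contains exactly one place -/
theorem exists_pd_of_genus_one (hg : genus κ F = 1) {D : Dv κ F} (h : deg D = 1) :
    ∃ P, LinEq D (pd P) := by
  obtain ⟨E, hE, hl⟩ := exists_eff (D := D) (by omega)
  obtain ⟨P, hP⟩ := exists_eq_sum_pd hE (n := 1) (by rw [← hl.deg, h]; rfl)
  refine ⟨P 0, ?_⟩
  rwa [hP, Fin.sum_univ_one] at hl

theorem eq_of_linEq_pd (hg : genus κ F ≠ 0) {P Q : Place κ F} (h : LinEq (pd P) (pd Q)) : P = Q := by
  by_contra hne
  obtain ⟨f, hf0, hf⟩ := h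
  have hord : ∀ R : Place κ F, R.ord f = pd Q R - pd P R := by
    intro R
    rw [hf, Finsupp.add_apply, dv_apply]; ring
  have hd : dinf κ f = pd P := by
    ext R
    rw [dinf_apply, hord, F3_pd_apply, F3_pd_apply]
    split_ifs with h1 h2
    · exact absurd (h2.trans h1.symm) hne
    all_goals simp
  have hc : f ∉ (algebraMap κ F).range := by
    rintro ⟨c, rfl⟩
    have := hord P
    rw [P.ord_algebraMap, F3_pd_apply, F3_pd_apply, if_neg (Ne.symm hne), if_pos rfl] at this
    omega
  have h1 := deg_dinf hc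
  rw [hd, deg_pd] at h1
  have h2 := genus_le hc (ι := Unit) (fun _ => 1) (LinearIndependent.of_subsingleton () one_ne_zero)
    (by rw [Fintype.card_unit]; omega) 0 (fun _ => by
      rw [zero_smul, mem_LL]
      exact Or.inr fun R => by rw [R.ord_one]; simp)
  omega

theorem ell_genus_one (hg : genus κ F = 1) {D : Dv κ F} (h : 0 < deg D) : (ell D : ℤ) = deg D := by
  have := rr_large (D := D) (by omega)
  omega

end Pool.Agent.E6b
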