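import Pool.Agent.E6b.F2

open scoped NNReal TensorProduct IntermediateField BigOperators Classical Topology
open Filter

namespace Pool.Agent.E6b

/-- adding one vector outside a subspace lowers the codimension by one -/
theorem F3_codim_step {K V : Type*} [Field K] [AddCommGroup V] [Module K V] (U : Submodule K V)
    {e : V} (he : e ∉ U) [Module.Finite K (V ⧸ (U ⊔ K ∙ e))] :
    Module.Finite K (V ⧸ U) ∧
      Module.finrank K (V ⧸ U) = Module.finrank K (V ⧸ (U ⊔ K ∙ e)) + 1 := by
  have hm : (U ⊔ K ∙ e).map U.mkQ = K ∙ (U.mkQ e) := by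
    rw [Submodule.map_sup, Submodule.map_span, Set.image_singleton]
    have : U.map U.mkQ = ⊥ := by
      rw [eq_bot_iff, Submodule.map_le_iff_le_comap]
      intro x hx
      simpa using hx
    rw [this, bot_sup_eq]
  have eq := Submodule.quotientQuotientEquivQuotient U (U ⊔ K ∙ e) le_sup_left
  rw [hm] at eq
  have hne : U.mkQ e ≠ 0 := by simpa using he
  have : Module.Finite K ((V ⧸ U) ⧸ (K ∙ (U.mkQ e))) := Module.Finite.equiv eq.symm
  have : Module.Finite K (V ⧸ U) := Module.Finite.of_submodule_quotient (K ∙ (U.mkQ e))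
  refine ⟨this, ?_⟩
  rw [← Submodule.finrank_quotient_add_finrank (K ∙ (U.mkQ e)), finrank_span_singleton hne,
    eq.finrank_eq]

variable {κ F : Type} [Field κ] [IsAlgClosed κ] [CharZero κ] [Field F] [Algebra κ F] [IsFF κ F]

theorem F3_pd_apply (P Q : Place κ F) : pd P Q = if P = Q then 1 else 0 := by
  simp [pd, Finsupp.single_apply]

theorem F3_pd_nonneg (P : Place κ F) : 0 ≤ pd P := by
  intro Q
  rw [F3_pd_apply]
  split_ifs <;> simp

/-- downward induction on divisors -/
theorem F3_down (p : Dv κ F → Prop) (E : Dv κ F)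
    (h : ∀ D, E ≤ D → ∀ P, p (D + pd P) → p D) {G : Dv κ F} (hG : E ≤ G) (hp : p G) : p E := by
  have key : ∀ n : ℕ, ∀ G : Dv κ F, E ≤ G → deg G - deg E = n → p G → p E := by
    intro n
    induction n with
    | zero =>
      intro G hG hn hp
      rwa [eq_of_le_of_deg_le hG (by push_cast at hn; omega)]
    | succ n ih =>
      intro G hG hn hp
      have : ∃ P, E P < G P := by
        by_contra hc
        push Not at hc
        have : G ≤ E := fun P => hc P
        have := deg_mono this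
        push_cast at hn; omega
      obtain ⟨P, hP⟩ := this
      have hle : E ≤ G - pd P := by
        intro Q
        have := hG Q
        simp only [Finsupp.coe_sub, Pi.sub_apply, F3_pd_apply]
        split_ifs with hq
        · subst hq; omega
        · simpa using this
      refine ih (G - pd P) hle ?_ (h _ hle P (by simpa using hp))
      rw [deg_sub, deg_pd]; push_cast at hn; omega
  have := deg_mono hG
  exact key (deg G - deg E).toNat G hG (by omega) hp

/-- the condition `ord x ≥ n`, with `ord 0 = ∞` -/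
def F3ge (P : Place κ F) (n : ℤ) (x : F) : Prop := x = 0 ∨ n ≤ P.ord x

theorem F3ge.add {P : Place κ F} {n : ℤ} {x y : F} (hx : F3ge P n x) (hy : F3ge P n y) :
    F3ge P n (x + y) := by
  by_cases h0 : x + y = 0
  · exact Or.inl h0
  by_cases hx0 : x = 0
  · simpa [hx0] using hy
  by_cases hy0 : y = 0
  · simpa [hy0] using hx
  exact Or.inr (le_trans (le_min (hx.resolve_left hx0) (hy.resolve_left hy0))
    (P.ord_add_ge hx0 hy0 h0))

theorem F3ge.mul {P : Place κ F} {n m : ℤ} {x y : F} (hx : F3ge P n x) (hy : F3ge P m y) :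
    F3ge P (n + m) (x * y) := by
  by_cases hx0 : x = 0
  · exact Or.inl (by simp [hx0])
  by_cases hy0 : y = 0
  · exact Or.inl (by simp [hy0])
  refine Or.inr ?_
  rw [P.ord_mul hx0 hy0]
  exact add_le_add (hx.resolve_left hx0) (hy.resolve_left hy0)

theorem F3ge.mono {P : Place κ F} {n m : ℤ} {x : F} (hx : F3ge P n x) (h : m ≤ n) :
    F3ge P m x := hx.imp id fun h' => h.trans h'

theorem F3ge.smul {P : Place κ F} {n : ℤ} {x : F} (hx : F3ge P n x) (c : κ) :
    F3ge P n (c • x) := by
  have : F3ge P 0 (algebraMap κ F c) := Or.inr (P.ord_algebraMap c).ge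
  have h := this.mul hx
  rwa [zero_add, ← Algebra.smul_def] at h

theorem F3ge.neg {P : Place κ F} {n : ℤ} {x : F} (hx : F3ge P n x) : F3ge P n (-x) := by
  simpa using hx.smul (-1 : κ)

theorem F3ge_self (P : Place κ F) (x : F) : F3ge P (P.ord x) x := Or.inr le_rfl

theorem F3ge_zero (P : Place κ F) (n : ℤ) : F3ge P n (0 : F) := Or.inl rfl

theorem F3_mem_LL {D : Dv κ F} {f : F} : f ∈ LL D ↔ ∀ P : Place κ F, F3ge P (- D P) f := by
  rw [mem_LL]
  constructor
  · rintro (h | h) P
    · exact Or.inl h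
    · exact Or.inr (h P)
  · intro h
    by_cases hf : f = 0
    · exact Or.inl hf
    · exact Or.inr fun P => (h P).resolve_left hf

/-- if `ord x ≥ n` and `ord π = n` then `x - c π` has larger order for some constant `c` -/
theorem F3ge.exists_sub {P : Place κ F} {n : ℤ} {x π : F} (hx : F3ge P n x) (hπ : π ≠ 0)
    (h : P.ord π = n) : ∃ c : κ, F3ge P (n + 1) (x - c • π) := by
  have h1 : F3ge P 0 (x / π) := by
    have := hx.mul (F3ge_self P π⁻¹)
    rw [P.ord_inv, h, add_neg_cancel] at this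
    rwa [div_eq_mul_inv]
  have h2 : x / π ∈ P.O := by
    rw [P.mem_iff]
    rcases h1 with h1 | h1
    · rw [h1, P.ord_zero]
    · exact h1
  refine ⟨P.ev (x / π), ?_⟩
  have h3 : F3ge P 1 (x / π - algebraMap κ F (P.ev (x / π))) := by
    rcases P.ev_spec h2 with h3 | h3
    · exact Or.inl (sub_eq_zero.2 h3)
    · exact Or.inr h3
  have h4 := h3.mul (F3ge_self P π)
  rw [h, add_comm, sub_mul, div_mul_cancel₀ _ hπ, ← Algebra.smul_def] at h4
  exact h4

variable (κ F) in
/-- adeles -/
def F3A : Submodule F (Place κ F → F) where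
  carrier := {α | ∃ D : Dv κ F, ∀ P, F3ge P (- D P) (α P)}
  zero_mem' := ⟨0, fun P => F3ge_zero P _⟩
  add_mem' := by
    rintro a b ⟨D, hD⟩ ⟨E, hE⟩
    refine ⟨D ⊔ E, fun P => F3ge.add ((hD P).mono ?_) ((hE P).mono ?_)⟩
    · simp [Finsupp.sup_apply]
    · simp [Finsupp.sup_apply]
  smul_mem' := by
    rintro c a ⟨D, hD⟩
    refine ⟨D - dv κ c, fun P => ((F3ge_self P c).mul (hD P)).mono ?_⟩
    simp only [Finsupp.coe_sub, Pi.sub_apply, dv_apply]
    omega

/-- adeles bounded by a divisor -/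
def F3AD (D : Dv κ F) : Submodule κ (F3A κ F) where
  carrier := {α | ∀ P, F3ge P (- D P) (α.1 P)}
  zero_mem' := fun P => F3ge_zero P _
  add_mem' := fun ha hb P => (ha P).add (hb P)
  smul_mem' := fun c _ ha P => (ha P).smul c

theorem F3_mem_AD {D : Dv κ F} {α : F3A κ F} : α ∈ F3AD D ↔ ∀ P, F3ge P (- D P) (α.1 P) :=
  Iff.rfl

theorem F3AD_mono {D E : Dv κ F} (h : D ≤ E) : F3AD D ≤ F3AD E :=
  fun _ ha P => (ha P).mono (neg_le_neg (h P))

variable (κ) in
/-- principal adeles -/
noncomputable def F3dg : F →ₗ[κ] F3A κ F where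
  toFun f := ⟨fun _ => f, dinf κ f, fun P => (F3_mem_LL.1 (mem_LL_dinf f)) P⟩
  map_add' _ _ := rfl
  map_smul' _ _ := rfl

/-- an adele supported at one place -/
noncomputable def F3one (P : Place κ F) (x : F) : F3A κ F :=
  ⟨Pi.single P x, Finsupp.single P (- P.ord x), fun Q => by
    by_cases h : Q = P
    · subst h; simpa using F3ge_self Q x
    · simpa [Pi.single_apply, h] using F3ge_zero Q _⟩

theorem F3one_apply (P Q : Place κ F) (x : F) : (F3one P x).1 Q = if Q = P then x else 0 := by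
  simp [F3one, Pi.single_apply]

noncomputable def F3B (D : Dv κ F) : Submodule κ (F3A κ F) := F3AD D ⊔ LinearMap.range (F3dg κ)

theorem F3B_mono {D E : Dv κ F} (h : D ≤ E) : F3B D ≤ F3B E := sup_le_sup_right (F3AD_mono h) _

theorem F3AD_step (D : Dv κ F) (P : Place κ F) {π : F} (hπ : π ≠ 0) (h : P.ord π = - D P - 1) :
    F3AD (D + pd P) = F3AD D ⊔ κ ∙ F3one P π := by
  apply le_antisymm
  · intro α hα
    have h1 : F3ge P (- D P - 1) (α.1 P) := (hα P).mono (by simp [F3_pd_apply]; omega)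
    obtain ⟨c, hc⟩ := h1.exists_sub hπ h
    have : α = (α - c • F3one P π) + c • F3one P π := by abel
    rw [this]
    refine Submodule.add_mem_sup (fun Q => ?_)
      (Submodule.smul_mem _ _ (Submodule.mem_span_singleton_self _))
    have e : (α - c • F3one P π).1 Q = α.1 Q - c • (F3one P π).1 Q := rfl
    rw [e, F3one_apply]
    split_ifs with hq
    · subst hq; simpa using hc
    · have := hα Q
      simpa [F3_pd_apply, Ne.symm hq] using this
  · refine sup_le (F3AD_mono (le_add_of_nonneg_right (F3_pd_nonneg P))) ?_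
    rw [Submodule.span_singleton_le_iff_mem]
    intro Q
    rw [F3one_apply]
    split_ifs with hq
    · subst hq; exact Or.inr (by simp [F3_pd_apply, h])
    · exact F3ge_zero _ _

theorem F3B_step (D : Dv κ F) (P : Place κ F) {π : F} (hπ : π ≠ 0) (h : P.ord π = - D P - 1) :
    F3B (D + pd P) = F3B D ⊔ κ ∙ F3one P π := by
  rw [F3B, F3B, F3AD_step D P hπ h, sup_right_comm]

theorem F3one_mem_iff (D : Dv κ F) (P : Place κ F) {π : F} (hπ : π ≠ 0)
    (h : P.ord π = - D P - 1) : F3one P π ∈ F3B D ↔ ell D < ell (D + pd P) := by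
  have key := ell_sub_pd_lt_iff (D + pd P) P
  rw [add_sub_cancel_right] at key
  have hP : (D + pd P) P = D P + 1 := by simp [F3_pd_apply]
  rw [key, hP]
  constructor
  · intro hm
    obtain ⟨α, hα, β, ⟨f, rfl⟩, hab⟩ := Submodule.mem_sup.1 hm
    have hq : ∀ Q, f = (if Q = P then π else 0) + - α.1 Q := by
      intro Q
      rw [← F3one_apply, ← hab]
      change f = α.1 Q + f + - α.1 Q
      ring
    have hfP : f ≠ 0 ∧ P.ord f = P.ord π := by
      have h1 := hq P
      rw [if_pos rfl] at h1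
      rw [h1]
      refine P.ord_add_eq hπ ?_
      rcases (hα P).neg with h2 | h2
      · exact Or.inl h2
      · exact Or.inr (by omega)
    refine ⟨f, F3_mem_LL.2 fun Q => ?_, hfP.1, by rw [hfP.2, h]; ring⟩
    by_cases hQ : Q = P
    · subst hQ
      exact Or.inr (by rw [hfP.2, h, hP]; omega)
    · have h1 := hq Q
      rw [if_neg hQ, zero_add] at h1
      rw [h1]
      simpa [F3_pd_apply, Ne.symm hQ] using (hα Q).neg
  · rintro ⟨f, hf, hf0, hfP⟩
    obtain ⟨c, hc⟩ := (show F3ge P (- D P - 1) π from Or.inr h.ge).exists_sub hf0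
      (by rw [hfP]; ring)
    have : F3one P π = (F3one P π - c • F3dg κ f) + F3dg κ (c • f) := by
      rw [map_smul]; abel
    rw [this]
    refine Submodule.add_mem_sup (fun Q => ?_) ⟨_, rfl⟩
    have e : (F3one P π - c • F3dg κ f).1 Q = (F3one P π).1 Q - c • f := rfl
    rw [e, F3one_apply]
    split_ifs with hq
    · subst hq; simpa using hc
    · have := ((F3_mem_LL.1 hf Q).smul c).neg
      simpa [F3_pd_apply, Ne.symm hq] using this

theorem F3B_eq_top : ∃ c : ℤ, ∀ D : Dv κ F, c ≤ deg D → F3B D = ⊤ := by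
  obtain ⟨c, hc⟩ := exists_rr_large (κ := κ) (F := F)
  refine ⟨c, fun E hE => ?_⟩
  rw [eq_top_iff]
  rintro ⟨α, D', hD'⟩ -
  refine F3_down (fun D => (⟨α, D', hD'⟩ : F3A κ F) ∈ F3B D) E ?_ (G := E ⊔ D') le_sup_left
    (Submodule.mem_sup_left (F3AD_mono le_sup_right hD'))
  intro D hD P hp
  obtain ⟨π, hπ, h⟩ := P.exists_ord_eq (- D P - 1)
  have h1 := hc D (hE.trans (deg_mono hD))
  have h2 := hc (D + pd P) (by rw [deg_add, deg_pd]; have := deg_mono hD; omega)
  rw [deg_add, deg_pd] at h2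
  have h3 : F3one P π ∈ F3B D := (F3one_mem_iff D P hπ h).2 (by omega)
  rw [F3B_step D P hπ h, sup_eq_left.2 ((Submodule.span_singleton_le_iff_mem _ _).2 h3)] at hp
  exact hp

theorem F3_exists_ge (D : Dv κ F) (c : ℤ) : ∃ G : Dv κ F, D ≤ G ∧ c ≤ deg G := by
  obtain ⟨P⟩ : Nonempty (Place κ F) := inferInstance
  refine ⟨D + Finsupp.single P (max 0 (c - deg D)), le_add_of_nonneg_right ?_, ?_⟩
  · intro Q
    simp only [Finsupp.coe_zero, Pi.zero_apply, Finsupp.single_apply]
    split_ifs <;> simp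
  · rw [deg_add, deg_single]; omega

/-- the index of speciality is the codimension of `A(D) + F` -/
theorem F3_codim (D : Dv κ F) : Module.Finite κ (F3A κ F ⧸ F3B D) ∧
    (Module.finrank κ (F3A κ F ⧸ F3B D) : ℤ) = ell D - deg D - 1 + genus κ F := by
  obtain ⟨c, hc⟩ := exists_rr_large (κ := κ) (F := F)
  obtain ⟨c', hc'⟩ := F3B_eq_top (κ := κ) (F := F)
  obtain ⟨G, hG, hd⟩ := F3_exists_ge D (max c c')
  refine F3_down (fun D => Module.Finite κ (F3A κ F ⧸ F3B D) ∧
    (Module.finrank κ (F3A κ F ⧸ F3B D) : ℤ) = ell D - deg D - 1 + genus κ F) D ?_ hG ?_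
  · rintro E - P ⟨h1, h2⟩
    obtain ⟨π, hπ, h⟩ := P.exists_ord_eq (- E P - 1)
    rw [F3B_step E P hπ h] at h1 h2
    rw [deg_add, deg_pd] at h2
    have h3 := ell_add_pd_le E P
    have h4 := ell_mono (le_add_of_nonneg_right (F3_pd_nonneg P) : E ≤ E + pd P)
    by_cases he : F3one P π ∈ F3B E
    · have h5 := (F3one_mem_iff E P hπ h).1 he
      rw [sup_eq_left.2 ((Submodule.span_singleton_le_iff_mem _ _).2 he)] at h1 h2
      exact ⟨h1, by omega⟩
    · have h5 := mt (F3one_mem_iff E P hπ h).2 he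
      obtain ⟨h6, h7⟩ := F3_codim_step (F3B E) he
      exact ⟨h6, by omega⟩
  · have h1 := hc G ((le_max_left _ _).trans hd)
    have h2 := hc' G ((le_max_right _ _).trans hd)
    rw [h2]
    have : Subsingleton (F3A κ F ⧸ (⊤ : Submodule κ (F3A κ F))) := inferInstance
    exact ⟨inferInstance, by rw [Module.finrank_zero_of_subsingleton]; omega⟩

end Pool.Agent.E6b
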