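import Pool.Agent.E6b.F3

open scoped NNReal TensorProduct IntermediateField BigOperators Classical Topology
open Filter

namespace Pool.Agent.E6b

variable {κ F F' F'' : Type} [Field κ] [IsAlgClosed κ] [CharZero κ] [Field F] [Algebra κ F]
  [IsFF κ F] [Field F'] [Algebra κ F'] [IsFF κ F'] [Field F''] [Algebra κ F''] [IsFF κ F'']
  (φ : FHom κ F F')

namespace FHom

theorem map_mem_iff (R : Place κ F') (f : F) : φ.f f ∈ R.O ↔ f ∈ (φ.res R).O := Iff.rfl

theorem F4_ex (R : Place κ F') :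
    ∃ n : ℕ, 0 < n ∧ ∀ f : F, R.ord (φ.f f) = n * (φ.res R).ord f := by
  obtain ⟨π, h0, h1⟩ := (φ.res R).exists_ord_eq 1
  have hn : 0 < R.ord (φ.f π) := by
    have : ¬ φ.f π⁻¹ ∈ R.O := by
      rw [map_mem_iff, Place.mem_iff, Place.ord_inv, h1]
      norm_num
    rw [Place.mem_iff, map_inv₀, Place.ord_inv] at this
    omega
  have hu : ∀ u : F, (φ.res R).ord u = 0 → R.ord (φ.f u) = 0 := by
    intro u hu
    have a1 : φ.f u ∈ R.O := by rw [map_mem_iff, Place.mem_iff, hu]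
    have a2 : φ.f u⁻¹ ∈ R.O := by rw [map_mem_iff, Place.mem_iff, Place.ord_inv, hu, neg_zero]
    rw [Place.mem_iff] at a1 a2
    rw [map_inv₀, Place.ord_inv] at a2
    omega
  refine ⟨(R.ord (φ.f π)).toNat, by omega, fun f => ?_⟩
  rw [Int.toNat_of_nonneg hn.le]
  by_cases hf : f = 0
  · rw [hf, map_zero, Place.ord_zero, Place.ord_zero, mul_zero]
  have h2 := hu (f / π ^ (φ.res R).ord f) (by
    rw [Place.ord_div _ hf (zpow_ne_zero _ h0), Place.ord_zpow, h1, mul_one, sub_self])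
  rw [map_div₀, map_zpow₀, Place.ord_div _ ((map_ne_zero _).2 hf)
    (zpow_ne_zero _ ((map_ne_zero _).2 h0)), Place.ord_zpow] at h2
  linear_combination h2

theorem ord_map (R : Place κ F') (f : F) : R.ord (φ.f f) = φ.e R * (φ.res R).ord f := by
  obtain ⟨n, -, hn⟩ := φ.F4_ex R
  have h : ∃ n : ℕ, ∀ f : F, R.ord (φ.f f) = n * (φ.res R).ord f := ⟨n, hn⟩
  rw [FHom.e, dif_pos h]
  exact h.choose_spec f

theorem F4_e_eq (R : Place κ F') {π : F} (h : (φ.res R).ord π = 1) :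
    (φ.e R : ℤ) = R.ord (φ.f π) := by
  rw [ord_map, h, mul_one]

theorem e_pos (R : Place κ F') : 0 < φ.e R := by
  obtain ⟨n, h0, hn⟩ := φ.F4_ex R
  obtain ⟨π, -, h1⟩ := (φ.res R).exists_ord_eq 1
  have := φ.F4_e_eq R h1
  rw [hn, h1] at this
  omega

theorem F4_e_pos (R : Place κ F') : (0 : ℤ) < φ.e R := Int.natCast_pos.2 (φ.e_pos R)

theorem deg_pos : 0 < φ.deg := by
  have := φ.finite
  exact Module.finrank_pos

theorem F4_fin (P : Place κ F) : {R : Place κ F' | φ.res R = P}.Finite := by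
  obtain ⟨π, -, h1⟩ := P.exists_ord_eq 1
  refine (dv κ (φ.f π)).support.finite_toSet.subset fun R hR => ?_
  rw [Finset.mem_coe, Finsupp.mem_support_iff, dv_apply, ← φ.F4_e_eq R (by rw [hR, h1])]
  exact (φ.F4_e_pos R).ne'

theorem pull_apply (D : Dv κ F) (R : Place κ F') : φ.pull D R = φ.e R * D (φ.res R) := by
  have h : (Function.support fun R : Place κ F' => (φ.e R : ℤ) * D (φ.res R)).Finite := by
    refine (D.support.finite_toSet.biUnion fun P _ => φ.F4_fin P).subset fun R hR => ?_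
    exact Set.mem_biUnion (Finsupp.mem_support_iff.2 (right_ne_zero_of_mul hR)) rfl
  rw [FHom.pull, dif_pos h]
  rfl

theorem mem_fib {P : Place κ F} {R : Place κ F'} : R ∈ φ.fib P ↔ φ.res R = P := by
  rw [FHom.fib, Finsupp.mem_support_iff, pull_apply, pd, Finsupp.single_apply]
  have := φ.e_pos R
  by_cases h : P = φ.res R
  · simp [h, this.ne']
  · simp [h, Ne.symm h]

theorem ev_map (R : Place κ F') (f : F) : R.ev (φ.f f) = φ.c ((φ.res R).ev f) := by
  by_cases hf : f ∈ (φ.res R).O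
  · refine R.ev_eq ?_
    rw [← φ.comm, ← map_sub, ord_map]
    exact ((φ.res R).ev_spec hf).imp (congrArg φ.f) (mul_pos (φ.F4_e_pos R))
  · have h1 : ¬ ∃ c : κ, (φ.res R).O.valuation (f - algebraMap κ F c) < 1 := by
      rintro ⟨c, hc⟩
      exact hf (by
        simpa using add_mem (((φ.res R).O.valuation_le_one_iff _).1 hc.le) ((φ.res R).const c))
    have h2 : ¬ ∃ c : κ, R.O.valuation (φ.f f - algebraMap κ F' c) < 1 := by
      rintro ⟨c, hc⟩
      exact hf ((φ.map_mem_iff R f).1 (by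
        simpa using add_mem ((R.O.valuation_le_one_iff _).1 hc.le) (R.const c)))
    rw [Place.ev, Place.ev, dif_neg h1, dif_neg h2, map_zero]

theorem pull_add (D E : Dv κ F) : φ.pull (D + E) = φ.pull D + φ.pull E := by
  ext R
  simp only [pull_apply, Finsupp.add_apply, mul_add]

/-- pull-back as an additive map -/
noncomputable def F4_pullHom : Dv κ F →+ Dv κ F' := AddMonoidHom.mk' φ.pull φ.pull_add

theorem pull_sub (D E : Dv κ F) : φ.pull (D - E) = φ.pull D - φ.pull E :=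
  map_sub φ.F4_pullHom D E
theorem pull_neg (D : Dv κ F) : φ.pull (-D) = - φ.pull D := map_neg φ.F4_pullHom D
theorem pull_zero : φ.pull 0 = 0 := map_zero φ.F4_pullHom
theorem pull_zsmul (n : ℤ) (D : Dv κ F) : φ.pull (n • D) = n • φ.pull D :=
  map_zsmul φ.F4_pullHom n D
theorem pull_nsmul (n : ℕ) (D : Dv κ F) : φ.pull (n • D) = n • φ.pull D :=
  map_nsmul φ.F4_pullHom n D
theorem pull_sum {ι : Type*} (s : Finset ι) (D : ι → Dv κ F) :
    φ.pull (∑ i ∈ s, D i) = ∑ i ∈ s, φ.pull (D i) := map_sum φ.F4_pullHom D s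

theorem pull_dv (f : F) : φ.pull (dv κ f) = dv κ (φ.f f) := by
  ext R
  rw [pull_apply, dv_apply, dv_apply, ord_map]

theorem pull_dinf (f : F) : φ.pull (dinf κ f) = dinf κ (φ.f f) := by
  ext R
  rw [pull_apply, dinf_apply, dinf_apply, ord_map, mul_max_of_nonneg _ _ (φ.F4_e_pos R).le,
    mul_zero, mul_neg]

theorem F4_tower (K : Subfield F) :
    Module.finrank (K.map φ.f) F' = Module.finrank K F * φ.deg := by
  rw [FHom.deg, ← Subfield.relfinrank_top_right K, ← Subfield.relfinrank_map_map K ⊤ φ.f,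
    RingHom.fieldRange_eq_map]
  exact (Subfield.relfinrank_mul_finrank_top (by
    rintro _ ⟨x, -, rfl⟩
    exact ⟨x, trivial, rfl⟩)).symm

theorem F4_range : φ.f '' Set.range (algebraMap κ F) = Set.range (algebraMap κ F') := by
  ext y
  constructor
  · rintro ⟨_, ⟨c, rfl⟩, rfl⟩
    exact ⟨φ.c c, (φ.comm c).symm⟩
  · rintro ⟨c, rfl⟩
    exact ⟨_, ⟨φ.c.symm c, rfl⟩, by rw [φ.comm, RingEquiv.apply_symm_apply]⟩

theorem F4_nonconst {t : F} (ht : t ∉ (algebraMap κ F).range) :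
    φ.f t ∉ (algebraMap κ F').range := by
  intro h
  have h' : φ.f t ∈ φ.f '' Set.range (algebraMap κ F) := by
    rw [F4_range]
    exact h
  exact ht ((φ.f.injective.mem_set_image).1 h')

theorem F4_adjoin (t : F) :
    Module.finrank κ⟮φ.f t⟯ F' = Module.finrank κ⟮t⟯ F * φ.deg := by
  have h : κ⟮φ.f t⟯.toSubfield = κ⟮t⟯.toSubfield.map φ.f := by
    rw [IntermediateField.adjoin_toSubfield, IntermediateField.adjoin_toSubfield,
      RingHom.map_field_closure, Set.image_union, F4_range, Set.image_singleton]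
  have := φ.F4_tower κ⟮t⟯.toSubfield
  rw [← h] at this
  exact this

theorem F4_deg_pd (P : Place κ F) : E6b.deg (φ.pull (pd P)) = φ.deg := by
  have h0 : (0 : Dv κ F) ≤ (genus κ F + 1) • pd P :=
    nsmul_nonneg (Finsupp.single_nonneg.2 zero_le_one) _
  have h1 := riemann ((genus κ F + 1) • pd P)
  rw [deg_nsmul, deg_pd] at h1
  obtain ⟨t, ht, hc⟩ := (two_le_ell_iff h0).1 (by push_cast at h1; omega)
  have ht0 : t ≠ 0 := fun h => hc (h ▸ zero_mem _)
  have h2 : ∀ Q, Q ≠ P → 0 ≤ Q.ord t := fun Q hQ => by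
    simpa [pd, Finsupp.single_apply, hQ.symm] using (mem_LL.1 ht).resolve_left ht0 Q
  have h3 : P.ord t < 0 := by
    obtain ⟨Q, hQ⟩ := exists_pole hc
    by_cases h : Q = P
    · exact h ▸ hQ
    · exact absurd (h2 Q h) (not_le.2 hQ)
  have h4 : dinf κ t = (- P.ord t) • pd P := by
    ext Q
    rw [dinf_apply, pd, Finsupp.smul_apply, Finsupp.single_apply]
    split_ifs with h
    · subst h
      rw [smul_eq_mul, mul_one]
      omega
    · have := h2 Q (Ne.symm h)
      rw [smul_zero]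
      omega
  have h5 := deg_dinf hc
  have h6 := deg_dinf (φ.F4_nonconst hc)
  rw [← pull_dinf, F4_adjoin, Nat.cast_mul, ← h5, h4, pull_zsmul, deg_zsmul, deg_zsmul, deg_pd,
    mul_one] at h6
  exact mul_left_cancel₀ (by omega) h6

theorem sum_e (P : Place κ F) : ∑ R ∈ φ.fib P, φ.e R = φ.deg := by
  have h := φ.F4_deg_pd P
  have h' : E6b.deg (φ.pull (pd P)) = ∑ R ∈ φ.fib P, (φ.e R : ℤ) :=
    Finset.sum_congr rfl fun R hR => by
      rw [pull_apply, φ.mem_fib.1 hR, pd, Finsupp.single_eq_same, mul_one]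
  rw [h'] at h
  exact_mod_cast h

theorem res_surj (P : Place κ F) : ∃ R, φ.res R = P := by
  obtain ⟨R, hR, -⟩ := Finset.exists_ne_zero_of_sum_ne_zero
    ((φ.sum_e P).trans_ne φ.deg_pos.ne')
  exact ⟨R, φ.mem_fib.1 hR⟩

theorem card_fib_le (P : Place κ F) : (φ.fib P).card ≤ φ.deg := by
  rw [← φ.sum_e P, Finset.card_eq_sum_ones]
  exact Finset.sum_le_sum fun R _ => φ.e_pos R

theorem pull_le_iff {D E : Dv κ F} : φ.pull D ≤ φ.pull E ↔ D ≤ E := by
  refine ⟨fun h P => ?_, fun h R => ?_⟩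
  · obtain ⟨R, rfl⟩ := φ.res_surj P
    have := h R
    rw [pull_apply, pull_apply] at this
    exact le_of_mul_le_mul_left this (φ.F4_e_pos R)
  · rw [pull_apply, pull_apply]
    exact mul_le_mul_of_nonneg_left (h _) (φ.F4_e_pos R).le

theorem deg_pull (D : Dv κ F) : E6b.deg (φ.pull D) = φ.deg * E6b.deg D := by
  induction D using Finsupp.induction_linear with
  | zero => rw [pull_zero, deg_zero, deg_zero, mul_zero]
  | add D E hD hE => rw [pull_add, deg_add, deg_add, hD, hE, mul_add]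
  | single P n =>
    have : (Finsupp.single P n : Dv κ F) = n • pd P := by
      rw [pd, Finsupp.smul_single, smul_eq_mul, mul_one]
    rw [this, pull_zsmul, deg_zsmul, deg_zsmul, F4_deg_pd, deg_pd, mul_one, mul_comm]

theorem map_mem_LL {D : Dv κ F} {f : F} : φ.f f ∈ LL (φ.pull D) ↔ f ∈ LL D := by
  by_cases hf : f = 0
  · simp [hf]
  rw [mem_LL_iff hf, mem_LL_iff ((map_ne_zero _).2 hf), ← pull_dv, ← pull_add, ← φ.pull_zero,
    pull_le_iff]

theorem linEq_pull {D E : Dv κ F} (h : LinEq D E) : LinEq (φ.pull D) (φ.pull E) := by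
  obtain ⟨f, hf, rfl⟩ := h
  exact ⟨φ.f f, (map_ne_zero _).2 hf, by rw [pull_add, pull_dv]⟩

theorem bpf_pull {D : Dv κ F} (h : BPF D) : BPF (φ.pull D) := by
  intro R
  obtain ⟨f, h0, h1, h2⟩ := h (φ.res R)
  refine ⟨φ.f f, (map_ne_zero _).2 h0, fun Q => ?_, ?_⟩
  · rw [pull_apply, ord_map, ← mul_neg]
    exact mul_le_mul_of_nonneg_left (h1 _) (φ.F4_e_pos Q).le
  · rw [pull_apply, ord_map, h2, mul_neg]

theorem le_pull_mapDomain {E : Dv κ F'} (h : 0 ≤ E) : E ≤ φ.pull (E.mapDomain φ.res) := by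
  intro R
  have h0 : (0 : ℤ) ≤ ∑ i ∈ E.support with φ.res i = φ.res R, E i :=
    Finset.sum_nonneg fun i _ => h i
  rw [pull_apply, Finsupp.mapDomain_apply_eq_sum]
  refine le_trans ?_ (le_mul_of_one_le_left h0 (φ.F4_e_pos R))
  by_cases hR : E R = 0
  · rwa [hR]
  · exact Finset.single_le_sum (f := E) (fun i _ => h i)
      (Finset.mem_filter.2 ⟨Finsupp.mem_support_iff.2 hR, rfl⟩)

theorem deg_mapDomain (E : Dv κ F') : E6b.deg (E.mapDomain φ.res : Dv κ F) = E6b.deg E :=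
  Finsupp.sum_mapDomain_index (fun _ => rfl) fun _ _ _ => rfl

theorem res_comp (ψ : FHom κ F' F'') (R : Place κ F'') : (ψ.comp φ).res R = φ.res (ψ.res R) := rfl

theorem e_comp (ψ : FHom κ F' F'') (R : Place κ F'') :
    (ψ.comp φ).e R = ψ.e R * φ.e (ψ.res R) := by
  obtain ⟨π, -, h1⟩ := (φ.res (ψ.res R)).exists_ord_eq 1
  have h := (ψ.comp φ).F4_e_eq R h1
  change _ = R.ord (ψ.f (φ.f π)) at h
  rw [ord_map, ← φ.F4_e_eq _ h1] at h
  exact_mod_cast h

theorem deg_comp (ψ : FHom κ F' F'') : (ψ.comp φ).deg = ψ.deg * φ.deg := by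
  have h := ψ.F4_tower φ.f.fieldRange
  rw [RingHom.map_fieldRange, mul_comm] at h
  exact h

theorem pull_comp (ψ : FHom κ F' F'') (D : Dv κ F) : (ψ.comp φ).pull D = ψ.pull (φ.pull D) := by
  ext R
  rw [pull_apply, pull_apply, pull_apply, e_comp, res_comp, Nat.cast_mul, mul_assoc]

theorem res_congr {ψ : FHom κ F F'} (h : φ.f = ψ.f) : φ.res = ψ.res :=
  funext fun R => Place.ext (congrArg R.O.comap h)

theorem e_congr {ψ : FHom κ F F'} (h : φ.f = ψ.f) : φ.e = ψ.e := by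
  funext R
  obtain ⟨π, -, h1⟩ := (φ.res R).exists_ord_eq 1
  have a := φ.F4_e_eq R h1
  rw [φ.res_congr h] at h1
  rw [h, ← ψ.F4_e_eq R h1] at a
  exact_mod_cast a

theorem pull_congr {ψ : FHom κ F F'} (h : φ.f = ψ.f) : φ.pull = ψ.pull := by
  funext D
  ext R
  rw [pull_apply, pull_apply, φ.res_congr h, φ.e_congr h]

theorem finite_e_ne_one : {R : Place κ F' | φ.e R ≠ 1}.Finite := by
  obtain ⟨t, ht, -⟩ := IsFF.ex (κ := κ) (F := F)
  have hc : t ∉ (algebraMap κ F).range := by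
    rintro ⟨c, rfl⟩
    exact ht (isAlgebraic_algebraMap c)
  refine (finite_ram (φ.F4_nonconst hc)).subset fun R hR h => hR ?_
  rw [ev_map, ← φ.comm, ← map_sub, ord_map] at h
  exact_mod_cast Int.eq_one_of_mul_eq_one_right (φ.F4_e_pos R).le h

theorem deg_eq_one_iff : φ.deg = 1 ↔ Function.Surjective φ.f := by
  rw [FHom.deg, Algebra.finrank_eq_one_iff_bijective_algebraMap]
  refine ⟨fun h y => ?_, fun h => ⟨Subtype.val_injective, fun y => ⟨⟨y, h y⟩, rfl⟩⟩⟩
  obtain ⟨x, rfl⟩ := h.2 y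
  exact x.2

theorem res_bij (h : Function.Surjective φ.f) : Function.Bijective φ.res :=
  ⟨fun R _ e => Finset.card_le_one.1 ((φ.card_fib_le (φ.res R)).trans_eq (φ.deg_eq_one_iff.2 h))
    _ (φ.mem_fib.2 rfl) _ (φ.mem_fib.2 e.symm), φ.res_surj⟩

theorem e_eq_one (h : Function.Surjective φ.f) (R : Place κ F') : φ.e R = 1 := by
  refine le_antisymm ?_ (φ.e_pos R)
  rw [← φ.deg_eq_one_iff.2 h, ← φ.sum_e (φ.res R)]
  exact Finset.single_le_sum (fun _ _ => Nat.zero_le _) (φ.mem_fib.2 rfl)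

theorem F4_pull_mapDomain (h : Function.Surjective φ.f) (E : Dv κ F') :
    φ.pull (E.mapDomain φ.res) = E := by
  ext R
  rw [pull_apply, φ.e_eq_one h, Finsupp.mapDomain_apply (φ.res_bij h).1, Nat.cast_one, one_mul]

theorem pull_pd (h : Function.Surjective φ.f) (R : Place κ F') :
    φ.pull (pd (φ.res R)) = pd R := by
  rw [← φ.F4_pull_mapDomain h (pd R), pd, pd, Finsupp.mapDomain_single]

theorem ell_pull (h : Function.Surjective φ.f) (D : Dv κ F) : ell (φ.pull D) = ell D := by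
  let j : LL D →+ LL (φ.pull D) :=
    AddMonoidHom.mk' (fun x => ⟨φ.f x, φ.map_mem_LL.2 x.2⟩) fun x y => Subtype.ext (map_add φ.f _ _)
  have hj : Function.Bijective j := by
    refine ⟨fun x y e => Subtype.ext (φ.f.injective (congrArg Subtype.val e)), ?_⟩
    rintro ⟨y, hy⟩
    obtain ⟨x, rfl⟩ := h y
    exact ⟨⟨x, φ.map_mem_LL.1 hy⟩, rfl⟩
  refine (congrArg Cardinal.toNat (rank_eq_of_equiv_equiv φ.c (AddEquiv.ofBijective j hj)
    φ.c.bijective fun r m => Subtype.ext ?_)).symm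
  change φ.f (r • (m : F)) = φ.c r • φ.f m
  rw [Algebra.smul_def, Algebra.smul_def, map_mul, φ.comm]

theorem genus_eq (h : Function.Surjective φ.f) : genus κ F' = genus κ F := by
  have h1 : ∀ D, E6b.deg (φ.pull D) = E6b.deg D := fun D => by
    rw [deg_pull, φ.deg_eq_one_iff.2 h, Nat.cast_one, one_mul]
  unfold genus
  congr 1
  ext n
  constructor
  · rintro ⟨E, hE⟩
    refine ⟨E.mapDomain φ.res, ?_⟩
    rw [← h1, ← φ.ell_pull h, φ.F4_pull_mapDomain h]
    exact hE
  · rintro ⟨D, hD⟩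
    exact ⟨φ.pull D, by rw [h1, φ.ell_pull h]; exact hD⟩

theorem tr_add (x y : F') : φ.tr (x + y) = φ.tr x + φ.tr y := by
  let _ := φ.f.toAlgebra
  exact map_add (Algebra.trace F F') x y

theorem tr_mul (a : F) (x : F') : φ.tr (φ.f a * x) = a * φ.tr x := by
  let _ := φ.f.toAlgebra
  exact map_smul (Algebra.trace F F') a x

theorem tr_map (a : F) : φ.tr (φ.f a) = φ.deg * a := by
  let _ := φ.f.toAlgebra
  have h : Module.finrank F F' = φ.deg :=
    Algebra.finrank_eq_of_equiv_equiv φ.f.rangeRestrictFieldEquiv (RingEquiv.refl F') rfl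
  rw [← h, ← nsmul_eq_mul]
  exact Algebra.trace_algebraMap (R := F) (S := F') a

theorem tr_mem (P : Place κ F) {x : F'} (h : ∀ R, φ.res R = P → x ∈ R.O) : φ.tr x ∈ P.O := by
  let _ := φ.f.toAlgebra
  let _ : Algebra P.O F' := (φ.f.comp P.O.subtype).toAlgebra
  have : IsScalarTower P.O F F' := IsScalarTower.of_algebraMap_eq fun _ => rfl
  have := φ.finite
  have : FiniteDimensional F F' :=
    Module.Finite.of_equiv_equiv φ.f.rangeRestrictFieldEquiv.symm (RingEquiv.refl F') (by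
      ext y
      exact φ.f.rangeRestrictFieldEquiv_apply_symm_apply y)
  let B : Subalgebra κ F' :=
    { P.O.toSubring.map φ.f with
      algebraMap_mem' := fun c =>
        ⟨_, P.const (φ.c.symm c), by rw [φ.comm, RingEquiv.apply_symm_apply]⟩ }
  have h1 : IsIntegral B x := isIntegral_of_forall_mem B fun R hR =>
    h R (Place.eq_of_le (P := P) (Q := φ.res R) fun y hy => hR (φ.f y) ⟨y, hy, rfl⟩).symm
  let e : P.O ≃+* B := P.O.toSubring.equivMapOfInjective φ.f φ.f.injective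
  have h2 : IsIntegral P.O x := (e.isIntegral_iff rfl x).2 h1
  obtain ⟨y, hy⟩ := IsIntegrallyClosed.isIntegral_iff.1 (Algebra.isIntegral_trace (L := F) h2)
  exact (show φ.tr x = y from hy.symm) ▸ y.2

theorem tr_mem_LL {D : Dv κ F} {x : F'} (h : x ∈ LL (φ.pull D)) : φ.tr x ∈ LL D := by
  by_cases h0 : φ.tr x = 0
  · exact mem_LL.2 (Or.inl h0)
  refine mem_LL.2 (Or.inr fun P => ?_)
  obtain ⟨g, hg, h1⟩ := P.exists_ord_eq (D P)
  have h2 := φ.tr_mem P (x := φ.f g * x) fun R hR => by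
    by_cases hx : x = 0
    · rw [hx, mul_zero]
      exact zero_mem _
    have := (mem_LL.1 h).resolve_left hx R
    rw [pull_apply, hR] at this
    rw [Place.mem_iff, R.ord_mul ((map_ne_zero _).2 hg) hx, ord_map, hR, h1]
    omega
  rw [tr_mul, Place.mem_iff, P.ord_mul hg h0, h1] at h2
  omega

end FHom

end Pool.Agent.E6b
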