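import Pool.Agent.E6b.F0

open scoped NNReal TensorProduct IntermediateField BigOperators Classical Topology
open Filter

namespace Pool.Agent.E6b

section
variable {κ F F' : Type} [Field κ] [IsAlgClosed κ] [CharZero κ] [Field F] [Algebra κ F] [IsFF κ F]
  [Field F'] [Algebra κ F'] [IsFF κ F']

/-- Riemann-Roch space -/
def LL (D : Dv κ F) : Submodule κ F where
  carrier := {f | f = 0 ∨ ∀ P : Place κ F, - D P ≤ P.ord f}
  zero_mem' := Or.inl rfl
  add_mem' := by
    intro a b ha hb
    by_cases h0 : a + b = 0
    · exact Or.inl h0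
    by_cases ha0 : a = 0
    · simpa [ha0] using hb
    by_cases hb0 : b = 0
    · simpa [hb0] using ha
    refine Or.inr fun P => le_trans (le_min ?_ ?_) (P.ord_add_ge ha0 hb0 h0)
    · exact (ha.resolve_left ha0) P
    · exact (hb.resolve_left hb0) P
  smul_mem' := by
    intro c a ha
    by_cases hc : c = 0
    · exact Or.inl (by simp [hc])
    by_cases ha0 : a = 0
    · exact Or.inl (by simp [ha0])
    refine Or.inr fun P => ?_
    rw [Algebra.smul_def, P.ord_mul (by simpa using hc) ha0, P.ord_algebraMap, zero_add]
    exact (ha.resolve_left ha0) P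

noncomputable def ell (D : Dv κ F) : ℕ := Module.finrank κ (LL D)

/-- genus -/
noncomputable def genus (κ F : Type) [Field κ] [IsAlgClosed κ] [CharZero κ] [Field F] [Algebra κ F]
    [IsFF κ F] : ℕ :=
  sSup {n : ℕ | ∃ D : Dv κ F, (n : ℤ) = deg D + 1 - ell D}

/-- restriction of a place -/
def FHom.res (φ : FHom κ F F') (R : Place κ F') : Place κ F where
  O := R.O.comap φ.f
  const := fun c => by
    rw [ValuationSubring.mem_comap, φ.comm]; exact R.const _
  ne_top := φ.comap_ne_top R

/-- ramification index -/
noncomputable def FHom.e (φ : FHom κ F F') (R : Place κ F') : ℕ :=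
  if h : ∃ n : ℕ, ∀ f : F, R.ord (φ.f f) = n * (φ.res R).ord f then h.choose else 0

/-- pull-back of divisors -/
noncomputable def FHom.pull (φ : FHom κ F F') (D : Dv κ F) : Dv κ F' :=
  if h : (Function.support fun R : Place κ F' => (φ.e R : ℤ) * D (φ.res R)).Finite then
    Finsupp.ofSupportFinite (fun R => (φ.e R : ℤ) * D (φ.res R)) h else 0

/-- the finite set of places above `P` -/
noncomputable def FHom.fib (φ : FHom κ F F') (P : Place κ F) : Finset (Place κ F') :=
  (φ.pull (pd P)).support

/-- divisor of poles -/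
noncomputable def dinf (κ : Type) [Field κ] [Algebra κ F] (f : F) : Dv κ F :=
  (dv κ f).mapRange (fun n => max (-n) 0) (by simp)

end

end Pool.Agent.E6b
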