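import Mathlib

open scoped NNReal TensorProduct IntermediateField BigOperators Classical Topology
open Filter

namespace Pool.Agent.E6b

/-- function field in one variable -/
class IsFF (κ F : Type) [Field κ] [Field F] [Algebra κ F] : Prop where
  ex : ∃ t : F, Transcendental κ t ∧ FiniteDimensional κ⟮t⟯ F

/-- places -/
@[ext] structure Place (κ F : Type) [Field κ] [Field F] [Algebra κ F] where
  O : ValuationSubring F
  const : ∀ c : κ, algebraMap κ F c ∈ O
  ne_top : O ≠ ⊤

/-- homomorphisms of function fields, semilinear over an automorphism of the constants -/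
structure FHom (κ F F' : Type) [Field κ] [Field F] [Algebra κ F] [Field F'] [Algebra κ F'] where
  f : F →+* F'
  c : κ ≃+* κ
  comm : ∀ x : κ, f (algebraMap κ F x) = algebraMap κ F' (c x)

section
variable {κ F F' F'' : Type} [Field κ] [Field F] [Algebra κ F] [Field F'] [Algebra κ F']
  [Field F''] [Algebra κ F'']

structure OrdSpec (P : Place κ F) (v : F → ℤ) : Prop where
  zero : v 0 = 0
  mul : ∀ f g, f ≠ 0 → g ≠ 0 → v (f * g) = v f + v g
  mem : ∀ f, f ≠ 0 → (f ∈ P.O ↔ 0 ≤ v f)
  unif : ∃ π, π ≠ 0 ∧ v π = 1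

/-- normalised order at a place (`ord 0 = 0`) -/
noncomputable def Place.ord (P : Place κ F) : F → ℤ :=
  if h : ∃ v, OrdSpec P v then h.choose else 0

/-- value at a place (`0` at a pole) -/
noncomputable def Place.ev (P : Place κ F) (f : F) : κ :=
  if h : ∃ c : κ, P.O.valuation (f - algebraMap κ F c) < 1 then h.choose else 0

/-- divisors -/
abbrev Dv (κ F : Type) [Field κ] [Field F] [Algebra κ F] : Type := Place κ F →₀ ℤ

/-- principal divisor (`dv 0 = 0`) -/
noncomputable def dv (κ : Type) [Field κ] [Algebra κ F] (f : F) : Dv κ F :=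
  if h : (Function.support fun P : Place κ F => P.ord f).Finite then
    Finsupp.ofSupportFinite (fun P => P.ord f) h else 0

def deg (D : Dv κ F) : ℤ := D.sum fun _ n => n

/-- the divisor of one place -/
noncomputable def pd (P : Place κ F) : Dv κ F := Finsupp.single P 1

/-- the reduced divisor of a finite set of places -/
noncomputable def ind (S : Finset (Place κ F)) : Dv κ F := ∑ P ∈ S, pd P

def LinEq (D D' : Dv κ F) : Prop := ∃ f : F, f ≠ 0 ∧ D' = D + dv κ f

/-- base point free -/
def BPF (D : Dv κ F) : Prop :=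
  ∀ P : Place κ F, ∃ f : F, f ≠ 0 ∧ (∀ Q : Place κ F, - D Q ≤ Q.ord f) ∧ P.ord f = - D P

/-- linear homomorphism as an `FHom` -/
def FHom.ofAlgHom (φ : F →ₐ[κ] F') : FHom κ F F' where
  f := φ.toRingHom
  c := RingEquiv.refl κ
  comm := φ.commutes

def FHom.comp (ψ : FHom κ F' F'') (φ : FHom κ F F') : FHom κ F F'' where
  f := ψ.f.comp φ.f
  c := φ.c.trans ψ.c
  comm := fun x => by simp [φ.comm, ψ.comm]

/-- degree of a homomorphism -/
noncomputable def FHom.deg (φ : FHom κ F F') : ℕ := Module.finrank φ.f.fieldRange F'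

/-- trace along a homomorphism -/
noncomputable def FHom.tr (φ : FHom κ F F') (x : F') : F :=
  letI := φ.f.toAlgebra
  Algebra.trace F F' x

end

end Pool.Agent.E6b
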