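import Pool.Agent.E6b.GDefs
import Pool.Agent.E6b.H3

open scoped NNReal TensorProduct IntermediateField BigOperators Classical Topology
open Filter

namespace Pool.Agent.E6b

variable {F : Type} [Field F] [Algebra Qb F] [IsFF Qb F] (A : GAct F)

namespace GAct

omit [IsFF Qb F] in
theorem fh_surj (σ : Qb ≃ₐ[ℚ] Qb) : Function.Surjective (A.fh σ).f := (A.act σ).surjective

theorem G1_mem (σ : Qb ≃ₐ[ℚ] Qb) (P : Place Qb F) (f : F) :
    f ∈ (A.sm σ P).O ↔ A.act σ⁻¹ f ∈ P.O := Iff.rfl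

theorem sm_one (P : Place Qb F) : A.sm 1 P = P := by
  ext f
  rw [G1_mem, inv_one, map_one]
  rfl
theorem sm_mul (σ τ : Qb ≃ₐ[ℚ] Qb) (P : Place Qb F) : A.sm (σ * τ) P = A.sm σ (A.sm τ P) := by
  ext f
  rw [G1_mem, G1_mem, G1_mem, mul_inv_rev, map_mul]
  rfl
theorem G1_inv (σ : Qb ≃ₐ[ℚ] Qb) (P : Place Qb F) : A.sm σ⁻¹ (A.sm σ P) = P := by
  rw [← sm_mul, inv_mul_cancel, sm_one]
theorem sm_injective (σ : Qb ≃ₐ[ℚ] Qb) : Function.Injective (A.sm σ) :=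
  Function.LeftInverse.injective (A.G1_inv σ)
theorem res_sm (σ : Qb ≃ₐ[ℚ] Qb) (P : Place Qb F) : (A.fh σ).res (A.sm σ P) = P := by
  have h := A.G1_inv σ P
  rwa [GAct.sm, inv_inv] at h
theorem mem_sm (σ : Qb ≃ₐ[ℚ] Qb) (P : Place Qb F) (f : F) :
    A.act σ f ∈ (A.sm σ P).O ↔ f ∈ P.O := by
  have h := (A.fh σ).map_mem_iff (A.sm σ P) f
  rwa [res_sm] at h
theorem ord_sm (σ : Qb ≃ₐ[ℚ] Qb) (P : Place Qb F) (f : F) :
    (A.sm σ P).ord (A.act σ f) = P.ord f := by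
  have h := (A.fh σ).ord_map (A.sm σ P) f
  rwa [res_sm, (A.fh σ).e_eq_one (A.fh_surj σ), Nat.cast_one, one_mul] at h
theorem ev_sm (σ : Qb ≃ₐ[ℚ] Qb) (P : Place Qb F) (f : F) :
    (A.sm σ P).ev (A.act σ f) = σ (P.ev f) := by
  have h := (A.fh σ).ev_map (A.sm σ P) f
  rwa [res_sm] at h
theorem pull_pd (σ : Qb ≃ₐ[ℚ] Qb) (P : Place Qb F) :
    (A.fh σ).pull (pd P) = pd (A.sm σ P) := by
  have h := (A.fh σ).pull_pd (A.fh_surj σ) (A.sm σ P)
  rwa [res_sm] at h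
theorem pull_apply (σ : Qb ≃ₐ[ℚ] Qb) (D : Dv Qb F) (P : Place Qb F) :
    (A.fh σ).pull D (A.sm σ P) = D P := by
  rw [FHom.pull_apply, res_sm, (A.fh σ).e_eq_one (A.fh_surj σ), Nat.cast_one, one_mul]
theorem pull_ind (σ : Qb ≃ₐ[ℚ] Qb) (S : Finset (Place Qb F)) :
    (A.fh σ).pull (ind S) = ind (S.image (A.sm σ)) := by
  rw [ind, ind, FHom.pull_sum, Finset.sum_image (A.sm_injective σ).injOn]
  exact Finset.sum_congr rfl fun P _ => A.pull_pd σ P
theorem deg_pull (σ : Qb ≃ₐ[ℚ] Qb) (D : Dv Qb F) : deg ((A.fh σ).pull D) = deg D := by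
  rw [FHom.deg_pull, (A.fh σ).deg_eq_one_iff.2 (A.fh_surj σ), Nat.cast_one, one_mul]
theorem Stab.image_eq {K : IntermediateField ℚ Qb} {S : Finset (Place Qb F)} (h : A.Stab K S)
    {σ : Qb ≃ₐ[ℚ] Qb} (hσ : ∀ x ∈ K, σ x = x) : S.image (A.sm σ) = S :=
  Finset.eq_of_subset_of_card_le (Finset.image_subset_iff.2 (h σ hσ))
    (Finset.card_image_of_injective S (A.sm_injective σ)).ge

/-- stabilisers of places are open -/
theorem exists_fix (P : Place Qb F) : ∃ L : IntermediateField ℚ Qb, FiniteDimensional ℚ L ∧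
    ∀ σ : Qb ≃ₐ[ℚ] Qb, (∀ x ∈ L, σ x = x) → A.sm σ P = P := by
  have h0 : (0 : Dv Qb F) ≤ (genus Qb F + 1) • pd P := nsmul_nonneg (F2_pd_nonneg P) _
  have h1 := riemann ((genus Qb F + 1) • pd P)
  rw [deg_nsmul, deg_pd] at h1
  obtain ⟨f, hf, hc⟩ := (two_le_ell_iff h0).1 (by push_cast at h1; omega)
  have h2 : ∀ Q : Place Qb F, Q.ord f < 0 → Q = P := by
    intro Q hQ
    by_contra hne
    rcases mem_LL.1 hf with rfl | h
    · simp [Place.ord_zero] at hQ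
    · have := h Q
      rw [Finsupp.smul_apply, F2_pd_apply, if_neg (Ne.symm hne), smul_zero] at this
      omega
  obtain ⟨Q, hQ⟩ := exists_pole hc
  obtain rfl := h2 Q hQ
  obtain ⟨L, hL, h⟩ := A.opn f
  refine ⟨L, hL, fun σ hσ => h2 _ ?_⟩
  rw [← h σ hσ, ord_sm]
  exact hQ

theorem finite_orb (K : IntermediateField ℚ Qb) (P : Place Qb F) : (A.orb K P).Finite := by
  obtain ⟨L, hL, h⟩ := A.exists_fix P
  let r : (Qb ≃ₐ[ℚ] Qb) → (L →ₐ[ℚ] Qb) := fun σ => (σ : Qb →ₐ[ℚ] Qb).comp L.val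
  refine (Set.finite_range fun a => A.sm (Function.invFun r a) P).subset ?_
  rintro _ ⟨σ, -, rfl⟩
  refine ⟨r σ, ?_⟩
  have h1 : r (Function.invFun r (r σ)) = r σ := Function.invFun_eq ⟨σ, rfl⟩
  set τ := Function.invFun r (r σ)
  have h2 := h (σ⁻¹ * τ) fun x hx => by
    have e : τ x = σ x := DFunLike.congr_fun h1 ⟨x, hx⟩
    rw [AlgEquiv.mul_apply, e, ← AlgEquiv.mul_apply, inv_mul_cancel, AlgEquiv.one_apply]
  change A.sm τ P = _
  conv_rhs => rw [← h2, ← sm_mul, mul_inv_cancel_left]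
theorem mem_orb_self (K : IntermediateField ℚ Qb) (P : Place Qb F) : P ∈ A.orb K P :=
  ⟨1, fun _ _ => rfl, A.sm_one P⟩

theorem G1_fix_inv {K : IntermediateField ℚ Qb} {σ : Qb ≃ₐ[ℚ] Qb} (h : ∀ x ∈ K, σ x = x) :
    ∀ x ∈ K, σ⁻¹ x = x := fun x hx => by
  conv_lhs => rw [← h x hx, ← AlgEquiv.mul_apply, inv_mul_cancel, AlgEquiv.one_apply]
theorem G1_fix_mul {K : IntermediateField ℚ Qb} {σ τ : Qb ≃ₐ[ℚ] Qb} (h : ∀ x ∈ K, σ x = x)
    (h' : ∀ x ∈ K, τ x = x) : ∀ x ∈ K, (σ * τ) x = x := fun x hx => by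
  rw [AlgEquiv.mul_apply, h' x hx, h x hx]

theorem orb_eq_of_mem {K : IntermediateField ℚ Qb} {P Q : Place Qb F} (h : Q ∈ A.orb K P) :
    A.orb K Q = A.orb K P := by
  obtain ⟨τ, hτ, rfl⟩ := h
  ext R
  constructor
  · rintro ⟨σ, hσ, rfl⟩
    exact ⟨σ * τ, G1_fix_mul hσ hτ, A.sm_mul σ τ P⟩
  · rintro ⟨σ, hσ, rfl⟩
    exact ⟨σ * τ⁻¹, G1_fix_mul hσ (G1_fix_inv hτ), by rw [sm_mul, G1_inv]⟩
theorem stab_orb (K : IntermediateField ℚ Qb) (P : Place Qb F) :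
    A.Stab K (A.finite_orb K P).toFinset := by
  intro σ hσ Q hQ
  rw [Set.Finite.mem_toFinset] at hQ ⊢
  rw [← A.orb_eq_of_mem hQ]
  exact ⟨σ, hσ, rfl⟩

/-- the base locus of a stable divisor is stable -/
theorem base_stab {K : IntermediateField ℚ Qb} {S : Finset (Place Qb F)} (h : A.Stab K S) :
    A.Stab K (S.filter fun P => ell (ind S - pd P) = ell (ind S)) := by
  intro σ hσ P hP
  rw [Finset.mem_filter] at hP ⊢
  refine ⟨h σ hσ P hP.1, ?_⟩
  rw [← hP.2, ← (A.fh σ).ell_pull (A.fh_surj σ) (ind S - pd P), FHom.pull_sub, pull_ind,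
    Stab.image_eq A h hσ, pull_pd]

theorem G1_bpf (S : Finset (Place Qb F)) :
    LL (ind S) ≤ LL (ind (S.filter fun P => ¬ ell (ind S - pd P) = ell (ind S))) ∧
      BPF (ind (S.filter fun P => ¬ ell (ind S - pd P) = ell (ind S))) := by
  have h1 : LL (ind S) ≤ LL (ind (S.filter fun P => ¬ ell (ind S - pd P) = ell (ind S))) := by
    intro f hf
    refine mem_LL.2 ((mem_LL.1 hf).imp_right fun h P => ?_)
    have h2 := h P
    rw [ind_apply] at h2 ⊢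
    by_cases hP : P ∈ S
    · by_cases hb : ell (ind S - pd P) = ell (ind S)
      · rw [if_neg (by simp [hb])]
        rw [if_pos hP] at h2
        by_cases h0 : f = 0
        · simp [h0, Place.ord_zero]
        · have h3 := mt (ell_sub_pd_lt_iff (ind S) P).2 hb.not_lt
          have h4 : P.ord f ≠ - ind S P := fun e => h3 ⟨f, hf, h0, e⟩
          rw [ind_apply, if_pos hP] at h4
          omega
      · rw [if_pos hP] at h2
        rwa [if_pos (Finset.mem_filter.2 ⟨hP, hb⟩)]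
    · rw [if_neg hP] at h2
      rwa [if_neg fun h => hP (Finset.mem_filter.1 h).1]
  refine ⟨h1, fun P => ?_⟩
  by_cases hP : P ∈ S.filter fun P => ¬ ell (ind S - pd P) = ell (ind S)
  · obtain ⟨h2, h3⟩ := Finset.mem_filter.1 hP
    obtain ⟨f, hf, h0, e⟩ := (ell_sub_pd_lt_iff (ind S) P).1
      (lt_of_le_of_ne (ell_mono (F2_sub_pd_le _ P)) h3)
    refine ⟨f, h0, (mem_LL.1 (h1 hf)).resolve_left h0, ?_⟩
    rw [e, ind_apply, ind_apply, if_pos hP, if_pos h2]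
  · refine ⟨1, one_ne_zero, fun Q => ?_, ?_⟩
    · rw [Place.ord_one, ind_apply]
      split_ifs <;> omega
    · rw [Place.ord_one, ind_apply, if_neg hP, neg_zero]

/-- the moving part of the sum of two orbits -/
theorem bpf_of_two_le {K : IntermediateField ℚ Qb} {P Q : Place Qb F}
    (hd : Disjoint (A.finite_orb K P).toFinset (A.finite_orb K Q).toFinset)
    (h : 2 ≤ ell (ind (A.finite_orb K P).toFinset + ind (A.finite_orb K Q).toFinset)) :
    BPF (ind (A.finite_orb K P).toFinset) ∨ BPF (ind (A.finite_orb K Q).toFinset) ∨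
      BPF (ind (A.finite_orb K P).toFinset + ind (A.finite_orb K Q).toFinset) := by
  have e : ind (A.finite_orb K P).toFinset + ind (A.finite_orb K Q).toFinset =
      ind ((A.finite_orb K P).toFinset ∪ (A.finite_orb K Q).toFinset) :=
    (Finset.sum_union hd).symm
  rw [e] at h ⊢
  set S := (A.finite_orb K P).toFinset ∪ (A.finite_orb K Q).toFinset with hS
  have hst : A.Stab K S := fun σ hσ R hR => Finset.mem_union.2
    ((Finset.mem_union.1 hR).imp (A.stab_orb K P σ hσ R) (A.stab_orb K Q σ hσ R))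
  obtain ⟨h1, h2⟩ := G1_bpf S
  set U := S.filter fun P => ¬ ell (ind S - pd P) = ell (ind S) with hU
  have hUS : ∀ R ∈ U, R ∈ A.orb K P ∨ R ∈ A.orb K Q := fun R hR => by
    simpa [hS] using (Finset.mem_filter.1 hR).1
  have hUo : ∀ R ∈ U, ∀ R' ∈ A.orb K R, R' ∈ U := by
    rintro R hR _ ⟨σ, hσ, rfl⟩
    obtain ⟨h3, h4⟩ := Finset.mem_filter.1 hR
    refine Finset.mem_filter.2 ⟨hst σ hσ R h3, fun h5 => h4 ?_⟩
    have := A.base_stab hst σ⁻¹ (G1_fix_inv hσ) _ (Finset.mem_filter.2 ⟨hst σ hσ R h3, h5⟩)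
    rw [G1_inv] at this
    exact (Finset.mem_filter.1 this).2
  have hin : ∀ X, (∃ R ∈ U, R ∈ A.orb K X) → (A.finite_orb K X).toFinset ⊆ U := by
    rintro X ⟨R, hR, hX⟩ R' hR'
    rw [Set.Finite.mem_toFinset, ← A.orb_eq_of_mem hX] at hR'
    exact hUo R hR R' hR'
  by_cases a : ∃ R ∈ U, R ∈ A.orb K P <;> by_cases b : ∃ R ∈ U, R ∈ A.orb K Q
  · refine Or.inr (Or.inr ?_)
    rwa [← Finset.Subset.antisymm (Finset.filter_subset _ _ : U ⊆ S)
      (Finset.union_subset (hin P a) (hin Q b))]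
  · refine Or.inl ?_
    rwa [Finset.Subset.antisymm (hin P a) fun R hR =>
      (Set.Finite.mem_toFinset _).2 ((hUS R hR).resolve_right fun h => b ⟨R, hR, h⟩)]
  · refine Or.inr (Or.inl ?_)
    rwa [Finset.Subset.antisymm (hin Q b) fun R hR =>
      (Set.Finite.mem_toFinset _).2 ((hUS R hR).resolve_left fun h => a ⟨R, hR, h⟩)]
  · have h3 : U = ∅ := Finset.eq_empty_of_forall_notMem fun R hR =>
      (hUS R hR).elim (fun h => a ⟨R, hR, h⟩) fun h => b ⟨R, hR, h⟩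
    have h4 : ell (ind S) ≤ ell (ind U) := Submodule.finrank_mono h1
    rw [h3, ind, ind, Finset.sum_empty, ell_zero] at h4
    exact absurd (h.trans h4) (by omega)

end GAct

end Pool.Agent.E6b
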