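import Mathlib

open scoped NNReal TensorProduct IntermediateField BigOperators Classical Topology
open Filter

namespace Pool.Agent.E6b

/-- The field of algebraic numbers. -/
abbrev Qb : Type := AlgebraicClosure ℚ

/-- Normalised places of `Qb` above `p` (`p = 0`: archimedean). -/
def IsPl (p : ℕ) (v : AbsoluteValue Qb ℝ) : Prop :=
  (p = 0 ∧ ∃ ι : Qb →+* ℂ, ∀ x, v x = ‖ι x‖) ∨
    (p.Prime ∧ IsNonarchimedean v ∧ v (p : Qb) = (p : ℝ)⁻¹)

/-- `max_{a ∈ s} v a` (`0` for the empty set). -/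
noncomputable def nrm (v : AbsoluteValue Qb ℝ) (s : Finset Qb) : ℝ :=
  ((s.sup fun a => Real.toNNReal (v a) : ℝ≥0) : ℝ)

/-- `c` at the archimedean places, `1` at the others. -/
noncomputable def th (p : ℕ) (c : ℝ) : ℝ := if p = 0 then c else 1

/-- What we use of the absolute logarithmic (projective) height of a finite set. -/
structure HtSpec (ht : Finset Qb → ℝ) : Prop where
  lg : ∀ {r : Type} [Fintype r] (s : r → Finset Qb) (c : r → ℝ) (cst : ℕ →₀ ℝ),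
    (∀ i, ∃ a ∈ s i, a ≠ 0) → (∀ p, p ≠ 0 → 0 ≤ cst p) →
    (∀ p v, IsPl p v → ∑ i, c i * Real.log (nrm v (s i)) ≤ cst p) →
    ∑ i, c i * ht (s i) ≤ cst.sum fun _ x => x
  single : ∀ a : Qb, a ≠ 0 → ht {a} = 0
  gal : ∀ (σ : Qb ≃ₐ[ℚ] Qb) (s : Finset Qb), ht (s.image σ) = ht s
  zero : ∀ s : Finset Qb, (∀ a ∈ s, a = 0) → ht s = 0

end Pool.Agent.E6b
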