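import Pool.Agent.E6b.F4
import Pool.Agent.E6b.HDefs

open scoped NNReal TensorProduct IntermediateField BigOperators Classical Topology
open Filter

namespace Pool.Agent.E6b

/-- a semilinear action of the absolute Galois group with open stabilisers -/
structure GAct (F : Type) [Field F] [Algebra Qb F] where
  act : (Qb ≃ₐ[ℚ] Qb) →* (F ≃+* F)
  comm : ∀ σ c, act σ (algebraMap Qb F c) = algebraMap Qb F (σ c)
  opn : ∀ f, ∃ K : IntermediateField ℚ Qb, FiniteDimensional ℚ K ∧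
    ∀ σ : Qb ≃ₐ[ℚ] Qb, (∀ x ∈ K, σ x = x) → act σ f = f

section
variable {F : Type} [Field F] [Algebra Qb F] (A : GAct F)

noncomputable def GAct.fh (σ : Qb ≃ₐ[ℚ] Qb) : FHom Qb F F where
  f := (A.act σ).toRingHom
  c := σ.toRingEquiv
  comm := A.comm σ

variable [IsFF Qb F]

/-- action on places -/
noncomputable def GAct.sm (σ : Qb ≃ₐ[ℚ] Qb) (P : Place Qb F) : Place Qb F := (A.fh σ⁻¹).res P

/-- orbit of a place under the Galois group over `K` -/
def GAct.orb (K : IntermediateField ℚ Qb) (P : Place Qb F) : Set (Place Qb F) :=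
  {Q | ∃ σ : Qb ≃ₐ[ℚ] Qb, (∀ x ∈ K, σ x = x) ∧ A.sm σ P = Q}

/-- sets of places stable under the Galois group over `K` -/
def GAct.Stab (K : IntermediateField ℚ Qb) (S : Finset (Place Qb F)) : Prop :=
  ∀ σ : Qb ≃ₐ[ℚ] Qb, (∀ x ∈ K, σ x = x) → ∀ P ∈ S, A.sm σ P ∈ S

end

end Pool.Agent.E6b
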