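import Pool.Agent.E6b.H2

open scoped NNReal TensorProduct IntermediateField BigOperators Classical Topology
open Filter

namespace Pool.Agent.E6b

theorem Gelf_sum_lt {v : AbsoluteValue Qb ℝ} (hv : IsNonarchimedean v) {ι : Type*} (s : Finset ι)
    (f : ι → Qb) {M : ℝ} (hM : 0 < M) (hf : ∀ i ∈ s, v (f i) < M) : v (∑ i ∈ s, f i) < M := by
  induction s using Finset.induction_on with
  | empty => simpa using hM
  | insert a s ha ih =>
    rw [Finset.sum_insert ha]
    refine (hv _ _).trans_lt (max_lt (hf a (Finset.mem_insert_self _ _)) (ih fun i hi => ?_))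
    exact hf i (Finset.mem_insert_of_mem hi)

theorem Gelf_coeff_le {σ : Type} (v : AbsoluteValue Qb ℝ) (P : MvPolynomial σ Qb) (m : σ →₀ ℕ) :
    v (P.coeff m) ≤ nrm v P.coeffs := by
  by_cases h : P.coeff m = 0
  · rw [h, map_zero]
    exact nrm_nonneg v _
  · exact le_nrm v (MvPolynomial.coeff_mem_coeffs m h)

theorem Gelf_nrm_le {σ : Type} (v : AbsoluteValue Qb ℝ) (P : MvPolynomial σ Qb) {M : ℝ}
    (hM : 0 ≤ M) (h : ∀ m, v (P.coeff m) ≤ M) : nrm v P.coeffs ≤ M := by
  refine nrm_le v hM fun a ha => ?_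
  obtain ⟨m, -, rfl⟩ := MvPolynomial.mem_coeffs_iff.1 ha
  exact h m

theorem Gelf_exists_ne {σ : Type} {P : MvPolynomial σ Qb} (hP : P ≠ 0) :
    ∃ a ∈ P.coeffs, a ≠ 0 := by
  obtain ⟨m, hm⟩ := MvPolynomial.exists_coeff_ne_zero hP
  exact ⟨_, MvPolynomial.coeff_mem_coeffs m hm, hm⟩

theorem Gelf_exists_eq {σ : Type} (v : AbsoluteValue Qb ℝ) {P : MvPolynomial σ Qb} (hP : P ≠ 0) :
    ∃ m ∈ P.support, v (P.coeff m) = nrm v P.coeffs := by
  obtain ⟨a, ha, -⟩ := Gelf_exists_ne hP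
  obtain ⟨b, hb, hb'⟩ := exists_nrm_eq v ⟨a, ha⟩
  obtain ⟨m, hm, rfl⟩ := MvPolynomial.mem_coeffs_iff.1 hb
  exact ⟨m, hm, hb'⟩

theorem Gelf_nrm_zero {σ : Type} (v : AbsoluteValue Qb ℝ) :
    nrm v (0 : MvPolynomial σ Qb).coeffs = 0 :=
  le_antisymm (Gelf_nrm_le v 0 le_rfl fun m => by simp) (nrm_nonneg v _)

theorem Gelf_nrm_one {σ : Type} (v : AbsoluteValue Qb ℝ) :
    nrm v (1 : MvPolynomial σ Qb).coeffs = 1 := by
  rw [MvPolynomial.coeffs_one_of_nontrivial]
  obtain ⟨a, ha, h⟩ := exists_nrm_eq v (Finset.singleton_nonempty (1 : Qb))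
  rw [Finset.mem_singleton.1 ha, map_one] at h
  exact h.symm

/-- the largest monomial at which the norm is attained -/
theorem Gelf_top {σ : Type} [LinearOrder σ] (v : AbsoluteValue Qb ℝ) {P : MvPolynomial σ Qb}
    (hP : P ≠ 0) : ∃ m : σ →₀ ℕ, v (P.coeff m) = nrm v P.coeffs ∧
      ∀ m' : σ →₀ ℕ, toLex m < toLex m' → v (P.coeff m') < nrm v P.coeffs := by
  obtain ⟨m0, hm0, hm0'⟩ := Gelf_exists_eq v hP
  obtain ⟨m, hm, hmax⟩ := Finset.exists_max_image
    (P.support.filter fun m => v (P.coeff m) = nrm v P.coeffs) (fun m => toLex m)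
    ⟨m0, Finset.mem_filter.2 ⟨hm0, hm0'⟩⟩
  refine ⟨m, (Finset.mem_filter.1 hm).2, fun m' hm' => ?_⟩
  refine lt_of_le_of_ne (Gelf_coeff_le v P m') fun he => ?_
  have h1 : m' ∈ P.support := by
    rw [MvPolynomial.mem_support_iff]
    intro h0
    rw [h0, map_zero] at he
    exact (nrm_pos v (Gelf_exists_ne hP)).ne he
  exact absurd (hmax m' (Finset.mem_filter.2 ⟨h1, he⟩)) (not_le.2 hm')

theorem Gelf_coeff_mul {σ : Type} (P Q : MvPolynomial σ Qb) (m : σ →₀ ℕ) :
    ∃ T : Finset ((σ →₀ ℕ) × (σ →₀ ℕ)), (∀ x, x ∈ T ↔ x.1 + x.2 = m) ∧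
      (P * Q).coeff m = ∑ x ∈ T, P.coeff x.1 * Q.coeff x.2 :=
  ⟨_, fun _ => Finset.HasAntidiagonal.mem_antidiagonal, MvPolynomial.coeff_mul P Q m⟩

/-- Gauss lemma at a non-archimedean place. -/
theorem nrm_coeffs_mul {σ : Type} {p : ℕ} {v : AbsoluteValue Qb ℝ} (h : IsPl p v) (hp : p ≠ 0)
    (P Q : MvPolynomial σ Qb) : nrm v (P * Q).coeffs = nrm v P.coeffs * nrm v Q.coeffs := by
  have hv := h.nonarch hp
  by_cases hP : P = 0
  · rw [hP, zero_mul, Gelf_nrm_zero, zero_mul]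
  by_cases hQ : Q = 0
  · rw [hQ, mul_zero, Gelf_nrm_zero, mul_zero]
  have hP0 := nrm_pos v (Gelf_exists_ne hP)
  have hQ0 := nrm_pos v (Gelf_exists_ne hQ)
  apply le_antisymm
  · refine Gelf_nrm_le v _ (by positivity) fun m => ?_
    obtain ⟨T, -, hT⟩ := Gelf_coeff_mul P Q m
    rw [hT]
    have := h.sum_le T (fun x => P.coeff x.1 * Q.coeff x.2)
      (M := nrm v P.coeffs * nrm v Q.coeffs) (by positivity) fun x _ => by
        rw [map_mul]
        exact mul_le_mul (Gelf_coeff_le v P _) (Gelf_coeff_le v Q _) (v.nonneg _) hP0.le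
    rwa [th, if_neg hp, one_mul] at this
  · let _ : LinearOrder σ := linearOrderOfSTO WellOrderingRel
    obtain ⟨a, ha, ha'⟩ := Gelf_top v hP
    obtain ⟨b, hb, hb'⟩ := Gelf_top v hQ
    refine le_trans ?_ (Gelf_coeff_le v (P * Q) (a + b))
    obtain ⟨T, hT, hT'⟩ := Gelf_coeff_mul P Q (a + b)
    have hab : (a, b) ∈ T := (hT _).2 rfl
    rw [hT', ← Finset.add_sum_erase _ _ hab]
    have h1 : v (P.coeff a * Q.coeff b) = nrm v P.coeffs * nrm v Q.coeffs := by
      rw [map_mul, ha, hb]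
    have h2 : v (∑ x ∈ T.erase (a, b), P.coeff x.1 * Q.coeff x.2) <
        nrm v P.coeffs * nrm v Q.coeffs := by
      refine Gelf_sum_lt hv _ _ (by positivity) fun x hx => ?_
      obtain ⟨hx1, hx2⟩ := Finset.mem_erase.1 hx
      have hx3 : x.1 + x.2 = a + b := (hT _).1 hx2
      rw [map_mul]
      by_cases h3 : toLex a < toLex x.1
      · exact (mul_le_mul_of_nonneg_left (Gelf_coeff_le v Q _) (v.nonneg _)).trans_lt
          (mul_lt_mul_of_pos_right (ha' _ h3) hQ0)
      · have h4 : toLex b < toLex x.2 := by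
          by_contra h4
          have h5 : toLex x.1 + toLex x.2 = toLex a + toLex b := congrArg toLex hx3
          have h6 := (add_eq_add_iff_eq_and_eq (not_lt.1 h3) (not_lt.1 h4)).1 h5
          exact hx1 (Prod.ext (toLex.injective h6.1) (toLex.injective h6.2))
        exact (mul_le_mul_of_nonneg_right (Gelf_coeff_le v P _) (v.nonneg _)).trans_lt
          (mul_lt_mul_of_pos_left (hb' _ h4) hP0)
    by_contra h3
    have h4 := hv (P.coeff a * Q.coeff b +
      ∑ x ∈ T.erase (a, b), P.coeff x.1 * Q.coeff x.2)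
      (-∑ x ∈ T.erase (a, b), P.coeff x.1 * Q.coeff x.2)
    rw [add_neg_cancel_right, h1, v.map_neg] at h4
    exact absurd h4 (not_le.2 (max_lt (not_le.1 h3) h2))

theorem Gelf_parseval (p : Polynomial ℂ) {B : ℝ} (h : ∀ z : ℂ, ‖z‖ = 1 → ‖p.eval z‖ ≤ B) :
    ∑ i ∈ p.support, ‖p.coeff i‖ ^ 2 ≤ B ^ 2 := by
  rw [p.sum_sq_norm_coeff_eq_circleAverage]
  refine Real.circleAverage_mono_on_of_le_circle ?_ fun x hx => ?_
  · exact Continuous.continuousOn (by fun_prop) |>.circleIntegrable zero_le_one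
  · refine pow_le_pow_left₀ (norm_nonneg _) (h x ?_) 2
    simpa using hx

theorem Gelf_mahler_le (p : Polynomial ℂ) {B : ℝ} (h : ∀ z : ℂ, ‖z‖ = 1 → ‖p.eval z‖ ≤ B) :
    p.mahlerMeasure ≤ B := by
  have hB : 0 ≤ B := (norm_nonneg _).trans (h 1 norm_one)
  refine p.mahlerMeasure_le_sqrt_sum_sq_norm_coeff.trans ?_
  rw [Real.sqrt_le_left hB]
  exact Gelf_parseval p h

theorem Gelf_coeff_le1 (p : Polynomial ℂ) {B : ℝ} (h : ∀ z : ℂ, ‖z‖ = 1 → ‖p.eval z‖ ≤ B)
    (n : ℕ) : ‖p.coeff n‖ ≤ B := by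
  have hB : 0 ≤ B := (norm_nonneg _).trans (h 1 norm_one)
  by_cases hn : n ∈ p.support
  · have h1 := Finset.single_le_sum (f := fun i => ‖p.coeff i‖ ^ 2) (fun _ _ => by positivity) hn
    exact (pow_le_pow_iff_left₀ (norm_nonneg _) hB two_ne_zero).1 (h1.trans (Gelf_parseval p h))
  · rw [Polynomial.notMem_support_iff.1 hn, norm_zero]
    exact hB

theorem Gelf_eval_le (p : Polynomial ℂ) {z : ℂ} (hz : ‖z‖ = 1) :
    ‖p.eval z‖ ≤ 2 ^ p.natDegree * p.mahlerMeasure := by
  rw [Polynomial.eval_eq_sum_range]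
  refine (norm_sum_le _ _).trans ?_
  have h1 : ∀ i ∈ Finset.range (p.natDegree + 1), ‖p.coeff i * z ^ i‖ ≤
      (p.natDegree.choose i : ℝ) * p.mahlerMeasure := by
    intro i _
    rw [norm_mul, norm_pow, hz, one_pow, mul_one]
    exact p.norm_coeff_le_choose_mul_mahlerMeasure i
  refine (Finset.sum_le_sum h1).trans (le_of_eq ?_)
  rw [← Finset.sum_mul, ← Nat.cast_sum, Nat.sum_range_choose]
  push_cast
  rfl

theorem Gelf_mahler_prod {ι : Type} (s : Finset ι) (G : ι → Polynomial ℂ) :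
    (∏ i ∈ s, G i).mahlerMeasure = ∏ i ∈ s, (G i).mahlerMeasure := by
  induction s using Finset.induction_on with
  | empty => simp
  | insert a s ha ih =>
    rw [Finset.prod_insert ha, Finset.prod_insert ha, Polynomial.mahlerMeasure_mul, ih]

theorem Gelf_one_var {ι : Type} (s : Finset ι) (G : ι → Polynomial ℂ) (t : ι → ℂ)
    (ht : ∀ i, ‖t i‖ = 1) {B : ℝ} (h : ∀ z : ℂ, ‖z‖ = 1 → ∏ i ∈ s, ‖(G i).eval z‖ ≤ B) :
    ∏ i ∈ s, ‖(G i).eval (t i)‖ ≤ 2 ^ (∑ i ∈ s, (G i).natDegree) * B := by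
  have h1 : (∏ i ∈ s, G i).mahlerMeasure ≤ B := by
    refine Gelf_mahler_le _ fun z hz => ?_
    rw [Polynomial.eval_prod, norm_prod]
    exact h z hz
  refine (Finset.prod_le_prod (fun _ _ => norm_nonneg _) fun i _ => Gelf_eval_le (G i) (ht i)).trans
    ?_
  rw [Finset.prod_mul_distrib, Finset.prod_pow_eq_pow_sum, ← Gelf_mahler_prod]
  exact mul_le_mul_of_nonneg_left h1 (by positivity)

theorem Gelf_restrict {σ : Type} [Fintype σ] (F : MvPolynomial σ ℂ) (a : σ → ℂ) (j : σ) :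
    ∃ G : Polynomial ℂ, G.natDegree ≤ F.degreeOf j ∧
      ∀ t, G.eval t = MvPolynomial.eval (Function.update a j t) F := by
  refine ⟨∑ m ∈ F.support, Polynomial.monomial (m j)
    (F.coeff m * ∏ k ∈ Finset.univ.erase j, a k ^ m k), ?_, fun t => ?_⟩
  · refine Polynomial.natDegree_sum_le_of_forall_le _ _ fun m hm => ?_
    exact (Polynomial.natDegree_monomial_le _).trans (MvPolynomial.monomial_le_degreeOf j hm)
  · rw [Polynomial.eval_finsetSum, MvPolynomial.eval_eq']
    refine Finset.sum_congr rfl fun m _ => ?_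
    rw [Polynomial.eval_monomial, ← Finset.mul_prod_erase _ _ (Finset.mem_univ j),
      Function.update_self]
    have h1 : ∏ k ∈ Finset.univ.erase j, Function.update a j t k ^ m k =
        ∏ k ∈ Finset.univ.erase j, a k ^ m k := by
      refine Finset.prod_congr rfl fun k hk => ?_
      rw [Function.update_of_ne (Finset.ne_of_mem_erase hk)]
    rw [h1]
    ring

theorem Gelf_hybrid {σ ι : Type} [Fintype σ] (s : Finset ι) (F : ι → MvPolynomial σ ℂ) (d : σ → ℕ)
    (hd : ∀ j, ∑ i ∈ s, (F i).degreeOf j ≤ d j) {B : ℝ}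
    (h : ∀ z : σ → ℂ, (∀ j, ‖z j‖ = 1) → ∏ i ∈ s, ‖MvPolynomial.eval z (F i)‖ ≤ B)
    (T : Finset σ) : ∀ (c : σ → ℂ) (a : ι → σ → ℂ), (∀ j, ‖c j‖ = 1) → (∀ i j, ‖a i j‖ = 1) →
      (∀ i, ∀ j ∉ T, a i j = c j) →
      ∏ i ∈ s, ‖MvPolynomial.eval (a i) (F i)‖ ≤ 2 ^ (∑ j ∈ T, d j) * B := by
  have hB : 0 ≤ B := (Finset.prod_nonneg fun _ _ => norm_nonneg _).trans
    (h (fun _ => 1) fun _ => norm_one)
  induction T using Finset.induction_on with
  | empty =>
    intro c a hc _ hac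
    have h1 : ∀ i, a i = c := fun i => funext fun j => hac i j (Finset.notMem_empty j)
    simp only [h1, Finset.sum_empty, pow_zero, one_mul]
    exact h c hc
  | insert j T hj ih =>
    intro c a hc ha hac
    choose G hG1 hG2 using fun i => Gelf_restrict (F i) (a i) j
    have h1 := Gelf_one_var s G (fun i => a i j) (fun i => ha i j)
      (B := 2 ^ (∑ j ∈ T, d j) * B) (by
        intro z hz
        simp only [hG2]
        refine ih (Function.update c j z) (fun i => Function.update (a i) j z) ?_ ?_ ?_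
        · intro k
          by_cases hk : k = j
          · rw [hk, Function.update_self, hz]
          · rw [Function.update_of_ne hk, hc]
        · intro i k
          by_cases hk : k = j
          · rw [hk, Function.update_self, hz]
          · rw [Function.update_of_ne hk, ha]
        · intro i k hkT
          by_cases hk : k = j
          · rw [hk, Function.update_self, Function.update_self]
          · rw [Function.update_of_ne hk, Function.update_of_ne hk]
            exact hac i k fun hm => (Finset.mem_insert.1 hm).elim hk hkT)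
    simp only [hG2, Function.update_eq_self] at h1
    refine h1.trans ?_
    rw [Finset.sum_insert hj, pow_add, mul_assoc]
    refine mul_le_mul_of_nonneg_right (pow_le_pow_right₀ one_le_two ?_) (by positivity)
    exact (Finset.sum_le_sum fun i _ => hG1 i).trans (hd j)

theorem Gelf_coeff_fin (n : ℕ) : ∀ (F : MvPolynomial (Fin n) ℂ) {B : ℝ},
    (∀ z : Fin n → ℂ, (∀ j, ‖z j‖ = 1) → ‖MvPolynomial.eval z F‖ ≤ B) →
    ∀ m, ‖F.coeff m‖ ≤ B := by
  induction n with
  | zero =>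
    intro F B h m
    have h1 := h (fun _ => 1) fun _ => norm_one
    rw [MvPolynomial.eq_C_of_isEmpty F, MvPolynomial.eval_C] at h1
    rwa [Subsingleton.elim m 0]
  | succ n ih =>
    intro F B h m
    rw [← Finsupp.cons_tail m, ← MvPolynomial.finSuccEquiv_coeff_coeff]
    refine ih _ (fun z hz => ?_) _
    rw [← Polynomial.coeff_map]
    refine Gelf_coeff_le1 _ (fun y hy => ?_) _
    rw [← MvPolynomial.eval_eq_eval_mv_eval']
    refine h _ fun j => ?_
    refine Fin.cases ?_ (fun k => ?_) j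
    · simpa using hy
    · simpa using hz k

theorem Gelf_coeff_torus {σ : Type} [Fintype σ] (F : MvPolynomial σ ℂ) (m : σ →₀ ℕ) :
    ∃ z : σ → ℂ, (∀ j, ‖z j‖ = 1) ∧ ‖F.coeff m‖ ≤ ‖MvPolynomial.eval z F‖ := by
  have hK : IsCompact (Set.pi Set.univ fun _ : σ => Metric.sphere (0 : ℂ) 1) :=
    isCompact_univ_pi fun _ => isCompact_sphere 0 1
  obtain ⟨z, hz, hmax⟩ := hK.exists_isMaxOn (f := fun z => ‖MvPolynomial.eval z F‖)
    ⟨fun _ => 1, fun _ _ => by simp⟩ (MvPolynomial.continuous_eval F).norm.continuousOn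
  refine ⟨z, fun j => by simpa using hz j (Set.mem_univ j), ?_⟩
  let e := Fintype.equivFin σ
  rw [← MvPolynomial.coeff_rename_mapDomain e e.injective]
  refine Gelf_coeff_fin _ _ (fun w hw => ?_) _
  rw [MvPolynomial.eval_rename]
  exact hmax (show w ∘ e ∈ Set.pi Set.univ fun _ : σ => Metric.sphere (0 : ℂ) 1 from
    fun j _ => by simpa using hw (e j))

theorem Gelf_card_support {σ R : Type} [Fintype σ] [CommSemiring R] (F : MvPolynomial σ R)
    (d : σ → ℕ) (hd : ∀ j, F.degreeOf j ≤ d j) :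
    (F.support.card : ℝ) ≤ Real.exp (∑ j, (d j : ℝ)) := by
  have h1 : F.support.card ≤ (Fintype.piFinset fun j => Finset.range (d j + 1)).card := by
    refine Finset.card_le_card_of_injOn (fun m => (m : σ → ℕ)) (fun m hm => ?_)
      fun m _ m' _ hmm => DFunLike.coe_injective hmm
    refine Finset.mem_coe.2 (Fintype.mem_piFinset.2 fun j => Finset.mem_range.2 ?_)
    exact Nat.lt_succ_of_le ((MvPolynomial.monomial_le_degreeOf j (Finset.mem_coe.1 hm)).trans (hd j))
  rw [Fintype.card_piFinset] at h1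
  refine (Nat.cast_le.2 h1).trans ?_
  rw [Real.exp_sum, Nat.cast_prod]
  refine Finset.prod_le_prod (fun _ _ => Nat.cast_nonneg _) fun j _ => ?_
  rw [Finset.card_range]
  push_cast
  exact Real.add_one_le_exp _

theorem Gelf_complex {σ ι : Type} [Fintype σ] (s : Finset ι) (F : ι → MvPolynomial σ ℂ)
    (hF : ∀ i ∈ s, F i ≠ 0) (d : σ → ℕ) (hd : ∀ j, (∏ i ∈ s, F i).degreeOf j ≤ d j) {N : ℝ}
    (hN0 : 0 ≤ N) (hN : ∀ m, ‖(∏ i ∈ s, F i).coeff m‖ ≤ N) (m : ι → σ →₀ ℕ) :
    ∏ i ∈ s, ‖(F i).coeff (m i)‖ ≤ Real.exp (2 * ∑ j, (d j : ℝ)) * N := by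
  choose a ha1 ha2 using fun i => Gelf_coeff_torus (F i) (m i)
  refine (Finset.prod_le_prod (fun _ _ => norm_nonneg _) fun i _ => ha2 i).trans ?_
  have h1 := Gelf_hybrid s F d (fun j => by
      rw [← MvPolynomial.degreeOf_prod_eq s F hF]
      exact hd j) (B := Real.exp (∑ j, (d j : ℝ)) * N) (by
      intro z hz
      rw [← norm_prod, ← map_prod, MvPolynomial.eval_eq']
      refine (norm_sum_le _ _).trans ?_
      refine (Finset.sum_le_card_nsmul _ _ N fun k _ => ?_).trans ?_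
      · rw [norm_mul, norm_prod]
        simp only [norm_pow, hz, one_pow, Finset.prod_const_one, mul_one]
        exact hN k
      · rw [nsmul_eq_mul]
        exact mul_le_mul_of_nonneg_right (Gelf_card_support _ d hd) hN0)
    Finset.univ (fun _ => 1) a (fun _ => norm_one) ha1 fun _ j hj => absurd (Finset.mem_univ j) hj
  refine h1.trans ?_
  rw [two_mul, Real.exp_add, mul_assoc]
  refine mul_le_mul_of_nonneg_right ?_ (by positivity)
  rw [← Nat.cast_sum, ← Real.exp_one_pow]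
  refine pow_le_pow_left₀ zero_le_two ?_ _
  have := Real.add_one_le_exp 1
  linarith

/-- Gelfond's inequality at an archimedean place. -/
theorem prod_nrm_coeffs_le {σ ι : Type} [Fintype σ] {v : AbsoluteValue Qb ℝ} (h : IsPl 0 v)
    (s : Finset ι) (P : ι → MvPolynomial σ Qb) (d : σ → ℕ)
    (hd : ∀ j, (∏ i ∈ s, P i).degreeOf j ≤ d j) :
    ∏ i ∈ s, nrm v (P i).coeffs ≤ Real.exp (2 * ∑ j, (d j : ℝ)) * nrm v (∏ i ∈ s, P i).coeffs := by
  by_cases hP : ∀ i ∈ s, P i ≠ 0
  swap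
  · push Not at hP
    obtain ⟨i, hi, hi0⟩ := hP
    rw [Finset.prod_eq_zero hi (by rw [hi0, Gelf_nrm_zero])]
    exact mul_nonneg (Real.exp_pos _).le (nrm_nonneg v _)
  obtain ⟨φ, hφ⟩ : ∃ φ : Qb →+* ℂ, ∀ x, v x = ‖φ x‖ := by
    rcases h with h | h
    · exact h.2
    · exact absurd h.1 Nat.not_prime_zero
  have hm : ∀ i, ∃ m : σ →₀ ℕ, i ∈ s → v ((P i).coeff m) = nrm v (P i).coeffs := by
    intro i
    by_cases hi : i ∈ s
    · obtain ⟨m, -, hm⟩ := Gelf_exists_eq v (hP i hi)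
      exact ⟨m, fun _ => hm⟩
    · exact ⟨0, fun h => absurd h hi⟩
  choose m hm using hm
  have h1 := Gelf_complex s (fun i => MvPolynomial.map φ (P i))
    (fun i hi h0 => hP i hi (MvPolynomial.map_injective φ φ.injective (by rw [h0, map_zero]))) d
    (fun j => by
      rw [← map_prod]
      refine le_trans ?_ (hd j)
      rw [MvPolynomial.degreeOf_le_iff]
      intro k hk
      exact MvPolynomial.monomial_le_degreeOf j (MvPolynomial.support_map_subset _ _ hk))
    (nrm_nonneg v (∏ i ∈ s, P i).coeffs) (fun k => by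
      rw [← map_prod, MvPolynomial.coeff_map, ← hφ]
      exact Gelf_coeff_le v _ k) m
  refine le_trans (le_of_eq (Finset.prod_congr rfl fun i hi => ?_)) h1
  rw [MvPolynomial.coeff_map, ← hφ, hm i hi]

theorem Gelf_nrm_prod {σ ι : Type} {p : ℕ} {v : AbsoluteValue Qb ℝ} (h : IsPl p v) (hp : p ≠ 0)
    (s : Finset ι) (P : ι → MvPolynomial σ Qb) :
    nrm v (∏ i ∈ s, P i).coeffs = ∏ i ∈ s, nrm v (P i).coeffs := by
  induction s using Finset.induction_on with
  | empty => rw [Finset.prod_empty, Finset.prod_empty, Gelf_nrm_one]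
  | insert a s ha ih =>
    rw [Finset.prod_insert ha, Finset.prod_insert ha, nrm_coeffs_mul h hp, ih]

theorem gelfond {σ ι : Type} [Fintype σ] (s : Finset ι) (P : ι → MvPolynomial σ Qb)
    (hP : ∀ i ∈ s, P i ≠ 0) (d : σ → ℕ) (hd : ∀ j, (∏ i ∈ s, P i).degreeOf j ≤ d j) :
    ∑ i ∈ s, hp (P i) ≤ hp (∏ i ∈ s, P i) + 2 * ∑ j, (d j : ℝ) := by
  have hQ : ∏ i ∈ s, P i ≠ 0 := Finset.prod_ne_zero_iff.2 hP
  have h1 := htSpec.lg (r := Option s)
    (fun o => o.elim (∏ i ∈ s, P i).coeffs fun i => (P i).coeffs)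
    (fun o => o.elim (-1) fun _ => 1) (Finsupp.single 0 (2 * ∑ j, (d j : ℝ)))
    (by
      rintro (_ | i)
      · exact Gelf_exists_ne hQ
      · exact Gelf_exists_ne (hP i i.2))
    (fun p hp => by rw [Finsupp.single_eq_of_ne hp])
    (by
      intro p v hv
      rw [Fintype.sum_option]
      simp only [Option.elim, one_mul]
      rw [Finset.sum_coe_sort s fun i => Real.log (nrm v (P i).coeffs),
        ← Real.log_prod fun i hi => (nrm_pos v (Gelf_exists_ne (hP i hi))).ne']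
      by_cases hp : p = 0
      · subst hp
        have h2 := Real.log_le_log
          (Finset.prod_pos fun i hi => nrm_pos v (Gelf_exists_ne (hP i hi)))
          (prod_nrm_coeffs_le hv s P d hd)
        rw [Real.log_mul (Real.exp_pos _).ne' (nrm_pos v (Gelf_exists_ne hQ)).ne',
          Real.log_exp] at h2
        rw [Finsupp.single_eq_same]
        linarith
      · rw [Finsupp.single_eq_of_ne hp, Gelf_nrm_prod hv hp]
        linarith)
  rw [Fintype.sum_option, Finsupp.sum_single_index rfl] at h1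
  simp only [Option.elim, one_mul] at h1
  rw [Finset.sum_coe_sort s fun i => ht (P i).coeffs] at h1
  unfold Pool.Agent.E6b.hp
  linarith

end Pool.Agent.E6b
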