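import Pool.Agent.E6b.HDefs

open scoped NNReal TensorProduct IntermediateField BigOperators Classical Topology
open Filter

namespace Pool.Agent.E6b

theorem H1a_isAlgebraic : Algebra.IsAlgebraic ℚ Qb := by
  have := AlgebraicClosure.isAlgebraic ℚ
  convert this
  · rfl
  · exact Subsingleton.elim _ _

theorem exists_isPl {p : ℕ} (hp : p = 0 ∨ p.Prime) : ∃ v, IsPl p v := by
  have := H1a_isAlgebraic
  rcases hp with hp | hp
  · let ι : Qb →ₐ[ℚ] ℂ := IsAlgClosed.lift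
    refine ⟨(NormedField.toAbsoluteValue ℂ).comp (f := (ι : Qb →+* ℂ)) (RingHom.injective _),
      Or.inl ⟨hp, ι, fun x => rfl⟩⟩
  · have : Fact p.Prime := ⟨hp⟩
    let ι : Qb →ₐ[ℚ] PadicAlgCl p := IsAlgClosed.lift
    refine ⟨(NormedField.toAbsoluteValue (PadicAlgCl p)).comp (f := (ι : Qb →+* PadicAlgCl p))
      (RingHom.injective _), Or.inr ⟨hp, ?_, ?_⟩⟩
    · intro a b
      change ‖ι (a + b)‖ ≤ max ‖ι a‖ ‖ι b‖
      rw [map_add]
      exact PadicAlgCl.isNonarchimedean p _ _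
    · change ‖ι (p : Qb)‖ = _
      rw [map_natCast, ← map_natCast (algebraMap ℚ_[p] (PadicAlgCl p))]
      have := PadicAlgCl.norm_extends p (p : ℚ_[p])
      rw [Padic.norm_p] at this
      exact this

theorem IsPl.comp {p : ℕ} {v : AbsoluteValue Qb ℝ} (h : IsPl p v) (σ : Qb ≃ₐ[ℚ] Qb) :
    IsPl p (v.comp (f := (σ : Qb →+* Qb)) σ.injective) := by
  rcases h with ⟨hp, ι, hι⟩ | ⟨hp, hna, hv⟩
  · exact Or.inl ⟨hp, ι.comp (σ : Qb →+* Qb), fun x => hι _⟩
  · refine Or.inr ⟨hp, ?_, ?_⟩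
    · intro a b
      change v (σ (a + b)) ≤ max (v (σ a)) (v (σ b))
      rw [map_add]
      exact hna _ _
    · change v (σ (p : Qb)) = _
      rw [map_natCast, hv]

theorem IsPl.nonarch {p : ℕ} {v : AbsoluteValue Qb ℝ} (h : IsPl p v) (hp : p ≠ 0) :
    IsNonarchimedean v := by
  rcases h with ⟨h0, _⟩ | ⟨_, hna, _⟩
  · exact absurd h0 hp
  · exact hna

theorem H1a_prime {p : ℕ} {v : AbsoluteValue Qb ℝ} (h : IsPl p v) (hp : p ≠ 0) :
    p.Prime ∧ v (p : Qb) = (p : ℝ)⁻¹ := by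
  rcases h with ⟨h0, _⟩ | ⟨h1, _, h2⟩
  · exact absurd h0 hp
  · exact ⟨h1, h2⟩

theorem H1a_int_le_one {p : ℕ} {v : AbsoluteValue Qb ℝ} (h : IsPl p v) (hp : p ≠ 0) (n : ℤ) :
    v (n : Qb) ≤ 1 :=
  IsNonarchimedean.apply_intCast_le_one (h.nonarch hp)

theorem H1a_coprime {p : ℕ} {v : AbsoluteValue Qb ℝ} (h : IsPl p v) (hp : p ≠ 0) {m : ℤ}
    (hm : ¬ (p : ℤ) ∣ m) : v (m : Qb) = 1 := by
  obtain ⟨hpp, hv⟩ := H1a_prime h hp
  have hprime : Prime (p : ℤ) := Nat.prime_iff_prime_int.mp hpp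
  have hc : IsCoprime (p : ℤ) m := (hprime.irreducible.coprime_iff_not_dvd).mpr hm
  obtain ⟨a, b, hab⟩ := hc
  refine le_antisymm (H1a_int_le_one h hp m) ?_
  by_contra hlt
  push Not at hlt
  have h1 : ((a : Qb) * (p : Qb) + (b : Qb) * (m : Qb)) = 1 := by exact_mod_cast congrArg (Int.cast : ℤ → Qb) hab
  have h2 := h.nonarch hp ((a : Qb) * (p : Qb)) ((b : Qb) * (m : Qb))
  rw [h1, map_one, map_mul, map_mul, hv] at h2
  have hp1 : (p : ℝ)⁻¹ < 1 := inv_lt_one_of_one_lt₀ (by exact_mod_cast hpp.one_lt)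
  have hp0 : 0 ≤ (p : ℝ)⁻¹ := by positivity
  have ha := H1a_int_le_one h hp a
  have hb := H1a_int_le_one h hp b
  have ha0 := v.nonneg (a : Qb)
  have hb0 := v.nonneg (b : Qb)
  have hm0 := v.nonneg (m : Qb)
  have e1 : v (a : Qb) * (p : ℝ)⁻¹ < 1 := by nlinarith
  have e2 : v (b : Qb) * v (m : Qb) < 1 := by nlinarith
  exact absurd h2 (not_le.mpr (max_lt e1 e2))

theorem IsPl.eq_padicNorm {p : ℕ} {v : AbsoluteValue Qb ℝ} (h : IsPl p v) (hp : p ≠ 0) (x : ℚ) :
    v (x : Qb) = (padicNorm p x : ℝ) := by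
  obtain ⟨hpp, hv⟩ := H1a_prime h hp
  have : Fact p.Prime := ⟨hpp⟩
  have key : v.comp (f := algebraMap ℚ Qb) (RingHom.injective _) = Rat.AbsoluteValue.padic p := by
    rw [← Rat.AbsoluteValue.eq_on_nat_iff_eq]
    intro n
    change v (algebraMap ℚ Qb (n : ℚ)) = _
    rw [map_natCast]
    rcases eq_or_ne n 0 with rfl | hn
    · simp
    obtain ⟨k, m, hm, rfl⟩ := Nat.exists_eq_pow_mul_and_not_dvd hn p hpp.ne_one
    have h1 : v (m : Qb) = 1 := by
      have := H1a_coprime h hp (m := (m : ℤ)) (by exact_mod_cast hm)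
      simpa using this
    have h2 : Rat.AbsoluteValue.padic p (m : ℚ) = 1 := by
      rw [Rat.AbsoluteValue.padic_eq_padicNorm, (padicNorm.nat_eq_one_iff m).mpr hm]
      simp
    have h3 : Rat.AbsoluteValue.padic p (p : ℚ) = (p : ℝ)⁻¹ := by
      rw [Rat.AbsoluteValue.padic_eq_padicNorm, padicNorm.padicNorm_p hpp.one_lt]
      simp
    push_cast
    rw [map_mul, map_mul, map_pow, map_pow, h1, h2, h3, hv]
  have := congrArg (fun w : AbsoluteValue ℚ ℝ => w x) key
  exact this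

theorem IsPl.eq_abs {v : AbsoluteValue Qb ℝ} (h : IsPl 0 v) (x : ℚ) :
    v (x : Qb) = |(x : ℝ)| := by
  rcases h with ⟨_, ι, hι⟩ | ⟨h1, _⟩
  · rw [hι, map_ratCast, Complex.norm_ratCast]
  · exact absurd h1 Nat.not_prime_zero

theorem IsPl.natCast_le {p : ℕ} {v : AbsoluteValue Qb ℝ} (h : IsPl p v) (n : ℕ) :
    v (n : Qb) ≤ th p n := by
  unfold th
  split_ifs with hp
  · subst hp
    have := h.eq_abs (n : ℚ)
    simp only [Rat.cast_natCast, Nat.abs_cast] at this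
    exact this.le
  · exact IsNonarchimedean.apply_natCast_le_one (h.nonarch hp)

theorem IsPl.sum_le {p : ℕ} {v : AbsoluteValue Qb ℝ} (h : IsPl p v) {ι : Type*} (s : Finset ι)
    (f : ι → Qb) {M : ℝ} (hM : 0 ≤ M) (hf : ∀ i ∈ s, v (f i) ≤ M) :
    v (∑ i ∈ s, f i) ≤ th p s.card * M := by
  unfold th
  split_ifs with hp
  · refine (v.sum_le s f).trans ?_
    have := Finset.sum_le_card_nsmul s (fun i => v (f i)) M hf
    rwa [nsmul_eq_mul] at this
  · rw [one_mul]
    have hna := h.nonarch hp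
    induction s using Finset.induction_on with
    | empty => simpa using hM
    | insert a s ha ih =>
      rw [Finset.sum_insert ha]
      refine (hna _ _).trans (max_le (hf a (Finset.mem_insert_self _ _)) (ih ?_))
      exact fun i hi => hf i (Finset.mem_insert_of_mem hi)

/-- the bound for a root of a monic integer polynomial. -/
theorem H1a_root_le {p : ℕ} {v : AbsoluteValue Qb ℝ} (h : IsPl p v) {a : Qb}
    {P : Polynomial ℤ} (hP : P.Monic) (ha : Polynomial.aeval a P = 0) {B : ℝ} (hB : 0 ≤ B)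
    (hc : ∀ i < P.natDegree, v ((P.coeff i : ℤ) : Qb) ≤ B) :
    v a ≤ max 1 (th p P.natDegree * B) := by
  by_contra hlt
  push Not at hlt
  have h1 : 1 < v a := lt_of_le_of_lt (le_max_left _ _) hlt
  have h2 : th p P.natDegree * B < v a := lt_of_le_of_lt (le_max_right _ _) hlt
  have hsum : a ^ P.natDegree =
      -∑ i ∈ Finset.range P.natDegree, ((P.coeff i : ℤ) : Qb) * a ^ i := by
    rw [Polynomial.aeval_eq_sum_range, Finset.sum_range_succ, hP.coeff_natDegree, one_smul] at ha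
    simp only [zsmul_eq_mul] at ha
    exact eq_neg_of_add_eq_zero_right ha
  rcases Nat.eq_zero_or_pos P.natDegree with h0 | hpos
  · rw [h0] at hsum
    simp at hsum
  obtain ⟨d, hd⟩ : ∃ d, P.natDegree = d + 1 := ⟨P.natDegree - 1, by omega⟩
  have hva : 0 < v a := by linarith
  have h3 := h.sum_le (Finset.range P.natDegree) (fun i => ((P.coeff i : ℤ) : Qb) * a ^ i)
    (M := B * v a ^ d) (by positivity) (by
      intro i hi
      rw [Finset.mem_range] at hi
      rw [map_mul, map_pow]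
      exact mul_le_mul (hc i hi) (pow_le_pow_right₀ h1.le (by omega)) (by positivity) hB)
  rw [Finset.card_range, ← v.map_neg, ← hsum, map_pow, ← mul_assoc] at h3
  have h4 : v a ^ P.natDegree = v a * v a ^ d := by rw [hd, pow_succ']
  rw [h4] at h3
  have h5 : 0 < v a ^ d := by positivity
  nlinarith

theorem IsPl.le_one_of_isIntegral {p : ℕ} {v : AbsoluteValue Qb ℝ} (h : IsPl p v) (hp : p ≠ 0)
    {a : Qb} (ha : IsIntegral ℤ a) : v a ≤ 1 := by
  obtain ⟨P, hP, hPa⟩ := ha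
  have := H1a_root_le h hP (a := a) hPa (B := 1) zero_le_one
    (fun i _ => H1a_int_le_one h hp _)
  simpa [th, hp] using this

theorem H1a_bound_int {a : Qb} (ha : IsIntegral ℤ a) : ∃ C : ℝ, ∀ p v, IsPl p v → v a ≤ C := by
  obtain ⟨P, hP, hPa⟩ := id ha
  refine ⟨max 1 (P.natDegree * ∑ i ∈ Finset.range P.natDegree, |(P.coeff i : ℝ)|), ?_⟩
  intro p v h
  rcases eq_or_ne p 0 with rfl | hp
  · have := H1a_root_le h hP (a := a) hPa
      (B := ∑ i ∈ Finset.range P.natDegree, |(P.coeff i : ℝ)|)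
      (Finset.sum_nonneg fun i _ => abs_nonneg _) (by
        intro i hi
        have e := h.eq_abs ((P.coeff i : ℤ) : ℚ)
        simp only [Rat.cast_intCast] at e
        rw [e]
        exact Finset.single_le_sum (f := fun i => |(P.coeff i : ℝ)|)
          (fun i _ => abs_nonneg _) (Finset.mem_range.mpr hi))
    simpa [th] using this
  · exact (h.le_one_of_isIntegral hp ha).trans (le_max_left _ _)

theorem H1a_exists_mul (a : Qb) : ∃ N : ℕ, 0 < N ∧ IsIntegral ℤ ((N : Qb) * a) := by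
  have h1 : IsAlgebraic ℚ a := H1a_isAlgebraic.isAlgebraic a
  have h2 : IsAlgebraic ℤ a := (IsFractionRing.isAlgebraic_iff ℤ ℚ Qb).mpr h1
  obtain ⟨y, hy, hi⟩ := h2.exists_integral_multiple
  refine ⟨y.natAbs, Int.natAbs_pos.mpr hy, ?_⟩
  rw [zsmul_eq_mul] at hi
  rcases Int.natAbs_eq y with e | e
  · have : ((y.natAbs : ℕ) : Qb) = (y : Qb) := by
      conv_rhs => rw [e]
      simp only [Int.cast_natCast]
    rw [this]
    exact hi
  · have : ((y.natAbs : ℕ) : Qb) = -(y : Qb) := by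
      conv_rhs => rw [e]
      simp only [Int.cast_neg, Int.cast_natCast, neg_neg]
    rw [this, neg_mul]
    exact hi.neg

theorem H1a_nat_lower {p : ℕ} {v : AbsoluteValue Qb ℝ} (h : IsPl p v) {N : ℕ} (hN : 0 < N) :
    1 ≤ N * v (N : Qb) := by
  have hN1 : (1 : ℝ) ≤ N := by exact_mod_cast hN
  rcases eq_or_ne p 0 with rfl | hp
  · have := h.eq_abs (N : ℚ)
    simp only [Rat.cast_natCast, Nat.abs_cast] at this
    rw [this]
    nlinarith
  · obtain ⟨hpp, hv⟩ := H1a_prime h hp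
    obtain ⟨k, m, hm, rfl⟩ := Nat.exists_eq_pow_mul_and_not_dvd hN.ne' p hpp.ne_one
    have h1 : v (m : Qb) = 1 := by
      have := H1a_coprime h hp (m := (m : ℤ)) (by exact_mod_cast hm)
      simpa using this
    have hm1 : (1 : ℝ) ≤ m := by
      have : m ≠ 0 := by
        rintro rfl
        exact hm (dvd_zero p)
      exact_mod_cast Nat.one_le_iff_ne_zero.mpr this
    have hp0 : (p : ℝ) ≠ 0 := by exact_mod_cast hp
    push_cast
    rw [map_mul, map_pow, h1, hv, mul_one, inv_pow, mul_right_comm,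
      mul_inv_cancel₀ (pow_ne_zero _ hp0), one_mul]
    exact hm1

/-- every algebraic number is bounded at all places, and a unit at almost all. -/
theorem exists_bound (a : Qb) : ∃ C : ℝ, ∀ p v, IsPl p v → v a ≤ C := by
  obtain ⟨N, hN, hi⟩ := H1a_exists_mul a
  obtain ⟨C, hC⟩ := H1a_bound_int hi
  refine ⟨N * C, fun p v h => ?_⟩
  have h1 := hC p v h
  rw [map_mul] at h1
  have h2 := H1a_nat_lower h hN
  have h3 := v.nonneg a
  have h4 : (0 : ℝ) ≤ N := Nat.cast_nonneg N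
  calc v a = 1 * v a := (one_mul _).symm
    _ ≤ (N * v (N : Qb)) * v a := mul_le_mul_of_nonneg_right h2 h3
    _ = N * (v (N : Qb) * v a) := mul_assoc _ _ _
    _ ≤ N * C := mul_le_mul_of_nonneg_left h1 h4

theorem H1a_eventually_le_one (a : Qb) : ∃ N : ℕ, ∀ p v, IsPl p v → N ≤ p → v a ≤ 1 := by
  obtain ⟨N, hN, hi⟩ := H1a_exists_mul a
  refine ⟨N + 1, fun p v h hp => ?_⟩
  have hp0 : p ≠ 0 := by omega
  have h1 := h.le_one_of_isIntegral hp0 hi
  have h2 : v (N : Qb) = 1 := by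
    have := H1a_coprime h hp0 (m := (N : ℤ)) (by
      intro hd
      have := Nat.le_of_dvd hN (by exact_mod_cast hd : p ∣ N)
      omega)
    simpa using this
  rwa [map_mul, h2, one_mul] at h1

theorem eventually_eq_one {a : Qb} (ha : a ≠ 0) :
    ∃ N : ℕ, ∀ p v, IsPl p v → N ≤ p → v a = 1 := by
  obtain ⟨N, hN⟩ := H1a_eventually_le_one a
  obtain ⟨M, hM⟩ := H1a_eventually_le_one a⁻¹
  refine ⟨max N M, fun p v h hp => ?_⟩
  have h1 := hN p v h (le_trans (le_max_left _ _) hp)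
  have h2 := hM p v h (le_trans (le_max_right _ _) hp)
  rw [map_inv₀] at h2
  have h3 : 0 < v a := v.pos ha
  exact le_antisymm h1 ((inv_le_one₀ h3).mp h2)

theorem IsPl.rootOfUnity {p : ℕ} {v : AbsoluteValue Qb ℝ} (h : IsPl p v) {a : Qb} {n : ℕ}
    (hn : 0 < n) (ha : a ^ n = 1) : v a = 1 := by
  have _ := h
  have h1 : v a ^ n = 1 := by rw [← map_pow, ha, map_one]
  exact (pow_eq_one_iff_of_nonneg (v.nonneg a) hn.ne').mp h1

theorem nrm_nonneg (v : AbsoluteValue Qb ℝ) (s : Finset Qb) : 0 ≤ nrm v s :=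
  NNReal.coe_nonneg _

theorem le_nrm (v : AbsoluteValue Qb ℝ) {s : Finset Qb} {a : Qb} (ha : a ∈ s) :
    v a ≤ nrm v s := by
  have h1 : Real.toNNReal (v a) ≤ s.sup fun a => Real.toNNReal (v a) :=
    Finset.le_sup (f := fun a => Real.toNNReal (v a)) ha
  exact (Real.le_coe_toNNReal _).trans (NNReal.coe_le_coe.mpr h1)

theorem nrm_le (v : AbsoluteValue Qb ℝ) {s : Finset Qb} {M : ℝ} (hM : 0 ≤ M)
    (h : ∀ a ∈ s, v a ≤ M) : nrm v s ≤ M := by
  have h1 : (s.sup fun a => Real.toNNReal (v a)) ≤ Real.toNNReal M :=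
    Finset.sup_le fun a ha => Real.toNNReal_le_toNNReal (h a ha)
  have h2 := NNReal.coe_le_coe.mpr h1
  rw [Real.coe_toNNReal _ hM] at h2
  exact h2

theorem exists_nrm_eq (v : AbsoluteValue Qb ℝ) {s : Finset Qb} (hs : s.Nonempty) :
    ∃ a ∈ s, v a = nrm v s := by
  obtain ⟨a, ha, e⟩ := Finset.exists_mem_eq_sup s hs (fun a => Real.toNNReal (v a))
  refine ⟨a, ha, ?_⟩
  unfold nrm
  rw [e, Real.coe_toNNReal _ (v.nonneg a)]

theorem nrm_pos (v : AbsoluteValue Qb ℝ) {s : Finset Qb} (hs : ∃ a ∈ s, a ≠ 0) :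
    0 < nrm v s := by
  obtain ⟨a, ha, h0⟩ := hs
  exact lt_of_lt_of_le (v.pos h0) (le_nrm v ha)

end Pool.Agent.E6b
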