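import Pool.Agent.E6b.H1a

open scoped NNReal TensorProduct IntermediateField BigOperators Classical Topology
open Filter

namespace Pool.Agent.E6b

/-- a chosen place above `p` -/
noncomputable def H1b_bp (p : ℕ) : AbsoluteValue Qb ℝ :=
  if h : p = 0 ∨ p.Prime then (exists_isPl h).choose else (exists_isPl (Or.inl rfl)).choose

theorem H1b_bp_isPl {p : ℕ} (h : p = 0 ∨ p.Prime) : IsPl p (H1b_bp p) := by
  unfold H1b_bp
  rw [dif_pos h]
  exact (exists_isPl h).choose_spec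

/-- the local term -/
noncomputable def H1b_loc (p : ℕ) (t : Finset Qb) : ℝ :=
  if p = 0 ∨ p.Prime then Real.log (nrm (H1b_bp p) t) else 0

/-- the sum of the local terms -/
noncomputable def H1b_G (t : Finset Qb) : ℝ := ∑ᶠ p, H1b_loc p t

theorem H1b_loc_eventually (t : Finset Qb) : ∃ N : ℕ, ∀ p, N ≤ p → H1b_loc p t = 0 := by
  have h1 : ∀ a : Qb, ∃ N : ℕ, ∀ p v, IsPl p v → N ≤ p → v a = 0 ∨ v a = 1 := by
    intro a
    by_cases ha : a = 0
    · exact ⟨0, fun p v _ _ => Or.inl (by rw [ha, map_zero])⟩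
    · obtain ⟨N, hN⟩ := eventually_eq_one ha
      exact ⟨N, fun p v hv hp => Or.inr (hN p v hv hp)⟩
  choose N hN using h1
  refine ⟨t.sup N, fun p hp => ?_⟩
  unfold H1b_loc
  split_ifs with h
  · rcases t.eq_empty_or_nonempty with rfl | ht
    · simp [nrm]
    · obtain ⟨a, ha, e⟩ := exists_nrm_eq (H1b_bp p) ht
      rw [← e]
      rcases hN a p _ (H1b_bp_isPl h) ((Finset.le_sup ha).trans hp) with h0 | h0 <;> simp [h0]
  · rfl

theorem H1b_G_eq (t : Finset Qb) :
    ∃ N : ℕ, ∀ M, N ≤ M → H1b_G t = ∑ p ∈ Finset.range M, H1b_loc p t := by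
  obtain ⟨N, hN⟩ := H1b_loc_eventually t
  refine ⟨N, fun M hM => finsum_eq_sum_of_support_subset _ fun p hp => ?_⟩
  simp only [Finset.coe_range, Set.mem_Iio]
  by_contra hc
  exact hp (hN p (hM.trans (not_lt.1 hc)))

theorem H1b_nrm_single (v : AbsoluteValue Qb ℝ) (a : Qb) : nrm v {a} = v a := by
  simp [nrm]

theorem H1b_nrm_image (v : AbsoluteValue Qb ℝ) (σ : Qb ≃ₐ[ℚ] Qb) (s : Finset Qb) :
    nrm v (s.image σ) = nrm (v.comp (f := (σ : Qb →+* Qb)) σ.injective) s := by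
  unfold nrm
  rw [Finset.sup_image]
  rfl

theorem H1b_G_mul {a b : Qb} (ha : a ≠ 0) (hb : b ≠ 0) :
    H1b_G {a * b} = H1b_G {a} + H1b_G {b} := by
  obtain ⟨N₁, h₁⟩ := H1b_G_eq {a * b}
  obtain ⟨N₂, h₂⟩ := H1b_G_eq {a}
  obtain ⟨N₃, h₃⟩ := H1b_G_eq {b}
  rw [h₁ (N₁ + N₂ + N₃) (by omega), h₂ (N₁ + N₂ + N₃) (by omega), h₃ (N₁ + N₂ + N₃) (by omega),
    ← Finset.sum_add_distrib]
  refine Finset.sum_congr rfl fun p _ => ?_
  unfold H1b_loc
  split_ifs with h
  · simp only [H1b_nrm_single, map_mul]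
    exact Real.log_mul ((H1b_bp p).ne_zero ha) ((H1b_bp p).ne_zero hb)
  · simp

theorem H1b_G_unit {a : Qb} (ha : ∀ v : AbsoluteValue Qb ℝ, v a = 1) : H1b_G {a} = 0 := by
  unfold H1b_G
  have : ∀ p, H1b_loc p {a} = 0 := by
    intro p
    unfold H1b_loc
    split_ifs with h
    · rw [H1b_nrm_single, ha, Real.log_one]
    · rfl
  simp [this]

theorem H1b_G_prime {l : ℕ} (hl : l.Prime) : H1b_G {(l : Qb)} = 0 := by
  obtain ⟨N, hN⟩ := H1b_G_eq {(l : Qb)}
  rw [hN (N + l + 1) (by omega)]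
  have hl0 : l ≠ 0 := hl.ne_zero
  have hcast : ((l : ℚ) : Qb) = (l : Qb) := by simp
  rw [Finset.sum_eq_add_of_mem 0 l (by simp) (by simp) hl0.symm]
  · unfold H1b_loc
    rw [if_pos (Or.inl rfl), if_pos (Or.inr hl), H1b_nrm_single, H1b_nrm_single]
    have e0 := (H1b_bp_isPl (p := 0) (Or.inl rfl)).eq_abs (l : ℚ)
    rw [hcast] at e0
    have e1 : H1b_bp l (l : Qb) = (l : ℝ)⁻¹ := by
      rcases H1b_bp_isPl (Or.inr hl) with h | h
      · exact absurd h.1 hl0
      · exact h.2.2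
    rw [e0, e1, Real.log_inv]
    simp
  · intro p _ hp
    unfold H1b_loc
    split_ifs with h
    · have hpp : p.Prime := h.resolve_left hp.1
      have : Fact p.Prime := ⟨hpp⟩
      have : Fact l.Prime := ⟨hl⟩
      have e := (H1b_bp_isPl h).eq_padicNorm hp.1 (l : ℚ)
      rw [hcast, padicNorm.padicNorm_of_prime_of_ne hp.2] at e
      rw [H1b_nrm_single, e]
      simp
    · rfl

theorem H1b_G_nat (n : ℕ) (hn : n ≠ 0) : H1b_G {(n : Qb)} = 0 := by
  induction n using Nat.recOnMul with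
  | zero => exact absurd rfl hn
  | one => exact H1b_G_unit fun v => by simp
  | prime p hp => exact H1b_G_prime hp
  | mul a b iha ihb =>
    have ha : a ≠ 0 := left_ne_zero_of_mul hn
    have hb : b ≠ 0 := right_ne_zero_of_mul hn
    rw [Nat.cast_mul, H1b_G_mul (by exact_mod_cast ha) (by exact_mod_cast hb), iha ha, ihb hb,
      add_zero]

theorem H1b_G_neg {a : Qb} (ha : a ≠ 0) : H1b_G {-a} = H1b_G {a} := by
  rw [← neg_one_mul, H1b_G_mul (by simp) ha, H1b_G_unit fun v => by simp, zero_add]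

theorem H1b_G_int (n : ℤ) (hn : n ≠ 0) : H1b_G {(n : Qb)} = 0 := by
  have h0 : n.natAbs ≠ 0 := Int.natAbs_ne_zero.2 hn
  rcases Int.natAbs_eq n with h | h
  · rw [h, Int.cast_natCast]
    exact H1b_G_nat _ h0
  · rw [h, Int.cast_neg, Int.cast_natCast, H1b_G_neg (by exact_mod_cast h0)]
    exact H1b_G_nat _ h0

theorem H1b_G_rat (q : ℚ) (hq : q ≠ 0) : H1b_G {(q : Qb)} = 0 := by
  have h1 : (q : Qb) * (q.den : Qb) = (q.num : Qb) := by
    exact_mod_cast congrArg (fun x : ℚ => (x : Qb)) (Rat.mul_den_eq_num q)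
  have h2 := H1b_G_mul (a := (q : Qb)) (b := (q.den : Qb)) (by exact_mod_cast hq)
    (by exact_mod_cast q.den_nz)
  rw [h1, H1b_G_int _ (Rat.num_ne_zero.2 hq), H1b_G_nat _ q.den_nz] at h2
  linarith

theorem H1b_galois : IsGalois ℚ Qb := by
  have h : IsAlgClosure ℚ Qb := by
    convert AlgebraicClosure.instIsAlgClosure ℚ
    · rfl
    · exact Subsingleton.elim _ _
  exact IsAlgClosure.isGalois ℚ Qb

theorem H1b_lc (a : Qb) : IsLocallyConstant fun σ : Qb ≃ₐ[ℚ] Qb => σ.symm a := by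
  have := H1b_galois
  rw [IsLocallyConstant.iff_eventually_eq]
  intro σ
  have h1 := stabilizer_isOpen_of_isIntegral (K := ℚ) (σ⁻¹ a)
  have h2 : Continuous fun τ : Qb ≃ₐ[ℚ] Qb => τ⁻¹ * σ := by fun_prop
  have h3 : (fun τ : Qb ≃ₐ[ℚ] Qb => τ⁻¹ * σ) ⁻¹'
      (MulAction.stabilizer (Qb ≃ₐ[ℚ] Qb) (σ⁻¹ a) : Set (Qb ≃ₐ[ℚ] Qb)) ∈ 𝓝 σ :=
    (h1.preimage h2).mem_nhds (by simp)
  filter_upwards [h3] with τ hτ
  simpa [MulAction.mem_stabilizer_iff, AlgEquiv.smul_def] using hτ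

theorem H1b_cont (s : Finset Qb) :
    Continuous fun σ : Qb ≃ₐ[ℚ] Qb => H1b_G (s.image σ.symm) := by
  refine IsLocallyConstant.continuous ?_
  rw [IsLocallyConstant.iff_eventually_eq]
  intro σ
  have h1 : ∀ᶠ τ : Qb ≃ₐ[ℚ] Qb in 𝓝 σ, ∀ a ∈ s, τ.symm a = σ.symm a :=
    (Finset.eventually_all s).2 fun a _ => (H1b_lc a).eventually_eq σ
  filter_upwards [h1] with τ hτ
  rw [Finset.image_congr hτ]

theorem H1b_point {r : Type} [Fintype r] (s : r → Finset Qb) (c : r → ℝ) (cst : ℕ →₀ ℝ)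
    (h0 : ∀ p, p ≠ 0 → 0 ≤ cst p)
    (h : ∀ p v, IsPl p v → ∑ i, c i * Real.log (nrm v (s i)) ≤ cst p) (σ : Qb ≃ₐ[ℚ] Qb) :
    ∑ i, c i * H1b_G ((s i).image σ) ≤ cst.sum fun _ x => x := by
  choose N hN using fun i => H1b_G_eq ((s i).image σ)
  set M := Finset.univ.sup N + (cst.support.sup id + 1) with hM
  have e1 : ∀ i, H1b_G ((s i).image σ) = ∑ p ∈ Finset.range M, H1b_loc p ((s i).image σ) :=
    fun i => hN i M ((Finset.le_sup (Finset.mem_univ i)).trans (Nat.le_add_right _ _))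
  have e2 : (cst.sum fun _ x => x) = ∑ p ∈ Finset.range M, cst p := by
    refine Finsupp.sum_of_support_subset _ (fun p hp => ?_) _ fun _ _ => rfl
    have : p ≤ cst.support.sup id := Finset.le_sup (f := id) hp
    rw [Finset.mem_range]
    omega
  simp only [e1, e2, Finset.mul_sum]
  rw [Finset.sum_comm]
  refine Finset.sum_le_sum fun p _ => ?_
  unfold H1b_loc
  split_ifs with hp
  · simp only [H1b_nrm_image]
    exact h p _ ((H1b_bp_isPl hp).comp σ)
  · simp only [mul_zero, Finset.sum_const_zero]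
    exact h0 p fun e => hp (Or.inl e)

open MeasureTheory in
theorem H1b_mean : ∃ I : ((Qb ≃ₐ[ℚ] Qb) → ℝ) → ℝ,
    (∀ {r : Type} [Fintype r] (f : r → (Qb ≃ₐ[ℚ] Qb) → ℝ) (c : r → ℝ) (b : ℝ),
      (∀ i, Continuous (f i)) → (∀ σ, ∑ i, c i * f i σ ≤ b) → ∑ i, c i * I (f i) ≤ b) ∧
    (∀ f g, Continuous f → Continuous g → I (fun σ => f σ + g σ) = I f + I g) ∧
    (∀ f τ, I (fun σ => f (τ * σ)) = I f) ∧ I (fun _ => 0) = 0 := by
  have := H1b_galois
  let _ : MeasurableSpace (Qb ≃ₐ[ℚ] Qb) := borel _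
  have : BorelSpace (Qb ≃ₐ[ℚ] Qb) := ⟨rfl⟩
  let μ : Measure (Qb ≃ₐ[ℚ] Qb) := Measure.haarMeasure ⊤
  have : IsProbabilityMeasure μ := ⟨by
    have := Measure.haarMeasure_self (K₀ := (⊤ : TopologicalSpace.PositiveCompacts (Qb ≃ₐ[ℚ] Qb)))
    simpa using this⟩
  have hint : ∀ f : (Qb ≃ₐ[ℚ] Qb) → ℝ, Continuous f → Integrable f μ := fun f hf =>
    hf.integrable_of_hasCompactSupport (HasCompactSupport.of_compactSpace f)
  refine ⟨fun f => ∫ σ, f σ ∂μ, ?_, ?_, ?_, ?_⟩
  · intro r _ f c b hf hb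
    simp only [← integral_const_mul]
    rw [← integral_finsetSum _ fun i _ => (hint _ (hf i)).const_mul (c i)]
    have h1 := integral_mono (integrable_finsetSum _ fun i _ => (hint _ (hf i)).const_mul (c i))
      (integrable_const b) hb
    simpa using h1
  · intro f g hf hg
    exact integral_add (hint f hf) (hint g hg)
  · intro f τ
    exact integral_mul_left_eq_self f τ
  · simp

theorem exists_ht : ∃ ht : Finset Qb → ℝ, HtSpec ht := by
  have := H1b_galois
  obtain ⟨I, hI1, hI2, hI3, hI4⟩ := H1b_mean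
  let ht : Finset Qb → ℝ := fun s => I fun σ => H1b_G (s.image σ.symm)
  have hgal : ∀ (τ : Qb ≃ₐ[ℚ] Qb) (s : Finset Qb), ht (s.image τ) = ht s := by
    intro τ s
    have := hI3 (fun σ => H1b_G (s.image σ.symm)) τ⁻¹
    refine Eq.trans ?_ this
    simp only [ht, Finset.image_image]
    rfl
  have hmul : ∀ a b : Qb, a ≠ 0 → b ≠ 0 → ht {a * b} = ht {a} + ht {b} := by
    intro a b ha hb
    simp only [ht]
    rw [← hI2 _ _ (H1b_cont {a}) (H1b_cont {b})]
    congr 1
    funext σ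
    simp only [Finset.image_singleton, map_mul]
    exact H1b_G_mul (by simpa using ha) (by simpa using hb)
  have hrat : ∀ q : ℚ, q ≠ 0 → ht {(q : Qb)} = 0 := by
    intro q hq
    simp only [ht, Finset.image_singleton, map_ratCast, H1b_G_rat q hq, hI4]
  have hprod : ∀ (x : ℝ) (m : Multiset Qb), (∀ b ∈ m, b ≠ 0 ∧ ht {b} = x) →
      ht {m.prod} = Multiset.card m * x := by
    intro x m
    induction m using Multiset.induction_on with
    | empty =>
      intro _
      simpa using hrat 1 one_ne_zero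
    | cons b m ih =>
      intro h
      have hb := h b (Multiset.mem_cons_self _ _)
      have hm : ∀ c ∈ m, c ≠ 0 ∧ ht {c} = x := fun c hc => h c (Multiset.mem_cons_of_mem hc)
      rw [Multiset.prod_cons, hmul _ _ hb.1 (Multiset.prod_ne_zero fun h0 => (hm 0 h0).1 rfl),
        ih hm, hb.2, Multiset.card_cons]
      push_cast
      ring
  refine ⟨ht, ⟨?_, ?_, hgal, ?_⟩⟩
  · intro r _ s c cst _ h0 h
    exact hI1 _ c _ (fun i => H1b_cont (s i)) fun σ => H1b_point s c cst h0 h σ.symm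
  · intro a ha
    have hint : IsIntegral ℚ a := Algebra.IsIntegral.isIntegral a
    set f := (minpoly ℚ a).map (algebraMap ℚ Qb) with hf
    have hmon : f.Monic := (minpoly.monic hint).map _
    have hsp : f.Splits := IsAlgClosed.splits f
    have hroots : ∀ b ∈ f.roots, b ≠ 0 ∧ ht {b} = ht {a} := by
      intro b hb
      have h1 : IsConjRoot ℚ a b := (isConjRoot_iff_mem_minpoly_aroots hint).2 hb
      obtain ⟨σ, hσ⟩ := h1.exists_algEquiv
      refine ⟨fun h0 => ha (by rw [← hσ, h0, map_zero]), ?_⟩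
      rw [← hgal σ {b}, Finset.image_singleton, hσ]
    have h2 := hprod _ _ hroots
    have h3 := hsp.coeff_zero_eq_prod_roots_of_monic hmon
    have h4 : f.roots.prod = (((-1) ^ f.natDegree * (minpoly ℚ a).coeff 0 : ℚ) : Qb) := by
      have e : f.coeff 0 = (((minpoly ℚ a).coeff 0 : ℚ) : Qb) := by
        rw [hf, Polynomial.coeff_map]
        rfl
      push_cast
      rw [← e, h3, ← mul_assoc, ← mul_pow]
      simp
    have h5 : (minpoly ℚ a).coeff 0 ≠ 0 := minpoly.coeff_zero_ne_zero hint ha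
    rw [h4, hrat _ (mul_ne_zero (pow_ne_zero _ (by norm_num)) h5)] at h2
    have h6 : 0 < Multiset.card f.roots := by
      rw [← hsp.natDegree_eq_card_roots, hf, (minpoly.monic hint).natDegree_map]
      exact minpoly.natDegree_pos hint
    have h7 : (0 : ℝ) < Multiset.card f.roots := by exact_mod_cast h6
    rcases mul_eq_zero.1 h2.symm with h | h
    · exact absurd h h7.ne'
    · exact h
  · intro s hs
    have : ∀ σ : Qb ≃ₐ[ℚ] Qb, H1b_G (s.image σ.symm) = 0 := by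
      intro σ
      have h1 : ∀ p, H1b_loc p (s.image σ.symm) = 0 := by
        intro p
        unfold H1b_loc
        split_ifs with h
        · have h2 : nrm (H1b_bp p) (s.image σ.symm) = 0 := by
            refine le_antisymm (nrm_le _ le_rfl fun a ha => ?_) (nrm_nonneg _ _)
            obtain ⟨b, hb, rfl⟩ := Finset.mem_image.1 ha
            simp [hs b hb]
          rw [h2, Real.log_zero]
        · rfl
      simp [H1b_G, h1]
    simp only [ht, this, hI4]

end Pool.Agent.E6b
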