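import Pool.Agent.E6b.HDefs2

open scoped NNReal TensorProduct IntermediateField BigOperators Classical Topology
open Filter

namespace Pool.Agent.E6b

theorem H2_gen {r : Type} [Fintype r] {s : Finset Qb} (hs : ∃ a ∈ s, a ≠ 0)
    (t : r → Finset Qb) (ht0 : ∀ i, ∃ a ∈ t i, a ≠ 0) (k : r → ℝ) (cst : ℕ →₀ ℝ)
    (hc : ∀ p, p ≠ 0 → 0 ≤ cst p)
    (h : ∀ p v, IsPl p v → nrm v s ≤ Real.exp (cst p) * ∏ i, nrm v (t i) ^ k i) :
    ht s ≤ (cst.sum fun _ x => x) + ∑ i, k i * ht (t i) := by
  have key := htSpec.lg (r := Option r) (fun o => o.elim s t) (fun o => o.elim 1 fun i => -k i) cst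
    (fun o => by
      cases o with
      | none => exact hs
      | some i => exact ht0 i) hc (fun p v hv => by
      have h1 := Real.log_le_log (nrm_pos v hs) (h p v hv)
      have hp : ∀ i, 0 < nrm v (t i) := fun i => nrm_pos v (ht0 i)
      rw [Real.log_mul (Real.exp_pos _).ne'
          (Finset.prod_pos fun i _ => Real.rpow_pos_of_pos (hp i) _).ne', Real.log_exp,
        Real.log_prod fun i _ => (Real.rpow_pos_of_pos (hp i) _).ne'] at h1
      simp only [Real.log_rpow (hp _)] at h1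
      simp only [Fintype.sum_option, Option.elim_none, Option.elim_some, one_mul, neg_mul,
        Finset.sum_neg_distrib]
      linarith)
  simp only [Fintype.sum_option, Option.elim_none, Option.elim_some, one_mul, neg_mul,
    Finset.sum_neg_distrib] at key
  linarith

/-- multiplicative form of the local-to-global principle -/
theorem ht_le_of_local {r : Type} [Fintype r] {s : Finset Qb} (hs : ∃ a ∈ s, a ≠ 0)
    (t : r → Finset Qb) (ht0 : ∀ i, ∃ a ∈ t i, a ≠ 0) (k : r → ℝ) {c : ℝ} (hc : 0 < c)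
    (h : ∀ p v, IsPl p v → nrm v s ≤ th p c * ∏ i, nrm v (t i) ^ k i) :
    ht s ≤ Real.log c + ∑ i, k i * ht (t i) := by
  have key := H2_gen hs t ht0 k (Finsupp.single 0 (Real.log c))
    (fun p hp => by rw [Finsupp.single_eq_of_ne hp]) (fun p v hv => by
      have e : Real.exp (Finsupp.single 0 (Real.log c) p) = th p c := by
        unfold th
        split_ifs with hp
        · rw [hp, Finsupp.single_eq_same, Real.exp_log hc]
        · rw [Finsupp.single_eq_of_ne hp, Real.exp_zero]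
      rw [e]
      exact h p v hv)
  rwa [Finsupp.sum_single_index rfl] at key

theorem ht_le_of_local1 {s t : Finset Qb} (hs : ∃ a ∈ s, a ≠ 0) (ht0 : ∃ a ∈ t, a ≠ 0) (k : ℕ)
    {c : ℝ} (hc : 0 < c) (h : ∀ p v, IsPl p v → nrm v s ≤ th p c * nrm v t ^ k) :
    ht s ≤ Real.log c + k * ht t := by
  have key := ht_le_of_local (r := Unit) hs (fun _ => t) (fun _ => ht0) (fun _ => (k : ℝ)) hc
    (fun p v hv => by simpa using h p v hv)
  simpa using key

/-- version with finitely many bad primes -/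
theorem ht_le_of_local_bad (N : ℕ) {C : ℝ} (hC : 1 ≤ C) {s t : Finset Qb} (hs : ∃ a ∈ s, a ≠ 0)
    (ht0 : ∃ a ∈ t, a ≠ 0)
    (h : ∀ p v, IsPl p v → nrm v s ≤ (if p < N then C else 1) * nrm v t) :
    ht s ≤ N * Real.log C + ht t := by
  have hl := Real.log_nonneg hC
  let cst : ℕ →₀ ℝ := Finsupp.onFinset (Finset.range N) (fun p => if p < N then Real.log C else 0)
    fun p hp => by
      by_contra hn
      exact hp (if_neg fun h' => hn (Finset.mem_range.2 h'))
  have hcst : ∀ p, cst p = if p < N then Real.log C else 0 := fun p => rfl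
  have key := H2_gen (r := Unit) hs (fun _ => t) (fun _ => ht0) (fun _ => 1) cst
    (fun p _ => by rw [hcst]; split_ifs <;> simp [hl]) (fun p v hv => by
      have e : Real.exp (cst p) = if p < N then C else 1 := by
        rw [hcst]
        split_ifs
        · exact Real.exp_log (by linarith)
        · exact Real.exp_zero
      rw [e]
      simpa using h p v hv)
  have e : (cst.sum fun _ x => x) = N * Real.log C := by
    rw [Finsupp.sum_of_support_subset cst Finsupp.support_onFinset_subset _ fun _ _ => rfl,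
      Finset.sum_congr rfl fun p hp => (hcst p).trans (if_pos (Finset.mem_range.1 hp))]
    simp
  rw [e] at key
  simpa using key

theorem H2_th_one (p : ℕ) : th p 1 = 1 := by simp [th]

theorem H2_one_le_th (p : ℕ) {c : ℝ} (hc : 1 ≤ c) : 1 ≤ th p c := by
  unfold th
  split_ifs
  · exact hc
  · exact le_rfl

theorem H2_th_mono (p : ℕ) {c c' : ℝ} (hc : c ≤ c') : th p c ≤ th p c' := by
  unfold th
  split_ifs
  · exact hc
  · exact le_rfl

theorem H2_nrm_mono (v : AbsoluteValue Qb ℝ) {s t : Finset Qb} (h : s ⊆ t) :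
    nrm v s ≤ nrm v t :=
  nrm_le v (nrm_nonneg v t) fun _ ha => le_nrm v (h ha)

theorem H2_le0 {s t : Finset Qb} (hs : ∃ a ∈ s, a ≠ 0) (ht0 : ∃ a ∈ t, a ≠ 0)
    (h : ∀ p v, IsPl p v → nrm v s ≤ nrm v t) : ht s ≤ ht t := by
  have key := ht_le_of_local1 hs ht0 1 one_pos fun p v hv => by
    rw [H2_th_one, one_mul, pow_one]
    exact h p v hv
  simpa using key

theorem ht_nonneg (s : Finset Qb) : 0 ≤ ht s := by
  by_cases hs : ∃ a ∈ s, a ≠ 0
  · obtain ⟨a, ha, h0⟩ := hs
    rw [← htSpec.single a h0]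
    exact H2_le0 ⟨a, by simp, h0⟩ ⟨a, ha, h0⟩ fun p v _ => H2_nrm_mono v (by simpa using ha)
  · push Not at hs
    exact (htSpec.zero s hs).ge

theorem H2_le {s t : Finset Qb} (h : ∀ p v, IsPl p v → nrm v s ≤ nrm v t) : ht s ≤ ht t := by
  by_cases hs : ∃ a ∈ s, a ≠ 0
  · refine H2_le0 hs ?_ h
    by_contra hn
    push Not at hn
    obtain ⟨v, hv⟩ := exists_isPl (p := 0) (Or.inl rfl)
    have h1 := nrm_pos v hs
    have h2 := h 0 v hv
    have h3 : nrm v t ≤ 0 := nrm_le v le_rfl fun a ha => by simp [hn a ha]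
    linarith
  · push Not at hs
    rw [htSpec.zero s hs]
    exact ht_nonneg t

theorem ht_mono {s t : Finset Qb} (h : s ⊆ t) : ht s ≤ ht t :=
  H2_le fun _ v _ => H2_nrm_mono v h

theorem H2_prod {ι : Type*} (I : Finset ι) {s : Finset Qb} (hs : ∃ a ∈ s, a ≠ 0)
    (t : ι → Finset Qb) (ht0 : ∀ i ∈ I, ∃ a ∈ t i, a ≠ 0) {c : ℝ} (hc : 0 < c)
    (h : ∀ p v, IsPl p v → nrm v s ≤ th p c * ∏ i ∈ I, nrm v (t i)) :
    ht s ≤ Real.log c + ∑ i ∈ I, ht (t i) := by
  have key := ht_le_of_local (r := Fin I.card) hs (fun j => t (I.equivFin.symm j))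
    (fun j => ht0 _ (I.equivFin.symm j).2) (fun _ => 1) hc (fun p v hv => by
      simp only [Real.rpow_one]
      rw [I.equivFin.symm.prod_comp fun i => nrm v (t i),
        Finset.prod_coe_sort I fun i => nrm v (t i)]
      exact h p v hv)
  simp only [one_mul] at key
  rwa [I.equivFin.symm.sum_comp fun i => ht (t i), Finset.sum_coe_sort I fun i => ht (t i)] at key

theorem H2_two {s t u : Finset Qb} (hs : ∃ a ∈ s, a ≠ 0) (ht0 : ∃ a ∈ t, a ≠ 0)
    (hu : ∃ a ∈ u, a ≠ 0) {c : ℝ} (hc : 0 < c)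
    (h : ∀ p v, IsPl p v → nrm v s ≤ th p c * (nrm v t * nrm v u)) :
    ht s ≤ Real.log c + (ht t + ht u) := by
  have key := H2_prod (Finset.univ : Finset (Fin 2)) hs ![t, u]
    (fun i _ => by fin_cases i <;> simpa) hc fun p v hv => by simpa using h p v hv
  simpa using key

theorem H2_lin0 {r : Type} [Fintype r] (s : r → Finset Qb) (c : r → ℝ)
    (hs : ∀ i, ∃ a ∈ s i, a ≠ 0)
    (h : ∀ p v, IsPl p v → ∑ i, c i * Real.log (nrm v (s i)) = 0) : ∑ i, c i * ht (s i) = 0 := by
  have h1 := htSpec.lg s c 0 hs (fun _ _ => le_rfl) fun p v hv => (h p v hv).le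
  have h2 := htSpec.lg s (fun i => -c i) 0 hs (fun _ _ => le_rfl) fun p v hv => by
    simp only [neg_mul, Finset.sum_neg_distrib, h p v hv]
    simp
  simp only [neg_mul, Finset.sum_neg_distrib, Finsupp.sum_zero_index] at h1 h2
  linarith

theorem H2_smul_le {c : Qb} (hc : c ≠ 0) (s : Finset Qb) : ht (s.image (c * ·)) ≤ ht s := by
  by_cases hs : ∃ a ∈ s, a ≠ 0
  · obtain ⟨a, ha, h0⟩ := hs
    have key := H2_two (s := s.image (c * ·)) (t := {c}) (u := s)
      ⟨c * a, Finset.mem_image_of_mem _ ha, mul_ne_zero hc h0⟩ ⟨c, by simp, hc⟩ ⟨a, ha, h0⟩ one_pos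
      fun p v _ => by
        rw [H2_th_one, one_mul]
        refine nrm_le v (mul_nonneg (nrm_nonneg _ _) (nrm_nonneg _ _)) fun b hb => ?_
        obtain ⟨b, hb', rfl⟩ := Finset.mem_image.1 hb
        rw [map_mul]
        exact mul_le_mul (le_nrm v (by simp)) (le_nrm v hb') (v.nonneg _) (nrm_nonneg _ _)
    rw [htSpec.single c hc] at key
    simpa using key
  · push Not at hs
    rw [htSpec.zero _ fun b hb => ?_]
    · exact ht_nonneg s
    · obtain ⟨b, hb', rfl⟩ := Finset.mem_image.1 hb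
      rw [hs b hb', mul_zero]

theorem ht_smul {c : Qb} (hc : c ≠ 0) (s : Finset Qb) : ht (s.image (c * ·)) = ht s := by
  refine le_antisymm (H2_smul_le hc s) ?_
  have key := H2_smul_le (inv_ne_zero hc) (s.image (c * ·))
  rw [Finset.image_image] at key
  have e : ((fun x => c⁻¹ * x) ∘ fun x => c * x) = id := by
    funext x
    simp [hc]
  rwa [e, Finset.image_id] at key

theorem ht_insert_zero (s : Finset Qb) : ht (insert 0 s) = ht s := by
  refine le_antisymm (H2_le fun p v _ => nrm_le v (nrm_nonneg _ _) fun a ha => ?_)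
    (ht_mono (Finset.subset_insert _ _))
  rcases Finset.mem_insert.1 ha with rfl | ha
  · rw [map_zero]
    exact nrm_nonneg _ _
  · exact le_nrm v ha

theorem H2_one_le (v : AbsoluteValue Qb ℝ) (a : Qb) : 1 ≤ nrm v {1, a} := by
  have := le_nrm v (s := {1, a}) (a := 1) (by simp)
  rwa [map_one] at this

theorem H2_le_pair (v : AbsoluteValue Qb ℝ) (a : Qb) : v a ≤ nrm v {1, a} := le_nrm v (by simp)

theorem H2_pair_le (v : AbsoluteValue Qb ℝ) {a : Qb} {M : ℝ} (h1 : 1 ≤ M) (h : v a ≤ M) :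
    nrm v {1, a} ≤ M := by
  refine nrm_le v (by linarith) fun b hb => ?_
  rcases Finset.mem_insert.1 hb with rfl | hb
  · rwa [map_one]
  · rwa [Finset.mem_singleton.1 hb]

theorem H2_pair_ne (a : Qb) : ∃ b ∈ ({1, a} : Finset Qb), b ≠ 0 := ⟨1, by simp, one_ne_zero⟩

theorem H2_one_le_prod (v : AbsoluteValue Qb ℝ) {ι : Type*} (I : Finset ι) (f : ι → Qb) :
    1 ≤ ∏ i ∈ I, nrm v {1, f i} := Finset.one_le_prod fun i _ => H2_one_le v (f i)

theorem H2_le_prod (v : AbsoluteValue Qb ℝ) {ι : Type*} {I : Finset ι} (f : ι → Qb) {i : ι}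
    (hi : i ∈ I) : v (f i) ≤ ∏ j ∈ I, nrm v {1, f j} := by
  rw [← Finset.mul_prod_erase I (fun j => nrm v {1, f j}) hi]
  exact (H2_le_pair v _).trans (le_mul_of_one_le_right (nrm_nonneg _ _) (H2_one_le_prod v _ f))

theorem H2_ins {ι : Type*} (I : Finset ι) (f : ι → Qb) :
    ht (insert 1 (I.image f)) ≤ ∑ i ∈ I, h1 (f i) := by
  have key := H2_prod I (s := insert 1 (I.image f)) ⟨1, by simp, one_ne_zero⟩ (fun i => {1, f i})
    (fun i _ => H2_pair_ne _) one_pos fun p v _ => by
      rw [H2_th_one, one_mul]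
      refine nrm_le v (zero_le_one.trans (H2_one_le_prod v I f)) fun a ha => ?_
      rcases Finset.mem_insert.1 ha with rfl | ha
      · rw [map_one]
        exact H2_one_le_prod v I f
      · obtain ⟨i, hi, rfl⟩ := Finset.mem_image.1 ha
        exact H2_le_prod v f hi
  rwa [Real.log_one, zero_add] at key

theorem ht_insert_one_le (s : Finset Qb) : ht (insert 1 s) ≤ ∑ a ∈ s, h1 a := by
  have key := H2_ins s id
  rwa [Finset.image_id] at key

theorem h1_le_of_mem {s : Finset Qb} {a b : Qb} (ha : a ∈ s) (hb : b ∈ s) (hb0 : b ≠ 0) :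
    h1 (a / b) ≤ ht s := by
  unfold h1
  rw [← ht_smul hb0]
  refine ht_mono fun x hx => ?_
  obtain ⟨x, hx', rfl⟩ := Finset.mem_image.1 hx
  rcases Finset.mem_insert.1 hx' with rfl | hx
  · rwa [mul_one]
  · rwa [Finset.mem_singleton.1 hx, mul_div_cancel₀ _ hb0]

theorem hv_nonneg {ι : Type*} [Fintype ι] (x : ι → Qb) : 0 ≤ hv x := ht_nonneg _

theorem hv_congr {ι : Type*} [Fintype ι] {x y : ι → Qb} (h : Prp x y) : hv x = hv y := by
  obtain ⟨μ, hμ, h⟩ := h
  unfold hv
  rw [← ht_smul hμ (Finset.univ.image y), Finset.image_image]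
  congr 2
  exact funext h

theorem hv_comp_surj {ι ι' : Type*} [Fintype ι] [Fintype ι'] (x : ι → Qb) {e : ι' → ι}
    (he : Function.Surjective e) : hv (x ∘ e) = hv x := by
  unfold hv
  rw [← Finset.image_image, Finset.image_univ_of_surjective he]

theorem hv_comp_le {ι ι' : Type*} [Fintype ι] [Fintype ι'] (x : ι → Qb) (e : ι' → ι) :
    hv (x ∘ e) ≤ hv x := by
  refine ht_mono fun a ha => ?_
  obtain ⟨i, -, rfl⟩ := Finset.mem_image.1 ha
  exact Finset.mem_image_of_mem x (Finset.mem_univ (e i))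

theorem hv_gal {ι : Type*} [Fintype ι] (x : ι → Qb) (σ : Qb ≃ₐ[ℚ] Qb) :
    hv (fun i => σ (x i)) = hv x := by
  unfold hv
  rw [← htSpec.gal σ (Finset.univ.image x), Finset.image_image]
  rfl

theorem le_nv {ι : Type*} [Fintype ι] (v : AbsoluteValue Qb ℝ) (x : ι → Qb) (i : ι) :
    v (x i) ≤ nv v x := le_nrm v (Finset.mem_image_of_mem x (Finset.mem_univ i))

theorem nv_le {ι : Type*} [Fintype ι] (v : AbsoluteValue Qb ℝ) {x : ι → Qb} {M : ℝ} (hM : 0 ≤ M)
    (h : ∀ i, v (x i) ≤ M) : nv v x ≤ M :=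
  nrm_le v hM fun a ha => by
    obtain ⟨i, -, rfl⟩ := Finset.mem_image.1 ha
    exact h i

theorem exists_nv_eq {ι : Type*} [Fintype ι] [Nonempty ι] (v : AbsoluteValue Qb ℝ) (x : ι → Qb) :
    ∃ i, v (x i) = nv v x := by
  obtain ⟨a, ha, h⟩ := exists_nrm_eq v (Finset.univ_nonempty.image x)
  obtain ⟨i, -, rfl⟩ := Finset.mem_image.1 ha
  exact ⟨i, h⟩

theorem H2_vec_ne {ι : Type*} [Fintype ι] {x : ι → Qb} (hx : x ≠ 0) :
    ∃ a ∈ Finset.univ.image x, a ≠ 0 := by
  obtain ⟨i, hi⟩ := Function.ne_iff.1 hx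
  exact ⟨x i, Finset.mem_image_of_mem x (Finset.mem_univ i), hi⟩

theorem hv_segre {ι ι' : Type*} [Fintype ι] [Fintype ι'] {x : ι → Qb} {y : ι' → Qb} (hx : x ≠ 0)
    (hy : y ≠ 0) : hv (fun p : ι × ι' => x p.1 * y p.2) = hv x + hv y := by
  obtain ⟨i, hi⟩ := Function.ne_iff.1 hx
  obtain ⟨j, hj⟩ := Function.ne_iff.1 hy
  have : Nonempty ι := ⟨i⟩
  have : Nonempty ι' := ⟨j⟩
  have hz : (fun p : ι × ι' => x p.1 * y p.2) ≠ 0 :=
    Function.ne_iff.2 ⟨(i, j), mul_ne_zero hi hj⟩
  have key := H2_lin0 (r := Fin 3) ![Finset.univ.image fun p : ι × ι' => x p.1 * y p.2,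
    Finset.univ.image x, Finset.univ.image y] ![1, -1, -1]
    (fun k => by
      fin_cases k
      · exact H2_vec_ne hz
      · exact H2_vec_ne hx
      · exact H2_vec_ne hy) fun p v _ => by
      have e : nv v (fun p : ι × ι' => x p.1 * y p.2) = nv v x * nv v y := by
        refine le_antisymm (nv_le v (mul_nonneg (nrm_nonneg _ _) (nrm_nonneg _ _)) fun q => ?_) ?_
        · rw [map_mul]
          exact mul_le_mul (le_nv v x _) (le_nv v y _) (v.nonneg _) (nrm_nonneg _ _)
        · obtain ⟨a, ha⟩ := exists_nv_eq v x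
          obtain ⟨b, hb⟩ := exists_nv_eq v y
          rw [← ha, ← hb, ← map_mul]
          exact le_nv v (fun p : ι × ι' => x p.1 * y p.2) (a, b)
      unfold nv at e
      simp only [Fin.sum_univ_three, Matrix.cons_val_zero, Matrix.cons_val_one, Matrix.cons_val]
      rw [e, Real.log_mul (nrm_pos v (H2_vec_ne hx)).ne' (nrm_pos v (H2_vec_ne hy)).ne']
      ring
  simp only [Fin.sum_univ_three, Matrix.cons_val_zero, Matrix.cons_val_one,
    Matrix.cons_val] at key
  unfold hv
  linarith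

theorem H2_ht_pow (s : Finset Qb) (n : ℕ) : ht (s.image (· ^ n)) = n * ht s := by
  by_cases hs : ∃ a ∈ s, a ≠ 0
  · obtain ⟨a, ha, h0⟩ := hs
    have key := H2_lin0 (r := Fin 2) ![s.image (· ^ n), s] ![1, -n]
      (fun k => by
        fin_cases k
        · exact ⟨a ^ n, Finset.mem_image_of_mem _ ha, pow_ne_zero _ h0⟩
        · exact ⟨a, ha, h0⟩) fun p v _ => by
        have e : nrm v (s.image (· ^ n)) = nrm v s ^ n := by
          refine le_antisymm (nrm_le v (pow_nonneg (nrm_nonneg _ _) _) fun b hb => ?_) ?_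
          · obtain ⟨b, hb', rfl⟩ := Finset.mem_image.1 hb
            rw [map_pow]
            exact pow_le_pow_left₀ (v.nonneg _) (le_nrm v hb') _
          · obtain ⟨b, hb, h⟩ := exists_nrm_eq v ⟨a, ha⟩
            rw [← h, ← map_pow]
            exact le_nrm v (Finset.mem_image_of_mem _ hb)
        simp only [Fin.sum_univ_two, Matrix.cons_val_zero, Matrix.cons_val_one]
        rw [e, Real.log_pow]
        ring
    simp only [Fin.sum_univ_two, Matrix.cons_val_zero, Matrix.cons_val_one] at key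
    linarith
  · push Not at hs
    rw [htSpec.zero s hs, mul_zero]
    rcases Nat.eq_zero_or_pos n with rfl | hn
    · refine le_antisymm ?_ (ht_nonneg _)
      rw [← htSpec.single 1 one_ne_zero]
      refine ht_mono fun b hb => ?_
      obtain ⟨b, -, rfl⟩ := Finset.mem_image.1 hb
      simp
    · refine htSpec.zero _ fun b hb => ?_
      obtain ⟨b, hb', rfl⟩ := Finset.mem_image.1 hb
      rw [hs b hb', zero_pow hn.ne']

theorem hv_pow {ι : Type*} [Fintype ι] (x : ι → Qb) (n : ℕ) :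
    hv (fun i => x i ^ n) = n * hv x := by
  unfold hv
  rw [← H2_ht_pow, Finset.image_image]
  rfl

theorem hv_le_sum {ι : Type*} [Fintype ι] (x : ι → Qb) : hv x ≤ ∑ i, h1 (x i) :=
  (ht_mono (Finset.subset_insert _ _)).trans (H2_ins Finset.univ x)

theorem h1_nonneg (a : Qb) : 0 ≤ h1 a := ht_nonneg _

theorem H2_sum {ι : Type*} (s : Finset ι) (f : ι → Qb) {c : ℝ} (h1c : 1 ≤ c)
    (hc : (s.card : ℝ) ≤ c) : h1 (∑ i ∈ s, f i) ≤ ∑ i ∈ s, h1 (f i) + Real.log c := by
  have key := H2_prod s (H2_pair_ne (∑ i ∈ s, f i)) (fun i => {1, f i})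
    (fun i _ => H2_pair_ne _) (c := c) (by linarith) fun p v hv => by
      have hM := H2_one_le_prod v s f
      refine H2_pair_le v (one_le_mul_of_one_le_of_one_le (H2_one_le_th p h1c) hM) ?_
      exact (hv.sum_le s f (by linarith) fun i hi => H2_le_prod v f hi).trans
        (mul_le_mul_of_nonneg_right (H2_th_mono p hc) (by linarith))
  rw [add_comm]
  exact key

theorem h1_sum_le {ι : Type*} (s : Finset ι) (f : ι → Qb) :
    h1 (∑ i ∈ s, f i) ≤ ∑ i ∈ s, h1 (f i) + Real.log (s.card + 1) :=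
  H2_sum s f (le_add_of_nonneg_left (Nat.cast_nonneg _)) (le_add_of_nonneg_right zero_le_one)

theorem h1_prod_le {ι : Type*} (s : Finset ι) (f : ι → Qb) :
    h1 (∏ i ∈ s, f i) ≤ ∑ i ∈ s, h1 (f i) := by
  have key := H2_prod s (H2_pair_ne (∏ i ∈ s, f i)) (fun i => {1, f i})
    (fun i _ => H2_pair_ne _) one_pos fun p v _ => by
      rw [H2_th_one, one_mul]
      refine H2_pair_le v (H2_one_le_prod v s f) ?_
      rw [map_prod]
      exact Finset.prod_le_prod (fun i _ => v.nonneg _) fun i _ => H2_le_pair v _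
  rwa [Real.log_one, zero_add] at key

theorem h1_mul_le (a b : Qb) : h1 (a * b) ≤ h1 a + h1 b := by
  simpa using h1_prod_le (Finset.univ : Finset (Fin 2)) ![a, b]

theorem h1_add_le (a b : Qb) : h1 (a + b) ≤ h1 a + h1 b + Real.log 2 := by
  simpa using H2_sum (Finset.univ : Finset (Fin 2)) ![a, b] (c := 2) (by norm_num) (by simp)

theorem H2_h1_le {a b : Qb} (h : ∀ p v, IsPl p v → v a ≤ v b) : h1 a ≤ h1 b :=
  H2_le fun p v hv => H2_pair_le v (H2_one_le v b) ((h p v hv).trans (H2_le_pair v b))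

theorem h1_neg (a : Qb) : h1 (-a) = h1 a :=
  le_antisymm (H2_h1_le fun _ v _ => (v.map_neg a).le) (H2_h1_le fun _ v _ => (v.map_neg a).ge)

theorem h1_inv (a : Qb) : h1 a⁻¹ = h1 a := by
  by_cases ha : a = 0
  · rw [ha, inv_zero]
  · unfold h1
    rw [← ht_smul ha, Finset.image_insert, Finset.image_singleton, mul_one, mul_inv_cancel₀ ha,
      Finset.pair_comm]

theorem h1_pow (a : Qb) (n : ℕ) : h1 (a ^ n) = n * h1 a := by
  unfold h1
  rw [← H2_ht_pow, Finset.image_insert, Finset.image_singleton, one_pow]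

theorem h1_gal (σ : Qb ≃ₐ[ℚ] Qb) (a : Qb) : h1 (σ a) = h1 a := by
  unfold h1
  rw [← htSpec.gal σ {1, a}, Finset.image_insert, Finset.image_singleton, map_one]

theorem H2_h1_one : h1 1 = 0 := by
  unfold h1
  rw [Finset.pair_eq_singleton]
  exact htSpec.single 1 one_ne_zero

theorem h1_rootOfUnity {a : Qb} {n : ℕ} (hn : 0 < n) (ha : a ^ n = 1) : h1 a = 0 := by
  have key := h1_pow a n
  rw [ha, H2_h1_one] at key
  exact (mul_eq_zero.1 key.symm).resolve_left (by exact_mod_cast hn.ne')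

theorem h1_natCast_le (n : ℕ) : h1 (n : Qb) ≤ Real.log (n + 1) := by
  have h0 : (1 : ℝ) ≤ n + 1 := le_add_of_nonneg_left (Nat.cast_nonneg _)
  have key := ht_le_of_local1 (H2_pair_ne (n : Qb)) (H2_pair_ne 1) 0 (c := n + 1) (by linarith)
    fun p v hv => by
      rw [pow_zero, mul_one]
      exact H2_pair_le v (H2_one_le_th p h0)
        ((hv.natCast_le n).trans (H2_th_mono p (le_add_of_nonneg_right zero_le_one)))
  rwa [Nat.cast_zero, zero_mul, add_zero] at key

theorem H2_coeff_le (v : AbsoluteValue Qb ℝ) (P : Polynomial Qb) (i : ℕ) :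
    v (P.coeff i) ≤ nrm v P.coeffs := by
  by_cases h : P.coeff i = 0
  · rw [h, map_zero]
    exact nrm_nonneg _ _
  · exact le_nrm v (Polynomial.coeff_mem_coeffs h)

theorem H2_root {p : ℕ} {v : AbsoluteValue Qb ℝ} (hv : IsPl p v) {P : Polynomial Qb}
    (hP : P ≠ 0) {a : Qb} (ha : P.IsRoot a) :
    v (P.leadingCoeff * a) ≤ th p 2 * nrm v P.coeffs := by
  have hM := nrm_nonneg v P.coeffs
  have hL : v P.leadingCoeff ≤ nrm v P.coeffs := H2_coeff_le v P _
  have hth := H2_one_le_th p (c := 2) one_le_two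
  rw [map_mul]
  rcases le_or_gt (v a) 1 with hx | hx
  · nlinarith [v.nonneg a, v.nonneg P.leadingCoeff]
  have he : P.leadingCoeff * a ^ P.natDegree =
      -∑ i ∈ Finset.range P.natDegree, P.coeff i * a ^ i := by
    have h := ha.eq_zero
    rw [Polynomial.eval_eq_sum_range, Finset.sum_range_succ] at h
    rw [Polynomial.leadingCoeff]
    linear_combination h
  have he' : v P.leadingCoeff * v a ^ P.natDegree =
      v (∑ i ∈ Finset.range P.natDegree, P.coeff i * a ^ i) := by
    rw [← map_pow, ← map_mul, he, v.map_neg]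
  have hpos : 0 < v a ^ P.natDegree := pow_pos (by linarith) _
  by_cases hp : p = 0
  · have h1 : v (∑ i ∈ Finset.range P.natDegree, P.coeff i * a ^ i) ≤
        nrm v P.coeffs * ∑ i ∈ Finset.range P.natDegree, v a ^ i := by
      rw [Finset.mul_sum]
      refine (v.sum_le _ _).trans (Finset.sum_le_sum fun i _ => ?_)
      rw [map_mul, map_pow]
      exact mul_le_mul_of_nonneg_right (H2_coeff_le v P i) (pow_nonneg (v.nonneg _) _)
    have h2 := geom_sum_mul (v a) P.natDegree
    have h3 : v P.leadingCoeff * (v a - 1) * v a ^ P.natDegree ≤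
        nrm v P.coeffs * v a ^ P.natDegree := by
      have h4 := mul_le_mul_of_nonneg_right (he'.le.trans h1) (sub_pos.2 hx).le
      rw [mul_assoc (nrm v P.coeffs), h2] at h4
      nlinarith
    have h5 := le_of_mul_le_mul_right h3 hpos
    rw [hp, th, if_pos rfl]
    linarith
  · obtain ⟨e, hd⟩ : ∃ e, P.natDegree = e + 1 := by
      refine Nat.exists_eq_succ_of_ne_zero fun h0 => ?_
      rw [h0] at he
      simp at he
      exact hP he
    have h1 := hv.sum_le (Finset.range P.natDegree) (fun i => P.coeff i * a ^ i)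
      (M := nrm v P.coeffs * v a ^ e) (mul_nonneg hM (pow_nonneg (v.nonneg _) _)) fun i hi => by
        rw [map_mul, map_pow]
        refine mul_le_mul (H2_coeff_le v P i) (pow_le_pow_right₀ hx.le ?_)
          (pow_nonneg (v.nonneg _) _) hM
        have := Finset.mem_range.1 hi
        omega
    rw [th, if_neg hp, one_mul, ← he', hd, pow_succ'] at h1
    rw [th, if_neg hp, one_mul]
    refine le_of_mul_le_mul_right ?_ (pow_pos (zero_lt_one.trans hx) e)
    linarith

/-- a root of a nonzero polynomial -/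
theorem h1_root_le {P : Polynomial Qb} (hP : P ≠ 0) {a : Qb} (ha : P.IsRoot a) :
    h1 a ≤ ht P.coeffs + Real.log 2 := by
  have hl : P.leadingCoeff ≠ 0 := Polynomial.leadingCoeff_ne_zero.2 hP
  unfold h1
  rw [← ht_smul hl, Finset.image_insert, Finset.image_singleton, mul_one]
  have key := ht_le_of_local1 (s := {P.leadingCoeff, P.leadingCoeff * a}) (t := P.coeffs)
    ⟨_, by simp, hl⟩ ⟨_, Polynomial.coeff_mem_coeffs hl, hl⟩ 1 two_pos fun p v hv => by
      have hM := nrm_nonneg v P.coeffs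
      have hth := H2_one_le_th p (c := 2) one_le_two
      rw [pow_one]
      refine nrm_le v (by positivity) fun b hb => ?_
      rcases Finset.mem_insert.1 hb with rfl | hb
      · exact (H2_coeff_le v P _).trans (le_mul_of_one_le_left hM hth)
      · rw [Finset.mem_singleton.1 hb]
        exact H2_root hv hP ha
  rw [Nat.cast_one, one_mul, add_comm] at key
  exact key

end Pool.Agent.E6b
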