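import Pool.Agent.E6b.K2

open scoped NNReal TensorProduct IntermediateField BigOperators Classical Topology
open Filter

namespace Pool.Agent.E6b

variable {κ F F' E : Type} [Field κ] [IsAlgClosed κ] [CharZero κ] [Field F] [Algebra κ F] [IsFF κ F]
  [Field F'] [Algebra κ F'] [IsFF κ F'] [Field E] [Algebra κ E] [IsFF κ E] (S : Sq κ F' E F)

theorem K1_mem_of_tv {s y : F} (hs : s ∉ (algebraMap κ F).range) (hy : y ∈ κ⟮s⟯)
    {R₁ R₂ : Place κ F} (h : tv s R₁ = tv s R₂) (h1 : y ∈ R₁.O) : y ∈ R₂.O := by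
  by_cases hy0 : y = 0
  · rw [hy0]; exact zero_mem _
  have e1 : 0 < R₁.ord (lc s (tv s R₂)) := (tv_eq_iff hs).1 h
  have e2 : 0 < R₂.ord (lc s (tv s R₂)) := (tv_eq_iff hs).1 rfl
  generalize tv s R₂ = c at e1 e2
  have hsc : s ∈ κ⟮lc s c⟯ := by
    have h0 := IntermediateField.mem_adjoin_simple_self κ (lc s c)
    cases c with
    | none =>
      have h2 := inv_mem h0
      rwa [show (lc s (none : Option κ))⁻¹ = s from inv_inv s] at h2
    | some c =>
      have h2 := add_mem h0 (IntermediateField.algebraMap_mem κ⟮lc s (some c)⟯ c)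
      rwa [show lc s (some c) + algebraMap κ F c = s from sub_add_cancel s _] at h2
  obtain ⟨m, hm⟩ := F1_ord_adjoin (IntermediateField.adjoin_simple_le_iff.2 hsc hy) hy0
  rw [Place.mem_iff, hm _ e1] at h1
  rw [Place.mem_iff, hm _ e2]
  exact mul_nonneg (nonneg_of_mul_nonneg_left h1 e1) e2.le

namespace Sq

theorem nc' : S.t' ∉ (algebraMap κ F').range := by
  rintro ⟨c, hc⟩
  refine S.nc ⟨c, S.p.toRingHom.injective ?_⟩
  change S.p (algebraMap κ E c) = S.p S.t
  rw [← S.comm, ← hc, AlgHom.commutes, AlgHom.commutes]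

theorem rho_tmul (c : F') (u : E) : S.rho (c ⊗ₜ[κ] u) = S.p' c * S.p u :=
  Algebra.TensorProduct.lift_tmul _ _ _ _ _

theorem rho_smul (c : F') (G : F' ⊗[κ] E) : S.rho (c • G) = S.p' c * S.rho G := by
  induction G using TensorProduct.induction_on with
  | zero => rw [smul_zero, map_zero, mul_zero]
  | tmul a u => rw [TensorProduct.smul_tmul', rho_tmul, rho_tmul, smul_eq_mul, map_mul, mul_assoc]
  | add x y hx hy => rw [smul_add, map_add, map_add, hx, hy, mul_add]

theorem rho_surj : Function.Surjective S.rho := by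
  have hfin := S.q'.finite
  have h1 : ∀ c : F', S.p' c ∈ S.rho.range := fun c =>
    ⟨c ⊗ₜ[κ] 1, by change S.rho _ = _; rw [rho_tmul, map_one, mul_one]⟩
  have h2 : ∀ u : E, S.p u ∈ S.rho.range := fun u =>
    ⟨1 ⊗ₜ[κ] u, by change S.rho _ = _; rw [rho_tmul, map_one, one_mul]⟩
  let A : Subalgebra S.q'.f.fieldRange F :=
    { S.rho.range.toSubsemiring with
      algebraMap_mem' := by
        rintro ⟨_, c, rfl⟩
        exact h1 c }
  let M : IntermediateField κ F := S.rho.range.toIntermediateField fun x hx =>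
    A.inv_mem_of_algebraic (x := ⟨x, hx⟩) (Algebra.IsAlgebraic.isAlgebraic x)
  have h3 : IntermediateField.adjoin κ (Set.range S.p' ∪ Set.range S.p) ≤ M := by
    rw [IntermediateField.adjoin_le_iff]
    rintro _ (⟨c, rfl⟩ | ⟨u, rfl⟩)
    · exact h1 c
    · exact h2 u
  rw [S.gen] at h3
  intro x
  exact h3 (IntermediateField.mem_top (x := x))

theorem deg_q' : S.q'.deg = rk κ S.t := S.deg'

theorem deg_q : S.q.deg = rk κ S.t' := by
  have h1 := (rk_map S.q S.nc).2
  have h2 := (rk_map S.q' S.nc').2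
  have h3 : S.q'.f S.t' = S.q.f S.t := S.comm
  rw [h3, h1, S.deg_q', mul_comm] at h2
  exact Nat.eq_of_mul_eq_mul_left (rk_pos S.nc) h2

theorem K1_tv (R : Place κ F) : tv (S.p S.t) R = tv S.t (S.q.res R) := by
  have h := tv_res S.q S.t R
  have e : (S.q.c : κ → κ) = id := rfl
  rwa [e, Option.map_id, id] at h

theorem K1_tv' (R : Place κ F) : tv (S.p S.t) R = tv S.t' (S.q'.res R) := by
  have h := tv_res S.q' S.t' R
  have e : (S.q'.c : κ → κ) = id := rfl
  rw [e, Option.map_id, id] at h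
  rw [← S.comm]
  exact h

theorem tv_res_eq (R : Place κ F) : tv S.t' (S.q'.res R) = tv S.t (S.q.res R) :=
  (S.K1_tv' R).symm.trans (S.K1_tv R)

theorem K1_map_mem {x : E} (hx : x ∈ κ⟮S.t⟯) : S.p x ∈ κ⟮S.p S.t⟯ := by
  rw [← Set.image_singleton, ← IntermediateField.adjoin_map]
  exact ⟨x, hx, rfl⟩

theorem K1_ex' {y : F} (hy : y ∈ κ⟮S.p S.t⟯) : ∃ z ∈ κ⟮S.t'⟯, S.p' z = y := by
  rw [← S.comm, ← Set.image_singleton, ← IntermediateField.adjoin_map] at hy
  exact hy

theorem K1_span {ι : Type} [Fintype ι] {b : ι → E}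
    (hb : Submodule.span κ⟮S.t⟯ (Set.range b) = ⊤) (x : F) :
    ∃ c : ι → F', x = ∑ i, S.p' (c i) * S.p (b i) := by
  obtain ⟨G, rfl⟩ := S.rho_surj x
  induction G using TensorProduct.induction_on with
  | zero => exact ⟨0, by simp⟩
  | tmul c u =>
    have hu : u ∈ Submodule.span κ⟮S.t⟯ (Set.range b) := hb ▸ Submodule.mem_top
    obtain ⟨r, hr⟩ := (Submodule.mem_span_range_iff_exists_fun _).1 hu
    choose z _ hz using fun i => S.K1_ex' (S.K1_map_mem (r i).2)
    refine ⟨fun i => c * z i, ?_⟩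
    rw [rho_tmul, ← hr, map_sum, Finset.mul_sum]
    refine Finset.sum_congr rfl fun i _ => ?_
    rw [map_mul, hz, IntermediateField.smul_def, smul_eq_mul, map_mul, mul_assoc]
  | add x y hx hy =>
    obtain ⟨c, hc⟩ := hx
    obtain ⟨d, hd⟩ := hy
    refine ⟨c + d, ?_⟩
    rw [map_add, hc, hd, ← Finset.sum_add_distrib]
    refine Finset.sum_congr rfl fun i _ => ?_
    rw [Pi.add_apply, map_add, add_mul]

theorem K1_basis {ι : Type} [Fintype ι] (β : Module.Basis ι κ⟮S.t⟯ E) :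
    LinearIndependent S.q'.f.fieldRange fun i => S.p (β i) := by
  refine linearIndependent_of_top_le_span_of_card_eq_finrank ?_ ?_
  · intro x _
    obtain ⟨c, rfl⟩ := S.K1_span β.span_eq x
    refine Submodule.sum_mem _ fun i _ => ?_
    exact Submodule.smul_mem _ (⟨S.p' (c i), c i, rfl⟩ : S.q'.f.fieldRange)
      (Submodule.subset_span ⟨i, rfl⟩)
  · rw [← Module.finrank_eq_card_basis β]
    exact S.deg'.symm

theorem K1_indep {ι : Type} {b : ι → E} (hb : LinearIndependent κ⟮S.t⟯ b) :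
    LinearIndependent S.q'.f.fieldRange fun i => S.p (b i) := by
  have := finiteDimensional_of_transcendental (transcendental_of_notMem S.nc)
  let β := Module.Basis.extend hb.linearIndepOn_id
  let _ := FiniteDimensional.fintypeBasisIndex β
  let e : ι → hb.linearIndepOn_id.extend (Set.subset_univ _) := fun i =>
    ⟨b i, hb.linearIndepOn_id.subset_extend _ ⟨i, rfl⟩⟩
  have he : Function.Injective e := fun i j h => hb.injective (congrArg Subtype.val h)
  have h := (S.K1_basis β).comp e he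
  have e2 : ((fun i => S.p (β i)) ∘ e) = fun i => S.p (b i) := by
    funext i
    exact congrArg S.p (Module.Basis.extend_apply_self hb.linearIndepOn_id (e i))
  rwa [e2] at h

/-- linear disjointness -/
theorem eq_zero_of_indep {ι : Type} [Fintype ι] {b : ι → E} (hb : LinearIndependent κ⟮S.t⟯ b)
    {c : ι → F'} (h : ∑ i, S.p' (c i) * S.p (b i) = 0) : c = 0 := by
  funext i
  have h1 := Fintype.linearIndependent_iff.1 (S.K1_indep hb)
    (fun i => (⟨S.p' (c i), c i, rfl⟩ : S.q'.f.fieldRange)) h i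
  have h2 : S.p' (c i) = 0 := congrArg Subtype.val h1
  exact (map_eq_zero S.p').1 h2

theorem exists_coord {b : Fin (rk κ S.t) → E} (hb : LinearIndependent κ⟮S.t⟯ b) (x : F) :
    ∃ c : Fin (rk κ S.t) → F', x = ∑ i, S.p' (c i) * S.p (b i) := by
  have := finiteDimensional_of_transcendental (transcendental_of_notMem S.nc)
  exact S.K1_span (hb.span_eq_top_of_card_eq_finrank' (Fintype.card_fin _)) x

theorem linearIndependent_mul {ι ι' : Type} [Fintype ι] [Fintype ι'] {b : ι → E}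
    (hb : LinearIndependent κ⟮S.t⟯ b) {b' : ι' → F'} (hb' : LinearIndependent κ⟮S.t'⟯ b') :
    LinearIndependent κ⟮S.p S.t⟯ fun x : ι' × ι => S.p' (b' x.1) * S.p (b x.2) := by
  rw [Fintype.linearIndependent_iff]
  intro g hg
  choose z hz hz' using fun x => S.K1_ex' (g x).2
  have h1 : ∑ i, S.p' (∑ i', z (i', i) * b' i') * S.p (b i) = 0 := by
    rw [← hg, Fintype.sum_prod_type_right]
    refine Finset.sum_congr rfl fun i _ => ?_
    rw [map_sum, Finset.sum_mul]
    refine Finset.sum_congr rfl fun i' _ => ?_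
    rw [map_mul, hz', IntermediateField.smul_def, smul_eq_mul, mul_assoc]
  have h2 := S.eq_zero_of_indep hb h1
  rintro ⟨i', i⟩
  have h3 := Fintype.linearIndependent_iff.1 hb' (fun i' => ⟨z (i', i), hz _⟩) (congrFun h2 i) i'
  have h4 : z (i', i) = 0 := congrArg Subtype.val h3
  apply Subtype.ext
  rw [← hz', h4, map_zero]
  rfl

/-- the minimal polynomial over `κ(t)` divides every equation over `F'` -/
theorem K1_dvd (u : E) {f : Polynomial S.q'.f.fieldRange} (hf : Polynomial.aeval (S.p u) f = 0) :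
    (minpoly κ⟮S.t⟯ u).map (S.p.toRingHom.comp (algebraMap κ⟮S.t⟯ E)) ∣
      f.map (algebraMap S.q'.f.fieldRange F) := by
  have := finiteDimensional_of_transcendental (transcendental_of_notMem S.nc)
  have hK : ∀ r : κ⟮S.t⟯, (S.p.toRingHom.comp (algebraMap κ⟮S.t⟯ E)) r ∈ S.q'.f.fieldRange :=
    fun r => by
      obtain ⟨z, -, hz⟩ := S.K1_ex' (S.K1_map_mem r.2)
      exact ⟨z, hz⟩
  let j : κ⟮S.t⟯ →+* S.q'.f.fieldRange :=
    (S.p.toRingHom.comp (algebraMap κ⟮S.t⟯ E)).codRestrict S.q'.f.fieldRange hK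
  have hj : (algebraMap S.q'.f.fieldRange F).comp j =
      S.p.toRingHom.comp (algebraMap κ⟮S.t⟯ E) := rfl
  have hui : IsIntegral κ⟮S.t⟯ u := Algebra.IsIntegral.isIntegral u
  have hm := minpoly.monic hui
  have hm' := hm.map j
  have hroot : Polynomial.aeval (S.p u) ((minpoly κ⟮S.t⟯ u).map j) = 0 := by
    rw [Polynomial.aeval_def, Polynomial.eval₂_map, hj]
    have h1 := Polynomial.hom_eval₂ (minpoly κ⟮S.t⟯ u) (algebraMap κ⟮S.t⟯ E) S.p.toRingHom u
    rw [← Polynomial.aeval_def, minpoly.aeval, map_zero] at h1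
    exact h1.symm
  have hi' : IsIntegral S.q'.f.fieldRange (S.p u) := ⟨_, hm', hroot⟩
  have hdeg : ((minpoly κ⟮S.t⟯ u).map j).natDegree ≤
      (minpoly S.q'.f.fieldRange (S.p u)).natDegree := by
    rw [hm.natDegree_map]
    by_contra hlt
    rw [not_le] at hlt
    have hind := S.K1_indep (linearIndependent_pow (K := κ⟮S.t⟯) u)
    have h0 := minpoly.aeval S.q'.f.fieldRange (S.p u)
    rw [Polynomial.aeval_eq_sum_range' hlt, Finset.sum_range] at h0
    have h1 := Fintype.linearIndependent_iff.1 hind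
      (fun i => (minpoly S.q'.f.fieldRange (S.p u)).coeff i) (by simpa only [map_pow] using h0)
      ⟨_, hlt⟩
    exact one_ne_zero ((minpoly.monic hi').coeff_natDegree.symm.trans h1)
  have heq := Polynomial.eq_of_monic_of_dvd_of_natDegree_le (minpoly.monic hi') hm'
    (minpoly.dvd _ _ hroot) hdeg
  rw [← hj, ← Polynomial.map_map, heq]
  exact Polynomial.map_dvd _ (minpoly.dvd _ _ hf)

theorem exists_place {Q : Place κ F'} {P : Place κ E} (h : tv S.t' Q = tv S.t P) :
    ∃ R : Place κ F, S.q'.res R = Q ∧ S.q.res R = P := by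
  by_contra hne
  have := finiteDimensional_of_transcendental (transcendental_of_notMem S.nc)
  have hP : P ∉ (S.q'.fib Q).image S.q.res := by
    intro hP
    obtain ⟨R, hR, e⟩ := Finset.mem_image.1 hP
    exact hne ⟨R, S.q'.mem_fib.1 hR, e⟩
  obtain ⟨w, hw, hw'⟩ := F1a_sep P _ hP
  have huP : w⁻¹ ∉ P.O := by
    rw [P.mem_iff, P.ord_inv]
    omega
  have huR : ∀ R, S.q'.res R = Q → S.p w⁻¹ ∈ R.O := fun R hR => by
    have h1 := hw' _ (Finset.mem_image_of_mem _ (S.q'.mem_fib.2 hR))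
    refine (S.q.map_mem_iff R w⁻¹).2 ?_
    rw [Place.mem_iff, Place.ord_inv]
    omega
  generalize w⁻¹ = u at huP huR
  let A : Subalgebra κ F' := { Q.O.toSubring.toSubsemiring with algebraMap_mem' := Q.const }
  let B : Subalgebra κ F := A.map S.p'
  have hint : IsIntegral B (S.p u) := isIntegral_of_forall_mem B fun R hR =>
    huR R (Place.eq_of_le (P := Q) (Q := S.q'.res R) fun x hx =>
      (S.q'.map_mem_iff R x).1 (hR _ ⟨x, hx, rfl⟩)).symm
  obtain ⟨f, hf, hf0⟩ := hint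
  have hB : ∀ b : B, B.val.toRingHom b ∈ S.q'.f.fieldRange := by
    rintro ⟨_, x, -, rfl⟩
    exact ⟨x, rfl⟩
  let jB : B →+* S.q'.f.fieldRange := B.val.toRingHom.codRestrict S.q'.f.fieldRange hB
  have hjB : (algebraMap S.q'.f.fieldRange F).comp jB = algebraMap B F := rfl
  have hd := S.K1_dvd u (f := f.map jB) (by
    rw [Polynomial.aeval_def, Polynomial.eval₂_map, hjB]; exact hf0)
  rw [Polynomial.map_map, hjB] at hd
  have hm := (minpoly.monic (Algebra.IsIntegral.isIntegral (R := κ⟮S.t⟯) u)).map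
    (S.p.toRingHom.comp (algebraMap κ⟮S.t⟯ E))
  have hl := (Polynomial.lifts_iff_coeff_lifts _).1
    (integralClosure.mem_lifts_of_monic_of_dvd_map F hf hm hd)
  obtain ⟨R₁, h₁⟩ := S.q'.res_surj Q
  obtain ⟨R₂, h₂⟩ := S.q.res_surj P
  have htv : tv (S.p S.t) R₁ = tv (S.p S.t) R₂ := by
    rw [S.K1_tv' R₁, S.K1_tv R₂, h₁, h₂, h]
  have hl2 : (minpoly κ⟮S.t⟯ u).map (S.p.toRingHom.comp (algebraMap κ⟮S.t⟯ E)) ∈
      Polynomial.lifts (algebraMap R₂.O F) := by
    rw [Polynomial.lifts_iff_coeff_lifts]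
    intro n
    obtain ⟨⟨y, hy⟩, e⟩ := hl n
    have hy1 : y ∈ R₁.O := by
      refine F0_mem_of_integral (A := B) R₁.O ?_ hy
      rintro ⟨_, x, hx, rfl⟩
      refine (S.q'.map_mem_iff R₁ x).2 ?_
      rw [h₁]
      exact hx
    have hy2 : y ∈ κ⟮S.p S.t⟯ := by
      have e' : y = S.p ((minpoly κ⟮S.t⟯ u).coeff n : κ⟮S.t⟯) := by
        rw [Polynomial.coeff_map] at e
        exact e
      rw [e']
      exact S.K1_map_mem (Subtype.property _)
    exact ⟨⟨y, K1_mem_of_tv (rk_map S.q S.nc).1 hy2 htv hy1⟩, e⟩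
  obtain ⟨g, hg, -, hgm⟩ := Polynomial.lifts_and_natDegree_eq_and_monic hl2 hm
  have hint2 : IsIntegral R₂.O (S.p u) := by
    refine ⟨g, hgm, ?_⟩
    rw [Polynomial.eval₂_eq_eval_map, hg, Polynomial.eval_map]
    have h1 := Polynomial.hom_eval₂ (minpoly κ⟮S.t⟯ u) (algebraMap κ⟮S.t⟯ E) S.p.toRingHom u
    rw [← Polynomial.aeval_def, minpoly.aeval, map_zero] at h1
    exact h1.symm
  have h3 := (S.q.map_mem_iff R₂ u).1 (F0_mem_of_integral (A := R₂.O) R₂.O (fun a => a.2) hint2)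
  rw [h₂] at h3
  exact huP h3

/-- the square with the two sides exchanged -/
def K1_swap : Sq κ E F' F where
  p' := S.p
  p := S.p'
  t' := S.t
  t := S.t'
  comm := S.comm.symm
  nc := S.nc'
  deg' := S.deg_q
  gen := by rw [Set.union_comm]; exact S.gen
  unr := fun c => (S.unr c).symm

theorem K1_count {Q : Place κ F'} (h : Unr S.t (tv S.t' Q)) :
    (S.q'.fib Q).card = rk κ S.t ∧ (∀ R ∈ S.q'.fib Q, S.q'.e R = 1) ∧
      Set.InjOn S.q.res (S.q'.fib Q) := by
  have hc := (unr_iff_card S.nc _).1 h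
  have him : (S.q'.fib Q).image S.q.res = (finite_tv S.nc (tv S.t' Q)).toFinset := by
    ext P
    simp only [Finset.mem_image, Set.Finite.mem_toFinset, Set.mem_ofPred_eq, FHom.mem_fib]
    constructor
    · rintro ⟨R, hR, rfl⟩
      rw [← S.tv_res_eq, hR]
    · intro hP
      exact S.exists_place hP.symm
  have h1 : rk κ S.t ≤ (S.q'.fib Q).card := by
    rw [← hc, ← him]
    exact Finset.card_image_le
  have h2 := S.q'.card_fib_le Q
  rw [S.deg_q'] at h2
  have h3 := le_antisymm h2 h1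
  refine ⟨h3, ?_, ?_⟩
  · have hs := S.q'.sum_e Q
    rw [S.deg_q', ← h3, Finset.card_eq_sum_ones] at hs
    intro R hR
    exact ((Finset.sum_eq_sum_iff_of_le (fun R _ => S.q'.e_pos R)).1 hs.symm R hR).symm
  · rw [← Finset.card_image_iff, him, hc, h3]

theorem e'_eq_one {R : Place κ F} (h : Unr S.t (tv S.t (S.q.res R))) : S.q'.e R = 1 := by
  rw [← S.tv_res_eq] at h
  exact (S.K1_count h).2.1 R (S.q'.mem_fib.2 rfl)

theorem e_eq_one {R : Place κ F} (h : Unr S.t' (tv S.t' (S.q'.res R))) : S.q.e R = 1 :=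
  S.K1_swap.e'_eq_one h

theorem e_one (R : Place κ F) : S.q'.e R = 1 ∨ S.q.e R = 1 := by
  rcases S.unr (tv S.t (S.q.res R)) with h | h
  · exact Or.inl (S.e'_eq_one h)
  · rw [← S.tv_res_eq] at h
    exact Or.inr (S.e_eq_one h)

theorem K1_ext {R R' : Place κ F} (hu : Unr S.t (tv S.t' (S.q'.res R)))
    (h' : S.q'.res R = S.q'.res R') (h : S.q.res R = S.q.res R') : R = R' :=
  (S.K1_count hu).2.2 (Finset.mem_coe.2 (S.q'.mem_fib.2 rfl))
    (Finset.mem_coe.2 (S.q'.mem_fib.2 h'.symm)) h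

theorem place_ext {R R' : Place κ F} (h' : S.q'.res R = S.q'.res R') (h : S.q.res R = S.q.res R') :
    R = R' := by
  rcases S.unr (tv S.t (S.q.res R)) with hu | hu
  · rw [← S.tv_res_eq] at hu
    exact S.K1_ext hu h' h
  · exact S.K1_swap.K1_ext hu h h'

theorem unr_top {c : Option κ} (h : Unr S.t c) (h' : Unr S.t' c) : Unr (S.p S.t) c := by
  intro R hR
  have h1 : tv (S.p S.t) R = c := (tv_eq_iff (rk_map S.q S.nc).1).2 hR
  have h2 : tv S.t (S.q.res R) = c := (S.K1_tv R).symm.trans h1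
  have h3 : S.q.e R = 1 := S.e_eq_one (by rw [← S.K1_tv', h1]; exact h')
  have h4 := S.q.ord_map R (lc S.t c)
  rw [h _ ((tv_eq_iff S.nc).1 h2), h3] at h4
  rw [← map_lc]
  exact h4

theorem card_fib' {Q : Place κ F'} (h : Unr S.t (tv S.t' Q)) : (S.q'.fib Q).card = rk κ S.t :=
  (S.K1_count h).1

end Sq

end Pool.Agent.E6b
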