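import Pool.Agent.E6b.KDefs

open scoped NNReal TensorProduct IntermediateField BigOperators Classical Topology
open Filter

namespace Pool.Agent.E6b

variable {κ E F : Type} [Field κ] [IsAlgClosed κ] [CharZero κ] [Field E] [Algebra κ E] [IsFF κ E]
  [Field F] [Algebra κ F] [IsFF κ F]

theorem tv_eq_iff {t : E} (ht : t ∉ (algebraMap κ E).range) {P : Place κ E} {c : Option κ} :
    tv t P = c ↔ 0 < P.ord (lc t c) := by
  unfold tv
  cases c with
  | none =>
    rw [lc, P.ord_inv]
    split_ifs with h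
    · rw [P.mem_iff] at h
      exact ⟨False.elim, fun e => by omega⟩
    · rw [P.mem_iff] at h
      exact ⟨fun _ => by omega, fun _ => rfl⟩
  | some c =>
    rw [lc]
    constructor
    · intro e
      split_ifs at e with h
      obtain rfl := Option.some.inj e
      exact (P.ev_spec h).resolve_left fun h' => ht ⟨_, h'.symm⟩
    · intro e
      have h : t ∈ P.O := by
        have := P.O.add_mem _ _ (P.mem_iff.2 e.le) (P.const c)
        rwa [sub_add_cancel] at this
      rw [if_pos h, P.ev_eq (Or.inr e)]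

omit [IsAlgClosed κ] [CharZero κ] [IsFF κ E] in
theorem lc_ne_zero {t : E} (ht : t ∉ (algebraMap κ E).range) (c : Option κ) : lc t c ≠ 0 := by
  cases c with
  | none => exact inv_ne_zero fun h => ht ⟨0, by rw [h, map_zero]⟩
  | some c => exact sub_ne_zero.2 fun h => ht ⟨c, h.symm⟩

omit [IsAlgClosed κ] [CharZero κ] [IsFF κ E] [IsFF κ F] in
theorem map_lc (φ : E →ₐ[κ] F) (t : E) (c : Option κ) : φ (lc t c) = lc (φ t) c := by
  cases c with
  | none => exact map_inv₀ φ t
  | some c => rw [lc, lc, map_sub, φ.commutes]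

theorem tv_res (φ : FHom κ E F) (t : E) (R : Place κ F) :
    tv (φ.f t) R = (tv t (φ.res R)).map φ.c := by
  unfold tv
  by_cases h : t ∈ (φ.res R).O
  · rw [if_pos h, if_pos ((φ.map_mem_iff R t).2 h), φ.ev_map, Option.map_some]
  · rw [if_neg h, if_neg (mt (φ.map_mem_iff R t).1 h), Option.map_none]

theorem deg_dinf_rk {t : E} (ht : t ∉ (algebraMap κ E).range) : deg (dinf κ t) = rk κ t := deg_dinf ht

theorem rk_pos {t : E} (ht : t ∉ (algebraMap κ E).range) : 0 < rk κ t := by
  have := finiteDimensional_of_transcendental (transcendental_of_notMem ht)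
  exact Module.finrank_pos

theorem rk_map (φ : FHom κ E F) {t : E} (ht : t ∉ (algebraMap κ E).range) :
    φ.f t ∉ (algebraMap κ F).range ∧ rk κ (φ.f t) = φ.deg * rk κ t := 
  ⟨φ.F4_nonconst ht, (φ.F4_adjoin t).trans (mul_comm _ _)⟩

theorem finite_tv {t : E} (ht : t ∉ (algebraMap κ E).range) (c : Option κ) :
    {P : Place κ E | tv t P = c}.Finite := 
  (F1_finite_zeros (lc t c)).subset fun _ h => (tv_eq_iff ht).1 h

omit [IsAlgClosed κ] [CharZero κ] [IsFF κ E] in
theorem K2_adjoin {t : E} (_ht : t ∉ (algebraMap κ E).range) (c : Option κ) :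
    κ⟮(lc t c)⁻¹⟯ = κ⟮t⟯ := by
  cases c with
  | none => rw [lc, inv_inv]
  | some c =>
    rw [lc]
    refine le_antisymm (IntermediateField.adjoin_simple_le_iff.2 (inv_mem (sub_mem
      (IntermediateField.mem_adjoin_simple_self κ t) (IntermediateField.algebraMap_mem _ c))))
      (IntermediateField.adjoin_simple_le_iff.2 ?_)
    have := add_mem (inv_mem (IntermediateField.mem_adjoin_simple_self κ
      (t - algebraMap κ E c)⁻¹)) (IntermediateField.algebraMap_mem _ c)
    rwa [inv_inv, sub_add_cancel] at this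

theorem sum_ord_lc {t : E} (ht : t ∉ (algebraMap κ E).range) (c : Option κ) :
    ∑ P ∈ (finite_tv ht c).toFinset, P.ord (lc t c) = rk κ t := by
  have h1 := K2_adjoin ht c
  have h2 : (lc t c)⁻¹ ∉ (algebraMap κ E).range := by
    rintro ⟨x, hx⟩
    have h3 : t ∈ κ⟮(lc t c)⁻¹⟯ := h1 ▸ IntermediateField.mem_adjoin_simple_self κ t
    rw [← hx, IntermediateField.adjoin_simple_eq_bot_iff.2 (IntermediateField.algebraMap_mem _ x)]
      at h3
    exact ht (IntermediateField.mem_bot.1 h3)
  have h3 := deg_dinf h2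
  rw [h1] at h3
  refine Eq.trans ?_ h3
  rw [deg, Finsupp.sum_of_support_subset _ (s := (finite_tv ht c).toFinset) _ _ fun _ _ => rfl]
  · refine Finset.sum_congr rfl fun P hP => ?_
    have h4 := (tv_eq_iff ht).1 ((finite_tv ht c).mem_toFinset.1 hP)
    rw [dinf_apply, P.ord_inv]
    omega
  · intro P hP
    rw [Finsupp.mem_support_iff, dinf_apply, P.ord_inv] at hP
    exact (Set.Finite.mem_toFinset _).2 ((tv_eq_iff ht).2 (by omega))

theorem unr_iff_card {t : E} (ht : t ∉ (algebraMap κ E).range) (c : Option κ) :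
    Unr t c ↔ (finite_tv ht c).toFinset.card = rk κ t := by
  have h1 := sum_ord_lc ht c
  have h2 : ∀ P, P ∈ (finite_tv ht c).toFinset ↔ 0 < P.ord (lc t c) := fun P =>
    (Set.Finite.mem_toFinset _).trans (tv_eq_iff ht)
  have h3 : ∑ P ∈ (finite_tv ht c).toFinset, (P.ord (lc t c) - 1) =
      rk κ t - (finite_tv ht c).toFinset.card := by
    rw [Finset.sum_sub_distrib, h1, Finset.sum_const, nsmul_eq_mul, mul_one]
  have h4 := Finset.sum_eq_zero_iff_of_nonneg (s := (finite_tv ht c).toFinset)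
    (f := fun P => P.ord (lc t c) - 1) fun P hP => by
      have := (h2 P).1 hP
      omega
  rw [h3] at h4
  constructor
  · intro h
    have := h4.2 fun P hP => by rw [h P ((h2 P).1 hP), sub_self]
    omega
  · intro h P hP
    have := h4.1 (by rw [h, sub_self]) P ((h2 P).2 hP)
    omega

theorem finite_not_unr {t : E} (ht : t ∉ (algebraMap κ E).range) :
    {c : Option κ | ¬ Unr t c}.Finite := by
  refine (((finite_ram ht).image fun P => some (P.ev t)).insert none).subset fun c hc => ?_
  cases c with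
  | none => exact Set.mem_insert _ _
  | some c =>
    simp only [Unr, Set.mem_ofPred_eq, not_forall] at hc
    obtain ⟨P, h1, h2⟩ := hc
    have h3 : P.ev t = c := P.ev_eq (Or.inr h1)
    exact Set.mem_insert_of_mem _ ⟨P, by rwa [Set.mem_ofPred_eq, h3], congrArg some h3⟩

theorem K2_update {K V ι : Type} [Field K] [AddCommGroup V] [Module K V] [Fintype ι]
    [DecidableEq ι] {b : ι → V} (hb : LinearIndependent K b) {r : ι → K} {i : ι} (hr : r i ≠ 0) :
    LinearIndependent K (Function.update b i (∑ j, r j • b j)) := by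
  rw [Fintype.linearIndependent_iff] at hb ⊢
  intro g hg
  have h1 : ∑ j, (g i * r j + Function.update g i 0 j) • b j = 0 := by
    rw [← hg, ← Finset.add_sum_erase _ (fun j => g j • _) (Finset.mem_univ i),
      Function.update_self, Finset.smul_sum]
    simp only [add_smul, Finset.sum_add_distrib, mul_smul]
    congr 1
    rw [← Finset.add_sum_erase _ _ (Finset.mem_univ i), Function.update_self, zero_smul, zero_add]
    refine Finset.sum_congr rfl fun j hj => ?_
    rw [Function.update_of_ne (Finset.ne_of_mem_erase hj),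
      Function.update_of_ne (Finset.ne_of_mem_erase hj)]
  have h2 := hb _ h1
  have h3 : g i = 0 := by
    have := h2 i
    rw [Function.update_self, add_zero] at this
    exact (mul_eq_zero.1 this).resolve_right hr
  intro j
  rcases eq_or_ne j i with rfl | hj
  · exact h3
  · have := h2 j
    rwa [h3, zero_mul, zero_add, Function.update_of_ne hj] at this

theorem K2_start {t : E} (ht : t ∉ (algebraMap κ E).range) (N : Dv κ E) :
    ∃ (b : Fin (rk κ t) → E) (m : ℕ), LinearIndependent κ⟮t⟯ b ∧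
      ∀ i, b i ∈ LL (N + m • dinf κ t) := by
  obtain ⟨y, C, hy, -, h⟩ := F2_exists_basis ht
  obtain ⟨m, hm⟩ : ∃ m : ℕ, genus κ E + deg C - deg N ≤ m := ⟨_, Int.self_le_toNat _⟩
  have h1 := riemann (N + m • dinf κ t - C)
  rw [deg_sub, deg_add, deg_nsmul, deg_dinf_rk ht] at h1
  have h2 : (1 : ℤ) ≤ rk κ t := by exact_mod_cast rk_pos ht
  obtain ⟨f, hf, hf0⟩ := F2_exists_ne (D := N + m • dinf κ t - C) (by
    have h3 : (m : ℤ) ≤ m * rk κ t := le_mul_of_one_le_right (Int.natCast_nonneg m) h2
    omega)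
  refine ⟨fun i => f * y i, m, hy.map' (LinearMap.mulLeft κ⟮t⟯ f)
    (LinearMap.ker_eq_bot.2 (mul_right_injective₀ hf0)), fun i => ?_⟩
  have := mul_mem_LL hf (h i)
  rwa [sub_add_cancel] at this

theorem K2_better {t : E} (ht : t ∉ (algebraMap κ E).range) {N : Dv κ E} {n : ℕ} {b : Fin n → E}
    {a : Fin n → ℤ} (hm : ∀ i, b i ∈ LL (N - a i • dinf κ t)) {γ : Fin n → κ} {i : Fin n}
    (hi : γ i ≠ 0) (hmin : ∀ j, γ j ≠ 0 → a i ≤ a j) (c : Option κ)
    (h : ∑ i, γ i • (if c = none then t ^ a i * b i else b i) = 0 ∨ ∀ P : Place κ E, tv t P = c →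
      - N P ≤ P.ord ((∑ i, γ i • (if c = none then t ^ a i * b i else b i)) / lc t c)) :
    ∃ r : Fin n → κ⟮t⟯, r i ≠ 0 ∧ ∑ j, r j • b j ∈ LL (N - (a i + 1) • dinf κ t) := by
  have ht0 : t ≠ 0 := fun h => ht ⟨0, by rw [h, map_zero]⟩
  have hl := lc_ne_zero ht c
  have hτ := IntermediateField.mem_adjoin_simple_self κ t
  cases c with
  | none =>
    simp only [if_true] at h
    have e : ∑ j, γ j • (t ^ (a j - a i) * b j) = t ^ (- a i) * ∑ j, γ j • (t ^ a j * b j) := by
      rw [Finset.mul_sum]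
      refine Finset.sum_congr rfl fun j _ => ?_
      rw [mul_smul_comm, ← mul_assoc, ← zpow_add₀ ht0, neg_add_eq_sub]
    have h1 : ∑ j, γ j • (t ^ (a j - a i) * b j) ∈ LL (N - a i • dinf κ t) := by
      refine Submodule.sum_mem _ fun j _ => ?_
      by_cases hj : γ j = 0
      · rw [hj, zero_smul]
        exact Submodule.zero_mem _
      obtain ⟨k, hk⟩ := Int.eq_ofNat_of_zero_le (sub_nonneg.2 (hmin j hj))
      have h2 := mul_mem_LL (F2_pow_mem (κ := κ) t (le_refl k)) (hm j)
      rw [← natCast_zsmul, ← zpow_natCast, ← hk, sub_smul, sub_add_sub_cancel'] at h2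
      exact Submodule.smul_mem _ _ h2
    refine ⟨fun j => γ j • ⟨t ^ (a j - a i), zpow_mem hτ _⟩, smul_ne_zero hi fun e =>
      zpow_ne_zero _ ht0 (congrArg Subtype.val e), ?_⟩
    have e2 : ∑ j, (γ j • (⟨t ^ (a j - a i), zpow_mem hτ _⟩ : κ⟮t⟯)) • b j =
        ∑ j, γ j • (t ^ (a j - a i) * b j) :=
      Finset.sum_congr rfl fun j _ => by rw [smul_assoc]; rfl
    rw [e2]
    by_cases h0 : ∑ j, γ j • (t ^ a j * b j) = 0
    · rw [e, h0, mul_zero]
      exact Submodule.zero_mem _
    refine mem_LL.2 ((mem_LL.1 h1).imp_right fun h2 P => ?_)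
    have h3 := h2 P
    rw [Finsupp.sub_apply, Finsupp.smul_apply, dinf_apply, smul_eq_mul] at h3 ⊢
    by_cases hP : 0 ≤ P.ord t
    · rw [max_eq_right (by omega), mul_zero] at h3 ⊢
      exact h3
    · have h4 := h.resolve_left h0 P ((tv_eq_iff ht).2 (by rw [lc, P.ord_inv]; omega))
      rw [P.ord_div h0 hl, lc, P.ord_inv] at h4
      rw [max_eq_left (by omega), e, P.ord_mul (zpow_ne_zero _ ht0) h0, P.ord_zpow]
      linarith
  | some c =>
    simp only [reduceCtorEq, if_false] at h
    have h1 : ∑ j, γ j • b j ∈ LL (N - a i • dinf κ t) := by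
      refine Submodule.sum_mem _ fun j _ => ?_
      by_cases hj : γ j = 0
      · rw [hj, zero_smul]
        exact Submodule.zero_mem _
      exact Submodule.smul_mem _ _ (LL_mono (sub_le_sub_left
        (smul_le_smul_of_nonneg_right (hmin j hj) (F2_dinf_nonneg t)) N) (hm j))
    have hσ : (lc t (some c))⁻¹ ∈ κ⟮t⟯ :=
      inv_mem (sub_mem hτ (IntermediateField.algebraMap_mem _ c))
    refine ⟨fun j => γ j • ⟨_, hσ⟩, smul_ne_zero hi fun e =>
      inv_ne_zero hl (congrArg Subtype.val e), ?_⟩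
    have e2 : ∑ j, (γ j • (⟨_, hσ⟩ : κ⟮t⟯)) • b j = (∑ j, γ j • b j) / lc t (some c) := by
      rw [div_eq_inv_mul, Finset.mul_sum]
      exact Finset.sum_congr rfl fun j _ => by rw [smul_assoc, mul_smul_comm]; rfl
    rw [e2]
    by_cases h0 : ∑ j, γ j • b j = 0
    · rw [h0, zero_div]
      exact Submodule.zero_mem _
    refine mem_LL.2 (Or.inr fun P => ?_)
    have h3 := (mem_LL.1 h1).resolve_left h0 P
    rw [Finsupp.sub_apply, Finsupp.smul_apply, dinf_apply, smul_eq_mul] at h3 ⊢
    by_cases hP : 0 ≤ P.ord t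
    · rw [max_eq_right (by omega), mul_zero, sub_zero] at h3 ⊢
      by_cases h4 : 0 < P.ord (lc t (some c))
      · exact h.resolve_left h0 P ((tv_eq_iff ht).2 h4)
      · rw [P.ord_div h0 hl]
        omega
    · have h4 : P.ord (lc t (some c)) = P.ord t := by
        rw [lc, sub_eq_add_neg]
        exact (P.ord_add_eq ht0 (Or.inr (by rw [P.ord_neg, P.ord_algebraMap]; omega))).2
      rw [max_eq_left (by omega)] at h3 ⊢
      rw [P.ord_div h0 hl, h4]
      linarith

/-- existence of reduced bases -/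
theorem exists_RB {t : E} (ht : t ∉ (algebraMap κ E).range) (N : Dv κ E) : Nonempty (RB t N) :=
  by
  have hn := rk_pos ht
  have ht0 : t ≠ 0 := fun h => ht ⟨0, by rw [h, map_zero]⟩
  obtain ⟨z, ⟨b, a, hb, hm, rfl⟩, hz⟩ := Int.exists_greatest_of_bdd
    (P := fun z => ∃ (b : Fin (rk κ t) → E) (a : Fin (rk κ t) → ℤ), LinearIndependent κ⟮t⟯ b ∧
      (∀ i, b i ∈ LL (N - a i • dinf κ t)) ∧ ∑ i, a i = z)
    ⟨∑ _i : Fin (rk κ t), |deg N|, by
      rintro _ ⟨b, a, hb, hm, rfl⟩
      refine Finset.sum_le_sum fun i _ => ?_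
      by_contra hc
      have h1 : deg (N - a i • dinf κ t) < 0 := by
        rw [deg_sub, deg_zsmul, deg_dinf_rk ht]
        have h2 := le_abs_self (deg N)
        have h3 := abs_nonneg (deg N)
        have h4 : (1 : ℤ) ≤ rk κ t := by exact_mod_cast hn
        nlinarith
      have h2 := hm i
      rw [LL_eq_bot h1, Submodule.mem_bot] at h2
      exact hb.ne_zero i h2⟩
    (by
      obtain ⟨b, m, hb, hm⟩ := K2_start ht N
      exact ⟨_, b, fun _ => -m, hb, fun i => by simpa using hm i, rfl⟩)
  refine ⟨⟨b, a, hb, fun i P => ?_, fun c γ h => ?_⟩⟩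
  · have h1 := (mem_LL.1 (hm i)).resolve_left (hb.ne_zero i) P
    rw [Finsupp.sub_apply, Finsupp.smul_apply, dinf_apply, smul_eq_mul] at h1
    split_ifs with h
    · rw [P.mem_iff] at h
      rwa [max_eq_right (by omega), mul_zero, sub_zero] at h1
    · rw [P.mem_iff] at h
      rw [max_eq_left (by omega)] at h1
      rw [P.ord_mul (zpow_ne_zero _ ht0) (hb.ne_zero i), P.ord_zpow]
      linarith
  · by_contra hγ
    obtain ⟨i, hi, hmin⟩ := Finset.exists_min_image (Finset.univ.filter fun j => γ j ≠ 0) a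
      (by
        obtain ⟨j, hj⟩ := Function.ne_iff.1 hγ
        exact ⟨j, Finset.mem_filter.2 ⟨Finset.mem_univ _, hj⟩⟩)
    have hi' : γ i ≠ 0 := (Finset.mem_filter.1 hi).2
    obtain ⟨r, hr, hw⟩ := K2_better ht hm hi'
      (fun j hj => hmin j (Finset.mem_filter.2 ⟨Finset.mem_univ _, hj⟩)) c h
    have h1 := hz _ ⟨Function.update b i (∑ j, r j • b j), Function.update a i (a i + 1),
      K2_update hb hr, fun j => by
        rcases eq_or_ne j i with rfl | hj
        · rwa [Function.update_self, Function.update_self]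
        · rw [Function.update_of_ne hj, Function.update_of_ne hj]
          exact hm j, rfl⟩
    rw [Finset.sum_update_of_mem (Finset.mem_univ i), Finset.sdiff_singleton_eq_erase,
      ← Finset.add_sum_erase _ a (Finset.mem_univ i)] at h1
    omega

theorem K2_poly {t : E} (ht : t ∉ (algebraMap κ E).range) {N : Dv κ E}
    (hN : deg N < rk κ t) {ι : Type} (u : ι → E) (hu : ∀ i, u i ∈ LL N)
    (hi : LinearIndependent κ u) (s : Finset ι) (d : ℕ) : ∀ p : ι → Polynomial κ,
    (∀ i ∈ s, (p i).degree < d) → ∑ i ∈ s, Polynomial.aeval t (p i) * u i = 0 →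
    ∀ i ∈ s, p i = 0 := by
  have ht0 : t ≠ 0 := fun h => ht ⟨0, by rw [h, map_zero]⟩
  induction d with
  | zero => exact fun p hp _ i his => by simpa using hp i his
  | succ d ih =>
    intro p hp h
    have h1 : ∑ i ∈ s, (p i).coeff 0 • u i =
        - (t * ∑ i ∈ s, Polynomial.aeval t (p i).divX * u i) := by
      rw [eq_neg_iff_add_eq_zero, ← h, Finset.mul_sum, ← Finset.sum_add_distrib]
      refine Finset.sum_congr rfl fun i _ => ?_
      conv_rhs => rw [← Polynomial.X_mul_divX_add (p i)]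
      rw [map_add, map_mul, Polynomial.aeval_X, Polynomial.aeval_C, Algebra.smul_def]
      ring
    have h2 : ∑ i ∈ s, (p i).coeff 0 • u i ∈ LL N :=
      Submodule.sum_mem _ fun i _ => Submodule.smul_mem _ _ (hu i)
    have h3 : ∑ i ∈ s, Polynomial.aeval t (p i).divX * u i = 0 := by
      by_contra h0
      refine h0 ((Submodule.mem_bot κ).1 ?_)
      rw [← LL_eq_bot (D := N - dinf κ t) (by rw [deg_sub, deg_dinf_rk ht]; omega)]
      refine mem_LL.2 (Or.inr fun P => ?_)
      rw [Finsupp.sub_apply, dinf_apply]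
      by_cases hP : 0 ≤ P.ord t
      · rw [max_eq_right (by omega), sub_zero]
        refine (P.le_ord_sum s _ fun i _ => ?_).resolve_left h0
        have h4 := (F3ge.mono (F3ge_self P (Polynomial.aeval t (p i).divX))
          (P.mem_iff.1 (F1_aeval_mem P (P.mem_iff.2 hP) _))).mul (F3_mem_LL.1 (hu i) P)
        rwa [zero_add] at h4
      · rw [h1] at h2
        have h4 := (mem_LL.1 h2).resolve_left (neg_ne_zero.2 (mul_ne_zero ht0 h0)) P
        rw [P.ord_neg, P.ord_mul ht0 h0] at h4
        omega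
    rw [h3, mul_zero, neg_zero] at h1
    have h4 := linearIndependent_iff'.1 hi s _ h1
    have h5 := ih (fun i => (p i).divX) (fun i his => by
      by_cases h0 : p i = 0
      · rw [h0, Polynomial.divX_zero, Polynomial.degree_zero]
        exact WithBot.bot_lt_coe d
      · have h6 := hp i his
        rw [Polynomial.degree_eq_natDegree h0, Nat.cast_lt, Nat.lt_succ_iff] at h6
        exact (Polynomial.degree_divX_lt h0).trans_le (Polynomial.degree_le_of_natDegree_le h6))
      h3
    intro i his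
    rw [← Polynomial.X_mul_divX_add (p i), h5 i his, h4 i his, mul_zero, map_zero, add_zero]

open scoped IntermediateField.algebraAdjoinAdjoin in
/-- sections of a divisor of small degree are independent over `κ(t)` -/
theorem linearIndependent_of_deg_lt {t : E} (ht : t ∉ (algebraMap κ E).range) {N : Dv κ E}
    (hN : deg N < rk κ t) {ι : Type} (u : ι → E) (hu : ∀ i, u i ∈ LL N)
    (hi : LinearIndependent κ u) : LinearIndependent κ⟮t⟯ u := by
  rw [← LinearIndependent.iff_fractionRing (Algebra.adjoin κ {t}), linearIndependent_iff']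
  intro s g hg i his
  have h1 : ∀ i, ∃ p : Polynomial κ, Polynomial.aeval t p = g i := fun i =>
    (Algebra.adjoin_singleton_eq_range_aeval κ t).le (g i).2
  choose p hp using h1
  have h2 := K2_poly ht hN u hu hi s (s.sup (fun i => (p i).natDegree) + 1) p
    (fun i hi => (Polynomial.degree_le_natDegree.trans_lt (by
      exact_mod_cast Nat.lt_succ_of_le (Finset.le_sup (f := fun i => (p i).natDegree) hi))))
    (by
      rw [← hg]
      exact Finset.sum_congr rfl fun i _ => by rw [hp]; rfl) i his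
  exact Subtype.ext (by rw [← hp, h2, map_zero]; rfl)

theorem K2_sup (hg : genus κ E = 1) {t : E} (ht : t ∉ (algebraMap κ E).range) {m : ℕ}
    (hm : 2 ≤ m) : LL (m • dinf κ t) ⊔ LL (m • dinf κ t - dv κ t) = LL ((m + 1) • dinf κ t) := by
  have hn : (0 : ℤ) < rk κ t := by exact_mod_cast rk_pos ht
  have hm' : (2 : ℤ) ≤ m := by exact_mod_cast hm
  have h1 : LL (m • dinf κ t) ⊓ LL (m • dinf κ t - dv κ t) ≤
      LL (m • dinf κ t - dv κ t - dinf κ t) := by
    rintro f ⟨f1, f2⟩
    by_cases h0 : f = 0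
    · exact mem_LL.2 (Or.inl h0)
    refine mem_LL.2 (Or.inr fun P => ?_)
    have g1 := (mem_LL.1 f1).resolve_left h0 P
    have g2 := (mem_LL.1 f2).resolve_left h0 P
    simp only [Finsupp.sub_apply, dv_apply] at g2 ⊢
    rw [dinf_apply t P]
    omega
  have h2 := Submodule.finrank_sup_add_finrank_inf_eq (LL (m • dinf κ t))
    (LL (m • dinf κ t - dv κ t))
  have h3 := Submodule.finrank_mono h1
  have d1 : deg (m • dinf κ t) = m * rk κ t := by rw [deg_nsmul, deg_dinf_rk ht]
  have d2 : deg (m • dinf κ t - dv κ t) = m * rk κ t := by rw [deg_sub, d1, deg_dv, sub_zero]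
  have d3 : deg (m • dinf κ t - dv κ t - dinf κ t) = m * rk κ t - rk κ t := by
    rw [deg_sub, d2, deg_dinf_rk ht]
  have d4 : deg ((m + 1) • dinf κ t) = m * rk κ t + rk κ t := by
    rw [succ_nsmul, deg_add, d1, deg_dinf_rk ht]
  have e1 := ell_genus_one hg (D := m • dinf κ t) (by rw [d1]; nlinarith)
  have e2 := ell_genus_one hg (D := m • dinf κ t - dv κ t) (by rw [d2]; nlinarith)
  have e3 := ell_genus_one hg (D := m • dinf κ t - dv κ t - dinf κ t) (by rw [d3]; nlinarith)
  have e4 := ell_genus_one hg (D := (m + 1) • dinf κ t) (by rw [d4]; nlinarith)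
  rw [d1] at e1
  rw [d2] at e2
  rw [d3] at e3
  rw [d4] at e4
  unfold ell at e1 e2 e3 e4
  refine Submodule.eq_of_le_of_finrank_le (sup_le (LL_mono ?_) (LL_mono ?_)) (by omega)
  · exact nsmul_le_nsmul_left (F2_dinf_nonneg t) m.le_succ
  · intro P
    rw [succ_nsmul, Finsupp.sub_apply, Finsupp.add_apply, dv_apply, dinf_apply t P]
    omega

/-- in genus one `L(2 H)` spans the function field -/
theorem exists_basis_genus_one (hg : genus κ E = 1) {t : E} (ht : t ∉ (algebraMap κ E).range) :
    ∃ y : Fin (rk κ t) → E, LinearIndependent κ⟮t⟯ y ∧ ∀ i, y i ∈ LL (2 • dinf κ t) := by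
  have := finiteDimensional_of_transcendental (transcendental_of_notMem ht)
  have ht0 : t ≠ 0 := fun h => ht ⟨0, by rw [h, map_zero]⟩
  set W := Submodule.span κ⟮t⟯ (LL (2 • dinf κ t) : Set E) with hW
  have h1 : ∀ m : ℕ, ∀ f ∈ LL ((m + 2) • dinf κ t), f ∈ W := fun m => by
    induction m with
    | zero => exact fun f hf => Submodule.subset_span hf
    | succ m ih =>
      intro f hf
      rw [show m + 1 + 2 = m + 2 + 1 from rfl, ← K2_sup hg ht (by omega)] at hf
      obtain ⟨x, hx, y, hy, rfl⟩ := Submodule.mem_sup.1 hf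
      refine W.add_mem (ih x hx) ?_
      have h2 : t⁻¹ ∈ LL (dv κ t) := mem_LL.2 (Or.inr fun P => by rw [dv_apply, P.ord_inv])
      have h3 := mul_mem_LL hy h2
      rw [sub_add_cancel] at h3
      have h4 := W.smul_mem (IntermediateField.AdjoinSimple.gen κ t) (ih _ h3)
      have h5 : IntermediateField.AdjoinSimple.gen κ t • (y * t⁻¹) = y := by
        change t * (y * t⁻¹) = y
        rw [mul_left_comm, mul_inv_cancel₀ ht0, mul_one]
      rwa [h5] at h4
  obtain ⟨b, m, hb, hm⟩ := K2_start ht 0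
  have h2 : W = ⊤ := by
    rw [eq_top_iff, ← hb.span_eq_top_of_card_eq_finrank' (Fintype.card_fin _), Submodule.span_le]
    rintro _ ⟨i, rfl⟩
    refine h1 m _ (LL_mono ?_ (hm i))
    rw [zero_add]
    exact nsmul_le_nsmul_left (F2_dinf_nonneg t) (by omega)
  obtain ⟨f, f1, -, f2⟩ := Submodule.exists_fun_fin_finrank_span_eq κ⟮t⟯
    (LL (2 • dinf κ t) : Set E)
  have h3 : rk κ t = Module.finrank κ⟮t⟯ W := by rw [h2, finrank_top, rk]
  exact ⟨f ∘ Fin.cast h3, f2.comp _ (Fin.cast_injective h3), fun i => f1 _⟩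

end Pool.Agent.E6b
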