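import Pool.Agent.E6b.K1

open scoped NNReal TensorProduct IntermediateField BigOperators Classical Topology
open Filter


namespace Pool.Agent.E6b

variable {κ F F' E : Type} [Field κ] [IsAlgClosed κ] [CharZero κ] [Field F] [Algebra κ F] [IsFF κ F]
  [Field F'] [Algebra κ F'] [IsFF κ F'] [Field E] [Algebra κ E] [IsFF κ E]

theorem K3_smul_one_tmul (c : F') (u : E) : c • ((1 : F') ⊗ₜ[κ] u) = c ⊗ₜ[κ] u := by
  rw [TensorProduct.smul_tmul', smul_eq_mul, mul_one]

theorem K3_tmul_mem_LT {N : Dv κ E} (c : F') {u : E} (hu : u ∈ LL N) : c ⊗ₜ[κ] u ∈ LT F' N :=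
  Submodule.tmul_mem_baseChange_of_mem c hu

theorem K3_tmul_mem_LT2 {M : Dv κ F'} {N : Dv κ E} {c : F'} {u : E} (hc : c ∈ LL M)
    (hu : u ∈ LL N) : c ⊗ₜ[κ] u ∈ LT2 M N :=
  Submodule.apply_mem_map₂ (TensorProduct.mk κ F' E) hc hu

theorem K3_LT_eq {N : Dv κ E} {ι : Type} {u : ι → E}
    (hu : Submodule.span κ (Set.range u) = LL N) :
    LT F' N = Submodule.span F' (Set.range fun i => (1 : F') ⊗ₜ[κ] u i) := by
  rw [LT, ← hu, Submodule.baseChange_span, ← Set.range_comp]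
  rfl

theorem mem_LT_iff {N : Dv κ E} {ι : Type} [Fintype ι] {u : ι → E}
    (hu : Submodule.span κ (Set.range u) = LL N) {G : F' ⊗[κ] E} :
    G ∈ LT F' N ↔ ∃ c : ι → F', G = ∑ i, c i ⊗ₜ[κ] u i := by
  rw [K3_LT_eq hu, Submodule.mem_span_range_iff_exists_fun]
  simp only [K3_smul_one_tmul]
  exact ⟨fun ⟨c, hc⟩ => ⟨c, hc.symm⟩, fun ⟨c, hc⟩ => ⟨c, hc.symm⟩⟩

theorem mem_LT2_iff {M : Dv κ F'} {N : Dv κ E} {ι : Type} [Fintype ι] {u : ι → E}
    (hu : Submodule.span κ (Set.range u) = LL N) {G : F' ⊗[κ] E} :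
    G ∈ LT2 M N ↔ ∃ c : ι → F', (∀ i, c i ∈ LL M) ∧ G = ∑ i, c i ⊗ₜ[κ] u i := by
  constructor
  · intro h
    rw [LT2, Submodule.map₂_eq_span_image2] at h
    induction h using Submodule.span_induction with
    | mem x hx =>
      obtain ⟨m, hm, n, hn, rfl⟩ := hx
      have hn' : n ∈ Submodule.span κ (Set.range u) := by rw [hu]; exact hn
      obtain ⟨a, rfl⟩ := (Submodule.mem_span_range_iff_exists_fun κ).1 hn'
      refine ⟨fun i => a i • m, fun i => Submodule.smul_mem _ _ hm, ?_⟩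
      simp only [TensorProduct.mk_apply, TensorProduct.tmul_sum, TensorProduct.tmul_smul,
        TensorProduct.smul_tmul']
    | zero => exact ⟨0, fun i => Submodule.zero_mem _, by simp⟩
    | add x y _ _ hx hy =>
      obtain ⟨c, hc, rfl⟩ := hx
      obtain ⟨d, hd, rfl⟩ := hy
      refine ⟨c + d, fun i => Submodule.add_mem _ (hc i) (hd i), ?_⟩
      simp only [Pi.add_apply, TensorProduct.add_tmul, Finset.sum_add_distrib]
    | smul a x _ hx =>
      obtain ⟨c, hc, rfl⟩ := hx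
      refine ⟨a • c, fun i => Submodule.smul_mem _ _ (hc i), ?_⟩
      simp only [Pi.smul_apply, Finset.smul_sum, TensorProduct.smul_tmul']
  · rintro ⟨c, hc, rfl⟩
    refine Submodule.sum_mem _ fun i _ => K3_tmul_mem_LT2 (hc i) ?_
    rw [← hu]
    exact Submodule.subset_span ⟨i, rfl⟩

theorem eq_zero_of_sum_tmul {ι : Type} [Fintype ι] {u : ι → E} (hu : LinearIndependent κ u)
    {c : ι → F'} (h : ∑ i, c i ⊗ₜ[κ] u i = 0) : c = 0 := by
  have h1 : LinearIndependent F' fun i => (1 : F') ⊗ₜ[κ] u i :=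
    Module.Flat.linearIndependent_one_tmul hu
  funext i
  refine Fintype.linearIndependent_iff.1 h1 c ?_ i
  simpa only [K3_smul_one_tmul] using h

theorem exists_basis_LL (N : Dv κ E) : ∃ u : Fin (ell N) → E, LinearIndependent κ u ∧
    Submodule.span κ (Set.range u) = LL N := by
  let b := Module.finBasis κ (LL N)
  unfold ell
  refine ⟨fun i => (b i : E), b.linearIndependent.map' (LL N).subtype (Submodule.ker_subtype _), ?_⟩
  have h : (Set.range fun i => (b i : E)) = (LL N).subtype '' Set.range b := by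
    rw [← Set.range_comp]; rfl
  rw [h, ← Submodule.map_span, b.span_eq, Submodule.map_top, Submodule.range_subtype]

theorem K3_basis_mem {N : Dv κ E} {ι : Type} {u : ι → E}
    (hu : Submodule.span κ (Set.range u) = LL N) (i : ι) : u i ∈ LL N := by
  rw [← hu]
  exact Submodule.subset_span ⟨i, rfl⟩

theorem LT2_le_LT {M : Dv κ F'} {N : Dv κ E} {G : F' ⊗[κ] E} (h : G ∈ LT2 M N) : G ∈ LT F' N := by
  obtain ⟨u, -, hu⟩ := exists_basis_LL N
  obtain ⟨c, -, hc⟩ := (mem_LT2_iff hu).1 h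
  exact (mem_LT_iff hu).2 ⟨c, hc⟩

theorem LT2_mono {M M' : Dv κ F'} {N N' : Dv κ E} (h : M ≤ M') (h' : N ≤ N') :
    LT2 M N ≤ LT2 M' N' := Submodule.map₂_le_map₂ (LL_mono h) (LL_mono h')

theorem mul_mem_LT {N N' : Dv κ E} {G G' : F' ⊗[κ] E} (h : G ∈ LT F' N) (h' : G' ∈ LT F' N') :
    G * G' ∈ LT F' (N + N') := by
  obtain ⟨u, -, hu⟩ := exists_basis_LL N
  obtain ⟨u', -, hu'⟩ := exists_basis_LL N'
  obtain ⟨c, rfl⟩ := (mem_LT_iff hu).1 h
  obtain ⟨c', rfl⟩ := (mem_LT_iff hu').1 h'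
  rw [Finset.sum_mul_sum]
  refine Submodule.sum_mem _ fun i _ => Submodule.sum_mem _ fun j _ => ?_
  rw [Algebra.TensorProduct.tmul_mul_tmul]
  exact K3_tmul_mem_LT _ (mul_mem_LL (K3_basis_mem hu i) (K3_basis_mem hu' j))

theorem mul_mem_LT2 {M M' : Dv κ F'} {N N' : Dv κ E} {G G' : F' ⊗[κ] E} (h : G ∈ LT2 M N)
    (h' : G' ∈ LT2 M' N') : G * G' ∈ LT2 (M + M') (N + N') := by
  obtain ⟨u, -, hu⟩ := exists_basis_LL N
  obtain ⟨u', -, hu'⟩ := exists_basis_LL N'
  obtain ⟨c, hc, rfl⟩ := (mem_LT2_iff hu).1 h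
  obtain ⟨c', hc', rfl⟩ := (mem_LT2_iff hu').1 h'
  rw [Finset.sum_mul_sum]
  refine Submodule.sum_mem _ fun i _ => Submodule.sum_mem _ fun j _ => ?_
  rw [Algebra.TensorProduct.tmul_mul_tmul]
  exact K3_tmul_mem_LT2 (mul_mem_LL (hc i) (hc' j))
    (mul_mem_LL (K3_basis_mem hu i) (K3_basis_mem hu' j))

theorem smul_mem_LT2 {M M' : Dv κ F'} {N : Dv κ E} {G : F' ⊗[κ] E} {c : F'} (hc : c ∈ LL M')
    (h : G ∈ LT2 M N) : c • G ∈ LT2 (M' + M) N := by
  obtain ⟨u, -, hu⟩ := exists_basis_LL N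
  obtain ⟨d, hd, rfl⟩ := (mem_LT2_iff hu).1 h
  rw [Finset.smul_sum]
  refine Submodule.sum_mem _ fun i _ => ?_
  rw [TensorProduct.smul_tmul', smul_eq_mul]
  exact K3_tmul_mem_LT2 (mul_mem_LL hc (hd i)) (K3_basis_mem hu i)

theorem finrank_LT (N : Dv κ E) : Module.Finite F' (LT F' N) ∧
    Module.finrank F' (LT F' N) = ell N := by
  obtain ⟨u, hi, hu⟩ := exists_basis_LL N
  have h1 : LinearIndependent F' fun i => (1 : F') ⊗ₜ[κ] u i :=
    Module.Flat.linearIndependent_one_tmul hi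
  rw [K3_LT_eq hu]
  refine ⟨Module.Finite.span_of_finite _ (Set.finite_range _), ?_⟩
  rw [finrank_span_eq_card h1, Fintype.card_fin]

theorem deg_nonneg_of_mem_LT {N : Dv κ E} {G : F' ⊗[κ] E} (h : G ∈ LT F' N) (h0 : G ≠ 0) :
    0 ≤ deg N := by
  by_contra hN
  rw [LT, LL_eq_bot (not_le.1 hN), Submodule.baseChange_bot] at h
  exact h0 h

variable (S : Sq κ F' E F)

namespace Sq

theorem K3_q'f (c : F') : S.q'.f c = S.p' c := rfl
theorem K3_qf (u : E) : S.q.f u = S.p u := rfl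

theorem K3_ord' (R : Place κ F) (c : F') :
    R.ord (S.p' c) = S.q'.e R * (S.q'.res R).ord c := S.q'.ord_map R c
theorem K3_ord (R : Place κ F) (u : E) :
    R.ord (S.p u) = S.q.e R * (S.q.res R).ord u := S.q.ord_map R u

theorem rho_mem_LL {M : Dv κ F'} {N : Dv κ E} {G : F' ⊗[κ] E} (h : G ∈ LT2 M N) :
    S.rho G ∈ LL (S.q'.pull M + S.q.pull N) := by
  obtain ⟨u, -, hu⟩ := exists_basis_LL N
  obtain ⟨c, hc, rfl⟩ := (mem_LT2_iff hu).1 h
  rw [map_sum]
  refine Submodule.sum_mem _ fun i _ => ?_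
  rw [S.rho_tmul]
  exact mul_mem_LL (S.q'.map_mem_LL.2 (hc i)) (S.q.map_mem_LL.2 (K3_basis_mem hu i))

theorem Z_nonneg {M : Dv κ F'} {N : Dv κ E} {G : F' ⊗[κ] E} (h : G ∈ LT2 M N) (h0 : S.rho G ≠ 0) :
    0 ≤ S.Z M N G := (mem_LL_iff h0).1 (S.rho_mem_LL h)

theorem deg_Z (M : Dv κ F') (N : Dv κ E) (G : F' ⊗[κ] E) :
    deg (S.Z M N G) = rk κ S.t * deg M + rk κ S.t' * deg N := by
  rw [Sq.Z, deg_add, deg_add, deg_dv, FHom.deg_pull, FHom.deg_pull, S.deg_q', S.deg_q, add_zero]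

theorem rho_ne_zero {N : Dv κ E} (hN : deg N < rk κ S.t) {G : F' ⊗[κ] E} (h : G ∈ LT F' N)
    (h0 : G ≠ 0) : S.rho G ≠ 0 := by
  obtain ⟨u, hi, hu⟩ := exists_basis_LL N
  obtain ⟨c, rfl⟩ := (mem_LT_iff hu).1 h
  intro h1
  rw [map_sum] at h1
  simp only [S.rho_tmul] at h1
  have h2 := S.eq_zero_of_indep
    (linearIndependent_of_deg_lt S.nc hN u (K3_basis_mem hu) hi) h1
  exact h0 (by simp [h2])

theorem K3_mem_iff (R : Place κ F) : S.t' ∈ (S.q'.res R).O ↔ S.t ∈ (S.q.res R).O := by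
  rw [← S.q'.map_mem_iff, ← S.q.map_mem_iff, K3_q'f, K3_qf, S.comm]

/-- the residues of a combination with a zero of higher order than expected vanish -/
theorem K3_sat {N : Dv κ E} (b : RB S.t N) (Q : Place κ F') (γ : Fin (rk κ S.t) → κ)
    (h : ∀ R : Place κ F, S.q'.res R = Q →
      S.p (∑ i, γ i • (if S.t' ∈ Q.O then b.b i else S.t ^ b.a i * b.b i)) = 0 ∨
      S.q'.e R - S.q.pull N R ≤
        R.ord (S.p (∑ i, γ i • (if S.t' ∈ Q.O then b.b i else S.t ^ b.a i * b.b i)))) :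
    γ = 0 := by
  have hβ : ∀ i, (if tv S.t' Q = none then S.t ^ b.a i * b.b i else b.b i) =
      (if S.t' ∈ Q.O then b.b i else S.t ^ b.a i * b.b i) := by
    intro i
    by_cases hQ : S.t' ∈ Q.O <;> simp [tv, hQ]
  refine b.sat (tv S.t' Q) γ ?_
  simp only [hβ]
  set y := ∑ i, γ i • (if S.t' ∈ Q.O then b.b i else S.t ^ b.a i * b.b i) with hy
  by_cases hy0 : y = 0
  · exact Or.inl hy0
  refine Or.inr fun P hP => ?_
  obtain ⟨R, hRQ, hRP⟩ := S.exists_place hP.symm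
  have hpy : S.p y ≠ 0 := by simpa using hy0
  have h1 := (h R hRQ).resolve_left hpy
  rw [S.K3_ord, FHom.pull_apply, hRP] at h1
  rw [P.ord_div hy0 (lc_ne_zero S.nc _)]
  have he := S.q.F4_e_pos R
  have he' := S.q'.F4_e_pos R
  rcases S.unr (tv S.t' Q) with hu | hu
  · have h2 : P.ord (lc S.t (tv S.t' Q)) = 1 := hu P ((tv_eq_iff S.nc).1 hP)
    have h3 : 0 < (S.q.e R : ℤ) * (P.ord y + N P) := by linarith
    have h4 : 0 < P.ord y + N P := (mul_pos_iff_of_pos_left he).1 h3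
    omega
  · have h2 : Q.ord (lc S.t' (tv S.t' Q)) = 1 := hu Q ((tv_eq_iff S.nc').1 rfl)
    have h3 : S.q.e R = 1 := S.e_eq_one (by rw [hRQ]; exact hu)
    have h4 := S.K3_ord R (lc S.t (tv S.t' Q))
    rw [map_lc, ← S.comm, ← map_lc, S.K3_ord', hRQ, h2, hRP, h3] at h4
    rw [h3] at h1
    push_cast at h1 h4
    linarith

/-- local freeness after base change -/
theorem tn {N : Dv κ E} (b : RB S.t N) (Q : Place κ F') (c : Fin (rk κ S.t) → F') (k : ℤ)
    (h : ∑ i, S.p' (c i) * S.p (if S.t' ∈ Q.O then b.b i else S.t ^ b.a i * b.b i) = 0 ∨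
      ∀ R : Place κ F, S.q'.res R = Q → - S.q.pull N R + k * S.q'.e R ≤
        R.ord (∑ i, S.p' (c i) * S.p (if S.t' ∈ Q.O then b.b i else S.t ^ b.a i * b.b i))) :
    ∀ i, c i = 0 ∨ k ≤ Q.ord (c i) := by
  by_contra hcon
  simp only [not_forall, not_or, not_le] at hcon
  obtain ⟨j, hj0, hjk⟩ := hcon
  obtain ⟨i₀, hi₀, hmin⟩ := Finset.exists_min_image (Finset.univ.filter fun i => c i ≠ 0)
    (fun i => Q.ord (c i)) ⟨j, by simpa using hj0⟩
  have h0 : c i₀ ≠ 0 := by simpa using hi₀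
  have hk : Q.ord (c i₀) < k := lt_of_le_of_lt (hmin j (by simpa using hj0)) hjk
  have hd : ∀ i, c i / c i₀ ∈ Q.O := by
    intro i
    by_cases hi : c i = 0
    · rw [hi, zero_div]; exact Q.O.zero_mem
    · rw [Q.mem_iff, Q.ord_div hi h0]
      have := hmin i (by simpa using hi)
      omega
  have hγ := S.K3_sat b Q (fun i => Q.ev (c i / c i₀)) ?_
  · have h1 := congrFun hγ i₀
    simp only [div_self h0, Pi.zero_apply] at h1
    have h2 := Q.ev_algebraMap 1
    rw [map_one, h1] at h2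
    exact zero_ne_one h2
  intro R hR
  set β : Fin (rk κ S.t) → E := fun i => if S.t' ∈ Q.O then b.b i else S.t ^ b.a i * b.b i with hβ
  have hp0 : S.p' (c i₀) ≠ 0 := by simpa using h0
  have hid : S.p (∑ i, Q.ev (c i / c i₀) • β i) = (∑ i, S.p' (c i) * S.p (β i)) / S.p' (c i₀) +
      ∑ i, - (S.p' (c i / c i₀ - algebraMap κ F' (Q.ev (c i / c i₀))) * S.p (β i)) := by
    rw [Finset.sum_div, ← Finset.sum_add_distrib, map_sum]
    refine Finset.sum_congr rfl fun i _ => ?_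
    rw [map_smul, map_sub, map_div₀, AlgHom.commutes, Algebra.smul_def]
    ring
  have he := S.q.F4_e_pos R
  have he' := S.q'.F4_e_pos R
  change S.p (∑ i, Q.ev (c i / c i₀) • β i) = 0 ∨
    _ ≤ R.ord (S.p (∑ i, Q.ev (c i / c i₀) • β i))
  rw [hid]
  refine F1a_le_ord_add R ?_ (R.le_ord_sum _ _ fun i _ => ?_)
  · by_cases hx : ∑ i, S.p' (c i) * S.p (β i) = 0
    · exact Or.inl (by rw [hx, zero_div])
    · right
      have h1 := (h.resolve_left hx) R hR
      rw [R.ord_div hx hp0, S.K3_ord', hR]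
      have h2 : (S.q'.e R : ℤ) * (Q.ord (c i₀) + 1) ≤ S.q'.e R * k :=
        mul_le_mul_of_nonneg_left (by omega) he'.le
      change _ ≤ R.ord (∑ i, S.p' (c i) * S.p (β i)) at h1
      linarith
  · rcases Q.ev_spec (hd i) with h1 | h1
    · exact Or.inl (by rw [← h1, sub_self, map_zero, zero_mul, neg_zero])
    by_cases hb : β i = 0
    · exact Or.inl (by rw [hb, map_zero, mul_zero, neg_zero])
    right
    have h2 := F1a_ne_zero_of_ord Q h1.ne'
    rw [R.ord_neg, R.ord_mul ((map_ne_zero S.p').2 h2) ((map_ne_zero S.p).2 hb), S.K3_ord', S.K3_ord, hR,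
      FHom.pull_apply]
    have h3 : - N (S.q.res R) ≤ (S.q.res R).ord (β i) := by
      have h4 := b.mem i (S.q.res R)
      have h5 := S.K3_mem_iff R
      rw [hR] at h5
      simpa only [hβ, h5] using h4
    have h6 := mul_le_mul_of_nonneg_left h3 he.le
    have h7 : (S.q'.e R : ℤ) * 1 ≤ S.q'.e R *
        Q.ord (c i / c i₀ - algebraMap κ F' (Q.ev (c i / c i₀))) :=
      mul_le_mul_of_nonneg_left (by omega) he'.le
    linarith

theorem K3_ne_zero {t : E} (ht : t ∉ (algebraMap κ E).range) : t ≠ 0 := by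
  rintro rfl
  exact ht (zero_mem _)

theorem K3_b_mem {t : E} (ht : t ∉ (algebraMap κ E).range) {N : Dv κ E} (b : RB t N)
    (i : Fin (rk κ t)) : b.b i ∈ LL (N - b.a i • dinf κ t) := by
  refine Or.inr fun P => ?_
  have h := b.mem i P
  rw [Finsupp.sub_apply, Finsupp.smul_apply, dinf_apply, smul_eq_mul]
  by_cases hP : t ∈ P.O
  · rw [if_pos hP] at h
    rw [max_eq_right (by have := P.mem_iff.1 hP; omega)]
    linarith
  · rw [if_neg hP, P.ord_mul (zpow_ne_zero _ (K3_ne_zero ht)) (b.indep.ne_zero i), P.ord_zpow] at h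
    rw [max_eq_left (by have := mt P.mem_iff.2 hP; omega)]
    linarith

theorem K3_c_mem {M : Dv κ F'} {N : Dv κ E} (b : RB S.t N) {c : Fin (rk κ S.t) → F'}
    (hx : ∑ i, S.p' (c i) * S.p (b.b i) ∈ LL (S.q'.pull M + S.q.pull N)) (i : Fin (rk κ S.t)) :
    c i ∈ LL (M + b.a i • dinf κ S.t') := by
  by_cases hc : c i = 0
  · exact Or.inl hc
  refine Or.inr fun Q => ?_
  have ht := K3_ne_zero S.nc
  have ht' := K3_ne_zero S.nc'
  have hs : ∑ j, S.p' (if S.t' ∈ Q.O then c j else c j * S.t' ^ (- b.a j)) *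
      S.p (if S.t' ∈ Q.O then b.b j else S.t ^ b.a j * b.b j) =
      ∑ j, S.p' (c j) * S.p (b.b j) := by
    refine Finset.sum_congr rfl fun j _ => ?_
    by_cases hQ : S.t' ∈ Q.O
    · rw [if_pos hQ, if_pos hQ]
    · rw [if_neg hQ, if_neg hQ, map_mul, map_mul, map_zpow₀, map_zpow₀, S.comm, zpow_neg]
      have : S.p S.t ^ b.a j ≠ 0 := zpow_ne_zero _ ((map_ne_zero S.p).2 ht)
      field_simp
  have h := S.tn b Q (fun j => if S.t' ∈ Q.O then c j else c j * S.t' ^ (- b.a j)) (- M Q) ?_ i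
  · rw [Finsupp.add_apply, Finsupp.smul_apply, dinf_apply, smul_eq_mul]
    by_cases hQ : S.t' ∈ Q.O
    · simp only [if_pos hQ] at h
      rw [max_eq_right (by have := Q.mem_iff.1 hQ; omega)]
      have := h.resolve_left hc
      linarith
    · simp only [if_neg hQ] at h
      have h1 := h.resolve_left (mul_ne_zero hc (zpow_ne_zero _ ht'))
      rw [Q.ord_mul hc (zpow_ne_zero _ ht'), Q.ord_zpow] at h1
      rw [max_eq_left (by have := mt Q.mem_iff.2 hQ; omega)]
      linarith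
  · rw [hs]
    refine hx.imp id fun h R hR => ?_
    have h1 := h R
    rw [Finsupp.add_apply, S.q'.pull_apply, hR] at h1
    linarith

/-- sections on the fibre product -/
theorem hf {M : Dv κ F'} {N : Dv κ E} (hM : ell (M - dinf κ S.t') = 0) (hN : deg N < rk κ S.t)
    {x : F} (hx : x ∈ LL (S.q'.pull M + S.q.pull N)) : ∃ G ∈ LT2 M N, S.rho G = x := by
  obtain ⟨b⟩ := exists_RB S.nc N
  obtain ⟨c, rfl⟩ := S.exists_coord b.indep x
  refine ⟨∑ i, c i ⊗ₜ[κ] b.b i, Submodule.sum_mem _ fun i _ => ?_, ?_⟩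
  · have hb := K3_b_mem S.nc b i
    have hc := S.K3_c_mem b hx i
    rcases lt_trichotomy (b.a i) 0 with ha | ha | ha
    · have hle : M + b.a i • dinf κ S.t' ≤ M - dinf κ S.t' := by
        intro Q
        rw [Finsupp.add_apply, Finsupp.sub_apply, Finsupp.smul_apply, dinf_apply, smul_eq_mul]
        have h1 : 0 ≤ max (- Q.ord S.t') 0 := le_max_right _ _
        nlinarith
      have h2 := LL_mono hle hc
      rw [ell_eq_zero_iff.1 hM, Submodule.mem_bot] at h2
      rw [h2, TensorProduct.zero_tmul]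
      exact Submodule.zero_mem _
    · rw [ha, zero_smul, sub_zero] at hb
      rw [ha, zero_smul, add_zero] at hc
      exact K3_tmul_mem_LT2 hc hb
    · exfalso
      have h1 : deg (N - b.a i • dinf κ S.t) < 0 := by
        rw [deg_sub, deg_zsmul, deg_dinf_rk S.nc]
        have h2 : (0 : ℤ) ≤ rk κ S.t := Int.natCast_nonneg _
        nlinarith
      rw [LL_eq_bot h1, Submodule.mem_bot] at hb
      exact b.indep.ne_zero i hb
  · rw [map_sum]
    simp only [S.rho_tmul]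

theorem ell_hf {M : Dv κ F'} {N : Dv κ E} (hM : ell (M - dinf κ S.t') = 0) (hN : deg N < rk κ S.t) :
    ell (S.q'.pull M + S.q.pull N) = ell M * ell N := by
  let ψ : LL M ⊗[κ] LL N →ₗ[κ] F := S.rho.toLinearMap ∘ₗ TensorProduct.mapIncl (LL M) (LL N)
  have hr : LinearMap.range (TensorProduct.mapIncl (LL M) (LL N)) = LT2 M N :=
    TensorProduct.range_mapIncl _ _
  have hinj : Function.Injective ψ := by
    rw [injective_iff_map_eq_zero]
    intro z hz
    have h1 : TensorProduct.mapIncl (LL M) (LL N) z ∈ LT2 M N := hr ▸ LinearMap.mem_range_self _ z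
    have h2 : TensorProduct.mapIncl (LL M) (LL N) z = 0 := by
      by_contra h3
      exact S.rho_ne_zero hN (LT2_le_LT h1) h3 hz
    exact (injective_iff_map_eq_zero _).1
      (Module.Flat.tensorProduct_mapIncl_injective_of_right (LL M) (LL N)) z h2
  have hrange : LinearMap.range ψ = LL (S.q'.pull M + S.q.pull N) := by
    rw [LinearMap.range_comp, hr]
    refine le_antisymm ?_ fun x hx => ?_
    · rintro _ ⟨G, hG, rfl⟩
      exact S.rho_mem_LL hG
    · obtain ⟨G, hG, rfl⟩ := S.hf hM hN hx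
      exact ⟨G, hG, rfl⟩
  rw [ell, ← hrange, LinearMap.finrank_range_of_inj hinj, Module.finrank_tensorProduct]
  rfl

end Sq

end Pool.Agent.E6b
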