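import Pool.Agent.E6b.F4

open scoped NNReal TensorProduct IntermediateField BigOperators Classical Topology
open Filter

namespace Pool.Agent.E6b

section
variable {κ F : Type} [Field κ] [IsAlgClosed κ] [CharZero κ] [Field F] [Algebra κ F] [IsFF κ F]

/-- functions regular outside `o` -/
def AA (o : Place κ F) : Subalgebra κ F where
  carrier := {f | ∀ P : Place κ F, P ≠ o → f ∈ P.O}
  mul_mem' := fun ha hb P hP => P.O.mul_mem _ _ (ha P hP) (hb P hP)
  add_mem' := fun ha hb P hP => P.O.add_mem _ _ (ha P hP) (hb P hP)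
  algebraMap_mem' := fun c P _ => P.const c

/-- the valuation ring of a place as a subalgebra -/
def Place.OA (P : Place κ F) : Subalgebra κ F where
  carrier := {f | f ∈ P.O}
  mul_mem' := fun ha hb => P.O.mul_mem _ _ ha hb
  add_mem' := fun ha hb => P.O.add_mem _ _ ha hb
  algebraMap_mem' := fun c => P.const c

/-- evaluation at a place as an algebra homomorphism -/
noncomputable def Place.evH (P : Place κ F) : P.OA →ₐ[κ] κ where
  toFun f := P.ev f
  map_one' := by simpa using P.ev_algebraMap 1
  map_mul' f g := P.ev_mul f.2 g.2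
  map_zero' := by simpa using P.ev_algebraMap 0
  map_add' f g := P.ev_add f.2 g.2
  commutes' c := P.ev_algebraMap c

/-- a basis of `AA o` adapted to the pole order at `o` -/
structure EBSpec (o : Place κ F) (b : Module.Basis ℕ κ (AA o)) (p : ℕ → ℕ) : Prop where
  zero : b 0 = 1
  ord : ∀ i, o.ord (b i : F) = - (p i : ℤ)
  mono : StrictMono p
  large : ∀ i, genus κ F ≤ i → p i = i + genus κ F
  per : ∀ i, genus κ F ≤ i → b (i + (2 * genus κ F + 1)) = b i * b (genus κ F + 1)

/-- `a ⊗ 1 - 1 ⊗ a` -/
noncomputable def dlt {B : Type} [CommRing B] [Algebra κ B] (a : B) : B ⊗[κ] B :=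
  a ⊗ₜ[κ] 1 - 1 ⊗ₜ[κ] a

end

end Pool.Agent.E6b
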