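import Pool.Agent.E6b.K3
import Pool.Agent.E6b.ODefs0

open scoped NNReal TensorProduct IntermediateField BigOperators Classical Topology
open Filter

namespace Pool.Agent.E6b

section
variable {κ F' E : Type} [Field κ] [Field F'] [Algebra κ F'] [Field E] [Algebra κ E]

/-- contraction with a functional -/
noncomputable def K4_ctr (F' : Type) [Field F'] [Algebra κ F'] (φ : E →ₗ[κ] κ) :
    F' ⊗[κ] E →ₗ[κ] F' := (TensorProduct.rid κ F').toLinearMap ∘ₗ φ.lTensor F'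

theorem K4_ctr_tmul (φ : E →ₗ[κ] κ) (c : F') (u : E) : K4_ctr F' φ (c ⊗ₜ[κ] u) = φ u • c := by
  simp [K4_ctr]

theorem K4_coeff {ι : Type} [Fintype ι] {u : ι → E} (hu : LinearIndependent κ u) (i : ι) :
    ∃ φ : E →ₗ[κ] κ, ∀ c : ι → F', K4_ctr F' φ (∑ j, c j ⊗ₜ[κ] u j) = c i := by
  obtain ⟨φ, hφ⟩ := LinearMap.exists_extend (Finsupp.lapply i ∘ₗ hu.repr)
  have h : ∀ j, φ (u j) = if j = i then 1 else 0 := fun j => by
    have h1 := LinearMap.congr_fun hφ ⟨u j, Submodule.subset_span ⟨j, rfl⟩⟩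
    rw [LinearMap.comp_apply, LinearMap.comp_apply, hu.repr_eq_single j _ rfl] at h1
    simpa [Finsupp.single_apply] using h1
  exact ⟨φ, fun c => by simp [map_sum, K4_ctr_tmul, h]⟩

theorem K4_indep {ι ι' : Type} [Fintype ι] [Fintype ι'] {u : ι → E} (hu : LinearIndependent κ u)
    {u' : ι' → E} {c : ι → F'} {c' : ι' → F'} (h : ∑ j, c j ⊗ₜ[κ] u j = ∑ j, c' j ⊗ₜ[κ] u' j)
    {W : Submodule κ F'} (hW : ∀ j, c' j ∈ W) (i : ι) : c i ∈ W := by
  obtain ⟨φ, hφ⟩ := K4_coeff (F' := F') hu i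
  rw [← hφ c, h, map_sum]
  exact W.sum_mem fun j _ => by rw [K4_ctr_tmul]; exact W.smul_mem _ (hW j)

theorem K4_rep (G : F' ⊗[κ] E) : ∃ (ι : Type) (_ : Fintype ι) (u : ι → E) (c : ι → F'),
    LinearIndependent κ u ∧ (∀ i, c i ≠ 0) ∧ G = ∑ i, c i ⊗ₜ[κ] u i := by
  let b := Module.Basis.ofVectorSpace κ E
  let B := Algebra.TensorProduct.basis F' b
  refine ⟨(B.repr G).support, inferInstance, fun i => b i, fun i => B.repr G i,
    b.linearIndependent.comp _ Subtype.val_injective, fun i => Finsupp.mem_support_iff.1 i.2, ?_⟩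
  rw [Finset.sum_coe_sort (B.repr G).support fun i => B.repr G i ⊗ₜ[κ] b i]
  conv_lhs => rw [← B.linearCombination_repr G, Finsupp.linearCombination_apply, Finsupp.sum]
  refine Finset.sum_congr rfl fun i _ => ?_
  rw [Algebra.TensorProduct.basis_apply, TensorProduct.smul_tmul', smul_eq_mul, mul_one]

theorem K4_smul_sum {ι : Type} [Fintype ι] (a : F') (c : ι → F') (u : ι → E) :
    a • ∑ i, c i ⊗ₜ[κ] u i = ∑ i, (a * c i) ⊗ₜ[κ] u i := by
  rw [Finset.smul_sum]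
  exact Finset.sum_congr rfl fun i _ => by rw [TensorProduct.smul_tmul', smul_eq_mul]

end

variable {κ F F' E : Type} [Field κ] [IsAlgClosed κ] [CharZero κ] [Field F] [Algebra κ F] [IsFF κ F]
  [Field F'] [Algebra κ F'] [IsFF κ F'] [Field E] [Algebra κ E] [IsFF κ E]

/-- integral tensors -/
noncomputable def K4_inc (Q : Place κ F') : Q.OA ⊗[κ] E →ₐ[κ] F' ⊗[κ] E :=
  Algebra.TensorProduct.map Q.OA.val (AlgHom.id κ E)

/-- reduction of integral tensors -/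
noncomputable def K4_red (Q : Place κ F') : Q.OA ⊗[κ] E →ₐ[κ] E :=
  Algebra.TensorProduct.lift ((Algebra.ofId κ E).comp Q.evH) (AlgHom.id κ E)
    fun _ _ => Commute.all _ _

omit [IsFF κ E] in
theorem K4_inc_tmul (Q : Place κ F') (c : Q.OA) (u : E) :
    K4_inc Q (c ⊗ₜ[κ] u) = (c : F') ⊗ₜ[κ] u := rfl

omit [IsFF κ E] in
theorem K4_red_tmul (Q : Place κ F') (c : Q.OA) (u : E) :
    K4_red Q (c ⊗ₜ[κ] u) = Q.ev c • u := by
  rw [K4_red, Algebra.TensorProduct.lift_tmul, Algebra.smul_def]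
  rfl

omit [IsFF κ E] in
theorem K4_inc_inj (Q : Place κ F') : Function.Injective (K4_inc (E := E) Q) :=
  Module.Flat.rTensor_preserves_injective_linearMap (M := E) Q.OA.val.toLinearMap
    Subtype.val_injective

/-- `a G` is primitive at `Q` for an element `a` of order `k` -/
def K4_Prim (Q : Place κ F') (k : ℤ) (G : F' ⊗[κ] E) : Prop :=
  ∃ a : F', a ≠ 0 ∧ Q.ord a = k ∧ ∃ G₀, K4_inc Q G₀ = a • G ∧ K4_red Q G₀ ≠ 0

omit [IsFF κ E] in
theorem K4_Prim.ne_zero {Q : Place κ F'} {k : ℤ} {G : F' ⊗[κ] E} (h : K4_Prim Q k G) : G ≠ 0 := by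
  rintro rfl
  obtain ⟨a, -, -, G₀, h1, h2⟩ := h
  rw [smul_zero, map_eq_zero_iff _ (K4_inc_inj Q)] at h1
  exact h2 (by rw [h1, map_zero])

omit [IsFF κ E] in
theorem K4_Prim.mul {Q : Place κ F'} {k l : ℤ} {G H : F' ⊗[κ] E} (h : K4_Prim Q k G)
    (h' : K4_Prim Q l H) : K4_Prim Q (k + l) (G * H) := by
  obtain ⟨a, a0, a1, G₀, h1, h2⟩ := h
  obtain ⟨b, b0, b1, H₀, h3, h4⟩ := h'
  refine ⟨a * b, mul_ne_zero a0 b0, by rw [Q.ord_mul a0 b0, a1, b1], G₀ * H₀, ?_, ?_⟩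
  · rw [map_mul, h1, h3, smul_mul_smul_comm]
  · rw [map_mul]
    exact mul_ne_zero h2 h4

omit [IsFF κ E] in
theorem K4_exists_prim (Q : Place κ F') {G : F' ⊗[κ] E} (h : G ≠ 0) : ∃ k, K4_Prim Q k G := by
  obtain ⟨ι, _, u, c, hu, hc, rfl⟩ := K4_rep G
  obtain ⟨i, -, hi⟩ := Finset.exists_min_image Finset.univ (fun i => Q.ord (c i))
    (Finset.nonempty_of_sum_ne_zero h)
  have h1 : ∀ j, (c i)⁻¹ * c j ∈ Q.OA := fun j => Q.mem_iff.2 (by
    have := hi j (Finset.mem_univ j)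
    rw [Q.ord_mul (inv_ne_zero (hc i)) (hc j), Q.ord_inv]
    omega)
  refine ⟨_, (c i)⁻¹, inv_ne_zero (hc i), rfl, ∑ j, (⟨_, h1 j⟩ : Q.OA) ⊗ₜ[κ] u j, ?_, fun h2 => ?_⟩
  · rw [map_sum, K4_smul_sum]
    rfl
  · simp only [map_sum, K4_red_tmul] at h2
    have h3 := Fintype.linearIndependent_iff.1 hu _ h2 i
    rw [inv_mul_cancel₀ (hc i), ← map_one (algebraMap κ F'), Q.ev_algebraMap] at h3
    exact one_ne_zero h3

omit [IsFF κ E] in
theorem K4_Prim.spec {Q : Place κ F'} {k : ℤ} {ι : Type} [Fintype ι] {u : ι → E} {c : ι → F'}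
    (hu : LinearIndependent κ u) (hc : ∀ i, c i ≠ 0) (h : K4_Prim Q k (∑ i, c i ⊗ₜ[κ] u i)) :
    (∀ i, - k ≤ Q.ord (c i)) ∧ ∃ i, Q.ord (c i) = - k := by
  obtain ⟨a, a0, a1, G₀, h1, h2⟩ := h
  rw [K4_smul_sum] at h1
  have h3 : ∀ i, a * c i ∈ Q.OA := fun i => by
    obtain ⟨φ, hφ⟩ := K4_coeff (F' := F') hu i
    rw [← hφ fun j => a * c j, ← h1]
    clear h1 h2
    induction G₀ using TensorProduct.induction_on with
    | zero => rw [map_zero, map_zero]; exact zero_mem _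
    | add x y hx hy => rw [map_add, map_add]; exact add_mem hx hy
    | tmul x y => rw [K4_inc_tmul, K4_ctr_tmul]; exact Q.OA.smul_mem x.2 _
  have h4 : ∀ i, Q.ord (a * c i) = k + Q.ord (c i) := fun i => by rw [Q.ord_mul a0 (hc i), a1]
  have h5 : ∀ i, 0 ≤ k + Q.ord (c i) := fun i => h4 i ▸ Q.mem_iff.1 (h3 i)
  refine ⟨fun i => by have := h5 i; omega, ?_⟩
  have h6 : G₀ = ∑ j, (⟨_, h3 j⟩ : Q.OA) ⊗ₜ[κ] u j := K4_inc_inj Q (by rw [h1, map_sum]; rfl)
  by_contra h7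
  refine h2 ?_
  rw [h6, map_sum]
  refine Finset.sum_eq_zero fun j _ => ?_
  rw [K4_red_tmul, (Q.ev_eq_zero_iff (h3 j)).2 (Or.inr ?_), zero_smul]
  have h8 := h5 j
  have h9 : Q.ord (c j) ≠ - k := fun e => h7 ⟨j, e⟩
  rw [h4]
  omega

instance instIsDomainTensor : IsDomain (F' ⊗[κ] E) := by
  obtain ⟨Q⟩ : Nonempty (Place κ F') := inferInstance
  have : NoZeroDivisors (F' ⊗[κ] E) := ⟨fun {G H} h => by
    by_contra hc
    obtain ⟨k, hk⟩ := K4_exists_prim Q fun c : G = 0 => hc (Or.inl c)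
    obtain ⟨l, hl⟩ := K4_exists_prim Q fun c : H = 0 => hc (Or.inr c)
    exact (hk.mul hl).ne_zero h⟩
  exact NoZeroDivisors.to_isDomain _

theorem BPF.sup {M M' : Dv κ F'} (h : BPF M) (h' : BPF M') : BPF (M ⊔ M') := by
  intro P
  rcases le_total (M P) (M' P) with c | c
  · obtain ⟨f, f0, f1, f2⟩ := h' P
    refine ⟨f, f0, fun Q => le_trans ?_ (f1 Q), ?_⟩
    · rw [Finsupp.sup_apply]
      exact neg_le_neg le_sup_right
    · rw [Finsupp.sup_apply, sup_eq_right.2 c, f2]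
  · obtain ⟨f, f0, f1, f2⟩ := h P
    refine ⟨f, f0, fun Q => le_trans ?_ (f1 Q), ?_⟩
    · rw [Finsupp.sup_apply]
      exact neg_le_neg le_sup_left
    · rw [Finsupp.sup_apply, sup_eq_left.2 c, f2]

theorem BPF.deg_nonneg {M : Dv κ F'} (h : BPF M) : 0 ≤ deg M := by
  obtain ⟨P⟩ : Nonempty (Place κ F') := inferInstance
  obtain ⟨f, f0, f1, -⟩ := h P
  by_contra hc
  have h1 : f ∈ LL M := mem_LL.2 (Or.inr f1)
  rw [LL_eq_bot (not_le.1 hc), Submodule.mem_bot] at h1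
  exact f0 h1

theorem K4_mem_iff {ι : Type} [Fintype ι] {u : ι → E} {c : ι → F'} (hu : LinearIndependent κ u)
    (M : Dv κ F') (N : Dv κ E) : ∑ i, c i ⊗ₜ[κ] u i ∈ LT2 M N ↔
      ∑ i, c i ⊗ₜ[κ] u i ∈ LT F' N ∧ ∀ i, c i ∈ LL M := by
  obtain ⟨v, hv, hv'⟩ := exists_basis_LL N
  constructor
  · intro h
    obtain ⟨c', h1, h2⟩ := (mem_LT2_iff hv').1 h
    exact ⟨LT2_le_LT h, K4_indep hu h2 h1⟩
  · rintro ⟨h, h1⟩
    obtain ⟨c', h2⟩ := (mem_LT_iff hv').1 h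
    exact (mem_LT2_iff hv').2 ⟨c', K4_indep hv h2.symm h1, h2⟩

theorem exists_cont (G : F' ⊗[κ] E) : ∃ C : Dv κ F', G ≠ 0 → BPF C ∧
    ∀ (M : Dv κ F') (N : Dv κ E), G ∈ LT2 M N ↔ G ∈ LT F' N ∧ C ≤ M := by
  by_cases h : G = 0
  · exact ⟨0, fun h' => absurd h h'⟩
  obtain ⟨ι, _, u, c, hu, hc, rfl⟩ := K4_rep G
  have hne := Finset.nonempty_of_sum_ne_zero h
  refine ⟨Finset.univ.sup' hne fun i => - dv κ (c i), fun _ => ⟨?_, fun M N => ?_⟩⟩
  · refine Finset.sup'_induction hne _ (p := BPF) (fun _ h1 _ h2 => h1.sup h2) fun i _ P => ?_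
    exact ⟨c i, hc i, fun Q => by simp [dv_apply], by simp [dv_apply]⟩
  · rw [K4_mem_iff hu, Finset.sup'_le_iff]
    refine and_congr_right fun _ => forall_congr' fun i => ?_
    rw [mem_LL_iff (hc i), neg_le_iff_add_nonneg]
    simp

/-- the smallest divisor bounding the coefficients -/
noncomputable def cont (G : F' ⊗[κ] E) : Dv κ F' := (exists_cont G).choose

theorem bpf_cont {G : F' ⊗[κ] E} (h : G ≠ 0) : BPF (cont G) := ((exists_cont G).choose_spec h).1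

theorem mem_LT2_iff_cont {G : F' ⊗[κ] E} (h : G ≠ 0) (M : Dv κ F') (N : Dv κ E) :
    G ∈ LT2 M N ↔ G ∈ LT F' N ∧ cont G ≤ M := ((exists_cont G).choose_spec h).2 M N

theorem K4_cont_le {ι : Type} [Fintype ι] {u : ι → E} {c : ι → F'} (hu : LinearIndependent κ u)
    (h : ∑ i, c i ⊗ₜ[κ] u i ≠ 0) (M : Dv κ F') :
    cont (∑ i, c i ⊗ₜ[κ] u i) ≤ M ↔ ∀ i, c i ∈ LL M := by
  have h1 : ∑ i, c i ⊗ₜ[κ] u i ∈ LT F' (Finset.univ.sup' (Finset.nonempty_of_sum_ne_zero h)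
      fun i => dinf κ (u i)) :=
    Submodule.sum_mem _ fun i hi => Submodule.tmul_mem_baseChange_of_mem _
      (LL_mono (Finset.le_sup' (fun i => dinf κ (u i)) hi) (mem_LL_dinf (u i)))
  exact ⟨fun h2 => ((K4_mem_iff hu M _).1 ((mem_LT2_iff_cont h M _).2 ⟨h1, h2⟩)).2,
    fun h2 => ((mem_LT2_iff_cont h M _).1 ((K4_mem_iff hu M _).2 ⟨h1, h2⟩)).2⟩

theorem K4_Prim.cont_eq {Q : Place κ F'} {k : ℤ} {G : F' ⊗[κ] E} (h : K4_Prim Q k G) :
    cont G Q = k := by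
  have h0 := h.ne_zero
  obtain ⟨ι, _, u, c, hu, hc, rfl⟩ := K4_rep G
  obtain ⟨h1, i, hi⟩ := h.spec hu hc
  have h2 := fun j => (mem_LL.1 ((K4_cont_le hu h0 _).1 le_rfl j)).resolve_left (hc j)
  refine le_antisymm ?_ (by have := h2 i Q; omega)
  have h3 := (K4_cont_le hu h0 ((cont (∑ i, c i ⊗ₜ[κ] u i)).update Q k)).2
    (fun j => mem_LL.2 (Or.inr fun P => by
      by_cases hP : P = Q
      · rw [hP, Finsupp.coe_update, Function.update_self]
        exact h1 j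
      · rw [Finsupp.coe_update, Function.update_of_ne hP]
        exact h2 j P)) Q
  rwa [Finsupp.coe_update, Function.update_self] at h3

/-- Gauss lemma -/
theorem cont_mul {G H : F' ⊗[κ] E} (hG : G ≠ 0) (hH : H ≠ 0) : cont (G * H) = cont G + cont H := by
  ext Q
  obtain ⟨k, hk⟩ := K4_exists_prim Q hG
  obtain ⟨l, hl⟩ := K4_exists_prim Q hH
  rw [Finsupp.add_apply, (hk.mul hl).cont_eq, hk.cont_eq, hl.cont_eq]

omit [IsAlgClosed κ] [CharZero κ] [IsFF κ E] in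
theorem K4_le_deg {D : Dv κ E} (h : 0 ≤ D) (P : Place κ E) : D P ≤ deg D := by
  rw [← deg_single P (D P)]
  refine deg_mono fun Q => ?_
  rw [Finsupp.single_apply]
  split_ifs with c
  · rw [c]
  · exact h Q

/-- zeros of a section in a fibre -/
theorem Sq.fib_bound (S : Sq κ F' E F) {M : Dv κ F'} {N : Dv κ E} {G : F' ⊗[κ] E}
    (h : G ∈ LT2 M N) (h0 : S.rho G ≠ 0) {α : ℕ} (hN : deg N ≤ α) (Q : Place κ F') :
    G ∈ LT2 (M - pd Q) N ∨
      (((S.q'.fib Q).filter fun R => 0 < S.Z M N G R).card ≤ α ∧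
        ∀ R ∈ S.q'.fib Q, α < S.q'.e R → S.Z M N G R ≤ α) := by
  obtain ⟨u, hu, hu'⟩ := exists_basis_LL N
  obtain ⟨c, hc, rfl⟩ := (mem_LT2_iff hu').1 h
  obtain ⟨π, π0, hπ⟩ := Q.exists_ord_eq (M Q)
  have u1 : ∀ i, u i ∈ LL N := fun i => hu' ▸ Submodule.subset_span ⟨i, rfl⟩
  have c1 : ∀ i, π * c i ∈ Q.O := fun i => by
    by_cases c0 : c i = 0
    · rw [c0, mul_zero]
      exact zero_mem _
    · have := (mem_LL.1 (hc i)).resolve_left c0 Q
      rw [Q.mem_iff, Q.ord_mul π0 c0]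
      omega
  obtain ⟨g, hg⟩ : ∃ g, g = ∑ i, Q.ev (π * c i) • u i := ⟨_, rfl⟩
  by_cases g0 : g = 0
  · refine Or.inl ((mem_LT2_iff hu').2 ⟨c, fun i => ?_, rfl⟩)
    by_cases c0 : c i = 0
    · exact mem_LL.2 (Or.inl c0)
    refine mem_LL.2 (Or.inr fun P => ?_)
    have h1 := (mem_LL.1 (hc i)).resolve_left c0 P
    rw [Finsupp.sub_apply, F1_pd_apply]
    split_ifs with hP
    · have h2 := ((Q.ev_eq_zero_iff (c1 i)).1 (Fintype.linearIndependent_iff.1 hu _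
        (hg.symm.trans g0) i)).resolve_left (mul_ne_zero π0 c0)
      rw [Q.ord_mul π0 c0] at h2
      subst hP
      omega
    · omega
  have g1 : 0 ≤ N + dv κ g :=
    (mem_LL_iff g0).1 (hg ▸ Submodule.sum_mem _ fun i _ => Submodule.smul_mem _ _ (u1 i))
  have g2 : deg (N + dv κ g) ≤ α := by rwa [deg_add, deg_dv, add_zero]
  have key : ∀ R, S.q'.res R = Q → S.q.e R * (N + dv κ g) (S.q.res R) < S.q'.e R →
      S.Z M N (∑ i, c i ⊗ₜ[κ] u i) R = S.q.e R * (N + dv κ g) (S.q.res R) := by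
    intro R hR hlt
    have e1 : S.p' π * S.rho (∑ i, c i ⊗ₜ[κ] u i) = S.p g +
        ∑ i, S.p' (π * c i - algebraMap κ F' (Q.ev (π * c i))) * S.p (u i) := by
      rw [hg, map_sum, map_sum, Finset.mul_sum, ← Finset.sum_add_distrib]
      refine Finset.sum_congr rfl fun i _ => ?_
      rw [S.rho_tmul, map_smul, map_sub, map_mul, AlgHom.commutes, Algebra.smul_def]
      ring
    have o' : ∀ x, R.ord (S.p' x) = S.q'.e R * Q.ord x := fun x => hR ▸ S.q'.ord_map R x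
    have o : ∀ x, R.ord (S.p x) = S.q.e R * (S.q.res R).ord x := fun x => S.q.ord_map R x
    have e2 := R.le_ord_sum Finset.univ
      (fun i => S.p' (π * c i - algebraMap κ F' (Q.ev (π * c i))) * S.p (u i))
      (n := S.q'.e R - S.q.e R * N (S.q.res R)) fun i _ => by
        rcases Q.ev_spec (c1 i) with h1 | h1
        · exact Or.inl (by rw [sub_eq_zero.2 h1, map_zero, zero_mul])
        have h2 := (mem_LL.1 (u1 i)).resolve_left (hu.ne_zero i) (S.q.res R)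
        have h3 := mul_le_mul_of_nonneg_left h2 (S.q.F4_e_pos R).le
        have h4 := mul_le_mul_of_nonneg_left (Int.add_one_le_of_lt h1) (S.q'.F4_e_pos R).le
        right
        rw [R.ord_mul ((map_ne_zero _).2 (F1a_ne_zero_of_ord Q h1.ne'))
          ((map_ne_zero _).2 (hu.ne_zero i)), o', o]
        linarith
    rw [Finsupp.add_apply, dv_apply] at hlt ⊢
    have e3 := (R.ord_add_eq ((map_ne_zero S.p).2 g0) (e2.imp_right fun h1 =>
      lt_of_lt_of_le (by rw [o]; linarith) h1)).2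
    rw [← e1, R.ord_mul ((map_ne_zero _).2 π0) h0, o', o, hπ] at e3
    rw [Sq.Z, Finsupp.add_apply, Finsupp.add_apply, FHom.pull_apply, FHom.pull_apply, dv_apply, hR]
    linarith
  refine Or.inr ⟨?_, fun R hR hα => ?_⟩
  · have h1 : ((S.q'.fib Q).filter fun R => 0 < S.Z M N (∑ i, c i ⊗ₜ[κ] u i) R).card ≤
        (N + dv κ g).support.card := by
      refine Finset.card_le_card_of_injOn S.q.res (fun R hR => ?_) fun R hR R' hR' e => ?_
      · obtain ⟨h2, h3⟩ := Finset.mem_filter.1 (Finset.mem_coe.1 hR)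
        refine Finset.mem_coe.2 (Finsupp.mem_support_iff.2 fun h4 => ?_)
        rw [key R (S.q'.mem_fib.1 h2) (by rw [h4, mul_zero]; exact S.q'.F4_e_pos R), h4,
          mul_zero] at h3
        exact lt_irrefl _ h3
      · exact S.place_ext ((S.q'.mem_fib.1 (Finset.mem_filter.1 (Finset.mem_coe.1 hR)).1).trans
          (S.q'.mem_fib.1 (Finset.mem_filter.1 (Finset.mem_coe.1 hR')).1).symm) e
    have h2 := card_support_le_deg g1
    omega
  · have h1 := (K4_le_deg g1 (S.q.res R)).trans g2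
    have h2 : S.q.e R * (N + dv κ g) (S.q.res R) ≤ α := by
      rcases S.e_one R with h3 | h3
      · have h4 : (0 : ℤ) ≤ (N + dv κ g) (S.q.res R) := g1 _
        have h5 : (N + dv κ g) (S.q.res R) = 0 := by omega
        rw [h5, mul_zero]
        exact Nat.cast_nonneg α
      · rwa [h3, Nat.cast_one, one_mul]
    rw [key R (S.q'.mem_fib.1 hR) (by omega)]
    exact h2

theorem Sq.Z_pos (S : Sq κ F' E F) {M : Dv κ F'} {N : Dv κ E} {G : F' ⊗[κ] E} {Q : Place κ F'}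
    (h : G ∈ LT2 (M - pd Q) N) (h0 : S.rho G ≠ 0) {R : Place κ F} (hR : S.q'.res R = Q) :
    0 < S.Z M N G R := by
  have h1 : (0 : ℤ) ≤ S.Z (M - pd Q) N G R := S.Z_nonneg h h0 R
  have h2 := S.q'.F4_e_pos R
  rw [Sq.Z, Finsupp.add_apply, Finsupp.add_apply, FHom.pull_apply, hR] at h1 ⊢
  rw [Finsupp.sub_apply, F1_pd_apply, if_pos rfl] at h1
  linarith

end Pool.Agent.E6b
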