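import Pool.Agent.E6b.K4

open scoped NNReal TensorProduct IntermediateField BigOperators Classical Topology
open Filter

namespace Pool.Agent.E6b

variable {κ F F' E : Type} [Field κ] [IsAlgClosed κ] [CharZero κ] [Field F] [Algebra κ F] [IsFF κ F]
  [Field F'] [Algebra κ F'] [IsFF κ F'] [Field E] [Algebra κ E] [IsFF κ E]

theorem K5_one_mem : (1 : F) ∈ LL (0 : Dv κ F) :=
  mem_LL.2 (Or.inr fun P => by rw [Place.ord_one]; simp)

theorem K5_prod_mem {ι : Type} (s : Finset ι) (f : ι → F) (D : ι → Dv κ F)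
    (h : ∀ i ∈ s, f i ∈ LL (D i)) : ∏ i ∈ s, f i ∈ LL (∑ i ∈ s, D i) := by
  induction s using Finset.induction_on with
  | empty => simpa using K5_one_mem
  | insert a s ha ih =>
    rw [Finset.prod_insert ha, Finset.sum_insert ha]
    exact mul_mem_LL (h a (Finset.mem_insert_self _ _))
      (ih fun i hi => h i (Finset.mem_insert_of_mem hi))

theorem K5_det_mem {m : Type} [Fintype m] (A : Matrix m m F) (D : m → Dv κ F)
    (h : ∀ i j, A i j ∈ LL (D j)) : A.det ∈ LL (∑ j, D j) := by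
  rw [Matrix.det_apply']
  refine Submodule.sum_mem _ fun σ _ => ?_
  have h1 := K5_prod_mem Finset.univ (fun j => A (σ j) j) D fun j _ => h _ _
  rcases Int.units_eq_one_or (Equiv.Perm.sign σ) with e | e
  · simpa [e] using h1
  · simpa [e] using Submodule.neg_mem _ h1

/-- Cramer's rule with bounds on the poles -/
theorem K5_cramer {J m : Type} [Fintype J] [Fintype m] (v : J → m → F) (D : J → Dv κ F)
    (hD : ∀ j i, v j i ∈ LL (D j)) :
    ∃ T : Dv κ F, (∀ X : Dv κ F, 0 ≤ X → (∀ j, D j ≤ X) → T ≤ Fintype.card m • X) ∧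
      (∀ b : ℕ, (∀ j, deg (D j) ≤ b) → deg T ≤ Fintype.card m * b) ∧
      ∃ δ : F, δ ≠ 0 ∧ δ ∈ LL T ∧ ∀ y ∈ Submodule.span F (Set.range v), ∀ D₀ : Dv κ F,
        (∀ i, y i ∈ LL D₀) → ∃ w : J → F, ∑ j, w j • v j = δ • y ∧
          ∀ j, w j ∈ LL (D₀ + T - D j) := by
  let v' : J ⊕ m → m → F := Sum.elim v fun i => Pi.single i 1
  let D' : J ⊕ m → Dv κ F := Sum.elim D fun _ => 0
  have hD' : ∀ x i, v' x i ∈ LL (D' x) := by
    rintro (j | k) i
    · exact hD j i
    · change (Pi.single k (1 : F) : m → F) i ∈ LL 0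
      rw [Pi.single_apply]
      split_ifs
      · exact K5_one_mem
      · exact Submodule.zero_mem _
  obtain ⟨s, hs, -, hsp, hsi⟩ := exists_linearIndepOn_extension (K := F) (v := v') (s := ∅)
    (t := Set.range Sum.inl) (linearIndepOn_empty _ _) (Set.empty_subset _)
  obtain ⟨b, -, hsb, hbp, hbi⟩ := exists_linearIndepOn_extension (t := Set.univ) hsi
    (Set.subset_univ _)
  have htop : ⊤ ≤ Submodule.span F (Set.range fun x : b => v' x) := by
    rw [← (Pi.basisFun F m).span_eq, Submodule.span_le]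
    rintro _ ⟨i, rfl⟩
    have h1 := hbp ⟨Sum.inr i, Set.mem_univ _, rfl⟩
    rw [Set.image_eq_range] at h1
    simpa [v'] using h1
  have hcard : Fintype.card m = Fintype.card b := by
    rw [← Module.finrank_eq_card_basis (Module.Basis.mk hbi htop),
      Module.finrank_fintype_fun_eq_card]
  let e : m ≃ b := Fintype.equivOfCardEq hcard
  let f : m → J ⊕ m := fun k => (e k).1
  let A : Matrix m m F := Matrix.of fun i k => v' (f k) i
  have hA : A.det ≠ 0 := by
    have h1 : LinearIndependent F A.col := hbi.comp e e.injective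
    exact ((Matrix.isUnit_iff_isUnit_det A).1
      (Matrix.linearIndependent_cols_iff_isUnit.1 h1)).ne_zero
  refine ⟨∑ k, D' (f k), fun X h0 hX => ?_, fun c hc => ?_, A.det, hA,
    K5_det_mem A _ fun i k => hD' _ _, fun y hy D₀ hy0 => ?_⟩
  · rw [← Finset.card_univ]
    refine Finset.sum_le_card_nsmul _ _ _ fun k _ => ?_
    rcases f k with j | i
    · exact hX j
    · exact h0
  · rw [deg_sum, ← Finset.card_univ, ← nsmul_eq_mul]
    refine Finset.sum_le_card_nsmul _ _ _ fun k _ => ?_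
    rcases f k with j | i
    · exact hc j
    · change deg (0 : Dv κ F) ≤ _
      rw [deg_zero]; positivity
  · have h1 : y ∈ Submodule.span F (v' '' s) := by
      refine Submodule.span_le.2 ?_ hy
      rintro _ ⟨j, rfl⟩
      exact hsp ⟨Sum.inl j, ⟨j, rfl⟩, rfl⟩
    have h2 : ∀ k i, f k = Sum.inr i → A.cramer y k = 0 := by
      intro k i hk
      clear hy hy0
      induction h1 using Submodule.span_induction with
      | mem x hx =>
        obtain ⟨x, hx, rfl⟩ := hx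
        have h3 : f (e.symm ⟨x, hsb hx⟩) = x := by simp [f]
        rw [Matrix.cramer_row_self A (v' x) (e.symm ⟨x, hsb hx⟩) fun j => by simp [A, h3],
          Pi.single_eq_of_ne]
        rintro rfl
        obtain ⟨j, hj⟩ := hs hx
        rw [h3, ← hj] at hk
        cases hk
      | zero => simp
      | add x x' _ _ h h' => rw [map_add, Pi.add_apply, h, h', add_zero]
      | smul c x _ h => rw [map_smul, Pi.smul_apply, h, smul_zero]
    refine ⟨fun j => ∑ k, if f k = Sum.inl j then A.cramer y k else 0, ?_, fun j => ?_⟩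
    · rw [← Matrix.mulVec_cramer]
      ext i
      simp only [Finset.sum_apply, Pi.smul_apply, smul_eq_mul, Finset.sum_mul, Matrix.mulVec,
        dotProduct]
      rw [Finset.sum_comm]
      refine Finset.sum_congr rfl fun k _ => ?_
      rcases hk : f k with j | l
      · simp [A, hk, v', mul_comm]
      · simp [h2 k l hk]
    · refine Submodule.sum_mem _ fun k _ => ?_
      split_ifs with hk
      · rw [Matrix.cramer_apply]
        have h3 := K5_det_mem (A.updateCol k y)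
          (fun l => D' (f l) + if l = k then D₀ - D j else 0) fun i l => by
            rw [Matrix.updateCol_apply]
            split_ifs with hl
            · subst hl
              simpa [hk, D'] using hy0 i
            · simpa [A] using hD' (f l) i
        rw [Finset.sum_add_distrib, Finset.sum_ite_eq' Finset.univ k, if_pos (Finset.mem_univ _)]
          at h3
        convert h3 using 2
        abel
      · exact Submodule.zero_mem _

/-- bounded solutions of a linear system -/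
theorem ker_bounded {m n : Type} [Fintype m] [Fintype n] (A : Matrix m n F') {M : Dv κ F'}
    (hM : 0 ≤ M) (hA : ∀ i j, A i j ∈ LL M) {Ω : Type} [Field Ω] [Algebra F' Ω] (v : n → Ω)
    (hv : ∀ i, ∑ j, algebraMap F' Ω (A i j) * v j = 0) {j₀ : n} (h0 : v j₀ ≠ 0) :
    ∃ w : n → F', (∀ i, ∑ j, A i j * w j = 0) ∧ w j₀ ≠ 0 ∧
      ∀ j, w j ∈ LL (Fintype.card m • M) := by
  obtain ⟨φ, hφ⟩ := not_forall.1 (mt (Module.forall_dual_apply_eq_zero_iff F' (v j₀)).1 h0)
  have h1 : ∀ i, ∑ j, A i j * φ (v j) = 0 := fun i => by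
    have h := congrArg φ (hv i)
    rw [map_sum, map_zero] at h
    simpa only [← Algebra.smul_def, map_smul, smul_eq_mul] using h
  let c : n → m → F' := fun j i => if j = j₀ then 0 else A i j
  have hs : ∀ (i : m) (z : n → F'), ∑ j, A i j * z j = A i j₀ * z j₀ + ∑ j, z j * c j i := by
    intro i z
    rw [← Finset.add_sum_erase _ _ (Finset.mem_univ j₀),
      ← Finset.add_sum_erase _ (fun j => z j * c j i) (Finset.mem_univ j₀)]
    simp only [c, if_pos, mul_zero, zero_add]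
    congr 1
    exact Finset.sum_congr rfl fun j hj => by rw [if_neg (Finset.ne_of_mem_erase hj), mul_comm]
  obtain ⟨T, hT, -, δ, hδ, hδT, h⟩ := K5_cramer c (fun _ => M) fun j i => by
    simp only [c]
    split_ifs
    · exact Submodule.zero_mem _
    · exact hA i j
  have hT' := LL_mono (hT M hM fun _ => le_rfl)
  have hy : (fun i => A i j₀) ∈ Submodule.span F' (Set.range c) := by
    have e : (fun i => A i j₀) = ∑ j, (-(φ (v j₀))⁻¹ * φ (v j)) • c j := by
      ext i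
      have h2 := (hs i fun j => φ (v j)).symm.trans (h1 i)
      simp only [Finset.sum_apply, Pi.smul_apply, smul_eq_mul, mul_assoc, ← Finset.mul_sum]
      rw [eq_neg_of_add_eq_zero_right h2]
      field_simp
    rw [e]
    exact Submodule.sum_mem _ fun j _ => Submodule.smul_mem _ _ (Submodule.subset_span ⟨j, rfl⟩)
  obtain ⟨w, hw, hw'⟩ := h _ hy M fun i => hA i j₀
  refine ⟨Function.update w j₀ (-δ), fun i => ?_, by simpa using hδ, fun j => hT' ?_⟩
  · have h2 := congrFun hw i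
    simp only [Finset.sum_apply, Pi.smul_apply, smul_eq_mul] at h2
    have h3 : ∑ j, Function.update w j₀ (-δ) j * c j i = ∑ j, w j * c j i :=
      Finset.sum_congr rfl fun j _ => by
        by_cases hj : j = j₀
        · simp [c, hj]
        · rw [Function.update_of_ne hj]
    rw [hs, h3, h2, Function.update_self]
    ring
  · by_cases hj : j = j₀
    · rw [hj, Function.update_self]
      exact Submodule.neg_mem _ hδT
    · rw [Function.update_of_ne hj]
      simpa using hw' j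

/-- degree of a root -/
theorem deg_dinf_root_le {M : Dv κ F'} {d : ℕ} (π : Fin d → F') (hπ : ∀ k, π k ∈ LL M) (h0 : π ≠ 0)
    {c : F'} (hc : ∑ k, π k * c ^ (k : ℕ) = 0) : deg (dinf κ c) ≤ deg M := by
  obtain ⟨k₁, hk₁⟩ := Function.ne_iff.1 h0
  obtain ⟨k₀, hk₀, hmax⟩ := (Finset.univ.filter fun k => π k ≠ 0).exists_max_image id
    ⟨k₁, Finset.mem_filter.2 ⟨Finset.mem_univ _, hk₁⟩⟩
  have hk : π k₀ ≠ 0 := (Finset.mem_filter.1 hk₀).2
  have h1 : dinf κ c ≤ M + dv κ (π k₀) := by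
    intro P
    have h2 := (mem_LL.1 (hπ k₀)).resolve_left hk P
    rw [dinf_apply, Finsupp.add_apply, dv_apply]
    refine max_le ?_ (by omega)
    by_contra hlt
    have hc0 : c ≠ 0 := F1a_ne_zero_of_ord P (by omega)
    refine (F1_sum_ne_zero P Finset.univ (fun k : Fin d => π k * c ^ (k : ℕ)) (Finset.mem_univ k₀)
      (mul_ne_zero hk (pow_ne_zero _ hc0)) fun k _ hne => ?_).1 hc
    by_cases hz : π k = 0
    · exact Or.inl (by rw [hz, zero_mul])
    · have h3 := (mem_LL.1 (hπ k)).resolve_left hz P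
      have h4 : (k : ℕ) < k₀ :=
        lt_of_le_of_ne (hmax k (Finset.mem_filter.2 ⟨Finset.mem_univ _, hz⟩))
          fun e => hne (Fin.ext e)
      have h5 : ((k : ℕ) : ℤ) + 1 ≤ (k₀ : ℕ) := by exact_mod_cast h4
      right
      rw [P.ord_mul hk (pow_ne_zero _ hc0), P.ord_mul hz (pow_ne_zero _ hc0), P.ord_pow, P.ord_pow]
      nlinarith
  have h2 := deg_mono h1
  rwa [deg_add, deg_dv, add_zero] at h2

theorem K5_tmul_mem {M : Dv κ F'} {N : Dv κ E} {c : F'} {u : E} (hc : c ∈ LL M) (hu : u ∈ LL N) :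
    c ⊗ₜ[κ] u ∈ LT2 M N := Submodule.apply_mem_map₂ (TensorProduct.mk κ F' E) hc hu

omit [IsAlgClosed κ] [CharZero κ] [IsFF κ F'] [IsFF κ E] in
theorem K5_smul_tmul (a c : F') (u : E) : a • (c ⊗ₜ[κ] u) = (a * c) ⊗ₜ[κ] u := rfl

theorem K5_term (S : Sq κ F' E F) {M T : Dv κ F'} {N N' : Dv κ E} {G : F' ⊗[κ] E}
    (h : S.rho G ≠ 0) {w : F'} (hw : w ∈ LL (0 + T - M)) {x : E} (hx : x ∈ LL (N - N'))
    {Z : Dv κ F} (hZ : Z ≤ S.Z M N' G) :
    S.rho (w • ((1 : F') ⊗ₜ[κ] x * G)) ∈ LL (S.q'.pull T + S.q.pull N - Z) := by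
  have h1 : S.p' w ∈ LL (S.q'.pull (0 + T - M)) := S.q'.map_mem_LL.2 hw
  have h2 : S.p x ∈ LL (S.q.pull (N - N')) := S.q.map_mem_LL.2 hx
  have h3 : S.rho G ∈ LL (- dv κ (S.rho G)) := (mem_LL_iff h).2 (by simp)
  rw [S.rho_smul, map_mul, S.rho_tmul, map_one, one_mul]
  refine LL_mono ?_ (mul_mem_LL h1 (mul_mem_LL h2 h3))
  rw [zero_add, FHom.pull_sub, FHom.pull_sub]
  refine le_trans (le_of_eq ?_) (sub_le_sub_left hZ _)
  rw [Sq.Z]
  abel

/-- common zeros of coprime sections lie over the zeros of a resultant -/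
theorem Sq.base_bound (S : Sq κ F' E F) (hg : genus κ E = 1) {M₁ M₂ : Dv κ F'} {N₁ N₂ : Dv κ E}
    {G₁ G₂ : F' ⊗[κ] E} (h₁ : G₁ ∈ LT2 M₁ N₁) (h₂ : G₂ ∈ LT2 M₂ N₂) (h₁' : S.rho G₁ ≠ 0)
    (h₂' : S.rho G₂ ≠ 0) (hc : Cop G₁ G₂ N₁ N₂) {α b : ℕ} (hN₁ : deg N₁ ≤ α) (hN₂ : deg N₂ ≤ α)
    (hM₁ : deg M₁ ≤ b) (hM₂ : deg M₂ ≤ b) :
    ∃ W : Dv κ F', 0 ≤ W ∧ deg W ≤ (2 * α + 2) * b ∧
      S.Z M₁ N₁ G₁ ⊓ S.Z M₂ N₂ G₂ ≤ S.q'.pull W := by
  have d₁ := deg_nonneg_of_mem_LT (LT2_le_LT h₁) fun h => h₁' (by rw [h, map_zero])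
  have d₂ := deg_nonneg_of_mem_LT (LT2_le_LT h₂) fun h => h₂' (by rw [h, map_zero])
  obtain ⟨P₀⟩ : Nonempty (Place κ E) := inferInstance
  obtain ⟨N, hN⟩ : ∃ N : Dv κ E, deg N = deg N₁ + deg N₂ + 2 :=
    ⟨N₁ + N₂ + 2 • pd P₀, by rw [deg_add, deg_add, deg_nsmul, deg_pd]; simp⟩
  have hl := ell_genus_one hg (D := N) (by omega)
  have hb : BPF N := bpf_of_large (by rw [hg]; push_cast; omega)
  obtain ⟨u, hu, hu'⟩ := exists_basis_LL N
  obtain ⟨x₁, -, hx₁⟩ := exists_basis_LL (N - N₁)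
  obtain ⟨x₂, -, hx₂⟩ := exists_basis_LL (N - N₂)
  have m₁ : ∀ a, x₁ a ∈ LL (N - N₁) := fun a => hx₁ ▸ Submodule.subset_span ⟨a, rfl⟩
  have m₂ : ∀ a, x₂ a ∈ LL (N - N₂) := fun a => hx₂ ▸ Submodule.subset_span ⟨a, rfl⟩
  let g : Fin (ell (N - N₁)) ⊕ Fin (ell (N - N₂)) → F' ⊗[κ] E :=
    Sum.elim (fun a => (1 : F') ⊗ₜ[κ] x₁ a * G₁) fun a => (1 : F') ⊗ₜ[κ] x₂ a * G₂
  let D : Fin (ell (N - N₁)) ⊕ Fin (ell (N - N₂)) → Dv κ F' := Sum.elim (fun _ => M₁) fun _ => M₂
  have hgm : ∀ j, g j ∈ LT2 (D j) N := by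
    rintro (a | a)
    · simpa [g, D] using mul_mem_LT2 (K5_tmul_mem K5_one_mem (m₁ a)) h₁
    · simpa [g, D] using mul_mem_LT2 (K5_tmul_mem K5_one_mem (m₂ a)) h₂
  choose v hv hv' using fun j => (mem_LT2_iff hu').1 (hgm j)
  have hlin : ∀ z : Fin (ell (N - N₁)) ⊕ Fin (ell (N - N₂)) → F',
      ∑ j, z j • g j = ∑ i, (∑ j, z j • v j) i ⊗ₜ[κ] u i := fun z => by
    simp only [Finset.sum_apply, Pi.smul_apply, smul_eq_mul, TensorProduct.sum_tmul]
    rw [Finset.sum_comm]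
    refine Finset.sum_congr rfl fun j _ => ?_
    rw [hv' j, Finset.smul_sum]
    rfl
  obtain ⟨T, -, hT, δ, hδ, hδT, h⟩ := K5_cramer v D hv
  refine ⟨T + dv κ δ, (mem_LL_iff hδ).1 hδT, ?_, fun R => ?_⟩
  · have h3 := hT b (by rintro (a | a) <;> assumption)
    rw [Fintype.card_fin, hl] at h3
    rw [deg_add, deg_dv, add_zero]
    refine h3.trans (mul_le_mul_of_nonneg_right (by omega) (by positivity))
  · obtain ⟨u₀, h0, hu₀, hu₀'⟩ := hb (S.q.res R)
    have hm : u₀ ∈ LL N := mem_LL.2 (Or.inr hu₀)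
    obtain ⟨y, hy, hy'⟩ := (mem_LT2_iff hu').1 (K5_tmul_mem (F' := F') K5_one_mem hm)
    obtain ⟨A₁, hA₁, A₂, hA₂, hA⟩ := hc N (by omega) u₀ hm
    obtain ⟨c₁, rfl⟩ := (mem_LT_iff hx₁).1 hA₁
    obtain ⟨c₂, rfl⟩ := (mem_LT_iff hx₂).1 hA₂
    have h3 : ∑ j, Sum.elim c₁ c₂ j • g j = (1 : F') ⊗ₜ[κ] u₀ := by
      rw [← hA, Fintype.sum_sum_type, Finset.sum_mul, Finset.sum_mul]
      simp only [g, Sum.elim_inl, Sum.elim_inr, ← smul_mul_assoc, K5_smul_tmul, mul_one]
    have h4 : y = ∑ j, Sum.elim c₁ c₂ j • v j := by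
      refine sub_eq_zero.1 (eq_zero_of_sum_tmul hu ?_)
      simp only [Pi.sub_apply, TensorProduct.sub_tmul, Finset.sum_sub_distrib]
      rw [← hy', ← hlin, h3, sub_self]
    obtain ⟨w, hw, hw'⟩ := h y (h4 ▸ Submodule.sum_mem _ fun j _ =>
      Submodule.smul_mem _ _ (Submodule.subset_span ⟨j, rfl⟩)) 0 hy
    have h5 : ∑ j, w j • g j = δ ⊗ₜ[κ] u₀ := by
      rw [hlin, hw, ← mul_one δ, ← K5_smul_tmul, hy', Finset.smul_sum, mul_one]
      rfl
    have h6 : S.rho (δ ⊗ₜ[κ] u₀) ∈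
        LL (S.q'.pull T + S.q.pull N - S.Z M₁ N₁ G₁ ⊓ S.Z M₂ N₂ G₂) := by
      rw [← h5, map_sum]
      refine Submodule.sum_mem _ ?_
      rintro (a | a) -
      · exact K5_term S h₁' (hw' (Sum.inl a)) (m₁ a) inf_le_left
      · exact K5_term S h₂' (hw' (Sum.inr a)) (m₂ a) inf_le_right
    have n₁ : S.p' δ ≠ 0 := (map_ne_zero _).2 hδ
    have n₂ : S.p u₀ ≠ 0 := (map_ne_zero _).2 h0
    rw [S.rho_tmul] at h6
    have h7 := (mem_LL.1 h6).resolve_left (mul_ne_zero n₁ n₂) R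
    have e₁ : R.ord (S.p' δ) = _ := S.q'.ord_map R δ
    have e₂ : R.ord (S.p u₀) = _ := S.q.ord_map R u₀
    rw [R.ord_mul n₁ n₂, e₁, e₂, hu₀', Finsupp.sub_apply, Finsupp.add_apply, FHom.pull_apply,
      FHom.pull_apply] at h7
    rw [FHom.pull_apply, Finsupp.add_apply, dv_apply]
    linarith

end Pool.Agent.E6b
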