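import Pool.Agent.E6b.K6Aux2

open scoped NNReal TensorProduct IntermediateField BigOperators Classical Topology
open Filter

namespace Pool.Agent.E6b

section
variable {κ F' E : Type} [Field κ] [IsAlgClosed κ] [CharZero κ] [Field F'] [Algebra κ F']
  [IsFF κ F'] [Field E] [Algebra κ E] [IsFF κ E]
  {o : Place κ E} {Ω : Type} [Field Ω] [IsAlgClosed Ω] [CharZero Ω] [Algebra κ Ω]
  [Algebra F' Ω] [IsScalarTower κ F' Ω]

theorem K6_AA_mem (a : AA o) {k : ℤ} (h : - k ≤ o.ord (a : E)) : (a : E) ∈ LL (k • pd o) := by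
  refine mem_LL.2 (Or.inr fun P => ?_)
  simp only [Finsupp.smul_apply, F1_pd_apply, smul_eq_mul]
  split_ifs with hP
  · subst hP; simpa using h
  · simpa using P.mem_iff.1 (a.2 P (Ne.symm hP))

/-- the coordinates of the extra zero are rational and bounded -/
theorem K6_step3 {M : Dv κ F'} (hM : 0 ≤ M) {N N₀ : Dv κ E} {G f : F' ⊗[κ] E} (hG : G ∈ LT2 M N)
    (hf : f ∈ LT2 M N₀) (G0 : G ≠ 0) (f0 : f ≠ 0) {y : Pt o Ω}
    (hy : plc y ∉ Set.range (bc o (Algebra.ofId κ Ω)).plc) {Γ : DO o Ω}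
    (h₁ : K6_Z o Ω N₀ f = Γ + pd (plc y)) (h₂ : Γ ≤ K6_Z o Ω N G)
    (h₃ : Γ (plc y) = K6_Z o Ω N G (plc y)) (a : AA o) {k : ℤ} (hk : 0 ≤ k)
    (ha : - k ≤ o.ord (a : E)) :
    ∃ w₀ ∈ LL (ell (k • pd o + N) • M), ∃ w₁ ∈ LL (ell (k • pd o + N) • M), w₀ ≠ 0 ∧
      algebraMap F' Ω w₀ * y a + algebraMap F' Ω w₁ = 0 := by
  have G0' := K6_th_ne (o := o) (Ω := Ω) G0
  have f0' := K6_th_ne (o := o) (Ω := Ω) f0
  have hk' : 0 ≤ k • pd o := zsmul_nonneg (K6_pd_nonneg o) hk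
  have hev : ∀ c d : Ω, c • iF o Ω a + algebraMap Ω _ d ∈ (plc y).O ∧
      (plc y).ev (c • iF o Ω a + algebraMap Ω _ d) = c * y a + d := fun c d => by
    have h1 : c • iF o Ω a ∈ (plc y).O := by
      rw [Algebra.smul_def]
      exact (plc y).O.mul_mem _ _ ((plc y).const c) (plc_iF y a).1
    exact ⟨(plc y).O.add_mem _ _ h1 ((plc y).const d), by
      rw [Place.ev_add _ h1 ((plc y).const d), Place.ev_smul _ _ (plc_iF y a).1, (plc_iF y a).2,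
        Place.ev_algebraMap]⟩
  have hc : ∀ d : Ω, algebraMap Ω (FO o Ω) d ∈ LL (K6_hat o Ω 0) := fun d => by
    rw [Algebra.algebraMap_eq_smul_one]
    exact Submodule.smul_mem _ _ (K6_one_mem (map_zero _).ge)
  obtain ⟨z, hz⟩ : ∃ z, z = (1 : Ω) • iF o Ω a + algebraMap Ω _ (- y a) := ⟨_, rfl⟩
  have z1 : z ∈ LL (K6_hat o Ω (k • pd o) - pd (plc y)) := by
    have h1 : z ∈ LL (K6_hat o Ω (k • pd o)) := by
      rw [hz, one_smul, ← O1_phi]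
      refine add_mem (K6_mem_hat.2 (K6_AA_mem a ha)) (LL_mono ?_ (hc _))
      rw [map_zero, map_zsmul, K6_hat_oo]
      exact zsmul_nonneg (K6_pd_nonneg _) hk
    by_cases z0 : z = 0
    · exact mem_LL.2 (Or.inl z0)
    have h2 := (((plc y).ev_eq_zero_iff (hz ▸ (hev 1 (- y a)).1)).1
      (by rw [hz, (hev _ _).2]; ring)).resolve_left z0
    refine mem_LL.2 (Or.inr fun P => ?_)
    have h3 := (mem_LL.1 h1).resolve_left z0 P
    rw [Finsupp.sub_apply, F1_pd_apply]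
    split_ifs with hP
    · subst hP
      rw [K6_hat_zero hy]
      omega
    · omega
  have z2 : z * (K6_th F' o Ω G / K6_th F' o Ω f) ∈ LL (K6_hat o Ω (k • pd o + N - N₀)) := by
    have h1 : K6_th F' o Ω G / K6_th F' o Ω f ∈
        LL (K6_hat o Ω N - K6_hat o Ω N₀ + pd (plc y)) := by
      rw [mem_LL_iff (div_ne_zero G0' f0'), dv_div G0' f0']
      refine (sub_nonneg.2 h₂).trans_eq ?_
      rw [← sub_eq_iff_eq_add] at h₁
      rw [← h₁]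
      unfold K6_Z
      abel
    convert mul_mem_LL z1 h1 using 2
    rw [map_sub, map_add]
    abel
  obtain ⟨A₀, hA₀, A₁, hA₁, A₂, hA₂, n0, hs⟩ := K6_ker3 (o := o) (Ω := Ω) hM
    (N := k • pd o + N) (H₀ := ((1 : F') ⊗ₜ[κ] (a : E)) * G) (N₀ := k • pd o + N) (D₀ := 0) (D₁ := 0)
    (LT2_mono (zero_add M).le le_rfl
      (mul_mem_LT2 (K6_tmul_mem (K6_one_mem le_rfl) (K6_AA_mem a ha)) hG)) hG hf
    (zero_add _).le (add_le_add_left hk' _) (sub_add_cancel _ _).le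
    (K6_one_mem (map_zero _).ge) (hc (- y a)) (neg_mem z2)
    (by
      rw [map_mul, K6_th_tmul, map_one, one_smul, O1_phi, neg_mul, mul_assoc,
        div_mul_cancel₀ _ f0', hz, one_smul]
      ring) one_ne_zero
  obtain ⟨w₀, hw₀, rfl⟩ := K6_const hA₀
  obtain ⟨w₁, hw₁, rfl⟩ := K6_const hA₁
  refine ⟨w₀, hw₀, w₁, hw₁, fun h => n0 (by simp [h]), ?_⟩
  rw [← (hev _ _).2, Place.ev_eq_zero_iff _ (hev _ _).1]
  have h4 : (algebraMap F' Ω w₀ • iF o Ω a + algebraMap Ω _ (algebraMap F' Ω w₁)) *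
      K6_th F' o Ω G = - (K6_th F' o Ω A₂ * K6_th F' o Ω f) := by
    have h5 := congrArg (K6_th F' o Ω) hs
    simp only [map_add, map_mul, K6_th_tmul, map_one, O1_phi, map_zero,
      Algebra.smul_def] at h5 ⊢
    linear_combination h5
  refine or_iff_not_imp_left.2 fun h6 => ?_
  have h7 : K6_th F' o Ω A₂ ≠ 0 := fun h => by
    rw [h, zero_mul, neg_zero] at h4
    exact mul_ne_zero h6 G0' h4
  have h8 := congrArg (plc y).ord h4
  rw [Place.ord_neg, Place.ord_mul _ h6 G0', Place.ord_mul _ h7 f0'] at h8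
  have h9 := (mem_LL.1 (K6_th_mem (o := o) (Ω := Ω) (LT2_le_LT hA₂))).resolve_left h7 (plc y)
  have h10 := DFunLike.congr_fun h₁ (plc y)
  simp only [K6_Z, Finsupp.add_apply, K6_hat_zero hy, dv_apply, F1_pd_apply, if_true] at h₃ h9 h10
  omega

/-- a non-constant extra zero gives a map of bounded degree -/
theorem K6_step4 (hg : genus κ E = 1) {M : Dv κ F'} (hM : 0 ≤ M) {N N₀ : Dv κ E}
    {G f : F' ⊗[κ] E} (hG : G ∈ LT2 M N) (hf : f ∈ LT2 M N₀) (G0 : G ≠ 0) (f0 : f ≠ 0) {y : Pt o Ω}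
    (hy : plc y ∉ Set.range (bc o (Algebra.ofId κ Ω)).plc) {Γ : DO o Ω}
    (h₁ : K6_Z o Ω N₀ f = Γ + pd (plc y)) (h₂ : Γ ≤ K6_Z o Ω N G)
    (h₃ : Γ (plc y) = K6_Z o Ω N G (plc y)) :
    ∃ φ : E →ₐ[κ] F', ((FHom.ofAlgHom φ).deg : ℤ) ≤ (deg N + 3) * deg M := by
  have hr : ∀ a : AA o, ∃ c : F', algebraMap F' Ω c = y a := fun a => by
    obtain ⟨w₀, -, w₁, -, h0, h⟩ := K6_step3 hM hG hf G0 f0 hy h₁ h₂ h₃ a (k := - o.ord (a : E))
      (neg_nonneg.2 (O0_ord_nonpos o a)) (neg_neg _).le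
    refine ⟨- w₁ / w₀, ?_⟩
    rw [map_div₀, map_neg, div_eq_iff ((map_ne_zero _).2 h0)]
    linear_combination - h
  choose c hc using hr
  have inj := (algebraMap F' Ω).injective
  let y₁ : AA o →ₐ[κ] F' :=
    { toFun := c
      map_one' := inj (by rw [hc, map_one, map_one])
      map_mul' := fun a b => inj (by rw [map_mul, hc, hc, hc, map_mul])
      map_zero' := inj (by rw [hc, map_zero, map_zero])
      map_add' := fun a b => inj (by rw [map_add, hc, hc, hc, map_add])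
      commutes' := fun a => inj (by rw [hc, y.commutes, ← IsScalarTower.algebraMap_apply]) }
  have hi := (injective_of_notMem_range (Algebra.ofId κ Ω) (y := y) (by
    rintro ⟨x, rfl⟩
    exact hy ⟨plc x, BC.plc_plc _ x⟩)).2
  have hi₁ : Function.Injective y₁ := (injective_iff_map_eq_zero _).2 fun a ha => by
    have h1 : y a = 0 := by rw [← hc, show c a = 0 from ha, map_zero]
    have h2 : (1 : κ) ⊗ₜ[κ] a = 0 := hi (by rw [Algebra.TensorProduct.lift_tmul, h1, mul_zero, map_zero])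
    simpa using congrArg (TensorProduct.lid κ (AA o)) h2
  have hw : o.ord (wN o : E) = -3 := by
    rw [← O1_ord (Ω := κ), O1_ord_w, NN, hg]
    norm_num
  have hw' : (wN o : E) ∉ (algebraMap κ E).range := by
    rintro ⟨x, hx⟩
    rw [← hx, Place.ord_algebraMap] at hw
    omega
  refine ⟨IsFractionRing.liftAlgHom hi₁, ?_⟩
  obtain ⟨r1, r2⟩ := rk_map (FHom.ofAlgHom (IsFractionRing.liftAlgHom (K := E) hi₁)) hw'
  have r3 : (FHom.ofAlgHom (IsFractionRing.liftAlgHom (K := E) hi₁)).f (wN o : E) = c (wN o) :=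
    IsFractionRing.lift_algebraMap hi₁ (wN o)
  rw [r3] at r1 r2
  obtain ⟨w₀, m₀, w₁, m₁, h0, h⟩ := K6_step3 hM hG hf G0 f0 hy h₁ h₂ h₃ (wN o) (k := 3)
    (by norm_num) hw.ge
  have r4 := deg_dinf_root_le ![w₁, w₀] (fun i => by fin_cases i <;> assumption)
    (fun h => h0 (congrFun h 1)) (c := c (wN o)) (inj (by
      rw [Fin.sum_univ_two, map_zero, ← h, ← hc]
      simp [add_comm]))
  have hN := deg_nonneg_of_mem_LT (LT2_le_LT hG) G0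
  rw [deg_dinf_rk r1, r2, deg_nsmul, ell_genus_one hg (by rw [deg_add, deg_zsmul, deg_pd]; omega),
    deg_add, deg_zsmul, deg_pd, mul_one, add_comm] at r4
  refine le_trans ?_ r4
  exact_mod_cast Nat.le_mul_of_pos_right _ (rk_pos hw')

theorem K6_core (hg : genus κ E = 1) {α b : ℕ} (hB : NoMap κ E F' ((α + 3) * ((2 * α + 1) * b)))
    {M : Dv κ F'} (hM : 0 ≤ M) (hb : deg M ≤ b) {N₁ N₂ : Dv κ E}
    {G₁ G₂ : F' ⊗[κ] E} (m₁ : G₁ ∈ LT2 M N₁) (m₂ : G₂ ∈ LT2 M N₂) (h₁ : G₁ ≠ 0) (h₂ : G₂ ≠ 0)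
    (d₁ : deg N₁ ≤ α) (d₂ : deg N₂ ≤ α) :
    ∃ (N₀ : Dv κ E) (f : F' ⊗[κ] E), f ≠ 0 ∧
      K6_Z o Ω N₀ f = K6_Z o Ω N₁ G₁ ⊓ K6_Z o Ω N₂ G₂ := by
  obtain ⟨n, f, y, f0, hf, h⟩ := K6_step1 (o := o) (Ω := Ω) hg hM m₁ m₂ h₁ h₂ d₁ d₂
  by_cases hy : y ∈ Set.range (bc o (Algebra.ofId κ Ω)).plc
  · obtain ⟨Q, rfl⟩ := hy
    refine ⟨n • pd o - pd ((jK o).res Q), f, f0, ?_⟩
    rw [← sub_eq_iff_eq_add] at h
    rw [← h, K6_Z, K6_Z, map_sub, K6_hat_pd]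
    abel
  exfalso
  obtain ⟨y, rfl⟩ := (eq_oo_or_plc y).resolve_left fun e => hy ⟨_, (BC.plc_oo _).trans e.symm⟩
  have hM' : 0 ≤ (2 * α + 1) • M := nsmul_nonneg hM _
  have hle : M ≤ (2 * α + 1) • M := by
    rw [succ_nsmul]
    exact le_add_of_nonneg_left (nsmul_nonneg hM _)
  have key : ∀ {N : Dv κ E} {G : F' ⊗[κ] E}, G ∈ LT2 M N → G ≠ 0 → deg N ≤ α →
      K6_Z o Ω N₁ G₁ ⊓ K6_Z o Ω N₂ G₂ ≤ K6_Z o Ω N G →
      (K6_Z o Ω N₁ G₁ ⊓ K6_Z o Ω N₂ G₂) (plc y) ≠ K6_Z o Ω N G (plc y) := by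
    intro N G hG G0 hN e1 e2
    obtain ⟨φ, hφ⟩ := K6_step4 hg hM' (LT2_mono hle le_rfl hG) hf G0 f0 hy h e1 e2
    have h3 : (((α + 3) * ((2 * α + 1) * b) : ℕ) : ℤ) < (FHom.ofAlgHom φ).deg := by
      exact_mod_cast hB φ
    rw [deg_nsmul] at hφ
    have h4 := F1_deg_nonneg hM
    have h5 : (deg N + 3) * (((2 * α + 1 : ℕ) : ℤ) * deg M) ≤ (α + 3) * ((2 * α + 1 : ℕ) * b) := by
      gcongr
    push_cast at h3 h5 hφ
    omega
  rcases le_total (K6_Z o Ω N₁ G₁ (plc y)) (K6_Z o Ω N₂ G₂ (plc y)) with e | e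
  · exact key m₁ h₁ d₁ inf_le_left (by rw [Finsupp.inf_apply, inf_eq_left.2 e])
  · exact key m₂ h₂ d₂ inf_le_right (by rw [Finsupp.inf_apply, inf_eq_right.2 e])

end

/-- the greatest common divisor of two sections has a constant class -/
theorem split (α b : ℕ) : ∃ B : ℕ, ∀ {κ F' E : Type} [Field κ] [IsAlgClosed κ] [CharZero κ]
    [Field F'] [Algebra κ F'] [IsFF κ F'] [Field E] [Algebra κ E] [IsFF κ E],
    genus κ E = 1 → NoMap κ E F' B → ∀ (M₁ M₂ : Dv κ F') (N₁ N₂ : Dv κ E) (G₁ G₂ : F' ⊗[κ] E),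
      deg M₁ ≤ b → deg M₂ ≤ b → deg N₁ ≤ α → deg N₂ ≤ α → G₁ ∈ LT2 M₁ N₁ → G₂ ∈ LT2 M₂ N₂ →
      G₁ ≠ 0 → G₂ ≠ 0 → ∃ (N₀ : Dv κ E) (h G₁' G₂' : F' ⊗[κ] E), h ∈ LT F' N₀ ∧
        G₁' ∈ LT F' (N₁ - N₀) ∧ G₂' ∈ LT F' (N₂ - N₀) ∧ G₁ = h * G₁' ∧ G₂ = h * G₂' ∧
        Cop G₁' G₂' (N₁ - N₀) (N₂ - N₀) ∧ (deg N₀ = 0 → Cop G₁ G₂ N₁ N₂) := by
  refine ⟨(α + 3) * ((2 * α + 1) * (2 * b)), ?_⟩
  intro κ F' E _ _ _ _ _ _ _ _ _ hg hB M₁ M₂ N₁ N₂ G₁ G₂ b₁ b₂ d₁ d₂ m₁ m₂ h₁ h₂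
  obtain ⟨o⟩ : Nonempty (Place κ E) := inferInstance
  have : CharZero (AlgebraicClosure F') :=
    charZero_of_injective_algebraMap (algebraMap κ (AlgebraicClosure F')).injective
  obtain ⟨c₁, M₁', n₁, p₁, e₁, k₁⟩ := K6_scale m₁ h₁
  obtain ⟨c₂, M₂', n₂, p₂, e₂, k₂⟩ := K6_scale m₂ h₂
  obtain ⟨N₀, f, f0, h⟩ := K6_core (o := o) (Ω := AlgebraicClosure F') hg hB (add_nonneg p₁ p₂)
    (by rw [deg_add]; push_cast; omega) (LT2_mono (le_add_of_nonneg_right p₂) le_rfl k₁)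
    (LT2_mono (le_add_of_nonneg_left p₁) le_rfl k₂) (smul_ne_zero n₁ h₁) (smul_ne_zero n₂ h₂) d₁ d₂
  refine ⟨N₀, f, K6_fin (o := o) (Ω := AlgebraicClosure F') hg (LT2_le_LT m₁) (LT2_le_LT m₂) h₁ h₂
    f0 ?_⟩
  rw [h]
  unfold K6_Z
  rw [K6_dv_smul n₁, K6_dv_smul n₂]

end Pool.Agent.E6b
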