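import Pool.Agent.E6b.O2

open scoped NNReal TensorProduct IntermediateField BigOperators Classical Topology
open Filter

namespace Pool.Agent.E6b

variable {κ F : Type} [Field κ] [IsAlgClosed κ] [CharZero κ] [Field F] [Algebra κ F] [IsFF κ F]
  {o : Place κ F} {Ω : Type} [Field Ω] [IsAlgClosed Ω] [CharZero Ω] [Algebra κ Ω]
  {ι ι' : Type} [Fintype ι] [Fintype ι']

theorem clD_surj (w : Cl o Ω) : ∃ D, clD o Ω D = w := QuotientAddGroup.mk'_surjective _ w

theorem clD_eq_iff {D E : DO o Ω} :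
    clD o Ω D = clD o Ω E ↔ ∃ k : ℤ, LinEq D (E + k • pd (oo o Ω)) := by
  rw [clD, QuotientAddGroup.mk'_apply, QuotientAddGroup.mk'_apply, QuotientAddGroup.eq]
  constructor
  · rintro ⟨k, f, hf, h⟩
    refine ⟨-k, f⁻¹, inv_ne_zero hf, ?_⟩
    rw [neg_smul, h, dv_inv]; abel
  · rintro ⟨k, f, hf, h⟩
    refine ⟨-k, f⁻¹, inv_ne_zero hf, ?_⟩
    rw [neg_smul, dv_inv, eq_sub_of_add_eq' h]; abel

theorem clD_eq_iff' {D E : DO o Ω} :
    clD o Ω D = clD o Ω E ↔ LinEq D (E + (deg D - deg E) • pd (oo o Ω)) := by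
  rw [clD_eq_iff]
  refine ⟨?_, fun h => ⟨_, h⟩⟩
  rintro ⟨k, h⟩
  have := h.deg
  rw [deg_add, deg_zsmul, deg_pd] at this
  rwa [show deg D - deg E = k by omega]

theorem clD_eq_iff_of_deg {D E : DO o Ω} (h : deg D = deg E) :
    clD o Ω D = clD o Ω E ↔ LinEq D E := by
  rw [clD_eq_iff', h, sub_self, zero_smul, add_zero]

theorem clD_oo : clD o Ω (pd (oo o Ω)) = 0 := by
  rw [← map_zero (clD o Ω), clD_eq_iff]
  exact ⟨1, by simpa using LinEq.refl _⟩

theorem clD_dv (f : FO o Ω) : clD o Ω (dv Ω f) = 0 := by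
  by_cases hf : f = 0
  · have := dv_algebraMap (F := FO o Ω) (0 : Ω)
    rw [map_zero] at this
    rw [hf, this, map_zero]
  · rw [← map_zero (clD o Ω), eq_comm, clD_eq_iff]
    exact ⟨0, f, hf, by simp⟩

theorem LinEq.clD {D E : DO o Ω} (h : LinEq D E) : clD o Ω D = clD o Ω E :=
  (clD_eq_iff_of_deg h.deg).2 h

theorem O3_clD_add (D : DO o Ω) (k : ℤ) : clD o Ω (D + k • pd (oo o Ω)) = clD o Ω D := by
  rw [map_add, map_zsmul, clD_oo, smul_zero, add_zero]

theorem ellC_clD (m : ℤ) (D : DO o Ω) :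
    ellC m (clD o Ω D) = ell (D + (m - deg D) • pd (oo o Ω)) := by
  have h : clD o Ω (clD o Ω D).out = clD o Ω D := QuotientAddGroup.out_eq' _
  refine LinEq.ell ((clD_eq_iff_of_deg ?_).1 ?_)
  · simp only [deg_add, deg_zsmul, deg_pd]; ring
  · rw [O3_clD_add, O3_clD_add, h]

theorem th_clD (D : DO o Ω) :
    Th (clD o Ω D) ↔ ell ((deg D + genus κ F - 1) • pd (oo o Ω) - D) = 0 := by
  rw [Th, ← map_neg, ellC_clD, deg_neg, neg_add_eq_sub,
    show (genus κ F : ℤ) - 1 - -deg D = deg D + genus κ F - 1 by ring]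

theorem deg_dz (z : ι → Pt o Ω) : deg (dz z) = Fintype.card ι := by
  simp [dz, deg_sum, deg_pd]

theorem O3_pd_nonneg (P : PO o Ω) : 0 ≤ pd P := fun Q => by
  rw [F1_pd_apply]; split_ifs <;> simp

theorem dz_nonneg (z : ι → Pt o Ω) : 0 ≤ dz z := Finset.sum_nonneg fun _ _ => O3_pd_nonneg _

theorem dz_oo (z : ι → Pt o Ω) : dz z (oo o Ω) = 0 := by
  rw [dz, Finsupp.finsetSum_apply]
  exact Finset.sum_eq_zero fun a _ => by rw [F1_pd_apply, if_neg (plc_ne_oo _)]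

theorem dz_apply (z : ι → Pt o Ω) (y : Pt o Ω) :
    dz z (plc y) = (Finset.univ.filter fun a => z a = y).card := by
  rw [dz, Finsupp.finsetSum_apply, Finset.card_filter, Nat.cast_sum]
  refine Finset.sum_congr rfl fun a _ => ?_
  rw [F1_pd_apply]
  simp [plc_injective.eq_iff]

theorem dz_elim (z : ι → Pt o Ω) (z' : ι' → Pt o Ω) : dz (Sum.elim z z') = dz z + dz z' := by
  simp [dz, Fintype.sum_sum_type]

theorem dz_comp_equiv (z : ι → Pt o Ω) (e : ι' ≃ ι) : dz (z ∘ e) = dz z :=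
  e.sum_comp fun a => pd (plc (z a))

theorem dz_eq_ind {z : ι → Pt o Ω} (hz : Function.Injective z) :
    dz z = ind (Finset.univ.image fun a => plc (z a)) := by
  rw [ind, Finset.sum_image fun a _ b _ h => hz (plc_injective h), dz]

theorem clz_eq_sum (z : ι → Pt o Ω) : clz z = ∑ a, cl (z a) := by
  rw [clz, dz, map_sum]; rfl

theorem clz_elim (z : ι → Pt o Ω) (z' : ι' → Pt o Ω) : clz (Sum.elim z z') = clz z + clz z' := by
  rw [clz, dz_elim, map_add]; rfl

theorem clz_comp_equiv (z : ι → Pt o Ω) (e : ι' ≃ ι) : clz (z ∘ e) = clz z := by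
  rw [clz, dz_comp_equiv]; rfl

theorem O3_pos_iff (z : ι → Pt o Ω) (y : Pt o Ω) : 0 < dz z (plc y) ↔ ∃ a, z a = y := by
  rw [dz_apply, Nat.cast_pos, Finset.card_pos, Finset.filter_nonempty_iff]
  simp

/-- an effective divisor away from infinity is the divisor of a family of points -/
theorem exists_dz {D : DO o Ω} (h : 0 ≤ D) (h0 : D (oo o Ω) = 0) (hd : deg D = Fintype.card ι) :
    ∃ z : ι → Pt o Ω, dz z = D := by
  obtain ⟨P, hP⟩ := exists_eq_sum_pd h hd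
  have hne : ∀ i, ∃ y, plc y = P i := fun i => by
    refine (eq_oo_or_plc (P i)).resolve_left fun hi => ?_
    have h1 : pd (P i) ≤ D := by
      rw [hP]
      exact Finset.single_le_sum (f := fun i => pd (P i)) (fun j _ => O3_pd_nonneg _)
        (Finset.mem_univ i)
    have h2 := h1 (oo o Ω)
    rw [h0, F1_pd_apply, if_pos hi] at h2
    omega
  choose y hy using hne
  refine ⟨y ∘ Fintype.equivFin ι, ?_⟩
  rw [dz_comp_equiv, hP, dz]
  exact Finset.sum_congr rfl fun i _ => by rw [hy]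

theorem injective_of_dz_le_one {z : ι → Pt o Ω} (h : ∀ P, dz z P ≤ 1) : Function.Injective z := by
  intro a b hab
  have h1 := h (plc (z b))
  rw [dz_apply, Nat.cast_le_one, Finset.card_le_one] at h1
  exact h1 a (by simpa using hab) b (by simp)

theorem exists_equiv_of_dz_eq {z : ι → Pt o Ω} {z' : ι' → Pt o Ω} (h : dz z = dz z') :
    ∃ e : ι' ≃ ι, z' = z ∘ e := by
  have hc : ∀ y, Fintype.card {a // z' a = y} = Fintype.card {a // z a = y} := fun y => by
    have h1 := dz_apply z y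
    rw [h, dz_apply] at h1
    rw [Fintype.card_subtype, Fintype.card_subtype]
    exact_mod_cast h1
  exact ⟨Equiv.ofFiberEquiv fun y => Fintype.equivOfCardEq (hc y),
    funext fun a => (Equiv.ofFiberEquiv_map _ a).symm⟩

/-- moving lemma -/
theorem exists_rep (w : Cl o Ω) (ι : Type) [Fintype ι] (hι : 2 * genus κ F ≤ Fintype.card ι)
    {T : Set (Pt o Ω)} (hT : T.Finite) :
    ∃ z : ι → Pt o Ω, Function.Injective z ∧ (∀ a, z a ∉ T) ∧ clz z = w := by
  obtain ⟨D, rfl⟩ := clD_surj w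
  have hd : deg (D + ((Fintype.card ι : ℤ) - deg D) • pd (oo o Ω)) = Fintype.card ι := by
    rw [deg_add, deg_zsmul, deg_pd]; ring
  obtain ⟨S, hS, hl⟩ := (bpf_of_large (D := D + ((Fintype.card ι : ℤ) - deg D) • pd (oo o Ω))
    (by rw [hd, genus_FO]; exact_mod_cast hι)).exists_reduced
      (insert (oo o Ω) (hT.toFinset.image plc))
  rw [Finset.disjoint_left] at hS
  obtain ⟨z, hz⟩ := exists_dz (ι := ι) (D := ind S) (Finset.sum_nonneg fun _ _ => O3_pd_nonneg _)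
    (by rw [ind_apply, if_neg fun h => hS h (Finset.mem_insert_self _ _)]) (by rw [← hl.deg, hd])
  refine ⟨z, injective_of_dz_le_one fun P => ?_, fun a ha => ?_, ?_⟩
  · rw [hz, ind_apply]; split_ifs <;> simp
  · have h1 := (O3_pos_iff z (z a)).2 ⟨a, rfl⟩
    rw [hz, ind_apply, if_neg] at h1
    · exact lt_irrefl _ h1
    · exact fun h => hS h (Finset.mem_insert_of_mem
        (Finset.mem_image_of_mem _ (hT.mem_toFinset.2 ha)))
  · rw [clz, hz, ← hl.clD, O3_clD_add]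

theorem exists_eff_rep (w : Cl o Ω) :
    ∃ D : DO o Ω, 0 ≤ D ∧ deg D = genus κ F ∧ clD o Ω D = w := by
  obtain ⟨D, rfl⟩ := clD_surj w
  have hd : deg (D + ((genus κ F : ℤ) - deg D) • pd (oo o Ω)) = genus κ F := by
    rw [deg_add, deg_zsmul, deg_pd]; ring
  obtain ⟨E, hE, hl⟩ := exists_eff (D := D + ((genus κ F : ℤ) - deg D) • pd (oo o Ω))
    (by rw [hd, genus_FO])
  exact ⟨E, hE, by rw [← hl.deg, hd], by rw [← hl.clD, O3_clD_add]⟩

theorem O3_dv_eq {z : ι → Pt o Ω} (hz : Function.Injective z) {t : FO o Ω}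
    (h0 : 0 ≤ (Fintype.card ι : ℤ) • pd (oo o Ω) + dv Ω t) (h : ∀ a, 0 < (plc (z a)).ord t) :
    dv Ω t = dz z - (Fintype.card ι : ℤ) • pd (oo o Ω) := by
  rw [eq_sub_iff_add_eq', eq_comm]
  refine eq_of_le_of_deg_le (fun P => ?_) ?_
  · rw [dz_eq_ind hz, ind_apply]
    split_ifs with hP
    · obtain ⟨a, -, rfl⟩ := Finset.mem_image.1 hP
      have := h a
      rw [Finsupp.add_apply, Finsupp.smul_apply, F1_pd_apply, if_neg (plc_ne_oo _).symm, dv_apply,
        smul_zero]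
      omega
    · exact h0 P
  · rw [deg_add, deg_zsmul, deg_pd, deg_dv, deg_dz]; simp

theorem O3_apply_plc (z : ι → Pt o Ω) (n : ℤ) (y : Pt o Ω) :
    (dz z - n • pd (oo o Ω)) (plc y) = dz z (plc y) := by
  rw [Finsupp.sub_apply, Finsupp.smul_apply, F1_pd_apply, if_neg (plc_ne_oo _).symm, smul_zero,
    sub_zero]

theorem exists_dv_of_clz_eq_zero {z : ι → Pt o Ω} (h : clz z = 0) : ∃ f : AO o Ω, f ≠ 0 ∧
    dv Ω (algebraMap _ (FO o Ω) f) = dz z - (Fintype.card ι : ℤ) • pd (oo o Ω) := by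
  have h1 : LinEq ((Fintype.card ι : ℤ) • pd (oo o Ω)) (dz z) := by
    refine (clD_eq_iff_of_deg ?_).1 ?_
    · rw [deg_zsmul, deg_pd, deg_dz, mul_one]
    · rw [map_zsmul, clD_oo, smul_zero]; exact h.symm
  obtain ⟨t, ht, h2⟩ := h1
  have h3 := eq_sub_of_add_eq' h2.symm
  obtain ⟨f, rfl⟩ : t ∈ (algebraMap (AO o Ω) (FO o Ω)).range := by
    refine mem_range_iff.2 fun P hP => ?_
    obtain ⟨y, rfl⟩ := (eq_oo_or_plc P).resolve_left hP
    rw [Place.mem_iff, ← dv_apply, h3, O3_apply_plc]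
    exact dz_nonneg z _
  exact ⟨f, fun h0 => ht (by rw [h0, map_zero]), h3⟩

/-- an injective family has class zero iff it is the set of zeros of a function -/
theorem clz_eq_zero_iff {z : ι → Pt o Ω} (hz : Function.Injective z) :
    clz z = 0 ↔ ∃ f : AO o Ω, f ≠ 0 ∧ (∀ i, (ebO o Ω).repr f i ≠ 0 → pn o i ≤ Fintype.card ι) ∧
      ∀ a, evA (z a) f = 0 := by
  have hinj := IsFractionRing.injective (AO o Ω) (FO o Ω)
  constructor
  · intro h
    obtain ⟨f, hf, h1⟩ := exists_dv_of_clz_eq_zero h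
    have hf' : algebraMap _ (FO o Ω) f ≠ 0 := (map_ne_zero_iff _ hinj).2 hf
    refine ⟨f, hf, ?_, fun a => ?_⟩
    · obtain ⟨a, ha, h2⟩ := mem_LL_oo.1 ((mem_LL_iff (D := (Fintype.card ι : ℤ) • pd (oo o Ω))
        hf').2 (by rw [h1, add_sub_cancel]; exact dz_nonneg z))
      rw [hinj ha] at h2
      exact fun i hi => by exact_mod_cast h2 i hi
    · rw [← (plc_spec (z a) f).2, Place.ev_eq_zero_iff _ (plc_spec (z a) f).1, ← dv_apply, h1,
        O3_apply_plc]
      exact Or.inr ((O3_pos_iff z _).2 ⟨a, rfl⟩)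
  · rintro ⟨f, hf, h1, h2⟩
    have hf' : algebraMap _ (FO o Ω) f ≠ 0 := (map_ne_zero_iff _ hinj).2 hf
    have h3 := O3_dv_eq hz ((mem_LL_iff hf').1 (mem_LL_oo.2 ⟨f, rfl, fun i hi => by
      exact_mod_cast h1 i hi⟩)) fun a => by
        have := h2 a
        rw [← (plc_spec (z a) f).2, Place.ev_eq_zero_iff _ (plc_spec (z a) f).1] at this
        exact this.resolve_left hf'
    have h4 := clD_dv (algebraMap _ (FO o Ω) f)
    rwa [h3, map_sub, map_zsmul, clD_oo, smul_zero, sub_zero] at h4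

theorem O3_ne (c : Ω) : iF o Ω (wN o) - algebraMap Ω (FO o Ω) c ≠ 0 := fun h =>
  iF_wN_notMem ⟨c, (sub_eq_zero.1 h).symm⟩

theorem O3_mem (c : Ω) (y : Pt o Ω) : iF o Ω (wN o) - algebraMap Ω (FO o Ω) c ∈ (plc y).O :=
  sub_mem (plc_iF y _).1 ((plc y).const c)

theorem O3_ord_pos (c : Ω) (y : Pt o Ω) :
    0 < (plc y).ord (iF o Ω (wN o) - algebraMap Ω (FO o Ω) c) ↔ y (wN o) = c := by
  have h := (plc y).ev_eq_zero_iff (O3_mem c y)
  rw [Place.ev_sub _ (plc_iF y _).1 ((plc y).const c), (plc_iF y _).2, Place.ev_algebraMap,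
    sub_eq_zero] at h
  rw [h]
  exact ⟨Or.inr, fun h => h.resolve_left (O3_ne c)⟩

theorem O3_ord_oo (c : Ω) :
    (oo o Ω).ord (iF o Ω (wN o) - algebraMap Ω (FO o Ω) c) = - (NN o : ℤ) := by
  have h1 : (oo o Ω).ord (iF o Ω (wN o)) = - (NN o : ℤ) := by rw [oo_ord_iF, ord_wN]
  have h2 : iF o Ω (wN o) ≠ 0 := by simpa using O3_ne (o := o) (0 : Ω)
  rw [sub_eq_add_neg, ((oo o Ω).ord_add_eq h2 (Or.inr ?_)).2, h1]
  rw [Place.ord_neg, Place.ord_algebraMap, h1, NN]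
  omega

theorem O3_eff (c : Ω) :
    0 ≤ (NN o : ℤ) • pd (oo o Ω) + dv Ω (iF o Ω (wN o) - algebraMap Ω (FO o Ω) c) ∧
    ((NN o : ℤ) • pd (oo o Ω) + dv Ω (iF o Ω (wN o) - algebraMap Ω (FO o Ω) c)) (oo o Ω) = 0 := by
  have h0 : ((NN o : ℤ) • pd (oo o Ω) + dv Ω (iF o Ω (wN o) - algebraMap Ω (FO o Ω) c))
      (oo o Ω) = 0 := by
    rw [Finsupp.add_apply, Finsupp.smul_apply, F1_pd_apply, if_pos rfl, dv_apply, O3_ord_oo]
    simp
  refine ⟨fun P => ?_, h0⟩
  rcases eq_oo_or_plc P with rfl | ⟨y, rfl⟩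
  · exact h0.ge
  · rw [Finsupp.add_apply, Finsupp.smul_apply, F1_pd_apply, if_neg (plc_ne_oo _).symm, dv_apply,
      smul_zero, zero_add]
    exact (plc y).mem_iff.1 (O3_mem c y)

/-- a fibre of `wN` -/
theorem exists_fibre (c : Ω) : ∃ z : Fin (NN o) → Pt o Ω,
    dv Ω (iF o Ω (wN o) - algebraMap Ω (FO o Ω) c) = dz z - (NN o : ℤ) • pd (oo o Ω) ∧
      (∀ l, z l (wN o) = c) ∧ (∀ y : Pt o Ω, y (wN o) = c → ∃ l, z l = y) ∧ clz z = 0 := by
  obtain ⟨z, hz⟩ := exists_dz (ι := Fin (NN o)) (O3_eff (o := o) c).1 (O3_eff c).2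
    (by rw [deg_add, deg_zsmul, deg_pd, deg_dv]; simp)
  have h1 := eq_sub_of_add_eq' hz.symm
  have h2 : ∀ y : Pt o Ω, y (wN o) = c ↔ ∃ l, z l = y := fun y => by
    rw [← O3_ord_pos, ← dv_apply, h1, O3_apply_plc, O3_pos_iff]
  refine ⟨z, h1, fun l => (h2 _).2 ⟨l, rfl⟩, fun y => (h2 y).1, ?_⟩
  rw [clz, hz, map_add, map_zsmul, clD_oo, clD_dv, smul_zero, add_zero]

theorem dv_wN_sub {c : Ω} {z : Fin (NN o) → Pt o Ω} (hz : Function.Injective z)
    (h : ∀ l, z l (wN o) = c) :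
    dv Ω (iF o Ω (wN o) - algebraMap Ω (FO o Ω) c) = dz z - (NN o : ℤ) • pd (oo o Ω) := by
  have := O3_dv_eq hz (t := iF o Ω (wN o) - algebraMap Ω (FO o Ω) c)
    (by rw [Fintype.card_fin]; exact (O3_eff c).1) fun l => (O3_ord_pos c _).2 (h l)
  rwa [Fintype.card_fin] at this

/-- the classes of points generate -/
theorem closure_cl : AddSubgroup.closure (Set.range (cl : Pt o Ω → Cl o Ω)) = ⊤ := by
  refine eq_top_iff.2 fun w _ => ?_
  obtain ⟨z, -, -, rfl⟩ := exists_rep w (Fin (2 * genus κ F)) (by simp) Set.finite_empty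
  rw [clz_eq_sum]
  exact sum_mem fun a _ => AddSubgroup.subset_closure ⟨_, rfl⟩

theorem subsingleton_Cl (hg : genus κ F = 0) : Subsingleton (Cl o Ω) := by
  refine subsingleton_of_forall_eq 0 fun w => ?_
  obtain ⟨D, h1, h2, rfl⟩ := exists_eff_rep w
  rw [← eq_of_le_of_deg_le h1 (by rw [h2, hg, deg_zero]; simp), map_zero]

theorem O3_range {K : Type} [Field K] [IsAlgClosed K] [CharZero K] [Algebra κ K]
    (β : BC o K Ω) {y : Pt o Ω} (f : FO o K) (h : 0 < (plc y).ord (β.φ f)) :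
    y ∈ Set.range β.pt := by
  by_contra hy
  rw [β.ord_eq_zero ?_ f] at h
  · exact lt_irrefl _ h
  rintro ⟨P, hP⟩
  rcases eq_oo_or_plc P with rfl | ⟨y₀, rfl⟩
  · rw [β.plc_oo] at hP
    exact plc_ne_oo y hP.symm
  · rw [β.plc_plc] at hP
    exact hy ⟨y₀, plc_injective hP⟩

theorem mem_range_pt_of_wN {K : Type} [Field K] [IsAlgClosed K] [CharZero K] [Algebra κ K]
    (τ : K →ₐ[κ] Ω) {y : Pt o Ω} (hy : y (wN o) ∈ τ.range) : y ∈ Set.range (bc o τ).pt := by
  obtain ⟨c, hc⟩ := hy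
  refine O3_range (bc o τ) (iF o K (wN o) - algebraMap K (FO o K) c) ?_
  rw [map_sub, bc_iF, BC.map_c, bc_τ, O3_ord_pos]
  exact hc.symm

/-- a point which is not defined over an algebraically closed subfield is generic over it -/
theorem injective_of_notMem_range {K : Type} [Field K] [IsAlgClosed K] [CharZero K] [Algebra κ K]
    (τ : K →ₐ[κ] Ω) {y : Pt o Ω} (hy : y ∉ Set.range (bc o τ).pt) : y (wN o) ∉ τ.range ∧
    Function.Injective (Algebra.TensorProduct.lift τ y fun _ _ => Commute.all _ _) := by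
  refine ⟨fun h => hy (mem_range_pt_of_wN τ h), ?_⟩
  rw [injective_iff_map_eq_zero]
  intro f hf
  by_contra hf0
  have key : ∀ f : AO o K, ∃ f' : AO o Ω,
      (bc o τ).φ (algebraMap _ (FO o K) f) = algebraMap _ (FO o Ω) f' ∧
        evA y f' = (Algebra.TensorProduct.lift τ y fun _ _ => Commute.all _ _) f := fun f => by
    induction f using TensorProduct.induction_on with
    | zero => exact ⟨0, by simp, by simp⟩
    | tmul c a =>
      refine ⟨τ c ⊗ₜ[κ] a, ?_, by rw [evA_tmul, Algebra.TensorProduct.lift_tmul]⟩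
      rw [algebraMap_tmul, algebraMap_tmul, map_mul, bc_iF, BC.map_c, bc_τ]
      rfl
    | add f g hf hg =>
      obtain ⟨f', h1, h2⟩ := hf
      obtain ⟨g', h3, h4⟩ := hg
      exact ⟨f' + g', by rw [map_add, map_add, map_add, h1, h3], by rw [map_add, map_add, h2, h4]⟩
  obtain ⟨f', h1, h2⟩ := key f
  refine hy (O3_range (bc o τ) (algebraMap _ (FO o K) f) ?_)
  rw [hf, ← (plc_spec y f').2, Place.ev_eq_zero_iff _ (plc_spec y f').1, ← h1] at h2
  refine h2.resolve_left ?_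
  rw [map_eq_zero]
  exact (map_ne_zero_iff _ (IsFractionRing.injective (AO o K) (FO o K))).2 hf0

end Pool.Agent.E6b
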