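import Pool.Agent.E6b.K5
import Pool.Agent.E6b.O3

open scoped NNReal TensorProduct IntermediateField BigOperators Classical Topology
open Filter

namespace Pool.Agent.E6b

section
variable {κ F : Type} [Field κ] [IsAlgClosed κ] [CharZero κ] [Field F] [Algebra κ F] [IsFF κ F]

theorem K6_LL_inf (A B : Dv κ F) : LL (A ⊓ B) = LL A ⊓ LL B := by
  refine le_antisymm (le_inf (LL_mono inf_le_left) (LL_mono inf_le_right)) fun f hf => ?_
  by_cases h0 : f = 0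
  · exact mem_LL.2 (Or.inl h0)
  refine mem_LL.2 (Or.inr fun P => ?_)
  have h1 := (mem_LL.1 hf.1).resolve_left h0 P
  have h2 := (mem_LL.1 hf.2).resolve_left h0 P
  rw [Finsupp.inf_apply]
  omega

theorem K6_deg_sup (A B : Dv κ F) : deg (A ⊔ B) + deg (A ⊓ B) = deg A + deg B := by
  rw [← deg_add, ← deg_add, add_comm, inf_add_sup]

theorem K6_LL_sup (hg : genus κ F = 1) {A B : Dv κ F} (h : 0 < deg (A ⊓ B)) :
    LL (A ⊔ B) = LL A ⊔ LL B := by
  refine (Submodule.eq_of_le_of_finrank_eq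
    (sup_le (LL_mono le_sup_left) (LL_mono le_sup_right)) ?_).symm
  have h1 := Submodule.finrank_sup_add_finrank_inf_eq (LL A) (LL B)
  rw [← K6_LL_inf] at h1
  have hA : deg (A ⊓ B) ≤ deg A := deg_mono inf_le_left
  have hB : deg (A ⊓ B) ≤ deg B := deg_mono inf_le_right
  have hC : deg A ≤ deg (A ⊔ B) := deg_mono le_sup_left
  have e1 := ell_genus_one hg h
  have e2 := ell_genus_one hg (D := A) (by omega)
  have e3 := ell_genus_one hg (D := B) (by omega)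
  have e4 := ell_genus_one hg (D := A ⊔ B) (by omega)
  have e5 := K6_deg_sup A B
  unfold ell at e1 e2 e3 e4
  omega

/-- the ideal generated by two sections -/
theorem K6_surj (hg : genus κ F = 1) {g₁ g₂ x : F} (h₁ : g₁ ≠ 0) (h₂ : g₂ ≠ 0) {N₁ N₂ D : Dv κ F}
    (hD : deg N₁ + deg N₂ < deg D + deg ((N₁ + dv κ g₁) ⊓ (N₂ + dv κ g₂)))
    (hx : x ∈ LL (D - (N₁ + dv κ g₁) ⊓ (N₂ + dv κ g₂))) :
    ∃ a₁ ∈ LL (D - N₁), ∃ a₂ ∈ LL (D - N₂), x = a₁ * g₁ + a₂ * g₂ := by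
  have e1 : D - (N₁ + dv κ g₁) ⊓ (N₂ + dv κ g₂) = (D - (N₁ + dv κ g₁)) ⊔ (D - (N₂ + dv κ g₂)) := by
    ext P
    simp only [Finsupp.sub_apply, Finsupp.inf_apply, Finsupp.sup_apply]
    omega
  have e2 := K6_deg_sup (D - (N₁ + dv κ g₁)) (D - (N₂ + dv κ g₂))
  rw [← e1] at e2
  simp only [deg_sub, deg_add, deg_dv] at e2
  rw [e1, K6_LL_sup hg (by omega)] at hx
  obtain ⟨x₁, hx₁, x₂, hx₂, rfl⟩ := Submodule.mem_sup.1 hx
  have key : ∀ {g y : F} {N : Dv κ F}, g ≠ 0 → y ∈ LL (D - (N + dv κ g)) → y / g ∈ LL (D - N) := by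
    intro g y N hg0 hy
    have h := mul_mem_LL hy ((mem_LL_iff (D := dv κ g) (inv_ne_zero hg0)).2 (by simp [dv_inv]))
    rw [div_eq_mul_inv]
    convert h using 2
    abel
  exact ⟨_, key h₁ hx₁, _, key h₂ hx₂, by rw [div_mul_cancel₀ _ h₁, div_mul_cancel₀ _ h₂]⟩

theorem K6_one_mem {M : Dv κ F} (h : 0 ≤ M) : (1 : F) ∈ LL M :=
  (mem_LL_iff one_ne_zero).2 (by simpa [F1_dv_one] using h)

theorem K6_pd_nonneg (P : Place κ F) : 0 ≤ pd P := fun Q => by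
  rw [F1_pd_apply]; split_ifs <;> simp

theorem K6_dinf_nonneg (f : F) : 0 ≤ dinf κ f := fun Q => by
  rw [dinf_apply]; exact le_max_right _ _

theorem K6_span_one : Submodule.span κ (Set.range ![(1 : F)]) = LL (0 : Dv κ F) := by
  refine Submodule.eq_of_le_of_finrank_eq (Submodule.span_le.2 ?_) ?_
  · rintro _ ⟨i, rfl⟩
    simpa using K6_one_mem (le_refl (0 : Dv κ F))
  · have h := ell_zero (κ := κ) (F := F)
    unfold ell at h
    rw [h, Matrix.range_cons, Matrix.range_empty, Set.union_empty,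
      finrank_span_singleton one_ne_zero]

end

section
variable {κ F' E : Type} [Field κ] [IsAlgClosed κ] [CharZero κ] [Field F'] [Algebra κ F']
  [IsFF κ F'] [Field E] [Algebra κ E] [IsFF κ E]

theorem K6_tmul_mem {M : Dv κ F'} {N : Dv κ E} {c : F'} {u : E} (hc : c ∈ LL M) (hu : u ∈ LL N) :
    c ⊗ₜ[κ] u ∈ LT2 M N := Submodule.apply_mem_map₂ _ hc hu

theorem K6_const {M : Dv κ F'} {G : F' ⊗[κ] E} (h : G ∈ LT2 M (0 : Dv κ E)) :
    ∃ c ∈ LL M, G = c ⊗ₜ[κ] 1 := by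
  obtain ⟨c, hc, rfl⟩ := (mem_LT2_iff K6_span_one).1 h
  exact ⟨c 0, hc 0, by simp⟩

theorem K6_bound (G : F' ⊗[κ] E) : ∃ (M : Dv κ F') (N : Dv κ E), 0 ≤ M ∧ G ∈ LT2 M N := by
  induction G using TensorProduct.induction_on with
  | zero => exact ⟨0, 0, le_rfl, zero_mem _⟩
  | tmul c u => exact ⟨_, _, K6_dinf_nonneg c, K6_tmul_mem (mem_LL_dinf c) (mem_LL_dinf u)⟩
  | add x y hx hy =>
    obtain ⟨M, N, hM, h⟩ := hx
    obtain ⟨M', N', -, h'⟩ := hy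
    exact ⟨M ⊔ M', N ⊔ N', hM.trans le_sup_left,
      add_mem (LT2_mono le_sup_left le_sup_left h) (LT2_mono le_sup_right le_sup_right h')⟩

/-- a section can be scaled to have an effective divisor of coefficients -/
theorem K6_scale {M : Dv κ F'} {N : Dv κ E} {G : F' ⊗[κ] E} (h : G ∈ LT2 M N) (h0 : G ≠ 0) :
    ∃ (c : F') (M' : Dv κ F'), c ≠ 0 ∧ 0 ≤ M' ∧ deg M' = deg M ∧ c • G ∈ LT2 M' N := by
  obtain ⟨u, -, hu⟩ := exists_basis_LL N
  obtain ⟨c, hc, e⟩ := (mem_LT2_iff hu).1 h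
  obtain ⟨i, hi⟩ : ∃ i, c i ≠ 0 := by
    by_contra h1
    push Not at h1
    exact h0 (by simp [e, h1])
  refine ⟨(c i)⁻¹, dv κ (c i) + M, inv_ne_zero hi, ?_, by rw [deg_add, deg_dv, zero_add],
    smul_mem_LT2 ((mem_LL_iff (inv_ne_zero hi)).2 (by simp [dv_inv])) h⟩
  rw [add_comm]
  exact (mem_LL_iff hi).1 (hc i)

variable (o : Place κ E) (Ω : Type) [Field Ω] [IsAlgClosed Ω] [CharZero Ω] [Algebra κ Ω]

/-- base change of divisors -/
noncomputable def K6_hat : Dv κ E →+ DO o Ω :=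
  (bc o (Algebra.ofId κ Ω)).dv.comp (jK o).F4_pullHom

variable {o Ω}

theorem K6_hat_apply (N : Dv κ E) :
    K6_hat o Ω N = (bc o (Algebra.ofId κ Ω)).dv ((jK o).pull N) := rfl

theorem K6_hat_pd (Q : PO o κ) :
    K6_hat o Ω (pd ((jK o).res Q)) = pd ((bc o (Algebra.ofId κ Ω)).plc Q) := by
  rw [K6_hat_apply, FHom.pull_pd _ jK_surj, BC.dv_pd]

theorem K6_hat_oo : K6_hat o Ω (pd o) = pd (oo o Ω) := by
  have h := K6_hat_pd (Ω := Ω) (oo o κ)
  rwa [jK_res_oo, BC.plc_oo] at h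

theorem K6_deg_hat (N : Dv κ E) : deg (K6_hat o Ω N) = deg N := by
  rw [K6_hat_apply, BC.deg_dv, FHom.deg_pull, (FHom.deg_eq_one_iff _).2 jK_surj]
  simp

theorem K6_phi (u : E) : (bc o (Algebra.ofId κ Ω)).φ ((jK o).f u) = O1_j o Ω u := by
  rw [jK_f, bc_jF, O1_jF]

theorem K6_mem_hat {N : Dv κ E} {u : E} : O1_j o Ω u ∈ LL (K6_hat o Ω N) ↔ u ∈ LL N := by
  rw [← K6_phi, K6_hat_apply, BC.map_mem_LL, FHom.map_mem_LL]

theorem K6_hat_zero {P : PO o Ω} (hP : P ∉ Set.range (bc o (Algebra.ofId κ Ω)).plc)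
    (N : Dv κ E) : K6_hat o Ω N P = 0 := BC.O2_dv_zero _ _ hP

theorem K6_indep {ι : Type} [Fintype ι] {u : ι → E} (hu : LinearIndependent κ u) :
    LinearIndependent Ω fun i => O1_j o Ω (u i) := by
  have h1 : LinearIndependent κ fun i => O1_j o κ (u i) :=
    hu.map' (O1_j o κ).toLinearMap (LinearMap.ker_eq_bot.2 (O1_j o κ).injective)
  have h2 := (bc o (Algebra.ofId κ Ω)).O2_indep_phi h1
  simpa only [O1_jF, bc_jF] using h2

theorem K6_coord {N : Dv κ E} {ι : Type} [Fintype ι] {u : ι → E}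
    (hu : Submodule.span κ (Set.range u) = LL N) {x : FO o Ω} (hx : x ∈ LL (K6_hat o Ω N)) :
    ∃ c : ι → Ω, x = ∑ i, c i • O1_j o Ω (u i) := by
  rw [K6_hat_apply, BC.LL_dv] at hx
  have h : Submodule.span Ω ((bc o (Algebra.ofId κ Ω)).φ '' (LL ((jK o).pull N) : Set (FO o κ))) ≤
      Submodule.span Ω (Set.range fun i => O1_j o Ω (u i)) := by
    refine Submodule.span_le.2 ?_
    rintro _ ⟨z, hz, rfl⟩
    obtain ⟨z, rfl⟩ := jK_surj z
    have hz' : z ∈ LL N := (FHom.map_mem_LL _).1 hz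
    rw [← hu] at hz'
    obtain ⟨c, rfl⟩ := (Submodule.mem_span_range_iff_exists_fun _).1 hz'
    rw [K6_phi, map_sum]
    refine sum_mem fun i _ => ?_
    rw [map_smul, ← IsScalarTower.algebraMap_smul Ω]
    exact Submodule.smul_mem _ _ (Submodule.subset_span ⟨i, rfl⟩)
  obtain ⟨c, hc⟩ := (Submodule.mem_span_range_iff_exists_fun _).1 (h hx)
  exact ⟨c, hc.symm⟩

variable [Algebra F' Ω] [IsScalarTower κ F' Ω]

variable (o Ω F') in
/-- the generic fibre -/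
noncomputable def K6_th : F' ⊗[κ] E →ₐ[κ] FO o Ω :=
  Algebra.TensorProduct.lift
    ((IsScalarTower.toAlgHom κ Ω (FO o Ω)).comp (IsScalarTower.toAlgHom κ F' Ω)) (O1_j o Ω)
    fun _ _ => Commute.all _ _

theorem K6_th_tmul (c : F') (u : E) :
    K6_th F' o Ω (c ⊗ₜ[κ] u) = algebraMap F' Ω c • O1_j o Ω u := by
  rw [K6_th, Algebra.TensorProduct.lift_tmul, Algebra.smul_def]
  rfl

theorem K6_th_smul (c : F') (G : F' ⊗[κ] E) :
    K6_th F' o Ω (c • G) = algebraMap F' Ω c • K6_th F' o Ω G := by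
  have h : c • G = (c ⊗ₜ[κ] 1) * G := by
    rw [Algebra.smul_def]; rfl
  rw [h, map_mul, K6_th_tmul, map_one, smul_mul_assoc, one_mul]

theorem K6_th_ne {G : F' ⊗[κ] E} (h : G ≠ 0) : K6_th F' o Ω G ≠ 0 := by
  obtain ⟨ι, _, u, c, hu, hc, rfl⟩ := K4_rep G
  intro h0
  simp only [map_sum, K6_th_tmul] at h0
  have h1 := Fintype.linearIndependent_iff.1 (K6_indep (o := o) (Ω := Ω) hu) _ h0
  exact h (Finset.sum_eq_zero fun i _ => absurd ((map_eq_zero _).1 (h1 i)) (hc i))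

theorem K6_th_mem {N : Dv κ E} {G : F' ⊗[κ] E} (h : G ∈ LT F' N) :
    K6_th F' o Ω G ∈ LL (K6_hat o Ω N) := by
  obtain ⟨u, -, hu⟩ := exists_basis_LL N
  obtain ⟨c, rfl⟩ := (mem_LT_iff hu).1 h
  rw [map_sum]
  refine sum_mem fun i _ => ?_
  rw [K6_th_tmul]
  exact Submodule.smul_mem _ _ (K6_mem_hat.2 (hu ▸ Submodule.subset_span ⟨i, rfl⟩))

theorem K6_dv_smul {c : F'} (hc : c ≠ 0) (G : F' ⊗[κ] E) :
    dv Ω (K6_th F' o Ω (c • G)) = dv Ω (K6_th F' o Ω G) := by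
  ext P
  rw [dv_apply, dv_apply, K6_th_smul, P.ord_smul ((map_ne_zero _).2 hc)]

/-- bounded rational solutions -/
theorem K6_ker {M : Dv κ F'} {N : Dv κ E} (hM : 0 ≤ M) {n : Type} [Fintype n]
    (T : n → F' ⊗[κ] E) (hT : ∀ j, T j ∈ LT2 M N) (v : n → Ω)
    (hv : ∑ j, v j • K6_th F' o Ω (T j) = 0) {j₀ : n} (h0 : v j₀ ≠ 0) :
    ∃ w : n → F', ∑ j, w j • T j = 0 ∧ w j₀ ≠ 0 ∧ ∀ j, w j ∈ LL (ell N • M) := by
  obtain ⟨u, hi, hu⟩ := exists_basis_LL N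
  choose c hc hc' using fun j => (mem_LT2_iff hu).1 (hT j)
  have h1 : ∑ i, (∑ j, algebraMap F' Ω (c j i) * v j) • O1_j o Ω (u i) = 0 := by
    rw [← hv]
    simp only [hc', map_sum, K6_th_tmul, Finset.sum_smul, Finset.smul_sum, smul_smul]
    rw [Finset.sum_comm]
    simp only [mul_comm]
  obtain ⟨w, hw, hw0, hw1⟩ := ker_bounded (Matrix.of fun i j => c j i) hM (fun i j => hc j i) v
    (Fintype.linearIndependent_iff.1 (K6_indep (o := o) (Ω := Ω) hi) _ h1) h0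
  refine ⟨w, ?_, hw0, by simpa using hw1⟩
  simp only [hc', K4_smul_sum]
  rw [Finset.sum_comm]
  refine Finset.sum_eq_zero fun i _ => ?_
  have h2 := hw i
  simp only [Matrix.of_apply] at h2
  rw [← TensorProduct.sum_tmul]
  simp only [mul_comm (w _), h2, TensorProduct.zero_tmul]

end

end Pool.Agent.E6b
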