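import Pool.Agent.E6b.K6Aux

open scoped NNReal TensorProduct IntermediateField BigOperators Classical Topology
open Filter

namespace Pool.Agent.E6b

section
variable {κ F' E : Type} [Field κ] [IsAlgClosed κ] [CharZero κ] [Field F'] [Algebra κ F']
  [IsFF κ F'] [Field E] [Algebra κ E] [IsFF κ E]
  {o : Place κ E} {Ω : Type} [Field Ω] [IsAlgClosed Ω] [CharZero Ω] [Algebra κ Ω]
  [Algebra F' Ω] [IsScalarTower κ F' Ω]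

theorem K6_kerS {M : Dv κ F'} {N : Dv κ E} (hM : 0 ≤ M) {S : Type} [Fintype S]
    (H : S → F' ⊗[κ] E) (D N' : S → Dv κ E) (hH : ∀ s, H s ∈ LT2 M (N' s))
    (hD : ∀ s, D s + N' s ≤ N) (a : S → FO o Ω) (ha : ∀ s, a s ∈ LL (K6_hat o Ω (D s)))
    (hs : ∑ s, a s * K6_th F' o Ω (H s) = 0) {s₀ : S} (h0 : a s₀ ≠ 0) :
    ∃ A : S → F' ⊗[κ] E, (∀ s, A s ∈ LT2 (ell N • M) (D s)) ∧ A s₀ ≠ 0 ∧ ∑ s, A s * H s = 0 := by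
  choose u hi hu using fun s => exists_basis_LL (D s)
  choose c hc using fun s => K6_coord (hu s) (ha s)
  obtain ⟨i₀, hi₀⟩ : ∃ i, c s₀ i ≠ 0 := by
    by_contra h1
    push Not at h1
    exact h0 (by simp [hc s₀, h1])
  have hm : ∀ s i, u s i ∈ LL (D s) := fun s i => hu s ▸ Submodule.subset_span ⟨i, rfl⟩
  obtain ⟨w, hw, hw0, hw1⟩ := K6_ker (o := o) (Ω := Ω) (N := N) hM
    (n := Σ s, Fin (ell (D s))) (fun j => ((1 : F') ⊗ₜ[κ] u j.1 j.2) * H j.1)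
    (fun j => LT2_mono (zero_add M).le (hD j.1)
      (mul_mem_LT2 (K6_tmul_mem (K6_one_mem le_rfl) (hm j.1 j.2)) (hH j.1)))
    (fun j => c j.1 j.2) (by
      rw [← hs, Fintype.sum_sigma]
      refine Finset.sum_congr rfl fun s _ => ?_
      rw [hc s, Finset.sum_mul]
      refine Finset.sum_congr rfl fun i _ => ?_
      rw [map_mul, K6_th_tmul, map_one, one_smul, smul_mul_assoc]) (j₀ := ⟨s₀, i₀⟩) hi₀
  refine ⟨fun s => ∑ i, w ⟨s, i⟩ ⊗ₜ[κ] u s i,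
    fun s => sum_mem fun i _ => K6_tmul_mem (hw1 _) (hm s i),
    fun h => hw0 (congrFun (eq_zero_of_sum_tmul (hi s₀) h) i₀), ?_⟩
  rw [← hw, Fintype.sum_sigma]
  refine Finset.sum_congr rfl fun s _ => ?_
  rw [Finset.sum_mul]
  refine Finset.sum_congr rfl fun i _ => ?_
  rw [← smul_mul_assoc, TensorProduct.smul_tmul', smul_eq_mul, mul_one]

theorem K6_ker3 {M : Dv κ F'} (hM : 0 ≤ M) {N N₀ N₁ N₂ D₀ D₁ D₂ : Dv κ E} {H₀ H₁ H₂ : F' ⊗[κ] E}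
    (h₀ : H₀ ∈ LT2 M N₀) (h₁ : H₁ ∈ LT2 M N₁) (h₂ : H₂ ∈ LT2 M N₂) (e₀ : D₀ + N₀ ≤ N)
    (e₁ : D₁ + N₁ ≤ N) (e₂ : D₂ + N₂ ≤ N) {a₀ a₁ a₂ : FO o Ω} (ha₀ : a₀ ∈ LL (K6_hat o Ω D₀))
    (ha₁ : a₁ ∈ LL (K6_hat o Ω D₁)) (ha₂ : a₂ ∈ LL (K6_hat o Ω D₂))
    (hs : a₀ * K6_th F' o Ω H₀ + a₁ * K6_th F' o Ω H₁ + a₂ * K6_th F' o Ω H₂ = 0) (h0 : a₀ ≠ 0) :
    ∃ A₀ ∈ LT2 (ell N • M) D₀, ∃ A₁ ∈ LT2 (ell N • M) D₁, ∃ A₂ ∈ LT2 (ell N • M) D₂,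
      A₀ ≠ 0 ∧ A₀ * H₀ + A₁ * H₁ + A₂ * H₂ = 0 := by
  obtain ⟨A, hA, hA0, hA1⟩ := K6_kerS (o := o) (Ω := Ω) (N := N) hM ![H₀, H₁, H₂] ![D₀, D₁, D₂]
    ![N₀, N₁, N₂] (fun s => by fin_cases s <;> assumption) (fun s => by fin_cases s <;> assumption)
    ![a₀, a₁, a₂] (fun s => by fin_cases s <;> assumption)
    (by rw [Fin.sum_univ_three]; exact hs) (s₀ := 0) h0
  rw [Fin.sum_univ_three] at hA1
  exact ⟨A 0, hA 0, A 1, hA 1, A 2, hA 2, hA0, hA1⟩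

/-- descent -/
theorem K6_desc {D₁ D₂ : Dv κ E} {G₀ G₁ G₂ : F' ⊗[κ] E} {a₁ a₂ : FO o Ω}
    (ha₁ : a₁ ∈ LL (K6_hat o Ω D₁)) (ha₂ : a₂ ∈ LL (K6_hat o Ω D₂))
    (hs : K6_th F' o Ω G₀ = a₁ * K6_th F' o Ω G₁ + a₂ * K6_th F' o Ω G₂) :
    ∃ A₁ ∈ LT F' D₁, ∃ A₂ ∈ LT F' D₂, A₁ * G₁ + A₂ * G₂ = G₀ := by
  obtain ⟨M₀, N₀, hM, h₀⟩ := K6_bound G₀
  obtain ⟨M₁, N₁, -, h₁⟩ := K6_bound G₁
  obtain ⟨M₂, N₂, -, h₂⟩ := K6_bound G₂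
  obtain ⟨A₀, hA₀, A₁, hA₁, A₂, hA₂, h0, h⟩ := K6_ker3 (o := o) (Ω := Ω) (M := M₀ ⊔ (M₁ ⊔ M₂))
    (hM.trans le_sup_left) (N := (0 + N₀) ⊔ ((D₁ + N₁) ⊔ (D₂ + N₂))) (D₀ := 0)
    (LT2_mono le_sup_left le_rfl h₀) (LT2_mono (le_sup_left.trans le_sup_right) le_rfl h₁)
    (LT2_mono (le_sup_right.trans le_sup_right) le_rfl h₂) le_sup_left
    (le_sup_left.trans le_sup_right) (le_sup_right.trans le_sup_right)
    (a₀ := -1) (neg_mem (K6_one_mem (map_zero _).ge)) ha₁ ha₂ (by rw [hs]; ring) (by simp)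
  obtain ⟨c, -, rfl⟩ := K6_const hA₀
  have hc : c ≠ 0 := fun h => h0 (by simp [h])
  refine ⟨(-c⁻¹) • A₁, Submodule.smul_mem _ _ (LT2_le_LT hA₁), (-c⁻¹) • A₂,
    Submodule.smul_mem _ _ (LT2_le_LT hA₂), ?_⟩
  have h1 : (c ⊗ₜ[κ] (1 : E)) * G₀ = c • G₀ := by rw [Algebra.smul_def]; rfl
  rw [h1, add_assoc, add_eq_zero_iff_neg_eq] at h
  rw [smul_mul_assoc, smul_mul_assoc, ← smul_add, ← h, smul_neg, neg_smul, neg_neg, smul_smul,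
    inv_mul_cancel₀ hc, one_smul]

theorem K6_desc1 {D : Dv κ E} {G H : F' ⊗[κ] E} (hH : H ≠ 0)
    (ha : K6_th F' o Ω G / K6_th F' o Ω H ∈ LL (K6_hat o Ω D)) : ∃ A ∈ LT F' D, G = H * A := by
  obtain ⟨A, hA, B, -, h⟩ := K6_desc (G₀ := G) (G₁ := H) (G₂ := 0) (D₂ := 0) ha (zero_mem _)
    (by rw [div_mul_cancel₀ _ (K6_th_ne hH), zero_mul, add_zero])
  exact ⟨A, hA, by rw [← h, mul_zero, add_zero, mul_comm]⟩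

variable (o Ω) in
/-- divisor of zeros on the generic fibre -/
noncomputable def K6_Z (N : Dv κ E) (G : F' ⊗[κ] E) : DO o Ω :=
  K6_hat o Ω N + dv Ω (K6_th F' o Ω G)

theorem K6_Z_nonneg {N : Dv κ E} {G : F' ⊗[κ] E} (h : G ∈ LT F' N) (h0 : G ≠ 0) :
    0 ≤ K6_Z o Ω N G := (mem_LL_iff (K6_th_ne h0)).1 (K6_th_mem h)

theorem K6_deg_Z (N : Dv κ E) (G : F' ⊗[κ] E) : deg (K6_Z o Ω N G) = deg N := by
  rw [K6_Z, deg_add, deg_dv, add_zero, K6_deg_hat]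

theorem K6_cop (hg : genus κ E = 1) {N₁ N₂ : Dv κ E} {G₁ G₂ : F' ⊗[κ] E} (h₁ : G₁ ≠ 0)
    (h₂ : G₂ ≠ 0) (h : K6_Z o Ω N₁ G₁ ⊓ K6_Z o Ω N₂ G₂ = 0) : Cop G₁ G₂ N₁ N₂ := by
  intro N hN u hu
  unfold K6_Z at h
  obtain ⟨a₁, ha₁, a₂, ha₂, e⟩ := K6_surj (genus_FO.trans hg) (K6_th_ne (o := o) (Ω := Ω) h₁)
    (K6_th_ne h₂) (N₁ := K6_hat o Ω N₁) (N₂ := K6_hat o Ω N₂) (D := K6_hat o Ω N)
    (x := O1_j o Ω u) (by rw [h, deg_zero]; simp only [K6_deg_hat]; omega)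
    (by rw [h, sub_zero]; exact K6_mem_hat.2 hu)
  rw [← map_sub] at ha₁ ha₂
  exact K6_desc ha₁ ha₂ (by rw [K6_th_tmul, map_one, one_smul, e])

/-- the end of the proof, once the common divisor is known to have a constant class -/
theorem K6_fin (hg : genus κ E = 1) {N₀ N₁ N₂ : Dv κ E} {f G₁ G₂ : F' ⊗[κ] E}
    (m₁ : G₁ ∈ LT F' N₁) (m₂ : G₂ ∈ LT F' N₂) (h₁ : G₁ ≠ 0) (h₂ : G₂ ≠ 0) (hf : f ≠ 0)
    (h : K6_Z o Ω N₀ f = K6_Z o Ω N₁ G₁ ⊓ K6_Z o Ω N₂ G₂) :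
    ∃ G₁' G₂' : F' ⊗[κ] E, f ∈ LT F' N₀ ∧
      G₁' ∈ LT F' (N₁ - N₀) ∧ G₂' ∈ LT F' (N₂ - N₀) ∧ G₁ = f * G₁' ∧ G₂ = f * G₂' ∧
      Cop G₁' G₂' (N₁ - N₀) (N₂ - N₀) ∧ (deg N₀ = 0 → Cop G₁ G₂ N₁ N₂) := by
  have h0 : 0 ≤ K6_Z o Ω N₀ f := h ▸ le_inf (K6_Z_nonneg m₁ h₁) (K6_Z_nonneg m₂ h₂)
  have hf' := K6_th_ne (o := o) (Ω := Ω) hf
  have key : ∀ {N : Dv κ E} {G : F' ⊗[κ] E}, G ≠ 0 → K6_Z o Ω N₀ f ≤ K6_Z o Ω N G →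
      ∃ A ∈ LT F' (N - N₀), G = f * A ∧ A ≠ 0 ∧
        K6_Z o Ω (N - N₀) A = K6_Z o Ω N G - K6_Z o Ω N₀ f := by
    intro N G hG hle
    have hG' := K6_th_ne (o := o) (Ω := Ω) hG
    obtain ⟨A, hA, e⟩ := K6_desc1 (o := o) (Ω := Ω) (D := N - N₀) (G := G) hf (by
      rw [mem_LL_iff (div_ne_zero hG' hf'), dv_div hG' hf', map_sub]
      refine (sub_nonneg.2 hle).trans_eq ?_
      unfold K6_Z
      abel)
    have hA0 : A ≠ 0 := fun h => hG (by rw [e, h, mul_zero])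
    refine ⟨A, hA, e, hA0, ?_⟩
    unfold K6_Z
    rw [e, map_mul, dv_mul hf' (K6_th_ne hA0), map_sub]
    abel
  obtain ⟨A, hA, e, -⟩ : ∃ A ∈ LT F' N₀, f = 1 * A ∧ True := by
    obtain ⟨A, hA, e⟩ := K6_desc1 (o := o) (Ω := Ω) (D := N₀) (G := f) (H := 1) one_ne_zero
      (by rw [map_one, div_one]; exact (mem_LL_iff hf').2 h0)
    exact ⟨A, hA, e, trivial⟩
  obtain ⟨A₁, hA₁, e₁, n₁, z₁⟩ := key h₁ (h.le.trans inf_le_left)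
  obtain ⟨A₂, hA₂, e₂, n₂, z₂⟩ := key h₂ (h.le.trans inf_le_right)
  refine ⟨A₁, A₂, by rwa [e, one_mul], hA₁, hA₂, e₁, e₂, K6_cop (o := o) (Ω := Ω) hg n₁ n₂ ?_,
    fun hd => K6_cop (o := o) (Ω := Ω) hg h₁ h₂ ?_⟩
  · rw [z₁, z₂, ← inf_sub, ← h, sub_self]
  · rw [← h]
    exact (eq_of_le_of_deg_le h0 (by rw [K6_deg_Z, deg_zero, hd])).symm

/-- a rational section with bounded coefficients and exactly one extra zero -/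
theorem K6_step1 (hg : genus κ E = 1) {M : Dv κ F'} (hM : 0 ≤ M) {N₁ N₂ : Dv κ E}
    {G₁ G₂ : F' ⊗[κ] E} (m₁ : G₁ ∈ LT2 M N₁) (m₂ : G₂ ∈ LT2 M N₂) (h₁ : G₁ ≠ 0) (h₂ : G₂ ≠ 0)
    {α : ℕ} (d₁ : deg N₁ ≤ α) (d₂ : deg N₂ ≤ α) :
    ∃ (n : ℤ) (f : F' ⊗[κ] E) (y : PO o Ω), f ≠ 0 ∧ f ∈ LT2 ((2 * α + 1) • M) (n • pd o) ∧
      K6_Z o Ω (n • pd o) f = K6_Z o Ω N₁ G₁ ⊓ K6_Z o Ω N₂ G₂ + pd y := by
  obtain ⟨Γ, hΓ⟩ : ∃ Γ, Γ = K6_Z o Ω N₁ G₁ ⊓ K6_Z o Ω N₂ G₂ := ⟨_, rfl⟩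
  have h0 : 0 ≤ Γ := hΓ ▸ le_inf (K6_Z_nonneg (LT2_le_LT m₁) h₁) (K6_Z_nonneg (LT2_le_LT m₂) h₂)
  have hd0 : 0 ≤ deg Γ := F1_deg_nonneg h0
  have hd1 : deg Γ ≤ α := by
    have := deg_mono (hΓ.le.trans inf_le_left)
    rw [K6_deg_Z] at this
    omega
  have hj : 0 ≤ Γ (oo o Ω) := h0 _
  have hg' : genus Ω (FO o Ω) = 1 := genus_FO.trans hg
  have hat : ∀ n : ℤ, K6_hat o Ω (n • pd o) = n • pd (oo o Ω) := fun n => by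
    rw [map_zsmul, K6_hat_oo]
  have mono : ∀ {n m : ℤ}, n ≤ m → n • pd o ≤ m • pd o := fun h =>
    zsmul_le_zsmul_left (K6_pd_nonneg o) h
  have mono' : ∀ {n m : ℤ}, n ≤ m → n • pd (oo o Ω) ≤ m • pd (oo o Ω) := fun h =>
    zsmul_le_zsmul_left (K6_pd_nonneg _) h
  obtain ⟨x, hx, hx0⟩ : ∃ x ∈ LL ((deg Γ + 1) • pd (oo o Ω) - Γ), x ≠ 0 := by
    refine (Submodule.ne_bot_iff _).1 fun h => ?_
    have h1 := ell_genus_one hg' (D := (deg Γ + 1) • pd (oo o Ω) - Γ)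
      (by rw [deg_sub, deg_zsmul, deg_pd]; omega)
    rw [ell_eq_zero_iff.2 h, deg_sub, deg_zsmul, deg_pd] at h1
    omega
  obtain ⟨a₁, ha₁, a₂, ha₂, e⟩ := K6_surj hg' (K6_th_ne (o := o) (Ω := Ω) h₁)
    (K6_th_ne h₂) (N₁ := K6_hat o Ω N₁) (N₂ := K6_hat o Ω N₂)
    (D := K6_hat o Ω ((2 * α + 1 : ℤ) • pd o)) (x := x)
    (by
      change _ < _ + deg (K6_Z o Ω N₁ G₁ ⊓ K6_Z o Ω N₂ G₂)
      simp only [K6_deg_hat, ← hΓ, deg_zsmul, deg_pd]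
      omega)
    (by
      change x ∈ LL (_ - K6_Z o Ω N₁ G₁ ⊓ K6_Z o Ω N₂ G₂)
      rw [← hΓ, hat]
      exact LL_mono (sub_le_sub_right (mono' (by omega)) _) hx)
  rw [← map_sub] at ha₁ ha₂
  have hx' : x ∈ LL (K6_hat o Ω ((deg Γ + 1 - Γ (oo o Ω)) • pd o)) := by
    rw [hat]
    refine LL_mono (fun P => ?_) hx
    have := h0 P
    simp only [Finsupp.sub_apply, Finsupp.smul_apply, F1_pd_apply, Finsupp.coe_zero,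
      Pi.zero_apply, smul_eq_mul] at this ⊢
    split_ifs with h
    · subst h; omega
    · omega
  obtain ⟨f, hf, A₁, hA₁, A₂, hA₂, f0, hs⟩ := K6_ker3 (o := o) (Ω := Ω) hM
    (N := (2 * α + 1 : ℤ) • pd o) (H₀ := (1 : F') ⊗ₜ[κ] (1 : E)) (N₀ := 0)
    (K6_tmul_mem (K6_one_mem hM) (K6_one_mem le_rfl)) m₁ m₂
    (by rw [add_zero]; exact mono (by omega)) (sub_add_cancel _ _).le (sub_add_cancel _ _).le
    (neg_mem hx') ha₁ ha₂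
    (by rw [K6_th_tmul, map_one, map_one, one_smul, e]; ring) (neg_ne_zero.2 hx0)
  have hl : ell ((2 * α + 1 : ℤ) • pd o) = 2 * α + 1 := by
    have := ell_genus_one hg (D := (2 * α + 1 : ℤ) • pd o) (by rw [deg_zsmul, deg_pd]; omega)
    rw [deg_zsmul, deg_pd] at this
    omega
  rw [hl] at hf
  have hf' := K6_th_ne (o := o) (Ω := Ω) f0
  have k1 := K6_Z_nonneg (o := o) (Ω := Ω) (LT2_le_LT hf) f0
  have k2 : K6_th F' o Ω f ∈ LL ((2 * α + 1 : ℤ) • pd (oo o Ω) - Γ) := by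
    have key : ∀ {N : Dv κ E} {A G : F' ⊗[κ] E}, A ∈ LT F' ((2 * α + 1 : ℤ) • pd o - N) → G ≠ 0 →
        Γ ≤ K6_Z o Ω N G → K6_th F' o Ω (A * G) ∈ LL ((2 * α + 1 : ℤ) • pd (oo o Ω) - Γ) := by
      intro N A G hA hG hle
      have h2 : K6_th F' o Ω G ∈ LL (K6_hat o Ω N - Γ) := by
        rw [mem_LL_iff (K6_th_ne hG)]
        refine (sub_nonneg.2 hle).trans_eq ?_
        unfold K6_Z
        abel
      have h3 := mul_mem_LL (K6_th_mem (o := o) (Ω := Ω) hA) h2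
      rw [map_sub, hat, sub_add_sub_cancel] at h3
      rwa [map_mul]
    have h4 : f = -(A₁ * G₁ + A₂ * G₂) := by
      rw [← Algebra.TensorProduct.one_def, mul_one, add_assoc] at hs
      exact eq_neg_of_add_eq_zero_left hs
    rw [h4, map_neg, map_add]
    exact neg_mem (add_mem (key (LT2_le_LT hA₁) h₁ (hΓ.le.trans inf_le_left))
      (key (LT2_le_LT hA₂) h₂ (hΓ.le.trans inf_le_right)))
  rw [mem_LL_iff hf'] at k2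
  have k3 : 0 ≤ K6_Z o Ω ((deg Γ + 1) • pd o) f - Γ := fun P => by
    have a1 := k1 P
    have a2 := k2 P
    simp only [K6_Z, hat, Finsupp.sub_apply, Finsupp.add_apply, Finsupp.smul_apply, F1_pd_apply,
      Finsupp.coe_zero, Pi.zero_apply, smul_eq_mul] at a1 a2 ⊢
    split_ifs at a1 a2 ⊢ with h
    · subst h; omega
    · omega
  obtain ⟨y, hy⟩ := exists_eq_sum_pd k3 (n := 1)
    (by rw [deg_sub, K6_deg_Z, deg_zsmul, deg_pd]; omega)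
  refine ⟨deg Γ + 1, f, y 0, f0, LT2_mono le_rfl (mono (by omega)) hf, ?_⟩
  rw [← hΓ, ← sub_eq_iff_eq_add', hy, Fin.sum_univ_one]

end

end Pool.Agent.E6b
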