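import Pool.Agent.E6b.K6

open scoped NNReal TensorProduct IntermediateField BigOperators Classical Topology
open Filter

namespace Pool.Agent.E6b

theorem NoMap.mono {κ E F' : Type} [Field κ] [Field E] [Algebra κ E] [Field F'] [Algebra κ F']
    {B B' : ℕ} (h : NoMap κ E F' B') (hB : B ≤ B') : NoMap κ E F' B := fun φ => hB.trans_lt (h φ)

section
variable {κ F F' E : Type} [Field κ] [IsAlgClosed κ] [CharZero κ] [Field F] [Algebra κ F] [IsFF κ F]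
  [Field F'] [Algebra κ F'] [IsFF κ F'] [Field E] [Algebra κ E] [IsFF κ E]

theorem K7_dinf_nonneg (f : F) : 0 ≤ dinf κ f := fun P => by
  rw [dinf_apply]; exact le_max_right _ _

theorem K7_linEq_dv (D : Dv κ F) {f : F} (hf : f ≠ 0) : LinEq (D + dv κ f) D :=
  LinEq.symm ⟨f, hf, rfl⟩

theorem K7_deg_le (φ : FHom κ F' F) {Bd : Dv κ F} {W : Dv κ F'} (hB : 0 ≤ Bd) (hW : 0 ≤ W) {α : ℕ}
    (hc : ∀ Q, ((φ.fib Q).filter fun R => 0 < Bd R).card ≤ α)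
    (hle : ∀ R, Bd R ≤ α * W (φ.res R)) : deg Bd ≤ (α : ℤ) ^ 2 * deg W := by
  have hpos : ∀ R ∈ Bd.support, 0 < Bd R := fun R hR =>
    lt_of_le_of_ne (hB R) (Ne.symm (Finsupp.mem_support_iff.1 hR))
  have hmap : ∀ R ∈ Bd.support, φ.res R ∈ W.support := by
    intro R hR
    rw [Finsupp.mem_support_iff]
    intro h0
    have h1 := hle R
    rw [h0, mul_zero] at h1
    exact absurd (hpos R hR) (not_lt.2 h1)
  unfold deg Finsupp.sum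
  rw [← Finset.sum_fiberwise_of_maps_to hmap, Finset.mul_sum]
  refine Finset.sum_le_sum fun Q _ => ?_
  have h1 : ∑ R ∈ Bd.support.filter (fun R => φ.res R = Q), Bd R ≤
      (Bd.support.filter (fun R => φ.res R = Q)).card • ((α : ℤ) * W Q) := by
    refine Finset.sum_le_card_nsmul _ _ _ fun R hR => ?_
    have h2 := hle R
    rwa [(Finset.mem_filter.1 hR).2] at h2
  have h2 : (Bd.support.filter (fun R => φ.res R = Q)).card ≤ α := by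
    refine le_trans (Finset.card_le_card fun R hR => ?_) (hc Q)
    rw [Finset.mem_filter] at hR ⊢
    exact ⟨φ.mem_fib.2 hR.2, hpos R hR.1⟩
  have h3 : (0 : ℤ) ≤ α * W Q := mul_nonneg (Int.natCast_nonneg _) (hW Q)
  have h4 : ((Bd.support.filter (fun R => φ.res R = Q)).card : ℤ) ≤ α := by exact_mod_cast h2
  rw [nsmul_eq_mul] at h1
  calc _ ≤ _ := h1
    _ ≤ (α : ℤ) * (α * W Q) := mul_le_mul_of_nonneg_right h4 h3
    _ = _ := by ring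

/-- the common zeros of two coprime sections with common content -/
theorem K7_bd (S : Sq κ F' E F) (hg : genus κ E = 1) {N : Dv κ E} {G₁ G₂ : F' ⊗[κ] E}
    (h₁ : G₁ ∈ LT F' N) (h₂ : G₂ ∈ LT F' N) (h₁' : S.rho G₁ ≠ 0) (h₂' : S.rho G₂ ≠ 0)
    (hc : Cop G₁ G₂ N N) {α : ℕ} (hN : deg N ≤ α) :
    deg (S.Z (cont G₁ ⊔ cont G₂) N G₁ ⊓ S.Z (cont G₁ ⊔ cont G₂) N G₂) ≤
      (α : ℤ) ^ 2 * ((2 * α + 2) * deg (cont G₁ ⊔ cont G₂)) := by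
  have g₁ : G₁ ≠ 0 := fun h => h₁' (by rw [h, map_zero])
  have g₂ : G₂ ≠ 0 := fun h => h₂' (by rw [h, map_zero])
  set M := cont G₁ ⊔ cont G₂ with hM
  have m₁ : G₁ ∈ LT2 M N := (mem_LT2_iff_cont g₁ M N).2 ⟨h₁, le_sup_left⟩
  have m₂ : G₂ ∈ LT2 M N := (mem_LT2_iff_cont g₂ M N).2 ⟨h₂, le_sup_right⟩
  have hM0 : 0 ≤ deg M := ((bpf_cont g₁).sup (bpf_cont g₂)).deg_nonneg
  have hb : deg M ≤ ((deg M).toNat : ℤ) := Int.self_le_toNat _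
  obtain ⟨W, hW0, hWd, hW⟩ := S.base_bound hg m₁ m₂ h₁' h₂' hc hN hN hb hb
  rw [Int.toNat_of_nonneg hM0] at hWd
  have z₁ := S.Z_nonneg m₁ h₁'
  have z₂ := S.Z_nonneg m₂ h₂'
  have key : ∀ Q : Place κ F', ∃ Z : Dv κ F, S.Z M N G₁ ⊓ S.Z M N G₂ ≤ Z ∧
      ((S.q'.fib Q).filter fun R => 0 < Z R).card ≤ α ∧
        ∀ R ∈ S.q'.fib Q, α < S.q'.e R → Z R ≤ α := by
    intro Q
    rcases S.fib_bound m₁ h₁' hN Q with a₁ | a₁
    · rcases S.fib_bound m₂ h₂' hN Q with a₂ | a₂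
      · exfalso
        have b₁ := ((mem_LT2_iff_cont g₁ _ _).1 a₁).2
        have b₂ := ((mem_LT2_iff_cont g₂ _ _).1 a₂).2
        have b : M ≤ M - pd Q := sup_le b₁ b₂
        have b' := deg_mono b
        rw [deg_sub, deg_pd] at b'
        omega
      · exact ⟨_, inf_le_right, a₂⟩
    · exact ⟨_, inf_le_left, a₁⟩
  refine le_trans (K7_deg_le S.q' (le_inf z₁ z₂) hW0 (α := α) (fun Q => ?_) (fun R => ?_))
    (mul_le_mul_of_nonneg_left hWd (sq_nonneg _))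
  · obtain ⟨Z, hZ, hcard, -⟩ := key Q
    refine le_trans (Finset.card_le_card fun R hR => ?_) hcard
    rw [Finset.mem_filter] at hR ⊢
    exact ⟨hR.1, hR.2.trans_le (hZ R)⟩
  · obtain ⟨Z, hZ, -, he⟩ := key (S.q'.res R)
    have h1 := hW R
    rw [S.q'.pull_apply] at h1
    have h2 : (0 : ℤ) ≤ W (S.q'.res R) := hW0 _
    by_cases h3 : α < S.q'.e R
    · have h4 := (hZ R).trans (he R (S.q'.mem_fib.2 rfl) h3)
      rcases h2.eq_or_lt with h5 | h5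
      · rw [← h5, mul_zero] at h1 ⊢
        exact h1
      · exact h4.trans (le_mul_of_one_le_right (Int.natCast_nonneg _) h5)
    · have h4 : (S.q'.e R : ℤ) ≤ α := by exact_mod_cast not_lt.1 h3
      exact h1.trans (mul_le_mul_of_nonneg_right h4 h2)

theorem K7_sec (S : Sq κ F' E F) {M : Dv κ F'} {N : Dv κ E} {Z : Dv κ F} (hM : deg M < rk κ S.t')
    (hN : deg N < rk κ S.t) (hZ : 0 ≤ Z) (h : LinEq Z (S.q'.pull M + S.q.pull N)) :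
    ∃ G ∈ LT2 M N, S.rho G ≠ 0 ∧ Z = S.Z M N G := by
  obtain ⟨x, hx, hZx⟩ := h.symm
  have hM' : ell (M - dinf κ S.t') = 0 := by
    rw [ell_eq_zero_iff]
    apply LL_eq_bot
    rw [deg_sub, deg_dinf_rk S.nc']
    omega
  obtain ⟨G, hG, hGx⟩ := S.hf hM' hN ((mem_LL_iff hx).2 (hZx ▸ hZ))
  refine ⟨G, hG, hGx ▸ hx, ?_⟩
  rw [hZx, ← hGx]
  rfl

theorem K7_Z_le (S : Sq κ F' E F) {M : Dv κ F'} {N N₀ : Dv κ E} {h G : F' ⊗[κ] E}
    (hm : h * G ∈ LT2 M N) (hG : G ∈ LT F' (N - N₀)) (h0 : S.rho (h * G) ≠ 0) :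
    S.Z (cont h) N₀ h ≤ S.Z M N (h * G) := by
  rw [map_mul] at h0
  have r₁ : S.rho h ≠ 0 := left_ne_zero_of_mul h0
  have r₂ : S.rho G ≠ 0 := right_ne_zero_of_mul h0
  have g₁ : h ≠ 0 := fun e => r₁ (by rw [e, map_zero])
  have g₂ : G ≠ 0 := fun e => r₂ (by rw [e, map_zero])
  have c := ((mem_LT2_iff_cont (mul_ne_zero g₁ g₂) M N).1 hm).2
  rw [cont_mul g₁ g₂] at c
  have m : G ∈ LT2 (M - cont h) (N - N₀) :=
    (mem_LT2_iff_cont g₂ _ _).2 ⟨hG, le_sub_iff_add_le'.2 c⟩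
  have z := S.Z_nonneg m r₂
  have e : S.Z M N (h * G) = S.Z (cont h) N₀ h + S.Z (M - cont h) (N - N₀) G := by
    unfold Sq.Z
    rw [map_mul, dv_mul r₁ r₂, FHom.pull_sub, FHom.pull_sub]
    abel
  rw [e]
  exact le_add_of_nonneg_right z

end

/-- one step of the classification of pencils of low degree -/
theorem cl_step (α b : ℕ) : ∃ B : ℕ, ∀ {κ F F' E : Type} [Field κ] [IsAlgClosed κ] [CharZero κ]
    [Field F] [Algebra κ F] [IsFF κ F] [Field F'] [Algebra κ F'] [IsFF κ F'] [Field E] [Algebra κ E]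
    [IsFF κ E] (S : Sq κ F' E F), genus κ E = 1 → NoMap κ E F' B →
      genus κ F' + rk κ S.t' ≤ b → 2 * α ^ 2 * (2 * α + 2) + α < rk κ S.t →
      ∀ Λ : Dv κ F, BPF Λ → deg Λ < α * rk κ S.t' →
        ∃ (M : Dv κ F') (N : Dv κ E) (Bd : Dv κ F), BPF M ∧ 0 ≤ deg N ∧ 0 ≤ Bd ∧
          LinEq (Λ + Bd) (S.q'.pull M + S.q.pull N) ∧ rk κ S.t * deg M ≤ 2 * deg Λ ∧
          rk κ S.t * deg Bd ≤ 2 * α ^ 2 * (2 * α + 2) * deg Λ := by
  obtain ⟨B, hB⟩ := split α b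
  refine ⟨B, ?_⟩
  intro κ F F' E _ _ _ _ _ _ _ _ _ _ _ _ S hg hno hb hn Λ hΛ hd
  obtain ⟨φ, hφ, hΛφ⟩ := hΛ.exists_dinf
  obtain ⟨D₀, hD₀, hD₀'⟩ := exists_ell_zero (κ := κ) (F := F')
  obtain ⟨o⟩ : Nonempty (Place κ E) := inferInstance
  have hΛ0 := hΛ.deg_nonneg
  have hα : 0 < α := by
    rcases Nat.eq_zero_or_pos α with h | h
    · rw [h] at hd
      simp only [Nat.cast_zero, zero_mul] at hd
      omega
    · exact h
  have hb' : (genus κ F' : ℤ) + rk κ S.t' ≤ b := by exact_mod_cast hb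
  have hn' : 2 * (α : ℤ) ^ 2 * (2 * α + 2) + α < rk κ S.t := by exact_mod_cast hn
  have hc0 : 0 ≤ (α : ℤ) ^ 2 * (2 * α + 2) := by positivity
  set M' : Dv κ F' := D₀ + dinf κ S.t' with hM'
  set N : Dv κ E := α • pd o with hN
  have dM' : deg M' = genus κ F' - 1 + rk κ S.t' := by
    rw [hM', deg_add, hD₀, deg_dinf_rk S.nc']
  have dN : deg N = α := by rw [hN, deg_nsmul, deg_pd, mul_one]
  have eM : ell (M' - dinf κ S.t') = 0 := by rw [hM', add_sub_cancel_right]; exact hD₀'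
  have dN' : deg N < rk κ S.t := by rw [dN]; linarith
  have e1 := S.ell_hf eM dN'
  have e2 := riemann M'
  have e3 := ell_genus_one hg (D := N) (by rw [dN]; exact_mod_cast hα)
  set D := S.q'.pull M' + S.q.pull N with hD
  have e4 := ell_add_le (D - dinf κ φ) (K7_dinf_nonneg φ)
  rw [sub_add_cancel, e1, ← hΛφ.deg] at e4
  have e5 : ell (D - dinf κ φ) ≠ 0 := by
    intro h
    rw [h] at e4
    push_cast at e4
    rw [e3, dN] at e4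
    have h1 : (rk κ S.t' : ℤ) ≤ ell M' := by linarith
    have h2 : (rk κ S.t' : ℤ) * α ≤ ell M' * α :=
      mul_le_mul_of_nonneg_right h1 (Int.natCast_nonneg _)
    linarith
  obtain ⟨x, hx, hx0⟩ := Submodule.exists_mem_ne_zero_of_ne_bot (mt ell_eq_zero_iff.2 e5)
  have hx1 : x ∈ LL D := LL_mono (sub_le_self _ (K7_dinf_nonneg φ)) hx
  have hx2 : φ * x ∈ LL D := by
    have := mul_mem_LL (mem_LL_dinf φ) hx
    rwa [add_sub_cancel] at this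
  obtain ⟨G₁, m₁, r₁⟩ := S.hf eM dN' hx1
  obtain ⟨G₂, m₂, r₂⟩ := S.hf eM dN' hx2
  have g₁ : G₁ ≠ 0 := fun e => hx0 (by rw [← r₁, e, map_zero])
  have g₂ : G₂ ≠ 0 := fun e => mul_ne_zero hφ hx0 (by rw [← r₂, e, map_zero])
  have dMb : deg M' ≤ b := by linarith
  obtain ⟨N₀, h, H₁, H₂, mh, k₁, k₂, q₁, q₂, hcop, -⟩ :=
    hB hg hno M' M' N N G₁ G₂ dMb dMb dN.le dN.le m₁ m₂ g₁ g₂
  rw [q₁, map_mul] at r₁
  rw [q₂, map_mul] at r₂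
  have rh : S.rho h ≠ 0 := left_ne_zero_of_mul (r₁ ▸ hx0)
  have s₁ : S.rho H₁ ≠ 0 := right_ne_zero_of_mul (r₁ ▸ hx0)
  have s₂' : S.rho H₂ = φ * S.rho H₁ := by
    apply mul_left_cancel₀ rh
    rw [r₂, ← r₁]
    ring
  have s₂ : S.rho H₂ ≠ 0 := s₂' ▸ mul_ne_zero hφ s₁
  have t₀ : h ≠ 0 := fun e => rh (by rw [e, map_zero])
  have t₁ : H₁ ≠ 0 := fun e => s₁ (by rw [e, map_zero])
  have t₂ : H₂ ≠ 0 := fun e => s₂ (by rw [e, map_zero])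
  have d₀ := deg_nonneg_of_mem_LT mh t₀
  have d₁ := deg_nonneg_of_mem_LT k₁ t₁
  have d₂ : deg (N - N₀) ≤ α := by rw [deg_sub]; linarith
  have hbd := K7_bd S hg k₁ k₂ s₁ s₂ hcop d₂
  set M := cont H₁ ⊔ cont H₂ with hM
  have bM : BPF M := (bpf_cont t₁).sup (bpf_cont t₂)
  have n₁ : H₁ ∈ LT2 M (N - N₀) := (mem_LT2_iff_cont t₁ _ _).2 ⟨k₁, le_sup_left⟩
  have n₂ : H₂ ∈ LT2 M (N - N₀) := (mem_LT2_iff_cont t₂ _ _).2 ⟨k₂, le_sup_right⟩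
  have z₁ := S.Z_nonneg n₁ s₁
  have z₂ := S.Z_nonneg n₂ s₂
  have eZ : S.Z M (N - N₀) H₂ = S.Z M (N - N₀) H₁ + dv κ φ := by
    unfold Sq.Z
    rw [s₂', dv_mul hφ s₁]
    abel
  have eB : dinf κ φ + S.Z M (N - N₀) H₁ ⊓ S.Z M (N - N₀) H₂ = S.Z M (N - N₀) H₁ := by
    ext R
    rw [eZ, Finsupp.add_apply, Finsupp.inf_apply, Finsupp.add_apply, dinf_apply, dv_apply]
    omega
  have dZ := S.deg_Z M (N - N₀) H₁
  rw [← eB, deg_add, ← hΛφ.deg] at dZ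
  have dM0 := bM.deg_nonneg
  have p₁ : 0 ≤ (rk κ S.t' : ℤ) * deg (N - N₀) := mul_nonneg (Int.natCast_nonneg _) d₁
  have p₂ : 2 * ((α : ℤ) ^ 2 * (2 * α + 2)) * deg M ≤ rk κ S.t * deg M :=
    mul_le_mul_of_nonneg_right (by linarith [Int.natCast_nonneg α]) dM0
  have p₃ : (rk κ S.t : ℤ) * deg M ≤ 2 * deg Λ := by linarith
  refine ⟨M, N - N₀, S.Z M (N - N₀) H₁ ⊓ S.Z M (N - N₀) H₂, bM, d₁, le_inf z₁ z₂, ?_, p₃, ?_⟩
  · refine (hΛφ.add (LinEq.refl _)).trans ?_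
    rw [eB]
    exact K7_linEq_dv _ s₁
  · have p₄ := mul_le_mul_of_nonneg_left hbd (Int.natCast_nonneg (rk κ S.t))
    have p₅ := mul_le_mul_of_nonneg_left p₃ hc0
    linarith

/-- dichotomy for two sections -/
theorem dl_step (α b : ℕ) : ∃ B : ℕ, ∀ {κ F F' E : Type} [Field κ] [IsAlgClosed κ] [CharZero κ]
    [Field F] [Algebra κ F] [IsFF κ F] [Field F'] [Algebra κ F'] [IsFF κ F'] [Field E] [Algebra κ E]
    [IsFF κ E] (S : Sq κ F' E F), genus κ E = 1 → NoMap κ E F' B → α < rk κ S.t →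
      b < rk κ S.t' → ∀ (M₁ M₂ : Dv κ F') (N₁ N₂ : Dv κ E) (Z₁ Z₂ : Dv κ F), deg M₁ ≤ b →
      deg M₂ ≤ b → deg N₁ ≤ α → deg N₂ ≤ α → 0 ≤ Z₁ → 0 ≤ Z₂ →
      LinEq Z₁ (S.q'.pull M₁ + S.q.pull N₁) → LinEq Z₂ (S.q'.pull M₂ + S.q.pull N₂) →
        (∃ (M : Dv κ F') (N : Dv κ E) (Z : Dv κ F), BPF M ∧ deg M ≤ b ∧ 1 ≤ deg N ∧ 0 ≤ Z ∧
          Z ≤ Z₁ ∧ Z ≤ Z₂ ∧ LinEq Z (S.q'.pull M + S.q.pull N)) ∨
        ∃ Sm : Finset (Place κ F), Sm.card ≤ (2 * α + 2) * α * b ∧ ∀ R, 0 < Z₁ R → 0 < Z₂ R →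
          R ∉ Sm → ∀ R', S.q'.res R' = S.q'.res R → 0 < Z₁ R' := by
  obtain ⟨B, hB⟩ := split α b
  refine ⟨B, ?_⟩
  intro κ F F' E _ _ _ _ _ _ _ _ _ _ _ _ S hg hno hα hb M₁ M₂ N₁ N₂ Z₁ Z₂ dM₁ dM₂ dN₁ dN₂ z₁ z₂
    l₁ l₂
  have hα' : (α : ℤ) < rk κ S.t := by exact_mod_cast hα
  have hb' : (b : ℤ) < rk κ S.t' := by exact_mod_cast hb
  obtain ⟨G₁, m₁, r₁, rfl⟩ := K7_sec S (dM₁.trans_lt hb') (dN₁.trans_lt hα') z₁ l₁
  obtain ⟨G₂, m₂, r₂, rfl⟩ := K7_sec S (dM₂.trans_lt hb') (dN₂.trans_lt hα') z₂ l₂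
  have g₁ : G₁ ≠ 0 := fun e => r₁ (by rw [e, map_zero])
  have g₂ : G₂ ≠ 0 := fun e => r₂ (by rw [e, map_zero])
  obtain ⟨N₀, h, H₁, H₂, mh, k₁, k₂, q₁, q₂, -, hcop⟩ :=
    hB hg hno M₁ M₂ N₁ N₂ G₁ G₂ dM₁ dM₂ dN₁ dN₂ m₁ m₂ g₁ g₂
  have t₀ : h ≠ 0 := left_ne_zero_of_mul (q₁ ▸ g₁)
  have t₁ : H₁ ≠ 0 := right_ne_zero_of_mul (q₁ ▸ g₁)
  have d₀ := deg_nonneg_of_mem_LT mh t₀
  rcases d₀.eq_or_lt with d | d
  · right
    obtain ⟨W, hW0, hWd, hW⟩ := S.base_bound hg m₁ m₂ r₁ r₂ (hcop d.symm) dN₁ dN₂ dM₁ dM₂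
    refine ⟨(W.support.filter fun Q => G₁ ∉ LT2 (M₁ - pd Q) N₁).biUnion
      fun Q => (S.q'.fib Q).filter fun R => 0 < S.Z M₁ N₁ G₁ R, ?_, ?_⟩
    · have c₁ := Finset.card_biUnion_le_card_mul
        (W.support.filter fun Q => G₁ ∉ LT2 (M₁ - pd Q) N₁)
        (fun Q => (S.q'.fib Q).filter fun R => 0 < S.Z M₁ N₁ G₁ R) α fun Q hQ =>
          ((S.fib_bound m₁ r₁ dN₁ Q).resolve_left (Finset.mem_filter.1 hQ).2).1
      have c₂ : W.support.card ≤ (2 * α + 2) * b := by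
        exact_mod_cast (card_support_le_deg hW0).trans hWd
      have c₃ := (Finset.card_filter_le W.support fun Q => G₁ ∉ LT2 (M₁ - pd Q) N₁).trans c₂
      refine c₁.trans ((Nat.mul_le_mul_right α c₃).trans (le_of_eq ?_))
      ring
    · intro R p₁ p₂ hR R' hR'
      have w : S.q'.res R ∈ W.support := by
        rw [Finsupp.mem_support_iff]
        intro h0
        have h1 := hW R
        rw [S.q'.pull_apply, h0, mul_zero, Finsupp.inf_apply] at h1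
        exact absurd (lt_min p₁ p₂) (not_lt.2 h1)
      by_cases a : G₁ ∈ LT2 (M₁ - pd (S.q'.res R)) N₁
      · exact S.Z_pos a r₁ hR'
      · exact absurd (Finset.mem_biUnion.2 ⟨_, Finset.mem_filter.2 ⟨w, a⟩,
          Finset.mem_filter.2 ⟨S.q'.mem_fib.2 rfl, p₁⟩⟩) hR
  · left
    subst q₁ q₂
    have rh : S.rho h ≠ 0 := left_ne_zero_of_mul (map_mul S.rho h H₁ ▸ r₁)
    have c := ((mem_LT2_iff_cont g₁ M₁ N₁).1 m₁).2
    rw [cont_mul t₀ t₁] at c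
    have c' := deg_mono c
    rw [deg_add] at c'
    have c'' := (bpf_cont t₁).deg_nonneg
    exact ⟨cont h, N₀, S.Z (cont h) N₀ h, bpf_cont t₀, by linarith, d,
      S.Z_nonneg ((mem_LT2_iff_cont t₀ _ _).2 ⟨mh, le_rfl⟩) rh, K7_Z_le S m₁ k₁ r₁,
      K7_Z_le S m₂ k₂ r₂, K7_linEq_dv _ rh⟩

end Pool.Agent.E6b
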