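import Pool.Agent.E6b.K8a
import Pool.Agent.E6b.K7

open scoped NNReal TensorProduct IntermediateField BigOperators Classical Topology
open Filter

namespace Pool.Agent.E6b

namespace Tw

section
variable {κ L : Type} [Field κ] [IsAlgClosed κ] [CharZero κ] [Field L] [Algebra κ L] {n₀ B : ℕ}
  (T : Tw κ L n₀ B)

theorem K8_card_erase (s : Fin 5) : (Finset.univ.erase s : Finset (Fin 5)).card = 4 := by
  rw [Finset.card_erase_of_mem (Finset.mem_univ s), Finset.card_univ, Fintype.card_fin]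

theorem K8_rk_single (s : Fin 5) : rk κ (T.tJ {s}) = n₀ := by
  rw [T.rk_tJ, Finset.card_singleton, pow_one]

theorem K8_deg_dinf (J : Finset (Fin 5)) : deg (dinf κ (T.tJ J)) = (n₀ : ℤ) ^ J.card := by
  rw [deg_dinf_rk (T.nc_tJ J), T.rk_tJ]
  push_cast
  rfl

theorem K8_ell_zero {F : Type} [Field F] [Algebra κ F] [IsFF κ F] {D : Dv κ F} (h : deg D < 0) :
    ell D = 0 := ell_eq_zero_iff.2 (LL_eq_bot h)

/-- the product formula on the square adding the cover `s` -/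
theorem K8_ell_sq {J : Finset (Fin 5)} {s : Fin 5} (hs : s ∈ J) (M : Dv κ (T.F (J.erase s)))
    (N : Dv κ (T.F {s})) (hM : deg M < (n₀ : ℤ) ^ (J.erase s).card) (hN : deg N < n₀) :
    ell ((T.pi (Finset.erase_subset s J)).pull M +
      (T.pi (Finset.singleton_subset_iff.2 hs)).pull N) = ell M * ell N := by
  obtain ⟨S, hq', hq, ht', ht⟩ := T.exists_sq hs
  have h1 : ell (M - dinf κ S.t') = 0 := by
    apply K8_ell_zero
    rw [deg_sub, ht', T.K8_deg_dinf]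
    omega
  have h2 : deg N < rk κ S.t := by
    rw [ht, T.K8_rk_single]
    exact hN
  have h3 := S.ell_hf h1 h2
  rwa [hq', hq] at h3

theorem K8_sum_update_le (n : Fin 5 → ℤ) (s : Fin 5) :
    ∑ s', Function.update n s 0 s' ≤ ∑ s', |n s'| := by
  refine Finset.sum_le_sum fun s' _ => ?_
  by_cases h : s' = s
  · subst h
    rw [Function.update_self]
    exact abs_nonneg _
  · rw [Function.update_of_ne h]
    exact le_abs_self _

theorem ty_mono {Z Bd : Dv κ T.FU} {n : Fin 5 → ℤ} (h : T.Ty Finset.univ Z n) (hB : 0 ≤ Bd)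
    (hl : 0 < ell (Z + Bd)) (hd : deg Bd + (∑ s, |n s|) * (n₀ : ℤ) ^ 3 < (n₀ : ℤ) ^ 4) (s : Fin 5) :
    0 ≤ n s := by
  by_contra hneg
  have hneg' : n s < 0 := not_le.1 hneg
  obtain ⟨M, N, hM, hN, hlin⟩ := Ty.split T (Finset.mem_univ s) h
  have hdM := Ty.deg_eq T hM
  rw [K8_card_erase] at hdM
  have hn0 : (0 : ℤ) < n₀ := by exact_mod_cast T.n₀_pos
  have hs := K8_sum_update_le n s
  have hdM' : deg M ≤ (∑ s, |n s|) * (n₀ : ℤ) ^ 3 := by
    rw [hdM, mul_comm]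
    exact mul_le_mul_of_nonneg_right hs (by positivity)
  have h1 := T.K8_ell_sq (Finset.mem_univ s)
    (M + Bd.mapDomain (T.pi (Finset.erase_subset s Finset.univ)).res) N (by
      rw [K8_card_erase, deg_add, FHom.deg_mapDomain]
      omega) (by omega)
  rw [K8_ell_zero (D := N) (by omega), mul_zero] at h1
  have h2 := (hlin.add (LinEq.refl Bd)).ell
  have h3 : (T.pi (Finset.erase_subset s Finset.univ)).pull M +
      (T.pi (Finset.singleton_subset_iff.2 (Finset.mem_univ s))).pull N + Bd ≤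
      (T.pi (Finset.erase_subset s Finset.univ)).pull
        (M + Bd.mapDomain (T.pi (Finset.erase_subset s Finset.univ)).res) +
      (T.pi (Finset.singleton_subset_iff.2 (Finset.mem_univ s))).pull N := by
    rw [FHom.pull_add, add_right_comm]
    exact add_le_add (add_le_add le_rfl (FHom.le_pull_mapDomain _ hB)) le_rfl
  have h4 := ell_mono h3
  omega

theorem K8_sum_pl {J : Finset (Fin 5)} {s : Fin 5} (hs : s ∈ J) (N : ∀ s, Dv κ (T.F {s})) :
    ∑ s', T.pl J s' (N s') =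
      (T.pi (Finset.erase_subset s J)).pull (∑ s', T.pl (J.erase s) s' (N s')) +
        (T.pi (Finset.singleton_subset_iff.2 hs)).pull (N s) := by
  rw [FHom.pull_sum, ← Finset.add_sum_erase _ _ (Finset.mem_univ s),
    ← Finset.add_sum_erase _ (fun s' => (T.pi (Finset.erase_subset s J)).pull
      (T.pl (J.erase s) s' (N s'))) (Finset.mem_univ s)]
  have h1 : T.pl (J.erase s) s (N s) = 0 := by
    unfold pl
    rw [dif_neg (Finset.notMem_erase s J)]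
  have h2 : T.pl J s (N s) = (T.pi (Finset.singleton_subset_iff.2 hs)).pull (N s) := by
    unfold pl
    rw [dif_pos hs]
  rw [h1, h2, FHom.pull_zero, zero_add, add_comm]
  congr 1
  refine Finset.sum_congr rfl fun s' hs' => ?_
  have hne : s' ≠ s := Finset.ne_of_mem_erase hs'
  by_cases hJ : s' ∈ J
  · have hJ' : s' ∈ J.erase s := Finset.mem_erase.2 ⟨hne, hJ⟩
    unfold pl
    rw [dif_pos hJ, dif_pos hJ', T.pull_pi_pi]
  · have hJ' : s' ∉ J.erase s := fun h => hJ (Finset.mem_of_mem_erase h)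
    unfold pl
    rw [dif_neg hJ, dif_neg hJ', FHom.pull_zero]

theorem K8_deg_sum_pl (h5 : 5 < n₀) (J : Finset (Fin 5)) (N : ∀ s, Dv κ (T.F {s}))
    (hN : ∀ s, deg (N s) ≤ 1) : deg (∑ s, T.pl J s (N s)) < (n₀ : ℤ) ^ J.card := by
  have hn0 : (5 : ℤ) < n₀ := by exact_mod_cast h5
  rcases J.eq_empty_or_nonempty with rfl | hJ
  · have h1 : ∀ s, T.pl ∅ s (N s) = 0 := fun s => by
      unfold pl
      rw [dif_neg (Finset.notMem_empty s)]
    rw [Finset.sum_congr rfl fun s _ => h1 s, Finset.sum_const_zero, deg_zero]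
    simp
  · have hc : J.card = (J.card - 1) + 1 := by
      have := hJ.card_pos
      omega
    have hp : (0 : ℤ) < (n₀ : ℤ) ^ (J.card - 1) := by positivity
    have h1 : ∀ s, deg (T.pl J s (N s)) ≤ (n₀ : ℤ) ^ (J.card - 1) := fun s => by
      by_cases hs : s ∈ J
      · rw [T.deg_pl hs]
        have := mul_le_mul_of_nonneg_left (hN s) hp.le
        rwa [mul_one] at this
      · unfold pl
        rw [dif_neg hs, deg_zero]
        exact hp.le
    have h2 := Finset.sum_le_sum fun s (_ : s ∈ (Finset.univ : Finset (Fin 5))) => h1 s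
    rw [Finset.sum_const, Finset.card_univ, Fintype.card_fin] at h2
    rw [deg_sum]
    have h3 : (n₀ : ℤ) ^ J.card = (n₀ : ℤ) ^ (J.card - 1) * n₀ := by
      rw [← pow_succ, ← hc]
    rw [h3]
    have h4 : (5 : ℕ) • (n₀ : ℤ) ^ (J.card - 1) = (n₀ : ℤ) ^ (J.card - 1) * 5 := by
      rw [nsmul_eq_mul]
      push_cast
      ring
    rw [h4] at h2
    exact h2.trans_lt (mul_lt_mul_of_pos_left hn0 hp)

theorem K8_ell_prod (h5 : 5 < n₀) (N : ∀ s, Dv κ (T.F {s})) (hN : ∀ s, deg (N s) ≤ 1) (k : ℕ) :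
    ∀ J : Finset (Fin 5), J.card = k → ell (∑ s, T.pl J s (N s)) = ∏ s ∈ J, ell (N s) := by
  induction k with
  | zero =>
    intro J hJ
    obtain rfl := Finset.card_eq_zero.1 hJ
    have h1 : ∀ s, T.pl ∅ s (N s) = 0 := fun s => by
      unfold pl
      rw [dif_neg (Finset.notMem_empty s)]
    rw [Finset.sum_congr rfl fun s _ => h1 s, Finset.sum_const_zero, ell_zero, Finset.prod_empty]
  | succ k ih =>
    intro J hJ
    obtain ⟨s, hs⟩ : J.Nonempty := Finset.card_pos.1 (by omega)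
    have hc : (J.erase s).card = k := by
      rw [Finset.card_erase_of_mem hs]
      omega
    have hn0 : (5 : ℤ) < n₀ := by exact_mod_cast h5
    have h1 := hN s
    rw [T.K8_sum_pl hs, T.K8_ell_sq hs _ _ (T.K8_deg_sum_pl h5 _ N hN) (by omega), ih _ hc,
      Finset.prod_erase_mul _ _ hs]

theorem K8_linEq_pl (J : Finset (Fin 5)) (s : Fin 5) {N N' : Dv κ (T.F {s})} (h : LinEq N N') :
    LinEq (T.pl J s N) (T.pl J s N') := by
  unfold pl
  by_cases hs : s ∈ J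
  · rw [dif_pos hs, dif_pos hs]
    exact FHom.linEq_pull _ h
  · rw [dif_neg hs, dif_neg hs]
    exact LinEq.refl _

theorem K8_pl_zsmul (J : Finset (Fin 5)) (s : Fin 5) (m : ℤ) (N : Dv κ (T.F {s})) :
    T.pl J s (m • N) = m • T.pl J s N := by
  unfold pl
  by_cases hs : s ∈ J
  · rw [dif_pos hs, dif_pos hs, FHom.pull_zsmul]
  · rw [dif_neg hs, dif_neg hs, smul_zero]

theorem K8_pd_nonneg {F : Type} [Field F] [Algebra κ F] (P : Place κ F) : 0 ≤ pd P := by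
  intro Q
  rw [F1_pd_apply]
  split_ifs <;> simp

theorem ty_rigid (h5 : 5 < n₀) {Z : Dv κ T.FU} {n : Fin 5 → ℤ} (h : T.Ty Finset.univ Z n)
    (hZ : 0 ≤ Z) (hn : ∀ s, n s = 0 ∨ n s = 1) :
    ∃ P : ∀ s, Place κ (T.F {s}), Z = ∑ s, n s • T.pl Finset.univ s (pd (P s)) := by
  obtain ⟨N, hN, -, hlin⟩ := h
  have hN1 : ∀ s, deg (N s) ≤ 1 := fun s => by
    have := hN s
    have := hn s
    omega
  have hprod := T.K8_ell_prod h5 N hN1 _ Finset.univ rfl
  rw [← hlin.ell] at hprod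
  have hZ1 := one_le_ell hZ
  have hpos : ∀ s, 0 < ell (N s) := fun s => by
    by_contra h0
    have h1 : ell (N s) = 0 := by omega
    rw [Finset.prod_eq_zero (Finset.mem_univ s) h1] at hprod
    omega
  have key : ∀ s, ∃ P : Place κ (T.F {s}), LinEq (N s) (n s • pd P) ∧ ell (N s) = 1 := fun s => by
    rcases hn s with h0 | h1
    · obtain ⟨P⟩ : Nonempty (Place κ (T.F {s})) := inferInstance
      have h2 := linEq_zero_of_ell_pos (by rw [hN, h0]) (hpos s)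
      refine ⟨P, by rw [h0, zero_smul]; exact h2, by rw [h2.ell, ell_zero]⟩
    · obtain ⟨P, hP⟩ := exists_pd_of_genus_one (T.g1 s) (D := N s) (by rw [hN, h1])
      have h2 := ell_genus_one (T.g1 s) (D := N s) (by rw [hN, h1]; exact one_pos)
      rw [hN, h1] at h2
      refine ⟨P, by rw [h1, one_smul]; exact hP, by exact_mod_cast h2⟩
  choose P hP hP1 using key
  refine ⟨P, eq_of_ell_eq_one hZ ?_ ?_ ?_⟩
  · refine Finset.sum_nonneg fun s _ => ?_
    have h1 := T.pl_nonneg Finset.univ s (K8_pd_nonneg (P s))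
    rcases hn s with h0 | h0
    · rw [h0, zero_smul]
    · rw [h0, one_smul]
      exact h1
  · refine hlin.trans (LinEq.sum _ fun s _ => ?_)
    rw [← T.K8_pl_zsmul]
    exact T.K8_linEq_pl _ s (hP s)
  · rw [hprod]
    exact Finset.prod_eq_one fun s _ => hP1 s

theorem K8_pull_nonneg {F F' : Type} [Field F] [Algebra κ F] [IsFF κ F] [Field F'] [Algebra κ F']
    [IsFF κ F'] (φ : FHom κ F F') {D : Dv κ F} (h : 0 ≤ D) : 0 ≤ φ.pull D := by
  have h1 := φ.pull_le_iff.2 h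
  rwa [FHom.pull_zero] at h1

theorem K8_deg_pull_erase {J : Finset (Fin 5)} {s : Fin 5} (hs : s ∈ J)
    (D : Dv κ (T.F (J.erase s))) : deg ((T.pi (Finset.erase_subset s J)).pull D) = n₀ * deg D := by
  have h1 : J.card - (J.erase s).card = 1 := by
    have := Finset.card_pos.2 ⟨s, hs⟩
    rw [Finset.card_erase_of_mem hs]
    omega
  rw [FHom.deg_pull, T.deg_pi, h1, pow_one]

theorem K8_update_nonneg {n : Fin 5 → ℤ} (hn : 0 ≤ n) (s : Fin 5) {a : ℤ} (ha : 0 ≤ a) :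
    0 ≤ Function.update n s a := by
  intro s'
  by_cases h : s' = s
  · subst h
    rw [Function.update_self]
    exact ha
  · rw [Function.update_of_ne h]
    exact hn s'

end

/-- classification of pencils of low degree -/
theorem cl_tower (k c : ℕ) : ∃ c' n₁ : ℕ, ∀ n₀, n₁ ≤ n₀ → ∃ B₀ : ℕ, ∀ B, B₀ ≤ B →
    ∀ {κ L : Type} [Field κ] [IsAlgClosed κ] [CharZero κ] [Field L] [Algebra κ L]
      (T : Tw κ L n₀ B) (J : Finset (Fin 5)), J.card = k → ∀ Λ : Dv κ (T.F J), BPF Λ →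
      n₀ * deg Λ ≤ c * (n₀ : ℤ) ^ k → ∃ (Bd : Dv κ (T.F J)) (n : Fin 5 → ℤ), 0 ≤ Bd ∧ 0 ≤ n ∧
        T.Ty J (Λ + Bd) n ∧ (n₀ : ℤ) ^ 2 * deg Bd ≤ c' * (n₀ : ℤ) ^ k := by
  induction k generalizing c with
  | zero =>
    refine ⟨0, c + 1, fun n₀ hn => ⟨0, fun B _ κ L _ _ _ _ _ T J _ Λ hΛ hd => ?_⟩⟩
    have hn' : (c : ℤ) + 1 ≤ n₀ := by exact_mod_cast hn
    have hc : (0 : ℤ) ≤ c := Int.natCast_nonneg c
    rw [pow_zero, mul_one] at hd
    obtain ⟨P⟩ : Nonempty (Place κ (T.F J)) := inferInstance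
    obtain ⟨f, hf0, hf, -⟩ := hΛ P
    have hfL : f ∈ LL Λ := mem_LL.2 (Or.inr hf)
    have hne : LL Λ ≠ ⊥ := fun h => hf0 (by rwa [h, Submodule.mem_bot] at hfL)
    have hl : 0 < ell Λ := Nat.pos_of_ne_zero fun h => hne (ell_eq_zero_iff.1 h)
    have hd0 : 0 ≤ deg Λ := not_lt.1 fun h => hne (LL_eq_bot h)
    have hd1 : deg Λ = 0 := by
      by_contra h
      have h1 : 1 ≤ deg Λ := by omega
      have h2 : (n₀ : ℤ) * 1 ≤ n₀ * deg Λ := mul_le_mul_of_nonneg_left h1 (by omega)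
      omega
    refine ⟨0, 0, le_rfl, le_rfl, ⟨fun _ => 0, fun _ => deg_zero, fun _ _ => rfl, ?_⟩, by
      rw [deg_zero]; simp⟩
    have h1 : ∀ s, T.pl J s 0 = 0 := fun s => by
      have := T.K8_pl_zsmul J s 0 0
      rwa [zero_smul, zero_smul] at this
    rw [Finset.sum_congr rfl fun s _ => h1 s, Finset.sum_const_zero, add_zero]
    exact linEq_zero_of_ell_pos hd1 hl
  | succ k ih =>
    obtain ⟨c'', n₁, hih⟩ := ih (2 * c)
    refine ⟨2 * (c + 1) ^ 2 * (2 * (c + 1) + 2) * c + c'',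
      n₁ + (2 * (c + 1) ^ 2 * (2 * (c + 1) + 2) + (c + 1) + 1), fun n₀ hn => ?_⟩
    obtain ⟨B₂, hB₂⟩ := hih n₀ (by omega)
    obtain ⟨B₁, hB₁⟩ := cl_step (c + 1) (11 * n₀ ^ 5)
    refine ⟨B₁ + B₂, fun B hB κ L _ _ _ _ _ T J hJ Λ hΛ hd => ?_⟩
    obtain ⟨s, hs⟩ : J.Nonempty := Finset.card_pos.1 (by omega)
    have hc : (J.erase s).card = k := by
      rw [Finset.card_erase_of_mem hs]
      omega
    have hk : k ≤ 5 := by
      have h1 := Finset.card_le_univ (J.erase s)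
      rw [Fintype.card_fin] at h1
      omega
    have hn0 : 0 < n₀ := T.n₀_pos
    have hn0' : (0 : ℤ) < n₀ := by exact_mod_cast hn0
    have hp : (0 : ℤ) < (n₀ : ℤ) ^ k := by positivity
    have hd' : deg Λ ≤ c * (n₀ : ℤ) ^ k := by
      have h1 : (n₀ : ℤ) * deg Λ ≤ n₀ * (c * (n₀ : ℤ) ^ k) := by
        rw [pow_succ] at hd
        linarith
      exact le_of_mul_le_mul_left h1 hn0'
    obtain ⟨S, hq', hq, ht', ht⟩ := T.exists_sq hs
    have hrk : rk κ S.t = n₀ := by rw [ht, T.K8_rk_single]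
    have hrk' : rk κ S.t' = n₀ ^ k := by rw [ht', T.rk_tJ, hc]
    obtain ⟨M, N, Bd₁, hM, hN, hBd₁, hlin, hdM, hdB⟩ := hB₁ S (T.g1 s)
      ((T.nomap s _ (Finset.notMem_erase s J)).mono (by omega)) (by
        have h1 := T.genus_le' (J.erase s)
        have h2 : n₀ ^ k ≤ n₀ ^ 5 := Nat.pow_le_pow_right hn0 hk
        rw [hc] at h1
        rw [hrk']
        omega) (by rw [hrk]; omega) Λ hΛ (by
        rw [hrk']
        push_cast
        linarith)
    rw [hq', hq] at hlin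
    rw [hrk] at hdM hdB
    obtain ⟨Bd₂, n', hBd₂, hn', hTy, hdB₂⟩ := hB₂ B (by omega) T (J.erase s) hc M hM (by
      push_cast
      linarith)
    refine ⟨Bd₁ + (T.pi (Finset.erase_subset s J)).pull Bd₂, Function.update n' s (deg N),
      add_nonneg hBd₁ (K8_pull_nonneg _ hBd₂), K8_update_nonneg hn' s hN, ?_, ?_⟩
    · refine Ty.linEq T (Ty.join T hs hTy N) ?_
      rw [FHom.pull_add, add_right_comm, ← add_assoc]
      exact (hlin.add (LinEq.refl _)).symm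
    · rw [deg_add, T.K8_deg_pull_erase hs]
      push_cast at hdB ⊢
      have hK : (0 : ℤ) ≤ 2 * ((c : ℤ) + 1) ^ 2 * (2 * ((c : ℤ) + 1) + 2) := by positivity
      have h1 := mul_le_mul_of_nonneg_left hdB hn0'.le
      have h2 := mul_le_mul_of_nonneg_left hd hK
      have h3 := mul_le_mul_of_nonneg_left hdB₂ hn0'.le
      rw [pow_succ (n₀ : ℤ) k] at h2 ⊢
      generalize 2 * ((c : ℤ) + 1) ^ 2 * (2 * ((c : ℤ) + 1) + 2) = K at h1 h2 ⊢
      linarith

/-- dichotomy -/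
theorem dl_tower (α : ℕ) : ∃ c n₁ : ℕ, ∀ n₀, n₁ ≤ n₀ → ∃ B₀ : ℕ, ∀ B, B₀ ≤ B →
    ∀ {κ L : Type} [Field κ] [IsAlgClosed κ] [CharZero κ] [Field L] [Algebra κ L]
      (T : Tw κ L n₀ B) (Z₁ Z₂ : Dv κ T.FU) (m₁ m₂ : Fin 5 → ℤ), 0 ≤ Z₁ → 0 ≤ Z₂ → 0 ≤ m₁ → 0 ≤ m₂ →
      ∑ s, m₁ s ≤ α → ∑ s, m₂ s ≤ α → T.Ty Finset.univ Z₁ m₁ → T.Ty Finset.univ Z₂ m₂ →
      (∃ (Z Bd : Dv κ T.FU) (n : Fin 5 → ℤ), 0 ≤ Z ∧ Z ≤ Z₁ ∧ Z ≤ Z₂ ∧ 0 ≤ Bd ∧
        deg Bd ≤ c * (n₀ : ℤ) ^ 3 ∧ 0 ≤ n ∧ 1 ≤ ∑ s, n s ∧ T.Ty Finset.univ (Z + Bd) n) ∨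
      ∀ s, ∃ Sm : Finset (Place κ T.FU), Sm.card ≤ c * n₀ ^ 3 ∧ ∀ R, 0 < Z₁ R → 0 < Z₂ R →
        R ∉ Sm → ∀ R', T.Ln s R R' → 0 < Z₁ R' := by
  obtain ⟨c₁, n₁, hcl⟩ := cl_tower 4 α
  refine ⟨c₁ + (2 * α + 2) * α * α, n₁ + (α + 1), fun n₀ hn => ?_⟩
  obtain ⟨B₂, hB₂⟩ := hcl n₀ (by omega)
  obtain ⟨B₁, hB₁⟩ := dl_step α (α * n₀ ^ 3)
  refine ⟨B₁ + B₂, fun B hB κ L _ _ _ _ _ T Z₁ Z₂ m₁ m₂ hZ₁ hZ₂ hm₁ hm₂ hs₁ hs₂ hT₁ hT₂ => ?_⟩
  rw [or_iff_not_imp_left]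
  intro hA s
  have hn0 : 0 < n₀ := T.n₀_pos
  have hn0' : (0 : ℤ) < n₀ := by exact_mod_cast hn0
  have hsp : ∀ {Z : Dv κ T.FU} {m : Fin 5 → ℤ}, 0 ≤ m → ∑ s, m s ≤ α → T.Ty Finset.univ Z m →
      ∃ (M : Dv κ (T.F (Finset.univ.erase s))) (N : Dv κ (T.F {s})),
        deg M ≤ ((α * n₀ ^ 3 : ℕ) : ℤ) ∧ deg N ≤ α ∧
        LinEq Z ((T.pi (Finset.erase_subset s Finset.univ)).pull M +
          (T.pi (Finset.singleton_subset_iff.2 (Finset.mem_univ s))).pull N) := by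
    intro Z m hm hs hT
    obtain ⟨M, N, hM, hN, hlin⟩ := Ty.split T (Finset.mem_univ s) hT
    refine ⟨M, N, ?_, ?_, hlin⟩
    · have h1 := Ty.deg_eq T hM
      rw [K8_card_erase] at h1
      have h2 := K8_sum_update_le m s
      rw [Finset.sum_congr rfl fun s' _ => abs_of_nonneg (hm s')] at h2
      rw [h1, mul_comm]
      push_cast
      exact mul_le_mul_of_nonneg_right (h2.trans hs) (by positivity)
    · rw [hN]
      exact (Finset.single_le_sum (fun s' _ => hm s') (Finset.mem_univ s)).trans hs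
  obtain ⟨M₁, N₁, hM₁, hN₁, hl₁⟩ := hsp hm₁ hs₁ hT₁
  obtain ⟨M₂, N₂, hM₂, hN₂, hl₂⟩ := hsp hm₂ hs₂ hT₂
  obtain ⟨S, hq', hq, ht', ht⟩ := T.exists_sq (Finset.mem_univ s)
  have hrk : rk κ S.t = n₀ := by rw [ht, T.K8_rk_single]
  have hrk' : rk κ S.t' = n₀ ^ 4 := by rw [ht', T.rk_tJ, K8_card_erase]
  have hstep := hB₁ S (T.g1 s)
    ((T.nomap s _ (Finset.notMem_erase s Finset.univ)).mono (by omega)) (by rw [hrk]; omega) (by
      rw [hrk', pow_succ' n₀ 3]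
      exact Nat.mul_lt_mul_of_pos_right (by omega) (by positivity))
    M₁ M₂ N₁ N₂ Z₁ Z₂ hM₁ hM₂ hN₁ hN₂ hZ₁ hZ₂ (by rw [hq', hq]; exact hl₁)
    (by rw [hq', hq]; exact hl₂)
  rw [hq', hq] at hstep
  rcases hstep with ⟨M, N, Z, hM, hdM, hN, hZ, hle₁, hle₂, hlin⟩ | ⟨Sm, hSm, hR⟩
  · exfalso
    obtain ⟨Bd₂, n', hBd₂, hn', hTy, hdB₂⟩ := hB₂ B (by omega) T (Finset.univ.erase s)
      (K8_card_erase s) M hM (by
        push_cast at hdM
        have h1 := mul_le_mul_of_nonneg_left hdM hn0'.le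
        linarith)
    have hu := K8_update_nonneg hn' s (a := deg N) (by omega)
    refine hA ⟨Z, (T.pi (Finset.erase_subset s Finset.univ)).pull Bd₂, Function.update n' s (deg N),
      hZ, hle₁, hle₂, K8_pull_nonneg _ hBd₂, ?_, hu, ?_, ?_⟩
    · rw [T.K8_deg_pull_erase (Finset.mem_univ s)]
      have h1 : (n₀ : ℤ) * (n₀ * deg Bd₂) ≤ n₀ * (c₁ * (n₀ : ℤ) ^ 3) := by linarith
      have h2 := le_of_mul_le_mul_left h1 hn0'
      have h3 : (0 : ℤ) ≤ (2 * (α : ℤ) + 2) * α * α * (n₀ : ℤ) ^ 3 := by positivity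
      push_cast
      linarith
    · have h1 := Finset.single_le_sum (fun s' (_ : s' ∈ (Finset.univ : Finset (Fin 5))) => hu s')
        (Finset.mem_univ s)
      rw [Function.update_self] at h1
      exact hN.trans h1
    · refine Ty.linEq T (Ty.join T (Finset.mem_univ s) hTy N) ?_
      rw [FHom.pull_add, add_right_comm]
      exact (hlin.add (LinEq.refl _)).symm
  · refine ⟨Sm, hSm.trans ?_, fun R h1 h2 h3 R' h4 => hR R h1 h2 h3 R' (Eq.symm h4)⟩
    rw [add_mul c₁, ← mul_assoc]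
    exact Nat.le_add_left _ _

end Tw

end Pool.Agent.E6b
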