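import Pool.Agent.E6b.K3

open scoped NNReal TensorProduct IntermediateField BigOperators Classical Topology
open Filter

namespace Pool.Agent.E6b

/-- a set of tuples with many points on every line is large -/
theorem K8a_heavy {X ι : Type} [DecidableEq ι] {Y : ι → Type} (p : ∀ s, X → Y s)
    (hp : ∀ x y, (∀ s, p s x = p s y) → x = y) (D : Finset X) (n : ℕ)
    (Ln : ι → X → X → Prop) (hL : ∀ s x y, Ln s x y → ∀ s', s' ≠ s → p s' x = p s' y)
    (h : ∀ x ∈ D, ∀ s, n ≤ 2 * (D.filter (Ln s x)).card)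
    (J : Finset ι) : ∀ x ∈ D,
      n ^ J.card ≤ 2 ^ J.card * (D.filter fun y => ∀ s', s' ∉ J → p s' x = p s' y).card := by
  induction J using Finset.induction_on with
  | empty =>
    intro x hx
    simp only [Finset.card_empty, pow_zero, one_mul]
    exact Finset.card_pos.2 ⟨x, Finset.mem_filter.2 ⟨hx, fun _ _ => rfl⟩⟩
  | insert s J hs ih =>
    intro x hx
    set Λ := D.filter (Ln s x) with hΛ
    have h1 : ∑ y ∈ Λ, (D.filter fun z => ∀ s', s' ∉ J → p s' y = p s' z).card ≤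
        (D.filter fun z => ∀ s', s' ∉ insert s J → p s' x = p s' z).card := by
      rw [← Finset.card_biUnion]
      · refine Finset.card_le_card (Finset.biUnion_subset.2 fun y hy z hz => ?_)
        rw [Finset.mem_filter] at hz ⊢
        refine ⟨hz.1, fun s' hs' => ?_⟩
        rw [Finset.mem_insert, not_or] at hs'
        exact (hL _ _ _ (Finset.mem_filter.1 hy).2 s' hs'.1).trans (hz.2 s' hs'.2)
      · intro y hy y' hy' hne
        refine Finset.disjoint_left.2 fun z hz hz' => hne (hp _ _ fun s' => ?_)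
        by_cases e : s' = s
        · subst e
          exact ((Finset.mem_filter.1 hz).2 s' hs).trans ((Finset.mem_filter.1 hz').2 s' hs).symm
        · exact (hL _ _ _ (Finset.mem_filter.1 (Finset.mem_coe.1 hy)).2 s' e).symm.trans
            (hL _ _ _ (Finset.mem_filter.1 (Finset.mem_coe.1 hy')).2 s' e)
    have h2 : Λ.card * n ^ J.card ≤
        2 ^ J.card * ∑ y ∈ Λ, (D.filter fun z => ∀ s', s' ∉ J → p s' y = p s' z).card := by
      rw [Finset.mul_sum, ← smul_eq_mul, ← Finset.sum_const]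
      exact Finset.sum_le_sum fun y hy => ih y (Finset.mem_filter.1 hy).1
    rw [Finset.card_insert_of_notMem hs]
    calc n ^ (J.card + 1) = n * n ^ J.card := pow_succ' _ _
      _ ≤ 2 * Λ.card * n ^ J.card := Nat.mul_le_mul_right _ (h x hx s)
      _ ≤ 2 * (2 ^ J.card * _) := by
        rw [mul_assoc]
        exact Nat.mul_le_mul_left _ (h2.trans (Nat.mul_le_mul_left _ h1))
      _ = _ := by rw [pow_succ', mul_assoc]

theorem K8a_gen {κ L : Type} [Field κ] [Field L] [Algebra κ L] {A A' K : IntermediateField κ L}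
    (h : A ≤ K) (h' : A' ≤ K) (e : K = A ⊔ A') :
    IntermediateField.adjoin κ (Set.range (IntermediateField.inclusion h) ∪
      Set.range (IntermediateField.inclusion h')) = ⊤ := by
  have key : ∀ {A : IntermediateField κ L} (h : A ≤ K),
      Subtype.val '' Set.range (IntermediateField.inclusion h) = (A : Set L) := by
    intro A h
    ext x
    constructor
    · rintro ⟨_, ⟨y, rfl⟩, rfl⟩
      exact y.2
    · intro hx
      exact ⟨_, ⟨⟨x, hx⟩, rfl⟩, rfl⟩
  refine IntermediateField.lift_injective K ?_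
  rw [IntermediateField.lift_adjoin, IntermediateField.lift_top, Set.image_union, key, key,
    ← IntermediateField.sup_def, e]

section
variable {κ E : Type} [Field κ] [IsAlgClosed κ] [CharZero κ] [Field E] [Algebra κ E] [IsFF κ E]

theorem K8a_unr {t : E} (ht : t ∉ (algebraMap κ E).range) (h : rk κ t = 1) (c : Option κ) :
    Unr t c := by
  intro P hP
  have h1 := sum_ord_lc ht c
  have h2 : P.ord (lc t c) ≤ ∑ Q ∈ (finite_tv ht c).toFinset, Q.ord (lc t c) :=
    Finset.single_le_sum (f := fun Q : Place κ E => Q.ord (lc t c))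
      (fun Q hQ => ((tv_eq_iff ht).1 ((finite_tv ht c).mem_toFinset.1 hQ)).le)
      ((finite_tv ht c).mem_toFinset.2 ((tv_eq_iff ht).2 hP))
  rw [h1, h] at h2
  omega

theorem K8a_ext {t : E} (ht : t ∉ (algebraMap κ E).range) (h : rk κ t = 1) {P Q : Place κ E}
    (e : tv t P = tv t Q) : P = Q := by
  have h1 := (unr_iff_card ht (tv t Q)).1 (K8a_unr ht h _)
  exact Finset.card_le_one.1 (h1.trans h).le P ((finite_tv ht _).mem_toFinset.2 e) Q
    ((finite_tv ht _).mem_toFinset.2 rfl)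

end

variable {κ L : Type} [Field κ] [IsAlgClosed κ] [CharZero κ] [Field L] [Algebra κ L] {n₀ B : ℕ}
  (T : Tw κ L n₀ B)

namespace Tw

theorem nc_tJ (J : Finset (Fin 5)) : T.tJ J ∉ (algebraMap κ (T.F J)).range :=
  fun ⟨c, hc⟩ => T.nc ⟨c, congrArg Subtype.val hc⟩
theorem rk_tJ (J : Finset (Fin 5)) : rk κ (T.tJ J) = n₀ ^ J.card := T.rk_eq J
theorem n₀_pos (T : Tw κ L n₀ B) : 0 < n₀ := by
  have h := rk_pos (T.nc_tJ {0})
  rwa [T.rk_tJ, Finset.card_singleton, pow_one] at h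
theorem pi_tJ {J J' : Finset (Fin 5)} (h : J ⊆ J') : (T.pi h).f (T.tJ J) = T.tJ J' := rfl
theorem deg_pi {J J' : Finset (Fin 5)} (h : J ⊆ J') : (T.pi h).deg = n₀ ^ (J'.card - J.card) := by
  have h1 := (rk_map (T.pi h) (T.nc_tJ J)).2
  rw [pi_tJ, T.rk_tJ, T.rk_tJ, ← pow_sub_mul_pow n₀ (Finset.card_le_card h)] at h1
  exact (Nat.eq_of_mul_eq_mul_right (pow_pos T.n₀_pos _) h1).symm
theorem res_pi_pi {J J' J'' : Finset (Fin 5)} (h : J ⊆ J') (h' : J' ⊆ J'') (R : Place κ (T.F J'')) :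
    (T.pi h).res ((T.pi h').res R) = (T.pi (h.trans h')).res R := rfl
theorem pull_pi_pi {J J' J'' : Finset (Fin 5)} (h : J ⊆ J') (h' : J' ⊆ J'') (D : Dv κ (T.F J)) :
    (T.pi h').pull ((T.pi h).pull D) = (T.pi (h.trans h')).pull D :=
  ((T.pi h).pull_comp (T.pi h') D).symm.trans (congrFun (FHom.pull_congr _ rfl) D)
theorem tv_pi {J J' : Finset (Fin 5)} (h : J ⊆ J') (R : Place κ (T.F J')) :
    tv (T.tJ J) ((T.pi h).res R) = tv (T.tJ J') R :=
  ((tv_res (T.pi h) (T.tJ J) R).trans (Option.map_id' ..)).symm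

/-- the square, given the condition on the branch points -/
noncomputable def K8a_sq {J : Finset (Fin 5)} {s : Fin 5} (h : s ∈ J)
    (hu : ∀ c : Option κ, Unr (T.tJ {s}) c ∨ Unr (T.tJ (J.erase s)) c) :
    Sq κ (T.F (J.erase s)) (T.F {s}) (T.F J) where
  p' := IntermediateField.inclusion (T.mono (Finset.erase_subset s J))
  p := IntermediateField.inclusion (T.mono (Finset.singleton_subset_iff.2 h))
  t' := T.tJ _
  t := T.tJ _
  comm := rfl
  nc := T.nc_tJ _
  deg' := by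
    have h1 := Finset.card_erase_add_one h
    refine (T.deg_pi (Finset.erase_subset s J)).trans ?_
    rw [T.rk_tJ, Finset.card_singleton]
    congr 1
    omega
  gen := K8a_gen _ _ (by
    rw [← T.sup, Finset.union_comm, ← Finset.insert_eq, Finset.insert_erase h])
  unr := hu

theorem K8a_or {J : Finset (Fin 5)} {s : Fin 5}
    (ih : ∀ c : Option κ, (∀ s' ∈ J.erase s, Unr (T.tJ {s'}) c) → Unr (T.tJ (J.erase s)) c)
    (c : Option κ) : Unr (T.tJ {s}) c ∨ Unr (T.tJ (J.erase s)) c := by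
  by_cases h : Unr (T.tJ {s}) c
  · exact Or.inl h
  · exact Or.inr (ih c fun s' hs' =>
      (T.unr s s' (Finset.ne_of_mem_erase hs').symm c).resolve_left h)

theorem K8a_ind {P : Finset (Fin 5) → Prop} (h0 : P ∅)
    (h1 : ∀ J s, s ∈ J → P (J.erase s) → P J) (J : Finset (Fin 5)) : P J := by
  induction J using Finset.strongInduction with
  | H J ih =>
    rcases J.eq_empty_or_nonempty with rfl | ⟨s, hs⟩
    · exact h0
    · exact h1 J s hs (ih _ (Finset.erase_ssubset hs))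

theorem unr_J (J : Finset (Fin 5)) {c : Option κ} (h : ∀ s ∈ J, Unr (T.tJ {s}) c) :
    Unr (T.tJ J) c := by
  induction J using K8a_ind generalizing c with
  | h0 => exact K8a_unr (T.nc_tJ ∅) (T.rk_tJ ∅) c
  | h1 J s hs ih =>
    exact (T.K8a_sq hs (T.K8a_or fun _ => ih)).unr_top (h s hs)
      (ih fun s' hs' => h s' (Finset.mem_of_mem_erase hs'))

/-- the square -/
noncomputable def K8a_S {J : Finset (Fin 5)} {s : Fin 5} (h : s ∈ J) :
    Sq κ (T.F (J.erase s)) (T.F {s}) (T.F J) := T.K8a_sq h (T.K8a_or fun _ => T.unr_J _)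

/-- the square adding the cover `s` -/
theorem exists_sq {J : Finset (Fin 5)} {s : Fin 5} (h : s ∈ J) :
    ∃ S : Sq κ (T.F (J.erase s)) (T.F {s}) (T.F J), S.q' = T.pi (Finset.erase_subset s J) ∧
      S.q = T.pi (Finset.singleton_subset_iff.2 h) ∧ S.t' = T.tJ _ ∧ S.t = T.tJ _ :=
  ⟨T.K8a_S h, rfl, rfl, rfl, rfl⟩

theorem K8a_basis (J : Finset (Fin 5)) : ∃ (ι : Type) (_ : Fintype ι) (y : ι → T.F J),
    Fintype.card ι = n₀ ^ J.card ∧ LinearIndependent κ⟮T.tJ J⟯ y ∧
      ∀ i, y i ∈ LL ((2 * J.card) • dinf κ (T.tJ J)) := by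
  induction J using K8a_ind with
  | h0 =>
    refine ⟨Unit, inferInstance, fun _ => 1, by simp,
      linearIndependent_unique_iff.2 one_ne_zero, fun _ => ?_⟩
    rw [mem_LL_iff one_ne_zero, F1_dv_one]
    simp
  | h1 J s hs ih =>
    obtain ⟨ι, _, y, h1, h2, h3⟩ := ih
    obtain ⟨b, h4, h5⟩ := exists_basis_genus_one (T.g1 s) (T.nc_tJ {s})
    have h6 := Finset.card_erase_add_one hs
    refine ⟨ι × Fin (rk κ (T.tJ {s})), inferInstance, _, ?_,
      (T.K8a_S hs).linearIndependent_mul h4 h2, fun i => ?_⟩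
    · rw [Fintype.card_prod, Fintype.card_fin, h1, T.rk_tJ, Finset.card_singleton, ← pow_add, h6]
    · have h7 := mul_mem_LL ((T.pi (Finset.erase_subset s J)).map_mem_LL.2 (h3 i.1))
        ((T.pi (Finset.singleton_subset_iff.2 hs)).map_mem_LL.2 (h5 i.2))
      rw [FHom.pull_nsmul, FHom.pull_nsmul, FHom.pull_dinf, FHom.pull_dinf, pi_tJ, pi_tJ,
        ← add_nsmul, ← mul_add_one, h6] at h7
      exact h7

theorem genus_le' (J : Finset (Fin 5)) : genus κ (T.F J) ≤ n₀ ^ J.card * 10 := by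
  obtain ⟨ι, _, y, h1, h2, h3⟩ := T.K8a_basis J
  have h4 := genus_le (T.nc_tJ J) y h2 (h1.trans (T.rk_tJ J).symm) _ h3
  have h5 : J.card ≤ 5 := by simpa using Finset.card_le_univ J
  rw [h1] at h4
  exact h4.trans (Nat.mul_le_mul_left _ (by omega))

theorem place_ext (J : Finset (Fin 5)) {R R' : Place κ (T.F J)}
    (h0 : tv (T.tJ J) R = tv (T.tJ J) R')
    (h : ∀ s (hs : s ∈ J), (T.pi (Finset.singleton_subset_iff.2 hs)).res R =
      (T.pi (Finset.singleton_subset_iff.2 hs)).res R') : R = R' := by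
  induction J using K8a_ind with
  | h0 => exact K8a_ext (T.nc_tJ ∅) (T.rk_tJ ∅) h0
  | h1 J s hs ih =>
    refine (T.K8a_S hs).place_ext (ih ?_ fun s' hs' => h s' (Finset.mem_of_mem_erase hs')) (h s hs)
    exact (T.tv_pi (Finset.erase_subset s J) R).trans
      (h0.trans (T.tv_pi (Finset.erase_subset s J) R').symm)

theorem K8a_tv_pr (s : Fin 5) (R : Place κ T.FU) :
    tv (T.tJ {s}) (T.pr s R) = tv (T.tJ Finset.univ) R := T.tv_pi _ R

theorem pr_ext {R R' : Place κ T.FU} (h : ∀ s, T.pr s R = T.pr s R') : R = R' :=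
  T.place_ext _ (by rw [← T.K8a_tv_pr 0, ← T.K8a_tv_pr 0, h]) fun s _ => h s

theorem K8a_ex (P : ∀ s, Place κ (T.F {s})) {c : Option κ} (h : ∀ s, tv (T.tJ {s}) (P s) = c)
    (J : Finset (Fin 5)) : ∃ R : Place κ (T.F J), tv (T.tJ J) R = c ∧
      ∀ s (hs : s ∈ J), (T.pi (Finset.singleton_subset_iff.2 hs)).res R = P s := by
  induction J using K8a_ind with
  | h0 =>
    exact ⟨(T.pi (Finset.empty_subset {0})).res (P 0), (T.tv_pi _ _).trans (h 0),
      fun s hs => absurd hs (Finset.notMem_empty s)⟩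
  | h1 J s hs ih =>
    obtain ⟨Q, h1, h2⟩ := ih
    obtain ⟨R, h3, h4⟩ := (T.K8a_S hs).exists_place (Q := Q) (P := P s) (h1.trans (h s).symm)
    refine ⟨R, (T.tv_pi (Finset.erase_subset s J) R).symm.trans ((congrArg _ h3).trans h1),
      fun s' hs' => ?_⟩
    by_cases e : s' = s
    · subst e
      exact h4
    · rw [← h2 s' (Finset.mem_erase.2 ⟨e, hs'⟩), ← h3]
      rfl

theorem exists_pr (P : ∀ s, Place κ (T.F {s})) {c : Option κ} (h : ∀ s, tv (T.tJ {s}) (P s) = c) :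
    ∃ R : Place κ T.FU, ∀ s, T.pr s R = P s :=
  (T.K8a_ex P h Finset.univ).imp fun _ hR s => hR.2 s (Finset.mem_univ s)

theorem ln_iff {s : Fin 5} {R R' : Place κ T.FU} :
    T.Ln s R R' ↔ ∀ s', s' ≠ s → T.pr s' R = T.pr s' R' := by
  constructor
  · intro h s' hs'
    exact congrArg (T.pi (Finset.singleton_subset_iff.2
      (Finset.mem_erase.2 ⟨hs', Finset.mem_univ s'⟩))).res h
  · intro h
    obtain ⟨s', hs'⟩ := exists_ne s
    refine T.place_ext _ ?_ fun s'' hs'' => h s'' (Finset.ne_of_mem_erase hs'')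
    rw [T.tv_pi, T.tv_pi, ← T.K8a_tv_pr s', ← T.K8a_tv_pr s', h s' hs']

theorem Ln.tv_eq {s : Fin 5} {R R' : Place κ T.FU} (h : T.Ln s R R') :
    tv (T.tJ Finset.univ) R = tv (T.tJ Finset.univ) R' :=
  (T.tv_pi _ R).symm.trans ((congrArg _ h).trans (T.tv_pi _ R'))

theorem exists_line (s : Fin 5) {R : Place κ T.FU} (h : T.Ur R) :
    ∃ Λ : Finset (Place κ T.FU), Λ.card = n₀ ∧ ∀ R', R' ∈ Λ ↔ T.Ln s R R' := by
  refine ⟨(T.K8a_S (Finset.mem_univ s)).q'.fib ((T.pi (Finset.subset_univ _)).res R), ?_,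
    fun R' => (FHom.mem_fib _).trans eq_comm⟩
  refine ((T.K8a_S (Finset.mem_univ s)).card_fib' ?_).trans
    ((T.rk_tJ {s}).trans (by rw [Finset.card_singleton, pow_one]))
  have h1 := h s
  rw [← T.tv_pi (Finset.subset_univ (Finset.univ.erase s))] at h1
  exact h1

theorem finite_not_ur : {R : Place κ T.FU | ¬ T.Ur R}.Finite := by
  refine (Set.finite_iUnion fun s : Fin 5 => (finite_not_unr (T.nc_tJ {s})).biUnion
    fun c _ => finite_tv (T.nc_tJ Finset.univ) c).subset fun R hR => ?_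
  obtain ⟨s, hs⟩ := not_forall.1 hR
  exact Set.mem_iUnion.2 ⟨s, Set.mem_biUnion hs rfl⟩

/-- a set which is heavy in all directions is large -/
theorem heavy (D : Finset (Place κ T.FU)) (hD : D.Nonempty)
    (h : ∀ R ∈ D, ∀ s, n₀ ≤ 2 * (D.filter (T.Ln s R)).card) : n₀ ^ 5 ≤ 32 * D.card := by
  obtain ⟨R, hR⟩ := hD
  have h1 := K8a_heavy T.pr (fun _ _ => T.pr_ext) D n₀ T.Ln (fun _ _ _ => T.ln_iff.1) h
    Finset.univ R hR
  simpa using h1

theorem pl_pos_iff (s : Fin 5) (P : Place κ (T.F {s})) (R : Place κ T.FU) :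
    0 < T.pl Finset.univ s (pd P) R ↔ T.pr s R = P := by
  rw [pl, dif_pos (Finset.mem_univ s), FHom.pull_apply, mul_pos_iff_of_pos_left (FHom.F4_e_pos _ R),
    F1_pd_apply]
  split_ifs with e
  · exact iff_of_true one_pos e.symm
  · exact iff_of_false (lt_irrefl _) fun e' => e e'.symm

theorem pl_nonneg (J : Finset (Fin 5)) (s : Fin 5) {N : Dv κ (T.F {s})} (h : 0 ≤ N) :
    0 ≤ T.pl J s N := by
  unfold pl
  split_ifs with e
  · rw [← (T.pi (Finset.singleton_subset_iff.2 e)).pull_zero]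
    exact (FHom.pull_le_iff _).2 h
  · exact le_rfl

theorem deg_pl {J : Finset (Fin 5)} {s : Fin 5} (h : s ∈ J) (N : Dv κ (T.F {s})) :
    deg (T.pl J s N) = (n₀ : ℤ) ^ (J.card - 1) * deg N := by
  rw [pl, dif_pos h, FHom.deg_pull, T.deg_pi, Finset.card_singleton, Nat.cast_pow]

theorem card_pr_le (s : Fin 5) (P : Place κ (T.F {s})) (D : Finset (Place κ T.FU)) :
    (D.filter fun R => T.pr s R = P).card ≤ n₀ ^ 4 :=
  (Finset.card_le_card fun _ hR => (FHom.mem_fib _).2 (Finset.mem_filter.1 hR).2).trans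
    (((T.pi (Finset.subset_univ {s})).card_fib_le P).trans_eq (T.deg_pi _))

theorem card_pr_pr_le {s s' : Fin 5} (h : s ≠ s') (P : Place κ (T.F {s})) (P' : Place κ (T.F {s'}))
    (D : Finset (Place κ T.FU)) :
    (D.filter fun R => T.pr s R = P ∧ T.pr s' R = P').card ≤ n₀ ^ 3 := by
  rcases (D.filter fun R => T.pr s R = P ∧ T.pr s' R = P').eq_empty_or_nonempty with e | ⟨R₀, h0⟩
  · rw [e]
    exact Nat.zero_le _
  obtain ⟨h1, h2⟩ := (Finset.mem_filter.1 h0).2
  refine (Finset.card_le_card fun R hR => (FHom.mem_fib _).2 ?_).trans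
    (((T.pi (Finset.subset_univ {s, s'})).card_fib_le
      ((T.pi (Finset.subset_univ {s, s'})).res R₀)).trans_eq ?_)
  · obtain ⟨h3, h4⟩ := (Finset.mem_filter.1 hR).2
    refine T.place_ext _ ?_ fun r hr => ?_
    · rw [T.tv_pi, T.tv_pi, ← T.K8a_tv_pr s, ← T.K8a_tv_pr s, h1, h3]
    · rcases Finset.mem_insert.1 hr with rfl | hr'
      · exact h3.trans h1.symm
      · obtain rfl := Finset.mem_singleton.1 hr'
        exact h4.trans h2.symm
  · rw [T.deg_pi, Finset.card_pair h]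
    rfl

theorem Ty.deg_eq {J : Finset (Fin 5)} {Z : Dv κ (T.F J)} {n : Fin 5 → ℤ} (h : T.Ty J Z n) :
    deg Z = (n₀ : ℤ) ^ (J.card - 1) * ∑ s, n s := by
  obtain ⟨N, h1, h2, h3⟩ := h
  rw [h3.deg, deg_sum, Finset.mul_sum]
  refine Finset.sum_congr rfl fun s _ => ?_
  by_cases e : s ∈ J
  · rw [T.deg_pl e, h1]
  · rw [pl, dif_neg e, deg_zero, h2 s e, mul_zero]

theorem Ty.sub {J : Finset (Fin 5)} {Z Z' : Dv κ (T.F J)} {n n' : Fin 5 → ℤ} (h : T.Ty J Z n)
    (h' : T.Ty J Z' n') : T.Ty J (Z - Z') (n - n') := by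
  obtain ⟨N, h1, h2, h3⟩ := h
  obtain ⟨N', h1', h2', h3'⟩ := h'
  refine ⟨fun s => N s - N' s, fun s => by rw [deg_sub, h1, h1', Pi.sub_apply],
    fun s hs => by rw [Pi.sub_apply, h2 s hs, h2' s hs, sub_zero], ?_⟩
  have e : ∀ s, T.pl J s (N s - N' s) = T.pl J s (N s) - T.pl J s (N' s) := fun s => by
    unfold pl
    split_ifs
    · exact FHom.pull_sub ..
    · exact (sub_zero _).symm
  simp only [e, Finset.sum_sub_distrib]
  exact h3.sub h3'

theorem Ty.linEq {J : Finset (Fin 5)} {Z Z' : Dv κ (T.F J)} {n : Fin 5 → ℤ} (h : T.Ty J Z n)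
    (h' : LinEq Z Z') : T.Ty J Z' n :=
  h.imp fun _ hN => ⟨hN.1, hN.2.1, h'.symm.trans hN.2.2⟩

theorem K8a_key {J : Finset (Fin 5)} {s : Fin 5} (hs : s ∈ J) (N : ∀ s, Dv κ (T.F {s})) :
    (T.pi (Finset.erase_subset s J)).pull (∑ s', T.pl (J.erase s) s' (N s')) +
      (T.pi (Finset.singleton_subset_iff.2 hs)).pull (N s) = ∑ s', T.pl J s' (N s') := by
  rw [FHom.pull_sum, ← Finset.add_sum_erase _ _ (Finset.mem_univ s),
    ← Finset.add_sum_erase _ (fun s' => T.pl J s' (N s')) (Finset.mem_univ s), pl,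
    dif_neg (Finset.notMem_erase s J), FHom.pull_zero, zero_add, add_comm, pl, dif_pos hs]
  congr 1
  refine Finset.sum_congr rfl fun s' hs' => ?_
  by_cases e : s' ∈ J
  · rw [pl, pl, dif_pos e, dif_pos (Finset.mem_erase.2 ⟨Finset.ne_of_mem_erase hs', e⟩),
      T.pull_pi_pi]
  · rw [pl, pl, dif_neg e, dif_neg fun e' => e (Finset.mem_of_mem_erase e'), FHom.pull_zero]

theorem K8a_upd (J : Finset (Fin 5)) (s : Fin 5) (N : ∀ s, Dv κ (T.F {s})) (X : Dv κ (T.F {s})) :
    ∑ s', T.pl (J.erase s) s' (Function.update N s X s') = ∑ s', T.pl (J.erase s) s' (N s') := by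
  refine Finset.sum_congr rfl fun s' _ => ?_
  by_cases e : s' = s
  · subst e
    rw [pl, pl, dif_neg (Finset.notMem_erase s' J), dif_neg (Finset.notMem_erase s' J)]
  · rw [Function.update_of_ne e]

theorem K8a_deg_upd {N : ∀ s, Dv κ (T.F {s})} {n : Fin 5 → ℤ} (h : ∀ s, deg (N s) = n s)
    (s : Fin 5) (X : Dv κ (T.F {s})) (s' : Fin 5) :
    deg (Function.update N s X s') = Function.update n s (deg X) s' := by
  by_cases e : s' = s
  · subst e
    rw [Function.update_self, Function.update_self]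
  · rw [Function.update_of_ne e, Function.update_of_ne e, h]

/-- splitting off the cover `s` -/
theorem Ty.split {J : Finset (Fin 5)} {s : Fin 5} (hs : s ∈ J) {Z : Dv κ (T.F J)} {n : Fin 5 → ℤ}
    (h : T.Ty J Z n) : ∃ (M : Dv κ (T.F (J.erase s))) (N : Dv κ (T.F {s})),
      T.Ty (J.erase s) M (Function.update n s 0) ∧ deg N = n s ∧
        LinEq Z ((T.pi (Finset.erase_subset s J)).pull M +
          (T.pi (Finset.singleton_subset_iff.2 hs)).pull N) := by
  obtain ⟨N, h1, h2, h3⟩ := h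
  refine ⟨∑ s', T.pl (J.erase s) s' (N s'), N s,
    ⟨Function.update N s 0, T.K8a_deg_upd h1 s 0, fun s' hs' => ?_, ?_⟩, h1 s, ?_⟩
  · by_cases e : s' = s
    · subst e
      exact Function.update_self ..
    · rw [Function.update_of_ne e]
      exact h2 s' fun e' => hs' (Finset.mem_erase.2 ⟨e, e'⟩)
  · rw [T.K8a_upd]
    exact LinEq.refl _
  · rwa [T.K8a_key hs]

theorem Ty.join {J : Finset (Fin 5)} {s : Fin 5} (hs : s ∈ J) {M : Dv κ (T.F (J.erase s))}
    {n : Fin 5 → ℤ} (h : T.Ty (J.erase s) M n) (N : Dv κ (T.F {s})) :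
    T.Ty J ((T.pi (Finset.erase_subset s J)).pull M +
      (T.pi (Finset.singleton_subset_iff.2 hs)).pull N) (Function.update n s (deg N)) := by
  obtain ⟨N₀, h1, h2, h3⟩ := h
  refine ⟨Function.update N₀ s N, T.K8a_deg_upd h1 s N, fun s' hs' => ?_, ?_⟩
  · rw [Function.update_of_ne fun e : s' = s => hs' (e ▸ hs)]
    exact h2 s' fun e => hs' (Finset.mem_of_mem_erase e)
  · rw [← T.K8a_key hs, T.K8a_upd, Function.update_self]
    exact (FHom.linEq_pull _ h3).add (LinEq.refl _)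

end Tw

end Pool.Agent.E6b
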