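import Pool.Agent.E6b.C9
import Pool.Agent.E6b.G1

open scoped NNReal TensorProduct IntermediateField BigOperators Classical Topology
open Filter

namespace Pool.Agent.E6b

variable {F : Type} [Field F] [Algebra Qb F] [IsFF Qb F] (A : GAct F)

theorem TV_field (o : Place Qb F) (K : IntermediateField ℚ Qb) [FiniteDimensional ℚ K] :
    ∃ K' : IntermediateField ℚ Qb, K ≤ K' ∧ FiniteDimensional ℚ K' ∧
      ∀ σ : Qb ≃ₐ[ℚ] Qb, (∀ x ∈ K', σ x = x) → ∀ i, A.act σ (eb o i) = eb o i := by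
  choose L hL h using A.opn
  have := fun i : Fin (MM o) => hL (eb o i)
  refine ⟨K ⊔ ⨆ i : Fin (MM o), L (eb o i), le_sup_left, inferInstance, fun σ hσ i => ?_⟩
  have h0 : ∀ i, i < MM o → A.act σ (eb o i) = eb o i := fun i hi =>
    h _ σ fun x hx => hσ x ((le_sup_right : _ ≤ K ⊔ ⨆ i : Fin (MM o), L (eb o i))
      (le_iSup (fun i : Fin (MM o) => L (eb o i)) ⟨i, hi⟩ hx))
  induction i using Nat.strong_induction_on with
  | _ i ih =>
    by_cases hi : i < MM o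
    · exact h0 i hi
    · unfold MM at hi h0
      obtain ⟨j, rfl⟩ : ∃ j, i = j + (2 * genus Qb F + 1) := ⟨i - (2 * genus Qb F + 1), by omega⟩
      rw [(ebSpec o).per j (by omega), Subalgebra.coe_mul, map_mul, ih j (by omega),
        h0 _ (by omega)]

theorem TV_pt {o P : Place Qb F} (h : P ≠ o) : ∃ y : Pt o Qb, (jK o).res (plc y) = P := by
  obtain ⟨R, rfl⟩ := (jK o).res_surj P
  rcases eq_oo_or_plc R with rfl | ⟨y, rfl⟩
  · exact absurd jK_res_oo h
  · exact ⟨y, rfl⟩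

theorem TV_aux (o : Place Qb F) (K : IntermediateField ℚ Qb) [FiniteDimensional ℚ K] {d : ℕ}
    (hd : 0 < d) (D : ℕ → Finset (Place Qb F)) (hc : ∀ n, (D n).card = d)
    (hdis : Pairwise fun m n => Disjoint (D m) (D n)) (hs : ∀ n, A.Stab K (D n))
    (ho : ∀ n, o ∉ D n) : ∃ m n, m ≠ n ∧ 2 ≤ ell (ind (D m) + ind (D n)) := by
  obtain ⟨K', hK, hfd, hfix⟩ := TV_field A o K
  let P : ℕ → Fin d → Place Qb F := fun n a => (Finset.equivFinOfCardEq (hc n)).symm a
  have hP : ∀ n a, P n a ∈ D n := fun n a => Subtype.property _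
  have hsum : ∀ n, ind (D n) = ∑ a, pd (P n a) := fun n => by
    rw [ind, ← Finset.sum_coe_sort]
    exact ((Finset.equivFinOfCardEq (hc n)).symm.sum_comp fun x => pd x.1).symm
  choose z hz using fun n a => TV_pt (o := o) (P := P n a) fun e => ho n (e ▸ hP n a)
  have hpd : ∀ R : PO o Qb, (jK o).pull (pd ((jK o).res R)) = pd R := (jK o).pull_pd jK_surj
  have hdz : ∀ n, dz (z n) = (jK o).pull (ind (D n)) := fun n => by
    rw [hsum, FHom.pull_sum, dz]
    exact Finset.sum_congr rfl fun a _ => by rw [← hz, hpd]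
  refine (thmV_pt o hd K' (d * Module.finrank ℚ K') z ?_ ?_ ?_).imp fun m => Exists.imp
    fun n h => ⟨h.1, ?_⟩
  rotate_right
  · have h2 := h.2
    have h1 := one_le_ell (dz_nonneg (Sum.elim (z m) (z n)))
    rw [dz_elim, hdz, hdz, ← FHom.pull_add, (jK o).ell_pull jK_surj] at h2 h1
    omega
  · rintro ⟨m, a⟩ ⟨n, b⟩ e
    have e1 : P m a = P n b := by rw [← hz, ← hz, show z m a = z n b from e]
    obtain rfl : m = n := by
      by_contra hne
      exact Finset.disjoint_left.1 (hdis hne) (hP m a) (e1 ▸ hP n b)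
    rw [(Finset.equivFinOfCardEq (hc m)).symm.injective (Subtype.ext e1)]
  · intro n β hβ
    obtain ⟨σ, hσ⟩ := exists_algEquiv_of_bc o β
    have hσ' : ∀ x ∈ K', σ x = x := fun x hx => (hσ x).symm.trans (hβ x hx)
    obtain ⟨β', h1, -, h3⟩ := exists_bc_of_fhom (o := o) (A.fh σ) (hfix σ hσ')
    obtain rfl : β = β' := BC.ext_τ (RingHom.ext fun x => (hσ x).trans (h1 x).symm)
    rw [clz, β.cl_clD]
    congr 1
    conv_rhs => rw [hdz, ← GAct.Stab.image_eq A (hs n) fun x hx => hσ' x (hK hx), ← A.pull_ind,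
      hsum, FHom.pull_sum, FHom.pull_sum]
    rw [dz, map_sum]
    refine Finset.sum_congr rfl fun a _ => ?_
    rw [β.dv_pd, A.pull_pd, ← hpd, ← hz, ← h3 (plc (z n a))]
    congr 2
    exact ((A.fh σ).res_bij (A.fh_surj σ)).1 (A.res_sm σ _).symm
  · intro n a
    refine (natDegree_minpoly_le K' ((D n).image fun Q => Q.ev (wN o : F)) fun σ hσ => ?_).trans
      (Nat.mul_le_mul_right _ (Finset.card_image_le.trans (hc n).le))
    refine Finset.mem_image.2 ⟨_, hs n σ (fun x hx => hσ x (hK hx)) _ (hP n a), ?_⟩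
    rw [← jK_res_plc, hz, ← A.ev_sm, wN, hfix σ hσ]

/-- Theorem V -/
theorem thmV (K : IntermediateField ℚ Qb) [FiniteDimensional ℚ K] {d : ℕ} (hd : 0 < d)
    (D : ℕ → Finset (Place Qb F)) (hc : ∀ n, (D n).card = d)
    (hdis : Pairwise fun m n => Disjoint (D m) (D n)) (hs : ∀ n, A.Stab K (D n)) :
    ∃ m n, m ≠ n ∧ 2 ≤ ell (ind (D m) + ind (D n)) := by
  obtain ⟨o⟩ : Nonempty (Place Qb F) := inferInstance
  obtain ⟨N, hN⟩ : ∃ N, ∀ n, o ∉ D (n + N) := by
    by_cases h : ∃ n, o ∈ D n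
    · obtain ⟨n, hn⟩ := h
      exact ⟨n + 1, fun m => Finset.disjoint_left.1 (hdis (by omega : n ≠ m + (n + 1))) hn⟩
    · exact ⟨0, fun n hn => h ⟨_, hn⟩⟩
  obtain ⟨m, n, hmn, h⟩ := TV_aux A o K hd (fun n => D (n + N)) (fun n => hc _)
    (fun m n hmn => hdis (by omega)) (fun n => hs _) hN
  exact ⟨m + N, n + N, by omega, h⟩

/-- one member has two partners -/
theorem thmV2 (K : IntermediateField ℚ Qb) [FiniteDimensional ℚ K] {d : ℕ} (hd : 0 < d)
    (D : ℕ → Finset (Place Qb F)) (hc : ∀ n, (D n).card = d)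
    (hdis : Pairwise fun m n => Disjoint (D m) (D n)) (hs : ∀ n, A.Stab K (D n)) :
    ∃ n m₁ m₂, n ≠ m₁ ∧ n ≠ m₂ ∧ m₁ ≠ m₂ ∧ 2 ≤ ell (ind (D n) + ind (D m₁)) ∧
      2 ≤ ell (ind (D n) + ind (D m₂)) := by
  by_contra hn
  have h1 : ∀ x, {y | ¬ (x ≠ y ∧ ¬ 2 ≤ ell (ind (D x) + ind (D y)))}.Finite := by
    intro x
    have h2 : {y | x ≠ y ∧ 2 ≤ ell (ind (D x) + ind (D y))}.Subsingleton := by
      intro a ha b hb
      by_contra hab
      exact hn ⟨x, a, b, ha.1, hb.1, hab, ha.2, hb.2⟩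
    refine (h2.finite.insert x).subset fun y hy => ?_
    by_cases e : x = y
    · exact Or.inl e.symm
    · exact Or.inr ⟨e, by_contra fun h => hy ⟨e, h⟩⟩
  obtain ⟨f, -, hf⟩ := exists_seq_of_forall_finset_exists (fun _ : ℕ => True)
    (fun x y => x ≠ y ∧ ¬ 2 ≤ ell (ind (D x) + ind (D y))) fun s _ => by
      obtain ⟨y, hy⟩ := (s.finite_toSet.biUnion fun x _ => h1 x).exists_notMem
      exact ⟨y, trivial, fun x hx => by_contra fun h => hy (Set.mem_biUnion hx h)⟩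
  have h3 : ∀ m n, m ≠ n → f m ≠ f n ∧ ¬ 2 ≤ ell (ind (D (f m)) + ind (D (f n))) := by
    intro m n h
    rcases lt_or_gt_of_ne h with h | h
    · exact hf m n h
    · rw [add_comm]
      exact ⟨(hf n m h).1.symm, (hf n m h).2⟩
  obtain ⟨m, n, hmn, h⟩ := thmV A K hd (fun n => D (f n)) (fun n => hc _)
    (fun m n hmn => hdis (h3 m n hmn).1) fun n => hs _
  exact (h3 m n hmn).2 h

end Pool.Agent.E6b
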