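import Pool.Agent.E6b.K9b
import Pool.Agent.E6b.TV

open scoped NNReal TensorProduct IntermediateField BigOperators Classical Topology
open Filter

namespace Pool.Agent.E6b

section
variable {L : Type} [Field L] [Algebra Qb L] {n₀ B : ℕ} {T : Tw Qb L n₀ B} (G : TwG T)
  (K : IntermediateField ℚ Qb)

/-- the orbit as a finite set -/
noncomputable abbrev K9_D (R : Place Qb T.FU) : Finset (Place Qb T.FU) :=
  (G.A.finite_orb K R).toFinset

/-- the values of `t` on the two orbits are different -/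
def K9_far (R R' : Place Qb T.FU) : Prop :=
  ∀ Q ∈ K9_D G K R, ∀ Q' ∈ K9_D G K R', tv (T.tJ Finset.univ) Q ≠ tv (T.tJ Finset.univ) Q'

theorem K9_far.disj {R R' : Place Qb T.FU} (h : K9_far G K R R') :
    Disjoint (K9_D G K R) (K9_D G K R') :=
  Finset.disjoint_left.2 fun Q h1 h2 => h Q h1 Q h2 rfl

theorem K9_fin (R : Place Qb T.FU) : {R' | ¬ K9_far G K R R'}.Finite := by
  refine ((G.A.finite_orb K R).biUnion fun Q _ =>
    (finite_tv (T.nc_tJ Finset.univ) (tv (T.tJ Finset.univ) Q)).biUnion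
      fun Q' _ => G.A.finite_orb K Q').subset fun R' hR' => ?_
  simp only [K9_far, Set.mem_ofPred_eq, not_forall, not_not, Set.Finite.mem_toFinset] at hR'
  obtain ⟨Q, hQ, Q', hQ', h⟩ := hR'
  refine Set.mem_biUnion hQ (Set.mem_biUnion (x := Q') h.symm ?_)
  rw [G.A.orb_eq_of_mem hQ']
  exact G.A.mem_orb_self K R'

theorem K9_pos (R : Place Qb T.FU) : 0 < (K9_D G K R).card :=
  Finset.card_pos.2 ⟨R, (Set.Finite.mem_toFinset _).2 (G.A.mem_orb_self K R)⟩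

theorem K9_seq {N : ℕ} (hN : N ≠ 0) (h : {R : Place Qb T.FU | (K9_D G K R).card ∣ N}.Infinite) :
    ∃ (d : ℕ) (f : ℕ → Place Qb T.FU), d ∣ N ∧ (∀ n, (K9_D G K (f n)).card = d ∧ T.Ur (f n)) ∧
      ∀ m n, m ≠ n → K9_far G K (f m) (f n) := by
  obtain ⟨d, hd, hi⟩ : ∃ d, d ∣ N ∧ {R : Place Qb T.FU | (K9_D G K R).card = d}.Infinite := by
    by_contra hc
    push Not at hc
    refine h ((N.divisors.finite_toSet.biUnion fun d hd =>
      hc d (Nat.dvd_of_mem_divisors hd)).subset fun R hR => ?_)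
    exact Set.mem_biUnion (Nat.mem_divisors.2 ⟨hR, hN⟩) rfl
  obtain ⟨f, h1, h2⟩ := exists_seq_of_forall_finset_exists
    (fun R => (K9_D G K R).card = d ∧ T.Ur R) (K9_far G K) fun s _ => by
      obtain ⟨y, h3, h4⟩ := (hi.sdiff (T.finite_not_ur.union
        (s.finite_toSet.biUnion fun x _ => K9_fin G K x))).nonempty
      exact ⟨y, ⟨h3, by_contra fun e => h4 (Or.inl e)⟩,
        fun x hx => by_contra fun e => h4 (Or.inr (Set.mem_biUnion hx e))⟩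
  refine ⟨d, f, hd, h1, fun m n hmn => ?_⟩
  rcases lt_or_gt_of_ne hmn with h | h
  · exact h2 m n h
  · exact fun Q hQ Q' hQ' e => h2 n m h Q' hQ' Q hQ e.symm

end

theorem K9_ind_nonneg {κ F : Type} [Field κ] [Field F] [Algebra κ F] (S : Finset (Place κ F)) :
    0 ≤ ind S := fun P => by
  rw [ind_apply]
  split_ifs <;> simp

/-- the part of a common subdivisor outside the common orbit is small -/
theorem K9_part {κ F : Type} [Field κ] [Field F] [Algebra κ F] {D D₁ D₂ : Finset (Place κ F)}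
    (h1 : Disjoint D D₁) (h2 : Disjoint D₁ D₂) {Z B₁ B₂ : Dv κ F} (hZ : 0 ≤ Z) (b1 : 0 ≤ B₁)
    (b2 : 0 ≤ B₂) (z1 : Z ≤ ind D + ind D₁ + B₁) (z2 : Z ≤ ind D + ind D₂ + B₂) :
    ∃ S ⊆ D, 0 ≤ Z - ind S ∧ deg (Z - ind S) ≤ deg B₁ + deg B₂ := by
  refine ⟨D.filter fun P => 0 < Z P, Finset.filter_subset _ _, fun P => ?_, ?_⟩
  · have e0 : 0 ≤ Z P := hZ P
    simp only [Finsupp.coe_sub, Pi.sub_apply, ind_apply, Finset.mem_filter, Finsupp.coe_zero,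
      Pi.zero_apply]
    split_ifs with h
    · omega
    · omega
  · rw [← deg_add]
    refine deg_mono fun P => ?_
    have e0 : 0 ≤ Z P := hZ P
    have e1 : 0 ≤ B₁ P := b1 P
    have e2 : 0 ≤ B₂ P := b2 P
    have e3 := z1 P
    have e4 := z2 P
    have e5 : P ∈ D → P ∉ D₁ := fun h => Finset.disjoint_left.1 h1 h
    have e6 : P ∈ D₁ → P ∉ D₂ := fun h => Finset.disjoint_left.1 h2 h
    simp only [Finsupp.coe_sub, Finsupp.coe_add, Pi.sub_apply, Pi.add_apply, ind_apply,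
      Finset.mem_filter] at e3 e4 ⊢
    by_cases p0 : P ∈ D <;> by_cases p1 : P ∈ D₁ <;> by_cases p2 : P ∈ D₂ <;>
      by_cases p3 : 0 < Z P <;> simp only [p0, p1, p2, p3, and_true, and_false, if_true, if_false,
        not_true, imp_false, true_imp_iff] at e3 e4 e5 e6 ⊢ <;> omega

/-- finitely many points whose degree over `K` divides `5 n₀ ^ 4` -/
theorem thmK : ∃ n₁ : ℕ, ∀ n₀, n₁ ≤ n₀ → ∃ B₀ : ℕ, ∀ B, B₀ ≤ B →
    ∀ {L : Type} [Field L] [Algebra Qb L] {T : Tw Qb L n₀ B} (G : TwG T)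
      (K : IntermediateField ℚ Qb), FiniteDimensional ℚ K → G.Orb23 K →
      {R : Place Qb T.FU | (G.A.finite_orb K R).toFinset.card ∣ 5 * n₀ ^ 4}.Finite := by
  obtain ⟨c', n₁, hcl⟩ := Tw.cl_tower 5 10
  obtain ⟨c, n₂, hdl⟩ := Tw.dl_tower 11
  obtain ⟨n₃, hnt⟩ := no_typed (2 * c' + c)
  refine ⟨n₁ + n₂ + n₃ + (161 + 10 * c + 21 * c'), fun n₀ hn₀ => ?_⟩
  obtain ⟨B₁, hcl⟩ := hcl n₀ (by omega)
  obtain ⟨B₂, hdl⟩ := hdl n₀ (by omega)
  obtain ⟨B₃, hnt⟩ := hnt n₀ (by omega)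
  refine ⟨B₁ + B₂ + B₃, fun B hB L _ _ T G K hK h23 => ?_⟩
  replace hcl := hcl B (by omega) T Finset.univ (by simp)
  replace hdl := hdl B (by omega) T
  replace hnt := hnt B (by omega) G K h23
  have hn : (161 + 10 * c + 21 * c' : ℤ) ≤ n₀ := by omega
  have hc0 : (0 : ℤ) ≤ c := by positivity
  have hc0' : (0 : ℤ) ≤ c' := by positivity
  have hp : (0 : ℤ) < n₀ := by omega
  have hp' : 0 < n₀ := by omega
  have hp3 : (0 : ℤ) < (n₀ : ℤ) ^ 3 := by positivity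
  have hp4 : (0 : ℤ) < (n₀ : ℤ) ^ 4 := by positivity
  have h43 : (161 + 10 * c + 21 * c' : ℤ) * (n₀ : ℤ) ^ 3 ≤ (n₀ : ℤ) ^ 4 := by
    rw [pow_succ' (n₀ : ℤ) 3]
    exact mul_le_mul_of_nonneg_right hn hp3.le
  have hcc : (0 : ℤ) ≤ c * (n₀ : ℤ) ^ 3 := by positivity
  have hcc' : (0 : ℤ) ≤ c' * (n₀ : ℤ) ^ 3 := by positivity
  have key : ∀ Λ : Dv Qb T.FU, BPF Λ → 0 < deg Λ → deg Λ ≤ 10 * (n₀ : ℤ) ^ 4 →
      ∃ (Bd : Dv Qb T.FU) (n : Fin 5 → ℤ), 0 ≤ Bd ∧ 0 ≤ n ∧ T.Ty Finset.univ (Λ + Bd) n ∧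
        deg Bd ≤ c' * (n₀ : ℤ) ^ 3 ∧ 1 ≤ ∑ s, n s ∧ ∑ s, n s ≤ (11 : ℕ) ∧
        (n₀ : ℤ) ^ 4 ≤ deg Λ + deg Bd := by
    intro Λ h1 h2 h3
    obtain ⟨Bd, n, e1, e2, e3, e4⟩ := hcl Λ h1 (by
      have := mul_le_mul_of_nonneg_left h3 hp.le
      push_cast
      linarith [show (n₀ : ℤ) * (10 * (n₀ : ℤ) ^ 4) = 10 * (n₀ : ℤ) ^ 5 by ring])
    have e5 : deg Bd ≤ c' * (n₀ : ℤ) ^ 3 := by
      refine le_of_mul_le_mul_left (a := (n₀ : ℤ) ^ 2) (e4.trans_eq ?_) (by positivity)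
      ring
    have e6 := Tw.Ty.deg_eq T e3
    rw [deg_add, show (Finset.univ : Finset (Fin 5)).card - 1 = 4 by simp] at e6
    have e7 := F1_deg_nonneg e1
    have e8 : 1 ≤ ∑ s, n s := by
      by_contra e
      have := mul_nonpos_of_nonneg_of_nonpos hp4.le (show ∑ s, n s ≤ 0 by omega)
      omega
    refine ⟨Bd, n, e1, e2, e3, e5, e8, ?_, ?_⟩
    · refine le_of_mul_le_mul_left ?_ hp4
      push_cast
      linarith
    · have := mul_le_mul_of_nonneg_left e8 hp4.le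
      linarith
  by_contra hinf
  obtain ⟨d, f, hd, h1, h2⟩ := K9_seq G K (N := 5 * n₀ ^ 4) (by positivity) hinf
  have hd0 : 0 < d := (h1 0).1 ▸ K9_pos G K (f 0)
  have hd0' : (0 : ℤ) < d := by omega
  have hd5 : d ≤ 5 * n₀ ^ 4 := Nat.le_of_dvd (by positivity) hd
  have hd5' : (d : ℤ) ≤ 5 * (n₀ : ℤ) ^ 4 := by exact_mod_cast hd5
  have hdeg : ∀ n, deg (ind (K9_D G K (f n))) = d := fun n => by rw [deg_ind, (h1 n).1]
  have hsing : ∀ n, ¬ BPF (ind (K9_D G K (f n))) := fun n hb => by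
    obtain ⟨Bd, m, e1, e2, e3, e4, e5, -⟩ := key _ hb (by rw [hdeg]; exact hd0')
      (by rw [hdeg]; linarith)
    exact hnt (f n) (h1 n).2 ((h1 n).1 ▸ hd) _ Bd m subset_rfl e1 (by push_cast; linarith) e2 e5 e3
  obtain ⟨n, m₁, m₂, a1, a2, a3, a4, a5⟩ := thmV2 G.A K hd0 (fun n => K9_D G K (f n))
    (fun n => (h1 n).1) (fun m n hmn => (h2 m n hmn).disj) fun n => G.A.stab_orb K _
  have hsum : ∀ m, n ≠ m → 2 ≤ ell (ind (K9_D G K (f n)) + ind (K9_D G K (f m))) →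
      ∃ (Bd : Dv Qb T.FU) (k : Fin 5 → ℤ), 0 ≤ Bd ∧ 0 ≤ k ∧
        T.Ty Finset.univ (ind (K9_D G K (f n)) + ind (K9_D G K (f m)) + Bd) k ∧
        deg Bd ≤ c' * (n₀ : ℤ) ^ 3 ∧ ∑ s, k s ≤ (11 : ℕ) ∧ (n₀ : ℤ) ^ 4 ≤ d + d + deg Bd := by
    intro m hm h
    obtain ⟨Bd, k, e1, e2, e3, e4, -, e5, e6⟩ := key _
      (((G.A.bpf_of_two_le (h2 n m hm).disj h).resolve_left (hsing n)).resolve_left (hsing m))
      (by rw [deg_add, hdeg, hdeg]; linarith) (by rw [deg_add, hdeg, hdeg]; linarith)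
    rw [deg_add, hdeg, hdeg] at e6
    exact ⟨Bd, k, e1, e2, e3, e4, e5, e6⟩
  obtain ⟨D₁, k₁, p1, p2, p3, p4, p5, p6⟩ := hsum m₁ a1 a4
  obtain ⟨D₂, k₂, q1, q2, q3, q4, q5, -⟩ := hsum m₂ a2 a5
  rcases hdl _ _ k₁ k₂ (add_nonneg (add_nonneg (K9_ind_nonneg _) (K9_ind_nonneg _)) p1)
    (add_nonneg (add_nonneg (K9_ind_nonneg _) (K9_ind_nonneg _)) q1) p2 q2 p5 q5 p3 q3 with
    ⟨Z, Bd, k, r1, r2, r3, r4, r5, r6, r7, r8⟩ | hSm
  · obtain ⟨S, s1, s2, s3⟩ := K9_part (h2 n m₁ a1).disj (h2 m₁ m₂ a3).disj r1 p1 q1 r2 r3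
    refine hnt (f n) (h1 n).2 ((h1 n).1 ▸ hd) S (Z - ind S + Bd) k s1 (add_nonneg s2 r4)
      (by rw [deg_add]; push_cast; linarith) r6 r7 ?_
    rwa [show ind S + (Z - ind S + Bd) = Z + Bd by abel]
  · choose Sm s1 s2 using hSm
    have hpos : ∀ (m : ℕ) (Bd : Dv Qb T.FU), 0 ≤ Bd → ∀ R ∈ K9_D G K (f n),
        0 < (ind (K9_D G K (f n)) + ind (K9_D G K (f m)) + Bd) R := fun m Bd hBd R hR => by
      have e1 : 0 ≤ Bd R := hBd R
      have e2 : 0 ≤ ind (K9_D G K (f m)) R := K9_ind_nonneg _ R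
      rw [Finsupp.add_apply, Finsupp.add_apply, ind_apply, if_pos hR]
      omega
    have h3 := G.overlap_le K (f n) (h1 n).2 (by
      rw [(h1 n).1]
      calc 32 * d ≤ 160 * n₀ ^ 4 := by omega
        _ < n₀ * n₀ ^ 4 := Nat.mul_lt_mul_of_pos_right (by omega) (by positivity)
        _ = n₀ ^ 5 := by ring) _ D₁.support subset_rfl Sm fun s R hR hs R' hl => by
      have e1 := s2 s R (hpos m₁ D₁ p1 R hR) (hpos m₂ D₂ q1 R hR) hs R' hl
      have e2 : R' ∉ K9_D G K (f m₁) := fun e => h2 n m₁ a1 R hR R' e (Tw.Ln.tv_eq T hl)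
      by_contra e3
      rw [not_or, ← Set.Finite.mem_toFinset (G.A.finite_orb K (f n)), Finsupp.mem_support_iff,
        not_not] at e3
      rw [Finsupp.add_apply, Finsupp.add_apply, ind_apply, ind_apply, if_neg e3.1, if_neg e2,
        e3.2] at e1
      omega
    rw [(h1 n).1] at h3
    have h4 : ∑ s, (Sm s).card ≤ 5 * (c * n₀ ^ 3) := by
      simpa using Finset.sum_le_sum fun s (_ : s ∈ Finset.univ) => s1 s
    have h5 := card_support_le_deg p1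
    have h6 : (d : ℤ) ≤ 5 * (c * (n₀ : ℤ) ^ 3) + 10 * (D₁.support.card : ℤ) := by
      exact_mod_cast h3.trans (Nat.add_le_add_right h4 _)
    linarith

end Pool.Agent.E6b
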