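import Mathlib

open scoped BigOperators Classical Pointwise

namespace Pool.Agent.E6b

theorem K9a_bonf {ι X : Type} (A : ι → Finset X) (t σ : ℕ) (I : Finset ι)
    (hA : ∀ i ∈ I, (A i).card = t) (hp : ∀ i ∈ I, ∀ j ∈ I, i ≠ j → (A i ∩ A j).card ≤ σ) :
    I.card * t ≤ (I.biUnion A).card + I.card * I.card * σ := by
  induction I using Finset.induction_on with
  | empty => simp
  | insert a I ha ih =>
    have h1 := ih (fun i hi => hA i (Finset.mem_insert_of_mem hi)) fun i hi j hj =>
      hp i (Finset.mem_insert_of_mem hi) j (Finset.mem_insert_of_mem hj)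
    have h2 := Finset.card_union_add_card_inter (A a) (I.biUnion A)
    have h3 : (A a ∩ I.biUnion A).card ≤ I.card * σ := by
      rw [Finset.inter_biUnion]
      refine Finset.card_biUnion_le_card_mul _ _ _ fun j hj => ?_
      exact hp a (Finset.mem_insert_self _ _) j (Finset.mem_insert_of_mem hj)
        fun e => ha (e ▸ hj)
    rw [hA a (Finset.mem_insert_self _ _)] at h2
    rw [Finset.biUnion_insert, Finset.card_insert_of_notMem ha]
    nlinarith

theorem K9a_double {X : Type} (Ω : Finset (Finset X)) (B : Finset X) (r : ℕ)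
    (h : ∀ x ∈ B, (Ω.filter fun A => x ∈ A).card = r) : ∑ A ∈ Ω, (B ∩ A).card = B.card * r := by
  have e : ∀ A, (B ∩ A).card = ∑ x ∈ B, if x ∈ A then 1 else 0 := fun A => by
    rw [← Finset.card_filter, Finset.filter_mem_eq_inter]
  simp only [e]
  rw [Finset.sum_comm, Finset.sum_congr rfl fun x hx => (Finset.card_filter _ _).symm.trans (h x hx),
    Finset.sum_const, smul_eq_mul]

section

variable {H X : Type} [Group H] [MulAction H X]

theorem K9a_inter (T : Finset X) (g h : H) : (g • T ∩ h • T).card = (T ∩ (g⁻¹ * h) • T).card := by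
  rw [← Finset.card_smul_finset g (T ∩ (g⁻¹ * h) • T), Finset.smul_finset_inter, smul_smul,
    mul_inv_cancel_left]

/-- the elements which almost preserve `T` -/
def K9a_sub (T : Finset X) (σ : ℕ) (hσ : 100 * σ < T.card)
    (hd : ∀ h : H, (T ∩ h • T).card ≤ σ ∨ T.card ≤ (T ∩ h • T).card + σ) : Subgroup H where
  carrier := {h | T.card ≤ (T ∩ h • T).card + σ}
  one_mem' := by simp
  inv_mem' := fun {h} hh => by
    have := K9a_inter T h 1
    rw [mul_one, one_smul, Finset.inter_comm] at this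
    change T.card ≤ (T ∩ h⁻¹ • T).card + σ
    rw [← this]
    exact hh
  mul_mem' := fun {g h} hg hh => by
    refine (hd (g * h)).resolve_left fun hc => ?_
    have h1 : T.card ≤ (T ∩ g • T).card + σ := hg
    have h2 : T.card ≤ (g • T ∩ (g * h) • T).card + σ := by
      rw [K9a_inter, inv_mul_cancel_left]
      exact hh
    have h3 := Finset.card_union_add_card_inter (T ∩ g • T) (g • T ∩ (g * h) • T)
    have h4 : (T ∩ g • T ∪ g • T ∩ (g * h) • T).card ≤ T.card := by
      rw [← Finset.card_smul_finset g T]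
      exact Finset.card_le_card
        (Finset.union_subset Finset.inter_subset_right Finset.inter_subset_left)
    have h5 : (T ∩ g • T ∩ (g • T ∩ (g * h) • T)).card ≤ (T ∩ (g * h) • T).card :=
      Finset.card_le_card
        (Finset.inter_subset_inter Finset.inter_subset_left Finset.inter_subset_right)
    omega

theorem K9a_block (D T : Finset X)
    (hD : ∀ x ∈ D, ∀ h : H, h • x ∈ D) (htr : ∀ x ∈ D, ∀ y ∈ D, ∃ h : H, h • x = y) (hT : T ⊆ D)
    (σ : ℕ) (hσ : 100 * σ < T.card) (hb : D.card ≤ 6 * T.card)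
    (hd : ∀ h : H, (T ∩ h • T).card ≤ σ ∨ T.card ≤ (T ∩ h • T).card + σ) :
    ∃ U : Subgroup H, (∀ h, h ∈ U ↔ T.card ≤ (T ∩ h • T).card + σ) ∧ 0 < U.index ∧
      U.index ≤ 6 ∧ U.index * T.card ≤ D.card + 36 * σ ∧ D.card ≤ U.index * T.card + 36 * σ := by
  set U := K9a_sub T σ hσ hd with hU
  have hmem : ∀ h, h ∈ U ↔ T.card ≤ (T ∩ h • T).card + σ := fun _ => Iff.rfl
  have hsub : ∀ h : H, h • T ⊆ D := fun h x hx => by
    obtain ⟨y, hy, rfl⟩ := Finset.mem_smul_finset.1 hx
    exact hD y (hT hy) h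
  have hbon : ∀ I : Finset (H ⧸ U), I.card * T.card ≤ D.card + I.card * I.card * σ := by
    intro I
    refine (K9a_bonf (fun q : H ⧸ U => q.out • T) T.card σ I
      (fun q _ => Finset.card_smul_finset _ _) fun q _ q' _ hne => ?_).trans ?_
    · rw [K9a_inter]
      refine (hd _).resolve_right fun hc => hne ?_
      rw [← q.out_eq, ← q'.out_eq]
      exact QuotientGroup.eq.2 ((hmem _).2 hc)
    · exact Nat.add_le_add_right
        (Finset.card_le_card (Finset.biUnion_subset.2 fun q _ => hsub _)) _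
  have h7 : ∀ I : Finset (H ⧸ U), I.card ≠ 7 := fun I hI => by
    have := hbon I
    rw [hI] at this
    omega
  have hfin : Finite (H ⧸ U) := by
    by_contra hc
    rw [not_finite_iff_infinite] at hc
    obtain ⟨I, hI⟩ := Infinite.exists_subset_card_eq (H ⧸ U) 7
    exact h7 I hI
  have := Fintype.ofFinite (H ⧸ U)
  have hk : U.index = (Finset.univ : Finset (H ⧸ U)).card := by
    rw [Subgroup.index, Nat.card_eq_fintype_card, Finset.card_univ]
  have hk6 : U.index ≤ 6 := by
    by_contra hc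
    obtain ⟨I, -, hI⟩ := Finset.exists_subset_card_eq (s := (Finset.univ : Finset (H ⧸ U)))
      (n := 7) (by omega)
    exact h7 I hI
  refine ⟨U, hmem, Nat.pos_of_ne_zero Subgroup.index_ne_zero_of_finite, hk6, ?_, ?_⟩
  · have h1 := hbon Finset.univ
    rw [← hk] at h1
    have h2 : U.index * U.index * σ ≤ 36 * σ :=
      Nat.mul_le_mul_right _ (Nat.mul_le_mul hk6 hk6)
    omega
  set Ω : Finset (Finset X) := D.powerset.filter fun A => ∃ h : H, A = h • T with hΩ
  have hΩm : ∀ A, A ∈ Ω ↔ ∃ h : H, A = h • T := fun A => by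
    rw [hΩ, Finset.mem_filter, Finset.mem_powerset]
    exact ⟨fun h => h.2, fun ⟨h, e⟩ => ⟨e ▸ hsub h, h, e⟩⟩
  have hle : ∀ x ∈ D, ∀ y ∈ D,
      (Ω.filter fun A => x ∈ A).card ≤ (Ω.filter fun A => y ∈ A).card := by
    intro x hx y hy
    obtain ⟨g, rfl⟩ := htr x hx y hy
    refine Finset.card_le_card_of_injOn (fun A => g • A) (fun A hA => ?_)
      fun A _ A' _ e => MulAction.injective g e
    rw [Finset.mem_coe, Finset.mem_filter, hΩm] at hA ⊢
    obtain ⟨⟨h, rfl⟩, hxA⟩ := hA
    exact ⟨⟨g * h, smul_smul _ _ _⟩, Finset.smul_mem_smul_finset hxA⟩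
  obtain ⟨x₀, hx₀⟩ : T.Nonempty := Finset.card_pos.1 (by omega)
  set r := (Ω.filter fun A => x₀ ∈ A).card with hr
  have hreg : ∀ x ∈ D, (Ω.filter fun A => x ∈ A).card = r := fun x hx =>
    le_antisymm (hle x hx x₀ (hT hx₀)) (hle x₀ (hT hx₀) x hx)
  have hr0 : 0 < r := Finset.card_pos.2
    ⟨T, Finset.mem_filter.2 ⟨(hΩm T).2 ⟨1, (one_smul _ _).symm⟩, hx₀⟩⟩
  have d1 : Ω.card * T.card = D.card * r := by
    rw [← K9a_double Ω D r hreg, ← smul_eq_mul, ← Finset.sum_const]
    refine Finset.sum_congr rfl fun A hA => ?_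
    obtain ⟨h, rfl⟩ := (hΩm A).1 hA
    rw [Finset.inter_eq_right.2 (hsub h), Finset.card_smul_finset]
  have d2 := K9a_double Ω T r fun x hx => hreg x (hT hx)
  set ΩU := Ω.filter fun A => T.card ≤ (T ∩ A).card + σ with hΩU
  have d3 : ΩU.card * T.card ≤ T.card * r + ΩU.card * σ := by
    calc ΩU.card * T.card = ∑ _A ∈ ΩU, T.card := by rw [Finset.sum_const, smul_eq_mul]
      _ ≤ ∑ A ∈ ΩU, ((T ∩ A).card + σ) :=
          Finset.sum_le_sum fun A hA => (Finset.mem_filter.1 hA).2
      _ = ∑ A ∈ ΩU, (T ∩ A).card + ΩU.card * σ := by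
          rw [Finset.sum_add_distrib, Finset.sum_const, smul_eq_mul]
      _ ≤ _ := by
          rw [← d2]
          exact Nat.add_le_add_right
            (Finset.sum_le_sum_of_subset (Finset.filter_subset _ _)) _
  have d4 : Ω.card ≤ U.index * ΩU.card := by
    rw [hk]
    refine le_trans (Finset.card_le_card ?_) (Finset.card_biUnion_le_card_mul Finset.univ
      (fun q : H ⧸ U => ΩU.image fun A => q.out • A) _ fun q _ => Finset.card_image_le)
    intro A hA
    obtain ⟨h, rfl⟩ := (hΩm A).1 hA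
    refine Finset.mem_biUnion.2 ⟨(h : H ⧸ U), Finset.mem_univ _, Finset.mem_image.2
      ⟨((h : H ⧸ U).out⁻¹ * h) • T, Finset.mem_filter.2 ⟨(hΩm _).2 ⟨_, rfl⟩, (hmem _).1 ?_⟩, ?_⟩⟩
    · exact QuotientGroup.eq.1 (QuotientGroup.out_eq' _)
    · rw [smul_smul, mul_inv_cancel_left]
  obtain ⟨e, he⟩ : ∃ e, T.card = σ + e := ⟨T.card - σ, by omega⟩
  have ht0 : 0 < T.card := by omega
  have d5 : ΩU.card * e ≤ T.card * r := by
    have : ΩU.card * T.card = ΩU.card * σ + ΩU.card * e := by rw [he, mul_add]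
    omega
  have d6 : D.card * e * r ≤ U.index * T.card * T.card * r := by
    calc D.card * e * r = Ω.card * T.card * e := by rw [d1]; ring
      _ ≤ U.index * ΩU.card * T.card * e := by gcongr
      _ = U.index * T.card * (ΩU.card * e) := by ring
      _ ≤ U.index * T.card * (T.card * r) := by gcongr
      _ = _ := by ring
  have d7 : D.card * e ≤ U.index * T.card * T.card := Nat.le_of_mul_le_mul_right d6 hr0
  have d8 : D.card * T.card ≤ (U.index * T.card + 6 * σ) * T.card := by
    calc D.card * T.card = D.card * σ + D.card * e := by rw [← mul_add, ← he]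
      _ ≤ 6 * T.card * σ + U.index * T.card * T.card := by gcongr
      _ = _ := by ring
  have d9 := Nat.le_of_mul_le_mul_right d8 ht0
  omega

end

/-- few points lie on lines which are more than half covered by `X` -/
theorem K9a_bad {P : Type} (Ln : P → P → Prop) (hs : ∀ a b, Ln a b → Ln b a)
    (ht : ∀ a b c, Ln a b → Ln b c → Ln a c) {n : ℕ} (hn : 0 < n) (D X : Finset P)
    (hl : ∀ a ∈ D, ∃ Λ : Finset P, Λ.card = n ∧ ∀ b, b ∈ Λ ↔ Ln a b) :
    (D.filter fun a => n < 2 * (X.filter (Ln a)).card).card ≤ 2 * X.card := by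
  set Bd := D.filter fun a => n < 2 * (X.filter (Ln a)).card with hBd
  have h1 : ∑ a ∈ Bd, (X.filter (Ln a)).card = ∑ x ∈ X, (Bd.filter fun a => Ln a x).card := by
    simp only [Finset.card_filter]
    exact Finset.sum_comm
  have h2 : ∑ x ∈ X, (Bd.filter fun a => Ln a x).card ≤ X.card * n := by
    rw [← smul_eq_mul]
    refine Finset.sum_le_card_nsmul _ _ _ fun x _ => ?_
    rcases (Bd.filter fun a => Ln a x).eq_empty_or_nonempty with e | ⟨a, ha⟩
    · rw [e]; exact Nat.zero_le _
    · obtain ⟨ha1, ha2⟩ := Finset.mem_filter.1 ha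
      obtain ⟨Λ, hΛ, hΛm⟩ := hl a (Finset.mem_filter.1 ha1).1
      rw [← hΛ]
      refine Finset.card_le_card fun b hb => (hΛm b).2 ?_
      exact ht _ _ _ ha2 (hs _ _ (Finset.mem_filter.1 hb).2)
  have h3 : Bd.card * n ≤ 2 * ∑ a ∈ Bd, (X.filter (Ln a)).card := by
    rw [Finset.mul_sum, ← smul_eq_mul]
    exact Finset.card_nsmul_le_sum _ _ _ fun a ha => (Finset.mem_filter.1 ha).2.le
  refine Nat.le_of_mul_le_mul_right (c := n) ?_ hn
  calc Bd.card * n ≤ 2 * (X.card * n) := by omega
    _ = _ := by ring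

end Pool.Agent.E6b
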