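import Pool.Agent.E6b.K8a
import Pool.Agent.E6b.K9aAux

open scoped NNReal TensorProduct IntermediateField BigOperators Classical Topology
open Filter

namespace Pool.Agent.E6b

variable {L : Type} [Field L] [Algebra Qb L] {n₀ B : ℕ} {T : Tw Qb L n₀ B} (G : TwG T)

namespace TwG

theorem K9a_psi (σ : Qb ≃ₐ[ℚ] Qb) (s : Fin 5) :
    ∃ ψ : FHom Qb (T.F {s}) (T.F {G.perm σ s}), Function.Surjective ψ.f ∧
      ((G.A.fh σ).comp (T.pi (Finset.subset_univ {s}))).f =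
        ((T.pi (Finset.subset_univ {G.perm σ s})).comp ψ).f ∧
      (∀ R, ψ.res (T.pr (G.perm σ s) (G.A.sm σ R)) = T.pr s R) ∧
      ∀ c : Option Qb, ψ.f (lc (T.tJ {s}) c) = lc (T.tJ {G.perm σ s}) (c.map σ) := by
  obtain ⟨ψ, h1, h2⟩ := G.eqv σ s
  have hinj := (T.pi (Finset.subset_univ {G.perm σ s})).f.injective
  have ht : ψ.f (T.tJ {s}) = T.tJ {G.perm σ s} := by
    apply hinj
    rw [← h2, T.pi_tJ, T.pi_tJ, G.fix]
  have hc : ∀ c : Qb, ψ.f (algebraMap Qb _ c) = algebraMap Qb _ (σ c) := by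
    intro c
    apply hinj
    rw [← h2, FHom.comm, FHom.comm]
    exact G.A.comm σ c
  refine ⟨ψ, h1, RingHom.ext h2, fun R => ?_, ?_⟩
  · ext x
    change (T.pi (Finset.subset_univ {G.perm σ s})).f (ψ.f x) ∈ (G.A.sm σ R).O ↔
      (T.pi (Finset.subset_univ {s})).f x ∈ R.O
    rw [← h2, GAct.mem_sm]
  · rintro (_ | c)
    · change ψ.f (T.tJ {s})⁻¹ = (T.tJ {G.perm σ s})⁻¹
      rw [map_inv₀, ht]
    · change ψ.f (T.tJ {s} - algebraMap Qb _ c) = T.tJ {G.perm σ s} - algebraMap Qb _ (σ c)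
      rw [map_sub, ht, hc]

theorem tv_sm (σ : Qb ≃ₐ[ℚ] Qb) (R : Place Qb T.FU) :
    tv (T.tJ Finset.univ) (G.A.sm σ R) = (tv (T.tJ Finset.univ) R).map σ := by
  have h1 := G.A.mem_sm σ R (T.tJ Finset.univ)
  have h2 := G.A.ev_sm σ R (T.tJ Finset.univ)
  rw [G.fix] at h1 h2
  unfold tv
  by_cases h : T.tJ Finset.univ ∈ R.O
  · rw [if_pos h, if_pos (h1.2 h), h2]
    rfl
  · rw [if_neg h, if_neg fun e => h (h1.1 e)]
    rfl

theorem pr_sm_iff (σ : Qb ≃ₐ[ℚ] Qb) (s : Fin 5) (R R' : Place Qb T.FU) :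
    T.pr (G.perm σ s) (G.A.sm σ R) = T.pr (G.perm σ s) (G.A.sm σ R') ↔ T.pr s R = T.pr s R' := by
  obtain ⟨ψ, h1, -, h3, -⟩ := G.K9a_psi σ s
  rw [← h3 R, ← h3 R']
  exact (ψ.res_bij h1).injective.eq_iff.symm

theorem ln_sm_iff (σ : Qb ≃ₐ[ℚ] Qb) (s : Fin 5) (R R' : Place Qb T.FU) :
    T.Ln (G.perm σ s) (G.A.sm σ R) (G.A.sm σ R') ↔ T.Ln s R R' := by
  rw [T.ln_iff, T.ln_iff]
  constructor
  · intro h s' hs'
    exact (G.pr_sm_iff σ s' R R').1 (h _ fun e => hs' ((G.perm σ).injective e))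
  · intro h s' hs'
    obtain ⟨s'', rfl⟩ := (G.perm σ).surjective s'
    exact (G.pr_sm_iff σ s'' R R').2 (h s'' fun e => hs' (congrArg _ e))

theorem ur_sm (σ : Qb ≃ₐ[ℚ] Qb) {R : Place Qb T.FU} (h : T.Ur R) : T.Ur (G.A.sm σ R) := by
  intro s'
  obtain ⟨s, rfl⟩ := (G.perm σ).surjective s'
  obtain ⟨ψ, h1, -, -, h4⟩ := G.K9a_psi σ s
  intro P hP
  rw [G.tv_sm, ← h4, ψ.ord_map, ψ.e_eq_one h1, Nat.cast_one, one_mul] at hP ⊢
  exact h s _ hP

theorem ty_act (σ : Qb ≃ₐ[ℚ] Qb) {Z : Dv Qb T.FU} {n : Fin 5 → ℤ} (h : T.Ty Finset.univ Z n) :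
    T.Ty Finset.univ ((G.A.fh σ).pull Z) fun s => n ((G.perm σ)⁻¹ s) := by
  obtain ⟨N, hN, -, hZ⟩ := h
  choose ψ h1 h2 h3 h4 using G.K9a_psi σ
  refine ⟨Equiv.piCongrLeft (fun s' => Dv Qb (T.F {s'})) (G.perm σ) fun s => (ψ s).pull (N s),
    fun s' => ?_, fun s hs => absurd (Finset.mem_univ s) hs, ?_⟩
  · obtain ⟨s, rfl⟩ := (G.perm σ).surjective s'
    rw [Equiv.piCongrLeft_apply_apply, FHom.deg_pull, (ψ s).deg_eq_one_iff.2 (h1 s), hN]
    simp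
  · have e := (G.A.fh σ).linEq_pull hZ
    rw [FHom.pull_sum] at e
    rw [← Equiv.sum_comp (G.perm σ)]
    refine (Finset.sum_congr rfl fun s _ => ?_ :
      ∑ s, (G.A.fh σ).pull (T.pl Finset.univ s (N s)) = _) ▸ e
    rw [Equiv.piCongrLeft_apply_apply]
    unfold Tw.pl
    rw [dif_pos (Finset.mem_univ _), dif_pos (Finset.mem_univ _), ← FHom.pull_comp,
      ← FHom.pull_comp, FHom.pull_congr _ (h2 s)]

/-- vertical points of an orbit are few -/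
theorem overlap_le (K : IntermediateField ℚ Qb) (R₀ : Place Qb T.FU) (hR : T.Ur R₀)
    (hD : 32 * (G.A.finite_orb K R₀).toFinset.card < n₀ ^ 5) (S X : Finset (Place Qb T.FU))
    (hS : S ⊆ (G.A.finite_orb K R₀).toFinset) (Sm : Fin 5 → Finset (Place Qb T.FU))
    (h : ∀ s, ∀ R ∈ S, R ∉ Sm s → ∀ R', T.Ln s R R' → R' ∈ G.A.orb K R₀ ∨ R' ∈ X) :
    S.card ≤ ∑ s, (Sm s).card + 10 * X.card := by
  by_contra hc
  set D := (G.A.finite_orb K R₀).toFinset with hDdef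
  have hmem : ∀ R, R ∈ D ↔ R ∈ G.A.orb K R₀ := fun R => Set.Finite.mem_toFinset _
  have hur : ∀ R ∈ D, T.Ur R := fun R hRD => by
    obtain ⟨σ, -, rfl⟩ := (hmem R).1 hRD
    exact G.ur_sm σ hR
  have hbad : ∀ s, (D.filter fun R => n₀ < 2 * (X.filter (T.Ln s R)).card).card ≤ 2 * X.card :=
    fun s => K9a_bad (T.Ln s) (fun _ _ e => Eq.symm e) (fun _ _ _ e e' => Eq.trans e e')
      T.n₀_pos D X fun R hRD => T.exists_line s (hur R hRD)
  obtain ⟨R, hRS, hRn⟩ : ∃ R ∈ S, R ∉ Finset.univ.biUnion fun s =>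
      Sm s ∪ D.filter fun R => n₀ < 2 * (X.filter (T.Ln s R)).card := by
    refine Finset.exists_mem_notMem_of_card_lt_card (lt_of_le_of_lt ?_ (not_le.1 hc))
    refine Finset.card_biUnion_le.trans ?_
    refine (Finset.sum_le_sum fun s _ => (Finset.card_union_le _ _).trans
      (Nat.add_le_add_left (hbad s) _)).trans (le_of_eq ?_)
    rw [Finset.sum_add_distrib, Finset.sum_const, Finset.card_univ, Fintype.card_fin, smul_eq_mul]
    ring
  have hRD := hS hRS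
  have hheavy : ∀ s, n₀ ≤ 2 * (D.filter (T.Ln s R)).card := by
    intro s
    have hn : R ∉ Sm s ∪ D.filter fun R => n₀ < 2 * (X.filter (T.Ln s R)).card :=
      fun e => hRn (Finset.mem_biUnion.2 ⟨s, Finset.mem_univ _, e⟩)
    rw [Finset.mem_union, not_or, Finset.mem_filter] at hn
    have h2 : 2 * (X.filter (T.Ln s R)).card ≤ n₀ := not_lt.1 fun e => hn.2 ⟨hRD, e⟩
    obtain ⟨Λ, hΛ, hΛm⟩ := T.exists_line s (hur R hRD)
    have h3 : Λ ⊆ D.filter (T.Ln s R) ∪ X.filter (T.Ln s R) := by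
      intro R' hR'
      have hl := (hΛm R').1 hR'
      rcases h s R hRS hn.1 R' hl with e | e
      · exact Finset.mem_union_left _ (Finset.mem_filter.2 ⟨(hmem R').2 e, hl⟩)
      · exact Finset.mem_union_right _ (Finset.mem_filter.2 ⟨e, hl⟩)
    have h4 := (Finset.card_le_card h3).trans (Finset.card_union_le _ _)
    omega
  have key := T.heavy D ⟨R, hRD⟩ fun R' hR' s' => by
    have hR'' : R' ∈ G.A.orb K R := by
      rw [G.A.orb_eq_of_mem ((hmem R).1 hRD)]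
      exact (hmem R').1 hR'
    obtain ⟨σ, hσ, rfl⟩ := hR''
    obtain ⟨s, rfl⟩ := (G.perm σ).surjective s'
    refine (hheavy s).trans (Nat.mul_le_mul_left 2 ?_)
    refine Finset.card_le_card_of_injOn (G.A.sm σ) (fun Q hQ => ?_)
      (G.A.sm_injective σ).injOn
    rw [Finset.mem_coe, Finset.mem_filter] at hQ ⊢
    exact ⟨G.A.stab_orb K R₀ σ hσ Q hQ.1, (G.ln_sm_iff σ s R Q).2 hQ.2⟩
  omega

end TwG

/-- Counting: translates of a subset of a transitive set that are almost equal or almost disjoint. -/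
theorem block_count {H X : Type} [Group H] [MulAction H X] (D T : Finset X)
    (hD : ∀ x ∈ D, ∀ h : H, h • x ∈ D) (htr : ∀ x ∈ D, ∀ y ∈ D, ∃ h : H, h • x = y) (hT : T ⊆ D)
    (σ : ℕ) (hσ : 100 * σ < T.card) (hb : D.card ≤ 6 * T.card)
    (hd : ∀ h : H, (T ∩ T.image (h • ·)).card ≤ σ ∨ T.card ≤ (T ∩ T.image (h • ·)).card + σ) :
    ∃ U : Subgroup H, (∀ h, h ∈ U ↔ T.card ≤ (T ∩ T.image (h • ·)).card + σ) ∧ 0 < U.index ∧
      U.index ≤ 6 ∧ U.index * T.card ≤ D.card + 36 * σ ∧ D.card ≤ U.index * T.card + 36 * σ :=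
  K9a_block D T hD htr hT σ hσ hb hd

end Pool.Agent.E6b
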