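import Pool.Agent.E6b.K9a
import Pool.Agent.E6b.K8

open scoped NNReal TensorProduct IntermediateField BigOperators Classical Topology
open Filter

namespace Pool.Agent.E6b

theorem K9b_arith {N q r r' d t b J c₀ c : ℤ} (hq : 0 < q) (hc₀ : 0 ≤ c₀) (hc : 0 ≤ c)
    (hN : 2000 * (c₀ + c + 1) ≤ N) (hr : 0 ≤ r) (hd : d * r = 5 * (N * q))
    (ht : t + b = N * q * J) (hb0 : 0 ≤ b) (hb : b ≤ c₀ * q) (hJ : 1 ≤ J) (htd : t ≤ d)
    (hr0 : 0 < r') (hr6 : r' ≤ 6) (h1 : r' * t ≤ d + 36 * ((10 * c₀ + 5 * c) * q))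
    (h2 : d ≤ r' * t + 36 * ((10 * c₀ + 5 * c) * q)) : r * r' * J = 5 := by
  have a0 : 0 ≤ c₀ * q := mul_nonneg hc₀ hq.le
  have a1 : 0 ≤ c * q := mul_nonneg hc hq.le
  have a2 : 2000 * (c₀ * q + c * q + q) ≤ N * q := by nlinarith
  have a3 : N * q ≤ N * q * J := by nlinarith
  have a4 : r ≤ 5 := by
    by_contra h
    have : d * 6 ≤ d * r := mul_le_mul_of_nonneg_left (by omega) (by omega)
    omega
  have a5 : (r * r' * J - 5) * (N * q) = r * (r' * t - d) + r * r' * b := by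
    have : t = N * q * J - b := by omega
    rw [this]
    linear_combination hd
  have a6 : r * (r' * t - d) ≤ 5 * (36 * ((10 * c₀ + 5 * c) * q)) := by nlinarith
  have a7 : - (5 * (36 * ((10 * c₀ + 5 * c) * q))) ≤ r * (r' * t - d) := by nlinarith
  have a8 : 0 ≤ r * r' * b := by positivity
  have a9 : r * r' * b ≤ 30 * (c₀ * q) :=
    mul_le_mul (by nlinarith) hb hb0 (by norm_num)
  by_contra h
  rcases lt_or_gt_of_ne h with h | h
  · have : (r * r' * J - 5) * (N * q) ≤ (-1) * (N * q) :=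
      mul_le_mul_of_nonneg_right (by omega) (by omega)
    nlinarith
  · have : 1 * (N * q) ≤ (r * r' * J - 5) * (N * q) :=
      mul_le_mul_of_nonneg_right (by omega) (by omega)
    nlinarith

theorem K9b_index {H : Type} [Group H] (φ : H →* Equiv.Perm (Fin 5)) (U : Subgroup H) (s₀ : Fin 5)
    (hU : ∀ h ∈ U, φ h s₀ = s₀) (h1 : ∀ h s, ((φ h s : ℕ) < 2 ↔ (s : ℕ) < 2))
    (h2 : ∀ s s' : Fin 5, ((s : ℕ) < 2 ↔ (s' : ℕ) < 2) → ∃ h, φ h s = s') :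
    2 ∣ U.index ∨ 3 ∣ U.index := by
  let _ : MulAction H (Fin 5) := MulAction.compHom (Fin 5) φ
  have hle : U ≤ MulAction.stabilizer H s₀ := fun h hh => hU h hh
  have hd := Subgroup.index_dvd_of_le hle
  rw [MulAction.index_stabilizer] at hd
  have ho : MulAction.orbit H s₀ =
      ((Finset.univ.filter fun s : Fin 5 => ((s₀ : ℕ) < 2 ↔ (s : ℕ) < 2) : Finset (Fin 5)) :
        Set (Fin 5)) := by
    ext s
    simp only [Finset.coe_filter, Finset.mem_univ, true_and, Set.mem_ofPred_eq]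
    constructor
    · rintro ⟨h, rfl⟩
      exact (h1 h s₀).symm
    · intro hs
      exact h2 s₀ s hs
  rw [ho, Set.ncard_coe_finset] at hd
  have hc : ∀ s₀ : Fin 5,
      (Finset.univ.filter fun s : Fin 5 => ((s₀ : ℕ) < 2 ↔ (s : ℕ) < 2)).card = 2 ∨
      (Finset.univ.filter fun s : Fin 5 => ((s₀ : ℕ) < 2 ↔ (s : ℕ) < 2)).card = 3 := by
    decide
  rcases hc s₀ with h | h
  · left
    convert hd using 1
    convert h.symm
  · right
    convert hd using 1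
    convert h.symm

theorem K9b_block {F : Type} [Field F] [Algebra Qb F] [IsFF Qb F] (A : GAct F)
    (K : IntermediateField ℚ Qb) (R₀ : Place Qb F) (S : Finset (Place Qb F))
    (hS : S ⊆ (A.finite_orb K R₀).toFinset) (σ : ℕ) (hσ : 100 * σ < S.card)
    (hb : (A.finite_orb K R₀).toFinset.card ≤ 6 * S.card)
    (hd : ∀ h : Qb ≃ₐ[ℚ] Qb, (∀ x ∈ K, h x = x) → (S ∩ S.image (A.sm h)).card ≤ σ ∨
      S.card ≤ (S ∩ S.image (A.sm h)).card + σ) :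
    ∃ U : Subgroup K.fixingSubgroup,
      (∀ h ∈ U, S.card ≤ (S ∩ S.image (A.sm h.1)).card + σ) ∧ 0 < U.index ∧ U.index ≤ 6 ∧
      U.index * S.card ≤ (A.finite_orb K R₀).toFinset.card + 36 * σ ∧
      (A.finite_orb K R₀).toFinset.card ≤ U.index * S.card + 36 * σ := by
  let _ : MulAction K.fixingSubgroup (Place Qb F) :=
    { smul := fun h P => A.sm h.1 P
      one_smul := A.sm_one
      mul_smul := fun a b => A.sm_mul a.1 b.1 }
  have hm : ∀ h : K.fixingSubgroup, ∀ x ∈ K, h.1 x = x := fun h =>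
    (IntermediateField.mem_fixingSubgroup_iff K h.1).1 h.2
  obtain ⟨U, h1, h2⟩ := block_count (H := K.fixingSubgroup) (A.finite_orb K R₀).toFinset S
    (fun x hx h => A.stab_orb K R₀ h.1 (hm h) x hx)
    (fun x hx y hy => by
      rw [Set.Finite.mem_toFinset] at hx hy
      rw [← A.orb_eq_of_mem hx] at hy
      obtain ⟨h, hh, rfl⟩ := hy
      exact ⟨⟨h, (IntermediateField.mem_fixingSubgroup_iff K h).2 hh⟩, rfl⟩)
    hS σ hσ hb fun h => hd h.1 (hm h)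
  exact ⟨U, fun h hh => (h1 h).1 hh, h2⟩

section
variable {κ F : Type} [Field κ] [Field F] [Algebra κ F]

theorem K9b_ind_nonneg (S : Finset (Place κ F)) : 0 ≤ ind S := fun R => by
  rw [ind_apply, Finsupp.zero_apply]
  split_ifs <;> omega

end

section
variable {L : Type} [Field L] [Algebra Qb L] {n₀ B : ℕ} {T : Tw Qb L n₀ B} (G : TwG T)

theorem K9b_deg {Z : Dv Qb T.FU} {n : Fin 5 → ℤ} (h : T.Ty Finset.univ Z n) :
    deg Z = n₀ * (n₀ : ℤ) ^ 3 * ∑ s, n s := by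
  rw [Tw.Ty.deg_eq T h, Finset.card_univ, Fintype.card_fin]
  ring

theorem K9b_pull_nonneg (h : Qb ≃ₐ[ℚ] Qb) {Z : Dv Qb T.FU} (hZ : 0 ≤ Z) :
    0 ≤ (G.A.fh h).pull Z := by
  rw [← (G.A.fh h).pull_zero]
  exact (G.A.fh h).pull_le_iff.2 hZ

theorem K9b_sum (π : Equiv.Perm (Fin 5)) (n : Fin 5 → ℤ) : ∑ s, n (π s) = ∑ s, n s :=
  Equiv.sum_comp π n

/-- a typed subset of least type is almost equal to or almost disjoint from its translates -/
theorem K9b_dich (K : IntermediateField ℚ Qb) (R₀ : Place Qb T.FU) (hR : T.Ur R₀)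
    (hD : 32 * (G.A.finite_orb K R₀).toFinset.card < n₀ ^ 5) (c₀ c : ℕ)
    (dl : ∀ (Z₁ Z₂ : Dv Qb T.FU) (m₁ m₂ : Fin 5 → ℤ), 0 ≤ Z₁ → 0 ≤ Z₂ → 0 ≤ m₁ → 0 ≤ m₂ →
      ∑ s, m₁ s ≤ (5 : ℕ) → ∑ s, m₂ s ≤ (5 : ℕ) → T.Ty Finset.univ Z₁ m₁ →
      T.Ty Finset.univ Z₂ m₂ →
      (∃ (Z Bd : Dv Qb T.FU) (n : Fin 5 → ℤ), 0 ≤ Z ∧ Z ≤ Z₁ ∧ Z ≤ Z₂ ∧ 0 ≤ Bd ∧
        deg Bd ≤ c * (n₀ : ℤ) ^ 3 ∧ 0 ≤ n ∧ 1 ≤ ∑ s, n s ∧ T.Ty Finset.univ (Z + Bd) n) ∨
      ∀ s, ∃ Sm : Finset (Place Qb T.FU), Sm.card ≤ c * n₀ ^ 3 ∧ ∀ R, 0 < Z₁ R → 0 < Z₂ R →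
        R ∉ Sm → ∀ R', T.Ln s R R' → 0 < Z₁ R')
    (S : Finset (Place Qb T.FU)) (Bd : Dv Qb T.FU) (n : Fin 5 → ℤ)
    (hS : S ⊆ (G.A.finite_orb K R₀).toFinset) (hB : 0 ≤ Bd) (hd : deg Bd ≤ c₀ * (n₀ : ℤ) ^ 3)
    (hn : 0 ≤ n) (h5 : ∑ s, n s ≤ 5) (hty : T.Ty Finset.univ (ind S + Bd) n)
    (ih : ∀ (S' : Finset (Place Qb T.FU)) (Bd' : Dv Qb T.FU) (n' : Fin 5 → ℤ),
      S' ⊆ (G.A.finite_orb K R₀).toFinset → 0 ≤ Bd' →
      deg Bd' ≤ (2 * c₀ + c : ℕ) * (n₀ : ℤ) ^ 3 → 0 ≤ n' → 1 ≤ ∑ s, n' s →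
      T.Ty Finset.univ (ind S' + Bd') n' → ∑ s, n s ≤ ∑ s, n' s)
    (h : Qb ≃ₐ[ℚ] Qb) :
    (S ∩ S.image (G.A.sm h)).card ≤ (10 * c₀ + 5 * c) * n₀ ^ 3 ∨
      S.card ≤ (S ∩ S.image (G.A.sm h)).card + (10 * c₀ + 5 * c) * n₀ ^ 3 := by
  have hZ : 0 ≤ ind S + Bd := add_nonneg (K9b_ind_nonneg S) hB
  have hB' := K9b_pull_nonneg G h hB
  have hq : (0 : ℤ) ≤ (n₀ : ℤ) ^ 3 := by positivity
  have e : (G.A.fh h).pull (ind S + Bd) = ind (S.image (G.A.sm h)) + (G.A.fh h).pull Bd := by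
    rw [FHom.pull_add, GAct.pull_ind]
  rcases dl _ _ n (fun s => n ((G.perm h)⁻¹ s)) hZ (K9b_pull_nonneg G h hZ) hn (fun s => hn _) h5
    ((K9b_sum (G.perm h)⁻¹ n).trans_le h5) hty (G.ty_act h hty) with
    ⟨Z, Bd', n', z0, z1, z2, b0, b1, n0, n1, ty⟩ | h2
  · right
    rw [e] at z2
    set S' := (S ∩ S.image (G.A.sm h)).filter fun R => 0 < Z R with hS'
    have k0 : 0 ≤ Z - ind S' := fun R => by
      have := z0 R
      rw [Finsupp.sub_apply, ind_apply, Finsupp.zero_apply] at *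
      split_ifs with hh
      · have := (Finset.mem_filter.1 hh).2
        omega
      · omega
    have k1 : Z - ind S' ≤ Bd + (G.A.fh h).pull Bd := fun R => by
      have a1 := z1 R
      have a2 := z2 R
      have a3 : 0 ≤ Bd R := hB R
      have a4 : 0 ≤ (G.A.fh h).pull Bd R := hB' R
      rw [Finsupp.add_apply, ind_apply] at a1 a2
      rw [Finsupp.sub_apply, ind_apply, Finsupp.add_apply]
      by_cases b1 : R ∈ S <;> by_cases b2 : R ∈ S.image (G.A.sm h) <;> by_cases b3 : 0 < Z R <;>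
        simp only [hS', Finset.mem_filter, Finset.mem_inter, b1, b2, b3, if_true, if_false,
          and_self, and_false, and_true] at a1 a2 ⊢ <;> omega
    have k2 := deg_mono k1
    rw [deg_add, GAct.deg_pull] at k2
    have k3 : T.Ty Finset.univ (ind S' + (Z - ind S' + Bd')) n' := by
      rwa [← add_assoc, add_sub_cancel]
    have k4 : deg (Z - ind S' + Bd') ≤ (2 * c₀ + c : ℕ) * (n₀ : ℤ) ^ 3 := by
      rw [deg_add]
      push_cast
      linarith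
    have k5 := ih S' _ n' ((Finset.filter_subset _ _).trans (Finset.inter_subset_left.trans hS))
      (add_nonneg k0 b0) k4 n0 n1 k3
    have k6 := K9b_deg k3
    have k7 := K9b_deg hty
    rw [deg_add, deg_ind] at k6 k7
    have k8 := F1_deg_nonneg hB
    have k9 : (S'.card : ℤ) ≤ (S ∩ S.image (G.A.sm h)).card :=
      Int.ofNat_le.2 (Finset.card_filter_le _ _)
    have k10 : n₀ * (n₀ : ℤ) ^ 3 * ∑ s, n s ≤ n₀ * (n₀ : ℤ) ^ 3 * ∑ s, n' s :=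
      mul_le_mul_of_nonneg_left k5 (by positivity)
    have k11 : (0 : ℤ) ≤ c₀ * (n₀ : ℤ) ^ 3 := by positivity
    have k12 : (0 : ℤ) ≤ c * (n₀ : ℤ) ^ 3 := by positivity
    zify
    push_cast at k4
    linarith
  · left
    choose Sm s1 s2 using h2
    have k1 := G.overlap_le K R₀ hR hD (S ∩ S.image (G.A.sm h)) Bd.support
      (Finset.inter_subset_left.trans hS) Sm fun s R hRS hRm R' hl => by
        obtain ⟨a1, a2⟩ := Finset.mem_inter.1 hRS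
        have a3 : 0 ≤ Bd R := hB R
        have a4 : 0 ≤ (G.A.fh h).pull Bd R := hB' R
        have a5 := s2 s R (by rw [Finsupp.add_apply, ind_apply, if_pos a1]; omega)
          (by rw [e, Finsupp.add_apply, ind_apply, if_pos a2]; omega) hRm R' hl
        rw [Finsupp.add_apply, ind_apply] at a5
        by_cases b : R' ∈ S
        · exact Or.inl ((Set.Finite.mem_toFinset _).1 (hS b))
        · rw [if_neg b] at a5
          exact Or.inr (Finsupp.mem_support_iff.2 (by omega))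
    have k2 : ∑ s, (Sm s).card ≤ ∑ _s : Fin 5, c * n₀ ^ 3 := Finset.sum_le_sum fun s _ => s1 s
    rw [Finset.sum_const, Finset.card_univ, Fintype.card_fin, smul_eq_mul] at k2
    have k3 : Bd.support.card ≤ c₀ * n₀ ^ 3 := by
      have := (card_support_le_deg hB).trans hd
      exact_mod_cast this
    nlinarith

/-- the type is invariant under the almost stabiliser -/
theorem K9b_inv {S : Finset (Place Qb T.FU)} {Bd : Dv Qb T.FU} {n : Fin 5 → ℤ} (hB : 0 ≤ Bd)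
    (hn : 0 ≤ n) (h5 : ∑ s, n s ≤ 5) (hty : T.Ty Finset.univ (ind S + Bd) n) (σ : ℕ)
    (hσ : σ + deg Bd + 10 * (n₀ : ℤ) ^ 3 < (n₀ : ℤ) ^ 4) (h : Qb ≃ₐ[ℚ] Qb)
    (hh : S.card ≤ (S ∩ S.image (G.A.sm h)).card + σ) (s : Fin 5) : n (G.perm h s) = n s := by
  have hB' := K9b_pull_nonneg G h hB
  have k0 := Tw.Ty.sub T (G.ty_act h hty) hty
  have k1 : 0 ≤ (G.A.fh h).pull (ind S + Bd) - (ind S + Bd) +
      (ind (S \ S.image (G.A.sm h)) + Bd) := fun R => by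
    have a4 : 0 ≤ (G.A.fh h).pull Bd R := hB' R
    rw [FHom.pull_add, GAct.pull_ind]
    simp only [Finsupp.add_apply, Finsupp.sub_apply, ind_apply, Finsupp.zero_apply,
      Finset.mem_sdiff]
    by_cases b1 : R ∈ S <;> by_cases b2 : R ∈ S.image (G.A.sm h) <;>
      simp only [b1, b2, if_true, if_false, not_true, not_false_iff, and_self, and_false,
        false_and] <;> omega
  have k2 := Finset.card_sdiff_add_card_inter S (S.image (G.A.sm h))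
  have k3 : ∑ s, |((fun s => n ((G.perm h)⁻¹ s)) - n) s| ≤ 10 := by
    have : ∑ s, |((fun s => n ((G.perm h)⁻¹ s)) - n) s| ≤ ∑ s, (n ((G.perm h)⁻¹ s) + n s) :=
      Finset.sum_le_sum fun s _ => by
        have a1 : 0 ≤ n ((G.perm h)⁻¹ s) := hn _
        have a2 : 0 ≤ n s := hn _
        rw [Pi.sub_apply, abs_le]
        constructor <;> linarith
    rw [Finset.sum_add_distrib, K9b_sum] at this
    linarith
  have k4 := T.ty_mono k0 (add_nonneg (K9b_ind_nonneg (S \ S.image (G.A.sm h))) hB)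
    (one_le_ell k1) (by
      rw [deg_add, deg_ind]
      have := mul_le_mul_of_nonneg_right k3 (by positivity : (0 : ℤ) ≤ (n₀ : ℤ) ^ 3)
      have : ((S \ S.image (G.A.sm h)).card : ℤ) ≤ σ := by omega
      linarith)
  have k5 : ∑ s, ((fun s => n ((G.perm h)⁻¹ s)) - n) s = 0 := by
    simp only [Pi.sub_apply]
    rw [Finset.sum_sub_distrib, K9b_sum, sub_self]
  have k6 := (Finset.sum_eq_zero_iff_of_nonneg fun s _ => k4 s).1 k5 (G.perm h s)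
    (Finset.mem_univ _)
  have k7 : (G.perm h)⁻¹ (G.perm h s) = s := (G.perm h).symm_apply_apply s
  simp only [Pi.sub_apply, k7] at k6
  omega

/-- the whole orbit is not a sum of five fibres -/
theorem K9b_five (K : IntermediateField ℚ Qb) (hK : G.Orb23 K) (R₀ : Place Qb T.FU) (c₀ : ℕ)
    (hN : 2 * c₀ + 6 ≤ n₀) (hD : (G.A.finite_orb K R₀).toFinset.card ≤ 5 * n₀ ^ 4)
    {S : Finset (Place Qb T.FU)} {Bd : Dv Qb T.FU} (hS : S ⊆ (G.A.finite_orb K R₀).toFinset)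
    (hB : 0 ≤ Bd) (hd : deg Bd ≤ c₀ * (n₀ : ℤ) ^ 3)
    (hty : T.Ty Finset.univ (ind S + Bd) fun _ => 1) : False := by
  set D := (G.A.finite_orb K R₀).toFinset with hDd
  obtain ⟨P, hP⟩ := T.ty_rigid (by omega) hty (add_nonneg (K9b_ind_nonneg S) hB)
    fun _ => Or.inr rfl
  simp only [one_smul] at hP
  have hq : 0 < n₀ ^ 3 := pow_pos T.n₀_pos 3
  have he : n₀ ^ 4 = n₀ * n₀ ^ 3 := by ring
  have hl : (2 * c₀ + 6) * n₀ ^ 3 ≤ n₀ ^ 4 := by
    rw [he]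
    exact Nat.mul_le_mul_right _ hN
  have hp : ∀ s, 0 ≤ T.pl Finset.univ s (pd (P s)) := fun s =>
    T.pl_nonneg _ s (Finsupp.single_nonneg.2 zero_le_one)
  have k0 : 5 * n₀ ^ 4 ≤ S.card + c₀ * n₀ ^ 3 := by
    have := K9b_deg hty
    rw [deg_add, deg_ind] at this
    simp only [Finset.sum_const, Finset.card_univ, Fintype.card_fin] at this
    zify
    simp only [nsmul_eq_mul, Nat.cast_ofNat, mul_one] at this
    nlinarith
  have k1 : ∀ s, n₀ ^ 4 ≤ (S.filter fun R => T.pr s R = P s).card + c₀ * n₀ ^ 3 := by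
    intro s
    have a1 : T.pl Finset.univ s (pd (P s)) ≤ ind S + Bd := by
      rw [hP]
      exact Finset.single_le_sum (fun s _ => hp s) (Finset.mem_univ s)
    have a2 : T.pl Finset.univ s (pd (P s)) ≤ ind (S.filter fun R => T.pr s R = P s) + Bd := by
      intro R
      have b1 := a1 R
      have b2 : 0 ≤ Bd R := hB R
      have b3 := T.pl_pos_iff s (P s) R
      rw [Finsupp.add_apply, ind_apply] at b1 ⊢
      by_cases b4 : T.pr s R = P s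
      · simpa only [Finset.mem_filter, b4, and_true] using b1
      · have := mt b3.1 b4
        split_ifs <;> omega
    have a3 := deg_mono a2
    rw [T.deg_pl (Finset.mem_univ s), deg_pd, deg_add, deg_ind, Finset.card_univ,
      Fintype.card_fin] at a3
    zify
    norm_num at a3
    linarith
  have k2 : ∀ R ∈ S, ∃ s, T.pr s R = P s := by
    intro R hR
    by_contra hc
    have b2 : 0 ≤ Bd R := hB R
    have b1 := DFunLike.congr_fun hP R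
    rw [Finsupp.add_apply, ind_apply, if_pos hR, Finsupp.finsetSum_apply] at b1
    have b3 : ∑ s, T.pl Finset.univ s (pd (P s)) R ≤ 0 := Finset.sum_nonpos fun s _ =>
      not_lt.1 fun h => hc ⟨s, (T.pl_pos_iff s (P s) R).1 h⟩
    omega
  have k3 : ∀ h : Qb ≃ₐ[ℚ] Qb, (∀ x ∈ K, h x = x) → ∀ s R, T.pr s R = P s →
      T.pr (G.perm h s) (G.A.sm h R) = P (G.perm h s) := by
    intro h hh s R hR
    by_contra hc
    have a1 : (S.filter fun R => T.pr s R = P s).image (G.A.sm h) ⊆ (D \ S) ∪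
        (Finset.univ.erase (G.perm h s)).biUnion fun s' => D.filter fun R' =>
          T.pr (G.perm h s) R' = T.pr (G.perm h s) (G.A.sm h R) ∧ T.pr s' R' = P s' := by
      intro R' hR'
      obtain ⟨R₁, h1, rfl⟩ := Finset.mem_image.1 hR'
      obtain ⟨h1, h2⟩ := Finset.mem_filter.1 h1
      have h3 : G.A.sm h R₁ ∈ D := G.A.stab_orb K R₀ h hh R₁ (hS h1)
      have h4 := (G.pr_sm_iff h s R₁ R).2 (h2.trans hR.symm)
      by_cases h5 : G.A.sm h R₁ ∈ S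
      · obtain ⟨s', h6⟩ := k2 _ h5
        refine Finset.mem_union_right _ (Finset.mem_biUnion.2 ⟨s', Finset.mem_erase.2
          ⟨?_, Finset.mem_univ _⟩, Finset.mem_filter.2 ⟨h3, h4, h6⟩⟩)
        rintro rfl
        exact hc (h4.symm.trans h6)
      · exact Finset.mem_union_left _ (Finset.mem_sdiff.2 ⟨h3, h5⟩)
    have a2 := (Finset.card_le_card a1).trans (Finset.card_union_le _ _)
    rw [Finset.card_image_of_injective _ (G.A.sm_injective h)] at a2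
    have a3 := Finset.card_biUnion_le_card_mul (Finset.univ.erase (G.perm h s))
      (fun s' => D.filter fun R' =>
          T.pr (G.perm h s) R' = T.pr (G.perm h s) (G.A.sm h R) ∧ T.pr s' R' = P s') (n₀ ^ 3)
      fun s' hs' => T.card_pr_pr_le (Finset.mem_erase.1 hs').1.symm _ _ D
    rw [Finset.card_erase_of_mem (Finset.mem_univ _), Finset.card_univ, Fintype.card_fin] at a3
    have a4 := Finset.card_sdiff_add_card_eq_card hS
    have a5 := k1 s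
    nlinarith
  obtain ⟨R₁, hR₁⟩ : (S.filter fun R => T.pr 0 R = P 0).Nonempty := by
    rw [← Finset.card_pos]
    have := k1 0
    nlinarith
  obtain ⟨h1, h2⟩ := Finset.mem_filter.1 hR₁
  have k4 : D ⊆ (D.filter fun R => T.pr 0 R = P 0) ∪ D.filter fun R => T.pr 1 R = P 1 := by
    intro R hR
    have a1 := (Set.Finite.mem_toFinset _).1 hR
    rw [← G.A.orb_eq_of_mem ((Set.Finite.mem_toFinset _).1 (hS h1))] at a1
    obtain ⟨h, hh, rfl⟩ := a1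
    have a2 := k3 h hh 0 R₁ h2
    have a3 := (hK.1 h hh 0).2 (by decide)
    have a4 : ∀ s : Fin 5, (s : ℕ) < 2 → s = 0 ∨ s = 1 := by decide
    rcases a4 _ a3 with a5 | a5 <;> rw [a5] at a2
    · exact Finset.mem_union_left _ (Finset.mem_filter.2 ⟨hR, a2⟩)
    · exact Finset.mem_union_right _ (Finset.mem_filter.2 ⟨hR, a2⟩)
  have k5 := (Finset.card_le_card k4).trans (Finset.card_union_le _ _)
  have k6 := T.card_pr_le 0 (P 0) D
  have k7 := T.card_pr_le 1 (P 1) D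
  have k8 := Finset.card_le_card hS
  nlinarith

/-- there is no typed subset of least type -/
theorem K9b_core (K : IntermediateField ℚ Qb) (hK : G.Orb23 K) (R₀ : Place Qb T.FU) (hR : T.Ur R₀)
    (hD : (G.A.finite_orb K R₀).toFinset.card ∣ 5 * n₀ ^ 4) (c₀ c : ℕ)
    (hN : 2000 * (c₀ + c + 1) ≤ n₀)
    (dl : ∀ (Z₁ Z₂ : Dv Qb T.FU) (m₁ m₂ : Fin 5 → ℤ), 0 ≤ Z₁ → 0 ≤ Z₂ → 0 ≤ m₁ → 0 ≤ m₂ →
      ∑ s, m₁ s ≤ (5 : ℕ) → ∑ s, m₂ s ≤ (5 : ℕ) → T.Ty Finset.univ Z₁ m₁ →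
      T.Ty Finset.univ Z₂ m₂ →
      (∃ (Z Bd : Dv Qb T.FU) (n : Fin 5 → ℤ), 0 ≤ Z ∧ Z ≤ Z₁ ∧ Z ≤ Z₂ ∧ 0 ≤ Bd ∧
        deg Bd ≤ c * (n₀ : ℤ) ^ 3 ∧ 0 ≤ n ∧ 1 ≤ ∑ s, n s ∧ T.Ty Finset.univ (Z + Bd) n) ∨
      ∀ s, ∃ Sm : Finset (Place Qb T.FU), Sm.card ≤ c * n₀ ^ 3 ∧ ∀ R, 0 < Z₁ R → 0 < Z₂ R →
        R ∉ Sm → ∀ R', T.Ln s R R' → 0 < Z₁ R')
    (S : Finset (Place Qb T.FU)) (Bd : Dv Qb T.FU) (n : Fin 5 → ℤ)
    (hS : S ⊆ (G.A.finite_orb K R₀).toFinset) (hB : 0 ≤ Bd) (hd : deg Bd ≤ c₀ * (n₀ : ℤ) ^ 3)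
    (hn : 0 ≤ n) (h1 : 1 ≤ ∑ s, n s) (h5 : ∑ s, n s ≤ 5)
    (hty : T.Ty Finset.univ (ind S + Bd) n)
    (ih : ∀ (S' : Finset (Place Qb T.FU)) (Bd' : Dv Qb T.FU) (n' : Fin 5 → ℤ),
      S' ⊆ (G.A.finite_orb K R₀).toFinset → 0 ≤ Bd' →
      deg Bd' ≤ (2 * c₀ + c : ℕ) * (n₀ : ℤ) ^ 3 → 0 ≤ n' → 1 ≤ ∑ s, n' s →
      T.Ty Finset.univ (ind S' + Bd') n' → ∑ s, n s ≤ ∑ s, n' s) : False := by
  have hq : 0 < n₀ ^ 3 := pow_pos T.n₀_pos 3
  have he : n₀ ^ 4 = n₀ * n₀ ^ 3 := by ring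
  have hl : 2000 * (c₀ + c + 1) * n₀ ^ 3 ≤ n₀ ^ 4 := by
    rw [he]
    exact Nat.mul_le_mul_right _ hN
  have hD5 := Nat.le_of_dvd (by nlinarith) hD
  have hD32 : 32 * (G.A.finite_orb K R₀).toFinset.card < n₀ ^ 5 := by
    have a1 : n₀ ^ 5 = n₀ * n₀ ^ 4 := by ring
    have a2 : 2000 * n₀ ^ 4 ≤ n₀ * n₀ ^ 4 := Nat.mul_le_mul_right _ (by omega)
    have a3 : 0 < n₀ ^ 4 := pow_pos T.n₀_pos 4
    omega
  have k0 := K9b_deg hty
  rw [deg_add, deg_ind] at k0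
  have k1 : n₀ ^ 4 ≤ S.card + c₀ * n₀ ^ 3 := by
    have : n₀ * (n₀ : ℤ) ^ 3 * 1 ≤ n₀ * (n₀ : ℤ) ^ 3 * ∑ s, n s :=
      mul_le_mul_of_nonneg_left h1 (by positivity)
    rw [he]
    zify
    linarith
  obtain ⟨U, u1, u2, u3, u4, u5⟩ := K9b_block G.A K R₀ S hS ((10 * c₀ + 5 * c) * n₀ ^ 3)
    (by nlinarith) (by nlinarith) fun h _ =>
      K9b_dich G K R₀ hR hD32 c₀ c dl S Bd n hS hB hd hn h5 hty ih h
  obtain ⟨r, hr⟩ := hD
  have k2 : (r : ℤ) * U.index * ∑ s, n s = 5 :=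
    K9b_arith (N := n₀) (q := (n₀ : ℤ) ^ 3) (d := (G.A.finite_orb K R₀).toFinset.card)
      (t := S.card) (b := deg Bd) (c₀ := c₀) (c := c) (by exact_mod_cast hq) (by positivity)
      (by positivity) (by exact_mod_cast hN) (by positivity)
      (by rw [he] at hr; exact_mod_cast hr.symm) k0 (F1_deg_nonneg hB) hd h1
      (by exact_mod_cast Finset.card_le_card hS) (by exact_mod_cast u2) (by exact_mod_cast u3)
      (by exact_mod_cast u4) (by exact_mod_cast u5)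
  have k3 : ∀ h ∈ U, ∀ s, n (G.perm h.1 s) = n s := fun h hh =>
    K9b_inv G hB hn h5 hty ((10 * c₀ + 5 * c) * n₀ ^ 3) (by
      have a1 : (2000 * (c₀ + c + 1) * (n₀ : ℤ) ^ 3 : ℤ) ≤ (n₀ : ℤ) ^ 4 := by exact_mod_cast hl
      have a2 : (0 : ℤ) < (n₀ : ℤ) ^ 3 := by exact_mod_cast hq
      have a3 : (0 : ℤ) ≤ c₀ * (n₀ : ℤ) ^ 3 := by positivity
      have a4 : (0 : ℤ) ≤ c * (n₀ : ℤ) ^ 3 := by positivity
      push_cast
      linarith) h.1 (u1 h hh)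
  have hm : ∀ h : K.fixingSubgroup, ∀ x ∈ K, h.1 x = x := fun h =>
    (IntermediateField.mem_fixingSubgroup_iff K h.1).1 h.2
  have k4 : (∑ s, n s = 1 ∧ (U.index = 1 ∨ U.index = 5)) ∨ (∑ s, n s = 5 ∧ U.index = 1) := by
    generalize ∑ s, n s = J at k2 h1 h5
    generalize U.index = i at k2 u2 u3
    interval_cases i <;> interval_cases J <;> omega
  have n0 : ∀ s, 0 ≤ n s := hn
  rcases k4 with ⟨a1, a2⟩ | ⟨a1, a2⟩
  · obtain ⟨s₀, hs₀⟩ : ∃ s₀, 0 < n s₀ := by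
      by_contra hc
      have : ∑ s, n s ≤ 0 := Finset.sum_nonpos fun s _ => not_lt.1 fun h => hc ⟨s, h⟩
      omega
    have a3 := K9b_index (G.perm.comp K.fixingSubgroup.subtype) U s₀ (fun h hh => by
      by_contra hc
      have b1 := k3 h hh s₀
      have b2 : ∑ s ∈ {G.perm h.1 s₀, s₀}, n s ≤ ∑ s, n s :=
        Finset.sum_le_sum_of_subset_of_nonneg (Finset.subset_univ _) fun s _ _ => n0 s
      rw [Finset.sum_pair (show G.perm h.1 s₀ ≠ s₀ from hc)] at b2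
      omega) (fun h s => hK.1 h.1 (hm h) s) fun s s' hs => by
        obtain ⟨h, hh, e⟩ := hK.2 s s' hs
        exact ⟨⟨h, (IntermediateField.mem_fixingSubgroup_iff K h).2 hh⟩, e⟩
    omega
  · rw [Subgroup.index_eq_one] at a2
    have a3 : ∀ s s' : Fin 5, ((s : ℕ) < 2 ↔ (s' : ℕ) < 2) → n s' = n s := fun s s' hs => by
      obtain ⟨h, hh, e⟩ := hK.2 s s' hs
      rw [← e]
      exact k3 ⟨h, (IntermediateField.mem_fixingSubgroup_iff K h).2 hh⟩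
        (a2 ▸ Subgroup.mem_top _) s
    have b1 := a3 0 1 (by decide)
    have b2 := a3 2 3 (by decide)
    have b3 := a3 2 4 (by decide)
    have b4 := n0 0
    have b5 := n0 2
    rw [Fin.sum_univ_five] at a1
    have a4 : n = fun _ => 1 := by
      funext s
      fin_cases s <;> simp only [Fin.zero_eta, Fin.mk_one, Fin.reduceFinMk, Fin.isValue] <;> omega
    rw [a4] at hty
    exact K9b_five G K hK R₀ c₀ (by omega) hD5 hS hB hd hty

end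

theorem K9b_ind (j : ℕ) (hj : j ≤ 5) (c₀ : ℕ) : ∃ n₁ : ℕ, ∀ n₀, n₁ ≤ n₀ → ∃ B₀ : ℕ, ∀ B, B₀ ≤ B →
    ∀ {L : Type} [Field L] [Algebra Qb L] {T : Tw Qb L n₀ B} (G : TwG T)
      (K : IntermediateField ℚ Qb), G.Orb23 K → ∀ R₀ : Place Qb T.FU, T.Ur R₀ →
      (G.A.finite_orb K R₀).toFinset.card ∣ 5 * n₀ ^ 4 →
      ∀ (S : Finset (Place Qb T.FU)) (Bd : Dv Qb T.FU) (n : Fin 5 → ℤ),
        S ⊆ (G.A.finite_orb K R₀).toFinset → 0 ≤ Bd → deg Bd ≤ c₀ * (n₀ : ℤ) ^ 3 → 0 ≤ n →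
        1 ≤ ∑ s, n s → ∑ s, n s ≤ j → ¬ T.Ty Finset.univ (ind S + Bd) n := by
  induction j generalizing c₀ with
  | zero =>
    refine ⟨0, fun n₀ _ => ⟨0, fun B _ L _ _ T G K _ R₀ _ _ S Bd n _ _ _ _ h1 h2 => ?_⟩⟩
    omega
  | succ j ih =>
    obtain ⟨c, n₁, hdl⟩ := Tw.dl_tower 5
    obtain ⟨n₂, ih⟩ := ih (by omega) (2 * c₀ + c)
    refine ⟨max (max n₁ n₂) (2000 * (c₀ + c + 1)), fun n₀ hn₀ => ?_⟩
    obtain ⟨B₁, hdl⟩ := hdl n₀ (by omega)
    obtain ⟨B₂, ih⟩ := ih n₀ (by omega)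
    refine ⟨max B₁ B₂, fun B hB L _ _ T G K hK R₀ hR hD S Bd n hS h0 hd hn h1 h2 hty => ?_⟩
    refine K9b_core G K hK R₀ hR hD c₀ c (by omega) (hdl B (by omega) T) S Bd n hS h0 hd hn h1
      (by omega) hty fun S' Bd' n' a1 a2 a3 a4 a5 a6 => ?_
    by_contra hc
    exact ih B (by omega) G K hK R₀ hR hD S' Bd' n' a1 a2 a3 a4 a5 (by omega) a6

/-- an orbit of degree dividing `5 n₀ ^ 4` contains no typed subset -/
theorem no_typed (c₀ : ℕ) : ∃ n₁ : ℕ, ∀ n₀, n₁ ≤ n₀ → ∃ B₀ : ℕ, ∀ B, B₀ ≤ B →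
    ∀ {L : Type} [Field L] [Algebra Qb L] {T : Tw Qb L n₀ B} (G : TwG T)
      (K : IntermediateField ℚ Qb), G.Orb23 K → ∀ R₀ : Place Qb T.FU, T.Ur R₀ →
      (G.A.finite_orb K R₀).toFinset.card ∣ 5 * n₀ ^ 4 →
      ∀ (S : Finset (Place Qb T.FU)) (Bd : Dv Qb T.FU) (n : Fin 5 → ℤ),
        S ⊆ (G.A.finite_orb K R₀).toFinset → 0 ≤ Bd → deg Bd ≤ c₀ * (n₀ : ℤ) ^ 3 → 0 ≤ n →
        1 ≤ ∑ s, n s → ¬ T.Ty Finset.univ (ind S + Bd) n := by
  obtain ⟨n₁, h⟩ := K9b_ind 5 le_rfl c₀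
  refine ⟨max n₁ (c₀ + 1), fun n₀ hn₀ => ?_⟩
  obtain ⟨B₀, h⟩ := h n₀ (by omega)
  refine ⟨B₀, fun B hB L _ _ T G K hK R₀ hR hD S Bd n hS h0 hd hn h1 hty => ?_⟩
  refine h B hB G K hK R₀ hR hD S Bd n hS h0 hd hn h1 ?_ hty
  by_contra hc
  have hp : 0 < n₀ := T.n₀_pos
  have k0 := K9b_deg hty
  rw [deg_add, deg_ind] at k0
  have k1 : S.card ≤ 5 * n₀ ^ 4 := (Finset.card_le_card hS).trans (Nat.le_of_dvd (by positivity) hD)
  have k2 : (S.card : ℤ) ≤ 5 * (n₀ * (n₀ : ℤ) ^ 3) := by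
    rw [← pow_succ']
    exact_mod_cast k1
  have k3 : n₀ * (n₀ : ℤ) ^ 3 * 6 ≤ n₀ * (n₀ : ℤ) ^ 3 * ∑ s, n s :=
    mul_le_mul_of_nonneg_left (by omega) (by positivity)
  have k4 : (c₀ : ℤ) * (n₀ : ℤ) ^ 3 < n₀ * (n₀ : ℤ) ^ 3 :=
    mul_lt_mul_of_pos_right (by omega) (by positivity)
  linarith

end Pool.Agent.E6b
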