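import Pool.Agent.E6b.G1

open scoped NNReal TensorProduct IntermediateField BigOperators Classical Topology
open Filter

namespace Pool.Agent.E6b

section
variable {κ F F' E : Type} [Field κ] [IsAlgClosed κ] [CharZero κ] [Field F] [Algebra κ F] [IsFF κ F]
  [Field F'] [Algebra κ F'] [IsFF κ F'] [Field E] [Algebra κ E] [IsFF κ E]

/-- local parameter of the `t`-line at `c` -/
noncomputable def lc {κ F : Type} [Field κ] [Field F] [Algebra κ F] (t : F) : Option κ → F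
  | some c => t - algebraMap κ F c
  | none => t⁻¹

/-- `t` is unramified above `c` -/
def Unr {κ F : Type} [Field κ] [Field F] [Algebra κ F] (t : F) (c : Option κ) : Prop :=
  ∀ P : Place κ F, 0 < P.ord (lc t c) → P.ord (lc t c) = 1

/-- value of `t` at a place, in the projective line -/
noncomputable def tv {κ F : Type} [Field κ] [Field F] [Algebra κ F] (t : F) (P : Place κ F) :
    Option κ := if t ∈ P.O then some (P.ev t) else none

/-- no homomorphism of small degree -/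
def NoMap (κ E F' : Type) [Field κ] [Field E] [Algebra κ E] [Field F'] [Algebra κ F'] (B : ℕ) :
    Prop := ∀ φ : E →ₐ[κ] F', B < (FHom.ofAlgHom φ).deg

/-- degree of the function `t` -/
noncomputable def rk (κ : Type) {F : Type} [Field κ] [Field F] [Algebra κ F] (t : F) : ℕ :=
  Module.finrank κ⟮t⟯ F

/-- reduced basis for the divisor `N` and the function `t` -/
structure RB (t : E) (N : Dv κ E) where
  b : Fin (rk κ t) → E
  a : Fin (rk κ t) → ℤ
  indep : LinearIndependent κ⟮t⟯ b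
  mem : ∀ i (P : Place κ E), - N P ≤ P.ord (if t ∈ P.O then b i else t ^ a i * b i)
  sat : ∀ (c : Option κ) (γ : Fin (rk κ t) → κ),
    (∑ i, γ i • (if c = none then t ^ a i * b i else b i) = 0 ∨ ∀ P : Place κ E, tv t P = c →
      - N P ≤ P.ord ((∑ i, γ i • (if c = none then t ^ a i * b i else b i)) / lc t c)) → γ = 0

/-- a fibre product over the `t`-line with disjoint branch loci -/
structure Sq (κ F' E F : Type) [Field κ] [Field F'] [Algebra κ F'] [Field E] [Algebra κ E]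
    [Field F] [Algebra κ F] where
  p' : F' →ₐ[κ] F
  p : E →ₐ[κ] F
  t' : F'
  t : E
  comm : p' t' = p t
  nc : t ∉ (algebraMap κ E).range
  deg' : (FHom.ofAlgHom p').deg = rk κ t
  gen : IntermediateField.adjoin κ (Set.range p' ∪ Set.range p) = ⊤
  unr : ∀ c : Option κ, Unr t c ∨ Unr t' c

def Sq.q' (S : Sq κ F' E F) : FHom κ F' F := FHom.ofAlgHom S.p'

def Sq.q (S : Sq κ F' E F) : FHom κ E F := FHom.ofAlgHom S.p

/-- multiplication map -/
noncomputable def Sq.rho (S : Sq κ F' E F) : F' ⊗[κ] E →ₐ[κ] F :=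
  Algebra.TensorProduct.lift S.p' S.p fun _ _ => Commute.all _ _

/-- `F' ⊗ L(N)` -/
noncomputable def LT (F' : Type) [Field F'] [Algebra κ F'] (N : Dv κ E) :
    Submodule F' (F' ⊗[κ] E) := (LL N).baseChange F'

/-- `L(M) ⊗ L(N)` -/
noncomputable def LT2 (M : Dv κ F') (N : Dv κ E) : Submodule κ (F' ⊗[κ] E) :=
  Submodule.map₂ (TensorProduct.mk κ F' E) (LL M) (LL N)

/-- coprime sections -/
def Cop (G₁ G₂ : F' ⊗[κ] E) (N₁ N₂ : Dv κ E) : Prop :=
  ∀ N : Dv κ E, deg N₁ + deg N₂ + 1 ≤ deg N → ∀ u ∈ LL N,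
    ∃ A₁ ∈ LT F' (N - N₁), ∃ A₂ ∈ LT F' (N - N₂), A₁ * G₁ + A₂ * G₂ = 1 ⊗ₜ[κ] u

/-- divisor of zeros of a section -/
noncomputable def Sq.Z (S : Sq κ F' E F) (M : Dv κ F') (N : Dv κ E) (G : F' ⊗[κ] E) : Dv κ F :=
  S.q'.pull M + S.q.pull N + dv κ (S.rho G)

end

/-- inclusion of intermediate fields -/
def incl {κ L : Type} [Field κ] [Field L] [Algebra κ L] {K K' : IntermediateField κ L}
    (h : K ≤ K') : FHom κ K K' := FHom.ofAlgHom (IntermediateField.inclusion h)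

/-- five genus one covers of the line and their composita -/
structure Tw (κ L : Type) [Field κ] [IsAlgClosed κ] [CharZero κ] [Field L] [Algebra κ L]
    (n₀ B : ℕ) where
  F : Finset (Fin 5) → IntermediateField κ L
  t : L
  mem : ∀ J, t ∈ F J
  nc : t ∉ (algebraMap κ L).range
  [ff : ∀ J, IsFF κ (F J)]
  mono : ∀ {J J'}, J ⊆ J' → F J ≤ F J'
  sup : ∀ J J', F (J ∪ J') = F J ⊔ F J'
  rk_eq : ∀ J, rk κ (⟨t, mem J⟩ : F J) = n₀ ^ J.card
  g1 : ∀ s, genus κ (F {s}) = 1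
  unr : ∀ s s', s ≠ s' → ∀ c : Option κ,
    Unr (⟨t, mem {s}⟩ : F {s}) c ∨ Unr (⟨t, mem {s'}⟩ : F {s'}) c
  nomap : ∀ s J, s ∉ J → NoMap κ (F {s}) (F J) B

attribute [instance] Tw.ff

namespace Tw

variable {κ L : Type} [Field κ] [IsAlgClosed κ] [CharZero κ] [Field L] [Algebra κ L] {n₀ B : ℕ}
  (T : Tw κ L n₀ B)

def tJ (J : Finset (Fin 5)) : T.F J := ⟨T.t, T.mem J⟩

def pi {J J' : Finset (Fin 5)} (h : J ⊆ J') : FHom κ (T.F J) (T.F J') := incl (T.mono h)

/-- pull-back from the `s`-th curve -/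
noncomputable def pl (J : Finset (Fin 5)) (s : Fin 5) (N : Dv κ (T.F {s})) : Dv κ (T.F J) :=
  if h : s ∈ J then (T.pi (Finset.singleton_subset_iff.2 h)).pull N else 0

/-- `Z` is equivalent to a sum of pull-backs of divisors of degrees `n s` -/
def Ty (J : Finset (Fin 5)) (Z : Dv κ (T.F J)) (n : Fin 5 → ℤ) : Prop :=
  ∃ N : ∀ s, Dv κ (T.F {s}), (∀ s, deg (N s) = n s) ∧ (∀ s, s ∉ J → n s = 0) ∧
    LinEq Z (∑ s, T.pl J s (N s))

/-- the top field -/
abbrev FU : Type := T.F Finset.univ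

/-- projection to the `s`-th curve -/
noncomputable def pr (s : Fin 5) (R : Place κ T.FU) : Place κ (T.F {s}) :=
  (T.pi (Finset.subset_univ {s})).res R

/-- `R` and `R'` differ at most in the coordinate `s` -/
def Ln (s : Fin 5) (R R' : Place κ T.FU) : Prop :=
  (T.pi (Finset.subset_univ (Finset.univ.erase s))).res R =
    (T.pi (Finset.subset_univ (Finset.univ.erase s))).res R'

/-- no cover is ramified at the image of `R` -/
def Ur (R : Place κ T.FU) : Prop := ∀ s, Unr (T.tJ {s}) (tv (T.tJ Finset.univ) R)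

end Tw

/-- Galois action permuting the five covers -/
structure TwG {L : Type} [Field L] [Algebra Qb L] {n₀ B : ℕ} (T : Tw Qb L n₀ B) where
  A : GAct T.FU
  perm : (Qb ≃ₐ[ℚ] Qb) →* Equiv.Perm (Fin 5)
  fix : ∀ σ, A.act σ (T.tJ Finset.univ) = T.tJ Finset.univ
  eqv : ∀ σ s, ∃ ψ : FHom Qb (T.F {s}) (T.F {perm σ s}), Function.Surjective ψ.f ∧
    ∀ x, A.act σ ((T.pi (Finset.subset_univ {s})).f x) =
      (T.pi (Finset.subset_univ {perm σ s})).f (ψ.f x)

/-- the Galois group over `K` has the orbits `{0,1}` and `{2,3,4}` -/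
def TwG.Orb23 {L : Type} [Field L] [Algebra Qb L] {n₀ B : ℕ} {T : Tw Qb L n₀ B} (G : TwG T)
    (K : IntermediateField ℚ Qb) : Prop :=
  (∀ σ : Qb ≃ₐ[ℚ] Qb, (∀ x ∈ K, σ x = x) → ∀ s : Fin 5, ((G.perm σ s : ℕ) < 2 ↔ (s : ℕ) < 2)) ∧
    ∀ s s' : Fin 5, ((s : ℕ) < 2 ↔ (s' : ℕ) < 2) →
      ∃ σ : Qb ≃ₐ[ℚ] Qb, (∀ x ∈ K, σ x = x) ∧ G.perm σ s = s'

end Pool.Agent.E6b
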