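import Pool.Agent.E6b.O1

open scoped NNReal TensorProduct IntermediateField BigOperators Classical Topology
open Filter

namespace Pool.Agent.E6b

variable {κ F : Type} [Field κ] [IsAlgClosed κ] [CharZero κ] [Field F] [Algebra κ F] [IsFF κ F]
  {o : Place κ F} {Ω : Type} [Field Ω] [IsAlgClosed Ω] [CharZero Ω] [Algebra κ Ω] (O : VS κ Ω)

instance L1_nontrivial (Ω : Type) [Field Ω] [Algebra κ Ω] : Nontrivial (AO o Ω) :=
  (instIsDomainAO o Ω).toNontrivial

instance L1_noZeroDivisors (Ω : Type) [Field Ω] [Algebra κ Ω] : NoZeroDivisors (AO o Ω) :=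
  IsDomain.to_noZeroDivisors _

/-- Gauss norm on `AO` -/
noncomputable def gvA (f : AO o Ω) : O.1.ValueGroup :=
  ((ebO o Ω).repr f).support.sup fun i => O.1.valuation ((ebO o Ω).repr f i)

/-- reduction of the coordinates -/
noncomputable def redA (f : AO o Ω) : AO o (RF O) :=
  (ebO o (RF O)).repr.symm (((ebO o Ω).repr f).mapRange (rs O) (by simpa using rs_algebraMap O 0))

theorem gvA_le_iff {f : AO o Ω} {γ : O.1.ValueGroup} :
    gvA O f ≤ γ ↔ ∀ i, O.1.valuation ((ebO o Ω).repr f i) ≤ γ := by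
  rw [gvA, Finset.sup_le_iff]
  refine ⟨fun h i => ?_, fun h i _ => h i⟩
  by_cases hi : (ebO o Ω).repr f i = 0
  · rw [hi, map_zero]
    exact zero_le
  · exact h i (Finsupp.mem_support_iff.2 hi)

theorem repr_redA (f : AO o Ω) (i : ℕ) :
    (ebO o (RF O)).repr (redA O f) i = rs O ((ebO o Ω).repr f i) := by
  rw [redA, LinearEquiv.apply_symm_apply, Finsupp.mapRange_apply]

theorem L1_le (f : AO o Ω) (i : ℕ) : O.1.valuation ((ebO o Ω).repr f i) ≤ gvA O f :=
  (gvA_le_iff O).1 le_rfl i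

theorem L1_mem {f : AO o Ω} (hf : gvA O f ≤ 1) (i : ℕ) : (ebO o Ω).repr f i ∈ O.1 :=
  (O.1.valuation_le_one_iff _).1 ((L1_le O f i).trans hf)

theorem L1_repr {R S : Type} [CommRing R] [Algebra κ R] [CommRing S] [Algebra κ S]
    (g : R →ₐ[κ] S) (x : R ⊗[κ] AA o) (i : ℕ) :
    (Algebra.TensorProduct.basis S (eb o)).repr
      (Algebra.TensorProduct.map g (AlgHom.id κ (AA o)) x) i =
      g ((Algebra.TensorProduct.basis R (eb o)).repr x i) := by
  induction x using TensorProduct.induction_on with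
  | zero => simp
  | tmul c a => simp
  | add x y hx hy => simp only [map_add, Finsupp.add_apply, hx, hy]

variable (o) in
/-- the integral model -/
noncomputable def L1_i : O.1 ⊗[κ] AA o →ₐ[κ] AO o Ω :=
  Algebra.TensorProduct.map { O.1.subtype with commutes' := fun _ => rfl } (AlgHom.id κ (AA o))

variable (o) in
/-- its reduction -/
noncomputable def L1_r : O.1 ⊗[κ] AA o →ₐ[κ] AO o (RF O) :=
  Algebra.TensorProduct.map { IsLocalRing.residue O.1 with commutes' := fun _ => rfl }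
    (AlgHom.id κ (AA o))

theorem L1_ir (x : O.1 ⊗[κ] AA o) :
    gvA O (L1_i o O x) ≤ 1 ∧ redA O (L1_i o O x) = L1_r o O x := by
  have h : ∀ i, (ebO o Ω).repr (L1_i o O x) i =
      ((Algebra.TensorProduct.basis O.1 (eb o)).repr x i : O.1) := L1_repr _ x
  refine ⟨(gvA_le_iff O).2 fun i => ?_, (ebO o (RF O)).ext_elem fun i => ?_⟩
  · rw [h]
    exact O.1.valuation_le_one _
  · rw [repr_redA, h, V1_rs O (SetLike.coe_mem _)]
    exact (L1_repr (S := RF O) { IsLocalRing.residue O.1 with commutes' := fun _ => rfl } x i).symm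

theorem L1_range {f : AO o Ω} (hf : gvA O f ≤ 1) : ∃ x, L1_i o O x = f := by
  refine ⟨(Algebra.TensorProduct.basis O.1 (eb o)).repr.symm (Finsupp.onFinset
    ((ebO o Ω).repr f).support (fun i => ⟨_, L1_mem O hf i⟩) fun i hi =>
      Finsupp.mem_support_iff.2 fun h => hi (Subtype.ext h)), (ebO o Ω).ext_elem fun i => ?_⟩
  refine (L1_repr _ _ i).trans ?_
  rw [LinearEquiv.apply_symm_apply]
  rfl

theorem L1_mul {f g : AO o Ω} (hf : gvA O f ≤ 1) (hg : gvA O g ≤ 1) :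
    gvA O (f * g) ≤ 1 ∧ redA O (f * g) = redA O f * redA O g := by
  obtain ⟨x, rfl⟩ := L1_range O hf
  obtain ⟨y, rfl⟩ := L1_range O hg
  rw [← map_mul, (L1_ir O x).2, (L1_ir O y).2, ← map_mul]
  exact L1_ir O _

theorem L1_add {f g : AO o Ω} (hf : gvA O f ≤ 1) (hg : gvA O g ≤ 1) :
    gvA O (f + g) ≤ 1 ∧ redA O (f + g) = redA O f + redA O g := by
  obtain ⟨x, rfl⟩ := L1_range O hf
  obtain ⟨y, rfl⟩ := L1_range O hg
  rw [← map_add, (L1_ir O x).2, (L1_ir O y).2, ← map_add]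
  exact L1_ir O _

theorem L1_red0 {f : AO o Ω} (hf : gvA O f ≤ 1) : redA O f = 0 ↔ gvA O f < 1 := by
  rw [(ebO o (RF O)).ext_elem_iff]
  simp only [repr_redA, map_zero, Finsupp.zero_apply, rs_eq_zero_iff O (L1_mem O hf _)]
  exact ⟨fun h => (Finset.sup_lt_iff ((bot_le (a := 0)).trans_lt (zero_lt_one' _))).2 fun i _ => h i,
    fun h i => (L1_le O f i).trans_lt h⟩

theorem L1_red1 {f : AO o Ω} (hf : gvA O f ≤ 1) : redA O f ≠ 0 ↔ gvA O f = 1 := by
  rw [Ne, L1_red0 O hf, not_lt]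
  exact ⟨le_antisymm hf, fun h => h.ge⟩

theorem L1_zero : gvA O (0 : AO o Ω) = 0 :=
  le_antisymm ((gvA_le_iff O).2 fun i => by simp) zero_le

theorem L1_ne {f : AO o Ω} (hf : f ≠ 0) : gvA O f ≠ 0 := fun h =>
  hf ((ebO o Ω).ext_elem fun i => by simpa [h] using L1_le O f i)

theorem L1_smul (c : Ω) (f : AO o Ω) : gvA O (c • f) = O.1.valuation c * gvA O f := by
  have h : ∀ (c : Ω) (f : AO o Ω), gvA O (c • f) ≤ O.1.valuation c * gvA O f := fun c f =>
    (gvA_le_iff O).2 fun i => by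
      rw [map_smul, Finsupp.smul_apply, smul_eq_mul, map_mul]
      exact mul_le_mul_right (L1_le O f i) _
  refine le_antisymm (h c f) ?_
  by_cases hc : c = 0
  · simp [hc]
  have := h c⁻¹ (c • f)
  rwa [inv_smul_smul₀ hc, map_inv₀, le_inv_mul_iff₀ (by simpa [zero_lt_iff] using hc)] at this

theorem L1_norm {f : AO o Ω} (hf : f ≠ 0) : ∃ (c : Ω) (g : AO o Ω), gvA O g = 1 ∧ f = c • g := by
  obtain ⟨c, hc⟩ := O.1.valuation_surjective (gvA O f)
  have h0 : c ≠ 0 := fun h => L1_ne O hf (by rw [← hc, h, map_zero])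
  exact ⟨c, c⁻¹ • f, by rw [L1_smul, map_inv₀, hc, inv_mul_cancel₀ (L1_ne O hf)],
    (smul_inv_smul₀ h0 f).symm⟩

theorem L1_one : gvA O (1 : AO o Ω) = 1 ∧ redA O (1 : AO o Ω) = 1 := by
  have h := L1_ir (o := o) O 1
  rw [map_one, map_one] at h
  exact ⟨(L1_red1 O h.1).1 (h.2 ▸ one_ne_zero), h.2⟩

theorem L1_mul1 {f g : AO o Ω} (hf : gvA O f = 1) (hg : gvA O g = 1) : gvA O (f * g) = 1 := by
  obtain ⟨h1, h2⟩ := L1_mul O hf.le hg.le
  exact (L1_red1 O h1).1 (h2 ▸ mul_ne_zero ((L1_red1 O hf.le).2 hf) ((L1_red1 O hg.le).2 hg))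

variable (o) in
/-- the Gauss norm as a valuation -/
noncomputable def L1_v : Valuation (AO o Ω) O.1.ValueGroup where
  toFun := gvA O
  map_zero' := L1_zero O
  map_one' := (L1_one O).1
  map_mul' f g := by
    by_cases hf : f = 0
    · simp [hf, L1_zero]
    by_cases hg : g = 0
    · simp [hg, L1_zero]
    obtain ⟨c, f, h1, rfl⟩ := L1_norm O hf
    obtain ⟨d, g, h2, rfl⟩ := L1_norm O hg
    rw [smul_mul_smul_comm, L1_smul, L1_smul, L1_smul, L1_mul1 O h1 h2, h1, h2, map_mul,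
      mul_one, mul_one, mul_one]
  map_add_le_max' f g := (gvA_le_iff O).2 fun i => by
    rw [map_add, Finsupp.add_apply]
    exact (O.1.valuation.map_add _ _).trans (max_le_max (L1_le O f i) (L1_le O g i))

theorem exists_gv (o : Place κ F) : ∃ w : Valuation (FO o Ω) O.1.ValueGroup,
    ∀ f : AO o Ω, w (algebraMap _ (FO o Ω) f) = gvA O f :=
  ⟨(L1_v o O).extendToLocalization (S := nonZeroDivisors (AO o Ω))
    (fun _ hf => L1_ne O (nonZeroDivisors.ne_zero hf)) (FO o Ω),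
    fun f => Valuation.extendToLocalization_apply_map_apply _ _ _ f⟩

/-- Gauss valuation -/
noncomputable def gv (o : Place κ F) : Valuation (FO o Ω) O.1.ValueGroup := (exists_gv O o).choose

theorem gv_AO (f : AO o Ω) : gv O o (algebraMap _ (FO o Ω) f) = gvA O f :=
  (exists_gv O o).choose_spec f

theorem L1_alg (c : Ω) (a : AO o Ω) : algebraMap _ (FO o Ω) (c • a) =
    algebraMap Ω (FO o Ω) c * algebraMap _ (FO o Ω) a :=
  (map_smul (IsScalarTower.toAlgHom Ω (AO o Ω) (FO o Ω)) c a).trans (Algebra.smul_def _ _)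

theorem L1_rep {f : FO o Ω} (hf : gv O o f ≤ 1) : ∃ a b : AO o Ω, gvA O a ≤ 1 ∧ gvA O b = 1 ∧
    f = algebraMap _ _ a / algebraMap _ _ b := by
  obtain ⟨a, b, hb, rfl⟩ := IsFractionRing.div_surjective (AO o Ω) f
  obtain ⟨c, b, h1, rfl⟩ := L1_norm O (nonZeroDivisors.ne_zero hb)
  have e : algebraMap _ (FO o Ω) a / algebraMap _ (FO o Ω) (c • b) =
      algebraMap _ (FO o Ω) (c⁻¹ • a) / algebraMap _ (FO o Ω) b := by
    rw [L1_alg, L1_alg, map_inv₀, div_mul_eq_div_div, div_eq_inv_mul (algebraMap _ _ a)]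
  rw [e, map_div₀, gv_AO, gv_AO, h1, div_one] at hf
  exact ⟨_, b, hf, h1, e⟩

theorem exists_gr (o : Place κ F) : ∃ r : FO o Ω → FO o (RF O),
    (∀ f g, gv O o f ≤ 1 → gv O o g ≤ 1 → r (f + g) = r f + r g ∧ r (f * g) = r f * r g) ∧
    (∀ f, gv O o f ≤ 1 → (r f = 0 ↔ gv O o f < 1)) ∧
    ∀ a : AO o Ω, gvA O a ≤ 1 →
      r (algebraMap _ (FO o Ω) a) = algebraMap _ (FO o (RF O)) (redA O a) := by
  have hne : ∀ {b : AO o Ω}, gvA O b = 1 → algebraMap _ (FO o Ω) b ≠ 0 ∧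
      algebraMap _ (FO o (RF O)) (redA O b) ≠ 0 := fun {b} hb =>
    ⟨fun h => by simpa [h, hb] using gv_AO O b,
      (map_ne_zero_iff _ (IsFractionRing.injective _ _)).2 ((L1_red1 O hb.le).2 hb)⟩
  have H : ∀ f : FO o Ω, ∃ y : FO o (RF O), ∀ a b : AO o Ω, gvA O a ≤ 1 → gvA O b = 1 →
      f = algebraMap _ _ a / algebraMap _ _ b →
        y = algebraMap _ _ (redA O a) / algebraMap _ _ (redA O b) := fun f => by
    by_cases h : gv O o f ≤ 1
    · obtain ⟨a, b, ha, hb, rfl⟩ := L1_rep O h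
      refine ⟨algebraMap _ _ (redA O a) / algebraMap _ _ (redA O b), fun a' b' ha' hb' e => ?_⟩
      rw [div_eq_div_iff (hne hb).1 (hne hb').1, ← map_mul, ← map_mul,
        (IsFractionRing.injective _ _).eq_iff] at e
      rw [div_eq_div_iff (hne hb).2 (hne hb').2, ← map_mul, ← map_mul, ← (L1_mul O ha hb'.le).2,
        ← (L1_mul O ha' hb.le).2, e]
    · exact ⟨0, fun a b ha hb e => absurd (by rwa [e, map_div₀, gv_AO, gv_AO, hb, div_one]) h⟩
  choose r hr using H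
  refine ⟨r, fun f g hf hg => ?_, fun f hf => ?_, fun a ha => ?_⟩
  · obtain ⟨a, b, ha, hb, rfl⟩ := L1_rep O hf
    obtain ⟨c, d, hc, hd, rfl⟩ := L1_rep O hg
    obtain ⟨p1, p2⟩ := L1_mul O ha hd.le
    obtain ⟨q1, q2⟩ := L1_mul O hb.le hc
    rw [hr _ a b ha hb rfl, hr _ c d hc hd rfl,
      hr _ (a * d + b * c) (b * d) (L1_add O p1 q1).1 (L1_mul1 O hb hd)
        (by rw [div_add_div _ _ (hne hb).1 (hne hd).1, map_add, map_mul, map_mul, map_mul]),
      hr _ (a * c) (b * d) (L1_mul O ha hc).1 (L1_mul1 O hb hd)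
        (by rw [div_mul_div_comm, map_mul, map_mul]),
      (L1_add O p1 q1).2, p2, q2, (L1_mul O ha hc).2, (L1_mul O hb.le hd.le).2,
      div_add_div _ _ (hne hb).2 (hne hd).2, div_mul_div_comm]
    simp only [map_add, map_mul, and_self]
  · obtain ⟨a, b, ha, hb, rfl⟩ := L1_rep O hf
    rw [hr _ a b ha hb rfl, div_eq_zero_iff, or_iff_left (hne hb).2,
      map_eq_zero_iff _ (IsFractionRing.injective _ _), L1_red0 O ha, map_div₀, gv_AO, gv_AO, hb,
      div_one]
  · rw [hr _ a 1 ha (L1_one O).1 (by simp), (L1_one O).2, map_one, div_one]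

/-- residue for the Gauss valuation -/
noncomputable def gr (f : FO o Ω) : FO o (RF O) := (exists_gr O o).choose f

theorem gr_add {f g : FO o Ω} (hf : gv O o f ≤ 1) (hg : gv O o g ≤ 1) :
    gr O (f + g) = gr O f + gr O g := ((exists_gr O o).choose_spec.1 f g hf hg).1
theorem gr_mul {f g : FO o Ω} (hf : gv O o f ≤ 1) (hg : gv O o g ≤ 1) :
    gr O (f * g) = gr O f * gr O g := ((exists_gr O o).choose_spec.1 f g hf hg).2
theorem gr_eq_zero_iff {f : FO o Ω} (hf : gv O o f ≤ 1) : gr O f = 0 ↔ gv O o f < 1 :=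
  (exists_gr O o).choose_spec.2.1 f hf
theorem gr_AO {a : AO o Ω} (ha : gvA O a ≤ 1) :
    gr O (algebraMap _ (FO o Ω) a) = algebraMap _ (FO o (RF O)) (redA O a) :=
  (exists_gr O o).choose_spec.2.2 a ha

theorem gv_algebraMap (c : Ω) : gv O o (algebraMap Ω (FO o Ω) c) = O.1.valuation c := by
  rw [IsScalarTower.algebraMap_apply Ω (AO o Ω), gv_AO, Algebra.algebraMap_eq_smul_one, L1_smul,
    (L1_one O).1, mul_one]
theorem gv_smul (c : Ω) (f : FO o Ω) : gv O o (c • f) = O.1.valuation c * gv O o f := by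
  rw [Algebra.smul_def, map_mul, gv_algebraMap]
theorem gv_iF_le (a : AA o) : gv O o (iF o Ω a) ≤ 1 :=
  (gv_AO O _).trans_le (L1_ir O (1 ⊗ₜ[κ] a)).1
theorem L1_gr_iF (a : AA o) : gr O (iF o Ω a) = iF o (RF O) a :=
  (gr_AO O (L1_ir O (1 ⊗ₜ[κ] a)).1).trans (congrArg _ (L1_ir O (1 ⊗ₜ[κ] a)).2)
theorem gv_iF {a : AA o} (ha : a ≠ 0) : gv O o (iF o Ω a) = 1 :=
  le_antisymm (gv_iF_le O a) (not_lt.1 fun h => ha (iF_injective (Ω := RF O) (by
    rw [← L1_gr_iF O a, (gr_eq_zero_iff O (gv_iF_le O a)).2 h, map_zero])))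
theorem L1_jF (Ω : Type) [Field Ω] [IsAlgClosed Ω] [CharZero Ω] [Algebra κ Ω] (a b : AA o) :
    jF o Ω (algebraMap _ F a / algebraMap _ F b) = iF o Ω a / iF o Ω b := by
  obtain ⟨φ, hφ⟩ := exists_jF_hom (o := o) (Ω := Ω)
  rw [← hφ, map_div₀, hφ, hφ, ← jF_coe, ← jF_coe]
  rfl
theorem gv_jF {f : F} (hf : f ≠ 0) : gv O o (jF o Ω f) = 1 := by
  obtain ⟨a, b, hb, rfl⟩ := IsFractionRing.div_surjective (AA o) f
  rw [L1_jF, map_div₀, gv_iF O (nonZeroDivisors.ne_zero hb), gv_iF O fun h => hf (by simp [h]),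
    div_one]
theorem gr_zero : gr O (0 : FO o Ω) = 0 :=
  (gr_eq_zero_iff O (by simp)).2 (by simp)
theorem gr_one : gr O (1 : FO o Ω) = 1 := by
  simpa [(L1_one O).2] using gr_AO (o := o) O (L1_one O).1.le
theorem gr_neg {f : FO o Ω} (hf : gv O o f ≤ 1) : gr O (-f) = - gr O f := by
  have := gr_add O hf ((Valuation.map_neg _ f).trans_le hf)
  rw [add_neg_cancel, gr_zero] at this
  exact eq_neg_of_add_eq_zero_right this.symm
theorem gr_sub {f g : FO o Ω} (hf : gv O o f ≤ 1) (hg : gv O o g ≤ 1) :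
    gr O (f - g) = gr O f - gr O g := by
  rw [sub_eq_add_neg, gr_add O hf ((Valuation.map_neg _ g).trans_le hg), gr_neg O hg,
    sub_eq_add_neg]
theorem gr_div {f g : FO o Ω} (hf : gv O o f ≤ 1) (hg : gv O o g = 1) :
    gr O (f / g) = gr O f / gr O g := by
  have h0 : g ≠ 0 := fun h => by simp [h] at hg
  rw [eq_div_iff fun h => ((gr_eq_zero_iff O hg.le).1 h).ne hg,
    ← gr_mul O (by rwa [map_div₀, hg, div_one]) hg.le, div_mul_cancel₀ _ h0]
theorem gr_pow {f : FO o Ω} (hf : gv O o f ≤ 1) (n : ℕ) : gr O (f ^ n) = gr O f ^ n := by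
  induction n with
  | zero => rw [pow_zero, pow_zero, gr_one]
  | succ n ih =>
    rw [pow_succ, pow_succ, gr_mul O (by rw [map_pow]; exact pow_le_one' hf n) hf, ih]
theorem gr_sum {ι : Type*} (s : Finset ι) {f : ι → FO o Ω} (hf : ∀ i ∈ s, gv O o (f i) ≤ 1) :
    gr O (∑ i ∈ s, f i) = ∑ i ∈ s, gr O (f i) := by
  induction s using Finset.induction_on with
  | empty => simpa using gr_zero O
  | insert a s ha ih =>
    have h := fun i hi => hf i (Finset.mem_insert_of_mem hi)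
    rw [Finset.sum_insert ha, Finset.sum_insert ha,
      gr_add O (hf a (Finset.mem_insert_self _ _)) (Valuation.map_sum_le _ h), ih h]
theorem gr_prod {ι : Type*} (s : Finset ι) {f : ι → FO o Ω} (hf : ∀ i ∈ s, gv O o (f i) ≤ 1) :
    gr O (∏ i ∈ s, f i) = ∏ i ∈ s, gr O (f i) := by
  induction s using Finset.induction_on with
  | empty => simpa using gr_one O
  | insert a s ha ih =>
    have h := fun i hi => hf i (Finset.mem_insert_of_mem hi)
    rw [Finset.prod_insert ha, Finset.prod_insert ha, gr_mul O (hf a (Finset.mem_insert_self _ _))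
      (by rw [map_prod]; exact Finset.prod_le_one' h), ih h]
theorem gr_algebraMap {c : Ω} (hc : c ∈ O.1) :
    gr O (algebraMap Ω (FO o Ω) c) = algebraMap (RF O) (FO o (RF O)) (rs O c) := by
  rw [V1_rs O hc]
  exact (gr_AO O (L1_ir O (⟨c, hc⟩ ⊗ₜ[κ] 1)).1).trans (congrArg _ (L1_ir O (⟨c, hc⟩ ⊗ₜ[κ] 1)).2)
theorem gr_smul {c : Ω} (hc : c ∈ O.1) {f : FO o Ω} (hf : gv O o f ≤ 1) :
    gr O (c • f) = rs O c • gr O f := by
  rw [Algebra.smul_def, Algebra.smul_def, gr_mul O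
    ((gv_algebraMap O c).trans_le ((O.1.valuation_le_one_iff c).2 hc)) hf, gr_algebraMap O hc]
theorem gr_iF (a : AA o) : gr O (iF o Ω a) = iF o (RF O) a := L1_gr_iF O a
theorem gr_jF (f : F) : gr O (jF o Ω f) = jF o (RF O) f := by
  obtain ⟨a, b, hb, rfl⟩ := IsFractionRing.div_surjective (AA o) f
  rw [L1_jF, L1_jF, gr_div O (gv_iF_le O a) (gv_iF O (nonZeroDivisors.ne_zero hb)), gr_iF, gr_iF]
theorem exists_smul_gv_eq_one {f : FO o Ω} (hf : f ≠ 0) : ∃ c : Ω, c ≠ 0 ∧ gv O o (c • f) = 1 := by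
  obtain ⟨c, hc⟩ := O.1.valuation_surjective (gv O o f)
  have h0 : gv O o f ≠ 0 := by simpa using hf
  exact ⟨c⁻¹, inv_ne_zero fun h => h0 (by rw [← hc, h, map_zero]),
    by rw [gv_smul, map_inv₀, hc, inv_mul_cancel₀ h0]⟩
theorem gr_surj (f : FO o (RF O)) : ∃ f' : FO o Ω, gv O o f' ≤ 1 ∧ gr O f' = f := by
  have h : ∀ a : AO o (RF O), ∃ x, L1_r o O x = a := fun a => by
    induction a using TensorProduct.induction_on with
    | zero => exact ⟨0, map_zero _⟩
    | tmul c a =>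
      obtain ⟨c, rfl⟩ := IsLocalRing.residue_surjective c
      exact ⟨c ⊗ₜ[κ] a, rfl⟩
    | add x y hx hy => exact hx.elim fun x hx => hy.elim fun y hy => ⟨x + y, by rw [map_add, hx, hy]⟩
  obtain ⟨a, b, hb, rfl⟩ := IsFractionRing.div_surjective (AO o (RF O)) f
  obtain ⟨x, rfl⟩ := h a
  obtain ⟨y, rfl⟩ := h b
  obtain ⟨x1, x2⟩ := L1_ir O x
  obtain ⟨y1, y2⟩ := L1_ir O y
  have y3 := (gv_AO O _).trans ((L1_red1 O y1).1 (y2 ▸ nonZeroDivisors.ne_zero hb))
  have x3 := (gv_AO O _).trans_le x1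
  refine ⟨_, ?_, (gr_div O x3 y3).trans ?_⟩
  · rwa [map_div₀, y3, div_one]
  · rw [gr_AO O x1, gr_AO O y1, x2, y2]

theorem gv_sum_smul {ι : Type} [Fintype ι] {b : ι → FO o Ω} (hb : ∀ i, gv O o (b i) ≤ 1)
    (hi : LinearIndependent (RF O) fun i => gr O (b i)) (c : ι → Ω) :
    gv O o (∑ i, c i • b i) = vs O.1 c := by
  by_cases hc : c = 0
  · rw [show vs O.1 c = 0 from le_antisymm (vs_le _ fun i => by simp [hc]) zero_le]
    simp [hc]
  have : Nonempty ι := ⟨(Function.ne_iff.1 hc).choose⟩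
  obtain ⟨j, hj⟩ := exists_vs_eq O.1 c
  have h0 : c j ≠ 0 := fun h => vs_ne_zero O.1 hc (by rw [← hj, h, map_zero])
  have h1 : ∀ i, c i / c j ∈ O.1 := fun i => (V1_div_mem _ _ h0).2 (hj ▸ le_vs O.1 c i)
  have h2 : ∀ i, gv O o ((c i / c j) • b i) ≤ 1 := fun i => by
    rw [gv_smul]
    exact mul_le_one' ((O.1.valuation_le_one_iff _).2 (h1 i)) (hb i)
  have h3 := Valuation.map_sum_le (gv O o) fun i (_ : i ∈ Finset.univ) => h2 i
  have h4 : gv O o (∑ i, (c i / c j) • b i) = 1 := le_antisymm h3 (not_lt.1 fun h => by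
    rw [← gr_eq_zero_iff O h3, gr_sum O _ fun i _ => h2 i] at h
    simp only [gr_smul O (h1 _) (hb _)] at h
    have := Fintype.linearIndependent_iff.1 hi _ h j
    rw [rs_eq_zero_iff O (h1 j), div_self h0, map_one] at this
    exact lt_irrefl _ this)
  have e : ∑ i, c i • b i = c j • ∑ i, (c i / c j) • b i := by
    simp only [Finset.smul_sum, smul_smul, mul_div_cancel₀ _ h0]
  rw [e, gv_smul, h4, mul_one, hj]

theorem L1_li {R M ι : Type} [Ring R] [AddCommGroup M] [Module R M] {v w : ι → M}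
    (h : LinearIndependent R v) (e : ∀ i, v i = w i) : LinearIndependent R w :=
  funext e ▸ h

theorem L1_basis (n : ℕ) (V : Type) [AddCommGroup V] [Module Ω V] [Module.Finite Ω V]
    (ψ : V →ₗ[Ω] AO o Ω) (hψ : Function.Injective ψ) (hn : n ≤ Module.finrank Ω V) :
    ∃ b : Fin n → V, (∀ i, gvA O (ψ (b i)) ≤ 1) ∧
      LinearIndependent (RF O) fun i => redA O (ψ (b i)) := by
  induction n generalizing V with
  | zero => exact ⟨Fin.elim0, fun i => i.elim0, linearIndependent_empty_type⟩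
  | succ n ih =>
    have : Nontrivial V := (Module.finrank_pos_iff (R := Ω)).1 (by omega)
    obtain ⟨v, hv⟩ := exists_ne (0 : V)
    have hv' := (map_ne_zero_iff _ hψ).2 hv
    obtain ⟨c, g, h1, e⟩ := L1_norm O hv'
    have hc : c ≠ 0 := fun h => hv' (by rw [e, h, zero_smul])
    have e' : ψ (c⁻¹ • v) = g := by rw [map_smul, e, inv_smul_smul₀ hc]
    obtain ⟨j, hj⟩ : ∃ j, (ebO o (RF O)).repr (redA O g) j ≠ 0 := by
      by_contra! h
      exact (L1_red1 O h1.le).2 h1 ((ebO o (RF O)).ext_elem fun i => by simp [h])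
    have h2 := ((ebO o Ω).coord j ∘ₗ ψ).finrank_range_add_finrank_ker
    have h3 := (LinearMap.range ((ebO o Ω).coord j ∘ₗ ψ)).finrank_le
    rw [Module.finrank_self] at h3
    obtain ⟨b, h4, h5⟩ := ih (LinearMap.ker ((ebO o Ω).coord j ∘ₗ ψ)) (ψ ∘ₗ Submodule.subtype _)
      (hψ.comp Subtype.val_injective) (by omega)
    refine ⟨Fin.cons (c⁻¹ • v) fun i => b i, Fin.cases (e' ▸ h1.le) h4, ?_⟩
    have h6 : Submodule.span (RF O) (Set.range fun i => redA O (ψ (b i))) ≤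
        LinearMap.ker ((ebO o (RF O)).coord j) := Submodule.span_le.2 (by
      rintro _ ⟨i, rfl⟩
      refine (repr_redA O _ j).trans ((congrArg (rs O) (b i).2).trans ?_)
      simpa using rs_algebraMap O 0)
    have h7 := linearIndependent_finCons.2 ⟨h5, fun h => hj (h6 h)⟩
    exact L1_li h7 (Fin.cases (congrArg (redA O) e'.symm) fun _ => rfl)

/-- a finite dimensional subspace has a basis with independent residues -/
theorem exists_gbasis (V : Submodule Ω (FO o Ω)) [Module.Finite Ω V] :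
    ∃ b : Fin (Module.finrank Ω V) → FO o Ω, (∀ i, b i ∈ V ∧ gv O o (b i) = 1) ∧
      LinearIndependent (RF O) fun i => gr O (b i) := by
  let e := Module.finBasis Ω V
  obtain ⟨s, hs⟩ := IsLocalization.exist_integer_multiples_of_finite (nonZeroDivisors (AO o Ω))
    fun i => (e i : FO o Ω)
  choose a ha using hs
  obtain ⟨c, hc, ht⟩ := exists_smul_gv_eq_one O ((map_ne_zero_iff _
    (IsFractionRing.injective (AO o Ω) (FO o Ω))).2 (nonZeroDivisors.ne_zero s.2))
  set t := c • algebraMap (AO o Ω) (FO o Ω) s with ht'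
  have h0 : t ≠ 0 := fun h => by simp [h] at ht
  have hψ : ∀ v : V, algebraMap _ (FO o Ω) (e.constr Ω (fun i => c • a i) v) = t * v := by
    have : (IsScalarTower.toAlgHom Ω (AO o Ω) (FO o Ω)).toLinearMap ∘ₗ
        e.constr Ω (fun i => c • a i) = LinearMap.mulLeft Ω t ∘ₗ V.subtype := e.ext fun i => by
      change algebraMap _ (FO o Ω) (e.constr Ω (fun i => c • a i) (e i)) = t * e i
      rw [e.constr_basis, L1_alg, ha, ht', Algebra.smul_def c, Algebra.smul_def, mul_assoc]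
    exact LinearMap.congr_fun this
  obtain ⟨b, h1, h2⟩ := L1_basis O _ V (e.constr Ω fun i => c • a i) (fun v w h =>
    Subtype.ext (mul_left_cancel₀ h0 (by rw [← hψ, ← hψ, h]))) le_rfl
  have h3 : ∀ i, gv O o (b i) ≤ 1 := fun i => by
    have := (gv_AO O _).trans_le (h1 i)
    rwa [hψ, map_mul, ht, one_mul] at this
  have h4 : LinearIndependent (RF O) fun i => gr O (b i : FO o Ω) := by
    refine .of_comp (LinearMap.mulLeft (RF O) (gr O t)) ?_
    have h5 := h2.map' (IsScalarTower.toAlgHom (RF O) _ (FO o (RF O))).toLinearMap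
      (LinearMap.ker_eq_bot.2 (IsFractionRing.injective _ _))
    refine L1_li h5 fun i => ?_
    exact (gr_AO O (h1 i)).symm.trans ((congrArg _ (hψ _)).trans (gr_mul O ht.le (h3 i)))
  exact ⟨fun i => b i, fun i => ⟨(b i).2, le_antisymm (h3 i) (not_lt.1 fun h =>
    h4.ne_zero i ((gr_eq_zero_iff O (h3 i)).2 h))⟩, h4⟩

end Pool.Agent.E6b
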