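import Pool.Agent.E6b.L2Aux

open scoped NNReal TensorProduct IntermediateField BigOperators Classical Topology
open Filter

namespace Pool.Agent.E6b

variable {κ F : Type} [Field κ] [IsAlgClosed κ] [CharZero κ] [Field F] [Algebra κ F] [IsFF κ F]
  {o : Place κ F} {Ω : Type} [Field Ω] [IsAlgClosed Ω] [CharZero Ω] [Algebra κ Ω] (O : VS κ Ω)

theorem intg_iff {y : Pt o Ω} : Intg O y ↔ y (wN o) ∈ O.1 := by
  refine ⟨fun h => h _, fun h a => ?_⟩
  let _ : Algebra (Algebra.adjoin κ {wN o}) Ω :=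
    (y.comp (Algebra.adjoin κ {wN o}).val).toRingHom.toAlgebra
  refine F1a_mem_of_integral O.1 (R := Algebra.adjoin κ {wN o}) (fun r => ?_)
    ((isIntegral_wN o a).map_of_comp_eq (RingHom.id _) y.toRingHom rfl)
  obtain ⟨r, hr⟩ := r
  change y r ∈ O.1
  induction hr using Algebra.adjoin_induction with
  | mem x hx => rw [Set.mem_singleton_iff.1 hx]; exact h
  | algebraMap c => rw [AlgHom.commutes]; exact O.2 c
  | add a b _ _ ha hb => rw [map_add]; exact O.1.add_mem _ _ ha hb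
  | mul a b _ _ ha hb => rw [map_mul]; exact O.1.mul_mem _ _ ha hb

theorem redp_apply (y : Pt o Ω) (h : Intg O y) (a : AA o) : redp O y h a = rs O (y a) := rfl

theorem red_oo : red O (oo o Ω) = oo o (RF O) := by
  rw [red, dif_neg]
  rintro ⟨y, -, hy⟩
  exact plc_ne_oo y hy

theorem red_plc {y : Pt o Ω} (h : Intg O y) : red O (plc y) = plc (redp O y h) := by
  have h' : ∃ y', Intg O y' ∧ plc y' = plc y := ⟨y, h, rfl⟩
  have key : ∀ (y' : Pt o Ω) (h1 : Intg O y'), y' = y → redp O y' h1 = redp O y h := by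
    rintro _ _ rfl
    rfl
  rw [red, dif_pos h', key _ _ (plc_injective h'.choose_spec.2)]

theorem red_plc_of_not {y : Pt o Ω} (h : ¬ Intg O y) : red O (plc y) = oo o (RF O) := by
  rw [red, dif_neg]
  rintro ⟨y', h1, hy⟩
  exact h (plc_injective hy ▸ h1)

theorem L2_evA_sum (y : Pt o Ω) (f : AO o Ω) {s : Finset ℕ}
    (hs : ((ebO o Ω).repr f).support ⊆ s) :
    evA y f = ∑ i ∈ s, (ebO o Ω).repr f i * y (eb o i) := by
  conv_lhs => rw [← (ebO o Ω).linearCombination_repr f]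
  rw [Finsupp.linearCombination_apply, Finsupp.sum_of_support_subset _ hs _ (by simp), map_sum]
  refine Finset.sum_congr rfl fun i _ => ?_
  rw [map_smul, evA_ebO, smul_eq_mul]

omit [IsAlgClosed κ] [CharZero κ] [IsAlgClosed Ω] [CharZero Ω] in
theorem L2_rs_sum (s : Finset ℕ) {x : ℕ → Ω} (hx : ∀ i, x i ∈ O.1) :
    rs O (∑ i ∈ s, x i) = ∑ i ∈ s, rs O (x i) := by
  induction s using Finset.induction_on with
  | empty => rw [Finset.sum_empty, Finset.sum_empty, L2_rs_zero]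
  | insert i s hi ih =>
    rw [Finset.sum_insert hi, Finset.sum_insert hi, rs_add O (hx i) (sum_mem fun j _ => hx j), ih]

theorem evA_red {y : Pt o Ω} (h : Intg O y) {f : AO o Ω} (hf : gvA O f ≤ 1) :
    evA y f ∈ O.1 ∧ rs O (evA y f) = evA (redp O y h) (redA O f) := by
  have hc : ∀ i, (ebO o Ω).repr f i ∈ O.1 := fun i =>
    (O.1.valuation_le_one_iff _).1 ((gvA_le_iff O).1 hf i)
  have hm : ∀ i, (ebO o Ω).repr f i * y (eb o i) ∈ O.1 := fun i => O.1.mul_mem _ _ (hc i) (h _)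
  have hs : ((ebO o (RF O)).repr (redA O f)).support ⊆ ((ebO o Ω).repr f).support := by
    intro i hi
    rw [Finsupp.mem_support_iff] at hi ⊢
    intro hh
    exact hi (by rw [repr_redA, hh, L2_rs_zero])
  rw [L2_evA_sum y f subset_rfl, L2_evA_sum _ _ hs, L2_rs_sum O _ hm]
  refine ⟨sum_mem fun i _ => hm i, Finset.sum_congr rfl fun i _ => ?_⟩
  rw [rs_mul O (hc i) (h _), repr_redA, redp_apply]

/-- a generic point extends to the function field -/
theorem L2_gen {y : Pt o Ω} (hy : Function.Injective y) : ∃ z : F →ₐ[κ] Ω,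
    (∀ a : AA o, z a = y a) ∧ ∀ f, jF o Ω f ∈ (plc y).O ∧ (plc y).ev (jF o Ω f) = z f := by
  let z : F →ₐ[κ] Ω := IsFractionRing.liftAlgHom (g := y) hy
  have hz : ∀ a : AA o, z a = y a := fun a => IsFractionRing.lift_algebraMap (g := y.toRingHom) hy a
  obtain ⟨φ, hφ⟩ := exists_jF_hom (o := o) (Ω := Ω)
  refine ⟨z, hz, fun f => ?_⟩
  obtain ⟨a, s, hs, rfl⟩ := IsFractionRing.div_surjective (AA o) f
  have hs0 : y s ≠ 0 := fun hh =>
    nonZeroDivisors.ne_zero hs (hy (by rw [hh, map_zero]))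
  have e : jF o Ω ((a : F) / (s : F)) = iF o Ω a / iF o Ω s := by
    rw [← hφ, map_div₀, hφ, hφ, jF_coe, jF_coe]
  have h := (plc y).ev_div (plc_iF y a).1 (plc_iF y s).1 (by rw [(plc_iF y s).2]; exact hs0)
  change jF o Ω ((a : F) / (s : F)) ∈ _ ∧ (plc y).ev (jF o Ω ((a : F) / (s : F))) =
    z ((a : F) / (s : F))
  rw [e, map_div₀, hz, hz, h.2, (plc_iF y a).2, (plc_iF y s).2]
  exact ⟨h.1, rfl⟩

theorem L2_not_intg {y : Pt o Ω} (h : ¬ Intg O y) : ∃ z : F →ₐ[κ] Ω,
    (∀ f, jF o Ω f ∈ (plc y).O ∧ (plc y).ev (jF o Ω f) = z f) ∧ ∀ f, f ∈ o.O ↔ z f ∈ O.1 := by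
  have hy : Function.Injective y := (pt_const_or_inj o y).resolve_left fun ⟨p, hp⟩ =>
    h fun a => by rw [hp]; exact O.2 _
  obtain ⟨z, h1, h2⟩ := L2_gen hy
  obtain ⟨a, ha⟩ := not_forall.1 h
  rw [← h1] at ha
  let Q : Place κ F := ⟨O.1.comap z.toRingHom, fun c => by
    change z _ ∈ O.1
    rw [AlgHom.commutes]
    exact O.2 c, fun hh => ha (by
      have : (a : F) ∈ O.1.comap z.toRingHom := by rw [hh]; trivial
      exact this)⟩
  have hQ : Q = o := by
    by_contra hne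
    exact ha (a.2 Q hne)
  exact ⟨z, h2, fun f => by rw [← hQ]; rfl⟩

theorem L2_red_oo {P : PO o Ω} (hP : red O P = oo o (RF O)) :
    P = oo o Ω ∨ ∃ y, plc y = P ∧ ¬ Intg O y := by
  rcases eq_oo_or_plc P with h | ⟨y, rfl⟩
  · exact Or.inl h
  · exact Or.inr ⟨y, rfl, fun h => plc_ne_oo _ ((red_plc O h).symm.trans hP)⟩

theorem L2_red_fin {P : PO o Ω} {yb : Pt o (RF O)} (hP : red O P = plc yb) :
    ∃ (y : Pt o Ω) (h : Intg O y), plc y = P ∧ redp O y h = yb := by
  rcases eq_oo_or_plc P with rfl | ⟨y, rfl⟩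
  · exact absurd ((red_oo O).symm.trans hP).symm (plc_ne_oo yb)
  · by_cases h : Intg O y
    · exact ⟨y, h, rfl, plc_injective ((red_plc O h).symm.trans hP)⟩
    · exact absurd ((red_plc_of_not O h).symm.trans hP).symm (plc_ne_oo yb)

/-- functions regular at `o` at a place reducing to infinity -/
theorem ev_jF_of_red_oo {P : PO o Ω} (hP : red O P = oo o (RF O)) {f : F} (hf : f ∈ o.O) :
    jF o Ω f ∈ P.O ∧ P.ev (jF o Ω f) ∈ O.1 ∧
      rs O (P.ev (jF o Ω f)) = algebraMap κ (RF O) (o.ev f) := by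
  rcases L2_red_oo O hP with rfl | ⟨y, rfl, hy⟩
  · rw [(oo_jF f).2, rs_algebraMap, Place.mem_iff, (oo_jF f).1]
    exact ⟨o.mem_iff.1 hf, O.2 _, rfl⟩
  · obtain ⟨z, h1, h2⟩ := L2_not_intg O hy
    rw [(h1 f).2]
    refine ⟨(h1 f).1, (h2 f).1 hf, ?_⟩
    have h3 : f - algebraMap κ F (o.ev f) ∈ o.O := o.O.toSubring.sub_mem hf (o.const _)
    have h4 : rs O (z (f - algebraMap κ F (o.ev f))) = 0 := by
      by_contra h0
      obtain ⟨a1, a2, -⟩ := L2_rs_inv O ((h2 _).1 h3) h0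
      rw [← map_inv₀, ← h2, o.mem_iff, o.ord_inv] at a2
      rcases o.ev_spec hf with h | h
      · exact a1 (by rw [sub_eq_zero.2 h, map_zero])
      · omega
    have h5 := rs_add O ((h2 _).1 h3) (O.2 (o.ev f))
    rwa [h4, zero_add, rs_algebraMap, map_sub, AlgHom.commutes, sub_add_cancel] at h5

theorem L2_val_sub {y y' : Pt o Ω} (h : Intg O y) (h' : Intg O y') (a : AA o) :
    O.1.valuation (y a - y' a) ≤ vs O.1 fun i : Fin (MM o) => y (eb o i) - y' (eb o i) := by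
  have ha : a ∈ Algebra.adjoin κ (Set.range fun i : Fin (MM o) => eb o i) := by
    rw [adjoin_eb]; trivial
  induction ha using Algebra.adjoin_induction with
  | mem x hx =>
    obtain ⟨i, rfl⟩ := hx
    exact le_vs O.1 (fun i : Fin (MM o) => y (eb o i) - y' (eb o i)) i
  | algebraMap c => rw [AlgHom.commutes, AlgHom.commutes, sub_self, map_zero]; exact zero_le
  | add a b _ _ ha hb =>
    rw [map_add, map_add, add_sub_add_comm]
    exact O.1.valuation.map_add_le ha hb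
  | mul a b _ _ ha hb =>
    have e : y a * y b - y' a * y' b = (y a - y' a) * y b + y' a * (y b - y' b) := by ring
    rw [map_mul, map_mul, e]
    refine O.1.valuation.map_add_le ?_ ?_
    · rw [map_mul]
      exact le_trans (mul_le_of_le_one_right' ((O.1.valuation_le_one_iff _).2 (h b))) ha
    · rw [map_mul]
      exact le_trans (mul_le_of_le_one_left' ((O.1.valuation_le_one_iff _).2 (h' a))) hb

theorem L2_div_one (y : Pt o Ω) (a : AA o) :
    ∃ b c : AA o, (plc y).ev (iF o Ω c) ≠ 0 ∧ iF o Ω a = iF o Ω b * (iF o Ω c)⁻¹ :=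
  ⟨a, 1, by rw [map_one, L2_ev_one]; exact one_ne_zero, by rw [map_one, inv_one, mul_one]⟩

theorem exists_chart_fin (y : Pt o (RF O)) : Nonempty (Chart O (plc y)) := by
  obtain ⟨n, τ, v, u, hv, hu⟩ := exists_smooth o
  obtain ⟨i, hi⟩ : ∃ i, y (Algebra.TensorProduct.lmul' κ (u i)) ≠ 0 := by
    by_contra hn
    have h := congrArg y hv
    rw [map_sum, map_one, Finset.sum_eq_zero fun i _ => by
      rw [map_mul, not_not.1 (not_exists.1 hn i), mul_zero]] at h
    exact zero_ne_one h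
  have h1 : ∀ a, iF o Ω a ∈ L2_S O (plc y) := fun a => by
    refine ⟨⟨gv_iF_le O a, by rw [gr_iF]; exact (plc_iF y a).1⟩, fun P hP => ?_⟩
    obtain ⟨y', h', rfl, rfl⟩ := L2_red_fin O hP
    rw [gr_iF, (plc_iF _ a).2, (plc_iF _ a).2]
    exact ⟨(plc_iF _ a).1, h' a, rfl⟩
  obtain ⟨R, r1, r2, r3, r4⟩ := L2_chart O (plc y) (iF o Ω) (τ i) h1 fun a => by
    obtain ⟨w, hw⟩ := hu i a
    exact ⟨u i, w, by rw [gr_iF, (plc_iF y _).2]; exact hi, hw⟩
  refine ⟨{ R := R
            t := iF o Ω (τ i)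
            t_mem := r2 _
            const := r1
            fin := fun _ => r2
            inf := fun h => absurd h (plc_ne_oo y)
            gv_le := fun f hf => (r3 hf).1
            ev := fun P hP f hf => (r3 hf).2 P hP
            div := fun P hP f hf h0 => ?_
            ord := fun P hP => ?_
            ord_red := ?_
            ds_eq := fun P Q hP hQ => ?_ }⟩
  · obtain ⟨f', hf', e⟩ := r4 P hP f hf
    exact ⟨f', hf', by rwa [h0, map_zero, sub_zero] at e⟩
  · obtain ⟨y', h', rfl, rfl⟩ := L2_red_fin O hP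
    refine L2_ord y' (iF o Ω) (τ i) (fun a => (plc_iF y' a).1) (fun a => ?_) (L2_div_one y')
    obtain ⟨w, hw⟩ := hu i a
    refine ⟨u i, w, ?_, hw⟩
    rw [(plc_iF y' _).2]
    exact fun hh => hi (by rw [redp_apply, hh, L2_rs_zero])
  · rw [gr_iF]
    refine L2_ord y (iF o (RF O)) (τ i) (fun a => (plc_iF y a).1) (fun a => ?_) (L2_div_one y)
    obtain ⟨w, hw⟩ := hu i a
    exact ⟨u i, w, by rw [(plc_iF y _).2]; exact hi, hw⟩
  · rw [ds, if_neg (not_not.2 (hP.trans hQ.symm)), if_neg (by rw [hP]; exact plc_ne_oo y)]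
    apply le_antisymm
    · refine vs_le _ fun k => ?_
      obtain ⟨f', hf', e⟩ := r4 Q hQ _ (r2 (eb o k))
      obtain ⟨a1, a2, -⟩ := (r3 hf').2 P hP
      have a3 := fun a => ((h1 a).2 P hP).1
      have e' := congrArg P.ev e
      rw [P.ev_sub (a3 _) (P.const _), P.ev_mul (P.O.toSubring.sub_mem (a3 _) (P.const _)) a1,
        P.ev_sub (a3 _) (P.const _), P.ev_algebraMap, P.ev_algebraMap] at e'
      rw [e', map_mul]
      exact mul_le_of_le_one_right' ((O.1.valuation_le_one_iff _).2 a2)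
    · obtain ⟨y1, h1', rfl, -⟩ := L2_red_fin O hP
      obtain ⟨y2, h2', rfl, -⟩ := L2_red_fin O hQ
      simp only [fun a => (plc_iF y1 a).2, fun a => (plc_iF y2 a).2]
      exact L2_val_sub O h1' h2' _

theorem exists_chart_inf : Nonempty (Chart O (oo o (RF O))) := by
  obtain ⟨φ0, hφ0⟩ := exists_jF_hom (o := o) (Ω := Ω)
  let φ : o.OA →ₐ[κ] FO o Ω := φ0.comp o.OA.val
  have hφ : ∀ a : o.OA, φ a = jF o Ω a := fun a => hφ0 a
  have hz : zo o ∈ o.O := o.mem_iff.2 (by rw [ord_zo]; exact zero_le_one)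
  have hz0 : o.ev (zo o) = 0 := (o.ev_eq_zero_iff hz).2 (Or.inr (by rw [ord_zo]; exact one_pos))
  let z : o.OA := ⟨zo o, hz⟩
  have h1 : ∀ a, φ a ∈ L2_S O (oo o (RF O)) := fun a => by
    rw [hφ]
    refine ⟨⟨?_, ?_⟩, fun P hP => ?_⟩
    · by_cases ha : (a : F) = 0
      · rw [ha, ← hφ0, map_zero, map_zero]
        exact zero_le_one
      · exact (gv_jF O ha).le
    · rw [gr_jF, Place.mem_iff, (oo_jF _).1]
      exact o.mem_iff.1 a.2
    · rw [gr_jF, (oo_jF _).2]
      exact ev_jF_of_red_oo O hP a.2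
  have h2 : ∀ a, ∃ u w : o.OA ⊗[κ] o.OA,
      algebraMap κ (RF O) (o.ev (Algebra.TensorProduct.lmul' κ u : o.OA)) ≠ 0 ∧
      u * dlt a = w * dlt z := fun a => by
    obtain ⟨u, w, h0, e⟩ := exists_smooth_inf o z (ord_zo o) a
    exact ⟨u, w, (map_ne_zero _).2 h0, e⟩
  obtain ⟨R, r1, r2, r3, r4⟩ := L2_chart O (oo o (RF O)) φ z h1 fun a => by
    obtain ⟨u, w, h0, e⟩ := h2 a
    exact ⟨u, w, by rw [hφ, gr_jF, (oo_jF _).2]; exact h0, e⟩
  refine ⟨{ R := R
            t := φ z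
            t_mem := r2 _
            const := r1
            fin := fun h => absurd rfl h
            inf := fun _ => ⟨hφ z, fun f hf => hφ ⟨f, hf⟩ ▸ r2 ⟨f, hf⟩⟩
            gv_le := fun f hf => (r3 hf).1
            ev := fun P hP f hf => (r3 hf).2 P hP
            div := fun P hP f hf h0 => ?_
            ord := fun P hP => ?_
            ord_red := ?_
            ds_eq := fun P Q hP hQ => ?_ }⟩
  · obtain ⟨f', hf', e⟩ := r4 P hP f hf
    exact ⟨f', hf', by rwa [h0, map_zero, sub_zero] at e⟩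
  · rcases L2_red_oo O hP with rfl | ⟨y, rfl, hy⟩
    · rw [hφ, (oo_jF _).2, hz0, map_zero, map_zero, sub_zero, (oo_jF _).1, ord_zo]
    · obtain ⟨x, x1, -⟩ := L2_not_intg O hy
      refine L2_ord y φ z (fun a => ((h1 a).2 _ hP).1) (fun a => ?_) fun a => ?_
      · obtain ⟨u, w, h0, e⟩ := h2 a
        refine ⟨u, w, fun hh => h0 ?_, e⟩
        rw [← (ev_jF_of_red_oo O hP (Algebra.TensorProduct.lmul' κ u).2).2.2, ← hφ, hh, L2_rs_zero]
      · rw [← jF_coe, ← hφ0]
        by_cases ha : (a : F) ∈ o.O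
        · exact ⟨⟨a, ha⟩, 1, by rw [map_one, L2_ev_one]; exact one_ne_zero, by
            rw [map_one, inv_one, mul_one]; rfl⟩
        · have ha0 : (a : F) ≠ 0 := fun hh => ha (hh ▸ o.O.zero_mem)
          refine ⟨1, ⟨(a : F)⁻¹, (o.O.mem_or_inv_mem _).resolve_left ha⟩, ?_, ?_⟩
          · rw [hφ, (x1 _).2]
            exact (map_ne_zero _).2 (inv_ne_zero ha0)
          · rw [map_one, one_mul]
            change φ0 a = (φ0 (a : F)⁻¹)⁻¹
            rw [map_inv₀, inv_inv]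
  · rw [hφ, gr_jF, (oo_jF _).2, hz0, map_zero, map_zero, sub_zero, (oo_jF _).1, ord_zo]
  · rw [ds, if_neg (not_not.2 (hP.trans hQ.symm)), if_pos hP, hφ]

theorem exists_chart (p : PO o (RF O)) : Nonempty (Chart O p) := by
  rcases eq_oo_or_plc p with rfl | ⟨y, rfl⟩
  · exact exists_chart_inf O
  · exact exists_chart_fin O y

end Pool.Agent.E6b
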