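import Pool.Agent.E6b.LDefs

open scoped NNReal TensorProduct IntermediateField BigOperators Classical Topology
open Filter

namespace Pool.Agent.E6b

section General
variable {K L : Type} [Field K] [IsAlgClosed K] [CharZero K] [Field L] [Algebra K L] [IsFF K L]

theorem L2_ev_one (P : Place K L) : P.ev 1 = 1 := by simpa using P.ev_algebraMap 1

theorem L2_ev_neg (P : Place K L) {f : L} (hf : f ∈ P.O) : P.ev (-f) = - P.ev f := by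
  have h := P.ev_sub P.O.zero_mem hf
  rwa [zero_sub, F1a_ev_zero, zero_sub] at h

theorem L2_ev_inv (P : Place K L) {g : L} (hg : g ∈ P.O) (h : P.ev g ≠ 0) :
    g⁻¹ ∈ P.O ∧ P.ev g⁻¹ = (P.ev g)⁻¹ := by
  have h1 := P.ev_div P.O.one_mem hg h
  rwa [L2_ev_one, one_div, one_div] at h1

/-- functions `f` of `R` with `f - f(P)` divisible by `T` in `R` -/
def L2_M (P : Place K L) (R : Subring L)
    (hR : ∀ f ∈ R, f ∈ P.O ∧ algebraMap K L (P.ev f) ∈ R) (T : L) : Subring L where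
  carrier := {f | f ∈ R ∧ ∃ f' ∈ R, f - algebraMap K L (P.ev f) = T * f'}
  mul_mem' := by
    rintro f g ⟨hf, f', hf', e⟩ ⟨hg, g', hg', e'⟩
    refine ⟨R.mul_mem hf hg, f' * g + algebraMap K L (P.ev f) * g',
      R.add_mem (R.mul_mem hf' hg) (R.mul_mem (hR f hf).2 hg'), ?_⟩
    rw [P.ev_mul (hR f hf).1 (hR g hg).1, map_mul]
    linear_combination g * e + algebraMap K L (P.ev f) * e'
  one_mem' := ⟨R.one_mem, 0, R.zero_mem, by rw [L2_ev_one, map_one, sub_self, mul_zero]⟩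
  add_mem' := by
    rintro f g ⟨hf, f', hf', e⟩ ⟨hg, g', hg', e'⟩
    refine ⟨R.add_mem hf hg, f' + g', R.add_mem hf' hg', ?_⟩
    rw [P.ev_add (hR f hf).1 (hR g hg).1, map_add]
    linear_combination e + e'
  zero_mem' := ⟨R.zero_mem, 0, R.zero_mem, by rw [F1a_ev_zero, map_zero, sub_self, mul_zero]⟩
  neg_mem' := by
    rintro f ⟨hf, f', hf', e⟩
    refine ⟨R.neg_mem hf, -f', R.neg_mem hf', ?_⟩
    rw [L2_ev_neg P (hR f hf).1, map_neg]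
    linear_combination -e

theorem L2_M_const {P : Place K L} {R : Subring L}
    {hR : ∀ f ∈ R, f ∈ P.O ∧ algebraMap K L (P.ev f) ∈ R} {T : L} {c : K}
    (hc : algebraMap K L c ∈ R) : algebraMap K L c ∈ L2_M P R hR T :=
  ⟨hc, 0, R.zero_mem, by rw [P.ev_algebraMap, sub_self, mul_zero]⟩

theorem L2_M_inv {P : Place K L} {R : Subring L}
    {hR : ∀ f ∈ R, f ∈ P.O ∧ algebraMap K L (P.ev f) ∈ R} {T g : L} (hg : g ∈ L2_M P R hR T)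
    (h0 : P.ev g ≠ 0) (hi : g⁻¹ ∈ R) : g⁻¹ ∈ L2_M P R hR T := by
  obtain ⟨hg, g', hg', e⟩ := hg
  have hg0 : g ≠ 0 := fun h => h0 (by rw [h, F1a_ev_zero])
  have hc : algebraMap K L (P.ev g) ≠ 0 := by simpa using h0
  refine ⟨hi, -(g' * g⁻¹ * algebraMap K L (P.ev g⁻¹)),
    R.neg_mem (R.mul_mem (R.mul_mem hg' hi) (hR _ hi).2), ?_⟩
  rw [(L2_ev_inv P (hR g hg).1 h0).2, map_inv₀]
  field_simp
  linear_combination -e

variable {κ A : Type} [Field κ] [Algebra κ K] [Algebra κ L] [IsScalarTower κ K L] [CommRing A]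
  [Algebra κ A]

/-- evaluation at a place -/
noncomputable def L2_evH (P : Place K L) (φ : A →ₐ[κ] L) (h : ∀ a, φ a ∈ P.O) : A →ₐ[κ] L where
  toFun a := algebraMap K L (P.ev (φ a))
  map_one' := by rw [map_one, L2_ev_one, map_one]
  map_mul' a b := by rw [map_mul, P.ev_mul (h a) (h b), map_mul]
  map_zero' := by rw [map_zero, F1a_ev_zero, map_zero]
  map_add' a b := by rw [map_add, P.ev_add (h a) (h b), map_add]
  commutes' c := by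
    rw [AlgHom.commutes, IsScalarTower.algebraMap_apply κ K L, P.ev_algebraMap]

theorem L2_theta (P : Place K L) (φ : A →ₐ[κ] L) {R : Subring L}
    (hR : ∀ f ∈ R, f ∈ P.O ∧ algebraMap K L (P.ev f) ∈ R) (h : ∀ a, φ a ∈ R) :
    ∃ Θ : A ⊗[κ] A →ₐ[κ] L, (∀ u, Θ u ∈ R ∧
      P.ev (Θ u) = P.ev (φ (Algebra.TensorProduct.lmul' κ u))) ∧
      ∀ a, Θ (dlt a) = φ a - algebraMap K L (P.ev (φ a)) := by
  have h' : ∀ a, φ a ∈ P.O := fun a => (hR _ (h a)).1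
  refine ⟨Algebra.TensorProduct.lift φ (L2_evH P φ h') fun _ _ => Commute.all _ _, fun u => ?_,
    fun a => ?_⟩
  · induction u using TensorProduct.induction_on with
    | zero => exact ⟨by rw [map_zero]; exact R.zero_mem, by rw [map_zero, map_zero, map_zero]⟩
    | tmul a b =>
      rw [Algebra.TensorProduct.lift_tmul, Algebra.TensorProduct.lmul'_apply_tmul, map_mul]
      refine ⟨R.mul_mem (h a) (hR _ (h b)).2, ?_⟩
      change P.ev (φ a * algebraMap K L (P.ev (φ b))) = _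
      rw [P.ev_mul (h' a) (P.const _), P.ev_algebraMap, P.ev_mul (h' a) (h' b)]
    | add u v hu hv =>
      rw [map_add, map_add, map_add]
      refine ⟨R.add_mem hu.1 hv.1, ?_⟩
      rw [P.ev_add (hR _ hu.1).1 (hR _ hv.1).1, P.ev_add (h' _) (h' _), hu.2, hv.2]
  · rw [dlt, map_sub, Algebra.TensorProduct.lift_tmul, Algebra.TensorProduct.lift_tmul, map_one,
      map_one, mul_one, one_mul]
    rfl

theorem L2_M_phi (P : Place K L) (φ : A →ₐ[κ] L) {R : Subring L}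
    (hR : ∀ f ∈ R, f ∈ P.O ∧ algebraMap K L (P.ev f) ∈ R) (h : ∀ a, φ a ∈ R) {τ a : A}
    {u w : A ⊗[κ] A} (e : u * dlt a = w * dlt τ)
    (h0 : P.ev (φ (Algebra.TensorProduct.lmul' κ u)) ≠ 0)
    (hi : ∀ g ∈ R, P.ev g = P.ev (φ (Algebra.TensorProduct.lmul' κ u)) → g⁻¹ ∈ R) :
    φ a ∈ L2_M P R hR (φ τ - algebraMap K L (P.ev (φ τ))) := by
  obtain ⟨Θ, h1, h2⟩ := L2_theta P φ hR h
  have e' := congrArg Θ e
  rw [map_mul, map_mul, h2, h2] at e'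
  have hu0 : Θ u ≠ 0 := fun hh => h0 (by rw [← (h1 u).2, hh, F1a_ev_zero])
  refine ⟨h a, Θ w * (Θ u)⁻¹, R.mul_mem (h1 w).1 (hi _ (h1 u).1 (h1 u).2), ?_⟩
  field_simp
  linear_combination e'

theorem L2_ord_of_M (P : Place K L) {t : L} (ht : t ∈ P.O)
    (h : ∀ f ∈ P.O, ∃ f' ∈ P.O,
      f - algebraMap K L (P.ev f) = (t - algebraMap K L (P.ev t)) * f') :
    P.ord (t - algebraMap K L (P.ev t)) = 1 := by
  obtain ⟨π, hπ0, hπ⟩ := P.exists_ord_eq 1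
  have hm : π ∈ P.O := P.mem_iff.2 (by omega)
  obtain ⟨f', hf', e⟩ := h π hm
  rw [(P.ev_eq_zero_iff hm).2 (Or.inr (by omega)), map_zero, sub_zero] at e
  have h1 : t - algebraMap K L (P.ev t) ≠ 0 := fun hh => hπ0 (by rw [e, hh, zero_mul])
  have h2 : f' ≠ 0 := fun hh => hπ0 (by rw [e, hh, mul_zero])
  have h3 := P.ord_mul h1 h2
  have h4 := P.mem_iff.1 hf'
  have h5 := (P.ev_spec ht).resolve_left fun hh => h1 (sub_eq_zero.2 hh)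
  rw [← e] at h3
  omega

end General

variable {κ F : Type} [Field κ] [IsAlgClosed κ] [CharZero κ] [Field F] [Algebra κ F] [IsFF κ F]
  {o : Place κ F} {Ω : Type} [Field Ω] [IsAlgClosed Ω] [CharZero Ω] [Algebra κ Ω]
  {A : Type} [CommRing A] [Algebra κ A]

theorem L2_ord (y : Pt o Ω) (φ : A →ₐ[κ] FO o Ω) (τ : A) (h1 : ∀ a, φ a ∈ (plc y).O)
    (h2 : ∀ a, ∃ u w : A ⊗[κ] A, (plc y).ev (φ (Algebra.TensorProduct.lmul' κ u)) ≠ 0 ∧
      u * dlt a = w * dlt τ)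
    (h3 : ∀ a : AA o, ∃ b c : A, (plc y).ev (φ c) ≠ 0 ∧ iF o Ω a = φ b * (φ c)⁻¹) :
    (plc y).ord (φ τ - algebraMap Ω (FO o Ω) ((plc y).ev (φ τ))) = 1 := by
  have hR : ∀ f ∈ (plc y).O.toSubring, f ∈ (plc y).O ∧
      algebraMap Ω (FO o Ω) ((plc y).ev f) ∈ (plc y).O.toSubring := fun f hf =>
    ⟨hf, (plc y).const _⟩
  let M := L2_M (plc y) _ hR (φ τ - algebraMap Ω (FO o Ω) ((plc y).ev (φ τ)))
  have m0 : ∀ g ∈ M, (plc y).ev g ≠ 0 → g⁻¹ ∈ M := fun g hg h0 =>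
    L2_M_inv hg h0 (L2_ev_inv _ hg.1 h0).1
  have m1 : ∀ a, φ a ∈ M := fun a => by
    obtain ⟨u, w, h0, e⟩ := h2 a
    exact L2_M_phi (plc y) φ hR h1 e h0 fun g hg hg' => (L2_ev_inv _ hg (hg' ▸ h0)).1
  have m2 : ∀ a : AO o Ω, algebraMap _ (FO o Ω) a ∈ M := fun a => by
    induction a using TensorProduct.induction_on with
    | zero => rw [map_zero]; exact M.zero_mem
    | tmul c a =>
      obtain ⟨b, c', h0, e⟩ := h3 a
      rw [algebraMap_tmul, e]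
      exact M.mul_mem (L2_M_const ((plc y).const c)) (M.mul_mem (m1 b) (m0 _ (m1 c') h0))
    | add a b ha hb => rw [map_add]; exact M.add_mem ha hb
  refine L2_ord_of_M _ (h1 τ) fun f hf => ?_
  obtain ⟨a, s, hs, e⟩ := exists_div_plc y hf
  rw [← (plc_spec y s).2] at hs
  have hs0 : algebraMap _ (FO o Ω) s ≠ 0 := fun hh => hs (by rw [hh, F1a_ev_zero])
  have hM : f ∈ M := by
    rw [(eq_mul_inv_iff_mul_eq₀ hs0).2 e]
    exact M.mul_mem (m2 a) (m0 _ (m2 s) hs)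
  exact hM.2

variable (O : VS κ Ω)

omit [IsAlgClosed κ] [CharZero κ] [IsAlgClosed Ω] [CharZero Ω] in
theorem L2_rs_zero : rs O 0 = 0 := by simpa using rs_algebraMap O 0

omit [IsAlgClosed κ] [CharZero κ] [IsAlgClosed Ω] [CharZero Ω] in
theorem L2_rs_one : rs O 1 = 1 := by simpa using rs_algebraMap O 1

omit [IsAlgClosed κ] [CharZero κ] [IsAlgClosed Ω] [CharZero Ω] in
theorem L2_rs_neg {x : Ω} (hx : x ∈ O.1) : rs O (-x) = - rs O x := by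
  have h := rs_add O hx (O.1.neg_mem _ hx)
  rw [add_neg_cancel, L2_rs_zero] at h
  exact (neg_eq_of_add_eq_zero_right h.symm).symm

omit [IsAlgClosed κ] [CharZero κ] [IsAlgClosed Ω] [CharZero Ω] in
theorem L2_rs_inv {x : Ω} (hx : x ∈ O.1) (h : rs O x ≠ 0) :
    x ≠ 0 ∧ x⁻¹ ∈ O.1 ∧ rs O x⁻¹ = (rs O x)⁻¹ := by
  have h0 : x ≠ 0 := fun hh => h (by rw [hh, L2_rs_zero])
  have h1 : O.1.valuation x = 1 := le_antisymm ((O.1.valuation_le_one_iff _).2 hx)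
    (not_lt.1 fun hh => h ((rs_eq_zero_iff O hx).2 hh))
  have h2 : x⁻¹ ∈ O.1 := (O.1.valuation_le_one_iff _).1 (by rw [map_inv₀, h1, inv_one])
  refine ⟨h0, h2, eq_inv_of_mul_eq_one_right ?_⟩
  rw [← rs_mul O hx h2, mul_inv_cancel₀ h0, L2_rs_one]

/-- functions with good reduction at `p` -/
def L2_S (p : PO o (RF O)) : Subring (FO o Ω) where
  carrier := {f | (gv O o f ≤ 1 ∧ gr O f ∈ p.O) ∧
    ∀ P, red O P = p → f ∈ P.O ∧ P.ev f ∈ O.1 ∧ rs O (P.ev f) = p.ev (gr O f)}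
  mul_mem' := by
    rintro f g ⟨⟨f1, f2⟩, f3⟩ ⟨⟨g1, g2⟩, g3⟩
    rw [Set.mem_ofPred_eq, gr_mul O f1 g1, map_mul]
    refine ⟨⟨mul_le_one' f1 g1, p.O.mul_mem _ _ f2 g2⟩, fun P hP => ?_⟩
    obtain ⟨a1, a2, a3⟩ := f3 P hP
    obtain ⟨b1, b2, b3⟩ := g3 P hP
    rw [P.ev_mul a1 b1, rs_mul O a2 b2, p.ev_mul f2 g2, a3, b3]
    exact ⟨P.O.mul_mem _ _ a1 b1, O.1.mul_mem _ _ a2 b2, rfl⟩
  one_mem' := by
    rw [Set.mem_ofPred_eq, gr_one, map_one]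
    refine ⟨⟨le_rfl, p.O.one_mem⟩, fun P _ => ?_⟩
    rw [L2_ev_one, L2_ev_one, L2_rs_one]
    exact ⟨P.O.one_mem, O.1.one_mem, rfl⟩
  add_mem' := by
    rintro f g ⟨⟨f1, f2⟩, f3⟩ ⟨⟨g1, g2⟩, g3⟩
    rw [Set.mem_ofPred_eq, gr_add O f1 g1]
    refine ⟨⟨(gv O o).map_add_le f1 g1, p.O.add_mem _ _ f2 g2⟩, fun P hP => ?_⟩
    obtain ⟨a1, a2, a3⟩ := f3 P hP
    obtain ⟨b1, b2, b3⟩ := g3 P hP
    rw [P.ev_add a1 b1, rs_add O a2 b2, p.ev_add f2 g2, a3, b3]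
    exact ⟨P.O.add_mem _ _ a1 b1, O.1.add_mem _ _ a2 b2, rfl⟩
  zero_mem' := by
    rw [Set.mem_ofPred_eq, gr_zero, map_zero]
    refine ⟨⟨zero_le_one, p.O.zero_mem⟩, fun P _ => ?_⟩
    rw [F1a_ev_zero, F1a_ev_zero, L2_rs_zero]
    exact ⟨P.O.zero_mem, O.1.zero_mem, rfl⟩
  neg_mem' := by
    rintro f ⟨⟨f1, f2⟩, f3⟩
    rw [Set.mem_ofPred_eq, gr_neg O f1, Valuation.map_neg]
    refine ⟨⟨f1, p.O.neg_mem _ f2⟩, fun P hP => ?_⟩
    obtain ⟨a1, a2, a3⟩ := f3 P hP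
    rw [L2_ev_neg P a1, L2_rs_neg O a2, L2_ev_neg p f2, a3]
    exact ⟨P.O.neg_mem _ a1, O.1.neg_mem _ a2, rfl⟩

theorem L2_S_const (p : PO o (RF O)) {c : Ω} (hc : c ∈ O.1) :
    algebraMap Ω (FO o Ω) c ∈ L2_S O p := by
  refine ⟨⟨?_, ?_⟩, fun P _ => ?_⟩
  · rw [gv_algebraMap]
    exact (O.1.valuation_le_one_iff _).2 hc
  · rw [gr_algebraMap O hc]
    exact p.const _
  · rw [gr_algebraMap O hc, P.ev_algebraMap, p.ev_algebraMap]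
    exact ⟨P.const _, hc, rfl⟩

theorem L2_S_inv (p : PO o (RF O)) {g : FO o Ω} (hg : g ∈ L2_S O p) (h0 : p.ev (gr O g) ≠ 0) :
    g⁻¹ ∈ L2_S O p := by
  obtain ⟨⟨g1, g2⟩, g3⟩ := hg
  have h1 : gv O o g = 1 := le_antisymm g1 (not_lt.1 fun hh => h0 (by
    rw [(gr_eq_zero_iff O g1).2 hh, F1a_ev_zero]))
  have h2 : gr O g⁻¹ = (gr O g)⁻¹ := by
    have h := gr_div O (f := 1) (by rw [map_one]) h1
    rwa [gr_one, one_div, one_div] at h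
  obtain ⟨h3, h4⟩ := L2_ev_inv p g2 h0
  refine ⟨⟨by rw [map_inv₀, h1, inv_one], by rw [h2]; exact h3⟩, fun P hP => ?_⟩
  obtain ⟨a1, a2, a3⟩ := g3 P hP
  obtain ⟨b1, b2, b3⟩ := L2_rs_inv O a2 (by rw [a3]; exact h0)
  obtain ⟨c1, c2⟩ := L2_ev_inv P a1 b1
  rw [c2, b3, h2, h4, a3]
  exact ⟨c1, b2, rfl⟩

theorem L2_chart (p : PO o (RF O)) (φ : A →ₐ[κ] FO o Ω) (τ : A) (h1 : ∀ a, φ a ∈ L2_S O p)
    (h2 : ∀ a, ∃ u w : A ⊗[κ] A, p.ev (gr O (φ (Algebra.TensorProduct.lmul' κ u))) ≠ 0 ∧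
      u * dlt a = w * dlt τ) :
    ∃ R : Subring (FO o Ω), (∀ c ∈ O.1, algebraMap Ω (FO o Ω) c ∈ R) ∧ (∀ a, φ a ∈ R) ∧
      R ≤ L2_S O p ∧ ∀ P, red O P = p → ∀ f ∈ R, ∃ f' ∈ R,
        f - algebraMap Ω (FO o Ω) (P.ev f) = (φ τ - algebraMap Ω (FO o Ω) (P.ev (φ τ))) * f' := by
  let C : Set (Subring (FO o Ω)) := {R | (∀ c ∈ O.1, algebraMap Ω (FO o Ω) c ∈ R) ∧
    (∀ a, φ a ∈ R) ∧ ∀ g ∈ R, p.ev (gr O g) ≠ 0 → g⁻¹ ∈ R}
  have r1 : ∀ c ∈ O.1, algebraMap Ω (FO o Ω) c ∈ sInf C := fun c hc =>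
    Subring.mem_sInf.2 fun R hR => hR.1 c hc
  have r2 : ∀ a, φ a ∈ sInf C := fun a => Subring.mem_sInf.2 fun R hR => hR.2.1 a
  have r3 : ∀ g ∈ sInf C, p.ev (gr O g) ≠ 0 → g⁻¹ ∈ sInf C := fun g hg h0 =>
    Subring.mem_sInf.2 fun R hR => hR.2.2 g (Subring.mem_sInf.1 hg R hR) h0
  have r4 : sInf C ≤ L2_S O p :=
    sInf_le ⟨fun c hc => L2_S_const O p hc, h1, fun g hg h0 => L2_S_inv O p hg h0⟩
  refine ⟨sInf C, r1, r2, r4, fun P hP f hf => ?_⟩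
  have hR : ∀ f ∈ sInf C, f ∈ P.O ∧ algebraMap Ω (FO o Ω) (P.ev f) ∈ sInf C := fun f hf =>
    ⟨((r4 hf).2 P hP).1, r1 _ ((r4 hf).2 P hP).2.1⟩
  have hne : ∀ g ∈ sInf C, p.ev (gr O g) ≠ 0 → P.ev g ≠ 0 := fun g hg h0 hh =>
    h0 (by rw [← ((r4 hg).2 P hP).2.2, hh, L2_rs_zero])
  have r5 : sInf C ≤ L2_M P _ hR (φ τ - algebraMap Ω (FO o Ω) (P.ev (φ τ))) := by
    refine sInf_le ⟨fun c hc => L2_M_const (r1 c hc), fun a => ?_,
      fun g hg h0 => L2_M_inv hg (hne g hg.1 h0) (r3 g hg.1 h0)⟩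
    obtain ⟨u, w, h0, e⟩ := h2 a
    refine L2_M_phi P φ hR r2 e (hne _ (r2 _) h0) fun g hg hg' => r3 g hg ?_
    rw [← ((r4 hg).2 P hP).2.2, hg', ((r4 (r2 _)).2 P hP).2.2]
    exact h0
  exact (r5 hf).2

end Pool.Agent.E6b
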