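import Pool.Agent.E6b.L2

open scoped NNReal TensorProduct IntermediateField BigOperators Classical Topology
open Filter

namespace Pool.Agent.E6b

variable {κ F : Type} [Field κ] [IsAlgClosed κ] [CharZero κ] [Field F] [Algebra κ F] [IsFF κ F]
  {o : Place κ F} {Ω : Type} [Field Ω] [IsAlgClosed Ω] [CharZero Ω] [Algebra κ Ω] (O : VS κ Ω)

omit [IsAlgClosed κ] [CharZero κ] [IsAlgClosed Ω] [CharZero Ω] in
theorem L3_rs_sub {x y : Ω} (hx : x ∈ O.1) (hy : y ∈ O.1) : rs O (x - y) = rs O x - rs O y := by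
  have h := rs_add O (sub_mem hx hy) hy
  rw [sub_add_cancel] at h
  rw [h, add_sub_cancel_right]

theorem L3_jF_mul (f g : F) : jF o Ω (f * g) = jF o Ω f * jF o Ω g := by
  obtain ⟨φ, hφ⟩ := exists_jF_hom (o := o) (Ω := Ω)
  rw [← hφ, ← hφ, ← hφ, map_mul]

theorem L3_jF_pow (f : F) (n : ℕ) : jF o Ω (f ^ n) = jF o Ω f ^ n := by
  obtain ⟨φ, hφ⟩ := exists_jF_hom (o := o) (Ω := Ω)
  rw [← hφ, ← hφ, map_pow]

theorem L3_jF_inv (f : F) : jF o Ω f⁻¹ = (jF o Ω f)⁻¹ := by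
  obtain ⟨φ, hφ⟩ := exists_jF_hom (o := o) (Ω := Ω)
  rw [← hφ, ← hφ, map_inv₀]

theorem L3_ev_pow (P : Place κ F) {f : F} (hf : f ∈ P.O) (n : ℕ) : P.ev (f ^ n) = P.ev f ^ n := by
  induction n with
  | zero => simpa using P.ev_algebraMap 1
  | succ n ih => rw [pow_succ, P.ev_mul (pow_mem hf n) hf, ih, pow_succ]

theorem L3_ev_prod (P : Place κ F) {ι : Type} (s : Finset ι) (f : ι → F) (hf : ∀ i ∈ s, f i ∈ P.O) :
    P.ev (∏ i ∈ s, f i) = ∏ i ∈ s, P.ev (f i) := by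
  induction s using Finset.induction_on with
  | empty => simpa using P.ev_algebraMap 1
  | insert a s ha ih =>
    have h1 : ∀ i ∈ s, f i ∈ P.O := fun i hi => hf i (Finset.mem_insert_of_mem hi)
    rw [Finset.prod_insert ha, Finset.prod_insert ha,
      P.ev_mul (hf a (Finset.mem_insert_self _ _)) (prod_mem h1), ih h1]

theorem L3_wN_ne : (wN o : F) ≠ 0 := fun h => wN_notMem o ⟨0, by rw [h, map_zero]⟩

theorem L3_zo_ne : zo o ≠ 0 := fun h => by
  have := ord_zo o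
  rw [h, Place.ord_zero] at this
  exact zero_ne_one this

theorem L3_ev_zo : (oo o Ω).ev (jF o Ω (zo o)) = 0 := by
  have h : o.ev (zo o) = 0 :=
    (o.ev_eq_zero_iff (o.mem_iff.2 (by rw [ord_zo]; exact zero_le_one))).2
      (Or.inr (by rw [ord_zo]; exact zero_lt_one))
  rw [(oo_jF _).2, h, map_zero]

theorem L3_sep {p : PO o (RF O)} (C : Chart O p) {P Q : PO o Ω} (hP : red O P = p)
    (hQ : red O Q = p) (h : ∀ f ∈ C.R, P.ev f = Q.ev f) : P = Q := by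
  by_cases hp : p = oo o (RF O)
  · have hR := (C.inf hp).2
    have hN : (1 : ℤ) ≤ NN o := by unfold NN; omega
    have hw : ((wN o : F)⁻¹) ∈ o.O := o.mem_iff.2 (by rw [o.ord_inv, ord_wN]; omega)
    have hu : jF o Ω (wN o : F)⁻¹ = (iF o Ω (wN o))⁻¹ := by rw [L3_jF_inv, jF_coe]
    have hu' := hR _ hw
    rw [hu] at hu'
    have w0 : iF o Ω (wN o) ≠ 0 := fun e => iF_wN_notMem (o := o) (Ω := Ω) ⟨0, by rw [e, map_zero]⟩
    have key : ∀ S : PO o Ω, red O S = p → (S = oo o Ω ↔ S.ev (iF o Ω (wN o))⁻¹ = 0) := by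
      intro S hS
      rw [eq_oo_iff, S.ev_eq_zero_iff (C.ev S hS _ hu').1, S.mem_iff, S.ord_inv]
      constructor
      · intro h1; right; omega
      · rintro (h1 | h1)
        · exact absurd (inv_eq_zero.1 h1) w0
        · omega
    have e := h _ hu'
    rcases eq_oo_or_plc P with hP' | ⟨y, rfl⟩
    · rw [hP', eq_comm, key Q hQ, ← e, ← key P hP]; exact hP'
    rcases eq_oo_or_plc Q with hQ' | ⟨y', rfl⟩
    · rw [hQ', key _ hP, e, ← key Q hQ]; exact hQ'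
    congr 1
    ext a
    obtain ⟨k, hk⟩ : ∃ k : ℕ, -o.ord (a : F) ≤ k := ⟨(-o.ord (a : F)).toNat, Int.self_le_toNat _⟩
    have hm : (a : F) * ((wN o : F)⁻¹) ^ k ∈ o.O := by
      by_cases a0 : (a : F) = 0
      · rw [a0, zero_mul]; exact zero_mem _
      · rw [o.mem_iff, o.ord_mul a0 (pow_ne_zero _ (inv_ne_zero L3_wN_ne)), o.ord_pow, o.ord_inv,
          ord_wN, neg_neg]
        nlinarith [Int.natCast_nonneg k]
    have e2 := h _ (hR _ hm)
    rw [L3_jF_mul, L3_jF_pow, hu, jF_coe,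
      Place.ev_mul _ (plc_iF y a).1 (pow_mem (C.ev _ hP _ hu').1 k),
      Place.ev_mul _ (plc_iF y' a).1 (pow_mem (C.ev _ hQ _ hu').1 k),
      L3_ev_pow _ (C.ev _ hP _ hu').1, L3_ev_pow _ (C.ev _ hQ _ hu').1, (plc_iF y a).2,
      (plc_iF y' a).2, e] at e2
    exact mul_right_cancel₀ (pow_ne_zero _ fun h0 => plc_ne_oo y' ((key _ hQ).2 h0)) e2
  · have hR := C.fin hp
    have key : ∀ S : PO o Ω, red O S = p → ∃ y, plc y = S := fun S hS =>
      (eq_oo_or_plc S).resolve_left fun e => hp (by rw [← hS, e, red_oo])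
    obtain ⟨y, rfl⟩ := key P hP
    obtain ⟨y', rfl⟩ := key Q hQ
    congr 1
    ext a
    rw [← (plc_iF y a).2, ← (plc_iF y' a).2]
    exact h _ (hR a)

variable {O}

theorem L3_tmem {p : PO o (RF O)} (C : Chart O p) {P : PO o Ω} (hP : red O P = p) :
    C.t - algebraMap Ω (FO o Ω) (P.ev C.t) ∈ C.R :=
  sub_mem C.t_mem (C.const _ (C.ev P hP _ C.t_mem).2.1)

theorem L3_tev {p : PO o (RF O)} (C : Chart O p) (P : PO o Ω) {Q : PO o Ω} (hQ : red O Q = p) :
    Q.ev (C.t - algebraMap Ω (FO o Ω) (P.ev C.t)) = Q.ev C.t - P.ev C.t := by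
  rw [Q.ev_sub (C.ev Q hQ _ C.t_mem).1 (Q.const _), Q.ev_algebraMap]

theorem L3_tne {p : PO o (RF O)} (C : Chart O p) {P : PO o Ω} (hP : red O P = p) :
    C.t - algebraMap Ω (FO o Ω) (P.ev C.t) ≠ 0 := fun h => by
  have := C.ord P hP
  rw [h, Place.ord_zero] at this
  exact zero_ne_one this

theorem L3_inj {p : PO o (RF O)} (C : Chart O p) {P Q : PO o Ω} (hP : red O P = p)
    (hQ : red O Q = p) (h : P.ev C.t = Q.ev C.t) : P = Q := by
  refine L3_sep O C hP hQ fun f hf => ?_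
  have h1 := C.ev P hP f hf
  have h2 := C.ev Q hQ f hf
  obtain ⟨f', hf', e⟩ := C.div P hP (f - algebraMap Ω (FO o Ω) (P.ev f))
    (sub_mem hf (C.const _ h1.2.1)) (by rw [P.ev_sub h1.1 (P.const _), P.ev_algebraMap, sub_self])
  have e2 := congrArg Q.ev e
  rw [Q.ev_sub h2.1 (Q.const _), Q.ev_algebraMap,
    Q.ev_mul (C.ev Q hQ _ (L3_tmem C hP)).1 (C.ev Q hQ _ hf').1, L3_tev C P hQ, h, sub_self,
    zero_mul] at e2
  exact (sub_eq_zero.1 e2).symm

theorem L3_tord {p : PO o (RF O)} (C : Chart O p) {P Q : PO o Ω} (hP : red O P = p)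
    (hQ : red O Q = p) : Q.ord (C.t - algebraMap Ω (FO o Ω) (P.ev C.t)) = pd P Q := by
  rw [F1_pd_apply]
  split_ifs with h
  · rw [← h]; exact C.ord P hP
  · have h1 := (C.ev Q hQ _ (L3_tmem C hP)).1
    have h2 := Q.mem_iff.1 h1
    by_contra h3
    have h4 := (Q.ev_eq_zero_iff h1).2 (Or.inr (by omega))
    rw [L3_tev C P hQ] at h4
    exact h (L3_inj C hP hQ (sub_eq_zero.1 h4).symm)

theorem L3_fac {p : PO o (RF O)} (C : Chart O p) {ι : Type} (P : ι → PO o Ω) (s : Finset ι) :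
    (∀ i ∈ s, red O (P i) = p) → ∀ g ∈ C.R, g ≠ 0 →
      (∀ Q, red O Q = p → (∑ i ∈ s, pd (P i)) Q ≤ Q.ord g) →
      ∃ g' ∈ C.R, g = (∏ i ∈ s, (C.t - algebraMap Ω (FO o Ω) ((P i).ev C.t))) * g' := by
  induction s using Finset.induction_on with
  | empty => exact fun _ g hg _ _ => ⟨g, hg, by rw [Finset.prod_empty, one_mul]⟩
  | insert a s ha ih =>
    intro hs g hg g0 hZ
    have hPa := hs a (Finset.mem_insert_self _ _)
    have hnn : ∀ Q, 0 ≤ (∑ i ∈ s, pd (P i)) Q := fun Q => by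
      rw [Finsupp.finsetSum_apply]
      exact Finset.sum_nonneg fun i _ => by rw [F1_pd_apply]; split_ifs <;> omega
    have h1 := hZ _ hPa
    rw [Finset.sum_insert ha, Finsupp.add_apply, F1_pd_apply, if_pos rfl] at h1
    have h2 := hnn (P a)
    obtain ⟨g1, hg1, e⟩ := C.div _ hPa g hg
      (((P a).ev_eq_zero_iff (C.ev _ hPa g hg).1).2 (Or.inr (by omega)))
    have g10 : g1 ≠ 0 := fun h0 => g0 (by rw [e, h0, mul_zero])
    obtain ⟨g', hg', e'⟩ := ih (fun i hi => hs i (Finset.mem_insert_of_mem hi)) g1 hg1 g10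
      fun Q hQ => by
        have h3 := hZ Q hQ
        rw [Finset.sum_insert ha, Finsupp.add_apply, e, Q.ord_mul (L3_tne C hPa) g10,
          L3_tord C hPa hQ] at h3
        omega
    exact ⟨g', hg', by rw [Finset.prod_insert ha, mul_assoc, ← e', ← e]⟩

theorem L3_tgr {p : PO o (RF O)} (C : Chart O p) {P : PO o Ω} (hP : red O P = p) :
    gr O (C.t - algebraMap Ω (FO o Ω) (P.ev C.t)) =
      gr O C.t - algebraMap (RF O) (FO o (RF O)) (p.ev (gr O C.t)) := by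
  have h := C.ev P hP _ C.t_mem
  rw [gr_sub O (C.gv_le _ C.t_mem).1 (C.gv_le _ (C.const _ h.2.1)).1, gr_algebraMap O h.2.1, h.2.2]

theorem L3_ord_gr {p : PO o (RF O)} (C : Chart O p) {ι : Type} (P : ι → PO o Ω) (s : Finset ι)
    (hs : ∀ i ∈ s, red O (P i) = p) {g' : FO o Ω} (hg' : g' ∈ C.R)
    (h0 : gr O ((∏ i ∈ s, (C.t - algebraMap Ω (FO o Ω) ((P i).ev C.t))) * g') ≠ 0) :
    gr O g' ≠ 0 ∧ p.ord (gr O ((∏ i ∈ s, (C.t - algebraMap Ω (FO o Ω) ((P i).ev C.t))) * g')) =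
      s.card + p.ord (gr O g') := by
  have h1 : ∀ i ∈ s, gv O o (C.t - algebraMap Ω (FO o Ω) ((P i).ev C.t)) ≤ 1 :=
    fun i hi => (C.gv_le _ (L3_tmem C (hs i hi))).1
  have h2 := (C.gv_le _ (prod_mem fun i hi => L3_tmem C (hs i hi) :
    (∏ i ∈ s, (C.t - algebraMap Ω (FO o Ω) ((P i).ev C.t))) ∈ C.R)).1
  rw [gr_mul O h2 (C.gv_le _ hg').1, gr_prod O s h1,
    Finset.prod_congr rfl fun i hi => L3_tgr C (hs i hi), Finset.prod_const] at h0 ⊢
  refine ⟨right_ne_zero_of_mul h0, ?_⟩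
  rw [p.ord_mul (left_ne_zero_of_mul h0) (right_ne_zero_of_mul h0), p.ord_pow, C.ord_red, mul_one]

theorem L3_top {a : AO o Ω} (ha : a ≠ 0) :
    ∃ n : ℕ, (oo o Ω).ord (algebraMap _ (FO o Ω) a) = -(n : ℤ) ∧
      ∀ j, (ebO o Ω).repr a j ≠ 0 → pn o j ≤ n := by
  have hne : ((ebO o Ω).repr a).support.Nonempty := by
    rw [Finsupp.support_nonempty_iff]
    exact fun h => ha ((ebO o Ω).repr.map_eq_zero_iff.1 h)
  refine ⟨pn o (((ebO o Ω).repr a).support.max' hne), oo_ord ?_ fun j hj => ?_, fun j hj => ?_⟩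
  · exact Finsupp.mem_support_iff.1 (Finset.max'_mem _ hne)
  · by_contra h
    exact absurd (Finset.le_max' _ j (Finsupp.mem_support_iff.2 h)) (not_le.2 hj)
  · exact (ebSpec o).mono.monotone (Finset.le_max' _ j (Finsupp.mem_support_iff.2 hj))

theorem L3_smul (c : Ω) (a : AO o Ω) :
    algebraMap _ (FO o Ω) (c • a) = algebraMap Ω (FO o Ω) c * algebraMap _ (FO o Ω) a := by
  have e : c • a = algebraMap Ω (AO o Ω) c * a := Algebra.smul_def c a
  rw [e, map_mul, ← IsScalarTower.algebraMap_apply]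

theorem L3_mem {p : PO o (RF O)} (C : Chart O p) {a : AO o Ω} (ha : gvA O a ≤ 1) {u : FO o Ω}
    (hu : ∀ j, (ebO o Ω).repr a j ≠ 0 → iF o Ω (eb o j) * u ∈ C.R) :
    algebraMap _ (FO o Ω) a * u ∈ C.R := by
  have e := (ebO o Ω).linearCombination_repr a
  rw [Finsupp.linearCombination_apply, Finsupp.sum] at e
  rw [← e, map_sum, Finset.sum_mul]
  refine sum_mem fun j hj => ?_
  rw [L3_smul, algebraMap_ebO, mul_assoc]
  exact mul_mem (C.const _ ((O.1.valuation_le_one_iff _).1 ((gvA_le_iff O).1 ha j)))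
    (hu j (Finsupp.mem_support_iff.1 hj))

end Pool.Agent.E6b
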