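import Pool.Agent.E6b.L2
import Pool.Agent.E6b.L3Aux

open scoped NNReal TensorProduct IntermediateField BigOperators Classical Topology
open Filter

namespace Pool.Agent.E6b

variable {κ F : Type} [Field κ] [IsAlgClosed κ] [CharZero κ] [Field F] [Algebra κ F] [IsFF κ F]
  {o : Place κ F} {Ω : Type} [Field Ω] [IsAlgClosed Ω] [CharZero Ω] [Algebra κ Ω] (O : VS κ Ω)

theorem L3_ds_of_ne {P Q : PO o Ω} (h : red O P ≠ red O Q) : ds O P Q = 1 := by
  unfold ds; rw [if_pos h]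

theorem L3_ds_lt {P Q : PO o Ω} (h : red O P = red O Q) : ds O P Q < 1 := by
  obtain ⟨C⟩ := exists_chart O (red O P)
  have h1 := C.ev P rfl _ C.t_mem
  have h2 := C.ev Q h.symm _ C.t_mem
  rw [C.ds_eq P Q rfl h.symm, ← rs_eq_zero_iff O (sub_mem h1.2.1 h2.2.1),
    L3_rs_sub O h1.2.1 h2.2.1, h1.2.2, h2.2.2, sub_self]

theorem ds_comm (P Q : PO o Ω) : ds O P Q = ds O Q P := by
  by_cases h : red O P = red O Q
  · obtain ⟨C⟩ := exists_chart O (red O P)
    rw [C.ds_eq P Q rfl h.symm, C.ds_eq Q P h.symm rfl, Valuation.map_sub_swap]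
  · rw [L3_ds_of_ne O h, L3_ds_of_ne O (Ne.symm h)]
theorem ds_le_one (P Q : PO o Ω) : ds O P Q ≤ 1 := by
  by_cases h : red O P = red O Q
  · exact (L3_ds_lt O h).le
  · exact (L3_ds_of_ne O h).le
theorem ds_lt_one_iff {P Q : PO o Ω} : ds O P Q < 1 ↔ red O P = red O Q :=
  ⟨fun h => by_contra fun h' => h.ne (L3_ds_of_ne O h'), L3_ds_lt O⟩
theorem ds_eq_one_iff {P Q : PO o Ω} : ds O P Q = 1 ↔ red O P ≠ red O Q :=
  ⟨fun h h' => (L3_ds_lt O h').ne h, L3_ds_of_ne O⟩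
theorem ds_eq_zero_iff {P Q : PO o Ω} : ds O P Q = 0 ↔ P = Q := by
  obtain ⟨C⟩ := exists_chart O (red O P)
  constructor
  · intro h
    have h1 : red O P = red O Q := (ds_lt_one_iff O).1 (by rw [h]; exact zero_lt_one)
    rw [C.ds_eq P Q rfl h1.symm, map_eq_zero] at h
    exact L3_inj C rfl h1.symm (sub_eq_zero.1 h)
  · rintro rfl
    rw [C.ds_eq P P rfl rfl, sub_self, map_zero]

theorem L3_dsD (P : PO o Ω) (D : DO o Ω) {s : Finset (PO o Ω)} (hs : D.support ⊆ s) :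
    dsD O P D = ∏ Q ∈ s, ds O P Q ^ D Q :=
  Finsupp.prod_of_support_subset D hs _ fun _ _ => zpow_zero _

theorem dsD_zero (P : PO o Ω) : dsD O P 0 = 1 := Finsupp.prod_zero_index
theorem dsD_pd (P Q : PO o Ω) : dsD O P (pd Q) = ds O P Q := by
  unfold dsD pd
  rw [Finsupp.prod_single_index (zpow_zero _), zpow_one]
theorem dsD_zsmul_pd (P Q : PO o Ω) (n : ℤ) : dsD O P (n • pd Q) = ds O P Q ^ n := by
  unfold dsD pd
  rw [Finsupp.smul_single, Finsupp.prod_single_index (zpow_zero _), smul_eq_mul, mul_one]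
theorem dsD_ne_zero {P : PO o Ω} {D : DO o Ω} (h : D P = 0) : dsD O P D ≠ 0 := by
  refine Finset.prod_ne_zero_iff.2 fun Q hQ => zpow_ne_zero _ fun h0 => ?_
  rw [← (ds_eq_zero_iff O).1 h0] at hQ
  exact Finsupp.mem_support_iff.1 hQ h
theorem dsD_add {P : PO o Ω} {D E : DO o Ω} (hD : D P = 0) (hE : E P = 0) :
    dsD O P (D + E) = dsD O P D * dsD O P E := by
  rw [L3_dsD O P (D + E) Finsupp.support_add, L3_dsD O P D Finset.subset_union_left,
    L3_dsD O P E Finset.subset_union_right, ← Finset.prod_mul_distrib]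
  refine Finset.prod_congr rfl fun Q _ => ?_
  by_cases h : P = Q
  · subst h
    rw [Finsupp.add_apply, hD, hE, add_zero, zpow_zero, one_mul]
  · exact zpow_add₀ (fun h0 => h ((ds_eq_zero_iff O).1 h0)) _ _
theorem dsD_add_of_nonneg (P : PO o Ω) {D E : DO o Ω} (hD : 0 ≤ D) (hE : 0 ≤ E) :
    dsD O P (D + E) = dsD O P D * dsD O P E := by
  rw [L3_dsD O P (D + E) Finsupp.support_add, L3_dsD O P D Finset.subset_union_left,
    L3_dsD O P E Finset.subset_union_right, ← Finset.prod_mul_distrib]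
  refine Finset.prod_congr rfl fun Q _ => ?_
  obtain ⟨a, ha⟩ := Int.eq_ofNat_of_zero_le (hD Q)
  obtain ⟨b, hb⟩ := Int.eq_ofNat_of_zero_le (hE Q)
  rw [Finsupp.add_apply, ha, hb, ← Nat.cast_add, zpow_natCast, zpow_natCast, zpow_natCast, pow_add]
theorem dsD_neg (P : PO o Ω) (D : DO o Ω) : dsD O P (-D) = (dsD O P D)⁻¹ := by
  rw [L3_dsD O P (-D) (Finsupp.support_neg D).subset, L3_dsD O P D subset_rfl,
    ← Finset.prod_inv_distrib]
  exact Finset.prod_congr rfl fun Q _ => by rw [Finsupp.neg_apply, zpow_neg]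

theorem L3_pd_nonneg (P : PO o Ω) : 0 ≤ pd P := fun Q => by
  rw [F1_pd_apply]; split_ifs <;> simp

theorem L3_dsD_sum (P : PO o Ω) {ι : Type} (s : Finset ι) (z : ι → PO o Ω) :
    dsD O P (∑ a ∈ s, pd (z a)) = ∏ a ∈ s, ds O P (z a) := by
  induction s using Finset.induction_on with
  | empty => rw [Finset.sum_empty, Finset.prod_empty, dsD_zero]
  | insert a s ha ih =>
    rw [Finset.sum_insert ha, Finset.prod_insert ha, dsD_add_of_nonneg O P (L3_pd_nonneg _)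
      (Finset.sum_nonneg fun i _ => L3_pd_nonneg _), ih, dsD_pd]

theorem dsD_dz (P : PO o Ω) {ι : Type} [Fintype ι] (z : ι → Pt o Ω) :
    dsD O P (dz z) = ∏ a, ds O P (plc (z a)) := L3_dsD_sum O P _ _

theorem L3_eff {D : DO o Ω} (h : 0 ≤ D) : ∃ (n : ℕ) (z : Fin n → PO o Ω), D = ∑ i, pd (z i) := by
  obtain ⟨n, hn⟩ := Int.eq_ofNat_of_zero_le (F1_deg_nonneg h)
  exact ⟨n, exists_eq_sum_pd h hn⟩

theorem dsD_le_one (P : PO o Ω) {D : DO o Ω} (h : 0 ≤ D) : dsD O P D ≤ 1 := by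
  obtain ⟨n, z, rfl⟩ := L3_eff h
  rw [L3_dsD_sum]
  exact Finset.prod_le_one' fun i _ => ds_le_one O _ _

theorem L3_redD_pd (P : PO o Ω) : redD O o (pd P) = pd (red O P) := Finsupp.mapDomain_single

theorem L3_redD_sum {ι : Type} [Fintype ι] (z : ι → PO o Ω) (p : PO o (RF O)) :
    redD O o (∑ i, pd (z i)) p = (Finset.univ.filter fun i => red O (z i) = p).card := by
  rw [map_sum, Finsupp.finsetSum_apply, Finset.card_filter, Nat.cast_sum]
  refine Finset.sum_congr rfl fun i _ => ?_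
  rw [L3_redD_pd, F1_pd_apply]
  split_ifs <;> simp

theorem dsD_eq_one_iff (P : PO o Ω) {D : DO o Ω} (h : 0 ≤ D) :
    dsD O P D = 1 ↔ redD O o D (red O P) = 0 := by
  obtain ⟨n, z, rfl⟩ := L3_eff h
  rw [L3_dsD_sum, L3_redD_sum, Finset.prod_eq_one_iff_of_le_one' fun i _ => ds_le_one O _ _,
    Nat.cast_eq_zero, Finset.card_eq_zero, Finset.filter_eq_empty_iff]
  refine forall₂_congr fun i _ => ?_
  rw [ds_eq_one_iff, ne_comm]

theorem redD_pd (P : PO o Ω) : redD O o (pd P) = pd (red O P) := L3_redD_pd O P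
theorem deg_redD (D : DO o Ω) : deg (redD O o D) = deg D := by
  induction D using Finsupp.induction_linear with
  | zero => rw [map_zero, deg_zero, deg_zero]
  | add f g hf hg => rw [map_add, deg_add, deg_add, hf, hg]
  | single a b =>
    have : redD O o (Finsupp.single a b) = Finsupp.single (red O a) b := Finsupp.mapDomain_single
    rw [this, deg_single, deg_single]
theorem redD_mono {D E : DO o Ω} (h : D ≤ E) : redD O o D ≤ redD O o E :=
  Finsupp.mapDomain_mono h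
theorem redD_dz {ι : Type} [Fintype ι] {z : ι → Pt o Ω} (h : ∀ a, Intg O (z a)) :
    redD O o (dz z) = dz fun a => redp O (z a) (h a) := by
  unfold dz
  rw [map_sum]
  exact Finset.sum_congr rfl fun a _ => by rw [redD_pd, red_plc O (h a)]

/-- the local factor at infinity -/
noncomputable def L3_u (p : PO o (RF O)) : F := if p = oo o (RF O) then zo o else 1

theorem L3_u_ne (p : PO o (RF O)) : L3_u O p ≠ 0 := by
  unfold L3_u; split_ifs
  · exact L3_zo_ne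
  · exact one_ne_zero

theorem L3_jF_one : jF o Ω 1 = 1 := by simpa using L3_jF_pow (o := o) (Ω := Ω) 1 0

theorem L3_u_ord {p : PO o (RF O)} (C : Chart O p) {Q : PO o Ω} (hQ : red O Q = p) :
    Q.ord (jF o Ω (L3_u O p)) = pd (oo o Ω) Q := by
  unfold L3_u
  split_ifs with h
  · have := L3_tord C (P := oo o Ω) (by rw [h, red_oo]) hQ
    rwa [(C.inf h).1, L3_ev_zo, map_zero, sub_zero] at this
  · rw [L3_jF_one, Q.ord_one, F1_pd_apply, if_neg]
    rintro rfl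
    exact h (by rw [← hQ, red_oo])

theorem L3_u_ord' (p : PO o (RF O)) : p.ord (jF o (RF O) (L3_u O p)) = pd (oo o (RF O)) p := by
  unfold L3_u
  rw [F1_pd_apply]
  by_cases h : p = oo o (RF O)
  · rw [if_pos h, if_pos h.symm, h, (oo_jF _).1, ord_zo]
  · rw [if_neg h, if_neg (Ne.symm h), L3_jF_one, p.ord_one]

theorem L3_u_ev (P : PO o Ω) : jF o Ω (L3_u O (red O P)) ∈ P.O ∧
    O.1.valuation (P.ev (jF o Ω (L3_u O (red O P)))) = ds O P (oo o Ω) := by
  obtain ⟨C⟩ := exists_chart O (red O P)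
  refine ⟨P.mem_iff.2 (by rw [L3_u_ord O C rfl]; exact L3_pd_nonneg _ _), ?_⟩
  unfold L3_u
  split_ifs with h
  · rw [C.ds_eq P _ rfl (by rw [h, red_oo]), (C.inf h).1, L3_ev_zo, sub_zero]
  · rw [L3_ds_of_ne O (by rwa [red_oo]), L3_jF_one]
    have : P.ev 1 = 1 := by simpa using P.ev_algebraMap 1
    rw [this, map_one]

theorem L3_gmem {a : AO o Ω} (haA : gvA O a ≤ 1) {n : ℕ}
    (hpn : ∀ j, (ebO o Ω).repr a j ≠ 0 → pn o j ≤ n) {p : PO o (RF O)} (C : Chart O p) :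
    algebraMap _ (FO o Ω) a * jF o Ω (L3_u O p) ^ n ∈ C.R := by
  refine L3_mem C haA fun j hj => ?_
  unfold L3_u
  split_ifs with h
  · rw [← jF_coe, ← L3_jF_pow, ← L3_jF_mul]
    refine (C.inf h).2 _ (o.mem_iff.2 ?_)
    have e0 : (eb o j : F) ≠ 0 := fun e => (eb o).ne_zero j (Subtype.ext e)
    rw [o.ord_mul e0 (pow_ne_zero _ L3_zo_ne), o.ord_pow, ord_zo, (ebSpec o).ord]
    have := hpn j hj
    omega
  · rw [L3_jF_one, one_pow, mul_one]; exact C.fin h _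

theorem L3_ne {f : FO o Ω} (hf : gv O o f = 1) : f ≠ 0 := by
  rintro rfl
  rw [map_zero] at hf
  exact zero_ne_one hf

theorem L3_gr_ne {f : FO o Ω} (hf : gv O o f = 1) : gr O f ≠ 0 :=
  fun h => ((gr_eq_zero_iff O hf.le).1 h).ne hf

theorem L3_loc {f : FO o Ω} (ha : gv O o f = 1) {n m : ℕ} {z : Fin m → PO o Ω}
    (hz : dv Ω f + (n : ℤ) • pd (oo o Ω) = ∑ i, pd (z i)) {p : PO o (RF O)} (C : Chart O p)
    (hg : f * jF o Ω (L3_u O p) ^ n ∈ C.R) : ∃ g' ∈ C.R,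
      f * jF o Ω (L3_u O p) ^ n = (∏ i ∈ Finset.univ.filter fun i => red O (z i) = p,
        (C.t - algebraMap Ω (FO o Ω) ((z i).ev C.t))) * g' ∧ gr O g' ≠ 0 ∧
      (dv (RF O) (gr O f) + (n : ℤ) • pd (oo o (RF O))) p =
        redD O o (∑ i, pd (z i)) p + p.ord (gr O g') := by
  have f0 := L3_ne O ha
  have grf := L3_gr_ne O ha
  have hu : gv O o (jF o Ω (L3_u O p)) = 1 := gv_jF O (L3_u_ne O p)
  have u0 := L3_ne O hu
  have hs : ∀ i ∈ Finset.univ.filter fun i => red O (z i) = p, red O (z i) = p :=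
    fun i hi => (Finset.mem_filter.1 hi).2
  obtain ⟨g', hg', e⟩ := L3_fac C z _ hs _ hg (mul_ne_zero f0 (pow_ne_zero _ u0)) fun Q hQ => by
    rw [Q.ord_mul f0 (pow_ne_zero _ u0), Q.ord_pow, L3_u_ord O C hQ, ← dv_apply, ← smul_eq_mul,
      ← Finsupp.smul_apply, ← Finsupp.add_apply, hz]
    exact Finset.sum_le_sum_of_subset_of_nonneg (Finset.filter_subset _ _)
      (fun i _ _ => L3_pd_nonneg (z i)) Q
  have hu' : jF o (RF O) (L3_u O p) ≠ 0 := by
    rw [← gr_jF O]; exact L3_gr_ne O hu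
  have e1 : gr O (f * jF o Ω (L3_u O p) ^ n) = gr O f * jF o (RF O) (L3_u O p) ^ n := by
    rw [gr_mul O ha.le (by rw [map_pow, hu, one_pow]), gr_pow O hu.le, gr_jF]
  obtain ⟨h1, h2⟩ := L3_ord_gr C z _ hs hg'
    (by rw [← e, e1]; exact mul_ne_zero grf (pow_ne_zero _ hu'))
  refine ⟨g', hg', e, h1, ?_⟩
  rw [← e, e1, p.ord_mul grf (pow_ne_zero _ hu'), p.ord_pow, L3_u_ord'] at h2
  rw [L3_redD_sum, ← h2, Finsupp.add_apply, Finsupp.smul_apply, dv_apply, smul_eq_mul]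

theorem L3_fin {m : ℕ} (z : Fin m → PO o Ω) {P : PO o Ω} (C : Chart O (red O P)) {g' : FO o Ω}
    (hg' : g' ∈ C.R) (h1 : gr O g' ≠ 0) (h2 : (red O P).ord (gr O g') = 0) :
    O.1.valuation (P.ev ((∏ i ∈ Finset.univ.filter fun i => red O (z i) = red O P,
        (C.t - algebraMap Ω (FO o Ω) ((z i).ev C.t))) * g')) = dsD O P (∑ i, pd (z i)) := by
  have h3 := C.ev P rfl _ hg'
  have h4 : O.1.valuation (P.ev g') = 1 := by
    refine le_antisymm ((O.1.valuation_le_one_iff _).2 h3.2.1) (not_lt.1 fun h => ?_)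
    rw [← rs_eq_zero_iff O h3.2.1, h3.2.2, Place.ev_eq_zero_iff _ (C.gv_le _ hg').2] at h
    rcases h with h | h
    · exact h1 h
    · omega
  have h5 : ∀ i ∈ Finset.univ.filter fun i => red O (z i) = red O P,
      C.t - algebraMap Ω (FO o Ω) ((z i).ev C.t) ∈ P.O :=
    fun i hi => (C.ev P rfl _ (L3_tmem C (Finset.mem_filter.1 hi).2)).1
  rw [P.ev_mul (prod_mem h5) h3.1, L3_ev_prod P _ _ h5, map_mul, h4, mul_one, map_prod,
    L3_dsD_sum, Finset.prod_filter]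
  refine Finset.prod_congr rfl fun i _ => ?_
  by_cases h : red O (z i) = red O P
  · rw [if_pos h, L3_tev C _ rfl]
    exact (C.ds_eq P _ rfl h).symm
  · rw [if_neg h]
    exact (L3_ds_of_ne O (Ne.symm h)).symm

theorem L3_key {a : AO o Ω} (ha : gv O o (algebraMap _ (FO o Ω) a) = 1) :
    ∃ n : ℕ, (oo o Ω).ord (algebraMap _ (FO o Ω) a) = -(n : ℤ) ∧
      dv (RF O) (gr O (algebraMap _ (FO o Ω) a)) = redD O o (dv Ω (algebraMap _ (FO o Ω) a)) ∧
      ∀ P : PO o Ω, algebraMap _ (FO o Ω) a * jF o Ω (L3_u O (red O P)) ^ n ∈ P.O ∧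
        O.1.valuation (P.ev (algebraMap _ (FO o Ω) a * jF o Ω (L3_u O (red O P)) ^ n)) =
          dsD O P (dv Ω (algebraMap _ (FO o Ω) a) + (n : ℤ) • pd (oo o Ω)) := by
  have a0 : a ≠ 0 := fun h => L3_ne O ha (by rw [h, map_zero])
  obtain ⟨n, hn, hpn⟩ := L3_top a0
  have haA : gvA O a ≤ 1 := by rw [← gv_AO]; exact ha.le
  have hint : ∀ P : PO o Ω, P ≠ oo o Ω → algebraMap _ (FO o Ω) a ∈ P.O := mem_range_iff.1 ⟨a, rfl⟩
  have hg := fun p (C : Chart O p) => L3_gmem O haA hpn C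
  generalize algebraMap _ (FO o Ω) a = f at ha hn hint hg ⊢
  have hZ : 0 ≤ dv Ω f + (n : ℤ) • pd (oo o Ω) := fun P => by
    rw [Finsupp.add_apply, Finsupp.smul_apply, dv_apply, F1_pd_apply, smul_eq_mul]
    split_ifs with h
    · rw [← h, hn]; simp
    · simpa using P.mem_iff.1 (hint P (Ne.symm h))
  obtain ⟨m, z, hz⟩ := L3_eff hZ
  have hle : redD O o (∑ i, pd (z i)) ≤
      dv (RF O) (gr O f) + (n : ℤ) • pd (oo o (RF O)) := fun p => by
    obtain ⟨C⟩ := exists_chart O p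
    obtain ⟨g', hg', -, -, e⟩ := L3_loc O ha hz C (hg p C)
    rw [e]
    exact le_add_of_nonneg_right (p.mem_iff.1 (C.gv_le _ hg').2)
  have heq := eq_of_le_of_deg_le hle (by
    rw [deg_redD, ← hz, deg_add, deg_add, deg_dv, deg_dv, deg_zsmul, deg_zsmul, deg_pd, deg_pd])
  refine ⟨n, hn, ?_, fun P => ?_⟩
  · rw [← hz, map_add, map_zsmul, redD_pd, red_oo] at heq
    exact (add_right_cancel heq).symm
  · obtain ⟨C⟩ := exists_chart O (red O P)
    obtain ⟨g', hg', e, h1, h2⟩ := L3_loc O ha hz C (hg _ C)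
    rw [heq, left_eq_add] at h2
    refine ⟨(C.ev P rfl _ (hg _ C)).1, ?_⟩
    rw [e, hz]
    exact L3_fin O z C hg' h1 h2

theorem L3_frac {f : FO o Ω} (hf : gv O o f = 1) {a b : AO o Ω} (hb : b ≠ 0)
    (h : f * algebraMap _ (FO o Ω) b = algebraMap _ (FO o Ω) a) :
    ∃ a' b' : AO o Ω, gv O o (algebraMap _ (FO o Ω) a') = 1 ∧ gv O o (algebraMap _ (FO o Ω) b') = 1 ∧
      f * algebraMap _ (FO o Ω) b' = algebraMap _ (FO o Ω) a' ∧
      ∀ P : PO o Ω, P.ord (algebraMap _ (FO o Ω) b') = P.ord (algebraMap _ (FO o Ω) b) := by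
  have b0 : algebraMap _ (FO o Ω) b ≠ 0 :=
    (map_ne_zero_iff _ (IsFractionRing.injective (AO o Ω) (FO o Ω))).2 hb
  obtain ⟨c, c0, hc⟩ := exists_smul_gv_eq_one O b0
  have e : ∀ x : AO o Ω, algebraMap _ (FO o Ω) (c • x) = c • algebraMap _ (FO o Ω) x := fun x => by
    rw [L3_smul]; exact (Algebra.smul_def c _).symm
  have e2 : f * algebraMap _ (FO o Ω) (c • b) = algebraMap _ (FO o Ω) (c • a) := by
    rw [L3_smul, L3_smul, ← h]; ring
  refine ⟨c • a, c • b, ?_, by rw [e, hc], e2, fun P => by rw [e, P.ord_smul c0]⟩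
  rw [← e2, map_mul, hf, e, hc, one_mul]

theorem L3_div (f : FO o Ω) : ∃ a b : AO o Ω, b ≠ 0 ∧
    f * algebraMap _ (FO o Ω) b = algebraMap _ (FO o Ω) a := by
  obtain ⟨a, b, hb, rfl⟩ := IsFractionRing.div_surjective (A := AO o Ω) f
  have b0 := nonZeroDivisors.ne_zero hb
  exact ⟨a, b, b0, div_mul_cancel₀ _
    ((map_ne_zero_iff _ (IsFractionRing.injective (AO o Ω) (FO o Ω))).2 b0)⟩

/-- the divisor of the residue -/
theorem dv_gr {f : FO o Ω} (hf : gv O o f = 1) : dv (RF O) (gr O f) = redD O o (dv Ω f) := by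
  obtain ⟨a, b, hb, h⟩ := L3_div f
  obtain ⟨a', b', ha', hb', e, -⟩ := L3_frac O hf hb h
  obtain ⟨_, -, h1, -⟩ := L3_key O ha'
  obtain ⟨_, -, h2, -⟩ := L3_key O hb'
  rw [← e, gr_mul O hf.le hb'.le, dv_mul (L3_gr_ne O hf) (L3_gr_ne O hb'),
    dv_mul (L3_ne O hf) (L3_ne O hb'), map_add, h2] at h1
  exact add_right_cancel h1

theorem L3_val {f : FO o Ω} (hf : gv O o f = 1) {P : PO o Ω} (hP : P.ord f = 0) :
    O.1.valuation (P.ev f) = dsD O P (dv Ω f) := by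
  have hfP : f ∈ P.O := P.mem_iff.2 hP.ge
  obtain ⟨a, b, hb, h, hbP⟩ : ∃ a b : AO o Ω, b ≠ 0 ∧
      f * algebraMap _ (FO o Ω) b = algebraMap _ (FO o Ω) a ∧
      (P ≠ oo o Ω → P.ord (algebraMap _ (FO o Ω) b) = 0) := by
    rcases eq_oo_or_plc P with h | ⟨y, rfl⟩
    · obtain ⟨a, b, hb, h'⟩ := L3_div f
      exact ⟨a, b, hb, h', fun h'' => absurd h h''⟩
    · obtain ⟨a, b, hb, h'⟩ := exists_div_plc y hfP
      refine ⟨a, b, fun e => hb (by rw [e, map_zero]), h', fun _ => ?_⟩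
      have h1 := plc_spec y b
      have h2 := (plc y).mem_iff.1 h1.1
      by_contra h3
      exact hb (h1.2.symm.trans (((plc y).ev_eq_zero_iff h1.1).2 (Or.inr (by omega))))
  obtain ⟨a', b', ha', hb', e, hord⟩ := L3_frac O hf hb h
  obtain ⟨n, hn, -, h1⟩ := L3_key O ha'
  obtain ⟨m, hm, -, h2⟩ := L3_key O hb'
  obtain ⟨hA, h1⟩ := h1 P
  obtain ⟨hB, h2⟩ := h2 P
  obtain ⟨hu, h3⟩ := L3_u_ev O P
  rw [← hord] at hbP
  generalize algebraMap _ (FO o Ω) a' = A at *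
  generalize algebraMap _ (FO o Ω) b' = B at *
  generalize jF o Ω (L3_u O (red O P)) = u at *
  have eo : ∀ Q : PO o Ω, Q.ord A = Q.ord f + Q.ord B := fun Q => by
    rw [← e, Q.ord_mul (L3_ne O hf) (L3_ne O hb')]
  have ed : dv Ω A = dv Ω f + dv Ω B := by rw [← e, dv_mul (L3_ne O hf) (L3_ne O hb')]
  have hfz : dv Ω f P = 0 := by rw [dv_apply, hP]
  have hBz : (dv Ω B + (m : ℤ) • pd (oo o Ω)) P = 0 := by
    rw [Finsupp.add_apply, Finsupp.smul_apply, dv_apply, F1_pd_apply, smul_eq_mul]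
    split_ifs with h'
    · rw [← h', hm]; simp
    · rw [hbP (Ne.symm h')]; simp
  by_cases hoo : P = oo o Ω
  · have hnm : n = m := by
      have := eo P
      rw [hP, hoo, hn, hm] at this
      omega
    subst hnm
    rw [← e, mul_assoc, P.ev_mul hfP hB, map_mul, h2, e, ed, add_assoc, dsD_add O hfz hBz] at h1
    exact mul_right_cancel₀ (dsD_ne_zero O hBz) h1
  · have hk : ∀ k : ℕ, ((k : ℤ) • pd (oo o Ω)) P = 0 := fun k => by
      rw [Finsupp.smul_apply, F1_pd_apply, if_neg (Ne.symm hoo), smul_zero]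
    have hBz' : dv Ω B P = 0 := by rw [dv_apply, hbP hoo]
    have hAz : dv Ω A P = 0 := by rw [ed, Finsupp.add_apply, hfz, hBz', add_zero]
    have hBP : B ∈ P.O := P.mem_iff.2 (hbP hoo).ge
    have d0 : ds O P (oo o Ω) ≠ 0 := fun h0 => hoo ((ds_eq_zero_iff O).1 h0)
    rw [dsD_add O hBz' (hk m), dsD_zsmul_pd, zpow_natCast, P.ev_mul hBP (pow_mem hu m), map_mul,
      L3_ev_pow P hu, map_pow, h3] at h2
    rw [dsD_add O hAz (hk n), dsD_zsmul_pd, zpow_natCast, ed, ← e,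
      P.ev_mul (mul_mem hfP hBP) (pow_mem hu n), map_mul, L3_ev_pow P hu, map_pow, h3,
      P.ev_mul hfP hBP, map_mul, mul_right_cancel₀ (pow_ne_zero _ d0) h2,
      dsD_add O hfz hBz'] at h1
    exact mul_right_cancel₀ (dsD_ne_zero O hBz') (mul_right_cancel₀ (pow_ne_zero _ d0) h1)

/-- values of a function in terms of distances -/
theorem val_ev {f : FO o Ω} (hf : f ≠ 0) {P : PO o Ω} (hP : P.ord f = 0) :
    O.1.valuation (P.ev f) = gv O o f * dsD O P (dv Ω f) := by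
  obtain ⟨c, c0, hc⟩ := exists_smul_gv_eq_one O hf
  have h := L3_val O hc (P := P) (by rw [P.ord_smul c0, hP])
  have ed : dv Ω (c • f) = dv Ω f := by
    ext Q; rw [dv_apply, dv_apply, Q.ord_smul c0]
  rw [ed, P.ev_smul c (P.mem_iff.2 hP.ge), map_mul] at h
  rw [gv_smul] at hc
  rw [← h, ← mul_assoc, mul_comm (gv O o f), hc, one_mul]

theorem val_ev_mul {D : DO o Ω} {f : FO o Ω} (hf : f ∈ LL D) (hf0 : f ≠ 0) {P : PO o Ω}
    (hP : D P = 0) :
    O.1.valuation (P.ev f) * dsD O P D = gv O o f * dsD O P (D + dv Ω f) := by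
  have h1 := (mem_LL.1 hf).resolve_left hf0 P
  rw [hP, neg_zero] at h1
  rcases h1.eq_or_lt with h | h
  · rw [val_ev O hf0 h.symm, dsD_add O hP (by rw [dv_apply, h]), mul_assoc, mul_comm (dsD O P D)]
  · have h2 : (D + dv Ω f) P ≠ 0 := by rw [Finsupp.add_apply, hP, dv_apply]; omega
    have h3 : dsD O P (D + dv Ω f) = 0 :=
      Finset.prod_eq_zero (Finsupp.mem_support_iff.2 h2)
        (by beta_reduce; rw [(ds_eq_zero_iff O).2 rfl, zero_zpow _ h2])
    rw [(P.ev_eq_zero_iff (P.mem_iff.2 h1)).2 (Or.inr h), h3, map_zero, zero_mul, mul_zero]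

theorem gr_mem_LL {D : DO o Ω} {f : FO o Ω} (hf : f ∈ LL D) (h1 : gv O o f ≤ 1) :
    gr O f ∈ LL (redD O o D) := by
  by_cases h : gr O f = 0
  · rw [h]; exact zero_mem _
  · have h2 : gv O o f = 1 := le_antisymm h1 (not_lt.1 fun h' => h ((gr_eq_zero_iff O h1).2 h'))
    rw [mem_LL_iff h, dv_gr O h2, ← map_add, ← map_zero (redD O o)]
    exact redD_mono O ((mem_LL_iff (L3_ne O h2)).1 hf)

end Pool.Agent.E6b
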