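import Pool.Agent.E6b.L3

open scoped NNReal TensorProduct IntermediateField BigOperators Classical Topology
open Filter

namespace Pool.Agent.E6b

variable {κ F : Type} [Field κ] [IsAlgClosed κ] [CharZero κ] [Field F] [Algebra κ F] [IsFF κ F]
  {o : Place κ F} {Ω : Type} [Field Ω] [IsAlgClosed Ω] [CharZero Ω] [Algebra κ Ω] (O : VS κ Ω)

theorem L4_basis (D : DO o Ω) : ∃ b : Fin (ell D) → FO o Ω, ∃ h : ∀ i, gr O (b i) ∈ LL (redD O o D),
    (∀ i, b i ∈ LL D ∧ gv O o (b i) = 1) ∧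
      LinearIndependent (RF O) fun i => (⟨gr O (b i), h i⟩ : LL (redD O o D)) := by
  obtain ⟨b, hb, hi⟩ := exists_gbasis O (LL D)
  exact ⟨b, fun i => gr_mem_LL O (hb i).1 (hb i).2.le, hb,
    LinearIndependent.of_comp (LL (redD O o D)).subtype hi⟩

theorem L4_gv_eq_one {f : FO o Ω} (h : gv O o f ≤ 1) (h0 : gr O f ≠ 0) : gv O o f = 1 :=
  h.antisymm (not_lt.1 fun h1 => h0 ((gr_eq_zero_iff O h).2 h1))

theorem L4_one_le {E : DO o Ω} (hE : 0 ≤ E) {P : PO o Ω} (hP : E P ≠ 0) :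
    1 ≤ redD O o E (red O P) := by
  have h1 : pd P ≤ E := fun Q => by
    have h2 : (0 : ℤ) ≤ E Q := hE Q
    rw [F1_pd_apply]
    split_ifs with h
    · subst h; omega
    · exact h2
  have h2 := redD_mono O h1 (red O P)
  rwa [redD_pd, F1_pd_apply, if_pos rfl] at h2

theorem L4_dz_ne {K : Type} [Field K] [IsAlgClosed K] [CharZero K] [Algebra κ K] {ι : Type}
    [Fintype ι] (z : ι → Pt o K) (a : ι) : dz z (plc (z a)) ≠ 0 := by
  rw [dz_apply, Nat.cast_ne_zero, Finset.card_ne_zero]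
  exact ⟨a, Finset.mem_filter.2 ⟨Finset.mem_univ a, rfl⟩⟩

theorem ell_le_red (D : DO o Ω) : ell D ≤ ell (redD O o D) := by
  obtain ⟨b, hm, -, hb⟩ := L4_basis O D
  have h := hb.fintype_card_le_finrank
  rwa [Fintype.card_fin] at h

theorem exists_lift_LL {D : DO o Ω} (h : ell (redD O o D) ≤ ell D) {f : FO o (RF O)}
    (hf : f ∈ LL (redD O o D)) : ∃ f' ∈ LL D, gv O o f' ≤ 1 ∧ gr O f' = f := by
  obtain ⟨b, hm, hb, hi⟩ := L4_basis O D
  have hs := hi.span_eq_top_of_card_eq_finrank'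
    (by rw [Fintype.card_fin]; exact (ell_le_red O D).antisymm h)
  have hf' : (⟨f, hf⟩ : LL (redD O o D)) ∈ Submodule.span (RF O)
      (Set.range fun i => (⟨gr O (b i), hm i⟩ : LL (redD O o D))) := by
    rw [hs]; trivial
  obtain ⟨c, hc⟩ := (Submodule.mem_span_range_iff_exists_fun _).1 hf'
  choose x hx hxc using fun i => rs_surj O (c i)
  have h1 : ∀ i, gv O o (x i • b i) ≤ 1 := fun i => by
    rw [gv_smul, (hb i).2, mul_one]
    exact (O.1.valuation_le_one_iff _).2 (hx i)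
  refine ⟨∑ i, x i • b i, Submodule.sum_mem _ fun i _ => Submodule.smul_mem _ _ (hb i).1,
    Valuation.map_sum_le _ fun i _ => h1 i, ?_⟩
  rw [gr_sum O _ fun i _ => h1 i]
  have h2 := congrArg Subtype.val hc
  rw [Submodule.coe_sum] at h2
  refine Eq.trans (Finset.sum_congr rfl fun i _ => ?_) h2
  rw [gr_smul O (hx i) (hb i).2.le, hxc]
  rfl

theorem linEq_redD {D E : DO o Ω} (h : LinEq D E) : LinEq (redD O o D) (redD O o E) := by
  obtain ⟨f, hf, rfl⟩ := h
  obtain ⟨c, hc, h1⟩ := exists_smul_gv_eq_one O hf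
  refine ⟨gr O (c • f), fun h0 => ((gr_eq_zero_iff O h1.le).1 h0).ne h1, ?_⟩
  rw [dv_gr O h1, map_add, Algebra.smul_def,
    dv_mul ((map_ne_zero (algebraMap Ω (FO o Ω))).2 hc) hf, dv_algebraMap, zero_add]

theorem prin_le_redD : prin o Ω ≤ (prin o (RF O)).comap (redD O o) := by
  rintro D ⟨k, hk⟩
  refine ⟨k, ?_⟩
  have h := linEq_redD O hk
  rwa [map_zsmul, redD_pd, red_oo] at h

/-- reduction of classes -/
noncomputable def redCl (o : Place κ F) : Cl o Ω →+ Cl o (RF O) :=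
  QuotientAddGroup.map _ _ (redD O o) (prin_le_redD O)

theorem redCl_clD (D : DO o Ω) : redCl O o (clD o Ω D) = clD o (RF O) (redD O o D) := by
  rfl
theorem redCl_cl {y : Pt o Ω} (h : Intg O y) : redCl O o (cl y) = cl (redp O y h) := by
  rw [cl, redCl_clD, redD_pd, red_plc O h, cl]
theorem redCl_cl_of_not {y : Pt o Ω} (h : ¬ Intg O y) : redCl O o (cl y) = 0 := by
  rw [cl, redCl_clD, redD_pd, red_plc_of_not O h, clD_oo]
theorem redCl_cl_congr {y y' : Pt o Ω} (h : red O (plc y) = red O (plc y')) :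
    redCl O o (cl y) = redCl O o (cl y') := by
  rw [cl, cl, redCl_clD, redCl_clD, redD_pd, redD_pd, h]
theorem redCl_clz {ι : Type} [Fintype ι] {z : ι → Pt o Ω} (h : ∀ a, Intg O (z a)) :
    redCl O o (clz z) = clz fun a => redp O (z a) (h a) := by
  rw [clz, redCl_clD, redD_dz O h, clz]
theorem ellC_le_red (m : ℤ) (w : Cl o Ω) : ellC m w ≤ ellC m (redCl O o w) := by
  obtain ⟨D, rfl⟩ := clD_surj w
  rw [redCl_clD, ellC_clD, ellC_clD, deg_redD]
  have h := ell_le_red O (D + (m - deg D) • pd (oo o Ω))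
  rwa [map_add, map_zsmul, redD_pd, red_oo] at h
theorem th_of_red {w : Cl o Ω} (h : Th (redCl O o w)) : Th w := by
  have h1 := ellC_le_red O ((genus κ F : ℤ) - 1) (-w)
  rw [map_neg, show ellC _ (-redCl O o w) = 0 from h] at h1
  exact Nat.le_zero.1 h1
theorem red_surj : Function.Surjective (red O : PO o Ω → PO o (RF O)) := by
  intro p
  obtain ⟨f, hf, hp⟩ := p.exists_ord_eq 1
  obtain ⟨f', h1, rfl⟩ := gr_surj O f
  have h2 := DFunLike.congr_fun (dv_gr O (L4_gv_eq_one O h1 hf)) p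
  rw [dv_apply, hp] at h2
  by_contra hn
  have h3 : redD O o (dv Ω f') p = 0 := Finsupp.mapDomain_of_notMem_range _ _ hn
  rw [h3] at h2
  exact one_ne_zero h2

section
variable {K : Type} [Field K] [IsAlgClosed K] [CharZero K] [Algebra κ K] (τ : K →ₐ[κ] Ω)

theorem intg_comp (h : ∀ c, τ c ∈ O.1) (y : Pt o K) : Intg O (τ.comp y) := fun a => h (y a)

theorem redp_comp (h : ∀ c, τ c ∈ O.1) (y : Pt o K) :
    redp O (τ.comp y) (intg_comp O τ h y) = (resH O τ h).comp y := rfl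

theorem red_bc (h : ∀ c, τ c ∈ O.1) (P : PO o K) :
    red O ((bc o τ).plc P) = (bc o (resH O τ h)).plc P := by
  rcases eq_oo_or_plc P with rfl | ⟨y, rfl⟩
  · rw [BC.plc_oo, BC.plc_oo, red_oo]
  · rw [BC.plc_plc, BC.plc_plc, bc_pt, bc_pt, red_plc O (intg_comp O τ h y), redp_comp]

theorem redCl_bc (h : ∀ c, τ c ∈ O.1) (w : Cl o K) :
    redCl O o ((bc o τ).cl w) = (bc o (resH O τ h)).cl w := by
  obtain ⟨D, rfl⟩ := clD_surj w
  rw [BC.cl_clD, BC.cl_clD, redCl_clD]
  congr 1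
  change Finsupp.mapDomain (red O) (Finsupp.mapDomain (bc o τ).plc D) =
    Finsupp.mapDomain (bc o (resH O τ h)).plc D
  rw [← Finsupp.mapDomain_comp]
  congr 1
  exact funext fun P => red_bc O τ h P

/-- a point which is not defined over `K` specialises to every point over `K` -/
theorem exists_spec {y : Pt o Ω} (hy : y ∉ Set.range (bc o τ).pt) (p : Pt o K) :
    ∃ O : VS κ Ω, (∀ c, τ c ∈ O.1) ∧ red O (plc y) = red O (plc (τ.comp p)) := by
  obtain ⟨-, hinj⟩ := injective_of_notMem_range τ hy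
  generalize hL : (Algebra.TensorProduct.lift τ y fun _ _ => Commute.all _ _) = L at hinj
  have hL' : ∀ (c : K) (a : AA o), L (c ⊗ₜ[κ] a) = τ c * y a := fun c a => by
    rw [← hL, Algebra.TensorProduct.lift_tmul]
  obtain ⟨O, h1, h2⟩ := exists_vs_dom L.range
    (((evA p).restrictScalars κ).comp (AlgEquiv.ofInjective L hinj).symm.toAlgHom)
  have h3 : ∀ x, L x ∈ O.1 := fun x => h1 (AlgEquiv.ofInjective L hinj x)
  have h4 : ∀ x, evA p x = 0 → O.1.valuation (L x) < 1 := fun x hx => by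
    refine (h2 (AlgEquiv.ofInjective L hinj x)).2 ?_
    change evA p ((AlgEquiv.ofInjective L hinj).symm (AlgEquiv.ofInjective L hinj x)) = 0
    rw [AlgEquiv.symm_apply_apply, hx]
  have hτ : ∀ c, τ c ∈ O.1 := fun c => by
    have := h3 (c ⊗ₜ[κ] 1)
    rwa [hL', map_one, mul_one] at this
  have hy' : Intg O y := fun a => by
    have := h3 (1 ⊗ₜ[κ] a)
    rwa [hL', map_one, one_mul] at this
  refine ⟨O, hτ, ?_⟩
  rw [red_plc O hy', red_plc O (intg_comp O τ hτ p)]
  congr 1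
  ext a
  change rs O (y a) = rs O (τ (p a))
  have h5 := h4 (1 ⊗ₜ[κ] a - p a ⊗ₜ[κ] 1) (by
    rw [map_sub, evA_tmul, evA_tmul, map_one, one_mul, mul_one, sub_self])
  rw [map_sub, hL', hL', map_one, map_one, one_mul, mul_one] at h5
  have h6 : y a - τ (p a) ∈ O.1 := O.1.toSubring.sub_mem (hy' a) (hτ _)
  have h7 := rs_add O h6 (hτ (p a))
  rwa [sub_add_cancel, (rs_eq_zero_iff O h6).2 h5, zero_add] at h7

end

/-- a representative with good reduction -/
theorem exists_good_lift (w : Cl o Ω) (ι : Type) [Fintype ι] (hι : 2 * genus κ F ≤ Fintype.card ι)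
    {T : Set (Pt o (RF O))} (hT : T.Finite) :
    ∃ (z : ι → Pt o Ω) (h : ∀ a, Intg O (z a)), clz z = w ∧
      (Function.Injective fun a => redp O (z a) (h a)) ∧ ∀ a, redp O (z a) (h a) ∉ T := by
  obtain ⟨D₀, rfl⟩ := clD_surj w
  obtain ⟨D, hD, hdeg⟩ : ∃ D : DO o Ω, clD o Ω D = clD o Ω D₀ ∧ deg D = Fintype.card ι := by
    refine ⟨D₀ + ((Fintype.card ι : ℤ) - deg D₀) • pd (oo o Ω), ?_, ?_⟩
    · rw [map_add, map_zsmul, clD_oo, smul_zero, add_zero]
    · rw [deg_add, deg_zsmul, deg_pd, mul_one, add_sub_cancel]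
  have hι' : 2 * (genus κ F : ℤ) ≤ Fintype.card ι := by exact_mod_cast hι
  have hdeg' : deg (redD O o D) = Fintype.card ι := by rw [deg_redD, hdeg]
  have e1 := rr_large (D := D) (by rw [genus_FO, hdeg]; omega)
  have e2 := rr_large (D := redD O o D) (by rw [genus_FO, hdeg']; omega)
  rw [genus_FO, hdeg] at e1
  rw [genus_FO, hdeg', ← e1] at e2
  have hb : BPF (redD O o D) := bpf_of_large (by rw [genus_FO, hdeg']; exact hι')
  obtain ⟨S, hS, f, hf, hSf⟩ := hb.exists_reduced (insert (oo o (RF O)) (hT.toFinset.image plc))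
  have hS0 : (0 : DO o (RF O)) ≤ ind S := fun P => by
    rw [ind_apply]
    split_ifs
    · exact zero_le_one
    · exact le_rfl
  obtain ⟨f', hf', h1, rfl⟩ := exists_lift_LL O (Nat.cast_injective e2).le
    ((mem_LL_iff hf).2 (hSf ▸ hS0))
  have h2 := L4_gv_eq_one O h1 hf
  have h0 : f' ≠ 0 := fun h => by
    rw [h, map_zero] at h2
    exact zero_ne_one h2
  have hE := (mem_LL_iff h0).1 hf'
  have hred : redD O o (D + dv Ω f') = ind S := by rw [map_add, ← dv_gr O h2, hSf]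
  have hout : ∀ P ∈ insert (oo o (RF O)) (hT.toFinset.image plc), ind S P = 0 := fun P hP => by
    rw [ind_apply, if_neg (Finset.disjoint_right.1 hS hP)]
  have hinf : ∀ P : PO o Ω, red O P = oo o (RF O) → (D + dv Ω f') P = 0 := fun P hP => by
    by_contra hn
    have h3 := L4_one_le O hE hn
    rw [hred, hP, hout _ (Finset.mem_insert_self _ _)] at h3
    exact absurd h3 (by norm_num)
  obtain ⟨z, hz⟩ := exists_dz (ι := ι) hE (hinf _ (red_oo O))
    (by rw [deg_add, deg_dv, add_zero, hdeg])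
  have hint : ∀ a, Intg O (z a) := fun a => by
    by_contra hn
    exact L4_dz_ne z a (by rw [hz]; exact hinf _ (red_plc_of_not O hn))
  have hz' : (dz fun a => redp O (z a) (hint a)) = ind S := by rw [← redD_dz O hint, hz, hred]
  refine ⟨z, hint, ?_, injective_of_dz_le_one fun P => ?_, fun a ha => ?_⟩
  · rw [clz, hz, map_add, clD_dv, add_zero, hD]
  · rw [hz', ind_apply]
    split_ifs
    · exact le_rfl
    · exact zero_le_one
  · refine L4_dz_ne (fun a => redp O (z a) (hint a)) a ?_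
    rw [hz']
    exact hout _ (Finset.mem_insert_of_mem (Finset.mem_image_of_mem _ (hT.mem_toFinset.2 ha)))

end Pool.Agent.E6b
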