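import Pool.Agent.E6b.L4

open scoped NNReal TensorProduct IntermediateField BigOperators Classical Topology
open Filter

namespace Pool.Agent.E6b

theorem L5_lin {K V : Type} [Field K] [AddCommGroup V] [Module K V] {U W : Submodule K V}
    (hUW : U ≤ W) {n : ℕ} (g : Fin (n + 1) → V) (i₀ : Fin (n + 1)) (r : Fin n → K)
    (hg' : ∀ j, g (i₀.succAbove j) - r j • g i₀ ∈ W) (hg : g i₀ ∉ W) :
    (∀ c : Fin n → K, ∑ j, c j • (g (i₀.succAbove j) - r j • g i₀) ∈ U → c = 0) ↔
      ∀ c : Fin (n + 1) → K, ∑ i, c i • g i ∈ U → c = 0 := by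
  have key : ∀ c : Fin (n + 1) → K, ∑ i, c i • g i =
      (c i₀ + ∑ j, c (i₀.succAbove j) * r j) • g i₀ +
        ∑ j, c (i₀.succAbove j) • (g (i₀.succAbove j) - r j • g i₀) := by
    intro c
    rw [Fin.sum_univ_succAbove _ i₀, add_smul, Finset.sum_smul, add_assoc,
      ← Finset.sum_add_distrib]
    congr 1
    refine Finset.sum_congr rfl fun j _ => ?_
    rw [smul_sub, mul_smul]
    abel
  constructor
  · intro h c hc
    rw [key] at hc
    have ht : c i₀ + ∑ j, c (i₀.succAbove j) * r j = 0 := by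
      by_contra ht
      apply hg
      have h1 := W.sub_mem (hUW hc) (W.sum_mem fun j (_ : j ∈ Finset.univ) =>
        W.smul_mem (c (i₀.succAbove j)) (hg' j))
      rw [add_sub_cancel_right] at h1
      exact (W.smul_mem_iff ht).1 h1
    rw [ht, zero_smul, zero_add] at hc
    have h2 : ∀ j, c (i₀.succAbove j) = 0 := fun j => congrFun (h _ hc) j
    simp only [h2, zero_mul, Finset.sum_const_zero, add_zero] at ht
    funext i
    rcases Fin.eq_self_or_eq_succAbove i₀ i with rfl | ⟨j, rfl⟩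
    · exact ht
    · exact h2 j
  · intro h c hc
    have h1 := h (i₀.insertNth (-∑ j, c j * r j) c) (by
      rw [key]
      simpa only [Fin.insertNth_apply_same, Fin.insertNth_apply_succAbove, neg_add_cancel,
        zero_smul, zero_add] using hc)
    funext j
    have h2 := congrFun h1 (i₀.succAbove j)
    rwa [Fin.insertNth_apply_succAbove] at h2

theorem L5_ord {Γ : Type} [LinearOrderedCommGroupWithZero Γ] {y x q π : Γ} (hy : y ≤ 1)
    (hx : x ^ 2 ≤ q) (hq : q ≠ 0) (hπ : π ≠ 0) :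
    (y * x * π) ^ 2 ≤ q * π ^ 2 ∧ ((y * x * π) ^ 2 = q * π ^ 2 ↔ y = 1 ∧ x ^ 2 = q) := by
  have h1 : y ^ 2 ≤ 1 := pow_le_one₀ zero_le hy
  rw [mul_pow, mul_pow]
  refine ⟨mul_le_mul_left ((mul_le_mul' h1 hx).trans_eq (one_mul q)) _, ?_⟩
  rw [mul_left_inj' (pow_ne_zero 2 hπ)]
  refine ⟨fun h => ?_, fun h => by rw [h.1, h.2, one_pow, one_mul]⟩
  have h2 : y = 1 := by
    by_contra h3
    have h4 : y ^ 2 < 1 := pow_lt_one₀ zero_le (lt_of_le_of_ne hy h3) two_ne_zero
    have h5 : y ^ 2 * x ^ 2 ≤ y ^ 2 * q := mul_le_mul_right hx _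
    have h6 : y ^ 2 * q < 1 * q := mul_lt_mul_of_pos_right h4 (zero_lt_iff.2 hq)
    rw [one_mul] at h6
    exact absurd h (h5.trans_lt h6).ne
  rw [h2, one_pow, one_mul] at h
  exact ⟨h2, h⟩

theorem L5_detstep {K : Type} [Field K] {n : ℕ} (M : Matrix (Fin (n + 1)) (Fin (n + 1)) K)
    (i₀ : Fin (n + 1)) (c : Fin (n + 1) → K) (hc : ∀ i, M 0 i = c i * M 0 i₀) :
    M.det = (-1) ^ (i₀ : ℕ) * M 0 i₀ * (Matrix.of fun a j : Fin n =>
      M a.succ (i₀.succAbove j) - c (i₀.succAbove j) * M a.succ i₀).det := by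
  let c' : Fin (n + 1) → K := fun i => if i = i₀ then 0 else c i
  let B : Matrix (Fin (n + 1)) (Fin (n + 1)) K := Matrix.of fun i a => M a i - c' i * M a i₀
  have h0 : c' i₀ = 0 := if_pos rfl
  have h1 : M.transpose.det = B.det := Matrix.det_eq_of_forall_row_eq_smul_add_const c' i₀ h0
    fun i a => by simp [B, h0]
  rw [← Matrix.det_transpose, h1, Matrix.det_succ_column_zero, Finset.sum_eq_single i₀]
  · rw [← Matrix.det_transpose]
    congr 2
    · simp [B, h0]
    · ext a j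
      simp [B, c']
  · intro i _ hi
    have : B i 0 = 0 := by simp [B, c', hi, hc i]
    rw [this, mul_zero, zero_mul]
  · simp

section
variable {κ F : Type} [Field κ] [IsAlgClosed κ] [CharZero κ] [Field F] [Algebra κ F] [IsFF κ F]

theorem L5_mem {D : Dv κ F} {P : Place κ F} (hP : D P = 0) {g : F} (hg : g ∈ LL D) : g ∈ P.O := by
  rcases mem_LL.1 hg with rfl | h
  · exact P.O.zero_mem
  · have := h P
    rw [hP, neg_zero] at this
    exact P.mem_iff.2 this

omit [IsAlgClosed κ] [CharZero κ] [IsFF κ F] in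
theorem L5_pd_nonneg (P : Place κ F) : 0 ≤ pd P := fun Q => by
  rw [F1_pd_apply]
  split_ifs <;> simp

omit [IsAlgClosed κ] [CharZero κ] [IsFF κ F] in
theorem L5_sum_nonneg {ι : Type} [Fintype ι] (z : ι → Place κ F) : 0 ≤ ∑ a, pd (z a) :=
  Finset.sum_nonneg fun a _ => L5_pd_nonneg (z a)

theorem L5_mem_sub {ι : Type} [Fintype ι] {D : Dv κ F} {z : ι → Place κ F}
    (hz : Function.Injective z) (hD : ∀ a, D (z a) = 0) {g : F} (hg : g ∈ LL D) :
    g ∈ LL (D - ∑ a, pd (z a)) ↔ ∀ a, (z a).ev g = 0 := by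
  have h1 : ∀ b, (D - ∑ a, pd (z a)) (z b) = -1 := fun b => by
    rw [Finsupp.sub_apply, Finsupp.finsetSum_apply, hD, Finset.sum_eq_single b]
    · simp [F1_pd_apply]
    · intro a _ ha
      rw [F1_pd_apply, if_neg fun h => ha (hz h)]
    · simp
  by_cases h0 : g = 0
  · subst h0
    exact ⟨fun _ a => F1a_ev_zero _, fun _ => Submodule.zero_mem _⟩
  constructor
  · intro h a
    have := (mem_LL.1 h).resolve_left h0 (z a)
    rw [h1] at this
    exact ((z a).ev_eq_zero_iff (L5_mem (hD a) hg)).2 (Or.inr (by omega))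
  · intro h
    refine mem_LL.2 (Or.inr fun P => ?_)
    by_cases hP : ∃ a, z a = P
    · obtain ⟨a, rfl⟩ := hP
      have := (((z a).ev_eq_zero_iff (L5_mem (hD a) hg)).1 (h a)).resolve_left h0
      rw [h1]
      omega
    · rw [Finsupp.sub_apply, Finsupp.finsetSum_apply, Finset.sum_eq_zero fun a _ => by
        rw [F1_pd_apply, if_neg fun h => hP ⟨a, h⟩], sub_zero]
      exact (mem_LL.1 hg).resolve_left h0 P

theorem L5_mem_pd {D : Dv κ F} {P : Place κ F} (hD : D P = 0) {g : F} (hg : g ∈ LL D)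
    (h : P.ev g = 0) : g ∈ LL (D - pd P) := by
  have := (L5_mem_sub (z := fun _ : Unit => P) (fun _ _ _ => rfl) (fun _ => hD) hg).2 fun _ => h
  simpa using this

theorem L5_dep {E G : Dv κ F} (hG : 0 ≤ G) {n : ℕ} (hn : deg G = n) (g : Fin (n + 1) → F)
    (hg : ∀ i, g i ∈ LL E) : ¬ ∀ c : Fin (n + 1) → κ, ∑ i, c i • g i ∈ LL (E - G) → c = 0 := by
  intro h
  have hle : LL (E - G) ≤ LL E := LL_mono (sub_le_self E hG)
  let U : Submodule κ (LL E) := (LL (E - G)).comap (LL E).subtype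
  have h1 : LinearIndependent κ fun i => U.mkQ ⟨g i, hg i⟩ := by
    refine Fintype.linearIndependent_iff.2 fun c hc => congrFun (h c ?_)
    have h2 : U.mkQ (∑ i, c i • (⟨g i, hg i⟩ : LL E)) = 0 := by
      rw [map_sum]
      simpa only [map_smul] using hc
    rw [Submodule.mkQ_apply, Submodule.Quotient.mk_eq_zero] at h2
    simpa [U] using h2
  have h2 := h1.fintype_card_le_finrank
  have h3 := Submodule.finrank_quotient_add_finrank U
  have h4 : Module.finrank κ U = ell (E - G) :=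
    (Submodule.comapSubtypeEquivOfLe hle).finrank_eq
  have h5 := ell_add_le (E - G) hG
  rw [sub_add_cancel, hn] at h5
  have h6 : Module.finrank κ (LL E) = ell E := rfl
  rw [Fintype.card_fin] at h2
  omega

end

variable {κ F : Type} [Field κ] [IsAlgClosed κ] [CharZero κ] [Field F] [Algebra κ F] [IsFF κ F]
  {o : Place κ F} {Ω : Type} [Field Ω] [IsAlgClosed Ω] [CharZero Ω] [Algebra κ Ω] (O : VS κ Ω)
  {ι ι' : Type} [Fintype ι] [Fintype ι']

theorem L5_one {D : DO o Ω} {P : PO o Ω} (hP : D P = 0) {g : FO o Ω} (hg : g ∈ LL D)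
    (h1 : gv O o g ≤ 1) : O.1.valuation (P.ev g) * dsD O P D ≤ 1 ∧
      (O.1.valuation (P.ev g) * dsD O P D = 1 ↔ gr O g ∉ LL (redD O o (D - pd P))) := by
  by_cases h0 : g = 0
  · subst h0
    rw [F1a_ev_zero, map_zero, zero_mul, gr_zero]
    exact ⟨zero_le, by simp⟩
  have hE := (mem_LL_iff h0).1 hg
  have h2 := dsD_le_one O P hE
  rw [val_ev_mul O hg h0 hP]
  refine ⟨mul_le_one' h1 h2, ?_⟩
  rcases h1.eq_or_lt with h3 | h3
  · have h4 : gr O g ≠ 0 := fun h => ((gr_eq_zero_iff O h1).1 h).ne h3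
    have h5 : redD O o (D - pd P) + dv (RF O) (gr O g) =
        redD O o (D + dv Ω g) - pd (red O P) := by
      rw [dv_gr O h3, map_sub, map_add, redD_pd]
      abel
    have h6 : 0 ≤ redD O o (D + dv Ω g) := by
      have := redD_mono O hE
      rwa [map_zero] at this
    rw [h3, one_mul, dsD_eq_one_iff O P hE, mem_LL_iff h4, h5]
    constructor
    · intro h7 h8
      have := h8 (red O P)
      rw [Finsupp.sub_apply, h7, F1_pd_apply, if_pos rfl] at this
      simp at this
    · intro h7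
      by_contra h8
      refine h7 fun Q => ?_
      have h9 := h6 Q
      rw [Finsupp.sub_apply, F1_pd_apply]
      simp only [Finsupp.coe_zero, Pi.zero_apply] at h9 ⊢
      split_ifs with hQ
      · subst hQ
        omega
      · omega
  · refine ⟨fun h => absurd h (lt_of_le_of_lt (mul_le_of_le_one_right' h2) h3).ne, fun h => ?_⟩
    exact (h (mem_LL.2 (Or.inl ((gr_eq_zero_iff O h1).2 h3)))).elim

theorem L5_dsq' (z : ι → PO o Ω) (h : ι → ι → O.1.ValueGroup) (h1 : ∀ a, h a a = 1)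
    (h2 : ∀ a b, b ≠ a → h a b = ds O (z a) (z b)) : dsq O z = ∏ a, ∏ b, h a b := by
  refine Finset.prod_congr rfl fun a _ => ?_
  rw [← Finset.mul_prod_erase Finset.univ (h a) (Finset.mem_univ a), h1, one_mul]
  exact Finset.prod_congr rfl fun b hb => (h2 a b (Finset.ne_of_mem_erase hb)).symm

theorem L5_dsq [∀ a b : ι, Decidable (a = b)] (z : ι → PO o Ω) :
    dsq O z = ∏ a, ∏ b, if b = a then 1 else ds O (z a) (z b) :=
  L5_dsq' O z _ (fun _ => if_pos rfl) fun _ _ h => if_neg h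

theorem L5_dsq_ne_zero {z : ι → PO o Ω} (hz : Function.Injective z) : dsq O z ≠ 0 :=
  Finset.prod_ne_zero_iff.2 fun _ _ => Finset.prod_ne_zero_iff.2 fun _ hb h =>
    Finset.ne_of_mem_erase hb (hz ((ds_eq_zero_iff O).1 h)).symm

theorem L5_dsq_equiv (z : ι → PO o Ω) (e : ι' ≃ ι) : dsq O (fun a => z (e a)) = dsq O z := by
  rw [L5_dsq, L5_dsq, ← e.prod_comp]
  refine Finset.prod_congr rfl fun a _ => ?_
  rw [← e.prod_comp]
  refine Finset.prod_congr rfl fun b _ => ?_
  simp only [e.apply_eq_iff_eq]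

theorem L5_dsq_succ {n : ℕ} (z : Fin (n + 1) → PO o Ω) :
    dsq O z = dsq O (fun a : Fin n => z a.succ) * (∏ a : Fin n, ds O (z a.succ) (z 0)) ^ 2 := by
  rw [L5_dsq, L5_dsq, Fin.prod_univ_succ, Fin.prod_univ_succ]
  simp only [Fin.prod_univ_succ, if_true, Fin.succ_ne_zero, if_false, one_mul,
    (Fin.succ_ne_zero _).symm, Fin.succ_inj, Finset.prod_mul_distrib, ds_comm O (z 0)]
  rw [sq]
  ac_rfl

theorem L5_fin (n : ℕ) : ∀ (D : DO o Ω) (z : Fin n → PO o Ω) (_ : Function.Injective z)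
    (_ : ∀ a, D (z a) = 0) (f : Fin n → FO o Ω) (_ : ∀ i, f i ∈ LL D ∧ gv O o (f i) ≤ 1),
    (O.1.valuation (Matrix.of fun a i => (z a).ev (f i)).det * ∏ a, dsD O (z a) D) ^ 2 ≤ dsq O z ∧
    ((O.1.valuation (Matrix.of fun a i => (z a).ev (f i)).det * ∏ a, dsD O (z a) D) ^ 2 = dsq O z ↔
      ∀ c : Fin n → RF O, ∑ i, c i • gr O (f i) ∈ LL (redD O o (D - ∑ a, pd (z a))) → c = 0) := by
  induction n with
  | zero =>
    intro D z _ _ f _
    have h : dsq O z = 1 := by simp [dsq]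
    rw [h]
    simp only [Matrix.det_fin_zero, map_one, Finset.univ_eq_empty, Finset.prod_empty, mul_one,
      one_pow, le_refl, true_and, true_iff]
    exact fun c _ => Subsingleton.elim _ _
  | succ n ih =>
    intro D z hz hD f hf
    obtain ⟨i₀, hi₀⟩ := Finite.exists_max fun i => O.1.valuation ((z 0).ev (f i))
    set m : Fin (n + 1) → Ω := fun i => (z 0).ev (f i) with hm
    have hc : ∀ i, m i = m i / m i₀ * m i₀ := fun i => by
      by_cases h0 : m i₀ = 0
      · have h1 : O.1.valuation (m i) ≤ O.1.valuation (m i₀) := hi₀ i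
        rw [h0, map_zero, le_zero_iff, map_eq_zero] at h1
        rw [h0, h1, mul_zero]
      · rw [div_mul_cancel₀ _ h0]
    have hcO : ∀ i, m i / m i₀ ∈ O.1 := fun i => by
      by_cases h0 : m i₀ = 0
      · rw [h0, div_zero]; exact O.1.zero_mem
      · exact (V1_div_mem O.1 _ h0).2 (hi₀ i)
    have hne : ∀ a : Fin n, z 0 ≠ z a.succ := fun a h => Fin.succ_ne_zero a (hz h).symm
    have hpd : ∀ a : Fin n, pd (z 0) (z a.succ) = 0 := fun a => by
      rw [F1_pd_apply, if_neg (hne a)]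
    have hD' : ∀ a : Fin n, (D - pd (z 0)) (z a.succ) = 0 := fun a => by
      rw [Finsupp.sub_apply, hD, hpd, sub_zero]
    have hs : ∀ i, gv O o ((m i / m i₀) • f i₀) ≤ 1 := fun i => by
      rw [gv_smul]
      exact mul_le_one' ((O.1.valuation_le_one_iff _).2 (hcO i)) (hf i₀).2
    have hev : ∀ a i, (z a).ev (f i - (m i / m i₀) • f i₀) =
        (z a).ev (f i) - m i / m i₀ * (z a).ev (f i₀) := fun a i => by
      rw [(z a).ev_sub (L5_mem (hD a) (hf i).1) (L5_mem (hD a) ((LL D).smul_mem _ (hf i₀).1)),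
        (z a).ev_smul _ (L5_mem (hD a) (hf i₀).1)]
    have hf' : ∀ i, f i - (m i / m i₀) • f i₀ ∈ LL (D - pd (z 0)) ∧
        gv O o (f i - (m i / m i₀) • f i₀) ≤ 1 := fun i =>
      ⟨L5_mem_pd (hD 0) ((LL D).sub_mem (hf i).1 ((LL D).smul_mem _ (hf i₀).1))
        (by rw [hev]; exact sub_eq_zero.2 (hc i)),
        (Valuation.map_sub _ _ _).trans (max_le (hf i).2 (hs i))⟩
    have hz' : Function.Injective fun a : Fin n => z a.succ := hz.comp (Fin.succ_injective n)
    obtain ⟨i1, i2⟩ := ih (D - pd (z 0)) (fun a => z a.succ) hz' hD'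
      (fun j => f (i₀.succAbove j) - (m (i₀.succAbove j) / m i₀) • f i₀) fun j => hf' _
    obtain ⟨y1, y2⟩ := L5_one O (hD 0) (hf i₀).1 (hf i₀).2
    have hπ : ∏ a : Fin n, ds O (z a.succ) (z 0) ≠ 0 :=
      Finset.prod_ne_zero_iff.2 fun a _ h => hne a ((ds_eq_zero_iff O).1 h).symm
    obtain ⟨e1, e2⟩ := L5_ord y1 i1 (L5_dsq_ne_zero O hz') hπ
    have hX : O.1.valuation (Matrix.of fun a i => (z a).ev (f i)).det * ∏ a, dsD O (z a) D =
        O.1.valuation ((z 0).ev (f i₀)) * dsD O (z 0) D *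
          (O.1.valuation (Matrix.of fun a j : Fin n => (z a.succ).ev
            (f (i₀.succAbove j) - (m (i₀.succAbove j) / m i₀) • f i₀)).det *
            ∏ a : Fin n, dsD O (z a.succ) (D - pd (z 0))) *
          ∏ a : Fin n, ds O (z a.succ) (z 0) := by
      have h1 : ∀ a : Fin n, dsD O (z a.succ) D =
          dsD O (z a.succ) (D - pd (z 0)) * ds O (z a.succ) (z 0) := fun a => by
        rw [← dsD_pd, ← dsD_add O (hD' a) (hpd a), sub_add_cancel]
      rw [L5_detstep (Matrix.of fun a i => (z a).ev (f i)) i₀ (fun i => m i / m i₀) fun i => by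
        rw [Matrix.of_apply, Matrix.of_apply]; exact hc i, Fin.prod_univ_succ]
      simp only [h1, hev, Finset.prod_mul_distrib, map_mul, map_pow, Valuation.map_neg, map_one,
        one_pow, one_mul, Matrix.of_apply]
      ac_rfl
    have hE : D - ∑ a, pd (z a) = D - pd (z 0) - ∑ a : Fin n, pd (z a.succ) := by
      rw [Fin.sum_univ_succ, sub_sub]
    rw [hX, L5_dsq_succ, hE]
    refine ⟨e1, e2.trans ?_⟩
    have hgr : ∀ i, gr O (f i - (m i / m i₀) • f i₀) =
        gr O (f i) - rs O (m i / m i₀) • gr O (f i₀) := fun i => by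
      rw [gr_sub O (hf i).2 (hs i), gr_smul O (hcO i) (hf i₀).2]
    have hW : ∀ i, gr O (f i) - rs O (m i / m i₀) • gr O (f i₀) ∈
        LL (redD O o (D - pd (z 0))) := fun i => by
      rw [← hgr]
      exact gr_mem_LL O (hf' i).1 (hf' i).2
    rw [y2, i2]
    simp only [hgr]
    by_cases hy : gr O (f i₀) ∈ LL (redD O o (D - pd (z 0)))
    · refine ⟨fun h => absurd hy h.1, fun h => absurd h ?_⟩
      rw [map_sub _ (D - pd (z 0))]
      refine L5_dep ?_ ?_ _ fun i => ?_
      · have := redD_mono O (L5_sum_nonneg fun a : Fin n => z a.succ)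
        rwa [map_zero] at this
      · rw [deg_redD, deg_sum]
        simp [deg_pd]
      · have := Submodule.add_mem _ (hW i) (Submodule.smul_mem _ (rs O (m i / m i₀)) hy)
        rwa [sub_add_cancel] at this
    · rw [and_iff_right hy]
      have h1 : D - pd (z 0) - ∑ a : Fin n, pd (z a.succ) ≤ D - pd (z 0) :=
        sub_le_self _ (L5_sum_nonneg fun a : Fin n => z a.succ)
      have h2 := LL_mono (redD_mono O h1)
      exact L5_lin h2 (fun i => gr O (f i)) i₀ (fun j => rs O (m (i₀.succAbove j) / m i₀))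
        (fun j => hW _) hy

end Pool.Agent.E6b
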