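import Pool.Agent.E6b.L4
import Pool.Agent.E6b.L5Aux

open scoped NNReal TensorProduct IntermediateField BigOperators Classical Topology
open Filter

namespace Pool.Agent.E6b

variable {κ F : Type} [Field κ] [IsAlgClosed κ] [CharZero κ] [Field F] [Algebra κ F] [IsFF κ F]
  {o : Place κ F} {Ω : Type} [Field Ω] [IsAlgClosed Ω] [CharZero Ω] [Algebra κ Ω] (O : VS κ Ω)
  {ι ι' : Type} [Fintype ι] [Fintype ι']

theorem L5_span (ι : Type) [Fintype ι] (hι : genus κ F ≤ Fintype.card ι) (i : ι) :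
    iF o Ω (eb o (Fintype.equivFin ι i)) ∈
      LL (((Fintype.card ι : ℤ) + genus κ F - 1) • pd (oo o Ω)) := by
  rw [LL_oo_eq_span hι]
  exact Submodule.subset_span ⟨Fintype.equivFin ι i, rfl⟩

theorem L5_th (hι : genus κ F ≤ Fintype.card ι) {G : DO o Ω} (hG : 0 ≤ G)
    (hd : deg G = Fintype.card ι) :
    (∀ c : ι → Ω, ∑ i, c i • iF o Ω (eb o (Fintype.equivFin ι i)) ∈
      LL (((Fintype.card ι : ℤ) + genus κ F - 1) • pd (oo o Ω) - G) → c = 0) ↔
      Th (clD o Ω G) := by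
  rw [th_clD, hd, ell_eq_zero_iff, Submodule.eq_bot_iff]
  constructor
  · intro h f hf
    have h1 := LL_mono (sub_le_self (((Fintype.card ι : ℤ) + genus κ F - 1) • pd (oo o Ω)) hG) hf
    rw [LL_oo_eq_span hι, Submodule.mem_span_range_iff_exists_fun] at h1
    obtain ⟨c, rfl⟩ := h1
    rw [← (Fintype.equivFin ι).sum_comp] at hf ⊢
    have h2 := h (fun i => c (Fintype.equivFin ι i)) hf
    exact Finset.sum_eq_zero fun i _ => by rw [congrFun h2 i, Pi.zero_apply, zero_smul]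
  · intro h c hc
    have h1 : LinearIndependent Ω fun i : ι => iF o Ω (eb o (Fintype.equivFin ι i)) :=
      (linearIndependent_iF_eb (o := o) (Ω := Ω)).comp (fun i : ι => (Fintype.equivFin ι i : ℕ))
        (Fin.val_injective.comp (Fintype.equivFin ι).injective)
    exact funext (Fintype.linearIndependent_iff.1 h1 c (h _ hc))

theorem L5_oo (n : ℤ) (y : Pt o Ω) : (n • pd (oo o Ω)) (plc y) = 0 := by
  rw [Finsupp.smul_apply, F1_pd_apply, if_neg (plc_ne_oo y).symm, smul_zero]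

theorem L5_Det (z : ι → Pt o Ω) : (Matrix.of fun a i =>
    (plc (z a)).ev (iF o Ω (eb o (Fintype.equivFin ι i)))).det = Det z := by
  unfold Det
  congr 2
  funext a i
  exact (plc_iF (z a) _).2

/-- interpolation determinants -/
theorem val_det (D : DO o Ω) (z : ι → PO o Ω) (hz : Function.Injective z) (hD : ∀ a, D (z a) = 0)
    (f : ι → FO o Ω) (hf : ∀ i, f i ∈ LL D ∧ gv O o (f i) ≤ 1) :
    (O.1.valuation (Matrix.of fun a i => (z a).ev (f i)).det * ∏ a, dsD O (z a) D) ^ 2 ≤ dsq O z ∧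
    ((O.1.valuation (Matrix.of fun a i => (z a).ev (f i)).det * ∏ a, dsD O (z a) D) ^ 2 = dsq O z ↔
      ∀ c : ι → RF O, ∑ i, c i • gr O (f i) ∈ LL (redD O o (D - ∑ a, pd (z a))) → c = 0) := by
  let e := (Fintype.equivFin ι).symm
  have h := L5_fin O _ D (fun a => z (e a)) (hz.comp e.injective) (fun a => hD _)
    (fun i => f (e i)) fun i => hf _
  have h1 : (Matrix.of fun a i => (z (e a)).ev (f (e i))).det =
      (Matrix.of fun a i => (z a).ev (f i)).det :=
    Matrix.det_submatrix_equiv_self e (Matrix.of fun a i => (z a).ev (f i))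
  rw [h1, L5_dsq_equiv, e.prod_comp fun a => dsD O (z a) D, e.sum_comp fun a => pd (z a)] at h
  refine ⟨h.1, h.2.trans ⟨fun h2 c hc => ?_, fun h2 c hc => ?_⟩⟩
  · rw [← e.sum_comp fun i => c i • gr O (f i)] at hc
    have h3 := h2 (fun i => c (e i)) hc
    funext i
    simpa using congrFun h3 (e.symm i)
  · have h3 := h2 (fun i => c (e.symm i)) (by
      rw [← e.sum_comp fun i => c (e.symm i) • gr O (f i)]
      simpa only [e.symm_apply_apply] using hc)
    funext i
    simpa using congrFun h3 (e i)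

theorem val_Det (z : ι → Pt o Ω) (hz : Function.Injective z) (hι : genus κ F ≤ Fintype.card ι) :
    (O.1.valuation (Det z) *
      ∏ a, ds O (plc (z a)) (oo o Ω) ^ ((Fintype.card ι : ℤ) + genus κ F - 1)) ^ 2 ≤
        dsq O (fun a => plc (z a)) ∧
    ((O.1.valuation (Det z) *
      ∏ a, ds O (plc (z a)) (oo o Ω) ^ ((Fintype.card ι : ℤ) + genus κ F - 1)) ^ 2 =
        dsq O (fun a => plc (z a)) ↔ Th (redCl O o (clz z))) := by
  have h := val_det O (((Fintype.card ι : ℤ) + genus κ F - 1) • pd (oo o Ω)) (fun a => plc (z a))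
    (plc_injective.comp hz) (fun a => L5_oo _ _) (fun i => iF o Ω (eb o (Fintype.equivFin ι i)))
    fun i => ⟨L5_span ι hι i, gv_iF_le O _⟩
  simp only [L5_Det, dsD_zsmul_pd, gr_iF] at h
  refine ⟨h.1, h.2.trans ?_⟩
  have h0 : 0 ≤ redD O o (dz z) := by
    have := redD_mono O (dz_nonneg z)
    rwa [map_zero] at this
  rw [map_sub, map_zsmul, redD_pd, red_oo, clz, redCl_clD]
  exact L5_th hι h0 ((deg_redD O _).trans (deg_dz z))

theorem Det_ne_zero_iff (z : ι → Pt o Ω) (hz : Function.Injective z)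
    (hι : genus κ F ≤ Fintype.card ι) : Det z ≠ 0 ↔ Th (clz z) := by
  rw [clz, ← L5_th hι (dz_nonneg z) (deg_dz z), ← L5_Det, Ne, ← Matrix.exists_mulVec_eq_zero_iff]
  have key : ∀ c : ι → Ω, ∑ i, c i • iF o Ω (eb o (Fintype.equivFin ι i)) ∈
      LL (((Fintype.card ι : ℤ) + genus κ F - 1) • pd (oo o Ω) - dz z) ↔
      (Matrix.of fun a i => (plc (z a)).ev (iF o Ω (eb o (Fintype.equivFin ι i)))).mulVec c = 0 := by
    intro c
    have hm : ∀ a i, c i • iF o Ω (eb o (Fintype.equivFin ι i)) ∈ (plc (z a)).O := fun a i =>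
      L5_mem (L5_oo _ _) (Submodule.smul_mem _ _ (L5_span ι hι i))
    rw [dz, L5_mem_sub (z := fun a => plc (z a)) (plc_injective.comp hz) (fun a => L5_oo _ _)
      (Submodule.sum_mem _ fun i _ => Submodule.smul_mem _ _ (L5_span ι hι i)), funext_iff]
    refine forall_congr' fun a => ?_
    rw [Place.ev_sum _ _ _ fun i _ => hm a i]
    simp only [Matrix.mulVec, dotProduct, Matrix.of_apply, Pi.zero_apply]
    rw [Finset.sum_congr rfl fun i _ => (Place.ev_smul _ (c i) (plc_iF (z a) _).1).trans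
      (mul_comm _ _)]
  simp only [key]
  exact ⟨fun h c hc => by_contra fun h0 => h ⟨c, h0, hc⟩, fun h ⟨c, h0, hc⟩ => h0 (h c hc)⟩

theorem dsq_ne_zero {z : ι → PO o Ω} (hz : Function.Injective z) : dsq O z ≠ 0 := L5_dsq_ne_zero O hz

theorem dsq_elim (z : ι → PO o Ω) (z' : ι' → PO o Ω) :
    dsq O (Sum.elim z z') = dsq O z * dsq O z' * (∏ a, ∏ b, ds O (z a) (z' b)) ^ 2 := by
  rw [L5_dsq, L5_dsq, L5_dsq]
  simp only [Fintype.prod_sum_type, Sum.elim_inl, Sum.elim_inr, Sum.inl.injEq, Sum.inr.injEq,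
    reduceCtorEq, if_false, Finset.prod_mul_distrib]
  have h : ∏ a, ∏ b, ds O (z' a) (z b) = ∏ a, ∏ b, ds O (z a) (z' b) := by
    rw [Finset.prod_comm]
    exact Finset.prod_congr rfl fun _ _ => Finset.prod_congr rfl fun _ _ => ds_comm O _ _
  rw [h, sq]
  ac_rfl

theorem dsq_eq_one {z : ι → PO o Ω} (hz : Function.Injective fun a => red O (z a)) : dsq O z = 1 :=
  Finset.prod_eq_one fun _ _ => Finset.prod_eq_one fun _ hb =>
    (ds_eq_one_iff O).2 fun h => Finset.ne_of_mem_erase hb (hz h).symm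

theorem exists_Det_comp_equiv (e : ι' ≃ ι) : ∃ ε : ℤˣ, ∀ (Ω : Type) [Field Ω] [Algebra κ Ω]
    (z : ι → Pt o Ω), Det (z ∘ e) = ((ε : ℤ) : Ω) * Det z := by
  let σ : ι' ≃ ι := ((Fintype.equivFin ι').trans (finCongr (Fintype.card_congr e))).trans
    (Fintype.equivFin ι).symm
  refine ⟨Equiv.Perm.sign (σ.trans e.symm), fun Ω _ _ z => ?_⟩
  unfold Det
  rw [← Matrix.det_submatrix_equiv_self e, ← Matrix.det_permute']
  congr 1
  ext a b
  simp [σ]

theorem Det_bc {Ω' : Type} [Field Ω'] [IsAlgClosed Ω'] [CharZero Ω'] [Algebra κ Ω']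
    (β : BC o Ω Ω') (z : ι → Pt o Ω) : Det (fun a => β.pt (z a)) = β.τ (Det z) := by
  unfold Det
  rw [RingHom.map_det]
  congr 1
  ext a b
  exact β.pt_eb _ _

omit [IsAlgClosed Ω] [CharZero Ω] in
theorem Det_red {z : ι → Pt o Ω} (h : ∀ a, Intg O (z a)) :
    Det z ∈ O.1 ∧ rs O (Det z) = Det fun a => redp O (z a) (h a) := by
  let M : Matrix ι ι O.1 := Matrix.of fun a b => ⟨z a (eb o (Fintype.equivFin ι b)), h a _⟩
  have h1 : Det z = (M.det : O.1) := by
    unfold Det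
    exact (RingHom.map_det O.1.subtype M).symm
  rw [h1]
  refine ⟨M.det.2, ?_⟩
  rw [V1_rs O M.det.2]
  unfold Det
  refine (RingHom.map_det (IsLocalRing.residue O.1) M).trans ?_
  congr 1
  ext a b
  exact (V1_rs O (h a _)).symm

end Pool.Agent.E6b
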