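import Pool.Agent.E6b.L1
import Pool.Agent.E6b.O3

open scoped NNReal TensorProduct IntermediateField BigOperators Classical Topology
open Filter

namespace Pool.Agent.E6b

section
variable {κ F : Type} [Field κ] [IsAlgClosed κ] [CharZero κ] [Field F] [Algebra κ F] [IsFF κ F]
  {o : Place κ F} {Ω : Type} [Field Ω] [IsAlgClosed Ω] [CharZero Ω] [Algebra κ Ω] (O : VS κ Ω)

/-- integral points -/
def Intg (y : Pt o Ω) : Prop := ∀ a, y a ∈ O.1

/-- reduction of an integral point -/
noncomputable def redp (y : Pt o Ω) (h : Intg O y) : Pt o (RF O) where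
  toFun a := rs O (y a)
  map_one' := by simpa using rs_algebraMap O 1
  map_mul' a b := by rw [map_mul]; exact rs_mul O (h a) (h b)
  map_zero' := by simpa using rs_algebraMap O 0
  map_add' a b := by rw [map_add]; exact rs_add O (h a) (h b)
  commutes' c := by rw [AlgHom.commutes]; exact rs_algebraMap O c

/-- reduction of places -/
noncomputable def red (P : PO o Ω) : PO o (RF O) :=
  if h : ∃ y, Intg O y ∧ plc y = P then plc (redp O h.choose h.choose_spec.1) else oo o (RF O)

/-- distance of two places -/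
noncomputable def ds (P Q : PO o Ω) : O.1.ValueGroup :=
  if red O P ≠ red O Q then 1
  else if red O P = oo o (RF O) then
    O.1.valuation (P.ev (jF o Ω (zo o)) - Q.ev (jF o Ω (zo o)))
  else vs O.1 fun i : Fin (MM o) => P.ev (iF o Ω (eb o i)) - Q.ev (iF o Ω (eb o i))

/-- distance to a divisor -/
noncomputable def dsD (P : PO o Ω) (D : DO o Ω) : O.1.ValueGroup := D.prod fun Q n => ds O P Q ^ n

/-- product of the mutual distances (each pair twice) -/
noncomputable def dsq {ι : Type} [Fintype ι] (z : ι → PO o Ω) : O.1.ValueGroup :=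
  ∏ a, ∏ b ∈ Finset.univ.erase a, ds O (z a) (z b)

/-- reduction of divisors -/
noncomputable def redD (o : Place κ F) : DO o Ω →+ DO o (RF O) :=
  Finsupp.mapDomain.addMonoidHom (red O)

/-- a subfield of the valuation ring maps to the residue field -/
noncomputable def resH {K : Type} [Field K] [Algebra κ K] (τ : K →ₐ[κ] Ω) (h : ∀ c, τ c ∈ O.1) :
    K →ₐ[κ] RF O where
  toFun a := rs O (τ a)
  map_one' := by simpa using rs_algebraMap O 1
  map_mul' a b := by rw [map_mul]; exact rs_mul O (h a) (h b)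
  map_zero' := by simpa using rs_algebraMap O 0
  map_add' a b := by rw [map_add]; exact rs_add O (h a) (h b)
  commutes' c := by rw [AlgHom.commutes]; exact rs_algebraMap O c

/-- a local ring of the constant model at a place of the special fibre -/
structure Chart (p : PO o (RF O)) where
  R : Subring (FO o Ω)
  t : FO o Ω
  t_mem : t ∈ R
  const : ∀ c ∈ O.1, algebraMap Ω (FO o Ω) c ∈ R
  fin : p ≠ oo o (RF O) → ∀ a : AA o, iF o Ω a ∈ R
  inf : p = oo o (RF O) → t = jF o Ω (zo o) ∧ ∀ f ∈ o.O, jF o Ω f ∈ R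
  gv_le : ∀ f ∈ R, gv O o f ≤ 1 ∧ gr O f ∈ p.O
  ev : ∀ P, red O P = p → ∀ f ∈ R, f ∈ P.O ∧ P.ev f ∈ O.1 ∧ rs O (P.ev f) = p.ev (gr O f)
  div : ∀ P, red O P = p → ∀ f ∈ R, P.ev f = 0 →
    ∃ f' ∈ R, f = (t - algebraMap Ω (FO o Ω) (P.ev t)) * f'
  ord : ∀ P, red O P = p → P.ord (t - algebraMap Ω (FO o Ω) (P.ev t)) = 1
  ord_red : p.ord (gr O t - algebraMap (RF O) (FO o (RF O)) (p.ev (gr O t))) = 1
  ds_eq : ∀ P Q, red O P = p → red O Q = p → ds O P Q = O.1.valuation (P.ev t - Q.ev t)

/-- the determinant of the first basis elements at a family of points -/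
noncomputable def Det {Ω : Type} [Field Ω] [Algebra κ Ω] {ι : Type} [Fintype ι] (z : ι → Pt o Ω) :
    Ω := (Matrix.of fun a b : ι => z a (eb o (Fintype.equivFin ι b))).det

end

end Pool.Agent.E6b
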