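import Pool.Agent.E6b.MDefs
import Pool.Agent.E6b.U3

open scoped NNReal TensorProduct IntermediateField BigOperators Classical Topology
open Filter

namespace Pool.Agent.E6b

theorem M1_ev2 {K R : Type} [Field K] [CommRing R] [Algebra K R] {r : ℕ} (u : Fin r → R) (ξ : R)
    (p : PP K r) :
    ev2 u ξ p = p.eval₂ (MvPolynomial.aeval u : MvPolynomial (Fin r) K →ₐ[K] R).toRingHom ξ := rfl

theorem M1_ev2_C {K R : Type} [Field K] [CommRing R] [Algebra K R] {r : ℕ} (u : Fin r → R) (ξ : R)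
    (a : MvPolynomial (Fin r) K) : ev2 u ξ (Polynomial.C a) = MvPolynomial.aeval u a := by
  rw [M1_ev2, Polynomial.eval₂_C]
  rfl

theorem M1_ev2_X {K R : Type} [Field K] [CommRing R] [Algebra K R] {r : ℕ} (u : Fin r → R)
    (ξ : R) : ev2 u ξ (Polynomial.X : PP K r) = ξ := by
  rw [M1_ev2, Polynomial.eval₂_X]

theorem M1_alg {K Ω : Type} [Field K] [Field Ω] [Algebra K Ω] {r : ℕ} {u : Fin r → Ω}
    (hu : AlgebraicIndependent K u) {x : Ω}
    (hx : IsAlgebraic (IntermediateField.adjoin K (Set.range u)) x) :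
    ∃ p : PP K r, p ≠ 0 ∧ ev2 u x p = 0 := by
  obtain ⟨p, hp0, hp⟩ := IntermediateField.isAlgebraic_adjoin_iff.1 hx
  refine ⟨p.map hu.aevalEquiv.symm.toAlgHom.toRingHom, ?_, ?_⟩
  · exact (Polynomial.map_ne_zero_iff hu.aevalEquiv.symm.injective).2 hp0
  · rw [M1_ev2, Polynomial.eval₂_map, ← hp, Polynomial.aeval_def]
    congr 1
    exact RingHom.ext fun a => hu.aeval_repr a

theorem M1_frac {R F Ω : Type} [CommRing R] [IsDomain R] [Field F] [Algebra R F]
    [IsFractionRing R F] [Field Ω] [Algebra R Ω] [Algebra F Ω] [IsScalarTower R F Ω] {ξ : Ω}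
    (hξ : IsAlgebraic F ξ) {x : Ω} (hx : x ∈ F⟮ξ⟯) :
    ∃ (d : R) (p : Polynomial R), d ≠ 0 ∧ Polynomial.aeval ξ p = algebraMap R Ω d * x := by
  have h1 : x ∈ (F⟮ξ⟯).toSubalgebra := hx
  rw [IntermediateField.adjoin_simple_toSubalgebra_of_isAlgebraic hξ,
    Algebra.adjoin_singleton_eq_range_aeval] at h1
  obtain ⟨p0, rfl⟩ := h1
  obtain ⟨b, hb, e⟩ := IsLocalization.integerNormalization_spec (nonZeroDivisors R) p0
  refine ⟨b, IsLocalization.integerNormalization (nonZeroDivisors R) p0,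
    nonZeroDivisors.ne_zero hb, ?_⟩
  rw [← Polynomial.aeval_map_algebraMap F, e, ← IsScalarTower.algebraMap_smul F b p0, map_smul,
    Algebra.smul_def, ← IsScalarTower.algebraMap_apply]
  rfl

/-- existence of a hypersurface model -/
theorem exists_mdl {K Ω : Type} [Field K] [CharZero K] [Field Ω] [Algebra K Ω] {r : ℕ} {ι : Type}
    [Fintype ι] (u : Fin r → Ω) (hu : AlgebraicIndependent K u) (t : ι → Ω)
    (ht : ∀ l, IsAlgebraic (IntermediateField.adjoin K (Set.range u)) (t l)) :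
    ∃ (M : Mdl K r ι) (ξ : Ω), M.IsPt u ξ ∧ (∀ l, M.val u ξ l = t l) ∧
      ξ ∈ IntermediateField.adjoin K (Set.range u ∪ Set.range t) := by
  let R := MvPolynomial (Fin r) K
  let _ : Algebra R Ω := (MvPolynomial.aeval u : R →ₐ[K] Ω).toRingHom.toAlgebra
  have hinj : Function.Injective (algebraMap R Ω) := algebraicIndependent_iff_injective_aeval.1 hu
  have : FaithfulSMul R Ω := (faithfulSMul_iff_algebraMap_injective _ _).2 hinj
  let F := FractionRing R
  let _ : Algebra F Ω := FractionRing.liftAlgebra R Ω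
  have : IsScalarTower R F Ω := FractionRing.isScalarTower_liftAlgebra R Ω
  have hev : ∀ (x : Ω) (p : PP K r), ev2 u x p = Polynomial.aeval x p := fun _ _ => rfl
  have hae : ∀ a : R, MvPolynomial.aeval u a = algebraMap R Ω a := fun _ => rfl
  have htR : ∀ l, IsAlgebraic R (t l) := fun l => M1_alg hu (ht l)
  have htF : ∀ x ∈ Set.range t, IsIntegral F x := by
    rintro _ ⟨l, rfl⟩
    exact ((IsFractionRing.isAlgebraic_iff R F Ω).1 (htR l)).isIntegral
  let E := IntermediateField.adjoin F (Set.range t)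
  have : FiniteDimensional F E := IntermediateField.finiteDimensional_adjoin htF
  have : CharZero F := charZero_of_injective_algebraMap (IsFractionRing.injective R F)
  obtain ⟨α, hα⟩ := Field.exists_primitive_element F E
  have hE : F⟮(α : Ω)⟯ = E := by
    simpa only [IntermediateField.lift_adjoin_simple, IntermediateField.lift_top] using
      congr_arg IntermediateField.lift hα
  have hαF : IsAlgebraic F (α : Ω) :=
    (IntermediateField.coe_isIntegral_iff.2 (IsIntegral.of_finite F α)).isAlgebraic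
  obtain ⟨y, hy0, hint⟩ := ((IsFractionRing.isAlgebraic_iff R F Ω).2 hαF).exists_integral_multiple
  set ξ : Ω := y • (α : Ω) with hξ
  have hy : algebraMap R Ω y ≠ 0 := fun h => hy0 (hinj (h.trans (map_zero _).symm))
  have hξF : IsAlgebraic F ξ := (IsFractionRing.isAlgebraic_iff R F Ω).1 hint.isAlgebraic
  have hRmem : ∀ (S : IntermediateField F Ω) (a : R), algebraMap R Ω a ∈ S := fun S a => by
    rw [IsScalarTower.algebraMap_apply R F Ω]
    exact S.algebraMap_mem _
  have hαmem : (α : Ω) ∈ F⟮ξ⟯ := by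
    have e : (α : Ω) = ξ / algebraMap R Ω y := by
      rw [hξ, Algebra.smul_def, mul_div_cancel_left₀ _ hy]
    rw [e]
    exact div_mem (IntermediateField.mem_adjoin_simple_self F ξ) (hRmem _ y)
  have hle : E ≤ F⟮ξ⟯ := by
    rw [← hE]
    exact IntermediateField.adjoin_simple_le_iff.2 hαmem
  let m := minpoly R ξ
  have hder : Polynomial.aeval ξ (Polynomial.derivative m) ≠ 0 := fun h => by
    have hpos : m.natDegree ≠ 0 := (minpoly.natDegree_pos hint).ne'
    have hd := minpoly.isIntegrallyClosed_dvd hint h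
    exact (Polynomial.derivative_ne_zero.2 hpos)
      (Polynomial.eq_zero_of_dvd_of_natDegree_lt hd (Polynomial.natDegree_derivative_lt hpos))
  let x : Option ι → Ω := fun o => o.elim (Polynomial.aeval ξ (Polynomial.derivative m))⁻¹ t
  have hx : ∀ o, x o ∈ F⟮ξ⟯ := by
    rintro (_ | l)
    · refine inv_mem ?_
      rw [Polynomial.aeval_eq_sum_range]
      refine sum_mem fun i _ => ?_
      rw [Algebra.smul_def]
      exact mul_mem (hRmem _ _) (pow_mem (IntermediateField.mem_adjoin_simple_self F ξ) _)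
    · exact hle (IntermediateField.subset_adjoin F _ ⟨l, rfl⟩)
  choose d p hd hp using fun o => M1_frac (R := R) hξF (hx o)
  let q : R := ∏ o, d o
  have hq0 : q ≠ 0 := Finset.prod_ne_zero_iff.2 fun o _ => hd o
  have hq : algebraMap R Ω q ≠ 0 := fun h => hq0 (hinj (h.trans (map_zero _).symm))
  have hP : ∀ o, ∃ P : Polynomial R, Polynomial.aeval ξ P = algebraMap R Ω q * x o := fun o => by
    obtain ⟨c, hc⟩ : d o ∣ q := Finset.dvd_prod_of_mem d (Finset.mem_univ o)
    refine ⟨Polynomial.C c * p o, ?_⟩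
    rw [map_mul, Polynomial.aeval_C, hp, hc, map_mul]
    ring
  choose P hP using hP
  have hsep : m ∣ P none * Polynomial.derivative m - Polynomial.C q := by
    refine minpoly.isIntegrallyClosed_dvd hint ?_
    rw [map_sub, map_mul, hP, Polynomial.aeval_C]
    show _ * (Polynomial.aeval ξ (Polynomial.derivative m))⁻¹ * _ - _ = 0
    rw [mul_assoc, inv_mul_cancel₀ hder, mul_one, sub_self]
  refine ⟨⟨m, q, fun l => P (some l), P none, minpoly.monic hint, minpoly.irreducible hint, hsep,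
    hq0⟩, ξ, ⟨minpoly.aeval R ξ, hq⟩, fun l => ?_, ?_⟩
  · show Polynomial.aeval ξ (P (some l)) / algebraMap R Ω q = t l
    rw [hP, mul_div_cancel_left₀ _ hq]
    rfl
  · set W := IntermediateField.adjoin K (Set.range u ∪ Set.range t)
    have h1 : ∀ a : R, algebraMap R Ω a ∈ W := fun a => by
      have h2 : Algebra.adjoin K (Set.range u) ≤ W.toSubalgebra :=
        Algebra.adjoin_le fun z hz => IntermediateField.subset_adjoin K _ (Or.inl hz)
      refine h2 ?_
      rw [Algebra.adjoin_range_eq_range_aeval]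
      exact ⟨a, rfl⟩
    have h2 : ∀ c : F, algebraMap F Ω c ∈ W := fun c => by
      obtain ⟨a, b, -, rfl⟩ := IsFractionRing.div_surjective R c
      rw [map_div₀, ← IsScalarTower.algebraMap_apply, ← IsScalarTower.algebraMap_apply]
      exact div_mem (h1 a) (h1 b)
    have h3 : Subfield.closure (Set.range (algebraMap F Ω) ∪ Set.range t) ≤ W.toSubfield := by
      refine Subfield.closure_le.2 ?_
      rintro z (⟨c, rfl⟩ | hz)
      · exact h2 c
      · exact IntermediateField.subset_adjoin K _ (Or.inr hz)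
    rw [hξ, Algebra.smul_def]
    exact mul_mem (h1 y) (h3 α.2)

theorem M1_point {K B : Type} [Field K] [IsAlgClosed K] [CommRing B] [Nontrivial B] [Algebra K B]
    [Algebra.FiniteType K B] : Nonempty (B →ₐ[K] K) := by
  obtain ⟨I, hI⟩ := Ideal.exists_maximal B
  let _ := Ideal.Quotient.field I
  have : Module.Finite K (B ⧸ I) := finite_of_finite_type_of_isJacobsonRing K _
  exact ⟨(IsAlgClosed.lift : (B ⧸ I) →ₐ[K] K).comp (Ideal.Quotient.mkₐ K I)⟩

theorem M1_lift {K K' : Type} [Field K] [Field K'] [Algebra K K'] {r : ℕ} (B : Subalgebra K K')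
    {f : PP K' r} (hf : f.Monic) (hB : (cfs f : Set K') ⊆ B) :
    ∃ f0 : Polynomial (MvPolynomial (Fin r) B),
      f0.map (MvPolynomial.map B.val.toRingHom) = f ∧ f0.natDegree = f.natDegree ∧ f0.Monic := by
  refine Polynomial.lifts_and_natDegree_eq_and_monic ?_ hf
  rw [Polynomial.lifts_iff_coeff_lifts]
  intro n
  by_cases hn : f.coeff n = 0
  · exact ⟨0, by rw [hn, map_zero]⟩
  · refine MvPolynomial.mem_range_map_iff_coeffs_subset.2 fun c hc => ⟨⟨c, hB ?_⟩, rfl⟩
    exact Finset.mem_coe.2 (Finset.mem_biUnion.2 ⟨n, Polynomial.mem_support_iff.2 hn, hc⟩)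

/-- irreducible over an algebraically closed field implies absolutely irreducible -/
theorem irreducible_map {K K' : Type} [Field K] [IsAlgClosed K] [Field K'] {r : ℕ} (τ : K →+* K')
    {m : PP K r} (hm : m.Monic) (hi : Irreducible m) :
    Irreducible (m.map (MvPolynomial.map τ)) := by
  obtain ⟨h1, h2⟩ := hm.irreducible_iff_natDegree.1 hi
  refine (hm.map _).irreducible_iff_natDegree.2 ⟨fun h => h1 ?_, fun f g hf hg hfg => ?_⟩
  · rw [← hm.natDegree_eq_zero, ← hm.natDegree_map (MvPolynomial.map τ), h,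
      Polynomial.natDegree_one]
  let _ : Algebra K K' := τ.toAlgebra
  let B : Subalgebra K K' := Algebra.adjoin K ((cfs f ∪ cfs g : Finset K') : Set K')
  have : Algebra.FiniteType K B := Subalgebra.fg_iff_finiteType _ |>.1 ⟨_, rfl⟩
  obtain ⟨σ⟩ := M1_point (K := K) (B := B)
  obtain ⟨f0, ef, df, mf⟩ := M1_lift B hf fun c hc =>
    Algebra.subset_adjoin (Finset.mem_coe.2 (Finset.mem_union_left _ hc))
  obtain ⟨g0, eg, dg, mg⟩ := M1_lift B hg fun c hc =>
    Algebra.subset_adjoin (Finset.mem_coe.2 (Finset.mem_union_right _ hc))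
  have e0 : f0 * g0 = m.map (MvPolynomial.map (algebraMap K B)) := by
    refine Polynomial.map_injective (MvPolynomial.map B.val.toRingHom)
      (MvPolynomial.map_injective _ Subtype.val_injective) ?_
    rw [Polynomial.map_mul, ef, eg, hfg, Polynomial.map_map]
    congr 1
    refine RingHom.ext fun a => ?_
    rw [RingHom.comp_apply, MvPolynomial.map_map]
    rfl
  have e1 : f0.map (MvPolynomial.map σ.toRingHom) * g0.map (MvPolynomial.map σ.toRingHom) = m := by
    rw [← Polynomial.map_mul, e0, Polynomial.map_map]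
    have : (MvPolynomial.map (σ := Fin r) σ.toRingHom).comp (MvPolynomial.map (algebraMap K B)) =
        RingHom.id _ := by
      refine RingHom.ext fun a => ?_
      have e : σ.toRingHom.comp (algebraMap K B) = RingHom.id K := RingHom.ext fun c => σ.commutes c
      rw [RingHom.comp_apply, MvPolynomial.map_map, e, MvPolynomial.map_id]
      rfl
    rw [this, Polynomial.map_id]
  have := h2 _ _ (mf.map _) (mg.map _) e1
  rwa [mf.natDegree_map, mg.natDegree_map, df, dg] at this

theorem M1_mono {K : Type} [Field K] {r : ℕ} {Δ Δ' : ℕ} {p : PP K r} (h : CxP Δ p) (h' : Δ ≤ Δ') :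
    CxP Δ' p := ⟨h.1.trans h', fun i => (h.2 i).trans h'⟩

theorem M1_cxp {K : Type} [Field K] {r : ℕ} (p : PP K r) : ∃ Δ, CxP Δ p := by
  refine ⟨max p.natDegree (p.support.sup fun i => (p.coeff i).totalDegree), le_max_left _ _,
    fun i => ?_⟩
  by_cases hi : p.coeff i = 0
  · rw [hi, MvPolynomial.totalDegree_zero]
    exact Nat.zero_le _
  · exact le_max_of_le_right (Finset.le_sup (f := fun i => (p.coeff i).totalDegree)
      (Polynomial.mem_support_iff.2 hi))

theorem exists_cx {K : Type} [Field K] {r : ℕ} {ι : Type} [Fintype ι] (M : Mdl K r ι) :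
    ∃ Δ, M.Cx Δ := by
  obtain ⟨a, ha⟩ := M1_cxp M.m
  obtain ⟨b, hb⟩ := M1_cxp M.P'
  choose c hc using fun l => M1_cxp (M.P l)
  refine ⟨a + b + M.q.totalDegree + Finset.univ.sup c, M1_mono ha (by omega), by omega,
    fun l => M1_mono (hc l) ?_, M1_mono hb (by omega)⟩
  have := Finset.le_sup (f := c) (Finset.mem_univ l)
  omega

theorem Mdl.Cx.mono {K : Type} [Field K] {r : ℕ} {ι : Type} {M : Mdl K r ι} {Δ Δ' : ℕ}
    (h : M.Cx Δ) (h' : Δ ≤ Δ') : M.Cx Δ' :=
  ⟨M1_mono h.1 h', h.2.1.trans h', fun l => M1_mono (h.2.2.1 l) h', M1_mono h.2.2.2 h'⟩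

theorem Mdl.IsPt.derivative_ne_zero {K R : Type} [Field K] [CommRing R] [Algebra K R] {r : ℕ}
    {ι : Type} {M : Mdl K r ι} {u : Fin r → R} {ξ : R} (h : M.IsPt u ξ) :
    ev2 u ξ (Polynomial.derivative M.m) ≠ 0 := by
  intro h0
  obtain ⟨c, hc⟩ := M.sep
  have e := congrArg (ev2 u ξ) hc
  rw [map_sub, map_mul, map_mul, h0, h.1, M1_ev2_C, mul_zero, zero_mul, zero_sub, neg_eq_zero] at e
  exact h.2 e

theorem map_ev2 {K R R' : Type} [Field K] [CommRing R] [Algebra K R] [CommRing R'] [Algebra K R']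
    {r : ℕ} (φ : R →ₐ[K] R') (u : Fin r → R) (ξ : R) (p : PP K r) :
    φ (ev2 u ξ p) = ev2 (fun k => φ (u k)) (φ ξ) p := by
  rw [M1_ev2, M1_ev2]
  refine (Polynomial.hom_eval₂ p _ φ.toRingHom ξ).trans ?_
  congr 1
  rw [← MvPolynomial.comp_aeval]
  rfl

/-- the kernel of the evaluation at a generic point -/
theorem ev2_eq_zero_iff {K Ω : Type} [Field K] [Field Ω] [Algebra K Ω] {r : ℕ} {m : PP K r}
    (hm : m.Monic) (hi : Irreducible m) {u : Fin r → Ω} (hu : AlgebraicIndependent K u) {ξ : Ω}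
    (h : ev2 u ξ m = 0) (p : PP K r) : ev2 u ξ p = 0 ↔ m ∣ p := by
  let R := MvPolynomial (Fin r) K
  let _ : Algebra R Ω := (MvPolynomial.aeval u : R →ₐ[K] Ω).toRingHom.toAlgebra
  have hinj : Function.Injective (algebraMap R Ω) := algebraicIndependent_iff_injective_aeval.1 hu
  have : FaithfulSMul R Ω := (faithfulSMul_iff_algebraMap_injective _ _).2 hinj
  have hint : IsIntegral R ξ := ⟨m, hm, h⟩
  have e : minpoly R ξ = m :=
    Polynomial.eq_of_monic_of_associated (minpoly.monic hint) hm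
      ((minpoly.irreducible hint).associated_of_dvd hi (minpoly.isIntegrallyClosed_dvd hint h))
  rw [← e]
  exact minpoly.isIntegrallyClosed_dvd_iff hint p

theorem M1_inj {K Ω : Type} [Field K] [Field Ω] [Algebra K Ω] {r : ℕ} {m : PP K r}
    (hm : m.Monic) (hi : Irreducible m) {u : Fin r → Ω} (hu : AlgebraicIndependent K u) {ξ : Ω}
    (h : ev2 u ξ m = 0) : Function.Injective (AdjoinRoot.lift
      (MvPolynomial.aeval u : MvPolynomial (Fin r) K →ₐ[K] Ω).toRingHom ξ h) := by
  refine (injective_iff_map_eq_zero _).2 fun z hz => ?_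
  obtain ⟨g, rfl⟩ := AdjoinRoot.mk_surjective z
  rw [AdjoinRoot.lift_mk] at hz
  exact AdjoinRoot.mk_eq_zero.2 ((ev2_eq_zero_iff hm hi hu h g).1 hz)

/-- two generic points are conjugate -/
theorem exists_hom_generic {K Ω Ω' : Type} [Field K] [Field Ω] [Algebra K Ω] [Field Ω']
    [IsAlgClosed Ω'] [Algebra K Ω'] {r : ℕ} {m : PP K r} (hm : m.Monic) (hi : Irreducible m)
    {u : Fin r → Ω} (hu : AlgebraicIndependent K u) {ξ : Ω} (h : ev2 u ξ m = 0)
    {u' : Fin r → Ω'} (hu' : AlgebraicIndependent K u') {ξ' : Ω'} (h' : ev2 u' ξ' m = 0)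
    (L : IntermediateField K Ω) (hL : ∀ k, u k ∈ L) (hξ : ξ ∈ L)
    (ha : ∀ x ∈ L, IsAlgebraic (IntermediateField.adjoin K (Set.range u)) x) :
    ∃ τ : L →ₐ[K] Ω', (∀ k, τ ⟨u k, hL k⟩ = u' k) ∧ τ ⟨ξ, hξ⟩ = ξ' := by
  let uL : Fin r → L := fun k => ⟨u k, hL k⟩
  have hev : ∀ (x : L) (p : PP K r), ev2 u (x : Ω) p = 0 → ev2 uL x p = 0 := fun x p hp =>
    Subtype.val_injective ((map_ev2 L.val uL x p).trans hp)
  have huL : AlgebraicIndependent K uL := AlgebraicIndependent.of_comp L.val hu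
  have hL0 : ev2 uL ⟨ξ, hξ⟩ m = 0 := hev ⟨ξ, hξ⟩ m h
  let A := AdjoinRoot m
  let i1 : A →+* L := AdjoinRoot.lift
    (MvPolynomial.aeval uL : MvPolynomial (Fin r) K →ₐ[K] L).toRingHom ⟨ξ, hξ⟩ hL0
  let i2 : A →+* Ω' := AdjoinRoot.lift
    (MvPolynomial.aeval u' : MvPolynomial (Fin r) K →ₐ[K] Ω').toRingHom ξ' h'
  have j1 : Function.Injective i1 := M1_inj hm hi huL hL0
  have j2 : Function.Injective i2 := M1_inj hm hi hu' h'
  have : IsDomain A := j1.isDomain i1
  let _ : Algebra A L := i1.toAlgebra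
  let _ : Algebra A Ω' := i2.toAlgebra
  have : FaithfulSMul A L := (faithfulSMul_iff_algebraMap_injective _ _).2 j1
  have : FaithfulSMul A Ω' := (faithfulSMul_iff_algebraMap_injective _ _).2 j2
  have c1 : ∀ a, i1 (AdjoinRoot.of m a) = MvPolynomial.aeval uL a := fun a =>
    AdjoinRoot.lift_of hL0
  have c2 : ∀ a, i2 (AdjoinRoot.of m a) = MvPolynomial.aeval u' a := fun a =>
    AdjoinRoot.lift_of h'
  have hof : Function.Injective (AdjoinRoot.of m) := fun a b e =>
    algebraicIndependent_iff_injective_aeval.1 hu' (by rw [← c2, ← c2, e])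
  have : Algebra.IsAlgebraic A L := ⟨fun x => by
    obtain ⟨p, hp0, hp⟩ := M1_alg hu (ha x x.2)
    refine ⟨p.map (AdjoinRoot.of m), (Polynomial.map_ne_zero_iff hof).2 hp0, ?_⟩
    rw [Polynomial.aeval_def, Polynomial.eval₂_map, ← hev x p hp, M1_ev2]
    congr 1
    exact RingHom.ext c1⟩
  let τ0 : L →ₐ[A] Ω' := IsAlgClosed.lift
  have hτ : ∀ a, τ0 (i1 a) = i2 a := τ0.commutes
  refine ⟨{ τ0.toRingHom with commutes' := fun c => ?_ }, fun k => ?_, ?_⟩
  · have := hτ (AdjoinRoot.of m (MvPolynomial.C c))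
    rwa [c1, c2, MvPolynomial.aeval_C, MvPolynomial.aeval_C] at this
  · have := hτ (AdjoinRoot.of m (MvPolynomial.X k))
    rwa [c1, c2, MvPolynomial.aeval_X, MvPolynomial.aeval_X] at this
  · have := hτ (AdjoinRoot.root m)
    rwa [AdjoinRoot.lift_root, AdjoinRoot.lift_root] at this

end Pool.Agent.E6b
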