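import Pool.Agent.E6b.M1

open scoped NNReal TensorProduct IntermediateField BigOperators Classical Topology
open Filter

namespace Pool.Agent.E6b

variable (U : Ultrafilter ℕ)

/-- `p` is the ultralimit of the `ps n` -/
def LimP {L : Type} [Field L] {r : ℕ} (p : PP (UP U L) r) (ps : ℕ → PP L r) : Prop :=
  ∀ i μ, (p.coeff i).coeff μ = gm U fun n => ((ps n).coeff i).coeff μ

section Aux

variable {L : Type} [Field L] {r : ℕ}

/-- polynomials whose coefficients are sequences -/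
abbrev M2P (L : Type) [Field L] (r : ℕ) : Type := Polynomial (MvPolynomial (Fin r) (ℕ → L))

/-- the limit -/
noncomputable def M2lim : M2P L r →+* PP (UP U L) r :=
  Polynomial.mapRingHom (MvPolynomial.map (U1_hom U))

/-- the components -/
noncomputable def M2cmp (n : ℕ) : M2P L r →+* PP L r :=
  Polynomial.mapRingHom (MvPolynomial.map (Pi.evalRingHom (fun _ : ℕ => L) n))

theorem M2lim_coeff (p : M2P L r) (i μ) :
    ((M2lim U p).coeff i).coeff μ = gm U ((p.coeff i).coeff μ) := by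
  rw [M2lim, Polynomial.coe_mapRingHom, Polynomial.coeff_map, MvPolynomial.coeff_map]
  rfl

theorem M2cmp_coeff (n : ℕ) (p : M2P L r) (i μ) :
    ((M2cmp n p).coeff i).coeff μ = (p.coeff i).coeff μ n := by
  rw [M2cmp, Polynomial.coe_mapRingHom, Polynomial.coeff_map, MvPolynomial.coeff_map]
  rfl

theorem M2_limP (p : M2P L r) : LimP U (M2lim U p) fun n => M2cmp n p := fun i μ => by
  simp only [M2lim_coeff, M2cmp_coeff]

theorem M2_congr {p : PP (UP U L) r} {ps qs : ℕ → PP L r} (h : LimP U p ps)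
    (e : ∀ᶠ n in (U : Filter ℕ), qs n = ps n) : LimP U p qs := fun i μ =>
  (h i μ).trans ((gm_eq_iff U _ _).2 (e.mono fun n hn => by rw [hn]))

theorem M2_uniq {p q : PP (UP U L) r} {ps : ℕ → PP L r} (h : LimP U p ps) (h' : LimP U q ps) :
    p = q :=
  Polynomial.ext fun i => MvPolynomial.ext _ _ fun μ => (h i μ).trans (h' i μ).symm

theorem M2_surj0 : Function.Surjective
    (MvPolynomial.map (U1_hom U) : MvPolynomial (Fin r) (ℕ → L) → _) :=
  MvPolynomial.map_surjective _ (gm_surj U)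

theorem M2_surj : Function.Surjective (M2lim U : M2P L r → _) :=
  Polynomial.map_surjective _ (M2_surj0 U)

theorem M2_zero (p : M2P L r) : M2lim U p = 0 ↔ ∀ᶠ n in (U : Filter ℕ), M2cmp n p = 0 := by
  refine ⟨fun h => ?_, fun h => ?_⟩
  · have h1 : ∀ᶠ n in (U : Filter ℕ), ∀ i ∈ p.support, ∀ μ ∈ (p.coeff i).support,
        (p.coeff i).coeff μ n = 0 := by
      refine (eventually_all_finset _).2 fun i _ => (eventually_all_finset _).2 fun μ _ => ?_
      rw [← gm_eq_zero_iff, ← M2lim_coeff, h, Polynomial.coeff_zero, MvPolynomial.coeff_zero]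
    refine h1.mono fun n hn => Polynomial.ext fun i => MvPolynomial.ext _ _ fun μ => ?_
    rw [M2cmp_coeff, Polynomial.coeff_zero, MvPolynomial.coeff_zero]
    by_cases h2 : (p.coeff i).coeff μ = 0
    · rw [h2]
      rfl
    · refine hn i (Polynomial.mem_support_iff.2 fun e => h2 ?_) μ
        (MvPolynomial.mem_support_iff.2 h2)
      rw [e, MvPolynomial.coeff_zero]
  · refine Polynomial.ext fun i => MvPolynomial.ext _ _ fun μ => ?_
    rw [M2lim_coeff, Polynomial.coeff_zero, MvPolynomial.coeff_zero, gm_eq_zero_iff]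
    exact h.mono fun n hn => by
      rw [← M2cmp_coeff, hn, Polynomial.coeff_zero, MvPolynomial.coeff_zero]

theorem M2_eq (p q : M2P L r) :
    M2lim U p = M2lim U q ↔ ∀ᶠ n in (U : Filter ℕ), M2cmp n p = M2cmp n q := by
  rw [← sub_eq_zero, ← map_sub, M2_zero]
  simp only [map_sub, sub_eq_zero]

theorem M2_lift {Δ : ℕ} (ps : ℕ → PP L r) (h : ∀ n, CxP Δ (ps n)) :
    ∃ p : M2P L r, ∀ n, M2cmp n p = ps n := by
  refine ⟨∑ i ∈ Finset.range (Δ + 1), Polynomial.monomial i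
    (∑ μ ∈ (U1_fin (σ := Fin r) Δ).toFinset,
      MvPolynomial.monomial μ fun n => ((ps n).coeff i).coeff μ), fun n => ?_⟩
  refine Polynomial.ext fun i => MvPolynomial.ext _ _ fun μ => ?_
  rw [M2cmp_coeff, Polynomial.finsetSum_coeff]
  simp only [Polynomial.coeff_monomial]
  rw [Finset.sum_ite_eq']
  split_ifs with hi
  · rw [U1_coeff_sum]
    split_ifs with hμ
    · rfl
    · exact (U1_coeff_zero ((h n).2 i) fun e => hμ ((Set.Finite.mem_toFinset _).2 e)).symm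
  · rw [Polynomial.coeff_eq_zero_of_natDegree_lt
      (lt_of_le_of_lt (h n).1 (by rw [Finset.mem_range] at hi; omega))]
    rfl

theorem M2_mono {Δ Δ' : ℕ} {p : PP L r} (h : CxP Δ p) (h' : Δ ≤ Δ') : CxP Δ' p :=
  ⟨h.1.trans h', fun i => (h.2 i).trans h'⟩

theorem M2_cx (p : M2P L r) : ∃ Δ, ∀ n, CxP Δ (M2cmp n p) := by
  refine ⟨p.natDegree + p.support.sup fun i => (p.coeff i).totalDegree, fun n =>
    ⟨Polynomial.natDegree_map_le.trans (Nat.le_add_right _ _), fun i => ?_⟩⟩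
  rw [M2cmp, Polynomial.coe_mapRingHom, Polynomial.coeff_map]
  refine le_trans (b := (p.coeff i).totalDegree)
    (Finset.sup_mono (MvPolynomial.support_map_subset _ _)) ?_
  by_cases hi : i ∈ p.support
  · exact (Finset.le_sup (f := fun i => (p.coeff i).totalDegree) hi).trans (Nat.le_add_left _ _)
  · rw [Polynomial.notMem_support_iff.1 hi, MvPolynomial.totalDegree_zero]
    exact Nat.zero_le _

theorem M2_dvd {Δ : ℕ} {f m : PP L r} (h : CxP Δ m) (hm : m ≠ 0) (hf : f ∣ m) :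
    CxP (Δ + Δ) f := by
  obtain ⟨F, rfl⟩ := (MvPolynomial.finSuccEquiv L r).surjective f
  obtain ⟨G, rfl⟩ := (MvPolynomial.finSuccEquiv L r).surjective m
  have h1 : G.totalDegree ≤ Δ + Δ := by
    refine Finset.sup_le fun s hs => ?_
    have h2 := MvPolynomial.mem_support_iff.1 hs
    rw [← Finsupp.cons_tail (t := s), ← MvPolynomial.finSuccEquiv_coeff_coeff] at h2
    rw [← Finsupp.cons_tail (t := s), Finsupp.sum_cons]
    refine Nat.add_le_add ((Polynomial.le_natDegree_of_ne_zero fun e => h2 ?_).trans h.1)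
      ((MvPolynomial.le_totalDegree (MvPolynomial.mem_support_iff.2 h2)).trans (h.2 _))
    rw [e, MvPolynomial.coeff_zero]
  have h2 : F.totalDegree ≤ Δ + Δ :=
    (MvPolynomial.totalDegree_le_of_dvd_of_isDomain ((map_dvd_iff (MvPolynomial.finSuccEquiv L r)).1 hf)
      fun e => hm (by rw [e, map_zero])).trans h1
  refine ⟨?_, fun i => ?_⟩
  · rw [MvPolynomial.natDegree_finSuccEquiv]
    exact (MvPolynomial.degreeOf_le_totalDegree _ _).trans h2
  · by_cases hi : (MvPolynomial.finSuccEquiv L r F).coeff i = 0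
    · rw [hi, MvPolynomial.totalDegree_zero]
      exact Nat.zero_le _
    · exact (Nat.le_add_right _ _).trans
        ((MvPolynomial.totalDegree_coeff_finSuccEquiv_add_le F i hi).trans h2)

theorem M2_cx_one (Δ : ℕ) : CxP Δ (1 : PP L r) := by
  refine ⟨by rw [Polynomial.natDegree_one]; exact Nat.zero_le _, fun i => ?_⟩
  rw [Polynomial.coeff_one]
  split_ifs <;> simp

theorem M2_irr {m : M2P L r} (hm : m.Monic) (hi : Irreducible (M2lim U m)) :
    ∀ᶠ n in (U : Filter ℕ), Irreducible (M2cmp n m) := by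
  obtain ⟨Δ, hΔ⟩ := M2_cx m
  have hmn : ∀ n, (M2cmp n m).Monic := fun n => hm.map _
  have h1 : ∀ᶠ n in (U : Filter ℕ), M2cmp n m ≠ 1 := by
    refine Ultrafilter.eventually_not.2 fun h => hi.ne_one ?_
    rw [← map_one (M2lim U), M2_eq]
    simpa only [map_one] using h
  have h2 : ∀ n, ∃ f g : PP L r, CxP (Δ + Δ) f ∧ CxP (Δ + Δ) g ∧ (M2cmp n m ≠ 1 →
      ¬ Irreducible (M2cmp n m) → ¬ IsUnit f ∧ ¬ IsUnit g ∧ f * g = M2cmp n m) := fun n => by
    by_cases h : M2cmp n m ≠ 1 ∧ ¬ Irreducible (M2cmp n m)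
    · have h3 := h.2
      rw [Polynomial.irreducible_of_monic (hmn n) h.1] at h3
      push Not at h3
      obtain ⟨f, g, hf, hg, e, h4, h5⟩ := h3
      exact ⟨f, g, M2_dvd (hΔ n) (hmn n).ne_zero ⟨g, e.symm⟩,
        M2_dvd (hΔ n) (hmn n).ne_zero ⟨f, by rw [← e, mul_comm]⟩, fun _ _ =>
        ⟨fun u => h4 (hf.eq_one_of_isUnit u), fun u => h5 (hg.eq_one_of_isUnit u), e⟩⟩
    · exact ⟨1, 1, M2_cx_one _, M2_cx_one _, fun a b => absurd ⟨a, b⟩ h⟩
  choose f g hf hg hfg using h2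
  obtain ⟨F, hF⟩ := M2_lift f hf
  obtain ⟨G, hG⟩ := M2_lift g hg
  have hu : ∀ F : M2P L r, IsUnit (M2lim U F) → ∀ᶠ n in (U : Filter ℕ), IsUnit (M2cmp n F) :=
    fun F h => by
      obtain ⟨b, hb⟩ := h.exists_right_inv
      obtain ⟨B, rfl⟩ := M2_surj U b
      rw [← map_mul, ← map_one (M2lim U), M2_eq] at hb
      refine hb.mono fun n hn => ?_
      rw [map_mul, map_one] at hn
      exact IsUnit.of_mul_eq_one _ hn
  by_contra hn
  have h3 := (h1.and (Ultrafilter.eventually_not.2 hn)).mono fun n hn => hfg n hn.1 hn.2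
  have h4 : M2lim U m = M2lim U F * M2lim U G := by
    rw [← map_mul, M2_eq]
    exact h3.mono fun n hn => by rw [map_mul, hF, hG, hn.2.2]
  rcases hi.isUnit_or_isUnit h4 with h | h
  · obtain ⟨n, h5, h6⟩ := ((hu F h).and h3).exists
    exact h6.1 (hF n ▸ h5)
  · obtain ⟨n, h5, h6⟩ := ((hu G h).and h3).exists
    exact h6.2.1 (hG n ▸ h5)

theorem M2_sep {m p g q : M2P L r}
    (h : M2lim U p * Polynomial.derivative (M2lim U m) - M2lim U q = M2lim U m * M2lim U g) :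
    ∀ᶠ n in (U : Filter ℕ),
      M2cmp n m ∣ M2cmp n p * Polynomial.derivative (M2cmp n m) - M2cmp n q := by
  have h1 : Polynomial.derivative (M2lim U m) = M2lim U (Polynomial.derivative m) :=
    Polynomial.derivative_map _ _
  rw [h1, ← map_mul, ← map_mul, ← map_sub, M2_eq] at h
  refine h.mono fun n hn => ⟨M2cmp n g, ?_⟩
  have h2 : M2cmp n (Polynomial.derivative m) = Polynomial.derivative (M2cmp n m) :=
    (Polynomial.derivative_map _ _).symm
  rwa [map_sub, map_mul, map_mul, h2] at hn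

theorem M2_ev {L' : Type} [Field L'] [Algebra L L'] (φ : UP U L →+* UP U L')
    (hφ : ∀ x : ℕ → L, φ (gm U x) = gm U fun n => algebraMap L L' (x n))
    (u : ℕ → Fin r → L') (ξ : ℕ → L') (p : M2P L r) :
    (M2lim U p).eval₂ (MvPolynomial.eval₂Hom φ fun k => gm U fun n => u n k) (gm U ξ) =
      gm U fun n => ev2 (u n) (ξ n) (M2cmp n p) := by
  have h : (Polynomial.eval₂RingHom (MvPolynomial.eval₂Hom φ fun k => gm U fun n => u n k)
      (gm U ξ)).comp (M2lim U) = (U1_hom U).comp (RingHom.pi fun n =>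
        ((ev2 (u n) (ξ n) : PP L r →ₐ[L] L') : PP L r →+* L').comp (M2cmp n)) := by
    refine Polynomial.ringHom_ext' (MvPolynomial.ringHom_ext (fun a => ?_) fun k => ?_) ?_
    · simp only [RingHom.comp_apply, M2lim, Polynomial.coe_mapRingHom, Polynomial.map_C,
        MvPolynomial.map_C, Polynomial.coe_eval₂RingHom, Polynomial.eval₂_C,
        MvPolynomial.eval₂Hom_C, U1_hom_apply, hφ]
      congr 1
      funext n
      simp [M2cmp, ev2]
    · simp only [RingHom.comp_apply, M2lim, Polynomial.coe_mapRingHom, Polynomial.map_C,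
        MvPolynomial.map_X, Polynomial.coe_eval₂RingHom, Polynomial.eval₂_C,
        MvPolynomial.eval₂Hom_X', U1_hom_apply]
      congr 1
      funext n
      simp [M2cmp, ev2]
    · simp only [RingHom.comp_apply, M2lim, Polynomial.coe_mapRingHom, Polynomial.map_X,
        Polynomial.coe_eval₂RingHom, Polynomial.eval₂_X, U1_hom_apply]
      congr 1
      funext n
      simp [M2cmp, ev2]
  exact RingHom.congr_fun h p

theorem M2_mem_cfs {p : PP L r} {a : L} (h : a ∈ cfs p) :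
    ∃ i μ, (p.coeff i).coeff μ ≠ 0 ∧ a = (p.coeff i).coeff μ := by
  obtain ⟨i, -, hi⟩ := Finset.mem_biUnion.1 h
  obtain ⟨μ, h1, h2⟩ := MvPolynomial.mem_coeffs_iff.1 hi
  exact ⟨i, μ, MvPolynomial.mem_support_iff.1 h1, h2⟩

theorem M2_cfs_C {q : MvPolynomial (Fin r) L} {a : L} (h : a ∈ q.coeffs) :
    a ∈ cfs (Polynomial.C q : PP L r) := by
  refine Finset.mem_biUnion.2 ⟨0, Polynomial.mem_support_iff.2 ?_, ?_⟩ <;> rw [Polynomial.coeff_C_zero]
  · rintro rfl
    simp at h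
  · exact h

theorem M2_cfs {K : Type} [Field K] (τ : K →+* UP U L) (p : PP K r) (q : M2P L r)
    (h : M2lim U q = p.map (MvPolynomial.map τ)) :
    ∃ T : Finset (ℕ → L), (∀ c ∈ T, gm U c ∈ τ.range) ∧
      ∀ n, ∀ a ∈ cfs (M2cmp n q), ∃ c ∈ T, a = c n := by
  refine ⟨q.support.biUnion fun i => (q.coeff i).coeffs, fun c hc => ?_, fun n a ha => ?_⟩
  · obtain ⟨i, -, hi⟩ := Finset.mem_biUnion.1 hc
    obtain ⟨μ, -, rfl⟩ := MvPolynomial.mem_coeffs_iff.1 hi
    rw [← M2lim_coeff, h, Polynomial.coeff_map, MvPolynomial.coeff_map]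
    exact ⟨_, rfl⟩
  · obtain ⟨i, μ, h1, h2⟩ := M2_mem_cfs ha
    rw [M2cmp_coeff] at h1 h2
    have h3 : (q.coeff i).coeff μ ≠ 0 := fun e => h1 (by rw [e]; rfl)
    refine ⟨_, Finset.mem_biUnion.2 ⟨i, Polynomial.mem_support_iff.2 fun e => h3 ?_,
      MvPolynomial.coeff_mem_coeffs μ h3⟩, h2⟩
    rw [e, MvPolynomial.coeff_zero]

theorem M2_cx_X {Δ : ℕ} (h : 1 ≤ Δ) : CxP Δ (Polynomial.X : PP L r) := by
  refine ⟨Polynomial.natDegree_X_le.trans h, fun i => ?_⟩
  rw [Polynomial.coeff_X]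
  split_ifs <;> simp

theorem M2_cx_zero (Δ : ℕ) : CxP Δ (0 : PP L r) := ⟨by simp, fun i => by simp⟩

theorem M2_default (ι : Type) {Δ : ℕ} (h : 1 ≤ Δ) : ∃ M : Mdl L r ι, M.Cx Δ :=
  ⟨⟨Polynomial.X, 1, fun _ => 0, 1, Polynomial.monic_X, Polynomial.irreducible_X, by simp,
    one_ne_zero⟩, M2_cx_X h, by simp, fun _ => M2_cx_zero _, M2_cx_one _⟩

end Aux

/-- the map of ultrapowers induced by an embedding -/
theorem exists_upMap {L L' : Type} [Field L] [Field L'] [Algebra L L'] :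
    ∃ φ : UP U L →ₐ[L] UP U L', ∀ x : ℕ → L, φ (gm U x) = gm U fun n => algebraMap L L' (x n) :=
  ⟨{ toFun := Filter.Germ.map (algebraMap L L')
     map_one' := congrArg (gm U) (funext fun _ => map_one (algebraMap L L'))
     map_zero' := congrArg (gm U) (funext fun _ => map_zero (algebraMap L L'))
     map_mul' := fun x y => Filter.Germ.inductionOn₂ x y fun f g =>
       congrArg (gm U) (funext fun n => map_mul (algebraMap L L') (f n) (g n))
     map_add' := fun x y => Filter.Germ.inductionOn₂ x y fun f g =>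
       congrArg (gm U) (funext fun n => map_add (algebraMap L L') (f n) (g n))
     commutes' := fun _ => rfl }, fun _ => rfl⟩

theorem LimP.ev2 {L L' : Type} [Field L] [Field L'] [Algebra L L'] {r Δ : ℕ} {p : PP (UP U L) r}
    {ps : ℕ → PP L r} (h : LimP U p ps) (hΔ : ∀ n, CxP Δ (ps n)) (φ : UP U L →+* UP U L')
    (hφ : ∀ x : ℕ → L, φ (gm U x) = gm U fun n => algebraMap L L' (x n))
    (u : ℕ → Fin r → L') (ξ : ℕ → L') :
    p.eval₂ (MvPolynomial.eval₂Hom φ fun k => gm U fun n => u n k) (gm U ξ) =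
      gm U fun n => ev2 (u n) (ξ n) (ps n) := by
  obtain ⟨q, hq⟩ := M2_lift ps hΔ
  have h1 := M2_limP U q
  simp only [hq] at h1
  rw [M2_uniq U h h1, M2_ev U φ hφ]
  simp only [hq]

/-- constant independent elements stay independent over the ultrapower -/
theorem algebraicIndependent_gm {L L' : Type} [Field L] [Field L'] [Algebra L L'] {r : ℕ}
    {u : Fin r → L'} (hu : AlgebraicIndependent L u) (φ : UP U L →+* UP U L')
    (hφ : ∀ x : ℕ → L, φ (gm U x) = gm U fun n => algebraMap L L' (x n))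
    (Q : MvPolynomial (Fin r) (UP U L))
    (hQ : MvPolynomial.eval₂ φ (fun k => gm U fun _ => u k) Q = 0) : Q = 0 := by
  obtain ⟨q, rfl⟩ := M2_surj0 U Q
  have h1 := M2_ev U φ hφ (fun _ => u) (fun _ => 0) (Polynomial.C q)
  have h2 : M2lim U (Polynomial.C q) = Polynomial.C (MvPolynomial.map (U1_hom U) q) :=
    Polynomial.map_C _
  rw [h2, Polynomial.eval₂_C, MvPolynomial.coe_eval₂Hom, hQ, eq_comm, gm_eq_zero_iff] at h1
  rw [← Polynomial.C_eq_zero, ← h2, M2_zero]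
  refine h1.mono fun n hn => ?_
  rw [M2cmp, Polynomial.coe_mapRingHom, Polynomial.map_C] at hn ⊢
  rw [algebraicIndependent_iff.1 hu _ ((Polynomial.eval₂_C _ _).symm.trans hn), map_zero]

/-- a model over an algebraically closed subfield of the ultrapower is a limit of models -/
theorem exists_mdl_seq (K : IntermediateField Qb (UP U Qb)) [IsAlgClosed K] {r : ℕ} {ι : Type}
    [Fintype ι] (M : Mdl K r ι) : ∃ (Δ : ℕ) (Ms : ℕ → Mdl Qb r ι), (∀ n, (Ms n).Cx Δ) ∧
      LimP U (M.m.map (MvPolynomial.map (algebraMap K (UP U Qb)))) (fun n => (Ms n).m) ∧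
      LimP U (Polynomial.C (M.q.map (algebraMap K (UP U Qb)))) (fun n => Polynomial.C (Ms n).q) ∧
      (∀ l, LimP U ((M.P l).map (MvPolynomial.map (algebraMap K (UP U Qb)))) fun n => (Ms n).P l) ∧
      ∃ (k : ℕ) (c : Fin k → ℕ → Qb), (∀ i, gm U (c i) ∈ K) ∧
        ∀ᶠ n in (U : Filter ℕ), ∀ a ∈ (Ms n).S, ∃ i, a = c i n := by
  obtain ⟨τ, hτ⟩ : ∃ τ, τ = algebraMap K (UP U Qb) := ⟨_, rfl⟩
  rw [← hτ]
  obtain ⟨m, hm, -, hmon⟩ := Polynomial.lifts_and_natDegree_eq_and_monic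
    ((Polynomial.mem_lifts _).2 (M2_surj U (M.m.map (MvPolynomial.map τ)))) (M.monic.map _)
  replace hm : M2lim U m = M.m.map (MvPolynomial.map τ) := hm
  obtain ⟨q, hq0⟩ := M2_surj0 U (M.q.map τ)
  have hq : M2lim U (Polynomial.C q) = (Polynomial.C M.q).map (MvPolynomial.map τ) := by
    rw [Polynomial.map_C, ← hq0]
    exact Polynomial.map_C _
  choose P hP using fun l => M2_surj U ((M.P l).map (MvPolynomial.map τ))
  obtain ⟨P', hP'⟩ := M2_surj U (M.P'.map (MvPolynomial.map τ))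
  obtain ⟨g₀, hg₀⟩ := M.sep
  obtain ⟨g, hg⟩ := M2_surj U (g₀.map (MvPolynomial.map τ))
  have hCq : ∀ n, M2cmp n (Polynomial.C q) =
      Polynomial.C (q.map (Pi.evalRingHom (fun _ : ℕ => Qb) n)) := fun n => Polynomial.map_C _
  have h1 := M2_irr U hmon (hm ▸ irreducible_map τ M.monic M.irr)
  have h2 : ∀ᶠ n in (U : Filter ℕ), q.map (Pi.evalRingHom (fun _ : ℕ => Qb) n) ≠ 0 := by
    refine Ultrafilter.eventually_not.2 fun h => M.q_ne ?_
    have h3 := (M2_zero U (Polynomial.C q)).2 (h.mono fun n hn => by rw [hCq, hn, map_zero])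
    rw [hq, Polynomial.map_C, Polynomial.C_eq_zero] at h3
    exact MvPolynomial.map_injective τ τ.injective (h3.trans (map_zero _).symm)
  have h3 : ∀ᶠ n in (U : Filter ℕ), M2cmp n m ∣ M2cmp n P' * Polynomial.derivative (M2cmp n m) -
      Polynomial.C (q.map (Pi.evalRingHom (fun _ : ℕ => Qb) n)) := by
    simp only [← hCq]
    refine M2_sep U (g := g) ?_
    rw [hm, hq, hP', hg, Polynomial.derivative_map, ← Polynomial.map_mul, ← Polynomial.map_sub,
      hg₀, Polynomial.map_mul]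
  obtain ⟨d₁, hd₁⟩ := M2_cx m
  obtain ⟨d₂, hd₂⟩ := M2_cx (Polynomial.C q)
  obtain ⟨d₃, hd₃⟩ := M2_cx P'
  choose d₄ hd₄ using fun l => M2_cx (P l)
  obtain ⟨Δ, e₀, e₁, e₂, e₃, e₄⟩ : ∃ Δ, 1 ≤ Δ ∧ d₁ ≤ Δ ∧ d₂ ≤ Δ ∧ d₃ ≤ Δ ∧ ∀ l, d₄ l ≤ Δ :=
    ⟨1 + d₁ + d₂ + d₃ + Finset.univ.sup d₄, by omega, by omega, by omega, by omega, fun l =>
      (Finset.le_sup (Finset.mem_univ l)).trans (Nat.le_add_left _ _)⟩
  have h4 : ∀ n, ∃ N : Mdl Qb r ι, N.Cx Δ ∧ (Irreducible (M2cmp n m) ∧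
      q.map (Pi.evalRingHom (fun _ : ℕ => Qb) n) ≠ 0 ∧
      M2cmp n m ∣ M2cmp n P' * Polynomial.derivative (M2cmp n m) -
        Polynomial.C (q.map (Pi.evalRingHom (fun _ : ℕ => Qb) n)) →
      N.m = M2cmp n m ∧ Polynomial.C N.q = M2cmp n (Polynomial.C q) ∧
        (∀ l, N.P l = M2cmp n (P l)) ∧ N.P' = M2cmp n P') := fun n => by
    by_cases h : Irreducible (M2cmp n m) ∧ q.map (Pi.evalRingHom (fun _ : ℕ => Qb) n) ≠ 0 ∧
      M2cmp n m ∣ M2cmp n P' * Polynomial.derivative (M2cmp n m) -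
        Polynomial.C (q.map (Pi.evalRingHom (fun _ : ℕ => Qb) n))
    · refine ⟨⟨M2cmp n m, _, fun l => M2cmp n (P l), M2cmp n P', hmon.map _, h.1, h.2.2, h.2.1⟩,
        ⟨M2_mono (hd₁ n) e₁, ?_, fun l => M2_mono (hd₄ l n) (e₄ l), M2_mono (hd₃ n) e₃⟩,
        fun _ => ⟨rfl, (hCq n).symm, fun _ => rfl, rfl⟩⟩
      have h5 := (M2_mono (hd₂ n) e₂).2 0
      rwa [hCq, Polynomial.coeff_C_zero] at h5
    · obtain ⟨N, hN⟩ := M2_default (L := Qb) (r := r) ι e₀
      exact ⟨N, hN, fun h' => absurd h' h⟩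
  choose Ms hMs hMs' using h4
  have h5 := (h1.and (h2.and h3)).mono hMs'
  obtain ⟨T₁, a₁, b₁⟩ := M2_cfs U τ _ _ hm
  obtain ⟨T₂, a₂, b₂⟩ := M2_cfs U τ _ _ hq
  obtain ⟨T₃, a₃, b₃⟩ := M2_cfs U τ _ _ hP'
  choose T₄ a₄ b₄ using fun l => M2_cfs U τ _ _ (hP l)
  obtain ⟨T, hT, hT'⟩ : ∃ T : Finset (ℕ → Qb), (∀ c ∈ T, gm U c ∈ τ.range) ∧
      ∀ᶠ n in (U : Filter ℕ), ∀ a ∈ (Ms n).S, ∃ c ∈ T, a = c n := by
    refine ⟨insert 1 (T₁ ∪ T₂ ∪ T₃ ∪ Finset.univ.biUnion T₄), fun c hc => ?_,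
      h5.mono fun n hn a ha => ?_⟩
    · simp only [Finset.mem_insert, Finset.mem_union, Finset.mem_biUnion] at hc
      rcases hc with rfl | ((hc | hc) | hc) | ⟨l, -, hc⟩
      · exact ⟨1, map_one τ⟩
      · exact a₁ c hc
      · exact a₂ c hc
      · exact a₃ c hc
      · exact a₄ l c hc
    · simp only [Mdl.S, Finset.mem_insert, Finset.mem_union, Finset.mem_biUnion] at ha ⊢
      rcases ha with rfl | ((ha | ha) | ha) | ⟨l, hl, ha⟩
      · exact ⟨1, Or.inl rfl, rfl⟩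
      · obtain ⟨c, hc, e⟩ := b₁ n a (hn.1 ▸ ha)
        exact ⟨c, Or.inr (Or.inl (Or.inl (Or.inl hc))), e⟩
      · obtain ⟨c, hc, e⟩ := b₂ n a (hn.2.1 ▸ M2_cfs_C ha)
        exact ⟨c, Or.inr (Or.inl (Or.inl (Or.inr hc))), e⟩
      · obtain ⟨c, hc, e⟩ := b₃ n a (hn.2.2.2 ▸ ha)
        exact ⟨c, Or.inr (Or.inl (Or.inr hc)), e⟩
      · obtain ⟨c, hc, e⟩ := b₄ l n a (hn.2.2.1 l ▸ ha)
        exact ⟨c, Or.inr (Or.inr ⟨l, hl, hc⟩), e⟩
  refine ⟨Δ, Ms, hMs, M2_congr U (hm ▸ M2_limP U m) (h5.mono fun n hn => hn.1), ?_,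
    fun l => M2_congr U (hP l ▸ M2_limP U (P l)) (h5.mono fun n hn => hn.2.2.1 l),
    T.card, fun i => T.equivFin.symm i, fun i => ?_, hT'.mono fun n hn a ha => ?_⟩
  · rw [Polynomial.map_C] at hq
    exact M2_congr U (hq ▸ M2_limP U (Polynomial.C q)) (h5.mono fun n hn => hn.2.1)
  · obtain ⟨x, hx⟩ := hT _ (T.equivFin.symm i).2
    rw [← hx, hτ]
    exact x.2
  · obtain ⟨c, hc, e⟩ := hn a ha
    exact ⟨T.equivFin ⟨c, hc⟩, by simpa only [Equiv.symm_apply_apply] using e⟩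

/-- points whose coordinates are independent over the field of small elements are generic -/
theorem generic_of_indep (H : ℕ → ℝ) (hH : Tendsto H (U : Filter ℕ) atTop)
    (K : IntermediateField Qb (UP U Qb))
    (hK : ∀ x : ℕ → Qb, Tendsto (fun n => h1 (x n) / H n) (U : Filter ℕ) (𝓝 0) → gm U x ∈ K)
    {r : ℕ} (u : ℕ → Fin r → Qb) (hu : AlgebraicIndependent K fun k => gm U fun n => u n k)
    (B : ℕ) : ∃ η : ℝ, 0 < η ∧ ∀ᶠ n in (U : Filter ℕ), ∀ q : MvPolynomial (Fin r) Qb, q ≠ 0 →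
      q.totalDegree ≤ B → MvPolynomial.eval (u n) q = 0 → η * H n ≤ hp q := by
  by_contra hcon
  have hq : ∀ n, ∃ q : MvPolynomial (Fin r) Qb, ∀ q' : MvPolynomial (Fin r) Qb, q' ≠ 0 →
      q'.totalDegree ≤ B → MvPolynomial.eval (u n) q' = 0 →
      (q ≠ 0 ∧ q.totalDegree ≤ B ∧ MvPolynomial.eval (u n) q = 0) ∧ hp q ≤ hp q' + 1 := fun n => by
    by_cases h : (hp '' {q : MvPolynomial (Fin r) Qb | q ≠ 0 ∧ q.totalDegree ≤ B ∧
        MvPolynomial.eval (u n) q = 0}).Nonempty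
    · obtain ⟨_, ⟨q, hq, rfl⟩, h1⟩ := Real.lt_sInf_add_pos h one_pos
      refine ⟨q, fun q' a b c => ⟨hq, h1.le.trans (add_le_add_left (csInf_le ⟨0, ?_⟩ ?_) 1)⟩⟩
      · rintro _ ⟨q, -, rfl⟩
        exact ht_nonneg _
      · exact ⟨q', ⟨a, b, c⟩, rfl⟩
    · exact ⟨0, fun q' a b c => absurd ⟨_, q', ⟨a, b, c⟩, rfl⟩ h⟩
  choose q hq using hq
  have h1 : ∀ η : ℝ, 0 < η → ∀ᶠ n in (U : Filter ℕ), (q n ≠ 0 ∧ (q n).totalDegree ≤ B ∧
      MvPolynomial.eval (u n) (q n) = 0) ∧ hp (q n) < η * H n + 1 := fun η hη => by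
    refine (Ultrafilter.eventually_not.2 fun h => hcon ⟨η, hη, h⟩).mono fun n hn => ?_
    push Not at hn
    obtain ⟨q', a, b, c, d⟩ := hn
    exact ⟨(hq n q' a b c).1, by linarith [(hq n q' a b c).2]⟩
  have h2 := (h1 1 one_pos).mono fun n hn => hn.1
  have hpos : ∀ᶠ n in (U : Filter ℕ), 0 < H n := hH.eventually_gt_atTop 0
  have h3 : Tendsto (fun n => hp (q n) / H n) (U : Filter ℕ) (𝓝 0) := by
    refine tendsto_order.2 ⟨fun a ha => hpos.mono fun n hn =>
      ha.trans_le (div_nonneg (ht_nonneg _) hn.le), fun a ha => ?_⟩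
    filter_upwards [h1 (a / 2) (half_pos ha), hpos, hH.eventually_ge_atTop (2 / a)] with n b c d
    rw [div_le_iff₀ ha] at d
    rw [div_lt_iff₀ c]
    linarith [b.2]
  obtain ⟨μ, -, hμ⟩ := exists_eventually_eq U (U1_fin (σ := Fin r) B)
    (f := fun n => if h : q n ≠ 0 then (MvPolynomial.support_nonempty.2 h).choose else 0)
    (h2.mono fun n hn => by
      rw [dif_pos hn.1]
      exact (MvPolynomial.le_totalDegree (MvPolynomial.support_nonempty.2 hn.1).choose_spec).trans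
        hn.2.1)
  have h4 : ∀ᶠ n in (U : Filter ℕ), (q n).coeff μ ≠ 0 := (h2.and hμ).mono fun n hn => by
    have h5 := hn.2
    rw [dif_pos hn.1.1] at h5
    exact MvPolynomial.mem_support_iff.1
      (h5 ▸ (MvPolynomial.support_nonempty.2 hn.1.1).choose_spec)
  have h5 : ∀ᶠ n in (U : Filter ℕ),
      (MvPolynomial.C ((q n).coeff μ)⁻¹ * q n).totalDegree ≤ B := h2.mono fun n hn => by
    refine (MvPolynomial.totalDegree_mul _ _).trans ?_
    rw [MvPolynomial.totalDegree_C, zero_add]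
    exact hn.2.1
  obtain ⟨Q, -, hQ⟩ := exists_poly_gm U _ B h5
  have h6 := eval_poly_gm U h5 hQ fun k n => u n k
  rw [(gm_eq_zero_iff U _).2 (h2.mono fun n hn => by rw [map_mul, hn.2.2, mul_zero])] at h6
  obtain ⟨Q', rfl⟩ : Q ∈ Set.range (MvPolynomial.map (algebraMap K (UP U Qb))) := by
    refine MvPolynomial.mem_range_map_iff_coeffs_subset.2 fun c hc => ?_
    obtain ⟨ν, -, rfl⟩ := MvPolynomial.mem_coeffs_iff.1 hc
    rw [hQ]
    refine ⟨⟨_, hK _ (squeeze_zero' (hpos.mono fun n hn => div_nonneg (h1_nonneg _) hn.le)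
      ?_ h3)⟩, rfl⟩
    filter_upwards [hpos, h4] with n a b
    refine div_le_div_of_nonneg_right ?_ a.le
    rw [MvPolynomial.coeff_C_mul, inv_mul_eq_div]
    refine (h1_le_of_mem (s := insert 0 (q n).coeffs) ?_ (Finset.mem_insert_of_mem
      (MvPolynomial.coeff_mem_coeffs μ b)) b).trans (ht_insert_zero _).le
    by_cases e : (q n).coeff ν = 0
    · rw [e]
      exact Finset.mem_insert_self _ _
    · exact Finset.mem_insert_of_mem (MvPolynomial.coeff_mem_coeffs ν e)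
  rw [MvPolynomial.eval_map, ← MvPolynomial.aeval_def] at h6
  have h7 := hQ μ
  rw [algebraicIndependent_iff.1 hu _ h6, map_zero, MvPolynomial.coeff_zero, eq_comm,
    gm_eq_zero_iff] at h7
  obtain ⟨n, a, b⟩ := (h7.and h4).exists
  rw [MvPolynomial.coeff_C_mul, inv_mul_cancel₀ b] at a
  exact one_ne_zero a

end Pool.Agent.E6b
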