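import Pool.Agent.E6b.PTDefs

open scoped NNReal TensorProduct IntermediateField BigOperators Classical Topology
open Filter

namespace Pool.Agent.E6b

open MvPolynomial

theorem PT2_coprime {A K : Type*} [CommRing A] [IsDomain A] [UniqueFactorizationMonoid A]
    [Field K] [Algebra A K] [IsFractionRing A K] (f g : Polynomial A) (hf : f ≠ 0)
    (h : ∀ q : Polynomial A, Irreducible q → q ∣ f → ¬ q ∣ g) :
    IsCoprime (f.map (algebraMap A K)) (g.map (algebraMap A K)) := by
  have hinj : Function.Injective (algebraMap A K) := IsFractionRing.injective A K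
  obtain ⟨inst⟩ : Nonempty (NormalizedGCDMonoid A) := inferInstance
  refine isCoprime_of_dvd _ _ (fun h0 => hf ?_) ?_
  · exact (Polynomial.map_eq_zero_iff hinj).1 h0.1
  intro z hz hz0 hzf hzg
  set w := IsLocalization.integerNormalization (nonZeroDivisors A) z with hw
  obtain ⟨b, hb, hbz⟩ := IsLocalization.integerNormalization_spec (nonZeroDivisors A) z
  have hb0 : algebraMap A K b ≠ 0 := by
    intro h0
    exact nonZeroDivisors.ne_zero hb (hinj (by simpa using h0))
  have hdz : w.primPart.map (algebraMap A K) ∣ z := by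
    have h1 : w.primPart.map (algebraMap A K) ∣ w.map (algebraMap A K) :=
      Polynomial.map_dvd _ w.primPart_dvd
    rw [hw, hbz, Algebra.smul_def, Polynomial.algebraMap_apply] at h1
    exact (IsUnit.dvd_mul_left (Polynomial.isUnit_C.2 (IsUnit.mk0 _ hb0))).1 h1
  have hnu : ¬ IsUnit w.primPart := fun hu =>
    hz (Polynomial.isUnit_or_eq_zero_of_isUnit_integerNormalization_primPart hz0 hu)
  obtain ⟨q, hq, hqw⟩ := WfDvdMonoid.exists_irreducible_factor hnu w.primPart_ne_zero
  exact h q hq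
    (hqw.trans (w.isPrimitive_primPart.dvd_of_fraction_map_dvd_fraction_map (hdz.trans hzf)))
    (hqw.trans (w.isPrimitive_primPart.dvd_of_fraction_map_dvd_fraction_map (hdz.trans hzg)))

theorem PT2_res_ne_zero {A : Type*} [CommRing A] [IsDomain A] [UniqueFactorizationMonoid A]
    (f g : Polynomial A) (hf : f ≠ 0)
    (h : ∀ q : Polynomial A, Irreducible q → q ∣ f → ¬ q ∣ g) (n : ℕ) (hn : g.natDegree ≤ n) :
    Polynomial.resultant f g f.natDegree n ≠ 0 := by
  obtain ⟨k, rfl⟩ := Nat.exists_eq_add_of_le hn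
  rw [Polynomial.resultant_add_right_deg _ _ _ _ _ le_rfl]
  refine mul_ne_zero (pow_ne_zero _ (Polynomial.leadingCoeff_ne_zero.2 hf)) ?_
  have hinj : Function.Injective (algebraMap A (FractionRing A)) :=
    IsFractionRing.injective A (FractionRing A)
  have h1 := Polynomial.resultant_ne_zero _ _ (PT2_coprime (K := FractionRing A) f g hf h)
  rw [Polynomial.natDegree_map_eq_of_injective hinj, Polynomial.natDegree_map_eq_of_injective hinj,
    Polynomial.resultant_map_map] at h1
  intro h0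
  exact h1 (by rw [h0, map_zero])

theorem PT2_res_taylor {A : Type*} [CommRing A] (f g : Polynomial A) (r : A) (n : ℕ)
    (hn : g.natDegree ≤ n) :
    Polynomial.resultant (Polynomial.taylor r f) (Polynomial.taylor r g) f.natDegree n =
      Polynomial.resultant f g f.natDegree n := by
  obtain ⟨k, rfl⟩ := Nat.exists_eq_add_of_le hn
  have h1 := Polynomial.resultant_taylor f g r
  rw [Polynomial.natDegree_taylor, Polynomial.natDegree_taylor] at h1
  have h2 := Polynomial.leadingCoeff_taylor r f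
  rw [Polynomial.leadingCoeff, Polynomial.natDegree_taylor] at h2
  rw [Polynomial.resultant_add_right_deg _ _ _ _ _ le_rfl,
    Polynomial.resultant_add_right_deg _ _ _ _ _ (Polynomial.natDegree_taylor g r).le, h1, h2,
    Polynomial.leadingCoeff]

theorem PT2_supp_prod {σ ι : Type} (w : (σ →₀ ℕ) → ℝ) (w0 : w 0 = 0)
    (wadd : ∀ a b, w (a + b) = w a + w b) (s : Finset ι) (P : ι → MvPolynomial σ Qb) (t : ι → ℝ)
    (h : ∀ i ∈ s, ∀ m ∈ (P i).support, t i ≤ w m) :
    ∀ m ∈ (∏ i ∈ s, P i).support, ∑ i ∈ s, t i ≤ w m := by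
  induction s using Finset.induction_on with
  | empty =>
    intro m hm
    rw [Finset.prod_empty, mem_support_iff, coeff_one] at hm
    have : 0 = m := by by_contra h0; exact hm (if_neg h0)
    subst this
    simp [w0]
  | insert a s ha ih =>
    intro m hm
    rw [Finset.prod_insert ha] at hm
    obtain ⟨x, hx, y, hy, rfl⟩ := Finset.mem_add.1 (support_mul _ _ hm)
    rw [Finset.sum_insert ha, wadd]
    exact add_le_add (h a (Finset.mem_insert_self _ _) x hx)
      (ih (fun i hi => h i (Finset.mem_insert_of_mem hi)) y hy)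

theorem PT2_sign_coeff {σ : Type} (e : ℤˣ) (T : MvPolynomial σ Qb) (m : σ →₀ ℕ) :
    coeff m ((((e : ℤˣ) : ℤ) : MvPolynomial σ Qb) * T) = coeff m T ∨
      coeff m ((((e : ℤˣ) : ℤ) : MvPolynomial σ Qb) * T) = - coeff m T := by
  rcases Int.units_eq_one_or e with rfl | rfl
  · left; simp
  · right; simp

theorem PT2_supp_det {σ n : Type} [Fintype n] [DecidableEq n] (w : (σ →₀ ℕ) → ℝ) (w0 : w 0 = 0)
    (wadd : ∀ a b, w (a + b) = w a + w b) (M : Matrix n n (MvPolynomial σ Qb)) (t : n → ℝ)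
    (h : ∀ i j, ∀ m ∈ (M i j).support, t i ≤ w m) :
    ∀ m ∈ M.det.support, ∑ i, t i ≤ w m := by
  intro m hm
  rw [Matrix.det_apply', mem_support_iff, coeff_sum] at hm
  obtain ⟨e, -, he⟩ := Finset.exists_ne_zero_of_sum_ne_zero hm
  have h1 : m ∈ (∏ i, M (e i) i).support := by
    rw [mem_support_iff]
    intro h0
    rcases PT2_sign_coeff (Equiv.Perm.sign e) (∏ i, M (e i) i) m with h2 | h2
    · exact he (by rw [h2, h0])
    · exact he (by rw [h2, h0, neg_zero])
  have h2 := PT2_supp_prod w w0 wadd Finset.univ (fun i => M (e i) i) (fun i => t (e i))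
    (fun i _ => h (e i) i) m h1
  rwa [Equiv.sum_comp e t] at h2

theorem PT2_coeff_le {σ : Type} (v : AbsoluteValue Qb ℝ) (P : MvPolynomial σ Qb) (m : σ →₀ ℕ) :
    v (coeff m P) ≤ nrm v P.coeffs := by
  by_cases h : coeff m P = 0
  · rw [h, map_zero]; exact nrm_nonneg _ _
  · exact le_nrm v (coeff_mem_coeffs m h)

theorem PT2_nrm_le {σ : Type} (v : AbsoluteValue Qb ℝ) (P : MvPolynomial σ Qb) {B : ℝ}
    (hB : 0 ≤ B) (h : ∀ m, v (coeff m P) ≤ B) : nrm v P.coeffs ≤ B := by
  refine nrm_le v hB fun a ha => ?_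
  obtain ⟨m, -, rfl⟩ := mem_coeffs_iff.1 ha
  exact h m

theorem PT2_th_nonneg (q : ℕ) {c : ℝ} (hc : 0 ≤ c) : 0 ≤ th q c := by
  unfold th; split_ifs
  · exact hc
  · exact zero_le_one

theorem PT2_th_mono (q : ℕ) {c c' : ℝ} (hc : c ≤ c') : th q c ≤ th q c' := by
  unfold th; split_ifs
  · exact hc
  · exact le_rfl

theorem PT2_nrm_mul {σ : Type} {q : ℕ} {v : AbsoluteValue Qb ℝ} (hv : IsPl q v)
    (P Q : MvPolynomial σ Qb) :
    nrm v (P * Q).coeffs ≤ th q P.support.card * (nrm v P.coeffs * nrm v Q.coeffs) := by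
  have h0 : 0 ≤ nrm v P.coeffs * nrm v Q.coeffs := mul_nonneg (nrm_nonneg _ _) (nrm_nonneg _ _)
  refine PT2_nrm_le v _ (mul_nonneg (PT2_th_nonneg _ (Nat.cast_nonneg _)) h0) fun m => ?_
  have h1 : coeff m (P * Q) = ∑ u ∈ P.support, coeff m (monomial u (coeff u P) * Q) := by
    conv_lhs => rw [← support_sum_monomial_coeff P]
    rw [Finset.sum_mul, coeff_sum]
  rw [h1]
  refine hv.sum_le _ _ h0 fun u _ => ?_
  rw [coeff_monomial_mul']
  split_ifs
  · rw [map_mul]
    exact mul_le_mul (PT2_coeff_le v P u) (PT2_coeff_le v Q _) (v.nonneg _) (nrm_nonneg _ _)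
  · rw [map_zero]; exact h0

theorem PT2_nrm_prod {σ ι : Type} {q : ℕ} {v : AbsoluteValue Qb ℝ} (hv : IsPl q v)
    (s : Finset ι) (P : ι → MvPolynomial σ Qb) {K B : ℝ} (hK0 : 0 ≤ K) (hB0 : 0 ≤ B)
    (hK : ∀ i ∈ s, ((P i).support.card : ℝ) ≤ K) (hB : ∀ i ∈ s, nrm v (P i).coeffs ≤ B) :
    nrm v (∏ i ∈ s, P i).coeffs ≤ (th q K * B) ^ s.card := by
  induction s using Finset.induction_on with
  | empty =>
    rw [Finset.prod_empty, Finset.card_empty, pow_zero]
    refine PT2_nrm_le v _ zero_le_one fun m => ?_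
    rw [coeff_one]
    split_ifs <;> simp
  | insert a s ha ih =>
    rw [Finset.prod_insert ha, Finset.card_insert_of_notMem ha, pow_succ', mul_assoc]
    refine (PT2_nrm_mul hv _ _).trans ?_
    refine mul_le_mul (PT2_th_mono _ (hK a (Finset.mem_insert_self _ _))) ?_
      (mul_nonneg (nrm_nonneg _ _) (nrm_nonneg _ _)) (PT2_th_nonneg _ hK0)
    exact mul_le_mul (hB a (Finset.mem_insert_self _ _))
      (ih (fun i hi => hK i (Finset.mem_insert_of_mem hi))
        (fun i hi => hB i (Finset.mem_insert_of_mem hi))) (nrm_nonneg _ _) hB0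

theorem PT2_nrm_det {σ n : Type} [Fintype n] [DecidableEq n] {q : ℕ} {v : AbsoluteValue Qb ℝ}
    (hv : IsPl q v) (M : Matrix n n (MvPolynomial σ Qb)) {K B : ℝ} (hK0 : 0 ≤ K) (hB0 : 0 ≤ B)
    (hK : ∀ i j, ((M i j).support.card : ℝ) ≤ K) (hB : ∀ i j, nrm v (M i j).coeffs ≤ B) :
    nrm v M.det.coeffs ≤
      th q ((Fintype.card n).factorial : ℕ) * (th q K * B) ^ Fintype.card n := by
  have h0 : 0 ≤ (th q K * B) ^ Fintype.card n :=
    pow_nonneg (mul_nonneg (PT2_th_nonneg _ hK0) hB0) _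
  refine PT2_nrm_le v _ (mul_nonneg (PT2_th_nonneg _ (Nat.cast_nonneg _)) h0) fun m => ?_
  rw [Matrix.det_apply', coeff_sum, ← Fintype.card_perm, ← Finset.card_univ]
  refine hv.sum_le _ _ h0 fun e _ => ?_
  have h1 := PT2_nrm_prod hv Finset.univ (fun i => M (e i) i) hK0 hB0 (fun i _ => hK _ _)
    (fun i _ => hB _ _)
  rw [Finset.card_univ] at h1
  have h2 := (PT2_coeff_le v _ m).trans h1
  rcases PT2_sign_coeff (Equiv.Perm.sign e) (∏ i, M (e i) i) m with h3 | h3
  · rw [h3]; exact h2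
  · rw [h3, AbsoluteValue.map_neg]; exact h2

theorem PT2_entry {A : Type*} [CommRing A] (f g : Polynomial A) (m n : ℕ) (i j : Fin (m + n)) :
    Polynomial.sylvester f g m n i j = 0 ∨
      ∃ c ≤ (i : ℕ), Polynomial.sylvester f g m n i j = f.coeff c ∨
        Polynomial.sylvester f g m n i j = g.coeff c := by
  induction j using Fin.addCases with
  | left j =>
    simp only [Polynomial.sylvester, Matrix.of_apply, Fin.addCases_left]
    split_ifs
    · exact Or.inr ⟨_, Nat.sub_le _ _, Or.inr rfl⟩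
    · exact Or.inl rfl
  | right j =>
    simp only [Polynomial.sylvester, Matrix.of_apply, Fin.addCases_right]
    split_ifs
    · exact Or.inr ⟨_, Nat.sub_le _ _, Or.inl rfl⟩
    · exact Or.inl rfl

theorem PT2_card_supp {N : ℕ} (P : MvPolynomial (Fin N) Qb) (D : Fin N → ℕ)
    (h : ∀ j, P.degreeOf j ≤ D j) : (P.support.card : ℝ) ≤ Real.exp (∑ j, (D j : ℝ)) := by
  have h1 : P.support.card ≤ (Fintype.piFinset fun j => Finset.range (D j + 1)).card := by
    refine Finset.card_le_card_of_injOn (fun m => (m : Fin N → ℕ)) (fun m hm => ?_)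
      (fun a _ b _ hab => DFunLike.coe_injective hab)
    rw [Finset.mem_coe, Fintype.mem_piFinset]
    intro j
    rw [Finset.mem_range]
    exact Nat.lt_succ_of_le ((monomial_le_degreeOf j (Finset.mem_coe.1 hm)).trans (h j))
  rw [Fintype.card_piFinset] at h1
  simp only [Finset.card_range] at h1
  calc (P.support.card : ℝ) ≤ ((∏ j, (D j + 1) : ℕ) : ℝ) := by exact_mod_cast h1
    _ = ∏ j, ((D j : ℝ) + 1) := by push_cast; rfl
    _ ≤ ∏ j, Real.exp (D j) :=
        Finset.prod_le_prod (fun j _ => by positivity) fun j _ => Real.add_one_le_exp _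
    _ = _ := (Real.exp_sum _ _).symm

/-- the shift as a ring homomorphism -/
noncomputable def PT2_sh {σ : Type} (p : σ → Qb) : MvPolynomial σ Qb →+* MvPolynomial σ Qb :=
  (MvPolynomial.aeval (R := Qb) (fun j => MvPolynomial.X j + MvPolynomial.C (p j))).toRingHom

theorem PT2_sh_apply {σ : Type} (p : σ → Qb) (F : MvPolynomial σ Qb) : PT2_sh p F = shf p F := rfl

theorem PT2_sh_inj {σ : Type} (p : σ → Qb) : Function.Injective (PT2_sh p) := by
  have h : (PT2_sh (fun j => - p j)).comp (PT2_sh p) = RingHom.id _ := by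
    refine MvPolynomial.ringHom_ext (fun r => ?_) (fun j => ?_)
    · simp [PT2_sh]
    · simp [PT2_sh]
  exact Function.LeftInverse.injective (g := PT2_sh (fun j => - p j))
    fun F => by simpa using RingHom.congr_fun h F

theorem PT2_fin_shf {N : ℕ} (p : Fin (N + 1) → Qb) (F : MvPolynomial (Fin (N + 1)) Qb) :
    finSuccEquiv Qb N (shf p F) =
      Polynomial.taylor (C (p 0)) ((finSuccEquiv Qb N F).map (PT2_sh fun j => p j.succ)) := by
  have hC : ∀ r : Qb, finSuccEquiv Qb N (C r) = Polynomial.C (C r) := fun r => by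
    simp [finSuccEquiv_apply]
  induction F using MvPolynomial.induction_on with
  | C r => simp [shf, hC, PT2_sh]
  | add P Q hP hQ =>
    rw [← PT2_sh_apply, map_add, map_add, PT2_sh_apply, PT2_sh_apply, hP, hQ, map_add,
      Polynomial.map_add, map_add]
  | mul_X P j hP =>
    rw [← PT2_sh_apply, map_mul, map_mul, PT2_sh_apply, hP, map_mul, Polynomial.map_mul,
      Polynomial.taylor_mul]
    refine congrArg _ ?_
    induction j using Fin.cases with
    | zero => simp [PT2_sh, hC, finSuccEquiv_X_zero]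
    | succ j => simp [PT2_sh, hC, finSuccEquiv_X_succ]

theorem PT2_sum_range (K : ℕ) : ∑ c ∈ Finset.range K, (c : ℝ) = K * (K - 1) / 2 := by
  induction K with
  | zero => simp
  | succ K ih => rw [Finset.sum_range_succ, ih]; push_cast; ring

theorem PT2_sum_max (D k : ℕ) (hD : 0 < D) (hk : D ≤ k) (τ : ℝ) (h0 : 0 ≤ τ) (h1 : τ ≤ 1) :
    τ ^ 2 / 2 * D ≤ ∑ i : Fin k, max (τ - ((i : ℕ) : ℝ) / D) 0 := by
  rw [Fin.sum_univ_eq_sum_range (fun c => max (τ - (c : ℝ) / D) 0) k]
  have hD' : (0 : ℝ) < D := by exact_mod_cast hD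
  set K := ⌈τ * D⌉₊ with hK
  have hKD : K ≤ D := Nat.ceil_le.2 (by nlinarith)
  have hK1 : τ * D ≤ K := Nat.le_ceil _
  have hK2 : (K : ℝ) < τ * D + 1 := Nat.ceil_lt_add_one (by positivity)
  calc τ ^ 2 / 2 * D ≤ ∑ c ∈ Finset.range K, (τ - (c : ℝ) / D) := by
        rw [Finset.sum_sub_distrib, ← Finset.sum_div, PT2_sum_range, Finset.sum_const,
          Finset.card_range, nsmul_eq_mul]
        have h2 : (K : ℝ) * (K - 1) / 2 / D ≤ K * τ / 2 := by
          rw [div_le_iff₀ hD']
          have : (0 : ℝ) ≤ K := Nat.cast_nonneg _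
          nlinarith
        nlinarith
    _ ≤ ∑ c ∈ Finset.range K, max (τ - (c : ℝ) / D) 0 :=
        Finset.sum_le_sum fun c _ => le_max_left _ _
    _ ≤ _ := Finset.sum_le_sum_of_subset_of_nonneg
        (Finset.range_subset_range.2 (hKD.trans hk)) fun c _ _ => le_max_right _ _

theorem PT2_idx_coeff {N : ℕ} (F : MvPolynomial (Fin (N + 1)) Qb) (p : Fin (N + 1) → Qb)
    (d : Fin (N + 1) → ℕ) (τ : ℝ) (h : IdxGe F p d τ) (c i : ℕ) (hc : c ≤ i)
    (m : Fin N →₀ ℕ) (hm : m ∈ ((finSuccEquiv Qb N (shf p F)).coeff c).support) :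
    max (τ - (i : ℝ) / d 0) 0 ≤ ∑ j, (m j : ℝ) / d j.succ := by
  refine max_le ?_ (Finset.sum_nonneg fun j _ => by positivity)
  have h1 := h _ (mem_support_coeff_finSuccEquiv.1 hm)
  rw [Fin.sum_univ_succ] at h1
  simp only [Finsupp.cons_zero, Finsupp.cons_succ] at h1
  have h2 : (c : ℝ) / d 0 ≤ (i : ℝ) / d 0 :=
    div_le_div_of_nonneg_right (by exact_mod_cast hc) (Nat.cast_nonneg _)
  linarith

theorem PT2_nrm_coeff {N : ℕ} (v : AbsoluteValue Qb ℝ) (F : MvPolynomial (Fin (N + 1)) Qb)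
    (c : ℕ) : nrm v ((finSuccEquiv Qb N F).coeff c).coeffs ≤ nrm v F.coeffs := by
  refine PT2_nrm_le v _ (nrm_nonneg _ _) fun m => ?_
  rw [finSuccEquiv_coeff_coeff]
  exact PT2_coeff_le v F _

theorem PT2_coeffs_ne {σ : Type} {P : MvPolynomial σ Qb} (hP : P ≠ 0) :
    ∃ a ∈ P.coeffs, a ≠ 0 := by
  obtain ⟨m, hm⟩ := ne_zero_iff.1 hP
  exact ⟨_, coeff_mem_coeffs m hm, hm⟩

/-- Elimination of the variable `0` by a resultant. -/
theorem exists_elim {N : ℕ} (F G : MvPolynomial (Fin (N + 1)) Qb) (hF : F ≠ 0)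
    (hcop : ∀ q : MvPolynomial (Fin (N + 1)) Qb, Irreducible q → q ∣ F → ¬ q ∣ G)
    (p : Fin (N + 1) → Qb) (d : Fin (N + 1) → ℕ) (hd : ∀ j, 0 < d j) (a : ℕ) (ha : 0 < a)
    (hdF : ∀ j, F.degreeOf j ≤ a * d j) (hdG : ∀ j, G.degreeOf j ≤ a * d j)
    (τ : ℝ) (hτ0 : 0 ≤ τ) (hτ : τ ≤ 1) (hiF : IdxGe F p d τ) (hiG : IdxGe G p d τ)
    (c : ℝ) (hc : 1 ≤ c)
    (hG : ∀ q v, IsPl q v → nrm v G.coeffs ≤ th q c * nrm v F.coeffs) :
    ∃ R : MvPolynomial (Fin N) Qb, R ≠ 0 ∧
      (∀ j, R.degreeOf j ≤ 2 * a ^ 2 * (d 0 * d j.succ)) ∧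
      IdxGe R (fun j => p j.succ) (fun j => d 0 * d j.succ) (τ ^ 2 / 2) ∧
      hp R ≤ 2 * a * d 0 * (hp F + Real.log c + 3 * a * ∑ j, (d j : ℝ)) := by
  set f := finSuccEquiv Qb N F with hf
  set g := finSuccEquiv Qb N G with hg
  have hf0 : f ≠ 0 := fun h0 => hF ((finSuccEquiv Qb N).injective (by rw [← hf, h0, map_zero]))
  have hm : f.natDegree ≤ a * d 0 := by rw [hf, natDegree_finSuccEquiv]; exact hdF 0
  have hn : g.natDegree ≤ a * d 0 := by rw [hg, natDegree_finSuccEquiv]; exact hdG 0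
  have hR0 : Polynomial.resultant f g f.natDegree (a * d 0) ≠ 0 := by
    refine PT2_res_ne_zero f g hf0 (fun q hq h1 h2 => ?_) _ hn
    refine hcop ((finSuccEquiv Qb N).symm q)
      ((MulEquiv.irreducible_iff (finSuccEquiv Qb N).symm).2 hq) ?_ ?_
    · simpa [hf] using map_dvd (finSuccEquiv Qb N).symm h1
    · simpa [hg] using map_dvd (finSuccEquiv Qb N).symm h2
  have hk : f.natDegree + a * d 0 ≤ 2 * a * d 0 := by nlinarith
  have hdeg : ∀ i j l, (Polynomial.sylvester f g f.natDegree (a * d 0) i j).degreeOf l ≤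
      a * d l.succ := by
    intro i j l
    rcases PT2_entry f g _ _ i j with h | ⟨e, -, h | h⟩ <;> rw [h]
    · simp
    · exact (degreeOf_coeff_finSuccEquiv F l e).trans (hdF _)
    · exact (degreeOf_coeff_finSuccEquiv G l e).trans (hdG _)
  refine ⟨Polynomial.resultant f g f.natDegree (a * d 0), hR0, fun l => ?_, ?_, ?_⟩
  · rw [degreeOf_le_iff]
    intro m hm'
    have h1 := PT2_supp_det (fun m => -(m l : ℝ)) (by simp) (fun x y => by simp; ring)
      (Polynomial.sylvester f g f.natDegree (a * d 0)) (fun _ => -((a * d l.succ : ℕ) : ℝ))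
      (fun i j u hu => neg_le_neg (by
        exact_mod_cast (monomial_le_degreeOf l hu).trans (hdeg i j l))) m hm'
    rw [Finset.sum_const, Finset.card_univ, Fintype.card_fin, nsmul_eq_mul, mul_neg,
      neg_le_neg_iff] at h1
    have h2 : m l ≤ (f.natDegree + a * d 0) * (a * d l.succ) := by exact_mod_cast h1
    calc m l ≤ _ := h2
      _ ≤ (2 * a * d 0) * (a * d l.succ) := Nat.mul_le_mul_right _ hk
      _ = _ := by ring
  · intro m hm'
    have hinj := PT2_sh_inj fun j : Fin N => p j.succ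
    rw [← PT2_sh_apply, ← Polynomial.resultant_map_map] at hm'
    have h1 := PT2_res_taylor (f.map (PT2_sh fun j : Fin N => p j.succ))
      (g.map (PT2_sh fun j : Fin N => p j.succ)) (C (p 0)) (a * d 0)
      (by rw [Polynomial.natDegree_map_eq_of_injective hinj]; exact hn)
    rw [Polynomial.natDegree_map_eq_of_injective hinj] at h1
    rw [← h1, hf, hg, ← PT2_fin_shf, ← PT2_fin_shf, ← hf] at hm'
    have h2 := PT2_supp_det (fun m : Fin N →₀ ℕ => ∑ j, (m j : ℝ) / d j.succ) (by simp)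
      (fun x y => by simp [add_div, Finset.sum_add_distrib])
      (Polynomial.sylvester (finSuccEquiv Qb N (shf p F)) (finSuccEquiv Qb N (shf p G))
        f.natDegree (a * d 0)) (fun i => max (τ - ((i : ℕ) : ℝ) / d 0) 0)
      (fun i j u hu => by
        rcases PT2_entry (finSuccEquiv Qb N (shf p F)) (finSuccEquiv Qb N (shf p G)) _ _ i j with
          h | ⟨e, he, h | h⟩ <;> rw [h] at hu
        · simp at hu
        · exact PT2_idx_coeff F p d τ hiF e i he u hu
        · exact PT2_idx_coeff G p d τ hiG e i he u hu) m hm'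
    have h3 := (PT2_sum_max (d 0) (f.natDegree + a * d 0) (hd 0)
      ((Nat.le_mul_of_pos_left _ ha).trans (Nat.le_add_left _ _)) τ hτ0 hτ).trans h2
    have hD : (0 : ℝ) < d 0 := by exact_mod_cast hd 0
    have h4 : ∑ j, (m j : ℝ) / ((d 0 * d j.succ : ℕ) : ℝ) =
        (∑ j : Fin N, (m j : ℝ) / d j.succ) / d 0 := by
      rw [Finset.sum_div]
      refine Finset.sum_congr rfl fun j _ => ?_
      push_cast
      rw [div_div, mul_comm]
    show τ ^ 2 / 2 ≤ ∑ j, (m j : ℝ) / ((d 0 * d j.succ : ℕ) : ℝ)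
    rw [h4, le_div_iff₀ hD]
    exact h3
  · set k := f.natDegree + a * d 0 with hkdef
    set S : ℝ := ∑ j : Fin N, ((a * d j.succ : ℕ) : ℝ) with hS
    have hc0 : 0 < c := lt_of_lt_of_le one_pos hc
    have hC : (0 : ℝ) < (k.factorial : ℕ) * (Real.exp S * c) ^ k := by positivity
    have h1 := ht_le_of_local1 (PT2_coeffs_ne hR0) (PT2_coeffs_ne hF) k hC (fun q v hv => by
      have hB : 0 ≤ th q c * nrm v F.coeffs := mul_nonneg (PT2_th_nonneg _ hc0.le) (nrm_nonneg _ _)
      have h2 := PT2_nrm_det hv (Polynomial.sylvester f g f.natDegree (a * d 0))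
        (K := Real.exp S) (B := th q c * nrm v F.coeffs) (Real.exp_pos _).le hB
        (fun i j => PT2_card_supp _ _ (hdeg i j)) (fun i j => by
          rcases PT2_entry f g _ _ i j with h | ⟨e, -, h | h⟩ <;> rw [h]
          · exact PT2_nrm_le v _ hB fun u => by simpa using hB
          · refine (PT2_nrm_coeff v F e).trans (le_mul_of_one_le_left (nrm_nonneg _ _) ?_)
            unfold th; split_ifs
            · exact hc
            · exact le_rfl
          · exact (PT2_nrm_coeff v G e).trans (hG q v hv))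
      rw [Fintype.card_fin] at h2
      refine h2.trans (le_of_eq ?_)
      unfold th
      split_ifs
      · rw [← hkdef]; ring
      · rw [← hkdef]; ring)
    have hlc : 0 ≤ Real.log c := Real.log_nonneg hc
    have hF0 : 0 ≤ hp F := ht_nonneg _
    have hk' : (k : ℝ) ≤ 2 * a * d 0 := by exact_mod_cast hk
    have hk0 : (0 : ℝ) ≤ k := Nat.cast_nonneg _
    have hfac : Real.log (k.factorial : ℕ) ≤ k * k := by
      have h5 : ((k.factorial : ℕ) : ℝ) ≤ (k : ℝ) ^ k := by
        exact_mod_cast Nat.factorial_le_pow k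
      calc Real.log (k.factorial : ℕ) ≤ Real.log ((k : ℝ) ^ k) :=
            Real.log_le_log (by positivity) h5
        _ = k * Real.log k := Real.log_pow _ _
        _ ≤ k * k := mul_le_mul_of_nonneg_left (Real.log_le_self hk0) hk0
    rw [Real.log_mul (by positivity) (by positivity), Real.log_pow,
      Real.log_mul (by positivity) (by positivity), Real.log_exp] at h1
    have hT : 0 ≤ ∑ j : Fin N, (d j.succ : ℝ) := Finset.sum_nonneg fun j _ => Nat.cast_nonneg _
    have hS' : S = a * ∑ j : Fin N, (d j.succ : ℝ) := by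
      rw [hS, Finset.mul_sum]; push_cast; rfl
    have ha0 : (0 : ℝ) ≤ a := Nat.cast_nonneg _
    have hd0 : (0 : ℝ) ≤ d 0 := Nat.cast_nonneg _
    have h6 : (k : ℝ) + S ≤ 3 * a * ∑ j, (d j : ℝ) := by
      rw [Fin.sum_univ_succ, hS']
      nlinarith [mul_nonneg ha0 hd0, mul_nonneg ha0 hT]
    have h7 : 0 ≤ hp F + Real.log c + 3 * a * ∑ j, (d j : ℝ) := by
      have : 0 ≤ ∑ j, (d j : ℝ) := Finset.sum_nonneg fun j _ => Nat.cast_nonneg _
      positivity
    calc hp (Polynomial.resultant f g f.natDegree (a * d 0))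
        ≤ Real.log (k.factorial : ℕ) + k * (S + Real.log c) + k * hp F := h1
      _ ≤ k * (hp F + Real.log c + (k + S)) := by nlinarith
      _ ≤ k * (hp F + Real.log c + 3 * a * ∑ j, (d j : ℝ)) :=
          mul_le_mul_of_nonneg_left (by linarith) hk0
      _ ≤ _ := mul_le_mul_of_nonneg_right hk' h7

end Pool.Agent.E6b
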