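import Pool.Agent.E6b.PT1

open scoped NNReal TensorProduct IntermediateField BigOperators Classical Topology
open Filter

namespace Pool.Agent.E6b

open MvPolynomial

theorem PT3_hp_nonneg {σ : Type} (F : MvPolynomial σ Qb) : 0 ≤ hp F := ht_nonneg _

theorem PT3_coeffs_rename {σ τ : Type} {f : σ → τ} (hf : Function.Injective f)
    (F : MvPolynomial σ Qb) : (rename f F).coeffs = F.coeffs := by
  ext c
  rw [mem_coeffs_iff, mem_coeffs_iff, support_rename_of_injective hf]
  constructor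
  · rintro ⟨n, hn, rfl⟩
    obtain ⟨m, hm, rfl⟩ := Finset.mem_image.1 hn
    exact ⟨m, hm, coeff_rename_mapDomain f hf F m⟩
  · rintro ⟨m, hm, rfl⟩
    exact ⟨_, Finset.mem_image_of_mem _ hm, (coeff_rename_mapDomain f hf F m).symm⟩

theorem PT3_hp_rename {σ τ : Type} {f : σ → τ} (hf : Function.Injective f)
    (F : MvPolynomial σ Qb) : hp (rename f F) = hp F := by
  unfold hp
  rw [PT3_coeffs_rename hf]

theorem PT3_totalDegree_le_rename {σ τ : Type} {f : σ → τ} (hf : Function.Injective f)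
    (F : MvPolynomial σ Qb) : F.totalDegree ≤ (rename f F).totalDegree := by
  refine Finset.sup_le fun m hm => ?_
  have h1 : Finsupp.mapDomain f m ∈ (rename f F).support := by
    rw [support_rename_of_injective hf]
    exact Finset.mem_image_of_mem _ hm
  have h2 := le_totalDegree h1
  rwa [Finsupp.sum_mapDomain_index (fun _ => rfl) (fun _ _ _ => rfl)] at h2

theorem PT3_totalDegree_le_sum {σ : Type} [Fintype σ] (F : MvPolynomial σ Qb) :
    F.totalDegree ≤ ∑ j, F.degreeOf j := by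
  refine Finset.sup_le fun m hm => ?_
  rw [Finsupp.sum_fintype _ _ (fun _ => rfl)]
  exact Finset.sum_le_sum fun j _ => monomial_le_degreeOf j hm

theorem PT3_vars_nonempty {σ : Type} {q : MvPolynomial σ Qb} (hq : Irreducible q) :
    q.vars.Nonempty := by
  rw [Finset.nonempty_iff_ne_empty]
  intro h
  rw [vars_eq_empty_iff_eq_C] at h
  by_cases h0 : q.coeff 0 = 0
  · rw [h0, map_zero] at h
    exact hq.ne_zero h
  · exact hq.not_isUnit (h ▸ (IsUnit.mk0 _ h0).map C)

theorem PT3_one_le_sum {σ : Type} [Fintype σ] {q : MvPolynomial σ Qb} (hq : Irreducible q) :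
    1 ≤ ∑ j, q.degreeOf j := by
  obtain ⟨j, hj⟩ := PT3_vars_nonempty hq
  have h1 : 1 ≤ q.degreeOf j := Nat.one_le_iff_ne_zero.2 (mem_vars_iff_degreeOf_ne_zero.1 hj)
  exact h1.trans (Finset.single_le_sum (f := fun j => q.degreeOf j) (fun _ _ => Nat.zero_le _)
    (Finset.mem_univ j))

theorem PT3_split {σ : Type} [Fintype σ] (p : σ → Qb) (F : MvPolynomial σ Qb) : F ≠ 0 →
    ∃ (F0 G0 : MvPolynomial σ Qb) (s : Finset (MvPolynomial σ Qb)), F = F0 * G0 ∧
      eval p G0 ≠ 0 ∧ (∀ q ∈ s, Irreducible q ∧ q ∣ F0 ∧ eval p q = 0) ∧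
      (∀ q, Irreducible q → q ∣ F0 → ∃ q' ∈ s, q' ∣ q) ∧ s.card ≤ ∑ j, F0.degreeOf j := by
  induction F using WfDvdMonoid.induction_on_irreducible with
  | zero => exact fun h => absurd rfl h
  | unit u hu =>
    intro _
    refine ⟨1, u, ∅, (one_mul u).symm, (hu.map (eval p)).ne_zero, by simp, ?_, by simp⟩
    intro q hq h1
    exact absurd (isUnit_of_dvd_one h1) hq.not_isUnit
  | mul a i ha hi ih =>
    intro _
    obtain ⟨F0, G0, s, rfl, hG, hs, hcov, hcard⟩ := ih ha
    have hF0 : F0 ≠ 0 := left_ne_zero_of_mul ha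
    by_cases hp : eval p i = 0
    · refine ⟨i * F0, G0, insert i s, by ring, hG, ?_, ?_, ?_⟩
      · intro q hq
        rcases Finset.mem_insert.1 hq with rfl | hq
        · exact ⟨hi, dvd_mul_right _ _, hp⟩
        · exact ⟨(hs q hq).1, (hs q hq).2.1.mul_left _, (hs q hq).2.2⟩
      · intro q hq hd
        rcases hq.prime.dvd_or_dvd hd with h | h
        · exact ⟨i, Finset.mem_insert_self _ _, (hq.associated_of_dvd hi h).symm.dvd⟩
        · obtain ⟨q', h1, h2⟩ := hcov q hq h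
          exact ⟨q', Finset.mem_insert_of_mem h1, h2⟩
      · have h1 : ∑ j, (i * F0).degreeOf j = ∑ j, i.degreeOf j + ∑ j, F0.degreeOf j := by
          rw [← Finset.sum_add_distrib]
          exact Finset.sum_congr rfl fun j _ => degreeOf_mul_eq hi.ne_zero hF0
        have h2 := PT3_one_le_sum hi
        have h3 := Finset.card_insert_le i s
        omega
    · refine ⟨F0, i * G0, s, by ring, ?_, hs, hcov, hcard⟩
      rw [map_mul]
      exact mul_ne_zero hp hG

theorem PT3_exists_mult {σ : Type} {q F : MvPolynomial σ Qb} (hq : Irreducible q) (hF : F ≠ 0) :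
    ∃ e : ℕ, q ^ e ∣ F ∧ ¬ q ^ (e + 1) ∣ F := by
  obtain ⟨n, a, h1, rfl⟩ := WfDvdMonoid.max_power_factor hF hq
  refine ⟨n, dvd_mul_right _ _, fun h => h1 ?_⟩
  rwa [pow_succ, mul_dvd_mul_iff_left (pow_ne_zero _ hq.ne_zero)] at h

theorem PT3_degreeOf_pow_dvd {σ : Type} {q F : MvPolynomial σ Qb} (hF : F ≠ 0) {e : ℕ}
    (h : q ^ e ∣ F) (j : σ) : e * q.degreeOf j ≤ F.degreeOf j := by
  obtain ⟨R, rfl⟩ := h
  rcases Nat.eq_zero_or_pos e with rfl | he
  · simp
  have hq : q ≠ 0 := by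
    rintro rfl
    exact hF (by rw [zero_pow he.ne', zero_mul])
  rw [degreeOf_mul_eq (left_ne_zero_of_mul hF) (right_ne_zero_of_mul hF),
    degreeOf_pow_eq _ _ _ hq]
  exact Nat.le_add_right _ _

theorem PT3_hp_pow_dvd {σ : Type} [Fintype σ] {q F : MvPolynomial σ Qb} (hF : F ≠ 0) {e : ℕ}
    (h : q ^ e ∣ F) (d : σ → ℕ) (hd : ∀ j, F.degreeOf j ≤ d j) :
    e * hp q ≤ hp F + 2 * ∑ j, (d j : ℝ) := by
  obtain ⟨R, rfl⟩ := h
  have hprod : ∏ i : Option (Fin e), (i.elim R fun _ => q) = q ^ e * R := by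
    rw [Fintype.prod_option]
    simp [mul_comm]
  have hne : ∀ i ∈ (Finset.univ : Finset (Option (Fin e))), (i.elim R fun _ => q) ≠ 0 := by
    rw [← Finset.prod_ne_zero_iff, hprod]
    exact hF
  have h1 := gelfond Finset.univ (fun i : Option (Fin e) => i.elim R fun _ => q) hne d
    (by rw [hprod]; exact hd)
  rw [hprod, Fintype.sum_option] at h1
  simp only [Option.elim_none, Option.elim_some, Finset.sum_const, Finset.card_univ,
    Fintype.card_fin, nsmul_eq_mul] at h1
  have := PT3_hp_nonneg R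
  linarith

theorem PT3_degreeOf_comb {σ ι : Type} [Fintype ι] (c : ι → Qb) (H : ι → MvPolynomial σ Qb)
    (j : σ) (D : ℕ) (h : ∀ k, (H k).degreeOf j ≤ D) : (∑ k, c k • H k).degreeOf j ≤ D := by
  refine (degreeOf_sum_le j _ _).trans (Finset.sup_le fun k _ => ?_)
  rw [smul_eq_C_mul]
  exact (degreeOf_C_mul_le _ _ _).trans (h k)

theorem PT3_coeff_le_nrm {σ : Type} (v : AbsoluteValue Qb ℝ) (F : MvPolynomial σ Qb)
    (m : σ →₀ ℕ) : v (F.coeff m) ≤ nrm v F.coeffs := by
  by_cases h : F.coeff m = 0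
  · rw [h, map_zero]
    exact nrm_nonneg _ _
  · exact le_nrm v (coeff_mem_coeffs m h)

theorem PT3_nrm_comb {σ ι : Type} [Fintype ι] (c : ι → ℕ) (H : ι → MvPolynomial σ Qb)
    (F : MvPolynomial σ Qb) (K : ℕ) (hK : Fintype.card ι ≤ K) (hc : ∀ k, c k ≤ K)
    {q : ℕ} {v : AbsoluteValue Qb ℝ} (hv : IsPl q v)
    (h : ∀ k, nrm v (H k).coeffs ≤ th q (2 ^ K) * nrm v F.coeffs) :
    nrm v (∑ k, (c k : Qb) • H k).coeffs ≤ th q (Real.exp (3 * K)) * nrm v F.coeffs := by
  have hF := nrm_nonneg v F.coeffs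
  have hth : ∀ x : ℝ, 0 ≤ x → 0 ≤ th q x := fun x hx => by
    unfold th; split_ifs
    · exact hx
    · exact zero_le_one
  have hthm : ∀ x y : ℝ, x ≤ y → th q x ≤ th q y := fun x y hxy => by
    unfold th; split_ifs
    · exact hxy
    · exact le_rfl
  refine nrm_le v (mul_nonneg (hth _ (Real.exp_pos _).le) hF) fun a ha => ?_
  obtain ⟨m, -, rfl⟩ := mem_coeffs_iff.1 ha
  rw [coeff_sum]
  have hM : 0 ≤ th q K * (th q (2 ^ K) * nrm v F.coeffs) :=
    mul_nonneg (hth _ (Nat.cast_nonneg _)) (mul_nonneg (hth _ (by positivity)) hF)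
  refine (hv.sum_le Finset.univ _ hM fun k _ => ?_).trans ?_
  · rw [coeff_smul, smul_eq_mul, map_mul]
    refine mul_le_mul ((hv.natCast_le _).trans (hthm _ _ (by exact_mod_cast hc k)))
      ((PT3_coeff_le_nrm v _ _).trans (h k)) (v.nonneg _) (hth _ (Nat.cast_nonneg _))
  · rw [← mul_assoc, ← mul_assoc]
    refine mul_le_mul_of_nonneg_right ?_ hF
    unfold th
    split_ifs
    · have h1 : (K : ℝ) ≤ Real.exp K := by linarith [Real.add_one_le_exp (K : ℝ)]
      have h2 : (2 : ℝ) ^ K ≤ Real.exp K := by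
        rw [← Real.exp_one_pow]
        exact pow_le_pow_left₀ (by norm_num) (by linarith [Real.add_one_le_exp (1 : ℝ)]) _
      have h3 : ((Finset.univ : Finset ι).card : ℝ) ≤ K := by exact_mod_cast hK
      have h4 : Real.exp (3 * K) = Real.exp K * Real.exp K * Real.exp K := by
        rw [← Real.exp_add, ← Real.exp_add]; ring_nf
      rw [h4]
      have h5 := (Real.exp_pos (K : ℝ)).le
      gcongr
      exact h3.trans h1
    · norm_num

theorem PT3_idx_rename {σ τ : Type} [Fintype σ] [Fintype τ] (e : σ ≃ τ) {F : MvPolynomial σ Qb}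
    {p : σ → Qb} {d : σ → ℕ} {ϑ : ℝ} (h : IdxGe F p d ϑ) :
    IdxGe (rename e F) (p ∘ e.symm) (d ∘ e.symm) ϑ := by
  have h1 : shf (p ∘ e.symm) (rename e F) = rename e (shf p F) := by
    unfold shf
    rw [aeval_rename, ← AlgHom.comp_apply, comp_aeval]
    congr 2
    funext j
    simp
  intro m hm
  rw [h1, support_rename_of_injective e.injective] at hm
  obtain ⟨m', hm', rfl⟩ := Finset.mem_image.1 hm
  refine (h m' hm').trans (le_of_eq ?_)
  rw [← e.sum_comp]
  refine Finset.sum_congr rfl fun j _ => ?_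
  rw [Finsupp.mapDomain_apply e.injective]
  simp

end Pool.Agent.E6b
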