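import Pool.Agent.E6b.PT2
import Pool.Agent.E6b.PT3Aux1

open scoped NNReal TensorProduct IntermediateField BigOperators Classical Topology
open Filter

namespace Pool.Agent.E6b

open MvPolynomial

theorem PT3_wt_le {σ : Type} (blk : σ → Bool) {d₁ d₂ : ℕ} (h : d₂ ≤ d₁) (j : σ) :
    wt blk d₁ d₂ j ≤ d₁ := by
  unfold wt; split_ifs
  · exact h
  · exact le_rfl

theorem PT3_wt_pos {σ : Type} (blk : σ → Bool) {d₁ d₂ : ℕ} (h0 : 0 < d₂) (h : d₂ ≤ d₁) (j : σ) :
    0 < wt blk d₁ d₂ j := by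
  unfold wt; split_ifs
  · exact h0
  · exact h0.trans_le h

/-- a variable of largest weight -/
theorem PT3_exists_var {σ : Type} (blk : σ → Bool) {q : MvPolynomial σ Qb} (hq : Irreducible q) :
    ∃ j ∈ q.vars, blk j = true → ∀ i ∈ q.vars, blk i = true := by
  by_cases h : ∃ j ∈ q.vars, blk j = false
  · obtain ⟨j, hj, hb⟩ := h
    exact ⟨j, hj, fun h' => absurd (hb ▸ h') (by simp)⟩
  · obtain ⟨j, hj⟩ := PT3_vars_nonempty hq
    refine ⟨j, hj, fun _ i hi => ?_⟩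
    by_contra h'
    exact h ⟨i, hi, by simpa using h'⟩

theorem PT3_sum_le {N : ℕ} (blk : Fin N → Bool) (a : ℕ) {d₁ d₂ : ℕ} (h : d₂ ≤ d₁) :
    ∑ j, a * wt blk d₁ d₂ j ≤ N * a * d₁ := by
  have := Finset.sum_le_card_nsmul Finset.univ (fun j => a * wt blk d₁ d₂ j) (a * d₁)
    fun j _ => Nat.mul_le_mul_left _ (PT3_wt_le blk h j)
  simpa [mul_assoc] using this

/-- a factor of large multiplicity -/
theorem PT3_caseA {N : ℕ} (blk : Fin N → Bool) (a : ℕ) {τ : ℝ} (hτ : 0 < τ) (L : ℕ)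
    (hL : 1 ≤ τ * L) {d₁ d₂ : ℕ} (h0 : 0 < d₂) (h12 : d₂ ≤ d₁) (hρ : (a * L + 1) * d₂ ≤ d₁)
    {F : MvPolynomial (Fin N) Qb} (hF : F ≠ 0) (hd : ∀ j, F.degreeOf j ≤ a * wt blk d₁ d₂ j)
    {q : MvPolynomial (Fin N) Qb} {e : ℕ} (he : q ^ e ∣ F) {j : Fin N}
    (hj : blk j = true → ∀ i ∈ q.vars, blk i = true) (hbig : τ * wt blk d₁ d₂ j ≤ e) :
    (∀ i ∈ q.vars, blk i = blk j) ∧ q.totalDegree ≤ N * (a * L) ∧
      hp q * (wt blk d₁ d₂ j : ℕ) ≤ (L * (1 + 2 * N * a) : ℕ) * (hp F + d₁) := by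
  have hw : wt blk d₁ d₂ j ≤ e * L := by
    have h1 : (wt blk d₁ d₂ j : ℝ) ≤ e * L := by
      have h2 : (0 : ℝ) ≤ wt blk d₁ d₂ j := Nat.cast_nonneg _
      have h3 : (0 : ℝ) ≤ L := Nat.cast_nonneg _
      calc (wt blk d₁ d₂ j : ℝ) ≤ (τ * L) * wt blk d₁ d₂ j := le_mul_of_one_le_left h2 hL
        _ = (τ * wt blk d₁ d₂ j) * L := by ring
        _ ≤ e * L := mul_le_mul_of_nonneg_right hbig h3
    exact_mod_cast h1
  have hdeg : ∀ i, e * q.degreeOf i ≤ a * wt blk d₁ d₂ i := fun i =>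
    (PT3_degreeOf_pow_dvd hF he i).trans (hd i)
  have hblk : ∀ i ∈ q.vars, blk i = blk j := by
    intro i hi
    cases hbj : blk j with
    | true => exact hj hbj i hi
    | false =>
      by_contra hbi
      have hbi' : blk i = true := by simpa using hbi
      have h1 : 1 ≤ q.degreeOf i := Nat.one_le_iff_ne_zero.2 (mem_vars_iff_degreeOf_ne_zero.1 hi)
      have h2 := hdeg i
      simp only [wt, hbi', hbj, if_true] at h2 hw
      simp only [Bool.false_eq_true, if_false] at hw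
      have h3 : e ≤ a * d₂ := (Nat.le_mul_of_pos_right e h1).trans h2
      have h4 : e * L ≤ a * d₂ * L := Nat.mul_le_mul_right _ h3
      nlinarith
  refine ⟨hblk, ?_, ?_⟩
  · refine (PT3_totalDegree_le_sum q).trans ?_
    have := Finset.sum_le_card_nsmul Finset.univ (fun i => q.degreeOf i) (a * L) fun i _ => by
      by_cases hi : i ∈ q.vars
      · have h1 : wt blk d₁ d₂ i = wt blk d₁ d₂ j := by simp only [wt, hblk i hi]
        have h2 := hdeg i
        rw [h1] at h2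
        have h3 : 0 < e := by
          rcases Nat.eq_zero_or_pos e with rfl | h
          · have := PT3_wt_pos blk h0 h12 j
            omega
          · exact h
        have h4 : e * q.degreeOf i ≤ e * (a * L) := by
          calc e * q.degreeOf i ≤ a * wt blk d₁ d₂ j := h2
            _ ≤ a * (e * L) := Nat.mul_le_mul_left _ hw
            _ = e * (a * L) := by ring
        exact Nat.le_of_mul_le_mul_left h4 h3
      · have : q.degreeOf i = 0 := by
          by_contra h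
          exact hi (mem_vars_iff_degreeOf_ne_zero.2 h)
        simp [this]
    simpa using this
  · have h1 := PT3_hp_pow_dvd hF he (fun i => a * wt blk d₁ d₂ i) hd
    have h2 : ∑ i, ((a * wt blk d₁ d₂ i : ℕ) : ℝ) ≤ N * a * d₁ := by
      exact_mod_cast PT3_sum_le blk a h12
    have h3 : (wt blk d₁ d₂ j : ℝ) ≤ e * L := by exact_mod_cast hw
    have h4 := PT3_hp_nonneg q
    have h5 := PT3_hp_nonneg F
    have h6 : (0 : ℝ) ≤ L := Nat.cast_nonneg _
    have h7 : (0 : ℝ) ≤ N * a := by positivity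
    have h8 : (0 : ℝ) ≤ d₁ := Nat.cast_nonneg _
    push_cast
    calc hp q * (wt blk d₁ d₂ j : ℝ) ≤ hp q * (e * L) := mul_le_mul_of_nonneg_left h3 h4
      _ = L * (e * hp q) := by ring
      _ ≤ L * (hp F + 2 * (N * a * d₁)) := mul_le_mul_of_nonneg_left (by linarith) h6
      _ ≤ L * ((1 + 2 * N * a) * (hp F + d₁)) :=
        mul_le_mul_of_nonneg_left (by nlinarith [mul_nonneg h7 h5]) h6
      _ = _ := by ring

/-- all factors have small multiplicity: eliminate a variable -/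
theorem PT3_caseB {N : ℕ} (d : Fin (N + 1) → ℕ) (hd0 : ∀ j, 0 < d j) (a : ℕ) (ha : 0 < a)
    {τ : ℝ} (hτ : 0 < τ) (hτ1 : τ ≤ 1) {F : MvPolynomial (Fin (N + 1)) Qb} (hF : F ≠ 0)
    (hd : ∀ j, F.degreeOf j ≤ a * d j) {p : Fin (N + 1) → Qb} (hi : IdxGe F p d (2 * τ))
    (s : Finset (MvPolynomial (Fin (N + 1)) Qb))
    (hcov : ∀ q, Irreducible q → q ∣ F → ∃ q' ∈ s, q' ∣ q) (hcard : s.card ≤ ∑ j, F.degreeOf j)
    (hs : ∀ q ∈ s, ∃ (j : Fin (N + 1)) (e : ℕ), ¬ q ∣ ddv j e F ∧ (e : ℝ) ≤ τ * d j) :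
    ∃ R : MvPolynomial (Fin N) Qb, R ≠ 0 ∧
      (∀ j, R.degreeOf j ≤ 2 * a ^ 2 * (d 0 * d j.succ)) ∧
      IdxGe R (fun j => p j.succ) (fun j => d 0 * d j.succ) (τ ^ 2 / 2) ∧
      hp R ≤ 2 * a * d 0 * (hp F + 6 * (∑ j, a * d j : ℕ)) := by
  choose! jj ee h1 h2 using hs
  obtain ⟨c, hc, hnd⟩ := exists_comb (ι := s) (fun k => k.1) (fun k => ddv (jj k.1) (ee k.1) F)
    fun k => h1 k.1 k.2
  set K : ℕ := ∑ j, a * d j with hK
  have hcK : Fintype.card s ≤ K := by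
    rw [Fintype.card_coe]
    exact hcard.trans (Finset.sum_le_sum fun j _ => hd j)
  obtain ⟨R, hR0, hR1, hR2, hR3⟩ := exists_elim F (∑ k : s, (c k : Qb) • ddv (jj k.1) (ee k.1) F)
    hF (fun q hq hqF hqG => by
      obtain ⟨q', hq', hdv⟩ := hcov q hq hqF
      exact hnd ⟨q', hq'⟩ (hdv.trans hqG)) p d hd0 a ha hd
    (fun j => PT3_degreeOf_comb _ _ j _ fun k => (degreeOf_ddv_le _ _ _).trans (hd j))
    τ hτ.le hτ1 (hi.mono (by linarith))
    (IdxGe.sum _ _ _ fun k _ => (hi.ddv (jj k.1) (ee k.1)).mono (by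
      have h3 : (0 : ℝ) < d (jj k.1) := by exact_mod_cast hd0 _
      have h4 : (ee k.1 : ℝ) / d (jj k.1) ≤ τ := by
        rw [div_le_iff₀ h3]; exact h2 k.1 k.2
      linarith))
    (Real.exp (3 * K)) (Real.one_le_exp (by positivity))
    (fun q v hv => PT3_nrm_comb c _ F K hcK (fun k => (hc k).trans hcK) hv fun k => by
      refine (nrm_ddv_le hv _ _).trans (mul_le_mul_of_nonneg_right ?_ (nrm_nonneg _ _))
      unfold th
      split_ifs
      · refine pow_le_pow_right₀ (by norm_num) ((hd _).trans ?_)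
        exact Finset.single_le_sum (f := fun j => a * d j) (fun _ _ => Nat.zero_le _)
          (Finset.mem_univ _)
      · exact le_rfl)
  refine ⟨R, hR0, hR1, hR2, hR3.trans (le_of_eq ?_)⟩
  have h5 : (K : ℝ) = a * ∑ j, (d j : ℝ) := by
    rw [hK, Finset.mul_sum]; push_cast; rfl
  rw [Real.log_exp, h5]
  ring

end Pool.Agent.E6b
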