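import Pool.Agent.E6b.PT1
import Pool.Agent.E6b.PT2
import Pool.Agent.E6b.PT3Aux2

open scoped NNReal TensorProduct IntermediateField BigOperators Classical Topology
open Filter

namespace Pool.Agent.E6b

open MvPolynomial

theorem PT3_core (N : ℕ) : ∀ (blk : Fin N → Bool) (a : ℕ) (ϑ : ℝ), 0 < a → 0 < ϑ → ϑ ≤ 1 →
    ∃ B ρ : ℕ, ∀ d₁ d₂ : ℕ, 0 < d₂ → d₂ ≤ d₁ → ρ * d₂ ≤ d₁ →
      ∀ (F : MvPolynomial (Fin N) Qb) (p : Fin N → Qb), F ≠ 0 →
      (∀ j, F.degreeOf j ≤ a * wt blk d₁ d₂ j) → IdxGe F p (wt blk d₁ d₂) ϑ →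
      ∃ (b : Bool) (q : MvPolynomial (Fin N) Qb), q ≠ 0 ∧ (∀ j ∈ q.vars, blk j = b) ∧
        q.totalDegree ≤ B ∧ eval p q = 0 ∧
        hp q * (if b then d₂ else d₁ : ℕ) ≤ B * (hp F + d₁) := by
  induction N with
  | zero =>
    intro blk a ϑ _ hϑ _
    refine ⟨0, 0, fun d₁ d₂ _ _ _ F p hF _ hi => absurd ?_ hF⟩
    have h := hi.eval_eq_zero hϑ
    rw [eq_C_of_isEmpty F, eval_C] at h
    rw [eq_C_of_isEmpty F, h, map_zero]
  | succ N ih =>
    intro blk a ϑ ha hϑ hϑ1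
    obtain ⟨τ, rfl⟩ : ∃ τ, ϑ = 2 * τ := ⟨ϑ / 2, by ring⟩
    have hτ : 0 < τ := by linarith
    obtain ⟨B', ρ', hB⟩ := ih (fun j => blk j.succ) (2 * a ^ 2) (τ ^ 2 / 2) (by positivity)
      (by positivity) (by nlinarith)
    obtain ⟨L, hL⟩ : ∃ L : ℕ, 1 ≤ τ * L := by
      obtain ⟨L, hL⟩ := exists_nat_ge (1 / τ)
      exact ⟨L, by rwa [div_le_iff₀' hτ] at hL⟩
    set C : ℕ := 2 * a + 16 * a * ((N + 1) * a) + 1 with hC
    refine ⟨(N + 1) * (a * L) + L * (1 + 2 * (N + 1) * a) + B' * C, ρ' + (a * L + 1),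
      fun d₁ d₂ h0 h12 hρ F p hF hd hi => ?_⟩
    have hρ1 : ρ' * d₂ ≤ d₁ := (Nat.mul_le_mul_right _ (Nat.le_add_right _ _)).trans hρ
    have hρ2 : (a * L + 1) * d₂ ≤ d₁ := (Nat.mul_le_mul_right _ (Nat.le_add_left _ _)).trans hρ
    have hw0 := PT3_wt_pos blk h0 h12
    have hFd : (0 : ℝ) ≤ hp F + d₁ := add_nonneg (PT3_hp_nonneg F) (Nat.cast_nonneg _)
    obtain ⟨F0, G0, s, hFG, hG, hs, hcov, hcard⟩ := PT3_split p F hF
    have hdv : F0 ∣ F := hFG ▸ dvd_mul_right F0 G0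
    have hF0 : F0 ≠ 0 := ne_zero_of_dvd_ne_zero hF hdv
    have hd0 : ∀ j, F0.degreeOf j ≤ a * wt blk d₁ d₂ j := fun j => by
      have := PT3_degreeOf_pow_dvd hF (e := 1) (q := F0) (by rwa [pow_one]) j
      rw [one_mul] at this
      exact this.trans (hd j)
    have hi0 : IdxGe F0 p (wt blk d₁ d₂) (2 * τ) := IdxGe.of_mul hw0 (hFG ▸ hi) hG
    by_cases hA : ∀ q ∈ s, ∃ (j : Fin (N + 1)) (e : ℕ), ¬ q ∣ ddv j e F0 ∧
        (e : ℝ) ≤ τ * wt blk d₁ d₂ j
    · obtain ⟨R, hR0, hR1, hR2, hR3⟩ := PT3_caseB (wt blk d₁ d₂) hw0 a ha hτ (by linarith) hF0 hd0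
        hi0 s hcov hcard hA
      set D : ℕ := wt blk d₁ d₂ 0 with hD
      have hD0 : 0 < D := hw0 0
      have hwt : wt (fun j : Fin N => blk j.succ) (D * d₁) (D * d₂) =
          fun j => D * wt blk d₁ d₂ j.succ := by
        funext j
        simp only [wt]
        split_ifs <;> rfl
      obtain ⟨b, q, hq0, hq1, hq2, hq3, hq4⟩ := hB (D * d₁) (D * d₂) (Nat.mul_pos hD0 h0)
        (Nat.mul_le_mul_left _ h12)
        (by rw [mul_left_comm]; exact Nat.mul_le_mul_left _ hρ1) R (fun j => p j.succ) hR0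
        (by rw [hwt]; exact hR1) (by rw [hwt]; exact hR2)
      have hC1 : 1 ≤ C := Nat.le_add_left _ _
      refine ⟨b, rename Fin.succ q, ?_, ?_, ?_, ?_, ?_⟩
      · exact (map_ne_zero_iff _ (rename_injective _ (Fin.succ_injective N))).2 hq0
      · intro j hj
        obtain ⟨i, hi, rfl⟩ := mem_vars_rename _ _ hj
        exact hq1 i hi
      · refine (totalDegree_rename_le _ _).trans (hq2.trans ?_)
        exact (Nat.le_mul_of_pos_right _ hC1).trans (Nat.le_add_left _ _)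
      · rw [eval_rename]
        exact hq3
      · rw [PT3_hp_rename (Fin.succ_injective N)]
        have e1 : ((if b then D * d₂ else D * d₁ : ℕ) : ℝ) =
            D * (if b then d₂ else d₁ : ℕ) := by
          cases b <;> simp
        rw [e1] at hq4
        have hDr : (0 : ℝ) < D := by exact_mod_cast hD0
        have h1 := PT3_hp_pow_dvd hF (e := 1) (q := F0) (by rwa [pow_one])
          (fun i => a * wt blk d₁ d₂ i) hd
        have h2 : ((∑ i, a * wt blk d₁ d₂ i : ℕ) : ℝ) ≤ ((N + 1) * a : ℕ) * d₁ := by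
          exact_mod_cast PT3_sum_le blk a h12
        rw [← Nat.cast_sum, Nat.cast_one, one_mul] at h1
        set K : ℝ := ((∑ i, a * wt blk d₁ d₂ i : ℕ) : ℝ)
        set M : ℝ := (((N + 1) * a : ℕ) : ℝ) with hM
        have hM0 : 0 ≤ M := Nat.cast_nonneg _
        have ha0 : (0 : ℝ) ≤ a := Nat.cast_nonneg _
        have hd1 : (0 : ℝ) ≤ d₁ := Nat.cast_nonneg _
        have hF1 := PT3_hp_nonneg F
        have hCr : (C : ℝ) = 2 * a + 16 * a * M + 1 := by
          rw [hC, hM]; push_cast; ring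
        have h3 : hp R ≤ D * (2 * a * (hp F + 8 * (M * d₁))) := by
          refine hR3.trans ?_
          rw [mul_comm (2 * (a : ℝ)) D, mul_assoc]
          exact mul_le_mul_of_nonneg_left
            (mul_le_mul_of_nonneg_left (by linarith) (by positivity)) hDr.le
        have h4 : hp R + (D * d₁ : ℕ) ≤ D * (C * (hp F + d₁)) := by
          have h5 : 2 * a * (hp F + 8 * (M * d₁)) + d₁ ≤ C * (hp F + d₁) := by
            rw [hCr]
            nlinarith [mul_nonneg (mul_nonneg ha0 hM0) hF1, mul_nonneg ha0 hd1]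
          push_cast
          nlinarith
        have h6 : D * (hp q * (if b then d₂ else d₁ : ℕ)) ≤ D * (B' * C * (hp F + d₁)) := by
          calc D * (hp q * (if b then d₂ else d₁ : ℕ))
              = hp q * (D * (if b then d₂ else d₁ : ℕ)) := by ring
            _ ≤ B' * (hp R + (D * d₁ : ℕ)) := hq4
            _ ≤ B' * (D * (C * (hp F + d₁))) :=
              mul_le_mul_of_nonneg_left h4 (Nat.cast_nonneg _)
            _ = _ := by ring
        refine (le_of_mul_le_mul_left h6 hDr).trans (mul_le_mul_of_nonneg_right ?_ hFd)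
        exact_mod_cast Nat.le_add_left _ _
    · push Not at hA
      obtain ⟨q, hqs, hq⟩ := hA
      obtain ⟨hq1, hq2, hq3⟩ := hs q hqs
      obtain ⟨e, he1, he2⟩ := PT3_exists_mult hq1 hF0
      obtain ⟨j, hj1, hj2⟩ := PT3_exists_var blk hq1
      obtain ⟨k1, k2, k3⟩ := PT3_caseA blk a hτ L hL h0 h12 hρ2 hF hd (he1.trans hdv) hj2
        (hq j e (not_dvd_ddv hq1 hj1 he1 he2)).le
      refine ⟨blk j, q, hq1.ne_zero, k1, ?_, hq3, ?_⟩
      · exact k2.trans ((Nat.le_add_right _ _).trans (Nat.le_add_right _ _))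
      · refine k3.trans (mul_le_mul_of_nonneg_right ?_ hFd)
        exact_mod_cast (Nat.le_add_left _ _).trans (Nat.le_add_right _ _)

/-- weak product theorem, `Fin N` version -/
theorem prod_thm_fin (N : ℕ) : ∀ (blk : Fin N → Bool) (a : ℕ) (ϑ : ℝ), 0 < ϑ →
    ∃ B ρ : ℕ, ∀ d₁ d₂ : ℕ, 0 < d₂ → d₂ ≤ d₁ → ρ * d₂ ≤ d₁ →
      ∀ (F : MvPolynomial (Fin N) Qb) (p : Fin N → Qb), F ≠ 0 →
      (∀ j, F.degreeOf j ≤ a * wt blk d₁ d₂ j) → IdxGe F p (wt blk d₁ d₂) ϑ →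
      ∃ (b : Bool) (q : MvPolynomial (Fin N) Qb), q ≠ 0 ∧ (∀ j ∈ q.vars, blk j = b) ∧
        q.totalDegree ≤ B ∧ eval p q = 0 ∧
        hp q * (if b then d₂ else d₁ : ℕ) ≤ B * (hp F + d₁) := by
  intro blk a ϑ hϑ
  obtain ⟨B, ρ, h⟩ := PT3_core N blk (a + 1) (min ϑ 1) a.succ_pos (lt_min hϑ one_pos)
    (min_le_right _ _)
  exact ⟨B, ρ, fun d₁ d₂ h0 h12 hρ F p hF hd hi => h d₁ d₂ h0 h12 hρ F p hF
    (fun j => (hd j).trans (Nat.mul_le_mul_right _ a.le_succ)) (hi.mono (min_le_left _ _))⟩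

/-- weak product theorem for two blocks of variables -/
theorem prod_thm (r₁ r₂ a : ℕ) {ϑ : ℝ} (hϑ : 0 < ϑ) :
    ∃ B ρ : ℕ, ∀ d₁ d₂ : ℕ, 0 < d₂ → d₂ ≤ d₁ → ρ * d₂ ≤ d₁ →
      ∀ (F : MvPolynomial (Fin r₁ ⊕ Fin r₂) Qb) (p₁ : Fin r₁ → Qb) (p₂ : Fin r₂ → Qb), F ≠ 0 →
      (∀ j, F.degreeOf (.inl j) ≤ a * d₁) → (∀ j, F.degreeOf (.inr j) ≤ a * d₂) →
      IdxGe F (Sum.elim p₁ p₂) (Sum.elim (fun _ => d₁) fun _ => d₂) ϑ →
      (∃ q : MvPolynomial (Fin r₁) Qb, q ≠ 0 ∧ q.totalDegree ≤ B ∧ eval p₁ q = 0 ∧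
        hp q * d₁ ≤ B * (hp F + d₁)) ∨
      (∃ q : MvPolynomial (Fin r₂) Qb, q ≠ 0 ∧ q.totalDegree ≤ B ∧ eval p₂ q = 0 ∧
        hp q * d₂ ≤ B * (hp F + d₁)) := by
  set e : Fin r₁ ⊕ Fin r₂ ≃ Fin (r₁ + r₂) := finSumFinEquiv with he
  obtain ⟨B, ρ, h⟩ := prod_thm_fin (r₁ + r₂) (fun j => (e.symm j).isRight) a ϑ hϑ
  refine ⟨B, ρ, fun d₁ d₂ h0 h12 hρ F p₁ p₂ hF hd1 hd2 hi => ?_⟩
  have hwt : wt (fun j => (e.symm j).isRight) d₁ d₂ =
      (Sum.elim (fun _ => d₁) fun _ => d₂) ∘ e.symm := by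
    funext j
    obtain ⟨i, rfl⟩ := e.surjective j
    cases i <;> simp [wt]
  obtain ⟨b, q, hq0, hq1, hq2, hq3, hq4⟩ := h d₁ d₂ h0 h12 hρ (rename e F)
    (Sum.elim p₁ p₂ ∘ e.symm) ((map_ne_zero_iff _ (rename_injective _ e.injective)).2 hF)
    (fun j => by
      obtain ⟨i, rfl⟩ := e.surjective j
      rw [degreeOf_rename_of_injective e.injective, hwt]
      cases i with
      | inl i => simpa using hd1 i
      | inr i => simpa using hd2 i) (by rw [hwt]; exact PT3_idx_rename e hi)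
  rw [PT3_hp_rename e.injective] at hq4
  cases b with
  | false =>
    have hinj : Function.Injective (e ∘ Sum.inl) := e.injective.comp Sum.inl_injective
    obtain ⟨q', rfl⟩ := exists_rename_eq_of_vars_subset_range q _ hinj fun j hj => by
      obtain ⟨i, rfl⟩ := e.surjective j
      have := hq1 _ hj
      cases i with
      | inl i => exact ⟨i, rfl⟩
      | inr i => simp at this
    refine Or.inl ⟨q', fun h0 => hq0 (by rw [h0, map_zero]),
      (PT3_totalDegree_le_rename hinj q').trans hq2, ?_, ?_⟩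
    · rw [eval_rename] at hq3
      convert hq3 using 3
      funext i
      simp
    · rw [PT3_hp_rename hinj] at hq4
      simpa using hq4
  | true =>
    have hinj : Function.Injective (e ∘ Sum.inr) := e.injective.comp Sum.inr_injective
    obtain ⟨q', rfl⟩ := exists_rename_eq_of_vars_subset_range q _ hinj fun j hj => by
      obtain ⟨i, rfl⟩ := e.surjective j
      have := hq1 _ hj
      cases i with
      | inl i => simp at this
      | inr i => exact ⟨i, rfl⟩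
    refine Or.inr ⟨q', fun h0 => hq0 (by rw [h0, map_zero]),
      (PT3_totalDegree_le_rename hinj q').trans hq2, ?_, ?_⟩
    · rw [eval_rename] at hq3
      convert hq3 using 3
      funext i
      simp
    · rw [PT3_hp_rename hinj] at hq4
      simpa using hq4

end Pool.Agent.E6b
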