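import Pool.Agent.E6b.TB1

open scoped NNReal TensorProduct IntermediateField BigOperators Classical Topology
open Filter

namespace Pool.Agent.E6b

open MvPowerSeries

section Iter

variable {σ : Type} {K : Type} [CommRing K]

/-- the coefficients of degree less than `n` vanish -/
def TB2_Z (n : ℕ) (f : MvPowerSeries σ K) : Prop := ∀ m : σ →₀ ℕ, m.degree < n → coeff m f = 0

theorem TB2_Z.mul {a b : ℕ} {f g : MvPowerSeries σ K} (hf : TB2_Z a f) (hg : TB2_Z b g) :
    TB2_Z (a + b) (f * g) := fun m hm => by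
  rw [coeff_mul]
  refine Finset.sum_eq_zero fun x hx => ?_
  rw [← Finset.HasAntidiagonal.mem_antidiagonal.1 hx, map_add] at hm
  by_cases h : x.1.degree < a
  · rw [hf _ h, zero_mul]
  · rw [hg _ (by omega), mul_zero]

theorem TB2_Z.add {a : ℕ} {f g : MvPowerSeries σ K} (hf : TB2_Z a f) (hg : TB2_Z a g) :
    TB2_Z a (f + g) := fun m hm => by rw [map_add, hf m hm, hg m hm, add_zero]

theorem TB2_Z_one {f : MvPowerSeries σ K} : TB2_Z 1 f ↔ constantCoeff f = 0 := by
  refine ⟨fun h => h 0 (by simp), fun h m hm => ?_⟩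
  obtain rfl : m = 0 := (Finsupp.degree_eq_zero_iff m).1 (by omega)
  exact h

/-- the map that is iterated -/
noncomputable def TB2_Phi (B₀ : MvPowerSeries σ K) (B : ℕ → MvPowerSeries σ K) (e : ℕ)
    (Y : MvPowerSeries σ K) : MvPowerSeries σ K :=
  B₀ + ∑ j ∈ Finset.range e, B j * Y ^ (j + 1 + 1)

variable {B₀ : MvPowerSeries σ K} {B : ℕ → MvPowerSeries σ K} {e : ℕ}

theorem TB2_Phi_zero (h0 : constantCoeff B₀ = 0) {Y : MvPowerSeries σ K}
    (hY : constantCoeff Y = 0) : constantCoeff (TB2_Phi B₀ B e Y) = 0 := by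
  simp [TB2_Phi, h0, hY]

theorem TB2_Phi_sub {Y Z : MvPowerSeries σ K} (hY : constantCoeff Y = 0)
    (hZ : constantCoeff Z = 0) {n : ℕ} (h : TB2_Z n (Y - Z)) :
    TB2_Z (n + 1) (TB2_Phi B₀ B e Y - TB2_Phi B₀ B e Z) := by
  choose R hR using fun j : ℕ => sub_dvd_pow_sub_pow Y Z (j + 1)
  have : TB2_Phi B₀ B e Y - TB2_Phi B₀ B e Z =
      (Y - Z) * ∑ j ∈ Finset.range e, B j * (Y * R j + Z ^ (j + 1)) := by
    rw [TB2_Phi, TB2_Phi, add_sub_add_left_eq_sub, ← Finset.sum_sub_distrib, Finset.mul_sum]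
    refine Finset.sum_congr rfl fun j _ => ?_
    linear_combination B j * Y * hR j
  rw [this]
  exact h.mul (TB2_Z_one.2 (by simp [hY, hZ]))

theorem TB2_fix (h0 : constantCoeff B₀ = 0) (B : ℕ → MvPowerSeries σ K) (e : ℕ) :
    ∃ Y : MvPowerSeries σ K, constantCoeff Y = 0 ∧ TB2_Phi B₀ B e Y = Y ∧
      ∀ m, ∃ n, coeff m Y = coeff m ((TB2_Phi B₀ B e)^[n] 0) := by
  set Φ := TB2_Phi B₀ B e with hΦ
  have c0 : ∀ n, constantCoeff (Φ^[n] 0) = 0 := fun n => by
    induction n with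
    | zero => simp
    | succ n ih => rw [Function.iterate_succ_apply']; exact TB2_Phi_zero h0 ih
  have c1 : ∀ n d, TB2_Z n (Φ^[n + d] 0 - Φ^[n] 0) := fun n d => by
    induction n with
    | zero => exact fun m hm => absurd hm (Nat.not_lt_zero _)
    | succ n ih =>
      rw [Nat.add_right_comm, Function.iterate_succ_apply', Function.iterate_succ_apply']
      exact TB2_Phi_sub (c0 _) (c0 _) ih
  let Y : MvPowerSeries σ K := fun m => coeff m (Φ^[m.degree + 1] 0)
  have hY : ∀ m, coeff m Y = coeff m (Φ^[m.degree + 1] 0) := fun _ => rfl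
  have c2 : ∀ n, TB2_Z n (Y - Φ^[n] 0) := fun n m hm => by
    obtain ⟨d, rfl⟩ := Nat.exists_eq_add_of_le (Nat.succ_le_of_lt hm)
    have := c1 (m.degree + 1) d m (Nat.lt_succ_self _)
    rw [map_sub, sub_eq_zero] at this ⊢
    exact (hY m).trans this.symm
  have c3 : constantCoeff Y = 0 := (hY 0).trans (c0 (Finsupp.degree (0 : σ →₀ ℕ) + 1))
  refine ⟨Y, c3, MvPowerSeries.ext fun m => ?_, fun m => ⟨_, hY m⟩⟩
  have := TB2_Phi_sub (B₀ := B₀) (B := B) (e := e) c3 (c0 m.degree) (c2 _) m (Nat.lt_succ_self _)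
  rw [map_sub, sub_eq_zero] at this
  rw [this, hY, Function.iterate_succ_apply']

end Iter

section Norm

variable {σ : Type} [Fintype σ]

theorem TB2_geom (T : Finset (σ →₀ ℕ)) :
    ∑ m ∈ T, (2⁻¹ : ℝ) ^ m.degree ≤ 2 ^ Fintype.card σ := by
  set n := T.sup fun m => m.degree
  have h1 : ∑ m ∈ T, (2⁻¹ : ℝ) ^ m.degree =
      ∑ x ∈ T.image (fun m : σ →₀ ℕ => (m : σ → ℕ)), ∏ i, (2⁻¹ : ℝ) ^ x i := by
    rw [Finset.sum_image fun _ _ _ _ h => DFunLike.coe_injective h]
    simp only [Finsupp.degree_eq_sum, Finset.prod_pow_eq_pow_sum]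
  have h2 : T.image (fun m : σ →₀ ℕ => (m : σ → ℕ)) ⊆
      Fintype.piFinset fun _ => Finset.range (n + 1) := fun x hx => by
    obtain ⟨m, hm, rfl⟩ := Finset.mem_image.1 hx
    exact Fintype.mem_piFinset.2 fun i => Finset.mem_range.2 (Nat.lt_succ_of_le
      ((Finsupp.le_degree i m).trans (Finset.le_sup (f := fun m : σ →₀ ℕ => m.degree) hm)))
  rw [h1]
  refine (Finset.sum_le_sum_of_subset_of_nonneg h2 fun _ _ _ => by positivity).trans ?_
  rw [← Finset.prod_univ_sum (fun _ : σ => Finset.range (n + 1)) fun _ j => (2⁻¹ : ℝ) ^ j,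
    Finset.prod_const, Finset.card_univ]
  refine pow_le_pow_left₀ (by positivity) ?_ _
  simpa using sum_geometric_two_le (n + 1)

/-- the properties of a weighted norm -/
structure TB2_Nm (v : AbsoluteValue Qb ℝ) (θ ρ : ℝ) (Bd : MvPowerSeries σ Qb → ℝ → Prop) :
    Prop where
  mono : ∀ f A A', Bd f A → A ≤ A' → Bd f A'
  add : ∀ f g A, Bd f A → Bd g A → Bd (f + g) (θ * A)
  mul : ∀ f g A A', Bd f A → Bd g A' → Bd (f * g) (A * A')
  out : ∀ f A, Bd f A → ∀ m : σ →₀ ℕ, v (coeff m f) * ρ ^ m.degree ≤ A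
  int : ∀ f c, 0 ≤ c → (∀ m : σ →₀ ℕ, v (coeff m f) * ρ ^ m.degree ≤ c * θ⁻¹ ^ m.degree) →
    Bd f (c * θ ^ Fintype.card σ)

theorem TB2_arch (v : AbsoluteValue Qb ℝ) {ρ : ℝ} (hρ : 0 < ρ) : TB2_Nm (σ := σ) v 2 ρ
    fun f A => ∀ T : Finset (σ →₀ ℕ), ∑ m ∈ T, v (coeff m f) * ρ ^ m.degree ≤ A where
  mono := fun f A A' h e T => (h T).trans e
  add := fun f g A hf hg T => by
    rw [two_mul]
    refine le_trans ?_ (add_le_add (hf T) (hg T))
    rw [← Finset.sum_add_distrib]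
    refine Finset.sum_le_sum fun m _ => ?_
    rw [← add_mul, map_add]
    exact mul_le_mul_of_nonneg_right (v.add_le _ _) (by positivity)
  mul := fun f g A A' hf hg T => by
    set U := T.biUnion fun m => Finset.HasAntidiagonal.antidiagonal m with hU
    have h0 : 0 ≤ A := by simpa using hf ∅
    refine le_trans ?_ (mul_le_mul (hf (U.image Prod.fst)) (hg (U.image Prod.snd))
      (Finset.sum_nonneg fun _ _ => by positivity) h0)
    rw [Finset.sum_mul_sum, ← Finset.sum_product']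
    refine le_trans ?_ (Finset.sum_le_sum_of_subset_of_nonneg (s := U)
      (fun x hx => Finset.mem_product.2
        ⟨Finset.mem_image_of_mem _ hx, Finset.mem_image_of_mem _ hx⟩) fun _ _ _ => by positivity)
    rw [hU, Finset.sum_biUnion fun a _ b _ hab => Finset.disjoint_left.2 fun x h1 h2 =>
      hab ((Finset.HasAntidiagonal.mem_antidiagonal.1 h1).symm.trans
        (Finset.HasAntidiagonal.mem_antidiagonal.1 h2))]
    refine Finset.sum_le_sum fun m _ => ?_
    rw [coeff_mul]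
    refine (mul_le_mul_of_nonneg_right (v.sum_le _ _) (by positivity)).trans (le_of_eq ?_)
    rw [Finset.sum_mul]
    refine Finset.sum_congr rfl fun x hx => ?_
    rw [← Finset.HasAntidiagonal.mem_antidiagonal.1 hx, map_add, map_mul]
    ring
  out := fun f A h m => by simpa using h {m}
  int := fun f c hc h T => by
    refine (Finset.sum_le_sum fun m _ => h m).trans ?_
    rw [← Finset.mul_sum]
    exact mul_le_mul_of_nonneg_left (TB2_geom T) hc

theorem TB2_non {p : ℕ} {v : AbsoluteValue Qb ℝ} (hv : IsPl p v) (hp : p ≠ 0) {ρ : ℝ}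
    (hρ : 0 < ρ) : TB2_Nm (σ := σ) v 1 ρ
      fun f A => ∀ m : σ →₀ ℕ, v (coeff m f) * ρ ^ m.degree ≤ A where
  mono := fun f A A' h e m => (h m).trans e
  add := fun f g A hf hg m => by
    rw [one_mul, map_add]
    refine (mul_le_mul_of_nonneg_right (hv.nonarch hp _ _) (by positivity)).trans ?_
    rcases max_choice (v (coeff m f)) (v (coeff m g)) with h | h <;> rw [h]
    exacts [hf m, hg m]
  mul := fun f g A A' hf hg m => by
    have h0 : 0 ≤ A := le_trans (by positivity) (hf 0)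
    have h1 : 0 ≤ A' := le_trans (by positivity) (hg 0)
    rw [coeff_mul, ← le_div_iff₀ (by positivity)]
    refine (hv.sum_le _ _ (M := A * A' / ρ ^ m.degree) (by positivity) fun x hx => ?_).trans
      (by rw [th, if_neg hp, one_mul])
    rw [le_div_iff₀ (by positivity), ← Finset.HasAntidiagonal.mem_antidiagonal.1 hx, map_add,
      map_mul, pow_add, mul_mul_mul_comm]
    exact mul_le_mul (hf _) (hg _) (by positivity) h0
  out := fun f A h => h
  int := fun f c _ h m => by simpa using h m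

theorem TB2_bound {v : AbsoluteValue Qb ℝ} {θ c : ℝ} (hθ : 1 ≤ θ) (hc : 1 ≤ c) (e : ℕ)
    {Bd : MvPowerSeries σ Qb → ℝ → Prop}
    (H : TB2_Nm v θ ((c * θ ^ (Fintype.card σ + e)) ^ 2 * c * θ)⁻¹ Bd)
    {B₀ : MvPowerSeries σ Qb} {B : ℕ → MvPowerSeries σ Qb} (h0 : constantCoeff B₀ = 0)
    (h1 : ∀ m : σ →₀ ℕ, v (coeff m B₀) ≤ c ^ (m.degree + 1))
    (h2 : ∀ j (m : σ →₀ ℕ), v (coeff m (B j)) ≤ c ^ (m.degree + 1)) (n : ℕ) (m : σ →₀ ℕ) :
    v (coeff m ((TB2_Phi B₀ B e)^[n] 0)) ≤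
      ((c * θ ^ (Fintype.card σ + e)) ^ 2 * c * θ) ^ m.degree := by
  set D := c * θ ^ (Fintype.card σ + e) with hD
  have hD1 : 1 ≤ D := one_le_mul_of_one_le_of_one_le hc (one_le_pow₀ hθ)
  have hε : D⁻¹ ≤ 1 := inv_le_one_of_one_le₀ hD1
  have hε2 : D⁻¹ ^ 2 ≤ 1 := pow_le_one₀ (by positivity) hε
  have key : ∀ (f : MvPowerSeries σ Qb) (m : σ →₀ ℕ), v (coeff m f) ≤ c ^ (m.degree + 1) →
      v (coeff m f) * (D ^ 2 * c * θ)⁻¹ ^ m.degree ≤
        c * (D⁻¹ ^ 2) ^ m.degree * θ⁻¹ ^ m.degree := fun f m h => by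
    refine (mul_le_mul_of_nonneg_right h (by positivity)).trans (le_of_eq ?_)
    rw [pow_succ', mul_assoc, mul_assoc c (_ ^ _), ← mul_pow, ← mul_pow]
    congr 2
    field_simp
  have b0 : Bd B₀ (c * D⁻¹ ^ 2 * θ ^ Fintype.card σ) := H.int _ _ (by positivity) fun m => by
    by_cases hm : m = 0
    · subst hm
      rw [coeff_zero_eq_constantCoeff_apply, h0, map_zero, zero_mul]
      positivity
    · refine (key _ m (h1 m)).trans (mul_le_mul_of_nonneg_right (mul_le_mul_of_nonneg_left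
        (pow_le_of_le_one (by positivity) hε2 ?_) (by positivity)) (by positivity))
      exact fun h => hm ((Finsupp.degree_eq_zero_iff m).1 h)
  have b1 : ∀ j, Bd (B j) (c * θ ^ Fintype.card σ) := fun j => H.int _ _ (by positivity) fun m =>
    (key _ m (h2 j m)).trans (mul_le_mul_of_nonneg_right
      (mul_le_of_le_one_right (by positivity) (pow_le_one₀ (by positivity) hε2)) (by positivity))
  have step : ∀ Y, Bd Y D⁻¹ → Bd (TB2_Phi B₀ B e Y) D⁻¹ := fun Y hY => by
    have t1 : ∀ j i, Bd (B j * Y ^ i) (c * θ ^ Fintype.card σ * D⁻¹ ^ i) := fun j i => by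
      induction i with
      | zero => simpa using b1 j
      | succ i ih =>
        rw [pow_succ, pow_succ, ← mul_assoc, ← mul_assoc]
        exact H.mul _ _ _ _ ih hY
    have t2 : ∀ i, Bd (TB2_Phi B₀ B i Y) (θ ^ i * (c * D⁻¹ ^ 2 * θ ^ Fintype.card σ)) := fun i => by
      induction i with
      | zero => simpa [TB2_Phi] using b0
      | succ i ih =>
        rw [TB2_Phi, Finset.sum_range_succ, ← add_assoc, pow_succ' θ, mul_assoc θ]
        refine H.add _ _ _ ih (H.mono _ _ _ (t1 _ _) ?_)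
        refine le_trans ?_ (le_mul_of_one_le_left (by positivity) (one_le_pow₀ hθ))
        rw [mul_right_comm]
        exact mul_le_mul_of_nonneg_right (mul_le_mul_of_nonneg_left
          (pow_le_pow_of_le_one (by positivity) hε (by omega)) (by positivity)) (by positivity)
    refine H.mono _ _ _ (t2 e) (le_of_eq ?_)
    rw [hD]
    field_simp
    ring
  have all : Bd ((TB2_Phi B₀ B e)^[n] 0) D⁻¹ := by
    induction n with
    | zero =>
      refine H.mono _ _ _ (H.int _ 0 le_rfl fun m => by simp) ?_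
      rw [zero_mul]
      positivity
    | succ n ih => rw [Function.iterate_succ_apply']; exact step _ ih
  have := (H.out _ _ all m).trans hε
  rwa [inv_pow, mul_inv_le_iff₀ (by positivity), one_mul] at this

omit [Fintype σ] in
theorem TB2_neg {S : Finset Qb} {k : ℕ} {f : MvPowerSeries σ Qb} (h : SB S k f) : SB S k (-f) :=
  fun p v hv m => by rw [map_neg, v.map_neg]; exact h p v hv m

theorem TB2_taylor (σ : Type) [Fintype σ] (k e : ℕ) : ∃ k' : ℕ,
    ∀ (S : Finset Qb) (M : Polynomial (MvPowerSeries σ Qb)) (x₀ : Qb), 1 ∈ S →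
      M.natDegree ≤ e → (∀ i, SB S k (M.coeff i)) → x₀ ∈ S →
      ∀ i, SB S k' ((Polynomial.taylor (C x₀) M).coeff i) := by
  induction e with
  | zero =>
    refine ⟨k, fun S M x₀ _ hM h _ i => ?_⟩
    rw [Polynomial.eq_C_of_natDegree_le_zero hM, Polynomial.taylor_C,
      ← Polynomial.eq_C_of_natDegree_le_zero hM]
    exact h i
  | succ e ih =>
    obtain ⟨k', ih⟩ := ih
    refine ⟨2 * (k + k' + 1) + Fintype.card σ + 1 + 1, fun S M x₀ h1 hM h hx i => ?_⟩
    have h2 := ih S M.divX x₀ h1 (by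
      rw [Polynomial.natDegree_divX_eq_natDegree_tsub_one]; omega)
      (fun i => by rw [Polynomial.coeff_divX]; exact h _) hx
    have h3 : ∀ j, SB S (2 * (k + k' + 1) + Fintype.card σ + 1)
        ((Polynomial.taylor (C x₀) M.divX).coeff j * C x₀) := fun j =>
      SB.mul h1 ((h2 j).mono h1 subset_rfl (by omega)) ((SB.C h1 hx).mono h1 subset_rfl (by omega))
    rw [← M.divX_mul_X_add, map_add, Polynomial.taylor_mul, Polynomial.taylor_X,
      Polynomial.taylor_C, mul_add _ Polynomial.X]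
    rcases i with _ | i
    · simp only [Polynomial.coeff_add, Polynomial.mul_coeff_zero,
        Polynomial.coeff_X_zero, mul_zero, zero_add, Polynomial.coeff_C_zero]
      exact SB.add h1 (h3 0) ((h 0).mono h1 subset_rfl (by omega))
    · simp only [Polynomial.coeff_add, Polynomial.coeff_mul_C, Polynomial.coeff_mul_X,
        Polynomial.coeff_C_succ, add_zero]
      exact SB.add h1 ((h2 i).mono h1 subset_rfl (by omega)) (h3 _)

end Norm

/-- implicit function theorem with bounds -/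
theorem exists_implicit (σ : Type) [Fintype σ] (k e : ℕ) : ∃ k' : ℕ,
    ∀ (S : Finset Qb) (M : Polynomial (MvPowerSeries σ Qb)) (x₀ : Qb), 1 ∈ S →
      M.natDegree ≤ e → (∀ i, SB S k (M.coeff i)) → x₀ ∈ S →
      (M.map (constantCoeff : MvPowerSeries σ Qb →+* Qb)).eval x₀ = 0 →
      (M.map (constantCoeff : MvPowerSeries σ Qb →+* Qb)).derivative.eval x₀ ≠ 0 →
      ((M.map (constantCoeff : MvPowerSeries σ Qb →+* Qb)).derivative.eval x₀)⁻¹ ∈ S →
      ∃ W : MvPowerSeries σ Qb, constantCoeff W = x₀ ∧ M.eval W = 0 ∧ SB S k' W := by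
  obtain ⟨k₁, H₁⟩ := TB2_taylor σ k e
  obtain ⟨k₂, H₂⟩ := exists_SB_inv σ k₁
  set k₃ := 2 * (k₁ + k₂) + Fintype.card σ + 1 with hk₃
  refine ⟨3 * k₃ + 2 * (Fintype.card σ + e) + 1 + 1, fun S M x₀ h1 hM h hx e0 e1 e2 => ?_⟩
  have hT := H₁ S M x₀ h1 hM h hx
  set T := Polynomial.taylor (C x₀) M with hTd
  have hc : ∀ N : Polynomial (MvPowerSeries σ Qb), constantCoeff (N.eval (C x₀)) =
      (N.map (constantCoeff : MvPowerSeries σ Qb →+* Qb)).eval x₀ := fun N => by
    rw [Polynomial.eval_map, ← Polynomial.eval₂_at_apply, constantCoeff_C]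
  have c0 : constantCoeff (T.coeff 0) = 0 := by rw [hTd, Polynomial.taylor_coeff_zero, hc, e0]
  have c1 : constantCoeff (T.coeff 1) =
      (M.map (constantCoeff : MvPowerSeries σ Qb →+* Qb)).derivative.eval x₀ := by
    rw [hTd, Polynomial.taylor_coeff_one, hc, Polynomial.derivative_map]
  have hG := MvPowerSeries.mul_inv_cancel (T.coeff 1) (by rwa [c1])
  have hGS := H₂ S _ _ h1 (hT 1) hG (by rwa [constantCoeff_inv, c1])
  set G := (T.coeff 1)⁻¹ with hGd
  have hB : ∀ j, SB S k₃ (-(G * T.coeff j)) := fun j => TB2_neg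
    (SB.mul h1 (hGS.mono h1 subset_rfl (by omega)) ((hT j).mono h1 subset_rfl (by omega)))
  have b0 : constantCoeff (-(G * T.coeff 0)) = 0 := by rw [map_neg, map_mul, c0, mul_zero, neg_zero]
  obtain ⟨Y, y0, y1, y2⟩ := TB2_fix b0 (fun j => -(G * T.coeff (j + 1 + 1))) e
  refine ⟨C x₀ + Y, by rw [map_add, y0, constantCoeff_C, add_zero], ?_,
    SB.add h1 ((SB.C h1 hx).mono h1 subset_rfl (by omega)) fun p v hv m => ?_⟩
  · rw [add_comm, ← Polynomial.taylor_eval, ← hTd, Polynomial.eval_eq_sum_range'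
      (n := e + 1 + 1) (by rw [hTd, Polynomial.natDegree_taylor]; omega), Finset.sum_range_succ',
      Finset.sum_range_succ']
    simp only [TB2_Phi, neg_mul, Finset.sum_neg_distrib, mul_assoc, ← Finset.mul_sum] at y1
    simp only [zero_add, pow_one, pow_zero, mul_one]
    linear_combination -(T.coeff 1) * y1 -
      (T.coeff 0 + ∑ j ∈ Finset.range e, T.coeff (j + 1 + 1) * Y ^ (j + 1 + 1)) * hG
  · have hθ : 1 ≤ th p 2 := by unfold th; split_ifs <;> norm_num
    have hn : 1 ≤ nrm v S := by simpa using le_nrm v h1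
    set N := th p 2 * nrm v S with hN
    have hθN : th p 2 ≤ N := le_mul_of_one_le_right (by positivity) hn
    have hN1 : 1 ≤ N := hθ.trans hθN
    have hρ : 0 < ((N ^ k₃ * th p 2 ^ (Fintype.card σ + e)) ^ 2 * N ^ k₃ * th p 2)⁻¹ := by
      positivity
    obtain ⟨Bd, H⟩ : ∃ Bd, TB2_Nm (σ := σ) v (th p 2)
        ((N ^ k₃ * th p 2 ^ (Fintype.card σ + e)) ^ 2 * N ^ k₃ * th p 2)⁻¹ Bd := by
      generalize ((N ^ k₃ * th p 2 ^ (Fintype.card σ + e)) ^ 2 * N ^ k₃ * th p 2)⁻¹ = ρ at hρ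
      by_cases hp : p = 0
      · rw [th, if_pos hp]
        exact ⟨_, TB2_arch v hρ⟩
      · rw [th, if_neg hp]
        exact ⟨_, TB2_non hv hp hρ⟩
    obtain ⟨n, hn'⟩ := y2 m
    rw [hn']
    refine (TB2_bound hθ (one_le_pow₀ hN1) e H b0 (fun m => ?_) (fun j m => ?_) n m).trans ?_
    · rw [← pow_mul]; exact hB 0 p v hv m
    · rw [← pow_mul]; exact hB _ p v hv m
    · refine le_trans ?_ (pow_le_pow_right₀ hN1 (Nat.mul_le_mul_left _ (Nat.le_succ _)))
      rw [pow_mul]
      refine pow_le_pow_left₀ (by positivity) ?_ _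
      calc (N ^ k₃ * th p 2 ^ (Fintype.card σ + e)) ^ 2 * N ^ k₃ * th p 2
          ≤ (N ^ k₃ * N ^ (Fintype.card σ + e)) ^ 2 * N ^ k₃ * N := by gcongr
        _ = _ := by ring

end Pool.Agent.E6b
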