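import Pool.Agent.E6b.PDefs
import Pool.Agent.E6b.P4
import Pool.Agent.E6b.TB2
import Pool.Agent.E6b.PT3

open scoped NNReal TensorProduct IntermediateField BigOperators Classical Topology
open Filter

namespace Pool.Agent.E6b

/-- polynomials in `T` over `K[u]` -/
abbrev PP (K : Type) [Field K] (r : ℕ) : Type := Polynomial (MvPolynomial (Fin r) K)

/-- evaluation at `(u, ξ)` -/
noncomputable def ev2 {K R : Type} [Field K] [CommRing R] [Algebra K R] {r : ℕ} (u : Fin r → R)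
    (ξ : R) : PP K r →ₐ[K] R :=
  Polynomial.eval₂AlgHom (MvPolynomial.aeval u) ξ fun _ => Commute.all _ _

/-- degrees at most `Δ` -/
def CxP {K : Type} [Field K] {r : ℕ} (Δ : ℕ) (p : PP K r) : Prop :=
  p.natDegree ≤ Δ ∧ ∀ i, (p.coeff i).totalDegree ≤ Δ

/-- the coefficients in `K` -/
noncomputable def cfs {K : Type} [Field K] {r : ℕ} (p : PP K r) : Finset K :=
  p.support.biUnion fun i => (p.coeff i).coeffs

/-- a hypersurface model of a variety, with rational functions `P l / q` -/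
structure Mdl (K : Type) [Field K] (r : ℕ) (ι : Type) where
  m : PP K r
  q : MvPolynomial (Fin r) K
  P : ι → PP K r
  P' : PP K r
  monic : m.Monic
  irr : Irreducible m
  sep : m ∣ P' * Polynomial.derivative m - Polynomial.C q
  q_ne : q ≠ 0

namespace Mdl

variable {K : Type} [Field K] {r : ℕ} {ι : Type} (M : Mdl K r ι)

/-- points of the model -/
def IsPt {R : Type} [CommRing R] [Algebra K R] (u : Fin r → R) (ξ : R) : Prop :=
  ev2 u ξ M.m = 0 ∧ MvPolynomial.aeval u M.q ≠ 0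

noncomputable def val {R : Type} [Field R] [Algebra K R] (u : Fin r → R) (ξ : R) (l : ι) : R :=
  ev2 u ξ (M.P l) / MvPolynomial.aeval u M.q

def Cx (Δ : ℕ) : Prop :=
  CxP Δ M.m ∧ M.q.totalDegree ≤ Δ ∧ (∀ l, CxP Δ (M.P l)) ∧ CxP Δ M.P'

/-- all coefficients of the model, and `1` -/
noncomputable def S [Fintype ι] : Finset K :=
  insert 1 (cfs M.m ∪ M.q.coeffs ∪ cfs M.P' ∪ Finset.univ.biUnion fun l => cfs (M.P l))

end Mdl

/-- the family `1, T, u` -/
noncomputable def xp (K : Type) [Field K] (r : ℕ) : Option (Option (Fin r)) → PP K r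
  | none => 1
  | some none => Polynomial.X
  | some (some k) => Polynomial.C (MvPolynomial.X k)

/-- monomials: `A` factors `P (inr j)` and `c` factors `xp` -/
abbrev Mon (J : Type) (r A c : ℕ) : Type := (Fin A → J) × (Fin c → Option (Option (Fin r)))

noncomputable def Mdl.mon {K : Type} [Field K] {r : ℕ} {I J : Type} (M : Mdl K r (I ⊕ J)) {A c : ℕ}
    (μ : Mon J r A c) : PP K r := (∏ i, M.P (.inr (μ.1 i))) * ∏ i, xp K r (μ.2 i)

section Two
variable {r₁ r₂ : ℕ} {ι : Type} (M₁ : Mdl Qb r₁ ι) (M₂ : Mdl Qb r₂ ι)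

abbrev R0 (r₁ r₂ : ℕ) : Type := MvPolynomial (Fin r₁ ⊕ Fin r₂) Qb

noncomputable def tm1 : Polynomial (R0 r₁ r₂) :=
  M₁.m.map (MvPolynomial.rename Sum.inl).toRingHom

noncomputable def tm2 : Polynomial (AdjoinRoot (tm1 (r₂ := r₂) M₁)) :=
  M₂.m.map ((AdjoinRoot.of _).comp (MvPolynomial.rename Sum.inr).toRingHom)

/-- coordinate ring of the product of two models -/
abbrev TB : Type := AdjoinRoot (tm2 M₁ M₂)

noncomputable def uB (k : Fin r₁ ⊕ Fin r₂) : TB M₁ M₂ :=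
  algebraMap (R0 r₁ r₂) (TB M₁ M₂) (MvPolynomial.X k)

noncomputable def x1B : TB M₁ M₂ := AdjoinRoot.of _ (AdjoinRoot.root _)

noncomputable def x2B : TB M₁ M₂ := AdjoinRoot.root _

noncomputable def e1B : PP Qb r₁ →ₐ[Qb] TB M₁ M₂ := ev2 (fun k => uB M₁ M₂ (.inl k)) (x1B M₁ M₂)

noncomputable def e2B : PP Qb r₂ →ₐ[Qb] TB M₁ M₂ := ev2 (fun k => uB M₁ M₂ (.inr k)) (x2B M₁ M₂)

/-- the norm down to the polynomial ring -/
noncomputable def nrB (b : TB M₁ M₂) : R0 r₁ r₂ := Algebra.norm (R0 r₁ r₂) b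

/-- points of the product where the denominators do not vanish -/
def GdP (χ : TB M₁ M₂ →ₐ[Qb] Qb) : Prop :=
  χ (e1B M₁ M₂ (Polynomial.C M₁.q)) ≠ 0 ∧ χ (e2B M₁ M₂ (Polynomial.C M₂.q)) ≠ 0

/-- points above torsion points of the torus -/
def Tors (χ : TB M₁ M₂ →ₐ[Qb] Qb) : Prop := ∀ k, ∃ n : ℕ, 0 < n ∧ χ (uB M₁ M₂ k) ^ n = 1

end Two

section
variable {F : Type} [Field F] [Algebra Qb F] [IsFF Qb F]

/-- coordinates of `d` points and of a symmetric theta vector -/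
abbrev IX (o : Place Qb F) (d : ℕ) : Type := (Fin d × Fin (MM o)) ⊕ (JJ o × JJ o)

variable {o : Place Qb F} {d r : ℕ}

/-- the coordinates of `z` are the values of the model -/
def Mdl.Crd (M : Mdl Qb r (IX o d)) {Ω : Type} [Field Ω] [Algebra Qb Ω] (u : Fin r → Ω) (ξ : Ω)
    (z : Fin d → Pt o Ω) : Prop := ∀ a (i : Fin (MM o)), z a (eb o i) = M.val u ξ (.inl (a, i))

/-- geometric meaning of the model at its generic point -/
def Mdl.Real (M : Mdl Qb r (IX o d)) : Prop :=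
  ∀ (Ω : Type) [Field Ω] [IsAlgClosed Ω] [CharZero Ω] [Algebra Qb Ω] (u : Fin r → Ω) (ξ : Ω),
    AlgebraicIndependent Qb u → M.IsPt u ξ → ∃ z : Fin d → Pt o Ω, M.Crd u ξ z ∧
      Prp (Psym (clz z)) (fun j => M.val u ξ (.inr j)) ∧ (∃ j, M.val u ξ (.inr j) = 1) ∧
      ∀ k, ∃ (a : Fin d) (i : Fin (MM o)), u k = z a (eb o i)

/-- a model together with a special point -/
structure Lev (o : Place Qb F) (d r Δ : ℕ) where
  M : Mdl Qb r (IX o d)
  cx : M.Cx Δ
  real : M.Real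
  u : Fin r → Qb
  ξ : Qb
  pt : M.IsPt u ξ
  z : Fin d → Pt o Qb
  crd : M.Crd u ξ z

/-- height of the model -/
noncomputable def Lev.hh {Δ : ℕ} (L : Lev o d r Δ) : ℝ := ht L.M.S

/-- height of the special point -/
noncomputable def Lev.hs {Δ : ℕ} (L : Lev o d r Δ) : ℝ := ∑ k, h1 (L.u k) + h1 L.ξ

/-- the canonical bilinear form -/
noncomputable def ntB (o : Place Qb F) : Cl o Qb →+ Cl o Qb →+ ℝ := (exists_nt o).choose

theorem ntB_spec (o : Place Qb F) : ∃ C : ℝ, (∀ a b, ntB o a b = ntB o b a) ∧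
    (∀ a, 0 ≤ ntB o a a) ∧ ∀ a, |hq a - ntB o a a| ≤ C := (exists_nt o).choose_spec

end

end Pool.Agent.E6b
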