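import Pool.Agent.E6b.H3

open scoped BigOperators Classical
open Function Polynomial Polynomial.Gal Ideal

namespace Pool.Agent.E6b

/-- The quintic `X ^ 5 - 4 X + 2` (argument of the Mathlib archive file on Abel-Ruffini). -/
noncomputable def X6a_Phi (R : Type) [CommRing R] : R[X] :=
  X ^ 5 - C ((4 : ℕ) : R) * X + C ((2 : ℕ) : R)

section

variable {R : Type} [CommRing R]

theorem X6a_map {S : Type} [CommRing S] (f : R →+* S) : (X6a_Phi R).map f = X6a_Phi S := by
  simp only [X6a_Phi, Polynomial.map_add, Polynomial.map_sub, Polynomial.map_mul,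
    Polynomial.map_pow, map_X, map_C, map_natCast f]

theorem X6a_coeff_zero : (X6a_Phi R).coeff 0 = ((2 : ℕ) : R) := by
  simp [X6a_Phi, coeff_X_pow, -map_natCast]

theorem X6a_coeff_five : (X6a_Phi R).coeff 5 = 1 := by
  simp [X6a_Phi, -map_natCast]

variable [Nontrivial R]

theorem X6a_degree : (X6a_Phi R).degree = ((5 : ℕ) : WithBot ℕ) := by
  suffices degree (X ^ 5 - C ((4 : ℕ) : R) * X) = ((5 : ℕ) : WithBot ℕ) by
    rwa [X6a_Phi, degree_add_eq_left_of_degree_lt]
    convert! (degree_C_le (R := R)).trans_lt (WithBot.coe_lt_coe.mpr (show 0 < 5 by simp))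
  rw [degree_sub_eq_left_of_degree_lt] <;> rw [degree_X_pow]
  exact (degree_C_mul_X_le ((4 : ℕ) : R)).trans_lt
    (WithBot.coe_lt_coe.mpr (show 1 < 5 by simp))

theorem X6a_natDegree : (X6a_Phi R).natDegree = 5 :=
  natDegree_eq_of_degree_eq_some X6a_degree

theorem X6a_monic : (X6a_Phi R).Monic := by
  rw [Monic, Polynomial.leadingCoeff, X6a_natDegree, X6a_coeff_five]

end

theorem X6a_irreducible : Irreducible (X6a_Phi ℚ) := by
  have hp : (2 : ℕ).Prime := Nat.prime_two
  rw [← X6a_map (Int.castRingHom ℚ), ← IsPrimitive.Int.irreducible_iff_irreducible_map_cast]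
  on_goal 1 =>
    apply irreducible_of_eisenstein_criterion (P := span {((2 : ℕ) : ℤ)})
    · rwa [span_singleton_prime (Int.natCast_ne_zero.mpr hp.ne_zero), Int.prime_iff_natAbs_prime]
    · rw [X6a_monic.leadingCoeff, mem_span_singleton]
      exact mod_cast mt Nat.dvd_one.mp hp.ne_one
    · intro n hn
      rw [mem_span_singleton]
      rw [X6a_degree] at hn; norm_cast at hn
      interval_cases n <;>
      simp +decide only [X6a_Phi, coeff_X_pow, coeff_C, Int.natCast_dvd_natCast.mpr,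
        if_true, coeff_C_mul, if_false, coeff_add, zero_add, mul_zero,
        coeff_sub, add_zero, zero_sub, dvd_neg, neg_zero, coeff_X]
    · simp only [X6a_degree, ← WithBot.coe_zero]
      decide
    · rw [X6a_coeff_zero, span_singleton_pow, mem_span_singleton]
      decide
  all_goals exact Monic.isPrimitive X6a_monic

attribute [local simp] map_ofNat in
theorem X6a_real_le : Fintype.card ((X6a_Phi ℚ).rootSet ℝ) ≤ 3 := by
  rw [← X6a_map (algebraMap ℤ ℚ), X6a_Phi, ← one_mul (X ^ 5), ← C_1]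
  apply (card_rootSet_le_derivative _).trans
    (Nat.succ_le_succ ((card_rootSet_le_derivative _).trans (Nat.succ_le_succ _)))
  suffices (Polynomial.rootSet (C (20 : ℚ) * X ^ 3) ℝ).Subsingleton by
    norm_num [Fintype.card_le_one_iff_subsingleton, ← mul_assoc] at *
    exact this
  rw [rootSet_C_mul_X_pow] <;>
  norm_num

theorem X6a_real_aux :
    ∃ x y : ℝ, x ≠ y ∧ aeval x (X6a_Phi ℚ) = 0 ∧ aeval y (X6a_Phi ℚ) = 0 := by
  let f : ℝ → ℝ := fun x : ℝ => aeval x (X6a_Phi ℚ)
  have hf : f = fun x : ℝ => x ^ 5 - 4 * x + 2 := by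
    funext x
    simp only [f, X6a_Phi, map_add, map_sub, map_mul, map_pow, aeval_X, map_natCast]
    norm_num
  have hc : ∀ s : Set ℝ, ContinuousOn f s := fun s => (X6a_Phi ℚ).continuousOn_aeval
  have hf0 : 0 ≤ f 0 := by simp [hf]
  have hf1 : f 1 < 0 := by simp only [hf]; norm_num
  have hfa : 0 ≤ f 2 := by simp only [hf]; norm_num
  obtain ⟨x, ⟨-, hx1⟩, hx2⟩ :=
    intermediate_value_Ico' zero_le_one (hc _) (Set.mem_Ioc.mpr ⟨hf1, hf0⟩)
  obtain ⟨y, ⟨hy1, -⟩, hy2⟩ :=
    intermediate_value_Ioc one_le_two (hc _) (Set.mem_Ioc.mpr ⟨hf1, hfa⟩)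
  exact ⟨x, y, (hx1.trans hy1).ne, hx2, hy2⟩

theorem X6a_real_ge : 2 ≤ Fintype.card ((X6a_Phi ℚ).rootSet ℝ) := by
  have q_ne_zero : X6a_Phi ℚ ≠ 0 := X6a_monic.ne_zero
  obtain ⟨x, y, hxy, hx, hy⟩ := X6a_real_aux
  have key : ↑({x, y} : Finset ℝ) ⊆ (X6a_Phi ℚ).rootSet ℝ := by
    simp [Set.insert_subset, mem_rootSet_of_ne q_ne_zero, hx, hy]
  convert! Fintype.card_le_of_embedding (Set.embeddingOfSubset _ _ key)
  simp only [Finset.coe_sort_coe, Fintype.card_coe, Finset.card_singleton,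
    Finset.card_insert_of_notMem (mt Finset.mem_singleton.mp hxy)]

theorem X6a_card_roots (E : Type) [Field E] [Algebra ℚ E] [IsAlgClosed E] :
    Fintype.card ((X6a_Phi ℚ).rootSet E) = 5 :=
  (card_rootSet_eq_natDegree X6a_irreducible.separable (IsAlgClosed.splits _)).trans X6a_natDegree

attribute [local instance] splits_ℚ_ℂ in
theorem X6a_card_gal : Nat.card (X6a_Phi ℚ).Gal = Nat.factorial 5 := by
  have h : Bijective (galActionHom (X6a_Phi ℚ) ℂ) := by
    apply galActionHom_bijective_of_prime_degree' X6a_irreducible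
    · simp only [X6a_natDegree]; decide
    · rw [X6a_card_roots ℂ, Nat.succ_le_succ_iff]
      exact X6a_real_le.trans (Nat.le_succ 3)
    · simp_rw [X6a_card_roots ℂ, Nat.succ_le_succ_iff]
      exact X6a_real_ge
  rw [Nat.card_eq_of_bijective _ h, Nat.card_eq_fintype_card, Fintype.card_perm, X6a_card_roots]

theorem X6a_quintic : ∃ (θ : Fin 5 → Qb) (perm : (Qb ≃ₐ[ℚ] Qb) →* Equiv.Perm (Fin 5)),
    Function.Injective θ ∧ (∀ s, IsIntegral ℤ (θ s)) ∧ (∀ σ s, σ (θ s) = θ (perm σ s)) ∧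
      Function.Surjective perm := by
  have := H3_isGalois
  have hsp : Fact (((X6a_Phi ℚ).map (algebraMap ℚ Qb)).Splits) := ⟨IsAlgClosed.splits _⟩
  have hc := X6a_card_roots Qb
  let e : (X6a_Phi ℚ).rootSet Qb ≃ Fin 5 := Fintype.equivFinOfCardEq hc
  have hb : Bijective (galActionHom (X6a_Phi ℚ) Qb) := by
    refine (galActionHom_injective _ _).bijective_of_nat_card_le ?_
    rw [X6a_card_gal, Nat.card_eq_fintype_card, Fintype.card_perm, hc]
  refine ⟨fun s => (e.symm s : Qb), (e.permCongrHom.toMonoidHom.comp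
    (galActionHom (X6a_Phi ℚ) Qb)).comp (restrict (X6a_Phi ℚ) Qb), ?_, ?_, ?_, ?_⟩
  · exact Subtype.val_injective.comp e.symm.injective
  · intro s
    refine ⟨X6a_Phi ℤ, X6a_monic, ?_⟩
    have h1 := (mem_rootSet.1 (e.symm s).2).2
    have h2 : ∀ y : Qb, aeval y (X6a_Phi ℚ) = aeval y (X6a_Phi ℤ) := fun y => by
      rw [← X6a_map (algebraMap ℤ ℚ), aeval_map_algebraMap]
    exact (h2 _).symm.trans h1
  · intro σ s
    rw [← galActionHom_restrict (X6a_Phi ℚ) Qb σ (e.symm s)]
    simp [Equiv.permCongr_apply]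
  · exact (e.permCongrHom.surjective.comp hb.2).comp (restrict_surjective _ _)

end Pool.Agent.E6b
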