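import Pool.Agent.E6b.XDefs
import Pool.Agent.E6b.H1c
import Pool.Agent.E6b.H3
import Pool.Agent.E6b.X6aAux1

open scoped NNReal TensorProduct IntermediateField BigOperators Classical Topology
open Filter

namespace Pool.Agent.E6b

/-- the roots of `X ^ 5 - 4 X + 2` -/
theorem exists_quintic : ∃ (θ : Fin 5 → Qb) (perm : (Qb ≃ₐ[ℚ] Qb) →* Equiv.Perm (Fin 5)),
    Function.Injective θ ∧ (∀ s, IsIntegral ℤ (θ s)) ∧ (∀ σ s, σ (θ s) = θ (perm σ s)) ∧
      Function.Surjective perm := X6a_quintic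

/-- Schur: a non-constant integral polynomial has roots modulo infinitely many primes -/
theorem exists_prime_dvd_eval (g : Polynomial ℤ) (hg : 0 < g.natDegree) (N : ℕ) :
    ∃ (p : ℕ) (k : ℤ), p.Prime ∧ N < p ∧ (p : ℤ) ∣ g.eval k := by
  by_cases hc : g.eval 0 = 0
  · obtain ⟨p, h1, h2⟩ := Nat.exists_infinite_primes (N + 1)
    exact ⟨p, 0, h2, h1, by rw [hc]; exact dvd_zero _⟩
  set c := g.eval 0 with hcdef
  have hF : ((N.factorial : ℕ) : ℤ) ≠ 0 := Int.natCast_ne_zero.2 N.factorial_ne_zero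
  have hne : ∀ d : ℤ, g - Polynomial.C d ≠ 0 := fun d h => by
    rw [sub_eq_zero.1 h, Polynomial.natDegree_C] at hg
    exact lt_irrefl _ hg
  obtain ⟨z, hz⟩ : ∃ z : ℤ, ¬ ((g - Polynomial.C c) * (g - Polynomial.C (-c))).IsRoot
      (c * N.factorial * z) := by
    by_contra hall
    push Not at hall
    refine mul_ne_zero (hne c) (hne (-c)) (Polynomial.eq_zero_of_infinite_isRoot _ ?_)
    refine Set.infinite_of_injective_forall_mem (f := fun z : ℤ => c * N.factorial * z) ?_ hall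
    exact mul_right_injective₀ (mul_ne_zero hc hF)
  obtain ⟨q, hq⟩ := Polynomial.sub_dvd_eval_sub (c * N.factorial * z) 0 g
  have he : g.eval (c * N.factorial * z) = c * (1 + N.factorial * (z * q)) := by
    rw [← hcdef] at hq
    linear_combination hq
  have hm : (1 + N.factorial * (z * q) : ℤ).natAbs ≠ 1 := by
    intro h
    apply hz
    simp only [Polynomial.IsRoot, Polynomial.eval_mul, Polynomial.eval_sub, Polynomial.eval_C, he]
    rcases Int.natAbs_eq_iff.1 h with h | h <;> rw [h] <;> simp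
  obtain ⟨p, hp, hpm⟩ := Nat.exists_prime_and_dvd hm
  have hpm' : (p : ℤ) ∣ 1 + N.factorial * (z * q) := Int.natCast_dvd.2 hpm
  refine ⟨p, c * N.factorial * z, hp, ?_, by rw [he]; exact hpm'.mul_left _⟩
  by_contra hle
  have h1 : (p : ℤ) ∣ N.factorial * (z * q) :=
    (Int.natCast_dvd_natCast.2 ((Nat.Prime.dvd_factorial hp).2 (not_lt.1 hle))).mul_right _
  have h2 : (p : ℤ) ∣ 1 := (Int.dvd_add_left h1).1 hpm'
  exact hp.one_lt.ne' (by exact_mod_cast Int.eq_one_of_dvd_one (by positivity) h2)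

section

variable {v : AbsoluteValue Qb ℝ}

theorem X6a_add_lt (hv : IsNonarchimedean v) {a b : Qb} (h : v a < v b) : v (a + b) = v b := by
  rw [IsNonarchimedean.add_eq_max_of_ne hv h.ne, max_eq_right h.le]

theorem X6a_sub_le (hv : IsNonarchimedean v) (a b : Qb) : v (a - b) ≤ max (v a) (v b) := by
  have := hv a (-b)
  rwa [← sub_eq_add_neg, AbsoluteValue.map_neg] at this

theorem X6a_prod_lt (s : Multiset Qb) (h : v s.prod < 1) : ∃ a ∈ s, v a < 1 := by
  by_contra hall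
  push Not at hall
  refine absurd h (not_lt.2 (Multiset.prod_induction (fun x => 1 ≤ v x) s ?_ (by simp) hall))
  intro a b ha hb
  rw [map_mul]
  exact one_le_mul_of_one_le_of_one_le ha hb

theorem X6a_prod_one (s : Multiset Qb) (h : ∀ a ∈ s, v a = 1) : v s.prod = 1 := by
  rw [map_multiset_prod]
  refine Multiset.prod_eq_one ?_
  intro x hx
  obtain ⟨a, ha, rfl⟩ := Multiset.mem_map.1 hx
  exact h a ha

theorem X6a_inv_lt {p : ℕ} (hp : p.Prime) : (p : ℝ)⁻¹ < 1 :=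
  inv_lt_one_of_one_lt₀ (by exact_mod_cast hp.one_lt)

/-- a simple root modulo `p` gives a value of exact order one -/
theorem X6a_simple {p : ℕ} (hp : p.Prime) (hv : IsPl p v) (R : Multiset Qb) (hR : R.Nodup)
    (hsep : ∀ r ∈ R, ∀ r' ∈ R, r ≠ r' → v (r - r') = 1) (k0 m : ℤ)
    (hg : (R.map fun r => (k0 : Qb) - r).prod = (p : Qb) * m) :
    ∃ k : ℤ, ∃ r ∈ R, v (k - r) = (p : ℝ)⁻¹ := by
  have hna := hv.nonarch hp.ne_zero
  have hpv := (H1a_prime hv hp.ne_zero).2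
  have h1 : v (R.map fun r => (k0 : Qb) - r).prod ≤ (p : ℝ)⁻¹ := by
    rw [hg, map_mul, hpv]
    exact mul_le_of_le_one_right (by positivity) (H1a_int_le_one hv hp.ne_zero m)
  obtain ⟨a, ha, ha1⟩ := X6a_prod_lt _ (h1.trans_lt (X6a_inv_lt hp))
  obtain ⟨r, hr, rfl⟩ := Multiset.mem_map.1 ha
  have h2 : v ((R.erase r).map fun r => (k0 : Qb) - r).prod = 1 := by
    refine X6a_prod_one _ fun a ha => ?_
    obtain ⟨r', hr', rfl⟩ := Multiset.mem_map.1 ha
    obtain ⟨h3, h4⟩ := (hR.mem_erase_iff).1 hr'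
    have h5 := hsep r hr r' h4 h3.symm
    have h6 : (k0 : Qb) - r' = (k0 - r) + (r - r') := by ring
    rw [h6, X6a_add_lt hna (h5 ▸ ha1), h5]
  rw [← Multiset.prod_map_erase hr, map_mul, h2, mul_one] at h1
  rcases h1.eq_or_lt with h | h
  · exact ⟨k0, r, hr, h⟩
  · refine ⟨k0 + p, r, hr, ?_⟩
    have h6 : ((k0 + p : ℤ) : Qb) - r = (k0 - r) + p := by push_cast; ring
    rw [h6, X6a_add_lt hna (hpv ▸ h), hpv]

/-- few elements leave a residue class free -/
theorem X6a_free {p : ℕ} (hp : p.Prime) (hv : IsPl p v) (Y : Finset Qb) (hY : Y.card < p) :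
    ∃ cb : ℤ, ∀ y ∈ Y, 1 ≤ v (y - cb) := by
  by_contra hall
  push Not at hall
  choose f hf1 hf2 using hall
  obtain ⟨i, hi, j, hj, hij, he⟩ := Finset.exists_ne_map_eq_of_card_lt_of_maps_to
    (s := Finset.range p) (t := Y) (f := fun n : ℕ => f n) (by simpa using hY)
    (fun n _ => hf1 n)
  have h1 : v (((i : ℤ) - j : ℤ) : Qb) = 1 := by
    refine H1a_coprime hv hp.ne_zero fun hd => hij ?_
    have hi' := Finset.mem_range.1 hi
    have hj' := Finset.mem_range.1 hj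
    have := Int.eq_zero_of_abs_lt_dvd hd (by rw [abs_lt]; constructor <;> omega)
    omega
  have h2 := X6a_sub_le (hv.nonarch hp.ne_zero) (f j - ((j : ℤ) : Qb)) (f i - ((i : ℤ) : Qb))
  have h3 : (f j - ((j : ℤ) : Qb)) - (f i - ((i : ℤ) : Qb)) = (((i : ℤ) - j : ℤ) : Qb) := by
    rw [he]; push_cast; ring
  rw [h3, h1] at h2
  exact absurd h2 (not_le.2 (max_lt (hf2 _) (hf2 _)))

/-- the residue class avoiding the critical values -/
theorem X6a_cb {p : ℕ} (hp : p.Prime) (hv : IsPl p v) (hp2 : 175 < p) (z : Fin 5 → Fin 5 → Qb)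
    (n : Qb) (c : ℤ) (hn : v n = 1) :
    ∃ cb : ℤ, ∀ i j, v (z i j) = 1 →
      v (z i j - cb) = 1 ∧ v (n * (z i j - cb) ^ 6 - c) = 1 := by
  have hna := hv.nonarch hp.ne_zero
  have hn0 : n ≠ 0 := fun h => by simp [h] at hn
  let P : Polynomial Qb := Polynomial.X ^ 6 - Polynomial.C ((c : Qb) / n)
  have hPm : P.Monic := Polynomial.monic_X_pow_sub_C _ (by norm_num)
  have hPc : P.roots.toFinset.card ≤ 6 :=
    (Multiset.toFinset_card_le _).trans ((Polynomial.card_roots' P).trans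
      (le_of_eq Polynomial.natDegree_X_pow_sub_C))
  let T : Finset Qb := insert 0 P.roots.toFinset
  have hT : T.card ≤ 7 := (Finset.card_insert_le _ _).trans (by omega)
  obtain ⟨cb, hcb⟩ := X6a_free hp hv
    (((Finset.univ : Finset (Fin 5 × Fin 5)) ×ˢ T).image fun x => z x.1.1 x.1.2 - x.2) (by
      refine Finset.card_image_le.trans_lt ?_
      rw [Finset.card_product, Finset.card_univ, Fintype.card_prod, Fintype.card_fin]
      omega)
  refine ⟨cb, fun i j hz => ?_⟩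
  have key : ∀ r ∈ T, 1 ≤ v (z i j - r - cb) := fun r hr =>
    hcb _ (Finset.mem_image.2 ⟨((i, j), r), by simp [hr], rfl⟩)
  have h1 : v (z i j - cb) ≤ 1 :=
    (X6a_sub_le hna _ _).trans (max_le hz.le (H1a_int_le_one hv hp.ne_zero cb))
  have h2 : v (z i j - cb) = 1 := le_antisymm h1 (by simpa using key 0 (by simp [T]))
  refine ⟨h2, le_antisymm ?_ ?_⟩
  · refine (X6a_sub_le hna _ _).trans (max_le ?_ (H1a_int_le_one hv hp.ne_zero c))
    rw [map_mul, map_pow, hn, h2]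
    simp
  · by_contra hlt
    have h3 : n * (z i j - cb) ^ 6 - c = n * (P.roots.map fun r => (z i j - cb) - r).prod := by
      rw [← (IsAlgClosed.splits P).eval_eq_prod_roots_of_monic hPm]
      simp only [P, Polynomial.eval_sub, Polynomial.eval_pow, Polynomial.eval_X,
        Polynomial.eval_C]
      field_simp
    rw [h3, map_mul, hn, one_mul] at hlt
    obtain ⟨a, ha, ha1⟩ := X6a_prod_lt _ (not_le.1 hlt)
    obtain ⟨r, hr, rfl⟩ := Multiset.mem_map.1 ha
    have h4 := key r (by simp only [T, Finset.mem_insert, Multiset.mem_toFinset]; exact Or.inr hr)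
    rw [sub_right_comm] at h4
    exact absurd ha1 (not_lt.2 h4)

end

theorem X6a_unif {ι : Type} [Fintype ι] (a : ι → Qb) :
    ∃ N : ℕ, ∀ p v, IsPl p v → N ≤ p → ∀ i, a i ≠ 0 → v (a i) = 1 := by
  have h : ∀ i, ∃ N : ℕ, ∀ p v, IsPl p v → N ≤ p → a i ≠ 0 → v (a i) = 1 := fun i => by
    by_cases h0 : a i = 0
    · exact ⟨0, fun _ _ _ _ h => absurd h0 h⟩
    · obtain ⟨N, hN⟩ := eventually_eq_one h0
      exact ⟨N, fun p v h1 h2 _ => hN p v h1 h2⟩
  choose N hN using h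
  exact ⟨Finset.univ.sup N, fun p v h1 h2 i =>
    hN i p v h1 ((Finset.le_sup (Finset.mem_univ i)).trans h2)⟩

theorem X6a_two (s s' i j : Fin 5) (h : s ≠ s') (h' : i ≠ j) :
    ∃ π : Equiv.Perm (Fin 5), π s = i ∧ π s' = j := by
  have h1 : Equiv.swap s i s' ≠ i := fun e => by
    rw [Equiv.swap_apply_eq_iff, Equiv.swap_apply_right] at e
    exact h e.symm
  refine ⟨Equiv.swap (Equiv.swap s i s') j * Equiv.swap s i, ?_, ?_⟩
  · rw [Equiv.Perm.mul_apply, Equiv.swap_apply_left, Equiv.swap_apply_of_ne_of_ne h1.symm h']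
  · rw [Equiv.Perm.mul_apply, Equiv.swap_apply_left]

theorem X6a_distinct {θ : Fin 5 → Qb} {perm : (Qb ≃ₐ[ℚ] Qb) →* Equiv.Perm (Fin 5)}
    (inj : Function.Injective θ) (act : ∀ σ s, σ (θ s) = θ (perm σ s))
    (surj : Function.Surjective perm) {i j k l : Fin 5} (hij : i ≠ j) (hkl : k ≠ l)
    (h : θ i + θ j = θ k + θ l) : (i = k ∧ j = l) ∨ (i = l ∧ j = k) := by
  by_cases h1 : j = k
  · subst h1
    exact Or.inr ⟨inj (by linear_combination h), rfl⟩
  by_cases h2 : j = l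
  · subst h2
    exact Or.inl ⟨inj (by linear_combination h), rfl⟩
  by_cases h3 : i = k
  · subst h3
    exact absurd (inj (by linear_combination h)) h2
  obtain ⟨σ, hσ⟩ := surj (Equiv.swap j k)
  have h5 := congrArg σ h
  rw [map_add, map_add, act, act, act, act, hσ, Equiv.swap_apply_left, Equiv.swap_apply_right,
    Equiv.swap_apply_of_ne_of_ne hij h3,
    Equiv.swap_apply_of_ne_of_ne (Ne.symm h2) hkl.symm] at h5
  exact absurd (inj (by linear_combination (h - h5) / 2)) h1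

theorem exists_AR (a : ℕ) : Nonempty (AR a) := by
  obtain ⟨θ, perm, inj, int, act, surj⟩ := exists_quintic
  have hgal := H3_isGalois
  have hα : IsIntegral ℤ (-(θ 0 + θ 1)) := ((int 0).add (int 1)).neg
  have hαQ : IsIntegral ℚ (-(θ 0 + θ 1)) := hα.tower_top
  obtain ⟨N1, hN1⟩ := X6a_unif fun x : Fin 5 × Fin 5 => θ x.1 - θ x.2
  obtain ⟨N2, hN2⟩ := X6a_unif fun x : (Fin 5 × Fin 5) × Fin 5 × Fin 5 =>
    (θ x.1.1 + θ x.1.2) - (θ x.2.1 + θ x.2.2)
  obtain ⟨p, k0, hp, hpN, m, hm⟩ := exists_prime_dvd_eval (minpoly ℤ (-(θ 0 + θ 1)))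
    (minpoly.natDegree_pos hα) (N1 + N2 + (2 * a + 3) + 175)
  obtain ⟨v0, hv0⟩ := exists_isPl (Or.inr hp)
  have hna := hv0.nonarch hp.ne_zero
  have sep : ∀ v, IsPl p v → ∀ i j, i ≠ j → v (θ i - θ j) = 1 := fun v hv i j hij =>
    hN1 p v hv (by omega) (i, j) (sub_ne_zero.2 (inj.ne hij))
  have sep2 : ∀ i j k l, θ i + θ j ≠ θ k + θ l → v0 ((θ i + θ j) - (θ k + θ l)) = 1 :=
    fun i j k l h => hN2 p v0 hv0 (by omega) ((i, j), k, l) (sub_ne_zero.2 h)
  have hroot : ∀ r ∈ (minpoly ℚ (-(θ 0 + θ 1))).aroots Qb, ∃ i j, i ≠ j ∧ r = -(θ i + θ j) := by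
    intro r hr
    obtain ⟨σ, hσ⟩ := minpoly.exists_algEquiv_of_root' hαQ.isAlgebraic
      (Polynomial.mem_aroots.1 hr).2
    refine ⟨perm σ 0, perm σ 1, (perm σ).injective.ne (by decide), ?_⟩
    rw [← hσ, map_neg, map_add, act, act]
  obtain ⟨k, r, hr, hk⟩ := X6a_simple hp hv0 ((minpoly ℚ (-(θ 0 + θ 1))).aroots Qb)
    (Polynomial.nodup_roots ((Polynomial.separable_map _).2 (minpoly.irreducible hαQ).separable))
    (fun r hr r' hr' hne => by
      obtain ⟨i, j, -, rfl⟩ := hroot r hr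
      obtain ⟨k, l, -, rfl⟩ := hroot r' hr'
      have h1 : -(θ i + θ j) - -(θ k + θ l) = (θ k + θ l) - (θ i + θ j) := by ring
      rw [h1]
      exact sep2 _ _ _ _ fun e => hne (by rw [e])) k0 m (by
      rw [← (IsAlgClosed.splits _).aeval_eq_prod_aroots_of_monic (minpoly.monic hαQ),
        minpoly.isIntegrallyClosed_eq_field_fractions' ℚ hα, Polynomial.aeval_map_algebraMap,
        ← eq_intCast (algebraMap ℤ Qb) k0, Polynomial.aeval_algebraMap_apply,
        Polynomial.coe_aeval_eq_eval, hm]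
      simp)
  obtain ⟨i0, j0, hij0, rfl⟩ := hroot r hr
  have fac : ∀ i j, (θ i ^ 2 + k * θ i) - (θ j ^ 2 + k * θ j) =
      (θ i - θ j) * (k - -(θ i + θ j)) := fun i j => by ring
  have r1 : v0 ((θ i0 ^ 2 + k * θ i0) - (θ j0 ^ 2 + k * θ j0)) = (p : ℝ)⁻¹ := by
    rw [fac, map_mul, sep v0 hv0 _ _ hij0, hk, one_mul]
  have r2 : ∀ i j, i ≠ j → ¬ (i = i0 ∧ j = j0) → ¬ (i = j0 ∧ j = i0) →
      v0 ((θ i ^ 2 + k * θ i) - (θ j ^ 2 + k * θ j)) = 1 := fun i j hij h1 h2 => by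
    have h3 := sep2 i j i0 j0 fun e =>
      (X6a_distinct inj act surj hij hij0 e).elim h1 h2
    have h4 : (k : Qb) - -(θ i + θ j) = (k - -(θ i0 + θ j0)) + ((θ i + θ j) - (θ i0 + θ j0)) := by
      ring
    rw [fac, map_mul, sep v0 hv0 _ _ hij, one_mul, h4,
      X6a_add_lt hna (by rw [hk, h3]; exact X6a_inv_lt hp), h3]
  have mv : ∀ (σ : Qb ≃ₐ[ℚ] Qb) i j, σ ((θ i ^ 2 + k * θ i) - (θ j ^ 2 + k * θ j)) =
      (θ (perm σ i) ^ 2 + k * θ (perm σ i)) - (θ (perm σ j) ^ 2 + k * θ (perm σ j)) :=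
    fun σ i j => by simp only [map_sub, map_add, map_mul, map_pow, map_intCast, act]
  have hn : v0 ((2 * a + 3) ^ (2 * a + 3)) = 1 := by
    have h1 := H1a_coprime hv0 hp.ne_zero (m := ((2 * a + 3 : ℕ) : ℤ)) fun hd => by
      have := Nat.le_of_dvd (by omega) (Int.natCast_dvd_natCast.1 hd)
      omega
    push_cast at h1
    rw [map_pow, h1, one_pow]
  obtain ⟨cb, hcb⟩ := X6a_cb hp hv0 (by omega)
    (fun i j => ((θ i ^ 2 + k * θ i) - (θ j ^ 2 + k * θ j))⁻¹) _ ((2 * a) ^ (2 * a) * 27) hn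
  refine ⟨⟨θ, perm, p, k, cb, inj, int, act, surj, hp, by omega, sep, ?_, ?_⟩⟩
  · intro s s' hs
    obtain ⟨π, h1, h2⟩ := X6a_two s s' i0 j0 hs hij0
    obtain ⟨σ, rfl⟩ := surj π
    refine ⟨_, hv0.comp σ, ?_, fun i j hij h3 h4 => ?_⟩
    · change v0 (σ _) = _
      rw [mv, h1, h2, r1]
    · change v0 (σ _) = _
      rw [mv]
      refine r2 _ _ ((perm σ).injective.ne hij) (fun e => h3 ?_) (fun e => h4 ?_)
      · exact ⟨(perm σ).injective (e.1.trans h1.symm), (perm σ).injective (e.2.trans h2.symm)⟩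
      · exact ⟨(perm σ).injective (e.1.trans h2.symm), (perm σ).injective (e.2.trans h1.symm)⟩
  · intro v hv i j h
    obtain ⟨σ, hσ⟩ := IsPl.exists_conj hv0 hv
    rw [hσ, mv] at h
    have h1 := hcb (perm σ i) (perm σ j) (by rw [map_inv₀, h, inv_one])
    push_cast at h1
    rw [hσ, hσ]
    simpa only [map_sub, map_add, map_mul, map_pow, map_inv₀, map_intCast, map_natCast,
      map_ofNat, act] using h1

end Pool.Agent.E6b
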