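import Pool.Agent.E6b.XDefs
import Pool.Agent.E6b.H1c
import Pool.Agent.E6b.H3

open scoped NNReal TensorProduct IntermediateField BigOperators Classical Topology
open Filter

namespace Pool.Agent.E6b

variable {a : ℕ} (Λ : AR a)

theorem AR.X6_pv (u : Fin 5 → ℤ) (σ : Qb ≃ₐ[ℚ] Qb) (s : Fin 5) :
    σ (Λ.pv u s) = Λ.pv u (Λ.perm σ s) := by
  simp only [AR.pv, map_sum, map_mul, map_pow, map_intCast, Λ.act]

theorem X6_adjoin {S : Set Qb} (hS : S.Finite) : ∃ K : IntermediateField ℚ Qb,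
    FiniteDimensional ℚ K ∧ ∀ σ : Qb ≃ₐ[ℚ] Qb, (∀ z ∈ K, σ z = z) ↔ ∀ z ∈ S, σ z = z := by
  have := hS.to_subtype
  have := H1a_isAlgebraic
  refine ⟨IntermediateField.adjoin ℚ S, IntermediateField.finiteDimensional_adjoin fun x _ =>
    (Algebra.IsAlgebraic.isAlgebraic x).isIntegral, fun σ =>
    ⟨fun h z hz => h z (IntermediateField.subset_adjoin _ _ hz), fun h z hz => ?_⟩⟩
  induction hz using IntermediateField.adjoin_induction with
  | mem x hx => exact h x hx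
  | algebraMap x => exact σ.commutes x
  | add x y _ _ hx hy => rw [map_add, hx, hy]
  | inv x _ hx => rw [map_inv₀, hx]
  | mul x y _ _ hx hy => rw [map_mul, hx, hy]

theorem AR.act_W (m c : Fin 5 → ℤ) (σ : Qb ≃ₐ[ℚ] Qb) (s : Fin 5) :
    σ (Λ.W m c s).A = (Λ.W m c (Λ.perm σ s)).A ∧ σ (Λ.W m c s).B = (Λ.W m c (Λ.perm σ s)).B ∧
      σ (Λ.W m c s).c = (Λ.W m c (Λ.perm σ s)).c ∧ σ (Λ.W m c s).τ = (Λ.W m c (Λ.perm σ s)).τ := by
  simp only [AR.W, map_mul, map_pow, map_add, map_ofNat, map_natCast, map_intCast, Λ.X6_pv,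
    Λ.act, and_self]

theorem AR.perm_open : ∃ K : IntermediateField ℚ Qb, FiniteDimensional ℚ K ∧
    ∀ σ : Qb ≃ₐ[ℚ] Qb, (∀ z ∈ K, σ z = z) → Λ.perm σ = 1 := by
  obtain ⟨K, h1, h2⟩ := X6_adjoin (Set.finite_range Λ.θ)
  refine ⟨K, h1, fun σ hσ => Equiv.ext fun s => Λ.inj ?_⟩
  rw [← Λ.act]
  exact (h2 σ).1 hσ _ ⟨s, rfl⟩

/-- the field `k'` -/
theorem AR.exists_K : ∃ K : IntermediateField ℚ Qb, FiniteDimensional ℚ K ∧
    ∀ σ : Qb ≃ₐ[ℚ] Qb, (∀ z ∈ K, σ z = z) ↔ ∀ s : Fin 5, ((Λ.perm σ s : ℕ) < 2 ↔ (s : ℕ) < 2) := by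
  obtain ⟨K, h1, h2⟩ := X6_adjoin (Set.toFinite {Λ.θ 0 + Λ.θ 1, Λ.θ 0 * Λ.θ 1})
  refine ⟨K, h1, fun σ => (h2 σ).trans ?_⟩
  simp only [Set.mem_insert_iff, Set.mem_singleton_iff, forall_eq_or_imp, forall_eq, map_add,
    map_mul, Λ.act]
  have hi : ∀ s s', (Λ.perm σ s : ℕ) = Λ.perm σ s' → (s : ℕ) = s' := fun s s' h =>
    congrArg Fin.val ((Λ.perm σ).injective (Fin.ext h))
  have h01 := hi 0 1
  constructor
  · rintro ⟨e1, e2⟩ s
    have key : ∀ u : Fin 5, (Λ.θ u - Λ.θ 0) * (Λ.θ u - Λ.θ 1) = 0 → (u : ℕ) < 2 := fun u h => by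
      rcases mul_eq_zero.1 h with h | h
      · rw [Λ.inj (sub_eq_zero.1 h)]
        decide
      · rw [Λ.inj (sub_eq_zero.1 h)]
        decide
    have k0 := key (Λ.perm σ 0) (by linear_combination (- Λ.θ (Λ.perm σ 0)) * -e1 - e2)
    have k1 := key (Λ.perm σ 1) (by linear_combination (- Λ.θ (Λ.perm σ 1)) * -e1 - e2)
    have h0 := hi s 0
    have h1 := hi s 1
    simp only [Fin.val_zero, Fin.val_one] at h0 h1 h01
    refine ⟨fun h => by omega, fun h => ?_⟩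
    obtain rfl | rfl : s = 0 ∨ s = 1 := by omega
    exacts [k0, k1]
  · intro h
    have k0 := (h 0).2 (by decide)
    have k1 := (h 1).2 (by decide)
    simp only [Fin.val_zero, Fin.val_one] at h01
    obtain ⟨e0, e1⟩ | ⟨e0, e1⟩ : Λ.perm σ 0 = 0 ∧ Λ.perm σ 1 = 1 ∨
        Λ.perm σ 0 = 1 ∧ Λ.perm σ 1 = 0 := by omega
    · rw [e0, e1]
      exact ⟨rfl, rfl⟩
    · rw [e0, e1]
      exact ⟨add_comm _ _, mul_comm _ _⟩

theorem X6_val {p : ℕ} (hp : p ≠ 0) {v : AbsoluteValue Qb ℝ} (hv : IsPl p v)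
    {σ : Qb ≃ₐ[ℚ] Qb} (hσ : H1c.Inr v σ) (z : Qb) : v (σ z) = v z := by
  have hna := hv.nonarch hp
  refine H1c_eq hv (hv.comp σ) hp (fun b hb => ?_) z
  have h1 := hσ b (hv.le_one_of_isIntegral hp hb)
  change v (σ b) < 1 ↔ _
  constructor
  · intro h
    have h2 := hna (σ b) (-(σ b - b))
    rw [map_neg_eq_map, ← sub_eq_add_neg, sub_sub_cancel] at h2
    exact h2.trans_lt (max_lt h h1)
  · intro h
    have h2 := hna (σ b - b) b
    rw [sub_add_cancel] at h2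
    exact h2.trans_lt (max_lt h1 h)

/-- inertia moves an element whose valuation has a large denominator -/
theorem exists_inertia_orbit {p : ℕ} (hp : p ≠ 0) {v : AbsoluteValue Qb ℝ} (hv : IsPl p v) {x : Qb}
    {n : ℕ} (hn : Odd n) (hx : v x ^ n = (p : ℝ) ^ 2) :
    ∃ σ : Fin n → (Qb ≃ₐ[ℚ] Qb), (∀ i z, v z ≤ 1 → v (σ i z - z) < 1) ∧
      Function.Injective fun i => σ i x := by
  obtain ⟨hpr, hna, hvp, hlt⟩ := H1c_spec hv hp
  have := H1a_isAlgebraic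
  have hfin : {y | ∃ σ : Qb ≃ₐ[ℚ] Qb, H1c.Inr v σ ∧ σ x = y}.Finite := by
    refine ((minpoly ℚ x).rootSet_finite Qb).subset ?_
    rintro _ ⟨σ, -, rfl⟩
    rw [Polynomial.mem_rootSet, Polynomial.aeval_algHom_apply, minpoly.aeval, map_zero]
    exact ⟨minpoly.ne_zero (Algebra.IsAlgebraic.isAlgebraic x).isIntegral, rfl⟩
  have hS : ∀ y, y ∈ hfin.toFinset ↔ ∃ σ : Qb ≃ₐ[ℚ] Qb, H1c.Inr v σ ∧ σ x = y := fun y =>
    hfin.mem_toFinset
  generalize hfin.toFinset = S at hS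
  have h1 : ∀ τ : Qb ≃ₐ[ℚ] Qb, H1c.Inr v τ → S.image τ = S := fun τ hτ => by
    refine Finset.eq_of_subset_of_card_le (Finset.image_subset_iff.2 fun y hy => ?_)
      (Finset.card_image_of_injective S τ.injective).ge
    obtain ⟨σ, hσ, rfl⟩ := (hS y).1 hy
    refine (hS _).2 ⟨τ * σ, fun z hz => ?_, rfl⟩
    have h2 := hna (τ (σ z) - σ z) (σ z - z)
    rw [sub_add_sub_cancel] at h2
    exact h2.trans_lt (max_lt (hτ _ ((X6_val hp hv hσ z).trans_le hz)) (hσ z hz))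
  obtain ⟨q, hq, h2⟩ := H1c.ram_a ⊥ hna hpr hlt (y := ∏ y ∈ S, y) fun τ _ hτ => by
    conv_rhs => rw [← h1 τ hτ]
    rw [map_prod, Finset.prod_image fun a _ b _ h => τ.injective h]
  obtain ⟨r, rfl⟩ := IntermediateField.mem_bot.1 hq
  have h3 : v (∏ y ∈ S, y) = v x ^ S.card := by
    rw [map_prod, ← Finset.prod_const]
    refine Finset.prod_congr rfl fun y hy => ?_
    obtain ⟨σ, hσ, rfl⟩ := (hS y).1 hy
    exact X6_val hp hv hσ x
  have hp1 : (1 : ℝ) < p := by exact_mod_cast hpr.one_lt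
  have h4 : v (algebraMap ℚ Qb r) ^ n = (p : ℝ) ^ (2 * S.card) := by
    rw [h2, h3, ← pow_mul, mul_comm, pow_mul, hx, ← pow_mul]
  have hr : r ≠ 0 := by
    rintro rfl
    rw [map_zero, map_zero, zero_pow hn.pos.ne'] at h4
    exact (pow_pos (zero_lt_one.trans hp1) _).ne h4
  rw [eq_ratCast, hv.eq_padicNorm hp, padicNorm.eq_zpow_of_nonzero hr] at h4
  push_cast at h4
  rw [← zpow_natCast, ← zpow_mul, ← zpow_natCast] at h4
  have h5 := zpow_right_injective₀ (zero_lt_one.trans hp1) hp1.ne' h4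
  have h6 : n ∣ 2 * S.card := Int.natCast_dvd_natCast.1 (Dvd.intro_left _ h5)
  have h7 : n ≤ S.card := Nat.le_of_dvd
    (Finset.card_pos.2 ⟨x, (hS x).2 ⟨1, fun z _ => by simp, rfl⟩⟩)
    ((Nat.coprime_two_right.2 hn).dvd_of_dvd_mul_left h6)
  choose σ s1 s2 using fun i : Fin n => (hS _).1 (S.equivFin.symm (Fin.castLE h7 i)).2
  refine ⟨σ, s1, fun i j h => ?_⟩
  simp only [s2] at h
  exact Fin.castLE_injective h7 (S.equivFin.symm.injective (Subtype.ext h))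

/-- doubling of points -/
noncomputable def X6_dbl (A : Qb) (z : Qb × Qb) : Qb × Qb :=
  (((3 * z.1 ^ 2 + 2 * A * z.1) / (2 * z.2)) ^ 2 - A - 2 * z.1,
    -(z.2 + (3 * z.1 ^ 2 + 2 * A * z.1) / (2 * z.2) *
      (((3 * z.1 ^ 2 + 2 * A * z.1) / (2 * z.2)) ^ 2 - A - 3 * z.1)))

theorem X6_step {v : AbsoluteValue Qb ℝ} (hv : IsNonarchimedean v) {A B : Qb} (hA : v A ≤ 1)
    (hB : v B ≤ 1) {z : Qb × Qb} (h : z.2 ^ 2 = z.1 ^ 3 + A * z.1 ^ 2 + B) (h1 : 1 < v z.1) :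
    (X6_dbl A z).2 ^ 2 = (X6_dbl A z).1 ^ 3 + A * (X6_dbl A z).1 ^ 2 + B ∧
      v (X6_dbl A z).1 * v 4 = v z.1 := by
  obtain ⟨x, y⟩ := z
  simp only [X6_dbl] at h h1 ⊢
  have h0 : 0 < v x := zero_lt_one.trans h1
  have h2 : v (y ^ 2) = v x ^ 3 := by
    rw [h, add_assoc, hv.add_eq_left_of_lt, map_pow]
    refine (hv _ _).trans_lt (max_lt ?_ ?_)
    · rw [map_mul, map_pow, map_pow]
      exact (mul_le_of_le_one_left (by positivity) hA).trans_lt (pow_lt_pow_right₀ h1 (by omega))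
    · rw [map_pow]
      exact hB.trans_lt (one_lt_pow₀ h1 (by omega))
  have hy : y ≠ 0 := by
    rintro rfl
    rw [zero_pow two_ne_zero, map_zero] at h2
    exact (pow_pos h0 3).ne h2
  obtain ⟨l, hl⟩ : ∃ l, l = (3 * x ^ 2 + 2 * A * x) / (2 * y) := ⟨_, rfl⟩
  rw [← hl]
  have h3 : l * (2 * y) = 3 * x ^ 2 + 2 * A * x := by
    rw [hl, div_mul_cancel₀ _ (mul_ne_zero two_ne_zero hy)]
  refine ⟨by linear_combination h + (l ^ 2 - A - 3 * x) * h3, ?_⟩
  have h4 : (l ^ 2 - A - 2 * x) * 4 * y ^ 2 = x ^ 4 + -(4 * B * (2 * x + A)) := by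
    linear_combination (l * (2 * y) + (3 * x ^ 2 + 2 * A * x)) * h3 - 4 * (A + 2 * x) * h
  have h5 : v (x ^ 4 + -(4 * B * (2 * x + A))) = v x ^ 4 := by
    rw [hv.add_eq_left_of_lt, map_pow]
    have k4 : v 4 ≤ 1 := hv.apply_natCast_le_one (n := 4)
    have k2 : v 2 ≤ 1 := hv.apply_natCast_le_one (n := 2)
    have k : v (2 * x + A) ≤ v x := (hv _ _).trans (max_le (by
      rw [map_mul]
      exact mul_le_of_le_one_left h0.le k2) (hA.trans h1.le))
    rw [map_neg_eq_map, map_mul, map_mul, map_pow]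
    refine (mul_le_of_le_one_left (v.nonneg _) (mul_le_one₀ k4 (v.nonneg _) hB)).trans_lt
      (k.trans_lt ?_)
    exact lt_self_pow₀ h1 (by omega)
  rw [← h4, map_mul, map_mul, h2, pow_succ' (v x) 3] at h5
  exact mul_right_cancel₀ (pow_pos h0 3).ne' h5

/-- infinitely many points in the kernel of reduction, compatible with conjugation -/
theorem AR.exists_points (m : Fin 5 → ℤ) (c : Fin 5 → ℤ) : ∃ x y : ℕ → Fin 5 → Qb,
    (∀ j s, y j s ^ 2 = (Λ.W m c s).f (x j s)) ∧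
    (∀ j s (σ : Qb ≃ₐ[ℚ] Qb), σ (x j s) = x j (Λ.perm σ s) ∧ σ (y j s) = y j (Λ.perm σ s)) ∧
    (∀ s, Function.Injective fun j => x j s) ∧
    ∀ j s v, IsPl Λ.p v → v (x j s) = (Λ.p : ℝ) ^ 2 := by
  have hp := Λ.prime
  have hp3 : 3 < Λ.p := by
    have := Λ.big
    omega
  have hp0 : (Λ.p : Qb) ≠ 0 := Nat.cast_ne_zero.2 hp.ne_zero
  have hμ : ∀ s, IsIntegral ℤ (Λ.pv m s) := fun s =>
    IsIntegral.sum _ fun i _ => (isIntegral_algebraMap (x := m i)).mul ((Λ.int s).pow _)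
  have hA : ∀ s, IsIntegral ℤ (Λ.W m c s).A := fun s =>
    ((isIntegral_algebraMap (x := (4 : ℤ))).mul (isIntegral_algebraMap (x := (Λ.p : ℤ)))).mul (hμ s)
  have hB : ∀ s, IsIntegral ℤ (Λ.W m c s).B := fun s => (hμ s).pow 2
  let z : ℕ → Fin 5 → Qb × Qb := fun j s =>
    (X6_dbl (Λ.W m c s).A)^[j] ((2 * Λ.p : Qb)⁻¹ ^ 2, (2 * Λ.p : Qb)⁻¹ ^ 3 + Λ.pv m s)
  have hz : ∀ j s, z (j + 1) s = X6_dbl (Λ.W m c s).A (z j s) := fun j s =>
    Function.iterate_succ_apply' _ _ _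
  have h0 : ∀ s, (z 0 s).2 ^ 2 = (z 0 s).1 ^ 3 + (Λ.W m c s).A * (z 0 s).1 ^ 2 + (Λ.W m c s).B :=
    fun s => by
      simp only [z, Function.iterate_zero, id, AR.W]
      field_simp
      ring
  have key : ∀ q v, IsPl q v → q ≠ 0 → ∀ s, 1 < v (z 0 s).1 → ∀ j,
      (z j s).2 ^ 2 = (z j s).1 ^ 3 + (Λ.W m c s).A * (z j s).1 ^ 2 + (Λ.W m c s).B ∧
        1 < v (z j s).1 ∧ v (z j s).1 * v 4 ^ j = v (z 0 s).1 := by
    intro q v hv hq s h1 j
    induction j with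
    | zero => exact ⟨h0 s, h1, by rw [pow_zero, mul_one]⟩
    | succ j ih =>
      obtain ⟨k1, k2⟩ := X6_step (hv.nonarch hq) (hv.le_one_of_isIntegral hq (hA s))
        (hv.le_one_of_isIntegral hq (hB s)) ih.1 ih.2.1
      rw [hz]
      refine ⟨k1, ?_, by rw [pow_succ', ← mul_assoc, k2, ih.2.2]⟩
      have h4 : v 4 ≤ 1 := (hv.nonarch hq).apply_natCast_le_one (n := 4)
      have h5 := ih.2.1
      rw [← k2] at h5
      exact h5.trans_le (mul_le_of_le_one_right (v.nonneg _) h4)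
  obtain ⟨w, hw⟩ := exists_isPl (Or.inr Nat.prime_two)
  have w2 : w 2 = 2⁻¹ := by simpa using (H1a_prime hw two_ne_zero).2
  have w4 : w 4 = 4⁻¹ := by
    rw [show (4 : Qb) = 2 * 2 by norm_num, map_mul, w2]
    norm_num
  have wp : w Λ.p = 1 := by
    have := H1a_coprime hw two_ne_zero (m := Λ.p) (by
      rw [Int.natCast_dvd_natCast, Nat.prime_dvd_prime_iff_eq Nat.prime_two hp]
      omega)
    simpa using this
  have w0 : ∀ s, w (z 0 s).1 = 4 := fun s => by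
    simp only [z, Function.iterate_zero, id, map_pow, map_inv₀, map_mul, w2, wp]
    norm_num
  have kw := fun s => key 2 w hw two_ne_zero s (by rw [w0]; norm_num)
  refine ⟨fun j s => (z j s).1, fun j s => (z j s).2, fun j s => (kw s j).1, fun j s σ => ?_,
    fun s i j h => ?_, fun j s v hv => ?_⟩
  · induction j with
    | zero =>
      simp only [z, Function.iterate_zero, id, map_pow, map_inv₀, map_mul, map_add, map_ofNat,
        map_natCast, Λ.X6_pv, and_self]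
    | succ j ih =>
      simp only [hz, X6_dbl, map_pow, map_div₀, map_mul, map_add, map_sub, map_neg, map_ofNat,
        ih.1, ih.2, (Λ.act_W m c σ s).1, and_self]
  · have h1 := (kw s i).2.2
    have h2 := (kw s j).2.2
    have h3 := (kw s j).2.1
    simp only at h
    rw [h, ← h2, w4] at h1
    exact pow_right_injective₀ (by norm_num) (by norm_num)
      (mul_left_cancel₀ (zero_lt_one.trans h3).ne' h1)
  · have v2 : v 2 = 1 := by
      have := H1a_coprime hv hp.ne_zero (m := 2) fun h => by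
        have := Int.le_of_dvd two_pos h
        omega
      simpa using this
    have v4 : v 4 = 1 := by rw [show (4 : Qb) = 2 * 2 by norm_num, map_mul, v2, mul_one]
    have v0 : v (z 0 s).1 = (Λ.p : ℝ) ^ 2 := by
      simp only [z, Function.iterate_zero, id, map_pow, map_inv₀, map_mul, v2,
        (H1a_prime hv hp.ne_zero).2, one_mul, inv_inv]
    have h1 := (key _ v hv hp.ne_zero s (by
      rw [v0]
      exact one_lt_pow₀ (by exact_mod_cast hp.one_lt) two_ne_zero) j).2.2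
    rwa [v4, one_pow, mul_one, v0] at h1

end Pool.Agent.E6b
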