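import Pool.Agent.E6b.XDefs
import Pool.Agent.E6b.K2

open scoped NNReal TensorProduct IntermediateField BigOperators Classical Topology
open Filter

namespace Pool.Agent.E6b

variable {κ E : Type} [Field κ] [IsAlgClosed κ] [CharZero κ] [Field E] [Algebra κ E]

/-- one cover -/
structure WC (W : WP κ) (a : ℕ) (t x : E) : Prop where
  ha : 1 ≤ a
  ns : W.Ns
  nc : t ∉ (algebraMap κ E).range
  gen : IntermediateField.adjoin κ {t, x} = ⊤
  rel : W.Rel a t x

omit [IsAlgClosed κ] [CharZero κ] in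
theorem X2a_f_map (W : WP κ) (x₀ : κ) : W.f (algebraMap κ E x₀) = algebraMap κ E (W.f x₀) := by
  simp [WP.f]

omit [CharZero κ] in
theorem X2a_transc {x : E} (hx : x ∉ (algebraMap κ E).range) : Transcendental κ x := by
  intro hal
  have hi : IsIntegral κ x := hal.isIntegral
  exact hx (minpoly.mem_range_of_degree_eq_one κ x
    (IsAlgClosed.degree_eq_one_of_irreducible κ (minpoly.irreducible hi)))

theorem X2a_ev_pow [IsFF κ E] (P : Place κ E) {f : E} (hf : f ∈ P.O) (n : ℕ) :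
    P.ev (f ^ n) = P.ev f ^ n := by
  induction n with
  | zero => simpa using P.ev_algebraMap 1
  | succ n ih => rw [pow_succ, pow_succ, P.ev_mul (pow_mem hf n) hf, ih]

theorem X2a_ev_neg [IsFF κ E] (P : Place κ E) {f : E} (hf : f ∈ P.O) : P.ev (-f) = - P.ev f := by
  have h := P.ev_sub P.O.zero_mem hf
  rwa [zero_sub, F1a_ev_zero, zero_sub] at h

theorem X2a_ev_f [IsFF κ E] (W : WP κ) (P : Place κ E) {x : E} (hx : x ∈ P.O) :
    W.f x ∈ P.O ∧ P.ev (W.f x) = W.f (P.ev x) := by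
  have h1 := pow_mem hx 3
  have h2 := mul_mem (P.const W.A) (pow_mem hx 2)
  refine ⟨add_mem (add_mem h1 h2) (P.const _), ?_⟩
  rw [WP.f, P.ev_add (add_mem h1 h2) (P.const _), P.ev_add h1 h2,
    P.ev_mul (P.const _) (pow_mem hx 2), X2a_ev_pow P hx, X2a_ev_pow P hx, P.ev_algebraMap,
    P.ev_algebraMap]
  simp [WP.f]

theorem X2a_ord_f [IsFF κ E] (W : WP κ) (P : Place κ E) {x : E} (hx : P.ord x < 0) :
    P.ord (W.f x) = 3 * P.ord x := by
  have hd : (Polynomial.X ^ 3 + Polynomial.C W.A * Polynomial.X ^ 2 + Polynomial.C W.B :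
      Polynomial κ).natDegree = 3 := by compute_degree!
  have h0 : (Polynomial.X ^ 3 + Polynomial.C W.A * Polynomial.X ^ 2 + Polynomial.C W.B :
      Polynomial κ) ≠ 0 := by
    intro h
    rw [h] at hd
    simp at hd
  have h := (F2_ord_aeval P hx h0).2
  rw [hd] at h
  simpa [WP.f] using h

theorem X2a_rk [IsFF κ E] {g : E} (hg : g ∉ (algebraMap κ E).range) (c : Option κ)
    {o : Place κ E} (ho : 0 < o.ord (lc g c)) (h : ∀ P, P ≠ o → P.ord (lc g c) ≤ 0) :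
    (rk κ g : ℤ) = o.ord (lc g c) := by
  have h1 := sum_ord_lc hg c
  have h2 : (finite_tv hg c).toFinset = {o} := by
    ext P
    rw [Set.Finite.mem_toFinset, Finset.mem_singleton]
    change tv g P = c ↔ _
    rw [tv_eq_iff hg]
    constructor
    · intro hP
      by_contra hne
      exact absurd (h P hne) (not_le.2 hP)
    · rintro rfl
      exact ho
  rw [h2, Finset.sum_singleton] at h1
  exact h1.symm

variable {W : WP κ} {a : ℕ} {t x : E} (h : WC W a t x)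

include h

namespace WC

theorem x_notMem : x ∉ (algebraMap κ E).range := by
  rintro ⟨x₀, rfl⟩
  obtain ⟨r, hr⟩ := IsAlgClosed.exists_pow_nat_eq (x₀ ^ (2 * a) * W.f x₀) (n := 2) two_pos
  have h1 := h.rel
  rw [WP.Rel, X2a_f_map, ← map_pow, ← map_mul, ← hr, map_pow] at h1
  have key : ∀ s : κ, (t - algebraMap κ E W.τ)⁻¹ = algebraMap κ E s → False := fun s hs =>
    h.nc ⟨W.τ + s⁻¹, by rw [map_add, map_inv₀, ← hs, inv_inv, add_sub_cancel]⟩
  rcases sq_eq_sq_iff_eq_or_eq_neg.1 h1 with h2 | h2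
  · exact key (W.c + r) (by rw [map_add, h2, add_sub_cancel])
  · exact key (W.c - r) (by rw [map_sub, h2]; ring)

theorem X2a_x_ne : x ≠ 0 := fun h0 => h.x_notMem ⟨0, by rw [h0, map_zero]⟩

theorem y_sq : W.y a t x ^ 2 = W.f x := by
  have h1 := h.rel
  have h2 := h.X2a_x_ne
  rw [WP.Rel] at h1
  rw [WP.y, div_pow, ← h1, ← pow_mul, mul_comm a 2, mul_div_cancel_left₀ _ (pow_ne_zero _ h2)]

theorem X2a_u : x ^ a * W.y a t x + algebraMap κ E W.c = (t - algebraMap κ E W.τ)⁻¹ := by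
  rw [WP.y, mul_div_cancel₀ _ (pow_ne_zero _ h.X2a_x_ne), sub_add_cancel]

theorem t_eq : t = algebraMap κ E W.τ + (x ^ a * W.y a t x + algebraMap κ E W.c)⁻¹ := by
  rw [h.X2a_u, inv_inv, add_sub_cancel]

theorem X2a_top : κ⟮x⟯⟮W.y a t x⟯ = ⊤ := by
  have hx : x ∈ κ⟮x⟯⟮W.y a t x⟯ :=
    IntermediateField.algebraMap_mem κ⟮x⟯⟮W.y a t x⟯
      ⟨x, IntermediateField.mem_adjoin_simple_self κ x⟩
  have hy : W.y a t x ∈ κ⟮x⟯⟮W.y a t x⟯ := IntermediateField.mem_adjoin_simple_self _ _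
  have hc : ∀ c : κ, algebraMap κ E c ∈ κ⟮x⟯⟮W.y a t x⟯ := fun c =>
    IntermediateField.algebraMap_mem κ⟮x⟯⟮W.y a t x⟯ (algebraMap κ κ⟮x⟯ c)
  have ht : t ∈ κ⟮x⟯⟮W.y a t x⟯ := by
    have := add_mem (hc W.τ) (inv_mem (add_mem (mul_mem (pow_mem hx a) hy) (hc W.c)))
    rwa [← h.t_eq] at this
  have h1 : IntermediateField.adjoin κ {t, x} ≤ (κ⟮x⟯⟮W.y a t x⟯).restrictScalars κ := by
    rw [IntermediateField.adjoin_le_iff]
    rintro z (rfl | rfl)
    · exact ht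
    · exact hx
  rw [h.gen] at h1
  exact top_unique fun z _ => h1 (IntermediateField.mem_top (x := z))

theorem X2a_poly : ∃ q : Polynomial κ⟮x⟯, q.Monic ∧ q.natDegree = 2 ∧
    Polynomial.aeval (W.y a t x) q = 0 ∧ Polynomial.aeval (- W.y a t x) q = 0 := by
  have hx := IntermediateField.mem_adjoin_simple_self κ x
  have hf : W.f x ∈ κ⟮x⟯ := add_mem (add_mem (pow_mem hx 3)
    (mul_mem (IntermediateField.algebraMap_mem _ _) (pow_mem hx 2)))
    (IntermediateField.algebraMap_mem _ _)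
  refine ⟨Polynomial.X ^ 2 - Polynomial.C ⟨W.f x, hf⟩, Polynomial.monic_X_pow_sub_C _ two_ne_zero,
    Polynomial.natDegree_X_pow_sub_C, ?_, ?_⟩
  · rw [map_sub, map_pow, Polynomial.aeval_X, Polynomial.aeval_C, h.y_sq]
    exact sub_self _
  · rw [map_sub, map_pow, Polynomial.aeval_X, Polynomial.aeval_C, neg_sq, h.y_sq]
    exact sub_self _

theorem X2a_int : IsIntegral κ⟮x⟯ (W.y a t x) := by
  obtain ⟨q, hq, -, h1, -⟩ := h.X2a_poly
  exact ⟨q, hq, h1⟩

theorem X2a_deg : rk κ x = (minpoly κ⟮x⟯ (W.y a t x)).natDegree := by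
  rw [← IntermediateField.adjoin.finrank h.X2a_int, h.X2a_top, IntermediateField.finrank_top']
  rfl

theorem X2a_rk_le : rk κ x ≤ 2 := by
  obtain ⟨q, hq, h2, h1, -⟩ := h.X2a_poly
  rw [h.X2a_deg, ← h2]
  exact Polynomial.natDegree_le_of_dvd (minpoly.dvd _ _ h1) hq.ne_zero

theorem isFF : IsFF κ E := by
  refine ⟨x, X2a_transc h.x_notMem, ?_⟩
  have h1 := IntermediateField.adjoin.finiteDimensional h.X2a_int
  rw [h.X2a_top] at h1
  exact Module.Finite.equiv (IntermediateField.topEquiv (F := κ⟮x⟯) (E := E)).toLinearEquiv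

variable [IsFF κ E]

theorem X2a_pole {P : Place κ E} (hP : P.ord x < 0) : 2 * P.ord (W.y a t x) = 3 * P.ord x := by
  have h1 := P.ord_pow (W.y a t x) 2
  rw [h.y_sq, X2a_ord_f W P hP] at h1
  exact_mod_cast h1.symm

theorem X2a_y_mem {P : Place κ E} (hP : x ∈ P.O) : W.y a t x ∈ P.O := by
  have h1 := P.ord_pow (W.y a t x) 2
  have h2 := P.mem_iff.1 (X2a_ev_f W P hP).1
  rw [h.y_sq] at h1
  rw [P.mem_iff]
  push_cast at h1
  omega

theorem X2a_inf : ∃ o : Place κ E, o.ord x = -2 ∧ o.ord (W.y a t x) = -3 ∧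
    ∀ P : Place κ E, P ≠ o → x ∈ P.O := by
  obtain ⟨o, ho⟩ := exists_pole h.x_notMem
  have hi : x⁻¹ ∉ (algebraMap κ E).range := by
    rintro ⟨c, hc⟩
    exact h.x_notMem ⟨c⁻¹, by rw [map_inv₀, hc, inv_inv]⟩
  have hr : Module.finrank κ⟮x⁻¹⟯ E ≤ 2 := by
    have e : κ⟮x⁻¹⟯ = κ⟮x⟯ := by
      refine le_antisymm (IntermediateField.adjoin_simple_le_iff.2
        (inv_mem (IntermediateField.mem_adjoin_simple_self κ x)))
        (IntermediateField.adjoin_simple_le_iff.2 ?_)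
      have := inv_mem (IntermediateField.mem_adjoin_simple_self κ x⁻¹)
      rwa [inv_inv] at this
    rw [e]
    exact h.X2a_rk_le
  have h1 := h.X2a_pole ho
  have h2 := F1_sum_ord_le hi {o} (fun P hP => by
    rw [Finset.mem_singleton.1 hP, Place.ord_inv]; omega)
  rw [Finset.sum_singleton, Place.ord_inv] at h2
  refine ⟨o, by omega, by omega, fun P hne => ?_⟩
  by_contra hP
  rw [P.mem_iff, not_le] at hP
  have h3 := h.X2a_pole hP
  have h4 := F1_sum_ord_le hi {P, o} (fun Q hQ => by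
    rcases Finset.mem_insert.1 hQ with rfl | hQ
    · rw [Place.ord_inv]; omega
    · rw [Finset.mem_singleton.1 hQ, Place.ord_inv]; omega)
  rw [Finset.sum_pair hne, Place.ord_inv, Place.ord_inv] at h4
  omega

theorem rk_x : rk κ x = 2 := by
  obtain ⟨o, h1, -, h3⟩ := h.X2a_inf
  have e : ∀ P : Place κ E, P.ord (lc x (none : Option κ)) = - P.ord x := fun P => P.ord_inv x
  have := X2a_rk h.x_notMem none (o := o) (by rw [e]; omega) (fun P hP => by
    have := P.mem_iff.1 (h3 P hP)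
    rw [e]; omega)
  rw [e] at this
  omega

theorem rk_y : rk κ (W.y a t x) = 3 := by
  obtain ⟨o, -, h2, h3⟩ := h.X2a_inf
  have hy : W.y a t x ∉ (algebraMap κ E).range := by
    rintro ⟨c, hc⟩
    rw [← hc, o.ord_algebraMap] at h2
    omega
  have e : ∀ P : Place κ E, P.ord (lc (W.y a t x) (none : Option κ)) = - P.ord (W.y a t x) :=
    fun P => P.ord_inv _
  have := X2a_rk hy none (o := o) (by rw [e]; omega) (fun P hP => by
    have := P.mem_iff.1 (h.X2a_y_mem (h3 P hP))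
    rw [e]; omega)
  rw [e] at this
  omega

theorem X2a_ord_t (P : Place κ E) : P.ord (t - algebraMap κ E W.τ) =
    - P.ord (x ^ a * W.y a t x + algebraMap κ E W.c) := by
  rw [h.X2a_u, P.ord_inv, neg_neg]

theorem X2a_inf' : ∃ o : Place κ E, o.ord (t - algebraMap κ E W.τ) = 2 * a + 3 ∧
    ∀ P : Place κ E, P ≠ o → x ∈ P.O ∧ W.y a t x ∈ P.O ∧
      P.ord (t - algebraMap κ E W.τ) ≤ 0 := by
  obtain ⟨o, h1, h2, h3⟩ := h.X2a_inf
  have hy : W.y a t x ≠ 0 := F1a_ne_zero_of_ord o (by omega)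
  have hxa : x ^ a ≠ 0 := pow_ne_zero _ h.X2a_x_ne
  have h4 : o.ord (x ^ a * W.y a t x) = -(2 * a + 3) := by
    rw [o.ord_mul hxa hy, o.ord_pow, h1, h2]
    ring
  have h5 := (o.ord_add_eq (g := algebraMap κ E W.c) (mul_ne_zero hxa hy)
    (Or.inr (by rw [h4, o.ord_algebraMap]; omega))).2
  refine ⟨o, by rw [h.X2a_ord_t, h5, h4, neg_neg], fun P hP => ?_⟩
  have h6 := h3 P hP
  have h7 := h.X2a_y_mem h6
  refine ⟨h6, h7, ?_⟩
  have h8 := P.mem_iff.1 (add_mem (mul_mem (pow_mem h6 a) h7) (P.const W.c))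
  rw [h.X2a_ord_t]
  omega

theorem rk_t : rk κ t = 2 * a + 3 := by
  obtain ⟨o, h1, h2⟩ := h.X2a_inf'
  have e : lc t (some W.τ) = t - algebraMap κ E W.τ := rfl
  have := X2a_rk h.nc (some W.τ) (o := o) (by rw [e, h1]; omega) (fun P hP => (h2 P hP).2.2)
  rw [e, h1] at this
  exact_mod_cast this

/-- the place at infinity -/
theorem exists_inf : ∃ o : Place κ E, o.ord (t - algebraMap κ E W.τ) = 2 * a + 3 ∧
    ∀ P : Place κ E, P ≠ o → x ∈ P.O ∧ W.y a t x ∈ P.O ∧ tv t P ≠ some W.τ := by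
  obtain ⟨o, h1, h2⟩ := h.X2a_inf'
  refine ⟨o, h1, fun P hP => ⟨(h2 P hP).1, (h2 P hP).2.1, fun e => ?_⟩⟩
  exact absurd ((tv_eq_iff h.nc).1 e) (not_lt.2 (h2 P hP).2.2)

theorem X2a_invol : ∃ σ : E →ₐ[κ] E, σ x = x ∧ σ (W.y a t x) = - W.y a t x := by
  obtain ⟨q, hq, h2, h1, h3⟩ := h.X2a_poly
  have hm := minpoly.monic h.X2a_int
  have he : q = minpoly κ⟮x⟯ (W.y a t x) :=
    Polynomial.eq_of_monic_of_dvd_of_natDegree_le hm hq (minpoly.dvd _ _ h1)
      (by rw [← h.X2a_deg, h.rk_x, h2])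
  have hr : - W.y a t x ∈ (minpoly κ⟮x⟯ (W.y a t x)).aroots E := by
    rw [Polynomial.mem_aroots, ← he]
    exact ⟨hq.ne_zero, h3⟩
  let φ := (IntermediateField.algHomAdjoinIntegralEquiv κ⟮x⟯ (K := E) h.X2a_int).symm ⟨_, hr⟩
  have hφ : φ (IntermediateField.AdjoinSimple.gen κ⟮x⟯ (W.y a t x)) = - W.y a t x :=
    IntermediateField.algHomAdjoinIntegralEquiv_symm_apply_gen κ⟮x⟯ h.X2a_int ⟨_, hr⟩
  let e : κ⟮x⟯⟮W.y a t x⟯ ≃ₐ[κ⟮x⟯] E :=
    (IntermediateField.equivOfEq h.X2a_top).trans IntermediateField.topEquiv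
  have he2 : e.symm (W.y a t x) = IntermediateField.AdjoinSimple.gen κ⟮x⟯ (W.y a t x) := by
    rw [AlgEquiv.symm_apply_eq]
    rfl
  refine ⟨(φ.comp (e.symm : E →ₐ[κ⟮x⟯] κ⟮x⟯⟮W.y a t x⟯)).restrictScalars κ, ?_, ?_⟩
  · exact (φ.comp (e.symm : E →ₐ[κ⟮x⟯] κ⟮x⟯⟮W.y a t x⟯)).commutes
      ⟨x, IntermediateField.mem_adjoin_simple_self κ x⟩
  · change φ (e.symm (W.y a t x)) = _
    rw [he2, hφ]

theorem X2a_ev_sq {P : Place κ E} (hP : x ∈ P.O) : P.ev (W.y a t x) ^ 2 = W.f (P.ev x) := by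
  rw [← X2a_ev_pow P (h.X2a_y_mem hP), h.y_sq, (X2a_ev_f W P hP).2]

theorem exists_place {x₀ y₀ : κ} (h0 : y₀ ^ 2 = W.f x₀) : ∃ P : Place κ E,
    x ∈ P.O ∧ W.y a t x ∈ P.O ∧ P.ev x = x₀ ∧ P.ev (W.y a t x) = y₀ := by
  obtain ⟨P, hP⟩ := exists_place_ev h.x_notMem x₀
  have h1 : x ∈ P.O := by
    have := add_mem (P.mem_iff.2 hP.le) (P.const x₀)
    rwa [sub_add_cancel] at this
  have h2 : P.ev x = x₀ := P.ev_eq (Or.inr hP)
  have h3 := h.X2a_ev_sq h1
  rw [h2, ← h0] at h3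
  rcases sq_eq_sq_iff_eq_or_eq_neg.1 h3 with h4 | h4
  · exact ⟨P, h1, h.X2a_y_mem h1, h2, h4⟩
  · obtain ⟨σ, hx, hy⟩ := h.X2a_invol
    have h5 : x ∈ ((FHom.ofAlgHom σ).res P).O := by
      refine ((FHom.ofAlgHom σ).map_mem_iff P x).1 ?_
      change σ x ∈ P.O
      rwa [hx]
    have h6 : ∀ f : E, P.ev (σ f) = ((FHom.ofAlgHom σ).res P).ev f := fun f =>
      (FHom.ofAlgHom σ).ev_map P f
    refine ⟨_, h5, h.X2a_y_mem h5, ?_, ?_⟩
    · rw [← h6, hx, h2]
    · rw [← h6, hy, X2a_ev_neg P (h.X2a_y_mem h1), h4, neg_neg]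

theorem X2a_pos {P : Place κ E} (hP : x ∈ P.O) : 0 < P.ord (x - algebraMap κ E (P.ev x)) :=
  (P.ev_spec hP).resolve_left fun e => h.x_notMem ⟨_, e.symm⟩

theorem X2a_sum_le (x₀ : κ) (S : Finset (Place κ E))
    (hS : ∀ P ∈ S, 0 < P.ord (x - algebraMap κ E x₀)) :
    ∑ P ∈ S, P.ord (x - algebraMap κ E x₀) ≤ 2 := by
  have h1 := sum_ord_lc h.x_notMem (some x₀)
  rw [h.rk_x] at h1
  refine le_trans (Finset.sum_le_sum_of_subset_of_nonneg (fun P hP => ?_) fun P hP _ => ?_) h1.le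
  · exact (Set.Finite.mem_toFinset _).2 ((tv_eq_iff h.x_notMem).2 (hS P hP))
  · exact ((tv_eq_iff h.x_notMem).1
      ((finite_tv h.x_notMem (some x₀)).mem_toFinset.1 hP)).le

theorem X2a_two {P : Place κ E} (hP : x ∈ P.O) (hy : P.ev (W.y a t x) = 0) :
    2 ≤ P.ord (x - algebraMap κ E (P.ev x)) := by
  have h1 := h.X2a_ev_sq hP
  have h2 := h.X2a_pos hP
  generalize hx₀ : P.ev x = x₀ at h1 h2 ⊢
  rw [hy] at h1
  have h3 : x₀ ^ 3 + W.A * x₀ ^ 2 + W.B = 0 := by simpa [WP.f] using h1.symm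
  have h4 : x₀ * (3 * x₀ + 2 * W.A) ≠ 0 := by
    intro e
    apply h.ns
    rcases mul_eq_zero.1 e with e | e
    · have : W.B = 0 := by rw [e] at h3; simpa using h3
      rw [this, zero_mul]
    · have : 4 * W.A ^ 3 + 27 * W.B = 0 := by
        linear_combination 27 * h3 - (9 * x₀ ^ 2 + 3 * W.A * x₀ - 2 * W.A ^ 2) * e
      rw [this, mul_zero]
  have m1 := mul_mem hP (add_mem hP (P.const (x₀ + W.A)))
  have h5 : P.ev (x * (x + algebraMap κ E (x₀ + W.A)) + algebraMap κ E (x₀ * (x₀ + W.A))) ≠ 0 := by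
    rw [P.ev_add m1 (P.const _), P.ev_mul hP (add_mem hP (P.const _)), P.ev_add hP (P.const _),
      P.ev_algebraMap, P.ev_algebraMap, hx₀]
    intro e
    exact h4 (by linear_combination e)
  have m2 := add_mem m1 (P.const (x₀ * (x₀ + W.A)))
  have h6 : W.y a t x ^ 2 = (x - algebraMap κ E x₀) *
      (x * (x + algebraMap κ E (x₀ + W.A)) + algebraMap κ E (x₀ * (x₀ + W.A))) := by
    have e := congrArg (algebraMap κ E) h3
    rw [h.y_sq, WP.f]
    simp only [map_add, map_mul, map_pow, map_zero] at e ⊢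
    linear_combination e
  rw [Ne, P.ev_eq_zero_iff m2, not_or] at h5
  have h7 := P.mem_iff.1 m2
  have h8 := P.ord_mul (F1a_ne_zero_of_ord P h2.ne') h5.1
  have h9 := P.ord_pow (W.y a t x) 2
  rw [h6, h8] at h9
  have h10 := h5.2
  have key : ∀ n₁ n₂ n₃ : ℤ, 0 < n₁ → 0 ≤ n₂ → ¬ 0 < n₂ → n₁ + n₂ = (2 : ℕ) * n₃ → 2 ≤ n₁ := by
    intro n₁ n₂ n₃ a b c d
    push_cast at d
    omega
  exact key _ _ _ h2 h7 h10 h9

theorem place_ext {P Q : Place κ E} (hP : x ∈ P.O) (hQ : x ∈ Q.O) (hx : P.ev x = Q.ev x)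
    (hy : P.ev (W.y a t x) = Q.ev (W.y a t x)) : P = Q := by
  by_contra hne
  have h1 := h.X2a_pos hP
  have h2 := h.X2a_pos hQ
  rw [← hx] at h2
  by_cases h0 : P.ev (W.y a t x) = 0
  · have h3 := h.X2a_two hP h0
    have h4 := h.X2a_sum_le (P.ev x) {P, Q} (fun R hR => by
      rcases Finset.mem_insert.1 hR with rfl | hR
      · exact h1
      · rw [Finset.mem_singleton.1 hR]; exact h2)
    rw [Finset.sum_pair hne] at h4
    omega
  · obtain ⟨R, r1, -, r3, r4⟩ := h.exists_place (x₀ := P.ev x) (y₀ := - P.ev (W.y a t x))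
      (by rw [neg_sq, h.X2a_ev_sq hP])
    have h3 := h.X2a_pos r1
    rw [r3] at h3
    have hRP : R ≠ P := by
      rintro rfl
      exact h0 (by linear_combination r4 / 2)
    have hRQ : R ≠ Q := by
      rintro rfl
      exact h0 (by linear_combination (r4 + hy) / 2)
    have h4 := h.X2a_sum_le (P.ev x) {R, P, Q} (fun S hS => by
      rcases Finset.mem_insert.1 hS with rfl | hS
      · exact h3
      rcases Finset.mem_insert.1 hS with rfl | hS
      · exact h1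
      · rw [Finset.mem_singleton.1 hS]; exact h2)
    rw [Finset.sum_insert (by simp [hRP, hRQ]), Finset.sum_pair hne] at h4
    omega

theorem ev_rel {P : Place κ E} (hP : x ∈ P.O) : W.y a t x ∈ P.O ∧
    P.ev (W.y a t x) ^ 2 = W.f (P.ev x) ∧
    tv t P = if P.ev x ^ a * P.ev (W.y a t x) + W.c = 0 then none
      else some (W.τ + (P.ev x ^ a * P.ev (W.y a t x) + W.c)⁻¹) := by
  have hy := h.X2a_y_mem hP
  refine ⟨hy, h.X2a_ev_sq hP, ?_⟩
  have m1 := mul_mem (pow_mem hP a) hy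
  have m2 := add_mem m1 (P.const W.c)
  have h1 : P.ev (x ^ a * W.y a t x + algebraMap κ E W.c) =
      P.ev x ^ a * P.ev (W.y a t x) + W.c := by
    rw [P.ev_add m1 (P.const _), P.ev_mul (pow_mem hP a) hy, X2a_ev_pow P hP, P.ev_algebraMap]
  rw [← h1]
  split_ifs with h0
  · have h2 : x ^ a * W.y a t x + algebraMap κ E W.c ≠ 0 := by
      rw [h.X2a_u]
      exact inv_ne_zero (sub_ne_zero.2 fun e => h.nc ⟨_, e.symm⟩)
    have h3 := ((P.ev_eq_zero_iff m2).1 h0).resolve_left h2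
    have h4 := h.X2a_ord_t P
    rw [tv, if_neg]
    intro ht
    have := P.mem_iff.1 (sub_mem ht (P.const W.τ))
    omega
  · have h2 := P.ev_div P.O.one_mem m2 h0
    have e1 : P.ev 1 = 1 := by simpa using P.ev_algebraMap 1
    rw [e1, one_div, one_div] at h2
    have h3 := add_mem (P.const W.τ) h2.1
    have h4 := P.ev_add (P.const W.τ) h2.1
    rw [← h.t_eq] at h3 h4
    rw [tv, if_pos h3, h4, h2.2, P.ev_algebraMap]

end WC

end Pool.Agent.E6b
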