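import Pool.Agent.E6b.X6
import Pool.Agent.E6b.X2a

open scoped NNReal TensorProduct IntermediateField BigOperators Classical Topology
open Filter

namespace Pool.Agent.E6b

section
variable {κ E : Type} [Field κ] [IsAlgClosed κ] [CharZero κ] [Field E] [Algebra κ E] [IsFF κ E]
  {W : WP κ} {a : ℕ} {t x : E}

theorem X7_mem (h : WC W a t x) {P : Place κ E} {t₀ : κ} (h1 : tv t P = some t₀)
    (h2 : t₀ ≠ W.τ) : x ∈ P.O := by
  obtain ⟨o, ho, hP⟩ := h.exists_inf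
  refine (hP P ?_).1
  rintro rfl
  have h3 : tv t P = some W.τ := (tv_eq_iff h.nc).2 (by
    show 0 < P.ord (t - algebraMap κ E W.τ)
    rw [ho]
    positivity)
  exact h2 (Option.some.inj (h1.symm.trans h3))

theorem X7_ev (h : WC W a t x) {P : Place κ E} {t₀ : κ} (h1 : tv t P = some t₀)
    (h2 : t₀ ≠ W.τ) : P.ev x ^ a * P.ev (W.y a t x) = (t₀ - W.τ)⁻¹ - W.c ∧
      W.Rel a t₀ (P.ev x) := by
  obtain ⟨-, h3, h4⟩ := h.ev_rel (X7_mem h h1 h2)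
  rw [h1] at h4
  split_ifs at h4 with h5
  have h6 : P.ev x ^ a * P.ev (W.y a t x) = (t₀ - W.τ)⁻¹ - W.c := by
    rw [Option.some.inj h4, add_sub_cancel_left, inv_inv, add_sub_cancel_right]
  refine ⟨h6, ?_⟩
  show P.ev x ^ (2 * a) * W.f (P.ev x) = ((t₀ - W.τ)⁻¹ - W.c) ^ 2
  rw [← h6, ← h3]
  ring

theorem X7_ext (h : WC W a t x) {P Q : Place κ E} {t₀ : κ} (hP : tv t P = some t₀)
    (hQ : tv t Q = some t₀) (h2 : t₀ ≠ W.τ) (hx : P.ev x = Q.ev x) (h0 : P.ev x ≠ 0) : P = Q := by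
  refine h.place_ext (X7_mem h hP h2) (X7_mem h hQ h2) hx ?_
  have h3 := (X7_ev h hP h2).1
  have h4 := (X7_ev h hQ h2).1
  rw [← hx, ← h3] at h4
  exact (mul_left_cancel₀ (pow_ne_zero a h0) h4).symm

theorem X7_ex (h : WC W a t x) {x₀ y₀ : κ} (h0 : y₀ ^ 2 = W.f x₀) (h1 : x₀ ^ a * y₀ + W.c ≠ 0) :
    ∃ P : Place κ E, tv t P = some (W.τ + (x₀ ^ a * y₀ + W.c)⁻¹) ∧ P.ev x = x₀ := by
  obtain ⟨P, h2, -, h3, h4⟩ := h.exists_place h0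
  refine ⟨P, ?_, h3⟩
  rw [(h.ev_rel h2).2.2, h3, h4, if_neg h1]

end

section
variable {v : AbsoluteValue Qb ℝ}

theorem X7_add (hv : IsNonarchimedean v) {x y : Qb} (h : v y < v x) : v (x + y) = v x :=
  IsNonarchimedean.add_eq_left_of_lt hv h

theorem X7_sub (hv : IsNonarchimedean v) {x y : Qb} (h : v y < v x) : v (x - y) = v x := by
  rw [sub_eq_add_neg]
  exact X7_add hv (by rwa [v.map_neg])

theorem X7_f (hv : IsNonarchimedean v) {W : WP Qb} (hA : v W.A ≤ 1) (hB : v W.B ≤ 1) {x : Qb}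
    (hx : 1 < v x) : v (W.f x) = v x ^ 3 := by
  have h1 : v (W.A * x ^ 2) < v (x ^ 3) := by
    rw [map_mul, map_pow, map_pow]
    calc v W.A * v x ^ 2 ≤ 1 * v x ^ 2 := by gcongr
      _ < v x * v x ^ 2 := by gcongr
      _ = v x ^ 3 := by ring
  have h2 := X7_add hv h1
  have h3 : v W.B < v (x ^ 3 + W.A * x ^ 2) := by
    rw [h2, map_pow]
    exact hB.trans_lt (one_lt_pow₀ hx (by norm_num))
  show v (x ^ 3 + W.A * x ^ 2 + W.B) = _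
  rw [X7_add hv h3, h2, map_pow]

theorem X7_f_le (hv : IsNonarchimedean v) {W : WP Qb} (hA : v W.A ≤ 1) (hB : v W.B ≤ 1) {x : Qb}
    (hx : v x ≤ 1) : v (W.f x) ≤ 1 := by
  have h0 := v.nonneg x
  show v (x ^ 3 + W.A * x ^ 2 + W.B) ≤ _
  refine (hv _ _).trans (max_le ((hv _ _).trans (max_le ?_ ?_)) hB)
  · rw [map_pow]
    exact pow_le_one₀ h0 hx
  · rw [map_mul, map_pow]
    exact mul_le_one₀ hA (by positivity) (pow_le_one₀ h0 hx)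

end

variable {a : ℕ} (Λ : AR a)

theorem AR.X7_pv {v : AbsoluteValue Qb ℝ} (hv : IsPl Λ.p v) (u : Fin 5 → ℤ) (s : Fin 5) :
    v (Λ.pv u s) ≤ 1 := by
  refine hv.le_one_of_isIntegral Λ.prime.ne_zero (IsIntegral.sum _ fun i _ => ?_)
  exact (isIntegral_algebraMap (R := ℤ) (A := Qb) (x := u i)).mul ((Λ.int s).pow _)

theorem AR.X7_par {v : AbsoluteValue Qb ℝ} (hv : IsPl Λ.p v) (m c : Fin 5 → ℤ) (s : Fin 5) :
    v (Λ.W m c s).A ≤ 1 ∧ v (Λ.W m c s).B ≤ 1 ∧ v (Λ.W m c s).c ≤ 1 := by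
  have h1 := Λ.X7_pv hv m s
  have h0 := v.nonneg (Λ.pv m s)
  refine ⟨?_, ?_, Λ.X7_pv hv c s⟩
  · show v (4 * (Λ.p : Qb) * Λ.pv m s) ≤ 1
    have h2 := H1a_int_le_one hv Λ.prime.ne_zero (4 * Λ.p)
    push_cast at h2
    rw [map_mul]
    exact mul_le_one₀ h2 h0 h1
  · show v (Λ.pv m s ^ 2) ≤ 1
    rw [map_pow]
    exact pow_le_one₀ h0 h1

theorem AR.X7_one_lt : (1 : ℝ) < Λ.p := by exact_mod_cast Λ.prime.one_lt

/-- the valuation of the fibre coordinate near the ramified point -/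
theorem AR.X7_val {v : AbsoluteValue Qb ℝ} (hv : IsPl Λ.p v) {m c : Fin 5 → ℤ} {s : Fin 5}
    {t₀ x₀ : Qb} (ht : v (t₀ - (Λ.W m c s).τ) = (Λ.p : ℝ)⁻¹) (hx : (Λ.W m c s).Rel a t₀ x₀) :
    v x₀ ^ (2 * a + 3) = (Λ.p : ℝ) ^ 2 := by
  have hn := hv.nonarch Λ.prime.ne_zero
  obtain ⟨hA, hB, hc⟩ := Λ.X7_par hv m c s
  have hp := Λ.X7_one_lt
  have h1 : v (t₀ - (Λ.W m c s).τ)⁻¹ = Λ.p := by rw [map_inv₀, ht, inv_inv]
  have h2 : v ((t₀ - (Λ.W m c s).τ)⁻¹ - (Λ.W m c s).c) = Λ.p := by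
    rw [X7_sub hn (by rw [h1]; exact hc.trans_lt hp), h1]
  have h3 : v x₀ ^ (2 * a) * v ((Λ.W m c s).f x₀) = (Λ.p : ℝ) ^ 2 := by
    have h4 : x₀ ^ (2 * a) * (Λ.W m c s).f x₀ =
      ((t₀ - (Λ.W m c s).τ)⁻¹ - (Λ.W m c s).c) ^ 2 := hx
    rw [← map_pow, ← map_mul, h4, map_pow, h2]
  by_cases h5 : 1 < v x₀
  · rw [X7_f hn hA hB h5] at h3
    rw [← h3, pow_add]
  · have h6 := X7_f_le hn hA hB (not_lt.1 h5)
    have h7 : v x₀ ^ (2 * a) * v ((Λ.W m c s).f x₀) ≤ 1 :=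
      mul_le_one₀ (pow_le_one₀ (v.nonneg _) (not_lt.1 h5)) (v.nonneg _) h6
    have h8 : (1 : ℝ) < (Λ.p : ℝ) ^ 2 := one_lt_pow₀ hp (by norm_num)
    linarith

/-- inertia acts trivially on the five covers -/
theorem AR.X7_perm {v : AbsoluteValue Qb ℝ} (hv : IsPl Λ.p v) {σ : Qb ≃ₐ[ℚ] Qb}
    (hσ : ∀ z, v z ≤ 1 → v (σ z - z) < 1) (s : Fin 5) : Λ.perm σ s = s := by
  by_contra h
  have h1 := hσ _ (hv.le_one_of_isIntegral Λ.prime.ne_zero (Λ.int s))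
  rw [Λ.act, Λ.sep v hv _ _ h] at h1
  exact lt_irrefl _ h1

theorem AR.X7_small : ((Λ.p : ℝ) ^ (2 * a + 3))⁻¹ < (Λ.p : ℝ)⁻¹ := by
  have hp := Λ.X7_one_lt
  refine inv_strictAnti₀ (by linarith) ?_
  calc (Λ.p : ℝ) = (Λ.p : ℝ) ^ 1 := (pow_one _).symm
    _ < _ := pow_lt_pow_right₀ hp (by omega)

/-- the points and their images on the line -/
theorem AR.X7_points (m c : Fin 5 → ℤ) : ∃ x t : ℕ → Fin 5 → Qb,
    (∀ j s, ∃ y, y ^ 2 = (Λ.W m c s).f (x j s) ∧ x j s ^ a * y + (Λ.W m c s).c ≠ 0 ∧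
      t j s = (Λ.W m c s).τ + (x j s ^ a * y + (Λ.W m c s).c)⁻¹) ∧
    (∀ j s (σ : Qb ≃ₐ[ℚ] Qb), σ (x j s) = x j (Λ.perm σ s) ∧ σ (t j s) = t j (Λ.perm σ s)) ∧
    (∀ s, Function.Injective fun j => x j s) ∧ (∀ j s, x j s ≠ 0) ∧
    ∀ j s v, IsPl Λ.p v → v (t j s - (Λ.W m c s).τ) = ((Λ.p : ℝ) ^ (2 * a + 3))⁻¹ := by
  obtain ⟨x, y, h1, h2, h3, h4⟩ := Λ.exists_points m c
  have hp := Λ.X7_one_lt
  have key : ∀ j s v, IsPl Λ.p v →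
      v (x j s ^ a * y j s + (Λ.W m c s).c) = (Λ.p : ℝ) ^ (2 * a + 3) := by
    intro j s v hv
    have hn := hv.nonarch Λ.prime.ne_zero
    obtain ⟨hA, hB, hc⟩ := Λ.X7_par hv m c s
    have h5 := h4 j s v hv
    have h6 : v (y j s) ^ 2 = ((Λ.p : ℝ) ^ 3) ^ 2 := by
      rw [← map_pow, h1, X7_f hn hA hB (by rw [h5]; exact one_lt_pow₀ hp (by norm_num)), h5]
      ring
    have h7 : v (y j s) = (Λ.p : ℝ) ^ 3 :=
      (pow_left_inj₀ (v.nonneg _) (by positivity) (by norm_num)).1 h6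
    have h8 : v (x j s ^ a * y j s) = (Λ.p : ℝ) ^ (2 * a + 3) := by
      rw [map_mul, map_pow, h5, h7]
      ring
    rw [X7_add hn (by rw [h8]; exact hc.trans_lt (one_lt_pow₀ hp (by omega))), h8]
  obtain ⟨v₀, hv₀⟩ := exists_isPl (Or.inr Λ.prime)
  refine ⟨x, fun j s => (Λ.W m c s).τ + (x j s ^ a * y j s + (Λ.W m c s).c)⁻¹,
    fun j s => ⟨y j s, h1 j s, fun e => ?_, rfl⟩, fun j s σ => ⟨(h2 j s σ).1, ?_⟩, h3,
    fun j s e => ?_, fun j s v hv => ?_⟩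
  · have h5 := key j s v₀ hv₀
    rw [e, map_zero] at h5
    exact absurd h5 (by positivity)
  · obtain ⟨-, -, e1, e2⟩ := Λ.act_W m c σ s
    simp only [map_add, map_inv₀, map_mul, map_pow, (h2 j s σ).1, (h2 j s σ).2, e1, e2]
  · have h5 := h4 j s v₀ hv₀
    rw [e, map_zero] at h5
    exact absurd h5 (by positivity)
  · rw [add_sub_cancel_left, map_inv₀, key j s v hv]

/-- distance to the other branch points -/
theorem AR.X7_ram (m c : Fin 5 → ℤ) {s s' : Fin 5} (h : s ≠ s') {t₀ : Qb}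
    (ht : ∀ v, IsPl Λ.p v → v (t₀ - (Λ.W m c s).τ) = ((Λ.p : ℝ) ^ (2 * a + 3))⁻¹) :
    ∃ v, IsPl Λ.p v ∧ v (t₀ - (Λ.W m c s').τ) = (Λ.p : ℝ)⁻¹ ∧
      ∀ j, j ≠ s → j ≠ s' → v ((Λ.W m c s).τ - (Λ.W m c j).τ) = 1 := by
  obtain ⟨v, hv, h1, h2⟩ := Λ.ram s s' h
  refine ⟨v, hv, ?_, fun j hj hj' => h2 s j hj.symm (fun e => hj' e.2) fun e => h e.1⟩
  have h3 : v ((Λ.W m c s).τ - (Λ.W m c s').τ) = (Λ.p : ℝ)⁻¹ := h1
  have e : t₀ - (Λ.W m c s').τ =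
      ((Λ.W m c s).τ - (Λ.W m c s').τ) + (t₀ - (Λ.W m c s).τ) := by ring
  rw [e, X7_add (hv.nonarch Λ.prime.ne_zero) (by rw [h3, ht v hv]; exact Λ.X7_small), h3]

theorem AR.X7_ne (m c : Fin 5 → ℤ) {s : Fin 5} {t₀ : Qb}
    (ht : ∀ v, IsPl Λ.p v → v (t₀ - (Λ.W m c s).τ) = ((Λ.p : ℝ) ^ (2 * a + 3))⁻¹) (s' : Fin 5) :
    t₀ ≠ (Λ.W m c s').τ := by
  intro e
  have hp := Λ.X7_one_lt
  by_cases h : s = s'
  · obtain ⟨v₀, hv₀⟩ := exists_isPl (Or.inr Λ.prime)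
    have h1 := ht v₀ hv₀
    rw [h, e, sub_self, map_zero] at h1
    exact absurd h1 (by positivity)
  · obtain ⟨v, -, h1, -⟩ := Λ.X7_ram m c h ht
    rw [e, sub_self, map_zero] at h1
    exact absurd h1 (by positivity)

end Pool.Agent.E6b
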