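import Pool.Agent.E6b.XDefs
import Pool.Agent.E6b.H1c

open scoped NNReal TensorProduct IntermediateField BigOperators Classical Topology
open Filter

namespace Pool.Agent.E6b

lemma X7a_core {R κ : Type} [CommRing R] [IsDomain R] [Field κ] (ρ : R →+* κ) {a : ℕ}
    (ha : 1 ≤ a) {A B z z₀ x₀ x₁ : R} (hA : ρ A = 0) (hB : ρ B = 1) (hz : ρ z₀ = ρ z)
    (hz0 : ρ z ≠ 0) (hx : ρ x₁ = ρ x₀)
    (h0 : x₀ ^ (2 * a) * (x₀ ^ 3 + A * x₀ ^ 2 + B) = z₀ ^ 2)
    (h1 : x₁ ^ (2 * a) * (x₁ ^ 3 + A * x₁ ^ 2 + B) = z₀ ^ 2) (hne : x₁ ≠ x₀) :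
    ρ ((2 * a + 3) ^ (2 * a + 3) * z ^ 6 - (2 * a) ^ (2 * a) * 27) = 0 := by
  obtain ⟨m, hm⟩ : ∃ m, 2 * a = m + 1 := ⟨2 * a - 1, by omega⟩
  have hm' : (2 * a : κ) = m + 1 := by exact_mod_cast congrArg (Nat.cast : ℕ → κ) hm
  obtain ⟨k, hk⟩ := Polynomial.binomExpansion
    (Polynomial.X ^ (m + 4) + Polynomial.C A * Polynomial.X ^ (m + 3) +
      Polynomial.C B * Polynomial.X ^ (m + 1) : Polynomial R) x₀ (x₁ - x₀)
  simp only [add_sub_cancel, Polynomial.eval_add, Polynomial.eval_mul, Polynomial.eval_pow,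
    Polynomial.eval_X, Polynomial.eval_C, Polynomial.derivative_C_mul, Polynomial.derivative_X_pow_succ,
    Polynomial.eval_natCast, map_add, map_natCast, map_one, Polynomial.eval_one] at hk
  rw [hm] at h0 h1
  have e1 : (x₁ - x₀) * ((((m + 4 : ℕ) : R) * x₀ ^ (m + 3) + A * (((m + 3 : ℕ) : R) * x₀ ^ (m + 2)) +
      B * (((m : R) + 1) * x₀ ^ m)) + k * (x₁ - x₀)) = 0 := by
    push_cast at hk ⊢
    linear_combination h1 - h0 - hk
  have e2 := congrArg ρ ((mul_eq_zero.1 e1).resolve_left (sub_ne_zero.2 hne))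
  have e3 := congrArg ρ h0
  simp only [map_add, map_mul, map_pow, map_sub, map_natCast, map_one, map_zero, hA, hB, hz, hx,
    sub_self, mul_zero, zero_mul, add_zero, one_mul] at e2 e3
  simp only [map_add, map_mul, map_pow, map_sub, map_natCast, map_ofNat]
  generalize ρ x₀ = u at e2 e3
  generalize ρ z = w at e3 hz0 ⊢
  have hu : u ≠ 0 := by
    rintro rfl
    rw [zero_pow (Nat.succ_ne_zero m), zero_mul] at e3
    exact hz0 (pow_eq_zero_iff two_ne_zero |>.1 e3.symm)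
  have e4 : (2 * a + 3 : κ) * u ^ 3 = -(2 * a) := by
    apply mul_left_cancel₀ (pow_ne_zero m hu)
    rw [hm']
    push_cast at e2
    linear_combination e2
  have e5 : (2 * a + 3 : κ) * (u ^ 3 + 1) = 3 := by linear_combination e4
  have e6 : ((2 * a + 3 : κ) * u ^ 3) ^ (2 * a) = (2 * a) ^ (2 * a) := by
    rw [e4, Even.neg_pow (even_two_mul a)]
  rw [← hm] at e3
  have e7 : w ^ 6 = (u ^ (2 * a) * (u ^ 3 + 1)) ^ 3 := by rw [e3]; ring
  have e8 : (27 : κ) = ((2 * a + 3 : κ) * (u ^ 3 + 1)) ^ 3 := by rw [e5]; norm_num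
  rw [← e6, e7, e8, mul_pow, mul_pow, mul_pow, ← pow_mul u 3, ← pow_mul u _ 3, mul_comm 3 (2 * a)]
  ring

lemma X7a_res {v : AbsoluteValue Qb ℝ} (hv : IsNonarchimedean v) (x : H1c.BValA_ring hv) :
    IsLocalRing.residue _ x = 0 ↔ v x < 1 := by
  rw [IsLocalRing.residue_eq_zero_iff, IsLocalRing.mem_maximalIdeal, mem_nonunits_iff]
  constructor
  · intro h
    by_contra h'
    have h1 : v x = 1 := le_antisymm x.2 (not_lt.1 h')
    have h2 : (x : Qb) ≠ 0 := fun e => by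
      rw [e, map_zero] at h1
      exact zero_ne_one h1
    refine h (IsUnit.of_mul_eq_one ⟨(x : Qb)⁻¹, ?_⟩ (Subtype.ext (mul_inv_cancel₀ h2)))
    change v (x : Qb)⁻¹ ≤ 1
    rw [map_inv₀, h1, inv_one]
  · intro h hu
    obtain ⟨y, hy⟩ := hu.exists_right_inv
    have h1 : v x * v y = 1 := by
      rw [← map_mul, ← map_one v]
      exact congrArg (fun t : H1c.BValA_ring hv => v t) hy
    have h2 : v y ≤ 1 := y.2
    have := mul_le_of_le_one_right (v.nonneg x) h2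
    linarith

lemma X7a_root {v : AbsoluteValue Qb ℝ} (hv : IsNonarchimedean v) (n : ℕ)
    (A B z : H1c.BValA_ring hv) {x : Qb}
    (h : x ^ n * (x ^ 3 + (A : Qb) * x ^ 2 + B) = (z : Qb) ^ 2) : v x ≤ 1 := by
  have h1 : IsIntegral (H1c.BValA_ring hv) x := by
    refine ⟨Polynomial.X ^ (n + 3) + (Polynomial.C A * Polynomial.X ^ (n + 2) +
      Polynomial.C B * Polynomial.X ^ n - Polynomial.C (z ^ 2)), ?_, ?_⟩
    · refine Polynomial.monic_X_pow_add ?_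
      compute_degree!
      constructor
      · exact WithBot.coe_lt_coe.2 (by omega : n + 2 < n + 3)
      · exact WithBot.coe_lt_coe.2 (by omega : n < n + 3)
    · simp only [Polynomial.eval₂_add, Polynomial.eval₂_sub, Polynomial.eval₂_mul,
        Polynomial.eval₂_C, Polynomial.eval₂_X_pow]
      change x ^ (n + 3) + ((A : Qb) * x ^ (n + 2) + B * x ^ n - (z : Qb) ^ 2) = 0
      linear_combination h
  obtain ⟨y, rfl⟩ := IsIntegrallyClosed.isIntegral_iff.1 h1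
  exact y.2

lemma X7a_lt {v : AbsoluteValue Qb ℝ} (hv : IsNonarchimedean v) {x y : Qb} (hx : v x < 1)
    (hy : v y < 1) : v (x + y) < 1 := (hv x y).trans_lt (max_lt hx hy)

lemma X7a_le {v : AbsoluteValue Qb ℝ} (hv : IsNonarchimedean v) {x y : Qb} (hx : v x ≤ 1)
    (hy : v y ≤ 1) : v (x + y) ≤ 1 := (hv x y).trans (max_le hx hy)

variable {a : ℕ} (Λ : AR a)

lemma X7a_pv {u : Fin 5 → ℤ} {b : ℤ} (h : ∀ i, (Λ.p : ℤ) ∣ u i - if i = 0 then b else 0)
    {v : AbsoluteValue Qb ℝ} (hv : IsPl Λ.p v) (s : Fin 5) : v (Λ.pv u s - b) < 1 := by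
  obtain ⟨-, v1, -, v3⟩ := H1c_spec hv Λ.prime.ne_zero
  choose k hk using h
  have hk' : ∀ i, (u i : Qb) = (if i = 0 then (b : Qb) else 0) + Λ.p * k i := fun i => by
    have := congrArg (Int.cast : ℤ → Qb) (hk i)
    push_cast at this
    linear_combination this
  have e : Λ.pv u s - b = Λ.p * Λ.pv k s := by
    simp only [AR.pv, hk', Fin.sum_univ_five]
    simp
    ring
  have hi : IsIntegral ℤ (Λ.pv k s) :=
    IsIntegral.sum _ fun i _ => (isIntegral_algebraMap (x := k i)).mul ((Λ.int s).pow _)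
  rw [e, map_mul]
  exact (mul_le_of_le_one_right (v.nonneg _) (H1c.v_int v1 hi)).trans_lt v3

/-- away from the ramified pair the fibre polynomial has roots distinct modulo `v` -/
theorem AR.fixed_of_inertia {m c : Fin 5 → ℤ} (h : Λ.Adm m c) (ha : 1 ≤ a)
    {v : AbsoluteValue Qb ℝ} (hv : IsPl Λ.p v) {i j : Fin 5}
    (hij : v ((Λ.W m c i).τ - (Λ.W m c j).τ) = 1) {t₀ x₀ : Qb} (ht : v (t₀ - (Λ.W m c i).τ) < 1)
    (hx : (Λ.W m c j).Rel a t₀ x₀) (σ : Qb ≃ₐ[ℚ] Qb) (hσ : ∀ z, v z ≤ 1 → v (σ z - z) < 1)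
    (hx' : (Λ.W m c j).Rel a t₀ (σ x₀)) :
    σ x₀ = x₀ ∧ x₀ ≠ 0 := by
  obtain ⟨-, v1, -, v3⟩ := H1c_spec hv Λ.prime.ne_zero
  obtain ⟨u1, u2⟩ := Λ.unr v hv i j hij
  have p1 := X7a_pv Λ h.1 hv j
  have p2 := X7a_pv Λ h.2 hv j
  simp only [WP.Rel, WP.f, Algebra.algebraMap_self, RingHom.id_apply] at hx hx'
  change v (t₀ - (Λ.θ i ^ 2 + Λ.k * Λ.θ i)) < 1 at ht
  change v ((Λ.θ i ^ 2 + Λ.k * Λ.θ i) - (Λ.θ j ^ 2 + Λ.k * Λ.θ j)) = 1 at hij
  change _ * (_ + 4 * Λ.p * Λ.pv m j * _ + Λ.pv m j ^ 2) =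
    ((t₀ - (Λ.θ j ^ 2 + Λ.k * Λ.θ j))⁻¹ - Λ.pv c j) ^ 2 at hx hx'
  generalize Λ.θ i ^ 2 + Λ.k * Λ.θ i = τ at *
  generalize Λ.θ j ^ 2 + Λ.k * Λ.θ j = τ' at *
  generalize Λ.pv m j = M at *
  generalize Λ.pv c j = C at *
  rw [Int.cast_one] at p1
  have q1 : v (t₀ - τ') = 1 := by
    refine le_antisymm ?_ (not_lt.1 fun h' => ?_)
    · have := X7a_le v1 ht.le hij.le
      rwa [sub_add_sub_cancel] at this
    · rw [v.map_sub] at ht
      have := X7a_lt v1 ht h'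
      rw [sub_add_sub_cancel] at this
      exact this.ne hij
  have n1 : t₀ - τ' ≠ 0 := fun e => by
    rw [e, map_zero] at q1
    exact zero_ne_one q1
  have n2 : τ - τ' ≠ 0 := fun e => by
    rw [e, map_zero] at hij
    exact zero_ne_one hij
  have q2 : v (((t₀ - τ')⁻¹ - C) - ((τ - τ')⁻¹ - Λ.cb)) < 1 := by
    have e : ((t₀ - τ')⁻¹ - C) - ((τ - τ')⁻¹ - Λ.cb) =
        (τ - t₀) * (t₀ - τ')⁻¹ * (τ - τ')⁻¹ + (Λ.cb - C) := by
      field_simp
      ring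
    rw [e]
    refine X7a_lt v1 ?_ (by rwa [v.map_sub])
    rw [map_mul, map_mul, map_inv₀, map_inv₀, q1, hij, inv_one, mul_one, mul_one, v.map_sub]
    exact ht
  have q3 : v ((t₀ - τ')⁻¹ - C) ≤ 1 := by
    have := X7a_le v1 q2.le u1.le
    rwa [sub_add_cancel] at this
  have q4 : v M ≤ 1 := by
    have := X7a_le v1 p1.le (map_one v).le
    rwa [sub_add_cancel] at this
  have q5 : v (4 * Λ.p * M) < 1 := by
    have h4 : v 4 ≤ 1 := by
      simpa using H1c.v_int v1 (isIntegral_algebraMap (R := ℤ) (A := Qb) (x := 4))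
    rw [map_mul, map_mul]
    exact (mul_le_of_le_one_right (mul_nonneg (v.nonneg _) (v.nonneg _)) q4).trans_lt
      ((mul_le_of_le_one_left (v.nonneg _) h4).trans_lt v3)
  let A : H1c.BValA_ring v1 := ⟨_, q5.le⟩
  let M' : H1c.BValA_ring v1 := ⟨_, q4⟩
  let z : H1c.BValA_ring v1 := ⟨_, u1.le⟩
  let z₀ : H1c.BValA_ring v1 := ⟨_, q3⟩
  have r0 : v x₀ ≤ 1 := X7a_root v1 (2 * a) A (M' ^ 2) z₀ hx
  have r1 : v (σ x₀) ≤ 1 := X7a_root v1 (2 * a) A (M' ^ 2) z₀ hx'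
  let y₀ : H1c.BValA_ring v1 := ⟨_, r0⟩
  let y₁ : H1c.BValA_ring v1 := ⟨_, r1⟩
  have s1 : IsLocalRing.residue _ z₀ = IsLocalRing.residue _ z := by
    rw [← sub_eq_zero, ← map_sub]
    exact (X7a_res v1 _).2 q2
  have s2 : IsLocalRing.residue _ z ≠ 0 := fun e => ((X7a_res v1 _).1 e).ne u1
  refine ⟨by_contra fun hne => ?_, ?_⟩
  · have s3 : IsLocalRing.residue _ M' = 1 := by
      rw [← sub_eq_zero, ← map_one (IsLocalRing.residue _), ← map_sub]
      exact (X7a_res v1 _).2 p1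
    have s4 : IsLocalRing.residue _ y₁ = IsLocalRing.residue _ y₀ := by
      rw [← sub_eq_zero, ← map_sub]
      exact (X7a_res v1 _).2 (hσ _ r0)
    have := (X7a_res v1 _).1 (X7a_core (IsLocalRing.residue _) ha (A := A) (B := M' ^ 2)
      ((X7a_res v1 _).2 q5) (by rw [map_pow, s3, one_pow]) s1 s2 s4 (Subtype.ext hx)
      (Subtype.ext hx') fun e => hne (congrArg Subtype.val e))
    exact this.ne u2
  · rintro rfl
    rw [zero_pow (by omega), zero_mul] at hx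
    have e : z₀ = 0 := Subtype.ext (pow_eq_zero_iff two_ne_zero |>.1 hx.symm)
    rw [e, map_zero] at s1
    exact s2 s1.symm

end Pool.Agent.E6b
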