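import Pool.Agent.E6b.X3b
import Pool.Agent.E6b.X6
import Pool.Agent.E6b.X7a
import Pool.Agent.E6b.K9a
import Pool.Agent.E6b.X7Aux

open scoped NNReal TensorProduct IntermediateField BigOperators Classical Topology
open Filter

namespace Pool.Agent.E6b

section
variable {κ L : Type} [Field κ] [IsAlgClosed κ] [CharZero κ] [Field L] [Algebra κ L] {n₀ B : ℕ}
  (T : Tw κ L n₀ B)

/-- the coordinates of a place of the top field -/
noncomputable def Tw.X7_xi (x : ∀ s, T.F {s}) (s : Fin 5) (R : Place κ T.FU) : κ :=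
  (T.pr s R).ev (x s)

theorem Tw.X7_xi_eq (x : ∀ s, T.F {s}) (s : Fin 5) (R : Place κ T.FU) :
    R.ev ((T.pi (Finset.subset_univ {s})).f (x s)) = T.X7_xi x s R :=
  (T.pi (Finset.subset_univ {s})).ev_map R (x s)

theorem Tw.X7_tv {s : Fin 5} {R R' : Place κ T.FU} (h : T.pr s R = T.pr s R') :
    tv (T.tJ Finset.univ) R = tv (T.tJ Finset.univ) R' := by
  rw [← T.K8a_tv_pr s, ← T.K8a_tv_pr s, h]

theorem Tw.X7_ur {R R' : Place κ T.FU} (h : T.Ur R)
    (e : tv (T.tJ Finset.univ) R = tv (T.tJ Finset.univ) R') : T.Ur R' := fun s => e ▸ h s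

theorem Tw.X7_card (s : Fin 5) {R : Place κ T.FU} (h : T.Ur R) :
    ((T.pi (Finset.subset_univ {s})).fib (T.pr s R)).card = n₀ ^ 4 := by
  have h1 := (T.pi (Finset.subset_univ {s})).sum_e (T.pr s R)
  rw [T.deg_pi, Finset.sum_congr rfl (g := fun _ => 1)] at h1
  · simpa using h1
  · intro R' hR'
    have h2 : T.pr s R' = T.pr s R := (FHom.mem_fib _).1 hR'
    have h3 := T.unr_J Finset.univ (fun s _ => h s) R'
      ((tv_eq_iff (T.nc_tJ _)).1 (T.X7_tv h2))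
    have h4 := (T.pi (Finset.subset_univ {s})).ord_map R'
      (lc (T.tJ {s}) (tv (T.tJ Finset.univ) R))
    have h5 : (T.pi (Finset.subset_univ {s})).f (lc (T.tJ {s}) (tv (T.tJ Finset.univ) R)) =
        lc (T.tJ Finset.univ) (tv (T.tJ Finset.univ) R) :=
      map_lc (IntermediateField.inclusion (T.mono (Finset.subset_univ {s}))) _ _
    rw [h5, h3] at h4
    exact_mod_cast Int.eq_one_of_mul_eq_one_right (Int.natCast_nonneg _) h4.symm

end

theorem X7_orb {F : Type} [Field F] [Algebra Qb F] [IsFF Qb F] (A : GAct F) (σ : Qb ≃ₐ[ℚ] Qb)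
    (R : Place Qb F) : A.sm σ R ∈ A.orb ⊥ R := by
  refine ⟨σ, fun x hx => ?_, rfl⟩
  obtain ⟨q, rfl⟩ := IntermediateField.mem_bot.1 hx
  exact σ.commutes q

variable {a : ℕ} (Λ : AR a)

section
variable {L : Type} [Field L] [Algebra Qb L] {B : ℕ} {T : Tw Qb L (2 * a + 3) B} {G : TwG T}
  {m c : Fin 5 → ℤ} {x : ∀ s, T.F {s}} {x₀ t₀ : Fin 5 → Qb}
  (hw : ∀ s, WC (Λ.W m c s) a (T.tJ {s}) (x s))
  (hg : ∀ σ s R, T.X7_xi x (Λ.perm σ s) (G.A.sm σ R) = σ (T.X7_xi x s R))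
  (hq : ∀ s (σ : Qb ≃ₐ[ℚ] Qb), σ (x₀ s) = x₀ (Λ.perm σ s) ∧ σ (t₀ s) = t₀ (Λ.perm σ s))
  (h0 : ∀ s, x₀ s ≠ 0)
  (hv : ∀ s v, IsPl Λ.p v → v (t₀ s - (Λ.W m c s).τ) = ((Λ.p : ℝ) ^ (2 * a + 3))⁻¹)

include hw hv in
theorem AR.X7_rel {s : Fin 5} {R : Place Qb T.FU} (h : tv (T.tJ Finset.univ) R = some (t₀ s))
    (r : Fin 5) : (Λ.W m c r).Rel a (t₀ s) (T.X7_xi x r R) :=
  (X7_ev (hw r) ((T.K8a_tv_pr r R).trans h) (Λ.X7_ne m c (hv s) r)).2

include hw hv in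
theorem AR.X7_pr {s : Fin 5} {R R' : Place Qb T.FU} (h : tv (T.tJ Finset.univ) R = some (t₀ s))
    (h' : tv (T.tJ Finset.univ) R' = some (t₀ s)) {r : Fin 5}
    (e : T.X7_xi x r R = T.X7_xi x r R') (e0 : T.X7_xi x r R ≠ 0) : T.pr r R = T.pr r R' :=
  X7_ext (hw r) ((T.K8a_tv_pr r R).trans h) ((T.K8a_tv_pr r R').trans h')
    (Λ.X7_ne m c (hv s) r) e e0

include hw hg hq h0 hv in
/-- lines through a point of the fibre lie in its orbit -/
theorem AR.X7_line (hA : Λ.Adm m c) {s s' : Fin 5} (hs : s ≠ s') {R R' : Place Qb T.FU}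
    (h1 : tv (T.tJ Finset.univ) R = some (t₀ s)) (h2 : T.X7_xi x s R = x₀ s) (hu : T.Ur R)
    (hl : T.Ln s' R R') : R' ∈ G.A.orb ⊥ R := by
  obtain ⟨v, hv1, hv2, hv3⟩ := Λ.X7_ram m c hs (hv s)
  obtain ⟨σ, hσ, hinj⟩ := exists_inertia_orbit Λ.prime.ne_zero hv1 (n := 2 * a + 3)
    ⟨a + 1, by ring⟩ (Λ.X7_val hv1 hv2 (Λ.X7_rel hw hv h1 s'))
  have hp := fun i => Λ.X7_perm hv1 (hσ i)
  have e1 : ∀ i, tv (T.tJ Finset.univ) (G.A.sm (σ i) R) = some (t₀ s) := fun i => by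
    rw [G.tv_sm, h1, Option.map_some, (hq s (σ i)).2, hp]
  have e2 : ∀ i r, T.X7_xi x r (G.A.sm (σ i) R) = σ i (T.X7_xi x r R) := fun i r => by
    rw [← hg, hp]
  have e3 : ∀ i, T.Ln s' R (G.A.sm (σ i) R) := fun i => by
    refine T.ln_iff.2 fun r hr => ?_
    by_cases e : r = s
    · subst e
      refine Λ.X7_pr hw hv h1 (e1 i) ?_ (by rw [h2]; exact h0 r)
      rw [e2, h2, (hq r (σ i)).1, hp]
    · have h3 := Λ.fixed_of_inertia hA (hw s).ha hv1 (hv3 r e hr) (t₀ := t₀ s)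
        (by
          rw [hv s v hv1]
          exact Λ.X7_small.trans (inv_lt_one_of_one_lt₀ Λ.X7_one_lt))
        (Λ.X7_rel hw hv h1 r) (σ i) (hσ i) (by rw [← e2]; exact Λ.X7_rel hw hv (e1 i) r)
      exact Λ.X7_pr hw hv h1 (e1 i) (by rw [e2, h3.1]) h3.2
  obtain ⟨S, hS1, hS2⟩ := T.exists_line s' hu
  have e4 : Finset.univ.image (fun i => G.A.sm (σ i) R) = S := by
    refine Finset.eq_of_subset_of_card_le
      (Finset.image_subset_iff.2 fun i _ => (hS2 _).2 (e3 i)) ?_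
    rw [hS1, Finset.card_image_of_injective, Finset.card_univ, Fintype.card_fin]
    intro i i' e
    apply hinj
    show σ i _ = σ i' _
    rw [← e2, ← e2]
    exact congrArg _ e
  have e5 := (hS2 _).2 hl
  rw [← e4] at e5
  obtain ⟨i, -, rfl⟩ := Finset.mem_image.1 e5
  exact X7_orb _ _ _

include hw hg hq h0 hv in
/-- the whole fibre lies in the orbit -/
theorem AR.X7_fib (hA : Λ.Adm m c) (s : Fin 5) {R' : Place Qb T.FU}
    (h1' : tv (T.tJ Finset.univ) R' = some (t₀ s)) (h2' : T.X7_xi x s R' = x₀ s)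
    (J : Finset (Fin 5)) : ∀ R : Place Qb T.FU, tv (T.tJ Finset.univ) R = some (t₀ s) →
      T.X7_xi x s R = x₀ s → T.Ur R → (∀ r, r ∉ J → T.pr r R = T.pr r R') →
      R' ∈ G.A.orb ⊥ R := by
  induction J using Finset.induction_on with
  | empty =>
    intro R _ _ _ h
    rw [T.pr_ext fun r => h r (Finset.notMem_empty r)]
    exact G.A.mem_orb_self _ _
  | insert s' J _ ih =>
    intro R h1 h2 hu h
    by_cases e : s = s'
    · subst e
      refine ih R h1 h2 hu fun r hr => ?_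
      by_cases e' : r = s
      · subst e'
        exact Λ.X7_pr hw hv h1 h1' (h2.trans h2'.symm) (by rw [h2]; exact h0 r)
      · exact h r fun hr' => hr ((Finset.mem_insert.1 hr').resolve_left e')
    · obtain ⟨R'', h3⟩ := T.exists_pr (Function.update (fun r => T.pr r R) s' (T.pr s' R'))
        (c := some (t₀ s)) fun r => by
          by_cases e' : r = s'
          · subst e'
            rw [Function.update_self, T.K8a_tv_pr, h1']
          · rw [Function.update_of_ne e', T.K8a_tv_pr, h1]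
      have h4 : ∀ r, r ≠ s' → T.pr r R = T.pr r R'' := fun r hr => by
        rw [h3, Function.update_of_ne hr]
      have h5 := T.X7_tv (h4 s e)
      rw [← G.A.orb_eq_of_mem (Λ.X7_line hw hg hq h0 hv hA e h1 h2 hu (T.ln_iff.2 h4))]
      refine ih R'' (h5.symm.trans h1) ?_ (T.X7_ur hu h5) fun r hr => ?_
      · rw [← h2, Tw.X7_xi, Tw.X7_xi, h4 s e]
      · by_cases e' : r = s'
        · subst e'
          rw [h3, Function.update_self]
        · rw [← h4 r e']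
          exact h r fun hr' => hr ((Finset.mem_insert.1 hr').resolve_left e')

include hw hg hq h0 hv in
theorem AR.X7_count (hA : Λ.Adm m c) {R : Place Qb T.FU}
    (h1 : tv (T.tJ Finset.univ) R = some (t₀ 0)) (h2 : T.X7_xi x 0 R = x₀ 0) (hu : T.Ur R) :
    (G.A.finite_orb ⊥ R).toFinset.card = 5 * (2 * a + 3) ^ 4 := by
  have e0 : ∀ σ, tv (T.tJ Finset.univ) (G.A.sm σ R) = some (t₀ (Λ.perm σ 0)) ∧
      T.X7_xi x (Λ.perm σ 0) (G.A.sm σ R) = x₀ (Λ.perm σ 0) := fun σ =>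
    ⟨by rw [G.tv_sm, h1, Option.map_some, (hq 0 σ).2], by rw [hg, h2, (hq 0 σ).1]⟩
  have e1 : ∀ s, ∃ σ, Λ.perm σ 0 = s := fun s => by
    obtain ⟨σ, hσ⟩ := Λ.surj (Equiv.swap 0 s)
    exact ⟨σ, by rw [hσ, Equiv.swap_apply_left]⟩
  choose σ hσ using e1
  have e2 : ∀ s, tv (T.tJ Finset.univ) (G.A.sm (σ s) R) = some (t₀ s) ∧
      T.X7_xi x s (G.A.sm (σ s) R) = x₀ s := fun s => by
    have h3 := e0 (σ s)
    rwa [hσ] at h3
  have e3 : (G.A.finite_orb ⊥ R).toFinset = Finset.univ.biUnion fun s =>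
      (T.pi (Finset.subset_univ {s})).fib (T.pr s (G.A.sm (σ s) R)) := by
    ext R'
    rw [Set.Finite.mem_toFinset, Finset.mem_biUnion]
    constructor
    · rintro ⟨ρ, -, rfl⟩
      refine ⟨Λ.perm ρ 0, Finset.mem_univ _, (FHom.mem_fib _).2 ?_⟩
      exact Λ.X7_pr hw hv (e0 ρ).1 (e2 _).1 ((e0 ρ).2.trans (e2 _).2.symm)
        (by rw [(e0 ρ).2]; exact h0 _)
    · rintro ⟨s, -, h3⟩
      have h4 : T.pr s R' = T.pr s (G.A.sm (σ s) R) := (FHom.mem_fib _).1 h3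
      rw [← G.A.orb_eq_of_mem (X7_orb G.A (σ s) R)]
      refine Λ.X7_fib hw hg hq h0 hv hA s ((T.X7_tv h4).trans (e2 s).1) ?_ Finset.univ _
        (e2 s).1 (e2 s).2 (G.ur_sm _ hu) fun r hr => absurd (Finset.mem_univ r) hr
      rw [← (e2 s).2, Tw.X7_xi, Tw.X7_xi, h4]
  rw [e3, Finset.card_biUnion, Finset.sum_congr rfl fun s _ => T.X7_card s (G.ur_sm _ hu)]
  · simp
  · intro s _ s' _ hs
    refine Finset.disjoint_left.2 fun R' h3 h4 => ?_
    have h5 := (T.X7_tv ((FHom.mem_fib _).1 h3)).trans (e2 s).1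
    have h6 := (T.X7_tv ((FHom.mem_fib _).1 h4)).trans (e2 s').1
    have h7 : t₀ s = t₀ s' := Option.some.inj (h5.symm.trans h6)
    obtain ⟨v, hv1, hv2, -⟩ := Λ.X7_ram m c hs (hv s)
    rw [h7, hv s' v hv1] at hv2
    exact Λ.X7_small.ne hv2

include hw hg in
theorem AR.X7_main (hA : Λ.Adm m c) :
    {R : Place Qb T.FU | (G.A.finite_orb ⊥ R).toFinset.card = 5 * (2 * a + 3) ^ 4}.Infinite := by
  obtain ⟨x₀, t₀, h1, h2, h3, h4, h5⟩ := Λ.X7_points m c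
  have e : ∀ j, ∃ R : Place Qb T.FU,
      tv (T.tJ Finset.univ) R = some (t₀ j 0) ∧ T.X7_xi x 0 R = x₀ j 0 := fun j => by
    obtain ⟨y, e1, e2, e3⟩ := h1 j 0
    obtain ⟨P, e4, e5⟩ := X7_ex (hw 0) e1 e2
    obtain ⟨R, rfl⟩ := (T.pi (Finset.subset_univ {0})).res_surj P
    exact ⟨R, by rw [← T.K8a_tv_pr 0, e3]; exact e4, e5⟩
  choose R hR1 hR2 using e
  have hinj : Function.Injective R := fun j j' e => h3 0 (by
    show x₀ j 0 = x₀ j' 0
    rw [← hR2, ← hR2, e])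
  refine ((Set.infinite_range_of_injective hinj).sdiff T.finite_not_ur).mono ?_
  rintro _ ⟨⟨j, rfl⟩, hu⟩
  exact Λ.X7_count hw hg (h2 j) (h4 j) (h5 j) hA (hR1 j) (hR2 j) (not_not.1 hu)

end

/-- infinitely many points of degree `5 n₀ ^ 4` over the rationals -/
theorem AR.infinite_orb {L : Type} [Field L] [Algebra Qb L] {m c : Fin 5 → ℤ} (h : Λ.Adm m c)
    (D : TD Qb L a) (hD : D.W = Λ.W m c) {B : ℕ} (hB : D.NM B) (G : TwG (D.tw hB))
    (hG : G.perm = Λ.perm) (hx : ∀ σ s,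
      G.A.act σ (D.xF (Finset.mem_univ s)) = D.xF (Finset.mem_univ (Λ.perm σ s))) :
    {R : Place Qb (D.tw hB).FU |
      (G.A.finite_orb ⊥ R).toFinset.card = 5 * (2 * a + 3) ^ 4}.Infinite := by
  have _ := hG
  refine Λ.X7_main (T := D.tw hB) (x := fun s => D.xF (Finset.mem_singleton_self s))
    (fun s => ?_) (fun σ s R => ?_) h
  · rw [← hD]
    exact D.wc s
  · rw [← Tw.X7_xi_eq, ← Tw.X7_xi_eq, ← G.A.ev_sm]
    exact congrArg _ (hx σ s).symm

end Pool.Agent.E6b
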