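import Pool.Agent.E6b.X5
import Pool.Agent.E6b.X6a
import Pool.Agent.E6b.X7
import Pool.Agent.E6b.K9

open scoped NNReal TensorProduct IntermediateField BigOperators Classical Topology
open Filter

namespace Pool.Agent.E6b

/-- a curve over the rationals with infinitely many points of degree `d` and finitely many points
of degree dividing `d` over a finite extension -/
theorem exists_curve : ∃ (F : Type) (_ : Field F) (_ : Algebra Qb F) (_ : IsFF Qb F) (A : GAct F)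
    (t : F) (K : IntermediateField ℚ Qb) (d : ℕ), t ∉ (algebraMap Qb F).range ∧
      (∀ σ, A.act σ t = t) ∧ FiniteDimensional ℚ K ∧ 1 ≤ d ∧
      {R : Place Qb F | (A.finite_orb ⊥ R).toFinset.card = d}.Infinite ∧
      {R : Place Qb F | (A.finite_orb K R).toFinset.card ∣ d}.Finite := by
  obtain ⟨n₁, h1⟩ := thmK
  obtain ⟨B, h2⟩ := h1 (2 * (n₁ + 1) + 3) (by omega)
  obtain ⟨Λ⟩ := exists_AR (n₁ + 1)
  obtain ⟨m, c, D, hadm, hD, hB⟩ := Λ.exists_td (by omega) B
  obtain ⟨G, hG, hx⟩ := D.exists_twG hB Λ.perm (by rw [hD]; exact Λ.act_W m c) Λ.perm_open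
  obtain ⟨K, hK, hK'⟩ := Λ.exists_K
  refine ⟨(D.tw hB).FU, inferInstance, inferInstance, inferInstance, G.A,
    (D.tw hB).tJ Finset.univ, K, 5 * (2 * (n₁ + 1) + 3) ^ 4, (D.tw hB).nc_tJ _, G.fix, hK,
    Nat.succ_le_of_lt (by positivity), Λ.infinite_orb hadm D hD hB G hG (hG ▸ hx),
    h2 B le_rfl G K hK ⟨fun σ hσ => hG ▸ (hK' σ).1 hσ, fun s s' hs => ?_⟩⟩
  obtain ⟨σ, hσ⟩ := Λ.surj (Equiv.swap s s')
  refine ⟨σ, (hK' σ).2 fun r => ?_, by rw [hG, hσ, Equiv.swap_apply_left]⟩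
  rw [hσ, Equiv.swap_apply_def]
  split_ifs with e1 e2
  · rw [e1]; exact hs.symm
  · rw [e2]; exact hs
  · rfl

end Pool.Agent.E6b
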