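import Pool.Agent.E6b.S5
import Pool.Agent.E6b.X8

open scoped NNReal TensorProduct IntermediateField BigOperators Classical Topology
open Filter

namespace Pool.Agent.E6b

theorem main_thm : ∃ (k k' : Type) (_ : Field k) (_ : NumberField k) (_ : Field k')
    (_ : Algebra k k') (_ : FiniteDimensional k k') (X : NiceSurface k),
      ¬ X.delta k ⊆ X.delta k' := by
  obtain ⟨F, _, _, _, A, t, K, d, ht, hA, hK, hd, h1, h2⟩ := exists_curve
  obtain ⟨E⟩ := exists_emb A ht hA
  exact ⟨ℚ, K, inferInstance, inferInstance, inferInstance, inferInstance, hK, E.surf ht hA,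
    fun h => E.notMem_delta ht hA K h2 (h (E.mem_delta ht hA hd h1))⟩

end Pool.Agent.E6b
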