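import Pool.Agent.E6b.ODefs0

open scoped NNReal TensorProduct IntermediateField BigOperators Classical Topology
open Filter

namespace Pool.Agent.E6b

variable {κ F : Type} [Field κ] [IsAlgClosed κ] [CharZero κ] [Field F] [Algebra κ F] [IsFF κ F]

omit [IsAlgClosed κ] [CharZero κ] [IsFF κ F] in
theorem O0_mem {o : Place κ F} {f : F} : f ∈ AA o ↔ ∀ P : Place κ F, P ≠ o → f ∈ P.O := Iff.rfl

/-- pole numbers of a place -/
def O0_Pole (o : Place κ F) (n : ℕ) : Prop :=
  ∃ f : AA o, (f : F) ≠ 0 ∧ o.ord (f : F) = - (n : ℤ)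

omit [IsAlgClosed κ] [CharZero κ] [IsFF κ F] in
theorem O0_smul_pd (o Q : Place κ F) (n : ℕ) :
    (n • pd o : Dv κ F) Q = if o = Q then (n : ℤ) else 0 := by
  rw [Finsupp.smul_apply, F1_pd_apply]
  split_ifs <;> simp

theorem O0_pole_zero (o : Place κ F) : O0_Pole o 0 :=
  ⟨1, by simp, by simpa using o.ord_one⟩

theorem O0_pole_iff (o : Place κ F) (n : ℕ) :
    O0_Pole o (n + 1) ↔ ell (n • pd o) < ell ((n + 1) • pd o) := by
  have h := ell_sub_pd_lt_iff ((n + 1) • pd o) o
  rw [show ((n + 1) • pd o - pd o : Dv κ F) = n • pd o by rw [succ_nsmul, add_sub_cancel_right]]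
    at h
  rw [h]
  constructor
  · rintro ⟨f, hf0, hf⟩
    refine ⟨f, mem_LL.2 (Or.inr fun Q => ?_), hf0, ?_⟩
    · rw [O0_smul_pd]
      split_ifs with hQ
      · subst hQ; exact hf.ge
      · simpa using Q.mem_iff.1 (f.2 Q (Ne.symm hQ))
    · rw [O0_smul_pd, if_pos rfl, hf]
  · rintro ⟨f, hf, hf0, h1⟩
    refine ⟨⟨f, fun Q hQ => ?_⟩, hf0, ?_⟩
    · have := (mem_LL.1 hf).resolve_left hf0 Q
      rw [O0_smul_pd, if_neg (Ne.symm hQ)] at this
      exact Q.mem_iff.2 (by simpa using this)
    · rw [O0_smul_pd, if_pos rfl] at h1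
      exact h1

theorem O0_count (o : Place κ F) (n : ℕ) : Nat.count (O0_Pole o) (n + 1) = ell (n • pd o) := by
  induction n with
  | zero =>
    rw [Nat.count_succ, Nat.count_zero, if_pos (O0_pole_zero o), zero_nsmul, ell_zero]
  | succ n ih =>
    rw [Nat.count_succ, ih]
    have h1 := ell_add_pd_le (n • pd o) o
    rw [← succ_nsmul] at h1
    have h2 : ell (n • pd o) ≤ ell ((n + 1) • pd o) := by
      refine ell_mono fun Q => ?_
      rw [O0_smul_pd, O0_smul_pd]
      split_ifs <;> simp
    have h3 := O0_pole_iff o n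
    split_ifs with h
    · have := h3.1 h
      omega
    · have := mt h3.2 h
      omega

theorem O0_count_large (o : Place κ F) {m : ℕ} (hm : 2 * genus κ F ≤ m) :
    Nat.count (O0_Pole o) m + genus κ F = m := by
  rcases m with _ | n
  · rw [Nat.count_zero]; omega
  · rw [O0_count]
    have := rr_large (D := n • pd o) (by rw [deg_nsmul, deg_pd]; omega)
    rw [deg_nsmul, deg_pd] at this
    omega

theorem O0_pole_large (o : Place κ F) {m : ℕ} (hm : 2 * genus κ F ≤ m) : O0_Pole o m := by
  have h1 := O0_count_large o hm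
  have h2 := O0_count_large o (m := m + 1) (by omega)
  rw [Nat.count_succ] at h2
  by_contra h
  rw [if_neg h] at h2
  omega

theorem O0_infinite (o : Place κ F) : (Set.ofPred (O0_Pole o)).Infinite := by
  refine Set.infinite_of_forall_exists_gt fun n => ⟨n + 1 + 2 * genus κ F, ?_, by omega⟩
  exact O0_pole_large o (by omega)

theorem O0_nth_large (o : Place κ F) {i : ℕ} (hi : genus κ F ≤ i) :
    Nat.nth (O0_Pole o) i = i + genus κ F := by
  have h1 := O0_count_large o (m := i + genus κ F) (by omega)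
  have h2 := Nat.nth_count (O0_pole_large o (m := i + genus κ F) (by omega))
  rwa [show Nat.count (O0_Pole o) (i + genus κ F) = i by omega] at h2

theorem O0_ord_nonpos (o : Place κ F) (a : AA o) : o.ord (a : F) ≤ 0 := by
  by_contra h
  obtain ⟨c, hc⟩ := mem_range_of_forall_mem (κ := κ) (f := (a : F)) fun P => by
    by_cases hP : P = o
    · subst hP; exact P.mem_iff.2 (by omega)
    · exact a.2 P hP
  rw [← hc, o.ord_algebraMap] at h
  exact h le_rfl

theorem O0_indep (o : Place κ F) (b : ℕ → AA o) (p : ℕ → ℕ) (hp : StrictMono p)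
    (h0 : ∀ i, (b i : F) ≠ 0) (hb : ∀ i, o.ord (b i : F) = - (p i : ℤ)) :
    LinearIndependent κ b := by
  rw [linearIndependent_iff']
  intro s c hs
  by_contra hn
  push Not at hn
  have hne : (s.filter fun i => c i ≠ 0).Nonempty := by
    obtain ⟨i, hi, hc⟩ := hn
    exact ⟨i, Finset.mem_filter.2 ⟨hi, hc⟩⟩
  obtain ⟨j, hj, hmax⟩ := Finset.exists_max_image _ (fun i : ℕ => i) hne
  rw [Finset.mem_filter] at hj
  have h1 := F1_sum_ne_zero o s (fun i => c i • (b i : F)) hj.1 (smul_ne_zero hj.2 (h0 j))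
    (fun i hi hij => by
      by_cases hc : c i = 0
      · left; simp [hc]
      · right
        have h2 : i < j := lt_of_le_of_ne (hmax i (Finset.mem_filter.2 ⟨hi, hc⟩)) hij
        have h3 := hp h2
        rw [o.ord_smul hj.2, o.ord_smul hc, hb, hb]
        omega)
  apply h1.1
  have h2 := congrArg (fun x : AA o => (x : F)) hs
  simpa using h2

theorem O0_span (o : Place κ F) (b : ℕ → AA o)
    (h0 : ∀ i, (b i : F) ≠ 0) (hb : ∀ i, o.ord (b i : F) = - (Nat.nth (O0_Pole o) i : ℤ)) :
    ⊤ ≤ Submodule.span κ (Set.range b) := by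
  have key : ∀ n : ℕ, ∀ a : AA o, ((a : F) = 0 ∨ - (n : ℤ) < o.ord (a : F)) →
      a ∈ Submodule.span κ (Set.range b) := by
    intro n
    induction n with
    | zero =>
      intro a ha
      have h1 := O0_ord_nonpos o a
      have h2 : (a : F) = 0 := ha.resolve_right (by simpa using h1)
      have h3 : a = 0 := Subtype.ext h2
      rw [h3]; exact zero_mem _
    | succ n ih =>
      intro a ha
      by_cases ha0 : (a : F) = 0
      · exact ih a (Or.inl ha0)
      by_cases hlt : - (n : ℤ) < o.ord (a : F)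
      · exact ih a (Or.inr hlt)
      have h1 : o.ord (a : F) = - (n : ℤ) := by
        have := ha.resolve_left ha0
        push_cast at this
        omega
      have h2 : O0_Pole o n := ⟨a, ha0, h1⟩
      set i := Nat.count (O0_Pole o) n with hi
      have h3 : o.ord (b i : F) = - (n : ℤ) := by rw [hb, hi, Nat.nth_count h2]
      have h4 : (a : F) / b i ∈ o.O := o.mem_iff.2 (by rw [o.ord_div ha0 (h0 i), h1, h3]; simp)
      set c := o.ev ((a : F) / b i) with hc
      have h5 : ((a - c • b i : AA o) : F) = ((a : F) / b i - algebraMap κ F c) * b i := by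
        have := h0 i
        rw [sub_mul, div_mul_cancel₀ _ this, ← Algebra.smul_def]
        simp
      have h6 : a - c • b i ∈ Submodule.span κ (Set.range b) := by
        apply ih
        rw [h5]
        rcases o.ev_spec h4 with h | h
        · left
          rw [← hc] at h
          rw [sub_eq_zero.2 h, zero_mul]
        · right
          rw [← hc] at h
          rw [o.ord_mul (F1a_ne_zero_of_ord o h.ne') (h0 i), h3]
          omega
      have h7 : c • b i ∈ Submodule.span κ (Set.range b) :=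
        Submodule.smul_mem _ _ (Submodule.subset_span ⟨i, rfl⟩)
      simpa using add_mem h6 h7
  intro a _
  refine key ((- o.ord (a : F)).toNat + 1) a (Or.inr ?_)
  push_cast
  omega

theorem exists_eb (o : Place κ F) : ∃ b p, EBSpec o b p := by
  have hinf := O0_infinite o
  have hz : Nat.nth (O0_Pole o) 0 = 0 := Nat.nth_zero_of_zero (O0_pole_zero o)
  have hex : ∀ i, ∃ f : AA o, (f : F) ≠ 0 ∧ o.ord (f : F) = - (Nat.nth (O0_Pole o) i : ℤ) ∧
      (i = 0 → f = 1) := by
    intro i
    by_cases hi : i = 0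
    · subst hi
      exact ⟨1, by simp, by rw [hz]; simpa using o.ord_one, fun _ => rfl⟩
    · obtain ⟨f, h1, h2⟩ := Nat.nth_mem_of_infinite hinf i
      exact ⟨f, h1, h2, fun h => absurd h hi⟩
  choose f hf0 hf hf1 using hex
  set g := genus κ F with hg
  let b : ℕ → AA o := fun i =>
    if i < g then f i else f (g + (i - g) % (2 * g + 1)) * f (g + 1) ^ ((i - g) / (2 * g + 1))
  have hb0 : ∀ i, (b i : F) ≠ 0 := by
    intro i
    simp only [b]
    split_ifs
    · exact hf0 i
    · push_cast
      exact mul_ne_zero (hf0 _) (pow_ne_zero _ (hf0 _))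
  have hb : ∀ i, o.ord (b i : F) = - (Nat.nth (O0_Pole o) i : ℤ) := by
    intro i
    simp only [b]
    split_ifs with h
    · exact hf i
    · push_cast
      rw [o.ord_mul (hf0 _) (pow_ne_zero _ (hf0 _)), o.ord_pow, hf, hf,
        O0_nth_large o (Nat.le_add_right _ _), O0_nth_large o (Nat.le_add_right _ _),
        O0_nth_large o (not_lt.1 h), ← hg]
      have h1 := Nat.mod_add_div (i - g) (2 * g + 1)
      have h2 : i - g + g = i := by omega
      generalize (i - g) % (2 * g + 1) = r at h1 ⊢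
      generalize (i - g) / (2 * g + 1) = q at h1 ⊢
      rw [← h2, ← h1]
      push_cast
      ring
  have hbz : b 0 = 1 := by
    simp only [b]
    split_ifs with h
    · exact hf1 0 rfl
    · have h1 : g = 0 := by omega
      simp [h1, hf1 0 rfl]
  have hbg : b (g + 1) = f (g + 1) := by
    simp only [b]
    rw [if_neg (by omega), Nat.add_sub_cancel_left]
    rcases Nat.eq_zero_or_pos g with h | h
    · simp [h, hf1 0 rfl]
    · rw [Nat.mod_eq_of_lt (by omega), Nat.div_eq_of_lt (by omega), pow_zero, mul_one]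
  refine ⟨Module.Basis.mk (O0_indep o b _ (Nat.nth_strictMono hinf) hb0 hb) (O0_span o b hb0 hb),
    Nat.nth (O0_Pole o), ?_, ?_, Nat.nth_strictMono hinf, fun i hi => O0_nth_large o hi, ?_⟩
  · rw [Module.Basis.mk_apply, hbz]
  · intro i
    rw [Module.Basis.mk_apply, hb]
  · intro i hi
    rw [Module.Basis.mk_apply, Module.Basis.mk_apply, Module.Basis.mk_apply, ← hg, hbg]
    rw [← hg] at hi
    simp only [b]
    rw [if_neg (by omega), if_neg (by omega),
      show i + (2 * g + 1) - g = (i - g) + (2 * g + 1) by omega, Nat.add_mod_right,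
      Nat.add_div_right _ (by omega), pow_succ, mul_assoc]

instance instFiniteTypeAA (o : Place κ F) : Algebra.FiniteType κ (AA o) := by
  obtain ⟨b, p, h⟩ := exists_eb o
  refine ⟨⟨(Finset.range (3 * genus κ F + 2)).image b, ?_⟩⟩
  set A := Algebra.adjoin κ (((Finset.range (3 * genus κ F + 2)).image b : Finset (AA o)) :
    Set (AA o)) with hA
  have h1 : ∀ i, i < 3 * genus κ F + 2 → b i ∈ A := fun i hi =>
    Algebra.subset_adjoin (Finset.mem_coe.2 (Finset.mem_image_of_mem _ (Finset.mem_range.2 hi)))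
  have h2 : ∀ i, b i ∈ A := by
    intro i
    induction i using Nat.strong_induction_on with
    | _ i ih =>
      by_cases hi : i < 3 * genus κ F + 2
      · exact h1 i hi
      · obtain ⟨j, rfl⟩ : ∃ j, i = j + (2 * genus κ F + 1) := ⟨i - (2 * genus κ F + 1), by omega⟩
        rw [h.per j (by omega)]
        exact mul_mem (ih j (by omega)) (h1 _ (by omega))
  rw [eq_top_iff]
  intro a _
  have h3 : Submodule.span κ (Set.range b) ≤ A.toSubmodule :=
    Submodule.span_le.2 (by rintro _ ⟨i, rfl⟩; exact h2 i)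
  exact h3 (b.mem_span a)

theorem O0_exists_den (o : Place κ F) {P : Place κ F} (hP : P ≠ o) (f : F) :
    ∃ a s : AA o, (s : F) ≠ 0 ∧ P.ord (s : F) = max (- P.ord f) 0 ∧ f * s = a := by
  set N : ℕ := 2 * genus κ F + (deg (dinf κ f)).toNat with hN
  have h := bpf_of_large (D := N • pd o - dinf κ f) (by
    rw [deg_sub, deg_nsmul, deg_pd, hN]
    push_cast
    omega)
  obtain ⟨s, hs0, hs, hsP⟩ := h P
  have h1 : ∀ Q : Place κ F, Q ≠ o → - (N • pd o - dinf κ f : Dv κ F) Q = max (- Q.ord f) 0 := by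
    intro Q hQ
    rw [Finsupp.sub_apply, O0_smul_pd, if_neg (Ne.symm hQ), dinf_apply]
    ring
  refine ⟨⟨f * s, fun Q hQ => ?_⟩, ⟨s, fun Q hQ => ?_⟩, hs0, ?_, rfl⟩
  · by_cases hf : f = 0
    · rw [hf, zero_mul]; exact zero_mem _
    · have := hs Q
      rw [h1 Q hQ] at this
      rw [Q.mem_iff, Q.ord_mul hf hs0]
      omega
  · have := hs Q
    rw [h1 Q hQ] at this
    rw [Q.mem_iff]
    omega
  · rw [← h1 P hP]
    exact hsP

instance instFractionRingAA (o : Place κ F) : IsFractionRing (AA o) F := by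
  refine IsFractionRing.of_field (AA o) F fun z => ?_
  obtain ⟨P, hP⟩ := exists_ne o
  obtain ⟨a, s, hs, -, h⟩ := O0_exists_den o hP z
  exact ⟨a, s, (eq_div_iff hs).2 h⟩

theorem exists_place_of_pt (o : Place κ F) (χ : AA o →ₐ[κ] κ) :
    ∃ P : Place κ F, P ≠ o ∧ ∀ a : AA o, P.ev a = χ a := by
  obtain ⟨w, -, hw⟩ := O0_pole_large o (m := 2 * genus κ F + 1) (by omega)
  obtain ⟨P, hP⟩ := exists_place_of_algHom (AA o) ⟨w, w.2, by
    rintro ⟨c, hc⟩
    rw [← hc, o.ord_algebraMap] at hw
    omega⟩ χ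
  refine ⟨P, ?_, fun a => (hP a).2⟩
  rintro rfl
  have := P.mem_iff.1 (hP w).1
  omega

/-- the local ring at a place `P ≠ o` is the localisation of `AA o`. -/
theorem exists_div_AA (o : Place κ F) {P : Place κ F} (hP : P ≠ o) {f : F} (hf : f ∈ P.O) :
    ∃ a s : AA o, P.ev s ≠ 0 ∧ f * s = a := by
  obtain ⟨a, s, hs, h1, h⟩ := O0_exists_den o hP f
  refine ⟨a, s, fun h0 => ?_, h⟩
  have h2 := P.mem_iff.1 hf
  have h3 := (P.ev_eq_zero_iff (s.2 P hP)).1 h0
  rcases h3 with h3 | h3
  · exact hs h3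
  · omega

end Pool.Agent.E6b
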