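import Pool.Agent.E6b.ODefs2

open scoped NNReal TensorProduct IntermediateField BigOperators Classical Topology
open Filter

namespace Pool.Agent.E6b

variable {κ F : Type} [Field κ] [IsAlgClosed κ] [CharZero κ] [Field F] [Algebra κ F] [IsFF κ F]
  {o : Place κ F} {Ω : Type} [Field Ω] [IsAlgClosed Ω] [CharZero Ω] [Algebra κ Ω]

theorem O1_iF (a : AA o) : algebraMap _ (FO o Ω) (1 ⊗ₜ[κ] a : AO o Ω) = iF o Ω a := rfl

theorem evA_tmul (y : Pt o Ω) (c : Ω) (a : AA o) : evA y (c ⊗ₜ[κ] a) = c * y a := by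
  simp [evA]

theorem evA_ebO (y : Pt o Ω) (i : ℕ) : evA y (ebO o Ω i) = y (eb o i) := by
  rw [ebO, Algebra.TensorProduct.basis_apply, evA_tmul, one_mul]

theorem algebraMap_ebO (i : ℕ) : algebraMap _ (FO o Ω) (ebO o Ω i) = iF o Ω (eb o i) := by
  rw [ebO, Algebra.TensorProduct.basis_apply]
  rfl

theorem algebraMap_tmul (c : Ω) (a : AA o) :
    algebraMap _ (FO o Ω) (c ⊗ₜ[κ] a : AO o Ω) = algebraMap Ω (FO o Ω) c * iF o Ω a := by
  rw [IsScalarTower.algebraMap_apply Ω (AO o Ω) (FO o Ω), ← O1_iF, ← map_mul]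
  simp

theorem iF_injective : Function.Injective (iF o Ω) :=
  (IsFractionRing.injective (AO o Ω) (FO o Ω)).comp
    (Algebra.TensorProduct.includeRight_injective (algebraMap κ Ω).injective)

theorem O1_max {R M : Type} [Ring R] [AddCommGroup M] [Module R M] (b : Module.Basis ℕ R M) {a : M}
    (ha : a ≠ 0) : ∃ i, b.repr a i ≠ 0 ∧ ∀ j, i < j → b.repr a j = 0 := by
  have h : (b.repr a).support.Nonempty := by simpa using ha
  exact ⟨_, Finsupp.mem_support_iff.1 (Finset.max'_mem _ h), fun j hj =>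
    by_contra fun h' => hj.not_ge (Finset.le_max' _ j (Finsupp.mem_support_iff.2 h'))⟩

theorem O1_ord (a : AA o) : (oo o Ω).ord (iF o Ω a) = o.ord (a : F) := by
  by_cases ha : a = 0
  · simp [ha, Place.ord_zero]
  obtain ⟨i, h1, h2⟩ := O1_max (eb o) ha
  have h3 : ∀ j, (ebO o Ω).repr (1 ⊗ₜ a) j = algebraMap κ Ω ((eb o).repr a j) := fun j => by
    simp [ebO]
  rw [← O1_iF]
  refine ((exists_oo o Ω).choose_spec _ i (by simpa [h3] using h1)
    fun j hj => by rw [h3, h2 j hj, map_zero]).trans ?_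
  have h4 : (a : F) = ∑ j ∈ ((eb o).repr a).support, (eb o).repr a j • (eb o j : F) := by
    conv_lhs => rw [← (eb o).linearCombination_repr a]
    simp [Finsupp.linearCombination_apply, Finsupp.sum]
  have h5 := (F1_sum_ne_zero o _ (fun j => (eb o).repr a j • (eb o j : F))
    (Finsupp.mem_support_iff.2 h1) (smul_ne_zero h1 (by simpa using (eb o).ne_zero i))
    fun j hj hji => Or.inr (by
      have hj' := Finsupp.mem_support_iff.1 hj
      have := (ebSpec o).mono (lt_of_le_of_ne (not_lt.1 fun h => hj' (h2 j h)) hji)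
      rw [o.ord_smul h1, o.ord_smul hj', (ebSpec o).ord, (ebSpec o).ord]
      omega)).2
  rw [← h4, o.ord_smul h1, (ebSpec o).ord] at h5
  exact h5.symm

theorem O1_ord_w : (oo o Ω).ord (iF o Ω (wN o)) = - (NN o : ℤ) := (O1_ord _).trans (ord_wN o)

theorem O1_w_notMem : iF o Ω (wN o) ∉ (oo o Ω).O := by
  rw [Place.mem_iff, O1_ord_w, NN]
  omega

variable (o Ω) in
/-- the image of the coordinate ring -/
noncomputable abbrev O1_B : Subalgebra Ω (FO o Ω) :=
  (IsScalarTower.toAlgHom Ω (AO o Ω) (FO o Ω)).range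

variable (o Ω) in
/-- the coordinate ring and its image -/
noncomputable abbrev O1_e : AO o Ω ≃ₐ[Ω] O1_B o Ω :=
  AlgEquiv.ofInjective _ (IsFractionRing.injective (AO o Ω) (FO o Ω))

theorem O1_mem {P : PO o Ω} (h : iF o Ω (wN o) ∈ P.O) (f : AO o Ω) :
    algebraMap _ (FO o Ω) f ∈ P.O := by
  have h1 : ∀ x ∈ Algebra.adjoin κ {wN o}, iF o Ω x ∈ P.O := fun x hx => by
    induction hx using Algebra.adjoin_induction with
    | mem x hx => exact Set.mem_singleton_iff.1 hx ▸ h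
    | algebraMap c =>
      rw [AlgHom.commutes, IsScalarTower.algebraMap_apply κ Ω]
      exact P.const _
    | add x y _ _ hx hy => exact map_add (iF o Ω) x y ▸ add_mem hx hy
    | mul x y _ _ hx hy => exact map_mul (iF o Ω) x y ▸ mul_mem hx hy
  induction f using TensorProduct.induction_on with
  | zero => simp
  | add a b ha hb => exact map_add (algebraMap _ (FO o Ω)) a b ▸ add_mem ha hb
  | tmul c a =>
    rw [algebraMap_tmul]
    refine mul_mem (P.const c) (F0_mem_of_integral (A := P.O) P.O (fun a => a.2) ?_)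
    exact (isIntegral_wN o a).map_of_comp_eq (((iF o Ω).toRingHom.comp
      (Algebra.adjoin κ {wN o}).val.toRingHom).codRestrict P.O fun x => h1 x x.2)
      (iF o Ω).toRingHom rfl

theorem O1_range {f : FO o Ω} (h : ∀ P : PO o Ω, iF o Ω (wN o) ∈ P.O → f ∈ P.O) :
    f ∈ (algebraMap (AO o Ω) (FO o Ω)).range := by
  have h1 := isIntegral_of_forall_mem (O1_B o Ω) fun P hP => h P (hP _ ⟨1 ⊗ₜ wN o, rfl⟩)
  refine IsIntegrallyClosed.isIntegral_iff.1
    (h1.map_of_comp_eq (O1_e o Ω).symm.toRingEquiv.toRingHom (RingHom.id _) ?_)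
  ext x
  obtain ⟨x, rfl⟩ := (O1_e o Ω).surjective x
  simp

theorem O1_le {n : ℤ} {a : AO o Ω} : (a = 0 ∨ -n ≤ (oo o Ω).ord (algebraMap _ (FO o Ω) a)) ↔
    ∀ i, (ebO o Ω).repr a i ≠ 0 → (pn o i : ℤ) ≤ n := by
  by_cases ha : a = 0
  · simp [ha]
  obtain ⟨i, h1, h2⟩ := O1_max (ebO o Ω) ha
  rw [(exists_oo o Ω).choose_spec a i h1 h2 |> (show (oo o Ω).ord _ = _ from ·), or_iff_right ha,
    neg_le_neg_iff]
  refine ⟨fun h j hj => le_trans ?_ h, fun h => h i h1⟩
  exact_mod_cast (ebSpec o).mono.monotone (not_lt.1 fun h => hj (h2 j h))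

theorem O1_sub {m : ℕ} {a : AO o Ω} (h : ∀ i, (ebO o Ω).repr a i ≠ 0 → i < m) :
    algebraMap _ (FO o Ω) a ∈ Submodule.span Ω (Set.range fun i : Fin m => iF o Ω (eb o i)) := by
  rw [← (ebO o Ω).linearCombination_repr a, Finsupp.linearCombination_apply, Finsupp.sum, map_sum]
  refine sum_mem fun i hi => ?_
  refine (map_smul (IsScalarTower.toAlgHom Ω (AO o Ω) (FO o Ω)) _ _).symm ▸ ?_
  exact Submodule.smul_mem _ _ (Submodule.subset_span
    ⟨⟨i, h i (Finsupp.mem_support_iff.1 hi)⟩, (algebraMap_ebO i).symm⟩)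

theorem O1_key {P : PO o Ω} (hP : P ≠ oo o Ω) : iF o Ω (wN o) ∈ P.O := by
  by_contra h
  set D := dinf Ω (iF o Ω (wN o)) with hD
  set m := genus Ω (FO o Ω) + 1 with hm
  have h1 : (NN o : ℤ) • pd (oo o Ω) + pd P ≤ D := fun Q => by
    rw [hD, dinf_apply]
    by_cases h1 : Q = oo o Ω
    · simp [h1, hP, F1_pd_apply, O1_ord_w]
    by_cases h2 : Q = P
    · rw [Place.mem_iff] at h
      simp only [h2, Finsupp.add_apply, Finsupp.smul_apply, F1_pd_apply, if_neg hP.symm, if_true,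
        smul_zero]
      omega
    · simp [F1_pd_apply, Ne.symm h1, Ne.symm h2]
  have h2 := deg_mono h1
  have h3 := riemann (m • D)
  have h4 : ell (m • D) ≤ m * NN o + 1 := by
    have := FiniteDimensional.span_of_finite Ω
      (Set.finite_range fun i : Fin (m * NN o + 1) => iF o Ω (eb o i))
    refine le_trans (Submodule.finrank_mono (t := Submodule.span Ω
      (Set.range fun i : Fin (m * NN o + 1) => iF o Ω (eb o i))) fun f hf => ?_)
      ((finrank_range_le_card _).trans (Fintype.card_fin _).le)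
    rcases mem_LL.1 hf with rfl | hf
    · exact zero_mem _
    obtain ⟨a, rfl⟩ := O1_range (f := f) fun Q hQ => Q.mem_iff.2 (by
      simpa [hD, dinf_apply, Q.mem_iff.1 hQ] using hf Q)
    refine O1_sub fun i hi => ?_
    have h5 := (O1_le (n := m * NN o)).1 (Or.inr (by
      simpa [hD, dinf_apply, O1_ord_w] using hf (oo o Ω))) i hi
    have h6 := (ebSpec o).mono.le_apply (x := i)
    omega
  rw [deg_add, deg_zsmul, deg_pd, deg_pd] at h2
  rw [deg_nsmul] at h3
  have h5 : (m : ℤ) * (NN o * 1 + 1) ≤ m * deg D := mul_le_mul_of_nonneg_left h2 (by positivity)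
  zify at h4
  have h6 : (m : ℤ) = genus Ω (FO o Ω) + 1 := by exact_mod_cast hm
  linarith

theorem O1_iff {f : FO o Ω} :
    f ∈ (algebraMap (AO o Ω) (FO o Ω)).range ↔ ∀ P : PO o Ω, P ≠ oo o Ω → f ∈ P.O :=
  ⟨fun ⟨a, ha⟩ _ hP => ha ▸ O1_mem (O1_key hP) a,
    fun h => O1_range fun P hP => h P fun e => O1_w_notMem (e ▸ hP)⟩

theorem O1_div {P : PO o Ω} (hP : P ≠ oo o Ω) {f : FO o Ω} (hf : f ∈ P.O) :
    ∃ a s : AO o Ω, P.ev (algebraMap _ (FO o Ω) s) ≠ 0 ∧
      f * algebraMap _ (FO o Ω) s = algebraMap _ (FO o Ω) a := by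
  obtain ⟨a, s, h1, h2⟩ := exists_div_AA (oo o Ω) hP hf
  obtain ⟨a', ha⟩ := O1_iff.2 a.2
  obtain ⟨s', hs⟩ := O1_iff.2 s.2
  exact ⟨a', s', hs ▸ h1, by rw [ha, hs, h2]⟩

theorem O1_uniq {P Q : PO o Ω} (hP : P ≠ oo o Ω) (hQ : Q ≠ oo o Ω)
    (h : ∀ a : AA o, P.ev (iF o Ω a) = Q.ev (iF o Ω a)) : P = Q := by
  have hp := O1_mem (O1_key hP)
  have hq := O1_mem (O1_key hQ)
  have h1 : ∀ f : AO o Ω, P.ev (algebraMap _ (FO o Ω) f) = Q.ev (algebraMap _ (FO o Ω) f) := by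
    intro f
    induction f using TensorProduct.induction_on with
    | zero => rw [map_zero, F1a_ev_zero, F1a_ev_zero]
    | add a b ha hb => rw [map_add, P.ev_add (hp a) (hp b), Q.ev_add (hq a) (hq b), ha, hb]
    | tmul c a =>
      rw [algebraMap_tmul, ← O1_iF, P.ev_mul (P.const c) (hp _), Q.ev_mul (Q.const c) (hq _),
        P.ev_algebraMap, Q.ev_algebraMap, O1_iF, h]
  refine Place.eq_of_le fun f hf => ?_
  obtain ⟨a, s, h2, h3⟩ := O1_div hP hf
  rw [eq_div_of_mul_eq (fun h => h2 (by rw [h, F1a_ev_zero])) h3]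
  exact (Q.ev_div (hq a) (hq s) (h1 s ▸ h2)).1

theorem O1_li : LinearIndependent Ω fun i : ℕ => iF o Ω (eb o i) := by
  simpa [Function.comp_def, algebraMap_ebO] using (ebO o Ω).linearIndependent.map'
    (IsScalarTower.toAlgHom Ω (AO o Ω) (FO o Ω)).toLinearMap
    (LinearMap.ker_eq_bot.2 (IsFractionRing.injective (AO o Ω) (FO o Ω)))

omit [IsAlgClosed κ] [CharZero κ] [IsFF κ F] in
theorem O1_ev {P : Place κ F} {f : F} (h : f ∉ P.O) : P.ev f = 0 :=
  dif_neg fun ⟨c, hc⟩ => h (by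
    simpa using add_mem ((P.O.valuation_le_one_iff _).1 hc.le) (P.const c))

variable (o Ω) in
/-- the embedding of the function field -/
noncomputable def O1_j : F →ₐ[κ] FO o Ω := IsFractionRing.liftAlgHom (iF_injective (o := o))

theorem O1_phi (a : AA o) : O1_j o Ω (a : F) = iF o Ω a :=
  IsFractionRing.lift_algebraMap (iF_injective (o := o)) a

theorem O1_jF (f : F) : O1_j o Ω f = jF o Ω f := by
  have h0 : ∀ a s : AA o, f * s = a → O1_j o Ω f * iF o Ω s = iF o Ω a := fun a s h => by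
    rw [← O1_phi, ← O1_phi, ← map_mul, h]
  have h : ∃ x : FO o Ω, ∃ a s : AA o, s ≠ 0 ∧ f * s = a ∧ x * iF o Ω s = iF o Ω a := by
    obtain ⟨a, s, hs, e⟩ := IsFractionRing.div_surjective (AA o) f
    have hs' := nonZeroDivisors.ne_zero hs
    have e' : f * s = a := e ▸ div_mul_cancel₀ (a : F) (by simpa using hs')
    exact ⟨_, a, s, hs', e', h0 a s e'⟩
  rw [jF, dif_pos h]
  obtain ⟨a, s, h1, h2, h3⟩ := h.choose_spec
  exact mul_right_cancel₀ ((map_ne_zero_iff _ iF_injective).2 h1) ((h0 a s h2).trans h3.symm)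

theorem iF_wN_notMem : iF o Ω (wN o) ∉ (algebraMap Ω (FO o Ω)).range := by
  rintro ⟨c, hc⟩
  have h := O1_ord_w (o := o) (Ω := Ω)
  rw [← hc, Place.ord_algebraMap, NN] at h
  omega

theorem oo_ord {f : AO o Ω} {i : ℕ} (hi : (ebO o Ω).repr f i ≠ 0)
    (h : ∀ j, i < j → (ebO o Ω).repr f j = 0) :
    (oo o Ω).ord (algebraMap _ (FO o Ω) f) = - (pn o i : ℤ) :=
  (exists_oo o Ω).choose_spec f i hi h

theorem oo_ord_iF (a : AA o) : (oo o Ω).ord (iF o Ω a) = o.ord (a : F) := O1_ord a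

theorem plc_spec (y : Pt o Ω) (f : AO o Ω) : algebraMap _ (FO o Ω) f ∈ (plc y).O ∧
    (plc y).ev (algebraMap _ (FO o Ω) f) = evA y f := by
  have h : ∃ P : PO o Ω, ∀ f : AO o Ω,
      algebraMap _ (FO o Ω) f ∈ P.O ∧ P.ev (algebraMap _ (FO o Ω) f) = evA y f := by
    obtain ⟨P, hP⟩ := exists_place_of_algHom (O1_B o Ω) ⟨_, ⟨1 ⊗ₜ wN o, rfl⟩, iF_wN_notMem⟩
      ((evA y).comp (O1_e o Ω).symm.toAlgHom)
    exact ⟨P, fun f => by simpa using hP (O1_e o Ω f)⟩
  rw [plc, dif_pos h]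
  exact h.choose_spec f

theorem plc_iF (y : Pt o Ω) (a : AA o) : iF o Ω a ∈ (plc y).O ∧ (plc y).ev (iF o Ω a) = y a := by
  simpa [O1_iF, evA_tmul] using plc_spec y (1 ⊗ₜ a)

theorem plc_ne_oo (y : Pt o Ω) : plc y ≠ oo o Ω := fun h =>
  O1_w_notMem (h ▸ (plc_iF y (wN o)).1)

theorem plc_injective : Function.Injective (plc : Pt o Ω → PO o Ω) := fun y y' h =>
  AlgHom.ext fun a => by rw [← (plc_iF y a).2, h, (plc_iF y' a).2]

theorem eq_oo_or_plc (P : PO o Ω) : P = oo o Ω ∨ ∃ y, plc y = P := by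
  refine or_iff_not_imp_left.2 fun hP => ?_
  have h : ∀ a, iF o Ω a ∈ P.O := fun a => O1_mem (O1_key hP) (1 ⊗ₜ a)
  have hc : ∀ c : κ, P.ev (iF o Ω (algebraMap κ _ c)) = algebraMap κ Ω c := fun c => by
    rw [AlgHom.commutes, IsScalarTower.algebraMap_apply κ Ω, P.ev_algebraMap]
  let y : Pt o Ω :=
    { toFun := fun a => P.ev (iF o Ω a)
      map_one' := by simpa using hc 1
      map_mul' := fun a b => by rw [map_mul, P.ev_mul (h a) (h b)]
      map_zero' := by simpa using hc 0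
      map_add' := fun a b => by rw [map_add, P.ev_add (h a) (h b)]
      commutes' := hc }
  exact ⟨y, O1_uniq (plc_ne_oo y) hP fun a => (plc_iF y a).2⟩

theorem eq_plc {P : PO o Ω} {y : Pt o Ω}
    (h : ∀ i : Fin (MM o), iF o Ω (eb o i) ∈ P.O ∧ P.ev (iF o Ω (eb o i)) = y (eb o i)) :
    P = plc y := by
  rcases eq_oo_or_plc P with rfl | ⟨y', rfl⟩
  · exact (O1_w_notMem (h ⟨genus κ F + 1, by rw [MM]; omega⟩).1).elim
  · exact congrArg plc (pt_ext o (funext fun i => (plc_iF y' _).2.symm.trans (h i).2))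

theorem eq_oo_iff {P : PO o Ω} : P = oo o Ω ↔ iF o Ω (wN o) ∉ P.O :=
  ⟨fun h => h ▸ O1_w_notMem, fun h => by_contra fun h' => h (O1_key h')⟩

theorem mem_range_iff {f : FO o Ω} :
    f ∈ (algebraMap (AO o Ω) (FO o Ω)).range ↔ ∀ P : PO o Ω, P ≠ oo o Ω → f ∈ P.O := O1_iff

theorem exists_div_plc (y : Pt o Ω) {f : FO o Ω} (hf : f ∈ (plc y).O) :
    ∃ a s : AO o Ω, evA y s ≠ 0 ∧ f * algebraMap _ (FO o Ω) s = algebraMap _ (FO o Ω) a := by
  obtain ⟨a, s, h1, h2⟩ := O1_div (plc_ne_oo y) hf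
  exact ⟨a, s, (plc_spec y s).2 ▸ h1, h2⟩

theorem mem_LL_oo {n : ℤ} {f : FO o Ω} : f ∈ LL (n • pd (oo o Ω)) ↔
    ∃ a : AO o Ω, algebraMap _ (FO o Ω) a = f ∧ ∀ i, (ebO o Ω).repr a i ≠ 0 → (pn o i : ℤ) ≤ n := by
  rw [mem_LL]
  constructor
  · rintro (rfl | h)
    · exact ⟨0, map_zero _, by simp⟩
    obtain ⟨a, rfl⟩ := (mem_range_iff (f := f)).2 fun P hP => P.mem_iff.2 (by
      simpa [F1_pd_apply, Ne.symm hP] using h P)
    exact ⟨a, rfl, O1_le.1 (Or.inr (by simpa [F1_pd_apply] using h (oo o Ω)))⟩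
  · rintro ⟨a, rfl, h⟩
    refine (O1_le.2 h).imp (fun h => by rw [h, map_zero]) fun h P => ?_
    by_cases hP : P = oo o Ω
    · simpa [F1_pd_apply, hP] using h
    · simpa [F1_pd_apply, Ne.symm hP] using P.mem_iff.1 (O1_mem (O1_key hP) a)

theorem O1_span {m : ℕ} (hm : genus κ F ≤ m) :
    LL (((m : ℤ) + genus κ F - 1) • pd (oo o Ω)) =
      Submodule.span Ω (Set.range fun i : Fin m => iF o Ω (eb o i)) := by
  have h : ∀ i, (pn o i : ℤ) ≤ m + genus κ F - 1 ↔ i < m := fun i => by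
    rw [← (ebSpec o).mono.lt_iff_lt, (ebSpec o).large m hm]
    omega
  refine le_antisymm (fun f hf => ?_) (Submodule.span_le.2 ?_)
  · obtain ⟨a, rfl, ha⟩ := mem_LL_oo.1 hf
    exact O1_sub fun i hi => (h i).1 (ha i hi)
  · rintro _ ⟨i, rfl⟩
    refine mem_LL_oo.2 ⟨_, algebraMap_ebO i, fun j hj => (h j).2 ?_⟩
    rw [Module.Basis.repr_self, Finsupp.single_apply_ne_zero] at hj
    exact hj.1 ▸ i.2

theorem genus_FO : genus Ω (FO o Ω) = genus κ F := by
  obtain ⟨c, hc⟩ := exists_rr_large (κ := Ω) (F := FO o Ω)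
  have h := hc ((((c.toNat + 1 + genus κ F : ℕ) : ℤ) + genus κ F - 1) • pd (oo o Ω))
    (by rw [deg_zsmul, deg_pd]; omega)
  have h' : LinearIndependent Ω fun i : Fin (c.toNat + 1 + genus κ F) => iF o Ω (eb o i) :=
    O1_li.comp _ Fin.val_injective
  rw [ell, O1_span (by omega), finrank_span_eq_card h', deg_zsmul, deg_pd, Fintype.card_fin] at h
  omega

/-- for `m ≥ g` the functions `eb 0, .., eb (m-1)` span `L((m + g - 1) oo)` -/
theorem LL_oo_eq_span {m : ℕ} (hm : genus κ F ≤ m) :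
    LL (((m : ℤ) + genus κ F - 1) • pd (oo o Ω)) =
      Submodule.span Ω (Set.range fun i : Fin m => iF o Ω (eb o i)) := O1_span hm

theorem linearIndependent_iF_eb : LinearIndependent Ω fun i : ℕ => iF o Ω (eb o i) := O1_li

/-- an element of `AO` is determined by its values on an infinite set of points -/
theorem AO_eq_zero {f : AO o Ω} {S : Set (Pt o Ω)} (hS : S.Infinite) (h : ∀ y ∈ S, evA y f = 0) :
    f = 0 := by
  by_contra hf
  refine hS (((F1_finite_zeros (κ := Ω) (algebraMap _ (FO o Ω) f)).preimage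
    plc_injective.injOn).subset fun y hy => ?_)
  exact (((plc y).ev_eq_zero_iff (plc_spec y f).1).1 ((plc_spec y f).2.trans (h y hy))).resolve_left
    (by simpa using hf)

theorem exists_pt_wN (c : Ω) : ∃ y : Pt o Ω, y (wN o) = c := by
  obtain ⟨P, hP⟩ := exists_place_ev (iF_wN_notMem (o := o) (Ω := Ω)) c
  rcases eq_oo_or_plc P with rfl | ⟨y, rfl⟩
  · refine (O1_w_notMem (o := o) (Ω := Ω) ?_).elim
    simpa using add_mem ((oo o Ω).mem_iff.2 hP.le) ((oo o Ω).const c)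
  · exact ⟨y, (plc_iF y _).2.symm.trans (Place.ev_eq _ (Or.inr hP))⟩

theorem finite_pt_wN (c : Ω) : {y : Pt o Ω | y (wN o) = c}.Finite := by
  by_contra h
  have h1 := AO_eq_zero (f := 1 ⊗ₜ wN o - algebraMap Ω _ c) h fun y hy => by
    rw [map_sub, evA_tmul, AlgHom.commutes, one_mul, hy]
    exact sub_self c
  refine iF_wN_notMem (o := o) (Ω := Ω) ⟨c, ?_⟩
  rw [← O1_iF, sub_eq_zero.1 h1, ← IsScalarTower.algebraMap_apply]

instance instInfinitePt : Infinite (Pt o Ω) :=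
  Infinite.of_surjective (fun y : Pt o Ω => y (wN o)) exists_pt_wN

theorem dinf_wN : dinf Ω (iF o Ω (wN o)) = (NN o : ℤ) • pd (oo o Ω) := by
  ext P
  rw [dinf_apply]
  by_cases hP : P = oo o Ω
  · simp [hP, O1_ord_w, F1_pd_apply]
  · simpa [F1_pd_apply, Ne.symm hP] using P.mem_iff.1 (O1_key hP)

theorem jF_coe (a : AA o) : jF o Ω (a : F) = iF o Ω a := by
  rw [← O1_jF, O1_phi]

theorem exists_jF_hom : ∃ φ : F →ₐ[κ] FO o Ω, ∀ f, φ f = jF o Ω f := ⟨O1_j o Ω, O1_jF⟩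

theorem oo_jF (f : F) : (oo o Ω).ord (jF o Ω f) = o.ord f ∧
    (oo o Ω).ev (jF o Ω f) = algebraMap κ Ω (o.ev f) := by
  have h : ∀ f : F, (oo o Ω).ord (O1_j o Ω f) = o.ord f := fun f => by
    obtain ⟨a, s, hs, rfl⟩ := IsFractionRing.div_surjective (AA o) f
    have hs' := nonZeroDivisors.ne_zero hs
    by_cases ha : a = 0
    · simp [ha, Place.ord_zero]
    change (oo o Ω).ord (O1_j o Ω (a / s : F)) = o.ord (a / s : F)
    rw [map_div₀, O1_phi, O1_phi, Place.ord_div _ ((map_ne_zero_iff _ iF_injective).2 ha)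
      ((map_ne_zero_iff _ iF_injective).2 hs'), o.ord_div (by simpa using ha) (by simpa using hs'),
      oo_ord_iF, oo_ord_iF]
  rw [← O1_jF]
  refine ⟨h f, ?_⟩
  by_cases hf : f ∈ o.O
  · refine Place.ev_eq _ ?_
    rw [← IsScalarTower.algebraMap_apply, ← (O1_j o Ω).commutes, ← map_sub, h]
    exact (o.ev_spec hf).imp_left (congrArg _)
  · rw [O1_ev hf, O1_ev (by rwa [Place.mem_iff, h, ← Place.mem_iff]), map_zero]

/-- the embedding `jF` as a homomorphism of function fields (for `Ω = κ`) -/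
noncomputable def jK (o : Place κ F) : FHom κ F (FO o κ) :=
  FHom.ofAlgHom (exists_jF_hom (o := o) (Ω := κ)).choose

theorem jK_f (f : F) : (jK o).f f = jF o κ f :=
  (exists_jF_hom (o := o) (Ω := κ)).choose_spec f

theorem jK_surj : Function.Surjective (jK o).f := by
  have h : ∀ a : AO o κ, algebraMap _ (FO o κ) a ∈ (jK o).f.fieldRange := fun a => by
    induction a using TensorProduct.induction_on with
    | zero => simp
    | add a b ha hb => exact map_add (algebraMap _ (FO o κ)) a b ▸ add_mem ha hb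
    | tmul c a =>
      rw [algebraMap_tmul]
      exact mul_mem ⟨_, (jK o).comm c⟩ ⟨a, by rw [jK_f, jF_coe]⟩
  intro x
  obtain ⟨a, s, -, rfl⟩ := IsFractionRing.div_surjective (AO o κ) x
  exact div_mem (h a) (h s)

theorem jK_res_oo : (jK o).res (oo o κ) = o := by
  ext f
  rw [← FHom.map_mem_iff, jK_f, Place.mem_iff, Place.mem_iff, (oo_jF f).1]

theorem jK_res_plc (y : Pt o κ) (a : AA o) : ((jK o).res (plc y)).ev (a : F) = y a := by
  have h := (jK o).ev_map (plc y) a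
  rw [jK_f, jF_coe, (plc_iF y a).2] at h
  exact h.symm

end Pool.Agent.E6b
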