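import Pool.Agent.E6b.Osm

open scoped NNReal TensorProduct IntermediateField BigOperators Classical Topology
open Filter

namespace Pool.Agent.E6b

variable {κ F : Type} [Field κ] [IsAlgClosed κ] [CharZero κ] [Field F] [Algebra κ F] [IsFF κ F]
  (o : Place κ F) (Ω : Type) [Field Ω] [Algebra κ Ω]

/-- `i` is the largest index in the support -/
def O1a_Top {R : Type} [Zero R] (f : ℕ →₀ R) (i : ℕ) : Prop := f i ≠ 0 ∧ ∀ j, i < j → f j = 0

theorem O1a_exists_top {R : Type} [Zero R] {f : ℕ →₀ R} (hf : f ≠ 0) : ∃ i, O1a_Top f i := by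
  have hne := Finsupp.support_nonempty_iff.2 hf
  refine ⟨f.support.max' hne, Finsupp.mem_support_iff.1 (f.support.max'_mem hne), fun j hj => ?_⟩
  by_contra h
  exact absurd (f.support.le_max' j (Finsupp.mem_support_iff.2 h)) (not_le.2 hj)

theorem O1a_eb_ne (i : ℕ) : (eb o i : F) ≠ 0 := fun h =>
  (eb o).ne_zero i (Subtype.ext h)

theorem O1a_ord {a : AA o} {i : ℕ} (h : O1a_Top ((eb o).repr a) i) :
    o.ord (a : F) = - (pn o i : ℤ) := by
  have h1 : (a : F) = ∑ j ∈ ((eb o).repr a).support, (eb o).repr a j • (eb o j : F) := by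
    conv_lhs => rw [← (eb o).linearCombination_repr a, Finsupp.linearCombination_apply,
      Finsupp.sum]
    simp
  have h2 := F1_sum_ne_zero o ((eb o).repr a).support (fun j => (eb o).repr a j • (eb o j : F))
    (Finsupp.mem_support_iff.2 h.1) (smul_ne_zero h.1 (O1a_eb_ne o i)) fun j hj hji => by
      have hj' := Finsupp.mem_support_iff.1 hj
      have h3 : j < i := lt_of_le_of_ne (not_lt.1 fun c => hj' (h.2 j c)) hji
      have h4 := (ebSpec o).mono h3
      right
      rw [o.ord_smul h.1, o.ord_smul hj', (ebSpec o).ord, (ebSpec o).ord]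
      omega
  rw [h1, h2.2, o.ord_smul h.1, (ebSpec o).ord]

theorem O1a_mul_eb (i j : ℕ) :
    ∃ k, pn o k = pn o i + pn o j ∧ O1a_Top ((eb o).repr (eb o i * eb o j)) k := by
  have h0 : eb o i * eb o j ≠ 0 := mul_ne_zero ((eb o).ne_zero i) ((eb o).ne_zero j)
  obtain ⟨k, hk⟩ := O1a_exists_top (f := (eb o).repr (eb o i * eb o j)) (by simpa using h0)
  refine ⟨k, ?_, hk⟩
  have h1 := O1a_ord o hk
  rw [MulMemClass.coe_mul, o.ord_mul (O1a_eb_ne o i) (O1a_eb_ne o j), (ebSpec o).ord,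
    (ebSpec o).ord] at h1
  omega

theorem O1a_ebO (i : ℕ) : ebO o Ω i = 1 ⊗ₜ[κ] eb o i := Algebra.TensorProduct.basis_apply _ i

theorem O1a_mul_ebO (i j : ℕ) :
    ∃ k, pn o k = pn o i + pn o j ∧ O1a_Top ((ebO o Ω).repr (ebO o Ω i * ebO o Ω j)) k := by
  obtain ⟨k, hk, h1, h2⟩ := O1a_mul_eb o i j
  have h3 : ∀ l, (ebO o Ω).repr (ebO o Ω i * ebO o Ω j) l =
      algebraMap κ Ω ((eb o).repr (eb o i * eb o j) l) := fun l => by
    rw [O1a_ebO, O1a_ebO, Algebra.TensorProduct.tmul_mul_tmul, one_mul, ebO,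
      Algebra.TensorProduct.basis_repr_tmul, one_smul, Finsupp.mapRange_apply]
  refine ⟨k, hk, ?_, fun l hl => ?_⟩
  · rw [h3]
    simpa using h1
  · rw [h3, h2 l hl, map_zero]

/-- functions with pole order less than `n` -/
noncomputable def O1a_S (n : ℕ) : Submodule Ω (AO o Ω) :=
  Submodule.span Ω (ebO o Ω '' {i | pn o i < n})

theorem O1a_mem_S {n : ℕ} {f : AO o Ω} :
    f ∈ O1a_S o Ω n ↔ ∀ i, (ebO o Ω).repr f i ≠ 0 → pn o i < n := by
  rw [O1a_S, Module.Basis.mem_span_image]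
  exact ⟨fun h i hi => h (Finsupp.mem_support_iff.2 hi),
    fun h i hi => h i (Finsupp.mem_support_iff.1 hi)⟩

theorem O1a_top_mem {f : AO o Ω} {i : ℕ} (h : O1a_Top ((ebO o Ω).repr f) i) :
    f ∈ O1a_S o Ω (pn o i + 1) :=
  (O1a_mem_S o Ω).2 fun j hj =>
    Nat.lt_succ_of_le ((ebSpec o).mono.monotone (not_lt.1 fun c => hj (h.2 j c)))

theorem O1a_mul_S {n m : ℕ} {f g : AO o Ω} (hf : f ∈ O1a_S o Ω (n + 1)) (hg : g ∈ O1a_S o Ω m) :
    f * g ∈ O1a_S o Ω (n + m) := by
  have h : O1a_S o Ω (n + 1) * O1a_S o Ω m ≤ O1a_S o Ω (n + m) := by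
    rw [O1a_S, O1a_S, Submodule.span_mul_span, Submodule.span_le]
    rintro _ ⟨_, ⟨i, hi, rfl⟩, _, ⟨j, hj, rfl⟩, rfl⟩
    obtain ⟨k, hk, h1⟩ := O1a_mul_ebO o Ω i j
    have hi' : pn o i < n + 1 := hi
    have hj' : pn o j < m := hj
    refine (O1a_mem_S o Ω).2 fun l hl => ?_
    have := (O1a_mem_S o Ω).1 (O1a_top_mem o Ω h1) l hl
    omega
  exact h (Submodule.mul_mem_mul hf hg)

theorem O1a_lead {f : AO o Ω} {i : ℕ} (h : O1a_Top ((ebO o Ω).repr f) i) :
    f - (ebO o Ω).repr f i • ebO o Ω i ∈ O1a_S o Ω (pn o i) := by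
  refine (O1a_mem_S o Ω).2 fun j hj => (ebSpec o).mono ?_
  rw [map_sub, map_smul, Module.Basis.repr_self, Finsupp.sub_apply, Finsupp.smul_apply] at hj
  rcases lt_trichotomy j i with c | c | c
  · exact c
  · subst c
    simp at hj
  · rw [h.2 j c, Finsupp.single_eq_of_ne c.ne'] at hj
    simp at hj

theorem O1a_mul_top {f g : AO o Ω} {i j : ℕ} (hf : O1a_Top ((ebO o Ω).repr f) i)
    (hg : O1a_Top ((ebO o Ω).repr g) j) :
    ∃ k, pn o k = pn o i + pn o j ∧ O1a_Top ((ebO o Ω).repr (f * g)) k := by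
  obtain ⟨k, hk, h1⟩ := O1a_mul_ebO o Ω i j
  obtain ⟨c, hc⟩ : ∃ c, c = (ebO o Ω).repr f i := ⟨_, rfl⟩
  obtain ⟨d, hd⟩ : ∃ d, d = (ebO o Ω).repr g j := ⟨_, rfl⟩
  have h2 := O1a_mul_S o Ω (O1a_top_mem o Ω hf) (O1a_lead o Ω hg)
  have hj : ebO o Ω j ∈ O1a_S o Ω (pn o j + 1) :=
    Submodule.subset_span ⟨j, Nat.lt_succ_self _, rfl⟩
  have h3 := O1a_mul_S o Ω (Submodule.smul_mem _ d hj) (O1a_lead o Ω hf)
  rw [add_comm] at h3
  rw [← hd] at h2
  rw [← hc] at h3
  have h4 := (O1a_mem_S o Ω).1 (Submodule.add_mem _ h2 h3)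
  have h5 : f * (g - d • ebO o Ω j) + d • ebO o Ω j * (f - c • ebO o Ω i) =
      f * g - (c * d) • (ebO o Ω i * ebO o Ω j) := by
    have e : ∀ (x : Ω) (y : AO o Ω), x • y = algebraMap Ω (AO o Ω) x * y :=
      fun x y => Algebra.smul_def x y
    rw [e, e, e, map_mul]
    ring
  rw [h5] at h4
  have h6 : ∀ l, k ≤ l → (ebO o Ω).repr (f * g) l =
      c * d * (ebO o Ω).repr (ebO o Ω i * ebO o Ω j) l := fun l hl => by
    by_contra h7
    have h8 := h4 l (by
      rw [map_sub, map_smul, Finsupp.sub_apply, Finsupp.smul_apply, smul_eq_mul]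
      exact sub_ne_zero.2 h7)
    have h9 := (ebSpec o).mono.monotone hl
    omega
  refine ⟨k, hk, ?_, fun l hl => ?_⟩
  · rw [h6 k le_rfl]
    exact mul_ne_zero (mul_ne_zero (hc ▸ hf.1) (hd ▸ hg.1)) h1.1
  · rw [h6 l hl.le, h1.2 l hl, mul_zero]

theorem O1a_top {f : AO o Ω} (hf : f ≠ 0) : ∃ i, O1a_Top ((ebO o Ω).repr f) i :=
  O1a_exists_top (by simpa using hf)

theorem O1a_ne_of_top {f : AO o Ω} {i : ℕ} (h : O1a_Top ((ebO o Ω).repr f) i) : f ≠ 0 := by
  rintro rfl
  exact h.1 (by simp)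

instance instIsDomainAO : IsDomain (AO o Ω) := by
  have : Nontrivial (AO o Ω) := ⟨_, _, (ebO o Ω).ne_zero 0⟩
  have : NoZeroDivisors (AO o Ω) := ⟨fun {f g} h => by
    by_contra hc
    obtain ⟨i, hi⟩ := O1a_top o Ω fun c => hc (Or.inl c)
    obtain ⟨j, hj⟩ := O1a_top o Ω fun c => hc (Or.inr c)
    obtain ⟨k, -, hk⟩ := O1a_mul_top o Ω hi hj
    exact O1a_ne_of_top o Ω hk h⟩
  exact NoZeroDivisors.to_isDomain _

/-- the pole order -/
noncomputable def O1a_dg (f : AO o Ω) : ℕ := ((ebO o Ω).repr f).support.sup (pn o)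

theorem O1a_dg_top {f : AO o Ω} {i : ℕ} (h : O1a_Top ((ebO o Ω).repr f) i) :
    O1a_dg o Ω f = pn o i :=
  le_antisymm (Finset.sup_le fun j hj => Nat.le_of_lt_succ
    ((O1a_mem_S o Ω).1 (O1a_top_mem o Ω h) j (Finsupp.mem_support_iff.1 hj)))
    (Finset.le_sup (Finsupp.mem_support_iff.2 h.1))

theorem O1a_top_smul {c : Ω} (hc : c ≠ 0) (i : ℕ) :
    O1a_Top ((ebO o Ω).repr (c • ebO o Ω i)) i :=
  ⟨by simpa using hc, fun j hj => by simp [Finsupp.single_eq_of_ne hj.ne']⟩

theorem O1a_pn_zero : pn o 0 = 0 := by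
  have h := (ebSpec o).ord 0
  rw [(ebSpec o).zero, OneMemClass.coe_one, o.ord_one] at h
  omega

theorem O1a_dg_const {c : Ω} (hc : c ≠ 0) : O1a_dg o Ω (algebraMap Ω (AO o Ω) c) = 0 := by
  have h := O1a_dg_top o Ω (O1a_top_smul o Ω hc 0)
  rw [O1a_pn_zero, O1a_ebO, (ebSpec o).zero, ← Algebra.TensorProduct.one_def,
    ← Algebra.algebraMap_eq_smul_one] at h
  exact h

/-- the valuation at infinity on the coordinate ring -/
noncomputable def O1a_v : Valuation (AO o Ω) (WithZero (Multiplicative ℤ)) where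
  toFun f := if f = 0 then 0 else WithZero.exp (O1a_dg o Ω f : ℤ)
  map_zero' := if_pos rfl
  map_one' := by
    have h := O1a_dg_const o Ω (c := 1) one_ne_zero
    rw [map_one] at h
    rw [if_neg one_ne_zero, h]
    rfl
  map_mul' f g := by
    by_cases hf : f = 0
    · simp [hf]
    by_cases hg : g = 0
    · simp [hg]
    obtain ⟨i, hi⟩ := O1a_top o Ω hf
    obtain ⟨j, hj⟩ := O1a_top o Ω hg
    obtain ⟨k, hk, h⟩ := O1a_mul_top o Ω hi hj
    rw [if_neg hf, if_neg hg, if_neg (mul_ne_zero hf hg), O1a_dg_top o Ω h, O1a_dg_top o Ω hi,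
      O1a_dg_top o Ω hj, hk, Nat.cast_add, WithZero.exp_add]
  map_add_le_max' f g := by
    by_cases hf : f = 0
    · simp [hf]
    by_cases hg : g = 0
    · simp [hg]
    by_cases h : f + g = 0
    · simp [h]
    have h1 : O1a_dg o Ω (f + g) ≤ max (O1a_dg o Ω f) (O1a_dg o Ω g) := by
      unfold O1a_dg
      rw [map_add]
      exact (Finset.sup_mono Finsupp.support_add).trans (Finset.sup_union).le
    simp only [if_neg hf, if_neg hg, if_neg h, le_max_iff, WithZero.exp_le_exp, Nat.cast_le] at h1 ⊢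
    exact h1

theorem O1a_v_apply {f : AO o Ω} (hf : f ≠ 0) :
    O1a_v o Ω f = WithZero.exp (O1a_dg o Ω f : ℤ) := if_neg hf

/-- function field of the base change -/
abbrev FO : Type := FractionRing (AO o Ω)

/-- the valuation at infinity -/
noncomputable def O1a_w : Valuation (FO o Ω) (WithZero (Multiplicative ℤ)) :=
  (O1a_v o Ω).extendToLocalization (S := nonZeroDivisors (AO o Ω)) (fun f hf => by
    show ¬ (O1a_v o Ω f = 0)
    rw [O1a_v_apply o Ω (nonZeroDivisors.ne_zero hf)]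
    exact WithZero.exp_ne_zero) (FO o Ω)

theorem O1a_w_top {f : AO o Ω} {i : ℕ} (h : O1a_Top ((ebO o Ω).repr f) i) :
    O1a_w o Ω (algebraMap _ (FO o Ω) f) = WithZero.exp (pn o i : ℤ) := by
  rw [O1a_w, Valuation.extendToLocalization_apply_map_apply, O1a_v_apply o Ω (O1a_ne_of_top o Ω h),
    O1a_dg_top o Ω h]

theorem O1a_w_eb (i : ℕ) :
    O1a_w o Ω (algebraMap _ (FO o Ω) (ebO o Ω i)) = WithZero.exp (pn o i : ℤ) :=
  O1a_w_top o Ω (by simpa only [one_smul] using O1a_top_smul o Ω (c := 1) one_ne_zero i)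

theorem O1a_w_const (c : Ω) : algebraMap Ω (FO o Ω) c ∈ (O1a_w o Ω).valuationSubring := by
  by_cases hc : c = 0
  · rw [hc, map_zero]
    exact zero_mem _
  rw [Valuation.mem_valuationSubring_iff, IsScalarTower.algebraMap_apply Ω (AO o Ω) (FO o Ω), O1a_w,
    Valuation.extendToLocalization_apply_map_apply, O1a_v_apply o Ω
      ((map_ne_zero_iff _ (algebraMap Ω (AO o Ω)).injective).2 hc),
    O1a_dg_const o Ω hc]
  exact le_rfl

theorem O1a_w_notMem : algebraMap _ (FO o Ω) (ebO o Ω (genus κ F + 1)) ∉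
    (O1a_w o Ω).valuationSubring := by
  rw [Valuation.mem_valuationSubring_iff, O1a_w_eb, (ebSpec o).large _ (Nat.le_succ _),
    ← WithZero.exp_zero, WithZero.exp_le_exp]
  omega

instance instIsFFFO : IsFF Ω (FO o Ω) := by
  obtain ⟨t, ht⟩ : ∃ t, t = algebraMap _ (FO o Ω) (ebO o Ω (genus κ F + 1)) := ⟨_, rfl⟩
  refine ⟨t, fun h => O1a_w_notMem o Ω ?_, ?_⟩
  · rw [← ht]
    exact F0_mem_of_integral _ (O1a_w_const o Ω) h.isIntegral
  · let ψ : AA o →ₐ[κ] FO o Ω :=
      (IsScalarTower.toAlgHom κ (AO o Ω) (FO o Ω)).comp Algebra.TensorProduct.includeRight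
    have h1 : ∀ a ∈ Algebra.adjoin κ {wN o}, ψ a ∈ Ω⟮t⟯ := by
      intro a ha
      induction ha using Algebra.adjoin_induction with
      | mem x hx =>
        rw [Set.mem_singleton_iff.1 hx]
        have : ψ (wN o) = t := by rw [ht, O1a_ebO]; rfl
        rw [this]
        exact IntermediateField.mem_adjoin_simple_self Ω t
      | algebraMap r =>
        rw [ψ.commutes, IsScalarTower.algebraMap_apply κ Ω (FO o Ω)]
        exact IntermediateField.algebraMap_mem _ _
      | add x y _ _ hx hy => rw [map_add]; exact add_mem hx hy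
      | mul x y _ _ hx hy => rw [map_mul]; exact mul_mem hx hy
    have h2 : ∀ a : AA o, IsIntegral Ω⟮t⟯ (ψ a) := fun a =>
      (isIntegral_wN o a).map_of_comp_eq
        ((ψ.toRingHom.comp (Algebra.adjoin κ {wN o}).val.toRingHom).codRestrict Ω⟮t⟯
          fun x => h1 x x.2) ψ.toRingHom (RingHom.ext fun _ => rfl)
    have h3 : ∀ f : AO o Ω, IsIntegral Ω⟮t⟯ (algebraMap _ (FO o Ω) f) := by
      intro f
      induction f using TensorProduct.induction_on with
      | zero => rw [map_zero]; exact isIntegral_zero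
      | add x y hx hy => rw [map_add]; exact hx.add hy
      | tmul c a =>
        have h4 : (c ⊗ₜ[κ] a : AO o Ω) = algebraMap Ω (AO o Ω) c * (1 ⊗ₜ[κ] a) := by
          simp
        rw [h4, map_mul, ← IsScalarTower.algebraMap_apply,
          IsScalarTower.algebraMap_apply Ω Ω⟮t⟯ (FO o Ω)]
        exact isIntegral_algebraMap.mul (h2 a)
    have h4 : Algebra.IsAlgebraic Ω⟮t⟯ (FO o Ω) := ⟨fun x => by
      obtain ⟨a, b, -, rfl⟩ := IsFractionRing.div_surjective (A := AO o Ω) x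
      rw [div_eq_mul_inv]
      exact (h3 a).isAlgebraic.mul (h3 b).isAlgebraic.inv⟩
    have h5 : Algebra.EssFiniteType (AO o Ω) (FO o Ω) :=
      Algebra.EssFiniteType.of_isLocalization _ (nonZeroDivisors (AO o Ω))
    have h6 := Algebra.EssFiniteType.comp Ω (AO o Ω) (FO o Ω)
    have h7 := Algebra.EssFiniteType.of_comp Ω Ω⟮t⟯ (FO o Ω)
    exact Algebra.finite_of_essFiniteType_of_isAlgebraic

theorem O1a_loc (χ : AO o Ω →ₐ[Ω] Ω) : ∃ s π : AO o Ω, χ s ≠ 0 ∧ χ π = 0 ∧
    ∀ f, χ f = 0 → s * f ∈ Ideal.span {π} := by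
  obtain ⟨n, τ, v, u, h1, h2⟩ := exists_smooth o
  let ι : AA o →ₐ[κ] AO o Ω := Algebra.TensorProduct.includeRight
  let y : AA o →ₐ[κ] Ω := (χ.restrictScalars κ).comp ι
  let Φ : AA o ⊗[κ] AA o →ₐ[κ] AO o Ω := Algebra.TensorProduct.lift ι
    ((IsScalarTower.toAlgHom κ Ω (AO o Ω)).comp y) fun _ _ => Commute.all _ _
  have hΦ : ∀ a b, Φ (a ⊗ₜ[κ] b) = ι a * algebraMap Ω (AO o Ω) (y b) := fun a b =>
    Algebra.TensorProduct.lift_tmul _ _ _ a b
  have hd : ∀ a, Φ (dlt a) = ι a - algebraMap Ω (AO o Ω) (y a) := fun a => by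
    rw [dlt, map_sub, hΦ, hΦ, map_one, map_one, map_one, mul_one, one_mul]
  have h3 : ∀ z, χ (Φ z) = y (Algebra.TensorProduct.lmul' κ z) := by
    intro z
    induction z using TensorProduct.induction_on with
    | zero => simp
    | add a b ha hb => simp only [map_add, ha, hb]
    | tmul a b =>
      rw [hΦ, map_mul, χ.commutes, Algebra.TensorProduct.lmul'_apply_tmul, map_mul]
      rfl
  obtain ⟨i, hi⟩ : ∃ i, y (Algebra.TensorProduct.lmul' κ (u i)) ≠ 0 := by
    by_contra hc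
    push Not at hc
    have h4 := congrArg y h1
    rw [map_sum, map_one] at h4
    simp [hc] at h4
  refine ⟨Φ (u i), Φ (dlt (τ i)), by rwa [h3], ?_, ?_⟩
  · rw [hd, map_sub, χ.commutes]
    exact sub_self _
  · have h4 : ∀ f, Φ (u i) * (f - algebraMap Ω (AO o Ω) (χ f)) ∈ Ideal.span {Φ (dlt (τ i))} := by
      intro f
      induction f using TensorProduct.induction_on with
      | zero => simp
      | add a b ha hb =>
        have := Ideal.add_mem _ ha hb
        rw [map_add, map_add]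
        convert this using 1
        ring
      | tmul c a =>
        obtain ⟨w, hw⟩ := h2 i a
        have h5 := congrArg Φ hw
        rw [map_mul, map_mul, hd a] at h5
        have h6 : (c ⊗ₜ[κ] a : AO o Ω) = algebraMap Ω (AO o Ω) c * ι a := by
          simp [ι]
        have h7 : χ (ι a) = y a := rfl
        rw [h6, map_mul, χ.commutes, h7, Algebra.algebraMap_self_apply, map_mul,
          Ideal.mem_span_singleton']
        exact ⟨algebraMap Ω (AO o Ω) c * Φ w, by
          linear_combination (-algebraMap Ω (AO o Ω) c) * h5⟩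
    intro f hf
    simpa [hf] using h4 f

theorem O1a_closed [IsAlgClosed Ω] : IsIntegrallyClosed (AO o Ω) := by
  have hN : IsNoetherianRing (AO o Ω) := Algebra.FiniteType.isNoetherianRing Ω _
  refine IsIntegrallyClosed.of_localization_maximal fun m _ hm => ?_
  let := Ideal.Quotient.field m
  have : Module.Finite Ω (AO o Ω ⧸ m) := finite_of_finite_type_of_isJacobsonRing _ _
  let e : Ω ≃ₐ[Ω] (AO o Ω ⧸ m) :=
    AlgEquiv.ofBijective (Algebra.ofId _ _) IsAlgClosed.algebraMap_bijective_of_isIntegral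
  have hχ : ∀ f, (e.symm.toAlgHom.comp (Ideal.Quotient.mkₐ Ω m)) f = 0 ↔ f ∈ m := fun f => by
    rw [← Ideal.Quotient.eq_zero_iff_mem]
    exact map_eq_zero_iff _ e.symm.injective
  obtain ⟨s, π, hs, hπ, h⟩ := O1a_loc o Ω (e.symm.toAlgHom.comp (Ideal.Quotient.mkₐ Ω m))
  have hp : (IsLocalRing.maximalIdeal (Localization.AtPrime m)).IsPrincipal := by
    refine ⟨algebraMap _ _ π, ?_⟩
    rw [← Localization.AtPrime.map_eq_maximalIdeal]
    refine le_antisymm (Ideal.map_le_iff_le_comap.2 fun f hf => ?_) ?_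
    · obtain ⟨a, ha⟩ := Ideal.mem_span_singleton'.1 (h f ((hχ f).2 hf))
      have hu : IsUnit (algebraMap (AO o Ω) (Localization.AtPrime m) s) :=
        IsLocalization.map_units _ (⟨s, fun c => hs ((hχ s).2 c)⟩ : m.primeCompl)
      rw [Ideal.mem_comap, ← Ideal.unit_mul_mem_iff_mem _ hu, ← map_mul, ← ha, map_mul]
      exact Ideal.mul_mem_left _ _ (Ideal.mem_span_singleton_self _)
    · rw [Submodule.span_le, Set.singleton_subset_iff]
      exact Ideal.mem_map_of_mem _ ((hχ π).1 hπ)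
  have h1 : IsPrincipalIdealRing (Localization.AtPrime m) :=
    ((tfae_of_isNoetherianRing_of_isLocalRing_of_isDomain (Localization.AtPrime m)).out 4 0).1 hp
  infer_instance

instance instIsIntegrallyClosedAO : IsIntegrallyClosed (AO o Ω) := by
  have hc := O1a_closed o (AlgebraicClosure Ω)
  let j : Ω →ₐ[κ] AlgebraicClosure Ω := IsScalarTower.toAlgHom κ Ω _
  let φ : AO o Ω →ₐ[κ] AO o (AlgebraicClosure Ω) :=
    Algebra.TensorProduct.map j (AlgHom.id κ (AA o))
  obtain ⟨r, hr⟩ := (Algebra.linearMap Ω (AlgebraicClosure Ω)).exists_leftInverse_of_injective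
    (LinearMap.ker_eq_bot.2 (algebraMap Ω (AlgebraicClosure Ω)).injective)
  have hr1 : r 1 = 1 := by simpa using LinearMap.congr_fun hr 1
  let R : AO o (AlgebraicClosure Ω) →ₗ[κ] AO o Ω := (r.restrictScalars κ).rTensor (AA o)
  have hR : ∀ b c, R (φ b * c) = b * R c := by
    intro b c
    induction b using TensorProduct.induction_on with
    | zero => simp
    | add x y hx hy => rw [map_add, add_mul, map_add, hx, hy, add_mul]
    | tmul x a =>
      induction c using TensorProduct.induction_on with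
      | zero => simp
      | add z y hz hy => rw [mul_add, map_add, hz, hy, map_add, mul_add]
      | tmul z a' =>
        have h1 : r (algebraMap Ω (AlgebraicClosure Ω) x * z) = x * r z := by
          rw [← Algebra.smul_def, map_smul, smul_eq_mul]
        simp [R, φ, j, h1]
  have hφ : ∀ b, R (φ b) = b := fun b => by
    have h1 := hR b 1
    rw [mul_one] at h1
    have hR1 : R 1 = 1 := by
      rw [Algebra.TensorProduct.one_def, Algebra.TensorProduct.one_def]
      simp only [R, LinearMap.rTensor_tmul, LinearMap.restrictScalars_apply, hr1]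
    rw [h1, hR1, mul_one]
  have hinj : Function.Injective φ := Function.LeftInverse.injective hφ
  refine (isIntegrallyClosed_iff (FO o Ω)).2 fun {x} hx => ?_
  let ψ : FO o Ω →+* FO o (AlgebraicClosure Ω) := IsFractionRing.map (j := φ.toRingHom) hinj
  have hψ : ∀ a, ψ (algebraMap _ _ a) = algebraMap _ _ (φ a) := fun a =>
    IsLocalization.map_eq _ a
  obtain ⟨c, hc'⟩ := IsIntegrallyClosed.algebraMap_eq_of_integral
    (hx.map_of_comp_eq φ.toRingHom ψ (RingHom.ext fun a => (hψ a).symm))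
  obtain ⟨a, b, hb, rfl⟩ := IsFractionRing.div_surjective (A := AO o Ω) x
  have hb0 : algebraMap _ (FO o Ω) b ≠ 0 := IsFractionRing.to_map_ne_zero_of_mem_nonZeroDivisors hb
  have h1 : φ b * c = φ a := by
    apply IsFractionRing.injective _ (FO o (AlgebraicClosure Ω))
    rw [map_mul, hc', ← hψ, ← hψ, ← map_mul, mul_div_cancel₀ _ hb0]
  refine ⟨R c, ?_⟩
  rw [eq_div_iff hb0, ← map_mul, mul_comm, ← hR, h1, hφ]

/-- there is a place at infinity -/
theorem exists_oo [IsAlgClosed Ω] [CharZero Ω] : ∃ P : Place Ω (FO o Ω), ∀ (f : AO o Ω) (i : ℕ),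
    (ebO o Ω).repr f i ≠ 0 → (∀ j, i < j → (ebO o Ω).repr f j = 0) →
      P.ord (algebraMap _ (FO o Ω) f) = - (pn o i : ℤ) := by
  let P : Place Ω (FO o Ω) := ⟨(O1a_w o Ω).valuationSubring, O1a_w_const o Ω, fun h =>
    O1a_w_notMem o Ω (by rw [h]; exact ValuationSubring.mem_top _)⟩
  have hs : OrdSpec P fun x => - WithZero.log (O1a_w o Ω x) := by
    refine ⟨by simp, fun f g hf hg => ?_, fun f hf => ?_, ?_⟩
    · rw [map_mul, WithZero.log_mul ((Valuation.ne_zero_iff _).2 hf)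
        ((Valuation.ne_zero_iff _).2 hg), neg_add]
    · show O1a_w o Ω f ≤ 1 ↔ _
      rw [neg_nonneg, WithZero.log_le_iff_le_exp ((Valuation.ne_zero_iff _).2 hf),
        WithZero.exp_zero]
    · have h0 : ∀ i, algebraMap _ (FO o Ω) (ebO o Ω i) ≠ 0 := fun i => by
        simpa using (ebO o Ω).ne_zero i
      refine ⟨algebraMap _ _ (ebO o Ω (genus κ F)) / algebraMap _ _ (ebO o Ω (genus κ F + 1)),
        div_ne_zero (h0 _) (h0 _), ?_⟩
      rw [map_div₀, O1a_w_eb, O1a_w_eb, ← WithZero.exp_sub, WithZero.log_exp,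
        (ebSpec o).large _ le_rfl, (ebSpec o).large _ (Nat.le_succ _)]
      omega
  refine ⟨P, fun f i h1 h2 => ?_⟩
  rw [P.ordSpec.unique hs]
  show - WithZero.log (O1a_w o Ω _) = _
  rw [O1a_w_top o Ω ⟨h1, h2⟩, WithZero.log_exp]

end Pool.Agent.E6b
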