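import Pool.Agent.E6b.O2Aux2

open scoped NNReal TensorProduct IntermediateField BigOperators Classical Topology
open Filter

set_option linter.unusedSectionVars false

namespace Pool.Agent.E6b

variable {κ F : Type} [Field κ] [IsAlgClosed κ] [CharZero κ] [Field F] [Algebra κ F] [IsFF κ F]
  {o : Place κ F} {Ω Ω' Ω'' : Type} [Field Ω] [IsAlgClosed Ω] [CharZero Ω] [Algebra κ Ω]
  [Field Ω'] [IsAlgClosed Ω'] [CharZero Ω'] [Algebra κ Ω']
  [Field Ω''] [IsAlgClosed Ω''] [CharZero Ω''] [Algebra κ Ω'']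

/-- a ring homomorphism which respects the multiplication table of `eb` gives a base change -/
theorem exists_bc_of_table (τ : Ω →+* Ω')
    (h : ∀ i j k, τ (algebraMap κ Ω ((eb o).repr (eb o i * eb o j) k)) =
      algebraMap κ Ω' ((eb o).repr (eb o i * eb o j) k)) : ∃ β : BC o Ω Ω', β.τ = τ :=
  O2_exists_bc τ h

/-- the curve is defined over a finitely generated field -/
theorem exists_bc_finset (o : Place κ F) : ∃ S : Finset κ, ∀ (Ω Ω' : Type) [Field Ω] [IsAlgClosed Ω]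
    [CharZero Ω] [Algebra κ Ω] [Field Ω'] [IsAlgClosed Ω'] [CharZero Ω'] [Algebra κ Ω']
    (τ : Ω →+* Ω'), Fx (S : Set κ) τ → ∃ β : BC o Ω Ω', β.τ = τ := by
  obtain ⟨S, hS⟩ := O2_table_finset o
  refine ⟨S, fun Ω Ω' _ _ _ _ _ _ _ _ τ hτ => O2_exists_bc τ ?_⟩
  exact hS (RingHom.eqLocus (τ.comp (algebraMap κ Ω)) (algebraMap κ Ω')) hτ

/-- linear base change -/
noncomputable def bc (o : Place κ F) (τ : Ω →ₐ[κ] Ω') : BC o Ω Ω' :=
  (exists_bc_of_table (o := o) (τ : Ω →+* Ω') fun _ _ _ => τ.commutes _).choose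

theorem bc_τ (τ : Ω →ₐ[κ] Ω') : (bc o τ).τ = (τ : Ω →+* Ω') :=
  (exists_bc_of_table (o := o) (τ : Ω →+* Ω') fun _ _ _ => τ.commutes _).choose_spec

namespace BC

theorem ext_τ {β β' : BC o Ω Ω'} (h : β.τ = β'.τ) : β = β' := by
  have h1 : β.φ = β'.φ := IsFractionRing.ringHom_ext (A := AO o Ω) fun a => by
    rw [β.O2_phi, β'.O2_phi, h]
  cases β; cases β'
  cases h; cases h1
  rfl

variable (β : BC o Ω Ω')

/-- image of a point -/
noncomputable def pt (y : Pt o Ω) : Pt o Ω' :=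
  if h : ∃ y', E6b.plc y' = β.plc (E6b.plc y) then h.choose else Classical.arbitrary _

theorem map_AO (a : AO o Ω) : ∃ a' : AO o Ω',
    β.φ (algebraMap _ (FO o Ω) a) = algebraMap _ (FO o Ω') a' ∧
      ∀ i, (ebO o Ω').repr a' i = β.τ ((ebO o Ω).repr a i) :=
  ⟨_, β.O2_phi a, O2_map_repr β.τ a⟩

theorem ord_plc (P : PO o Ω) (f : FO o Ω) : (β.plc P).ord (β.φ f) = P.ord f :=
  (β.O2_ord P f).1
theorem ev_plc (P : PO o Ω) (f : FO o Ω) : (β.plc P).ev (β.φ f) = β.τ (P.ev f) :=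
  (β.O2_ord P f).2
theorem plc_oo : β.plc (oo o Ω) = oo o Ω' :=
  β.O2_spec.1
theorem plc_plc (y : Pt o Ω) : β.plc (E6b.plc y) = E6b.plc (β.pt y) := by
  have h : ∃ y', E6b.plc y' = β.plc (E6b.plc y) := (β.O2_spec.2.1 y).imp fun _ h => h.1
  rw [pt, dif_pos h]
  exact h.choose_spec.symm
theorem pt_eb (y : Pt o Ω) (i : ℕ) : β.pt y (eb o i) = β.τ (y (eb o i)) := by
  obtain ⟨y', h1, h2⟩ := β.O2_spec.2.1 y
  rw [← h2, E6b.plc_injective (h1.trans (β.plc_plc y))]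
theorem plc_injective : Function.Injective β.plc := fun P Q h =>
  O2_place_eq fun f => by rw [← β.ord_plc, h, β.ord_plc]
theorem pt_injective : Function.Injective β.pt := fun y z h =>
  E6b.plc_injective (β.plc_injective (by rw [β.plc_plc, β.plc_plc, h]))
theorem mem_range_pt {y : Pt o Ω'} :
    y ∈ Set.range β.pt ↔ ∀ i : Fin (MM o), y (eb o i) ∈ β.τ.range := by
  constructor
  · rintro ⟨z, rfl⟩ i
    exact ⟨_, (β.pt_eb z i).symm⟩
  · intro h
    obtain ⟨z, hz⟩ := β.O2_exists_pt' y h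
    exact ⟨z, pt_ext o (funext fun i => by rw [cd, cd, β.pt_eb, hz])⟩
theorem ord_eq_zero {P : PO o Ω'} (hP : P ∉ Set.range β.plc) (f : FO o Ω) : P.ord (β.φ f) = 0 :=
  β.O2_spec.2.2 P hP f
theorem O2_dv_zero (D : DO o Ω) {P : PO o Ω'} (hP : P ∉ Set.range β.plc) : β.dv D P = 0 :=
  Finsupp.mapDomain_of_notMem_range D P hP
theorem dv_pd (P : PO o Ω) : β.dv (pd P) = pd (β.plc P) :=
  Finsupp.mapDomain_single
theorem dv_apply (D : DO o Ω) (P : PO o Ω) : β.dv D (β.plc P) = D P :=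
  Finsupp.mapDomain_apply β.plc_injective D P
theorem dv_dv (f : FO o Ω) : β.dv (E6b.dv Ω f) = E6b.dv Ω' (β.φ f) := by
  ext P
  by_cases hP : P ∈ Set.range β.plc
  · obtain ⟨Q, rfl⟩ := hP
    rw [β.dv_apply, E6b.dv_apply, E6b.dv_apply, β.ord_plc]
  · rw [β.O2_dv_zero _ hP, E6b.dv_apply, β.ord_eq_zero hP]
theorem deg_dv (D : DO o Ω) : deg (β.dv D) = deg D :=
  O2_deg_map β.plc D
theorem dv_le_iff {D E : DO o Ω} : β.dv D ≤ β.dv E ↔ D ≤ E := by
  constructor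
  · intro h P
    rw [← β.dv_apply D, ← β.dv_apply E]
    exact h _
  · intro h P
    by_cases hP : P ∈ Set.range β.plc
    · obtain ⟨Q, rfl⟩ := hP
      rw [β.dv_apply, β.dv_apply]
      exact h Q
    · rw [β.O2_dv_zero _ hP, β.O2_dv_zero _ hP]
theorem dv_dz {ι : Type} [Fintype ι] (z : ι → Pt o Ω) : β.dv (dz z) = dz fun a => β.pt (z a) := by
  rw [dz, dz, map_sum]
  exact Finset.sum_congr rfl fun a _ => by rw [β.dv_pd, β.plc_plc]
theorem map_mem_LL {D : DO o Ω} {f : FO o Ω} : β.φ f ∈ LL (β.dv D) ↔ f ∈ LL D := by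
  by_cases hf : f = 0
  · rw [hf, map_zero]
    exact iff_of_true (zero_mem _) (zero_mem _)
  · rw [mem_LL_iff hf, mem_LL_iff ((map_ne_zero β.φ).2 hf), ← β.dv_dv, ← map_add,
      ← β.dv_le_iff, map_zero]
theorem O2_span_le (D : DO o Ω) :
    Submodule.span Ω' (β.φ '' (LL D : Set (FO o Ω))) ≤ LL (β.dv D) :=
  Submodule.span_le.2 fun _ ⟨_, hf, h⟩ => h ▸ β.map_mem_LL.2 hf
theorem O2_le_span (D : DO o Ω) :
    ell D ≤ Module.finrank Ω' (Submodule.span Ω' (β.φ '' (LL D : Set (FO o Ω)))) := by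
  have := Submodule.finiteDimensional_of_le (β.O2_span_le D)
  have h1 := β.O2_indep_phi ((Module.finBasis Ω (LL D)).linearIndependent.map' (LL D).subtype
    (Submodule.ker_subtype _))
  have h2 : LinearIndependent Ω' fun i =>
      (⟨β.φ (Module.finBasis Ω (LL D) i), Submodule.subset_span ⟨_, Subtype.property _, rfl⟩⟩ :
        Submodule.span Ω' (β.φ '' (LL D : Set (FO o Ω)))) :=
    LinearIndependent.of_comp (Submodule.subtype _) h1
  have h3 := h2.fintype_card_le_finrank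
  rwa [Fintype.card_fin] at h3
theorem O2_ell_le (D : DO o Ω) : ell (β.dv D) ≤ ell D := by
  have h : ∀ (n : ℕ) (D : DO o Ω), 2 * (genus κ F : ℤ) - 1 ≤ deg D + n → ell (β.dv D) ≤ ell D := by
    intro n
    induction n with
    | zero =>
      intro D hD
      have h1 := rr_large (D := D) (by rw [genus_FO]; simpa using hD)
      have h2 := rr_large (D := β.dv D) (by rw [genus_FO, β.deg_dv]; simpa using hD)
      rw [genus_FO] at h1 h2
      rw [β.deg_dv] at h2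
      omega
    | succ n ih =>
      intro D hD
      have h1 := ih (D + pd (oo o Ω)) (by rw [deg_add, deg_pd]; push_cast at hD; linarith)
      have h2 := ell_add_pd_le D (oo o Ω)
      have h3 : ell (β.dv D) ≤ ell (β.dv (D + pd (oo o Ω))) :=
        ell_mono (β.dv_le_iff.2 (le_add_of_nonneg_right (Finsupp.single_nonneg.2 zero_le_one)))
      by_cases h4 : ell D < ell (D + pd (oo o Ω))
      · have h5 := (ell_sub_pd_lt_iff (D + pd (oo o Ω)) (oo o Ω)).1
          (by rwa [add_sub_cancel_right])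
        obtain ⟨f, hf, hf0, hf1⟩ := h5
        have h6 := (ell_sub_pd_lt_iff (β.dv (D + pd (oo o Ω))) (β.plc (oo o Ω))).2
          ⟨β.φ f, β.map_mem_LL.2 hf, (map_ne_zero β.φ).2 hf0, by rw [β.ord_plc, β.dv_apply, hf1]⟩
        rw [← β.dv_pd, ← map_sub, add_sub_cancel_right] at h6
        omega
      · omega
  exact h (2 * (genus κ F : ℤ) - 1 - deg D).toNat D (by omega)
theorem LL_dv (D : DO o Ω) : LL (β.dv D) = Submodule.span Ω' (β.φ '' (LL D : Set (FO o Ω))) :=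
  (Submodule.eq_of_le_of_finrank_le (β.O2_span_le D)
    ((β.O2_ell_le D).trans (β.O2_le_span D))).symm
theorem ell_dv (D : DO o Ω) : ell (β.dv D) = ell D :=
  le_antisymm (β.O2_ell_le D)
    ((β.O2_le_span D).trans (Submodule.finrank_mono (β.O2_span_le D)))
theorem linEq_dv_iff {D E : DO o Ω} : LinEq (β.dv D) (β.dv E) ↔ LinEq D E := by
  constructor
  · intro h
    have h1 := h.deg
    rw [β.deg_dv, β.deg_dv] at h1
    have h2 := (h.sub (LinEq.refl (β.dv E))).ell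
    rw [sub_self, ell_zero, ← map_sub, β.ell_dv] at h2
    have h3 := linEq_zero_of_ell_pos (D := D - E) (by rw [deg_sub, h1, sub_self]) (by omega)
    simpa using h3.add (LinEq.refl E)
  · rintro ⟨f, hf, rfl⟩
    exact ⟨β.φ f, (map_ne_zero β.φ).2 hf, by rw [map_add, β.dv_dv]⟩

theorem prin_le : prin o Ω ≤ (prin o Ω').comap β.dv := by
  rintro D ⟨k, hk⟩
  exact ⟨k, by rw [← β.plc_oo, ← β.dv_pd, ← map_zsmul]; exact β.linEq_dv_iff.2 hk⟩

/-- image of a class -/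
noncomputable def cl : Cl o Ω →+ Cl o Ω' := QuotientAddGroup.map _ _ β.dv β.prin_le

theorem cl_clD (D : DO o Ω) : β.cl (clD o Ω D) = clD o Ω' (β.dv D) :=
  rfl
theorem cl_cl (y : Pt o Ω) : β.cl (E6b.cl y) = E6b.cl (β.pt y) := by
  rw [E6b.cl, E6b.cl, β.cl_clD, β.dv_pd, β.plc_plc]
theorem cl_clz {ι : Type} [Fintype ι] (z : ι → Pt o Ω) : β.cl (clz z) = clz fun a => β.pt (z a) := by
  rw [clz, clz, β.cl_clD, β.dv_dz]
theorem cl_injective : Function.Injective β.cl := by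
  rw [injective_iff_map_eq_zero]
  intro w hw
  obtain ⟨D, rfl⟩ := QuotientAddGroup.mk'_surjective (prin o Ω) w
  obtain ⟨k, hk⟩ := (QuotientAddGroup.eq_zero_iff (β.dv D)).1 hw
  rw [← β.plc_oo, ← β.dv_pd, ← map_zsmul] at hk
  exact (QuotientAddGroup.eq_zero_iff D).2 ⟨k, β.linEq_dv_iff.1 hk⟩
theorem ellC_cl (m : ℤ) (w : Cl o Ω) : ellC m (β.cl w) = ellC m w := by
  obtain ⟨D, rfl⟩ := QuotientAddGroup.mk'_surjective (prin o Ω) w
  show ellC m (clD o Ω' (β.dv D)) = ellC m (clD o Ω D)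
  rw [O2_ellC (D := D) rfl, O2_ellC (D := β.dv D) rfl, β.deg_dv, ← β.plc_oo, ← β.dv_pd,
    ← map_zsmul, ← map_add, β.ell_dv]
theorem th_cl (w : Cl o Ω) : Th (β.cl w) ↔ Th w := by
  rw [Th, Th, ← map_neg, β.ellC_cl]

theorem comp_plc (β' : BC o Ω' Ω'') (P : PO o Ω) : (β'.comp β).plc P = β'.plc (β.plc P) :=
  (β'.comp β).O2_unique ((β'.comp β).ord_plc P) fun f =>
    (β'.ord_plc _ (β.φ f)).trans (β.ord_plc P f)
theorem comp_pt (β' : BC o Ω' Ω'') (y : Pt o Ω) : (β'.comp β).pt y = β'.pt (β.pt y) :=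
  E6b.plc_injective (by rw [← plc_plc, ← plc_plc, ← plc_plc, comp_plc])
theorem comp_cl (β' : BC o Ω' Ω'') (w : Cl o Ω) : (β'.comp β).cl w = β'.cl (β.cl w) := by
  obtain ⟨D, rfl⟩ := QuotientAddGroup.mk'_surjective (prin o Ω) w
  have h : (β'.comp β).dv D = β'.dv (β.dv D) := by
    show D.mapDomain (β'.comp β).plc = (D.mapDomain β.plc).mapDomain β'.plc
    rw [← Finsupp.mapDomain_comp]
    exact congrArg (fun g => D.mapDomain g) (funext (β.comp_plc β'))
  exact congrArg (clD o Ω'') h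
theorem refl_plc (P : PO o Ω) : (BC.refl o Ω).plc P = P :=
  (BC.refl o Ω).O2_unique ((BC.refl o Ω).ord_plc P) fun _ => rfl
theorem refl_pt (y : Pt o Ω) : (BC.refl o Ω).pt y = y :=
  E6b.plc_injective (by rw [← plc_plc, refl_plc])
theorem refl_cl (w : Cl o Ω) : (BC.refl o Ω).cl w = w := by
  obtain ⟨D, rfl⟩ := QuotientAddGroup.mk'_surjective (prin o Ω) w
  have h : (BC.refl o Ω).dv D = D := by
    show D.mapDomain (BC.refl o Ω).plc = D
    rw [show (BC.refl o Ω).plc = id from funext refl_plc, Finsupp.mapDomain_id]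
  exact congrArg (clD o Ω) h

end BC

theorem bc_pt (τ : Ω →ₐ[κ] Ω') (y : Pt o Ω) : (bc o τ).pt y = τ.comp y :=
  pt_ext o (funext fun i => by
    rw [cd, cd, BC.pt_eb, bc_τ]
    rfl)

theorem bc_iF (τ : Ω →ₐ[κ] Ω') (a : AA o) : (bc o τ).φ (iF o Ω a) = iF o Ω' a :=
  (bc o τ).O2_phi_iF fun k => by
    rw [bc_τ]
    exact τ.commutes _

theorem O2_jF_div (a s : AA o) :
    jF o Ω (algebraMap (AA o) F a / algebraMap (AA o) F s) = iF o Ω a / iF o Ω s := by
  obtain ⟨ψ, hψ⟩ := exists_jF_hom (o := o) (Ω := Ω)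
  rw [← hψ, map_div₀, hψ, hψ]
  exact congrArg₂ _ (jF_coe a) (jF_coe s)

theorem bc_jF (τ : Ω →ₐ[κ] Ω') (f : F) : (bc o τ).φ (jF o Ω f) = jF o Ω' f := by
  obtain ⟨a, s, -, rfl⟩ := IsFractionRing.div_surjective (AA o) f
  rw [O2_jF_div, O2_jF_div, map_div₀, bc_iF, bc_iF]

theorem bc_comp (τ : Ω →ₐ[κ] Ω') (τ' : Ω' →ₐ[κ] Ω'') :
    bc o (τ'.comp τ) = (bc o τ').comp (bc o τ) :=
  BC.ext_τ (by
    show _ = (bc o τ').τ.comp (bc o τ).τ
    rw [bc_τ, bc_τ, bc_τ]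
    rfl)

/-- a semilinear automorphism of `F` fixing the basis is a base change -/
theorem exists_bc_of_fhom (φ : FHom κ F F) (h : ∀ i, φ.f (eb o i) = eb o i) :
    ∃ β : BC o κ κ, (∀ x, β.τ x = φ.c x) ∧ (∀ f, β.φ ((jK o).f f) = (jK o).f (φ.f f)) ∧
      ∀ P : PO o κ, φ.res ((jK o).res (β.plc P)) = (jK o).res P := by
  obtain ⟨β, hβ⟩ := O2_exists_bc (o := o) (Ω := κ) (Ω' := κ) (φ.c : κ →+* κ) fun i j k => by
    obtain ⟨a', h1, h2⟩ := O2_fhom φ h (eb o i * eb o j)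
    have h3 : a' = eb o i * eb o j := Subtype.ext (by
      rw [h1, Subalgebra.coe_mul, map_mul, h, h])
    rw [h3] at h2
    exact h2 k
  have h1 : ∀ a : AA o, β.φ ((jK o).f a) = (jK o).f (φ.f a) := fun a => by
    obtain ⟨a', h1, h2⟩ := O2_fhom φ h a
    rw [← h1, jK_f, jK_f, jF_coe, jF_coe]
    exact β.O2_phi_iF fun k => by rw [hβ]; exact h2 k
  have h2 : ∀ f, β.φ ((jK o).f f) = (jK o).f (φ.f f) := fun f => by
    obtain ⟨a, s, -, rfl⟩ := IsFractionRing.div_surjective (AA o) f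
    rw [map_div₀, map_div₀, map_div₀, map_div₀]
    exact congrArg₂ _ (h1 a) (h1 s)
  refine ⟨β, fun x => by rw [hβ]; rfl, h2, fun P => Place.ext (ValuationSubring.ext _ _ fun f => ?_)⟩
  rw [← φ.map_mem_iff, ← (jK o).map_mem_iff, ← (jK o).map_mem_iff, ← h2, Place.mem_iff,
    Place.mem_iff, β.ord_plc]

end Pool.Agent.E6b
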