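import Pool.Agent.E6b.O1

open scoped NNReal TensorProduct IntermediateField BigOperators Classical Topology
open Filter

namespace Pool.Agent.E6b

variable {κ F : Type} [Field κ] [IsAlgClosed κ] [CharZero κ] [Field F] [Algebra κ F] [IsFF κ F]
  {o : Place κ F} {Ω Ω' : Type} [Field Ω] [Algebra κ Ω] [Field Ω'] [Algebra κ Ω']

/-- the coordinates are mapped by `τ` -/
noncomputable def O2_map (o : Place κ F) (τ : Ω →+* Ω') : AO o Ω →+ AO o Ω' :=
  ((ebO o Ω').repr.symm.toLinearMap.toAddMonoidHom.comp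
    (Finsupp.mapRange.addMonoidHom τ.toAddMonoidHom)).comp
      (ebO o Ω).repr.toLinearMap.toAddMonoidHom

theorem O2_map_repr (τ : Ω →+* Ω') (a : AO o Ω) (i : ℕ) :
    (ebO o Ω').repr (O2_map o τ a) i = τ ((ebO o Ω).repr a i) := by
  simp [O2_map]

theorem O2_ext {a a' : AO o Ω} (h : ∀ i, (ebO o Ω).repr a i = (ebO o Ω).repr a' i) : a = a' :=
  (ebO o Ω).repr.injective (Finsupp.ext h)

theorem O2_map_smul (τ : Ω →+* Ω') (c : Ω) (a : AO o Ω) :
    O2_map o τ (c • a) = τ c • O2_map o τ a :=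
  O2_ext fun i => by simp [O2_map_repr]

theorem O2_map_eb (τ : Ω →+* Ω') (i : ℕ) : O2_map o τ (ebO o Ω i) = ebO o Ω' i :=
  O2_ext fun j => by
    rw [O2_map_repr, Module.Basis.repr_self, Module.Basis.repr_self, Finsupp.single_apply,
      Finsupp.single_apply]
    split_ifs <;> simp

theorem O2_map_inj (τ : Ω →+* Ω') : Function.Injective (O2_map o τ) := fun a a' h =>
  O2_ext fun i => τ.injective (by rw [← O2_map_repr, ← O2_map_repr, h])

theorem O2_ind {R M : Type} [CommRing R] [AddCommGroup M] [Module R M] (b : Module.Basis ℕ R M)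
    {Q : M → Prop} (h0 : Q 0) (hadd : ∀ x y, Q x → Q y → Q (x + y))
    (hb : ∀ (c : R) i, Q (c • b i)) (a : M) : Q a := by
  rw [← b.linearCombination_repr a]
  induction b.repr a using Finsupp.induction_linear with
  | zero => simpa using h0
  | add f g hf hg => rw [map_add]; exact hadd _ _ hf hg
  | single i c => rw [Finsupp.linearCombination_single]; exact hb c i

theorem O2_ebO (i : ℕ) : ebO o Ω i = 1 ⊗ₜ[κ] eb o i := Algebra.TensorProduct.basis_apply _ _

theorem O2_repr_one_tmul (a : AA o) (k : ℕ) :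
    (ebO o Ω).repr (1 ⊗ₜ[κ] a) k = algebraMap κ Ω ((eb o).repr a k) := by
  rw [ebO, Algebra.TensorProduct.basis_repr_tmul, one_smul, Finsupp.mapRange_apply]

theorem O2_ebO_zero : ebO o Ω 0 = 1 := by
  rw [O2_ebO, (ebSpec o).zero, Algebra.TensorProduct.one_def]

theorem O2_ebO_mul (i j : ℕ) : ebO o Ω i * ebO o Ω j = 1 ⊗ₜ[κ] (eb o i * eb o j) := by
  rw [O2_ebO, O2_ebO, Algebra.TensorProduct.tmul_mul_tmul, one_mul]

theorem O2_map_one (τ : Ω →+* Ω') : O2_map o τ 1 = 1 := by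
  rw [← O2_ebO_zero, O2_map_eb, O2_ebO_zero]

theorem O2_map_tmul (τ : Ω →+* Ω') {a a' : AA o}
    (h : ∀ k, τ (algebraMap κ Ω ((eb o).repr a k)) = algebraMap κ Ω' ((eb o).repr a' k)) :
    O2_map o τ (1 ⊗ₜ[κ] a) = 1 ⊗ₜ[κ] a' :=
  O2_ext fun k => by rw [O2_map_repr, O2_repr_one_tmul, O2_repr_one_tmul, h]

/-- an additive semilinear map which is multiplicative on the basis is multiplicative -/
theorem O2_mul_of_basis {B : Type} [CommRing B] (X : AO o Ω →+ B) (t : Ω → B)
    (ht : ∀ c c', t (c * c') = t c * t c') (hX : ∀ c a, X (c • a) = t c * X a)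
    (h : ∀ i j, X (ebO o Ω i * ebO o Ω j) = X (ebO o Ω i) * X (ebO o Ω j)) (a a' : AO o Ω) :
    X (a * a') = X a * X a' := by
  refine O2_ind (ebO o Ω) (Q := fun a => X (a * a') = X a * X a') (by simp)
    (fun x y hx hy => by simp only [add_mul, map_add, hx, hy]) (fun c i => ?_) a
  refine O2_ind (ebO o Ω) (Q := fun a' => X (c • ebO o Ω i * a') = X (c • ebO o Ω i) * X a')
    (by simp) (fun x y hx hy => by simp only [mul_add, map_add, hx, hy]) (fun c' j => ?_) a'
  show X (c • ebO o Ω i * c' • ebO o Ω j) = X (c • ebO o Ω i) * X (c' • ebO o Ω j)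
  rw [smul_mul_smul_comm, hX, hX, hX, h, ht]
  ring

omit [IsAlgClosed κ] [CharZero κ] [IsFF κ F] in
theorem O2_smul_def (c : Ω) (a : AO o Ω) : c • a = algebraMap Ω (AO o Ω) c * a :=
  Algebra.smul_def c a

theorem O2_map_mul (τ : Ω →+* Ω')
    (h : ∀ i j k, τ (algebraMap κ Ω ((eb o).repr (eb o i * eb o j) k)) =
      algebraMap κ Ω' ((eb o).repr (eb o i * eb o j) k)) (a a' : AO o Ω) :
    O2_map o τ (a * a') = O2_map o τ a * O2_map o τ a' := by
  refine O2_mul_of_basis (O2_map o τ) (fun c => algebraMap Ω' _ (τ c)) (fun c c' => by simp)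
    (fun c a => by rw [O2_map_smul, O2_smul_def]) (fun i j => ?_) a a'
  rw [O2_map_eb, O2_map_eb, O2_ebO_mul, O2_ebO_mul, O2_map_tmul τ (h i j)]

omit [IsAlgClosed κ] [CharZero κ] [IsFF κ F] in
theorem O2_alg_inj : Function.Injective (algebraMap (AO o Ω) (FO o Ω)) :=
  IsFractionRing.injective _ _

omit [IsAlgClosed κ] [CharZero κ] [IsFF κ F] in
theorem O2_alg_smul (c : Ω) (a : AO o Ω) :
    algebraMap _ (FO o Ω) (c • a) = algebraMap Ω (FO o Ω) c * algebraMap _ (FO o Ω) a := by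
  rw [O2_smul_def, map_mul, ← IsScalarTower.algebraMap_apply]

omit [IsAlgClosed κ] [CharZero κ] [IsFF κ F] in
theorem O2_iF (a : AA o) : iF o Ω a = algebraMap (AO o Ω) (FO o Ω) (1 ⊗ₜ[κ] a) := rfl

theorem O2_exists_bc (τ : Ω →+* Ω')
    (h : ∀ i j k, τ (algebraMap κ Ω ((eb o).repr (eb o i * eb o j) k)) =
      algebraMap κ Ω' ((eb o).repr (eb o i * eb o j) k)) : ∃ β : BC o Ω Ω', β.τ = τ := by
  let Φ : AO o Ω →+* AO o Ω' :=
    { O2_map o τ with map_one' := O2_map_one τ, map_mul' := O2_map_mul τ h }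
  have hΦ : ∀ a, Φ a = O2_map o τ a := fun _ => rfl
  have hinj : Function.Injective ((algebraMap (AO o Ω') (FO o Ω')).comp Φ) :=
    O2_alg_inj.comp (O2_map_inj τ)
  refine ⟨⟨τ, IsFractionRing.lift hinj, fun c => ?_, fun i => ?_⟩, rfl⟩
  · rw [IsScalarTower.algebraMap_apply Ω (AO o Ω) (FO o Ω), IsFractionRing.lift_algebraMap,
      RingHom.comp_apply, hΦ, Algebra.algebraMap_eq_smul_one c, O2_map_smul, O2_map_one,
      O2_alg_smul, map_one, mul_one]
  · rw [O2_iF, O2_iF, IsFractionRing.lift_algebraMap, RingHom.comp_apply, hΦ, ← O2_ebO, ← O2_ebO,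
      O2_map_eb]

theorem O2_table_finset (o : Place κ F) : ∃ S : Finset κ, ∀ K : Subring κ, (∀ c ∈ S, c ∈ K) →
    ∀ i j k, (eb o).repr (eb o i * eb o j) k ∈ K := by
  refine ⟨(Finset.range (MM o) ×ˢ Finset.range (MM o)).biUnion fun p =>
    ((eb o).repr (eb o p.1 * eb o p.2)).support.image ((eb o).repr (eb o p.1 * eb o p.2)),
    fun K hK => ?_⟩
  have h1 : ∀ i < MM o, ∀ j < MM o, ∀ k, (eb o).repr (eb o i * eb o j) k ∈ K := by
    intro i hi j hj k
    by_cases h0 : (eb o).repr (eb o i * eb o j) k = 0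
    · rw [h0]; exact K.zero_mem
    · refine hK _ (Finset.mem_biUnion.2 ⟨(i, j), ?_, ?_⟩)
      · simp [hi, hj]
      · exact Finset.mem_image_of_mem _ (Finsupp.mem_support_iff.2 h0)
  have h2 : ∀ l k, (eb o).repr (eb o l * wN o) k ∈ K := by
    intro l k
    by_cases hl : l < MM o
    · exact h1 l hl _ (by unfold MM; omega) k
    · rw [wN, ← (ebSpec o).per l (by unfold MM at hl; omega), Module.Basis.repr_self,
        Finsupp.single_apply]
      split_ifs
      · exact K.one_mem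
      · exact K.zero_mem
  have h3 : ∀ a : AA o, (∀ k, (eb o).repr a k ∈ K) → ∀ k, (eb o).repr (a * wN o) k ∈ K := by
    intro a ha k
    rw [← (eb o).linearCombination_repr a, Finsupp.linearCombination_apply, Finsupp.sum,
      Finset.sum_mul, map_sum, Finsupp.finsetSum_apply]
    refine K.sum_mem fun l _ => ?_
    rw [smul_mul_assoc, map_smul, Finsupp.smul_apply, smul_eq_mul]
    exact K.mul_mem (ha l) (h2 l k)
  have h4 : ∀ a : AA o, (∀ i < MM o, ∀ k, (eb o).repr (a * eb o i) k ∈ K) →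
      ∀ i k, (eb o).repr (a * eb o i) k ∈ K := by
    intro a ha i
    induction i using Nat.strong_induction_on with
    | _ i ih =>
      by_cases hi : i < MM o
      · exact ha i hi
      · obtain ⟨l, rfl⟩ : ∃ l, i = l + (2 * genus κ F + 1) :=
          ⟨i - (2 * genus κ F + 1), by unfold MM at hi; omega⟩
        rw [(ebSpec o).per l (by unfold MM at hi; omega), ← mul_assoc]
        exact h3 _ (ih l (by omega))
  intro i
  refine h4 _ fun j hj => ?_
  rw [mul_comm]
  exact h4 _ (fun i hi => h1 j hj i hi) i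

theorem O2_pt_of_lin (X : AO o Ω →ₗ[Ω] Ω) (h1 : X 1 = 1) (hmul : ∀ a b, X (a * b) = X a * X b) :
    ∃ y : Pt o Ω, ∀ a, evA y a = X a := by
  let Y : AO o Ω →ₐ[Ω] Ω := AlgHom.ofLinearMap X h1 hmul
  refine ⟨(Y.restrictScalars κ).comp Algebra.TensorProduct.includeRight, fun a => ?_⟩
  have h : (evA ((Y.restrictScalars κ).comp Algebra.TensorProduct.includeRight)).toLinearMap = X := by
    refine (ebO o Ω).ext fun i => ?_
    rw [O2_ebO, AlgHom.toLinearMap_apply, evA, Algebra.TensorProduct.lift_tmul, map_one, one_mul]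
    rfl
  exact LinearMap.congr_fun h a

theorem O2_evA_ebO (y : Pt o Ω) (i : ℕ) : evA y (ebO o Ω i) = y (eb o i) := by
  rw [O2_ebO, evA, Algebra.TensorProduct.lift_tmul, map_one, one_mul]

theorem O2_indep (τ : Ω →+* Ω') {ι : Type} [Fintype ι] {a : ι → AO o Ω}
    (h : LinearIndependent Ω a) : LinearIndependent Ω' fun i => O2_map o τ (a i) := by
  rw [Fintype.linearIndependent_iff] at h ⊢
  intro c hc i
  let _ : Algebra Ω Ω' := τ.toAlgebra
  rw [← Module.forall_dual_apply_eq_zero_iff Ω]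
  intro l
  refine h (fun i => l (c i)) (O2_ext fun k => ?_) i
  have h1 := congrArg (fun x => l ((ebO o Ω').repr x k)) hc
  simp only [map_sum, map_smul, Finsupp.finsetSum_apply, Finsupp.smul_apply, O2_map_repr,
    map_zero, Finsupp.zero_apply] at h1 ⊢
  rw [← h1]
  refine Finset.sum_congr rfl fun j _ => ?_
  rw [smul_eq_mul, smul_eq_mul, mul_comm (c j), mul_comm, ← smul_eq_mul, ← map_smul]
  rfl

namespace BC

variable (β : BC o Ω Ω')

theorem O2_phi (a : AO o Ω) :
    β.φ (algebraMap _ (FO o Ω) a) = algebraMap _ (FO o Ω') (O2_map o β.τ a) := by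
  refine O2_ind (ebO o Ω)
    (Q := fun a => β.φ (algebraMap _ (FO o Ω) a) = algebraMap _ (FO o Ω') (O2_map o β.τ a))
    (by simp) (fun x y hx hy => by simp only [map_add, hx, hy]) (fun c i => ?_) a
  show β.φ (algebraMap _ (FO o Ω) (c • ebO o Ω i)) =
    algebraMap _ (FO o Ω') (O2_map o β.τ (c • ebO o Ω i))
  rw [O2_map_smul, O2_map_eb, O2_alg_smul, O2_alg_smul, map_mul, β.map_c, O2_ebO, O2_ebO, ← O2_iF,
    ← O2_iF, β.map_eb]

theorem O2_mul (a a' : AO o Ω) : O2_map o β.τ (a * a') = O2_map o β.τ a * O2_map o β.τ a' :=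
  O2_alg_inj (by
    rw [map_mul (algebraMap _ (FO o Ω')), ← β.O2_phi, ← β.O2_phi, ← β.O2_phi, map_mul, map_mul])

theorem O2_phi_iF {a a' : AA o}
    (h : ∀ k, β.τ (algebraMap κ Ω ((eb o).repr a k)) = algebraMap κ Ω' ((eb o).repr a' k)) :
    β.φ (iF o Ω a) = iF o Ω' a' := by
  rw [O2_iF, O2_iF, β.O2_phi, O2_map_tmul β.τ h]

theorem O2_exists_pt (y : Pt o Ω) :
    ∃ y' : Pt o Ω', ∀ a, evA y' (O2_map o β.τ a) = β.τ (evA y a) := by
  let Y : AO o Ω' →ₗ[Ω'] Ω' := (ebO o Ω').constr Ω' fun i => β.τ (y (eb o i))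
  have hY : ∀ i, Y (ebO o Ω' i) = β.τ (y (eb o i)) := fun i => (ebO o Ω').constr_basis _ _ i
  have h1 : ∀ a, Y (O2_map o β.τ a) = β.τ (evA y a) := fun a =>
    O2_ind (ebO o Ω) (Q := fun a => Y (O2_map o β.τ a) = β.τ (evA y a)) (by simp)
      (fun x y hx hy => by simp only [map_add, hx, hy])
      (fun c i => by
        show Y (O2_map o β.τ (c • ebO o Ω i)) = β.τ (evA y (c • ebO o Ω i))
        rw [O2_map_smul, O2_map_eb, map_smul, map_smul, hY, O2_evA_ebO, smul_eq_mul, smul_eq_mul,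
          map_mul]) a
  obtain ⟨y', hy'⟩ := O2_pt_of_lin Y (by rw [← O2_map_one β.τ, h1, map_one, map_one])
    (O2_mul_of_basis Y.toAddMonoidHom id (fun _ _ => rfl) (fun c a => Y.map_smul c a) fun i j => by
      show Y _ = Y _ * Y _
      rw [← O2_map_eb β.τ, ← O2_map_eb β.τ, ← β.O2_mul, h1, h1, h1, map_mul, map_mul])
  exact ⟨y', fun a => by rw [hy', h1]⟩

theorem O2_exists_pt' (y' : Pt o Ω') (h : ∀ i : Fin (MM o), y' (eb o i) ∈ β.τ.range) :
    ∃ y : Pt o Ω, ∀ i, β.τ (y (eb o i)) = y' (eb o i) := by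
  have h0 : ∀ i, y' (eb o i) ∈ β.τ.range := by
    intro i
    induction i using Nat.strong_induction_on with
    | _ i ih =>
      by_cases hi : i < MM o
      · exact h ⟨i, hi⟩
      · obtain ⟨l, rfl⟩ : ∃ l, i = l + (2 * genus κ F + 1) :=
          ⟨i - (2 * genus κ F + 1), by unfold MM at hi; omega⟩
        rw [(ebSpec o).per l (by unfold MM at hi; omega), map_mul]
        exact mul_mem (ih l (by omega)) (h ⟨genus κ F + 1, by unfold MM; omega⟩)
  choose x hx using h0
  let X : AO o Ω →ₗ[Ω] Ω := (ebO o Ω).constr Ω x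
  have hX : ∀ i, X (ebO o Ω i) = x i := fun i => (ebO o Ω).constr_basis _ _ i
  have h1 : ∀ a, β.τ (X a) = evA y' (O2_map o β.τ a) := fun a =>
    O2_ind (ebO o Ω) (Q := fun a => β.τ (X a) = evA y' (O2_map o β.τ a)) (by simp)
      (fun x y hx hy => by simp only [map_add, hx, hy])
      (fun c i => by
        show β.τ (X (c • ebO o Ω i)) = evA y' (O2_map o β.τ (c • ebO o Ω i))
        rw [O2_map_smul, O2_map_eb, map_smul X, map_smul (evA y'), hX, O2_evA_ebO, smul_eq_mul,
          smul_eq_mul, map_mul, hx]) a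
  obtain ⟨y, hy⟩ := O2_pt_of_lin X
    (β.τ.injective (by rw [h1, O2_map_one, map_one, map_one]))
    fun a b => β.τ.injective (by rw [map_mul β.τ, h1, h1, h1, β.O2_mul, map_mul])
  exact ⟨y, fun i => by rw [← O2_evA_ebO, hy, hX, hx]⟩

theorem O2_indep_phi {ι : Type} [Fintype ι] {f : ι → FO o Ω} (h : LinearIndependent Ω f) :
    LinearIndependent Ω' fun i => β.φ (f i) := by
  obtain ⟨s, hs⟩ := IsLocalization.exist_integer_multiples_of_finite
    (nonZeroDivisors (AO o Ω)) f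
  choose a ha using hs
  have hs0 : algebraMap _ (FO o Ω) (s : AO o Ω) ≠ 0 :=
    (map_ne_zero_iff _ O2_alg_inj).2 (nonZeroDivisors.ne_zero s.2)
  have h1 : LinearIndependent Ω a := by
    rw [Fintype.linearIndependent_iff] at h ⊢
    intro c hc
    refine h c (mul_left_cancel₀ hs0 ?_)
    have h2 := congrArg (algebraMap _ (FO o Ω)) hc
    rw [map_sum, map_zero] at h2
    rw [mul_zero, Finset.mul_sum, ← h2]
    refine Finset.sum_congr rfl fun i _ => ?_
    rw [O2_alg_smul, ha, Algebra.smul_def, Algebra.smul_def, mul_left_comm]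
  have h3 := O2_indep β.τ h1
  rw [Fintype.linearIndependent_iff] at h3 ⊢
  intro c hc
  refine h3 c (O2_alg_inj ?_)
  have h2 := congrArg (β.φ (algebraMap _ (FO o Ω) (s : AO o Ω)) * ·) hc
  simp only [mul_zero, Finset.mul_sum] at h2
  rw [map_zero, map_sum, ← h2]
  refine Finset.sum_congr rfl fun i _ => ?_
  rw [O2_alg_smul, ← β.O2_phi, ha, Algebra.smul_def, Algebra.smul_def, map_mul, mul_left_comm]

end BC

end Pool.Agent.E6b
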