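import Pool.Agent.E6b.O2Aux1

open scoped NNReal TensorProduct IntermediateField BigOperators Classical Topology
open Filter

namespace Pool.Agent.E6b

theorem O2_ev_notMem {κ F : Type} [Field κ] [Field F] [Algebra κ F] (P : Place κ F) {f : F}
    (hf : f ∉ P.O) : P.ev f = 0 := by
  rw [Place.ev, dif_neg]
  rintro ⟨c, hc⟩
  have h1 : f - algebraMap κ F c ∈ P.O := (P.O.valuation_le_one_iff _).1 hc.le
  exact hf (by simpa using P.O.add_mem _ _ h1 (P.const c))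

theorem O2_deg_map {α γ : Type} (g : α → γ) (D : α →₀ ℤ) :
    ((D.mapDomain g).sum fun _ n => n) = D.sum fun _ n => n :=
  Finsupp.sum_mapDomain_index (fun _ => rfl) fun _ _ _ => rfl

variable {κ F : Type} [Field κ] [IsAlgClosed κ] [CharZero κ] [Field F] [Algebra κ F] [IsFF κ F]
  {o : Place κ F} {Ω Ω' : Type} [Field Ω] [IsAlgClosed Ω] [CharZero Ω] [Algebra κ Ω]
  [Field Ω'] [IsAlgClosed Ω'] [CharZero Ω'] [Algebra κ Ω']

theorem O2_place_eq {P Q : Place κ F} (h : ∀ f, P.ord f = Q.ord f) : P = Q :=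
  Place.eq_of_le fun f hf => Q.mem_iff.2 (h f ▸ P.mem_iff.1 hf)

namespace BC

variable (β : BC o Ω Ω')

theorem O2_ev {P : PO o Ω} {P' : PO o Ω'} (h : ∀ f, P'.ord (β.φ f) = P.ord f) (f : FO o Ω) :
    P'.ev (β.φ f) = β.τ (P.ev f) := by
  by_cases hf : f ∈ P.O
  · refine P'.ev_eq ?_
    rw [← β.map_c, ← map_sub, h]
    exact (P.ev_spec hf).imp (fun h1 => congrArg β.φ h1) id
  · rw [O2_ev_notMem P hf, map_zero, O2_ev_notMem]
    rwa [P'.mem_iff, h, ← P.mem_iff]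

omit [IsAlgClosed Ω] [CharZero Ω] in
theorem O2_frac {P' : PO o Ω'} {v : FO o Ω → ℤ} (h0 : v 0 = 0)
    (hv : ∀ f g, f ≠ 0 → g ≠ 0 → v (f / g) = v f - v g)
    (h : ∀ a : AO o Ω, P'.ord (β.φ (algebraMap _ _ a)) = v (algebraMap _ _ a)) (f : FO o Ω) :
    P'.ord (β.φ f) = v f := by
  by_cases hf : f = 0
  · rw [hf, map_zero, P'.ord_zero, h0]
  obtain ⟨a, s, hs, rfl⟩ := IsFractionRing.div_surjective (AO o Ω) f
  have ha0 := (div_ne_zero_iff.1 hf).1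
  have hs0 := (div_ne_zero_iff.1 hf).2
  rw [map_div₀, P'.ord_div ((map_ne_zero β.φ).2 ha0) ((map_ne_zero β.φ).2 hs0), h, h,
    hv _ _ ha0 hs0]

theorem O2_oo (a : AO o Ω) :
    (oo o Ω').ord (β.φ (algebraMap _ _ a)) = (oo o Ω).ord (algebraMap _ _ a) := by
  by_cases ha : a = 0
  · rw [ha, map_zero, map_zero, Place.ord_zero, Place.ord_zero]
  have h1 : ((ebO o Ω).repr a).support.Nonempty :=
    Finsupp.support_nonempty_iff.2 fun h => ha ((ebO o Ω).repr.map_eq_zero_iff.1 h)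
  have h2 := Finsupp.mem_support_iff.1 (Finset.max'_mem _ h1)
  have h3 : ∀ j, ((ebO o Ω).repr a).support.max' h1 < j → (ebO o Ω).repr a j = 0 := fun j hj =>
    by_contra fun h => absurd (Finset.le_max' _ _ (Finsupp.mem_support_iff.2 h)) (not_le.2 hj)
  rw [β.O2_phi, oo_ord h2 h3, oo_ord (i := ((ebO o Ω).repr a).support.max' h1)]
  · rw [O2_map_repr]; exact (map_ne_zero β.τ).2 h2
  · intro j hj; rw [O2_map_repr, h3 j hj, map_zero]

theorem O2_mem {y : Pt o Ω} {y' : Pt o Ω'} (h : ∀ a, evA y' (O2_map o β.τ a) = β.τ (evA y a))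
    {f : FO o Ω} (hf : f ∈ (E6b.plc y).O) :
    β.φ f ∈ (E6b.plc y').O ∧ (E6b.plc y').ev (β.φ f) = β.τ ((E6b.plc y).ev f) := by
  obtain ⟨a, s, hs, hfs⟩ := exists_div_plc y hf
  have h1 := plc_spec y' (O2_map o β.τ a)
  have h2 := plc_spec y' (O2_map o β.τ s)
  have h3 := plc_spec y a
  have h4 := plc_spec y s
  have hs0 : algebraMap _ (FO o Ω) s ≠ 0 := fun h0 => hs (by rw [← h4.2, h0, F1a_ev_zero])
  have h5 : (E6b.plc y').ev (algebraMap _ (FO o Ω') (O2_map o β.τ s)) ≠ 0 := by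
    rw [h2.2, h]; exact (map_ne_zero β.τ).2 hs
  have h6 := (E6b.plc y').ev_div h1.1 h2.1 h5
  have h7 := (E6b.plc y).ev_div h3.1 h4.1 (by rw [h4.2]; exact hs)
  rw [eq_div_of_mul_eq hs0 hfs, map_div₀, β.O2_phi, β.O2_phi]
  refine ⟨h6.1, ?_⟩
  rw [h6.2, h7.2, h1.2, h2.2, h3.2, h4.2, h, h, map_div₀]

theorem O2_le {y : Pt o Ω} {y' : Pt o Ω'} (h : ∀ a, evA y' (O2_map o β.τ a) = β.τ (evA y a))
    {f : FO o Ω} (hf : f ∈ (E6b.plc y).O) : (E6b.plc y).ord f ≤ (E6b.plc y').ord (β.φ f) := by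
  by_cases hf0 : f = 0
  · rw [hf0, map_zero, Place.ord_zero, Place.ord_zero]
  obtain ⟨π, hπ0, hπ⟩ := (E6b.plc y).exists_ord_eq 1
  have hπm : π ∈ (E6b.plc y).O := (E6b.plc y).mem_iff.2 (by rw [hπ]; norm_num)
  have h1 := β.O2_mem h hπm
  rw [((E6b.plc y).ev_eq_zero_iff hπm).2 (Or.inr (by rw [hπ]; norm_num)), map_zero] at h1
  have h2 := (((E6b.plc y').ev_eq_zero_iff h1.1).1 h1.2).resolve_left ((map_ne_zero β.φ).2 hπ0)
  have hn := (E6b.plc y).mem_iff.1 hf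
  have h3 : f / π ^ (E6b.plc y).ord f ∈ (E6b.plc y).O := by
    rw [Place.mem_iff, Place.ord_div _ hf0 (zpow_ne_zero _ hπ0), Place.ord_zpow, hπ, mul_one,
      sub_self]
  have h4 := (E6b.plc y').mem_iff.1 (β.O2_mem h h3).1
  rw [map_div₀, map_zpow₀, Place.ord_div _ ((map_ne_zero β.φ).2 hf0)
    (zpow_ne_zero _ ((map_ne_zero β.φ).2 hπ0)), Place.ord_zpow] at h4
  nlinarith

theorem O2_exists_g : ∃ g : PO o Ω → PO o Ω', g (oo o Ω) = oo o Ω' ∧
    (∀ y, ∃ y', g (E6b.plc y) = E6b.plc y' ∧ ∀ i, y' (eb o i) = β.τ (y (eb o i))) ∧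
    (∀ P f, (g P).ord (β.φ f) = P.ord f) ∧ ∀ P' ∉ Set.range g, ∀ f, P'.ord (β.φ f) = 0 := by
  choose Y hY using β.O2_exists_pt
  have hYe : ∀ y i, Y y (eb o i) = β.τ (y (eb o i)) := fun y i => by
    rw [← O2_evA_ebO, ← O2_evA_ebO, ← hY, O2_map_eb]
  obtain ⟨g, hoo, hplc⟩ : ∃ g : PO o Ω → PO o Ω', g (oo o Ω) = oo o Ω' ∧
      ∀ y, g (E6b.plc y) = E6b.plc (Y y) := by
    refine ⟨fun P => if h : ∃ y, E6b.plc y = P then E6b.plc (Y h.choose) else oo o Ω', ?_,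
      fun y => ?_⟩
    · exact dif_neg fun ⟨y, hy⟩ => plc_ne_oo y hy
    · have h : ∃ y', E6b.plc y' = E6b.plc y := ⟨y, rfl⟩
      exact (dif_pos h).trans (by rw [E6b.plc_injective h.choose_spec])
  have hinj : Function.Injective g := by
    intro P Q hPQ
    rcases eq_oo_or_plc P with rfl | ⟨y, rfl⟩ <;> rcases eq_oo_or_plc Q with rfl | ⟨z, rfl⟩
    · rfl
    · rw [hoo, hplc] at hPQ; exact absurd hPQ.symm (plc_ne_oo _)
    · rw [hoo, hplc] at hPQ; exact absurd hPQ (plc_ne_oo _)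
    · rw [hplc, hplc] at hPQ
      have h1 := E6b.plc_injective hPQ
      refine congrArg _ (pt_ext o (funext fun i => β.τ.injective ?_))
      rw [cd, cd, ← hYe, ← hYe, h1]
  have hmain : ∀ a : AO o Ω, (E6b.dv Ω (algebraMap _ (FO o Ω) a)).mapDomain g =
      E6b.dv Ω' (β.φ (algebraMap _ (FO o Ω) a)) := by
    intro a
    refine eq_of_le_of_deg_le (fun P' => ?_) ?_
    · rw [E6b.dv_apply]
      by_cases hP : P' ∈ Set.range g
      · obtain ⟨P, rfl⟩ := hP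
        rw [Finsupp.mapDomain_apply hinj, E6b.dv_apply]
        rcases eq_oo_or_plc P with rfl | ⟨y, rfl⟩
        · rw [hoo, β.O2_oo]
        · rw [hplc]
          exact β.O2_le (hY y) (plc_spec y a).1
      · rw [Finsupp.mapDomain_of_notMem_range _ _ hP, ← Place.mem_iff, β.O2_phi]
        exact mem_range_iff.1 ⟨_, rfl⟩ P' fun h => hP ⟨_, hoo.trans h.symm⟩
    · rw [E6b.deg_dv, deg, O2_deg_map]
      exact (E6b.deg_dv _).ge
  refine ⟨g, hoo, fun y => ⟨Y y, hplc y, hYe y⟩, fun P f => ?_, fun P' hP f => ?_⟩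
  · refine β.O2_frac P.ord_zero (fun f g hf hg => P.ord_div hf hg) (fun a => ?_) f
    rw [← E6b.dv_apply, ← hmain, Finsupp.mapDomain_apply hinj, E6b.dv_apply]
  · refine β.O2_frac (v := fun _ => 0) rfl (fun _ _ _ _ => rfl) (fun a => ?_) f
    rw [← E6b.dv_apply, ← hmain, Finsupp.mapDomain_of_notMem_range _ _ hP]

theorem O2_ord (P : PO o Ω) (f : FO o Ω) :
    (β.plc P).ord (β.φ f) = P.ord f ∧ (β.plc P).ev (β.φ f) = β.τ (P.ev f) := by
  obtain ⟨g, -, -, h1, -⟩ := β.O2_exists_g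
  have h : ∃ P' : PO o Ω', ∀ f, P'.ord (β.φ f) = P.ord f ∧ P'.ev (β.φ f) = β.τ (P.ev f) :=
    ⟨g P, fun f => ⟨h1 P f, β.O2_ev (h1 P) f⟩⟩
  rw [BC.plc, dif_pos h]
  exact h.choose_spec f

theorem O2_unique {P : PO o Ω} {P' P'' : PO o Ω'} (h' : ∀ f, P'.ord (β.φ f) = P.ord f)
    (h'' : ∀ f, P''.ord (β.φ f) = P.ord f) : P' = P'' := by
  obtain ⟨g, -, -, h1, h2⟩ := β.O2_exists_g
  have h : ∀ R : PO o Ω', (∀ f, R.ord (β.φ f) = P.ord f) → R = g P := by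
    intro R hR
    by_cases hr : R ∈ Set.range g
    · obtain ⟨Q, rfl⟩ := hr
      exact congrArg g (O2_place_eq fun f => by rw [← h1, hR])
    · obtain ⟨π, -, hπ⟩ := P.exists_ord_eq 1
      have h3 := h2 R hr π
      rw [hR, hπ] at h3
      exact absurd h3 one_ne_zero
  rw [h P' h', h P'' h'']

theorem O2_spec : β.plc (oo o Ω) = oo o Ω' ∧
    (∀ y, ∃ y', E6b.plc y' = β.plc (E6b.plc y) ∧ ∀ i, y' (eb o i) = β.τ (y (eb o i))) ∧
    ∀ P' ∉ Set.range β.plc, ∀ f, P'.ord (β.φ f) = 0 := by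
  obtain ⟨g, h0, h3, h1, h2⟩ := β.O2_exists_g
  have h : β.plc = g := funext fun P => β.O2_unique (fun f => (β.O2_ord P f).1) (h1 P)
  rw [h]
  exact ⟨h0, fun y => (h3 y).imp fun _ h => ⟨h.1.symm, h.2⟩, h2⟩

end BC

theorem O2_ellC {D : DO o Ω} {w : Cl o Ω} (h : clD o Ω D = w) (m : ℤ) :
    ellC m w = ell (D + (m - deg D) • pd (oo o Ω)) := by
  have h1 : -D + w.out ∈ prin o Ω := QuotientAddGroup.eq.1 (h.trans (Quotient.out_eq w).symm)
  obtain ⟨k, hk⟩ := h1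
  have h2 := hk.deg
  rw [deg_add, deg_neg, deg_zsmul, deg_pd, mul_one] at h2
  have h3 := hk.add (LinEq.refl (D + (m - deg w.out) • pd (oo o Ω)))
  have h4 : -D + w.out + (D + (m - deg w.out) • pd (oo o Ω)) =
      w.out + (m - deg w.out) • pd (oo o Ω) := by abel
  have h5 : k • pd (oo o Ω) + (D + (m - deg w.out) • pd (oo o Ω)) =
      D + (m - deg D) • pd (oo o Ω) := by
    rw [← h2]; module
  rw [h4, h5] at h3
  exact h3.ell

/-- a semilinear endomorphism fixing the basis acts on the coordinates -/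
theorem O2_fhom (φ : FHom κ F F) (h : ∀ i, φ.f (eb o i) = eb o i) (a : AA o) :
    ∃ a' : AA o, (a' : F) = φ.f a ∧ ∀ k, φ.c ((eb o).repr a k) = (eb o).repr a' k := by
  refine O2_ind (eb o)
    (Q := fun a => ∃ a' : AA o, (a' : F) = φ.f a ∧ ∀ k, φ.c ((eb o).repr a k) = (eb o).repr a' k)
    ⟨0, by simp, by simp⟩ ?_ (fun c i => ⟨φ.c c • eb o i, ?_, fun k => ?_⟩) a
  · rintro x y ⟨x', hx, hx'⟩ ⟨y', hy, hy'⟩
    exact ⟨x' + y', by simp [hx, hy], fun k => by simp [hx', hy']⟩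
  · rw [Subalgebra.coe_smul, Subalgebra.coe_smul, Algebra.smul_def, Algebra.smul_def, map_mul,
      φ.comm, h]
  · rw [map_smul, map_smul, Finsupp.smul_apply, Finsupp.smul_apply, Module.Basis.repr_self,
      Finsupp.single_apply]
    split_ifs <;> simp

end Pool.Agent.E6b
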