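import Pool.Agent.E6b.VDefs

open scoped NNReal TensorProduct IntermediateField BigOperators Classical Topology
open Filter

namespace Pool.Agent.E6b

variable (U : Ultrafilter ℕ) {κ L : Type} [Field κ] [Field L] [Algebra κ L]

omit [Field L] in
theorem gm_surj (x : UP U L) : ∃ y : ℕ → L, gm U y = x :=
  Filter.Germ.inductionOn x fun y => ⟨y, rfl⟩

omit [Field L] in
theorem gm_eq_iff (x y : ℕ → L) : gm U x = gm U y ↔ ∀ᶠ n in (U : Filter ℕ), x n = y n :=
  Filter.Germ.coe_eq

omit [Field L] in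
theorem gm_ne_iff (x y : ℕ → L) : gm U x ≠ gm U y ↔ ∀ᶠ n in (U : Filter ℕ), x n ≠ y n := by
  rw [Ne, gm_eq_iff]
  exact Ultrafilter.eventually_not.symm

theorem gm_eq_zero_iff (x : ℕ → L) : gm U x = 0 ↔ ∀ᶠ n in (U : Filter ℕ), x n = 0 :=
  gm_eq_iff U x fun _ => 0

/-- `gm` as a ring homomorphism -/
noncomputable def U1_hom : (ℕ → L) →+* UP U L := Filter.Germ.coeRingHom (U : Filter ℕ)

theorem U1_hom_apply (x : ℕ → L) : U1_hom U x = gm U x := rfl

theorem gm_add (x y : ℕ → L) : gm U (fun n => x n + y n) = gm U x + gm U y := rfl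

theorem gm_sub (x y : ℕ → L) : gm U (fun n => x n - y n) = gm U x - gm U y :=
  map_sub (U1_hom U) x y

theorem gm_mul (x y : ℕ → L) : gm U (fun n => x n * y n) = gm U x * gm U y := rfl

theorem gm_inv (x : ℕ → L) : gm U (fun n => (x n)⁻¹) = (gm U x)⁻¹ := rfl

theorem gm_div (x y : ℕ → L) : gm U (fun n => x n / y n) = gm U x / gm U y := by
  rw [div_eq_mul_inv, ← gm_inv, ← gm_mul]
  simp only [div_eq_mul_inv]

theorem gm_pow (x : ℕ → L) (k : ℕ) : gm U (fun n => x n ^ k) = gm U x ^ k :=
  map_pow (U1_hom U) x k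

theorem gm_sum {ι : Type*} (s : Finset ι) (x : ι → ℕ → L) :
    gm U (fun n => ∑ i ∈ s, x i n) = ∑ i ∈ s, gm U (x i) := by
  have h : (fun n => ∑ i ∈ s, x i n) = ∑ i ∈ s, x i := by
    funext n
    rw [Finset.sum_apply]
  rw [h]
  exact map_sum (U1_hom U) x s

theorem gm_prod {ι : Type*} (s : Finset ι) (x : ι → ℕ → L) :
    gm U (fun n => ∏ i ∈ s, x i n) = ∏ i ∈ s, gm U (x i) := by
  have h : (fun n => ∏ i ∈ s, x i n) = ∏ i ∈ s, x i := by
    funext n
    rw [Finset.prod_apply]
  rw [h]
  exact map_prod (U1_hom U) x s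

theorem gm_const (c : κ) : gm U (fun _ => algebraMap κ L c) = algebraMap κ (UP U L) c := rfl

theorem gm_det {ι : Type} [Fintype ι] [DecidableEq ι] (M : ℕ → Matrix ι ι L) :
    gm U (fun n => (M n).det) = (Matrix.of fun i j => gm U fun n => M n i j).det := by
  have h1 : (fun n => (M n).det) = (Matrix.of fun i j => fun n => M n i j).det := by
    funext n
    exact ((Pi.evalRingHom (fun _ : ℕ => L) n).map_det
      (Matrix.of fun i j => fun n => M n i j)).symm
  rw [h1]
  exact RingHom.map_det (R := ℕ → L) (S := UP U L) (U1_hom U) _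

theorem gm_aeval {σ : Type} (P : MvPolynomial σ κ) (x : σ → ℕ → L) :
    gm U (fun n => MvPolynomial.aeval (fun i => x i n) P) =
      MvPolynomial.aeval (fun i => gm U (x i)) P := by
  induction P using MvPolynomial.induction_on with
  | C a =>
    simp only [MvPolynomial.aeval_C]
    exact gm_const U a
  | add p q hp hq =>
    simp only [map_add]
    rw [gm_add, hp, hq]
  | mul_X p i hp =>
    simp only [map_mul, MvPolynomial.aeval_X]
    rw [gm_mul, hp]

/-- a function with values in a finite set is constant along an ultrafilter -/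
theorem exists_eventually_eq {α : Type*} {s : Set α} (hs : s.Finite) {f : ℕ → α}
    (hf : ∀ᶠ n in (U : Filter ℕ), f n ∈ s) : ∃ a ∈ s, ∀ᶠ n in (U : Filter ℕ), f n = a := by
  refine (Ultrafilter.eventually_exists_mem_iff (P := fun a n => f n = a) hs).1 ?_
  exact hf.mono fun n hn => ⟨f n, hn, rfl⟩

instance instCharZeroUP [CharZero L] : CharZero (UP U L) :=
  charZero_of_injective_algebraMap (algebraMap L (UP U L)).injective

instance instTowerUP : IsScalarTower κ L (UP U L) :=
  ⟨fun a b x => Filter.Germ.inductionOn x fun f =>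
    congrArg (fun g : ℕ → L => (g : Filter.Germ (U : Filter ℕ) L))
      (funext fun n => smul_assoc a b (f n))⟩

/-- the tower for the scalar actions that come from the algebra structures -/
instance U1_towerAlg : @IsScalarTower κ L (UP U L) _ Algebra.toSMul Algebra.toSMul :=
  IsScalarTower.of_algebraMap_eq fun _ => rfl

instance instIsAlgClosedUP [IsAlgClosed L] : IsAlgClosed (UP U L) := by
  refine IsAlgClosed.of_exists_root _ fun p hm hi => ?_
  have hd : 0 < p.natDegree := hi.natDegree_pos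
  choose a ha using fun i => gm_surj U (p.coeff i)
  have hex : ∀ n : ℕ, ∃ x : L, x ^ p.natDegree + ∑ i ∈ Finset.range p.natDegree, a i n * x ^ i = 0 := by
    intro n
    set q : Polynomial L := ∑ i ∈ Finset.range p.natDegree, Polynomial.C (a i n) * Polynomial.X ^ i
      with hq
    have hlt : q.degree < (p.natDegree : WithBot ℕ) := by
      rw [hq]
      refine (Polynomial.degree_sum_le _ _).trans_lt ?_
      refine (Finset.sup_lt_iff (WithBot.bot_lt_coe _)).2 fun i hi' => ?_
      refine (Polynomial.degree_C_mul_X_pow_le _ _).trans_lt ?_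
      exact_mod_cast Finset.mem_range.1 hi'
    have hdeg : (Polynomial.X ^ p.natDegree + q).degree = (p.natDegree : WithBot ℕ) := by
      rw [Polynomial.degree_add_eq_left_of_degree_lt] <;> rw [Polynomial.degree_X_pow]
      exact hlt
    obtain ⟨x, hx⟩ := IsAlgClosed.exists_root (Polynomial.X ^ p.natDegree + q) (by
      rw [hdeg]
      exact_mod_cast hd.ne')
    refine ⟨x, ?_⟩
    have := hx.eq_zero
    simpa [hq, Polynomial.eval_finsetSum] using this
  choose x hx using hex
  refine ⟨gm U x, ?_⟩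
  have h0 : gm U (fun n => x n ^ p.natDegree + ∑ i ∈ Finset.range p.natDegree, a i n * x n ^ i) = 0 :=
    (gm_eq_zero_iff U _).2 (Eventually.of_forall hx)
  rw [gm_add, gm_pow, gm_sum U _ (fun i n => a i n * x n ^ i)] at h0
  rw [Polynomial.eval_eq_sum_range, Finset.sum_range_succ, hm.coeff_natDegree, one_mul, add_comm,
    ← h0]
  congr 1
  refine Finset.sum_congr rfl fun i _ => ?_
  rw [gm_mul, gm_pow, ha]

theorem U1_fin {σ : Type} [Fintype σ] (d : ℕ) :
    {m : σ →₀ ℕ | (m.sum fun _ e => e) ≤ d}.Finite := by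
  have h := Finsupp.finite_of_degree_le (σ := σ) d
  refine h.subset fun m hm => ?_
  exact hm

theorem U1_coeff_zero {σ R : Type} [CommSemiring R] {P : MvPolynomial σ R} {d : ℕ}
    (h : P.totalDegree ≤ d) {m : σ →₀ ℕ} (hm : ¬ (m.sum fun _ e => e) ≤ d) : P.coeff m = 0 := by
  by_contra hne
  exact hm ((MvPolynomial.le_totalDegree (MvPolynomial.mem_support_iff.2 hne)).trans h)

theorem U1_coeff_sum {σ R : Type} [CommSemiring R] (s : Finset (σ →₀ ℕ)) (c : (σ →₀ ℕ) → R)
    (m : σ →₀ ℕ) :
    (∑ k ∈ s, MvPolynomial.monomial k (c k)).coeff m = if m ∈ s then c m else 0 := by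
  rw [MvPolynomial.coeff_sum]
  simp only [MvPolynomial.coeff_monomial]
  exact Finset.sum_ite_eq' s m c

/-- polynomials of bounded degree: ultralimit. -/
theorem exists_poly_gm {σ : Type} [Fintype σ] (P : ℕ → MvPolynomial σ L) (d : ℕ)
    (hd : ∀ᶠ n in (U : Filter ℕ), (P n).totalDegree ≤ d) :
    ∃ Q : MvPolynomial σ (UP U L), Q.totalDegree ≤ d ∧
      ∀ m, Q.coeff m = gm U fun n => (P n).coeff m := by
  refine ⟨∑ k ∈ (U1_fin (σ := σ) d).toFinset,
    MvPolynomial.monomial k (gm U fun n => (P n).coeff k), ?_, fun m => ?_⟩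
  · refine MvPolynomial.totalDegree_finsetSum_le fun k hk => ?_
    have hk' : (k.sum fun _ e => e) ≤ d := (U1_fin (σ := σ) d).mem_toFinset.1 hk
    exact (MvPolynomial.totalDegree_monomial_le _ _).trans hk'
  · rw [U1_coeff_sum]
    split_ifs with hm
    · rfl
    · refine ((gm_eq_zero_iff U _).2 (hd.mono fun n hn => U1_coeff_zero hn ?_)).symm
      exact fun h => hm ((Set.Finite.mem_toFinset _).2 h)

theorem exists_poly_seq {σ : Type} (Q : MvPolynomial σ (UP U L)) :
    ∃ P : ℕ → MvPolynomial σ L, (∀ n, (P n).support ⊆ Q.support) ∧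
      ∀ m, Q.coeff m = gm U fun n => (P n).coeff m := by
  choose a ha using fun m => gm_surj U (Q.coeff m)
  refine ⟨fun n => ∑ k ∈ Q.support, MvPolynomial.monomial k (a k n), fun n m hm => ?_, fun m => ?_⟩
  · by_contra h
    rw [MvPolynomial.mem_support_iff, U1_coeff_sum _ (fun k => a k n), if_neg h] at hm
    exact hm rfl
  · by_cases hm : m ∈ Q.support
    · rw [← ha]
      congr 1
      funext n
      rw [U1_coeff_sum _ (fun k => a k n), if_pos hm]
    · rw [MvPolynomial.notMem_support_iff.1 hm]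
      refine ((gm_eq_zero_iff U _).2 (Eventually.of_forall fun n => ?_)).symm
      rw [U1_coeff_sum _ (fun k => a k n), if_neg hm]

theorem U1_eval_eq {σ R : Type} [CommSemiring R] (s : Finset (σ →₀ ℕ)) (P : MvPolynomial σ R)
    (h : ∀ m, m ∉ s → P.coeff m = 0) (x : σ → R) :
    MvPolynomial.eval x P = ∑ m ∈ s, P.coeff m * ∏ i ∈ m.support, x i ^ m i := by
  rw [MvPolynomial.eval_eq]
  refine Finset.sum_subset (fun m hm => ?_) fun m _ hm => ?_
  · by_contra hs
    exact MvPolynomial.mem_support_iff.1 hm (h m hs)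
  · rw [MvPolynomial.notMem_support_iff.1 hm, zero_mul]

theorem eval_poly_gm {σ : Type} [Fintype σ] {P : ℕ → MvPolynomial σ L} {d : ℕ}
    (hd : ∀ᶠ n in (U : Filter ℕ), (P n).totalDegree ≤ d) {Q : MvPolynomial σ (UP U L)}
    (hQ : ∀ m, Q.coeff m = gm U fun n => (P n).coeff m) (x : σ → ℕ → L) :
    MvPolynomial.eval (fun i => gm U (x i)) Q =
      gm U fun n => MvPolynomial.eval (fun i => x i n) (P n) := by
  set s := (U1_fin (σ := σ) d).toFinset with hs
  have hns : ∀ m, m ∉ s → ¬ (m.sum fun _ e => e) ≤ d := fun m hm h =>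
    hm ((Set.Finite.mem_toFinset _).2 h)
  have h1 : ∀ m, m ∉ s → Q.coeff m = 0 := fun m hm => by
    rw [hQ]
    exact (gm_eq_zero_iff U _).2 (hd.mono fun n hn => U1_coeff_zero hn (hns m hm))
  have h2 : (gm U fun n => MvPolynomial.eval (fun i => x i n) (P n)) =
      gm U fun n => ∑ m ∈ s, (P n).coeff m * ∏ i ∈ m.support, x i n ^ m i :=
    (gm_eq_iff U _ _).2 (hd.mono fun n hn =>
      U1_eval_eq s (P n) (fun m hm => U1_coeff_zero hn (hns m hm)) _)
  rw [h2, U1_eval_eq s Q h1,
    gm_sum U s (fun m n => (P n).coeff m * ∏ i ∈ m.support, x i n ^ m i)]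
  refine Finset.sum_congr rfl fun m _ => ?_
  rw [gm_mul, hQ, gm_prod U m.support (fun i n => x i n ^ m i)]
  congr 1

end Pool.Agent.E6b
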