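import Pool.Agent.E6b.O3
import Pool.Agent.E6b.U1

open scoped NNReal TensorProduct IntermediateField BigOperators Classical Topology
open Filter

namespace Pool.Agent.E6b

variable {κ F : Type} [Field κ] [IsAlgClosed κ] [CharZero κ] [Field F] [Algebra κ F] [IsFF κ F]
  {o : Place κ F} (U : Ultrafilter ℕ) {L : Type} [Field L] [IsAlgClosed L] [CharZero L]
  [Algebra κ L] {ι : Type} [Fintype ι]

/-- ultralimit of points -/
noncomputable def ptU (y : ℕ → Pt o L) : Pt o (UP U L) where
  toFun a := gm U fun n => y n a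
  map_one' := by simp only [map_one]; rfl
  map_mul' a b := by simp only [map_mul]; exact gm_mul U _ _
  map_zero' := by simp only [map_zero]; rfl
  map_add' a b := by simp only [map_add]; exact gm_add U _ _
  commutes' c := by simp only [AlgHom.commutes]; exact gm_const U c

theorem ptU_apply (y : ℕ → Pt o L) (a : AA o) : ptU U y a = gm U fun n => y n a := rfl

theorem ptU_surj (y : Pt o (UP U L)) : ∃ y' : ℕ → Pt o L, ptU U y' = y := by
  choose x hx using fun i : Fin (MM o) => gm_surj U (y (eb o i))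
  obtain ⟨s, hs⟩ := IsNoetherian.noetherian (R := MvPolynomial (Fin (MM o)) κ) (RingHom.ker
    (MvPolynomial.aeval (R := κ) fun i : Fin (MM o) => eb o i))
  have h1 : ∀ᶠ n in (U : Filter ℕ), ∀ Q ∈ s, MvPolynomial.aeval (fun i => x i n) Q = 0 := by
    refine (Filter.eventually_all_finset s).2 fun Q hQ => (gm_eq_zero_iff U _).1 ?_
    have h2 : MvPolynomial.aeval (fun i : Fin (MM o) => eb o i) Q = 0 := by
      rw [← RingHom.mem_ker, ← hs]
      exact Submodule.subset_span hQ
    have h3 := MvPolynomial.comp_aeval_apply (f := fun i : Fin (MM o) => eb o i) y Q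
    rw [gm_aeval, funext hx, ← h3, h2, map_zero]
  have h2 : ∀ n, ∃ y' : Pt o L, (∀ Q ∈ s, MvPolynomial.aeval (fun i => x i n) Q = 0) →
      cd y' = fun i => x i n := by
    intro n
    by_cases h : ∀ Q ∈ s, MvPolynomial.aeval (fun i => x i n) Q = 0
    · have h3 : Submodule.span (MvPolynomial (Fin (MM o)) κ)
          (s : Set (MvPolynomial (Fin (MM o)) κ)) ≤
          RingHom.ker (MvPolynomial.aeval (R := κ) fun i => x i n) :=
        Submodule.span_le.2 fun Q hQ => h Q hQ
      rw [hs] at h3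
      obtain ⟨y', hy'⟩ := exists_pt_of_rel o (fun i => x i n) fun Q hQ => h3 hQ
      exact ⟨y', fun _ => hy'⟩
    · exact ⟨Classical.arbitrary _, fun h' => absurd h' h⟩
  choose y' hy' using h2
  refine ⟨y', pt_ext o (funext fun i => Eq.trans ?_ (hx i))⟩
  exact (gm_eq_iff U _ _).2 (h1.mono fun n hn => congrFun (hy' n hn) i)

theorem ptU_eq_iff (y y' : ℕ → Pt o L) :
    ptU U y = ptU U y' ↔ ∀ᶠ n in (U : Filter ℕ), y n = y' n := by
  refine ⟨fun h => ?_, fun h => AlgHom.ext fun a =>
    (gm_eq_iff U _ _).2 (h.mono fun n hn => by rw [hn])⟩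
  have h1 : ∀ᶠ n in (U : Filter ℕ), ∀ i : Fin (MM o), y n (eb o i) = y' n (eb o i) :=
    Filter.eventually_all.2 fun i => (gm_eq_iff U _ _).1 (AlgHom.congr_fun h (eb o i))
  exact h1.mono fun n hn => pt_ext o (funext hn)

theorem ptU_injective_iff (z : ℕ → ι → Pt o L) :
    (Function.Injective fun a => ptU U fun n => z n a) ↔
      ∀ᶠ n in (U : Filter ℕ), Function.Injective (z n) := by
  refine ⟨fun h => ?_, fun h a b hab => ?_⟩
  · refine Filter.eventually_all.2 fun a => Filter.eventually_all.2 fun b => ?_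
    by_cases hab : a = b
    · exact Filter.Eventually.of_forall fun _ _ => hab
    · have h1 : ¬ ∀ᶠ n in (U : Filter ℕ), z n a = z n b := fun h1 =>
        hab (h ((ptU_eq_iff U _ _).2 h1))
      exact (Ultrafilter.eventually_not.2 h1).mono fun n hn h2 => absurd h2 hn
  · obtain ⟨n, h1, h2⟩ := (h.and ((ptU_eq_iff U _ _).1 hab)).exists
    exact h1 h2

/-- the diagonal embedding -/
noncomputable def dU (κ : Type) [Field κ] (L : Type) [Field L] [Algebra κ L] : L →ₐ[κ] UP U L :=
  IsScalarTower.toAlgHom κ L (UP U L)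

theorem ptU_const (y : Pt o L) : ptU U (fun _ => y) = (bc o (dU U κ L)).pt y := by
  rw [bc_pt]
  rfl

/-- the criterion for class zero in terms of coefficients -/
theorem O4_crit {Ω : Type} [Field Ω] [IsAlgClosed Ω] [CharZero Ω] [Algebra κ Ω] {z : ι → Pt o Ω}
    (hz : Function.Injective z) {s : Finset ℕ} (hs : ∀ i, i ∈ s ↔ pn o i ≤ Fintype.card ι) :
    clz z = 0 ↔ ∃ c : ℕ → Ω, (¬ ∀ i ∈ s, c i = 0) ∧ ∀ a, ∑ i ∈ s, c i * z a (eb o i) = 0 := by
  have he : ∀ (c : ℕ → Ω) a, evA (z a) (∑ i ∈ s, c i • ebO o Ω i) =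
      ∑ i ∈ s, c i * z a (eb o i) := fun c a => by
    simp only [map_sum, map_smul, evA_ebO, smul_eq_mul]
  have hr : ∀ (c : ℕ → Ω) j, (ebO o Ω).repr (∑ i ∈ s, c i • ebO o Ω i) j =
      if j ∈ s then c j else 0 := fun c j => by
    simp [Finsupp.single_apply]
  rw [clz_eq_zero_iff hz]
  constructor
  · rintro ⟨f, h0, h1, h2⟩
    have hf : ∑ i ∈ s, (ebO o Ω).repr f i • ebO o Ω i = f := by
      refine (ebO o Ω).ext_elem fun j => ?_
      rw [hr]
      split_ifs with hj
      · rfl
      · by_contra h3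
        exact hj ((hs j).2 (h1 j (Ne.symm h3)))
    refine ⟨(ebO o Ω).repr f, fun h => h0 ?_, fun a => by rw [← he, hf, h2]⟩
    rw [← hf]
    exact Finset.sum_eq_zero fun i hi => by rw [h i hi, zero_smul]
  · rintro ⟨c, h0, h1⟩
    refine ⟨∑ i ∈ s, c i • ebO o Ω i, fun h => h0 fun i hi => ?_, fun i hi => ?_,
      fun a => by rw [he, h1]⟩
    · have h2 := hr c i
      rw [h, if_pos hi] at h2
      simpa using h2.symm
    · rw [hr] at hi
      by_contra h3
      exact hi (if_neg fun h4 => h3 ((hs i).1 h4))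

theorem O4_los (z : ℕ → ι → Pt o L) (hz : ∀ᶠ n in (U : Filter ℕ), Function.Injective (z n)) :
    (clz fun a => ptU U fun n => z n a) = 0 ↔ ∀ᶠ n in (U : Filter ℕ), clz (z n) = 0 := by
  obtain ⟨s, hs⟩ : ∃ s : Finset ℕ, ∀ i, i ∈ s ↔ pn o i ≤ Fintype.card ι := by
    refine ⟨(Finset.range (Fintype.card ι + 1)).filter fun i => pn o i ≤ Fintype.card ι,
      fun i => ?_⟩
    have h : i ≤ pn o i := (ebSpec o).mono.le_apply
    rw [Finset.mem_filter, Finset.mem_range]
    omega
  have he : ∀ (c : ℕ → ℕ → L) a, ∑ i ∈ s, gm U (c i) * (ptU U fun n => z n a) (eb o i) = 0 ↔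
      ∀ᶠ n in (U : Filter ℕ), ∑ i ∈ s, c i n * z n a (eb o i) = 0 := fun c a => by
    rw [← gm_eq_zero_iff, gm_sum]
    rfl
  have h0 : ∀ c : ℕ → ℕ → L, (¬ ∀ i ∈ s, gm U (c i) = 0) ↔
      ∀ᶠ n in (U : Filter ℕ), ¬ ∀ i ∈ s, c i n = 0 := fun c => by
    rw [Ultrafilter.eventually_not, Filter.eventually_all_finset]
    simp only [gm_eq_zero_iff]
  rw [O4_crit ((ptU_injective_iff U z).2 hz) hs]
  constructor
  · rintro ⟨c, h1, h2⟩
    choose c' hc' using fun i => gm_surj U (c i)
    simp only [← hc'] at h1 h2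
    filter_upwards [hz, (h0 c').1 h1, Filter.eventually_all.2 fun a => (he c' a).1 (h2 a)]
      with n h3 h4 h5
    exact (O4_crit h3 hs).2 ⟨fun i => c' i n, h4, h5⟩
  · intro h
    have h1 : ∀ n, ∃ c : ℕ → L, Function.Injective (z n) → clz (z n) = 0 →
        (¬ ∀ i ∈ s, c i = 0) ∧ ∀ a, ∑ i ∈ s, c i * z n a (eb o i) = 0 := by
      intro n
      by_cases h2 : Function.Injective (z n) ∧ clz (z n) = 0
      · obtain ⟨c, hc⟩ := (O4_crit h2.1 hs).1 h2.2
        exact ⟨c, fun _ _ => hc⟩
      · exact ⟨0, fun h3 h4 => absurd ⟨h3, h4⟩ h2⟩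
    choose c hc using h1
    have h2 := (hz.and h).mono fun n hn => hc n hn.1 hn.2
    exact ⟨fun i => gm U fun n => c n i, (h0 fun i n => c n i).2 (h2.mono fun n hn => hn.1),
      fun a => (he (fun i n => c n i) a).2 (h2.mono fun n hn => hn.2 a)⟩

theorem O4_elim {ι' : Type} [Fintype ι'] (z : ℕ → ι → Pt o L) (z' : ℕ → ι' → Pt o L) :
    (clz fun a => ptU U fun n => Sum.elim (z n) (z' n) a) =
      (clz fun a => ptU U fun n => z n a) + clz fun a => ptU U fun n => z' n a := by
  rw [← clz_elim]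
  congr 1
  funext a
  cases a <;> rfl

theorem O4_inj {α β γ : Type} {z : α → γ} {z' : β → γ} (hz : Function.Injective z)
    (hz' : Function.Injective z') (h : ∀ b, z' b ∉ Set.range z) :
    Function.Injective (Sum.elim z z') :=
  hz.sumElim hz' fun a b hab => h b ⟨a, hab⟩

theorem O4_key {ι' : Type} [Fintype ι'] (z : ℕ → ι → Pt o L) (z' : ℕ → ι' → Pt o L)
    (hz : ∀ n, Function.Injective (z n)) (hz' : ∀ n, Function.Injective (z' n))
    (h : ∀ n, clz (z n) = clz (z' n)) :
    (clz fun a => ptU U fun n => z n a) = clz fun a => ptU U fun n => z' n a := by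
  choose s h1 h2 h3 using fun n => exists_rep (-clz (z n)) (Fin (2 * genus κ F)) (by simp)
    ((Set.finite_range (z n)).union (Set.finite_range (z' n)))
  have h4 := (O4_los U (fun n => Sum.elim (z n) (s n)) (Filter.Eventually.of_forall fun n =>
    O4_inj (hz n) (h1 n) fun b hb => h2 n b (Or.inl hb))).2
    (Filter.Eventually.of_forall fun n => by rw [clz_elim, h3, add_neg_cancel])
  have h5 := (O4_los U (fun n => Sum.elim (z' n) (s n)) (Filter.Eventually.of_forall fun n =>
    O4_inj (hz' n) (h1 n) fun b hb => h2 n b (Or.inr hb))).2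
    (Filter.Eventually.of_forall fun n => by rw [clz_elim, h3, h, add_neg_cancel])
  rw [O4_elim] at h4 h5
  exact add_right_cancel (h4.trans h5.symm)

theorem O4_unit {Ω : Type} [Field Ω] [IsAlgClosed Ω] [CharZero Ω] [Algebra κ Ω] (y : Pt o Ω) :
    (clz fun _ : Unit => y) = cl y := by
  rw [clz_eq_sum, Fintype.sum_unique]

theorem exists_clU : ∃ φ : (ℕ → Cl o L) →+ Cl o (UP U L),
    ∀ (ι : Type) [Fintype ι] (z : ℕ → ι → Pt o L),
      φ (fun n => clz (z n)) = clz fun a => ptU U fun n => z n a := by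
  choose r h1 _ h3 using fun w : Cl o L =>
    exists_rep w (Fin (2 * genus κ F)) (by simp) Set.finite_empty
  have hadd : ∀ w w' : ℕ → Cl o L, (clz fun a => ptU U fun n => r ((w + w') n) a) =
      (clz fun a => ptU U fun n => r (w n) a) + clz fun a => ptU U fun n => r (w' n) a := by
    intro w w'
    choose s k1 k2 k3 using fun n => exists_rep (w' n) (Fin (2 * genus κ F)) (by simp)
      (Set.finite_range (r (w n)))
    rw [O4_key U (fun n => r (w' n)) s (fun n => h1 _) k1 fun n => by rw [h3, k3], ← O4_elim]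
    exact O4_key U (fun n => r ((w + w') n)) (fun n => Sum.elim (r (w n)) (s n)) (fun n => h1 _)
      (fun n => O4_inj (h1 _) (k1 n) (k2 n)) fun n => by rw [clz_elim, h3, h3, k3, Pi.add_apply]
  refine ⟨AddMonoidHom.mk' (fun w => clz fun a => ptU U fun n => r (w n) a) hadd,
    fun ι _ z => ?_⟩
  have e : (fun n => clz (z n)) = ∑ a, fun n => cl (z n a) := by
    funext n
    rw [clz_eq_sum, Finset.sum_apply]
  rw [e, map_sum, clz_eq_sum]
  refine Finset.sum_congr rfl fun a _ => ?_
  rw [← O4_unit]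
  exact O4_key U (fun n => r (cl (z n a))) (fun n _ => z n a) (fun n => h1 _)
    (fun n => Function.injective_of_subsingleton _) fun n => by rw [h3, O4_unit]

/-- ultralimit of classes -/
noncomputable def clUH (o : Place κ F) (L : Type) [Field L] [IsAlgClosed L] [CharZero L]
    [Algebra κ L] : (ℕ → Cl o L) →+ Cl o (UP U L) := (exists_clU U).choose

noncomputable def clU (w : ℕ → Cl o L) : Cl o (UP U L) := clUH U o L w

theorem clU_add (w w' : ℕ → Cl o L) : clU U (fun n => w n + w' n) = clU U w + clU U w' :=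
  map_add (clUH U o L) w w'

theorem clU_sub (w w' : ℕ → Cl o L) : clU U (fun n => w n - w' n) = clU U w - clU U w' :=
  map_sub (clUH U o L) w w'

theorem clU_neg (w : ℕ → Cl o L) : clU U (fun n => - w n) = - clU U w := map_neg (clUH U o L) w

theorem clU_zsmul (k : ℤ) (w : ℕ → Cl o L) : clU U (fun n => k • w n) = k • clU U w :=
  map_zsmul (clUH U o L) k w

theorem clU_clz (z : ℕ → ι → Pt o L) :
    clU U (fun n => clz (z n)) = clz fun a => ptU U fun n => z n a :=
  (exists_clU U).choose_spec ι z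

theorem clU_cl (y : ℕ → Pt o L) : clU U (fun n => cl (y n)) = cl (ptU U y) := by
  have h := clU_clz U fun n (_ : Unit) => y n
  simpa only [O4_unit] using h

theorem clU_eq_zero_iff (w : ℕ → Cl o L) : clU U w = 0 ↔ ∀ᶠ n in (U : Filter ℕ), w n = 0 := by
  choose r h1 _ h3 using fun n => exists_rep (w n) (Fin (2 * genus κ F)) (by simp) Set.finite_empty
  rw [← funext h3, clU_clz, O4_los U r (Filter.Eventually.of_forall h1)]

theorem clU_eq_iff (w w' : ℕ → Cl o L) :
    clU U w = clU U w' ↔ ∀ᶠ n in (U : Filter ℕ), w n = w' n := by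
  rw [← sub_eq_zero, ← clU_sub, clU_eq_zero_iff]
  simp only [sub_eq_zero]

theorem clU_const (w : Cl o L) : clU U (fun _ => w) = (bc o (dU U κ L)).cl w := by
  obtain ⟨z, -, -, rfl⟩ := exists_rep w (Fin (2 * genus κ F)) (by simp) Set.finite_empty
  rw [clU_clz U fun _ => z, BC.cl_clz]
  simp only [ptU_const]

theorem clU_surj (w : Cl o (UP U L)) : ∃ w' : ℕ → Cl o L, clU U w' = w := by
  obtain ⟨z, -, -, rfl⟩ := exists_rep w (Fin (2 * genus κ F)) (by simp) Set.finite_empty
  choose y hy using fun a => ptU_surj U (z a)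
  exact ⟨fun n => clz fun a => y a n, by rw [clU_clz U fun n a => y a n, funext hy]⟩

/-- a set of classes all of whose ultralimits are constant is finite -/
theorem finite_of_clU {S : Set (Cl o L)}
    (h : ∀ (U : Ultrafilter ℕ) (w : ℕ → Cl o L), (∀ n, w n ∈ S) →
      clU U w ∈ Set.range (bc o (dU U κ L)).cl) : S.Finite := by
  by_contra hS
  obtain ⟨w₀, hw⟩ := h (Filter.hyperfilter ℕ) (fun n => (Set.Infinite.natEmbedding S hS n).1)
    fun n => (Set.Infinite.natEmbedding S hS n).2
  rw [← clU_const, clU_eq_iff] at hw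
  refine Set.Finite.notMem_hyperfilter (Set.Subsingleton.finite fun a ha b hb => ?_) hw
  exact (Set.Infinite.natEmbedding S hS).injective (Subtype.ext (ha.symm.trans hb))

end Pool.Agent.E6b
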