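import Pool.Agent.E6b.O0

open scoped NNReal TensorProduct IntermediateField BigOperators Classical Topology
open Filter

namespace Pool.Agent.E6b

section
variable {κ F : Type} [Field κ] [IsAlgClosed κ] [CharZero κ] [Field F] [Algebra κ F] [IsFF κ F]
  (o : Place κ F)

noncomputable def eb : Module.Basis ℕ κ (AA o) := (exists_eb o).choose

/-- pole numbers -/
noncomputable def pn : ℕ → ℕ := (exists_eb o).choose_spec.choose

theorem ebSpec : EBSpec o (eb o) (pn o) := (exists_eb o).choose_spec.choose_spec

/-- `2 g + 1` -/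
noncomputable def NN (_o : Place κ F) : ℕ := 2 * genus κ F + 1

/-- `3 g + 2` : the `eb i`, `i < MM`, generate `AA o` -/
noncomputable def MM (_o : Place κ F) : ℕ := 3 * genus κ F + 2

/-- a function with a pole of order `NN` at `o` -/
noncomputable def wN : AA o := eb o (genus κ F + 1)

/-- a uniformiser at `o` -/
noncomputable def zo : F := (eb o (genus κ F) : F) / (wN o : F)

/-- points with values in `Ω` -/
abbrev Pt (Ω : Type) [CommRing Ω] [Algebra κ Ω] : Type := AA o →ₐ[κ] Ω

/-- base change of `AA o` -/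
abbrev AO (Ω : Type) [Field Ω] [Algebra κ Ω] : Type := Ω ⊗[κ] AA o

variable {Ω : Type} [Field Ω] [Algebra κ Ω]

/-- the basis `1 ⊗ eb i` -/
noncomputable def ebO (Ω : Type) [Field Ω] [Algebra κ Ω] : Module.Basis ℕ Ω (AO o Ω) :=
  Algebra.TensorProduct.basis Ω (eb o)

variable {o}

/-- evaluation at a point -/
noncomputable def evA (y : Pt o Ω) : AO o Ω →ₐ[Ω] Ω :=
  Algebra.TensorProduct.lift (AlgHom.id Ω Ω) y fun _ _ => Commute.all _ _

/-- coordinates of a point -/
noncomputable def cd {R : Type} [CommRing R] [Algebra κ R] (y : Pt o R) : Fin (MM o) → R :=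
  fun i => y (eb o i)

end

end Pool.Agent.E6b
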