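import Pool.Agent.E6b.VDefs

open scoped NNReal TensorProduct IntermediateField BigOperators Classical Topology
open Filter

namespace Pool.Agent.E6b

variable {κ Ω : Type} [Field κ] [Field Ω] [Algebra κ Ω]

theorem V1_div_mem (O : ValuationSubring Ω) (x : Ω) {g : Ω} (hg : g ≠ 0) :
    x / g ∈ O ↔ O.valuation x ≤ O.valuation g := by
  have h : O.valuation g ≠ 0 := by simpa using hg
  rw [← O.valuation_le_one_iff, map_div₀, div_le_one₀ (zero_lt_iff.mpr h)]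

theorem V1_unit_ne (O : ValuationSubring Ω) (g : Ωˣ) : O.valuation (g : Ω) ≠ 0 := by
  simp

theorem V1_unit_pos (O : ValuationSubring Ω) (g : Ωˣ) : 0 < O.valuation (g : Ω) :=
  zero_lt_iff.mpr (V1_unit_ne O g)

theorem le_vs (O : ValuationSubring Ω) {ι : Type} [Fintype ι] (x : ι → Ω) (i : ι) :
    O.valuation (x i) ≤ vs O x :=
  Finset.le_sup (f := fun i => O.valuation (x i)) (Finset.mem_univ i)

theorem vs_le (O : ValuationSubring Ω) {ι : Type} [Fintype ι] {x : ι → Ω} {γ : O.ValueGroup}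
    (h : ∀ i, O.valuation (x i) ≤ γ) : vs O x ≤ γ :=
  Finset.sup_le fun i _ => h i

theorem exists_vs_eq (O : ValuationSubring Ω) {ι : Type} [Fintype ι] [Nonempty ι] (x : ι → Ω) :
    ∃ i, O.valuation (x i) = vs O x := by
  obtain ⟨i, -, hi⟩ := Finset.exists_max_image Finset.univ (fun i => O.valuation (x i))
    Finset.univ_nonempty
  exact ⟨i, le_antisymm (le_vs O x i) (vs_le O fun j => hi j (Finset.mem_univ j))⟩

theorem vs_ne_zero (O : ValuationSubring Ω) {ι : Type} [Fintype ι] {x : ι → Ω} (hx : x ≠ 0) :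
    vs O x ≠ 0 := by
  obtain ⟨i, hi⟩ := Function.ne_iff.mp hx
  have h : O.valuation (x i) ≠ 0 := by simpa using hi
  exact (lt_of_lt_of_le (zero_lt_iff.mpr h) (le_vs O x i)).ne'

theorem V1_vs_empty (O : ValuationSubring Ω) {ι : Type} [Fintype ι] [IsEmpty ι] (x : ι → Ω) :
    vs O x = 0 :=
  le_antisymm (vs_le O fun i => isEmptyElim i) zero_le

theorem vs_segre (O : ValuationSubring Ω) {ι ι' : Type} [Fintype ι] [Fintype ι'] (x : ι → Ω)
    (y : ι' → Ω) : vs O (fun p : ι × ι' => x p.1 * y p.2) = vs O x * vs O y := by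
  rcases isEmpty_or_nonempty ι with h | h
  · rw [V1_vs_empty, V1_vs_empty O x, zero_mul]
  rcases isEmpty_or_nonempty ι' with h' | h'
  · rw [V1_vs_empty, V1_vs_empty O y, mul_zero]
  apply le_antisymm
  · refine vs_le O fun p => ?_
    rw [map_mul]
    exact mul_le_mul' (le_vs O x p.1) (le_vs O y p.2)
  · obtain ⟨i, hi⟩ := exists_vs_eq O x
    obtain ⟨j, hj⟩ := exists_vs_eq O y
    rw [← hi, ← hj, ← map_mul]
    exact le_vs O (fun p : ι × ι' => x p.1 * y p.2) (i, j)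

theorem vs_smul (O : ValuationSubring Ω) {ι : Type} [Fintype ι] (μ : Ω) (x : ι → Ω) :
    vs O (fun i => μ * x i) = O.valuation μ * vs O x := by
  rcases isEmpty_or_nonempty ι with h | h
  · rw [V1_vs_empty, V1_vs_empty O x, mul_zero]
  apply le_antisymm
  · refine vs_le O fun i => ?_
    rw [map_mul]
    exact mul_le_mul' le_rfl (le_vs O x i)
  · obtain ⟨i, hi⟩ := exists_vs_eq O x
    rw [← hi, ← map_mul]
    exact le_vs O (fun i => μ * x i) i

theorem gen_spec {ι : Type} [Finite ι] {l : ι → Ω} (hl : l ≠ 0) (O : VS κ Ω) :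
    (∃ j, l j = gen κ l O) ∧ ∀ j, l j / (gen κ l O : Ω) ∈ O.1 := by
  have h : ∃ g : Ωˣ, (∃ j, l j = g) ∧ ∀ j, l j / (g : Ω) ∈ O.1 := by
    have := Fintype.ofFinite ι
    obtain ⟨i0, -⟩ := Function.ne_iff.mp hl
    have : Nonempty ι := ⟨i0⟩
    obtain ⟨i, hi⟩ := exists_vs_eq O.1 l
    have h0 : l i ≠ 0 := by
      intro h
      apply vs_ne_zero O.1 hl
      rw [← hi, h, map_zero]
    refine ⟨Units.mk0 _ h0, ⟨i, rfl⟩, fun j => ?_⟩
    rw [Units.val_mk0, V1_div_mem _ _ h0, hi]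
    exact le_vs O.1 l j
  have e : gen κ l O = h.choose := by
    unfold gen
    rw [dif_pos h]
  rw [e]
  exact h.choose_spec

theorem valuation_gen {ι : Type} [Fintype ι] {l : ι → Ω} (hl : l ≠ 0) (O : VS κ Ω) :
    O.1.valuation (gen κ l O : Ω) = vs O.1 l := by
  obtain ⟨⟨j, hj⟩, h⟩ := gen_spec (κ := κ) hl O
  apply le_antisymm
  · rw [← hj]; exact le_vs O.1 l j
  · exact vs_le O.1 fun i => (V1_div_mem _ _ (Units.ne_zero _)).mp (h i)

theorem vle_iff {l m : VC κ Ω} :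
    VLe l m ↔ ∀ O : VS κ Ω, O.1.valuation (l O : Ω) ≤ O.1.valuation (m O : Ω) :=
  forall_congr' fun O => V1_div_mem O.1 _ (Units.ne_zero _)

theorem veq_iff {l m : VC κ Ω} :
    VEq l m ↔ ∀ O : VS κ Ω, O.1.valuation (l O : Ω) = O.1.valuation (m O : Ω) := by
  unfold VEq
  rw [vle_iff, vle_iff]
  exact ⟨fun h O => le_antisymm (h.1 O) (h.2 O), fun h => ⟨fun O => (h O).le, fun O => (h O).ge⟩⟩

theorem mem_TT_iff {l : VC κ Ω} {G : Ω} :
    G ∈ TT l ↔ ∀ O : VS κ Ω, O.1.valuation G ≤ O.1.valuation (l O : Ω) :=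
  forall_congr' fun O => V1_div_mem O.1 _ (Units.ne_zero _)

theorem VLe.refl (l : VC κ Ω) : VLe l l := vle_iff.mpr fun _ => le_rfl
theorem VLe.trans {l m n : VC κ Ω} (h : VLe l m) (h' : VLe m n) : VLe l n :=
  vle_iff.mpr fun O => (vle_iff.mp h O).trans (vle_iff.mp h' O)
theorem VLe.mul {l m l' m' : VC κ Ω} (h : VLe l m) (h' : VLe l' m') : VLe (l * l') (m * m') := by
  refine vle_iff.mpr fun O => ?_
  simp only [Pi.mul_apply, Units.val_mul, map_mul]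
  exact mul_le_mul' (vle_iff.mp h O) (vle_iff.mp h' O)
theorem VLe.pow {l m : VC κ Ω} (h : VLe l m) (k : ℕ) : VLe (l ^ k) (m ^ k) := by
  refine vle_iff.mpr fun O => ?_
  simp only [Pi.pow_apply, Units.val_pow_eq_pow_val, map_pow]
  exact pow_le_pow_left' (vle_iff.mp h O) k
theorem VLe.inv {l m : VC κ Ω} (h : VLe l m) : VLe m⁻¹ l⁻¹ := by
  refine vle_iff.mpr fun O => ?_
  simp only [Pi.inv_apply, Units.val_inv_eq_inv_val, map_inv₀]
  exact inv_anti₀ (V1_unit_pos _ _) (vle_iff.mp h O)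
theorem VLe.of_pow {l m : VC κ Ω} {k : ℕ} (hk : 0 < k) (h : VLe (l ^ k) (m ^ k)) : VLe l m := by
  refine vle_iff.mpr fun O => ?_
  have := vle_iff.mp h O
  simp only [Pi.pow_apply, Units.val_pow_eq_pow_val, map_pow] at this
  exact (pow_le_pow_iff_left₀ zero_le zero_le hk.ne').mp this
theorem VLe.prod {ι : Type} (s : Finset ι) {l m : ι → VC κ Ω} (h : ∀ i ∈ s, VLe (l i) (m i)) :
    VLe (∏ i ∈ s, l i) (∏ i ∈ s, m i) := by
  induction s using Finset.induction_on with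
  | empty => simpa using VLe.refl _
  | insert a s ha ih =>
    rw [Finset.prod_insert ha, Finset.prod_insert ha]
    exact (h a (Finset.mem_insert_self _ _)).mul
      (ih fun i hi => h i (Finset.mem_insert_of_mem hi))
theorem VLe.TT_le {l m : VC κ Ω} (h : VLe l m) : TT l ≤ TT m := fun _ hG =>
  mem_TT_iff.mpr fun O => (mem_TT_iff.mp hG O).trans (vle_iff.mp h O)
theorem VEq.TT_eq {l m : VC κ Ω} (h : VEq l m) : TT l = TT m :=
  le_antisymm h.1.TT_le h.2.TT_le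

theorem V1_cstC_mul (g g' : Ωˣ) : (cstC κ (g * g') : VC κ Ω) = cstC κ g * cstC κ g' := rfl
theorem V1_cstC_pow (g : Ωˣ) (k : ℕ) : (cstC κ (g ^ k) : VC κ Ω) = cstC κ g ^ k := rfl
theorem V1_cstC_inv (g : Ωˣ) : (cstC κ g⁻¹ : VC κ Ω) = (cstC κ g)⁻¹ := rfl
theorem V1_cstC_one : (cstC κ (1 : Ωˣ) : VC κ Ω) = 1 := rfl

theorem V1_veq_refl (l : VC κ Ω) : VEq l l := ⟨VLe.refl l, VLe.refl l⟩
theorem V1_veq_symm {l m : VC κ Ω} (h : VEq l m) : VEq m l := ⟨h.2, h.1⟩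
theorem V1_veq_trans {l m n : VC κ Ω} (h : VEq l m) (h' : VEq m n) : VEq l n :=
  ⟨h.1.trans h'.1, h'.2.trans h.2⟩
theorem V1_veq_mul {l m l' m' : VC κ Ω} (h : VEq l m) (h' : VEq l' m') :
    VEq (l * l') (m * m') := ⟨h.1.mul h'.1, h.2.mul h'.2⟩
theorem V1_veq_pow {l m : VC κ Ω} (h : VEq l m) (k : ℕ) : VEq (l ^ k) (m ^ k) :=
  ⟨h.1.pow k, h.2.pow k⟩
theorem V1_veq_inv {l m : VC κ Ω} (h : VEq l m) : VEq l⁻¹ m⁻¹ := ⟨h.2.inv, h.1.inv⟩

theorem V1_e1 {G : Type} [CommGroup G] (l : G) (a b : ℕ) : (l ^ a) ^ b = l ^ (a * b) :=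
  (pow_mul l a b).symm

theorem V1_e2 {G : Type} [CommGroup G] (g g' m : G) (a b : ℕ) :
    g ^ b * (g' * m ^ b) ^ a = (g ^ b * g' ^ a) * m ^ (a * b) := by
  rw [mul_pow, ← pow_mul, mul_comm b a, mul_assoc]

theorem V1_e3 {G : Type} [CommGroup G] (g m : G) (a b : ℕ) :
    (g * m ^ a) ^ b = g ^ b * (m ^ b) ^ a := by
  rw [mul_pow, ← pow_mul, ← pow_mul, mul_comm a b]

theorem V1_e4 {G : Type} [CommGroup G] (l l' : G) (a b : ℕ) :
    (l ^ a) ^ b * (l' ^ b) ^ a = (l * l') ^ (a * b) := by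
  rw [mul_pow, ← pow_mul, ← pow_mul, mul_comm b a]

theorem V1_e5 {G : Type} [CommGroup G] (g g' m m' : G) (a b : ℕ) :
    (g * m ^ a) ^ b * (g' * m' ^ b) ^ a = (g ^ b * g' ^ a) * (m * m') ^ (a * b) := by
  rw [mul_pow, mul_pow, mul_pow, ← pow_mul, ← pow_mul, mul_comm b a, mul_mul_mul_comm]

theorem QEq.refl (l : VC κ Ω) : QEq l l :=
  ⟨1, one_pos, 1, by rw [V1_cstC_one, one_mul]; exact V1_veq_refl _⟩
theorem QEq.symm {l m : VC κ Ω} (h : QEq l m) : QEq m l := by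
  obtain ⟨k, hk, g, h⟩ := h
  refine ⟨k, hk, g⁻¹, ?_⟩
  have := V1_veq_mul (V1_veq_refl (cstC κ g⁻¹)) (V1_veq_symm h)
  rwa [V1_cstC_inv, inv_mul_cancel_left, ← V1_cstC_inv] at this
theorem QEq.trans {l m n : VC κ Ω} (h : QEq l m) (h' : QEq m n) : QEq l n := by
  obtain ⟨a, ha, g, h⟩ := h
  obtain ⟨b, hb, g', h'⟩ := h'
  refine ⟨a * b, Nat.mul_pos ha hb, g ^ b * g' ^ a, ?_⟩
  have h1 := V1_veq_pow h b
  have h2 := V1_veq_mul (V1_veq_refl (cstC κ g ^ b)) (V1_veq_pow h' a)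
  rw [V1_e1, V1_e3] at h1
  rw [V1_e2] at h2
  rw [V1_cstC_mul, V1_cstC_pow, V1_cstC_pow]
  exact V1_veq_trans h1 h2
theorem QEq.mul {l m l' m' : VC κ Ω} (h : QEq l m) (h' : QEq l' m') : QEq (l * l') (m * m') := by
  obtain ⟨a, ha, g, h⟩ := h
  obtain ⟨b, hb, g', h'⟩ := h'
  refine ⟨a * b, Nat.mul_pos ha hb, g ^ b * g' ^ a, ?_⟩
  have h1 := V1_veq_mul (V1_veq_pow h b) (V1_veq_pow h' a)
  rw [V1_e4, V1_e5] at h1
  rw [V1_cstC_mul, V1_cstC_pow, V1_cstC_pow]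
  exact h1
theorem V1_qeq_pow {l m : VC κ Ω} (h : QEq l m) (k : ℕ) : QEq (l ^ k) (m ^ k) := by
  induction k with
  | zero => rw [pow_zero, pow_zero]; exact QEq.refl _
  | succ k ih => rw [pow_succ, pow_succ]; exact ih.mul h
theorem V1_qeq_inv {l m : VC κ Ω} (h : QEq l m) : QEq l⁻¹ m⁻¹ := by
  obtain ⟨k, hk, g, h⟩ := h
  refine ⟨k, hk, g⁻¹, ?_⟩
  have := V1_veq_inv h
  rwa [mul_inv, ← V1_cstC_inv, ← inv_pow, ← inv_pow] at this
theorem QEq.zpow {l m : VC κ Ω} (h : QEq l m) (k : ℤ) : QEq (l ^ k) (m ^ k) := by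
  rcases Int.eq_nat_or_neg k with ⟨n, rfl | rfl⟩
  · rw [zpow_natCast, zpow_natCast]; exact V1_qeq_pow h n
  · rw [zpow_neg, zpow_neg, zpow_natCast, zpow_natCast]; exact V1_qeq_inv (V1_qeq_pow h n)
theorem QEq.of_pow {l m : VC κ Ω} {k : ℕ} (hk : 0 < k) (h : QEq (l ^ k) (m ^ k)) : QEq l m := by
  obtain ⟨a, ha, g, h⟩ := h
  refine ⟨k * a, Nat.mul_pos hk ha, g, ?_⟩
  rwa [V1_e1, V1_e1] at h
theorem QEq.qle {l m : VC κ Ω} (h : QEq l m) : QLe l m := by
  obtain ⟨a, ha, g, h⟩ := h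
  exact ⟨a, ha, g, h.1⟩
theorem VLe.qle {l m : VC κ Ω} (h : VLe l m) : QLe l m :=
  ⟨1, one_pos, 1, by rw [V1_cstC_one, one_mul, pow_one, pow_one]; exact h⟩
theorem QLe.trans {l m n : VC κ Ω} (h : QLe l m) (h' : QLe m n) : QLe l n := by
  obtain ⟨a, ha, g, h⟩ := h
  obtain ⟨b, hb, g', h'⟩ := h'
  refine ⟨a * b, Nat.mul_pos ha hb, g ^ b * g' ^ a, ?_⟩
  have h1 := h.pow b
  have h2 := (VLe.refl (cstC κ g ^ b)).mul (h'.pow a)
  rw [V1_e1, V1_e3] at h1
  rw [V1_e2] at h2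
  rw [V1_cstC_mul, V1_cstC_pow, V1_cstC_pow]
  exact h1.trans h2
theorem QLe.mul {l m l' m' : VC κ Ω} (h : QLe l m) (h' : QLe l' m') : QLe (l * l') (m * m') := by
  obtain ⟨a, ha, g, h⟩ := h
  obtain ⟨b, hb, g', h'⟩ := h'
  refine ⟨a * b, Nat.mul_pos ha hb, g ^ b * g' ^ a, ?_⟩
  have h1 := (h.pow b).mul (h'.pow a)
  rw [V1_e4, V1_e5] at h1
  rw [V1_cstC_mul, V1_cstC_pow, V1_cstC_pow]
  exact h1
theorem QLe.pow {l m : VC κ Ω} (h : QLe l m) (k : ℕ) : QLe (l ^ k) (m ^ k) := by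
  induction k with
  | zero => rw [pow_zero, pow_zero]; exact (VLe.refl _).qle
  | succ k ih => rw [pow_succ, pow_succ]; exact ih.mul h
theorem qle_cstC (g : Ωˣ) : QEq (cstC κ g) (1 : VC κ Ω) :=
  ⟨1, one_pos, g, by rw [pow_one, pow_one, mul_one]; exact V1_veq_refl _⟩

theorem mem_TT_gen {ι : Type} [Finite ι] {l : ι → Ω} (hl : l ≠ 0) (j : ι) : l j ∈ TT (gen κ l) :=
  fun O => (gen_spec hl O).2 j

theorem qle_one_gen {ι : Type} [Finite ι] {l : ι → Ω} (hl : l ≠ 0) : QLe 1 (gen κ l) := by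
  obtain ⟨j, hj⟩ := Function.ne_iff.mp hl
  have hj0 : l j ≠ 0 := hj
  refine ⟨1, one_pos, (Units.mk0 _ hj0)⁻¹, ?_⟩
  rw [pow_one, pow_one]
  intro O
  have := (gen_spec (κ := κ) hl O).2 j
  have e : (((1 : VC κ Ω) O : Ωˣ) : Ω) / ((cstC κ (Units.mk0 _ hj0)⁻¹ * gen κ l) O : Ωˣ) =
      l j / (gen κ l O : Ω) := by
    simp only [Pi.one_apply, Units.val_one, Pi.mul_apply, cstC, Units.val_mul,
      Units.val_inv_eq_inv_val, Units.val_mk0]
    have := Units.ne_zero (gen κ l O)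
    field_simp
  rw [e]; exact this

theorem qeq_gen_of_prp {ι : Type} [Finite ι] {l m : ι → Ω} (hm : m ≠ 0) {μ : Ω} (hμ : μ ≠ 0)
    (h : ∀ i, l i = μ * m i) : VEq (gen κ l) (cstC κ (Units.mk0 μ hμ) * gen κ m) := by
  have := Fintype.ofFinite ι
  have hl : l ≠ 0 := by
    obtain ⟨j, hj⟩ := Function.ne_iff.mp hm
    intro h0
    have := h j
    rw [h0] at this
    exact mul_ne_zero hμ hj this.symm
  refine veq_iff.mpr fun O => ?_
  have e : l = fun i => μ * m i := funext h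
  simp only [Pi.mul_apply, cstC, Units.val_mul, Units.val_mk0, map_mul]
  rw [valuation_gen hl, valuation_gen hm, e, vs_smul]

theorem mul_mem_TT {l m : VC κ Ω} {F G : Ω} (hF : F ∈ TT l) (hG : G ∈ TT m) :
    F * G ∈ TT (l * m) := by
  refine mem_TT_iff.mpr fun O => ?_
  simp only [Pi.mul_apply, Units.val_mul, map_mul]
  exact mul_le_mul' (mem_TT_iff.mp hF O) (mem_TT_iff.mp hG O)
theorem one_vle_gen {ι : Type} [Finite ι] {l : ι → Ω} {j : ι} (hj : l j = 1) : VLe 1 (gen κ l) := by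
  have hl : l ≠ 0 := fun h0 => by rw [h0] at hj; exact zero_ne_one hj
  intro O
  have := (gen_spec (κ := κ) hl O).2 j
  rw [hj] at this
  exact this
theorem gen_vle_of_mem {ι : Type} [Finite ι] {l : ι → Ω} (hl : l ≠ 0) {m : VC κ Ω}
    (h : ∀ j, l j ∈ TT m) : VLe (gen κ l) m := by
  intro O
  obtain ⟨j, hj⟩ := (gen_spec (κ := κ) hl O).1
  rw [← hj]
  exact h j O
theorem mem_TT_cstC_mul (g : Ωˣ) (l : VC κ Ω) (G : Ω) :
    G ∈ TT (cstC κ g * l) ↔ G / g ∈ TT l := by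
  refine forall_congr' fun O => ?_
  simp only [Pi.mul_apply, cstC, Units.val_mul, div_div]

/-- multiplication by a unit as a linear equivalence between section spaces -/
noncomputable def V1_equiv (g : Ωˣ) (l : VC κ Ω) : TT (cstC κ g * l) ≃ₗ[κ] TT l where
  toFun G := ⟨G.1 / g, (mem_TT_cstC_mul g l G.1).mp G.2⟩
  invFun F := ⟨F.1 * g, (mem_TT_cstC_mul g l _).mpr (by
    rw [mul_div_cancel_right₀ _ (Units.ne_zero g)]; exact F.2)⟩
  map_add' a b := Subtype.ext (by simp [add_div])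
  map_smul' c a := Subtype.ext (by simp [Algebra.smul_def, mul_div_assoc])
  left_inv a := Subtype.ext (by simp)
  right_inv a := Subtype.ext (by simp)

theorem finrank_TT_cstC_mul (g : Ωˣ) (l : VC κ Ω) :
    Module.finrank κ (TT (cstC κ g * l)) = Module.finrank κ (TT l) :=
  (V1_equiv g l).finrank_eq
theorem finite_TT_cstC_mul (g : Ωˣ) (l : VC κ Ω) :
    Module.Finite κ (TT (cstC κ g * l)) ↔ Module.Finite κ (TT l) :=
  ⟨fun _ => Module.Finite.equiv (V1_equiv g l), fun _ => Module.Finite.equiv (V1_equiv g l).symm⟩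
theorem gen_vle_prod_pen {ι : Type} [Fintype ι] {l : ι → Ω} {j : ι} (hj : l j = 1) :
    VLe (gen κ l) (∏ i, pen κ (l i)) := by
  have hl : l ≠ 0 := fun h0 => by rw [h0] at hj; exact zero_ne_one hj
  refine gen_vle_of_mem hl fun i => ?_
  have hne : ∀ t : Ω, (![1, t] : Fin 2 → Ω) ≠ 0 := fun t h0 => by
    have := congrFun h0 0
    simp at this
  have h1 : l i ∈ TT (pen κ (l i)) := mem_TT_gen (κ := κ) (hne (l i)) 1
  have h2 : VLe (∏ k ∈ Finset.univ.erase i, (1 : VC κ Ω))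
      (∏ k ∈ Finset.univ.erase i, pen κ (l k)) :=
    VLe.prod _ fun k _ => one_vle_gen (κ := κ) (l := ![1, l k]) (j := 0) rfl
  rw [Finset.prod_const_one] at h2
  have h3 := ((VLe.refl (pen κ (l i))).mul h2).TT_le
  rw [mul_one, Finset.mul_prod_erase _ (fun k => pen κ (l k)) (Finset.mem_univ i)] at h3
  exact h3 h1

theorem valuation_algebraMap (O : VS κ Ω) {c : κ} (hc : c ≠ 0) :
    O.1.valuation (algebraMap κ Ω c) = 1 := by
  have h1 := (O.1.valuation_le_one_iff _).mpr (O.2 c)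
  have h2 := (O.1.valuation_le_one_iff _).mpr (O.2 c⁻¹)
  have h0 : O.1.valuation (algebraMap κ Ω c) ≠ 0 := by simpa using hc
  rw [map_inv₀, map_inv₀, inv_le_one₀ (zero_lt_iff.mpr h0)] at h2
  exact le_antisymm h1 h2

/-- valuation rings extend to overfields -/
theorem exists_vs_lift (Ω' : Type) [Field Ω'] [Algebra Ω Ω'] (O : ValuationSubring Ω) :
    ∃ O' : ValuationSubring Ω', O'.comap (algebraMap Ω Ω') = O := by
  obtain ⟨A, h, hloc⟩ :=
    IsLocalRing.exists_factor_valuationRing ((algebraMap Ω Ω').comp O.subtype)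
  refine ⟨A, ValuationSubring.ext _ _ fun x => ?_⟩
  rw [ValuationSubring.mem_comap]
  refine ⟨fun hx => ?_, fun hx => h ⟨x, hx⟩⟩
  by_contra hxO
  have hx0 : x ≠ 0 := fun e => hxO (e ▸ O.zero_mem)
  have hi : x⁻¹ ∈ O := (O.mem_or_inv_mem x).resolve_left hxO
  have hu : IsUnit ((((algebraMap Ω Ω').comp O.subtype).codRestrict A.toSubring h) ⟨x⁻¹, hi⟩) := by
    refine isUnit_iff_exists_inv.mpr ⟨⟨algebraMap Ω Ω' x, hx⟩, Subtype.ext ?_⟩
    change algebraMap Ω Ω' x⁻¹ * algebraMap Ω Ω' x = 1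
    rw [← map_mul, inv_mul_cancel₀ hx0, map_one]
  obtain ⟨y, hy⟩ := isUnit_iff_exists_inv.mp (hloc.1 _ hu)
  have hy' : x⁻¹ * (y : Ω) = 1 := congrArg Subtype.val hy
  have : (y : Ω) = x := by
    field_simp at hy'
    exact hy'
  exact hxO (this ▸ y.2)

/-- a ring homomorphism to a field is dominated by a valuation ring -/
theorem exists_vs_dom (B : Subalgebra κ Ω) {K : Type} [Field K] [Algebra κ K] (χ : B →ₐ[κ] K) :
    ∃ O : VS κ Ω, (∀ b : B, (b : Ω) ∈ O.1) ∧ ∀ b : B, O.1.valuation (b : Ω) < 1 ↔ χ b = 0 := by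
  let χ' : B.toSubring →+* K := χ.toRingHom
  let P : Ideal B.toSubring := RingHom.ker χ'
  have hP : P.IsPrime := RingHom.ker_isPrime χ'
  obtain ⟨V, hV⟩ := (LocalSubring.ofPrime B.toSubring P).exists_le_valuationSubring
  have hle : B.toSubring ≤ V.toSubring := (LocalSubring.le_ofPrime ..).trans hV.1
  refine ⟨⟨V, fun c => hle (B.algebraMap_mem c)⟩, fun b => hle b.2, fun b => ?_⟩
  have h1 := IsLocalization.AtPrime.to_map_mem_maximal_iff
    (LocalSubring.ofPrime B.toSubring P).toSubring P (⟨b.1, b.2⟩ : B.toSubring)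
  have h2 : (⟨b.1, b.2⟩ : B.toSubring) ∈ P ↔ χ b = 0 := Iff.rfl
  rw [← h2, ← h1]
  have h3 := V.valuation_lt_one_iff ⟨b.1, hle b.2⟩
  change V.valuation ((⟨b.1, hle b.2⟩ : V) : Ω) < 1 ↔ _
  rw [← h3, IsLocalRing.mem_maximalIdeal, IsLocalRing.mem_maximalIdeal, mem_nonunits_iff,
    mem_nonunits_iff, not_iff_not]
  have := hV.2
  exact isUnit_map_iff (Subring.inclusion hV.1)
    (algebraMap B.toSubring (LocalSubring.ofPrime B.toSubring P).toSubring ⟨b.1, b.2⟩)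

theorem isAlgebraic_of_forall_mem {G : Ω} (h : ∀ O : VS κ Ω, G ∈ O.1) : IsAlgebraic κ G := by
  by_contra hG
  have hG0 : G ≠ 0 := fun e => hG (e ▸ isAlgebraic_zero)
  have hT : Transcendental κ G⁻¹ := fun hh => hG (IsAlgebraic.inv_iff.mp hh)
  have hinj : Function.Injective (Polynomial.aeval (R := κ) G⁻¹) :=
    transcendental_iff_injective.mp hT
  let e := AlgEquiv.ofInjective (Polynomial.aeval (R := κ) G⁻¹) hinj
  let χ : (Polynomial.aeval (R := κ) G⁻¹).range →ₐ[κ] κ :=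
    (Polynomial.aeval (0 : κ)).comp (e.symm : _ →ₐ[κ] _)
  obtain ⟨O, -, hO⟩ := exists_vs_dom _ χ
  have h1 := (hO (e Polynomial.X)).mpr (by simp [χ])
  have h2 : ((e Polynomial.X : (Polynomial.aeval (R := κ) G⁻¹).range) : Ω) = G⁻¹ := by
    simp [e]
  rw [h2, map_inv₀] at h1
  have h0 : O.1.valuation G ≠ 0 := by simpa using hG0
  rw [inv_lt_one₀ (zero_lt_iff.mpr h0)] at h1
  exact absurd ((O.1.valuation_le_one_iff G).mpr (h O)) (not_le.mpr h1)

theorem V1_rs (O : VS κ Ω) {x : Ω} (hx : x ∈ O.1) :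
    rs O x = IsLocalRing.residue O.1 ⟨x, hx⟩ := dif_pos hx

theorem rs_add (O : VS κ Ω) {x y : Ω} (hx : x ∈ O.1) (hy : y ∈ O.1) :
    rs O (x + y) = rs O x + rs O y := by
  rw [V1_rs O hx, V1_rs O hy, V1_rs O (O.1.add_mem _ _ hx hy), ← map_add]; rfl
theorem rs_mul (O : VS κ Ω) {x y : Ω} (hx : x ∈ O.1) (hy : y ∈ O.1) :
    rs O (x * y) = rs O x * rs O y := by
  rw [V1_rs O hx, V1_rs O hy, V1_rs O (O.1.mul_mem _ _ hx hy), ← map_mul]; rfl
theorem rs_algebraMap (O : VS κ Ω) (c : κ) :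
    rs O (algebraMap κ Ω c) = algebraMap κ (RF O) c := by
  rw [V1_rs O (O.2 c)]; rfl
theorem rs_eq_zero_iff (O : VS κ Ω) {x : Ω} (hx : x ∈ O.1) :
    rs O x = 0 ↔ O.1.valuation x < 1 := by
  rw [V1_rs O hx, IsLocalRing.residue_eq_zero_iff, O.1.valuation_lt_one_iff]
theorem rs_surj (O : VS κ Ω) (r : RF O) : ∃ x ∈ O.1, rs O x = r := by
  obtain ⟨x, rfl⟩ := IsLocalRing.residue_surjective r
  exact ⟨x.1, x.2, V1_rs O x.2⟩

instance instIsAlgClosedRF [IsAlgClosed Ω] (O : VS κ Ω) : IsAlgClosed (RF O) := by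
  refine IsAlgClosed.of_exists_root _ fun p hp hirr => ?_
  have hlift : p ∈ Polynomial.lifts (IsLocalRing.residue O.1) :=
    Polynomial.mem_lifts_of_surjective IsLocalRing.residue_surjective p
  obtain ⟨q, hq, hdeg, hmon⟩ := Polynomial.lifts_and_degree_eq_and_monic hlift hp
  have hd : (q.map (algebraMap O.1 Ω)).degree ≠ 0 := by
    rw [hmon.degree_map, hdeg]
    exact (Polynomial.degree_pos_of_irreducible hirr).ne'
  obtain ⟨x, hx⟩ := IsAlgClosed.exists_root _ hd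
  have hint : IsIntegral O.1 x := ⟨q, hmon, by
    rw [← Polynomial.eval_map]; exact hx⟩
  obtain ⟨y, rfl⟩ := IsIntegrallyClosed.isIntegral_iff.mp hint
  have hy : q.eval y = 0 := by
    apply IsFractionRing.injective O.1 Ω
    rw [map_zero, ← Polynomial.eval₂_at_apply, ← Polynomial.eval_map]
    exact hx
  refine ⟨IsLocalRing.residue O.1 y, ?_⟩
  rw [← hq, Polynomial.eval_map, Polynomial.eval₂_at_apply, hy, map_zero]
instance instCharZeroRF [CharZero κ] (O : VS κ Ω) : CharZero (RF O) :=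
  charZero_of_injective_algebraMap (algebraMap κ (RF O)).injective

end Pool.Agent.E6b
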