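import Pool.Agent.E6b.O1a
import Pool.Agent.E6b.V1

open scoped NNReal TensorProduct IntermediateField BigOperators Classical Topology
open Filter

namespace Pool.Agent.E6b

section
variable {κ F : Type} [Field κ] [IsAlgClosed κ] [CharZero κ] [Field F] [Algebra κ F] [IsFF κ F]
  (o : Place κ F) (Ω : Type) [Field Ω] [IsAlgClosed Ω] [CharZero Ω] [Algebra κ Ω]

/-- the image of `AA o` in `FO o Ω` -/
noncomputable def iF (Ω : Type) [Field Ω] [Algebra κ Ω] : AA o →ₐ[κ] FO o Ω :=
  (IsScalarTower.toAlgHom κ (AO o Ω) (FO o Ω)).comp Algebra.TensorProduct.includeRight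

/-- the embedding of `F` -/
noncomputable def jF (Ω : Type) [Field Ω] [Algebra κ Ω] : F → FO o Ω := fun f =>
  if h : ∃ x : FO o Ω, ∃ a s : AA o, s ≠ 0 ∧ f * s = a ∧ x * iF o Ω s = iF o Ω a then h.choose
  else 0

/-- places and divisors of the base change -/
abbrev PO : Type := Place Ω (FO o Ω)

abbrev DO : Type := Dv Ω (FO o Ω)

/-- the place at infinity -/
noncomputable def oo : PO o Ω := (exists_oo o Ω).choose

variable {o Ω}

/-- the place of a point -/
noncomputable def plc (y : Pt o Ω) : PO o Ω :=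
  if h : ∃ P : PO o Ω, ∀ f : AO o Ω,
    algebraMap _ (FO o Ω) f ∈ P.O ∧ P.ev (algebraMap _ (FO o Ω) f) = evA y f then h.choose
  else oo o Ω

variable (o Ω)

/-- divisors equivalent to a multiple of the place at infinity -/
def prin : AddSubgroup (DO o Ω) where
  carrier := {D | ∃ k : ℤ, LinEq D (k • pd (oo o Ω))}
  zero_mem' := ⟨0, by simpa using LinEq.refl 0⟩
  add_mem' := by
    rintro a b ⟨k, hk⟩ ⟨l, hl⟩
    exact ⟨k + l, by rw [add_smul]; exact hk.add hl⟩
  neg_mem' := by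
    rintro a ⟨k, hk⟩
    exact ⟨-k, by rw [neg_smul]; exact hk.neg⟩

/-- the group of divisor classes of degree zero -/
abbrev Cl : Type := DO o Ω ⧸ prin o Ω

/-- class of a divisor -/
noncomputable def clD : DO o Ω →+ Cl o Ω := QuotientAddGroup.mk' (prin o Ω)

variable {o Ω}

/-- class of a point -/
noncomputable def cl (y : Pt o Ω) : Cl o Ω := clD o Ω (pd (plc y))

/-- divisor of a family of points -/
noncomputable def dz {ι : Type} [Fintype ι] (z : ι → Pt o Ω) : DO o Ω := ∑ a, pd (plc (z a))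

/-- class of a family of points -/
noncomputable def clz {ι : Type} [Fintype ι] (z : ι → Pt o Ω) : Cl o Ω := clD o Ω (dz z)

/-- dimension of the class of degree `m` attached to `w` -/
noncomputable def ellC (m : ℤ) (w : Cl o Ω) : ℕ :=
  ell (w.out + (m - deg w.out) • pd (oo o Ω))

/-- `w` is outside the theta divisor -/
def Th (w : Cl o Ω) : Prop := ellC ((genus κ F : ℤ) - 1) (-w) = 0

end

section
variable {κ F : Type} [Field κ] [IsAlgClosed κ] [CharZero κ] [Field F] [Algebra κ F] [IsFF κ F]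

/-- (semilinear) base change -/
structure BC (o : Place κ F) (Ω Ω' : Type) [Field Ω] [Algebra κ Ω] [Field Ω'] [Algebra κ Ω'] where
  τ : Ω →+* Ω'
  φ : FO o Ω →+* FO o Ω'
  map_c : ∀ a, φ (algebraMap Ω (FO o Ω) a) = algebraMap Ω' (FO o Ω') (τ a)
  map_eb : ∀ i, φ (iF o Ω (eb o i)) = iF o Ω' (eb o i)

variable {o : Place κ F} {Ω Ω' Ω'' : Type} [Field Ω] [IsAlgClosed Ω] [CharZero Ω] [Algebra κ Ω]
  [Field Ω'] [IsAlgClosed Ω'] [CharZero Ω'] [Algebra κ Ω']
  [Field Ω''] [IsAlgClosed Ω''] [CharZero Ω''] [Algebra κ Ω'']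

def BC.refl (o : Place κ F) (Ω : Type) [Field Ω] [Algebra κ Ω] : BC o Ω Ω where
  τ := RingHom.id Ω
  φ := RingHom.id _
  map_c := fun _ => rfl
  map_eb := fun _ => rfl

def BC.comp (β' : BC o Ω' Ω'') (β : BC o Ω Ω') : BC o Ω Ω'' where
  τ := β'.τ.comp β.τ
  φ := β'.φ.comp β.φ
  map_c := fun a => by simp [β.map_c, β'.map_c]
  map_eb := fun i => by simp [β.map_eb, β'.map_eb]

/-- image of a place -/
noncomputable def BC.plc (β : BC o Ω Ω') (P : PO o Ω) : PO o Ω' :=
  if h : ∃ P' : PO o Ω', ∀ f, P'.ord (β.φ f) = P.ord f ∧ P'.ev (β.φ f) = β.τ (P.ev f) then h.choose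
  else oo o Ω'

/-- image of a divisor -/
noncomputable def BC.dv (β : BC o Ω Ω') : DO o Ω →+ DO o Ω' := Finsupp.mapDomain.addMonoidHom β.plc

/-- `τ` fixes the elements of `S` -/
def Fx (S : Set κ) (τ : Ω →+* Ω') : Prop := ∀ c ∈ S, τ (algebraMap κ Ω c) = algebraMap κ Ω' c

end

end Pool.Agent.E6b
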