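import Pool.Agent.E6b.ODefs1

open scoped NNReal TensorProduct IntermediateField BigOperators Classical Topology
open Filter

namespace Pool.Agent.E6b

section
variable {κ B : Type} [Field κ] [CommRing B] [Algebra κ B]

theorem Osm_dlt_add (a b : B) : (dlt (a + b) : B ⊗[κ] B) = dlt a + dlt b := by
  simp only [dlt, TensorProduct.add_tmul, TensorProduct.tmul_add]
  ring

theorem Osm_dlt_sub (a b : B) : (dlt (a - b) : B ⊗[κ] B) = dlt a - dlt b := by
  simp only [dlt, TensorProduct.sub_tmul, TensorProduct.tmul_sub]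
  ring

theorem Osm_dlt_mul (a b : B) :
    (dlt (a * b) : B ⊗[κ] B) = a ⊗ₜ[κ] 1 * dlt b + 1 ⊗ₜ[κ] b * dlt a := by
  simp only [dlt, mul_sub, Algebra.TensorProduct.tmul_mul_tmul, one_mul, mul_one, mul_comm b a]
  ring

theorem Osm_dlt_const (c : κ) : (dlt (algebraMap κ B c) : B ⊗[κ] B) = 0 := by
  simp only [dlt, Algebra.algebraMap_eq_smul_one, TensorProduct.smul_tmul, sub_self]

theorem Osm_dlt_mem {S : Set B} {a : B} (ha : a ∈ Algebra.adjoin κ S) :
    (dlt a : B ⊗[κ] B) ∈ Ideal.span ((dlt : B → B ⊗[κ] B) '' S) := by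
  induction ha using Algebra.adjoin_induction with
  | mem x hx => exact Ideal.subset_span ⟨x, hx, rfl⟩
  | algebraMap c => rw [Osm_dlt_const]; exact zero_mem _
  | add x y _ _ hx hy => rw [Osm_dlt_add]; exact add_mem hx hy
  | mul x y _ _ hx hy =>
    rw [Osm_dlt_mul]
    exact add_mem (Ideal.mul_mem_left _ _ hy) (Ideal.mul_mem_left _ _ hx)

theorem Osm_loc (χ : B →ₐ[κ] κ) {S : Set B} (hS : S.Finite) {t : B} (ht : χ t = 0)
    (h : ∀ a ∈ S, ∃ s ∈ Algebra.adjoin κ S, ∃ m ∈ Algebra.adjoin κ S, χ s ≠ 0 ∧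
      s * (a - algebraMap κ B (χ a)) = t * m) :
    ∃ u : B ⊗[κ] B, χ (Algebra.TensorProduct.lmul' κ u) = 1 ∧
      ∀ a ∈ Algebra.adjoin κ S, ∃ w : B ⊗[κ] B, u * dlt a = w * dlt t := by
  let ψ : B ⊗[κ] B →ₐ[κ] κ := χ.comp (Algebra.TensorProduct.lmul' κ)
  have hψ : ∀ a b : B, ψ (a ⊗ₜ b) = χ a * χ b := fun a b => by simp [ψ]
  let J : Ideal (B ⊗[κ] B) := Ideal.span ((dlt : B → B ⊗[κ] B) '' S)
  have hle : J ≤ Ideal.span {(dlt t : B ⊗[κ] B)} ⊔ RingHom.ker ψ • J := by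
    rw [Ideal.span_le]
    rintro _ ⟨a, ha, rfl⟩
    obtain ⟨s, hs, m, hm, h0, h1⟩ := h a ha
    have h2 := congrArg (dlt : B → B ⊗[κ] B) h1
    rw [Osm_dlt_mul, Osm_dlt_mul, Osm_dlt_sub, Osm_dlt_const, sub_zero] at h2
    have key : ∀ {x : B ⊗[κ] B} {b : B}, ψ x = 0 → b ∈ Algebra.adjoin κ S →
        x * dlt b ∈ Ideal.span {(dlt t : B ⊗[κ] B)} ⊔ RingHom.ker ψ • J := fun hx hb =>
      Ideal.mem_sup_right (Submodule.smul_mem_smul hx (Osm_dlt_mem hb))
    have h3 : (dlt a : B ⊗[κ] B) = algebraMap κ _ (χ s)⁻¹ *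
        (1 ⊗ₜ[κ] m * dlt t + t ⊗ₜ[κ] 1 * dlt m - 1 ⊗ₜ[κ] (a - algebraMap κ B (χ a)) * dlt s
          - (s ⊗ₜ[κ] 1 - algebraMap κ _ (χ s)) * dlt a) := by
      have h4 : algebraMap κ (B ⊗[κ] B) (χ s)⁻¹ * algebraMap κ _ (χ s) = 1 := by
        rw [← map_mul, inv_mul_cancel₀ h0, map_one]
      linear_combination algebraMap κ (B ⊗[κ] B) (χ s)⁻¹ * h2 - dlt a * h4
    rw [SetLike.mem_coe, h3]
    refine Ideal.mul_mem_left _ _ (sub_mem (sub_mem (add_mem ?_ (key ?_ hm)) (key ?_ hs))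
      (key ?_ (Algebra.subset_adjoin ha)))
    · exact Ideal.mem_sup_left (Ideal.mul_mem_left _ _ (Ideal.subset_span rfl))
    · rw [hψ, ht, zero_mul]
    · simp [hψ]
    · rw [map_sub, hψ, AlgHom.commutes]
      simp
  obtain ⟨u, hu, hJ⟩ := Submodule.exists_sub_one_mem_and_smul_le_of_fg_of_le_sup
    (Submodule.fg_span (hS.image _)) le_rfl hle
  refine ⟨u, ?_, fun a ha => ?_⟩
  · have h1 : ψ (u - 1) = 0 := hu
    rwa [map_sub, map_one, sub_eq_zero] at h1
  · obtain ⟨w, hw⟩ := Ideal.mem_span_singleton'.1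
      (hJ (Submodule.smul_mem_pointwise_smul _ u _ (Osm_dlt_mem ha)))
    exact ⟨w, hw.symm⟩

theorem Osm_pt [IsAlgClosed κ] {C : Type} [CommRing C] [IsDomain C] [Algebra κ C]
    [Algebra.IsIntegral κ C] (y : B →ₐ[κ] C) : ∃ p : B →ₐ[κ] κ, ∀ a, y a = algebraMap κ C (p a) := by
  let e : κ ≃ₐ[κ] C :=
    AlgEquiv.ofBijective (Algebra.ofId κ C) IsAlgClosed.algebraMap_bijective_of_isIntegral
  exact ⟨e.symm.toAlgHom.comp y, fun a => (e.apply_symm_apply _).symm⟩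

theorem Osm_top [IsAlgClosed κ] [Algebra.FiniteType κ B] (I : Ideal B)
    (h : ∀ χ : B →ₐ[κ] κ, ∃ a ∈ I, χ a ≠ 0) : I = ⊤ := by
  by_contra hI
  obtain ⟨m, hm, hle⟩ := Ideal.exists_le_maximal I hI
  let _ := Ideal.Quotient.field m
  have := finite_of_finite_type_of_isJacobsonRing κ (B ⧸ m)
  obtain ⟨p, hp⟩ := Osm_pt (Ideal.Quotient.mkₐ κ m)
  obtain ⟨a, ha, h0⟩ := h p
  have h1 := hp a
  rw [Ideal.Quotient.mkₐ_eq_mk, Ideal.Quotient.eq_zero_iff_mem.2 (hle ha)] at h1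
  exact h0 ((map_eq_zero _).1 h1.symm)

end

variable {κ F : Type} [Field κ] [IsAlgClosed κ] [CharZero κ] [Field F] [Algebra κ F] [IsFF κ F]
  (o : Place κ F)

theorem Osm_ind (N : Submodule κ (AA o)) (h0 : ∀ i : Fin (MM o), eb o i ∈ N)
    (h1 : ∀ a ∈ N, a * wN o ∈ N) : N = ⊤ := by
  rw [eq_top_iff, ← (eb o).span_eq, Submodule.span_le]
  rintro _ ⟨i, rfl⟩
  induction i using Nat.strong_induction_on with
  | _ i ih =>
    by_cases hi : i < MM o
    · exact h0 ⟨i, hi⟩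
    · obtain ⟨j, rfl⟩ : ∃ j, i = j + (2 * genus κ F + 1) :=
        ⟨i - (2 * genus κ F + 1), by unfold MM at hi; omega⟩
      rw [(ebSpec o).per j (by unfold MM at hi; omega)]
      exact h1 _ (ih j (by omega))

theorem adjoin_eb : Algebra.adjoin κ (Set.range fun i : Fin (MM o) => eb o i) = ⊤ := by
  rw [← Algebra.toSubmodule_eq_top]
  exact Osm_ind o _ (fun i => Algebra.subset_adjoin ⟨i, rfl⟩) fun a ha => Subalgebra.mul_mem _ ha
    (Algebra.subset_adjoin ⟨⟨genus κ F + 1, by unfold MM; omega⟩, rfl⟩)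

theorem pt_ext {R : Type} [CommRing R] [Algebra κ R] {y y' : Pt o R} (h : cd y = cd y') : y = y' :=
  AlgHom.ext_of_adjoin_eq_top (adjoin_eb o) (by rintro _ ⟨i, rfl⟩; exact congrFun h i)

/-- a vector satisfying the relations of the generators is a point -/
theorem exists_pt_of_rel {R : Type} [CommRing R] [Algebra κ R] (x : Fin (MM o) → R)
    (h : ∀ Q : MvPolynomial (Fin (MM o)) κ,
      MvPolynomial.aeval (fun i : Fin (MM o) => eb o i) Q = 0 → MvPolynomial.aeval x Q = 0) :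
    ∃ y : Pt o R, cd y = x := by
  have hs : Function.Surjective
      (MvPolynomial.aeval (R := κ) (fun i : Fin (MM o) => eb o i)) := by
    rw [← AlgHom.range_eq_top, ← Algebra.adjoin_range_eq_range_aeval, adjoin_eb]
  refine ⟨AlgHom.liftOfSurjective _ hs (MvPolynomial.aeval x) h, funext fun i => ?_⟩
  have := AlgHom.liftOfSurjective_apply _ hs (MvPolynomial.aeval x) h (MvPolynomial.X i)
  rwa [MvPolynomial.aeval_X, MvPolynomial.aeval_X] at this

theorem isIntegral_wN (a : AA o) : IsIntegral (Algebra.adjoin κ {wN o}) a := by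
  have h := Osm_ind o ((Submodule.span (Algebra.adjoin κ {wN o})
    (Set.range fun i : Fin (MM o) => eb o i)).restrictScalars κ)
    (fun i => Submodule.subset_span ⟨i, rfl⟩) fun a ha => by
      rw [mul_comm]
      exact Submodule.smul_mem _ (⟨wN o, Algebra.subset_adjoin rfl⟩ : Algebra.adjoin κ {wN o}) ha
  rw [Submodule.restrictScalars_eq_top_iff] at h
  have : Module.Finite (Algebra.adjoin κ {wN o}) (AA o) :=
    ⟨h ▸ Submodule.fg_span (Set.finite_range _)⟩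
  exact Algebra.IsIntegral.isIntegral a

theorem Osm_ord_wN : o.ord (wN o : F) = - (NN o : ℤ) := by
  rw [wN, (ebSpec o).ord, (ebSpec o).large _ (Nat.le_succ _), NN]
  push_cast
  ring

theorem wN_notMem : (wN o : F) ∉ (algebraMap κ F).range := by
  rintro ⟨c, hc⟩
  have h := Osm_ord_wN o
  rw [← hc, o.ord_algebraMap, NN] at h
  omega

theorem ord_wN : o.ord (wN o : F) = - (NN o : ℤ) := Osm_ord_wN o

theorem ord_zo : o.ord (zo o) = 1 := by
  have h0 : ∀ i, (eb o i : F) ≠ 0 := fun i h => (eb o).ne_zero i (Subtype.ext h)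
  rw [zo, wN, o.ord_div (h0 _) (h0 _), (ebSpec o).ord, (ebSpec o).ord, (ebSpec o).large _ le_rfl,
    (ebSpec o).large _ (Nat.le_succ _)]
  push_cast
  ring

/-- a point is either constant or generic -/
theorem pt_const_or_inj {Ω : Type} [Field Ω] [Algebra κ Ω] (y : Pt o Ω) :
    (∃ p : Pt o κ, ∀ a, y a = algebraMap κ Ω (p a)) ∨ Function.Injective y := by
  rw [injective_iff_map_eq_zero, or_iff_not_imp_right]
  intro h
  push Not at h
  obtain ⟨a, ha, h0⟩ := h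
  obtain ⟨⟨r, hr⟩, h1, h2⟩ := (Submodule.ne_bot_iff _).1
    (Ideal.comap_ne_bot_of_integral_mem (I := RingHom.ker y) h0 ha (isIntegral_wN o a))
  rw [Algebra.adjoin_singleton_eq_range_aeval] at hr
  obtain ⟨p, rfl⟩ := hr
  have h3 : IsIntegral κ (y (wN o)) := by
    refine IsAlgebraic.isIntegral ⟨p, ?_, ?_⟩
    · rintro rfl
      exact h2 (Subtype.ext (map_zero _))
    · rw [Polynomial.aeval_algHom_apply]
      exact h1
  have h4 : Algebra.adjoin κ {wN o} ≤ (integralClosure κ Ω).comap y :=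
    Algebra.adjoin_le (Set.singleton_subset_iff.2 h3)
  have h5 : ∀ b, y b ∈ integralClosure κ Ω := fun b =>
    isIntegral_trans (A := integralClosure κ Ω) _ ((isIntegral_wN o b).map_of_comp_eq
      ((y.comp (Subalgebra.val _)).codRestrict _ fun x => h4 x.2).toRingHom y.toRingHom rfl)
  obtain ⟨q, hq⟩ := Osm_pt (y.codRestrict _ h5)
  exact ⟨q, fun b => congrArg Subtype.val (hq b)⟩

theorem Osm_div {P : Place κ F} (hP : P ≠ o) {t a : F} (ht : P.ord t = 1) (ha : a ∈ P.O) :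
    ∃ s m : AA o, P.ev s ≠ 0 ∧ s * (a - algebraMap κ F (P.ev a)) = t * m := by
  have h0 : t ≠ 0 := fun h => by simp [h, P.ord_zero] at ht
  have h1 : (a - algebraMap κ F (P.ev a)) / t ∈ P.O := by
    rcases eq_or_ne (a - algebraMap κ F (P.ev a)) 0 with h | h
    · rw [h, zero_div]
      exact zero_mem _
    · have := (P.ev_spec ha).resolve_left (sub_ne_zero.1 h)
      rw [P.mem_iff, P.ord_div h h0]
      omega
  obtain ⟨m, s, h2, h3⟩ := exists_div_AA o hP h1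
  exact ⟨s, m, h2, by rw [← h3]; field_simp⟩

theorem Osm_at (χ : Pt o κ) : ∃ (τ : AA o) (u : AA o ⊗[κ] AA o),
    χ (Algebra.TensorProduct.lmul' κ u) = 1 ∧
      ∀ a : AA o, ∃ w : AA o ⊗[κ] AA o, u * dlt a = w * dlt τ := by
  obtain ⟨P, hP, hχ⟩ := exists_place_of_pt o χ
  obtain ⟨π, h0, h1⟩ := P.exists_ord_eq 1
  obtain ⟨t, s, hs, ht⟩ := exists_div_AA o hP (f := π) (by rw [P.mem_iff]; omega)
  have h2 : P.ord (t : F) = 1 := by
    have h3 := (P.ev_eq_zero_iff (s.2 P hP)).not.1 hs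
    have h4 := P.mem_iff.1 (s.2 P hP)
    rw [not_or] at h3
    rw [← ht, P.ord_mul h0 h3.1]
    omega
  obtain ⟨u, hu, h⟩ := Osm_loc χ (Set.finite_range fun i : Fin (MM o) => eb o i) (t := t)
    (by rw [← hχ, P.ev_eq_zero_iff (t.2 P hP)]; omega) fun a _ => by
      obtain ⟨s, m, h3, h4⟩ := Osm_div o hP h2 (a.2 P hP)
      rw [adjoin_eb]
      rw [hχ] at h3 h4
      exact ⟨s, trivial, m, trivial, h3, Subtype.ext h4⟩
  exact ⟨t, u, hu, fun a => h a (by rw [adjoin_eb]; trivial)⟩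

/-- smoothness of the affine curve -/
theorem exists_smooth : ∃ (n : ℕ) (τ v : Fin n → AA o) (u : Fin n → AA o ⊗[κ] AA o),
    ∑ i, v i * Algebra.TensorProduct.lmul' κ (u i) = 1 ∧
      ∀ i (a : AA o), ∃ w : AA o ⊗[κ] AA o, u i * dlt a = w * dlt (τ i) := by
  choose τ u h1 h2 using Osm_at o
  have h3 := Osm_top (κ := κ) (Ideal.span (Set.range fun χ => Algebra.TensorProduct.lmul' κ (u χ)))
    fun χ => ⟨_, Ideal.subset_span ⟨χ, rfl⟩, by rw [h1]; exact one_ne_zero⟩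
  obtain ⟨n, v, g, h4⟩ := Submodule.mem_span_set'.1 ((Ideal.eq_top_iff_one _).1 h3)
  choose χ hχ using fun i => (g i).2
  exact ⟨n, fun i => τ (χ i), v, fun i => u (χ i), by simpa only [← hχ, smul_eq_mul] using h4,
    fun i => h2 (χ i)⟩

/-- smoothness at `o` -/
theorem exists_smooth_inf (z : o.OA) (hz : o.ord (z : F) = 1) (f : o.OA) :
    ∃ u w : o.OA ⊗[κ] o.OA, o.evH (Algebra.TensorProduct.lmul' κ u) ≠ 0 ∧
      u * dlt f = w * dlt z := by
  obtain ⟨o', ho⟩ := exists_ne o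
  let ι : AA o' →ₐ[κ] o.OA := Subalgebra.inclusion fun a ha => ha o ho.symm
  have hι : ∀ a, ι a ∈ Algebra.adjoin κ (insert f (ι '' Set.range fun i : Fin (MM o') => eb o' i)) :=
    fun a => Algebra.adjoin_mono (Set.subset_insert _ _) (by
      rw [← AlgHom.map_adjoin, adjoin_eb]
      exact ⟨a, trivial, rfl⟩)
  obtain ⟨u, hu, h⟩ := Osm_loc o.evH (((Set.finite_range _).image ι).insert f) (t := z)
    ((o.ev_eq_zero_iff z.2).2 (Or.inr (by omega))) fun a _ => by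
      obtain ⟨s, m, h3, h4⟩ := Osm_div o' ho.symm hz a.2
      exact ⟨ι s, hι s, ι m, hι m, h3, Subtype.ext h4⟩
  obtain ⟨w, hw⟩ := h f (Algebra.subset_adjoin (Set.mem_insert _ _))
  exact ⟨u, w, by rw [hu]; exact one_ne_zero, hw⟩

end Pool.Agent.E6b
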