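import Pool.Agent.E6b.O3

open scoped NNReal TensorProduct IntermediateField BigOperators Classical Topology
open Filter

namespace Pool.Agent.E6b

variable {κ F : Type} [Field κ] [IsAlgClosed κ] [CharZero κ] [Field F] [Algebra κ F] [IsFF κ F]

/-- finitely many unramified fibres of `wN` -/
structure PD (o : Place κ F) where
  c : Fin (5 * genus κ F + 1) → κ
  q : Fin (5 * genus κ F + 1) → Fin (NN o) → Pt o κ
  c_inj : Function.Injective c
  q_inj : ∀ i, Function.Injective (q i)
  q_wN : ∀ i l, q i l (wN o) = c i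

theorem exists_PD (o : Place κ F) : Nonempty (PD o) := by
  have hB := (finite_ram (iF_wN_notMem (o := o) (Ω := κ))).image
    fun P : PO o κ => P.ev (iF o κ (wN o))
  let e := hB.infinite_compl.natEmbedding
  let c : Fin (5 * genus κ F + 1) → κ := fun i => e i
  choose q hq hq' _ using fun i => exists_fibre (o := o) (c i)
  refine ⟨⟨c, q, fun i j h => Fin.ext (e.injective (Subtype.ext h)), fun i => ?_, hq'⟩⟩
  refine injective_of_dz_le_one fun P => ?_
  by_cases hP : P = oo o κ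
  · rw [hP, dz_oo]
    exact zero_le_one
  have h1 : P.ord (iF o κ (wN o) - algebraMap κ _ (c i)) = dz (q i) P := by
    rw [← dv_apply, hq, Finsupp.sub_apply, Finsupp.smul_apply, F1_pd_apply,
      if_neg (Ne.symm hP), smul_zero, sub_zero]
  rw [← h1]
  by_contra h2
  have h3 : P.ev (iF o κ (wN o)) = c i := P.ev_eq (Or.inr (by omega))
  refine (e i).2 ⟨P, ?_, h3⟩
  rw [Set.mem_ofPred_eq, h3]
  omega

noncomputable def pdat (o : Place κ F) : PD o := Classical.choice (exists_PD o)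

variable {o : Place κ F} {Ω : Type} [Field Ω] [IsAlgClosed Ω] [CharZero Ω] [Algebra κ Ω]

/-- injective families avoiding the chosen fibres -/
def Good {Ω : Type} [Field Ω] [Algebra κ Ω] {ι : Type} (z : ι → Pt o Ω) : Prop :=
  Function.Injective z ∧ ∀ a i, z a (wN o) ≠ algebraMap κ Ω ((pdat o).c i)

theorem exists_good_rep (w : Cl o Ω) (ι : Type) [Fintype ι] (hι : 2 * genus κ F ≤ Fintype.card ι)
    {T : Set (Pt o Ω)} (hT : T.Finite) :
    ∃ z : ι → Pt o Ω, Good z ∧ (∀ a, z a ∉ T) ∧ clz z = w := by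
  have hT' := hT.union (Set.finite_iUnion fun i =>
    finite_pt_wN (o := o) (algebraMap κ Ω ((pdat o).c i)))
  obtain ⟨z, h1, h2, h3⟩ := exists_rep w ι hι hT'
  exact ⟨z, ⟨h1, fun a i h => h2 a (Or.inr (Set.mem_iUnion.2 ⟨i, h⟩))⟩,
    fun a h => h2 a (Or.inl h), h3⟩

omit [IsAlgClosed Ω] [CharZero Ω] in
theorem Good.comp {ι ι' : Type} {z : ι → Pt o Ω} (h : Good z) {e : ι' → ι}
    (he : Function.Injective e) : Good (z ∘ e) :=
  ⟨h.1.comp he, fun a i => h.2 (e a) i⟩

omit [IsAlgClosed Ω] [CharZero Ω] in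
theorem Good.elim {ι ι' : Type} {z : ι → Pt o Ω} {z' : ι' → Pt o Ω} (h : Good z) (h' : Good z')
    (hd : ∀ a b, z a ≠ z' b) : Good (Sum.elim z z') := by
  refine ⟨h.1.sumElim h'.1 hd, ?_⟩
  rintro (a | a) i
  · exact h.2 a i
  · exact h'.2 a i

end Pool.Agent.E6b
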