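import Pool.Agent.E6b.F3

open scoped NNReal TensorProduct IntermediateField BigOperators Classical Topology
open Filter

namespace Pool.Agent.E6b

variable {κ F : Type} [Field κ] [IsAlgClosed κ] [CharZero κ] [Field F] [Algebra κ F] [IsFF κ F]

omit [IsAlgClosed κ] [CharZero κ] [IsFF κ F] in
theorem P1_deg_sum {α : Type} (p : α → Place κ F) (A : Finset α) :
    deg (∑ i ∈ A, pd (p i)) = A.card := by
  rw [deg_sum]
  simp [deg_pd]

omit [IsAlgClosed κ] [CharZero κ] [IsFF κ F] in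
theorem P1_pd_nonneg (P : Place κ F) : 0 ≤ pd P := by
  intro Q
  rw [F1_pd_apply]
  split_ifs <;> simp

theorem P1_step {g : ℕ} (hg : genus κ F = g) (p : Fin (5 * g + 1) → Place κ F)
    (hp : Function.Injective p) (D : Dv κ F) (hD : deg D = g - 1) (A : Finset (Fin (5 * g + 1)))
    (hA : A.card = g) (r : ℕ) (hr : r ≤ g) :
    ∃ B : Finset (Fin (5 * g + 1)), Disjoint A B ∧ B.card = r ∧
      ell (D + ∑ i ∈ A, pd (p i) - ∑ i ∈ B, pd (p i)) + r ≤ g ∧
      ell (D - ∑ i ∈ A, pd (p i) + ∑ i ∈ B, pd (p i)) = 0 := by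
  induction r with
  | zero =>
    refine ⟨∅, Finset.disjoint_empty_right _, rfl, ?_, ?_⟩
    · have h1 : deg (D + ∑ i ∈ A, pd (p i)) = 2 * g - 1 := by
        rw [deg_add, P1_deg_sum, hD, hA]
        ring
      have h2 := rr_large (D := D + ∑ i ∈ A, pd (p i)) (by rw [h1, hg])
      rw [Finset.sum_empty, sub_zero]
      rw [h1, hg] at h2
      omega
    · rw [Finset.sum_empty, add_zero, ell_eq_zero_iff]
      refine LL_eq_bot ?_
      rw [deg_sub, P1_deg_sum, hD, hA]
      omega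
  | succ r ih =>
    obtain ⟨B, hAB, hB, h1, h2⟩ := ih (by omega)
    set E₁ := D + ∑ i ∈ A, pd (p i) - ∑ i ∈ B, pd (p i) with hE₁
    set E₂ := D - ∑ i ∈ A, pd (p i) + ∑ i ∈ B, pd (p i) with hE₂
    have d1 : deg E₁ = 2 * g - 1 - r := by
      rw [hE₁, deg_sub, deg_add, P1_deg_sum, P1_deg_sum, hD, hA, hB]
      ring
    have d2 : deg E₂ = r - 1 := by
      rw [hE₂, deg_add, deg_sub, P1_deg_sum, P1_deg_sum, hD, hA, hB]
      ring
    have r1 := riemann E₁
    rw [d1, hg] at r1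
    let S₁ : Finset (Fin (5 * g + 1)) := Finset.univ.filter fun i => ell (E₁ - pd (p i)) = ell E₁
    let S₂ : Finset (Fin (5 * g + 1)) := Finset.univ.filter fun i => ell E₂ < ell (E₂ + pd (p i))
    have c1 := card_base_le (D := E₁) (by omega) (S₁.image p) (by
      intro P hP
      obtain ⟨i, hi, rfl⟩ := Finset.mem_image.1 hP
      exact (Finset.mem_filter.1 hi).2)
    have c2 := card_h1_le (D := E₂) (by rw [d2, hg, h2]; omega) (S₂.image p) (by
      intro P hP
      obtain ⟨i, hi, rfl⟩ := Finset.mem_image.1 hP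
      exact (Finset.mem_filter.1 hi).2)
    rw [Finset.card_image_of_injective _ hp, d1] at c1
    rw [Finset.card_image_of_injective _ hp, d2, hg] at c2
    have c3 : (A ∪ B ∪ S₁ ∪ S₂).card < (Finset.univ : Finset (Fin (5 * g + 1))).card := by
      have a1 := Finset.card_union_le (A ∪ B ∪ S₁) S₂
      have a2 := Finset.card_union_le (A ∪ B) S₁
      have a3 := Finset.card_union_le A B
      rw [Finset.card_univ, Fintype.card_fin]
      omega
    obtain ⟨i, -, hi⟩ := Finset.exists_mem_notMem_of_card_lt_card c3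
    simp only [Finset.mem_union, not_or, S₁, S₂, Finset.mem_filter, Finset.mem_univ, true_and,
      not_lt] at hi
    obtain ⟨⟨⟨iA, iB⟩, i1⟩, i2⟩ := hi
    refine ⟨insert i B, Finset.disjoint_insert_right.2 ⟨iA, hAB⟩,
      by rw [Finset.card_insert_of_notMem iB, hB], ?_, ?_⟩
    · have e1 : D + ∑ i ∈ A, pd (p i) - ∑ i ∈ insert i B, pd (p i) = E₁ - pd (p i) := by
        rw [Finset.sum_insert iB, hE₁]
        abel
      have e2 : ell (E₁ - pd (p i)) ≤ ell E₁ := ell_mono (sub_le_self _ (P1_pd_nonneg _))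
      rw [e1]
      omega
    · have e1 : D - ∑ i ∈ A, pd (p i) + ∑ i ∈ insert i B, pd (p i) = E₂ + pd (p i) := by
        rw [Finset.sum_insert iB, hE₂]
        abel
      rw [e1]
      omega

theorem P1_exists_emb {g : ℕ} (hg : genus κ F = g) (p : Fin (5 * g + 1) → Place κ F)
    (hp : Function.Injective p) (D : Dv κ F) (hD : deg D = g - 1) :
    ∃ j : (Fin g ⊕ Fin g) ↪ Fin (5 * g + 1),
      ell (D + ∑ s, pd (p (j (.inl s))) - ∑ s, pd (p (j (.inr s)))) = 0 ∧
      ell (D - ∑ s, pd (p (j (.inl s))) + ∑ s, pd (p (j (.inr s)))) = 0 := by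
  obtain ⟨A, -, hA⟩ := Finset.exists_subset_card_eq (s := (Finset.univ : Finset (Fin (5 * g + 1))))
    (n := g) (by rw [Finset.card_univ, Fintype.card_fin]; omega)
  obtain ⟨B, hAB, hB, h1, h2⟩ := P1_step hg p hp D hD A hA g le_rfl
  have key : ∀ (C : Finset (Fin (5 * g + 1))) (hC : C.card = g),
      ∑ s, pd (p (C.orderEmbOfFin hC s)) = ∑ i ∈ C, pd (p i) := by
    intro C hC
    rw [← Finset.sum_coe_sort C]
    exact Equiv.sum_comp (C.orderIsoOfFin hC).toEquiv fun i => pd (p i)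
  refine ⟨⟨Sum.elim (A.orderEmbOfFin hA) (B.orderEmbOfFin hB),
    (A.orderEmbOfFin hA).injective.sumElim (B.orderEmbOfFin hB).injective fun a b h => ?_⟩, ?_, ?_⟩
  · exact Finset.disjoint_left.1 hAB (A.orderEmbOfFin_mem hA a) (h ▸ B.orderEmbOfFin_mem hB b)
  · simp only [Function.Embedding.coeFn_mk, Sum.elim_inl, Sum.elim_inr, key]
    omega
  · simp only [Function.Embedding.coeFn_mk, Sum.elim_inl, Sum.elim_inr, key]
    exact h2

end Pool.Agent.E6b
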