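import Pool.Agent.E6b.PDefs
import Pool.Agent.E6b.P1Aux

open scoped NNReal TensorProduct IntermediateField BigOperators Classical Topology
open Filter

namespace Pool.Agent.E6b

variable {κ F : Type} [Field κ] [IsAlgClosed κ] [CharZero κ] [Field F] [Algebra κ F] [IsFF κ F]
  {o : Place κ F} {Ω Ω' : Type} [Field Ω] [IsAlgClosed Ω] [CharZero Ω] [Algebra κ Ω]
  [Field Ω'] [IsAlgClosed Ω'] [CharZero Ω'] [Algebra κ Ω'] {ι ι' : Type} [Fintype ι] [Fintype ι']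

theorem Prp.refl {ι K : Type*} [Field K] (x : ι → K) : Prp x x :=
  ⟨1, one_ne_zero, fun _ => (one_mul _).symm⟩
theorem Prp.symm {ι K : Type*} [Field K] {x y : ι → K} (h : Prp x y) : Prp y x := by
  obtain ⟨μ, h0, h⟩ := h
  exact ⟨μ⁻¹, inv_ne_zero h0, fun i => by rw [h, inv_mul_cancel_left₀ h0]⟩
theorem Prp.trans {ι K : Type*} [Field K] {x y z : ι → K} (h : Prp x y) (h' : Prp y z) :
    Prp x z := by
  obtain ⟨μ, h0, h⟩ := h
  obtain ⟨μ', h0', h'⟩ := h'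
  exact ⟨μ * μ', mul_ne_zero h0 h0', fun i => by rw [h, h', mul_assoc]⟩
theorem Prp.ne_zero {ι K : Type*} [Field K] {x y : ι → K} (h : Prp x y) (hy : y ≠ 0) : x ≠ 0 := by
  obtain ⟨μ, h0, h⟩ := h
  intro hx
  refine hy (funext fun i => ?_)
  have h1 : μ * y i = 0 := by rw [← h, hx]; rfl
  exact (mul_eq_zero.1 h1).resolve_left h0
theorem Prp.map {ι K K' : Type*} [Field K] [Field K'] {x y : ι → K} (h : Prp x y) (τ : K →+* K') :
    Prp (fun i => τ (x i)) fun i => τ (y i) := by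
  obtain ⟨μ, h0, h⟩ := h
  exact ⟨τ μ, (map_ne_zero τ).2 h0, fun i => by simp only [h, map_mul]⟩
theorem Prp.of_map {ι K K' : Type*} [Field K] [Field K'] {x y : ι → K} (τ : K →+* K')
    (h : Prp (fun i => τ (x i)) fun i => τ (y i)) : Prp x y := by
  obtain ⟨μ, h0, h⟩ := h
  by_cases hy : ∃ i, y i ≠ 0
  · obtain ⟨i₀, hi⟩ := hy
    have h1 : τ (x i₀ / y i₀) = μ := by
      rw [map_div₀, div_eq_iff ((map_ne_zero τ).2 hi)]
      exact h i₀
    refine ⟨x i₀ / y i₀, fun h2 => h0 (by rw [← h1, h2, map_zero]), fun i => τ.injective ?_⟩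
    rw [map_mul, h1]
    exact h i
  · refine ⟨1, one_ne_zero, fun i => τ.injective ?_⟩
    have h1 : y i = 0 := by_contra fun h2 => hy ⟨i, h2⟩
    have h2 : τ (x i) = μ * τ (y i) := h i
    rw [h2, h1, map_zero, mul_zero, mul_zero, map_zero]
theorem Prp.segre {ι ι' K : Type*} [Field K] {x y : ι → K} {x' y' : ι' → K} (h : Prp x y)
    (h' : Prp x' y') : Prp (fun p : ι × ι' => x p.1 * x' p.2) fun p => y p.1 * y' p.2 := by
  obtain ⟨μ, h0, h⟩ := h
  obtain ⟨μ', h0', h'⟩ := h'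
  refine ⟨μ * μ', mul_ne_zero h0 h0', fun p => ?_⟩
  simp only [h, h']
  ring
theorem prp_gm_iff (U : Ultrafilter ℕ) {L : Type} [Field L] (x y : ℕ → ι → L) :
    Prp (fun i => gm U fun n => x n i) (fun i => gm U fun n => y n i) ↔
      ∀ᶠ n in (U : Filter ℕ), Prp (x n) (y n) := by
  constructor
  · rintro ⟨μ, h0, h⟩
    obtain ⟨m, rfl⟩ := gm_surj U μ
    have h1 : ∀ᶠ n in (U : Filter ℕ), m n ≠ 0 := (gm_ne_iff U m fun _ => 0).1 h0
    have h2 : ∀ᶠ n in (U : Filter ℕ), ∀ i, x n i = m n * y n i := by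
      refine eventually_all.2 fun i => (gm_eq_iff U _ _).1 ?_
      rw [gm_mul]
      exact h i
    filter_upwards [h1, h2] with n a1 a2 using ⟨m n, a1, a2⟩
  · intro h
    let m : ℕ → L := fun n => if h : Prp (x n) (y n) then h.choose else 1
    have h1 : ∀ᶠ n in (U : Filter ℕ), m n ≠ 0 ∧ ∀ i, x n i = m n * y n i := by
      filter_upwards [h] with n hn
      simp only [m, dif_pos hn]
      exact hn.choose_spec
    refine ⟨gm U m, (gm_ne_iff U m fun _ => 0).2 (h1.mono fun n hn => hn.1), fun i => ?_⟩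
    change gm U (fun n => x n i) = gm U m * gm U fun n => y n i
    rw [← gm_mul]
    exact (gm_eq_iff U _ _).2 (h1.mono fun n hn => hn.2 i)

theorem sw_sw (j : JJ o) : sw (sw j) = j := by
  ext s
  rcases s with s | s <;> rfl

/-- the fibre used by `Pj` -/
noncomputable def P1_ix (j : JJ o) (x : Fin (genus κ F) × Fin (NN o)) : Fin (5 * genus κ F + 1) :=
  if (x.2 : ℕ) = 0 then j (.inr x.1) else j (.inl x.1)

omit [IsAlgClosed Ω] [CharZero Ω] in
theorem P1_Pj (j : JJ o) (x : Fin (genus κ F) × Fin (NN o)) :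
    Pj Ω j x = cpt Ω ((pdat o).q (P1_ix j x) x.2) := by
  unfold Pj P1_ix
  split_ifs <;> rfl

omit [IsAlgClosed κ] [CharZero κ] [IsFF κ F] [IsAlgClosed Ω] [CharZero Ω] in
theorem P1_cpt_inj : Function.Injective (cpt Ω : Pt o κ → Pt o Ω) := fun _ _ h =>
  AlgHom.ext fun a => (algebraMap κ Ω).injective (DFunLike.congr_fun h a)

omit [IsAlgClosed Ω] [CharZero Ω] in
theorem P1_cpt_wN (i : Fin (5 * genus κ F + 1)) (l : Fin (NN o)) :
    cpt Ω ((pdat o).q i l) (wN o) = algebraMap κ Ω ((pdat o).c i) :=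
  congrArg (algebraMap κ Ω) ((pdat o).q_wN i l)

theorem P1_q_inj {i i' : Fin (5 * genus κ F + 1)} {l l' : Fin (NN o)}
    (h : (pdat o).q i l = (pdat o).q i' l') : i = i' ∧ l = l' := by
  have h1 : i = i' := (pdat o).c_inj (by rw [← (pdat o).q_wN i l, h, (pdat o).q_wN])
  subst h1
  exact ⟨rfl, (pdat o).q_inj i h⟩

omit [IsAlgClosed Ω] [CharZero Ω] in
theorem Pj_injective (j : JJ o) : Function.Injective (Pj Ω j) := by
  rintro ⟨s, l⟩ ⟨s', l'⟩ h
  rw [P1_Pj, P1_Pj] at h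
  obtain ⟨h1, h2⟩ := P1_q_inj (P1_cpt_inj h)
  obtain rfl : l = l' := h2
  unfold P1_ix at h1
  split_ifs at h1
  · exact Prod.ext (Sum.inr_injective (j.injective h1)) rfl
  · exact Prod.ext (Sum.inl_injective (j.injective h1)) rfl
theorem dz_Pj_add (j : JJ o) : dz (Pj Ω j) + dz (Pj Ω (sw j)) =
    ∑ s, dz fun l => cpt Ω ((pdat o).q (j s) l) := by
  rw [Fintype.sum_sum_type, ← Finset.sum_add_distrib]
  unfold dz
  rw [← Finset.sum_add_distrib, Fintype.sum_prod_type]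
  refine Finset.sum_congr rfl fun s _ => ?_
  rw [← Finset.sum_add_distrib]
  refine Finset.sum_congr rfl fun l _ => ?_
  rw [P1_Pj, P1_Pj]
  unfold P1_ix
  split_ifs
  · exact add_comm _ _
  · rfl
theorem dv_wN_sub_c (i : Fin (5 * genus κ F + 1)) :
    dv Ω (iF o Ω (wN o) - algebraMap Ω (FO o Ω) (algebraMap κ Ω ((pdat o).c i))) =
      (dz fun l => cpt Ω ((pdat o).q i l)) - (NN o : ℤ) • pd (oo o Ω) :=
  dv_wN_sub (P1_cpt_inj.comp ((pdat o).q_inj i)) (P1_cpt_wN i)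

theorem P1_clz_fibre (i : Fin (5 * genus κ F + 1)) :
    clD o Ω (dz fun l => cpt Ω ((pdat o).q i l)) = 0 := by
  have h := clD_dv (iF o Ω (wN o) - algebraMap Ω (FO o Ω) (algebraMap κ Ω ((pdat o).c i)))
  rwa [dv_wN_sub_c, map_sub, map_zsmul, clD_oo, smul_zero, sub_zero] at h

theorem aj_sw (j : JJ o) : aj Ω (sw j) = - aj Ω j := by
  refine eq_neg_of_add_eq_zero_right ?_
  unfold aj clz
  rw [← map_add, dz_Pj_add, map_sum]
  exact Finset.sum_eq_zero fun s _ => P1_clz_fibre _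
omit [IsAlgClosed Ω] [CharZero Ω] [Fintype ι] in
theorem Good.injective_elim_Pj {z : ι → Pt o Ω} (h : Good z) (j : JJ o) :
    Function.Injective (Sum.elim z (Pj Ω j)) := by
  refine h.1.sumElim (Pj_injective j) fun a x e => h.2 a (P1_ix j x) ?_
  rw [e, P1_Pj, P1_cpt_wN]

/-- the first index -/
def P1_l0 (o : Place κ F) : Fin (NN o) := ⟨0, Nat.succ_pos _⟩

theorem P1_aj (j : JJ o) : aj Ω j =
    ∑ s, cl (cpt Ω ((pdat o).q (j (.inr s)) (P1_l0 o))) -
      ∑ s, cl (cpt Ω ((pdat o).q (j (.inl s)) (P1_l0 o))) := by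
  unfold aj
  rw [clz_eq_sum, Fintype.sum_prod_type, ← Finset.sum_sub_distrib]
  refine Finset.sum_congr rfl fun s _ => ?_
  have h0 : ∑ l, cl (cpt Ω ((pdat o).q (j (.inl s)) l)) = 0 := by
    rw [← clz_eq_sum]
    exact P1_clz_fibre _
  rw [← Finset.add_sum_erase _ _ (Finset.mem_univ (P1_l0 o))] at h0 ⊢
  have h1 : ∑ l ∈ Finset.univ.erase (P1_l0 o), cl (Pj Ω j (s, l)) =
      ∑ l ∈ Finset.univ.erase (P1_l0 o), cl (cpt Ω ((pdat o).q (j (.inl s)) l)) := by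
    refine Finset.sum_congr rfl fun l hl => ?_
    have h2 : (l : ℕ) ≠ 0 := fun h => (Finset.mem_erase.1 hl).1 (Fin.ext h)
    rw [P1_Pj, P1_ix, if_neg h2]
  rw [h1, eq_neg_of_add_eq_zero_right h0, sub_eq_add_neg]
  rfl

theorem P1_th {w : Cl o Ω} {D : DO o Ω} (hD : deg D = genus κ F - 1) (h : clD o Ω D = -w)
    (h0 : ell D = 0) : Th w := by
  unfold Th
  rw [← h, ellC_clD, hD, sub_self, zero_smul, add_zero, h0]

theorem exists_j (w : Cl o Ω) : ∃ j : JJ o, Th (w + aj Ω j) ∧ Th (w - aj Ω j) := by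
  obtain ⟨D, hD⟩ := clD_surj (-w)
  let D₀ : DO o Ω := D + ((genus κ F : ℤ) - 1 - deg D) • pd (oo o Ω)
  have d0 : deg D₀ = genus κ F - 1 := by
    rw [deg_add, deg_zsmul, deg_pd]
    ring
  have c0 : clD o Ω D₀ = -w := by
    rw [map_add, map_zsmul, clD_oo, smul_zero, add_zero, hD]
  obtain ⟨j, h1, h2⟩ := P1_exists_emb (genus_FO (o := o) (Ω := Ω))
    (fun i => plc (cpt Ω ((pdat o).q i (P1_l0 o))))
    (fun i i' h => (P1_q_inj (P1_cpt_inj (plc_injective h))).1) D₀ d0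
  refine ⟨j, P1_th ?_ ?_ h1, P1_th ?_ ?_ h2⟩
  · rw [deg_sub, deg_add, P1_deg_sum, P1_deg_sum, d0]
    ring
  · rw [map_sub, map_add, c0, map_sum, map_sum, P1_aj]
    unfold cl
    abel
  · rw [deg_add, deg_sub, P1_deg_sum, P1_deg_sum, d0]
    ring
  · rw [map_add, map_sub, c0, map_sum, map_sum, P1_aj]
    unfold cl
    abel

theorem P1_det {z : ι → Pt o Ω} (h : Good z) (j : JJ o) :
    Det (Sum.elim z (Pj Ω j)) ≠ 0 ↔ Th (clz z + aj Ω j) := by
  rw [Det_ne_zero_iff _ (h.injective_elim_Pj j), clz_elim]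
  · rfl
  · rw [Fintype.card_sum, Fintype.card_prod, Fintype.card_fin, Fintype.card_fin]
    exact le_add_left (Nat.le_mul_of_pos_right _ (Nat.succ_pos _))

theorem rho_ne_zero_iff {z : ι → Pt o Ω} (h : Good z) (j : JJ o) :
    rho z j ≠ 0 ↔ Th (clz z + aj Ω j) ∧ Th (clz z - aj Ω j) := by
  have h0 : ∏ a, ∏ s, (z a (wN o) - algebraMap κ Ω ((pdat o).c (j s))) ≠ 0 :=
    Finset.prod_ne_zero_iff.2 fun a _ => Finset.prod_ne_zero_iff.2 fun s _ =>
      sub_ne_zero.2 (h.2 a _)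
  unfold rho
  rw [div_ne_zero_iff, mul_ne_zero_iff, P1_det h, P1_det h, aj_sw, ← sub_eq_add_neg]
  exact and_iff_left h0
theorem rho_ne_zero {z : ι → Pt o Ω} (h : Good z) : rho z ≠ 0 := by
  obtain ⟨j, hj⟩ := exists_j (clz z)
  exact fun h0 => (rho_ne_zero_iff h j).2 hj (congrFun h0 j)
omit [IsAlgClosed Ω] [CharZero Ω] in
theorem rho_comp_equiv (z : ι → Pt o Ω) (e : ι' ≃ ι) : rho (z ∘ e) = rho z := by
  funext j
  obtain ⟨ε, hε⟩ := exists_Det_comp_equiv (o := o)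
    (e.sumCongr (Equiv.refl (Fin (genus κ F) × Fin (NN o))))
  have h1 : ∀ j : JJ o, Det (Sum.elim (z ∘ e) (Pj Ω j)) =
      ((ε : ℤ) : Ω) * Det (Sum.elim z (Pj Ω j)) := by
    intro j
    rw [← hε]
    congr 1
    funext x
    rcases x with x | x <;> rfl
  have h2 : ((ε : ℤ) : Ω) * ((ε : ℤ) : Ω) = 1 := by
    rw [← Int.cast_mul, ← Units.val_mul, Int.units_mul_self, Units.val_one, Int.cast_one]
  unfold rho
  rw [h1, h1, mul_mul_mul_comm, h2, one_mul]
  congr 1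
  exact Equiv.prod_comp e fun a => ∏ s, (z a (wN o) - algebraMap κ Ω ((pdat o).c (j s)))

theorem bc_ok (τ : Ω →ₐ[κ] Ω') : (bc o τ).Ok := by
  intro i l
  rw [bc_pt]
  exact AlgHom.ext fun a => τ.commutes _
theorem exists_ok_finset (o : Place κ F) : ∃ S : Finset κ, ∀ (Ω Ω' : Type) [Field Ω] [IsAlgClosed Ω]
    [CharZero Ω] [Algebra κ Ω] [Field Ω'] [IsAlgClosed Ω'] [CharZero Ω'] [Algebra κ Ω']
    (τ : Ω →+* Ω'), Fx (S : Set κ) τ → ∃ β : BC o Ω Ω', β.τ = τ ∧ β.Ok := by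
  obtain ⟨S, hS⟩ := exists_bc_finset o
  refine ⟨S ∪ Finset.univ.image fun x : Fin (5 * genus κ F + 1) × Fin (NN o) × Fin (MM o) =>
    (pdat o).q x.1 x.2.1 (eb o x.2.2), ?_⟩
  intro Ω Ω' _ _ _ _ _ _ _ _ τ hτ
  obtain ⟨β, hβ⟩ := hS Ω Ω' τ fun c hc => hτ c (Finset.mem_union_left _ hc)
  refine ⟨β, hβ, fun i l => pt_ext o (funext fun m => ?_)⟩
  change β.pt _ (eb o m) = _
  rw [β.pt_eb, hβ]
  exact hτ _ (Finset.mem_union_right _ (Finset.mem_image.2 ⟨(i, l, m), Finset.mem_univ _, rfl⟩))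
theorem P1_pt_wN (β : BC o Ω Ω') (y : Pt o Ω) : β.pt y (wN o) = β.τ (y (wN o)) := β.pt_eb y _
theorem BC.Ok.c {β : BC o Ω Ω'} (h : β.Ok) (i : Fin (5 * genus κ F + 1)) :
    β.τ (algebraMap κ Ω ((pdat o).c i)) = algebraMap κ Ω' ((pdat o).c i) := by
  rw [← P1_cpt_wN i (P1_l0 o), ← P1_pt_wN, h, P1_cpt_wN]
theorem P1_pt_Pj {β : BC o Ω Ω'} (h : β.Ok) (j : JJ o) (x : Fin (genus κ F) × Fin (NN o)) :
    β.pt (Pj Ω j x) = Pj Ω' j x := by
  rw [P1_Pj, P1_Pj, h]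
theorem BC.Ok.cl_aj {β : BC o Ω Ω'} (h : β.Ok) (j : JJ o) : β.cl (aj Ω j) = aj Ω' j := by
  unfold aj
  rw [β.cl_clz]
  congr 1
  exact funext (P1_pt_Pj h j)
omit [Fintype ι] in
theorem BC.Ok.good {β : BC o Ω Ω'} (h : β.Ok) {z : ι → Pt o Ω} (hz : Good z) :
    Good fun a => β.pt (z a) := by
  refine ⟨β.pt_injective.comp hz.1, fun a i e => hz.2 a i (β.τ.injective ?_)⟩
  rw [h.c, ← P1_pt_wN]
  exact e
theorem BC.Ok.rho {β : BC o Ω Ω'} (h : β.Ok) (z : ι → Pt o Ω) (j : JJ o) :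
    rho (fun a => β.pt (z a)) j = β.τ (rho z j) := by
  have h1 : ∀ j : JJ o, Det (Sum.elim (fun a => β.pt (z a)) (Pj Ω' j)) =
      β.τ (Det (Sum.elim z (Pj Ω j))) := by
    intro j
    rw [← Det_bc]
    congr 1
    funext x
    rcases x with x | x
    · rfl
    · exact (P1_pt_Pj h j x).symm
  unfold E6b.rho
  simp only [h1, map_div₀, map_mul, map_prod, map_sub, h.c, P1_pt_wN]

omit [IsAlgClosed Ω] [CharZero Ω] in
theorem P1_intg (O : VS κ Ω) (j : JJ o) (x : Fin (genus κ F) × Fin (NN o)) :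
    Intg O (Pj Ω j x) := fun _ => O.2 _

omit [IsAlgClosed Ω] [CharZero Ω] in
theorem P1_redp (O : VS κ Ω) (j : JJ o) (x : Fin (genus κ F) × Fin (NN o)) :
    redp O (Pj Ω j x) (P1_intg O j x) = Pj (RF O) j x :=
  AlgHom.ext fun _ => rs_algebraMap O _

theorem redCl_aj (O : VS κ Ω) (j : JJ o) : redCl O o (aj Ω j) = aj (RF O) j := by
  unfold aj
  rw [redCl_clz O (P1_intg O j)]
  congr 1
  exact funext (P1_redp O j)

section
omit [IsAlgClosed κ] [CharZero κ] [IsAlgClosed Ω] [CharZero Ω]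

theorem P1_rs_sub (O : VS κ Ω) {x y : Ω} (hx : x ∈ O.1) (hy : y ∈ O.1) :
    rs O (x - y) = rs O x - rs O y := by
  rw [eq_sub_iff_add_eq, ← rs_add O (sub_mem hx hy) hy, sub_add_cancel]

theorem P1_rs_prod (O : VS κ Ω) {α : Type} (s : Finset α) {x : α → Ω} (hx : ∀ a, x a ∈ O.1) :
    rs O (∏ a ∈ s, x a) = ∏ a ∈ s, rs O (x a) := by
  induction s using Finset.induction_on with
  | empty => simpa using rs_algebraMap O 1
  | insert a s ha ih =>
    rw [Finset.prod_insert ha, Finset.prod_insert ha,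
      rs_mul O (hx a) (prod_mem fun a _ => hx a), ih]

theorem P1_rs_div (O : VS κ Ω) {x y : Ω} (hx : x ∈ O.1) (hy : y ∈ O.1) (h : rs O y ≠ 0) :
    x / y ∈ O.1 ∧ rs O (x / y) = rs O x / rs O y := by
  have h1 : O.1.valuation y = 1 :=
    le_antisymm ((O.1.valuation_le_one_iff y).2 hy)
      (not_lt.1 fun h2 => h ((rs_eq_zero_iff O hy).2 h2))
  have h0 : y ≠ 0 := by
    rintro rfl
    simp at h1
  have h2 : x / y ∈ O.1 := by
    rw [← O.1.valuation_le_one_iff, map_div₀, h1, div_one]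
    exact (O.1.valuation_le_one_iff x).2 hx
  refine ⟨h2, ?_⟩
  rw [eq_div_iff h, ← rs_mul O h2 hy, div_mul_cancel₀ _ h0]

end

theorem rho_red (O : VS κ Ω) {z : ι → Pt o Ω} (h : ∀ a, Intg O (z a))
    (hz : Good fun a => redp O (z a) (h a)) (j : JJ o) :
    Good z ∧ rho z j ∈ O.1 ∧ rs O (rho z j) = rho (fun a => redp O (z a) (h a)) j := by
  have h1 : ∀ j : JJ o, Det (Sum.elim z (Pj Ω j)) ∈ O.1 ∧ rs O (Det (Sum.elim z (Pj Ω j))) =
      Det (Sum.elim (fun a => redp O (z a) (h a)) (Pj (RF O) j)) := by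
    intro j
    have h2 : ∀ x, Intg O (Sum.elim z (Pj Ω j) x) := by
      rintro (x | x)
      · exact h x
      · exact P1_intg O j x
    refine ⟨(Det_red O h2).1, (Det_red O h2).2.trans ?_⟩
    congr 1
    funext x
    rcases x with x | x
    · rfl
    · exact P1_redp O j x
  have h2 : ∀ a i, z a (wN o) - algebraMap κ Ω ((pdat o).c i) ∈ O.1 := fun a i =>
    sub_mem (h a _) (O.2 _)
  have h3 : ∀ a i, rs O (z a (wN o) - algebraMap κ Ω ((pdat o).c i)) =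
      redp O (z a) (h a) (wN o) - algebraMap κ (RF O) ((pdat o).c i) := by
    intro a i
    rw [P1_rs_sub O (h a _) (O.2 _), rs_algebraMap]
    rfl
  have h4 : rs O (∏ a, ∏ s, (z a (wN o) - algebraMap κ Ω ((pdat o).c (j s)))) =
      ∏ a, ∏ s, (redp O (z a) (h a) (wN o) - algebraMap κ (RF O) ((pdat o).c (j s))) := by
    rw [P1_rs_prod O _ fun a => prod_mem fun s _ => h2 a _]
    refine Finset.prod_congr rfl fun a _ => ?_
    rw [P1_rs_prod O _ fun s => h2 a _]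
    exact Finset.prod_congr rfl fun s _ => h3 a _
  have h5 := P1_rs_div O (mul_mem (h1 j).1 (h1 (sw j)).1)
    (prod_mem fun a _ => prod_mem fun s _ => h2 a (j s)) (by
      rw [h4]
      exact Finset.prod_ne_zero_iff.2 fun a _ => Finset.prod_ne_zero_iff.2 fun s _ =>
        sub_ne_zero.2 (hz.2 a _))
  refine ⟨⟨fun a b e => hz.1 (AlgHom.ext fun x => ?_), fun a i e => hz.2 a i ?_⟩, h5.1, ?_⟩
  · exact congrArg (fun y : Pt o Ω => rs O (y x)) e
  · rw [← rs_algebraMap, ← e]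
    rfl
  · unfold rho
    rw [h5.2, h4, rs_mul O (h1 j).1 (h1 (sw j)).1, (h1 j).2, (h1 (sw j)).2]

theorem good_ptU_iff (U : Ultrafilter ℕ) (z : ℕ → ι → Pt o Ω) :
    Good (fun a => ptU U fun n => z n a) ↔ ∀ᶠ n in (U : Filter ℕ), Good (z n) := by
  unfold Good
  rw [eventually_and, ptU_injective_iff]
  refine and_congr_right fun _ => ?_
  simp only [eventually_all]
  refine forall_congr' fun a => forall_congr' fun i => ?_
  rw [ptU_apply, ← gm_const, gm_ne_iff]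
omit [IsAlgClosed Ω] [CharZero Ω] in
theorem rho_ptU (U : Ultrafilter ℕ) (z : ℕ → ι → Pt o Ω) (j : JJ o) :
    rho (fun a => ptU U fun n => z n a) j = gm U fun n => rho (z n) j := by
  have h1 : ∀ j : JJ o, Det (Sum.elim (fun a => ptU U fun n => z n a) (Pj (UP U Ω) j)) =
      gm U fun n => Det (Sum.elim (z n) (Pj Ω j)) := by
    intro j
    unfold Det
    rw [gm_det]
    congr 1
    ext x y
    rcases x with x | x
    · rfl
    · exact (gm_const U _).symm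
  unfold rho
  rw [gm_div, gm_mul, h1, h1, gm_prod]
  congr 1
  refine Finset.prod_congr rfl fun a _ => ?_
  rw [gm_prod]
  refine Finset.prod_congr rfl fun s _ => ?_
  rw [gm_sub, gm_const]
  rfl

end Pool.Agent.E6b
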