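import Pool.Agent.E6b.P1

open scoped NNReal TensorProduct IntermediateField BigOperators Classical Topology
open Filter

namespace Pool.Agent.E6b

variable {κ F : Type} [Field κ] [IsAlgClosed κ] [CharZero κ] [Field F] [Algebra κ F] [IsFF κ F]
  {o : Place κ F} {Ω : Type} [Field Ω] [IsAlgClosed Ω] [CharZero Ω] [Algebra κ Ω]
  {ι ι' : Type} [Fintype ι] [Fintype ι']

/-- the span of the first `r` basis elements -/
def P2V (r : ℕ) (a : AO o Ω) : Prop := ∀ i, r ≤ i → (ebO o Ω).repr a i = 0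

theorem P2V_iff {r : ℕ} (hr : genus κ F ≤ r) (a : AO o Ω) :
    P2V r a ↔ algebraMap _ (FO o Ω) a ∈ LL (((r : ℤ) + genus κ F - 1) • pd (oo o Ω)) := by
  rw [mem_LL_oo]
  constructor
  · intro h
    refine ⟨a, rfl, fun i hi => ?_⟩
    have h1 : i < r := not_le.1 fun e => hi (h i e)
    have h2 := (ebSpec o).mono h1
    rw [(ebSpec o).large r hr] at h2
    omega
  · rintro ⟨a', e, h⟩ i hi
    obtain rfl := IsFractionRing.injective (AO o Ω) (FO o Ω) e
    by_contra h1
    have h2 := h i h1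
    rw [(ebSpec o).large i (hr.trans hi)] at h2
    omega

omit [IsAlgClosed Ω] [CharZero Ω] in
theorem P2V_eb {r i : ℕ} (h : i < r) : P2V r (ebO o Ω i) := by
  intro k hk
  rw [Module.Basis.repr_self, Finsupp.single_eq_of_ne (by omega)]

theorem P2V_mul {y : ι' → Pt o Ω} {f : AO o Ω} (hf : f ≠ 0)
    (hd : dv Ω (algebraMap _ (FO o Ω) f) = dz y - (Fintype.card ι' : ℤ) • pd (oo o Ω))
    {n i : ℕ} (hn : genus κ F ≤ n) (h : i < n) : P2V (Fintype.card ι' + n) (f * ebO o Ω i) := by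
  have h1 : algebraMap _ (FO o Ω) f ∈ LL ((Fintype.card ι' : ℤ) • pd (oo o Ω)) := by
    rw [mem_LL_iff ((map_ne_zero_iff _ (IsFractionRing.injective _ _)).2 hf), hd,
      add_sub_cancel]
    exact dz_nonneg y
  have h2 := mul_mem_LL h1 ((P2V_iff hn _).1 (P2V_eb h))
  rw [P2V_iff (by omega), map_mul]
  rw [← add_smul] at h2
  convert h2 using 3
  push_cast
  ring

theorem P2_ev_eq_zero_iff {f : AO o Ω} (hf : f ≠ 0) (p : Pt o Ω) :
    evA p f = 0 ↔ 0 < dv Ω (algebraMap _ (FO o Ω) f) (plc p) := by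
  rw [← (plc_spec p f).2, Place.ev_eq_zero_iff _ (plc_spec p f).1, dv_apply,
    or_iff_right ((map_ne_zero_iff _ (IsFractionRing.injective _ _)).2 hf)]

theorem P2_pd_oo (p : Pt o Ω) : pd (oo o Ω) (plc p) = 0 := by
  rw [F1_pd_apply, if_neg (plc_ne_oo p).symm]

theorem P2_zero_iff {y : ι' → Pt o Ω} {f : AO o Ω} (hf : f ≠ 0)
    (hd : dv Ω (algebraMap _ (FO o Ω) f) = dz y - (Fintype.card ι' : ℤ) • pd (oo o Ω))
    (p : Pt o Ω) : evA p f = 0 ↔ ∃ b, y b = p := by
  rw [P2_ev_eq_zero_iff hf, hd, Finsupp.sub_apply, Finsupp.smul_apply, P2_pd_oo, smul_zero,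
    sub_zero, dz_apply, Nat.cast_pos, Finset.card_pos]
  simp [Finset.Nonempty]

theorem P2_dual (y : ι' → Pt o Ω) (hy : Function.Injective y) :
    ∃ u : ι' → AO o Ω, (∀ l, P2V (Fintype.card ι' + genus κ F) (u l)) ∧
      ∀ a l, evA (y a) (u l) = if a = l then 1 else 0 := by
  have h1 : ∀ a, dz y (plc (y a)) = 1 := by
    intro a
    have : (Finset.univ.filter fun b => y b = y a) = {a} := by
      ext b
      simp [hy.eq_iff]
    rw [dz_apply, this]
    rfl
  have key : ∀ l, ∃ u : AO o Ω, P2V (Fintype.card ι' + genus κ F) u ∧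
      ∀ a, evA (y a) u = if a = l then 1 else 0 := by
    intro l
    have hb : BPF (((((Fintype.card ι' + genus κ F : ℕ) : ℤ) + genus κ F - 1) • pd (oo o Ω)) -
        (dz y - pd (plc (y l)))) := by
      refine bpf_of_large ?_
      rw [deg_sub, deg_sub, deg_zsmul, deg_pd, deg_pd, deg_dz, genus_FO]
      push_cast
      omega
    obtain ⟨g, hg0, hg1, hg2⟩ := hb (plc (y l))
    have hle : 0 ≤ dz y - pd (plc (y l)) := by
      rw [sub_nonneg]
      exact Finset.single_le_sum (f := fun a => pd (plc (y a)))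
        (fun a _ => Finsupp.single_nonneg.2 zero_le_one) (Finset.mem_univ l)
    have hg3 := LL_mono (sub_le_self _ hle) (mem_LL.2 (Or.inr hg1))
    obtain ⟨u, rfl, -⟩ := mem_LL_oo.1 hg3
    have hu : u ≠ 0 := by
      rintro rfl
      exact hg0 (map_zero _)
    have hV := (P2V_iff (by omega) u).2 hg3
    have hl : evA (y l) u ≠ 0 := by
      rw [Ne, P2_ev_eq_zero_iff hu, dv_apply, hg2]
      rw [Finsupp.sub_apply, Finsupp.smul_apply, P2_pd_oo, Finsupp.sub_apply, h1, F1_pd_apply]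
      simp
    refine ⟨(evA (y l) u)⁻¹ • u, fun i hi => by simp [hV i hi], fun a => ?_⟩
    rw [map_smul, smul_eq_mul]
    split_ifs with h
    · rw [h, inv_mul_cancel₀ hl]
    · have h2 := hg1 (plc (y a))
      have h3 : plc (y l) ≠ plc (y a) := fun e => h (hy (plc_injective e)).symm
      rw [Finsupp.sub_apply, Finsupp.smul_apply, P2_pd_oo, Finsupp.sub_apply, h1, F1_pd_apply,
        if_neg h3, smul_zero] at h2
      rw [(P2_ev_eq_zero_iff hu (y a)).2 (by rw [dv_apply]; omega), mul_zero]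
  choose u h2 h3 using key
  exact ⟨u, h2, fun a l => h3 l a⟩

theorem P2_det_mul {J : Type} [Fintype J] [DecidableEq J] {r : ℕ} (e : J ≃ Fin r) (u : J → AO o Ω)
    (hu : ∀ b, P2V r (u b)) (z : J → Pt o Ω) :
    (Matrix.of fun a b => evA (z a) (u b)).det =
      (Matrix.of fun a b => z a (eb o (e b))).det *
        (Matrix.of fun k b => (ebO o Ω).repr (u b) (e k)).det := by
  rw [← Matrix.det_mul]
  congr 1
  ext a b
  have h : u b = ∑ k, (ebO o Ω).repr (u b) (e k) • ebO o Ω (e k) := by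
    refine (ebO o Ω).ext_elem fun i => ?_
    simp only [map_sum, map_smul, Module.Basis.repr_self, Finsupp.coe_finsetSum, Finset.sum_apply,
      Finsupp.smul_apply, smul_eq_mul]
    by_cases hi : i < r
    · rw [Finset.sum_eq_single (e.symm ⟨i, hi⟩)]
      · simp
      · intro k _ hk
        rw [Finsupp.single_eq_of_ne, mul_zero]
        intro e1
        exact hk (e.eq_symm_apply.2 (Fin.ext e1.symm))
      · simp
    · rw [hu b i (not_lt.1 hi), Finset.sum_eq_zero fun k _ => ?_]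
      rw [Finsupp.single_eq_of_ne (by have := (e k).2; omega), mul_zero]
  rw [Matrix.of_apply, h, map_sum, Matrix.mul_apply]
  refine Finset.sum_congr rfl fun k _ => ?_
  rw [map_smul, evA_ebO, smul_eq_mul, mul_comm]
  rfl

omit [IsAlgClosed Ω] [CharZero Ω] in
theorem P2_det_sign {J : Type} [Fintype J] [hJ : DecidableEq J] {r : ℕ} (e : J ≃ Fin r) :
    ∃ ε : ℤˣ, ∀ z : J → Pt o Ω,
      (Matrix.of fun a b => z a (eb o (e b))).det = ((ε : ℤ) : Ω) * Det z := by
  obtain rfl : hJ = fun a b => Classical.propDecidable (a = b) := Subsingleton.elim _ _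
  obtain rfl : r = Fintype.card J := by simpa using (Fintype.card_congr e).symm
  refine ⟨Equiv.Perm.sign (e.trans (Fintype.equivFin J).symm), fun z => ?_⟩
  rw [Det, ← Matrix.det_permute']
  congr 1
  ext a b
  simp

/-- the columns `u l`, then `f * eb i` -/
noncomputable def P2U (f : AO o Ω) (u : ι' → AO o Ω) (j : ℕ) : AO o Ω :=
  if h : j < Fintype.card ι' then u ((Fintype.equivFin ι').symm ⟨j, h⟩)
  else f * ebO o Ω (j - Fintype.card ι')

/-- the determinant of the change of basis -/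
noncomputable def P2T (U : ℕ → AO o Ω) (r : ℕ) : Ω :=
  (Matrix.of fun k j : Fin r => (ebO o Ω).repr (U j) k).det

theorem P2_main (ι ι' : Type) [Fintype ι] [Fintype ι'] (hι : genus κ F ≤ Fintype.card ι) :
    ∃ ε : ℤˣ, ∀ (y : ι' → Pt o Ω) (f : AO o Ω), f ≠ 0 →
      dv Ω (algebraMap _ (FO o Ω) f) = dz y - (Fintype.card ι' : ℤ) • pd (oo o Ω) →
      ∀ u : ι' → AO o Ω, (∀ l, P2V (Fintype.card ι' + genus κ F) (u l)) →
        (∀ a l, evA (y a) (u l) = if a = l then 1 else 0) → ∀ x : ι → Pt o Ω,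
        ((ε : ℤ) : Ω) * Det (Sum.elim x y) * P2T (P2U f u) (Fintype.card ι' + Fintype.card ι) =
          (∏ a, evA (x a) f) * Det x := by
  let e : ι ⊕ ι' ≃ Fin (Fintype.card ι' + Fintype.card ι) :=
    (Equiv.sumComm _ _).trans
      (((Fintype.equivFin ι').sumCongr (Fintype.equivFin ι)).trans finSumFinEquiv)
  obtain ⟨ε, hε⟩ := P2_det_sign (o := o) (Ω := Ω) e
  refine ⟨ε, fun y f hf hd u hu hyu x => ?_⟩
  have e1 : ∀ b, P2U f u (e (.inl b)) = f * ebO o Ω (Fintype.equivFin ι b) := by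
    intro b
    simp [P2U, e]
  have e2 : ∀ l, P2U f u (e (.inr l)) = u l := by
    intro l
    simp [P2U, e]
  have hV : ∀ b, P2V (Fintype.card ι' + Fintype.card ι) (P2U f u (e b)) := by
    rintro (b | l)
    · rw [e1]
      exact P2V_mul hf hd hι (Fintype.equivFin ι b).2
    · rw [e2]
      exact fun i hi => hu l i (by omega)
  have h := P2_det_mul e (fun b => P2U f u (e b)) hV (Sum.elim x y)
  rw [hε] at h
  rw [P2T, ← Matrix.det_submatrix_equiv_self e]
  refine h.symm.trans ?_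
  have hM : (Matrix.of fun a b => evA (Sum.elim x y a) (P2U f u (e b))) =
      Matrix.fromBlocks (Matrix.of fun a b => evA (x a) f * x a (eb o (Fintype.equivFin ι b)))
        (Matrix.of fun a l => evA (x a) (u l)) 0 1 := by
    ext (a | a) (b | b)
    · simp [e1, evA_ebO]
    · simp [e2]
    · simp [e1, (P2_zero_iff hf hd (y a)).2 ⟨a, rfl⟩]
    · simp [e2, hyu, Matrix.one_apply]
  rw [hM, Matrix.det_fromBlocks_zero₂₁, Matrix.det_one, mul_one]
  exact Matrix.det_mul_column _ _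

theorem P2_exists_x (ι : Type) [Fintype ι] {T : Set (Pt o Ω)} (hT : T.Finite) :
    ∃ x : ι → Pt o Ω, (∀ a, x a ∉ T) ∧ Det x ≠ 0 := by
  have key : ∀ r : ℕ, ∃ x : Fin r → Pt o Ω, (∀ a, x a ∉ T) ∧
      (Matrix.of fun a b : Fin r => x a (eb o b)).det ≠ 0 := by
    intro r
    induction r with
    | zero => exact ⟨Fin.elim0, fun a => a.elim0, by simp⟩
    | succ r ih =>
      obtain ⟨x, hx, hd⟩ := ih
      let C : Fin (r + 1) → Ω := fun j =>
        (-1) ^ (j : ℕ) * (Matrix.of fun a b : Fin r => x a (eb o (j.succAbove b))).det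
      have hs : (∑ j : Fin (r + 1), C j • ebO o Ω j) ≠ 0 := by
        intro e
        have h1 := Fintype.linearIndependent_iff.1
          ((ebO o Ω).linearIndependent.comp _ Fin.val_injective) C e (Fin.last r)
        simp only [C, Fin.succAbove_last, Fin.val_castSucc] at h1
        exact mul_ne_zero (pow_ne_zero _ (neg_ne_zero.2 one_ne_zero)) hd h1
      obtain ⟨p, hp, hp'⟩ : ∃ p ∈ Tᶜ, evA p (∑ j : Fin (r + 1), C j • ebO o Ω j) ≠ 0 := by
        by_contra h
        push Not at h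
        exact hs (AO_eq_zero hT.infinite_compl h)
      refine ⟨Fin.cons p x, fun a => Fin.cases hp hx a, ?_⟩
      convert hp' using 1
      rw [Matrix.det_succ_row_zero, map_sum]
      refine Finset.sum_congr rfl fun j _ => ?_
      rw [map_smul, evA_ebO, smul_eq_mul, mul_right_comm]
      rfl
  obtain ⟨x, hx, hd⟩ := key (Fintype.card ι)
  refine ⟨fun a => x (Fintype.equivFin ι a), fun a => hx _, ?_⟩
  rw [← Matrix.det_submatrix_equiv_self (Fintype.equivFin ι)] at hd
  exact hd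

omit [IsAlgClosed Ω] [CharZero Ω] in
theorem P2T_succ (U : ℕ → AO o Ω) (r : ℕ) (h0 : ∀ j < r, (ebO o Ω).repr (U j) r = 0)
    (h1 : (ebO o Ω).repr (U r) r = 1) : P2T U (r + 1) = P2T U r := by
  rw [P2T, Matrix.det_succ_row _ (Fin.last r), Finset.sum_eq_single (Fin.last r)]
  · simp only [Matrix.of_apply, Fin.val_last, h1, Fin.succAbove_last, mul_one]
    rw [Even.neg_one_pow ⟨r, rfl⟩, one_mul]
    rfl
  · intro j _ hj
    rw [Matrix.of_apply, Fin.val_last, h0 j (Fin.val_lt_last hj), mul_zero, zero_mul]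
  · simp

end Pool.Agent.E6b
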