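import Pool.Agent.E6b.P1
import Pool.Agent.E6b.P2Aux

open scoped NNReal TensorProduct IntermediateField BigOperators Classical Topology
open Filter

namespace Pool.Agent.E6b

variable {κ F : Type} [Field κ] [IsAlgClosed κ] [CharZero κ] [Field F] [Algebra κ F] [IsFF κ F]
  {o : Place κ F} {Ω : Type} [Field Ω] [IsAlgClosed Ω] [CharZero Ω] [Algebra κ Ω]
  {ι ι' : Type} [Fintype ι] [Fintype ι']

omit [IsAlgClosed Ω] [CharZero Ω] in
theorem P2_unit_ne (ε : ℤˣ) : ((ε : ℤ) : Ω) ≠ 0 := by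
  rcases Int.units_eq_one_or ε with rfl | rfl <;> simp

theorem P2_prod_ne {y : ι' → Pt o Ω} {f : AO o Ω} (hf : f ≠ 0)
    (hd : dv Ω (algebraMap _ (FO o Ω) f) = dz y - (Fintype.card ι' : ℤ) • pd (oo o Ω))
    {x : ι → Pt o Ω} (hx : ∀ a b, y b ≠ x a) : ∏ a, evA (x a) f ≠ 0 :=
  Finset.prod_ne_zero_iff.2 fun a _ e =>
    ((P2_zero_iff hf hd (x a)).1 e).elim fun b hb => hx a b hb

/-- adding the zeros of a function -/
theorem exists_Det_move (y : ι' → Pt o Ω) (hy : Function.Injective y) (f : AO o Ω) (hf : f ≠ 0)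
    (hd : dv Ω (algebraMap _ (FO o Ω) f) = dz y - (Fintype.card ι' : ℤ) • pd (oo o Ω))
    (ι : Type) [Fintype ι] (hι : genus κ F ≤ Fintype.card ι) :
    ∃ μ : Ω, μ ≠ 0 ∧ ∀ x : ι → Pt o Ω, Det (Sum.elim x y) = μ * (∏ a, evA (x a) f) * Det x := by
  obtain ⟨ε, hε⟩ := P2_main (o := o) (Ω := Ω) ι ι' hι
  obtain ⟨u, hu, hyu⟩ := P2_dual y hy
  have h := hε y f hf hd u hu hyu
  obtain ⟨x₀, hx₀, hD⟩ := P2_exists_x ι (Set.finite_range y)
  have hτ : P2T (P2U f u) (Fintype.card ι' + Fintype.card ι) ≠ 0 := by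
    intro e
    have h1 := h x₀
    rw [e, mul_zero] at h1
    exact mul_ne_zero (P2_prod_ne hf hd fun a b e => hx₀ a ⟨b, e⟩) hD h1.symm
  have hε0 := P2_unit_ne (Ω := Ω) ε
  refine ⟨_, inv_ne_zero (mul_ne_zero hε0 hτ), fun x => ?_⟩
  rw [mul_assoc, ← h x]
  field_simp

/-- the function `wN - c` -/
noncomputable def P2w (o : Place κ F) (c : Ω) : AO o Ω :=
  ebO o Ω (genus κ F + 1) - algebraMap Ω _ c

theorem P2w_map (c : Ω) : algebraMap _ (FO o Ω) (P2w o c) =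
    iF o Ω (wN o) - algebraMap Ω (FO o Ω) c := by
  rw [P2w, map_sub, algebraMap_ebO, ← IsScalarTower.algebraMap_apply]
  rfl

theorem P2w_ne (c : Ω) : P2w o c ≠ 0 := by
  intro e
  have h := P2w_map (o := o) c
  rw [e, map_zero, eq_comm, sub_eq_zero] at h
  exact iF_wN_notMem ⟨c, h.symm⟩

theorem P2w_ev (c : Ω) (p : Pt o Ω) : evA p (P2w o c) = p (wN o) - c := by
  rw [P2w, map_sub, evA_ebO, AlgHom.commutes]
  rfl

omit [IsAlgClosed Ω] [CharZero Ω] in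
theorem P2w_mul (c : Ω) {n : ℕ} (hn : genus κ F ≤ n) :
    P2w o c * ebO o Ω n = ebO o Ω (n + NN o) - c • ebO o Ω n := by
  rw [P2w, sub_mul, ← Algebra.smul_def]
  congr 1
  simp only [ebO, Algebra.TensorProduct.basis_apply, Algebra.TensorProduct.tmul_mul_tmul, one_mul]
  rw [NN, (ebSpec o).per n hn, mul_comm]

theorem P2T_w {c : Ω} {q : Fin (NN o) → Pt o Ω}
    (hd : dv Ω (algebraMap _ (FO o Ω) (P2w o c)) =
      dz q - (Fintype.card (Fin (NN o)) : ℤ) • pd (oo o Ω))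
    {u : Fin (NN o) → AO o Ω} (hu : ∀ l, P2V (Fintype.card (Fin (NN o)) + genus κ F) (u l))
    {n : ℕ} (hn : genus κ F ≤ n) : P2T (P2U (P2w o c) u) (Fintype.card (Fin (NN o)) + n) =
      P2T (P2U (P2w o c) u) (Fintype.card (Fin (NN o)) + genus κ F) := by
  induction n, hn using Nat.le_induction with
  | base => rfl
  | succ n hn ih =>
    rw [← ih, ← add_assoc]
    refine P2T_succ _ _ (fun j hj => ?_) ?_
    · rw [P2U]
      split_ifs with h
      · exact hu _ _ (by omega)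
      · exact P2V_mul (P2w_ne c) hd hn (by omega) _ le_rfl
    · have h0 : 0 < NN o := Nat.succ_pos _
      rw [P2U, dif_neg (by omega), Nat.add_sub_cancel_left, P2w_mul c hn, Fintype.card_fin,
        add_comm n, map_sub, map_smul, Module.Basis.repr_self, Module.Basis.repr_self,
        Finsupp.sub_apply, Finsupp.smul_apply, Finsupp.single_eq_same,
        Finsupp.single_eq_of_ne (by omega), smul_zero, sub_zero]

/-- exchange of the last two blocks -/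
def P2e (α β γ : Type) : (α ⊕ β) ⊕ γ ≃ (α ⊕ γ) ⊕ β :=
  (Equiv.sumAssoc _ _ _).trans
    (((Equiv.refl α).sumCongr (Equiv.sumComm _ _)).trans (Equiv.sumAssoc _ _ _).symm)

theorem P2e_elim {α β γ δ : Type} (x : α → δ) (y : β → δ) (z : γ → δ) :
    Sum.elim (Sum.elim x z) y ∘ P2e α β γ = Sum.elim (Sum.elim x y) z := by
  funext a
  rcases a with (a | a) | a <;> rfl

/-- Weil reciprocity for `f` and `wN - c` -/
theorem exists_norm_fibre (y : ι' → Pt o Ω) (hy : Function.Injective y) (f : AO o Ω) (hf : f ≠ 0)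
    (hd : dv Ω (algebraMap _ (FO o Ω) f) = dz y - (Fintype.card ι' : ℤ) • pd (oo o Ω)) :
    ∃ μ : Ω, μ ≠ 0 ∧ ∀ (c : Ω) (q : Fin (NN o) → Pt o Ω), Function.Injective q →
      (∀ l, q l (wN o) = c) → ∏ l, evA (q l) f = μ * ∏ b, (y b (wN o) - c) := by
  have g1 : genus κ F ≤ Fintype.card (Fin (genus κ F)) := by simp
  have g2 : genus κ F ≤ Fintype.card (Fin (genus κ F) ⊕ ι') := by simp
  obtain ⟨ε₁, h₁⟩ := P2_main (o := o) (Ω := Ω) (Fin (genus κ F)) (Fin (NN o)) g1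
  obtain ⟨ε₂, h₂⟩ := P2_main (o := o) (Ω := Ω) (Fin (genus κ F) ⊕ ι') (Fin (NN o)) g2
  obtain ⟨μ₃, n₃, h₃⟩ := exists_Det_move y hy f hf hd (Fin (genus κ F)) g1
  obtain ⟨μ₄, n₄, h₄⟩ := exists_Det_move y hy f hf hd (Fin (genus κ F) ⊕ Fin (NN o)) (by simp)
  obtain ⟨ε₅, h₅⟩ := exists_Det_comp_equiv (o := o) (P2e (Fin (genus κ F)) ι' (Fin (NN o)))
  have n₁ := P2_unit_ne (Ω := Ω) ε₁
  have n₂ := P2_unit_ne (Ω := Ω) ε₂
  have n₅ := P2_unit_ne (Ω := Ω) ε₅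
  refine ⟨_, div_ne_zero (mul_ne_zero n₁ n₃) (mul_ne_zero (mul_ne_zero n₂ n₅) n₄),
    fun c q hq hc => ?_⟩
  have hw : dv Ω (algebraMap _ (FO o Ω) (P2w o c)) =
      dz q - (Fintype.card (Fin (NN o)) : ℤ) • pd (oo o Ω) := by
    rw [P2w_map, dv_wN_sub hq hc, Fintype.card_fin]
  obtain ⟨u, hu, hqu⟩ := P2_dual q hq
  obtain ⟨x, hx, hD⟩ := P2_exists_x (Fin (genus κ F))
    ((Set.finite_range y).union (Set.finite_range q))
  have e₁ := h₁ q _ (P2w_ne c) hw u hu hqu x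
  have e₂ := h₂ q _ (P2w_ne c) hw u hu hqu (Sum.elim x y)
  have e₅ := h₅ Ω (Sum.elim (Sum.elim x q) y)
  rw [P2T_w hw hu g1] at e₁
  rw [P2e_elim, h₄, Fintype.prod_sum_type] at e₅
  rw [P2T_w hw hu g2, e₅, h₃, Fintype.prod_sum_type] at e₂
  have m₁ := P2_prod_ne hf hd (x := x) fun a b e => hx a (Or.inl ⟨b, e⟩)
  have m₂ := P2_prod_ne (P2w_ne c) hw (x := x) fun a b e => hx a (Or.inr ⟨b, e⟩)
  simp only [Sum.elim_inl, Sum.elim_inr] at e₂
  simp only [← P2w_ev]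
  rw [div_mul_eq_mul_div, eq_div_iff (mul_ne_zero (mul_ne_zero n₂ n₅) n₄)]
  refine mul_left_cancel₀ (mul_ne_zero (mul_ne_zero m₁ m₂) hD) ?_
  linear_combination ((ε₁ : ℤ) : Ω) * e₂ -
    ((ε₂ : ℤ) : Ω) * ((ε₅ : ℤ) : Ω) * μ₄ * (∏ a, evA (x a) f) * (∏ l, evA (q l) f) * e₁

omit [IsAlgClosed Ω] [CharZero Ω] in
theorem P2_prod_Pj (φ : Pt o Ω → Ω) (j : JJ o) :
    (∏ a, φ (Pj Ω j a)) * ∏ a, φ (Pj Ω (sw j) a) = ∏ s, ∏ l, φ (cpt Ω ((pdat o).q (j s) l)) := by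
  rw [← Finset.prod_mul_distrib, Fintype.prod_prod_type, Fintype.prod_sum_type,
    ← Finset.prod_mul_distrib]
  refine Finset.prod_congr rfl fun i _ => ?_
  rw [← Finset.prod_mul_distrib]
  refine Finset.prod_congr rfl fun l _ => ?_
  simp only [Pj]
  split_ifs
  · exact mul_comm _ _
  · rfl

theorem rho_elim_prp {z : ι → Pt o Ω} {y : ι' → Pt o Ω} (h : Good (Sum.elim z y))
    (hy : clz y = 0) : Prp (rho (Sum.elim z y)) (rho z) := by
  obtain ⟨f, hf, hd⟩ := exists_dv_of_clz_eq_zero hy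
  have hyi : Function.Injective y := h.1.comp Sum.inr_injective
  obtain ⟨μ, hμ, h₁⟩ := exists_Det_move y hyi f hf hd (ι ⊕ Fin (genus κ F) × Fin (NN o)) (by
    rw [Fintype.card_sum, Fintype.card_prod, Fintype.card_fin, Fintype.card_fin]
    exact (Nat.le_mul_of_pos_right _ (Nat.succ_pos _)).trans (Nat.le_add_left _ _))
  obtain ⟨ν, hν, h₂⟩ := exists_norm_fibre y hyi f hf hd
  obtain ⟨ε, h₃⟩ := exists_Det_comp_equiv (o := o) (P2e ι ι' (Fin (genus κ F) × Fin (NN o)))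
  have hz : ∏ a, evA (z a) f ≠ 0 :=
    P2_prod_ne hf hd fun a b e => Sum.inr_ne_inl (h.1 (a₁ := .inr b) (a₂ := .inl a) e)
  have hD : ∀ j : JJ o, Det (Sum.elim (Sum.elim z y) (Pj Ω j)) =
      ((ε : ℤ) : Ω) * μ * (∏ a, evA (z a) f) * (∏ a, evA (Pj Ω j a) f) *
        Det (Sum.elim z (Pj Ω j)) := by
    intro j
    rw [← P2e_elim, h₃, h₁, Fintype.prod_sum_type]
    simp only [Sum.elim_inl, Sum.elim_inr]
    ring
  refine ⟨(((ε : ℤ) : Ω) * μ * ∏ a, evA (z a) f) ^ 2 *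
    ∏ _s : Fin (genus κ F) ⊕ Fin (genus κ F), ν,
    mul_ne_zero (pow_ne_zero _ (mul_ne_zero (mul_ne_zero (P2_unit_ne ε) hμ) hz))
      (Finset.prod_ne_zero_iff.2 fun _ _ => hν), fun j => ?_⟩
  have h₄ := P2_prod_Pj (fun p : Pt o Ω => evA p f) j
  rw [Finset.prod_congr rfl fun s _ => h₂ (algebraMap κ Ω ((pdat o).c (j s)))
    (fun l => cpt Ω ((pdat o).q (j s) l))
    (fun a b e => (pdat o).q_inj _ (AlgHom.ext fun t =>
      (algebraMap κ Ω).injective (DFunLike.congr_fun e t)))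
    (fun l => congrArg (algebraMap κ Ω) ((pdat o).q_wN _ l)), Finset.prod_mul_distrib,
    Finset.prod_comm (s := Finset.univ) (t := Finset.univ)] at h₄
  have h₅ : ∏ b, ∏ s, (y b (wN o) - algebraMap κ Ω ((pdat o).c (j s))) ≠ 0 :=
    Finset.prod_ne_zero_iff.2 fun b _ => Finset.prod_ne_zero_iff.2 fun s _ =>
      sub_ne_zero.2 (h.2 (.inr b) _)
  have h₆ : ∏ a, ∏ s, (z a (wN o) - algebraMap κ Ω ((pdat o).c (j s))) ≠ 0 :=
    Finset.prod_ne_zero_iff.2 fun a _ => Finset.prod_ne_zero_iff.2 fun s _ =>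
      sub_ne_zero.2 (h.2 (.inl a) _)
  rw [rho, rho, hD, hD, Fintype.prod_sum_type (α₁ := ι)]
  simp only [Sum.elim_inl, Sum.elim_inr]
  rw [div_eq_iff (mul_ne_zero h₆ h₅), mul_assoc _ (_ / _), ← mul_assoc (_ / _),
    div_mul_cancel₀ _ h₆]
  linear_combination (((ε : ℤ) : Ω) * μ * ∏ a, evA (z a) f) ^ 2 * Det (Sum.elim z (Pj Ω j)) *
    Det (Sum.elim z (Pj Ω (sw j))) * h₄

theorem P2_prp {z : ι → Pt o Ω} {z' : ι' → Pt o Ω} (h : Good z) (h' : Good z')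
    (hc : clz z = clz z') (hd : ∀ a b, z a ≠ z' b) : Prp (rho z) (rho z') := by
  obtain ⟨y, hy, hT, hw⟩ := exists_good_rep (-clz z) (Fin (2 * genus κ F)) (by simp)
    ((Set.finite_range z).union (Set.finite_range z'))
  have y1 : ∀ a b, y a ≠ z b := fun a b e => hT a (Or.inl ⟨b, e.symm⟩)
  have y2 : ∀ a b, y a ≠ z' b := fun a b e => hT a (Or.inr ⟨b, e.symm⟩)
  have p1 := rho_elim_prp (h.elim (hy.elim h' y2) (by
    rintro a (b | b)
    exacts [(y1 b a).symm, hd a b])) (by rw [clz_elim, hw, hc, neg_add_cancel])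
  have p2 := rho_elim_prp (h'.elim (hy.elim h y1) (by
    rintro a (b | b)
    exacts [(y2 b a).symm, (hd b a).symm])) (by rw [clz_elim, hw, neg_add_cancel])
  let e : ι ⊕ (Fin (2 * genus κ F) ⊕ ι') ≃ ι' ⊕ (Fin (2 * genus κ F) ⊕ ι) :=
    (Equiv.sumComm _ _).trans (((Equiv.sumComm _ _).sumCongr (Equiv.refl ι)).trans
      (Equiv.sumAssoc _ _ _))
  have e1 : Sum.elim z' (Sum.elim y z) ∘ e = Sum.elim z (Sum.elim y z') := by
    funext a
    rcases a with a | a | a <;> rfl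
  rw [← e1, rho_comp_equiv] at p1
  exact p1.symm.trans p2

/-- the theta vector only depends on the class -/
theorem rho_prp {z : ι → Pt o Ω} {z' : ι' → Pt o Ω} (h : Good z) (h' : Good z')
    (hc : clz z = clz z') : Prp (rho z) (rho z') := by
  obtain ⟨y, hy, hT, hw⟩ := exists_good_rep (clz z) (Fin (2 * genus κ F)) (by simp)
    ((Set.finite_range z).union (Set.finite_range z'))
  exact (P2_prp hy h hw fun a b e => hT a (Or.inl ⟨b, e.symm⟩)).symm.trans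
    (P2_prp hy h' (hw.trans hc) fun a b e => hT a (Or.inr ⟨b, e.symm⟩))

end Pool.Agent.E6b
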