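import Pool.Agent.E6b.P2

open scoped NNReal TensorProduct IntermediateField BigOperators Classical Topology
open Filter

namespace Pool.Agent.E6b

variable {κ F : Type} [Field κ] [IsAlgClosed κ] [CharZero κ] [Field F] [Algebra κ F] [IsFF κ F]
  {o : Place κ F} {Ω Ω' : Type} [Field Ω] [IsAlgClosed Ω] [CharZero Ω] [Algebra κ Ω]
  [Field Ω'] [IsAlgClosed Ω'] [CharZero Ω'] [Algebra κ Ω'] {ι ι' ι'' : Type} [Fintype ι]
  [Fintype ι'] [Fintype ι'']

theorem rho_prp_Psi {z : ι → Pt o Ω} (h : Good z) : Prp (rho z) (Psi (clz z)) :=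
  rho_prp h (rep_good _) (clz_rep _).symm

theorem Psi_ne_zero_iff (w : Cl o Ω) (j : JJ o) :
    Psi w j ≠ 0 ↔ Th (w + aj Ω j) ∧ Th (w - aj Ω j) := by
  have h := rho_ne_zero_iff (rep_good w) j
  rw [clz_rep] at h
  exact h

theorem Psi_ne_zero (w : Cl o Ω) : Psi w ≠ 0 := rho_ne_zero (rep_good w)

theorem Psym_ne_zero (w : Cl o Ω) : Psym w ≠ 0 := by
  obtain ⟨i, hi⟩ := Function.ne_iff.1 (Psi_ne_zero w)
  obtain ⟨j, hj⟩ := Function.ne_iff.1 (Psi_ne_zero (-w))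
  exact Function.ne_iff.2 ⟨(i, j), mul_ne_zero hi hj⟩

theorem BC.Ok.Psi {β : BC o Ω Ω'} (h : β.Ok) (w : Cl o Ω) :
    Prp (Psi (β.cl w)) fun j => β.τ (Psi w j) := by
  have h1 := rho_prp_Psi (h.good (rep_good w))
  rw [← β.cl_clz, clz_rep] at h1
  have h2 : E6b.rho (fun a => β.pt (rep w a)) = fun j => β.τ (E6b.Psi w j) :=
    funext fun j => h.rho (rep w) j
  rw [h2] at h1
  exact h1.symm

theorem BC.Ok.Psym {β : BC o Ω Ω'} (h : β.Ok) (w : Cl o Ω) :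
    Prp (Psym (β.cl w)) fun j => β.τ (Psym w j) := by
  have h1 := (h.Psi w).segre (h.Psi (-w))
  rw [map_neg] at h1
  have h2 : (fun j => β.τ (E6b.Psym w j)) =
      fun p : JJ o × JJ o => β.τ (E6b.Psi w p.1) * β.τ (E6b.Psi (-w) p.2) :=
    funext fun p => map_mul β.τ _ _
  rw [h2]
  exact h1

theorem P3_lift (O : VS κ Ω) (w : Cl o Ω) : ∃ u : JJ o → Ω, Prp u (Psi w) ∧ (∀ j, u j ∈ O.1) ∧
    Prp (fun j => rs O (u j)) (Psi (redCl O o w)) := by
  have hT : {y : Pt o (RF O) | ∃ i, y (wN o) = algebraMap κ (RF O) ((pdat o).c i)}.Finite := by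
    refine (Set.finite_iUnion fun i =>
      finite_pt_wN (o := o) (algebraMap κ (RF O) ((pdat o).c i))).subset ?_
    rintro y ⟨i, hi⟩
    exact Set.mem_iUnion.2 ⟨i, hi⟩
  obtain ⟨z, hz, hw, hi, hT'⟩ := exists_good_lift O w (Fin (2 * genus κ F)) (by simp) hT
  have hg : Good fun a => redp O (z a) (hz a) := ⟨hi, fun a i h => hT' a ⟨i, h⟩⟩
  obtain ⟨j₀, -⟩ := exists_j w
  refine ⟨rho z, hw ▸ rho_prp_Psi (rho_red O hz hg j₀).1, fun j => (rho_red O hz hg j).2.1, ?_⟩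
  have h2 : (fun j => rs O (rho z j)) = rho fun a => redp O (z a) (hz a) :=
    funext fun j => (rho_red O hz hg j).2.2
  rw [h2, ← hw, redCl_clz O hz]
  exact rho_prp_Psi hg

omit [IsAlgClosed κ] [CharZero κ] [IsAlgClosed Ω] [CharZero Ω] in
theorem P3_red_gen (O : VS κ Ω) {x u : ι → Ω} {y : ι → RF O} (hx : Prp x u) (hu : ∀ j, u j ∈ O.1)
    (hy : Prp (fun j => rs O (u j)) y) (hy0 : y ≠ 0) (h1 : vs O.1 x = 1) :
    Prp (fun j => rs O (x j)) y := by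
  obtain ⟨μ, hμ, hx⟩ := hx
  obtain ⟨i, hi⟩ := Function.ne_iff.1 (hy.ne_zero hy0)
  have hu1 : vs O.1 u = 1 := by
    refine le_antisymm (vs_le _ fun j => (O.1.valuation_le_one_iff _).2 (hu j)) ?_
    refine le_trans ?_ (le_vs O.1 u i)
    exact not_lt.1 fun h => hi ((rs_eq_zero_iff O (hu i)).2 h)
  have hv : O.1.valuation μ = 1 := by
    have h2 : x = fun j => μ * u j := funext hx
    rw [h2, vs_smul, hu1, mul_one] at h1
    exact h1
  have hm : μ ∈ O.1 := (O.1.valuation_le_one_iff _).1 hv.le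
  refine Prp.trans ⟨rs O μ, fun h => ?_, fun j => ?_⟩ hy
  · exact ((rs_eq_zero_iff O hm).1 h).ne hv
  · show rs O (x j) = _
    rw [hx j, rs_mul O hm (hu j)]

theorem Psi_red (O : VS κ Ω) (w : Cl o Ω) {x : JJ o → Ω} (hx : Prp x (Psi w)) (h1 : vs O.1 x = 1) :
    Prp (fun j => rs O (x j)) (Psi (redCl O o w)) := by
  obtain ⟨u, h2, h3, h4⟩ := P3_lift O w
  exact P3_red_gen O (hx.trans h2.symm) h3 h4 (Psi_ne_zero _) h1

theorem Psym_red (O : VS κ Ω) (w : Cl o Ω) {x : JJ o × JJ o → Ω} (hx : Prp x (Psym w))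
    (h1 : vs O.1 x = 1) : Prp (fun j => rs O (x j)) (Psym (redCl O o w)) := by
  obtain ⟨u, h2, h3, h4⟩ := P3_lift O w
  obtain ⟨u', h2', h3', h4'⟩ := P3_lift O (-w)
  rw [map_neg] at h4'
  refine P3_red_gen O (u := fun p : JJ o × JJ o => u p.1 * u' p.2) (hx.trans (h2.segre h2').symm)
    (fun p => O.1.mul_mem _ _ (h3 _) (h3' _)) ?_ (Psym_ne_zero _) h1
  have h5 : (fun p : JJ o × JJ o => rs O (u p.1 * u' p.2)) =
      fun p : JJ o × JJ o => rs O (u p.1) * rs O (u' p.2) :=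
    funext fun p => rs_mul O (h3 _) (h3' _)
  rw [h5]
  exact h4.segre h4'

theorem Psi_clU (U : Ultrafilter ℕ) (w : ℕ → Cl o Ω) :
    Prp (Psi (clU U w)) fun j => gm U fun n => Psi (w n) j := by
  have hg : Good fun a => ptU U fun n => rep (w n) a :=
    (good_ptU_iff U fun n => rep (w n)).2 (Eventually.of_forall fun n => rep_good _)
  have h1 := rho_prp_Psi hg
  have h2 : (fun n => clz (rep (w n))) = w := funext fun n => clz_rep _
  rw [← clU_clz U fun n => rep (w n), h2] at h1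
  have h3 : (rho fun a => ptU U fun n => rep (w n) a) = fun j => gm U fun n => Psi (w n) j :=
    funext fun j => rho_ptU U (fun n => rep (w n)) j
  rw [h3] at h1
  exact h1.symm

theorem Psym_clU (U : Ultrafilter ℕ) (w : ℕ → Cl o Ω) :
    Prp (Psym (clU U w)) fun j => gm U fun n => Psym (w n) j := by
  have h1 := (Psi_clU U w).segre (Psi_clU U fun n => - w n)
  rw [clU_neg] at h1
  have h2 : (fun j => gm U fun n => Psym (w n) j) = fun p : JJ o × JJ o =>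
      (gm U fun n => Psi (w n) p.1) * gm U fun n => Psi (-w n) p.2 :=
    funext fun p => gm_mul U _ _
  rw [h2]
  exact h1

theorem P3_alg {Γ : Type} [LinearOrderedCommGroupWithZero Γ] {a b A B E E' W : Γ} (Q : Γ)
    (hB : B ≠ 0) (hW : W ≠ 0) (hE : E * E' = W * B ^ 2) :
    (a * (A * B)) ^ 2 * (b * (A * B)) ^ 2 = (a * b / W * A ^ 2) ^ 2 * (W * B ^ 2) ^ 2 ∧
      (Q * E ^ 2) * (Q * E' ^ 2) = Q ^ 2 * (W * B ^ 2) ^ 2 := by
  constructor
  · field_simp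
  · rw [← hE]
    field_simp

theorem P3_alg' {Γ : Type} [LinearOrderedCommGroupWithZero Γ] {a b A B E E' W Q : Γ}
    (hB : B ≠ 0) (hW : W ≠ 0) (hE : E * E' = W * B ^ 2) :
    ((a * (A * B)) ^ 2 ≤ Q * E ^ 2 → (b * (A * B)) ^ 2 ≤ Q * E' ^ 2 → a * b / W * A ^ 2 ≤ Q) ∧
    ((a * (A * B)) ^ 2 = Q * E ^ 2 → (b * (A * B)) ^ 2 = Q * E' ^ 2 → a * b / W * A ^ 2 = Q) := by
  obtain ⟨h1, h2⟩ := P3_alg (a := a) (b := b) (A := A) Q hB hW hE
  have h0 : (W * B ^ 2) ^ 2 ≠ 0 := pow_ne_zero _ (mul_ne_zero hW (pow_ne_zero _ hB))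
  constructor
  · intro h h'
    have h3 := mul_le_mul' h h'
    rw [h1, h2] at h3
    have h4 := le_of_mul_le_mul_right h3 (zero_lt_iff.2 h0)
    exact (pow_le_pow_iff_left₀ zero_le zero_le two_ne_zero).1 h4
  · intro h h'
    rw [h, h', h2] at h1
    have h4 := mul_right_cancel₀ h0 h1
    exact ((pow_left_inj₀ zero_le zero_le two_ne_zero).1 h4).symm

theorem P3_cube {Γ : Type} [CommGroupWithZero Γ]
    {X Y Z Qx Qy Qz Exy Exz Eyz v vx vy vz vxy vxz vyz : Γ}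
    {p q r h : ℤ} (hX : X ≠ 0) (hY : Y ≠ 0) (hZ : Z ≠ 0)
    (h1 : v * ((X * Y * Z) ^ (p + q + r + h)) ^ 2 = Qx * Qy * Exy ^ 2 * Qz * (Exz * Eyz) ^ 2)
    (h2 : vx * (X ^ (p + h)) ^ 2 = Qx) (h3 : vy * (Y ^ (q + h)) ^ 2 = Qy)
    (h4 : vz * (Z ^ (r + h)) ^ 2 = Qz)
    (h5 : vxy * ((X * Y) ^ (p + q + h)) ^ 2 = Qx * Qy * Exy ^ 2)
    (h6 : vxz * ((X * Z) ^ (p + r + h)) ^ 2 = Qx * Qz * Exz ^ 2)
    (h7 : vyz * ((Y * Z) ^ (q + r + h)) ^ 2 = Qy * Qz * Eyz ^ 2) :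
    v * vx * vy * vz = vxy * vxz * vyz := by
  rw [← eq_div_iff (by positivity)] at h1 h2 h3 h4 h5 h6 h7
  rw [h1, h2, h3, h4, h5, h6, h7]
  simp only [mul_zpow, zpow_add₀ hX, zpow_add₀ hY, zpow_add₀ hZ]
  field_simp

theorem P3_red_cpt (O : VS κ Ω) (p : Pt o κ) : red O (plc (cpt Ω p)) = plc (cpt (RF O) p) := by
  have h : Intg O (cpt Ω p) := fun a => O.2 (p a)
  rw [red_plc O h]
  congr 1
  ext a
  exact rs_algebraMap O (p a)

theorem P3_red_Pj (O : VS κ Ω) (j : JJ o) (x : Fin (genus κ F) × Fin (NN o)) :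
    red O (plc (Pj Ω j x)) = plc (Pj (RF O) j x) := P3_red_cpt O _

theorem P3_ds_Pj (O : VS κ Ω) (j : JJ o) (x : Fin (genus κ F) × Fin (NN o)) :
    ds O (plc (Pj Ω j x)) (oo o Ω) = 1 := by
  rw [ds_eq_one_iff, P3_red_Pj, red_oo]
  exact plc_ne_oo _

theorem P3_dsq_Pj (O : VS κ Ω) (j : JJ o) : dsq O (fun x => plc (Pj Ω j x)) = 1 := by
  refine dsq_eq_one O fun x y h => ?_
  simp only [P3_red_Pj] at h
  exact Pj_injective j (plc_injective h)

theorem P3_ds_ne (O : VS κ Ω) (y : Pt o Ω) : ds O (plc y) (oo o Ω) ≠ 0 := fun h =>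
  plc_ne_oo y ((ds_eq_zero_iff O).1 h)

theorem P3_dsD_sum (O : VS κ Ω) (P : PO o Ω) {σ : Type} (s : Finset σ) {D : σ → DO o Ω}
    (hD : ∀ i, 0 ≤ D i) : dsD O P (∑ i ∈ s, D i) = ∏ i ∈ s, dsD O P (D i) := by
  induction s using Finset.induction_on with
  | empty => simpa using dsD_zero O P
  | insert a s ha ih =>
    rw [Finset.sum_insert ha, Finset.prod_insert ha,
      dsD_add_of_nonneg O P (hD a) (Finset.sum_nonneg fun i _ => hD i), ih]

theorem P3_fib (O : VS κ Ω) (y : Pt o Ω) (i : Fin (5 * genus κ F + 1)) :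
    dsD O (plc y) (dz fun l => cpt Ω ((pdat o).q i l)) =
      O.1.valuation (y (wN o) - algebraMap κ Ω ((pdat o).c i)) *
        ds O (plc y) (oo o Ω) ^ (NN o : ℤ) := by
  have hf : iF o Ω (wN o) - algebraMap Ω (FO o Ω) (algebraMap κ Ω ((pdat o).c i)) =
      iF o Ω (wN o - algebraMap κ (AA o) ((pdat o).c i)) := by
    rw [map_sub, AlgHom.commutes, ← IsScalarTower.algebraMap_apply]
  have h0 : iF o Ω (wN o) - algebraMap Ω (FO o Ω) (algebraMap κ Ω ((pdat o).c i)) ≠ 0 := fun h =>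
    iF_wN_notMem (o := o) (Ω := Ω) ⟨_, (sub_eq_zero.1 h).symm⟩
  have h0' : wN o - algebraMap κ (AA o) ((pdat o).c i) ≠ 0 := fun h => h0 (by rw [hf, h, map_zero])
  have hd : (NN o : ℤ) • pd (oo o Ω) +
      dv Ω (iF o Ω (wN o) - algebraMap Ω (FO o Ω) (algebraMap κ Ω ((pdat o).c i))) =
      dz fun l => cpt Ω ((pdat o).q i l) := by
    rw [dv_wN_sub_c]; abel
  have hP : ((NN o : ℤ) • pd (oo o Ω)) (plc y) = 0 := by
    rw [Finsupp.smul_apply, F1_pd_apply, if_neg (plc_ne_oo y).symm, smul_zero]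
  have h1 := val_ev_mul O ((mem_LL_iff h0).2 (hd ▸ dz_nonneg _)) h0 hP
  rw [hd, dsD_zsmul_pd, hf, gv_iF O h0', one_mul, (plc_iF y _).2, map_sub, AlgHom.commutes] at h1
  exact h1.symm

theorem P3_EE (O : VS κ Ω) (z : ι → Pt o Ω) (j : JJ o) :
    (∏ a, ∏ b, ds O (plc (z a)) (plc (Pj Ω j b))) *
        (∏ a, ∏ b, ds O (plc (z a)) (plc (Pj Ω (sw j) b))) =
      O.1.valuation (∏ a, ∏ s, (z a (wN o) - algebraMap κ Ω ((pdat o).c (j s)))) *
        (∏ a, ds O (plc (z a)) (oo o Ω) ^ ((genus κ F : ℤ) * NN o)) ^ 2 := by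
  rw [← Finset.prod_mul_distrib, map_prod, ← Finset.prod_pow, ← Finset.prod_mul_distrib]
  refine Finset.prod_congr rfl fun a _ => ?_
  rw [← dsD_dz, ← dsD_dz, ← dsD_add_of_nonneg O _ (dz_nonneg _) (dz_nonneg _), dz_Pj_add,
    P3_dsD_sum O _ _ fun _ => dz_nonneg _, map_prod]
  simp only [P3_fib]
  rw [Finset.prod_mul_distrib, Finset.prod_const]
  congr 1
  rw [← zpow_natCast, ← zpow_natCast, ← zpow_mul, ← zpow_mul]
  congr 1
  simp only [Finset.card_univ, Fintype.card_sum, Fintype.card_fin]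
  push_cast
  ring

theorem P3_det (O : VS κ Ω) {z : ι → Pt o Ω} (h : Good z) (j : JJ o) :
    (O.1.valuation (Det (Sum.elim z (Pj Ω j))) *
      ((∏ a, ds O (plc (z a)) (oo o Ω) ^ ((Fintype.card ι : ℤ) + genus κ F - 1)) *
        ∏ a, ds O (plc (z a)) (oo o Ω) ^ ((genus κ F : ℤ) * NN o))) ^ 2 ≤
      dsq O (fun a => plc (z a)) * (∏ a, ∏ b, ds O (plc (z a)) (plc (Pj Ω j b))) ^ 2 ∧
    (Th (redCl O o (clz z) + aj (RF O) j) → (O.1.valuation (Det (Sum.elim z (Pj Ω j))) *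
      ((∏ a, ds O (plc (z a)) (oo o Ω) ^ ((Fintype.card ι : ℤ) + genus κ F - 1)) *
        ∏ a, ds O (plc (z a)) (oo o Ω) ^ ((genus κ F : ℤ) * NN o))) ^ 2 =
      dsq O (fun a => plc (z a)) * (∏ a, ∏ b, ds O (plc (z a)) (plc (Pj Ω j b))) ^ 2) := by
  have hc : genus κ F ≤ Fintype.card (ι ⊕ Fin (genus κ F) × Fin (NN o)) := by
    rw [Fintype.card_sum, Fintype.card_prod, Fintype.card_fin, Fintype.card_fin]
    exact le_add_left (Nat.le_mul_of_pos_right _ (Nat.succ_pos _))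
  have h1 := val_Det O _ (h.injective_elim_Pj j) hc
  have h2 : (fun a => plc (Sum.elim z (Pj Ω j) a)) =
      Sum.elim (fun a => plc (z a)) fun b => plc (Pj Ω j b) := by
    funext a; cases a <;> rfl
  have h3 : (∏ a, ds O (plc (Sum.elim z (Pj Ω j) a)) (oo o Ω) ^
      ((Fintype.card (ι ⊕ Fin (genus κ F) × Fin (NN o)) : ℤ) + genus κ F - 1)) =
      (∏ a, ds O (plc (z a)) (oo o Ω) ^ ((Fintype.card ι : ℤ) + genus κ F - 1)) *
        ∏ a, ds O (plc (z a)) (oo o Ω) ^ ((genus κ F : ℤ) * NN o) := by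
    rw [Fintype.prod_sum_type]
    simp only [Sum.elim_inl, Sum.elim_inr, P3_ds_Pj, one_zpow, Finset.prod_const_one, mul_one]
    rw [← Finset.prod_mul_distrib]
    refine Finset.prod_congr rfl fun a _ => ?_
    rw [← zpow_add₀ (P3_ds_ne O _)]
    congr 1
    simp only [Fintype.card_sum, Fintype.card_prod, Fintype.card_fin]
    push_cast
    ring
  rw [h3, h2, dsq_elim, P3_dsq_Pj, mul_one, clz_elim, map_add] at h1
  refine ⟨h1.1, fun h4 => h1.2.2 ?_⟩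
  rw [← redCl_aj] at h4
  exact h4

/-- size of the theta vector -/
theorem vs_rho (O : VS κ Ω) {z : ι → Pt o Ω} (h : Good z) :
    vs O.1 (rho z) * (∏ a, ds O (plc (z a)) (oo o Ω) ^ ((Fintype.card ι : ℤ) + genus κ F - 1)) ^ 2 =
      dsq O fun a => plc (z a) := by
  have hB : (∏ a, ds O (plc (z a)) (oo o Ω) ^ ((genus κ F : ℤ) * NN o)) ≠ 0 :=
    Finset.prod_ne_zero_iff.2 fun a _ => zpow_ne_zero _ (P3_ds_ne O _)
  have hW : ∀ j : JJ o,
      O.1.valuation (∏ a, ∏ s, (z a (wN o) - algebraMap κ Ω ((pdat o).c (j s)))) ≠ 0 := fun j =>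
    (map_ne_zero _).2 (Finset.prod_ne_zero_iff.2 fun a _ => Finset.prod_ne_zero_iff.2 fun s _ =>
      sub_ne_zero.2 (h.2 a _))
  have hv : ∀ j : JJ o, O.1.valuation (rho z j) =
      O.1.valuation (Det (Sum.elim z (Pj Ω j))) * O.1.valuation (Det (Sum.elim z (Pj Ω (sw j)))) /
        O.1.valuation (∏ a, ∏ s, (z a (wN o) - algebraMap κ Ω ((pdat o).c (j s)))) := fun j => by
    rw [rho, map_div₀, map_mul]
  obtain ⟨j₀, h1, h2⟩ := exists_j (redCl O o (clz z))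
  rw [sub_eq_add_neg, ← aj_sw] at h2
  have : Nonempty (JJ o) := ⟨j₀⟩
  obtain ⟨j, hj⟩ := exists_vs_eq O.1 (rho z)
  refine le_antisymm ?_ ?_
  · rw [← hj, hv]
    exact (P3_alg' hB (hW j) (P3_EE O z j)).1 (P3_det O h j).1 (P3_det O h (sw j)).1
  · rw [← (P3_alg' hB (hW j₀) (P3_EE O z j₀)).2 ((P3_det O h j₀).2 h1) ((P3_det O h (sw j₀)).2 h2),
      ← hv]
    exact mul_le_mul' (le_vs O.1 (rho z) j₀) le_rfl

theorem P3_vs_rho (O : VS κ Ω) {z : ι → Pt o Ω} (h : Good z) :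
    vs O.1 (rho z) * ((∏ a, ds O (plc (z a)) (oo o Ω)) ^
      ((Fintype.card ι : ℤ) + ((genus κ F : ℤ) - 1))) ^ 2 = dsq O fun a => plc (z a) := by
  rw [← Finset.prod_zpow, ← add_sub_assoc]
  exact vs_rho O h

theorem P3_elim (O : VS κ Ω) (x : ι → Pt o Ω) (y : ι' → Pt o Ω) :
    (∏ a, ds O (plc (Sum.elim x y a)) (oo o Ω)) =
      (∏ a, ds O (plc (x a)) (oo o Ω)) * (∏ a, ds O (plc (y a)) (oo o Ω)) ∧
    (dsq O fun a => plc (Sum.elim x y a)) = dsq O (fun a => plc (x a)) * dsq O (fun a => plc (y a)) *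
      (∏ a, ∏ b, ds O (plc (x a)) (plc (y b))) ^ 2 := by
  refine ⟨Fintype.prod_sum_type _, ?_⟩
  have h2 : (fun a => plc (Sum.elim x y a)) =
      Sum.elim (fun a => plc (x a)) fun b => plc (y b) := by
    funext a; cases a <;> rfl
  rw [h2, dsq_elim]

omit [Fintype ι] [Fintype ι'] [Fintype ι''] in
theorem P3_good {x : ι → Pt o Ω} {y : ι' → Pt o Ω} {z : ι'' → Pt o Ω}
    (h : Good (Sum.elim (Sum.elim x y) z)) : Good x ∧ Good y ∧ Good z ∧ Good (Sum.elim x y) ∧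
      Good (Sum.elim x z) ∧ Good (Sum.elim y z) := by
  refine ⟨h.comp (e := Sum.inl ∘ Sum.inl) (Sum.inl_injective.comp Sum.inl_injective),
    h.comp (e := Sum.inl ∘ Sum.inr) (Sum.inl_injective.comp Sum.inr_injective),
    h.comp (e := Sum.inr) Sum.inr_injective, h.comp (e := Sum.inl) Sum.inl_injective, ?_, ?_⟩
  · have h1 := h.comp (e := Sum.map Sum.inl id)
      (Sum.map_injective.2 ⟨Sum.inl_injective, Function.injective_id⟩)
    convert h1 using 1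
    funext a; cases a <;> rfl
  · have h1 := h.comp (e := Sum.map Sum.inr id)
      (Sum.map_injective.2 ⟨Sum.inr_injective, Function.injective_id⟩)
    convert h1 using 1
    funext a; cases a <;> rfl

/-- theorem of the cube -/
theorem cube_rho (O : VS κ Ω) {x : ι → Pt o Ω} {y : ι' → Pt o Ω} {z : ι'' → Pt o Ω}
    (h : Good (Sum.elim (Sum.elim x y) z)) :
    vs O.1 (rho (Sum.elim (Sum.elim x y) z)) * vs O.1 (rho x) * vs O.1 (rho y) * vs O.1 (rho z) =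
      vs O.1 (rho (Sum.elim x y)) * vs O.1 (rho (Sum.elim x z)) * vs O.1 (rho (Sum.elim y z)) := by
  obtain ⟨hx, hy, hz, hxy, hxz, hyz⟩ := P3_good h
  have h1 := P3_vs_rho O h
  have h5 := P3_vs_rho O hxy
  have h6 := P3_vs_rho O hxz
  have h7 := P3_vs_rho O hyz
  rw [(P3_elim O _ _).1, (P3_elim O _ _).2, Fintype.card_sum, Nat.cast_add] at h1 h5 h6 h7
  rw [(P3_elim O _ _).1, (P3_elim O _ _).2, Fintype.card_sum, Nat.cast_add,
    Fintype.prod_sum_type] at h1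
  exact P3_cube (Finset.prod_ne_zero_iff.2 fun a _ => P3_ds_ne O _)
    (Finset.prod_ne_zero_iff.2 fun a _ => P3_ds_ne O _)
    (Finset.prod_ne_zero_iff.2 fun a _ => P3_ds_ne O _) h1 (P3_vs_rho O hx) (P3_vs_rho O hy)
    (P3_vs_rho O hz) h5 h6 h7

theorem exists_good_triple (a b c : Cl o Ω) :
    ∃ x y z : Fin (2 * genus κ F) → Pt o Ω, Good (Sum.elim (Sum.elim x y) z) ∧
      clz x = a ∧ clz y = b ∧ clz z = c := by
  obtain ⟨x, hx, -, ha⟩ := exists_good_rep a (Fin (2 * genus κ F)) (by simp) Set.finite_empty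
  obtain ⟨y, hy, hy', hb⟩ := exists_good_rep b (Fin (2 * genus κ F)) (by simp) (Set.finite_range x)
  obtain ⟨z, hz, hz', hc⟩ := exists_good_rep c (Fin (2 * genus κ F)) (by simp)
    (Set.finite_range (Sum.elim x y))
  exact ⟨x, y, z, (hx.elim hy fun a b h => hy' b ⟨a, h⟩).elim hz fun a b h => hz' b ⟨a, h⟩,
    ha, hb, hc⟩

theorem P3_vs_Psi {z : ι → Pt o Ω} (h : Good z) : ∃ μ : Ω, μ ≠ 0 ∧ ∀ O : VS κ Ω,
    vs O.1 (rho z) = O.1.valuation μ * vs O.1 (Psi (clz z)) := by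
  obtain ⟨μ, hμ, h1⟩ := rho_prp_Psi h
  refine ⟨μ, hμ, fun O => ?_⟩
  rw [← vs_smul]
  exact congrArg _ (funext h1)

theorem cube_val (a b c : Cl o Ω) : ∃ γ : Ω, γ ≠ 0 ∧ ∀ O : VS κ Ω,
    vs O.1 (Psi (a + b + c)) * vs O.1 (Psi a) * vs O.1 (Psi b) * vs O.1 (Psi c) =
      O.1.valuation γ * (vs O.1 (Psi (a + b)) * vs O.1 (Psi (a + c)) * vs O.1 (Psi (b + c))) := by
  obtain ⟨x, y, z, h, rfl, rfl, rfl⟩ := exists_good_triple a b c
  obtain ⟨hx, hy, hz, hxy, hxz, hyz⟩ := P3_good h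
  obtain ⟨m1, n1, h1⟩ := P3_vs_Psi h
  obtain ⟨m2, n2, h2⟩ := P3_vs_Psi hx
  obtain ⟨m3, n3, h3⟩ := P3_vs_Psi hy
  obtain ⟨m4, n4, h4⟩ := P3_vs_Psi hz
  obtain ⟨m5, n5, h5⟩ := P3_vs_Psi hxy
  obtain ⟨m6, n6, h6⟩ := P3_vs_Psi hxz
  obtain ⟨m7, n7, h7⟩ := P3_vs_Psi hyz
  refine ⟨m5 * m6 * m7 / (m1 * m2 * m3 * m4), by positivity, fun O => ?_⟩
  have h8 := cube_rho O h
  rw [h1, h2, h3, h4, h5, h6, h7] at h8
  simp only [clz_elim] at h8
  have h0 : O.1.valuation (m1 * m2 * m3 * m4) ≠ 0 := (map_ne_zero _).2 (by positivity)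
  rw [map_div₀, div_mul_eq_mul_div, eq_div_iff h0]
  simp only [map_mul]
  calc _ = _ := ?_
    _ = _ := h8
    _ = _ := ?_
  · ac_rfl
  · ac_rfl

theorem P3_par {Γ : Type} [CommGroupWithZero Γ] {a b a' b' p p' m m' z g0 g1 g2 : Γ}
    (hz : z ≠ 0) (h1' : g1 ≠ 0) (h2' : g2 ≠ 0)
    (h0 : z * z * z * z = g0 * (z * z * z)) (h1 : a * a * b * b' = g1 * (p * m * z))
    (h2 : a' * a' * b' * b = g2 * (p' * m' * z)) :
    p * p' * (m * m') = (g1 * g2 * g0 * g0)⁻¹ * (a * a' * (b * b')) ^ 2 := by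
  have h3 : z = g0 := by
    rw [mul_comm g0] at h0
    exact mul_left_cancel₀ (by positivity) h0
  subst h3
  have h4 : (a * a' * (b * b')) ^ 2 = (a * a * b * b') * (a' * a' * b' * b) := by
    rw [sq]; ac_rfl
  rw [h4, h1, h2]
  field_simp

/-- parallelogram law for valuations -/
theorem par_val (a b : Cl o Ω) : ∃ γ : Ω, γ ≠ 0 ∧ ∀ O : VS κ Ω,
    vs O.1 (Psym (a + b)) * vs O.1 (Psym (a - b)) =
      O.1.valuation γ * (vs O.1 (Psym a) * vs O.1 (Psym b)) ^ 2 := by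
  obtain ⟨g0, n0, h0⟩ := cube_val (0 : Cl o Ω) 0 0
  obtain ⟨g1, n1, h1⟩ := cube_val a b (-b)
  obtain ⟨g2, n2, h2⟩ := cube_val (-a) (-b) b
  refine ⟨(g1 * g2 * g0 * g0)⁻¹, by positivity, fun O => ?_⟩
  have hs : ∀ w : Cl o Ω, vs O.1 (Psym w) = vs O.1 (Psi w) * vs O.1 (Psi (-w)) := fun w =>
    vs_segre O.1 _ _
  have e0 := h0 O
  have e1 := h1 O
  have e2 := h2 O
  simp only [add_zero] at e0
  rw [add_neg_cancel_right, add_neg_cancel, ← sub_eq_add_neg] at e1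
  rw [neg_add_cancel_right, neg_add_cancel, ← neg_add, show -a + b = -(a - b) by abel] at e2
  simp only [hs, map_inv₀, map_mul]
  exact P3_par (vs_ne_zero _ (Psi_ne_zero _)) ((map_ne_zero _).2 n1) ((map_ne_zero _).2 n2)
    e0 e1 e2

end Pool.Agent.E6b
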