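import Pool.Agent.E6b.P5

open scoped NNReal TensorProduct IntermediateField BigOperators Classical Topology
open Filter

namespace Pool.Agent.E6b

/-- an algebraically closed subfield containing `m` given elements and no `m + 1` independent
elements -/
theorem P6_acl {κ Ω : Type} [Field κ] [CharZero κ] [Field Ω] [IsAlgClosed Ω] [Algebra κ Ω] {m : ℕ}
    (v : Fin m → Ω) : ∃ (K : Type) (_ : Field K) (_ : IsAlgClosed K) (_ : CharZero K)
      (_ : Algebra κ K) (τ : K →ₐ[κ] Ω), (∀ i, v i ∈ τ.range) ∧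
      ∀ u : Fin (m + 1) → Ω, AlgebraicIndependent κ u → ¬ ∀ i, u i ∈ τ.range := by
  obtain ⟨K, hK, hmem⟩ := exists_acl (κ := κ) (Set.range v)
  refine ⟨K, inferInstance, hK, charZero_of_injective_algebraMap (algebraMap κ K).injective,
    inferInstance, K.val, fun i => ?_, fun u hu h => ?_⟩
  · refine ⟨⟨v i, (hmem _).2 ?_⟩, rfl⟩
    exact isAlgebraic_algebraMap
      (⟨v i, IntermediateField.subset_adjoin _ _ ⟨i, rfl⟩⟩ : IntermediateField.adjoin κ (Set.range v))
  · have h1 : Set.range u ⊆ (AlgebraicIndependent.matroid κ Ω).closure (Set.range v) := by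
      rintro _ ⟨i, rfl⟩
      rw [AlgebraicIndependent.matroid_closure_eq, SetLike.mem_coe, Subalgebra.mem_algebraicClosure]
      obtain ⟨c, hc⟩ := h i
      have : u i ∈ K := by rw [← hc]; exact c.2
      exact IntermediateField.isAlgebraic_adjoin_iff.1 ((hmem _).1 this)
    have h2 : (AlgebraicIndependent.matroid κ Ω).Indep (Set.range u) :=
      AlgebraicIndependent.matroid_indep_iff.2 hu.to_subtype_range
    have h3 := h2.encard_le_eRk_of_subset h1
    rw [Matroid.eRk_closure_eq] at h3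
    have h4 := h3.trans (Matroid.eRk_le_encard _ _)
    have h5 : (Set.range v).encard ≤ (m : ℕ∞) := by
      rw [← Set.image_univ]
      refine (Set.encard_image_le _ _).trans ?_
      simp
    have h6 : (Set.range u).encard = ((m + 1 : ℕ) : ℕ∞) := by
      rw [← Set.image_univ, hu.injective.encard_image]
      simp
    rw [h6] at h4
    have := h4.trans h5
    norm_cast at this
    omega

variable {κ F : Type} [Field κ] [IsAlgClosed κ] [CharZero κ] [Field F] [Algebra κ F] [IsFF κ F]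
  {o : Place κ F}

section
variable {Ω K : Type} [Field Ω] [IsAlgClosed Ω] [CharZero Ω] [Algebra κ Ω]
  [Field K] [IsAlgClosed K] [CharZero K] [Algebra κ K] (τ : K →ₐ[κ] Ω)

theorem P6_redD_bc (O : VS κ Ω) (h : ∀ c, τ c ∈ O.1) (D : DO o K) :
    redD O o ((bc o τ).dv D) = (bc o (resH O τ h)).dv D := by
  change Finsupp.mapDomain (red O) (Finsupp.mapDomain (bc o τ).plc D) =
    Finsupp.mapDomain (bc o (resH O τ h)).plc D
  rw [← Finsupp.mapDomain_comp]
  congr 1
  funext P
  exact red_bc O τ h P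

/-- adding a point which is not defined over `K` to a special divisor does not add sections -/
theorem P6_step {D : DO o K} (hD : deg D + 1 - genus κ F < ell D) {y : Pt o Ω}
    (hy : y ∉ Set.range (bc o τ).pt) : ell ((bc o τ).dv D + pd (plc y)) ≤ ell D := by
  by_contra hlt
  push Not at hlt
  have key : ∀ p : Pt o K, ell D < ell (D + pd (plc p)) := by
    intro p
    obtain ⟨O, hO, hred⟩ := exists_spec τ hy p
    have h1 := ell_le_red O ((bc o τ).dv D + pd (plc y))
    rw [map_add, P6_redD_bc τ O hO, redD_pd, hred, ← bc_pt, ← BC.plc_plc, red_bc O τ hO,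
      ← BC.dv_pd, ← map_add, BC.ell_dv] at h1
    exact lt_of_lt_of_le hlt h1
  obtain ⟨S, hS⟩ := Infinite.exists_subset_card_eq (Pt o K) (2 * genus κ F - 2 - deg D + 1).toNat
  have h2 := card_h1_le (D := D) (by rwa [genus_FO]) (S.image plc) (by
    intro P hP
    obtain ⟨p, -, rfl⟩ := Finset.mem_image.1 hP
    exact key p)
  rw [Finset.card_image_of_injective _ plc_injective, hS, genus_FO] at h2
  omega

theorem P6_mem_range_plc {P : PO o Ω} (h : P.ev (iF o Ω (wN o)) ∈ τ.range) :
    P ∈ Set.range (bc o τ).plc := by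
  rcases eq_oo_or_plc P with rfl | ⟨y, rfl⟩
  · exact ⟨_, BC.plc_oo _⟩
  · rw [(plc_iF y _).2] at h
    obtain ⟨p, rfl⟩ := mem_range_pt_of_wN τ h
    exact ⟨_, BC.plc_plc _ _⟩

theorem P6_wN_mem {y : Pt o Ω} (h : plc y ∈ Set.range (bc o τ).plc) : y (wN o) ∈ τ.range := by
  obtain ⟨P, hP⟩ := h
  rcases eq_oo_or_plc P with rfl | ⟨p, rfl⟩
  · rw [BC.plc_oo] at hP
    exact absurd hP.symm (plc_ne_oo y)
  · rw [BC.plc_plc, bc_pt] at hP
    rw [← plc_injective hP]
    exact ⟨p (wN o), rfl⟩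

/-- descent of divisibility by two -/
theorem P6_descend {w : Cl o K} {x : Cl o Ω} (h : 2 • x = (bc o τ).cl w) :
    ∃ x' : Cl o K, 2 • x' = w := by
  obtain ⟨x', rfl⟩ := mem_range_cl_of_two τ ⟨w, h.symm⟩
  exact ⟨x', (bc o τ).cl_injective (by rw [map_nsmul, h])⟩

end

/-- independent generic points are non special -/
theorem ell_dz_generic {Ω : Type} [Field Ω] [IsAlgClosed Ω] [CharZero Ω] [Algebra κ Ω] {n : ℕ}
    (hn : n ≤ genus κ F) (y : Fin n → Pt o Ω)
    (hy : AlgebraicIndependent κ fun i => y i (wN o)) : ell (dz y) = 1 := by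
  induction n with
  | zero =>
    have : dz y = 0 := by simp [dz]
    rw [this, ell_zero]
  | succ n ih =>
    have ih' := ih (by omega) (fun i => y i.succ) (hy.comp _ (Fin.succ_injective n))
    obtain ⟨K, _, _, _, _, τ, h1, h2⟩ := P6_acl (κ := κ) fun i : Fin n => y i.succ (wN o)
    choose z hz using fun i => mem_range_pt_of_wN τ (h1 i)
    have h0 : y 0 ∉ Set.range (bc o τ).pt := by
      rintro ⟨p, hp⟩
      refine h2 _ hy fun i => Fin.cases ?_ (fun i => h1 i) i
      rw [← hp, bc_pt]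
      exact ⟨p (wN o), rfl⟩
    have h3 : (bc o τ).dv (dz z) = dz fun i : Fin n => y i.succ := by
      rw [BC.dv_dz]; simp only [hz]
    have h4 : ell (dz z) = 1 := by rw [← (bc o τ).ell_dv, h3, ih']
    have h5 := P6_step τ (D := dz z) (by
      rw [h4, deg_dz, Fintype.card_fin]; push_cast; omega) h0
    have h6 : dz y = (bc o τ).dv (dz z) + pd (plc (y 0)) := by
      rw [h3, dz, Fin.sum_univ_succ, add_comm]; rfl
    have h7 := one_le_ell (dz_nonneg y)
    rw [← h6, h4] at h5
    omega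

/-- if all points are congruent modulo doubles then every class is a double -/
theorem P6_all {K : Type} [Field K] [IsAlgClosed K] [CharZero K] [Algebra κ K] {r : Cl o K}
    (h : ∀ p : Pt o K, ∃ x : Cl o K, 2 • x = cl p + r) (w : Cl o K) : ∃ x : Cl o K, 2 • x = w := by
  let H : AddSubgroup (Cl o K) := (nsmulAddMonoidHom 2).range
  have hH : ∀ w, w ∈ H ↔ ∃ x : Cl o K, 2 • x = w := fun w => Iff.rfl
  have h1 : ∀ p p' : Pt o K, cl p - cl p' ∈ H := by
    intro p p'
    have := H.sub_mem ((hH _).2 (h p)) ((hH _).2 (h p'))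
    rwa [add_sub_add_right_eq_sub] at this
  have h2 : ∀ p : Pt o K, cl p ∈ H := by
    intro p
    obtain ⟨z, -, -, -, hz⟩ := exists_fibre (o := o) (0 : K)
    have h3 := H.sum_mem (t := Finset.univ) fun l _ => h1 p (z l)
    rw [Finset.sum_sub_distrib, ← clz_eq_sum z, hz, sub_zero, Finset.sum_const, Finset.card_univ,
      Fintype.card_fin, NN, add_nsmul, one_nsmul, mul_nsmul'] at h3
    have h4 : 2 • genus κ F • cl p ∈ H := (hH _).2 ⟨_, rfl⟩
    simpa using H.sub_mem h3 h4
  have h5 : AddSubgroup.closure (Set.range (cl : Pt o K → Cl o K)) ≤ H := by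
    rw [AddSubgroup.closure_le]
    rintro _ ⟨p, rfl⟩
    exact h2 p
  rw [closure_cl] at h5
  exact (hH _).1 (h5 (AddSubgroup.mem_top w))

theorem P6_main {Ω : Type} [Field Ω] [IsAlgClosed Ω] [CharZero Ω] [Algebra κ Ω] {m : ℕ}
    (hg : genus κ F = m + 1) (u : Fin (m + 1) → Ω) (hu : AlgebraicIndependent κ u) (w : Cl o κ) :
    ∃ x : Cl o κ, 2 • x = w := by
  choose y hy using fun i => exists_pt_wN (o := o) (u i)
  have hy' : AlgebraicIndependent κ fun i => y i (wN o) := by simpa only [hy] using hu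
  have h1 : ell (dz y) = 1 := ell_dz_generic hg.ge y hy'
  obtain ⟨R, hR0, hRd, hR⟩ := exists_eff_rep (2 • clz y)
  obtain ⟨P, rfl⟩ := exists_eq_sum_pd hR0 (n := m + 1) (by rw [hRd, hg])
  obtain ⟨K, _, _, _, _, τ, hK1, hK2⟩ :=
    P6_acl (κ := κ) fun i : Fin m => (P i.succ).ev (iF o Ω (wN o))
  choose Q hQ using fun i => P6_mem_range_plc τ (hK1 i)
  have h2 : ∑ i, pd (P i) = pd (P 0) + (bc o τ).dv (∑ i, pd (Q i)) := by
    rw [Fin.sum_univ_succ, map_sum]
    simp only [BC.dv_pd, hQ]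
  have h3 : P 0 ∉ Set.range (bc o τ).plc := by
    rintro ⟨Q0, hQ0⟩
    rw [h2, ← hQ0, ← BC.dv_pd, ← map_add, ← BC.cl_clD] at hR
    obtain ⟨x, hx⟩ := mem_range_cl_of_two τ ⟨_, hR⟩
    obtain ⟨D, hD0, hDd, rfl⟩ := exists_eff_rep x
    rw [BC.cl_clD, clz, eq_comm, clD_eq_iff_of_deg (by
      rw [BC.deg_dv, hDd, deg_dz, Fintype.card_fin, hg])] at hx
    have h4 := eq_of_ell_eq_one (dz_nonneg y)
      (by rw [← map_zero (bc o τ).dv, BC.dv_le_iff]; exact hD0) hx h1
    refine hK2 u hu fun i => ?_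
    rw [← hy i]
    refine P6_wN_mem τ ?_
    by_contra hn
    have h5 : (bc o τ).dv D (plc (y i)) = 0 := Finsupp.mapDomain_of_notMem_range _ _ hn
    rw [← h4, dz_apply] at h5
    have h6 : i ∈ Finset.univ.filter fun a => y a = y i := by simp
    have h7 := Finset.card_pos.2 ⟨i, h6⟩
    omega
  rcases eq_oo_or_plc (P 0) with h0 | ⟨y0, h0⟩
  · exact absurd ⟨_, (BC.plc_oo _).trans h0.symm⟩ h3
  have h4 : y0 ∉ Set.range (bc o τ).pt := by
    rintro ⟨p, rfl⟩
    exact h3 ⟨_, (BC.plc_plc _ _).trans h0⟩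
  have h5 : ∀ p : Pt o K, ∃ x : Cl o K, 2 • x = cl p + clD o K (∑ i, pd (Q i)) := by
    intro p
    obtain ⟨O, hO, hred⟩ := exists_spec τ h4 p
    refine P6_descend (resH O τ hO) (x := redCl O o (clz y)) ?_
    rw [← map_nsmul, ← hR, h2, ← h0, map_add, map_add, ← redCl_bc O τ hO, map_add, map_add,
      BC.cl_clD, BC.cl_cl, bc_pt]
    congr 1
    exact redCl_cl_congr O hred
  obtain ⟨x, hx⟩ := P6_all h5 ((bc o (Algebra.ofId κ K)).cl w)
  exact P6_descend _ hx

/-- the class group is divisible by two -/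
theorem exists_two_smul (w : Cl o κ) : ∃ x : Cl o κ, 2 • x = w := by
  rcases hg : genus κ F with _ | m
  · have := subsingleton_Cl (o := o) (Ω := κ) hg
    exact ⟨w, Subsingleton.elim _ _⟩
  · let Ω := AlgebraicClosure (FractionRing (MvPolynomial (Fin (m + 1)) κ))
    have : CharZero Ω := charZero_of_injective_algebraMap (algebraMap κ Ω).injective
    let f : MvPolynomial (Fin (m + 1)) κ →ₐ[κ] Ω :=
      (IsScalarTower.toAlgHom κ (FractionRing (MvPolynomial (Fin (m + 1)) κ)) Ω).comp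
        (IsScalarTower.toAlgHom κ (MvPolynomial (Fin (m + 1)) κ) _)
    have hf : Function.Injective f :=
      (algebraMap (FractionRing (MvPolynomial (Fin (m + 1)) κ)) Ω).injective.comp
        (IsFractionRing.injective (MvPolynomial (Fin (m + 1)) κ) _)
    exact P6_main hg (f ∘ MvPolynomial.X) ((MvPolynomial.algebraicIndependent_X _ _).map' hf) w

end Pool.Agent.E6b
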