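import Pool.Agent.E6b.P0
import Pool.Agent.E6b.L5
import Pool.Agent.E6b.O4
import Pool.Agent.E6b.HDefs2

open scoped NNReal TensorProduct IntermediateField BigOperators Classical Topology
open Filter

namespace Pool.Agent.E6b

section
variable {κ F : Type} [Field κ] [IsAlgClosed κ] [CharZero κ] [Field F] [Algebra κ F] [IsFF κ F]

/-- index set of the theta vectors -/
abbrev JJ (_o : Place κ F) : Type := (Fin (genus κ F) ⊕ Fin (genus κ F)) ↪ Fin (5 * genus κ F + 1)

variable {o : Place κ F}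

/-- swap the two halves -/
def sw (j : JJ o) : JJ o := (Equiv.sumComm _ _).toEmbedding.trans j

/-- constant points -/
noncomputable def cpt (Ω : Type) [Field Ω] [Algebra κ Ω] (p : Pt o κ) : Pt o Ω :=
  (Algebra.ofId κ Ω).comp p

/-- the auxiliary family `Q' + (fibre - Q)` -/
noncomputable def Pj (Ω : Type) [Field Ω] [Algebra κ Ω] (j : JJ o) :
    Fin (genus κ F) × Fin (NN o) → Pt o Ω := fun x =>
  cpt Ω (if (x.2 : ℕ) = 0 then (pdat o).q (j (.inr x.1)) x.2 else (pdat o).q (j (.inl x.1)) x.2)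

/-- theta vector of a family of points -/
noncomputable def rho {Ω : Type} [Field Ω] [Algebra κ Ω] {ι : Type} [Fintype ι] (z : ι → Pt o Ω)
    (j : JJ o) : Ω :=
  Det (Sum.elim z (Pj Ω j)) * Det (Sum.elim z (Pj Ω (sw j))) /
    ∏ a, ∏ s, (z a (wN o) - algebraMap κ Ω ((pdat o).c (j s)))

variable {Ω Ω' : Type} [Field Ω] [IsAlgClosed Ω] [CharZero Ω] [Algebra κ Ω]
  [Field Ω'] [IsAlgClosed Ω'] [CharZero Ω'] [Algebra κ Ω']

noncomputable def aj (Ω : Type) [Field Ω] [IsAlgClosed Ω] [CharZero Ω] [Algebra κ Ω] (j : JJ o) :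
    Cl o Ω := clz (Pj Ω j)

/-- a good representative of a class -/
noncomputable def rep (w : Cl o Ω) : Fin (2 * genus κ F) → Pt o Ω :=
  (exists_good_rep w (Fin (2 * genus κ F)) (by simp) Set.finite_empty).choose

theorem rep_good (w : Cl o Ω) : Good (rep w) :=
  (exists_good_rep w (Fin (2 * genus κ F)) (by simp) Set.finite_empty).choose_spec.1

theorem clz_rep (w : Cl o Ω) : clz (rep w) = w :=
  (exists_good_rep w (Fin (2 * genus κ F)) (by simp) Set.finite_empty).choose_spec.2.2

/-- theta vector of a class -/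
noncomputable def Psi (w : Cl o Ω) : JJ o → Ω := rho (rep w)

/-- symmetric theta vector -/
noncomputable def Psym (w : Cl o Ω) : JJ o × JJ o → Ω := fun p => Psi w p.1 * Psi (-w) p.2

/-- base changes fixing the chosen fibres -/
def BC.Ok (β : BC o Ω Ω') : Prop :=
  ∀ i l, β.pt (cpt Ω ((pdat o).q i l)) = cpt Ω' ((pdat o).q i l)

/-- classes fixed by the Galois group over `K` -/
def RatC (K : Type) [Field K] [Algebra K Ω] [Algebra κ K] [IsScalarTower κ K Ω] (w : Cl o Ω) :
    Prop := ∀ σ : Ω ≃ₐ[K] Ω, (bc o ((σ : Ω →ₐ[K] Ω).restrictScalars κ)).cl w = w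

end

section
variable {F : Type} [Field F] [Algebra Qb F] [IsFF Qb F] {o : Place Qb F}

/-- naive height of a class -/
noncomputable def hq (w : Cl o Qb) : ℝ := hv (Psym w)

/-- classes rational over a number field -/
def GK (o : Place Qb F) (K : IntermediateField ℚ Qb) : AddSubgroup (Cl o Qb) where
  carrier := {w | ∀ β : BC o Qb Qb, (∀ x ∈ K, β.τ x = x) → β.cl w = w}
  zero_mem' := fun β _ => map_zero β.cl
  add_mem' := fun {a b} ha hb β h => by rw [map_add, ha β h, hb β h]
  neg_mem' := fun {a} ha β h => by rw [map_neg, ha β h]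

end

end Pool.Agent.E6b
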