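import Pool.Agent.E6b.PTDefs

open scoped NNReal TensorProduct IntermediateField BigOperators Classical Topology
open Filter

namespace Pool.Agent.E6b

open MvPolynomial

section aux

variable {σ : Type} {F G : MvPolynomial σ Qb} {p : σ → Qb}

theorem PT1_shf_mul (p : σ → Qb) (F G : MvPolynomial σ Qb) :
    shf p (F * G) = shf p F * shf p G := map_mul _ _ _

theorem PT1_coeff_zero (p : σ → Qb) (G : MvPolynomial σ Qb) : coeff 0 (shf p G) = eval p G := by
  change constantCoeff (shf p G) = eval p G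
  unfold shf
  induction G using MvPolynomial.induction_on with
  | C a => simp
  | add P Q hP hQ => simp only [map_add, hP, hQ]
  | mul_X P i hP => simp only [map_mul, hP]; simp

theorem PT1_pderiv_shf (p : σ → Qb) (j : σ) (F : MvPolynomial σ Qb) :
    shf p (pderiv j F) = pderiv j (shf p F) := by
  unfold shf
  induction F using MvPolynomial.induction_on with
  | C a => simp
  | add P Q hP hQ => simp only [map_add, hP, hQ]
  | mul_X P i hP =>
    simp only [pderiv_mul, map_add, map_mul, hP, aeval_X, pderiv_C, add_zero, pderiv_X]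
    by_cases h : i = j
    · subst h
      simp
    · simp [Pi.single_eq_of_ne h]

theorem PT1_ddv_shf (p : σ → Qb) (j : σ) (e : ℕ) (F : MvPolynomial σ Qb) :
    shf p (ddv j e F) = ddv j e (shf p F) := by
  have h : ∀ F : MvPolynomial σ Qb, shf p ((pderiv j)^[e] F) = (pderiv j)^[e] (shf p F) := by
    induction e with
    | zero => exact fun _ => rfl
    | succ e ih =>
      intro F
      rw [Function.iterate_succ_apply, Function.iterate_succ_apply, ih, PT1_pderiv_shf]
  unfold ddv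
  rw [← h]
  exact map_smul _ _ _

theorem PT1_coeff_iter (j : σ) (e : ℕ) (F : MvPolynomial σ Qb) (m : σ →₀ ℕ) :
    coeff m ((pderiv j)^[e] F) =
      coeff (m + Finsupp.single j e) F * ((m j + 1).ascFactorial e : ℕ) := by
  induction e generalizing F with
  | zero => simp
  | succ e ih =>
    rw [Function.iterate_succ_apply, ih, coeff_pderiv, Nat.ascFactorial_succ, Finsupp.single_add,
      add_assoc m]
    simp only [Finsupp.add_apply, Finsupp.single_eq_same]
    push_cast
    ring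

theorem PT1_coeff_ddv (j : σ) (e : ℕ) (F : MvPolynomial σ Qb) (m : σ →₀ ℕ) :
    coeff m (ddv j e F) = ((m j + e).choose e : ℕ) * coeff (m + Finsupp.single j e) F := by
  have h : (e.factorial : Qb) ≠ 0 := by exact_mod_cast e.factorial_ne_zero
  unfold ddv
  rw [coeff_smul, PT1_coeff_iter, Nat.ascFactorial_eq_factorial_mul_choose, smul_eq_mul]
  push_cast
  field_simp

theorem PT1_supp_ddv {j : σ} {e : ℕ} {m : σ →₀ ℕ} (h : m ∈ (ddv j e F).support) :
    m + Finsupp.single j e ∈ F.support := by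
  rw [mem_support_iff] at h ⊢
  rw [PT1_coeff_ddv] at h
  exact right_ne_zero_of_mul h

theorem PT1_not_dvd_pderiv {q : MvPolynomial σ Qb} {j : σ} (hj : j ∈ q.vars) :
    ¬ q ∣ pderiv j q := by
  obtain ⟨m, hm, hjm⟩ := (mem_vars_iff_mem_support j).1 hj
  have hm1 : 1 ≤ m j := Nat.pos_of_ne_zero (Finsupp.mem_support_iff.1 hjm)
  have h0 : pderiv j q ≠ 0 := by
    intro h
    have h1 := coeff_pderiv (i := j) q (m - Finsupp.single j 1)
    rw [h, coeff_zero, tsub_add_cancel_of_le (Finsupp.single_le_iff.2 hm1)] at h1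
    exact mul_ne_zero (mem_support_iff.1 hm) (Nat.cast_add_one_ne_zero _) h1.symm
  have h1 : (pderiv j q).degreeOf j < q.degreeOf j := by
    rw [degreeOf_lt_iff (lt_of_lt_of_le hm1 (monomial_le_degreeOf j hm))]
    intro m' hm'
    rw [mem_support_iff, coeff_pderiv] at hm'
    have h2 := monomial_le_degreeOf j (mem_support_iff.2 (left_ne_zero_of_mul hm'))
    simp only [Finsupp.add_apply, Finsupp.single_eq_same] at h2
    omega
  rintro ⟨r, hr⟩
  rw [hr] at h0
  rw [hr, degreeOf_mul_eq (left_ne_zero_of_mul h0) (right_ne_zero_of_mul h0)] at h1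
  omega

theorem PT1_iter (q G : MvPolynomial σ Qb) (j : σ) (k r : ℕ) :
    ∃ c : ℕ, c ≠ 0 ∧ ∃ R, (pderiv j)^[k] (q ^ (r + k) * G) =
      q ^ r * (c * (pderiv j q ^ k * G) + q * R) := by
  induction k generalizing r with
  | zero => exact ⟨1, one_ne_zero, 0, by simp⟩
  | succ k ih =>
    obtain ⟨c, hc, R, h⟩ := ih (r + 1)
    refine ⟨(r + 1) * c, by positivity,
      ((r : MvPolynomial σ Qb) + 1) * pderiv j q * R +
        pderiv j ((c : MvPolynomial σ Qb) * (pderiv j q ^ k * G) + q * R), ?_⟩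
    rw [Function.iterate_succ_apply', show r + (k + 1) = r + 1 + k by ring, h, pderiv_mul,
      pderiv_pow, Nat.add_sub_cancel]
    push_cast
    ring

theorem PT1_dvd {q S H : MvPolynomial σ Qb} {t t' : ℕ} (ht : t ≠ t')
    (h : q ∣ (t : Qb) • H + S) (h' : q ∣ (t' : Qb) • H + S) : q ∣ H ∧ q ∣ S := by
  have h1 : ((t : Qb) - t') ≠ 0 := sub_ne_zero.2 (by exact_mod_cast ht)
  have h2 : q ∣ ((t : Qb) - t') • H := by
    have := dvd_sub h h'
    rwa [add_sub_add_right_eq_sub, ← sub_smul] at this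
  have h3 : q ∣ H := by
    have := h2.mul_left (C ((t : Qb) - t')⁻¹)
    rwa [← smul_eq_C_mul, smul_smul, inv_mul_cancel₀ h1, one_smul] at this
  refine ⟨h3, (dvd_add_right ?_).1 h⟩
  rw [smul_eq_C_mul]
  exact h3.mul_left _

end aux

variable {σ : Type} [Fintype σ] {F G : MvPolynomial σ Qb} {p : σ → Qb} {d : σ → ℕ} {ϑ : ℝ}

theorem PT1_wt_add (d : σ → ℕ) (a b : σ →₀ ℕ) : ∑ j, ((a + b) j : ℝ) / d j =
    ∑ j, (a j : ℝ) / d j + ∑ j, (b j : ℝ) / d j := by
  simp only [Finsupp.add_apply, Nat.cast_add, add_div, Finset.sum_add_distrib]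

theorem IdxGe.mono (h : IdxGe F p d ϑ) {ϑ' : ℝ} (h' : ϑ' ≤ ϑ) : IdxGe F p d ϑ' :=
  fun m hm => h'.trans (h m hm)

theorem IdxGe.of_mul (hd : ∀ j, 0 < d j) (h : IdxGe (F * G) p d ϑ) (hG : eval p G ≠ 0) :
    IdxGe F p d ϑ := by
  intro m hm
  obtain ⟨m₀, h0, hmin⟩ := (shf p F).support.exists_min_image
    (fun m : σ →₀ ℕ => ∑ j, (m j : ℝ) / d j) ⟨m, hm⟩
  refine (h m₀ ?_).trans (hmin m hm)
  rw [mem_support_iff, PT1_shf_mul, coeff_mul, Finset.sum_eq_single (m₀, 0)]
  · rw [PT1_coeff_zero]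
    exact mul_ne_zero (mem_support_iff.1 h0) hG
  · rintro ⟨a, b⟩ hab hne
    rw [Finset.HasAntidiagonal.mem_antidiagonal] at hab
    dsimp only at hab ⊢
    have hb : b ≠ 0 := by
      rintro rfl
      exact hne (by rw [← hab, add_zero])
    obtain ⟨i, hi⟩ := Finsupp.ne_iff.1 hb
    have h1 : 0 < ∑ j, (b j : ℝ) / d j :=
      Finset.sum_pos' (fun j _ => by positivity) ⟨i, Finset.mem_univ i,
        div_pos (by exact_mod_cast Nat.pos_of_ne_zero hi) (by exact_mod_cast hd i)⟩
    refine mul_eq_zero_of_left ?_ _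
    by_contra ha
    have h2 := hmin a (mem_support_iff.2 ha)
    rw [← hab, PT1_wt_add] at h2
    linarith
  · intro hn
    exact absurd (Finset.HasAntidiagonal.mem_antidiagonal.2 (add_zero m₀)) hn

theorem IdxGe.eval_eq_zero (h : IdxGe F p d ϑ) (hϑ : 0 < ϑ) : eval p F = 0 := by
  by_contra h0
  have h1 := h 0 (by rwa [mem_support_iff, PT1_coeff_zero])
  simp at h1
  linarith

theorem IdxGe.ddv (h : IdxGe F p d ϑ) (j : σ) (e : ℕ) :
    IdxGe (ddv j e F) p d (ϑ - (e : ℝ) / d j) := by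
  intro m hm
  rw [PT1_ddv_shf] at hm
  have h1 := h _ (PT1_supp_ddv hm)
  have h2 : ∑ i, ((Finsupp.single j e : σ →₀ ℕ) i : ℝ) / d i = (e : ℝ) / d j := by
    rw [Finset.sum_eq_single j]
    · rw [Finsupp.single_eq_same]
    · intro i _ hi
      rw [Finsupp.single_eq_of_ne hi, Nat.cast_zero, zero_div]
    · intro hn
      exact absurd (Finset.mem_univ j) hn
  rw [PT1_wt_add, h2] at h1
  linarith

theorem IdxGe.sum {ι : Type} (s : Finset ι) (c : ι → Qb) (H : ι → MvPolynomial σ Qb)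
    (h : ∀ i ∈ s, IdxGe (H i) p d ϑ) : IdxGe (∑ i ∈ s, c i • H i) p d ϑ := by
  intro m hm
  have h1 : shf p (∑ i ∈ s, c i • H i) = ∑ i ∈ s, c i • shf p (H i) := by
    unfold shf
    simp only [map_sum, map_smul]
  rw [mem_support_iff, h1, coeff_sum] at hm
  obtain ⟨i, hi, h2⟩ := Finset.exists_ne_zero_of_sum_ne_zero hm
  rw [coeff_smul, smul_eq_mul] at h2
  exact h i hi m (mem_support_iff.2 (right_ne_zero_of_mul h2))

omit [Fintype σ] in
theorem degreeOf_ddv_le (i j : σ) (e : ℕ) : (ddv j e F).degreeOf i ≤ F.degreeOf i := by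
  rw [degreeOf_le_iff]
  intro m hm
  have h := monomial_le_degreeOf i (PT1_supp_ddv hm)
  rw [Finsupp.add_apply] at h
  omega

omit [Fintype σ] in
theorem nrm_ddv_le {q : ℕ} {v : AbsoluteValue Qb ℝ} (hv : IsPl q v) (j : σ) (e : ℕ) :
    nrm v (ddv j e F).coeffs ≤ th q (2 ^ F.degreeOf j) * nrm v F.coeffs := by
  have h0 : 0 ≤ th q (2 ^ F.degreeOf j) := by
    unfold th
    split_ifs <;> positivity
  refine nrm_le v (mul_nonneg h0 (nrm_nonneg _ _)) fun a ha => ?_
  obtain ⟨m, hm, rfl⟩ := mem_coeffs_iff.1 ha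
  have h1 := PT1_supp_ddv hm
  have h2 := monomial_le_degreeOf j h1
  rw [Finsupp.add_apply, Finsupp.single_eq_same] at h2
  rw [PT1_coeff_ddv, map_mul]
  refine mul_le_mul ((hv.natCast_le _).trans ?_)
    (le_nrm v (coeff_mem_coeffs _ (mem_support_iff.1 h1))) (v.nonneg _) h0
  unfold th
  split_ifs
  · exact_mod_cast (Nat.choose_le_two_pow _ _).trans (Nat.pow_le_pow_right two_pos h2)
  · exact le_rfl

omit [Fintype σ] in
theorem not_dvd_ddv {q : MvPolynomial σ Qb} (hq : Irreducible q) {j : σ} (hj : j ∈ q.vars)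
    {e : ℕ} (h1 : q ^ e ∣ F) (h2 : ¬ q ^ (e + 1) ∣ F) : ¬ q ∣ ddv j e F := by
  obtain ⟨G, rfl⟩ := h1
  have hG : ¬ q ∣ G := fun h => h2 (by rw [pow_succ]; exact mul_dvd_mul_left _ h)
  have hp : Prime q := hq.prime
  obtain ⟨c, hc, R, h⟩ := PT1_iter q G j e 0
  rw [zero_add, pow_zero, one_mul] at h
  intro h3
  have h4 : (e.factorial : Qb) ≠ 0 := by exact_mod_cast e.factorial_ne_zero
  have h5 := h3.mul_left (C (e.factorial : Qb))
  unfold ddv at h5
  rw [← smul_eq_C_mul, smul_smul, mul_inv_cancel₀ h4, one_smul, h,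
    dvd_add_left (dvd_mul_right q R)] at h5
  have h6 : IsUnit (c : MvPolynomial σ Qb) := by
    rw [← map_natCast (C : Qb →+* MvPolynomial σ Qb) c]
    exact (IsUnit.mk0 _ (by exact_mod_cast hc)).map C
  rcases hp.dvd_or_dvd (h6.dvd_mul_left.1 h5) with h7 | h7
  · exact PT1_not_dvd_pderiv hj (hp.dvd_of_dvd_pow h7)
  · exact hG h7

omit [Fintype σ] in
/-- a small integral combination avoiding finitely many irreducible factors -/
theorem exists_comb {ι : Type} [Fintype ι] (q H : ι → MvPolynomial σ Qb)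
    (h : ∀ i, ¬ q i ∣ H i) :
    ∃ c : ι → ℕ, (∀ i, c i ≤ Fintype.card ι) ∧ ∀ i, ¬ q i ∣ ∑ k, (c k : Qb) • H k := by
  have key : ∀ s : Finset ι, ∃ c : ι → ℕ, (∀ i, c i ≤ Fintype.card ι) ∧
      ∀ i ∈ s, ¬ q i ∣ ∑ k ∈ s, (c k : Qb) • H k := by
    intro s
    induction s using Finset.induction_on with
    | empty => exact ⟨fun _ => 0, fun _ => Nat.zero_le _, fun i hi => absurd hi (by simp)⟩
    | insert a s ha ih =>
      obtain ⟨c, hc, hs⟩ := ih
      have h1 : ∃ t ≤ Fintype.card ι, ∀ i ∈ insert a s,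
          ¬ q i ∣ (t : Qb) • H a + ∑ k ∈ s, (c k : Qb) • H k := by
        by_contra hn
        push Not at hn
        have : Nonempty ι := ⟨a⟩
        choose! f hf1 hf2 using hn
        obtain ⟨t, ht, t', ht', hne, he⟩ := Finset.exists_ne_map_eq_of_card_lt_of_maps_to
          (s := Finset.range (Fintype.card ι + 1)) (t := Finset.univ) (f := f) (by simp)
          (fun _ _ => Finset.mem_univ _)
        rw [Finset.mem_range, Nat.lt_succ_iff] at ht ht'
        have h2 := PT1_dvd hne (hf2 t ht) (he ▸ hf2 t' ht')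
        rcases Finset.mem_insert.1 (hf1 t ht) with h3 | h3
        · rw [h3] at h2
          exact h a h2.1
        · exact hs _ h3 h2.2
      obtain ⟨t, ht, h2⟩ := h1
      refine ⟨Function.update c a t, fun i => ?_, fun i hi => ?_⟩
      · by_cases hi : i = a
        · rw [hi, Function.update_self]
          exact ht
        · rw [Function.update_of_ne hi]
          exact hc i
      · rw [Finset.sum_insert ha, Function.update_self, Finset.sum_congr rfl fun k hk => by
          rw [Function.update_of_ne (ne_of_mem_of_not_mem hk ha)]]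
        exact h2 i hi
  obtain ⟨c, hc, hs⟩ := key Finset.univ
  exact ⟨c, hc, fun i => hs i (Finset.mem_univ i)⟩

end Pool.Agent.E6b
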