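import Pool.Agent.E6b.Gelf

open scoped NNReal TensorProduct IntermediateField BigOperators Classical Topology
open Filter

namespace Pool.Agent.E6b

/-- Taylor expansion of a polynomial at `p` -/
noncomputable def shf {σ : Type} (p : σ → Qb) (F : MvPolynomial σ Qb) : MvPolynomial σ Qb :=
  MvPolynomial.aeval (fun j => MvPolynomial.X j + MvPolynomial.C (p j)) F

/-- the index of `F` at `p` with respect to `d` is at least `ϑ` -/
def IdxGe {σ : Type} [Fintype σ] (F : MvPolynomial σ Qb) (p : σ → Qb) (d : σ → ℕ) (ϑ : ℝ) : Prop :=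
  ∀ m ∈ (shf p F).support, ϑ ≤ ∑ j, (m j : ℝ) / d j

/-- divided derivative -/
noncomputable def ddv {σ : Type} (j : σ) (e : ℕ) (F : MvPolynomial σ Qb) : MvPolynomial σ Qb :=
  ((e.factorial : Qb)⁻¹) • (MvPolynomial.pderiv j)^[e] F

/-- two-block weights -/
def wt {σ : Type} (blk : σ → Bool) (d₁ d₂ : ℕ) : σ → ℕ := fun j => if blk j then d₂ else d₁

end Pool.Agent.E6b
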