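import Pool.Agent.E6b.S1a

open scoped NNReal TensorProduct IntermediateField BigOperators Classical Topology
open Filter

namespace Pool.Agent.E6b

variable {F : Type} [Field F] [Algebra Qb F] [IsFF Qb F] {A : GAct F} {t : F} (E : Emb A t)

omit [IsFF Qb F] in
/-- a relation with rationally independent constants between invariant elements is trivial -/
theorem S1_indep (A : GAct F) {ι : Type} (s : Finset ι) (β : ι → Qb)
    (hβ : ∀ c : ι → ℚ, ∑ i ∈ s, (c i : Qb) * β i = 0 → ∀ i ∈ s, c i = 0) (h : ι → F)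
    (hh : ∀ σ i, A.act σ (h i) = h i) (h0 : ∑ i ∈ s, β i • h i = 0) : ∀ i ∈ s, h i = 0 := by
  have : CharZero F := charZero_of_injective_algebraMap (algebraMap Qb F).injective
  have hq : ∀ (q : ℚ) (x : F), (q : Qb) • x = q • x := fun q x => by
    rw [Algebra.smul_def, map_ratCast, Rat.smul_def]
  have : Module.Finite ℚ (Submodule.span ℚ (h '' (s : Set ι))) :=
    Module.Finite.span_of_finite ℚ (s.finite_toSet.image h)
  obtain ⟨e, he1, he2, he3⟩ := Submodule.exists_fun_fin_finrank_span_eq ℚ (h '' (s : Set ι))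
  have hfix : ∀ σ j, A.act σ (e j) = e j := fun σ j => by
    obtain ⟨i, -, hi⟩ := he1 j
    rw [← hi, hh]
  have hind : LinearIndependent Qb e := by
    refine A.linearIndependent_of_fixed e hfix fun s' c hc => ?_
    refine linearIndependent_iff'.1 he3 s' c ?_
    rw [← hc]
    exact Finset.sum_congr rfl fun j _ => (hq _ _).symm
  have hc : ∀ i, ∃ c : _ → ℚ, i ∈ s → ∑ j, c j • e j = h i := fun i => by
    by_cases hi : i ∈ s
    · have : h i ∈ Submodule.span ℚ (Set.range e) := by
        rw [he2]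
        exact Submodule.subset_span ⟨i, hi, rfl⟩
      obtain ⟨c, hc⟩ := (Submodule.mem_span_range_iff_exists_fun ℚ).1 this
      exact ⟨c, fun _ => hc⟩
    · exact ⟨0, fun h' => absurd h' hi⟩
  choose c hc using hc
  have h1 : ∑ j, (∑ i ∈ s, (c i j : Qb) * β i) • e j = 0 := by
    rw [← h0]
    simp only [Finset.sum_smul]
    rw [Finset.sum_comm]
    refine Finset.sum_congr rfl fun i hi => ?_
    rw [← hc i hi, Finset.smul_sum]
    refine Finset.sum_congr rfl fun j _ => ?_
    rw [mul_comm, mul_smul, hq]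
  have h2 := Fintype.linearIndependent_iff.1 hind _ h1
  intro i hi
  rw [← hc i hi]
  refine Finset.sum_eq_zero fun j _ => ?_
  rw [hβ (fun i => c i j) (h2 j) i hi, zero_smul]

theorem Emb.ix_bij : Function.Bijective E.ix :=
  finProdFinEquiv.symm.bijective.comp (finCongr (by ring)).bijective

theorem S1_psi_C (c : Qb) :
    E.psi (MvPolynomial.C c) = MvPolynomial.C (algebraMap Qb F c) := by
  unfold Emb.psi
  rw [MvPolynomial.aeval_C]
  rfl

theorem S1_psi_X (i : Fin (2 * E.N + 1 + 1)) :
    E.psi (MvPolynomial.X i) = MvPolynomial.C (E.f (E.ix i).1) * MvPolynomial.X (E.ix i).2 := by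
  unfold Emb.psi
  rw [MvPolynomial.aeval_X]

theorem S1_fixed (σ : Qb ≃ₐ[ℚ] Qb) (g : MvPolynomial (Fin (2 * E.N + 1 + 1)) ℚ) :
    MvPolynomial.map (A.act σ).toRingHom (E.psi (MvPolynomial.map (algebraMap ℚ Qb) g)) =
      E.psi (MvPolynomial.map (algebraMap ℚ Qb) g) := by
  induction g using MvPolynomial.induction_on with
  | C q =>
    rw [MvPolynomial.map_C, S1_psi_C, MvPolynomial.map_C]
    congr 1
    have := A.comm σ (algebraMap ℚ Qb q)
    rw [AlgEquiv.commutes] at this
    exact this
  | add p q hp hq => rw [map_add, map_add, map_add, hp, hq]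
  | mul_X p i hp =>
    rw [map_mul, map_mul, map_mul, hp, MvPolynomial.map_X, S1_psi_X, map_mul, MvPolynomial.map_C,
      MvPolynomial.map_X]
    congr 3
    exact E.fix σ _

theorem S1_coeff_fixed (σ : Qb ≃ₐ[ℚ] Qb) (g : MvPolynomial (Fin (2 * E.N + 1 + 1)) ℚ)
    (u : Fin 2 →₀ ℕ) :
    A.act σ (MvPolynomial.coeff u (E.psi (MvPolynomial.map (algebraMap ℚ Qb) g))) =
      MvPolynomial.coeff u (E.psi (MvPolynomial.map (algebraMap ℚ Qb) g)) := by
  have := congrArg (MvPolynomial.coeff u) (S1_fixed E σ g)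
  rw [MvPolynomial.coeff_map] at this
  exact this

/-- decomposition of a polynomial along a rational basis of the coefficient field -/
theorem S1_decomp {K : Type} [Field K] [Algebra ℚ K] {τ ι : Type} (b : Module.Basis ι ℚ K)
    (g : MvPolynomial τ K) : ∃ (s : Finset ι) (G : ι → MvPolynomial τ ℚ),
      g = ∑ i ∈ s, MvPolynomial.C (b i) * MvPolynomial.map (algebraMap ℚ K) (G i) := by
  refine ⟨g.support.biUnion fun m => (b.repr (g.coeff m)).support,
    fun i => ∑ m ∈ g.support, MvPolynomial.monomial m (b.repr (g.coeff m) i), ?_⟩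
  simp only [map_sum, Finset.mul_sum, MvPolynomial.map_monomial, MvPolynomial.C_mul_monomial]
  rw [Finset.sum_comm]
  conv_lhs => rw [g.as_sum]
  refine Finset.sum_congr rfl fun m hm => ?_
  rw [← map_sum]
  congr 1
  conv_lhs => rw [← b.linearCombination_repr (g.coeff m)]
  rw [Finsupp.linearCombination_apply, Finsupp.sum_of_support_subset _
    (Finset.subset_biUnion_of_mem (fun m => (b.repr (g.coeff m)).support) hm)
    (fun i a => a • b i) (fun i _ => zero_smul _ _)]
  refine Finset.sum_congr rfl fun i _ => ?_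
  rw [Algebra.smul_def, mul_comm]

/-- the extension of the ideal to a subfield of `Qb` -/
theorem Emb.map_I {K : Type} [Field K] [Algebra ℚ K] (ι : K →+* Qb) :
    E.I.map (MvPolynomial.map (algebraMap ℚ K)) =
      (RingHom.ker E.psi).comap (MvPolynomial.map ι) := by
  have hι : ι.comp (algebraMap ℚ K) = algebraMap ℚ Qb := Subsingleton.elim _ _
  apply le_antisymm
  · rw [Ideal.map_le_iff_le_comap]
    intro g hg
    rw [Ideal.mem_comap, Ideal.mem_comap, MvPolynomial.map_map, hι]
    exact hg
  · intro g hg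
    rw [Ideal.mem_comap, RingHom.mem_ker] at hg
    let b := Module.Basis.ofVectorSpace ℚ K
    obtain ⟨s, G, hG⟩ := S1_decomp b g
    have hβ : ∀ c : _ → ℚ, ∑ i ∈ s, (c i : Qb) * ι (b i) = 0 → ∀ i ∈ s, c i = 0 := by
      intro c hc
      refine linearIndependent_iff'.1 b.linearIndependent s c (ι.injective ?_)
      rw [map_zero, ← hc, map_sum]
      refine Finset.sum_congr rfl fun i _ => ?_
      rw [Algebra.smul_def, map_mul]
      congr 1
      exact (DFunLike.congr_fun hι (c i)).trans (eq_ratCast _ _)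
    have h1 : ∑ i ∈ s, MvPolynomial.C (algebraMap Qb F (ι (b i))) *
        E.psi (MvPolynomial.map (algebraMap ℚ Qb) (G i)) = 0 := by
      rw [← hg, hG, map_sum, map_sum]
      refine Finset.sum_congr rfl fun i _ => ?_
      rw [map_mul, map_mul, MvPolynomial.map_C, S1_psi_C, MvPolynomial.map_map, hι]
    have h2 : ∀ i ∈ s, G i ∈ E.I := by
      intro i hi
      unfold Emb.I
      rw [Ideal.mem_comap, RingHom.mem_ker]
      ext u
      rw [MvPolynomial.coeff_zero]
      refine S1_indep A s (fun i => ι (b i)) hβ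
        (fun i => MvPolynomial.coeff u (E.psi (MvPolynomial.map (algebraMap ℚ Qb) (G i))))
        (fun σ i => S1_coeff_fixed E σ _ u) ?_ i hi
      have := congrArg (MvPolynomial.coeff u) h1
      rw [MvPolynomial.coeff_sum, MvPolynomial.coeff_zero] at this
      rw [← this]
      refine Finset.sum_congr rfl fun i _ => ?_
      rw [MvPolynomial.coeff_C_mul, Algebra.smul_def]
    rw [hG]
    exact Ideal.sum_mem _ fun i hi => Ideal.mul_mem_left _ _ (Ideal.mem_map_of_mem _ (h2 i hi))

theorem Emb.map_I_Qb : E.I.map (MvPolynomial.map (algebraMap ℚ Qb)) = RingHom.ker E.psi := by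
  have := E.map_I (RingHom.id Qb)
  rw [this]
  ext g
  rw [Ideal.mem_comap, MvPolynomial.map_id]

theorem S1_psi_hom {p : MvPolynomial (Fin (2 * E.N + 1 + 1)) Qb} {m : ℕ} (hp : p.IsHomogeneous m) :
    (E.psi p).IsHomogeneous m := by
  have := hp.aeval (fun i => MvPolynomial.C (E.f (E.ix i).1) * MvPolynomial.X (E.ix i).2)
    (n := 1) (fun i => (MvPolynomial.isHomogeneous_X _ _).C_mul _)
  rw [one_mul] at this
  exact this

theorem S1_psi_comp (p : MvPolynomial (Fin (2 * E.N + 1 + 1)) ℚ) (m : ℕ) :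
    E.psi (MvPolynomial.map (algebraMap ℚ Qb) (MvPolynomial.homogeneousComponent m p)) =
      MvPolynomial.homogeneousComponent m (E.psi (MvPolynomial.map (algebraMap ℚ Qb) p)) := by
  induction p using MvPolynomial.induction_on' with
  | monomial u a =>
    have h1 : (MvPolynomial.monomial u a).IsHomogeneous u.degree :=
      MvPolynomial.isHomogeneous_monomial a rfl
    have h2 := S1_psi_hom E (h1.map (algebraMap ℚ Qb))
    rw [MvPolynomial.homogeneousComponent_of_mem h1, MvPolynomial.homogeneousComponent_of_mem h2]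
    split_ifs
    · rfl
    · rw [map_zero, map_zero]
  | add p q hp hq => simp only [map_add, hp, hq]

theorem Emb.homogeneous : ∀ f ∈ E.I, ∀ m : ℕ, MvPolynomial.homogeneousComponent m f ∈ E.I := by
  intro f hf m
  unfold Emb.I at hf ⊢
  rw [Ideal.mem_comap, RingHom.mem_ker] at hf ⊢
  rw [S1_psi_comp, hf, map_zero]

theorem Emb.geomPrime : (E.I.map (MvPolynomial.map (algebraMap ℚ Qb))).IsPrime := by
  rw [E.map_I_Qb]
  exact RingHom.ker_isPrime _

/-- invariant sections are rational combinations of the basis -/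
theorem Emb.exists_rat {g : F} (hg : g ∈ LL (E.m • dinf Qb t)) (h : ∀ σ, A.act σ g = g) :
    ∃ c : Fin (E.N + 1) → ℚ, g = ∑ a, (c a : Qb) • E.f a := by
  rw [← E.span] at hg
  obtain ⟨c, hc⟩ := (Submodule.mem_span_range_iff_exists_fun Qb).1 hg
  have h1 : ∀ a, ∃ q : ℚ, (q : Qb) = c a := fun a => by
    have : c a ∈ (⊥ : IntermediateField ℚ Qb) := by
      refine mem_of_fixed _ fun σ _ => ?_
      have h2 : ∑ a, (σ (c a) - c a) • E.f a = 0 := by
        simp only [sub_smul, Finset.sum_sub_distrib]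
        rw [sub_eq_zero, hc, ← h σ, ← hc, map_sum]
        exact Finset.sum_congr rfl fun a _ => by rw [S1a_act_smul, E.fix]
      exact sub_eq_zero.1 (Fintype.linearIndependent_iff.1 E.indep _ h2 a)
    obtain ⟨q, hq⟩ := IntermediateField.mem_bot.1 this
    exact ⟨q, hq⟩
  choose q hq using h1
  exact ⟨q, by rw [← hc]; exact Finset.sum_congr rfl fun a _ => by rw [hq]⟩

end Pool.Agent.E6b
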