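import Pool.Agent.E6b.SDefs
import Pool.Agent.E6b.K2
import Pool.Agent.E6b.H3

open scoped NNReal TensorProduct IntermediateField BigOperators Classical Topology
open Filter

namespace Pool.Agent.E6b

variable {F : Type} [Field F] [Algebra Qb F] [IsFF Qb F] (A : GAct F)

omit [IsFF Qb F] in
theorem S1a_act_smul (σ : Qb ≃ₐ[ℚ] Qb) (c : Qb) (g : F) :
    A.act σ (c • g) = σ c • A.act σ g := by
  rw [Algebra.smul_def, map_mul, A.comm, Algebra.smul_def]

theorem S1a_lift (K : IntermediateField ℚ Qb) (φ : K →ₐ[ℚ] Qb) :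
    ∃ σ : Qb ≃ₐ[ℚ] Qb, ∀ x : K, σ x = φ x := by
  have := H3_isGalois
  refine ⟨AlgEquiv.ofBijective (φ.liftNormal Qb) (AlgHom.normal_bijective ℚ Qb Qb _), fun x => ?_⟩
  exact φ.liftNormal_commutes Qb x

omit [IsFF Qb F] in
theorem S1a_mem_span (V : Submodule Qb F) (hV : ∀ σ, ∀ g ∈ V, A.act σ g ∈ V) {g : F}
    (hg : g ∈ V) : g ∈ Submodule.span Qb {f | f ∈ V ∧ ∀ σ, A.act σ f = f} := by
  obtain ⟨K, hK, hfix⟩ := A.opn g
  choose s hs using S1a_lift K
  have hcongr : ∀ σ τ : Qb ≃ₐ[ℚ] Qb, (∀ x : K, σ x = τ x) → A.act σ g = A.act τ g := by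
    intro σ τ h
    have h1 : A.act (τ⁻¹ * σ) g = g := hfix _ fun x hx => by
      rw [AlgEquiv.mul_apply, h ⟨x, hx⟩, ← AlgEquiv.mul_apply, inv_mul_cancel, AlgEquiv.one_apply]
    have h2 : A.act σ g = A.act τ (A.act (τ⁻¹ * σ) g) := by
      rw [← RingAut.mul_apply, ← map_mul, mul_inv_cancel_left]
    rw [h2, h1]
  have hT : ∀ b : K, ∑ φ : K →ₐ[ℚ] Qb, φ b • A.act (s φ) g ∈
      {f | f ∈ V ∧ ∀ σ, A.act σ f = f} := by
    intro b
    refine ⟨V.sum_mem fun φ _ => V.smul_mem _ (hV _ _ hg), fun τ => ?_⟩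
    rw [map_sum]
    refine Fintype.sum_bijective (fun φ : K →ₐ[ℚ] Qb => τ.toAlgHom.comp φ) ?_ _ _ fun φ => ?_
    · refine Finite.injective_iff_bijective.1 fun φ ψ h => AlgHom.ext fun x => ?_
      exact τ.injective (DFunLike.congr_fun h x)
    · rw [S1a_act_smul, ← RingAut.mul_apply, ← map_mul]
      congr 1
      refine hcongr _ _ fun x => ?_
      rw [AlgEquiv.mul_apply, hs, hs]
      rfl
  by_contra hne
  obtain ⟨lam, h1, h2⟩ := Submodule.exists_dual_map_eq_bot_of_notMem hne inferInstance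
  have h3 : ∑ φ : K →ₐ[ℚ] Qb, lam (A.act (s φ) g) • φ.toLinearMap = 0 := by
    ext b
    have h4 : lam (∑ φ : K →ₐ[ℚ] Qb, φ b • A.act (s φ) g) = 0 := by
      rw [← Submodule.mem_bot Qb, ← h2]
      exact Submodule.mem_map_of_mem (Submodule.subset_span (hT b))
    rw [map_sum] at h4
    rw [LinearMap.sum_apply, LinearMap.zero_apply, ← h4]
    refine Finset.sum_congr rfl fun φ _ => ?_
    rw [map_smul, LinearMap.smul_apply, smul_eq_mul, smul_eq_mul, mul_comm]
    rfl
  have h5 := Fintype.linearIndependent_iff.1 (linearIndependent_algHom_toLinearMap ℚ K Qb) _ h3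
    K.val
  rw [hfix (s K.val) fun x hx => hs K.val ⟨x, hx⟩] at h5
  exact h1 h5

omit [IsFF Qb F] in
/-- Galois descent for a stable finite dimensional subspace -/
theorem GAct.exists_fixed_basis (V : Submodule Qb F) [Module.Finite Qb V]
    (hV : ∀ σ, ∀ g ∈ V, A.act σ g ∈ V) : ∃ f : Fin (Module.finrank Qb V) → F,
      (∀ σ a, A.act σ (f a) = f a) ∧ LinearIndependent Qb f ∧
        Submodule.span Qb (Set.range f) = V := by
  have h : Submodule.span Qb {f | f ∈ V ∧ ∀ σ, A.act σ f = f} = V :=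
    le_antisymm (Submodule.span_le.2 fun f hf => hf.1) fun g hg => S1a_mem_span A V hV hg
  generalize hS : {f | f ∈ V ∧ ∀ σ, A.act σ f = f} = S at h
  have hS' : ∀ f ∈ S, ∀ σ, A.act σ f = f := fun f hf => by
    rw [← hS] at hf
    exact hf.2
  clear hS hV
  subst h
  obtain ⟨f, h1, h2, h3⟩ := Submodule.exists_fun_fin_finrank_span_eq Qb S
  exact ⟨f, fun σ a => hS' _ (h1 a) σ, h3, h2⟩

omit [IsFF Qb F] in
/-- invariant elements independent over the rationals are independent over `Qb` -/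
theorem GAct.linearIndependent_of_fixed {ι : Type} (g : ι → F) (hg : ∀ σ i, A.act σ (g i) = g i)
    (h : ∀ (s : Finset ι) (c : ι → ℚ), ∑ i ∈ s, (c i : Qb) • g i = 0 → ∀ i ∈ s, c i = 0) :
    LinearIndependent Qb g := by
  rw [linearIndependent_iff']
  intro s
  induction s using Finset.induction_on with
  | empty => intro c _ i hi; simp at hi
  | insert a s ha ih =>
    intro c hc
    have ha0 : c a = 0 := by
      by_contra h0
      have h1 : ∑ i ∈ insert a s, (c i / c a) • g i = 0 := by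
        have : ∑ i ∈ insert a s, (c i / c a) • g i = (c a)⁻¹ • ∑ i ∈ insert a s, c i • g i := by
          rw [Finset.smul_sum]
          refine Finset.sum_congr rfl fun i _ => ?_
          rw [smul_smul, div_eq_inv_mul]
        rw [this, hc, smul_zero]
      have h2 : ∀ i, ∃ q : ℚ, i ∈ insert a s → (q : Qb) = c i / c a := fun i => by
        by_cases hi : i ∈ insert a s
        · have : c i / c a ∈ (⊥ : IntermediateField ℚ Qb) := by
            refine mem_of_fixed _ fun σ _ => ?_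
            rcases Finset.mem_insert.1 hi with rfl | hi
            · rw [div_self h0, map_one]
            · have h3 : ∑ i ∈ insert a s, σ (c i / c a) • g i = 0 := by
                have := congrArg (A.act σ) h1
                rw [map_sum, map_zero] at this
                rw [← this]
                exact Finset.sum_congr rfl fun i _ => by rw [S1a_act_smul, hg]
              rw [Finset.sum_insert ha, div_self h0] at h1 h3
              rw [map_one] at h3
              have h4 : ∑ i ∈ s, (σ (c i / c a) - c i / c a) • g i = 0 := by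
                simp only [sub_smul, Finset.sum_sub_distrib]
                rw [sub_eq_zero]
                exact add_left_cancel (h3.trans h1.symm)
              exact sub_eq_zero.1 (ih _ h4 i hi)
          obtain ⟨q, hq⟩ := IntermediateField.mem_bot.1 this
          exact ⟨q, fun _ => hq⟩
        · exact ⟨0, fun h' => absurd h' hi⟩
      choose q hq using h2
      have h5 := h (insert a s) q (by
        rw [← h1]
        exact Finset.sum_congr rfl fun i hi => by rw [hq i hi]) a (Finset.mem_insert_self a s)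
      have h6 := hq a (Finset.mem_insert_self a s)
      rw [h5, div_self h0] at h6
      simp at h6
    rw [Finset.sum_insert ha, ha0, zero_smul, zero_add] at hc
    intro i hi
    rcases Finset.mem_insert.1 hi with rfl | hi
    · exact ha0
    · exact ih c hc i hi

theorem S1a_sup {t : F} (ht : t ∉ (algebraMap Qb F).range) {m : ℕ}
    (hm : 2 * genus Qb F + 1 ≤ m) :
    LL (m • dinf Qb t) ⊔ LL (m • dinf Qb t - dv Qb t) = LL ((m + 1) • dinf Qb t) := by
  have hn : (1 : ℤ) ≤ rk Qb t := by exact_mod_cast rk_pos ht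
  have hm' : 2 * (genus Qb F : ℤ) + 1 ≤ m := by exact_mod_cast hm
  have hg : (0 : ℤ) ≤ genus Qb F := by positivity
  have h1 : LL (m • dinf Qb t) ⊓ LL (m • dinf Qb t - dv Qb t) ≤
      LL (m • dinf Qb t - dv Qb t - dinf Qb t) := by
    rintro f ⟨f1, f2⟩
    by_cases h0 : f = 0
    · exact mem_LL.2 (Or.inl h0)
    refine mem_LL.2 (Or.inr fun P => ?_)
    have g1 := (mem_LL.1 f1).resolve_left h0 P
    have g2 := (mem_LL.1 f2).resolve_left h0 P
    simp only [Finsupp.sub_apply, dv_apply] at g2 ⊢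
    rw [dinf_apply t P]
    omega
  have h2 := Submodule.finrank_sup_add_finrank_inf_eq (LL (m • dinf Qb t))
    (LL (m • dinf Qb t - dv Qb t))
  have h3 := Submodule.finrank_mono h1
  have d1 : deg (m • dinf Qb t) = m * rk Qb t := by rw [deg_nsmul, deg_dinf_rk ht]
  have d2 : deg (m • dinf Qb t - dv Qb t) = m * rk Qb t := by rw [deg_sub, d1, deg_dv, sub_zero]
  have d3 : deg (m • dinf Qb t - dv Qb t - dinf Qb t) = m * rk Qb t - rk Qb t := by
    rw [deg_sub, d2, deg_dinf_rk ht]
  have d4 : deg ((m + 1) • dinf Qb t) = m * rk Qb t + rk Qb t := by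
    rw [succ_nsmul, deg_add, d1, deg_dinf_rk ht]
  have e1 := rr_large (D := m • dinf Qb t) (by rw [d1]; nlinarith)
  have e2 := rr_large (D := m • dinf Qb t - dv Qb t) (by rw [d2]; nlinarith)
  have e3 := rr_large (D := m • dinf Qb t - dv Qb t - dinf Qb t) (by rw [d3]; nlinarith)
  have e4 := rr_large (D := (m + 1) • dinf Qb t) (by rw [d4]; nlinarith)
  rw [d1] at e1
  rw [d2] at e2
  rw [d3] at e3
  rw [d4] at e4
  unfold ell at e1 e2 e3 e4
  refine Submodule.eq_of_le_of_finrank_le (sup_le (LL_mono ?_) (LL_mono ?_)) (by omega)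
  · exact nsmul_le_nsmul_left (F2_dinf_nonneg t) m.le_succ
  · intro P
    rw [succ_nsmul, Finsupp.sub_apply, Finsupp.add_apply, dv_apply, dinf_apply t P]
    omega

theorem S1a_exists_mem {t g : F} (h : ∀ P : Place Qb F, t ∈ P.O → g ∈ P.O) :
    ∃ n : ℕ, g ∈ LL (n • dinf Qb t) := by
  refine ⟨(dinf Qb g).support.sup fun P => (dinf Qb g P).toNat,
    mem_LL.2 (Or.inr fun P => ?_)⟩
  generalize hn : ((dinf Qb g).support.sup fun P => (dinf Qb g P).toNat) = n
  rw [Finsupp.smul_apply, nsmul_eq_mul, dinf_apply]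
  by_cases hP : t ∈ P.O
  · have h1 := P.mem_iff.1 (h P hP)
    have h2 : (0 : ℤ) ≤ n * max (-P.ord t) 0 := by positivity
    omega
  · have h1 : 1 ≤ max (-P.ord t) 0 := by
      rw [P.mem_iff] at hP
      omega
    have h2 : (dinf Qb g P).toNat ≤ n := by
      by_cases h0 : P ∈ (dinf Qb g).support
      · rw [← hn]
        exact Finset.le_sup (f := fun P => (dinf Qb g P).toNat) h0
      · rw [Finsupp.notMem_support_iff.1 h0]
        simp
    rw [dinf_apply] at h2
    have h3 : (n : ℤ) * 1 ≤ n * max (-P.ord t) 0 :=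
      mul_le_mul_of_nonneg_left h1 (by positivity)
    omega

theorem exists_adjoin_LL {t : F} (ht : t ∉ (algebraMap Qb F).range) : ∃ m₀ : ℕ, ∀ m, m₀ ≤ m →
    ∀ g : F, (∀ P : Place Qb F, t ∈ P.O → g ∈ P.O) →
      g ∈ Algebra.adjoin Qb (LL (m • dinf Qb t) : Set F) := by
  refine ⟨2 * genus Qb F + 1, fun m hm g hg => ?_⟩
  have ht0 : t ≠ 0 := fun h => ht ⟨0, by rw [h, map_zero]⟩
  have htm : t ∈ Algebra.adjoin Qb (LL (m • dinf Qb t) : Set F) := by
    refine Algebra.subset_adjoin (LL_mono ?_ (mem_LL_dinf t))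
    simpa using nsmul_le_nsmul_left (F2_dinf_nonneg (κ := Qb) t) (show 1 ≤ m by omega)
  have h1 : ∀ n : ℕ, ∀ f ∈ LL ((m + n) • dinf Qb t),
      f ∈ Algebra.adjoin Qb (LL (m • dinf Qb t) : Set F) := fun n => by
    induction n with
    | zero => exact fun f hf => Algebra.subset_adjoin hf
    | succ n ih =>
      intro f hf
      rw [← add_assoc, ← S1a_sup ht (by omega)] at hf
      obtain ⟨x, hx, y, hy, rfl⟩ := Submodule.mem_sup.1 hf
      refine add_mem (ih x hx) ?_
      have h2 : t⁻¹ ∈ LL (dv Qb t) := mem_LL.2 (Or.inr fun P => by rw [dv_apply, P.ord_inv])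
      have h3 := mul_mem_LL hy h2
      rw [sub_add_cancel] at h3
      have h4 := mul_mem htm (ih _ h3)
      rwa [mul_left_comm, mul_inv_cancel₀ ht0, mul_one] at h4
  obtain ⟨n, hn⟩ := S1a_exists_mem hg
  exact h1 n g (LL_mono (nsmul_le_nsmul_left (F2_dinf_nonneg t) (by omega)) hn)

theorem exists_emb {t : F} (ht : t ∉ (algebraMap Qb F).range) (hA : ∀ σ, A.act σ t = t) :
    Nonempty (Emb A t) := by
  have ht0 : t ≠ 0 := fun h => ht ⟨0, by rw [h, map_zero]⟩
  have ht' : t⁻¹ ∉ (algebraMap Qb F).range := by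
    rintro ⟨c, hc⟩
    exact ht ⟨c⁻¹, by rw [map_inv₀, hc, inv_inv]⟩
  obtain ⟨m₀, h0⟩ := exists_adjoin_LL ht
  obtain ⟨m₁, h1⟩ := exists_adjoin_LL ht'
  obtain ⟨m, hm⟩ : ∃ m, m = m₀ + m₁ + 1 := ⟨_, rfl⟩
  have hV : ∀ σ, ∀ g ∈ LL (m • dinf Qb t), A.act σ g ∈ LL (m • dinf Qb t) := fun σ g hg => by
    have h2 := ((A.fh σ).map_mem_LL).2 hg
    rw [FHom.pull_nsmul, FHom.pull_dinf] at h2
    have h3 : (A.fh σ).f t = t := hA σ
    rwa [h3] at h2
  have hpos : 1 ≤ ell (m • dinf Qb t) := one_le_ell (nsmul_nonneg (F2_dinf_nonneg t) m)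
  obtain ⟨N, hN⟩ : ∃ N, Module.finrank Qb (LL (m • dinf Qb t)) = N + 1 :=
    ⟨ell (m • dinf Qb t) - 1, by unfold ell at hpos ⊢; omega⟩
  have hb := A.exists_fixed_basis (LL (m • dinf Qb t)) hV
  rw [hN] at hb
  obtain ⟨f, hf1, hf2, hf3⟩ := hb
  refine ⟨⟨m, N, f, by omega, hf1, hf2, hf3, fun g hg => ?_, fun g hg => ?_⟩⟩
  · have := h0 m (by omega) g hg
    rwa [← hf3, Algebra.adjoin_span] at this
  · refine Algebra.adjoin_le (fun y hy => ?_) (h1 m (by omega) g hg)
    have h2 : y * t ^ m ∈ LL (m • dinf Qb t) := by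
      have h3 : t ^ m ∈ LL (-(m • dv Qb t)) := mem_LL.2 (Or.inr fun P => by
        rw [Finsupp.neg_apply, neg_neg, Finsupp.smul_apply, nsmul_eq_mul, dv_apply, P.ord_pow])
      refine LL_mono (le_of_eq ?_) (mul_mem_LL hy h3)
      rw [← smul_neg, ← smul_add]
      congr 1
      ext P
      rw [Finsupp.add_apply, Finsupp.neg_apply, dinf_apply, dinf_apply, dv_apply, P.ord_inv]
      omega
    rw [← hf3] at h2
    obtain ⟨c, hc⟩ := (Submodule.mem_span_range_iff_exists_fun Qb).1 h2
    have h4 : y = ∑ a, c a • (f a / t ^ m) := by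
      simp only [← smul_div_assoc, ← Finset.sum_div, hc]
      rw [mul_div_cancel_right₀ _ (pow_ne_zero m ht0)]
    rw [h4]
    exact sum_mem fun a _ => Subalgebra.smul_mem _
      (Algebra.subset_adjoin (Set.mem_range_self (f := fun a => f a / t ^ m) a)) _

end Pool.Agent.E6b
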