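import Pool.Agent.E6b.S2a

open scoped NNReal TensorProduct IntermediateField BigOperators Classical Topology
open Filter

namespace Pool.Agent.E6b

variable {F : Type} [Field F] [Algebra Qb F] [IsFF Qb F] {A : GAct F} {t : F} (E : Emb A t)
  (ht : t ∉ (algebraMap Qb F).range)

include ht

namespace Emb

omit ht in
/-- homogenisation -/
theorem S2_hom (x : Fin (2 * E.N + 1 + 1) → Qb) (j : Fin (E.N + 1) → Fin (2 * E.N + 1 + 1))
    (ε : Fin 2) (hj : ∀ a, E.ix (j a) = (a, ε)) (a₀ : Fin (E.N + 1)) (hx : x (j a₀) ≠ 0)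
    (r : MvPolynomial (Fin (E.N + 1)) Qb) : ∃ (d : ℕ) (r' : MvPolynomial _ Qb),
      E.psi r' = E.psi (MvPolynomial.X (j a₀)) ^ d *
        MvPolynomial.C (MvPolynomial.aeval (fun a => E.f a / E.f a₀) r) ∧
      MvPolynomial.eval x r' = x (j a₀) ^ d * MvPolynomial.aeval (fun a => x (j a) / x (j a₀)) r := by
  induction r using MvPolynomial.induction_on with
  | C c => exact ⟨0, MvPolynomial.C c, by simp [psi], by simp⟩
  | add p q hp hq =>
    obtain ⟨d, p', p1, p2⟩ := hp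
    obtain ⟨e, q', q1, q2⟩ := hq
    refine ⟨d + e, p' * MvPolynomial.X (j a₀) ^ e + q' * MvPolynomial.X (j a₀) ^ d, ?_, ?_⟩
    · simp only [map_add, map_mul, map_pow, p1, q1]
      ring
    · simp only [map_add, map_mul, map_pow, p2, q2, MvPolynomial.eval_X]
      ring
  | mul_X p a hp =>
    obtain ⟨d, p', p1, p2⟩ := hp
    have h : ∀ b, E.psi (MvPolynomial.X (j b)) = MvPolynomial.C (E.f b) * MvPolynomial.X ε :=
      fun b => by rw [psi, MvPolynomial.aeval_X, hj]
    refine ⟨d + 1, p' * MvPolynomial.X (j a), ?_, ?_⟩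
    · have h1 : (MvPolynomial.C (E.f a) : MvPolynomial (Fin 2) F) =
          MvPolynomial.C (E.f a₀) * MvPolynomial.C (E.f a / E.f a₀) := by
        rw [← map_mul, mul_div_cancel₀ _ (E.indep.ne_zero a₀)]
      rw [map_mul, p1, map_mul, MvPolynomial.aeval_X, map_mul, pow_succ, h a, h1, h a₀]
      ring
    · rw [map_mul, p2, map_mul, MvPolynomial.aeval_X, MvPolynomial.eval_X]
      field_simp
      ring

theorem S2_nc (a₀ : Fin (E.N + 1)) :
    ∃ b ∈ (MvPolynomial.aeval (R := Qb) fun a => E.f a / E.f a₀).range,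
      b ∉ (algebraMap Qb F).range := by
  by_contra hc
  push Not at hc
  have h1 : ∀ y ∈ LL (E.m • dinf Qb t), y / E.f a₀ ∈ (algebraMap Qb F).range := fun y hy => by
    refine hc _ ?_
    rw [← E.span] at hy
    induction hy using Submodule.span_induction with
    | mem z hz =>
      obtain ⟨a, rfl⟩ := hz
      exact ⟨MvPolynomial.X a, MvPolynomial.aeval_X _ _⟩
    | zero => rw [zero_div]; exact zero_mem _
    | add z w _ _ hz hw => rw [add_div]; exact add_mem hz hw
    | smul c z _ hz => rw [smul_div_assoc]; exact Subalgebra.smul_mem _ hz c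
  have h2 : 0 ≤ dinf Qb t := fun P => by rw [dinf_apply]; exact le_max_right _ _
  obtain ⟨c, hc1⟩ := h1 1 ((mem_LL_iff one_ne_zero).2 (by
    rw [F1_dv_one, add_zero]; exact nsmul_nonneg h2 _))
  obtain ⟨c', hc2⟩ := h1 t (LL_mono (by
    simpa using nsmul_le_nsmul_left h2 (Nat.succ_le_of_lt E.m_pos)) (mem_LL_dinf t))
  refine ht ⟨c' / c, ?_⟩
  have h3 := E.indep.ne_zero a₀
  rw [map_div₀, hc1, hc2]
  field_simp

/-- every point of the cone comes from a place -/
theorem exists_pt {x : Fin (2 * E.N + 1 + 1) → Qb} (hx : x ≠ 0)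
    (h : ∀ g, E.psi g = 0 → MvPolynomial.eval x g = 0) :
    ∃ (R : Place Qb F) (μ : Fin 2 → Qb), μ ≠ 0 ∧ x = E.pt R μ := by
  let e := Equiv.ofBijective _ E.ix_bij
  have he : ∀ p, E.ix (e.symm p) = p := e.apply_symm_apply
  obtain ⟨i₀, hi₀⟩ := Function.ne_iff.1 hx
  obtain ⟨⟨a₀, ε⟩, rfl⟩ := e.symm.surjective i₀
  replace hi₀ : x (e.symm (a₀, ε)) ≠ 0 := hi₀
  have h1 : ∀ a η, x (e.symm (a, η)) * x (e.symm (a₀, ε)) =
      x (e.symm (a, ε)) * x (e.symm (a₀, η)) := fun a η => by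
    have h2 := h (MvPolynomial.X (e.symm (a, η)) * MvPolynomial.X (e.symm (a₀, ε)) -
      MvPolynomial.X (e.symm (a, ε)) * MvPolynomial.X (e.symm (a₀, η))) (by
        simp only [psi, map_sub, map_mul, MvPolynomial.aeval_X, he]
        ring)
    simpa [sub_eq_zero] using h2
  let θ : MvPolynomial (Fin (E.N + 1)) Qb →ₐ[Qb] F := MvPolynomial.aeval fun a => E.f a / E.f a₀
  let χ : θ.range →ₐ[Qb] Qb := AlgHom.liftOfSurjective θ.rangeRestrict θ.rangeRestrict_surjective
    (MvPolynomial.aeval fun a => x (e.symm (a, ε)) / x (e.symm (a₀, ε))) fun r hr => by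
      obtain ⟨d, r', r1, r2⟩ := E.S2_hom x (fun a => e.symm (a, ε)) ε (fun a => he _) a₀ hi₀ r
      have r3 : θ r = 0 := congrArg Subtype.val hr
      rw [show MvPolynomial.aeval (fun a => E.f a / E.f a₀) r = 0 from r3, map_zero,
        mul_zero] at r1
      exact (mul_eq_zero.1 (r2.symm.trans (h r' r1))).resolve_left (pow_ne_zero _ hi₀)
  obtain ⟨R, hR⟩ := exists_place_of_algHom θ.range (E.S2_nc ht a₀) χ
  have h2 : ∀ a, R.ev (E.nf R a) =
      x (e.symm (a, ε)) / x (e.symm (a₀, ε)) * R.ev (E.nf R a₀) := fun a => by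
    obtain ⟨h3, h4⟩ := hR (θ.rangeRestrict (MvPolynomial.X a))
    have h5 : (θ.rangeRestrict (MvPolynomial.X a) : F) = E.f a / E.f a₀ := MvPolynomial.aeval_X _ _
    have h6 : E.nf R a = E.f a / E.f a₀ * E.nf R a₀ := by
      have := E.indep.ne_zero a₀
      unfold nf
      split_ifs <;> field_simp
    rw [h5] at h3 h4
    rw [h6, R.ev_mul h3 (E.nf_mem ht R a₀), h4]
    congr 1
    exact (AlgHom.liftOfSurjective_apply _ _ _ _ _).trans (MvPolynomial.aeval_X _ _)
  have h3 : R.ev (E.nf R a₀) ≠ 0 := fun c => by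
    obtain ⟨a, ha⟩ := E.exists_nf_ne_zero ht R
    exact ha (by rw [h2, c, mul_zero])
  refine ⟨R, fun η => x (e.symm (a₀, η)) / R.ev (E.nf R a₀),
    Function.ne_iff.2 ⟨ε, div_ne_zero hi₀ h3⟩, funext fun i => ?_⟩
  obtain ⟨⟨a, η⟩, rfl⟩ := e.symm.surjective i
  rw [pt, he, h2 a]
  field_simp
  exact h1 a η

end Emb

end Pool.Agent.E6b
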