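import Pool.Agent.E6b.S1

open scoped NNReal TensorProduct IntermediateField BigOperators Classical Topology
open Filter

namespace Pool.Agent.E6b

variable {F : Type} [Field F] [Algebra Qb F] [IsFF Qb F] {A : GAct F} {t : F} (E : Emb A t)
  (ht : t ∉ (algebraMap Qb F).range)

/-- normalising factor of the chart containing `R` -/
noncomputable def S2a_w (t : F) (n : ℕ) (R : Place Qb F) : F := if t ∈ R.O then 1 else (t ^ n)⁻¹

theorem S2a_nf (R : Place Qb F) (a : Fin (E.N + 1)) : E.nf R a = E.f a * S2a_w t E.m R := by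
  unfold Emb.nf S2a_w
  split_ifs
  · rw [mul_one]
  · rw [div_eq_mul_inv]

theorem S2a_f_mem (a : Fin (E.N + 1)) : E.f a ∈ LL (E.m • dinf Qb t) := by
  rw [← E.span]
  exact Submodule.subset_span ⟨a, rfl⟩

theorem S2a_H (t : F) (n : ℕ) (P : Place Qb F) :
    (n • dinf Qb t) P = n * max (- P.ord t) 0 := by
  rw [Finsupp.smul_apply, dinf_apply, nsmul_eq_mul]

theorem S2a_pow_mem (t : F) {k n : ℕ} (h : k ≤ n) : t ^ k ∈ LL (n • dinf Qb t) := by
  refine Or.inr fun P => ?_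
  rw [S2a_H, P.ord_pow]
  have h1 : (k : ℤ) ≤ n := by exact_mod_cast h
  have h2 : (0 : ℤ) ≤ k := Int.natCast_nonneg k
  rcases le_total (- P.ord t) 0 with h3 | h3
  · rw [max_eq_right h3]; nlinarith
  · rw [max_eq_left h3]; nlinarith

theorem S2a_fin {n : ℕ} {g : F} (hg : g ∈ LL (n • dinf Qb t)) {P : Place Qb F} (hP : t ∈ P.O) :
    g ∈ P.O := by
  rcases hg with rfl | hg
  · exact zero_mem _
  have h1 := hg P
  rw [S2a_H, max_eq_right (by have := P.mem_iff.1 hP; omega)] at h1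
  rw [P.mem_iff]
  simpa using h1

theorem S2a_ev_one (R : Place Qb F) : R.ev 1 = 1 := by
  simpa using R.ev_algebraMap 1

theorem S2a_aeval (R : Place Qb F) {ι : Type} {x : ι → F} (hx : ∀ i, x i ∈ R.O) {b : F}
    (hb : b ∈ Algebra.adjoin Qb (Set.range x)) : b ∈ R.O := by
  rw [Algebra.adjoin_range_eq_range_aeval] at hb
  obtain ⟨Q, rfl⟩ := hb
  exact (R.ev_aeval x hx Q).1

theorem S2a_ev_congr {R R' : Place Qb F} {ι : Type} {x : ι → F} (hx : ∀ i, x i ∈ R.O)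
    (hx' : ∀ i, x i ∈ R'.O) (h : ∀ i, R.ev (x i) = R'.ev (x i)) {b : F}
    (hb : b ∈ Algebra.adjoin Qb (Set.range x)) : R.ev b = R'.ev b := by
  rw [Algebra.adjoin_range_eq_range_aeval] at hb
  obtain ⟨Q, rfl⟩ := hb
  refine (R.ev_aeval x hx Q).2.trans (Eq.trans ?_ (R'.ev_aeval x hx' Q).2.symm)
  rw [funext h]

theorem S2a_psi (μ : Fin 2 → F) (g : MvPolynomial (Fin (2 * E.N + 1 + 1)) Qb) :
    MvPolynomial.eval μ (E.psi g) =
      MvPolynomial.aeval (fun i => E.f (E.ix i).1 * μ (E.ix i).2) g := by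
  induction g using MvPolynomial.induction_on with
  | C c =>
    simp [Emb.psi, MvPolynomial.algebraMap_apply]
  | add p q hp hq => rw [map_add, map_add, map_add, hp, hq]
  | mul_X p i hp =>
    rw [map_mul, map_mul, map_mul, hp]
    simp [Emb.psi]

/-- homogenisation evaluated along a ring homomorphism -/
theorem S2a_hom {B K : Type} [CommRing B] [CommRing K] (j : ℚ →+* B) (φ : B →+* K) (L L' : B)
    (τ : K) (h : φ L' = φ L * τ) (q : Polynomial ℚ) :
    φ (∑ k ∈ Finset.range (q.natDegree + 1), j (q.coeff k) * L' ^ k * L ^ (q.natDegree - k)) =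
      φ L ^ q.natDegree * q.eval₂ (φ.comp j) τ := by
  rw [Polynomial.eval₂_eq_sum_range, map_sum, Finset.mul_sum]
  refine Finset.sum_congr rfl fun k hk => ?_
  have hk' : k ≤ q.natDegree := Nat.lt_succ_iff.1 (Finset.mem_range.1 hk)
  obtain ⟨l, hl⟩ := Nat.exists_eq_add_of_le hk'
  rw [hl, Nat.add_sub_cancel_left, map_mul, map_mul, map_pow, map_pow, h, RingHom.comp_apply]
  ring

include ht

omit [IsFF Qb F] in
theorem S2a_ne : t ≠ 0 := fun h => ht ⟨0, by rw [map_zero, h]⟩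

theorem S2a_inf {n : ℕ} {g : F} (hg : g ∈ LL (n • dinf Qb t)) {P : Place Qb F} (hP : t⁻¹ ∈ P.O) :
    g / t ^ n ∈ P.O := by
  by_cases h0 : g = 0
  · rw [h0, zero_div]; exact zero_mem _
  have h1 := hg.resolve_left h0 P
  have h2 := P.mem_iff.1 hP
  rw [P.ord_inv] at h2
  rw [S2a_H, max_eq_left h2] at h1
  rw [P.mem_iff, P.ord_div h0 (pow_ne_zero _ (S2a_ne ht)), P.ord_pow]
  linarith

omit [IsFF Qb F] ht in
theorem S2a_inv {P : Place Qb F} (hP : t ∉ P.O) : t⁻¹ ∈ P.O := (P.O.mem_or_inv_mem t).resolve_left hP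

theorem S2a_mem {n : ℕ} {g : F} (hg : g ∈ LL (n • dinf Qb t)) (R : Place Qb F) :
    g * S2a_w t n R ∈ R.O := by
  unfold S2a_w
  split_ifs with h
  · rw [mul_one]; exact S2a_fin hg h
  · rw [← div_eq_mul_inv]; exact S2a_inf ht hg (S2a_inv h)

omit ht in
theorem S2a_ev_w {n : ℕ} (hn : 0 < n) {R : Place Qb F} (h : t ∉ R.O) :
    R.ev (S2a_w t n R) = 0 := by
  unfold S2a_w
  rw [if_neg h, ← inv_pow, R.ev_eq_zero_iff (pow_mem (S2a_inv h) n), R.ord_pow, R.ord_inv]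
  right
  have h1 : R.ord t < 0 := by rw [R.mem_iff] at h; omega
  have h2 : (0 : ℤ) < n := by exact_mod_cast hn
  nlinarith

namespace Emb

theorem nf_mem (R : Place Qb F) (a : Fin (E.N + 1)) : E.nf R a ∈ R.O := by
  rw [S2a_nf]
  exact S2a_mem ht (S2a_f_mem E a) R

theorem S2a_lin (R : Place Qb F) (c : Fin (E.N + 1) → Qb) :
    ∑ a, c a * R.ev (E.nf R a) = R.ev ((∑ a, c a • E.f a) * S2a_w t E.m R) := by
  have h : ∀ a, c a • E.nf R a ∈ R.O := fun a => by
    rw [Algebra.smul_def]; exact mul_mem (R.const _) (E.nf_mem ht R a)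
  rw [Finset.sum_mul]
  simp only [smul_mul_assoc, ← S2a_nf]
  rw [R.ev_sum _ _ fun a _ => h a]
  exact Finset.sum_congr rfl fun a _ => (R.ev_smul _ (E.nf_mem ht R a)).symm

omit ht in
theorem S2a_span {u : F} (hu : u ∈ LL (E.m • dinf Qb t)) :
    ∃ c : Fin (E.N + 1) → Qb, ∑ a, c a • E.f a = u := by
  rwa [← E.span, Submodule.mem_span_range_iff_exists_fun] at hu

theorem S2a_one (R : Place Qb F) : ∃ c : Fin (E.N + 1) → Qb,
    (∑ a, c a • E.f a) * S2a_w t E.m R = 1 := by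
  unfold S2a_w
  split_ifs
  · obtain ⟨c, hc⟩ := E.S2a_span (S2a_pow_mem t (Nat.zero_le _))
    exact ⟨c, by rw [hc, pow_zero, mul_one]⟩
  · obtain ⟨c, hc⟩ := E.S2a_span (S2a_pow_mem t le_rfl)
    exact ⟨c, by rw [hc, mul_inv_cancel₀ (pow_ne_zero _ (S2a_ne ht))]⟩

theorem exists_nf_ne_zero (R : Place Qb F) : ∃ a, R.ev (E.nf R a) ≠ 0 := by
  by_contra h
  push Not at h
  obtain ⟨c, hc⟩ := E.S2a_one ht R
  have h1 := E.S2a_lin ht R c
  rw [hc, S2a_ev_one] at h1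
  simp [h] at h1

theorem pt_ne_zero (R : Place Qb F) {μ : Fin 2 → Qb} (hμ : μ ≠ 0) : E.pt R μ ≠ 0 := by
  obtain ⟨a, ha⟩ := E.exists_nf_ne_zero ht R
  obtain ⟨ε, hε⟩ := Function.ne_iff.1 hμ
  obtain ⟨i, hi⟩ := E.ix_bij.2 (a, ε)
  refine Function.ne_iff.2 ⟨i, ?_⟩
  unfold Emb.pt
  rw [hi]
  exact mul_ne_zero ha hε

theorem S2a_eval (R : Place Qb F) (μ : Fin 2 → Qb)
    (g : MvPolynomial (Fin (2 * E.N + 1 + 1)) Qb) :
    MvPolynomial.eval (fun ε => S2a_w t E.m R * algebraMap Qb F (μ ε)) (E.psi g) ∈ R.O ∧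
    R.ev (MvPolynomial.eval (fun ε => S2a_w t E.m R * algebraMap Qb F (μ ε)) (E.psi g)) =
      MvPolynomial.eval (E.pt R μ) g := by
  rw [S2a_psi]
  simp only [← mul_assoc, ← S2a_nf]
  have h := R.ev_aeval (fun i => E.nf R (E.ix i).1 * algebraMap Qb F (μ (E.ix i).2))
    (fun i => mul_mem (E.nf_mem ht R _) (R.const _)) g
  refine ⟨h.1, h.2.trans ?_⟩
  congr 2
  funext i
  rw [R.ev_mul (E.nf_mem ht R _) (R.const _), R.ev_algebraMap]
  rfl

theorem eval_pt (R : Place Qb F) (μ : Fin 2 → Qb) {g : MvPolynomial (Fin (2 * E.N + 1 + 1)) Qb}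
    (hg : E.psi g = 0) : MvPolynomial.eval (E.pt R μ) g = 0 := by
  rw [← (E.S2a_eval ht R μ g).2, hg, map_zero, F1a_ev_zero]

theorem S2a_div (R : Place Qb F) {g : F} (hg : g ∈ R.O) :
    ∃ b ∈ Algebra.adjoin Qb (Set.range (E.nf R)), ∃ s ∈ Algebra.adjoin Qb (Set.range (E.nf R)),
      R.ev s ≠ 0 ∧ g * s = b := by
  have hd : 1 ≤ deg (dinf Qb t) := by
    rw [deg_dinf ht]
    have := finiteDimensional_of_transcendental (transcendental_of_notMem ht)
    exact_mod_cast Module.finrank_pos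
  obtain ⟨n, hn⟩ : ∃ n : ℕ, 2 * (genus Qb F : ℤ) ≤ deg (n • dinf Qb t - dinf Qb g) := by
    refine ⟨(2 * (genus Qb F : ℤ) + deg (dinf Qb g)).toNat, ?_⟩
    rw [deg_sub, deg_nsmul]
    have h1 := Int.self_le_toNat (2 * (genus Qb F : ℤ) + deg (dinf Qb g))
    have h2 := Int.natCast_nonneg (2 * (genus Qb F : ℤ) + deg (dinf Qb g)).toNat
    nlinarith
  obtain ⟨s, hs0, hs, hsR⟩ := bpf_of_large hn R
  have hs1 : s ∈ LL (n • dinf Qb t - dinf Qb g) := Or.inr hs
  have hs2 : s ∈ LL (n • dinf Qb t) := by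
    refine LL_mono (fun P => ?_) hs1
    rw [Finsupp.sub_apply, dinf_apply]
    omega
  have hs3 : g * s ∈ LL (n • dinf Qb t) := by
    have h := mul_mem_LL (mem_LL_dinf g) hs1
    rwa [add_sub_cancel] at h
  have hgR := R.mem_iff.1 hg
  rw [Finsupp.sub_apply, S2a_H, dinf_apply, max_eq_right (a := - R.ord g) (by omega)] at hsR
  by_cases h : t ∈ R.O
  · have e : E.nf R = E.f := funext fun a => if_pos h
    rw [e]
    refine ⟨g * s, E.fin _ fun P hP => S2a_fin hs3 hP, s, E.fin _ fun P hP => S2a_fin hs2 hP,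
      ?_, rfl⟩
    rw [Ne, R.ev_eq_zero_iff (S2a_fin hs2 h), hsR,
      max_eq_right (by have := R.mem_iff.1 h; omega)]
    simp [hs0]
  · have e : E.nf R = fun a => E.f a / t ^ E.m := funext fun a => if_neg h
    rw [e]
    refine ⟨g * s / t ^ n, E.inf _ fun P hP => S2a_inf ht hs3 hP, s / t ^ n,
      E.inf _ fun P hP => S2a_inf ht hs2 hP, ?_, (mul_div_assoc _ _ _).symm⟩
    have h0 := pow_ne_zero n (S2a_ne ht)
    rw [Ne, R.ev_eq_zero_iff (S2a_inf ht hs2 (S2a_inv h)), R.ord_div hs0 h0, hsR, R.ord_pow,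
      max_eq_left (by rw [R.mem_iff] at h; omega)]
    simp [hs0, S2a_ne ht]

theorem pt_inj {R R' : Place Qb F} {μ μ' : Fin 2 → Qb} (hμ : μ ≠ 0)
    (h : Prp (E.pt R μ) (E.pt R' μ')) : R = R' ∧ Prp μ μ' := by
  obtain ⟨c, hc, h⟩ := h
  have h1 : ∀ a ε, R.ev (E.nf R a) * μ ε = c * (R'.ev (E.nf R' a) * μ' ε) := fun a ε => by
    obtain ⟨i, hi⟩ := E.ix_bij.2 (a, ε)
    have h2 := h i
    unfold Emb.pt at h2
    rwa [hi] at h2
  obtain ⟨ε, hε⟩ := Function.ne_iff.1 hμ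
  have hε' : μ ε ≠ 0 := hε
  obtain ⟨k, hk⟩ : ∃ k, ∀ a, R.ev (E.nf R a) = k * R'.ev (E.nf R' a) :=
    ⟨c * μ' ε / μ ε, fun a => by field_simp; linear_combination h1 a ε⟩
  obtain ⟨a₀, ha₀⟩ := E.exists_nf_ne_zero ht R
  have hk0 : k ≠ 0 := fun e => ha₀ (by rw [hk, e, zero_mul])
  have h2 : ∀ u ∈ LL (E.m • dinf Qb t),
      R.ev (u * S2a_w t E.m R) = k * R'.ev (u * S2a_w t E.m R') := fun u hu => by
    obtain ⟨c, rfl⟩ := E.S2a_span hu
    rw [← E.S2a_lin ht, ← E.S2a_lin ht, Finset.mul_sum]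
    exact Finset.sum_congr rfl fun a _ => by rw [hk]; ring
  have h3 := h2 _ (S2a_pow_mem t (Nat.zero_le _))
  have h4 := h2 _ (S2a_pow_mem t le_rfl)
  rw [pow_zero, one_mul, one_mul] at h3
  have h5 : E.nf R' = E.nf R ∧ k = 1 := by
    by_cases e : t ∈ R.O <;> by_cases e' : t ∈ R'.O
    · refine ⟨funext fun a => (if_pos e').trans (if_pos e).symm, ?_⟩
      simpa [S2a_w, e, e', S2a_ev_one, eq_comm] using h3
    · rw [S2a_ev_w E.m_pos e'] at h3
      simp [S2a_w, e, S2a_ev_one] at h3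
    · rw [S2a_ev_w E.m_pos e] at h3
      simp [S2a_w, e', S2a_ev_one, hk0.symm] at h3
    · refine ⟨funext fun a => (if_neg e').trans (if_neg e).symm, ?_⟩
      have h0 := pow_ne_zero E.m (S2a_ne ht)
      simp only [S2a_w, if_neg e, if_neg e', mul_inv_cancel₀ h0, S2a_ev_one, mul_one] at h4
      exact h4.symm
  have hm : ∀ a, E.nf R a ∈ R'.O := fun a => h5.1 ▸ E.nf_mem ht R' a
  have h6 : R = R' := by
    refine Place.eq_of_le fun g hg => ?_
    obtain ⟨b, hb, s, hs, hs0, e⟩ := E.S2a_div ht R hg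
    rw [S2a_ev_congr (E.nf_mem ht R) hm (fun a => by rw [hk, h5.1, h5.2, one_mul]) hs] at hs0
    have h7 := (R'.ev_div (S2a_aeval R' hm hb) (S2a_aeval R' hm hs) hs0).1
    have h8 : s ≠ 0 := fun e0 => hs0 (by rw [e0, F1a_ev_zero])
    rwa [← e, mul_div_cancel_right₀ _ h8] at h7
  subst h6
  exact ⟨rfl, c, hc, fun ε => mul_left_cancel₀ ha₀ (by linear_combination h1 a₀ ε)⟩

theorem gal_pt (hA : ∀ σ, A.act σ t = t) (σ : Qb ≃ₐ[ℚ] Qb) (R : Place Qb F) (μ : Fin 2 → Qb)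
    (i : Fin (2 * E.N + 1 + 1)) : σ (E.pt R μ i) = E.pt (A.sm σ R) (fun ε => σ (μ ε)) i := by
  have h1 : t ∈ (A.sm σ R).O ↔ t ∈ R.O := by
    have h := A.mem_sm σ R t
    rwa [hA] at h
  have h2 : ∀ a, E.nf (A.sm σ R) a = A.act σ (E.nf R a) := fun a => by
    unfold Emb.nf
    by_cases e : t ∈ R.O
    · rw [if_pos e, if_pos (h1.2 e), E.fix]
    · rw [if_neg e, if_neg (mt h1.1 e), map_div₀, map_pow, hA, E.fix]
  unfold Emb.pt
  rw [map_mul, h2, A.ev_sm]

/-- the local ring at a place is a localisation of the chart -/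
theorem exists_div (R : Place Qb F) {g : F} (hg : g ∈ R.O) :
    ∃ b ∈ Algebra.adjoin Qb (Set.range (E.nf R)), ∃ s ∈ Algebra.adjoin Qb (Set.range (E.nf R)),
      R.ev s ≠ 0 ∧ g * s = b := E.S2a_div ht R hg

theorem exists_one (R : Place Qb F) : ∃ c : Fin (E.N + 1) → Qb, ∑ a, c a • E.nf R a = 1 := by
  obtain ⟨c, hc⟩ := E.S2a_one ht R
  refine ⟨c, ?_⟩
  rw [← hc, Finset.sum_mul]
  simp only [smul_mul_assoc, S2a_nf]

/-- a form vanishing at `(R, μ)` for infinitely many `R` and all rational `μ` vanishes -/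
theorem psi_eq_zero {S : Set (Place Qb F)} (hS : S.Infinite)
    {g : MvPolynomial (Fin (2 * E.N + 1 + 1)) Qb}
    (h : ∀ R ∈ S, ∀ μ : Fin 2 → ℚ, μ ≠ 0 →
      MvPolynomial.eval (E.pt R fun ε => (μ ε : Qb)) g = 0) : E.psi g = 0 := by
  have hinj : Function.Injective fun q : ℚ => algebraMap Qb F (q : Qb) :=
    (algebraMap Qb F).injective.comp Rat.cast_injective
  refine MvPolynomial.funext_set
    (fun _ => (fun q : ℚ => algebraMap Qb F (q : Qb)) '' ({0} : Set ℚ)ᶜ)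
    (fun _ => (Set.finite_singleton _).infinite_compl.image hinj.injOn) fun x hx => ?_
  choose μ hμ hx' using fun ε => hx ε (Set.mem_univ _)
  have hμ0 : μ ≠ 0 := fun e => hμ 0 (congrFun e 0)
  rw [map_zero]
  by_contra h0
  refine hS (((F1_finite_zeros (κ := Qb) t⁻¹).union
    (F1_finite_zeros (κ := Qb) (MvPolynomial.eval x (E.psi g)))).subset fun R hR => ?_)
  by_cases e : t ∈ R.O
  · right
    have h1 := E.S2a_eval ht R (fun ε => (μ ε : Qb)) g
    have h2 : (fun ε => S2a_w t E.m R * algebraMap Qb F (μ ε : Qb)) = x :=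
      funext fun ε => by rw [S2a_w, if_pos e, one_mul]; exact hx' ε
    rw [h2, h R hR μ hμ0] at h1
    exact ((R.ev_eq_zero_iff h1.1).1 h1.2).resolve_left h0
  · left
    rw [R.mem_iff] at e
    change 0 < R.ord t⁻¹
    rw [R.ord_inv]
    omega

theorem S2a_form {u : F} (hu : u ∈ LL (E.m • dinf Qb t)) (h : ∀ σ, A.act σ u = u) :
    ∃ L : MvPolynomial (Fin (2 * E.N + 1 + 1)) ℚ, L.IsHomogeneous 1 ∧
      E.psi (MvPolynomial.map (algebraMap ℚ Qb) L) = MvPolynomial.X 0 * MvPolynomial.C u ∧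
      ∀ R μ, MvPolynomial.aeval (E.pt R μ) L = μ 0 * R.ev (u * S2a_w t E.m R) := by
  obtain ⟨c, rfl⟩ := E.exists_rat hu h
  choose i hi using fun a => E.ix_bij.2 (a, 0)
  refine ⟨∑ a, MvPolynomial.C (c a) * MvPolynomial.X (i a), ?_, ?_, fun R μ => ?_⟩
  · exact MvPolynomial.IsHomogeneous.sum _ _ _ fun a _ => MvPolynomial.isHomogeneous_C_mul_X _ _
  · rw [map_sum, map_sum, map_sum, Finset.mul_sum]
    refine Finset.sum_congr rfl fun a _ => ?_
    simp only [Emb.psi, map_mul, MvPolynomial.map_C, MvPolynomial.map_X, MvPolynomial.aeval_C,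
      MvPolynomial.aeval_X, hi, Algebra.smul_def, MvPolynomial.algebraMap_apply, eq_ratCast]
    ring
  · rw [← E.S2a_lin ht, map_sum, Finset.mul_sum]
    refine Finset.sum_congr rfl fun a _ => ?_
    simp only [Emb.pt, map_mul, MvPolynomial.aeval_C, MvPolynomial.aeval_X, hi, eq_ratCast]
    ring

/-- a rational form vanishing above finitely many places, but not identically -/
theorem exists_form (hA : ∀ σ, A.act σ t = t) {S : Set (Place Qb F)} (hS : S.Finite) :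
    ∃ (m : ℕ) (g : MvPolynomial (Fin (2 * E.N + 1 + 1)) ℚ), g.IsHomogeneous m ∧ g ∉ E.I ∧
      ∀ R ∈ S, ∀ μ, MvPolynomial.aeval (E.pt R μ) g = 0 := by
  obtain ⟨L, hL, hL1, hL2⟩ := E.S2a_form ht (S2a_pow_mem t (Nat.zero_le _))
    (fun σ => by rw [map_pow, hA])
  obtain ⟨L', hL', hL1', hL2'⟩ := E.S2a_form ht (S2a_pow_mem t E.m_pos)
    (fun σ => by rw [map_pow, hA])
  rw [pow_zero, map_one, mul_one] at hL1
  rw [pow_one] at hL1' hL2'
  rw [pow_zero] at hL2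
  obtain ⟨q, hq0, hq⟩ : ∃ q : Polynomial ℚ, q ≠ 0 ∧ ∀ R ∈ S, Polynomial.aeval (R.ev t) q = 0 := by
    refine ⟨∏ R ∈ hS.toFinset, minpoly ℚ (R.ev t), Finset.prod_ne_zero_iff.2 fun R _ =>
      minpoly.ne_zero (H3_isAlgebraic.isAlgebraic _).isIntegral, fun R hR => ?_⟩
    rw [map_prod]
    exact Finset.prod_eq_zero (hS.mem_toFinset.2 hR) (minpoly.aeval _ _)
  refine ⟨1 + q.natDegree, L * ∑ k ∈ Finset.range (q.natDegree + 1),
    MvPolynomial.C (q.coeff k) * L' ^ k * L ^ (q.natDegree - k), hL.mul ?_, ?_, fun R hR μ => ?_⟩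
  · refine MvPolynomial.IsHomogeneous.sum _ _ _ fun k hk => ?_
    have hk' : k ≤ q.natDegree := Nat.lt_succ_iff.1 (Finset.mem_range.1 hk)
    have h := ((MvPolynomial.isHomogeneous_C _ (q.coeff k)).mul (hL'.pow k)).mul
      (hL.pow (q.natDegree - k))
    rwa [show 0 + 1 * k + 1 * (q.natDegree - k) = q.natDegree by omega] at h
  · intro hI
    rw [Emb.I, Ideal.mem_comap, RingHom.mem_ker] at hI
    have h := S2a_hom MvPolynomial.C
      (E.psi.toRingHom.comp (MvPolynomial.map (algebraMap ℚ Qb))) L L' (MvPolynomial.C t)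
      (hL1'.trans (congrArg (· * MvPolynomial.C t) hL1.symm)) q
    have e : (E.psi.toRingHom.comp (MvPolynomial.map (algebraMap ℚ Qb))).comp MvPolynomial.C =
        (MvPolynomial.C : F →+* MvPolynomial (Fin 2) F).comp
          ((algebraMap Qb F).comp (algebraMap ℚ Qb)) := RingHom.ext_rat _ _
    rw [e, ← Polynomial.hom_eval₂, ← Polynomial.eval₂_map, ← Polynomial.aeval_def] at h
    rw [map_mul, map_mul, hL1] at hI
    have h' := hI.symm.trans (congrArg (MvPolynomial.X 0 * ·) h)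
    have h1 : (E.psi.toRingHom.comp (MvPolynomial.map (algebraMap ℚ Qb))) L = MvPolynomial.X 0 :=
      hL1
    rw [h1] at h'
    refine mul_ne_zero (MvPolynomial.X_ne_zero _) (mul_ne_zero
      (pow_ne_zero _ (MvPolynomial.X_ne_zero _)) ?_) h'.symm
    rw [Ne, MvPolynomial.C_eq_zero]
    exact fun e0 => transcendental_of_notMem ht
      ⟨_, (Polynomial.map_ne_zero_iff (algebraMap ℚ Qb).injective).2 hq0, e0⟩
  · rw [map_mul]
    by_cases e : t ∈ R.O
    · have h := S2a_hom MvPolynomial.C (MvPolynomial.aeval (E.pt R μ)).toRingHom L L' (R.ev t)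
        (by
          refine (hL2' R μ).trans (Eq.trans ?_ (congrArg (· * R.ev t) (hL2 R μ).symm))
          simp [S2a_w, e, S2a_ev_one]) q
      rw [RingHom.ext_rat (RingHom.comp _ _) (algebraMap ℚ Qb), ← Polynomial.aeval_def, hq R hR,
        mul_zero] at h
      exact mul_eq_zero_of_right _ h
    · rw [hL2, one_mul, S2a_ev_w E.m_pos e, mul_zero, zero_mul]

end Emb

end Pool.Agent.E6b
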