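import Mathlib

open MvPolynomial TrivSqZeroExt

namespace Pool.Agent.E6b

variable {k : Type} [Field k]

theorem S3_dual {I : Type} [Fintype I] (x v : I → k) (g : MvPolynomial I k) :
    (aeval (fun i => (inl (x i) + inr (v i) : DualNumber k)) g).fst = aeval x g ∧
    (aeval (fun i => (inl (x i) + inr (v i) : DualNumber k)) g).snd =
      ∑ i, aeval x (pderiv i g) * v i := by
  classical
  induction g using MvPolynomial.induction_on with
  | C a => simp [algebraMap_eq_inl]
  | add p q hp hq =>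
    simp only [map_add, fst_add, snd_add, hp, hq, add_mul, Finset.sum_add_distrib, and_self]
  | mul_X p j hp =>
    refine ⟨by simp only [map_mul, aeval_X, fst_mul, hp, fst_add, fst_inl, fst_inr, add_zero], ?_⟩
    simp only [map_mul, aeval_X, DualNumber.snd_mul, hp.1, hp.2, pderiv_mul, map_add, add_mul,
      Finset.sum_add_distrib, pderiv_X, fst_add, snd_add, fst_inl, fst_inr, snd_inl, snd_inr,
      add_zero, zero_add, Finset.sum_mul]
    rw [add_comm]
    congr 1
    · exact Finset.sum_congr rfl fun i _ => by ring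
    · rw [Finset.sum_eq_single j (fun i _ h => by simp [h.symm]) (by simp)]
      simp

variable {O ι I : Type} [CommRing O] [Algebra k O] [Fintype ι]

variable (k) in
/-- the parametrisation -/
noncomputable def S3_psi (ix : I → ι × Fin 2) (n : ι → O) :
    MvPolynomial I k →ₐ[k] MvPolynomial (Fin 2) O :=
  aeval fun i => C (n (ix i).1) * X (ix i).2

/-- rescaling the second component -/
def S3_sc (s : k) : DualNumber k →ₐ[k] DualNumber k := TrivSqZeroExt.map (s • LinearMap.id)

omit [Fintype ι] in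
theorem S3_ge (ix : I → ι × Fin 2) (n : ι → O) (j : O →ₐ[k] DualNumber k) (μ ν : Fin 2 → k)
    (s : k) {g : MvPolynomial I k} (hg : S3_psi k ix n g = 0) :
    aeval (fun i => (inl ((j (n (ix i).1)).fst * μ (ix i).2) +
      inr ((j (n (ix i).1)).fst * ν (ix i).2 + s * (j (n (ix i).1)).snd * μ (ix i).2) :
        DualNumber k)) g = 0 := by
  let Ψ : MvPolynomial (Fin 2) O →ₐ[k] DualNumber k :=
    aevalTower ((S3_sc s).comp j) fun e => inl (μ e) + inr (ν e)
  have h := congrArg Ψ hg
  rw [map_zero, ← AlgHom.comp_apply] at h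
  rw [← h]
  congr 1
  ext i : 1
  simp only [aeval_X, AlgHom.comp_apply, S3_psi, map_mul, Ψ, aevalTower_C, aevalTower_X]
  ext <;> simp [S3_sc]

theorem S3_le (ix : I ≃ ι × Fin 2) (n : ι → O) {c : ι → k} (hc : ∑ a, c a • n a = 1)
    (φ : ι → k) (hφ : ∑ a, c a * φ a = 1) {μ : Fin 2 → k} (hμ : μ ≠ 0) (v : I → k)
    (hv : ∀ g, S3_psi k ix n g = 0 → aeval (fun i => (inl (φ (ix i).1 * μ (ix i).2) +
      inr (v i) : DualNumber k)) g = 0) :
    ∃ (ν : Fin 2 → k) (z : ι → DualNumber k), (∀ a, (z a).fst = φ a) ∧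
      (∀ i, v i = φ (ix i).1 * ν (ix i).2 + (z (ix i).1).snd * μ (ix i).2) ∧
      ∀ r : MvPolynomial ι k, aeval n r = 0 → aeval z r = 0 := by
  obtain ⟨e₀, he₀⟩ := Function.ne_iff.1 hμ
  set Φ : MvPolynomial I k →ₐ[k] DualNumber k :=
    aeval fun i => (inl (φ (ix i).1 * μ (ix i).2) + inr (v i) : DualNumber k) with hΦ
  let Y : ι → Fin 2 → MvPolynomial I k := fun a e => X (ix.symm (a, e))
  let L : Fin 2 → MvPolynomial I k := fun e => ∑ a, c a • Y a e
  have hY : ∀ a e, S3_psi k ix n (Y a e) = C (n a) * X e := fun a e => by simp [Y, S3_psi]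
  have hL : ∀ e, S3_psi k ix n (L e) = X e := fun e => by
    simp only [L, map_sum, map_smul, hY]
    conv_rhs => rw [← one_mul (X e), ← C_1, ← hc, map_sum, Finset.sum_mul]
    exact Finset.sum_congr rfl fun a _ => by
      rw [← smul_mul_assoc, Algebra.smul_def, Algebra.smul_def, map_mul,
        MvPolynomial.algebraMap_apply]
  have hY' : ∀ a e, (Φ (Y a e)).fst = φ a * μ e := fun a e => by simp [Y, hΦ]
  have hL' : ∀ e, (Φ (L e)).fst = μ e := fun e => by
    simp only [L, map_sum, map_smul, fst_sum, fst_smul, hY', smul_eq_mul, ← mul_assoc]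
    rw [← Finset.sum_mul, hφ, one_mul]
  obtain ⟨u, hu⟩ : IsUnit (Φ (L e₀)) :=
    isUnit_iff_isUnit_fst.2 (by rw [hL']; exact IsUnit.mk0 _ he₀)
  have hz : ∀ a e, Φ (Y a e) = Φ (Y a e₀) * ↑u⁻¹ * Φ (L e) := fun a e => by
    have h := hv (Y a e * L e₀ - Y a e₀ * L e) (by
      rw [map_sub, map_mul, map_mul, hY, hY, hL, hL]
      ring)
    rw [map_sub, map_mul, map_mul, sub_eq_zero, ← hu] at h
    rw [mul_right_comm, ← h, Units.mul_inv_cancel_right]
  have hf : ∀ a, (Φ (Y a e₀) * ↑u⁻¹).fst = φ a := fun a => by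
    have h := congrArg fst (hz a e₀)
    rw [fst_mul, hL', hY'] at h
    exact (mul_right_cancel₀ he₀ h).symm
  refine ⟨fun e => (Φ (L e)).snd, fun a => Φ (Y a e₀) * ↑u⁻¹, hf, fun i => ?_, fun r hr => ?_⟩
  · have h := congrArg snd (hz (ix i).1 (ix i).2)
    rw [DualNumber.snd_mul, hf, hL'] at h
    simpa [Y, hΦ] using h
  · obtain ⟨M, g, h1, h2⟩ : ∃ (M : ℕ) (g : MvPolynomial I k),
        S3_psi k ix n g = X e₀ ^ M * C (aeval n r) ∧
        Φ g = u ^ M * aeval (fun a => Φ (Y a e₀) * ↑u⁻¹) r := by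
      clear hr
      induction r using MvPolynomial.induction_on with
      | C a => exact ⟨0, C a, by simp [MvPolynomial.algebraMap_apply], by simp⟩
      | add p q hp hq =>
        obtain ⟨M, g, h1, h2⟩ := hp
        obtain ⟨M', g', h1', h2'⟩ := hq
        refine ⟨M + M', L e₀ ^ M' * g + L e₀ ^ M * g', ?_, ?_⟩
        · simp only [map_add, map_mul, map_pow, hL, h1, h1']
          ring
        · simp only [map_add, map_mul, map_pow, ← hu, h2, h2']
          ring
      | mul_X p a hp =>
        obtain ⟨M, g, h1, h2⟩ := hp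
        refine ⟨M + 1, g * Y a e₀, ?_, ?_⟩
        · simp only [map_mul, hY, h1, aeval_X]
          ring
        · rw [map_mul, map_mul, h2, aeval_X (fun a => Φ (Y a e₀) * ↑u⁻¹) a]
          conv_lhs => rw [hz a e₀, ← hu]
          ring
    rw [hr, map_zero, mul_zero] at h1
    rw [hv g h1] at h2
    exact ((u.isUnit.pow M).mul_right_eq_zero).1 h2.symm

theorem S3_abs (ix : I ≃ ι × Fin 2) (n : ι → O) (j : O →ₐ[k] DualNumber k) (π : O)
    (hπ : (j π).fst = 0) (hπ' : (j π).snd = 1)
    (hdiv : ∀ g : O, ∃ h, g = algebraMap k O (j g).fst + π * h)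
    (hloc : ∀ g : O, ∃ b s : MvPolynomial ι k, (j (aeval n s)).fst ≠ 0 ∧ g * aeval n s = aeval n b)
    {c : ι → k} (hc : ∑ a, c a • n a = 1) {μ : Fin 2 → k} (hμ : μ ≠ 0)
    (T : Submodule k (I → k)) (hT : ∀ v, v ∈ T ↔ ∀ g, S3_psi k ix n g = 0 →
      aeval (fun i => (inl ((j (n (ix i).1)).fst * μ (ix i).2) + inr (v i) : DualNumber k)) g = 0) :
    Module.finrank k T = 3 := by
  let Λ : ((Fin 2 → k) × k) →ₗ[k] I → k :=
    { toFun := fun p i => (j (n (ix i).1)).fst * p.1 (ix i).2 +
        p.2 * (j (n (ix i).1)).snd * μ (ix i).2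
      map_add' := fun p q => by ext i; simp only [Prod.fst_add, Prod.snd_add, Pi.add_apply]; ring
      map_smul' := fun a p => by
        ext i
        simp only [Prod.smul_fst, Prod.smul_snd, Pi.smul_apply, smul_eq_mul, RingHom.id_apply]
        ring }
  have hj : ∑ a, c a • j (n a) = 1 := by simp only [← map_smul, ← map_sum, hc, map_one]
  have h1 : ∑ a, c a * (j (n a)).fst = 1 := by simpa [fst_sum] using congrArg fst hj
  have h2 : ∑ a, c a * (j (n a)).snd = 0 := by simpa [snd_sum] using congrArg snd hj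
  have hjn : ∀ r : MvPolynomial ι k, j (aeval n r) = aeval (fun a => j (n a)) r := fun r => by
    rw [← AlgHom.comp_apply, comp_aeval]
  have hfst : ∀ (z : ι → DualNumber k) (r : MvPolynomial ι k),
      (aeval z r).fst = aeval (fun a => (z a).fst) r := fun z r =>
    DFunLike.congr_fun (comp_aeval z (fstHom k k k)) r
  obtain ⟨b, s, hs, hb⟩ := hloc π
  have hinj : Function.Injective Λ := by
    rw [injective_iff_map_eq_zero]
    rintro ⟨ν, l⟩ h
    have h3 : ∀ a e, (j (n a)).fst * ν e + l * (j (n a)).snd * μ e = 0 := fun a e => by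
      simpa [Λ] using congrFun h (ix.symm (a, e))
    have h4 : ν = 0 := funext fun e => by
      have h5 : ∑ a, c a * ((j (n a)).fst * ν e + l * (j (n a)).snd * μ e) =
          (∑ a, c a * (j (n a)).fst) * ν e + l * (∑ a, c a * (j (n a)).snd) * μ e := by
        simp only [Finset.sum_mul, Finset.mul_sum, ← Finset.sum_add_distrib]
        exact Finset.sum_congr rfl fun a _ => by ring
      simpa [h1, h2, h3] using h5.symm
    obtain ⟨e₀, he₀⟩ := Function.ne_iff.1 hμ
    refine Prod.ext h4 (by_contra fun hl => hs ?_)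
    have h5 : (fun a => j (n a)) = fun a => inlAlgHom k k k (j (n a)).fst := funext fun a => by
      have h6 := h3 a e₀
      simp only [h4, Pi.zero_apply, mul_zero, zero_add] at h6
      ext
      · simp
      · simpa using ((mul_eq_zero.1 ((mul_eq_zero.1 h6).resolve_right he₀)).resolve_left hl)
    have h6 := congrArg (fun x => (j x).snd) hb
    simp only [map_mul, DualNumber.snd_mul, hπ, hπ', zero_mul, one_mul, zero_add] at h6
    rw [h6, hjn, h5, ← comp_aeval]
    simp
  have hr : T = LinearMap.range Λ := by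
    refine le_antisymm (fun v hv => ?_) ?_
    · obtain ⟨ν, z, hz, hv', hr⟩ := S3_le ix n hc _ h1 hμ v ((hT v).1 hv)
      have hev : ∀ r : MvPolynomial ι k, (aeval z r).fst = (j (aeval n r)).fst := fun r => by
        rw [hjn, hfst, hfst]
        simp only [hz]
      refine ⟨(ν, (aeval z b).snd / (j (aeval n s)).fst), funext fun i => ?_⟩
      rw [hv']
      change (_ : k) + (_ : k) * (_ : k) * (_ : k) = _
      congr 2
      generalize (ix i).1 = a
      obtain ⟨h, hh⟩ := hdiv (n a)
      obtain ⟨b', s', hs', hb'⟩ := hloc h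
      have h3 := hr ((X a - C (j (n a)).fst) * s * s' - b * b') (by
        simp only [map_sub, map_mul, aeval_X, aeval_C, ← hb, ← hb']
        rw [sub_eq_iff_eq_add'.2 hh]
        ring)
      have h4 : (aeval z b).fst = 0 := by rw [hev, ← hb, map_mul, fst_mul, hπ, zero_mul]
      have h5 : (j (n a)).snd = (j h).fst := by
        conv_lhs => rw [hh]
        simp [hπ, hπ', algebraMap_eq_inl]
      have h6 := congrArg snd h3
      simp only [map_sub, map_mul, aeval_X, aeval_C, snd_sub, DualNumber.snd_mul, fst_mul, fst_sub,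
        hz, h4, algebraMap_eq_inl, fst_inl, snd_inl, sub_self, zero_mul, zero_add, sub_zero,
        snd_zero, hev, ← hb'] at h6
      rw [h5, div_mul_eq_mul_div, div_eq_iff hs]
      refine mul_right_cancel₀ hs' ?_
      linear_combination -h6
    · rintro _ ⟨⟨ν, l⟩, rfl⟩
      exact (hT _).2 fun g hg => S3_ge ix n j μ ν l hg
  rw [hr, LinearMap.finrank_range_of_inj hinj]
  simp

end Pool.Agent.E6b
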