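import Pool.Agent.E6b.S2a
import Pool.Agent.E6b.S3Aux
import Pool.Agent.E6b.ODefs0

open scoped NNReal TensorProduct IntermediateField BigOperators Classical Topology
open Filter

namespace Pool.Agent.E6b

section
open TrivSqZeroExt MvPolynomial

variable {κ F : Type} [Field κ] [IsAlgClosed κ] [CharZero κ] [Field F] [Algebra κ F] [IsFF κ F]

theorem S3_jet (R : Place κ F) : ∃ (j : R.OA →ₐ[κ] DualNumber κ) (π : R.OA),
    (j π).fst = 0 ∧ (j π).snd = 1 ∧ (∀ g : R.OA, (j g).fst = R.ev g) ∧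
      ∀ g : R.OA, ∃ h, g = algebraMap κ R.OA (j g).fst + π * h := by
  obtain ⟨π, h0, h1⟩ := R.exists_ord_eq 1
  have hq : ∀ g : R.OA, ∃ h : R.OA, (g : F) = algebraMap κ F (R.ev g) + π * h := fun g => by
    refine ⟨⟨(g - algebraMap κ F (R.ev g)) / π, ?_⟩, by simp [mul_div_cancel₀ _ h0]⟩
    change _ ∈ R.O
    by_cases h : (g : F) - algebraMap κ F (R.ev g) = 0
    · rw [h, zero_div]
      exact zero_mem _
    · have h2 := (R.ev_spec (f := g) g.2).resolve_left fun h' => h (sub_eq_zero.2 h')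
      rw [R.mem_iff, R.ord_div h h0]
      omega
  choose q hq using hq
  let p : R.OA := ⟨π, R.mem_iff.2 (by omega)⟩
  have hp : R.evH p = 0 := (R.ev_eq_zero_iff p.2).2 (Or.inr (by change 0 < R.ord π; omega))
  have hq' : ∀ g, g = algebraMap κ R.OA (R.evH g) + p * q g := fun g => Subtype.ext (hq g)
  have hu : ∀ g h, g = algebraMap κ R.OA (R.evH g) + p * h → q g = h := fun g h e =>
    mul_left_cancel₀ (fun h' => h0 (congrArg Subtype.val h'))
      (add_left_cancel ((hq' g).symm.trans e))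
  have hc : ∀ c, q (algebraMap κ R.OA c) = 0 := fun c => hu _ _ (by simp)
  have hm : ∀ g h, q (g * h) = g * q h + algebraMap κ R.OA (R.evH h) * q g := fun g h =>
    hu _ _ (by
      rw [map_mul, map_mul]
      linear_combination g * hq' h + algebraMap κ R.OA (R.evH h) * hq' g)
  have ha : ∀ g h, q (g + h) = q g + q h := fun g h =>
    hu _ _ (by
      rw [map_add, map_add]
      linear_combination hq' g + hq' h)
  refine ⟨{ toFun := fun g => inl (R.evH g) + inr (R.evH (q g))
            map_one' := ?_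
            map_mul' := fun g h => ?_
            map_zero' := ?_
            map_add' := fun g h => ?_
            commutes' := fun c => ?_ }, p, by simpa using hp, ?_, fun g => by simp [Place.evH],
    fun g => ⟨q g, by simpa using hq' g⟩⟩
  · have := hc 1
    rw [map_one] at this
    simp [this]
  · ext <;> simp [hm, mul_comm]
  · have := hc 0
    rw [map_zero] at this
    simp [this]
  · ext <;> simp [ha]
  · rw [hc]
    simp [algebraMap_eq_inl]
  · simp [hu p 1 (by simp [hp])]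

omit [IsAlgClosed κ] [CharZero κ] [IsFF κ F] in
theorem S3_scale {ι I : Type} (ix : I → ι × Fin 2) {f f' : ι → F} {u : F}
    (h : ∀ a, f' a = f a * u) {g : MvPolynomial I κ} (hg : S3_psi κ ix f g = 0) :
    S3_psi κ ix f' g = 0 := by
  have e : S3_psi κ ix f' = ((aeval fun e => C u * X e : MvPolynomial (Fin 2) F →ₐ[F]
      MvPolynomial (Fin 2) F).restrictScalars κ).comp (S3_psi κ ix f) := by
    ext i : 1
    simp [S3_psi, h, mul_assoc]
  rw [e, AlgHom.comp_apply, hg, map_zero]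

omit [IsAlgClosed κ] [CharZero κ] [IsFF κ F] in
theorem S3_sub {ι I : Type} (ix : I → ι × Fin 2) {O : Subalgebra κ F} (n : ι → O)
    (g : MvPolynomial I κ) : S3_psi κ ix n g = 0 ↔ S3_psi κ ix (fun a => (n a : F)) g = 0 := by
  have e : S3_psi κ ix (fun a => (n a : F)) = (mapAlgHom O.val).comp (S3_psi κ ix n) := by
    ext i : 1
    simp [S3_psi]
  rw [e, AlgHom.comp_apply]
  exact (map_eq_zero_iff (mapAlgHom O.val)
    (map_injective (O.val : O →+* F) Subtype.val_injective)).symm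

end

variable {F : Type} [Field F] [Algebra Qb F] [IsFF Qb F] {A : GAct F} {t : F} (E : Emb A t)
  (ht : t ∉ (algebraMap Qb F).range)

include ht

theorem S3_ker (R : Place Qb F) (g : MvPolynomial (Fin (2 * E.N + 1 + 1)) Qb) :
    S3_psi Qb E.ix (E.nf R) g = 0 ↔ E.psi g = 0 := by
  have h0 : t ^ E.m ≠ 0 := pow_ne_zero _ fun h => ht (h ▸ zero_mem _)
  change _ ↔ S3_psi Qb E.ix E.f g = 0
  by_cases h : t ∈ R.O
  · rw [show E.nf R = E.f from funext fun a => if_pos h]
  · have e : ∀ a, E.nf R a = E.f a * (t ^ E.m)⁻¹ := fun a => (if_neg h).trans (div_eq_mul_inv _ _)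
    exact ⟨S3_scale _ (u := t ^ E.m) fun a => by rw [e, inv_mul_cancel_right₀ h0], S3_scale _ e⟩

theorem Emb.finrank_tangent (R : Place Qb F) {μ : Fin 2 → Qb} (hμ : μ ≠ 0) :
    Module.finrank Qb (coneTangent E.I (E.pt R μ)) = 3 := by
  obtain ⟨j, π, h1, h2, h3, h4⟩ := S3_jet R
  obtain ⟨c, hc⟩ := E.exists_one ht R
  let n : Fin (E.N + 1) → R.OA := fun a => ⟨E.nf R a, E.nf_mem ht R a⟩
  have hn : ∀ r : MvPolynomial (Fin (E.N + 1)) Qb,
      ((MvPolynomial.aeval n r : R.OA) : F) = MvPolynomial.aeval (E.nf R) r := fun r =>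
    DFunLike.congr_fun (MvPolynomial.comp_aeval n R.OA.val) r
  refine S3_abs (Equiv.ofBijective _ E.ix_bij) n j π h1 h2 h4 (fun g => ?_) (c := c)
    (Subtype.ext (by simpa [n] using hc)) hμ _ fun v => ?_
  · obtain ⟨b, hb, s, hs, h5, h6⟩ := E.exists_div ht R (g := g) g.2
    rw [Algebra.adjoin_range_eq_range_aeval] at hb hs
    obtain ⟨b, rfl⟩ := hb
    obtain ⟨s, rfl⟩ := hs
    exact ⟨b, s, by rwa [h3, hn], Subtype.ext (by rwa [Subalgebra.coe_mul, hn, hn])⟩
  · simp only [h3, Equiv.coe_ofBijective, S3_sub]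
    change (∀ f ∈ E.I, ∑ i, MvPolynomial.aeval (E.pt R μ) (MvPolynomial.pderiv i f) * v i = 0) ↔
      ∀ g, S3_psi Qb E.ix (E.nf R) g = 0 → g ∈ RingHom.ker (MvPolynomial.aeval (R := Qb)
        fun i => (TrivSqZeroExt.inl (E.pt R μ i) + TrivSqZeroExt.inr (v i) : DualNumber Qb))
    simp only [S3_ker E ht]
    change _ ↔ RingHom.ker E.psi ≤ _
    rw [← E.map_I_Qb, Ideal.map_le_iff_le_comap]
    refine forall₂_congr fun f hf => ?_
    have h5 := S3_dual (E.pt R μ) v (MvPolynomial.map (algebraMap ℚ Qb) f)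
    rw [Ideal.mem_comap, RingHom.mem_ker, TrivSqZeroExt.ext_iff, h5.1, h5.2,
      MvPolynomial.aeval_eq_eval, E.eval_pt ht R μ hf]
    simp only [MvPolynomial.pderiv_map, ← MvPolynomial.aeval_eq_eval,
      MvPolynomial.aeval_map_algebraMap, TrivSqZeroExt.fst_zero, TrivSqZeroExt.snd_zero, true_and]

end Pool.Agent.E6b
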