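import Pool.Agent.E6b.S2a

open scoped NNReal TensorProduct IntermediateField BigOperators Classical Topology
open Filter

namespace Pool.Agent.E6b

/-- Krull dimension is invariant under injective integral maps -/
theorem S4_dim_integral (R S : Type) [CommRing R] [CommRing S] [Algebra R S]
    [Algebra.IsIntegral R S] [FaithfulSMul R S] : ringKrullDim S = ringKrullDim R := by
  refine le_antisymm (Order.krullDim_le_of_strictMono (PrimeSpectrum.comap (algebraMap R S))
    fun P Q h => Ideal.IsIntegral.comap_lt_comap (R := R) (I := P.asIdeal) (J := Q.asIdeal) h) ?_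
  refine iSup_le fun l => ?_
  obtain ⟨⟨P, h1, h2⟩⟩ := Ideal.nonempty_primesOver (S := S) l.head.asIdeal
  obtain ⟨L, hL, -⟩ := Ideal.exists_ltSeries_of_hasGoingUp l P
  rw [← hL]
  exact Order.LTSeries.length_le_krullDim L

/-- Krull dimension of a finitely generated domain over a field -/
theorem ringKrullDim_eq_of_indep {k B : Type} [Field k] [CommRing B] [IsDomain B] [Algebra k B]
    [Algebra.FiniteType k B] {r : ℕ} (u : Fin r → B) (hu : IsTranscendenceBasis k u) :
    ringKrullDim B = r := by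
  obtain ⟨s, g, h1, h2⟩ := exists_integral_inj_algHom_of_fg k B
  let : Algebra (MvPolynomial (Fin s) k) B := g.toRingHom.toAlgebra
  have : IsScalarTower k (MvPolynomial (Fin s) k) B :=
    IsScalarTower.of_algebraMap_eq fun a => (g.commutes a).symm
  have : Algebra.IsIntegral (MvPolynomial (Fin s) k) B := ⟨h2⟩
  have : FaithfulSMul (MvPolynomial (Fin s) k) B := (faithfulSMul_iff_algebraMap_injective _ _).2 h1
  have h3 := ((IsTranscendenceBasis.mvPolynomial (Fin s) k).algebraMap_comp (A := B)).cardinalMk_eq hu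
  have h4 : s = r := by simpa using h3
  rw [S4_dim_integral (MvPolynomial (Fin s) k) B, MvPolynomial.ringKrullDim_of_isNoetherianRing,
    ringKrullDim_eq_zero_of_field, zero_add, Nat.card_eq_fintype_card, Fintype.card_fin, h4]

theorem S4_indep {k F : Type} [Field k] [Field F] [Algebra k F] {t : F}
    (ht : IsTranscendenceBasis k fun _ : Unit => t) :
    Algebra.trdeg k (MvPolynomial (Fin 2) F) = 3 ∧
      AlgebraicIndependent k fun o : Option (Fin 2) =>
        (o.elim (MvPolynomial.C t * MvPolynomial.X 0) MvPolynomial.X : MvPolynomial (Fin 2) F) := by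
  have h1 := ht.sumElim_comp (IsTranscendenceBasis.mvPolynomial (Fin 2) F)
  refine ⟨?_, ?_⟩
  · rw [← h1.cardinalMk_eq_trdeg]
    simp only [Cardinal.mk_fintype, Fintype.card_sum, Fintype.card_fin, Fintype.card_unique]
    rfl
  · have h2 := h1.1.comp (Equiv.sumComm Unit (Fin 2)) (Equiv.injective _)
    have h3 : (Sum.elim MvPolynomial.X (algebraMap F (MvPolynomial (Fin 2) F) ∘ fun _ : Unit => t) ∘
        Equiv.sumComm Unit (Fin 2)) =
        Sum.elim (fun _ : Unit => MvPolynomial.C t) MvPolynomial.X := by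
      funext x
      rcases x with x | x <;> rfl
    rw [h3, AlgebraicIndependent.sumElim_iff] at h2
    refine AlgebraicIndependent.option_iff.2 ⟨h2.1, fun h => h2.2.transcendental () ?_⟩
    refine IsAlgebraic.of_mul (y := MvPolynomial.X 0)
      (mem_nonZeroDivisors_of_ne_zero (MvPolynomial.X_ne_zero 0)) ?_ (by rwa [mul_comm])
    exact isAlgebraic_algebraMap (⟨MvPolynomial.X 0, Algebra.subset_adjoin ⟨0, rfl⟩⟩ :
      Algebra.adjoin k (Set.range (MvPolynomial.X : Fin 2 → MvPolynomial (Fin 2) F)))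

variable {F : Type} [Field F] [Algebra Qb F] [IsFF Qb F] {A : GAct F} {t : F} (E : Emb A t)

theorem S4_basis [Algebra ℚ F] [IsScalarTower ℚ Qb F] (ht : t ∉ (algebraMap Qb F).range) :
    IsTranscendenceBasis ℚ fun _ : Unit => t := by
  have h1 := transcendental_of_notMem ht
  have h2 := finiteDimensional_of_transcendental h1
  have h3 : Algebra.IsAlgebraic ℚ Qb := AlgebraicClosure.isAlgebraic ℚ
  rw [Algebra.IsAlgebraic.isTranscendenceBasis_iff ℚ Qb,
    isTranscendenceBasis_iff_algebraicIndependent_isAlgebraic, algebraicIndependent_unique_type_iff,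
    Set.range_const, ← IntermediateField.isAlgebraic_adjoin_iff_top]
  exact ⟨h1, inferInstance⟩

theorem Emb.dim (ht : t ∉ (algebraMap Qb F).range) (hA : ∀ σ, A.act σ t = t) :
    ringKrullDim (MvPolynomial (Fin (2 * E.N + 1 + 1)) ℚ ⧸ E.I) = 3 := by
  have : CharZero F := charZero_of_injective_algebraMap (algebraMap Qb F).injective
  obtain ⟨h1, h2⟩ := S4_indep (S4_basis ht)
  let φ : MvPolynomial (Fin (2 * E.N + 1 + 1)) ℚ →ₐ[ℚ] MvPolynomial (Fin 2) F :=
    MvPolynomial.aeval fun i => MvPolynomial.C (E.f (E.ix i).1) * MvPolynomial.X (E.ix i).2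
  have hφ : ∀ g, g ∈ E.I ↔ φ g = 0 := fun g => by
    rw [Emb.I, Ideal.mem_comap, RingHom.mem_ker, Emb.psi, MvPolynomial.aeval_map_algebraMap]
  let ψ := Ideal.Quotient.liftₐ E.I φ fun g hg => (hφ g).1 hg
  have hψ : Function.Injective ψ :=
    RingHom.lift_injective_of_ker_le_ideal E.I (f := φ.toRingHom) (fun g hg => (hφ g).1 hg)
      fun g hg => (hφ g).2 hg
  have := hψ.isDomain ψ
  have h3 : ∀ g ∈ LL (E.m • dinf Qb t), (∀ σ, A.act σ g = g) → ∀ ε : Fin 2,
      MvPolynomial.C g * MvPolynomial.X ε ∈ φ.range := fun g hg h ε => by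
    obtain ⟨c, rfl⟩ := E.exists_rat hg h
    rw [map_sum, Finset.sum_mul]
    refine Subalgebra.sum_mem _ fun a _ => ?_
    obtain ⟨i, hi⟩ := E.ix_bij.2 (a, ε)
    refine ⟨c a • MvPolynomial.X i, ?_⟩
    show φ _ = _
    rw [map_smul, MvPolynomial.aeval_X, hi, Rat.cast_smul_eq_qsmul, ← smul_mul_assoc,
      map_rat_smul (MvPolynomial.C : F →+* MvPolynomial (Fin 2) F)]
  have h4 : ∀ o : Option (Fin 2), ∃ b, ψ b =
      (o.elim (MvPolynomial.C t * MvPolynomial.X 0) MvPolynomial.X : MvPolynomial (Fin 2) F) := by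
    rintro (_ | ε)
    · obtain ⟨p, hp⟩ := h3 t (by simpa using F2_pow_mem t (show 1 ≤ E.m from E.m_pos)) hA 0
      exact ⟨Ideal.Quotient.mk _ p, hp⟩
    · obtain ⟨p, hp⟩ := h3 1 (by simpa using F2_pow_mem t (Nat.zero_le E.m))
        (fun σ => map_one _) ε
      rw [map_one, one_mul] at hp
      exact ⟨Ideal.Quotient.mk _ p, hp⟩
  choose u hu using h4
  have h5 : AlgebraicIndependent ℚ u := AlgebraicIndependent.of_comp ψ (by
    rw [show ψ ∘ u = _ from funext hu]
    exact h2)
  refine ringKrullDim_eq_of_indep (k := ℚ) (r := 3) (u ∘ finSuccEquiv 2)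
    ((h5.comp _ (Equiv.injective _)).isTranscendenceBasis_of_trdeg_le_of_finite ?_)
  refine (trdeg_le_of_injective ψ hψ).trans ?_
  rw [h1]
  simp

end Pool.Agent.E6b
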