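import Pool.Agent.E6b.S2
import Pool.Agent.E6b.S3
import Pool.Agent.E6b.S4

open scoped NNReal TensorProduct IntermediateField BigOperators Classical Topology
open Filter

namespace Pool.Agent.E6b

theorem S5_finrank {K L : Type} [Field K] [Field L] [Algebra K L] [IsGalois K L] {ι : Type}
    {x : ι → L} (hx : x ≠ 0) (U : Subgroup (L ≃ₐ[K] L))
    (hU : ∀ σ, σ ∈ U ↔ Prp (fun i => σ (x i)) x) :
    Module.finrank K (IntermediateField.adjoin K {r : L | ∃ i j, r = x i / x j}) = U.index := by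
  rw [IntermediateField.finrank_eq_fixingSubgroup_index]
  congr 1
  obtain ⟨i₀, hi₀⟩ : ∃ i, x i ≠ 0 := Function.ne_iff.mp hx
  ext σ
  rw [hU, IntermediateField.mem_fixingSubgroup_iff]
  constructor
  · intro h
    have hσ : σ (x i₀) ≠ 0 := by simpa using hi₀
    refine ⟨σ (x i₀) / x i₀, div_ne_zero hσ hi₀, fun i => ?_⟩
    have h1 := h (x i / x i₀) (IntermediateField.subset_adjoin _ _ ⟨i, i₀, rfl⟩)
    rw [map_div₀, div_eq_div_iff hσ hi₀] at h1
    field_simp
    linear_combination h1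
  · rintro ⟨c, hc, h⟩ y hy
    have hle : IntermediateField.adjoin K {r : L | ∃ i j, r = x i / x j} ≤
        IntermediateField.fixedField (Subgroup.zpowers σ) := by
      rw [IntermediateField.adjoin_le_iff]
      rintro _ ⟨i, j, rfl⟩
      have h1 : σ (x i / x j) = x i / x j := by
        have hi : σ (x i) = c * x i := h i
        have hj : σ (x j) = c * x j := h j
        rw [map_div₀, hi, hj, mul_div_mul_left _ _ hc]
      have h2 : Subgroup.zpowers σ ≤ MulAction.stabilizer (L ≃ₐ[K] L) (x i / x j) := by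
        rw [Subgroup.zpowers_le]
        exact h1
      rw [SetLike.mem_coe, IntermediateField.mem_fixedField_iff]
      intro τ hτ
      exact h2 hτ
    exact (IntermediateField.mem_fixedField_iff _ _).mp (hle hy) σ (Subgroup.mem_zpowers σ)

theorem S5_aeval {L : Type} [Field L] [Algebra ℚ L] (e : L →+* Qb) {ι : Type} (x : ι → L)
    (f : MvPolynomial ι ℚ) : e (MvPolynomial.aeval x f) =
      MvPolynomial.eval (fun i => e (x i)) (MvPolynomial.map (algebraMap ℚ Qb) f) := by
  rw [MvPolynomial.aeval_def, MvPolynomial.eval_map, MvPolynomial.eval₂_comp_left,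
    Subsingleton.elim (e.comp (algebraMap ℚ L)) (algebraMap ℚ Qb)]
  rfl

/-- transport of automorphisms -/
noncomputable def S5_rho {K L : Type} [Field K] [Field L] [Algebra K L] (e : L ≃+* Qb) :
    (L ≃ₐ[K] L) →* (Qb ≃ₐ[ℚ] Qb) where
  toFun σ := AlgEquiv.ofRingEquiv (f := (e.symm.trans σ.toRingEquiv).trans e) fun q => by
    simp only [eq_ratCast, map_ratCast]
  map_one' := by
    ext y
    simp
  map_mul' σ τ := by
    ext y
    simp

theorem S5_rho_apply {K L : Type} [Field K] [Field L] [Algebra K L] (e : L ≃+* Qb)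
    (σ : L ≃ₐ[K] L) (y : L) : S5_rho e σ (e y) = e (σ y) := by
  simp [S5_rho]

theorem S5_rho_surj {K L : Type} [Field K] [Field L] [Algebra K L] (e : L ≃+* Qb)
    (τ : Qb ≃ₐ[ℚ] Qb) (h : ∀ k : K, τ (e (algebraMap K L k)) = e (algebraMap K L k)) :
    ∃ σ : L ≃ₐ[K] L, S5_rho e σ = τ := by
  refine ⟨AlgEquiv.ofRingEquiv (f := (e.trans τ.toRingEquiv).trans e.symm) fun k => ?_, ?_⟩
  · simp [h k]
  · ext y
    simp [S5_rho]

theorem S5_card {F : Type} [Field F] [Algebra Qb F] [IsFF Qb F] (A : GAct F) {G : Type} [Group G]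
    (ρ : G →* (Qb ≃ₐ[ℚ] Qb)) (K : IntermediateField ℚ Qb)
    (hρ : ∀ τ : Qb ≃ₐ[ℚ] Qb, (∀ y ∈ K, τ y = y) ↔ ∃ g, ρ g = τ) (R : Place Qb F)
    (U : Subgroup G) (hU : ∀ g, g ∈ U ↔ A.sm (ρ g) R = R) :
    (A.finite_orb K R).toFinset.card = U.index := by
  let _ : MulAction G (Place Qb F) :=
    { smul := fun g P => A.sm (ρ g) P
      one_smul := fun P => by
        change A.sm (ρ 1) P = P
        rw [map_one, A.sm_one]
      mul_smul := fun g h P => by
        change A.sm (ρ (g * h)) P = A.sm (ρ g) (A.sm (ρ h) P)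
        rw [map_mul, A.sm_mul] }
  have h1 : U = MulAction.stabilizer G R := by
    ext g
    rw [hU]
    rfl
  have h2 : A.orb K R = MulAction.orbit G R := by
    ext Q
    constructor
    · rintro ⟨τ, hτ, rfl⟩
      obtain ⟨g, rfl⟩ := (hρ τ).mp hτ
      exact ⟨g, rfl⟩
    · rintro ⟨g, rfl⟩
      exact ⟨ρ g, (hρ _).mpr ⟨g, rfl⟩, rfl⟩
  rw [h1, MulAction.index_stabilizer, ← h2, Set.ncard_eq_toFinset_card _ (A.finite_orb K R)]

/-- the degree of a projective point is the size of its Galois orbit -/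
theorem finrank_eq_index (K : IntermediateField ℚ Qb) {ι : Type} [Fintype ι] {x : ι → Qb}
    (hx : x ≠ 0) (U : Subgroup (Qb ≃ₐ[K] Qb)) (hU : ∀ σ, σ ∈ U ↔ Prp (fun i => σ (x i)) x) :
    Module.finrank K (IntermediateField.adjoin K {r : Qb | ∃ i j, r = x i / x j}) = U.index := by
  have := H3_isGalois
  have : IsGalois K Qb := IsGalois.tower_top_of_isGalois ℚ K Qb
  exact S5_finrank hx U hU

variable {F : Type} [Field F] [Algebra Qb F] [IsFF Qb F] (A : GAct F)

theorem GAct.card_orb_eq_index (K : IntermediateField ℚ Qb) (R : Place Qb F)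
    (U : Subgroup (Qb ≃ₐ[K] Qb)) (hU : ∀ σ, σ ∈ U ↔ A.sm (σ.restrictScalars ℚ) R = R) :
    (A.finite_orb K R).toFinset.card = U.index := by
  refine S5_card A (AlgEquiv.restrictScalarsHom ℚ) K (fun τ => ⟨fun h => ?_, ?_⟩) R U hU
  · refine ⟨AlgEquiv.ofRingEquiv (f := τ.toRingEquiv) fun k => h k k.2, ?_⟩
    ext y
    rfl
  · rintro ⟨σ, rfl⟩ y hy
    exact σ.commutes ⟨y, hy⟩

variable {A} {t : F} (E : Emb A t) (ht : t ∉ (algebraMap Qb F).range) (hA : ∀ σ, A.act σ t = t)

/-- the surface `C × P¹` -/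
noncomputable def Emb.surf : NiceSurface ℚ where
  n := 2 * E.N + 1
  I := E.I
  homogeneous := E.homogeneous
  geomPrime := E.geomPrime
  dim := E.dim ht hA
  smooth := by
    intro x hx h
    obtain ⟨R, μ, hμ, rfl⟩ := E.exists_pt ht hx fun g hg => by
      have hg' : g ∈ E.I.map (MvPolynomial.map (algebraMap ℚ Qb)) := by
        rw [E.map_I_Qb]; exact hg
      refine Submodule.span_induction (p := fun g _ => MvPolynomial.eval x g = 0) ?_ ?_ ?_ ?_ hg'
      · rintro _ ⟨f, hf, rfl⟩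
        rw [MvPolynomial.eval_map]
        exact h f hf
      · simp
      · intro a b _ _ ha hb; simp [ha, hb]
      · intro a b _ hb; simp [hb]
    exact E.finrank_tangent ht R hμ

include ht hA in
theorem Emb.S5_core {K L : Type} [Field K] [Field L] [Algebra K L] [IsGalois K L] (e : L ≃+* Qb)
    (K' : IntermediateField ℚ Qb) (hK : ∀ y, y ∈ K' ↔ ∃ k, e (algebraMap K L k) = y)
    {x : Fin (2 * E.N + 1 + 1) → L} {R : Place Qb F} {μ : Fin 2 → Qb} (hμ : μ ≠ 0)
    (hx : ∀ i, e (x i) = E.pt R μ i) :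
    (A.finite_orb K' R).toFinset.card ∣
      Module.finrank K (IntermediateField.adjoin K {r : L | ∃ i j, r = x i / x j}) ∧
    ((∀ (σ : Qb ≃ₐ[ℚ] Qb) ε, σ (μ ε) = μ ε) →
      Module.finrank K (IntermediateField.adjoin K {r : L | ∃ i j, r = x i / x j}) =
        (A.finite_orb K' R).toFinset.card) := by
  have hx0 : x ≠ 0 := by
    intro h0
    refine E.pt_ne_zero ht R hμ (funext fun i => ?_)
    rw [← hx i, h0]
    simp
  let U : Subgroup (L ≃ₐ[K] L) :=
    { carrier := {σ | Prp (fun i => σ (x i)) x}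
      one_mem' := ⟨1, one_ne_zero, fun i => by simp⟩
      mul_mem' := by
        rintro σ τ ⟨c, hc, h⟩ ⟨c', hc', h'⟩
        refine ⟨σ c' * c, mul_ne_zero (by simpa using hc') hc, fun i => ?_⟩
        have h1 : σ (x i) = c * x i := h i
        have h2 : τ (x i) = c' * x i := h' i
        change σ (τ (x i)) = _
        rw [h2, map_mul, h1, mul_assoc]
      inv_mem' := by
        rintro σ ⟨c, hc, h⟩
        refine ⟨(σ⁻¹ c)⁻¹, inv_ne_zero (by simpa using hc), fun i => ?_⟩
        have h1 : σ (x i) = c * x i := h i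
        have h2 : σ⁻¹ (σ (x i)) = x i := σ.symm_apply_apply _
        have h3 : σ⁻¹ c ≠ 0 := by simpa using hc
        rw [h1, map_mul] at h2
        change σ⁻¹ (x i) = _
        rw [eq_inv_mul_iff_mul_eq₀ h3, h2] }
  let V : Subgroup (L ≃ₐ[K] L) :=
    { carrier := {σ | A.sm (S5_rho e σ) R = R}
      one_mem' := by
        change A.sm (S5_rho e 1) R = R
        rw [map_one, A.sm_one]
      mul_mem' := by
        intro σ τ h h'
        change A.sm (S5_rho e (σ * τ)) R = R
        rw [map_mul, A.sm_mul, show A.sm (S5_rho e τ) R = R from h']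
        exact h
      inv_mem' := by
        intro σ h
        change A.sm (S5_rho e σ⁻¹) R = R
        have h' : A.sm (S5_rho e σ) R = R := h
        conv_lhs => rw [← h']
        rw [← A.sm_mul, ← map_mul, inv_mul_cancel, map_one, A.sm_one] }
  have hU := S5_finrank hx0 U fun _ => Iff.rfl
  have hV : (A.finite_orb K' R).toFinset.card = V.index := by
    refine S5_card A (S5_rho e) K' (fun τ => ⟨fun h => ?_, ?_⟩) R V fun _ => Iff.rfl
    · exact S5_rho_surj e τ fun k => h _ ((hK _).mpr ⟨k, rfl⟩)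
    · rintro ⟨σ, rfl⟩ y hy
      obtain ⟨k, rfl⟩ := (hK y).mp hy
      rw [S5_rho_apply, σ.commutes]
  have hg : ∀ (σ : L ≃ₐ[K] L) i, e (σ (x i)) =
      E.pt (A.sm (S5_rho e σ) R) (fun ε => S5_rho e σ (μ ε)) i := by
    intro σ i
    rw [← S5_rho_apply, hx, E.gal_pt ht hA]
  have hUV : U ≤ V := by
    rintro σ ⟨c, hc, h⟩
    have hμ' : (fun ε => S5_rho e σ (μ ε)) ≠ 0 := by
      intro h0
      refine hμ (funext fun ε => ?_)
      have := congrFun h0 ε
      simpa using this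
    refine (E.pt_inj ht hμ' (μ' := μ) ⟨e c, by simpa using hc, fun i => ?_⟩).1
    have h1 : σ (x i) = c * x i := h i
    rw [← hg, h1, map_mul, hx]
  rw [hU, hV]
  refine ⟨Subgroup.index_dvd_of_le hUV, fun hfix => ?_⟩
  rw [le_antisymm hUV ?_]
  intro σ hσ
  refine ⟨1, one_ne_zero, fun i => e.injective ?_⟩
  have hσ' : A.sm (S5_rho e σ) R = R := hσ
  rw [one_mul, hg, hσ', hx]
  simp only [hfix]

include ht in
theorem Emb.S5_exists_pt {y : Fin (2 * E.N + 1 + 1) → Qb} (hy : y ≠ 0)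
    (h : ∀ f ∈ E.I, MvPolynomial.eval y (MvPolynomial.map (algebraMap ℚ Qb) f) = 0) :
    ∃ (R : Place Qb F) (μ : Fin 2 → Qb), μ ≠ 0 ∧ y = E.pt R μ := by
  refine E.exists_pt ht hy fun g hg => ?_
  have hg' : g ∈ E.I.map (MvPolynomial.map (algebraMap ℚ Qb)) := by
    rw [E.map_I_Qb]; exact hg
  refine Submodule.span_induction (p := fun g _ => MvPolynomial.eval y g = 0) ?_ ?_ ?_ ?_ hg'
  · rintro _ ⟨f, hf, rfl⟩
    exact h f hf
  · simp
  · intro a b _ _ ha hb; simp [ha, hb]
  · intro a b _ hb; simp [hb]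

theorem Emb.S5_mem {K : Type} [Field K] [Algebra ℚ K] (e : AlgebraicClosure K ≃+* Qb)
    (K' : IntermediateField ℚ Qb)
    (hK : ∀ y, y ∈ K' ↔ ∃ k, e (algebraMap K (AlgebraicClosure K) k) = y)
    {x : Fin (2 * E.N + 1 + 1) → AlgebraicClosure K} {R : Place Qb F} {μ : Fin 2 → Qb} (hμ : μ ≠ 0)
    (hx : ∀ i, e (x i) = E.pt R μ i) (hfix : ∀ (σ : Qb ≃ₐ[ℚ] Qb) ε, σ (μ ε) = μ ε) :
    x ∈ (E.surf ht hA).degreePoints K (A.finite_orb K' R).toFinset.card := by
  have : CharZero K := algebraRat.charZero K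
  refine ⟨?_, fun f hf => e.injective ?_, (E.S5_core ht hA e K' hK hμ hx).2 hfix⟩
  · intro h0
    refine E.pt_ne_zero ht R hμ (funext fun i => ?_)
    rw [← hx i, show x i = 0 from congrFun h0 i]
    simp
  · refine (@S5_aeval _ _ (_) (e : AlgebraicClosure K →+* Qb) _ x f).trans ?_
    rw [map_zero]
    have h1 : (fun i => (e : AlgebraicClosure K →+* Qb) (x i)) = E.pt R μ := funext hx
    rw [h1]
    exact E.eval_pt ht R μ hf

theorem Emb.S5_of_mem {K : Type} [Field K] [Algebra ℚ K] (e : AlgebraicClosure K ≃+* Qb)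
    (K' : IntermediateField ℚ Qb)
    (hK : ∀ y, y ∈ K' ↔ ∃ k, e (algebraMap K (AlgebraicClosure K) k) = y) {d : ℕ}
    {x : Fin (2 * E.N + 1 + 1) → AlgebraicClosure K} (hx : x ∈ (E.surf ht hA).degreePoints K d) :
    ∃ (R : Place Qb F) (μ : Fin 2 → Qb), (fun i => e (x i)) = E.pt R μ ∧
      (A.finite_orb K' R).toFinset.card ∣ d := by
  have : CharZero K := algebraRat.charZero K
  obtain ⟨hx0, hxI, hxd⟩ := hx
  have hy : (fun i => e (x i)) ≠ 0 := by
    intro h0
    refine hx0 (funext fun i => e.injective ?_)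
    exact (congrFun h0 i).trans (map_zero e).symm
  obtain ⟨R, μ, hμ, hR⟩ := E.S5_exists_pt ht hy fun f hf =>
    (@S5_aeval _ _ (_) (e : AlgebraicClosure K →+* Qb) _ x f).symm.trans
      ((congrArg (e : AlgebraicClosure K →+* Qb) (hxI f hf)).trans (map_zero _))
  refine ⟨R, μ, hR, ?_⟩
  rw [← hxd]
  exact (E.S5_core ht hA e K' hK hμ fun i => congrFun hR i).1

theorem Emb.mem_delta {d : ℕ} (hd : 1 ≤ d)
    (h : {R : Place Qb F | (A.finite_orb ⊥ R).toFinset.card = d}.Infinite) :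
    d ∈ (E.surf ht hA).delta ℚ := by
  refine ⟨hd, fun m g _ hg => ?_⟩
  have hI : g ∈ E.I := by
    change E.psi (MvPolynomial.map (algebraMap ℚ Qb) g) = 0
    refine E.psi_eq_zero ht h fun R hR μ hμ => ?_
    have hμ' : (fun ε => (μ ε : Qb)) ≠ 0 := by
      intro h0
      refine hμ (funext fun ε => ?_)
      have := congrFun h0 ε
      simpa using this
    have hmem := E.S5_mem ht hA (K := ℚ) (RingEquiv.refl Qb) ⊥ (fun y => by
        rw [IntermediateField.mem_bot]
        simp only [Set.mem_range, eq_ratCast, RingEquiv.refl_apply])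
      (x := E.pt R fun ε => (μ ε : Qb)) (R := R) hμ' (fun _ => rfl) fun σ ε => map_ratCast σ _
    rw [show (A.finite_orb ⊥ R).toFinset.card = d from hR] at hmem
    exact (@S5_aeval Qb _ (_) (RingHom.id Qb) _ _ g).symm.trans (hg _ hmem)
  have h1 := Ideal.mem_map_of_mem (I := (E.surf ht hA).I) (MvPolynomial.map (algebraMap ℚ ℚ)) hI
  rwa [show MvPolynomial.map (algebraMap ℚ ℚ) g = g by
    rw [Subsingleton.elim (algebraMap ℚ ℚ) (RingHom.id ℚ), MvPolynomial.map_id]] at h1

theorem Emb.notMem_delta (K : IntermediateField ℚ Qb) {d : ℕ}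
    (h : {R : Place Qb F | (A.finite_orb K R).toFinset.card ∣ d}.Finite) :
    d ∉ (E.surf ht hA).delta K := by
  rintro ⟨-, hd⟩
  obtain ⟨m, g, hg, hgI, hv⟩ := E.exists_form ht hA h
  have := H3_isGalois
  have : IsAlgClosure K Qb := ⟨inferInstance, inferInstance⟩
  let e : AlgebraicClosure K ≃ₐ[K] Qb := IsAlgClosure.equiv K (AlgebraicClosure K) Qb
  have hK : ∀ y, y ∈ K ↔ ∃ k, e.toRingEquiv (algebraMap K (AlgebraicClosure K) k) = y := by
    intro y
    refine ⟨fun hy => ⟨⟨y, hy⟩, e.commutes _⟩, ?_⟩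
    rintro ⟨k, rfl⟩
    have h1 : e.toRingEquiv (algebraMap K _ k) = k := e.commutes k
    rw [h1]
    exact k.2
  have h1 := hd m (MvPolynomial.map (algebraMap ℚ K) g) (hg.map _) fun x hx => by
    obtain ⟨R, μ, hR, hRS⟩ := E.S5_of_mem ht hA e.toRingEquiv K hK hx
    have h3 := (S5_aeval (RingHom.id Qb) _ g).symm.trans (hv R hRS μ)
    apply e.toRingEquiv.injective
    rw [map_zero, MvPolynomial.aeval_map_algebraMap]
    refine (@S5_aeval _ _ (_) (e.toRingEquiv : AlgebraicClosure K →+* Qb) _ x g).trans ?_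
    rw [← h3, ← hR]
    rfl
  have h2 : MvPolynomial.map (algebraMap ℚ K) g ∈ E.I.map (MvPolynomial.map (algebraMap ℚ K)) := h1
  rw [E.map_I (K.val : K →+* Qb), Ideal.mem_comap, MvPolynomial.map_map,
    Subsingleton.elim ((K.val : K →+* Qb).comp (algebraMap ℚ K)) (algebraMap ℚ Qb)] at h2
  exact hgI h2

end Pool.Agent.E6b
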