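import Pool.Agent.E6b.SurfDefs
import Pool.Agent.E6b.KDefs

open scoped NNReal TensorProduct IntermediateField BigOperators Classical Topology
open Filter

namespace Pool.Agent.E6b

section
variable {F : Type} [Field F] [Algebra Qb F] [IsFF Qb F]

/-- an invariant basis of `L(m H)`, `H` the divisor of poles of `t`, for large `m` -/
structure Emb (A : GAct F) (t : F) where
  m : ℕ
  N : ℕ
  f : Fin (N + 1) → F
  m_pos : 0 < m
  fix : ∀ σ a, A.act σ (f a) = f a
  indep : LinearIndependent Qb f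
  span : Submodule.span Qb (Set.range f) = LL (m • dinf Qb t)
  fin : ∀ g : F, (∀ P : Place Qb F, t ∈ P.O → g ∈ P.O) → g ∈ Algebra.adjoin Qb (Set.range f)
  inf : ∀ g : F, (∀ P : Place Qb F, t⁻¹ ∈ P.O → g ∈ P.O) →
    g ∈ Algebra.adjoin Qb (Set.range fun a => f a / t ^ m)

variable {A : GAct F} {t : F} (E : Emb A t)

/-- coordinates of the Segre embedding -/
def Emb.ix (i : Fin (2 * E.N + 1 + 1)) : Fin (E.N + 1) × Fin 2 :=
  finProdFinEquiv.symm (Fin.cast (by ring) i)

/-- the parametrisation `X (a, ε) ↦ f a * U ε` -/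
noncomputable def Emb.psi : MvPolynomial (Fin (2 * E.N + 1 + 1)) Qb →ₐ[Qb] MvPolynomial (Fin 2) F :=
  MvPolynomial.aeval fun i => MvPolynomial.C (E.f (E.ix i).1) * MvPolynomial.X (E.ix i).2

/-- the ideal over the rationals -/
noncomputable def Emb.I : Ideal (MvPolynomial (Fin (2 * E.N + 1 + 1)) ℚ) :=
  (RingHom.ker E.psi).comap (MvPolynomial.map (algebraMap ℚ Qb))

/-- normalised basis at a place -/
noncomputable def Emb.nf (R : Place Qb F) (a : Fin (E.N + 1)) : F :=
  if t ∈ R.O then E.f a else E.f a / t ^ E.m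

/-- homogeneous coordinates of the point `(R, μ)` -/
noncomputable def Emb.pt (R : Place Qb F) (μ : Fin 2 → Qb) (i : Fin (2 * E.N + 1 + 1)) : Qb :=
  R.ev (E.nf R (E.ix i).1) * μ (E.ix i).2

end

end Pool.Agent.E6b
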