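import Mathlib

namespace Pool.Agent.E6b

open MvPolynomial

/-- The Zariski tangent space, at a geometric point `x`, of the affine cone defined by `I`:
the vectors killed by the differentials at `x` of all elements of `I`. -/
def coneTangent {k L : Type} [Field k] [Field L] [Algebra k L] {n : ℕ}
    (I : Ideal (MvPolynomial (Fin (n + 1)) k)) (x : Fin (n + 1) → L) :
    Submodule L (Fin (n + 1) → L) where
  carrier := {v | ∀ f ∈ I, ∑ i, aeval x (pderiv i f) * v i = 0}
  add_mem' := by
    intro a b ha hb f hf
    simp only [Pi.add_apply, mul_add, Finset.sum_add_distrib, ha f hf, hb f hf, add_zero]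
  zero_mem' := by intro f _; simp
  smul_mem' := by
    intro c a ha f hf
    simp only [Pi.smul_apply, smul_eq_mul, mul_left_comm _ c, ← Finset.mul_sum, ha f hf, mul_zero]

/-- A nice surface over `k`: a closed subvariety `X` of projective `n`-space given by its homogeneous
ideal `I`, geometrically integral (`I` stays prime over the algebraic closure), of dimension two
(the affine cone has Krull dimension three) and smooth (Jacobian criterion at every geometric
point). -/
structure NiceSurface (k : Type) [Field k] where
  n : ℕ
  I : Ideal (MvPolynomial (Fin (n + 1)) k)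
  homogeneous : ∀ f ∈ I, ∀ m : ℕ, homogeneousComponent m f ∈ I
  geomPrime : (I.map (MvPolynomial.map (algebraMap k (AlgebraicClosure k)))).IsPrime
  dim : ringKrullDim (MvPolynomial (Fin (n + 1)) k ⧸ I) = 3
  smooth : ∀ x : Fin (n + 1) → AlgebraicClosure k, x ≠ 0 → (∀ f ∈ I, aeval x f = 0) →
    Module.finrank (AlgebraicClosure k) (coneTangent I x) = 3

/-- The residue field over `K` of the closed point of projective space with homogeneous
coordinates `x`: it is generated by the ratios of the coordinates. -/
noncomputable def residueFieldAt (K : Type) [Field K] {n : ℕ}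
    (x : Fin (n + 1) → AlgebraicClosure K) : IntermediateField K (AlgebraicClosure K) :=
  IntermediateField.adjoin K {r | ∃ i j, r = x i / x j}

/-- Homogeneous coordinates of the geometric points of `X` lying over degree `d` points of the base
change of `X` to `K`. -/
def NiceSurface.degreePoints {k : Type} [Field k] (X : NiceSurface k) (K : Type) [Field K]
    [Algebra k K] (d : ℕ) : Set (Fin (X.n + 1) → AlgebraicClosure K) :=
  {x | x ≠ 0 ∧ (∀ f ∈ X.I, aeval x f = 0) ∧ Module.finrank K (residueFieldAt K x) = d}

/-- The density degree set of `X` over `K`: the `d ≥ 1` such that the degree `d` points of the base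
change `X_K` are Zariski dense, that is, every form over `K` vanishing on all of them lies in the
ideal of `X_K`. -/
def NiceSurface.delta {k : Type} [Field k] (X : NiceSurface k) (K : Type) [Field K] [Algebra k K] :
    Set ℕ :=
  {d | 1 ≤ d ∧ ∀ (m : ℕ) (g : MvPolynomial (Fin (X.n + 1)) K), g.IsHomogeneous m →
    (∀ x ∈ X.degreePoints K d, aeval x g = 0) →
      g ∈ X.I.map (MvPolynomial.map (algebraMap k K))}

end Pool.Agent.E6b
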