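import Pool.Agent.E6b.TBDefs

open scoped NNReal TensorProduct IntermediateField BigOperators Classical Topology
open Filter

namespace Pool.Agent.E6b

open MvPowerSeries

theorem TB1_th_one_le (p : ℕ) : 1 ≤ th p 2 := by
  unfold th
  split_ifs <;> norm_num

theorem TB1_th_nonneg (p : ℕ) {c : ℝ} (hc : 0 ≤ c) : 0 ≤ th p c := by
  unfold th
  split_ifs
  · exact hc
  · norm_num

theorem TB1_th_pow (p : ℕ) (c : ℝ) (n : ℕ) : th p (c ^ n) = th p c ^ n := by
  unfold th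
  split_ifs <;> simp

theorem TB1_th_mul (p : ℕ) (a b : ℝ) : th p (a * b) = th p a * th p b := by
  unfold th
  split_ifs <;> simp

theorem TB1_th_one (p : ℕ) : th p 1 = 1 := by
  unfold th
  split_ifs <;> simp

theorem TB1_th_mono (p : ℕ) {a b : ℝ} (h : a ≤ b) : th p a ≤ th p b := by
  unfold th
  split_ifs
  · exact h
  · exact le_rfl

theorem TB1_one_le_nrm (v : AbsoluteValue Qb ℝ) {S : Finset Qb} (h1 : 1 ∈ S) : 1 ≤ nrm v S := by
  simpa using le_nrm v h1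

theorem TB1_nrm_le (p : ℕ) (v : AbsoluteValue Qb ℝ) (S : Finset Qb) :
    nrm v S ≤ th p 2 * nrm v S := by
  have h := TB1_th_one_le p
  have h2 := nrm_nonneg v S
  nlinarith

theorem TB1_th_le (p : ℕ) (v : AbsoluteValue Qb ℝ) {S : Finset Qb} (h1 : 1 ∈ S) :
    th p 2 ≤ th p 2 * nrm v S := by
  have h := TB1_th_one_le p
  have h2 := TB1_one_le_nrm v h1
  nlinarith

theorem TB1_one_le (p : ℕ) (v : AbsoluteValue Qb ℝ) {S : Finset Qb} (h1 : 1 ∈ S) :
    1 ≤ th p 2 * nrm v S :=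
  (TB1_th_one_le p).trans (TB1_th_le p v h1)

/-- weighted triangle inequality at a place -/
theorem TB1_sum {p : ℕ} {v : AbsoluteValue Qb ℝ} (hv : IsPl p v) {ι : Type*} (s : Finset ι)
    (f : ι → Qb) (w : ι → ℝ) {M c : ℝ} (hM : 0 ≤ M) (hf : ∀ i ∈ s, v (f i) ≤ M * th p (w i))
    (hw : ∑ i ∈ s, w i ≤ c) : v (∑ i ∈ s, f i) ≤ M * th p c := by
  by_cases hp : p = 0
  · subst hp
    simp only [th, if_true] at hf ⊢
    calc v (∑ i ∈ s, f i) ≤ ∑ i ∈ s, v (f i) := v.sum_le s f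
      _ ≤ ∑ i ∈ s, M * w i := Finset.sum_le_sum hf
      _ = M * ∑ i ∈ s, w i := by rw [Finset.mul_sum]
      _ ≤ M * c := mul_le_mul_of_nonneg_left hw hM
  · simp only [th, if_neg hp, mul_one] at hf ⊢
    have h := hv.sum_le s f hM hf
    simpa [th, hp] using h

variable {σ : Type} [Fintype σ]

theorem TB1_anti {x : ℝ} (hx : 0 ≤ x) (m : σ →₀ ℕ) :
    ∑ a ∈ Finset.HasAntidiagonal.antidiagonal m, x ^ a.1.degree ≤
      ∏ j, ∑ i ∈ Finset.range (m j + 1), x ^ i := by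
  rw [Finset.prod_univ_sum]
  have hinj : Set.InjOn (fun a : (σ →₀ ℕ) × (σ →₀ ℕ) => (a.1 : σ → ℕ))
      (Finset.HasAntidiagonal.antidiagonal m : Set ((σ →₀ ℕ) × (σ →₀ ℕ))) := by
    intro a ha b hb hab
    have ha' : a.1 + a.2 = m := by simpa using ha
    have hb' : b.1 + b.2 = m := by simpa using hb
    have h1 : a.1 = b.1 := DFunLike.coe_injective hab
    refine Prod.ext h1 ?_
    have : a.1 + a.2 = a.1 + b.2 := by rw [ha', h1, hb']
    exact add_left_cancel this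
  calc ∑ a ∈ Finset.HasAntidiagonal.antidiagonal m, x ^ a.1.degree
      = ∑ a ∈ Finset.HasAntidiagonal.antidiagonal m, ∏ j, x ^ (a.1 : σ → ℕ) j := by
        refine Finset.sum_congr rfl fun a _ => ?_
        rw [Finsupp.degree_eq_sum, Finset.prod_pow_eq_pow_sum]
    _ = ∑ y ∈ (Finset.HasAntidiagonal.antidiagonal m).image (fun a : (σ →₀ ℕ) × (σ →₀ ℕ) => (a.1 : σ → ℕ)),
          ∏ j, x ^ y j := by
        rw [Finset.sum_image hinj]
    _ ≤ ∑ y ∈ Fintype.piFinset fun j => Finset.range (m j + 1), ∏ j, x ^ y j := by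
        refine Finset.sum_le_sum_of_subset_of_nonneg ?_ fun y _ _ =>
          Finset.prod_nonneg fun j _ => pow_nonneg hx _
        intro y hy
        obtain ⟨a, ha, rfl⟩ := Finset.mem_image.1 hy
        have ha' : a.1 + a.2 = m := by simpa using ha
        rw [Fintype.mem_piFinset]
        intro j
        have : a.1 j + a.2 j = m j := by rw [← ha']; rfl
        rw [Finset.mem_range]
        omega

theorem TB1_anti_one (m : σ →₀ ℕ) :
    ∑ _a ∈ Finset.HasAntidiagonal.antidiagonal m, (1 : ℝ) ≤ 2 ^ m.degree := by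
  have h := TB1_anti (σ := σ) zero_le_one m
  simp only [one_pow] at h
  refine h.trans ?_
  rw [Finsupp.degree_eq_sum, ← Finset.prod_pow_eq_pow_sum]
  refine Finset.prod_le_prod (fun j _ => by positivity) fun j _ => ?_
  have : m j + 1 ≤ 2 ^ m j := Nat.lt_two_pow_self
  simp only [Finset.sum_const, Finset.card_range, nsmul_eq_mul, mul_one]
  exact_mod_cast this

theorem TB1_geom {x : ℝ} (hx : 0 ≤ x) (hx1 : x < 1) (n : ℕ) :
    ∑ i ∈ Finset.range n, x ^ i ≤ (1 - x)⁻¹ := by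
  rw [← tsum_geometric_of_lt_one hx hx1]
  exact (summable_geometric_of_lt_one hx hx1).sum_le_tsum _ fun i _ => pow_nonneg hx i

theorem TB1_anti_geom {x : ℝ} (hx : 0 ≤ x) (hx1 : x < 1) (m : σ →₀ ℕ) :
    ∑ a ∈ Finset.HasAntidiagonal.antidiagonal m, x ^ a.1.degree ≤ (1 - x)⁻¹ ^ Fintype.card σ := by
  refine (TB1_anti hx m).trans ?_
  rw [← Finset.card_univ, ← Finset.prod_const]
  exact Finset.prod_le_prod (fun j _ => Finset.sum_nonneg fun i _ => pow_nonneg hx i)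
    fun j _ => TB1_geom hx hx1 _

theorem TB1_anti_half (m : σ →₀ ℕ) :
    ∑ a ∈ Finset.HasAntidiagonal.antidiagonal m, (2⁻¹ : ℝ) ^ a.1.degree ≤ 2 ^ Fintype.card σ := by
  have h := TB1_anti_geom (σ := σ) (x := 2⁻¹) (by norm_num) (by norm_num) m
  norm_num at h ⊢
  exact h

theorem TB1_anti_small (m : σ →₀ ℕ) :
    ∑ a ∈ (Finset.HasAntidiagonal.antidiagonal m).erase (0, m),
      ((2⁻¹ : ℝ) ^ (Fintype.card σ + 1)) ^ a.1.degree ≤ 1 := by
  set n := Fintype.card σ with hn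
  set x : ℝ := (2⁻¹ : ℝ) ^ (n + 1) with hx
  have hx0 : 0 ≤ x := by positivity
  have hnx : (n : ℝ) * x ≤ 2⁻¹ := by
    have h1 : (n : ℝ) ≤ 2 ^ n := by exact_mod_cast Nat.lt_two_pow_self.le
    have h2 : (2 : ℝ) ^ n * x = 2⁻¹ := by
      rw [hx, pow_succ, ← mul_assoc, ← mul_pow]
      norm_num
    calc (n : ℝ) * x ≤ 2 ^ n * x := mul_le_mul_of_nonneg_right h1 hx0
      _ = 2⁻¹ := h2
  have hx1 : x < 1 := pow_lt_one₀ (by norm_num) (by norm_num) (Nat.succ_ne_zero n)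
  have h := TB1_anti_geom (σ := σ) hx0 hx1 m
  have hmem : ((0 : σ →₀ ℕ), m) ∈ Finset.HasAntidiagonal.antidiagonal m := by simp
  rw [← Finset.add_sum_erase _ _ hmem] at h
  simp only [map_zero, pow_zero] at h
  have hb : 1 + (n : ℝ) * (-x) ≤ (1 + -x) ^ n := one_add_mul_le_pow (by linarith) n
  have hb2 : (2⁻¹ : ℝ) ≤ (1 - x) ^ n := by
    rw [sub_eq_add_neg]
    linarith
  have hb3 : (1 - x)⁻¹ ^ n ≤ 2 := by
    rw [inv_pow]
    calc ((1 - x) ^ n)⁻¹ ≤ (2⁻¹ : ℝ)⁻¹ := inv_anti₀ (by norm_num) hb2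
      _ = 2 := by norm_num
  rw [← hn] at h
  linarith

omit [Fintype σ] in
theorem TB1_deg_add {m : σ →₀ ℕ} {a : (σ →₀ ℕ) × (σ →₀ ℕ)} (ha : a ∈ Finset.HasAntidiagonal.antidiagonal m) :
    a.1.degree + a.2.degree = m.degree := by
  have ha' : a.1 + a.2 = m := by simpa using ha
  rw [← ha', map_add]

end Pool.Agent.E6b
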