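import Pool.Agent.E6b.TBDefs
import Pool.Agent.E6b.TB1Aux

open scoped NNReal TensorProduct IntermediateField BigOperators Classical Topology
open Filter

namespace Pool.Agent.E6b

open MvPowerSeries

variable {σ : Type} [Fintype σ] {S : Finset Qb} {k : ℕ} {f g : MvPowerSeries σ Qb}

theorem SB.mono (h : SB S k f) (h1 : 1 ∈ S) {S' : Finset Qb} (hS : S ⊆ S') {k' : ℕ}
    (hk : k ≤ k') : SB S' k' f := by
  intro p v hv m
  have hN : nrm v S ≤ nrm v S' := nrm_le v (nrm_nonneg v S') fun a ha => le_nrm v (hS ha)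
  have hB : th p 2 * nrm v S ≤ th p 2 * nrm v S' :=
    mul_le_mul_of_nonneg_left hN (zero_le_one.trans (TB1_th_one_le p))
  have h0 := TB1_one_le p v h1
  calc v (coeff m f) ≤ (th p 2 * nrm v S) ^ (k * (m.degree + 1)) := h p v hv m
    _ ≤ (th p 2 * nrm v S') ^ (k * (m.degree + 1)) :=
        pow_le_pow_left₀ (zero_le_one.trans h0) hB _
    _ ≤ (th p 2 * nrm v S') ^ (k' * (m.degree + 1)) :=
        pow_le_pow_right₀ (h0.trans hB) (Nat.mul_le_mul_right _ hk)

theorem TB1_le_pow (h1 : 1 ∈ S) {a : Qb} (ha : a ∈ S) (p : ℕ) (v : AbsoluteValue Qb ℝ) (d : ℕ) :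
    v a ≤ (th p 2 * nrm v S) ^ (1 * (d + 1)) := by
  have h0 := TB1_one_le p v h1
  calc v a ≤ nrm v S := le_nrm v ha
    _ ≤ th p 2 * nrm v S := TB1_nrm_le p v S
    _ ≤ (th p 2 * nrm v S) ^ (1 * (d + 1)) := le_self_pow₀ h0 (by omega)

theorem SB.C (h1 : 1 ∈ S) {a : Qb} (ha : a ∈ S) : SB S 1 (C a : MvPowerSeries σ Qb) := by
  intro p v hv m
  rw [coeff_C]
  split_ifs
  · exact TB1_le_pow h1 ha p v _
  · rw [map_zero]
    exact pow_nonneg (zero_le_one.trans (TB1_one_le p v h1)) _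

theorem SB.shiftX (h1 : 1 ∈ S) {a : Qb} (ha : a ∈ S) (j : σ) :
    SB S 1 (MvPowerSeries.C a + X j : MvPowerSeries σ Qb) := by
  intro p v hv m
  rw [map_add, coeff_C, coeff_X]
  by_cases hm : m = 0
  · subst hm
    have : ¬ ((0 : σ →₀ ℕ) = Finsupp.single j 1) := by
      intro h
      have := congrArg (fun x : σ →₀ ℕ => x j) h
      simp at this
    rw [if_pos rfl, if_neg this, add_zero]
    exact TB1_le_pow h1 ha p v _
  · rw [if_neg hm, zero_add]
    split_ifs
    · exact TB1_le_pow h1 h1 p v _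
    · rw [map_zero]
      exact pow_nonneg (zero_le_one.trans (TB1_one_le p v h1)) _

theorem TB1_add_le {p : ℕ} {v : AbsoluteValue Qb ℝ} (hv : IsPl p v) {a b : Qb} {M : ℝ}
    (ha : v a ≤ M) (hb : v b ≤ M) : v (a + b) ≤ th p 2 * M := by
  by_cases hp : p = 0
  · subst hp
    simp only [th, if_true]
    have := v.add_le a b
    linarith
  · simp only [th, if_neg hp, one_mul]
    exact (hv.nonarch hp a b).trans (max_le ha hb)

theorem SB.add (h1 : 1 ∈ S) (hf : SB S k f) (hg : SB S k g) : SB S (k + 1) (f + g) := by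
  intro p v hv m
  have h0 := TB1_one_le p v h1
  rw [map_add]
  calc v (coeff m f + coeff m g) ≤ th p 2 * (th p 2 * nrm v S) ^ (k * (m.degree + 1)) :=
        TB1_add_le hv (hf p v hv m) (hg p v hv m)
    _ ≤ (th p 2 * nrm v S) * (th p 2 * nrm v S) ^ (k * (m.degree + 1)) :=
        mul_le_mul_of_nonneg_right (TB1_th_le p v h1) (pow_nonneg (zero_le_one.trans h0) _)
    _ = (th p 2 * nrm v S) ^ (k * (m.degree + 1) + 1) := by ring
    _ ≤ (th p 2 * nrm v S) ^ ((k + 1) * (m.degree + 1)) :=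
        pow_le_pow_right₀ h0 (by nlinarith)

theorem TB1_mul_le {p : ℕ} {v : AbsoluteValue Qb ℝ} (hv : IsPl p v) {A B C : ℝ} (hA : 0 ≤ A)
    (hB : 0 ≤ B) (hC : 0 ≤ C) (hf : ∀ m : σ →₀ ℕ, v (coeff m f) ≤ A * C ^ m.degree)
    (hg : ∀ m : σ →₀ ℕ, v (coeff m g) ≤ B * C ^ m.degree) (m : σ →₀ ℕ) :
    v (coeff m (f * g)) ≤ A * B * (th p 2 * C) ^ m.degree := by
  rw [coeff_mul]
  have h := TB1_sum hv (Finset.HasAntidiagonal.antidiagonal m)
    (fun a => coeff a.1 f * coeff a.2 g) (fun _ => 1) (M := A * B * C ^ m.degree)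
    (c := 2 ^ m.degree) (by positivity) ?_ (TB1_anti_one m)
  · refine h.trans (le_of_eq ?_)
    rw [TB1_th_pow, mul_pow]
    ring
  · intro a ha
    rw [TB1_th_one, mul_one, map_mul, ← TB1_deg_add ha, pow_add]
    calc v (coeff a.1 f) * v (coeff a.2 g) ≤ (A * C ^ a.1.degree) * (B * C ^ a.2.degree) :=
          mul_le_mul (hf _) (hg _) (v.nonneg _) (by positivity)
      _ = A * B * (C ^ a.1.degree * C ^ a.2.degree) := by ring

theorem SB.mul (h1 : 1 ∈ S) (hf : SB S k f) (hg : SB S k g) :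
    SB S (2 * k + Fintype.card σ + 1) (f * g) := by
  intro p v hv m
  have h0 := TB1_one_le p v h1
  have ht := TB1_th_le p v h1
  have ht0 : 0 ≤ th p 2 := zero_le_one.trans (TB1_th_one_le p)
  have hf' : ∀ m : σ →₀ ℕ, v (coeff m f) ≤
      (th p 2 * nrm v S) ^ k * ((th p 2 * nrm v S) ^ k) ^ m.degree := fun m => by
    refine (hf p v hv m).trans (le_of_eq ?_)
    rw [← pow_mul, ← pow_add]
    congr 1
    ring
  have hg' : ∀ m : σ →₀ ℕ, v (coeff m g) ≤
      (th p 2 * nrm v S) ^ k * ((th p 2 * nrm v S) ^ k) ^ m.degree := fun m => by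
    refine (hg p v hv m).trans (le_of_eq ?_)
    rw [← pow_mul, ← pow_add]
    congr 1
    ring
  generalize th p 2 * nrm v S = B at *
  have hB : 0 ≤ B := zero_le_one.trans h0
  refine (TB1_mul_le hv (by positivity) (by positivity) (by positivity) hf' hg' m).trans ?_
  calc B ^ k * B ^ k * (th p 2 * B ^ k) ^ m.degree ≤ B ^ k * B ^ k * (B * B ^ k) ^ m.degree := by
        gcongr
    _ = B ^ (k + k + (1 + k) * m.degree) := by
        rw [pow_add, pow_add, pow_mul, pow_add, pow_one]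
    _ ≤ B ^ ((2 * k + Fintype.card σ + 1) * (m.degree + 1)) :=
        pow_le_pow_right₀ h0 (by nlinarith [Nat.zero_le (Fintype.card σ * m.degree)])

omit [Fintype σ] in
theorem TB1_inv_rec (h : f * g = 1) {m : σ →₀ ℕ} (hm : m ≠ 0) :
    coeff m g = ∑ a ∈ (Finset.HasAntidiagonal.antidiagonal m).erase (0, m),
      -(constantCoeff g * (coeff a.1 f * coeff a.2 g)) := by
  have h0 : constantCoeff f * constantCoeff g = 1 := by
    rw [← map_mul, h, map_one]
  have h2 : coeff m (f * g) = 0 := by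
    rw [h, coeff_one, if_neg hm]
  have hmem : ((0 : σ →₀ ℕ), m) ∈ Finset.HasAntidiagonal.antidiagonal m := by simp
  rw [coeff_mul, ← Finset.add_sum_erase _ _ hmem] at h2
  simp only [coeff_zero_eq_constantCoeff] at h2
  rw [Finset.sum_neg_distrib, ← Finset.mul_sum]
  linear_combination constantCoeff g * h2 - coeff m g * h0

theorem exists_SB_inv (σ : Type) [Fintype σ] (k : ℕ) : ∃ k' : ℕ, ∀ (S : Finset Qb)
    (f g : MvPowerSeries σ Qb), 1 ∈ S → SB S k f → f * g = 1 → constantCoeff g ∈ S →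
    SB S k' g := by
  refine ⟨2 * k + 1 + (Fintype.card σ + 1), fun S f g h1 hf hfg hg0 p v hv => ?_⟩
  have h0 := TB1_one_le p v h1
  have ht := TB1_th_le p v h1
  have ht1 := TB1_th_one_le p
  have hg0' : v (constantCoeff g) ≤ th p 2 * nrm v S := (le_nrm v hg0).trans (TB1_nrm_le p v S)
  have hf' := hf p v hv
  set c := Fintype.card σ + 1 with hc
  generalize th p 2 * nrm v S = B at *
  have hB : 0 ≤ B := zero_le_one.trans h0
  have key : ∀ (d : ℕ) (m : σ →₀ ℕ), m.degree = d →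
      v (coeff m g) ≤ B * (B ^ (2 * k + 1 + c)) ^ d := by
    intro d
    induction d using Nat.strong_induction_on with
    | _ d ih =>
    intro m hmd
    by_cases hm : m = 0
    · subst hm
      rw [map_zero] at hmd
      subst hmd
      simpa using hg0'
    rw [TB1_inv_rec hfg hm]
    have h := TB1_sum hv ((Finset.HasAntidiagonal.antidiagonal m).erase (0, m))
      (fun a => -(constantCoeff g * (coeff a.1 f * coeff a.2 g)))
      (fun a => ((2⁻¹ : ℝ) ^ c) ^ a.1.degree) (M := B * (B ^ (2 * k + 1 + c)) ^ d)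
      (c := 1) (by positivity) ?_ (TB1_anti_small m)
    · rwa [TB1_th_one, mul_one] at h
    intro a ha
    obtain ⟨ha1, ha2⟩ := Finset.mem_erase.1 ha
    have hdeg := TB1_deg_add ha2
    have ha0 : a.1 ≠ 0 := by
      intro h
      apply ha1
      have ha' : a.1 + a.2 = m := by simpa using ha2
      rw [h, zero_add] at ha'
      exact Prod.ext h ha'
    have hd1 : 1 ≤ a.1.degree := by
      rw [Nat.one_le_iff_ne_zero]
      intro h
      exact ha0 ((Finsupp.degree_eq_zero_iff _).1 h)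
    have hi := ih a.2.degree (by omega) a.2 rfl
    have hth : th p (((2⁻¹ : ℝ) ^ c) ^ a.1.degree) * th p 2 ^ (c * a.1.degree) = 1 := by
      rw [← TB1_th_pow, ← TB1_th_mul, ← pow_mul, ← mul_pow]
      norm_num [TB1_th_one]
    have hth0 : 0 ≤ th p (((2⁻¹ : ℝ) ^ c) ^ a.1.degree) := TB1_th_nonneg p (by positivity)
    have e1 : B * B ^ (k * (a.1.degree + 1)) * th p 2 ^ (c * a.1.degree) ≤
        (B ^ (2 * k + 1 + c)) ^ a.1.degree := by
      calc B * B ^ (k * (a.1.degree + 1)) * th p 2 ^ (c * a.1.degree)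
          ≤ B * B ^ (k * (a.1.degree + 1)) * B ^ (c * a.1.degree) := by gcongr
        _ = B ^ (1 + k * (a.1.degree + 1) + c * a.1.degree) := by
            rw [pow_add, pow_add, pow_one]
        _ ≤ B ^ ((2 * k + 1 + c) * a.1.degree) := pow_le_pow_right₀ h0 (by nlinarith)
        _ = (B ^ (2 * k + 1 + c)) ^ a.1.degree := pow_mul _ _ _
    rw [AbsoluteValue.map_neg, map_mul, map_mul, ← hmd, ← hdeg, pow_add]
    calc v (constantCoeff g) * (v (coeff a.1 f) * v (coeff a.2 g))
        ≤ B * (B ^ (k * (a.1.degree + 1)) * (B * (B ^ (2 * k + 1 + c)) ^ a.2.degree)) := by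
          refine mul_le_mul hg0' (mul_le_mul (hf' _) hi (v.nonneg _) (by positivity))
            (mul_nonneg (v.nonneg _) (v.nonneg _)) hB
      _ = B * (B ^ (2 * k + 1 + c)) ^ a.2.degree * th p (((2⁻¹ : ℝ) ^ c) ^ a.1.degree) *
            (B * B ^ (k * (a.1.degree + 1)) * th p 2 ^ (c * a.1.degree)) := by
          linear_combination
            (-(B * (B ^ (k * (a.1.degree + 1)) * (B * (B ^ (2 * k + 1 + c)) ^ a.2.degree)))) * hth
      _ ≤ B * (B ^ (2 * k + 1 + c)) ^ a.2.degree * th p (((2⁻¹ : ℝ) ^ c) ^ a.1.degree) *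
            (B ^ (2 * k + 1 + c)) ^ a.1.degree :=
          mul_le_mul_of_nonneg_left e1 (by positivity)
      _ = B * ((B ^ (2 * k + 1 + c)) ^ a.1.degree * (B ^ (2 * k + 1 + c)) ^ a.2.degree) *
            th p (((2⁻¹ : ℝ) ^ c) ^ a.1.degree) := by ring
  intro m
  refine (key _ m rfl).trans ?_
  rw [← pow_mul, ← pow_succ']
  exact pow_le_pow_right₀ h0 (by nlinarith)

theorem TB1_monom (σ τ : Type) [Fintype σ] [Fintype τ] (k Δ : ℕ) : ∃ k' : ℕ,
    ∀ (S : Finset Qb) (x : τ → MvPowerSeries σ Qb), 1 ∈ S → (∀ i, SB S k (x i)) →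
    ∀ d : τ →₀ ℕ, d.degree ≤ Δ → SB S k' (d.prod fun i n => x i ^ n) := by
  induction Δ with
  | zero =>
    refine ⟨1, fun S x h1 _ d hd => ?_⟩
    have : d = 0 := (Finsupp.degree_eq_zero_iff _).1 (Nat.le_zero.1 hd)
    subst this
    simpa using SB.C (σ := σ) h1 h1
  | succ Δ ih =>
    obtain ⟨k', hk'⟩ := ih
    refine ⟨2 * (k' + k) + Fintype.card σ + 1, fun S x h1 hx d hd => ?_⟩
    by_cases hd0 : d.degree ≤ Δ
    · exact (hk' S x h1 hx d hd0).mono h1 subset_rfl (by omega)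
    have hne : d ≠ 0 := by
      rintro rfl
      simp at hd0
    obtain ⟨i, hi⟩ := Finsupp.ne_iff.1 hne
    have hi' : d i ≠ 0 := by simpa using hi
    have hle : Finsupp.single i 1 ≤ d := by
      rw [Finsupp.single_le_iff]
      omega
    obtain ⟨d', rfl⟩ := exists_add_of_le hle
    rw [map_add, Finsupp.degree_single] at hd
    rw [Finsupp.prod_add_index' (by simp) (by simp [pow_add]), Finsupp.prod_single_index (by simp),
      pow_one]
    exact SB.mul h1 ((hx i).mono h1 subset_rfl (by omega))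
      ((hk' S x h1 hx d' (by omega)).mono h1 subset_rfl (by omega))

theorem exists_SB_aeval (σ τ : Type) [Fintype σ] [Fintype τ] (k Δ : ℕ) : ∃ k' : ℕ,
    ∀ (S : Finset Qb) (x : τ → MvPowerSeries σ Qb) (P : MvPolynomial τ Qb), 1 ∈ S →
    (∀ i, SB S k (x i)) → P.totalDegree ≤ Δ → P.coeffs ⊆ S →
    SB S k' (MvPolynomial.aeval x P) := by
  obtain ⟨k', hk'⟩ := TB1_monom σ τ k Δ
  set K := (Finsupp.finite_of_degree_le (σ := τ) Δ).toFinset.card with hK
  refine ⟨K + 1 + k', fun S x P h1 hx hP hS p v hv m => ?_⟩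
  have hdeg : ∀ d ∈ P.support, d.degree ≤ Δ := fun d hd =>
    (MvPolynomial.le_totalDegree hd).trans hP
  have hcard : P.support.card ≤ K := by
    refine Finset.card_le_card fun d hd => ?_
    rw [Set.Finite.mem_toFinset]
    exact hdeg d hd
  have h0 := TB1_one_le p v h1
  have ht := TB1_th_le p v h1
  have ht1 := TB1_th_one_le p
  have hterm : ∀ d ∈ P.support, v (coeff m (algebraMap Qb (MvPowerSeries σ Qb) (P.coeff d) *
      d.prod fun i n => x i ^ n)) ≤
      (th p 2 * nrm v S) * (th p 2 * nrm v S) ^ (k' * (m.degree + 1)) * th p 1 := by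
    intro d hd
    have hc : P.coeff d ∈ S := hS (MvPolynomial.coeff_mem_coeffs d (MvPolynomial.mem_support_iff.1 hd))
    rw [TB1_th_one, mul_one, ← MvPowerSeries.c_eq_algebraMap, coeff_C_mul, map_mul]
    exact mul_le_mul ((le_nrm v hc).trans (TB1_nrm_le p v S)) (hk' S x h1 hx d (hdeg d hd) p v hv m)
      (v.nonneg _) (zero_le_one.trans h0)
  have hsum : ∑ _d ∈ P.support, (1 : ℝ) ≤ 2 ^ K := by
    simp only [Finset.sum_const, nsmul_eq_mul, mul_one]
    exact_mod_cast hcard.trans Nat.lt_two_pow_self.le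
  generalize th p 2 * nrm v S = B at *
  have hB : 0 ≤ B := zero_le_one.trans h0
  rw [MvPolynomial.aeval_def, MvPolynomial.eval₂_eq, map_sum]
  refine (TB1_sum hv P.support _ (fun _ => 1) (by positivity) hterm hsum).trans ?_
  rw [TB1_th_pow]
  calc B * B ^ (k' * (m.degree + 1)) * th p 2 ^ K ≤ B * B ^ (k' * (m.degree + 1)) * B ^ K := by
        gcongr
    _ = B ^ (1 + k' * (m.degree + 1) + K) := by rw [pow_add, pow_add, pow_one]
    _ ≤ B ^ ((K + 1 + k') * (m.degree + 1)) :=
        pow_le_pow_right₀ h0 (by nlinarith [Nat.zero_le (K * m.degree)])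

/-- a long product of series whose constant terms are `≤ 1` at the given place -/
theorem coeff_prod_le (h1 : 1 ∈ S) {ι : Type} (s : Finset ι) (W : ι → MvPowerSeries σ Qb)
    (hW : ∀ i ∈ s, SB S k (W i)) {p : ℕ} {v : AbsoluteValue Qb ℝ} (hv : IsPl p v)
    (h0 : ∀ i ∈ s, v (constantCoeff (W i)) ≤ 1) (m : σ →₀ ℕ) :
    v (coeff m (∏ i ∈ s, W i)) ≤
      th p 2 ^ (Fintype.card σ * s.card + m.degree) *
        (th p 2 * nrm v S) ^ (2 * k * m.degree) := by
  have hB1 := TB1_one_le p v h1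
  have ht1 := TB1_th_one_le p
  have hW' : ∀ i ∈ s, ∀ a : σ →₀ ℕ, v (coeff a (W i)) ≤ (th p 2 * nrm v S) ^ (2 * k * a.degree) := by
    intro i hi a
    by_cases ha : a = 0
    · subst ha
      simpa using h0 i hi
    · have hd1 : 1 ≤ a.degree := by
        rw [Nat.one_le_iff_ne_zero]
        intro h
        exact ha ((Finsupp.degree_eq_zero_iff _).1 h)
      exact (hW i hi p v hv a).trans (pow_le_pow_right₀ hB1 (by nlinarith))
  clear hW h0
  generalize th p 2 * nrm v S = B at *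
  have hB : 0 ≤ B := zero_le_one.trans hB1
  have ht0 : 0 ≤ th p 2 := zero_le_one.trans ht1
  induction s using Finset.induction_on generalizing m with
  | empty =>
    rw [Finset.prod_empty, coeff_one]
    split_ifs
    · rw [map_one]
      exact one_le_mul_of_one_le_of_one_le (one_le_pow₀ ht1) (one_le_pow₀ hB1)
    · rw [map_zero]
      positivity
  | insert i s hi ih =>
    have ih' := fun m' => ih m' fun j hj => hW' j (Finset.mem_insert_of_mem hj)
    rw [Finset.prod_insert hi, coeff_mul, Finset.card_insert_of_notMem hi]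
    have h := TB1_sum hv (Finset.HasAntidiagonal.antidiagonal m)
      (fun a => coeff a.1 (W i) * coeff a.2 (∏ j ∈ s, W j)) (fun a => (2⁻¹ : ℝ) ^ a.1.degree)
      (M := th p 2 ^ (Fintype.card σ * s.card + m.degree) * B ^ (2 * k * m.degree))
      (c := 2 ^ Fintype.card σ) (by positivity) ?_ (TB1_anti_half m)
    · refine h.trans (le_of_eq ?_)
      rw [TB1_th_pow]
      ring
    intro a ha
    have hth : th p ((2⁻¹ : ℝ) ^ a.1.degree) * th p 2 ^ a.1.degree = 1 := by
      rw [← TB1_th_pow, ← TB1_th_mul, ← mul_pow]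
      norm_num [TB1_th_one]
    rw [map_mul, ← TB1_deg_add ha]
    calc v (coeff a.1 (W i)) * v (coeff a.2 (∏ j ∈ s, W j))
        ≤ B ^ (2 * k * a.1.degree) *
            (th p 2 ^ (Fintype.card σ * s.card + a.2.degree) * B ^ (2 * k * a.2.degree)) :=
          mul_le_mul (hW' i (Finset.mem_insert_self i s) _) (ih' _) (v.nonneg _) (by positivity)
      _ = th p 2 ^ (Fintype.card σ * s.card + (a.1.degree + a.2.degree)) *
            B ^ (2 * k * (a.1.degree + a.2.degree)) * th p ((2⁻¹ : ℝ) ^ a.1.degree) := by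
          linear_combination (-(B ^ (2 * k * a.1.degree) *
            (th p 2 ^ (Fintype.card σ * s.card + a.2.degree) * B ^ (2 * k * a.2.degree)))) * hth

theorem coeff_mul_le {p : ℕ} {v : AbsoluteValue Qb ℝ} (hv : IsPl p v) {A B C : ℝ} (hA : 0 ≤ A)
    (hB : 0 ≤ B) (hC : 1 ≤ C) (hf : ∀ m : σ →₀ ℕ, v (coeff m f) ≤ A * C ^ m.degree)
    (hg : ∀ m : σ →₀ ℕ, v (coeff m g) ≤ B * C ^ m.degree) (m : σ →₀ ℕ) :
    v (coeff m (f * g)) ≤ A * B * (th p 2 * C) ^ m.degree :=
  TB1_mul_le hv hA hB (zero_le_one.trans hC) hf hg m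

theorem coeff_rename_mul {τ : Type} [Fintype τ] (f : MvPowerSeries σ Qb) (g : MvPowerSeries τ Qb)
    (m : σ ⊕ τ →₀ ℕ) :
    coeff m (rename Sum.inl f * rename Sum.inr g) =
      coeff (m.comapDomain Sum.inl Sum.inl_injective.injOn) f *
        coeff (m.comapDomain Sum.inr Sum.inr_injective.injOn) g := by
  set a := m.comapDomain Sum.inl Sum.inl_injective.injOn with ha
  set b := m.comapDomain Sum.inr Sum.inr_injective.injOn with hb
  have hm : Finsupp.mapDomain Sum.inl a + Finsupp.mapDomain Sum.inr b = m := by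
    rw [← Finsupp.sumElim_eq_add, ha, hb, Finsupp.comapDomain_sumElim_comapDomain]
  have e1 : coeff (Finsupp.mapDomain Sum.inl a) (rename (Sum.inl : σ → σ ⊕ τ) f) = coeff a f := by
    have := coeff_embDomain_rename (Function.Embedding.inl : σ ↪ σ ⊕ τ) f a
    rwa [Finsupp.embDomain_eq_mapDomain] at this
  have e2 : coeff (Finsupp.mapDomain Sum.inr b) (rename (Sum.inr : τ → σ ⊕ τ) g) = coeff b g := by
    have := coeff_embDomain_rename (Function.Embedding.inr : τ ↪ σ ⊕ τ) g b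
    rwa [Finsupp.embDomain_eq_mapDomain] at this
  rw [coeff_mul, Finset.sum_eq_single (Finsupp.mapDomain Sum.inl a, Finsupp.mapDomain Sum.inr b),
    e1, e2]
  · rintro ⟨x, y⟩ hxy hne
    have hxy' : x + y = m := by simpa using hxy
    by_cases hx : x ∈ Set.range (Finsupp.mapDomain (Sum.inl : σ → σ ⊕ τ))
    · by_cases hy : y ∈ Set.range (Finsupp.mapDomain (Sum.inr : τ → σ ⊕ τ))
      · exfalso
        obtain ⟨x', rfl⟩ := hx
        obtain ⟨y', rfl⟩ := hy
        rw [← Finsupp.sumElim_eq_add] at hxy'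
        apply hne
        rw [ha, hb, ← hxy', Finsupp.comapDomain_inl_sumElim, Finsupp.comapDomain_inr_sumElim]
      · rw [coeff_rename_eq_zero _ _ hy, mul_zero]
    · rw [coeff_rename_eq_zero _ _ hx, zero_mul]
  · intro h
    exact absurd (by simpa using hm) h

end Pool.Agent.E6b
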