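import Pool.Agent.E6b.H2

open scoped NNReal TensorProduct IntermediateField BigOperators Classical Topology
open Filter

namespace Pool.Agent.E6b

/-- geometric bounds for the coefficients of a power series at all places, in terms of a finite set
`S` of algebraic numbers (always used with `1 ∈ S`) -/
def SB {σ : Type} (S : Finset Qb) (k : ℕ) (f : MvPowerSeries σ Qb) : Prop :=
  ∀ p v, IsPl p v → ∀ m : σ →₀ ℕ,
    v (MvPowerSeries.coeff m f) ≤ (th p 2 * nrm v S) ^ (k * (m.degree + 1))

end Pool.Agent.E6b
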