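import Pool.Agent.E6b.U1
import Pool.Agent.E6b.H2

open scoped NNReal TensorProduct IntermediateField BigOperators Classical Topology
open Filter

namespace Pool.Agent.E6b

theorem U2_const (U : Ultrafilter ℕ) (c : Qb) :
    gm U (fun _ => c) = algebraMap Qb (UP U Qb) c := gm_const (κ := Qb) U c

theorem U2_neg (U : Ultrafilter ℕ) (x : ℕ → Qb) : gm U (fun n => -x n) = -gm U x := by
  have h := gm_sub U (fun _ => (0 : Qb)) x
  rw [U2_const, map_zero, zero_sub] at h
  simpa using h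

/-- subalgebra of the ultrapower cut out by a property of sequences -/
theorem U2_sub (U : Ultrafilter ℕ) (P : (ℕ → Qb) → Prop)
    (hc : ∀ x y, (∀ᶠ n in (U : Filter ℕ), x n = y n) → P x → P y)
    (hadd : ∀ x y, P x → P y → P fun n => x n + y n)
    (hmul : ∀ x y, P x → P y → P fun n => x n * y n)
    (hcst : ∀ c, P fun _ => c) :
    ∃ S : Subalgebra Qb (UP U Qb), ∀ x, gm U x ∈ S ↔ P x := by
  refine ⟨{ carrier := {z | ∃ x, gm U x = z ∧ P x}
            mul_mem' := ?_
            add_mem' := ?_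
            algebraMap_mem' := fun c => ⟨_, U2_const U c, hcst c⟩ }, fun x => ⟨?_, fun h => ⟨x, rfl, h⟩⟩⟩
  · rintro _ _ ⟨x, rfl, hx⟩ ⟨y, rfl, hy⟩
    exact ⟨_, gm_mul U x y, hmul x y hx hy⟩
  · rintro _ _ ⟨x, rfl, hx⟩ ⟨y, rfl, hy⟩
    exact ⟨_, gm_add U x y, hadd x y hx hy⟩
  · rintro ⟨y, hy, hP⟩
    exact hc y x ((gm_eq_iff U y x).1 hy) hP

theorem U2_vs (U : Ultrafilter ℕ) (P : (ℕ → Qb) → Prop)
    (hc : ∀ x y, (∀ᶠ n in (U : Filter ℕ), x n = y n) → P x → P y)
    (hadd : ∀ x y, P x → P y → P fun n => x n + y n)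
    (hmul : ∀ x y, P x → P y → P fun n => x n * y n)
    (hcst : ∀ c, P fun _ => c)
    (hinv : ∀ x, P x ∨ P fun n => (x n)⁻¹) :
    ∃ O : VS Qb (UP U Qb), ∀ x, gm U x ∈ O.1 ↔ P x := by
  obtain ⟨S, hS⟩ := U2_sub U P hc hadd hmul hcst
  refine ⟨⟨⟨S.toSubring, fun z => ?_⟩, fun c => S.algebraMap_mem c⟩, hS⟩
  obtain ⟨x, rfl⟩ := gm_surj U z
  rcases hinv x with h | h
  · exact Or.inl ((hS x).2 h)
  · right
    rw [← gm_inv]
    exact (hS _).2 h

/-- the valuation ring attached to places of residue characteristic tending to infinity -/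
theorem exists_vs_one (U : Ultrafilter ℕ) (p : ℕ → ℕ) (v : ℕ → AbsoluteValue Qb ℝ)
    (hv : ∀ n, IsPl (p n) (v n)) (hp : Tendsto p (U : Filter ℕ) atTop) :
    ∃ O : VS Qb (UP U Qb),
      (∀ x : ℕ → Qb, gm U x ∈ O.1 ↔ ∀ᶠ n in (U : Filter ℕ), v n (x n) ≤ 1) ∧
      ∀ x : ℕ → Qb, O.1.valuation (gm U x) < 1 ↔ ∀ᶠ n in (U : Filter ℕ), v n (x n) < 1 := by
  obtain ⟨O, hO⟩ := U2_vs U (fun x => ∀ᶠ n in (U : Filter ℕ), v n (x n) ≤ 1)
    (fun x y h hx => by
      filter_upwards [h, hx] with n h1 h2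
      rwa [← h1])
    (fun x y hx hy => by
      filter_upwards [hx, hy, hp.eventually_ge_atTop 1] with n h1 h2 h3
      exact ((hv n).nonarch (by omega) _ _).trans (max_le h1 h2))
    (fun x y hx hy => by
      filter_upwards [hx, hy] with n h1 h2
      rw [map_mul]
      exact mul_le_one₀ h1 ((v n).nonneg _) h2)
    (fun c => by
      by_cases hc : c = 0
      · exact Eventually.of_forall fun n => by rw [hc, map_zero]; exact zero_le_one
      · obtain ⟨N, hN⟩ := eventually_eq_one hc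
        filter_upwards [hp.eventually_ge_atTop N] with n h
        exact (hN _ _ (hv n) h).le)
    (fun x => by
      rw [← Ultrafilter.eventually_or]
      refine Eventually.of_forall fun n => ?_
      rcases le_total (v n (x n)) 1 with h | h
      · exact Or.inl h
      · right
        rw [map_inv₀]
        exact inv_le_one_of_one_le₀ h)
  refine ⟨O, hO, fun x => ?_⟩
  rw [← ValuationSubring.mem_nonunits_iff, ValuationSubring.mem_nonunits_iff_or, ← gm_inv, hO,
    gm_eq_zero_iff, ← Ultrafilter.eventually_not, ← Ultrafilter.eventually_or]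
  refine eventually_congr (Eventually.of_forall fun n => ?_)
  rw [map_inv₀, not_le]
  constructor
  · rintro (h | h)
    · rw [h, map_zero]; exact zero_lt_one
    · exact (one_lt_inv_iff₀.1 h).2
  · intro h
    by_cases h0 : x n = 0
    · exact Or.inl h0
    · exact Or.inr (one_lt_inv_iff₀.2 ⟨(v n).pos h0, h⟩)

/-- the valuation ring of the bounded sequences -/
theorem U2_vs_bdd (U : Ultrafilter ℕ) (p : ℕ → ℕ) (v : ℕ → AbsoluteValue Qb ℝ)
    (hv : ∀ n, IsPl (p n) (v n)) :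
    ∃ O : VS Qb (UP U Qb),
      ∀ x : ℕ → Qb, gm U x ∈ O.1 ↔ ∃ C : ℝ, ∀ᶠ n in (U : Filter ℕ), v n (x n) ≤ C :=
  U2_vs U (fun x => ∃ C : ℝ, ∀ᶠ n in (U : Filter ℕ), v n (x n) ≤ C)
    (fun x y h ⟨C, hx⟩ => ⟨C, by
      filter_upwards [h, hx] with n h1 h2
      rwa [← h1]⟩)
    (fun x y ⟨C, hx⟩ ⟨C', hy⟩ => ⟨C + C', by
      filter_upwards [hx, hy] with n h1 h2
      exact ((v n).add_le _ _).trans (add_le_add h1 h2)⟩)
    (fun x y ⟨C, hx⟩ ⟨C', hy⟩ => ⟨C * C', by
      filter_upwards [hx, hy] with n h1 h2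
      rw [map_mul]
      exact mul_le_mul h1 h2 ((v n).nonneg _) (((v n).nonneg _).trans h1)⟩)
    (fun c => by
      obtain ⟨C, hC⟩ := exists_bound c
      exact ⟨C, Eventually.of_forall fun n => hC _ _ (hv n)⟩)
    (fun x => by
      have : (∀ᶠ n in (U : Filter ℕ), v n (x n) ≤ 1) ∨ ∀ᶠ n in (U : Filter ℕ), v n (x n)⁻¹ ≤ 1 := by
        rw [← Ultrafilter.eventually_or]
        refine Eventually.of_forall fun n => ?_
        rcases le_total (v n (x n)) 1 with h | h
        · exact Or.inl h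
        · right
          rw [map_inv₀]
          exact inv_le_one_of_one_le₀ h
      exact this.imp (fun h => ⟨1, h⟩) fun h => ⟨1, h⟩)

theorem U2_key {ι ι' : Type} [Fintype ι] [Fintype ι'] (U : Ultrafilter ℕ) (a : ℕ → ι → Qb)
    (b : ℕ → ι' → Qb) (ha : a 0 ≠ 0) (hb : b 0 ≠ 0) (v : ℕ → AbsoluteValue Qb ℝ)
    (O : ValuationSubring (UP U Qb))
    (h : vs O (fun i => gm U fun n => a n i) ≤ vs O fun j => gm U fun n => b n j) :
    ∃ z : ℕ → Qb, gm U z ∈ O ∧
      ∀ᶠ n in (U : Filter ℕ), nv (v n) (a n) ≤ v n (z n) * nv (v n) (b n) := by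
  obtain ⟨i0, -⟩ := Function.ne_iff.1 ha
  obtain ⟨j0, -⟩ := Function.ne_iff.1 hb
  have : Nonempty ι := ⟨i0⟩
  choose i hi using fun n => exists_nv_eq (v n) (a n)
  obtain ⟨k, -, hk⟩ := exists_eventually_eq U (s := Set.univ) Set.finite_univ (f := i)
    (Eventually.of_forall fun n => Set.mem_univ _)
  obtain ⟨j, -, hj⟩ := Finset.exists_mem_eq_sup (Finset.univ : Finset ι') ⟨j0, Finset.mem_univ _⟩
    fun j => O.valuation (gm U fun n => b n j)
  have h1 : O.valuation (gm U fun n => a n k) ≤ O.valuation (gm U fun n => b n j) := by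
    refine le_trans ?_ (h.trans (le_of_eq hj))
    exact Finset.le_sup (f := fun i => O.valuation (gm U fun n => a n i)) (Finset.mem_univ k)
  obtain ⟨c, hc⟩ := (O.valuation_le_iff _ _).1 h1
  obtain ⟨z, hz⟩ := gm_surj U (c : UP U Qb)
  refine ⟨z, hz ▸ c.2, ?_⟩
  rw [← hz, ← gm_mul, gm_eq_iff] at hc
  filter_upwards [hk, hc] with n h2 h3
  rw [← hi n, h2, ← h3, map_mul]
  exact mul_le_mul_of_nonneg_left (le_nv _ _ _) ((v n).nonneg _)

/-- Transfer from the valuations trivial on `Qb` to heights. -/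
theorem transfer {D ι ι' : Type} [Fintype ι] [Fintype ι'] (a : D → ι → Qb) (b : D → ι' → Qb)
    (ha : ∀ d, a d ≠ 0) (hb : ∀ d, b d ≠ 0)
    (h : ∀ (U : Ultrafilter ℕ) (d : ℕ → D) (O : VS Qb (UP U Qb)),
      vs O.1 (fun i => gm U fun n => a (d n) i) ≤ vs O.1 fun j => gm U fun n => b (d n) j) :
    ∃ C : ℝ, ∀ d, hv (a d) ≤ hv (b d) + C := by
  have hU : ((hyperfilter ℕ : Ultrafilter ℕ) : Filter ℕ) ≤ atTop := Nat.hyperfilter_le_atTop
  have hpos : ∀ (v : AbsoluteValue Qb ℝ) d, 0 < nv v (b d) := fun v d => nrm_pos v (H2_vec_ne (hb d))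
  have h1 : ∃ C : ℕ, ∀ d p v, IsPl p v → nv v (a d) ≤ C * nv v (b d) := by
    by_contra hn
    push Not at hn
    choose d p v hv hlt using hn
    obtain ⟨O, hO⟩ := U2_vs_bdd (hyperfilter ℕ) p v hv
    obtain ⟨z, hz, hle⟩ := U2_key (hyperfilter ℕ) (fun n => a (d n)) (fun n => b (d n)) (ha _) (hb _)
      v O.1 (h _ d O)
    obtain ⟨C, hC⟩ := (hO z).1 hz
    have h3 : ∀ᶠ n : ℕ in (hyperfilter ℕ : Ultrafilter ℕ), C ≤ (n : ℝ) :=
      hU (tendsto_natCast_atTop_atTop.eventually_ge_atTop C)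
    obtain ⟨n, h4, h5, h6⟩ := (hle.and (hC.and h3)).exists
    exact absurd (hlt n) (not_lt.2 (h4.trans
      (mul_le_mul_of_nonneg_right (h5.trans h6) (hpos _ _).le)))
  have h2 : ∃ N : ℕ, ∀ d p v, IsPl p v → N ≤ p → nv v (a d) ≤ nv v (b d) := by
    by_contra hn
    push Not at hn
    choose d p v hv hle hlt using hn
    have hp : Tendsto p (hyperfilter ℕ : Ultrafilter ℕ) atTop :=
      (tendsto_atTop_mono hle tendsto_id).mono_left hU
    obtain ⟨O, hO, -⟩ := exists_vs_one (hyperfilter ℕ) p v hv hp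
    obtain ⟨z, hz, hle'⟩ := U2_key (hyperfilter ℕ) (fun n => a (d n)) (fun n => b (d n)) (ha _)
      (hb _) v O.1 (h _ d O)
    obtain ⟨n, h4, h5⟩ := (hle'.and ((hO z).1 hz)).exists
    exact absurd (hlt n) (not_lt.2 (h4.trans (mul_le_of_le_one_left (hpos _ _).le h5)))
  obtain ⟨C, hC⟩ := h1
  obtain ⟨N, hN⟩ := h2
  refine ⟨N * Real.log (C + 1), fun d => ?_⟩
  rw [add_comm]
  refine ht_le_of_local_bad N (le_add_of_nonneg_left (Nat.cast_nonneg C)) (H2_vec_ne (ha d))
    (H2_vec_ne (hb d)) fun p v hv => ?_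
  split_ifs with hp
  · exact (hC d p v hv).trans (mul_le_mul_of_nonneg_right (by linarith) (hpos v d).le)
  · rw [one_mul]
    exact hN d p v hv (not_lt.1 hp)

/-- the field of the elements whose height lies in a given growth class -/
theorem U2_field (U : Ultrafilter ℕ) (B : (ℕ → ℝ) → Prop)
    (hm : ∀ f g, (∀ n, 0 ≤ f n) → (∀ᶠ n in (U : Filter ℕ), f n ≤ g n) → B g → B f)
    (hadd : ∀ f g, B f → B g → B fun n => f n + g n) (hcst : ∀ c, B fun _ => c) :
    ∃ F : IntermediateField Qb (UP U Qb), IsAlgClosed F ∧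
      ∀ x : ℕ → Qb, gm U x ∈ F ↔ B fun n => h1 (x n) := by
  obtain ⟨S, hS⟩ := U2_sub U (fun x => B fun n => h1 (x n))
    (fun x y h hx => hm _ _ (fun n => h1_nonneg _) (h.mono fun n e => by rw [e]) hx)
    (fun x y hx hy => hm _ _ (fun n => h1_nonneg _) (Eventually.of_forall fun n => h1_add_le _ _)
      (hadd _ _ (hadd _ _ hx hy) (hcst _)))
    (fun x y hx hy => hm _ _ (fun n => h1_nonneg _) (Eventually.of_forall fun n => h1_mul_le _ _)
      (hadd _ _ hx hy))
    (fun c => hcst _)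
  have hsum : ∀ (I : Finset ℕ) (f : ℕ → ℕ → ℝ), (∀ i ∈ I, B (f i)) → B fun n => ∑ i ∈ I, f i n := by
    intro I f
    induction I using Finset.induction_on with
    | empty => exact fun _ => by simpa using hcst 0
    | insert i I hi ih =>
      intro hf
      simp only [Finset.sum_insert hi]
      exact hadd _ _ (hf i (Finset.mem_insert_self _ _))
        (ih fun j hj => hf j (Finset.mem_insert_of_mem hj))
  let F : IntermediateField Qb (UP U Qb) := S.toIntermediateField fun z hz => by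
    obtain ⟨x, rfl⟩ := gm_surj U z
    rw [← gm_inv, hS]
    simpa only [h1_inv] using (hS x).1 hz
  have hF : ∀ x : ℕ → Qb, gm U x ∈ F ↔ B fun n => h1 (x n) := hS
  refine ⟨F, IsAlgClosed.of_exists_root _ fun q hq hirr => ?_, hF⟩
  obtain ⟨z, hz⟩ := IsAlgClosed.exists_aeval_eq_zero (UP U Qb) q hirr.degree_pos.ne'
  obtain ⟨x, rfl⟩ := gm_surj U z
  choose y hy using fun i : ℕ => gm_surj U ((q.coeff i : F) : UP U Qb)
  have hyB : ∀ i, B fun n => h1 (y i n) := fun i => (hF _).1 (hy i ▸ (q.coeff i).2)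
  have e1 : ∀ᶠ n in (U : Filter ℕ), y q.natDegree n ≠ 0 := by
    rw [Ultrafilter.eventually_not, ← gm_eq_zero_iff, hy, hq.coeff_natDegree]
    simp
  have e2 : ∀ᶠ n in (U : Filter ℕ), ∑ i ∈ Finset.range (q.natDegree + 1), y i n * x n ^ i = 0 := by
    rw [← gm_eq_zero_iff, gm_sum, ← hz, Polynomial.aeval_eq_sum_range]
    refine Finset.sum_congr rfl fun i _ => ?_
    rw [gm_mul, gm_pow, hy, Algebra.smul_def]
    rfl
  have hx : gm U x ∈ F := by
    rw [hF]
    refine hm _ _ (fun n => h1_nonneg _) ?_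
      (hadd _ _ (hsum (Finset.range (q.natDegree + 1)) _ fun i _ => hyB i) (hcst (Real.log 2)))
    filter_upwards [e1, e2] with n h1n h2n
    let P : Polynomial Qb := ∑ i ∈ Finset.range (q.natDegree + 1), Polynomial.monomial i (y i n)
    have hc : ∀ i, P.coeff i = if i ∈ Finset.range (q.natDegree + 1) then y i n else 0 := by
      intro i
      simp only [P, Polynomial.finsetSum_coeff, Polynomial.coeff_monomial]
      rw [Finset.sum_ite_eq' ]
    have hP : P ≠ 0 := fun h0 => h1n (by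
      have := hc q.natDegree
      rw [h0, Polynomial.coeff_zero, if_pos (Finset.self_mem_range_succ _)] at this
      exact this.symm)
    have hr : P.IsRoot (x n) := by
      rw [Polynomial.IsRoot, Polynomial.eval_finsetSum]
      simpa only [Polynomial.eval_monomial] using h2n
    refine (h1_root_le hP hr).trans (add_le_add_left ((ht_mono fun c hc' => ?_).trans
      (H2_ins (Finset.range (q.natDegree + 1)) fun i => y i n)) _)
    obtain ⟨i, hi, rfl⟩ := Polynomial.mem_coeffs_iff.1 hc'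
    rw [Polynomial.mem_support_iff] at hi
    rw [hc] at hi ⊢
    split_ifs at hi ⊢ with h3
    · exact Finset.mem_insert_of_mem (Finset.mem_image_of_mem _ h3)
    · exact absurd rfl hi
  refine ⟨⟨_, hx⟩, (algebraMap F (UP U Qb)).injective ?_⟩
  rw [map_zero, ← hz, ← Polynomial.aeval_algebraMap_apply_eq_algebraMap_eval]
  rfl

/-- the field of elements of height `o(H)` -/
theorem exists_small (U : Ultrafilter ℕ) (H : ℕ → ℝ) (hH : Tendsto H (U : Filter ℕ) atTop) :
    ∃ F : IntermediateField Qb (UP U Qb), IsAlgClosed F ∧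
      ∀ x : ℕ → Qb, gm U x ∈ F ↔ Tendsto (fun n => h1 (x n) / H n) (U : Filter ℕ) (𝓝 0) :=
  U2_field U (fun f => Tendsto (fun n => f n / H n) (U : Filter ℕ) (𝓝 0))
    (fun f g h0 hle hg => by
      refine squeeze_zero' ?_ ?_ hg
      · filter_upwards [hH.eventually_ge_atTop 0] with n h
        exact div_nonneg (h0 n) h
      · filter_upwards [hH.eventually_ge_atTop 0, hle] with n h h'
        exact div_le_div_of_nonneg_right h' h)
    (fun f g hf hg => by simpa only [add_div, add_zero] using hf.add hg)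
    (fun c => hH.const_div_atTop c)

/-- the field of elements of height `O(H)` -/
theorem exists_fin (U : Ultrafilter ℕ) (H : ℕ → ℝ) (hH : Tendsto H (U : Filter ℕ) atTop) :
    ∃ F : IntermediateField Qb (UP U Qb), IsAlgClosed F ∧
      ∀ x : ℕ → Qb, gm U x ∈ F ↔ ∃ c : ℝ, ∀ᶠ n in (U : Filter ℕ), h1 (x n) ≤ c * H n :=
  U2_field U (fun f => ∃ c : ℝ, ∀ᶠ n in (U : Filter ℕ), f n ≤ c * H n)
    (fun f g _ hle ⟨c, hg⟩ => ⟨c, by
      filter_upwards [hle, hg] with n h h'
      exact h.trans h'⟩)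
    (fun f g ⟨c, hf⟩ ⟨c', hg⟩ => ⟨c + c', by
      filter_upwards [hf, hg] with n h h'
      rw [add_mul]
      exact add_le_add h h'⟩)
    (fun c => ⟨1, by
      filter_upwards [hH.eventually_ge_atTop c] with n h
      rwa [one_mul]⟩)

end Pool.Agent.E6b
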