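import Mathlib

open scoped NNReal TensorProduct IntermediateField BigOperators Classical Topology
open Filter

namespace Pool.Agent.E6b

/-- functions that agree with a polynomial for large arguments -/
def V3EP {I : Type} (f : (I → ℕ) → ℚ) : Prop :=
  ∃ (P : MvPolynomial I ℚ) (b₀ : ℕ), ∀ b : I → ℕ, (∀ i, b₀ ≤ b i) →
    f b = MvPolynomial.eval (fun i => (b i : ℚ)) P

theorem V3EP.congr {I : Type} {f g : (I → ℕ) → ℚ} (h : V3EP f) (b₁ : ℕ)
    (e : ∀ b : I → ℕ, (∀ i, b₁ ≤ b i) → g b = f b) : V3EP g := by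
  obtain ⟨P, b₀, h⟩ := h
  exact ⟨P, max b₀ b₁, fun b hb => (e b fun i => (le_max_right _ _).trans (hb i)).trans
    (h b fun i => (le_max_left _ _).trans (hb i))⟩

theorem V3EP.sub {I : Type} {f g : (I → ℕ) → ℚ} (h : V3EP f) (h' : V3EP g) :
    V3EP fun b => f b - g b := by
  obtain ⟨P, b₀, h⟩ := h
  obtain ⟨Q, b₁, h'⟩ := h'
  refine ⟨P - Q, max b₀ b₁, fun b hb => ?_⟩
  rw [map_sub, ← h b fun i => (le_max_left _ _).trans (hb i),
    ← h' b fun i => (le_max_right _ _).trans (hb i)]

theorem V3EP.prod {I J : Type} [Fintype J] {f : J → (I → ℕ) → ℚ} (h : ∀ j, V3EP (f j)) :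
    V3EP fun b => ∏ j, f j b := by
  choose P b₀ h using h
  refine ⟨∏ j, P j, ∑ j, b₀ j, fun b hb => ?_⟩
  rw [map_prod]
  exact Finset.prod_congr rfl fun j _ => h j b fun i =>
    (Finset.single_le_sum (f := b₀) (fun _ _ => Nat.zero_le _) (Finset.mem_univ j)).trans (hb i)

theorem V3_multichoose {I : Type} (i : I) (k g : ℕ) :
    V3EP fun b : I → ℕ => (Nat.multichoose k (b i - g) : ℚ) := by
  rcases k with _ | k
  · refine ⟨0, g + 1, fun b hb => ?_⟩
    obtain ⟨c, hc⟩ : ∃ c, b i - g = c + 1 := ⟨b i - g - 1, by have := hb i; omega⟩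
    simp [hc]
  · refine ⟨Polynomial.aeval (MvPolynomial.X i - MvPolynomial.C (g : ℚ) + MvPolynomial.C (k : ℚ))
      (descPochhammer ℚ k) * MvPolynomial.C ((k.factorial : ℚ)⁻¹), g, fun b hb => ?_⟩
    have h1 : Nat.multichoose (k + 1) (b i - g) = (b i - g + k).choose k := by
      rw [Nat.multichoose_eq, show k + 1 + (b i - g) - 1 = b i - g + k by omega,
        Nat.choose_symm_add]
    have h2 : ∀ (x : I → ℚ) (q : MvPolynomial I ℚ) (p : Polynomial ℚ),
        MvPolynomial.eval x (Polynomial.aeval q p) = p.eval (MvPolynomial.eval x q) := by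
      intro x q p
      rw [← MvPolynomial.coe_aeval_eq_eval, RingHom.coe_coe, ← Polynomial.aeval_algHom_apply,
        Polynomial.coe_aeval_eq_eval]
    simp only [h1, Nat.cast_choose_eq_descPochhammer_div, map_mul, h2, map_add, map_sub,
      MvPolynomial.eval_X, MvPolynomial.eval_C, Nat.cast_add, Nat.cast_sub (hb i), div_eq_mul_inv]

theorem V3_card {ι : Type} [Fintype ι] (n : ℕ) (g : ι → ℕ) (h : ∑ j, g j ≤ n) :
    ((Finset.piAntidiag Finset.univ n).filter fun m : ι → ℕ => g ≤ m).card =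
      Nat.multichoose (Fintype.card ι) (n - ∑ j, g j) := by
  have h1 : ∀ c, (Finset.piAntidiag (Finset.univ : Finset ι) c).card =
      Nat.multichoose (Fintype.card ι) c := fun c => by
    have := Finset.card_finsuppAntidiag_nat_eq_multichoose (s := (Finset.univ : Finset ι)) c
    rwa [Finset.finsuppAntidiag, Finset.card_map, Finset.card_attach, Finset.card_univ] at this
  rw [← h1]
  symm
  refine Finset.card_bij (fun m _ => m + g) (fun m hm => ?_)
    (fun _ _ _ _ e => add_right_cancel e) (fun m hm => ?_)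
  · simp only [Finset.mem_piAntidiag, Finset.mem_univ, implies_true, and_true] at hm
    simp only [Finset.mem_filter, Finset.mem_piAntidiag, Finset.mem_univ, implies_true, and_true]
    refine ⟨?_, le_add_self⟩
    have : ∑ j, (m + g) j = ∑ j, m j + ∑ j, g j := Finset.sum_add_distrib
    have hm' : ∑ j, m j = n - ∑ j, g j := hm
    change ∑ j, (m + g) j = n
    omega
  · simp only [Finset.mem_filter, Finset.mem_piAntidiag, Finset.mem_univ, implies_true,
      and_true] at hm
    obtain ⟨c, rfl⟩ := exists_add_of_le hm.2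
    refine ⟨c, ?_, add_comm _ _⟩
    simp only [Finset.mem_piAntidiag, Finset.mem_univ, implies_true, and_true]
    have : ∑ j, (g + c) j = ∑ j, g j + ∑ j, c j := Finset.sum_add_distrib
    have hm' : ∑ j, (g + c) j = n := hm.1
    change ∑ j, c j = _
    omega

/-- exponent vectors of a given multidegree -/
noncomputable def V3T {I : Type} [Fintype I] (ι : I → Type) [∀ i, Fintype (ι i)] (b : I → ℕ) :
    Finset (∀ i, ι i → ℕ) :=
  Fintype.piFinset fun i => Finset.piAntidiag Finset.univ (b i)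

theorem V3_mem {I : Type} [Fintype I] {ι : I → Type} [∀ i, Fintype (ι i)] {b : I → ℕ}
    {m : ∀ i, ι i → ℕ} : m ∈ V3T ι b ↔ ∀ i, ∑ j, m i j = b i := by
  simp only [V3T, Fintype.mem_piFinset, Finset.mem_piAntidiag, Finset.mem_univ, implies_true,
    and_true]

theorem V3_count {I : Type} [Fintype I] {ι : I → Type} [∀ i, Fintype (ι i)]
    (G : Finset (∀ i, ι i → ℕ)) : ∀ g₀ : ∀ i, ι i → ℕ,
    V3EP fun b => (((V3T ι b).filter fun m => g₀ ≤ m ∧ ∀ g ∈ G, ¬ g ≤ m).card : ℚ) := by
  induction G using Finset.induction_on with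
  | empty =>
    intro g₀
    refine (V3EP.prod fun i => V3_multichoose i (Fintype.card (ι i)) (∑ j, g₀ i j)).congr
      (∑ i, ∑ j, g₀ i j) fun b hb => ?_
    have h1 : ((V3T ι b).filter fun m => g₀ ≤ m ∧ ∀ g ∈ (∅ : Finset (∀ i, ι i → ℕ)), ¬ g ≤ m) =
        Fintype.piFinset fun i =>
          (Finset.piAntidiag Finset.univ (b i)).filter fun m : ι i → ℕ => g₀ i ≤ m := by
      ext m
      simp only [V3T, Finset.mem_filter, Fintype.mem_piFinset, Finset.notMem_empty,
        IsEmpty.forall_iff, implies_true, and_true, forall_and]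
      rfl
    rw [h1, Fintype.card_piFinset, Nat.cast_prod]
    refine Finset.prod_congr rfl fun i _ => ?_
    rw [V3_card]
    exact (Finset.single_le_sum (f := fun i => ∑ j, g₀ i j) (fun _ _ => Nat.zero_le _)
      (Finset.mem_univ i)).trans (hb i)
  | insert a G _ ih =>
    intro g₀
    refine ((ih g₀).sub (ih (g₀ ⊔ a))).congr 0 fun b _ => ?_
    rw [eq_sub_iff_add_eq, ← Nat.cast_add, Nat.cast_inj, add_comm,
      ← Finset.card_filter_add_card_filter_not (s := (V3T ι b).filter fun m =>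
        g₀ ≤ m ∧ ∀ g ∈ G, ¬ g ≤ m) (fun m => a ≤ m), Finset.filter_filter, Finset.filter_filter]
    congr 2
    · ext m
      simp only [Finset.mem_filter, sup_le_iff]
      tauto
    · ext m
      simp only [Finset.mem_filter, Finset.forall_mem_insert]
      tauto

theorem V3_rank {κ Ω M S : Type} [Field κ] [AddCommGroup Ω] [Module κ Ω] [LinearOrder S]
    (r : M → S) (hr : Function.Injective r) (v : M → Ω) (T : Finset M) :
    Module.finrank κ (Submodule.span κ (v '' T)) =
      (T.filter fun m => v m ∉ Submodule.span κ (v '' {m' | m' ∈ T ∧ r m' < r m})).card := by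
  induction T using Finset.induction_on_max_value r with
  | empty =>
    rw [Finset.coe_empty, Set.image_empty, Submodule.span_empty, finrank_bot, Finset.filter_empty,
      Finset.card_empty]
  | insert a T ha hmax ih =>
    have hlt : ∀ m ∈ T, r m < r a := fun m hm =>
      lt_of_le_of_ne (hmax m hm) fun e => ha (hr e ▸ hm)
    have h1 : {m' | m' ∈ insert a T ∧ r m' < r a} = (T : Set M) := by
      ext m
      simp only [Finset.mem_insert, Set.mem_ofPred_eq, Finset.mem_coe]
      exact ⟨fun h => h.1.resolve_left fun e => lt_irrefl _ (e ▸ h.2),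
        fun h => ⟨Or.inr h, hlt m h⟩⟩
    have h2 : ∀ m ∈ T, {m' | m' ∈ insert a T ∧ r m' < r m} = {m' | m' ∈ T ∧ r m' < r m} := by
      intro m hm
      ext m'
      simp only [Finset.mem_insert, Set.mem_ofPred_eq]
      exact ⟨fun h => ⟨h.1.resolve_left fun e => lt_asymm (hlt m hm) (e ▸ h.2), h.2⟩,
        fun h => ⟨Or.inr h.1, h.2⟩⟩
    have h3 : (T.filter fun m =>
        v m ∉ Submodule.span κ (v '' {m' | m' ∈ insert a T ∧ r m' < r m})) =
        T.filter fun m => v m ∉ Submodule.span κ (v '' {m' | m' ∈ T ∧ r m' < r m}) :=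
      Finset.filter_congr fun m hm => by rw [h2 m hm]
    rw [Finset.filter_insert, h1, h3, Finset.coe_insert, Set.image_insert_eq]
    split_ifs with h
    · rw [Submodule.span_insert_eq_span h, ih]
    · rw [Finset.card_insert_of_notMem fun hm => ha (Finset.mem_filter.1 hm).1, ← ih,
        Submodule.span_insert]
      have : FiniteDimensional κ (Submodule.span κ (v '' T)) :=
        FiniteDimensional.span_of_finite κ (T.finite_toSet.image v)
      have h4 := Submodule.finrank_sup_add_finrank_inf_eq (Submodule.span κ {v a})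
        (Submodule.span κ (v '' T))
      rw [(Submodule.disjoint_span_singleton_of_notMem h).symm.eq_bot, finrank_bot,
        finrank_span_singleton (v := v a) fun e => h (by rw [e]; exact Submodule.zero_mem _)] at h4
      omega

theorem V3_pow {κ Ω ι : Type} [Field κ] [CommRing Ω] [Algebra κ Ω] [Fintype ι] (L : ι → Ω)
    (n : ℕ) : Submodule.span κ (Set.range L) ^ n =
      Submodule.span κ {x | ∃ m : ι → ℕ, ∑ j, m j = n ∧ ∏ j, L j ^ m j = x} := by
  have key : ∀ (m : ι → ℕ) (j : ι), ∑ k, (m + Pi.single j 1 : ι → ℕ) k = ∑ k, m k + 1 ∧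
      ∏ k, L k ^ (m + Pi.single j 1 : ι → ℕ) k = (∏ k, L k ^ m k) * L j := by
    intro m j
    constructor
    · simp [Finset.sum_add_distrib]
    · simp only [Pi.add_apply, pow_add, Finset.prod_mul_distrib]
      congr 1
      rw [Finset.prod_eq_single j] <;> simp +contextual
  induction n with
  | zero =>
    rw [pow_zero, Submodule.one_eq_span_one_set]
    congr 1
    ext x
    rw [Set.mem_one]
    constructor
    · rintro rfl
      exact ⟨0, by simp, by simp⟩
    · rintro ⟨m, hm, rfl⟩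
      exact Finset.prod_eq_one fun j _ => by
        rw [Finset.sum_eq_zero_iff.1 hm j (Finset.mem_univ j), pow_zero]
  | succ n ih =>
    rw [pow_succ, ih, Submodule.span_mul_span]
    congr 1
    ext x
    rw [Set.mem_mul]
    constructor
    · rintro ⟨_, ⟨m, hm, rfl⟩, _, ⟨j, rfl⟩, rfl⟩
      exact ⟨m + Pi.single j 1, by rw [(key m j).1, hm], (key m j).2⟩
    · rintro ⟨m, hm, rfl⟩
      obtain ⟨j, -, hj⟩ := Finset.exists_ne_zero_of_sum_ne_zero (s := Finset.univ) (f := m)
        (by omega)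
      have hle : (Pi.single j 1 : ι → ℕ) ≤ m := by
        intro k
        by_cases e : k = j
        · subst e
          rw [Pi.single_eq_same]
          exact Nat.pos_of_ne_zero hj
        · rw [Pi.single_eq_of_ne e]
          exact Nat.zero_le _
      obtain ⟨c, rfl⟩ := exists_add_of_le hle
      rw [add_comm] at hm ⊢
      rw [(key c j).1] at hm
      exact ⟨_, ⟨c, by omega, rfl⟩, _, ⟨j, rfl⟩, (key c j).2.symm⟩

theorem V3_span {κ Ω : Type} [Field κ] [CommRing Ω] [Algebra κ Ω] {I : Type} [Fintype I]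
    {ι : I → Type} [∀ i, Fintype (ι i)] (L : ∀ i, ι i → Ω) (b : I → ℕ) :
    ∏ i, Submodule.span κ (Set.range (L i)) ^ b i =
      Submodule.span κ ((fun m : ∀ i, ι i → ℕ => ∏ i, ∏ j, L i j ^ m i j) '' V3T ι b) := by
  simp only [V3_pow, Submodule.prod_span]
  congr 1
  ext x
  rw [Set.mem_fintype_prod]
  constructor
  · rintro ⟨f, hf, rfl⟩
    choose m hm using hf
    exact ⟨m, V3_mem.2 fun i => (hm i).1, Finset.prod_congr rfl fun i _ => (hm i).2⟩
  · rintro ⟨m, hm, rfl⟩
    exact ⟨fun i => ∏ j, L i j ^ m i j, fun i => ⟨m i, V3_mem.1 hm i, rfl⟩, rfl⟩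

/-- Multigraded Hilbert polynomial. -/
theorem hilbert_multi {κ Ω : Type} [Field κ] [CommRing Ω] [Algebra κ Ω] {I : Type} [Fintype I]
    {ι : I → Type} [∀ i, Fintype (ι i)] (L : ∀ i, ι i → Ω) :
    ∃ (P : MvPolynomial I ℚ) (b₀ : ℕ), ∀ b : I → ℕ, (∀ i, b₀ ≤ b i) →
      (Module.finrank κ ↥(∏ i, Submodule.span κ (Set.range (L i)) ^ b i) : ℚ) =
        MvPolynomial.eval (fun i => (b i : ℚ)) P := by
  let e := (Fintype.equivFin (Σ i, ι i)).symm
  let r : (∀ i, ι i → ℕ) → Lex (Fin (Fintype.card (Σ i, ι i)) → ℕ) :=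
    fun m => toLex fun s => m (e s).1 (e s).2
  have hr : Function.Injective r := fun m m' h => by
    funext i j
    have h1 := congrFun (toLex.injective h) (e.symm ⟨i, j⟩)
    have h2 : ∀ s : Σ i, ι i, s = ⟨i, j⟩ → m s.1 s.2 = m' s.1 s.2 → m i j = m' i j := by
      rintro _ rfl h
      exact h
    exact h2 _ (e.apply_symm_apply _) h1
  have hadd : ∀ m n, r (m + n) = r m + r n := fun _ _ => rfl
  let v : (∀ i, ι i → ℕ) → Ω := fun m => ∏ i, ∏ j, L i j ^ m i j
  have hv : ∀ m n, v (m + n) = v n * v m := fun m n => by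
    simp only [v, Pi.add_apply, pow_add, Finset.prod_mul_distrib, mul_comm]
  let U : Set (∀ i, ι i → ℕ) := {m | v m ∈ Submodule.span κ
    (v '' {m' | m' ∈ V3T ι (fun i => ∑ j, m i j) ∧ r m' < r m})}
  have hU : ∀ m ∈ U, ∀ n, m + n ∈ U := by
    intro m hm n
    have h0 : v m ∈ Submodule.span κ
      (v '' {m' | m' ∈ V3T ι (fun i => ∑ j, m i j) ∧ r m' < r m}) := hm
    have h1 := Submodule.mem_map_of_mem (f := LinearMap.mulLeft κ (v n)) h0
    rw [Submodule.map_span, LinearMap.mulLeft_apply, ← hv] at h1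
    refine Submodule.span_mono ?_ h1
    rintro _ ⟨_, ⟨m', ⟨h2, h3⟩, rfl⟩, rfl⟩
    refine ⟨m' + n, ⟨V3_mem.2 fun i => ?_, ?_⟩, hv m' n⟩
    · simp only [Pi.add_apply, Finset.sum_add_distrib, V3_mem.1 h2 i]
    · rw [hadd, hadd]
      exact add_lt_add_left h3 _
  have hfin : {m | Minimal (· ∈ U) m}.Finite :=
    WellQuasiOrderedLE.finite_of_isAntichain (setOfPred_minimal_antichain _)
  have hG : ∀ m, m ∈ U ↔ ∃ g ∈ hfin.toFinset, g ≤ m := by
    intro m
    constructor
    · intro hm
      obtain ⟨g, h1, h2⟩ := exists_minimal_le_of_wellFoundedLT (· ∈ U) m hm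
      exact ⟨g, hfin.mem_toFinset.2 h2, h1⟩
    · rintro ⟨g, h1, h2⟩
      obtain ⟨c, rfl⟩ := exists_add_of_le h2
      exact hU g (hfin.mem_toFinset.1 h1).1 c
  refine (V3_count hfin.toFinset 0).congr 0 fun b _ => ?_
  rw [V3_span, V3_rank r hr]
  congr 2
  refine Finset.filter_congr fun m hm => ?_
  have h1 : (fun i => ∑ j, m i j) = b := funext (V3_mem.1 hm)
  subst h1
  refine (not_congr (hG m)).trans ?_
  simp only [not_exists, not_and, zero_le, true_and]

end Pool.Agent.E6b
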