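import Pool.Agent.E6b.V1

open scoped NNReal TensorProduct IntermediateField BigOperators Classical Topology
open Filter

namespace Pool.Agent.E6b

open scoped nonZeroDivisors in
/-- A finitely generated domain in characteristic zero has a nonzero conductor. -/
theorem V4_cond {κ S K : Type} [Field κ] [CharZero κ] [CommRing S] [IsDomain S] [Algebra κ S]
    [Algebra.FiniteType κ S] [Field K] [Algebra S K] [IsFractionRing S K] :
    ∃ γ : S, γ ≠ 0 ∧ ∀ x : K, IsIntegral S x → ∃ s : S, algebraMap S K s = algebraMap S K γ * x := by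
  obtain ⟨n, g, hinj, hfin⟩ := exists_finite_inj_algHom_of_fg κ S
  let A := MvPolynomial (Fin n) κ
  let : Algebra A S := g.toRingHom.toAlgebra
  have : Module.Finite A S := hfin
  let : Algebra A K := ((algebraMap S K).comp g.toRingHom).toAlgebra
  have : IsScalarTower A S K := IsScalarTower.of_algebraMap_eq fun _ => rfl
  have : FaithfulSMul A S := (faithfulSMul_iff_algebraMap_injective A S).mpr hinj
  have : FaithfulSMul A K := (faithfulSMul_iff_algebraMap_injective A K).mpr
    ((IsFractionRing.injective S K).comp hinj)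
  let : Algebra (FractionRing A) K := FractionRing.liftAlgebra A K
  have : IsScalarTower A (FractionRing A) K := FractionRing.isScalarTower_liftAlgebra A K
  have : Module.Finite (FractionRing A) K := Module.Finite.of_isLocalization A S A⁰
  have : CharZero (FractionRing A) :=
    charZero_of_injective_algebraMap (IsFractionRing.injective A (FractionRing A))
  have : Module.Finite A (integralClosure A K) :=
    IsIntegralClosure.finite A (FractionRing A) K (integralClosure A K)
  obtain ⟨T, hT⟩ := (inferInstance : Module.Finite A (integralClosure A K)).fg_top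
  obtain ⟨b, hb⟩ := IsLocalization.exist_integer_multiples (M := S⁰) (S := K) T
    (fun c : integralClosure A K => (c : K))
  refine ⟨b, nonZeroDivisors.coe_ne_zero b, fun x hx => ?_⟩
  have hxA : IsIntegral A x := isIntegral_trans x hx
  have hmem : (⟨x, hxA⟩ : integralClosure A K) ∈ Submodule.span A (T : Set (integralClosure A K)) := by
    rw [hT]; trivial
  have key : ∀ y ∈ Submodule.span A (T : Set (integralClosure A K)),
      ∃ s : S, algebraMap S K s = algebraMap S K b * (y : K) := by
    intro y hy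
    induction hy using Submodule.span_induction with
    | mem y hy =>
      obtain ⟨s, hs⟩ := hb y hy
      exact ⟨s, by rw [hs, Algebra.smul_def]⟩
    | zero => exact ⟨0, by simp⟩
    | add y z _ _ hy hz =>
      obtain ⟨s, hs⟩ := hy
      obtain ⟨t, ht⟩ := hz
      exact ⟨s + t, by rw [map_add, hs, ht, Subalgebra.coe_add, mul_add]⟩
    | smul a y _ hy =>
      obtain ⟨s, hs⟩ := hy
      refine ⟨algebraMap A S a * s, ?_⟩
      rw [map_mul, hs, Subalgebra.coe_smul, Algebra.smul_def, ← IsScalarTower.algebraMap_apply]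
      ring
  exact key _ hmem

variable {κ Ω : Type} [Field κ] [CharZero κ] [Field Ω] [Algebra κ Ω]

omit [CharZero κ] in
theorem V4_pow_le {M : Submodule κ Ω} {l : VC κ Ω} (h : M ≤ TT l) (k : ℕ) :
    M ^ k ≤ TT (l ^ k) := by
  induction k with
  | zero =>
    rw [pow_zero, pow_zero, Submodule.one_le]
    intro O
    simp
  | succ k ih =>
    rw [pow_succ, pow_succ]
    exact Submodule.mul_le.mpr fun a ha b hb => mul_mem_TT (ih ha) (h hb)

omit [CharZero κ] in
theorem span_prod_le_TT {I : Type} [Fintype I] {ι : I → Type} [∀ i, Fintype (ι i)]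
    (L : ∀ i, ι i → Ω) (hL : ∀ i, L i ≠ 0) (b : I → ℕ) :
    (∏ i, Submodule.span κ (Set.range (L i)) ^ b i) ≤ TT (∏ i, gen κ (L i) ^ b i) := by
  have h : ∀ i, Submodule.span κ (Set.range (L i)) ^ b i ≤ TT (gen κ (L i) ^ b i) := fun i =>
    V4_pow_le (Submodule.span_le.mpr (by
      rintro _ ⟨j, rfl⟩
      exact mem_TT_gen (hL i) j)) _
  have : ∀ s : Finset I, (∏ i ∈ s, Submodule.span κ (Set.range (L i)) ^ b i) ≤
      TT (∏ i ∈ s, gen κ (L i) ^ b i) := by
    intro s
    induction s using Finset.induction_on with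
    | empty =>
      rw [Finset.prod_empty, Finset.prod_empty, Submodule.one_le]
      intro O
      simp
    | insert a s ha ih =>
      rw [Finset.prod_insert ha, Finset.prod_insert ha]
      exact Submodule.mul_le.mpr fun x hx y hy => mul_mem_TT (h a hx) (ih hy)
  exact this _

open MvPolynomial

/-- generators of the multigraded section ring -/
def V4_gens {I : Type} {ι : I → Type} (L : ∀ i, ι i → Ω) : Set (MvPolynomial I Ω) :=
  Set.range fun p : Σ i, ι i => C (L p.1 p.2) * X p.1

omit [CharZero κ] in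
theorem V4_graded {I : Type} [Fintype I] {ι : I → Type} (L : ∀ i, ι i → Ω)
    {p : MvPolynomial I Ω} (hp : p ∈ Algebra.adjoin κ (V4_gens L)) (c : I →₀ ℕ) :
    coeff c p ∈ ∏ i, Submodule.span κ (Set.range (L i)) ^ c i := by
  induction hp using Algebra.adjoin_induction generalizing c with
  | mem p hp =>
    obtain ⟨⟨i, j⟩, rfl⟩ := hp
    simp only [coeff_C_mul, coeff_X]
    split_ifs with h
    · subst h
      rw [mul_one, Finset.prod_eq_single i]
      · simp only [Finsupp.single_eq_same, pow_one]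
        exact Submodule.subset_span ⟨j, rfl⟩
      · intro k _ hk
        rw [Finsupp.single_eq_of_ne hk, pow_zero]
      · simp
    · simp
  | algebraMap r =>
    rw [IsScalarTower.algebraMap_apply κ Ω (MvPolynomial I Ω), algebraMap_eq, coeff_C]
    split_ifs with h
    · subst h
      simp only [Finsupp.coe_zero, Pi.zero_apply, pow_zero, Finset.prod_const_one]
      exact Submodule.algebraMap_mem r
    · simp
  | add p q _ _ hp hq =>
    rw [coeff_add]
    exact Submodule.add_mem _ (hp c) (hq c)
  | mul p q _ _ hp hq =>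
    rw [coeff_mul]
    refine Submodule.sum_mem _ fun x hx => ?_
    have hx' : x.1 + x.2 = c := Finset.HasAntidiagonal.mem_antidiagonal.mp hx
    have := Submodule.mul_mem_mul (hp x.1) (hq x.2)
    rw [← Finset.prod_mul_distrib] at this
    simp only [← pow_add] at this
    rw [← hx']
    exact this

omit [CharZero κ] in
theorem V4_pow_mono {M : Submodule κ Ω} (h : (1 : Ω) ∈ M) {a b : ℕ} (hab : a ≤ b) :
    M ^ a ≤ M ^ b := by
  induction hab with
  | refl => exact le_rfl
  | step _ ih =>
    refine ih.trans fun x hx => ?_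
    rw [pow_succ]
    simpa using Submodule.mul_mem_mul hx h

omit [CharZero κ] in
theorem V4_prod_mono {I : Type} (s : Finset I) {M N : I → Submodule κ Ω} (h : ∀ i, M i ≤ N i) :
    ∏ i ∈ s, M i ≤ ∏ i ∈ s, N i := by
  induction s using Finset.induction_on with
  | empty => simp
  | insert a s ha ih =>
    rw [Finset.prod_insert ha, Finset.prod_insert ha]
    exact Submodule.mul_le.mpr fun x hx y hy => Submodule.mul_mem_mul (h a hx) (ih hy)

omit [CharZero κ] in
theorem V4_top {I : Type} {ι : I → Type} (L : ∀ i, ι i → Ω) (h1 : ∀ i, ∃ j, L i j = 1)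
    (hgen : IntermediateField.adjoin κ (⋃ i, Set.range (L i)) = ⊤)
    (x : FractionRing (MvPolynomial I Ω)) :
    x ∈ IntermediateField.adjoin κ
      (algebraMap (MvPolynomial I Ω) (FractionRing (MvPolynomial I Ω)) '' V4_gens L) := by
  revert x
  set K := FractionRing (MvPolynomial I Ω)
  intro x
  set φ := algebraMap (MvPolynomial I Ω) K with hφ
  set F := IntermediateField.adjoin κ (φ '' V4_gens L)
  have hg : ∀ i j, φ (C (L i j) * X i) ∈ F := fun i j =>
    IntermediateField.subset_adjoin _ _ ⟨_, ⟨⟨i, j⟩, rfl⟩, rfl⟩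
  have hX : ∀ i, φ (X i) ∈ F := fun i => by
    obtain ⟨j, hj⟩ := h1 i
    have := hg i j
    rwa [hj, C_1, one_mul] at this
  have hX0 : ∀ i, φ (X i) ≠ 0 := fun i =>
    (map_ne_zero_iff φ (IsFractionRing.injective _ _)).mpr (X_ne_zero i)
  have hC : ∀ w : Ω, φ (C w) ∈ F := by
    intro w
    have hw : w ∈ IntermediateField.adjoin κ (⋃ i, Set.range (L i)) := by rw [hgen]; trivial
    induction hw using IntermediateField.adjoin_induction with
    | mem w hw =>
      obtain ⟨i, hi⟩ := Set.mem_iUnion.mp hw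
      obtain ⟨j, rfl⟩ := hi
      have := F.div_mem (hg i j) (hX i)
      rwa [map_mul, mul_div_cancel_right₀ _ (hX0 i)] at this
    | algebraMap r =>
      have : φ (C (algebraMap κ Ω r)) = algebraMap κ K r := by
        rw [IsScalarTower.algebraMap_apply κ (MvPolynomial I Ω) K,
          IsScalarTower.algebraMap_apply κ Ω (MvPolynomial I Ω), algebraMap_eq]
      rw [this]
      exact F.algebraMap_mem r
    | add a b _ _ ha hb => rw [map_add, map_add]; exact F.add_mem ha hb
    | inv a _ ha =>
      have : φ (C a⁻¹) = (φ (C a))⁻¹ := map_inv₀ (φ.comp C) a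
      rw [this]
      exact F.inv_mem ha
    | mul a b _ _ ha hb => rw [map_mul, map_mul]; exact F.mul_mem ha hb
  have hP : ∀ p : MvPolynomial I Ω, φ p ∈ F := by
    intro p
    induction p using MvPolynomial.induction_on with
    | C w => exact hC w
    | add p q hp hq => rw [map_add]; exact F.add_mem hp hq
    | mul_X p i hp => rw [map_mul]; exact F.mul_mem hp (hX i)
  obtain ⟨a, b, -, e⟩ := IsFractionRing.div_surjective (A := MvPolynomial I Ω) x
  have := F.div_mem (hP a) (hP b)
  rwa [e] at this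

omit [CharZero κ] in
theorem V4_integral {I : Type} [Fintype I] {ι : I → Type} [∀ i, Fintype (ι i)]
    (L : ∀ i, ι i → Ω) (hL : ∀ i, L i ≠ 0) (b : I → ℕ) {G : Ω}
    (hG : G ∈ TT (∏ i, gen κ (L i) ^ b i))
    (S : Subalgebra κ (FractionRing (MvPolynomial I Ω)))
    (hS : algebraMap (MvPolynomial I Ω) (FractionRing (MvPolynomial I Ω)) '' V4_gens L ⊆ S) :
    IsIntegral S (algebraMap (MvPolynomial I Ω) (FractionRing (MvPolynomial I Ω))
      (C G * ∏ i, X i ^ b i)) := by
  set K := FractionRing (MvPolynomial I Ω)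
  set φ := algebraMap (MvPolynomial I Ω) K with hφ
  have key : φ (C G * ∏ i, X i ^ b i) ∈
      (⨅ V : {V : ValuationSubring K // (S : Set K) ⊆ V.toSubring}, V.1.toSubring) := by
    rw [Subring.mem_iInf]
    rintro ⟨V, hV⟩
    have hκ : ∀ c : κ, algebraMap κ Ω c ∈ V.comap (φ.comp C) := fun r => by
      have : φ (C (algebraMap κ Ω r)) = algebraMap κ K r := by
        rw [IsScalarTower.algebraMap_apply κ (MvPolynomial I Ω) K,
          IsScalarTower.algebraMap_apply κ Ω (MvPolynomial I Ω), algebraMap_eq]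
      rw [ValuationSubring.mem_comap, RingHom.comp_apply, this]
      exact hV (S.algebraMap_mem r)
    let O : VS κ Ω := ⟨V.comap (φ.comp C), hκ⟩
    have h1 : φ (C (G / ((∏ i, gen κ (L i) ^ b i) O : Ωˣ))) ∈ V := hG O
    have h2 : ∀ i, φ (C ((gen κ (L i) O : Ωˣ) : Ω) * X i) ∈ V := fun i => by
      obtain ⟨j, hj⟩ := (gen_spec (κ := κ) (hL i) O).1
      rw [← hj]
      exact hV (hS ⟨_, ⟨⟨i, j⟩, rfl⟩, rfl⟩)
    have h3 : (C G * ∏ i, X i ^ b i : MvPolynomial I Ω) =
        C (G / ((∏ i, gen κ (L i) ^ b i) O : Ωˣ)) *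
          ∏ i, (C ((gen κ (L i) O : Ωˣ) : Ω) * X i) ^ b i := by
      simp only [mul_pow, Finset.prod_mul_distrib, ← map_pow, ← map_prod, ← mul_assoc, ← map_mul]
      congr 2
      have e : (((∏ i, gen κ (L i) ^ b i) O : Ωˣ) : Ω) = ∏ i, ((gen κ (L i) O : Ωˣ) : Ω) ^ b i := by
        simp [Finset.prod_apply]
      rw [← e, div_mul_cancel₀ _ (Units.ne_zero _)]
    rw [h3, map_mul, map_prod]
    refine V.toSubring.mul_mem h1 (V.toSubring.prod_mem fun i _ => ?_)
    rw [map_pow]
    exact V.toSubring.pow_mem (h2 i) _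
  rw [iInf_valuationSubring_superset] at key
  have key' : IsIntegral (Subring.closure (S : Set K)) (φ (C G * ∏ i, X i ^ b i)) := key
  have e : Subring.closure (S : Set K) = S.toSubring := Subring.closure_eq S.toSubring
  rw [e] at key'
  exact key'

/-- Conductor. -/
theorem exists_conductor {I : Type} [Fintype I] {ι : I → Type} [∀ i, Fintype (ι i)]
    (L : ∀ i, ι i → Ω) (h1 : ∀ i, ∃ j, L i j = 1)
    (hgen : IntermediateField.adjoin κ (⋃ i, Set.range (L i)) = ⊤) :
    ∃ (γ : Ω) (c : ℕ), γ ≠ 0 ∧ ∀ (b : I → ℕ), ∀ G ∈ TT (∏ i, gen κ (L i) ^ b i),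
      γ * G ∈ ∏ i, Submodule.span κ (Set.range (L i)) ^ (b i + c) := by
  set K := FractionRing (MvPolynomial I Ω)
  set φ := algebraMap (MvPolynomial I Ω) K with hφ
  have hinj : Function.Injective φ := IsFractionRing.injective _ _
  have hL : ∀ i, L i ≠ 0 := fun i h0 => by
    obtain ⟨j, hj⟩ := h1 i
    rw [h0] at hj
    exact zero_ne_one hj
  let S : Subalgebra κ K := Algebra.adjoin κ (φ '' V4_gens L)
  have hfin : (φ '' V4_gens L).Finite := (Set.finite_range _).image _
  have : Algebra.FiniteType κ S :=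
    (Subalgebra.fg_iff_finiteType S).mp ⟨hfin.toFinset, by rw [hfin.coe_toFinset]⟩
  have : IsFractionRing S K := IsFractionRing.of_field _ _ fun z => by
    obtain ⟨r, hr, s, hs, e⟩ := IntermediateField.mem_adjoin_iff_div.mp (V4_top L h1 hgen z)
    exact ⟨⟨r, hr⟩, ⟨s, hs⟩, e⟩
  have hS : ∀ s ∈ S, ∃ p ∈ Algebra.adjoin κ (V4_gens L), φ p = s := by
    intro s hs
    have e : S = (Algebra.adjoin κ (V4_gens L)).map
        (IsScalarTower.toAlgHom κ (MvPolynomial I Ω) K) := by
      rw [AlgHom.map_adjoin]; rfl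
    rw [e] at hs
    exact hs
  obtain ⟨γ, hγ0, hγ⟩ := V4_cond (κ := κ) (S := S) (K := K)
  obtain ⟨p, hp, hpγ⟩ := hS γ γ.2
  have hp0 : p ≠ 0 := by
    rintro rfl
    exact hγ0 (Subtype.ext (by rw [← hpγ, map_zero]; rfl))
  obtain ⟨e, he⟩ := ne_zero_iff.mp hp0
  refine ⟨coeff e p, ∑ i, e i, he, fun b G hG => ?_⟩
  obtain ⟨s, hs⟩ := hγ _ (V4_integral L hL b hG S Algebra.subset_adjoin)
  obtain ⟨q, hq, hqs⟩ := hS s s.2
  have hqe : q = p * (C G * ∏ i, X i ^ b i) := by
    apply hinj
    rw [map_mul, hqs, hpγ]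
    exact hs
  let b' : I →₀ ℕ := Finsupp.equivFunOnFinite.symm b
  have hmon : (C G * ∏ i, X i ^ b i : MvPolynomial I Ω) = monomial b' G := by
    rw [monomial_eq, Finsupp.prod_fintype _ _ (fun i => pow_zero _)]
    rfl
  have := V4_graded L hq (e + b')
  rw [hqe, hmon, coeff_mul_monomial] at this
  refine V4_prod_mono Finset.univ (fun i => ?_) this
  obtain ⟨j, hj⟩ := h1 i
  refine V4_pow_mono (Submodule.subset_span (s := Set.range (L i)) ⟨j, hj⟩) ?_
  have h2 : e i ≤ ∑ i, e i := Finset.single_le_sum (f := fun i => e i) (fun _ _ => Nat.zero_le _)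
    (Finset.mem_univ i)
  have h3 : (e + b') i = e i + b i := rfl
  omega

end Pool.Agent.E6b
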