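import Mathlib

open scoped BigOperators Classical Topology
open Filter

namespace Pool.Agent.E6b

theorem V5_ratio (k d : ℕ) (hk : k ≤ d) :
    Tendsto (fun a : ℕ => (a : ℝ) ^ k / (a : ℝ) ^ d) atTop (𝓝 (if k = d then 1 else 0)) := by
  split_ifs with h
  · subst h
    refine tendsto_const_nhds.congr' ?_
    filter_upwards [eventually_gt_atTop 0] with a ha
    have : (a : ℝ) ^ k ≠ 0 := by positivity
    rw [div_self this]
  · exact (tendsto_pow_div_pow_atTop_zero (𝕜 := ℝ) (lt_of_le_of_ne hk h)).comp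
      tendsto_natCast_atTop_atTop

theorem V5_lin (b e : ℝ) : Tendsto (fun a : ℕ => ((a : ℝ) * b + e) / a) atTop (𝓝 b) := by
  have h : Tendsto (fun a : ℕ => b + e / (a : ℝ)) atTop (𝓝 (b + 0)) :=
    tendsto_const_nhds.add (tendsto_const_div_atTop_nhds_zero_nat e)
  rw [add_zero] at h
  refine h.congr' ?_
  filter_upwards [eventually_gt_atTop 0] with a ha
  have : (a : ℝ) ≠ 0 := by positivity
  field_simp

theorem V5_asym {I : Type} [Fintype I] (Q : MvPolynomial I ℝ) (d : ℕ) (hd : Q.totalDegree ≤ d)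
    (b e : I → ℝ) :
    Tendsto (fun a : ℕ => MvPolynomial.eval (fun i => (a : ℝ) * b i + e i) Q / (a : ℝ) ^ d) atTop
      (𝓝 (MvPolynomial.eval b (MvPolynomial.homogeneousComponent d Q))) := by
  have e1 : MvPolynomial.eval b (MvPolynomial.homogeneousComponent d Q) =
      ∑ s ∈ Q.support, (Q.coeff s * ∏ i, b i ^ s i) * (if s.degree = d then 1 else 0) := by
    rw [MvPolynomial.homogeneousComponent_apply, map_sum, Finset.sum_filter]
    refine Finset.sum_congr rfl fun s _ => ?_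
    split_ifs
    · rw [MvPolynomial.eval_monomial, Finsupp.prod_fintype _ _ (by simp), mul_one]
    · simp
  rw [e1]
  have h : Tendsto (fun a : ℕ => ∑ s ∈ Q.support,
      (Q.coeff s * ∏ i, (((a : ℝ) * b i + e i) / a) ^ s i) * ((a : ℝ) ^ s.degree / (a : ℝ) ^ d))
      atTop (𝓝 (∑ s ∈ Q.support,
        (Q.coeff s * ∏ i, b i ^ s i) * (if s.degree = d then 1 else 0))) := by
    refine tendsto_finsetSum _ fun s hs => ?_
    refine Tendsto.mul (tendsto_const_nhds.mul ?_) (V5_ratio _ _ ?_)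
    · exact tendsto_finsetProd _ fun i _ => (V5_lin (b i) (e i)).pow _
    · exact (MvPolynomial.le_totalDegree hs).trans hd
  refine h.congr' ?_
  filter_upwards [eventually_gt_atTop 0] with a ha
  have ha' : (a : ℝ) ≠ 0 := by positivity
  rw [MvPolynomial.eval_eq', Finset.sum_div]
  refine Finset.sum_congr rfl fun s _ => ?_
  have : (a : ℝ) ^ s.degree = ∏ i, (a : ℝ) ^ s i := by
    rw [Finset.prod_pow_eq_pow_sum, Finsupp.degree_eq_sum]
  simp only [div_pow]
  rw [Finset.prod_div_distrib, this]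
  have h2 : ∏ i, (a : ℝ) ^ s i ≠ 0 := Finset.prod_ne_zero_iff.2 fun i _ => pow_ne_zero _ ha'
  field_simp

theorem V5_shift (n : ℕ) (c : ℝ) :
    Tendsto (fun a : ℕ => ((a : ℝ) + c) ^ n / (a : ℝ) ^ n) atTop (𝓝 1) := by
  have h := (V5_lin 1 c).pow n
  simp only [mul_one, one_pow, div_pow] at h
  exact h

theorem V5_top_ne {I : Type} {Q : MvPolynomial I ℝ} (hQ : Q ≠ 0) :
    MvPolynomial.homogeneousComponent Q.totalDegree Q ≠ 0 := by
  obtain ⟨s, hs, e⟩ := Finset.exists_mem_eq_sup Q.support (MvPolynomial.support_nonempty.2 hQ)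
    (fun s : I →₀ ℕ => s.sum fun _ e => e)
  intro h
  have := congrArg (MvPolynomial.coeff s) h
  rw [MvPolynomial.coeff_homogeneousComponent, if_pos, MvPolynomial.coeff_zero] at this
  · exact MvPolynomial.mem_support_iff.1 hs this
  · rw [MvPolynomial.totalDegree, e]
    rfl

/-- a polynomial growing at most like `a ^ n` on all shifted rays has total degree at most `n` -/
theorem V5_deg {I : Type} [Fintype I] (Q : MvPolynomial I ℝ) (n : ℕ) (e : I → ℝ)
    (h : ∀ b : I → ℕ, ∃ C : ℝ, ∀ a : ℕ,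
      |MvPolynomial.eval (fun i => (a : ℝ) * b i + e i) Q| ≤ C * ((a : ℝ) + 2) ^ n) :
    Q.totalDegree ≤ n := by
  by_contra hn
  push Not at hn
  have hQ : Q ≠ 0 := by
    rintro rfl
    simp at hn
  apply V5_top_ne hQ
  refine MvPolynomial.funext_set (fun _ => Set.range (Nat.cast : ℕ → ℝ))
    (fun _ => Set.infinite_range_of_injective Nat.cast_injective) fun x hx => ?_
  choose b hb using fun i => hx i (Set.mem_univ i)
  obtain rfl : x = fun i => (b i : ℝ) := funext fun i => (hb i).symm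
  obtain ⟨C, hC⟩ := h b
  rw [map_zero]
  refine tendsto_nhds_unique (V5_asym Q _ le_rfl (fun i => (b i : ℝ)) e) ?_
  have h0 : Tendsto (fun a : ℕ => C * ((((a : ℝ) + 2) ^ n / (a : ℝ) ^ n) *
      ((a : ℝ) ^ n / (a : ℝ) ^ Q.totalDegree))) atTop (𝓝 (C * (1 * 0))) := by
    refine tendsto_const_nhds.mul ((V5_shift n 2).mul ?_)
    have := V5_ratio n _ hn.le
    rwa [if_neg hn.ne] at this
  rw [mul_zero, mul_zero] at h0
  refine squeeze_zero_norm' ?_ h0
  filter_upwards [eventually_gt_atTop 0] with a ha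
  have ha' : (0 : ℝ) < a := by positivity
  rw [Real.norm_eq_abs, abs_div, abs_of_pos (pow_pos ha' _)]
  calc _ ≤ C * ((a : ℝ) + 2) ^ n / (a : ℝ) ^ Q.totalDegree := by gcongr; exact hC a
    _ = _ := by field_simp

/-- removing a boundary term -/
theorem V5_bdry (f g : ℕ → ℕ) (n C : ℕ) (x : ℝ) (hfg : ∀ a, f a ≤ g a)
    (h : ∀ a, (a + 2) * g a ≤ (a + 2) * f a + C * (a + 2) ^ n)
    (hg : Tendsto (fun a : ℕ => (g a : ℝ) / (a : ℝ) ^ n) atTop (𝓝 x)) :
    Tendsto (fun a : ℕ => (f a : ℝ) / (a : ℝ) ^ n) atTop (𝓝 x) := by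
  have h0 : Tendsto (fun a : ℕ => (g a : ℝ) / (a : ℝ) ^ n -
      ((C : ℝ) / a) * (((a : ℝ) + 2) ^ n / (a : ℝ) ^ n)) atTop (𝓝 (x - 0 * 1)) :=
    hg.sub ((tendsto_const_div_atTop_nhds_zero_nat (C : ℝ)).mul (V5_shift n 2))
  rw [zero_mul, sub_zero] at h0
  refine tendsto_of_tendsto_of_tendsto_of_le_of_le' h0 hg ?_ ?_
  · filter_upwards [eventually_gt_atTop 0] with a ha
    have ha' : (0 : ℝ) < a := by positivity
    have h1 : ((a : ℝ) + 2) * g a ≤ ((a : ℝ) + 2) * f a + C * ((a : ℝ) + 2) ^ n := by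
      exact_mod_cast h a
    have h2 : (f a : ℝ) ≤ g a := by exact_mod_cast hfg a
    have h3 : (g a : ℝ) - C / a * ((a : ℝ) + 2) ^ n ≤ f a := by
      have : (a : ℝ) * (g a - f a) ≤ C * ((a : ℝ) + 2) ^ n := by nlinarith
      have h4 : (g a : ℝ) - f a ≤ C * ((a : ℝ) + 2) ^ n / a := by
        rw [le_div_iff₀ ha']; linarith
      have h5 : (C : ℝ) / a * ((a : ℝ) + 2) ^ n = C * ((a : ℝ) + 2) ^ n / a := by ring
      linarith
    rw [← mul_div_assoc, ← sub_div]
    gcongr
  · filter_upwards with a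
    have h2 : (f a : ℝ) ≤ g a := by exact_mod_cast hfg a
    gcongr

end Pool.Agent.E6b
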