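import Pool.Agent.E6b.V2
import Pool.Agent.E6b.V3
import Pool.Agent.E6b.V4
import Pool.Agent.E6b.V5Aux

open scoped NNReal TensorProduct IntermediateField BigOperators Classical Topology
open Filter

namespace Pool.Agent.E6b

section aux
variable {κ Ω : Type} [Field κ] [Field Ω] [Algebra κ Ω]

theorem V5_cst_mul (g h : Ωˣ) : cstC κ (g * h) = cstC κ g * cstC κ h := rfl

theorem V5_cst_one : cstC κ (1 : Ωˣ) = 1 := rfl

theorem V5_cst_pow (g : Ωˣ) (k : ℕ) : cstC κ (g ^ k) = cstC κ g ^ k := rfl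

theorem V5_cst_prod {I : Type} (s : Finset I) (g : I → Ωˣ) :
    cstC κ (∏ i ∈ s, g i) = ∏ i ∈ s, cstC κ (g i) := by
  funext O
  simp [cstC]

theorem V5_one_le_mul {l m : VC κ Ω} (hl : VLe 1 l) (hm : VLe 1 m) : VLe 1 (l * m) := by
  simpa using hl.mul hm

theorem V5_one_le_pow {l : VC κ Ω} (hl : VLe 1 l) (k : ℕ) : VLe 1 (l ^ k) := by
  simpa using hl.pow k

theorem V5_one_le_prod {I : Type} (s : Finset I) {l : I → VC κ Ω} (h : ∀ i ∈ s, VLe 1 (l i)) :
    VLe 1 (∏ i ∈ s, l i) := by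
  simpa using VLe.prod s (l := fun _ => 1) h

theorem V5_le_mul (l : VC κ Ω) {m : VC κ Ω} (hm : VLe 1 m) : VLe l (l * m) := by
  simpa using (VLe.refl l).mul hm

theorem V5_div_le (l : VC κ Ω) {m : VC κ Ω} (hm : VLe 1 m) : VLe (l * m⁻¹) l := by
  simpa using (VLe.refl l).mul hm.inv

theorem V5_one_le_pen (t : Ω) : VLe 1 (pen κ t) := one_vle_gen (j := 0) rfl

theorem V5_pen_ne (t : Ω) : (![1, t] : Fin 2 → Ω) ≠ 0 := fun h => by
  simpa using congrFun h 0

theorem V5_pen_le_one {t : Ω} (ht : IsAlgebraic κ t) : VLe (pen κ t) 1 := by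
  refine gen_vle_of_mem (V5_pen_ne t) fun j O => ?_
  have h : t ∈ O.1 := by
    have hi : IsIntegral O.1 t := by
      obtain ⟨p, hp, hpt⟩ := ht.isIntegral
      refine ⟨p.map ((algebraMap κ Ω).codRestrict O.1.toSubring O.2), hp.map _, ?_⟩
      rw [Polynomial.eval₂_map]
      exact hpt
    obtain ⟨y, hy⟩ := IsIntegrallyClosed.algebraMap_eq_of_integral (K := Ω) hi
    rw [← hy]
    exact y.2
  fin_cases j
  · simp
  · simpa using h

/-- classes dominated by box classes -/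
def V5Gen (m : VC κ Ω) : Prop :=
  ∀ (σ : Type) [Fintype σ] (v : σ → Ω),
    Algebra.IsAlgebraic (IntermediateField.adjoin κ (Set.range v)) Ω →
      ∃ (g : Ωˣ) (c : ℕ), VLe m (cstC κ g * (∏ k, pen κ (v k)) ^ c)

theorem V5Gen_gen {ι : Type} [Finite ι] {l : ι → Ω} (hl : l ≠ 0) : V5Gen (gen κ l) :=
  fun _ _ v _ => exists_gen_vle v hl

theorem V5Gen_one : V5Gen (1 : VC κ Ω) :=
  fun _ _ _ _ => ⟨1, 0, by simpa [V5_cst_one] using VLe.refl _⟩

theorem V5Gen.mul {l m : VC κ Ω} (hl : V5Gen l) (hm : V5Gen m) : V5Gen (l * m) := by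
  intro σ _ v hv
  obtain ⟨g, c, h⟩ := hl σ v hv
  obtain ⟨g', c', h'⟩ := hm σ v hv
  refine ⟨g * g', c + c', ?_⟩
  have := h.mul h'
  rwa [mul_mul_mul_comm, ← V5_cst_mul, ← pow_add] at this

theorem V5Gen.pow {l : VC κ Ω} (hl : V5Gen l) (k : ℕ) : V5Gen (l ^ k) := by
  induction k with
  | zero => simpa using V5Gen_one
  | succ k ih => rw [pow_succ]; exact ih.mul hl

theorem V5Gen_prod {I : Type} (s : Finset I) {l : I → VC κ Ω} (h : ∀ i ∈ s, V5Gen (l i)) :
    V5Gen (∏ i ∈ s, l i) :=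
  Finset.prod_induction _ _ (fun _ _ => V5Gen.mul) V5Gen_one h

theorem V5Gen.box {m : VC κ Ω} (hm : V5Gen m) {σ : Type} [Fintype σ] (v : σ → Ω)
    [FiniteDimensional (IntermediateField.adjoin κ (Set.range v)) Ω] :
    ∃ (g : Ωˣ) (c : ℕ), ∀ (l : VC κ Ω) (N : ℕ), VLe l (m ^ N) →
      VLe l (cstC κ (g ^ N) * ∏ k, pen κ (v k) ^ (c * N)) := by
  obtain ⟨g, c, h⟩ := hm σ v (Algebra.IsAlgebraic.of_finite _ _)
  refine ⟨g, c, fun l N hl => hl.trans ?_⟩
  have := h.pow N
  rwa [mul_pow, ← V5_cst_pow, ← pow_mul, ← Finset.prod_pow] at this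

theorem V5_pow_le (c N k : ℕ) : (c * N + 1) ^ k ≤ (c + 1) ^ k * (N + 1) ^ k := by
  rw [← mul_pow]
  exact Nat.pow_le_pow_left (by nlinarith) k

theorem V5_ub {σ : Type} [Fintype σ] (u : σ → Ω) (hu : AlgebraicIndependent κ u)
    [FiniteDimensional (IntermediateField.adjoin κ (Set.range u)) Ω] {m : VC κ Ω} (hm : V5Gen m) :
    ∃ C : ℕ, ∀ (l : VC κ Ω) (N : ℕ), VLe l (m ^ N) →
      Module.Finite κ (TT l) ∧ Module.finrank κ (TT l) ≤ C * (N + 1) ^ Fintype.card σ := by
  obtain ⟨g, c, h⟩ := hm.box u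
  refine ⟨Module.finrank (IntermediateField.adjoin κ (Set.range u)) Ω * (c + 1) ^ Fintype.card σ,
    fun l N hl => ?_⟩
  obtain ⟨h1, h2⟩ := ub u hu fun _ => c * N
  have h3 := (finite_TT_cstC_mul (g ^ N) _).2 h1
  have h4 := (h l N hl).TT_le
  refine ⟨Submodule.finiteDimensional_of_le h4, (Submodule.finrank_mono h4).trans ?_⟩
  rw [finrank_TT_cstC_mul]
  refine h2.trans ?_
  rw [Finset.prod_const, Finset.card_univ, mul_assoc]
  exact Nat.mul_le_mul_left _ (V5_pow_le _ _ _)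

theorem V5_basis {σ : Type} [Fintype σ] (u : σ → Ω) (hu : AlgebraicIndependent κ u)
    [FiniteDimensional (IntermediateField.adjoin κ (Set.range u)) Ω] {S : Set Ω} (hS : S.Finite)
    (hgen : IntermediateField.adjoin κ S = ⊤) {t : Ω} (ht : Transcendental κ t) :
    ∃ (v : σ → Ω) (k₀ : σ), v k₀ = t ∧ AlgebraicIndependent κ v ∧
      FiniteDimensional (IntermediateField.adjoin κ (Set.range v)) Ω := by
  have hb : IsTranscendenceBasis κ u := hu.isTranscendenceBasis_iff_isAlgebraic.2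
    (IntermediateField.isAlgebraic_adjoin_iff_top.1 (Algebra.IsAlgebraic.of_finite _ _))
  have h1 : AlgebraicIndepOn κ id ({t} : Set Ω) := by
    refine algebraicIndependent_unique_type_iff.2 ?_
    simpa using ht
  obtain ⟨T, hT, hTb⟩ := exists_isTranscendenceBasis_superset h1
  obtain ⟨e⟩ := Cardinal.eq.1 (hb.cardinalMk_eq hTb)
  have hv := hTb.comp_equiv e
  refine ⟨_, e.symm ⟨t, hT rfl⟩, by simp, hv.1, ?_⟩
  have := hv.isAlgebraic_field
  set K := IntermediateField.adjoin κ (Set.range ((↑) ∘ e : σ → Ω))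
  have : Finite S := hS
  have h2 : FiniteDimensional K (IntermediateField.adjoin K S) :=
    IntermediateField.finiteDimensional_adjoin fun x _ => (Algebra.IsAlgebraic.isAlgebraic x).isIntegral
  have h3 : IntermediateField.adjoin K S = ⊤ := by
    rw [eq_top_iff]
    intro x _
    have hx : x ∈ IntermediateField.adjoin κ S := hgen ▸ IntermediateField.mem_top
    have : IntermediateField.adjoin κ S ≤ (IntermediateField.adjoin K S).restrictScalars κ :=
      IntermediateField.adjoin_le_iff.2 (IntermediateField.subset_adjoin K S)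
    exact this hx
  rw [h3] at h2
  exact IntermediateField.topEquiv.toLinearEquiv.finiteDimensional

/-- classes whose removal only changes lower order terms -/
def V5Sm (n : ℕ) (p : VC κ Ω) : Prop :=
  VLe 1 p ∧ ∀ m : VC κ Ω, V5Gen m → ∃ C : ℕ, ∀ (l : VC κ Ω) (N : ℕ), VLe l (m ^ N) →
    (N + 1) * Module.finrank κ (TT l) ≤
      (N + 1) * Module.finrank κ (TT (l * p⁻¹)) + C * (N + 1) ^ n

theorem V5Sm_of_le_one (n : ℕ) {p : VC κ Ω} (h1 : VLe 1 p) (h2 : VLe p 1) : V5Sm n p := by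
  refine ⟨h1, fun m _ => ⟨0, fun l N _ => ?_⟩⟩
  have : VEq l (l * p⁻¹) := ⟨by simpa using (VLe.refl l).mul h2.inv, V5_div_le l h1⟩
  rw [← this.TT_eq]
  simp

theorem V5Sm.mul {n : ℕ} {p q : VC κ Ω} (hp : V5Sm n p) (hq : V5Sm n q) : V5Sm n (p * q) := by
  refine ⟨V5_one_le_mul hp.1 hq.1, fun m hm => ?_⟩
  obtain ⟨C, hC⟩ := hp.2 m hm
  obtain ⟨C', hC'⟩ := hq.2 m hm
  refine ⟨C + C', fun l N hl => ?_⟩
  have h1 := hC l N hl
  have h2 := hC' _ N ((V5_div_le l hp.1).trans hl)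
  rw [mul_inv, ← mul_assoc, add_mul C]
  omega

theorem V5Sm.pow {n : ℕ} {p : VC κ Ω} (hp : V5Sm n p) (k : ℕ) : V5Sm n (p ^ k) := by
  induction k with
  | zero => simpa using V5Sm_of_le_one n (VLe.refl _) (VLe.refl _)
  | succ k ih => rw [pow_succ]; exact ih.mul hp

theorem V5Sm_prod {n : ℕ} {I : Type} (s : Finset I) {l : I → VC κ Ω}
    (h : ∀ i ∈ s, V5Sm n (l i)) : V5Sm n (∏ i ∈ s, l i) :=
  Finset.prod_induction _ _ (fun _ _ => V5Sm.mul) (V5Sm_of_le_one n (VLe.refl _) (VLe.refl _)) h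

theorem V5Sm.mono {σ : Type} [Fintype σ] (u : σ → Ω) (hu : AlgebraicIndependent κ u)
    [FiniteDimensional (IntermediateField.adjoin κ (Set.range u)) Ω] {n : ℕ} {p q : VC κ Ω}
    (hp : V5Sm n p) (h1 : VLe 1 q) (h2 : VLe q p) : V5Sm n q := by
  refine ⟨h1, fun m hm => ?_⟩
  obtain ⟨C, hC⟩ := hp.2 m hm
  obtain ⟨C', hC'⟩ := V5_ub u hu hm
  refine ⟨C, fun l N hl => (hC l N hl).trans ?_⟩
  have := (hC' _ N ((V5_div_le l h1).trans hl)).1
  have h3 : VLe (l * p⁻¹) (l * q⁻¹) := (VLe.refl l).mul h2.inv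
  have := Submodule.finrank_mono h3.TT_le
  gcongr

theorem V5Sm_pen {σ : Type} [Fintype σ] (u : σ → Ω) (hu : AlgebraicIndependent κ u)
    [FiniteDimensional (IntermediateField.adjoin κ (Set.range u)) Ω] {S : Set Ω} (hS : S.Finite)
    (hgen : IntermediateField.adjoin κ S = ⊤) (t : Ω) : V5Sm (Fintype.card σ) (pen κ t) := by
  by_cases ht : IsAlgebraic κ t
  · exact V5Sm_of_le_one _ (V5_one_le_pen t) (V5_pen_le_one ht)
  obtain ⟨v, k₀, rfl, hv, hfin⟩ := V5_basis u hu hS hgen ht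
  refine ⟨V5_one_le_pen _, fun m hm => ?_⟩
  obtain ⟨g, c, h⟩ := hm.box v
  obtain ⟨C', hC'⟩ := V5_ub u hu hm
  refine ⟨Module.finrank (IntermediateField.adjoin κ (Set.range v)) Ω *
    (c + 1) ^ (Fintype.card σ - 1), fun l N hl => ?_⟩
  obtain ⟨h1, h2⟩ := ub_res v hv (fun _ => c * N) k₀ _ (h l N hl)
  have := (hC' l N hl).1
  have h3 := pencil_sub (v k₀) l 1
  rw [pow_one, one_mul] at h3
  rw [Finset.prod_const, Finset.card_erase_of_mem (Finset.mem_univ _), Finset.card_univ] at h2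
  have h4 : 0 < Fintype.card σ := Fintype.card_pos_iff.2 ⟨k₀⟩
  have h5 : (N + 1) ^ Fintype.card σ = (N + 1) * (N + 1) ^ (Fintype.card σ - 1) := by
    rw [← pow_succ', Nat.sub_add_cancel h4]
  have h6 := h2.trans (Nat.mul_le_mul_left _ (V5_pow_le c N (Fintype.card σ - 1)))
  rw [h5, mul_left_comm, ← mul_add]
  refine Nat.mul_le_mul_left _ (h3.trans ?_)
  rw [mul_assoc]
  omega

end aux

variable {κ Ω : Type} [Field κ] [CharZero κ] [Field Ω] [Algebra κ Ω]

theorem V5_core {σ : Type} [Fintype σ] (u : σ → Ω) (hu : AlgebraicIndependent κ u)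
    [FiniteDimensional (IntermediateField.adjoin κ (Set.range u)) Ω]
    {I : Type} [Fintype I] {ι : I → Type} [∀ i, Fintype (ι i)] (L : ∀ i, ι i → Ω)
    (h1 : ∀ i, ∃ j, L i j = 1) (hgen : IntermediateField.adjoin κ (⋃ i, Set.range (L i)) = ⊤) :
    ∃ P : MvPolynomial I ℝ, P.IsHomogeneous (Fintype.card σ) ∧ ∀ b : I → ℕ,
      (∀ a : ℕ, Module.Finite κ (TT ((∏ i, gen κ (L i) ^ b i) ^ a))) ∧
      Tendsto (fun a : ℕ => (Module.finrank κ (TT ((∏ i, gen κ (L i) ^ b i) ^ a)) : ℝ) /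
        (a : ℝ) ^ Fintype.card σ) atTop (𝓝 (MvPolynomial.eval (fun i => (b i : ℝ)) P)) := by
  have hL : ∀ i, L i ≠ 0 := fun i h => by
    obtain ⟨j, hj⟩ := h1 i
    rw [h] at hj
    exact zero_ne_one hj
  have hone : ∀ i, VLe 1 (gen κ (L i)) := fun i => one_vle_gen (h1 i).choose_spec
  have hone' : ∀ b : I → ℕ, VLe 1 (∏ i, gen κ (L i) ^ b i) := fun b =>
    V5_one_le_prod _ fun i _ => V5_one_le_pow (hone i) _
  have hG : ∀ b : I → ℕ, V5Gen (∏ i, gen κ (L i) ^ b i) := fun b =>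
    V5Gen_prod _ fun i _ => (V5Gen_gen (hL i)).pow _
  have hS : (⋃ i, Set.range (L i)).Finite := Set.finite_iUnion fun i => Set.finite_range _
  have hSm : ∀ b : I → ℕ, V5Sm (Fintype.card σ) (∏ i, gen κ (L i) ^ b i) := fun b =>
    V5Sm_prod _ fun i _ => V5Sm.pow
      ((V5Sm_prod Finset.univ fun j _ => V5Sm_pen u hu hS hgen (L i j)).mono u hu (hone i)
        (gen_vle_prod_pen (h1 i).choose_spec)) _
  have hfin : ∀ b : I → ℕ, Module.Finite κ (TT (∏ i, gen κ (L i) ^ b i)) := fun b => by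
    obtain ⟨C, hC⟩ := V5_ub u hu (hG b)
    exact (hC _ 1 (by simpa using VLe.refl _)).1
  have hsplit : ∀ (b : I → ℕ) (a e : ℕ), ∏ i, gen κ (L i) ^ (a * b i + e) =
      (∏ i, gen κ (L i) ^ b i) ^ a * ∏ i, gen κ (L i) ^ e := fun b a e => by
    rw [← Finset.prod_pow, ← Finset.prod_mul_distrib]
    refine Finset.prod_congr rfl fun i _ => ?_
    rw [pow_add, mul_comm a, pow_mul]
  have hle : ∀ (b : I → ℕ) (a e : ℕ), VLe (∏ i, gen κ (L i) ^ (a * b i + e))
      (((∏ i, gen κ (L i) ^ b i) * ∏ i, gen κ (L i) ^ e) ^ (a + 1)) := fun b a e => by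
    rw [hsplit, mul_pow, pow_succ, pow_succ']
    exact (V5_le_mul _ (hone' b)).mul (V5_le_mul _ (V5_one_le_pow (hone' fun _ => e) a))
  obtain ⟨Q₀, b₀, hQ₀⟩ := hilbert_multi (κ := κ) L
  obtain ⟨γ, c, hγ, hc⟩ := exists_conductor L h1 hgen
  set Q : MvPolynomial I ℝ := MvPolynomial.map (Rat.castHom ℝ) Q₀ with hQdef
  have hQ : ∀ (b : I → ℕ) (a e : ℕ), b₀ ≤ e →
      (Module.finrank κ ↥(∏ i, Submodule.span κ (Set.range (L i)) ^ (a * b i + e)) : ℝ) =
        MvPolynomial.eval (fun i => (a : ℝ) * b i + e) Q := fun b a e he => by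
    have h := congrArg (Rat.castHom ℝ) (hQ₀ (fun i => a * b i + e) fun i => by omega)
    rw [MvPolynomial.map_eval, map_natCast] at h
    rw [h]
    congr 2
    funext i
    simp
  have hlow : ∀ b : I → ℕ, Module.finrank κ ↥(∏ i, Submodule.span κ (Set.range (L i)) ^ b i) ≤
      Module.finrank κ (TT (∏ i, gen κ (L i) ^ b i)) := fun b => by
    have := hfin b
    exact Submodule.finrank_mono (span_prod_le_TT L hL b)
  have hup : ∀ b : I → ℕ, Module.finrank κ (TT (∏ i, gen κ (L i) ^ b i)) ≤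
      Module.finrank κ ↥(∏ i, Submodule.span κ (Set.range (L i)) ^ (b i + c)) := fun b => by
    have := hfin fun i => b i + c
    have := Submodule.finiteDimensional_of_le (span_prod_le_TT (κ := κ) L hL fun i => b i + c)
    let f : TT (∏ i, gen κ (L i) ^ b i) →ₗ[κ]
        ↥(∏ i, Submodule.span κ (Set.range (L i)) ^ (b i + c)) :=
      (LinearMap.mulLeft κ γ).restrict fun G hG => hc b G hG
    refine LinearMap.finrank_le_finrank_of_injective (f := f) fun x y hxy => ?_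
    have h : γ * (x : Ω) = γ * y := congrArg Subtype.val hxy
    exact Subtype.ext (mul_left_cancel₀ hγ h)
  have hdeg : Q.totalDegree ≤ Fintype.card σ := by
    refine V5_deg Q _ (fun _ => (b₀ : ℝ)) fun b => ?_
    obtain ⟨C, hC⟩ := V5_ub u hu ((hG b).mul (hG fun _ => b₀))
    refine ⟨C, fun a => ?_⟩
    rw [← hQ b a b₀ le_rfl, Nat.abs_cast]
    have h := (hlow fun i => a * b i + b₀).trans (hC _ _ (hle b a b₀)).2
    have h' : ((a + 1 + 1 : ℕ) : ℝ) = (a : ℝ) + 2 := by push_cast; ring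
    rw [← h']
    exact_mod_cast h
  refine ⟨MvPolynomial.homogeneousComponent _ Q,
    MvPolynomial.homogeneousComponent_isHomogeneous _ _, fun b => ⟨fun a => ?_, ?_⟩⟩
  · have := hfin fun i => a * b i + 0
    rwa [hsplit, Finset.prod_congr rfl fun i _ => pow_zero (gen κ (L i)), Finset.prod_const_one,
      mul_one] at this
  · obtain ⟨C, hC⟩ := (hSm fun _ => b₀).2 _ ((hG b).mul (hG fun _ => b₀))
    refine V5_bdry _ (fun a => Module.finrank κ (TT (∏ i, gen κ (L i) ^ (a * b i + b₀)))) _ C _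
      (fun a => ?_) (fun a => ?_) ?_
    · have := hfin fun i => a * b i + b₀
      refine Submodule.finrank_mono (VLe.TT_le ?_)
      rw [hsplit]
      exact V5_le_mul _ (hone' fun _ => b₀)
    · have h := hC _ _ (hle b a b₀)
      have e : (∏ i, gen κ (L i) ^ (a * b i + b₀)) * (∏ i, gen κ (L i) ^ b₀)⁻¹ =
          (∏ i, gen κ (L i) ^ b i) ^ a := by
        rw [hsplit, mul_inv_cancel_right]
      rw [e] at h
      exact h
    · refine tendsto_of_tendsto_of_tendsto_of_le_of_le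
        (V5_asym Q _ hdeg (fun i => (b i : ℝ)) fun _ => (b₀ : ℝ))
        (V5_asym Q _ hdeg (fun i => (b i : ℝ)) fun _ => ((b₀ + c : ℕ) : ℝ)) (fun a => ?_)
        (fun a => ?_)
      · simp only
        rw [← hQ b a b₀ le_rfl]
        have : (Module.finrank κ ↥(∏ i, Submodule.span κ (Set.range (L i)) ^ (a * b i + b₀)) : ℝ) ≤
            Module.finrank κ (TT (∏ i, gen κ (L i) ^ (a * b i + b₀))) := by
          exact_mod_cast hlow fun i => a * b i + b₀
        gcongr
      · simp only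
        rw [← hQ b a (b₀ + c) (by omega)]
        have : (Module.finrank κ (TT (∏ i, gen κ (L i) ^ (a * b i + b₀))) : ℝ) ≤
            Module.finrank κ
              ↥(∏ i, Submodule.span κ (Set.range (L i)) ^ (a * b i + (b₀ + c))) := by
          have := hup fun i => a * b i + b₀
          have e : ∏ i, Submodule.span κ (Set.range (L i)) ^ (a * b i + b₀ + c) =
              ∏ i, Submodule.span κ (Set.range (L i)) ^ (a * b i + (b₀ + c)) :=
            Finset.prod_congr rfl fun i _ => by rw [add_assoc]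
          rw [e] at this
          exact_mod_cast this
        gcongr

/-- index types of the extended family -/
def V5io {I : Type} (A : Type) (ι : I → Type) : Option I → Type
  | none => A
  | some i => ι i

/-- the extended family -/
def V5L {I A : Type} {ι : I → Type} {Ω : Type} (L₀ : A → Ω) (L : ∀ i, ι i → Ω) :
    ∀ o, V5io A ι o → Ω
  | none => L₀
  | some i => L i

theorem V5io_finite {I : Type} (A : Type) (ι : I → Type) [Finite A] [∀ i, Finite (ι i)] :
    ∀ o, Finite (V5io A ι o)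
  | none => ‹Finite A›
  | some i => ‹∀ i, Finite (ι i)› i

theorem V5_norm {σ : Type} [Fintype σ] (u : σ → Ω) (hu : AlgebraicIndependent κ u)
    [FiniteDimensional (IntermediateField.adjoin κ (Set.range u)) Ω]
    {I : Type} [Fintype I] {ι : I → Type} [∀ i, Fintype (ι i)] (L : ∀ i, ι i → Ω)
    (h1 : ∀ i, ∃ j, L i j = 1) :
    ∃ P : MvPolynomial I ℝ, P.IsHomogeneous (Fintype.card σ) ∧ ∀ b : I → ℕ,
      (∀ a : ℕ, Module.Finite κ (TT ((∏ i, gen κ (L i) ^ b i) ^ a))) ∧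
      Tendsto (fun a : ℕ => (Module.finrank κ (TT ((∏ i, gen κ (L i) ^ b i) ^ a)) : ℝ) /
        (a : ℝ) ^ Fintype.card σ) atTop (𝓝 (MvPolynomial.eval (fun i => (b i : ℝ)) P)) := by
  set K := IntermediateField.adjoin κ (Set.range u) with hK
  let B := Module.finBasis K Ω
  let A := Option (σ ⊕ Fin (Module.finrank K Ω))
  let L₀ : A → Ω := fun o => o.elim 1 (Sum.elim u B)
  have inst : ∀ o, Fintype (V5io A ι o) := fun o =>
    @Fintype.ofFinite _ (V5io_finite A ι o)
  have h1' : ∀ o, ∃ j, V5L L₀ L o j = 1 := by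
    rintro (_ | i)
    · exact ⟨(none : A), rfl⟩
    · exact h1 i
  have hgen : IntermediateField.adjoin κ (⋃ o, Set.range (V5L L₀ L o)) = ⊤ := by
    set M := IntermediateField.adjoin κ (⋃ o, Set.range (V5L L₀ L o))
    have hM : ∀ j : A, L₀ j ∈ M := fun j =>
      IntermediateField.subset_adjoin _ _ (Set.mem_iUnion.2 ⟨none, j, rfl⟩)
    have hKM : K ≤ M := IntermediateField.adjoin_le_iff.2 (by
      rintro _ ⟨k, rfl⟩
      exact hM (some (Sum.inl k)))
    rw [eq_top_iff]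
    intro x _
    rw [← B.sum_repr x]
    refine sum_mem fun j _ => ?_
    rw [Algebra.smul_def]
    exact mul_mem (hKM (B.repr x j).2) (hM (some (Sum.inr j)))
  obtain ⟨P, hP, h⟩ := V5_core u hu (V5L L₀ L) h1' hgen
  refine ⟨MvPolynomial.aeval (fun o : Option I => o.elim 0 MvPolynomial.X) P, ?_, fun b => ?_⟩
  · have := hP.aeval (n := 1) (fun o : Option I => o.elim (0 : MvPolynomial I ℝ) MvPolynomial.X)
      (by
        rintro (_ | i)
        · exact MvPolynomial.isHomogeneous_zero _ _ _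
        · exact MvPolynomial.isHomogeneous_X _ _)
    rwa [one_mul] at this
  · have h' := h fun o => o.elim 0 b
    have e : ∏ o : Option I, gen κ (V5L L₀ L o) ^ o.elim 0 b = ∏ i, gen κ (L i) ^ b i := by
      rw [Fintype.prod_option]
      simp only [Option.elim_none, Option.elim_some, pow_zero, one_mul]
      rfl
    have e2 : MvPolynomial.eval (fun i => (b i : ℝ))
        (MvPolynomial.aeval (fun o : Option I => o.elim 0 MvPolynomial.X) P) =
        MvPolynomial.eval (fun o : Option I => ((o.elim 0 b : ℕ) : ℝ)) P := by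
      rw [← MvPolynomial.coe_aeval_eq_eval, ← MvPolynomial.coe_aeval_eq_eval, RingHom.coe_coe,
        RingHom.coe_coe, MvPolynomial.comp_aeval_apply]
      congr 2
      funext o
      rcases o with _ | i <;> simp
    rw [e] at h'
    rw [e2]
    exact h'

/-- The volume is a homogeneous polynomial on the cone spanned by finitely many generated classes. -/
theorem exists_vol {σ : Type} [Fintype σ] (u : σ → Ω) (hu : AlgebraicIndependent κ u)
    [FiniteDimensional (IntermediateField.adjoin κ (Set.range u)) Ω]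
    {I : Type} [Fintype I] {ι : I → Type} [∀ i, Fintype (ι i)] (L : ∀ i, ι i → Ω)
    (hL : ∀ i, L i ≠ 0) :
    ∃ P : MvPolynomial I ℝ, P.IsHomogeneous (Fintype.card σ) ∧ ∀ b : I → ℕ,
      (∀ a : ℕ, Module.Finite κ (TT ((∏ i, gen κ (L i) ^ b i) ^ a))) ∧
      Tendsto (fun a : ℕ => (Module.finrank κ (TT ((∏ i, gen κ (L i) ^ b i) ^ a)) : ℝ) /
        (a : ℝ) ^ Fintype.card σ) atTop (𝓝 (MvPolynomial.eval (fun i => (b i : ℝ)) P)) := by
  choose j hj using fun i => Function.ne_iff.1 (hL i)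
  have hj' : ∀ i, L i (j i) ≠ 0 := hj
  let M : ∀ i, ι i → Ω := fun i k => L i k / L i (j i)
  have h1 : ∀ i, ∃ k, M i k = 1 := fun i => ⟨j i, div_self (hj' i)⟩
  have hM : ∀ i, M i ≠ 0 := fun i h => by
    obtain ⟨k, hk⟩ := h1 i
    rw [h] at hk
    exact zero_ne_one hk
  have hE : ∀ i, VEq (gen κ (L i)) (cstC κ (Units.mk0 _ (hj' i)) * gen κ (M i)) := fun i =>
    qeq_gen_of_prp (hM i) (hj' i) fun k => (mul_div_cancel₀ _ (hj' i)).symm
  obtain ⟨P, hP, h⟩ := V5_norm u hu M h1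
  refine ⟨P, hP, fun b => ?_⟩
  have e : ∀ a : ℕ, TT ((∏ i, gen κ (L i) ^ b i) ^ a) =
      TT (cstC κ ((∏ i, Units.mk0 _ (hj' i) ^ b i) ^ a) * (∏ i, gen κ (M i) ^ b i) ^ a) := by
    intro a
    have e' : cstC κ ((∏ i, Units.mk0 _ (hj' i) ^ b i) ^ a) * (∏ i, gen κ (M i) ^ b i) ^ a =
        (∏ i, (cstC κ (Units.mk0 _ (hj' i)) * gen κ (M i)) ^ b i) ^ a := by
      rw [V5_cst_pow, V5_cst_prod, ← mul_pow, ← Finset.prod_mul_distrib]
      simp only [V5_cst_pow, mul_pow]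
    rw [e']
    exact VEq.TT_eq ⟨(VLe.prod _ fun i _ => (hE i).1.pow _).pow a,
      (VLe.prod _ fun i _ => (hE i).2.pow _).pow a⟩
  refine ⟨fun a => ?_, ?_⟩
  · rw [e, finite_TT_cstC_mul]
    exact (h b).1 a
  · refine (h b).2.congr fun a => ?_
    rw [e, finrank_TT_cstC_mul]

end Pool.Agent.E6b
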