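import Pool.Agent.E6b.V5

open scoped NNReal TensorProduct IntermediateField BigOperators Classical Topology
open Filter

namespace Pool.Agent.E6b

theorem V6_deg (p : Polynomial ℝ) (m : ℕ) {C : ℝ}
    (h : ∀ s : ℕ, 0 < s → |p.eval (s : ℝ)| ≤ C * (s : ℝ) ^ m) : p.degree ≤ m := by
  by_contra hlt
  have h1 : (Polynomial.X ^ m : Polynomial ℝ).degree < p.degree := by
    rw [Polynomial.degree_X_pow]
    exact not_le.1 hlt
  have h2 := (Polynomial.abs_div_tendsto_atTop_atTop_of_degree_gt p _ h1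
    (pow_ne_zero m Polynomial.X_ne_zero)).comp tendsto_natCast_atTop_atTop
  obtain ⟨s, hs1, hs2⟩ := ((h2.eventually_gt_atTop C).and (eventually_gt_atTop 0)).exists
  have hs : (0 : ℝ) < (s : ℝ) ^ m := by positivity
  simp only [Function.comp_apply, Polynomial.eval_pow, Polynomial.eval_X, abs_div,
    abs_of_pos hs] at hs1
  exact absurd ((div_le_iff₀ hs).2 (h s hs2)) (not_le.2 hs1)

theorem V6_supp (P : MvPolynomial (Fin 2) ℝ) {N : ℕ} (hP : P.IsHomogeneous N) (i : Fin 2) (m : ℕ)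
    {C : ℝ} (h : ∀ s : ℕ, 0 < s →
      |MvPolynomial.eval (fun j => if j = i then (s : ℝ) else 1) P| ≤ C * (s : ℝ) ^ m)
    {d : Fin 2 →₀ ℕ} (hd : d ∈ P.support) : d i ≤ m := by
  have hdeg : ∀ e ∈ P.support, e 0 + e 1 = N := by
    intro e he
    by_contra hne
    refine MvPolynomial.mem_support_iff.1 he (hP.coeff_eq_zero ?_)
    rwa [Finsupp.degree_eq_sum, Fin.sum_univ_two]
  have h1 := V6_deg (∑ e ∈ P.support, Polynomial.monomial (e i) (P.coeff e)) m (C := C) (by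
    intro s hs
    have h2 := h s hs
    rw [MvPolynomial.eval_eq'] at h2
    rw [Polynomial.eval_finsetSum]
    simpa [ite_pow, Finset.prod_ite_eq'] using h2)
  by_contra hlt
  have h2 := Polynomial.coeff_eq_zero_of_degree_lt (n := d i)
    (lt_of_le_of_lt h1 (by exact_mod_cast not_le.1 hlt))
  rw [Polynomial.finsetSum_coeff, Finset.sum_eq_single d] at h2
  · rw [Polynomial.coeff_monomial, if_pos rfl] at h2
    exact MvPolynomial.mem_support_iff.1 hd h2
  · intro e he hne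
    rw [Polynomial.coeff_monomial, if_neg]
    intro hei
    apply hne
    have h3 := hdeg e he
    have h4 := hdeg d hd
    ext j
    fin_cases i <;> fin_cases j <;> simp at hei ⊢ <;> omega
  · intro h3
    exact absurd hd h3

/-- a homogeneous polynomial in two variables bounded by a monomial on positive integers -/
theorem mono_of_bound (P : MvPolynomial (Fin 2) ℝ) (m n : ℕ) (hP : P.IsHomogeneous (m + n))
    {C : ℝ} (h : ∀ s t : ℕ, 0 < s → 0 < t →
      |MvPolynomial.eval ![(s : ℝ), (t : ℝ)] P| ≤ C * (s : ℝ) ^ m * (t : ℝ) ^ n) (s t : ℝ) :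
    MvPolynomial.eval ![s, t] P = MvPolynomial.eval ![1, 1] P * s ^ m * t ^ n := by
  have h0 : ∀ d ∈ P.support, d 0 ≤ m := fun d hd => V6_supp P hP 0 m (C := C) (by
    intro s hs
    have h1 := h s 1 hs one_pos
    have h2 : (fun j : Fin 2 => if j = 0 then (s : ℝ) else 1) = ![(s : ℝ), ((1 : ℕ) : ℝ)] := by
      ext j
      fin_cases j <;> simp
    rw [h2]
    simpa using h1) hd
  have h1 : ∀ d ∈ P.support, d 1 ≤ n := fun d hd => V6_supp P hP 1 n (C := C) (by
    intro s hs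
    have h1 := h 1 s one_pos hs
    have h2 : (fun j : Fin 2 => if j = 1 then (s : ℝ) else 1) = ![((1 : ℕ) : ℝ), (s : ℝ)] := by
      ext j
      fin_cases j <;> simp
    rw [h2]
    simpa using h1) hd
  rw [MvPolynomial.eval_eq', MvPolynomial.eval_eq', Finset.sum_mul, Finset.sum_mul]
  refine Finset.sum_congr rfl fun d hd => ?_
  have h2 : d 0 + d 1 = m + n := by
    by_contra hne
    refine MvPolynomial.mem_support_iff.1 hd (hP.coeff_eq_zero ?_)
    rwa [Finsupp.degree_eq_sum, Fin.sum_univ_two]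
  have h3 := h0 d hd
  have h4 := h1 d hd
  have h5 : d 0 = m := by omega
  have h6 : d 1 = n := by omega
  simp [Fin.prod_univ_two, h5, h6, mul_assoc]

theorem V6_grid {I : Type} {p q : MvPolynomial I ℝ}
    (h : ∀ b : I → ℕ, MvPolynomial.eval (fun i => (b i : ℝ)) p =
      MvPolynomial.eval (fun i => (b i : ℝ)) q) : p = q := by
  refine MvPolynomial.funext_set (fun _ => Set.range (Nat.cast : ℕ → ℝ))
    (fun _ => Set.infinite_range_of_injective Nat.cast_injective) fun x hx => ?_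
  choose b hb using fun i => hx i (Set.mem_univ i)
  have : x = fun i => (b i : ℝ) := funext fun i => (hb i).symm
  rw [this]
  exact h b

theorem V6_eval_aeval {I K : Type} (g : I → MvPolynomial K ℝ) (x : K → ℝ) (P : MvPolynomial I ℝ) :
    MvPolynomial.eval x (MvPolynomial.aeval g P) =
      MvPolynomial.eval (fun i => MvPolynomial.eval x (g i)) P := by
  induction P using MvPolynomial.induction_on with
  | C c => simp
  | add p q hp hq => simp only [map_add, hp, hq]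
  | mul_X p i hp => simp only [map_mul, hp, MvPolynomial.aeval_X, MvPolynomial.eval_X]

section
variable {κ Ω : Type} [Field κ] [Field Ω] [Algebra κ Ω]

/-- the class `l` has volume `v` in dimension `n` -/
def V6Vol (n : ℕ) (l : VC κ Ω) (v : ℝ) : Prop :=
  (∀ a : ℕ, Module.Finite κ (TT (l ^ a))) ∧
    Tendsto (fun a : ℕ => (Module.finrank κ (TT (l ^ a)) : ℝ) / (a : ℝ) ^ n) atTop (𝓝 v)

theorem V6_core {l m : VC κ Ω} (h : QLe l m) (hm : ∀ a : ℕ, Module.Finite κ (TT (m ^ a))) :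
    ∃ k : ℕ, 0 < k ∧ ∀ a : ℕ,
      Module.finrank κ (TT (l ^ (k * a))) ≤ Module.finrank κ (TT (m ^ (k * a))) := by
  obtain ⟨k, hk, g, hg⟩ := h
  refine ⟨k, hk, fun a => ?_⟩
  have h1 := hg.pow a
  have h2 : cstC κ g ^ a = cstC κ (g ^ a) := rfl
  rw [mul_pow, h2, ← pow_mul, ← pow_mul] at h1
  have := (finite_TT_cstC_mul (g ^ a) (m ^ (k * a))).2 (hm _)
  rw [← finrank_TT_cstC_mul (g ^ a) (m ^ (k * a))]
  exact Submodule.finrank_mono h1.TT_le

theorem V6_tend {k : ℕ} (hk : 0 < k) : Tendsto (fun a : ℕ => k * a) atTop atTop :=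
  tendsto_id.const_mul_atTop' hk

theorem V6_le {n : ℕ} {l m : VC κ Ω} {v w : ℝ} (hl : V6Vol n l v) (hm : V6Vol n m w)
    (h : QLe l m) : v ≤ w := by
  obtain ⟨k, hk, h1⟩ := V6_core h hm.1
  refine le_of_tendsto_of_tendsto' (hl.2.comp (V6_tend hk)) (hm.2.comp (V6_tend hk)) fun a => ?_
  exact div_le_div_of_nonneg_right (by exact_mod_cast h1 a) (by positivity)

theorem V6_eq {n : ℕ} {l m : VC κ Ω} {v w : ℝ} (hl : V6Vol n l v) (hm : V6Vol n m w)
    (h : QEq l m) : v = w :=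
  le_antisymm (V6_le hl hm h.qle) (V6_le hm hl h.symm.qle)

theorem V6_le' {n : ℕ} {l m : VC κ Ω} {v W : ℝ} (hl : V6Vol n l v)
    (hm : ∀ a : ℕ, Module.Finite κ (TT (m ^ a)))
    (hW : ∀ a : ℕ, 0 < a → (Module.finrank κ (TT (m ^ a)) : ℝ) ≤ W * (a : ℝ) ^ n)
    (h : QLe l m) : v ≤ W := by
  obtain ⟨k, hk, h1⟩ := V6_core h hm
  refine le_of_tendsto (hl.2.comp (V6_tend hk)) ?_
  filter_upwards [eventually_gt_atTop 0] with a ha
  have hka : 0 < k * a := Nat.mul_pos hk ha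
  refine (div_le_iff₀ (by positivity)).2 (le_trans ?_ (hW _ hka))
  exact_mod_cast h1 a

theorem V6_nonneg {n : ℕ} {l : VC κ Ω} {v : ℝ} (hl : V6Vol n l v) : 0 ≤ v :=
  ge_of_tendsto' hl.2 fun a => by positivity

theorem V6_qpow {l m : VC κ Ω} (h : QEq l m) (k : ℕ) : QEq (l ^ k) (m ^ k) := by
  simpa only [zpow_natCast] using h.zpow (k : ℤ)

theorem V6_one_mem : (1 : Ω) ∈ TT (1 : VC κ Ω) := by
  intro O
  simp

theorem V6_pow_mem {l : VC κ Ω} {z : Ω} (h : z ∈ TT l) (k : ℕ) : z ^ k ∈ TT (l ^ k) := by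
  induction k with
  | zero => simpa using V6_one_mem
  | succ k ih =>
    rw [pow_succ, pow_succ]
    exact mul_mem_TT ih h

theorem V6_prod_mem {l : VC κ Ω} {I : Type} (S : Finset I) {z : I → Ω} (h : ∀ i, z i ∈ TT l)
    (f : I → ℕ) : ∏ i ∈ S, z i ^ f i ∈ TT (l ^ ∑ i ∈ S, f i) := by
  induction S using Finset.induction_on with
  | empty => simpa using V6_one_mem
  | insert i S hi ih =>
    rw [Finset.prod_insert hi, Finset.sum_insert hi, pow_add]
    exact mul_mem_TT (V6_pow_mem (h i) _) ih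

theorem V6_count {J : Type} [Fintype J] (y : J → Ω) {n : ℕ} (j₀ : J) (j : Fin n → J)
    (h0 : y j₀ ≠ 0) (hi : AlgebraicIndependent κ fun i => y (j i) / y j₀) (a : ℕ)
    [Module.Finite κ (TT (gen κ y ^ a))] :
    (a + n).choose n ≤ Module.finrank κ (TT (gen κ y ^ a)) := by
  have hy : y ≠ 0 := fun h => h0 (congrFun h j₀)
  let S := (Finset.univ : Finset (Fin (n + 1))).finsuppAntidiag a
  have hS : ∀ f : S, f.1 0 + ∑ i : Fin n, f.1 i.succ = a := fun f => by
    rw [← Fin.sum_univ_succ]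
    exact (Finset.mem_finsuppAntidiag.1 f.2).1
  have hinj : Function.Injective fun f : S => f.1.tail := by
    intro f f' h
    have h1 : ∀ i : Fin n, f.1 i.succ = f'.1 i.succ := fun i => DFunLike.congr_fun h i
    have h2 := hS f
    have h3 := hS f'
    rw [Finset.sum_congr rfl fun i _ => h1 i] at h2
    refine Subtype.ext (Finsupp.ext fun i => ?_)
    refine Fin.cases ?_ h1 i
    omega
  let Ψ : MvPolynomial (Fin n) κ →ₗ[κ] Ω := (LinearMap.mulLeft κ (y j₀ ^ a)).comp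
    (MvPolynomial.aeval fun i => y (j i) / y j₀).toLinearMap
  have hΨ : LinearMap.ker Ψ = ⊥ := by
    rw [LinearMap.ker_eq_bot']
    intro p hp
    have h1 : y j₀ ^ a * MvPolynomial.aeval (fun i => y (j i) / y j₀) p = 0 := hp
    exact hi.eq_zero_of_aeval_eq_zero p ((mul_eq_zero.1 h1).resolve_left (pow_ne_zero a h0))
  have hli := (((MvPolynomial.basisMonomials (Fin n) κ).linearIndependent).comp _ hinj).map' Ψ hΨ
  have hmem : ∀ f : S, Ψ (MvPolynomial.monomial f.1.tail 1) ∈ TT (gen κ y ^ a) := by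
    intro f
    have h1 := mul_mem_TT (V6_pow_mem (mem_TT_gen (κ := κ) hy j₀) (f.1 0))
      (V6_prod_mem Finset.univ (fun i => mem_TT_gen (κ := κ) hy (j i)) fun i => f.1 i.succ)
    rw [← pow_add, hS f] at h1
    have h2 : Ψ (MvPolynomial.monomial f.1.tail 1) =
        y j₀ ^ f.1 0 * ∏ i : Fin n, y (j i) ^ f.1 i.succ := by
      change y j₀ ^ a * MvPolynomial.aeval (fun i => y (j i) / y j₀)
        (MvPolynomial.monomial f.1.tail 1) = _
      rw [MvPolynomial.aeval_monomial, map_one, one_mul, Finsupp.prod_fintype _ _ (by simp)]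
      simp only [Finsupp.tail_apply, div_pow, Finset.prod_div_distrib, Finset.prod_pow_eq_pow_sum]
      conv_lhs => rw [← hS f, pow_add]
      field_simp
    rw [h2]
    exact h1
  have hli' : LinearIndependent κ fun f : S => (⟨_, hmem f⟩ : TT (gen κ y ^ a)) := by
    refine LinearIndependent.of_comp (TT (gen κ y ^ a)).subtype ?_
    simpa [Function.comp_def] using hli
  have h1 := hli'.fintype_card_le_finrank
  rw [Fintype.card_coe, Finset.card_finsuppAntidiag_nat_eq_choose, Finset.card_univ,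
    Fintype.card_fin] at h1
  rw [← Nat.choose_symm_add]
  convert h1 using 2
  omega

theorem V6_lower {J : Type} [Fintype J] (y : J → Ω) {n : ℕ} (j₀ : J) (j : Fin n → J)
    (h0 : y j₀ ≠ 0) (hi : AlgebraicIndependent κ fun i => y (j i) / y j₀) {v : ℝ}
    (hv : V6Vol n (gen κ y) v) : 1 / (n.factorial : ℝ) ≤ v := by
  refine ge_of_tendsto hv.2 ?_
  filter_upwards [eventually_gt_atTop 0] with a ha
  have := hv.1 a
  have h1 : ((a + n).choose n : ℝ) ≤ Module.finrank κ (TT (gen κ y ^ a)) := by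
    exact_mod_cast V6_count y j₀ j h0 hi a
  have h2 := Nat.pow_le_choose (α := ℝ) n (a + n)
  have h3 : (a : ℝ) ^ n ≤ ((a + n + 1 - n : ℕ) : ℝ) ^ n := by
    refine pow_le_pow_left₀ (by positivity) ?_ n
    exact_mod_cast (by omega : a ≤ a + n + 1 - n)
  rw [le_div_iff₀ (by positivity), one_div, ← div_eq_inv_mul]
  exact le_trans (div_le_div_of_nonneg_right h3 (by positivity)) (h2.trans h1)

theorem V6_box {r₁ r₂ : ℕ} (u : Fin r₁ ⊕ Fin r₂ → Ω) (hu : AlgebraicIndependent κ u)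
    [FiniteDimensional (IntermediateField.adjoin κ (Set.range u)) Ω] (c A B : ℕ) (hA : 0 < A)
    (hB : 0 < B) {l : VC κ Ω} {v : ℝ} (hl : V6Vol (r₁ + r₂) l v)
    (h : QLe l ((∏ k, pen κ (u (.inl k))) ^ (c * A) * (∏ k, pen κ (u (.inr k))) ^ (c * B))) :
    v ≤ Module.finrank (IntermediateField.adjoin κ (Set.range u)) Ω * ((c : ℝ) + 1) ^ (r₁ + r₂) *
      (A : ℝ) ^ r₁ * (B : ℝ) ^ r₂ := by
  have h1 : ∀ a : ℕ,
      ((∏ k, pen κ (u (.inl k))) ^ (c * A) * (∏ k, pen κ (u (.inr k))) ^ (c * B)) ^ a =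
      ∏ k, pen κ (u k) ^ (Sum.elim (fun _ => c * A * a) (fun _ => c * B * a) k : ℕ) := by
    intro a
    rw [Fintype.prod_sum_type, mul_pow, ← pow_mul, ← pow_mul, ← Finset.prod_pow, ← Finset.prod_pow]
    rfl
  refine V6_le' hl (fun a => ?_) (fun a ha => ?_) h
  · rw [h1]
    exact (ub u hu _).1
  · rw [h1]
    have h2 := (ub u hu (Sum.elim (fun _ => c * A * a) (fun _ => c * B * a))).2
    rw [Fintype.prod_sum_type (fun k => Sum.elim (fun _ => c * A * a) (fun _ => c * B * a) k + 1)]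
      at h2
    simp only [Sum.elim_inl, Sum.elim_inr, Finset.prod_const, Finset.card_univ,
      Fintype.card_fin] at h2
    have h3 : c * A * a + 1 ≤ (c + 1) * A * a := by
      have := Nat.mul_pos hA ha
      nlinarith
    have h4 : c * B * a + 1 ≤ (c + 1) * B * a := by
      have := Nat.mul_pos hB ha
      nlinarith
    have h5 := h2.trans (Nat.mul_le_mul_left _
      (Nat.mul_le_mul (Nat.pow_le_pow_left h3 r₁) (Nat.pow_le_pow_left h4 r₂)))
    refine le_trans (Nat.cast_le.2 h5) (le_of_eq ?_)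
    push_cast
    simp only [mul_pow, pow_add]
    ring

end

variable {κ Ω : Type} [Field κ] [CharZero κ] [Field Ω] [Algebra κ Ω]

theorem V6_vol {σ : Type} [Fintype σ] (u : σ → Ω) (hu : AlgebraicIndependent κ u)
    [FiniteDimensional (IntermediateField.adjoin κ (Set.range u)) Ω]
    {J : Type} [Fintype J] (x₁ x₂ xp : J → Ω) (h₁ : x₁ ≠ 0) (h₂ : x₂ ≠ 0) (hp : xp ≠ 0) :
    ∃ P₀ : MvPolynomial (Fin 3) ℝ, P₀.IsHomogeneous (Fintype.card σ) ∧
      ∀ (x : J → Ω) (α β γ : ℕ), x ≠ 0 →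
        QEq (gen κ x * gen κ xp ^ γ) (gen κ x₁ ^ α * gen κ x₂ ^ β) →
        V6Vol (Fintype.card σ) (gen κ x)
          (MvPolynomial.eval ![(α : ℝ), (β : ℝ), -(γ : ℝ)] P₀) := by
  obtain ⟨P₀, hP₀, hv₀⟩ := exists_vol (κ := κ) u hu (I := Fin 3) (ι := fun _ => J) ![x₁, x₂, xp]
    (by intro i; fin_cases i <;> simpa)
  refine ⟨P₀, hP₀, fun x α β γ hx hq => ?_⟩
  obtain ⟨P, -, hv⟩ := exists_vol (κ := κ) u hu (I := Fin 4) (ι := fun _ => J) ![x, x₁, x₂, xp]
    (by intro i; fin_cases i <;> simpa)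
  have hid : MvPolynomial.aeval (![.X 0, .X 1, .X 2, .X 3 + .X 0 * .C (γ : ℝ)] :
        Fin 4 → MvPolynomial (Fin 4) ℝ) P =
      MvPolynomial.aeval (![.X 1 + .X 0 * .C (α : ℝ), .X 2 + .X 0 * .C (β : ℝ), .X 3] :
        Fin 3 → MvPolynomial (Fin 4) ℝ) P₀ := by
    refine V6_grid fun b => ?_
    rw [V6_eval_aeval, V6_eval_aeval]
    have h3 := V6_eq (n := Fintype.card σ) (hv ![b 0, b 1, b 2, b 3 + b 0 * γ])
      (hv₀ ![b 1 + b 0 * α, b 2 + b 0 * β, b 3]) (by
        have h4 := (V6_qpow hq (b 0)).mul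
          (QEq.refl (gen κ x₁ ^ b 1 * gen κ x₂ ^ b 2 * gen κ xp ^ b 3))
        convert h4 using 1
        · simp only [Fin.prod_univ_four, Matrix.cons_val_zero, Matrix.cons_val_one,
            Matrix.cons_val, pow_add, mul_pow, pow_mul']
          simp only [mul_assoc, mul_comm, mul_left_comm]
        · simp only [Fin.prod_univ_three, Matrix.cons_val_zero, Matrix.cons_val_one,
            Matrix.cons_val, pow_add, mul_pow, pow_mul']
          simp only [mul_assoc, mul_comm, mul_left_comm])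
    convert h3 using 3
    · funext i
      fin_cases i <;> simp
    · funext i
      fin_cases i <;> simp
  have h5 := congrArg (MvPolynomial.eval ![(1 : ℝ), 0, 0, -(γ : ℝ)]) hid
  rw [V6_eval_aeval, V6_eval_aeval] at h5
  have h6 := hv ![1, 0, 0, 0]
  have h7 : ∏ i : Fin 4, gen κ ((![x, x₁, x₂, xp] : Fin 4 → J → Ω) i) ^
      (![1, 0, 0, 0] : Fin 4 → ℕ) i = gen κ x := by
    simp [Fin.prod_univ_four]
  rw [h7] at h6
  have h8 : MvPolynomial.eval ![(α : ℝ), (β : ℝ), -(γ : ℝ)] P₀ =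
      MvPolynomial.eval (fun i => (((![1, 0, 0, 0] : Fin 4 → ℕ) i : ℕ) : ℝ)) P := by
    convert h5.symm using 3
    · funext i
      fin_cases i <;> simp
    · funext i
      fin_cases i <;> simp
  rw [h8]
  exact h6

/-- the volume of `x s t` is the monomial `vol(x 1 1) s^(2 r₁) t^(2 r₂)` -/
theorem vol_lower {r₁ r₂ : ℕ} (u : Fin r₁ ⊕ Fin r₂ → Ω) (hu : AlgebraicIndependent κ u)
    [FiniteDimensional (IntermediateField.adjoin κ (Set.range u)) Ω]
    {J : Type} [Fintype J] (x₁ x₂ xp : J → Ω) (h₁ : x₁ ≠ 0) (h₂ : x₂ ≠ 0) (hp : xp ≠ 0)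
    (x : ℕ → ℕ → J → Ω) (hx : ∀ s t, x s t ≠ 0)
    (hq : ∀ s t : ℕ, 0 < s → 0 < t → QEq (gen κ (x s t) * gen κ xp ^ (s * t))
      (gen κ x₁ ^ (s ^ 2 + s * t) * gen κ x₂ ^ (t ^ 2 + s * t)))
    (c : ℕ) (hb : ∀ s t : ℕ, 0 < s → 0 < t → QLe (gen κ (x s t))
      ((∏ k, pen κ (u (.inl k))) ^ (c * s ^ 2) * (∏ k, pen κ (u (.inr k))) ^ (c * t ^ 2)))
    (hpos : ∃ (j₀ : J) (j : Fin (r₁ + r₂) → J), x 1 1 j₀ ≠ 0 ∧
      AlgebraicIndependent κ fun i => x 1 1 (j i) / x 1 1 j₀)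
    (s t : ℕ) (hs : 0 < s) (ht : 0 < t) :
    ∀ᶠ a : ℕ in atTop, (s : ℝ) ^ (2 * r₁) * (t : ℝ) ^ (2 * r₂) * (a : ℝ) ^ (r₁ + r₂) /
      (2 * (r₁ + r₂).factorial) ≤ Module.finrank κ (TT (gen κ (x s t) ^ a)) := by
  obtain ⟨P₀, hP₀, hv₀⟩ := V6_vol u hu x₁ x₂ xp h₁ h₂ hp
  have hc : Fintype.card (Fin r₁ ⊕ Fin r₂) = r₁ + r₂ := by simp
  rw [hc] at hP₀ hv₀
  let g : Fin 3 → MvPolynomial (Fin 2) ℝ :=
    ![.X 0 * .X 0 + .X 0 * .X 1, .X 1 * .X 1 + .X 0 * .X 1, -(.X 0 * .X 1)]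
  have hXX : ∀ i j : Fin 2, (.X i * .X j : MvPolynomial (Fin 2) ℝ).IsHomogeneous 2 := fun i j =>
    (MvPolynomial.isHomogeneous_X ℝ i).mul (MvPolynomial.isHomogeneous_X ℝ j)
  have hg : ∀ i, (g i).IsHomogeneous 2 := by
    intro i
    fin_cases i
    · exact (hXX 0 0).add (hXX 0 1)
    · exact (hXX 1 1).add (hXX 0 1)
    · exact (hXX 0 1).neg
  have hΦ := hP₀.aeval g hg
  rw [mul_add] at hΦ
  have hvol : ∀ s t : ℕ, 0 < s → 0 < t → V6Vol (r₁ + r₂) (gen κ (x s t))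
      (MvPolynomial.eval ![(s : ℝ), (t : ℝ)] (MvPolynomial.aeval g P₀)) := by
    intro s t hs ht
    rw [V6_eval_aeval]
    convert hv₀ (x s t) _ _ _ (hx s t) (hq s t hs ht) using 3
    funext i
    fin_cases i <;> simp [g, sq]
  have hmono := mono_of_bound _ _ _ hΦ (C := Module.finrank
      (IntermediateField.adjoin κ (Set.range u)) Ω * ((c : ℝ) + 1) ^ (r₁ + r₂)) (by
    intro s t hs ht
    rw [abs_of_nonneg (V6_nonneg (hvol s t hs ht)), pow_mul, pow_mul]
    have := V6_box u hu c (s ^ 2) (t ^ 2) (by positivity) (by positivity) (hvol s t hs ht)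
      (hb s t hs ht)
    rwa [Nat.cast_pow, Nat.cast_pow] at this) s t
  obtain ⟨j₀, j, h0, hi⟩ := hpos
  have hlow := V6_lower (x 1 1) j₀ j h0 hi (hvol 1 1 one_pos one_pos)
  rw [Nat.cast_one] at hlow
  have hf : (0 : ℝ) < (r₁ + r₂).factorial := by exact_mod_cast Nat.factorial_pos _
  have hK : (0 : ℝ) < (s : ℝ) ^ (2 * r₁) * (t : ℝ) ^ (2 * r₂) := by positivity
  have hlt : (s : ℝ) ^ (2 * r₁) * (t : ℝ) ^ (2 * r₂) / (2 * (r₁ + r₂).factorial) <
      MvPolynomial.eval ![(s : ℝ), (t : ℝ)] (MvPolynomial.aeval g P₀) := by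
    rw [hmono, mul_assoc]
    refine lt_of_lt_of_le ?_ (mul_le_mul_of_nonneg_right hlow hK.le)
    rw [one_div, ← div_eq_inv_mul]
    exact div_lt_div_of_pos_left hK hf (by linarith)
  filter_upwards [(hvol s t hs ht).2.eventually (lt_mem_nhds hlt), eventually_gt_atTop 0]
    with a ha ha0
  rw [lt_div_iff₀ (by positivity)] at ha
  rw [mul_div_right_comm]
  exact ha.le

end Pool.Agent.E6b
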