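import Mathlib

open scoped NNReal TensorProduct IntermediateField BigOperators Classical Topology
open Filter

namespace Pool.Agent.E6b

/-- valuation rings of `Ω` containing `κ` -/
abbrev VS (κ Ω : Type) [Field κ] [Field Ω] [Algebra κ Ω] : Type :=
  {O : ValuationSubring Ω // ∀ c : κ, algebraMap κ Ω c ∈ O}

/-- valuative classes (b-divisors) -/
abbrev VC (κ Ω : Type) [Field κ] [Field Ω] [Algebra κ Ω] : Type := VS κ Ω → Ωˣ

section
variable {κ Ω : Type} [Field κ] [Field Ω] [Algebra κ Ω]

/-- `l ≤ m` : `v (l O) ≤ v (m O)` for all `O`; then `TT l ≤ TT m`. -/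
def VLe (l m : VC κ Ω) : Prop := ∀ O : VS κ Ω, ((l O : Ω) / (m O : Ω)) ∈ O.1

def VEq (l m : VC κ Ω) : Prop := VLe l m ∧ VLe m l

/-- sections of a class -/
def TT (l : VC κ Ω) : Submodule κ Ω where
  carrier := {G | ∀ O : VS κ Ω, G / (l O : Ω) ∈ O.1}
  add_mem' := by
    intro a b ha hb O
    rw [add_div]; exact O.1.add_mem _ _ (ha O) (hb O)
  zero_mem' := by intro O; simp
  smul_mem' := by
    intro c a ha O
    rw [Algebra.smul_def, mul_div_assoc]; exact O.1.mul_mem _ _ (O.2 c) (ha O)

/-- principal class -/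
def cstC (κ : Type) [Field κ] [Algebra κ Ω] (g : Ωˣ) : VC κ Ω := fun _ => g

/-- class generated by a finite vector: an entry of maximal valuation -/
noncomputable def gen (κ : Type) [Field κ] [Algebra κ Ω] {ι : Type} (l : ι → Ω) : VC κ Ω :=
  fun O => if h : ∃ g : Ωˣ, (∃ j, l j = g) ∧ ∀ j, l j / (g : Ω) ∈ O.1 then h.choose else 1

/-- class of the pencil `1, t` -/
noncomputable def pen (κ : Type) [Field κ] [Algebra κ Ω] (t : Ω) : VC κ Ω := gen κ ![1, t]

/-- equality of classes up to principal classes and torsion -/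
def QEq (l m : VC κ Ω) : Prop := ∃ k : ℕ, 0 < k ∧ ∃ g : Ωˣ, VEq (l ^ k) (cstC κ g * m ^ k)

def QLe (l m : VC κ Ω) : Prop := ∃ k : ℕ, 0 < k ∧ ∃ g : Ωˣ, VLe (l ^ k) (cstC κ g * m ^ k)

/-- restriction of a class to the valuations trivial on a bigger field -/
def resC (K : Type) [Field K] [Algebra κ K] [Algebra K Ω] [IsScalarTower κ K Ω] (l : VC κ Ω) :
    VC K Ω := fun O => l ⟨O.1, fun c => by
      rw [IsScalarTower.algebraMap_apply κ K Ω]; exact O.2 _⟩

/-- maximal valuation of the entries of a finite vector -/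
noncomputable def vs (O : ValuationSubring Ω) {ι : Type} [Fintype ι] (x : ι → Ω) : O.ValueGroup :=
  Finset.univ.sup fun i => O.valuation (x i)

/-- residue field -/
abbrev RF (O : VS κ Ω) : Type := IsLocalRing.ResidueField O.1

noncomputable instance (O : VS κ Ω) : Algebra κ O.1 :=
  ((algebraMap κ Ω).codRestrict O.1.toSubring O.2).toAlgebra

/-- residue of an element (`0` if it is not in the valuation ring) -/
noncomputable def rs (O : VS κ Ω) (x : Ω) : RF O :=
  if h : x ∈ O.1 then IsLocalRing.residue O.1 ⟨x, h⟩ else 0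

end

/-- ultrapower of a field -/
abbrev UP (U : Ultrafilter ℕ) (L : Type) : Type := Filter.Germ (U : Filter ℕ) L

noncomputable instance (U : Ultrafilter ℕ) (κ L : Type) [Field κ] [Field L] [Algebra κ L] :
    Algebra κ (UP U L) where
  toSMul := Filter.Germ.instSMul
  algebraMap := (Filter.Germ.coeRingHom (U : Filter ℕ)).comp
    ((Pi.constRingHom ℕ L).comp (algebraMap κ L))
  commutes' := fun _ _ => mul_comm _ _
  smul_def' := fun c x => Filter.Germ.inductionOn x fun f =>
    congrArg (fun g : ℕ → L => (g : Filter.Germ (U : Filter ℕ) L))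
      (funext fun n => Algebra.smul_def c (f n))

/-- class of a sequence -/
def gm (U : Ultrafilter ℕ) {L : Type} (x : ℕ → L) : UP U L := (x : Filter.Germ (U : Filter ℕ) L)

end Pool.Agent.E6b
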