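import Pool.Agent.E6b.X2a

open scoped NNReal TensorProduct IntermediateField BigOperators Classical Topology
open Filter

namespace Pool.Agent.E6b

section
variable {κ E : Type} [Field κ] [IsAlgClosed κ] [CharZero κ] [Field E] [Algebra κ E] [IsFF κ E]

theorem X2_ev_aeval (P : Place κ E) {z : E} (hz : z ∈ P.O) (p : Polynomial κ) :
    P.ev (Polynomial.aeval z p) = p.eval (P.ev z) := by
  induction p using Polynomial.induction_on with
  | C c => simp [P.ev_algebraMap]
  | add p q hp hq =>
    rw [map_add, P.ev_add (F1_aeval_mem P hz p) (F1_aeval_mem P hz q), hp, hq, Polynomial.eval_add]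
  | monomial n c hn =>
    rw [pow_succ, ← mul_assoc, map_mul, Polynomial.aeval_X,
      P.ev_mul (F1_aeval_mem P hz _) hz, hn, Polynomial.eval_mul (q := Polynomial.X),
      Polynomial.eval_X]

theorem X2_ord_eq_zero (P : Place κ E) {z : E} (hz : z ∈ P.O) (h0 : P.ev z ≠ 0) :
    z ≠ 0 ∧ P.ord z = 0 := by
  have h1 := (P.ev_eq_zero_iff hz).not.1 h0
  have h2 := P.mem_iff.1 hz
  push Not at h1
  exact ⟨h1.1, by omega⟩

theorem X2_mem_LL {o : Place κ E} {f : E} {n : ℕ} (h1 : ∀ P : Place κ E, P ≠ o → f ∈ P.O)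
    (h2 : - (n : ℤ) ≤ o.ord f) : f ∈ LL (n • pd o) := by
  refine mem_LL.2 (Or.inr fun P => ?_)
  rw [Finsupp.smul_apply, F1_pd_apply]
  split_ifs with hP
  · subst hP
    simpa using h2
  · simpa using P.mem_iff.1 (h1 P (Ne.symm hP))

/-- functions with poles at `o` only are polynomials in a function with a simple pole -/
theorem X2_poly {o : Place κ E} {z : E} (hz : ∀ P : Place κ E, P ≠ o → z ∈ P.O)
    (hzo : o.ord z = -1) (n : ℕ) : ∀ f : E, (∀ P : Place κ E, P ≠ o → f ∈ P.O) →
    - (n : ℤ) ≤ o.ord f → ∃ p : Polynomial κ, f = Polynomial.aeval z p := by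
  have hz0 : z ≠ 0 := F1a_ne_zero_of_ord o (by omega)
  induction n with
  | zero =>
    intro f h1 h2
    obtain ⟨c, hc⟩ := mem_range_of_forall_mem (κ := κ) (f := f) fun P => by
      by_cases hP : P = o
      · subst hP
        exact P.mem_iff.2 (by simpa using h2)
      · exact h1 P hP
    exact ⟨Polynomial.C c, by simp [hc]⟩
  | succ n ih =>
    intro f h1 h2
    by_cases hf : f = 0
    · exact ⟨0, by simp [hf]⟩
    have hp0 : z ^ (n + 1) ≠ 0 := pow_ne_zero _ hz0
    have hpo : o.ord (z ^ (n + 1)) = - ((n : ℤ) + 1) := by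
      rw [o.ord_pow, hzo]; push_cast; ring
    have hg : f / z ^ (n + 1) ∈ o.O := by
      rw [o.mem_iff, o.ord_div hf hp0, hpo]; push_cast at h2; omega
    set c := o.ev (f / z ^ (n + 1)) with hc
    have e : f - algebraMap κ E c * z ^ (n + 1) =
        (f / z ^ (n + 1) - algebraMap κ E c) * z ^ (n + 1) := by
      field_simp
    obtain ⟨p, hp⟩ := ih (f - algebraMap κ E c * z ^ (n + 1))
      (fun P hP => sub_mem (h1 P hP) (mul_mem (P.const c) (pow_mem (hz P hP) _))) (by
        rw [e]
        rcases o.ev_spec hg with h3 | h3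
        · rw [← hc] at h3
          rw [h3, sub_self, zero_mul, o.ord_zero]; omega
        · rw [← hc] at h3
          rw [o.ord_mul (F1a_ne_zero_of_ord o (by omega)) hp0, hpo]; omega)
    refine ⟨p + Polynomial.C c * Polynomial.X ^ (n + 1), ?_⟩
    rw [map_add, ← hp]
    simp

omit [IsAlgClosed κ] in
/-- a separable cubic has no polynomial parametrisation -/
theorem X2_no_param {A B : κ} (hs : B * (4 * A ^ 3 + 27 * B) ≠ 0) {q r : Polynomial κ}
    (hq : 0 < q.natDegree)
    (e : r ^ 2 = q ^ 3 + Polynomial.C A * q ^ 2 + Polynomial.C B) : False := by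
  have hq0 : q ≠ 0 := by rintro rfl; simp at hq
  have hd := congrArg Polynomial.derivative e
  simp only [Polynomial.derivative_pow, Polynomial.derivative_add, Polynomial.derivative_mul,
    Polynomial.derivative_C, zero_mul, zero_add, add_zero, Nat.cast_ofNat, map_ofNat] at hd
  norm_num at hd
  have hdv : r ∣ Polynomial.C (B * (4 * A ^ 3 + 27 * B)) * Polynomial.derivative q := by
    refine ⟨(4 * Polynomial.C A ^ 3 + 27 * Polynomial.C B + 6 * Polynomial.C A ^ 2 * q) * r *
      Polynomial.derivative q + (-3 * Polynomial.C A * Polynomial.C B -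
        (2 * Polynomial.C A ^ 3 + 9 * Polynomial.C B) * q - 2 * Polynomial.C A ^ 2 * q ^ 2) * 2 *
        Polynomial.derivative r, ?_⟩
    simp only [map_mul, map_add, map_pow, map_ofNat]
    linear_combination (-(4 * Polynomial.C A ^ 3 + 27 * Polynomial.C B +
      6 * Polynomial.C A ^ 2 * q) * Polynomial.derivative q) * e -
      (-3 * Polynomial.C A * Polynomial.C B -
        (2 * Polynomial.C A ^ 3 + 9 * Polynomial.C B) * q - 2 * Polynomial.C A ^ 2 * q ^ 2) * hd
  have hq' : Polynomial.derivative q ≠ 0 := fun h0 => by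
    have := Polynomial.derivative_eq_zero.1 h0
    omega
  have h1 := Polynomial.natDegree_le_of_dvd hdv (mul_ne_zero (Polynomial.C_ne_zero.2 hs) hq')
  rw [Polynomial.natDegree_C_mul hs] at h1
  have h2 := Polynomial.natDegree_derivative_lt hq.ne'
  have h3 : (q ^ 3 + Polynomial.C A * q ^ 2 + Polynomial.C B).natDegree = 3 * q.natDegree := by
    rw [add_assoc, Polynomial.natDegree_add_eq_left_of_natDegree_lt, Polynomial.natDegree_pow]
    rw [Polynomial.natDegree_add_C, Polynomial.natDegree_pow]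
    refine lt_of_le_of_lt (Polynomial.natDegree_C_mul_le _ _) ?_
    rw [Polynomial.natDegree_pow]
    omega
  rw [← e, Polynomial.natDegree_pow] at h3
  omega

end

variable {κ E : Type} [Field κ] [IsAlgClosed κ] [CharZero κ] [Field E] [Algebra κ E] [IsFF κ E]
  {W : WP κ} {a : ℕ} {t x : E} (h : WC W a t x)

include h

namespace WC

theorem X2_ord_inf {o : Place κ E} (ho : ∀ P : Place κ E, P ≠ o → x ∈ P.O) :
    o.ord x = -2 ∧ o.ord (W.y a t x) = -3 := by
  have h1 := deg_dinf_rk h.x_notMem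
  rw [h.rk_x] at h1
  have h2 : dinf κ x = Finsupp.single o (max (- o.ord x) 0) := by
    ext P
    rw [dinf_apply, Finsupp.single_apply]
    split_ifs with hP
    · rw [hP]
    · have := P.mem_iff.1 (ho P (Ne.symm hP))
      omega
  rw [h2, deg_single] at h1
  have hx : o.ord x = -2 := by omega
  have hx0 : x ≠ 0 := F1a_ne_zero_of_ord o (by omega)
  refine ⟨hx, ?_⟩
  have h3 := congrArg o.ord h.y_sq
  have h4 := o.ord_add_eq (f := x ^ 3) (g := algebraMap κ E W.A * x ^ 2) (pow_ne_zero _ hx0) (by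
    by_cases hA : W.A = 0
    · left; simp [hA]
    · right
      rw [o.ord_mul (by simpa using hA) (pow_ne_zero _ hx0), o.ord_algebraMap, o.ord_pow,
        o.ord_pow, hx]
      norm_num)
  have h5 := o.ord_add_eq (g := algebraMap κ E W.B) h4.1 (by
    right
    rw [h4.2, o.ord_algebraMap, o.ord_pow, hx]
    norm_num)
  rw [WP.f, h5.2, h4.2, o.ord_pow, o.ord_pow, hx] at h3
  push_cast at h3
  omega

theorem genus_eq : genus κ E = 1 := by
  obtain ⟨o, -, ho⟩ := h.exists_inf
  obtain ⟨hx, hy⟩ := h.X2_ord_inf fun P hP => (ho P hP).1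
  have hx0 : x ≠ 0 := F1a_ne_zero_of_ord o (by omega)
  have hy0 : W.y a t x ≠ 0 := F1a_ne_zero_of_ord o (by omega)
  have hpd : (0 : Dv κ E) ≤ pd o := fun P => by
    rw [F1_pd_apply]; split_ifs <;> simp
  have key : ∀ n : ℕ, n + 1 ≤ ell ((n + 1) • pd o) := by
    intro n
    induction n with
    | zero => exact one_le_ell (nsmul_nonneg hpd _)
    | succ n ih =>
      have e : (n + 1 + 1) • pd o - pd o = (n + 1) • pd o := by
        rw [succ_nsmul (pd o) (n + 1), add_sub_cancel_right]
      have hlt := (ell_sub_pd_lt_iff ((n + 1 + 1) • pd o) o).2 (by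
        have e2 : ((n + 1 + 1) • pd o) o = (n : ℤ) + 2 := by
          rw [Finsupp.smul_apply, F1_pd_apply, if_pos rfl]; simp; ring
        rw [e2]
        rcases Nat.even_or_odd' n with ⟨i, hi | hi⟩
        · have h3 : o.ord (x ^ (i + 1)) = - ((n : ℤ) + 2) := by
            rw [o.ord_pow, hx, hi]; push_cast; ring
          exact ⟨x ^ (i + 1), X2_mem_LL (fun P hP => pow_mem (ho P hP).1 _)
            (by rw [h3]; push_cast; omega), pow_ne_zero _ hx0, h3⟩
        · have h3 : o.ord (x ^ i * W.y a t x) = - ((n : ℤ) + 2) := by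
            rw [o.ord_mul (pow_ne_zero _ hx0) hy0, o.ord_pow, hx, hy, hi]; push_cast; ring
          exact ⟨x ^ i * W.y a t x, X2_mem_LL
            (fun P hP => mul_mem (pow_mem (ho P hP).1 _) (ho P hP).2.1)
            (by rw [h3]; push_cast; omega), mul_ne_zero (pow_ne_zero _ hx0) hy0, h3⟩)
      rw [e] at hlt
      omega
  have hle : genus κ E ≤ 1 := by
    have h1 := key (2 * genus κ E)
    have h2 := rr_large (D := (2 * genus κ E + 1) • pd o) (by
      rw [deg_nsmul, deg_pd]; push_cast; omega)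
    rw [deg_nsmul, deg_pd] at h2
    push_cast at h2
    omega
  by_contra hne
  have hg : genus κ E = 0 := by omega
  have h2 := rr_large (D := pd o) (by rw [deg_pd, hg]; norm_num)
  rw [deg_pd, hg] at h2
  obtain ⟨z, hz, hzc⟩ := (two_le_ell_iff hpd).1 (by omega)
  have hz0 : z ≠ 0 := fun h0 => hzc ⟨0, by simp [h0]⟩
  have hz1 := (mem_LL.1 hz).resolve_left hz0
  have hz2 : ∀ P : Place κ E, P ≠ o → z ∈ P.O := fun P hP => by
    have := hz1 P
    rw [F1_pd_apply, if_neg (Ne.symm hP)] at this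
    exact P.mem_iff.2 (by simpa using this)
  have hz3 : o.ord z = -1 := by
    have h3 := hz1 o
    rw [F1_pd_apply, if_pos rfl] at h3
    by_contra h4
    refine hzc (mem_range_of_forall_mem fun P => ?_)
    by_cases hP : P = o
    · subst hP
      exact P.mem_iff.2 (by omega)
    · exact hz2 P hP
  obtain ⟨q, hq⟩ := X2_poly hz2 hz3 2 x (fun P hP => (ho P hP).1) (by rw [hx]; norm_num)
  obtain ⟨r, hr⟩ := X2_poly hz2 hz3 3 (W.y a t x) (fun P hP => (ho P hP).2.1)
    (by rw [hy]; norm_num)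
  have hinj := transcendental_iff_injective.1 (transcendental_of_notMem hzc)
  refine X2_no_param (q := q) (r := r) h.ns ?_ (hinj ?_)
  · refine Nat.pos_of_ne_zero fun h0 => h.x_notMem ⟨q.coeff 0, ?_⟩
    rw [hq, Polynomial.eq_C_of_natDegree_eq_zero h0]
    simp
  · have h3 := h.y_sq
    rw [hr, WP.f] at h3
    rw [map_pow, h3, hq]
    simp

theorem X2_ord_w {c : Option κ} {P : Place κ E} (hP : x ∈ P.O) (hc : tv t P = c) :
    x ^ a * W.y a t x - algebraMap κ E (P.ev x ^ a * P.ev (W.y a t x)) ≠ 0 ∧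
    P.ord (x ^ a * W.y a t x - algebraMap κ E (P.ev x ^ a * P.ev (W.y a t x))) =
      P.ord (lc t c) := by
  obtain ⟨hy, -, htv⟩ := h.ev_rel hP
  have ht := h.t_eq
  have hu : x ^ a * W.y a t x + algebraMap κ E W.c ∈ P.O :=
    add_mem (mul_mem (pow_mem hP _) hy) (P.const _)
  have hev : P.ev (x ^ a * W.y a t x + algebraMap κ E W.c) =
      P.ev x ^ a * P.ev (W.y a t x) + W.c := by
    rw [P.ev_add (mul_mem (pow_mem hP _) hy) (P.const _), P.ev_mul (pow_mem hP _) hy,
      P.ev_algebraMap]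
    have := X2_ev_aeval P hP (Polynomial.X ^ a)
    simp only [map_pow, Polynomial.aeval_X, Polynomial.eval_pow, Polynomial.eval_X] at this
    rw [this]
  have e0 : x ^ a * W.y a t x - algebraMap κ E (P.ev x ^ a * P.ev (W.y a t x)) =
      (x ^ a * W.y a t x + algebraMap κ E W.c) -
        algebraMap κ E (P.ev x ^ a * P.ev (W.y a t x) + W.c) := by
    rw [map_add]; ring
  rw [e0]
  generalize x ^ a * W.y a t x + algebraMap κ E W.c = u at ht hu hev
  rw [← hev] at htv ⊢
  have hne : u - algebraMap κ E (P.ev u) ≠ 0 := fun h0 => h.nc ⟨W.τ + (P.ev u)⁻¹, by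
    rw [ht, map_add, map_inv₀, ← sub_eq_zero.1 h0]⟩
  refine ⟨hne, ?_⟩
  rw [← hc, htv]
  split_ifs with h0
  · rw [h0, map_zero, sub_zero] at hne ⊢
    have h1 : algebraMap κ E W.τ * u + 1 ∈ P.O := add_mem (mul_mem (P.const _) hu) (one_mem _)
    have h2 := X2_ord_eq_zero P h1 (by
      rw [P.ev_add (mul_mem (P.const _) hu) (one_mem _), P.ev_mul (P.const _) hu, h0,
        ← map_one (algebraMap κ E), P.ev_algebraMap 1]
      simp)
    have h3 : t⁻¹ = u / (algebraMap κ E W.τ * u + 1) := by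
      rw [ht]
      have := h2.1
      field_simp
    rw [lc, h3, P.ord_div hne h2.1, h2.2, sub_zero]
  · have h2 := X2_ord_eq_zero P hu h0
    have h4 : algebraMap κ E (P.ev u) ≠ 0 := by simpa using h0
    have h3 : t - algebraMap κ E (W.τ + (P.ev u)⁻¹) =
        - (u - algebraMap κ E (P.ev u)) / (u * algebraMap κ E (P.ev u)) := by
      rw [ht, map_add, map_inv₀]
      have := h2.1
      field_simp
      ring
    rw [lc, h3, P.ord_div (neg_ne_zero.2 hne) (mul_ne_zero h2.1 h4), P.ord_neg,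
      P.ord_mul h2.1 h4, h2.2, P.ord_algebraMap]
    ring

theorem mem_br {c : Option κ} (hc : ¬ Unr t c) : c ∈ W.Br a := by
  unfold Unr at hc
  push Not at hc
  obtain ⟨P, hP1, hP2⟩ := hc
  have htv := (tv_eq_iff h.nc).2 hP1
  by_cases hP : x ∈ P.O
  swap
  · obtain ⟨o, ho1, ho⟩ := h.exists_inf
    have hPo : P = o := by
      by_contra hne
      exact hP (ho P hne).1
    left
    rw [← htv, hPo]
    refine (tv_eq_iff h.nc).2 ?_
    rw [lc, ho1]
    positivity
  obtain ⟨hy, hrel, htv'⟩ := h.ev_rel hP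
  obtain ⟨hw0, hw⟩ := h.X2_ord_w hP htv
  refine Or.inr ⟨P.ev x, P.ev (W.y a t x), hrel, ?_, htv.symm.trans htv'⟩
  by_contra hne
  obtain ⟨hx0, hK⟩ := mul_ne_zero_iff.1 hne
  obtain ⟨b, hb⟩ : ∃ b, 2 * a = b + 1 := ⟨2 * a - 1, by have := h.ha; omega⟩
  have hb' : (2 * a : κ) = b + 1 := by exact_mod_cast hb
  obtain ⟨H, hH⟩ := Polynomial.X_sub_C_dvd_sub_C_eval (a := P.ev x)
    (p := Polynomial.X ^ (b + 1) * (Polynomial.X ^ 3 + Polynomial.C W.A * Polynomial.X ^ 2 +
      Polynomial.C W.B))
  have hH0 : H.eval (P.ev x) ≠ 0 := by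
    have hd := congrArg (fun p => Polynomial.eval (P.ev x) (Polynomial.derivative p)) hH
    simp only [Polynomial.derivative_sub, Polynomial.derivative_mul, Polynomial.derivative_add,
      Polynomial.derivative_C, Polynomial.derivative_X_pow, Polynomial.derivative_X,
      Polynomial.eval_add, Polynomial.eval_mul, Polynomial.eval_sub, Polynomial.eval_pow,
      Polynomial.eval_C, Polynomial.eval_X, Polynomial.eval_zero, Polynomial.eval_one,
      sub_self, zero_mul, add_zero, sub_zero, one_mul, zero_add, Nat.add_sub_cancel] at hd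
    rw [← hd]
    intro h0
    refine mul_ne_zero (pow_ne_zero b hx0) hK ?_
    rw [hb', WP.f]
    simp only [Algebra.algebraMap_self, RingHom.id_apply]
    push_cast at h0
    linear_combination h0
  have hHo := X2_ord_eq_zero P (F1_aeval_mem P hP H) (by rw [X2_ev_aeval P hP]; exact hH0)
  have hs0 : x - algebraMap κ E (P.ev x) ≠ 0 := lc_ne_zero h.x_notMem (some (P.ev x))
  have e : (x - algebraMap κ E (P.ev x)) * Polynomial.aeval x H =
      (x ^ a * W.y a t x - algebraMap κ E (P.ev x ^ a * P.ev (W.y a t x))) *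
      (x ^ a * W.y a t x + algebraMap κ E (P.ev x ^ a * P.ev (W.y a t x))) := by
    have h1 := congrArg (Polynomial.aeval x) hH
    have h2 := h.y_sq
    have h3 := congrArg (algebraMap κ E) hrel
    simp only [WP.f, Algebra.algebraMap_self, RingHom.id_apply, map_add, map_mul, map_pow] at h2 h3
    simp only [← hb, map_sub, map_mul, map_add, map_pow, Polynomial.aeval_X, Polynomial.aeval_C,
      Polynomial.eval_add, Polynomial.eval_mul, Polynomial.eval_pow,
      Polynomial.eval_C, Polynomial.eval_X] at h1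
    rw [← h1, map_mul, map_pow]
    linear_combination (- x ^ (2 * a)) * h2 + (algebraMap κ E (P.ev x)) ^ (2 * a) * h3
  have hw1 : x ^ a * W.y a t x + algebraMap κ E (P.ev x ^ a * P.ev (W.y a t x)) ≠ 0 := fun h0 => by
    rw [h0, mul_zero] at e
    exact mul_ne_zero hs0 hHo.1 e
  have e2 := congrArg P.ord e
  rw [P.ord_mul hs0 hHo.1, P.ord_mul hw0 hw1, hHo.2, hw] at e2
  have hsum := sum_ord_lc h.x_notMem (some (P.ev x))
  rw [h.rk_x] at hsum
  have hpos : ∀ Q ∈ (finite_tv h.x_notMem (some (P.ev x))).toFinset,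
      0 < Q.ord (lc x (some (P.ev x))) := fun Q hQ =>
    (tv_eq_iff h.x_notMem).1 (((finite_tv h.x_notMem (some (P.ev x))).mem_toFinset).1 hQ)
  have hPm : P ∈ (finite_tv h.x_notMem (some (P.ev x))).toFinset :=
    (Set.Finite.mem_toFinset _).2 (if_pos hP)
  by_cases hy0 : P.ev (W.y a t x) = 0
  · have h1 := Finset.single_le_sum (fun Q hQ => (hpos Q hQ).le) hPm
    rw [hsum, lc] at h1
    rw [hy0, mul_zero, map_zero, sub_zero] at hw
    rw [hy0, mul_zero, map_zero, add_zero, add_zero, hw] at e2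
    push_cast at h1
    omega
  · obtain ⟨Q, hQ1, hQ2, hQ3, hQ4⟩ := h.exists_place (x₀ := P.ev x) (y₀ := - P.ev (W.y a t x))
      (by rw [neg_sq, hrel])
    have hQP : P ≠ Q := by
      rintro rfl
      exact hy0 (by linear_combination (1 / 2 : κ) * hQ4)
    have hQm : Q ∈ (finite_tv h.x_notMem (some (P.ev x))).toFinset :=
      (Set.Finite.mem_toFinset _).2 (by
        show tv x Q = _
        rw [tv, if_pos hQ1, hQ3])
    have h1 := Finset.add_le_sum (fun Q hQ => (hpos Q hQ).le) hPm hQm hQP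
    have h2 := hpos Q hQm
    have h3 : 0 ≤ P.ord (x ^ a * W.y a t x + algebraMap κ E (P.ev x ^ a * P.ev (W.y a t x))) :=
      P.mem_iff.1 (add_mem (mul_mem (pow_mem hP _) hy) (P.const _))
    rw [hsum] at h1
    simp only [lc] at h1 h2
    push_cast at h1
    omega

end WC

end Pool.Agent.E6b
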