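import Pool.Agent.E6b.X2
import Pool.Agent.E6b.K8a

open scoped NNReal TensorProduct IntermediateField BigOperators Classical Topology
open Filter

namespace Pool.Agent.E6b

section
open Polynomial

theorem X3_poly {κ F K : Type} [Field κ] [Field F] [Algebra κ F] [Field K] [Algebra K F]
    (W : WP κ) (a : ℕ) {t x : F} (hκ : ∀ c : κ, ∃ k : K, algebraMap K F k = algebraMap κ F c)
    (ht : ∃ k : K, algebraMap K F k = t) (rel : W.Rel a t x) :
    IsIntegral K x ∧ (minpoly K x).natDegree ≤ 2 * a + 3 := by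
  obtain ⟨A, hA⟩ := hκ W.A
  obtain ⟨B, hB⟩ := hκ W.B
  obtain ⟨c, hc⟩ := hκ W.c
  obtain ⟨τ, hτ⟩ := hκ W.τ
  obtain ⟨T, hT⟩ := ht
  set p : K[X] := X ^ (2 * a + 3) + (C A * X ^ (2 * a + 2) + C B * X ^ (2 * a) -
    C (((T - τ)⁻¹ - c) ^ 2)) with hp
  have hlt : (C A * X ^ (2 * a + 2) + C B * X ^ (2 * a) - C (((T - τ)⁻¹ - c) ^ 2) : K[X]).degree <
      ((2 * a + 3 : ℕ) : WithBot ℕ) := by
    have h1 : (C A * X ^ (2 * a + 2) + C B * X ^ (2 * a) -
        C (((T - τ)⁻¹ - c) ^ 2) : K[X]).natDegree ≤ 2 * a + 2 := by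
      refine (natDegree_sub_le _ _).trans (max_le ((natDegree_add_le _ _).trans (max_le ?_ ?_)) ?_)
      · exact natDegree_C_mul_X_pow_le _ _
      · exact (natDegree_C_mul_X_pow_le _ _).trans (by omega)
      · rw [natDegree_C]; omega
    exact lt_of_le_of_lt (degree_le_of_natDegree_le h1) (by exact_mod_cast Nat.lt_succ_self _)
  have hm : p.Monic := monic_X_pow_add hlt
  have hd : p.natDegree = 2 * a + 3 := by
    rw [hp, natDegree_add_eq_left_of_degree_lt (by rwa [degree_X_pow]), natDegree_X_pow]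
  have h0 : aeval x p = 0 := by
    simp only [hp, map_add, map_sub, map_mul, map_pow, aeval_X, aeval_C, map_inv₀, hA, hB, hc, hτ,
      hT]
    unfold WP.Rel WP.f at rel
    linear_combination rel
  refine ⟨⟨p, hm, h0⟩, ?_⟩
  rw [← hd]
  exact natDegree_le_natDegree (minpoly.min K x hm h0)

end

theorem X3_finrank {F K : Type} [Field F] [Field K] [Algebra K F] {x : F} (hx : IsIntegral K x)
    (h : K⟮x⟯ = ⊤) : Module.finrank K F = (minpoly K x).natDegree := by
  rw [← IntermediateField.adjoin.finrank hx, h, IntermediateField.finrank_top']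

section
variable {κ F : Type} [Field κ] [IsAlgClosed κ] [CharZero κ] [Field F] [Algebra κ F] [IsFF κ F]

theorem X3_dinf_zero : dinf κ (0 : F) = 0 := by
  ext P
  rw [dinf_apply, (F0_spec P).zero]
  simp

theorem X3_dinf_nonneg (f : F) : 0 ≤ dinf κ f := fun P => by
  rw [dinf_apply]
  exact le_max_right _ _

theorem X3_dinf_le {f : F} {N : Dv κ F} (h : f ∈ LL N) (hN : 0 ≤ N) : dinf κ f ≤ N := by
  rcases mem_LL.1 h with rfl | h
  · rw [X3_dinf_zero]; exact hN
  · intro P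
    rw [dinf_apply]
    exact max_le (by linarith [h P]) (hN P)

theorem X3_one_mem : (1 : F) ∈ LL (0 : Dv κ F) := by
  rw [mem_LL_iff one_ne_zero, F1_dv_one]
  simp

theorem X3_pow_mem (f : F) (n : ℕ) : f ^ n ∈ LL (n • dinf κ f) := by
  induction n with
  | zero => rw [pow_zero, zero_nsmul]; exact X3_one_mem
  | succ n ih => rw [pow_succ, succ_nsmul]; exact mul_mem_LL ih (mem_LL_dinf f)

theorem X3_prod_mem {ι : Type} (s : Finset ι) (f : ι → F) (N : ι → Dv κ F)
    (h : ∀ i ∈ s, f i ∈ LL (N i)) : ∏ i ∈ s, f i ∈ LL (∑ i ∈ s, N i) := by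
  induction s using Finset.induction_on with
  | empty => rw [Finset.prod_empty, Finset.sum_empty]; exact X3_one_mem
  | insert i s hi ih =>
    rw [Finset.prod_insert hi, Finset.sum_insert hi]
    exact mul_mem_LL (h i (Finset.mem_insert_self _ _))
      (ih fun j hj => h j (Finset.mem_insert_of_mem hj))

end

theorem X3_deg_gen {κ F F' : Type} [Field κ] [Field F] [Algebra κ F] [Field F'] [Algebra κ F']
    (W : WP κ) (a : ℕ) (p : F' →ₐ[κ] F) {t' : F'} {x : F} (rel : W.Rel a (p t') x)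
    (gen : ∀ M : Subfield F, (∀ c : κ, algebraMap κ F c ∈ M) → (∀ y, p y ∈ M) → x ∈ M →
      ∀ y, y ∈ M) : (FHom.ofAlgHom p).deg ≤ 2 * a + 3 := by
  set φ := FHom.ofAlgHom p with hφ
  have h1 := X3_poly (K := φ.f.fieldRange) W a
    (fun c => ⟨⟨_, ⟨algebraMap κ _ c, rfl⟩⟩, p.commutes c⟩) ⟨⟨_, ⟨t', rfl⟩⟩, rfl⟩ rel
  have h3 : ∀ y, p y ∈ φ.f.fieldRange⟮x⟯.toSubfield := fun y =>
    IntermediateField.algebraMap_mem _ (⟨_, ⟨y, rfl⟩⟩ : φ.f.fieldRange)
  have h2 : φ.f.fieldRange⟮x⟯ = ⊤ := by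
    refine eq_top_iff.2 fun y _ => ?_
    refine gen φ.f.fieldRange⟮x⟯.toSubfield (fun c => ?_) h3
      (IntermediateField.mem_adjoin_simple_self _ _) y
    rw [← p.commutes c]
    exact h3 _
  exact (X3_finrank h1.1 h2).trans_le h1.2

theorem X3_le_gen {κ F F' E : Type} [Field κ] [IsAlgClosed κ] [CharZero κ] [Field F] [Algebra κ F]
    [IsFF κ F] [Field F'] [Algebra κ F'] [IsFF κ F'] [Field E] [Algebra κ E] [IsFF κ E]
    (p' : F' →ₐ[κ] F) (p : E →ₐ[κ] F) {t' : F'} {t : E} (comm : p' t' = p t) {τ : κ} {n : ℕ}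
    (hn : 0 < n) {o : Place κ E} (ho : o.ord (t - algebraMap κ E τ) = n) (hu : Unr t' (some τ)) :
    n ≤ (FHom.ofAlgHom p').deg := by
  set φ := FHom.ofAlgHom p' with hφ
  set ψ := FHom.ofAlgHom p with hψ
  obtain ⟨R, rfl⟩ := ψ.res_surj o
  have h1 := ψ.ord_map R (t - algebraMap κ _ τ)
  have h2 := φ.ord_map R (lc t' (some τ))
  have e : φ.f (lc t' (some τ)) = ψ.f (t - algebraMap κ _ τ) :=
    (map_lc p' t' _).trans ((congrArg (fun z => lc z (some τ)) comm).trans
      (map_lc p t (some τ)).symm)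
  rw [e, h1, ho] at h2
  have h3 := ψ.F4_e_pos R
  have h4 := φ.F4_e_pos R
  have h5 : 0 < (φ.res R).ord (lc t' (some τ)) := by
    by_contra hc
    have h6 := mul_nonpos_of_nonneg_of_nonpos h4.le (not_lt.1 hc)
    have h7 : (0 : ℤ) < ψ.e R * n := by positivity
    omega
  rw [hu _ h5, mul_one] at h2
  have h8 : φ.e R ≤ φ.deg := by
    rw [← φ.sum_e (φ.res R)]
    exact Finset.single_le_sum (f := φ.e) (fun _ _ => Nat.zero_le _) (φ.mem_fib.2 rfl)
  have h9 : (n : ℤ) ≤ φ.e R := by nlinarith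
  exact (Int.ofNat_le.1 h9).trans h8

theorem X3_mul {κ F F' E : Type} [Field κ] [IsAlgClosed κ] [CharZero κ] [Field F] [Algebra κ F]
    [IsFF κ F] [Field F'] [Algebra κ F'] [IsFF κ F'] [Field E] [Algebra κ E] [IsFF κ E]
    (S : Sq κ F' E F) {t' : F'} {t : E} {T : F} {p' : F' →ₐ[κ] F} {p : E →ₐ[κ] F}
    (h' : S.t' = t') (h : S.t = t) (hp' : S.p' = p') (hp : S.p = p) (hT : p t = T)
    {ι ι' : Type} [Fintype ι] [Fintype ι'] {b : ι → E}
    (hb : LinearIndependent κ⟮t⟯ b) {b' : ι' → F'} (hb' : LinearIndependent κ⟮t'⟯ b')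
    {ι'' : Type} {v : ι'' → F} (f : ι'' → ι' × ι) (hf : Function.Injective f)
    (hv : ∀ i, v i = p' (b' (f i).1) * p (b (f i).2)) : LinearIndependent κ⟮T⟯ v := by
  subst h' h hp' hp hT
  rw [funext hv]
  exact (S.linearIndependent_mul hb hb').comp f hf

variable {κ L : Type} [Field κ] [IsAlgClosed κ] [CharZero κ] [Field L] [Algebra κ L] {a : ℕ}
  (D : TD κ L a)

namespace TD

omit [IsAlgClosed κ] [CharZero κ] in
theorem X3_top (J : Finset (Fin 5)) (M : Subfield (D.F J))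
    (hκ : ∀ c : κ, algebraMap κ (D.F J) c ∈ M) (ht : D.tF J ∈ M)
    (hx : ∀ s (h : s ∈ J), D.xF h ∈ M) (y : D.F J) : y ∈ M := by
  have h1 : M.toIntermediateField hκ = ⊤ := by
    refine IntermediateField.lift_injective (D.F J) ?_
    rw [IntermediateField.lift_top]
    refine le_antisymm (IntermediateField.lift_le _) ?_
    refine IntermediateField.adjoin_le_iff.2 ?_
    rintro z (rfl | ⟨s, hs, rfl⟩)
    · exact (IntermediateField.mem_lift (D.tF J)).2 ht
    · exact (IntermediateField.mem_lift (D.xF hs)).2 (hx s hs)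
  have h2 : y ∈ M.toIntermediateField hκ := by rw [h1]; exact IntermediateField.mem_top
  exact h2

omit [IsAlgClosed κ] [CharZero κ] in
theorem X3_rel {J : Finset (Fin 5)} {s : Fin 5} (h : s ∈ J) : (D.W s).Rel a (D.tF J) (D.xF h) := by
  have h1 := D.rel s
  unfold WP.Rel WP.f at h1 ⊢
  apply (D.F J).val.toRingHom.injective
  simp only [map_mul, map_pow, map_add, map_sub, map_inv₀]
  exact h1

omit [IsAlgClosed κ] [CharZero κ] in
theorem X3_nc (J : Finset (Fin 5)) : D.tF J ∉ (algebraMap κ (D.F J)).range :=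
  fun ⟨c, hc⟩ => D.nc ⟨c, congrArg Subtype.val hc⟩

theorem wc (s : Fin 5) : WC (D.W s) a (D.tF {s}) (D.xF (Finset.mem_singleton_self s)) where
  ha := D.ha
  ns := D.ns s
  nc := D.X3_nc _
  gen := by
    refine eq_top_iff.2 fun y _ => ?_
    refine D.X3_top {s} (IntermediateField.adjoin κ
      {D.tF {s}, D.xF (Finset.mem_singleton_self s)}).toSubfield (fun c => ?_) ?_ ?_ y
    · exact IntermediateField.algebraMap_mem _ c
    · exact IntermediateField.subset_adjoin κ _ (Set.mem_insert _ _)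
    · intro s' hs'
      obtain rfl := Finset.mem_singleton.1 hs'
      exact IntermediateField.subset_adjoin κ _ (Set.mem_insert_of_mem _ rfl)
  rel := D.X3_rel _

theorem nc_tF (J : Finset (Fin 5)) : D.tF J ∉ (algebraMap κ (D.F J)).range := D.X3_nc J

omit [IsAlgClosed κ] [CharZero κ] in
theorem X3_int {J : Finset (Fin 5)} {s : Fin 5} (h : s ∈ J) :
    IsIntegral κ⟮D.tF J⟯ (D.xF h) ∧ (minpoly κ⟮D.tF J⟯ (D.xF h)).natDegree ≤ 2 * a + 3 :=
  X3_poly (D.W s) a (fun c => ⟨algebraMap κ _ c, rfl⟩)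
    ⟨⟨_, IntermediateField.mem_adjoin_simple_self κ _⟩, rfl⟩ (D.X3_rel h)

omit [IsAlgClosed κ] [CharZero κ] in
theorem X3_gen (J : Finset (Fin 5)) :
    IntermediateField.adjoin κ⟮D.tF J⟯ (Set.range fun s : J => D.xF s.2) = ⊤ := by
  refine eq_top_iff.2 fun y _ => ?_
  refine D.X3_top J (IntermediateField.adjoin κ⟮D.tF J⟯
    (Set.range fun s : J => D.xF s.2)).toSubfield (fun c => ?_) ?_ ?_ y
  · exact IntermediateField.algebraMap_mem _ (algebraMap κ κ⟮D.tF J⟯ c)
  · exact IntermediateField.algebraMap_mem _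
      (⟨_, IntermediateField.mem_adjoin_simple_self κ (D.tF J)⟩ : κ⟮D.tF J⟯)
  · intro s hs
    exact IntermediateField.subset_adjoin _ _ ⟨⟨s, hs⟩, rfl⟩

instance ff (J : Finset (Fin 5)) : IsFF κ (D.F J) := by
  refine ⟨D.tF J, F0_transcendental (D.nc_tF J), ?_⟩
  have h1 : FiniteDimensional κ⟮D.tF J⟯
      (IntermediateField.adjoin κ⟮D.tF J⟯ (Set.range fun s : J => D.xF s.2)) :=
    IntermediateField.finiteDimensional_adjoin (by
      rintro _ ⟨s, rfl⟩
      exact (D.X3_int s.2).1)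
  rw [D.X3_gen J] at h1
  exact IntermediateField.topEquiv.toLinearEquiv.finiteDimensional

theorem mono {J J' : Finset (Fin 5)} (h : J ⊆ J') : D.F J ≤ D.F J' :=
  IntermediateField.adjoin.mono _ _ _
    (Set.insert_subset_insert (Set.image_mono (Finset.coe_subset.2 h)))

theorem sup (J J' : Finset (Fin 5)) : D.F (J ∪ J') = D.F J ⊔ D.F J' := by
  unfold F
  rw [← IntermediateField.adjoin_union, Finset.coe_union, Set.image_union, Set.insert_union,
    Set.union_insert, Set.insert_idem]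

theorem unr (s s' : Fin 5) (h : s ≠ s') (c : Option κ) :
    Unr (D.tF {s}) c ∨ Unr (D.tF {s'}) c := by
  by_contra hc
  rw [not_or] at hc
  exact Set.disjoint_left.1 (D.br s s' h) ((D.wc s).mem_br hc.1) ((D.wc s').mem_br hc.2)

theorem X3_deg_le {J : Finset (Fin 5)} {s : Fin 5} (h : s ∈ J) :
    (incl (D.mono (Finset.erase_subset s J))).deg ≤ 2 * a + 3 := by
  refine X3_deg_gen (D.W s) a (IntermediateField.inclusion (D.mono (Finset.erase_subset s J)))
    (t' := D.tF _) (D.X3_rel h) fun M h1 h2 h3 => D.X3_top J M h1 (h2 (D.tF _)) fun s' hs' => ?_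
  by_cases e : s' = s
  · subst e
    exact h3
  · exact h2 (D.xF (Finset.mem_erase.2 ⟨e, hs'⟩))

theorem X3_le_deg {J : Finset (Fin 5)} {s : Fin 5} (h : s ∈ J)
    (ih : ∀ c : Option κ, (∀ s' ∈ J.erase s, Unr (D.tF {s'}) c) → Unr (D.tF (J.erase s)) c) :
    2 * a + 3 ≤ (incl (D.mono (Finset.erase_subset s J))).deg := by
  obtain ⟨o, ho, -⟩ := (D.wc s).exists_inf
  have hu : Unr (D.tF (J.erase s)) (some (D.W s).τ) := by
    refine ih _ fun s' hs' => ?_
    by_contra hc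
    exact Set.disjoint_left.1 (D.br s' s (Finset.ne_of_mem_erase hs')) ((D.wc s').mem_br hc)
      (Or.inl rfl)
  exact X3_le_gen (IntermediateField.inclusion (D.mono (Finset.erase_subset s J)))
    (IntermediateField.inclusion (D.mono (Finset.singleton_subset_iff.2 h))) (t' := D.tF _)
    (t := D.tF _) rfl (n := 2 * a + 3) (by omega) (ho.trans (by push_cast; rfl)) hu

/-- the square adding the cover `s` -/
noncomputable def X3_sq {J : Finset (Fin 5)} {s : Fin 5} (h : s ∈ J)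
    (ih : ∀ c : Option κ, (∀ s' ∈ J.erase s, Unr (D.tF {s'}) c) → Unr (D.tF (J.erase s)) c) :
    Sq κ (D.F (J.erase s)) (D.F {s}) (D.F J) where
  p' := IntermediateField.inclusion (D.mono (Finset.erase_subset s J))
  p := IntermediateField.inclusion (D.mono (Finset.singleton_subset_iff.2 h))
  t' := D.tF _
  t := D.tF _
  comm := rfl
  nc := D.nc_tF _
  deg' := (le_antisymm (D.X3_deg_le h) (D.X3_le_deg h ih)).trans (D.wc s).rk_t.symm
  gen := K8a_gen _ _ (by
    rw [← D.sup, Finset.union_comm, ← Finset.insert_eq, Finset.insert_erase h])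
  unr := fun c => by
    by_cases hc : Unr (D.tF {s}) c
    · exact Or.inl hc
    · exact Or.inr (ih c fun s' hs' =>
        (D.unr s s' (Finset.ne_of_mem_erase hs').symm c).resolve_left hc)

theorem X3_key (J : Finset (Fin 5)) : rk κ (D.tF J) = (2 * a + 3) ^ J.card ∧
    ∀ c : Option κ, (∀ s ∈ J, Unr (D.tF {s}) c) → Unr (D.tF J) c := by
  induction J using Tw.K8a_ind with
  | h0 =>
    have h1 : rk κ (D.tF ∅) = 1 := by
      have h2 : κ⟮D.tF ∅⟯ = ⊤ := by
        refine eq_top_iff.2 fun y _ => ?_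
        exact D.X3_top ∅ κ⟮D.tF ∅⟯.toSubfield (fun c => IntermediateField.algebraMap_mem _ c)
          (IntermediateField.mem_adjoin_simple_self κ _)
          (fun s hs => absurd hs (Finset.notMem_empty s)) y
      unfold rk
      rw [h2]
      exact IntermediateField.finrank_top
    exact ⟨h1, fun c _ => K8a_unr (D.nc_tF ∅) h1 c⟩
  | h1 J s hs ih =>
    refine ⟨?_, fun c h => (D.X3_sq hs ih.2).unr_top (h s hs)
      (ih.2 c fun s' hs' => h s' (Finset.mem_of_mem_erase hs'))⟩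
    have h1 := (rk_map (incl (D.mono (Finset.erase_subset s J))) (D.nc_tF _)).2
    rw [le_antisymm (D.X3_deg_le hs) (D.X3_le_deg hs ih.2), ih.1, ← pow_succ',
      Finset.card_erase_add_one hs] at h1
    exact h1

theorem rk_eq (J : Finset (Fin 5)) : rk κ (D.tF J) = (2 * a + 3) ^ J.card := (D.X3_key J).1

theorem X3_pow (s : Fin 5) : LinearIndependent κ⟮D.tF {s}⟯
    fun i : Fin (2 * a + 3) => D.xF (Finset.mem_singleton_self s) ^ (i : ℕ) := by
  have h1 : κ⟮D.tF {s}⟯⟮D.xF (Finset.mem_singleton_self s)⟯ = ⊤ := by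
    rw [← D.X3_gen {s}]
    congr 1
    ext y
    constructor
    · rintro rfl
      exact ⟨⟨s, Finset.mem_singleton_self s⟩, rfl⟩
    · rintro ⟨⟨s', hs'⟩, rfl⟩
      obtain rfl := Finset.mem_singleton.1 hs'
      rfl
  have h2 := X3_finrank (D.X3_int (Finset.mem_singleton_self s)).1 h1
  have h3 : 2 * a + 3 = (minpoly κ⟮D.tF {s}⟯ (D.xF (Finset.mem_singleton_self s))).natDegree :=
    (D.wc s).rk_t.symm.trans h2
  exact (linearIndependent_pow (K := κ⟮D.tF {s}⟯) (D.xF (Finset.mem_singleton_self s))).comp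
    (Fin.cast h3) (Fin.cast_injective h3)

omit [IsAlgClosed κ] [CharZero κ] in
theorem X3_coe_pow {J : Finset (Fin 5)} {s : Fin 5} (h : s ∈ J) (n : ℕ) :
    ((D.xF h ^ n : D.F J) : L) = D.x s ^ n := SubmonoidClass.coe_pow _ _

omit [IsAlgClosed κ] [CharZero κ] in
theorem X3_coe_prod (J : Finset (Fin 5)) (ν : Fin 5 → ℕ) :
    ((∏ s : J, D.xF s.2 ^ ν s.1 : D.F J) : L) = ∏ s ∈ J, D.x s ^ ν s := by
  rw [← Finset.prod_coe_sort J fun s => D.x s ^ ν s, SubmonoidClass.coe_finsetProd]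
  exact Finset.prod_congr rfl fun s _ => D.X3_coe_pow s.2 _

omit [IsAlgClosed κ] [CharZero κ] in
theorem X3_split {J : Finset (Fin 5)} {s : Fin 5} (hs : s ∈ J) (h₁ : D.F (J.erase s) ≤ D.F J)
    (h₂ : D.F {s} ≤ D.F J) (μ : J → ℕ) :
    ∏ s' : J, D.xF s'.2 ^ μ s' = IntermediateField.inclusion h₁
      (∏ s' : J.erase s, D.xF s'.2 ^ μ ⟨s'.1, Finset.mem_of_mem_erase s'.2⟩) *
      IntermediateField.inclusion h₂ (D.xF (Finset.mem_singleton_self s) ^ μ ⟨s, hs⟩) := by
  obtain ⟨ν, hν⟩ : ∃ ν : Fin 5 → ℕ, ∀ s' (h : s' ∈ J), μ ⟨s', h⟩ = ν s' :=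
    ⟨fun s' => if h : s' ∈ J then μ ⟨s', h⟩ else 0, fun s' h => by simp only [dif_pos h]⟩
  have e : ∀ s' : J, μ s' = ν s'.1 := fun s' => hν s'.1 s'.2
  simp only [e]
  apply Subtype.ext
  rw [MulMemClass.coe_mul, IntermediateField.coe_inclusion, IntermediateField.coe_inclusion,
    X3_coe_prod, X3_coe_prod, X3_coe_pow, Finset.prod_erase_mul J _ hs]

/-- the monomials in the `x s` form a basis over `κ(t)` -/
theorem indep_mon (J : Finset (Fin 5)) : LinearIndependent κ⟮D.tF J⟯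
    fun μ : J → Fin (2 * a + 3) => ∏ s : J, D.xF s.2 ^ (μ s : ℕ) := by
  induction J using Tw.K8a_ind with
  | h0 =>
    have : IsEmpty (∅ : Finset (Fin 5)) := ⟨fun s => Finset.notMem_empty _ s.2⟩
    refine LinearIndependent.of_subsingleton (fun _ => 0) ?_
    rw [Fintype.prod_empty]
    exact one_ne_zero
  | h1 J s hs ih =>
    refine X3_mul (D.X3_sq hs (D.X3_key _).2) (t' := D.tF _) (t := D.tF _) (T := D.tF J)
      (p' := IntermediateField.inclusion (D.mono (Finset.erase_subset s J)))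
      (p := IntermediateField.inclusion (D.mono (Finset.singleton_subset_iff.2 hs)))
      rfl rfl rfl rfl rfl (D.X3_pow s) ih (fun μ : J → Fin (2 * a + 3) =>
      (fun s' : J.erase s => μ ⟨s'.1, Finset.mem_of_mem_erase s'.2⟩, μ ⟨s, hs⟩)) ?_
      fun μ => D.X3_split hs _ _ fun s' => (μ s' : ℕ)
    intro μ ν e
    funext ⟨s', hs'⟩
    by_cases e' : s' = s
    · subst e'
      exact congrArg Prod.snd e
    · exact congrFun (congrArg Prod.fst e) ⟨s', Finset.mem_erase.2 ⟨e', hs'⟩⟩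

theorem deg_mon_le (J : Finset (Fin 5)) (μ : J → Fin (2 * a + 3)) :
    deg (dinf κ (∏ s : J, D.xF s.2 ^ (μ s : ℕ))) ≤ 10 * (2 * a + 3) ^ 5 := by
  have h1 := X3_prod_mem (κ := κ) Finset.univ (fun s : J => D.xF s.2 ^ (μ s : ℕ))
    (fun s => (μ s : ℕ) • dinf κ (D.xF s.2)) fun s _ => X3_pow_mem _ _
  have h2 := deg_mono (X3_dinf_le h1
    (Finset.sum_nonneg fun s _ => nsmul_nonneg (X3_dinf_nonneg _) _))
  have h5 : J.card ≤ 5 := by simpa using Finset.card_le_univ J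
  have h3 : ∀ s : J, deg ((μ s : ℕ) • dinf κ (D.xF s.2)) ≤ 2 * (2 * (a : ℤ) + 3) ^ 5 := by
    intro s
    obtain ⟨ψ, hx, ht⟩ : ∃ ψ : FHom κ (D.F {s.1}) (D.F J),
        ψ.f (D.xF (Finset.mem_singleton_self s.1)) = D.xF s.2 ∧ ψ.f (D.tF {s.1}) = D.tF J :=
      ⟨incl (D.mono (Finset.singleton_subset_iff.2 s.2)), rfl, rfl⟩
    have e1 : dinf κ (D.xF s.2) = ψ.pull (dinf κ (D.xF (Finset.mem_singleton_self s.1))) := by
      rw [ψ.pull_dinf, hx]
    have e2 := (rk_map ψ (D.nc_tF {s.1})).2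
    have e3 : rk κ (ψ.f (D.tF {s.1})) = (2 * a + 3) ^ J.card := by rw [ht, D.rk_eq]
    rw [e3, (D.wc s.1).rk_t] at e2
    have e4 : (2 * a + 3) ^ J.card ≤ (2 * a + 3) ^ 5 := Nat.pow_le_pow_right (by omega) h5
    have e5 : (μ s : ℕ) * ψ.deg ≤ (2 * a + 3) ^ 5 := by
      refine le_trans ?_ (e2 ▸ e4)
      rw [mul_comm]
      exact Nat.mul_le_mul_left _ (μ s).2.le
    rw [deg_nsmul, e1, ψ.deg_pull, deg_dinf_rk (D.wc s.1).x_notMem, (D.wc s.1).rk_x]
    have e6 : (((μ s : ℕ) * ψ.deg : ℕ) : ℤ) ≤ (((2 * a + 3) ^ 5 : ℕ) : ℤ) := Int.ofNat_le.2 e5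
    push_cast at e6 ⊢
    linarith
  rw [deg_sum] at h2
  refine h2.trans ((Finset.sum_le_sum fun s _ => h3 s).trans ?_)
  rw [Finset.sum_const, Finset.card_univ, Fintype.card_coe, nsmul_eq_mul]
  have h6 : (J.card : ℤ) ≤ 5 := by exact_mod_cast h5
  have h7 : (0 : ℤ) ≤ (2 * (a : ℤ) + 3) ^ 5 := by positivity
  nlinarith

/-- the tower -/
noncomputable def tw {B : ℕ} (h : D.NM B) : Tw κ L (2 * a + 3) B where
  F := D.F
  t := D.t
  mem := D.t_mem
  nc := D.nc
  ff := D.ff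
  mono := D.mono
  sup := D.sup
  rk_eq := D.rk_eq
  g1 := fun s => (D.wc s).genus_eq
  unr := D.unr
  nomap := h

end TD

end Pool.Agent.E6b
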