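import Pool.Agent.E6b.X3

open scoped NNReal TensorProduct IntermediateField BigOperators Classical Topology
open Filter

namespace Pool.Agent.E6b

theorem X3b_pow {R A : Type} [CommRing R] [CommRing A] [Algebra R A] (a : ℕ) (z : A) (α β γ : R)
    (h : z ^ (2 * a) * (z ^ 3 + algebraMap R A α * z ^ 2 + algebraMap R A β) = algebraMap R A γ)
    (k : ℕ) : z ^ k ∈ Submodule.span R (Set.range fun j : Fin (2 * a + 3) => z ^ (j : ℕ)) := by
  induction k using Nat.strong_induction_on with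
  | _ k ih =>
    by_cases hk : k < 2 * a + 3
    · exact Submodule.subset_span ⟨⟨k, hk⟩, rfl⟩
    · obtain ⟨m, rfl⟩ : ∃ m, k = m + (2 * a + 3) := ⟨k - (2 * a + 3), by omega⟩
      have e : z ^ (m + (2 * a + 3)) =
          γ • z ^ m - α • z ^ (m + (2 * a + 2)) - β • z ^ (m + 2 * a) := by
        simp only [Algebra.smul_def]
        rw [← h]
        ring
      rw [e]
      exact sub_mem (sub_mem (Submodule.smul_mem _ _ (ih _ (by omega)))
        (Submodule.smul_mem _ _ (ih _ (by omega)))) (Submodule.smul_mem _ _ (ih _ (by omega)))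

theorem X3b_span {R A ι : Type} [CommRing R] [CommRing A] [Algebra R A] [Fintype ι] (n : ℕ)
    (z : ι → A)
    (h : ∀ s k, z s ^ k ∈ Submodule.span R (Set.range fun j : Fin n => z s ^ (j : ℕ)))
    (P : MvPolynomial ι R) : MvPolynomial.aeval z P ∈
      Submodule.span R (Set.range fun μ : ι → Fin n => ∏ s, z s ^ (μ s : ℕ)) := by
  induction P using MvPolynomial.induction_on' with
  | monomial u c =>
    rw [MvPolynomial.aeval_monomial, ← Algebra.smul_def, Finsupp.prod_fintype _ _ (by simp)]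
    refine Submodule.smul_mem _ _ ?_
    choose w hw using fun s => (Submodule.mem_span_range_iff_exists_fun R).1 (h s (u s))
    simp only [← hw]
    rw [Fintype.prod_sum]
    refine Submodule.sum_mem _ fun μ _ => ?_
    rw [Finset.prod_smul]
    exact Submodule.smul_mem _ _ (Submodule.subset_span ⟨μ, rfl⟩)
  | add p q hp hq =>
    rw [map_add]
    exact add_mem hp hq

theorem X3b_ext {R E E' ι : Type} [Field R] [CommRing E] [CommRing E'] [Algebra R E] [Fintype ι]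
    (a : ℕ) (x : ι → E) (α β γ : ι → R)
    (hx : ∀ s, x s ^ (2 * a) * (x s ^ 3 + algebraMap R E (α s) * x s ^ 2 + algebraMap R E (β s)) =
      algebraMap R E (γ s))
    (hli : LinearIndependent R fun μ : ι → Fin (2 * a + 3) => ∏ s, x s ^ (μ s : ℕ))
    (hc : Module.finrank R E = (2 * a + 3) ^ Fintype.card ι) (φ : R →+* E') (y : ι → E')
    (hy : ∀ s, y s ^ (2 * a) * (y s ^ 3 + φ (α s) * y s ^ 2 + φ (β s)) = φ (γ s)) :
    ∃ ψ : E →+* E', (∀ r, ψ (algebraMap R E r) = φ r) ∧ ∀ s, ψ (x s) = y s := by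
  letI : Algebra R E' := φ.toAlgebra
  have hsp := hli.span_eq_top_of_card_eq_finrank (by rw [hc]; simp)
  have hsurj : Function.Surjective
      ((MvPolynomial.aeval x : MvPolynomial ι R →ₐ[R] E) : MvPolynomial ι R →+* E) := by
    intro e
    have he : e ∈ Submodule.span R
      (Set.range fun μ : ι → Fin (2 * a + 3) => ∏ s, x s ^ (μ s : ℕ)) := hsp ▸ Submodule.mem_top
    obtain ⟨w, rfl⟩ := (Submodule.mem_span_range_iff_exists_fun R).1 he
    refine ⟨∑ μ, w μ • ∏ s, MvPolynomial.X s ^ (μ s : ℕ), ?_⟩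
    simp
  have hker : RingHom.ker
      ((MvPolynomial.aeval x : MvPolynomial ι R →ₐ[R] E) : MvPolynomial ι R →+* E) ≤ RingHom.ker
      ((MvPolynomial.aeval y : MvPolynomial ι R →ₐ[R] E') : MvPolynomial ι R →+* E') := by
    intro P hP
    rw [RingHom.mem_ker] at hP ⊢
    have hz := X3b_span (R := R) (2 * a + 3) (fun s => ((x s, y s) : E × E'))
      (fun s k => X3b_pow a _ (α s) (β s) (γ s) (Prod.ext (hx s) (hy s)) k) P
    obtain ⟨w, hw⟩ := (Submodule.mem_span_range_iff_exists_fun R).1 hz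
    have h1 := congrArg (AlgHom.fst R E E') hw
    have h2 := congrArg (AlgHom.snd R E E') hw
    rw [MvPolynomial.comp_aeval_apply] at h1 h2
    simp only [map_sum, map_smul, map_prod, map_pow, AlgHom.fst_apply, AlgHom.snd_apply] at h1 h2
    have h0 : ∀ μ, w μ = 0 := Fintype.linearIndependent_iff.1 hli w (h1.trans hP)
    change MvPolynomial.aeval y P = 0
    rw [← h2]
    simp [h0]
  refine ⟨RingHom.liftOfSurjective _ hsurj ⟨_, hker⟩, fun r => ?_, fun s => ?_⟩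
  · have := RingHom.liftOfSurjective_comp_apply _ hsurj ⟨_, hker⟩ (MvPolynomial.C r)
    simpa [RingHom.algebraMap_toAlgebra] using this
  · have := RingHom.liftOfSurjective_comp_apply _ hsurj ⟨_, hker⟩ (MvPolynomial.X s)
    simpa using this

theorem X3b_base {κ E : Type} [Field κ] [Field E] [Algebra κ E] {t : E} (ht : Transcendental κ t)
    (σ : κ →+* κ) : ∃ φ : κ⟮t⟯ →+* E,
      (∀ c, φ (algebraMap κ κ⟮t⟯ c) = algebraMap κ E (σ c)) ∧
        φ (IntermediateField.AdjoinSimple.gen κ t) = t := by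
  let f : Polynomial κ →+* E :=
    ((Polynomial.aeval t : Polynomial κ →ₐ[κ] E) : Polynomial κ →+* E).comp
      (Polynomial.mapRingHom σ)
  have hf : Function.Injective f :=
    (transcendental_iff_injective.1 ht).comp (Polynomial.map_injective σ σ.injective)
  refine ⟨(RatFunc.liftRingHom f
    (nonZeroDivisors_le_comap_nonZeroDivisors_of_injective _ hf)).comp
      ((RatFunc.algEquivOfTranscendental t ht).symm : κ⟮t⟯ →+* RatFunc κ), fun c => ?_, ?_⟩
  · rw [RingHom.comp_apply]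
    change RatFunc.liftRingHom f _ ((RatFunc.algEquivOfTranscendental t ht).symm _) = _
    rw [AlgEquiv.commutes, RatFunc.algebraMap_eq_C, RatFunc.liftRingHom_C]
    simp [f]
  · rw [RingHom.comp_apply]
    change RatFunc.liftRingHom f _ ((RatFunc.algEquivOfTranscendental t ht).symm _) = _
    rw [RatFunc.algEquivOfTranscendental_symm_gen, RatFunc.liftRingHom_X]
    simp [f]

theorem X3b_alg : Algebra.IsAlgebraic ℚ Qb := by
  convert AlgebraicClosure.isAlgebraic ℚ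
  · rfl
  · exact Subsingleton.elim _ _

variable {L : Type} [Field L] [Algebra Qb L] {a : ℕ} (D : TD Qb L a)

theorem X3b_ind (J : Finset (Fin 5)) {p : D.F J → Prop} (h0 : ∀ c, p (algebraMap Qb (D.F J) c))
    (ht : p (D.tF J)) (hx : ∀ s (h : s ∈ J), p (D.xF h)) (hadd : ∀ u v, p u → p v → p (u + v))
    (hinv : ∀ u, p u → p u⁻¹) (hmul : ∀ u v, p u → p v → p (u * v)) (z : D.F J) : p z := by
  obtain ⟨z, hz⟩ := z
  induction hz using IntermediateField.adjoin_induction with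
  | mem u hu =>
    rcases hu with rfl | ⟨s, hs, rfl⟩
    · exact ht
    · exact hx s hs
  | algebraMap c => exact h0 c
  | add u v hu hv h1 h2 => exact hadd ⟨u, hu⟩ ⟨v, hv⟩ h1 h2
  | inv u hu h1 => exact hinv ⟨u, hu⟩ h1
  | mul u v hu hv h1 h2 => exact hmul ⟨u, hu⟩ ⟨v, hv⟩ h1 h2

theorem X3b_rel {J : Finset (Fin 5)} {s : Fin 5} (h : s ∈ J) :
    D.xF h ^ (2 * a) * (D.xF h ^ 3 + algebraMap Qb (D.F J) (D.W s).A * D.xF h ^ 2 +
      algebraMap Qb (D.F J) (D.W s).B) =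
      ((D.tF J - algebraMap Qb (D.F J) (D.W s).τ)⁻¹ - algebraMap Qb (D.F J) (D.W s).c) ^ 2 := by
  apply Subtype.ext
  exact D.rel s

theorem X3b_ex (π : Fin 5 → Fin 5) (σ : Qb →+* Qb)
    (hW : ∀ s, σ (D.W s).A = (D.W (π s)).A ∧ σ (D.W s).B = (D.W (π s)).B ∧
      σ (D.W s).c = (D.W (π s)).c ∧ σ (D.W s).τ = (D.W (π s)).τ) :
    ∃ ψ : D.F Finset.univ →+* D.F Finset.univ,
      (∀ c, ψ (algebraMap Qb _ c) = algebraMap Qb _ (σ c)) ∧ ψ (D.tF _) = D.tF _ ∧
        ∀ s, ψ (D.xF (Finset.mem_univ s)) = D.xF (Finset.mem_univ (π s)) := by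
  obtain ⟨φ, h1, h2⟩ := X3b_base (F0_transcendental (D.nc_tF Finset.univ)) σ
  obtain ⟨ψ, h3, h4⟩ := X3b_ext (R := Qb⟮D.tF Finset.univ⟯) (E := D.F Finset.univ)
    (ι := (Finset.univ : Finset (Fin 5))) a (fun s => D.xF s.2)
    (fun s => algebraMap Qb _ (D.W s).A) (fun s => algebraMap Qb _ (D.W s).B)
    (fun s => ((IntermediateField.AdjoinSimple.gen Qb (D.tF Finset.univ) -
      algebraMap Qb _ (D.W s).τ)⁻¹ - algebraMap Qb _ (D.W s).c) ^ 2)
    (fun s => by
      simp only [map_pow, map_sub, map_inv₀, IntermediateField.AdjoinSimple.algebraMap_gen,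
        ← IsScalarTower.algebraMap_apply]
      exact X3b_rel D s.2)
    (D.indep_mon Finset.univ) (by rw [Fintype.card_coe]; exact D.rk_eq Finset.univ) φ
    (fun s => D.xF (Finset.mem_univ (π s)))
    (fun s => by
      simp only [map_pow, map_sub, map_inv₀, h1, h2, (hW s).1, (hW s).2.1, (hW s).2.2.1,
        (hW s).2.2.2]
      exact X3b_rel D (Finset.mem_univ (π s)))
  refine ⟨ψ, fun c => ?_, ?_, fun s => h4 ⟨s, Finset.mem_univ s⟩⟩
  · rw [IsScalarTower.algebraMap_apply Qb Qb⟮D.tF Finset.univ⟯, h3, h1]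
  · exact (h3 (IntermediateField.AdjoinSimple.gen Qb (D.tF Finset.univ))).trans h2

theorem X3b_uniq {E : Type} [Field E] {J : Finset (Fin 5)} {f g : D.F J →+* E}
    (h0 : ∀ c, f (algebraMap Qb _ c) = g (algebraMap Qb _ c)) (ht : f (D.tF J) = g (D.tF J))
    (hx : ∀ s (h : s ∈ J), f (D.xF h) = g (D.xF h)) : f = g :=
  RingHom.ext fun z => X3b_ind D J (p := fun z => f z = g z) h0 ht hx
    (fun u v h1 h2 => by rw [map_add, map_add, h1, h2])
    (fun u h1 => by rw [map_inv₀, map_inv₀, h1])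
    (fun u v h1 h2 => by rw [map_mul, map_mul, h1, h2]) z

theorem X3b_res {κ L : Type} [Field κ] [Field L] [Algebra κ L] {K K' U : IntermediateField κ L}
    (h : K ≤ U) (h' : K' ≤ U) (ψ : U →+* U)
    (hg : ∀ z : K, (ψ (IntermediateField.inclusion h z) : L) ∈ K') :
    ∃ f : K →+* K', ∀ z, IntermediateField.inclusion h' (f z) =
      ψ (IntermediateField.inclusion h z) :=
  ⟨(((U.val : U →+* L).comp ψ).comp (IntermediateField.inclusion h : K →+* U)).codRestrict K' hg,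
    fun _ => Subtype.ext rfl⟩

theorem X3b_inc_t {J J' : Finset (Fin 5)} (h : D.F J ≤ D.F J') :
    IntermediateField.inclusion h (D.tF J) = D.tF J' :=
  Subtype.ext (IntermediateField.coe_inclusion h _)

theorem X3b_inc_x {J J' : Finset (Fin 5)} (h : D.F J ≤ D.F J') {s : Fin 5} (h1 : s ∈ J)
    (h2 : s ∈ J') : IntermediateField.inclusion h (D.xF h1) = D.xF h2 :=
  Subtype.ext (IntermediateField.coe_inclusion h _)

theorem X3b_eqv (σ : Qb ≃+* Qb) (ψ : D.F Finset.univ →+* D.F Finset.univ)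
    (h0 : ∀ c, ψ (algebraMap Qb _ c) = algebraMap Qb _ (σ c)) (ht : ψ (D.tF _) = D.tF _)
    {s s' : Fin 5} (hx : ψ (D.xF (Finset.mem_univ s)) = D.xF (Finset.mem_univ s')) :
    ∃ χ : FHom Qb (D.F {s}) (D.F {s'}), Function.Surjective χ.f ∧
      ∀ z, ψ (IntermediateField.inclusion (D.mono (Finset.subset_univ {s})) z) =
        IntermediateField.inclusion (D.mono (Finset.subset_univ {s'})) (χ.f z) := by
  have i1 := D.mono (Finset.subset_univ {s})
  have i2 := D.mono (Finset.subset_univ {s'})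
  have hg : ∀ z : D.F {s}, (ψ (IntermediateField.inclusion i1 z) : L) ∈ D.F {s'} := by
    refine X3b_ind D {s} (fun c => ?_) ?_ (fun r hr => ?_) (fun u v h1 h2 => ?_) (fun u h1 => ?_)
      (fun u v h1 h2 => ?_)
    · rw [AlgHom.commutes, h0]
      exact IntermediateField.algebraMap_mem _ _
    · rw [X3b_inc_t, ht]
      exact D.t_mem _
    · obtain rfl := Finset.mem_singleton.1 hr
      rw [X3b_inc_x D i1 hr (Finset.mem_univ _), hx]
      exact D.x_mem (Finset.mem_singleton_self s')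
    · rw [map_add, map_add, IntermediateField.coe_add]
      exact add_mem h1 h2
    · rw [map_inv₀, map_inv₀, IntermediateField.coe_inv]
      exact inv_mem h1
    · rw [map_mul, map_mul, IntermediateField.coe_mul]
      exact mul_mem h1 h2
  obtain ⟨f, hf⟩ := X3b_res i1 i2 ψ hg
  have inj := IntermediateField.inclusion_injective i2
  have f0 : ∀ c, f (algebraMap Qb _ c) = algebraMap Qb _ (σ c) := fun c =>
    inj (by rw [hf, AlgHom.commutes, AlgHom.commutes, h0])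
  have ft : f (D.tF _) = D.tF _ := inj (by rw [hf, X3b_inc_t, X3b_inc_t, ht])
  have fx : f (D.xF (Finset.mem_singleton_self s)) = D.xF (Finset.mem_singleton_self s') :=
    inj (by rw [hf, X3b_inc_x D i1 _ (Finset.mem_univ _), X3b_inc_x D i2 _ (Finset.mem_univ _), hx])
  refine ⟨⟨f, σ, f0⟩, ?_, fun z => (hf z).symm⟩
  refine X3b_ind D {s'} (p := fun w => ∃ z, f z = w) (fun c => ?_) ⟨_, ft⟩
    (fun r hr => ?_) ?_ ?_ ?_
  · exact ⟨algebraMap Qb _ (σ.symm c), by rw [f0, RingEquiv.apply_symm_apply]⟩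
  · obtain rfl := Finset.mem_singleton.1 hr
    exact ⟨_, fx⟩
  · rintro _ _ ⟨u, rfl⟩ ⟨v, rfl⟩
    exact ⟨u + v, map_add _ _ _⟩
  · rintro _ ⟨u, rfl⟩
    exact ⟨u⁻¹, map_inv₀ _ _⟩
  · rintro _ _ ⟨u, rfl⟩ ⟨v, rfl⟩
    exact ⟨u * v, map_mul _ _ _⟩

theorem X3b_act (perm : (Qb ≃ₐ[ℚ] Qb) →* Equiv.Perm (Fin 5))
    (hW : ∀ σ s, σ (D.W s).A = (D.W (perm σ s)).A ∧ σ (D.W s).B = (D.W (perm σ s)).B ∧
      σ (D.W s).c = (D.W (perm σ s)).c ∧ σ (D.W s).τ = (D.W (perm σ s)).τ) :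
    ∃ A : (Qb ≃ₐ[ℚ] Qb) →* (D.F Finset.univ ≃+* D.F Finset.univ),
      (∀ σ c, A σ (algebraMap Qb _ c) = algebraMap Qb _ (σ c)) ∧ (∀ σ, A σ (D.tF _) = D.tF _) ∧
        ∀ σ s, A σ (D.xF (Finset.mem_univ s)) = D.xF (Finset.mem_univ (perm σ s)) := by
  choose ψ h0 ht hx using fun σ : Qb ≃ₐ[ℚ] Qb => X3b_ex D (perm σ) (σ : Qb →+* Qb) (hW σ)
  have hm : ∀ σ τ, ψ (σ * τ) = (ψ σ).comp (ψ τ) := fun σ τ =>
    X3b_uniq D (fun c => by rw [RingHom.comp_apply, h0, h0, h0]; rfl)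
      (by rw [RingHom.comp_apply, ht, ht, ht])
      (fun s _ => by rw [RingHom.comp_apply, hx, hx, hx, map_mul]; rfl)
  have h1 : ψ 1 = RingHom.id _ :=
    X3b_uniq D (fun c => by rw [h0]; rfl) (by rw [ht]; rfl)
      (fun s _ => by rw [hx, map_one]; rfl)
  refine ⟨MonoidHom.mk' (fun σ => RingEquiv.ofRingHom (ψ σ) (ψ σ⁻¹)
    (by rw [← hm, mul_inv_cancel, h1]) (by rw [← hm, inv_mul_cancel, h1])) fun σ τ => ?_,
    h0, ht, hx⟩
  exact RingEquiv.ext fun z => RingHom.congr_fun (hm σ τ) z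

/-- the Galois action on the top field -/
theorem TD.exists_twG {B : ℕ} (h : D.NM B) (perm : (Qb ≃ₐ[ℚ] Qb) →* Equiv.Perm (Fin 5))
    (hW : ∀ σ s, σ (D.W s).A = (D.W (perm σ s)).A ∧ σ (D.W s).B = (D.W (perm σ s)).B ∧
      σ (D.W s).c = (D.W (perm σ s)).c ∧ σ (D.W s).τ = (D.W (perm σ s)).τ)
    (hopen : ∃ K : IntermediateField ℚ Qb, FiniteDimensional ℚ K ∧
      ∀ σ : Qb ≃ₐ[ℚ] Qb, (∀ z ∈ K, σ z = z) → perm σ = 1) :
    ∃ G : TwG (D.tw h), G.perm = perm ∧ ∀ σ s,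
      G.A.act σ (D.xF (Finset.mem_univ s)) = D.xF (Finset.mem_univ (perm σ s)) := by
  obtain ⟨A, h0, ht, hx⟩ := X3b_act D perm hW
  have hopn : ∀ f : D.F Finset.univ, ∃ K : IntermediateField ℚ Qb, FiniteDimensional ℚ K ∧
      ∀ σ : Qb ≃ₐ[ℚ] Qb, (∀ x ∈ K, σ x = x) → A σ f = f := by
    refine X3b_ind D Finset.univ (fun c => ?_) ?_ (fun s _ => ?_) ?_ ?_ ?_
    · refine ⟨ℚ⟮c⟯, IntermediateField.adjoin.finiteDimensional
        (X3b_alg.isAlgebraic c).isIntegral, fun σ hσ => ?_⟩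
      rw [h0, hσ c (IntermediateField.mem_adjoin_simple_self ℚ c)]
    · exact ⟨⊥, inferInstance, fun σ _ => ht σ⟩
    · obtain ⟨K, hK, h1⟩ := hopen
      refine ⟨K, hK, fun σ hσ => ?_⟩
      rw [hx, h1 σ hσ]
      rfl
    · rintro u v ⟨K, hK, h1⟩ ⟨K', hK', h2⟩
      refine ⟨K ⊔ K', inferInstance, fun σ hσ => ?_⟩
      rw [map_add, h1 σ fun x hx => hσ x (le_sup_left (a := K) (b := K') hx),
        h2 σ fun x hx => hσ x (le_sup_right (a := K) (b := K') hx)]
    · rintro u ⟨K, hK, h1⟩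
      exact ⟨K, hK, fun σ hσ => by rw [map_inv₀, h1 σ hσ]⟩
    · rintro u v ⟨K, hK, h1⟩ ⟨K', hK', h2⟩
      refine ⟨K ⊔ K', inferInstance, fun σ hσ => ?_⟩
      rw [map_mul, h1 σ fun x hx => hσ x (le_sup_left (a := K) (b := K') hx),
        h2 σ fun x hx => hσ x (le_sup_right (a := K) (b := K') hx)]
  exact ⟨⟨⟨A, h0, hopn⟩, perm, ht, fun σ s =>
    X3b_eqv D σ.toRingEquiv (A σ : D.F Finset.univ →+* D.F Finset.univ) (h0 σ) (ht σ) (hx σ s)⟩,
    rfl, hx⟩

end Pool.Agent.E6b
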