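import Pool.Agent.E6b.X4a

open scoped NNReal TensorProduct IntermediateField BigOperators Classical Topology
open Filter

namespace Pool.Agent.E6b

theorem X4_ff {κ L : Type} [Field κ] [IsAlgClosed κ] [Field L] [Algebra κ L] {t : L}
    (ht : t ∉ (algebraMap κ L).range) (S : Finset L) (hS : ∀ z ∈ S, IsAlgebraic κ⟮t⟯ z) :
    IsFF κ (IntermediateField.adjoin κ⟮t⟯ (S : Set L)) := by
  have h1 : FiniteDimensional κ⟮t⟯ (IntermediateField.adjoin κ⟮t⟯ (S : Set L)) :=
    IntermediateField.finiteDimensional_adjoin fun z hz => (hS z hz).isIntegral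
  obtain ⟨s, hs⟩ : ∃ s : IntermediateField.adjoin κ⟮t⟯ (S : Set L), (s : L) = t :=
    ⟨algebraMap κ⟮t⟯ _ (IntermediateField.AdjoinSimple.gen κ t), rfl⟩
  refine ⟨⟨s, F0_transcendental fun ⟨c, hc⟩ => ht ⟨c, by rw [← hs, ← hc]; rfl⟩, ?_⟩⟩
  refine F0_finite_of_range (A := κ⟮t⟯) fun a => ?_
  have h3 : κ⟮t⟯ = (κ⟮s⟯).map
      ((IntermediateField.adjoin κ⟮t⟯ (S : Set L)).val.restrictScalars κ) := by
    rw [IntermediateField.adjoin_map]
    simp [hs]
  obtain ⟨b, hb, hab⟩ : a.1 ∈ (κ⟮s⟯).map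
      ((IntermediateField.adjoin κ⟮t⟯ (S : Set L)).val.restrictScalars κ) := h3 ▸ a.2
  exact ⟨⟨b, hb⟩, Subtype.ext hab⟩

theorem X4_lift {κ F Ω L : Type} [Field κ] [IsAlgClosed κ] [CharZero κ] [Field F] [Algebra κ F]
    [IsFF κ F] [Field Ω] [IsAlgClosed Ω] [CharZero Ω] [Field L] [Algebra κ Ω] [Algebra κ L]
    [Algebra Ω L] [IsScalarTower κ Ω L] (o : Place κ F) (j : F →ₐ[κ] L) {s : F}
    (hs : j s ∉ (algebraMap Ω L).range) : ∃ Φ : FO o Ω →ₐ[Ω] L, ∀ z, j z ∈ Φ.fieldRange := by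
  have : CharZero L := charZero_of_injective_algebraMap (algebraMap Ω L).injective
  let y : AA o →ₐ[κ] L := j.comp (AA o).val
  let ψ : AO o Ω →ₐ[Ω] L :=
    Algebra.TensorProduct.lift (Algebra.ofId Ω L) y fun _ _ => Commute.all _ _
  have hψ : ∀ a, ψ (1 ⊗ₜ[κ] a) = j a := fun a => by simp [ψ, y]
  have h1 : (IsScalarTower.toAlgHom κ L (AlgebraicClosure L)).comp y ∉
      Set.range (bc o (IsScalarTower.toAlgHom κ Ω (AlgebraicClosure L))).pt := by
    rintro ⟨y₀, h⟩
    rw [bc_pt] at h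
    have h2 : ∀ a : AA o, algebraMap Ω L (y₀ a) = j a := fun a =>
      (algebraMap L (AlgebraicClosure L)).injective (by
        rw [← IsScalarTower.algebraMap_apply]
        exact DFunLike.congr_fun h a)
    obtain ⟨a, b, -, rfl⟩ := IsFractionRing.div_surjective (A := AA o) s
    exact hs ⟨y₀ a / y₀ b, by rw [map_div₀, map_div₀, h2, h2]; rfl⟩
  have h2 : Function.Injective ψ := by
    refine Function.Injective.of_comp (f := algebraMap L (AlgebraicClosure L)) ?_
    convert (injective_of_notMem_range _ h1).2 using 1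
    funext x
    induction x using TensorProduct.induction_on with
    | zero => simp
    | tmul c a => simp [ψ, ← IsScalarTower.algebraMap_apply]
    | add f g hf hg =>
      rw [map_add, ← hf, ← hg]
      simp
  refine ⟨IsFractionRing.liftAlgHom h2, fun z => ?_⟩
  obtain ⟨a, b, -, rfl⟩ := IsFractionRing.div_surjective (A := AA o) z
  have h3 : ∀ a : AA o,
      j a ∈ (IsFractionRing.liftAlgHom (K := FO o Ω) h2).fieldRange := fun a =>
    ⟨algebraMap _ _ (1 ⊗ₜ[κ] a : AO o Ω), (IsFractionRing.lift_algebraMap h2 _).trans (hψ a)⟩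
  rw [map_div₀]
  exact div_mem (h3 a) (h3 b)

theorem X4_indep {κ F : Type} [Field κ] [IsAlgClosed κ] [Field F] [Algebra κ F] {t : F}
    (ht : t ∉ (algebraMap κ F).range) {ι : Type} {y : ι → F} (hy : LinearIndependent κ⟮t⟯ y)
    (m : ℕ) : LinearIndependent κ fun p : Fin m × ι => t ^ (p.1 : ℕ) * y p.2 := by
  have h1 : LinearIndependent κ fun i : ℕ => t ^ i := by
    have h2 := (Polynomial.basisMonomials κ).linearIndependent.map'
      (Polynomial.aeval t : Polynomial κ →ₐ[κ] F).toLinearMap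
      (LinearMap.ker_eq_bot.2 (transcendental_iff_injective.1 (F0_transcendental ht)))
    have h3 : (fun i : ℕ => t ^ i) = (Polynomial.aeval t : Polynomial κ →ₐ[κ] F).toLinearMap ∘
        Polynomial.basisMonomials κ := by
      ext i
      simp
    rw [h3]
    exact h2
  have h2 : LinearIndependent κ fun i : Fin m =>
      (IntermediateField.AdjoinSimple.gen κ t) ^ (i : ℕ) := by
    refine LinearIndependent.of_comp (κ⟮t⟯).val.toLinearMap ?_
    exact h1.comp (fun i : Fin m => (i : ℕ)) Fin.val_injective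
  exact linearIndependent_smul h2 hy

theorem nomap_field {κ Ω L : Type} [Field κ] [IsAlgClosed κ] [CharZero κ] [Field Ω] [IsAlgClosed Ω]
    [CharZero Ω] [Field L] [Algebra κ Ω] [Algebra κ L] [Algebra Ω L] [IsScalarTower κ Ω L]
    (δ : Derivation κ Ω Ω) {A B : Ω} (hA : A ≠ 0) (hns : B * (4 * A ^ 3 + 27 * B) ≠ 0)
    (hδ : 3 * B * δ A ≠ A * δ B) {t : L} (ht : t ∉ (algebraMap Ω L).range) (S : Finset L)
    (hS : ∀ z ∈ S, IsAlgebraic κ⟮t⟯ z) {X Y : L}
    (hX : X ∈ IntermediateField.adjoin Ω (insert t (S : Set L)))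
    (hY : Y ∈ IntermediateField.adjoin Ω (insert t (S : Set L)))
    (h : Y ^ 2 = X ^ 3 + algebraMap Ω L A * X ^ 2 + algebraMap Ω L B) :
    X ∈ (algebraMap Ω L).range := by
  have := X4_ff (κ := κ) (fun ⟨c, hc⟩ => ht ⟨algebraMap κ Ω c, by
    rw [← IsScalarTower.algebraMap_apply, hc]⟩) S hS
  obtain ⟨o⟩ : Nonempty (Place κ (IntermediateField.adjoin κ⟮t⟯ (S : Set L))) := inferInstance
  obtain ⟨Φ, hΦ⟩ := X4_lift (Ω := Ω) o
    ((IntermediateField.adjoin κ⟮t⟯ (S : Set L)).val.restrictScalars κ)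
    (s := algebraMap κ⟮t⟯ _ (IntermediateField.AdjoinSimple.gen κ t)) ht
  have h1 : IntermediateField.adjoin Ω (insert t (S : Set L)) ≤ Φ.fieldRange := by
    rw [IntermediateField.adjoin_le_iff]
    rintro z (rfl | hz)
    · exact hΦ (algebraMap κ⟮z⟯ _ (IntermediateField.AdjoinSimple.gen κ z))
    · exact hΦ ⟨z, IntermediateField.subset_adjoin _ _ hz⟩
  obtain ⟨X', rfl⟩ := AlgHom.mem_fieldRange.1 (h1 hX)
  obtain ⟨Y', rfl⟩ := AlgHom.mem_fieldRange.1 (h1 hY)
  obtain ⟨c, rfl⟩ := nomap_FO o δ hA hns hδ (X := X') (Y := Y') (Φ.injective (by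
    simpa only [AlgHom.toRingHom_eq_coe, RingHom.coe_coe, map_pow, map_add, map_mul,
      AlgHom.commutes] using h))
  exact ⟨c, (Φ.commutes c).symm⟩

/-- bounded representation of a function of bounded degree -/
theorem exists_repr_bdd {κ F : Type} [Field κ] [IsAlgClosed κ] [CharZero κ] [Field F] [Algebra κ F]
    [IsFF κ F] {t : F} (ht : t ∉ (algebraMap κ F).range) {ι : Type} [Fintype ι] (y : ι → F)
    (hy : LinearIndependent κ⟮t⟯ y) (hc : Fintype.card ι = rk κ t) {c b : ℕ}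
    (hd : ∀ i, deg (dinf κ (y i)) ≤ c) {f : F} (hf : deg (dinf κ f) ≤ b) :
    ∃ (β : Fin (b + Fintype.card ι * c + 1) → κ) (α : ι → Fin (b + Fintype.card ι * c + 1) → κ),
      β ≠ 0 ∧ (∑ k, β k • t ^ (k : ℕ)) * f = ∑ i, (∑ k, α i k • t ^ (k : ℕ)) * y i := by
  generalize hD : b + Fintype.card ι * c = D
  have hn := rk_pos ht
  have n0 : ∀ z : F, 0 ≤ dinf κ z := F2_dinf_nonneg
  have n1 : (0 : Dv κ F) ≤ ∑ i, dinf κ (y i) := Finset.sum_nonneg fun i _ => n0 _
  have h1 : ∀ p : Fin (D + 1) × Option ι, t ^ (p.1 : ℕ) * p.2.elim f y ∈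
      LL (D • dinf κ t + (dinf κ f + ∑ i, dinf κ (y i))) := by
    rintro ⟨k, _ | i⟩
    · exact mul_mem_LL (F2_pow_mem t (Nat.lt_succ_iff.1 k.2))
        (LL_mono (le_add_of_nonneg_right n1) (mem_LL_dinf f))
    · exact mul_mem_LL (F2_pow_mem t (Nat.lt_succ_iff.1 k.2))
        (LL_mono ((Finset.single_le_sum (f := fun i => dinf κ (y i)) (fun i _ => n0 _)
          (Finset.mem_univ i)).trans (le_add_of_nonneg_left (n0 f))) (mem_LL_dinf (y i)))
  have h2 : ¬ LinearIndependent κ fun p : Fin (D + 1) × Option ι =>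
      t ^ (p.1 : ℕ) * p.2.elim f y := fun hi => by
    have h3 : LinearIndependent κ fun p : Fin (D + 1) × Option ι =>
        (⟨_, h1 p⟩ : LL (D • dinf κ t + (dinf κ f + ∑ i, dinf κ (y i)))) :=
      LinearIndependent.of_comp (Submodule.subtype _) hi
    have h4 : _ ≤ ell _ := h3.fintype_card_le_finrank
    have h5 := ell_le (le_trans (by norm_num) (F1_deg_nonneg
      (add_nonneg (nsmul_nonneg (n0 t) D) (add_nonneg (n0 f) n1))))
    have h6 : ∑ i, deg (dinf κ (y i)) ≤ Fintype.card ι * c := by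
      simpa using Finset.sum_le_sum fun i (_ : i ∈ Finset.univ) => hd i
    rw [deg_add, deg_add, deg_nsmul, deg_sum, deg_dinf_rk ht, ← hc] at h5
    rw [Fintype.card_prod, Fintype.card_fin, Fintype.card_option] at h4
    rw [← hc] at hn
    zify at h4 hD hn
    nlinarith
  obtain ⟨g, h3, p, hp⟩ := Fintype.not_linearIndependent_iff.1 h2
  rw [Fintype.sum_prod_type] at h3
  simp only [Fintype.sum_option, Option.elim, Finset.sum_add_distrib] at h3
  refine ⟨fun k => g (k, none), fun i k => -g (k, some i), fun h0 => hp ?_, ?_⟩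
  · have h4 : ∀ k, g (k, none) = 0 := congrFun h0
    obtain ⟨k, _ | i⟩ := p
    · exact h4 k
    · refine Fintype.linearIndependent_iff.1 (X4_indep ht hy (D + 1))
        (fun p => g (p.1, some p.2)) ?_ (k, i)
      rw [Fintype.sum_prod_type]
      simpa only [h4, zero_smul, Finset.sum_const_zero, zero_add] using h3
  · rw [Finset.sum_comm, ← eq_neg_iff_add_eq_zero] at h3
    simpa only [Finset.sum_mul, smul_mul_assoc, neg_smul, neg_mul, Finset.sum_neg_distrib]
      using h3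

end Pool.Agent.E6b
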