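import Pool.Agent.E6b.Rig
import Pool.Agent.E6b.K2

open scoped NNReal TensorProduct IntermediateField BigOperators Classical Topology
open Filter

namespace Pool.Agent.E6b

section
variable {κ F F' : Type} [Field κ] [IsAlgClosed κ] [CharZero κ] [Field F] [Algebra κ F] [IsFF κ F]
  [Field F'] [Algebra κ F'] [IsFF κ F']

theorem X4a_int (φ : FHom κ F F') (P : Place κ F) {x : F'} (h : ∀ R, φ.res R = P → x ∈ R.O) :
    (φ.f.comp P.O.subtype).IsIntegralElem x := by
  let _ : Algebra P.O F' := (φ.f.comp P.O.subtype).toAlgebra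
  let B : Subalgebra κ F' :=
    { P.O.toSubring.map φ.f with
      algebraMap_mem' := fun c =>
        ⟨_, P.const (φ.c.symm c), by rw [φ.comm, RingEquiv.apply_symm_apply]⟩ }
  have h1 : IsIntegral B x := isIntegral_of_forall_mem B fun R hR =>
    h R (Place.eq_of_le (P := P) (Q := φ.res R) fun y hy => hR (φ.f y) ⟨y, hy, rfl⟩).symm
  let e : P.O ≃+* B := P.O.toSubring.equivMapOfInjective φ.f φ.f.injective
  exact (e.isIntegral_iff rfl x).2 h1

theorem X4a_nil {O K L : Type} [CommRing O] [IsDomain O] [IsIntegrallyClosed O] [Field K]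
    [CharZero K] [Field L] [Algebra O K] [IsFractionRing O K] [Algebra K L] [Algebra O L]
    [IsScalarTower O K L] [FiniteDimensional K L] {π : O} (hπ : algebraMap O K π ≠ 0) {x y : L}
    (hx : IsIntegral O x) (hy : IsIntegral O y) {n : ℕ} (e : x ^ n = y * algebraMap O L π) :
    ∃ (m : ℕ) (z : O), Algebra.trace K L x ^ m = algebraMap O K z * algebraMap O K π := by
  let E := AlgebraicClosure K
  let I : Ideal (integralClosure O E) := Ideal.span {algebraMap O _ π}
  have h1 : ∀ σ : L →ₐ[K] E, (⟨σ x, hx.map (σ.restrictScalars O)⟩ : integralClosure O E) ∈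
      I.radical := fun σ => ⟨n, Ideal.mem_span_singleton'.2
        ⟨⟨σ y, hy.map (σ.restrictScalars O)⟩, Subtype.ext (by
          have := congrArg (σ.restrictScalars O) e
          rw [map_pow, map_mul, AlgHom.commutes] at this
          exact this.symm)⟩⟩
  obtain ⟨m, hm⟩ := I.radical.sum_mem fun σ (_ : σ ∈ Finset.univ) => h1 σ
  obtain ⟨c, hc⟩ := Ideal.mem_span_singleton'.1 hm
  have h2 := congrArg (integralClosure O E).val hc
  rw [map_mul, map_pow, map_sum, AlgHom.commutes] at h2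
  have h3 : (c : E) * algebraMap O E π = algebraMap K E (Algebra.trace K L x) ^ m := by
    rw [trace_eq_sum_embeddings E]
    exact h2
  have h4 : (c : E) = algebraMap K E (Algebra.trace K L x ^ m / algebraMap O K π) := by
    rw [map_div₀, map_pow, ← h3, IsScalarTower.algebraMap_apply O K E,
      mul_div_cancel_right₀ _ ((map_ne_zero _).2 hπ)]
  have h5 : IsIntegral O (c : E) := c.2
  rw [h4, isIntegral_algebraMap_iff (algebraMap K E).injective] at h5
  obtain ⟨z, hz⟩ := IsIntegrallyClosed.isIntegral_iff.1 h5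
  exact ⟨m, z, by rw [hz, div_mul_cancel₀ _ hπ]⟩

/-- the trace of a function vanishing at all places above `P` vanishes at `P` -/
theorem FHom.tr_ord_pos (φ : FHom κ F F') (P : Place κ F) {x : F'}
    (h : ∀ R, φ.res R = P → x = 0 ∨ 0 < R.ord x) : φ.tr x = 0 ∨ 0 < P.ord (φ.tr x) := by
  let _ := φ.f.toAlgebra
  let _ : Algebra P.O F' := (φ.f.comp P.O.subtype).toAlgebra
  have : IsScalarTower P.O F F' := IsScalarTower.of_algebraMap_eq fun _ => rfl
  have := φ.finite
  have : FiniteDimensional F F' :=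
    Module.Finite.of_equiv_equiv φ.f.rangeRestrictFieldEquiv.symm (RingEquiv.refl F') (by
      ext y
      exact φ.f.rangeRestrictFieldEquiv_apply_symm_apply y)
  have : CharZero F := charZero_of_injective_algebraMap (algebraMap κ F).injective
  obtain ⟨π, hπ, h1⟩ := P.exists_ord_eq 1
  have hm : π ∈ P.O := P.mem_iff.2 (by omega)
  have hπ' : φ.f π ≠ 0 := (map_ne_zero _).2 hπ
  have hx : IsIntegral P.O x := X4a_int φ P fun R hR => by
    rcases h R hR with e | e
    · exact e ▸ zero_mem _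
    · exact R.mem_iff.2 e.le
  have hy : IsIntegral P.O (x ^ φ.deg / φ.f π) := X4a_int φ P fun R hR => by
    refine Rig_div_mem R (Or.inr ?_)
    refine (h R hR).imp (fun e => by rw [e, zero_pow φ.deg_pos.ne']) fun e => ?_
    have h2 : φ.e R ≤ φ.deg := φ.sum_e P ▸
      Finset.single_le_sum (f := φ.e) (fun _ _ => Nat.zero_le _) (φ.mem_fib.2 hR)
    rw [φ.ord_map, hR, h1, R.ord_pow]
    exact mul_le_mul (Int.ofNat_le.2 h2) e zero_le_one (Int.natCast_nonneg _)
  obtain ⟨m, z, hz⟩ := X4a_nil (K := F) (π := (⟨π, hm⟩ : P.O)) hπ hx hy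
    (div_mul_cancel₀ _ hπ').symm
  have h3 : P.O.valuation (φ.tr x ^ m) < 1 := by
    have h4 := F1a_val_mul_lt P (P.valuation_lt_one_iff.2 (Or.inr (by omega : 0 < P.ord π))) z.2
    rw [mul_comm] at h4
    exact (congrArg P.O.valuation hz).trans_lt h4
  rw [map_pow] at h3
  exact P.valuation_lt_one_iff.1 (lt_of_not_ge fun e => not_le.2 h3 (one_le_pow₀ e))

theorem X4a_one {T : F} (hT : T ∉ (algebraMap κ F).range) (h : κ⟮T⟯ = ⊤)
    (S : Finset (Place κ F)) (hS : ∀ P ∈ S, 0 < P.ord T) : ∑ P ∈ S, P.ord T ≤ 1 := by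
  have := F1_sum_ord_le hT S hS
  rwa [h, IntermediateField.finrank_top, Nat.cast_one] at this

theorem X4a_lin {T g : F} (hT : T ∉ (algebraMap κ F).range) (h : κ⟮T⟯ = ⊤)
    (h1 : ∀ P : Place κ F, T ∈ P.O → g ∈ P.O)
    (h2 : ∀ P : Place κ F, T ∉ P.O → g / T ^ 2 = 0 ∨ 0 < P.ord (g / T ^ 2)) :
    ∃ c0 c1 : κ, g = algebraMap κ F c0 + algebraMap κ F c1 * T := by
  have T0 : T ≠ 0 := fun e => hT ⟨0, by rw [map_zero, e]⟩
  have hT' : T⁻¹ ∉ (algebraMap κ F).range := fun ⟨c, hc⟩ =>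
    hT ⟨c⁻¹, by rw [map_inv₀, hc, inv_inv]⟩
  have h' : κ⟮T⁻¹⟯ = ⊤ := top_le_iff.1 (h ▸ IntermediateField.adjoin_simple_le_iff.2
    (by simpa using inv_mem (IntermediateField.mem_adjoin_simple_self κ T⁻¹)))
  obtain ⟨P0, hP0⟩ := exists_place_ev hT 0
  rw [map_zero, sub_zero] at hP0
  obtain ⟨c, hc⟩ := mem_range_of_forall_mem (κ := κ)
    (f := (g - algebraMap κ F (P0.ev g)) / T) fun P => by
      rcases lt_trichotomy (P.ord T) 0 with e | e | e
      · have h3 := X4a_one hT' h' {P} (by simpa [P.ord_inv] using e)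
        rw [Finset.sum_singleton, P.ord_inv] at h3
        rw [sub_div]
        refine sub_mem (Rig_div_mem P (Or.inr ?_))
          (Rig_div_mem P (Or.inr (Or.inr (by rw [P.ord_algebraMap]; omega))))
        by_cases g0 : g = 0
        · exact Or.inl g0
        · have h4 := (h2 P fun h5 => absurd (P.mem_iff.1 h5) (by omega)).resolve_left
            (div_ne_zero g0 (pow_ne_zero 2 T0))
          rw [P.ord_div g0 (pow_ne_zero 2 T0), P.ord_pow] at h4
          exact Or.inr (by omega)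
      · exact Rig_div_mem P (Or.inr (Or.inr (e.le.trans (P.mem_iff.1
          (sub_mem (h1 P (P.mem_iff.2 e.ge)) (P.const _))))))
      · obtain rfl : P = P0 := by
          by_contra h3
          have h4 := X4a_one hT h {P, P0} (by simp [e, hP0])
          rw [Finset.sum_pair h3] at h4
          omega
        have h3 := X4a_one hT h {P} (by simpa using e)
        rw [Finset.sum_singleton] at h3
        exact Rig_div_mem P (Or.inr ((P.ev_spec (h1 P (P.mem_iff.2 e.le))).imp sub_eq_zero.2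
          fun h4 => by omega))
  exact ⟨P0.ev g, c, by rw [hc, div_mul_cancel₀ _ T0, add_sub_cancel]⟩

theorem X4a_three {A B a b c : κ} (hns : B * (4 * A ^ 3 + 27 * B) ≠ 0)
    (h : ∀ e : κ, e ^ 3 + A * e ^ 2 + B = 0 → a * e ^ 2 + b * e + c = 0) :
    a = 0 ∧ b = 0 ∧ c = 0 := by
  let Q : Cubic κ := ⟨1, A, 0, B⟩
  have ha : Q.a ≠ 0 := one_ne_zero
  obtain ⟨x, y, z, h3⟩ := (Cubic.splits_iff_roots_eq_three (φ := RingHom.id κ) ha).1
    (IsAlgClosed.splits _)
  obtain ⟨hxy, hxz, hyz⟩ := (Cubic.discr_ne_zero_iff_roots_ne ha h3).1 fun e => hns (by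
    have e' : A ^ 2 * 0 ^ 2 - 4 * 1 * 0 ^ 3 - 4 * A ^ 3 * B - 27 * 1 ^ 2 * B ^ 2 +
      18 * 1 * A * 0 * B = 0 := e
    linear_combination -e')
  have hr : ∀ e ∈ ({x, y, z} : Multiset κ), a * e ^ 2 + b * e + c = 0 := fun e he => h e (by
    have e' : 1 * e ^ 3 + A * e ^ 2 + 0 * e + B = 0 :=
      (Cubic.mem_roots_iff (Cubic.ne_zero_of_a_ne_zero ha) e).1 (h3 ▸ he :)
    linear_combination e')
  have hx := hr x (by simp)
  have hy := hr y (by simp)
  have hz := hr z (by simp)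
  have h1 : a * (x + y) + b = 0 :=
    mul_left_cancel₀ (sub_ne_zero.2 hxy) (by linear_combination hx - hy)
  have h2 : a * (x + z) + b = 0 :=
    mul_left_cancel₀ (sub_ne_zero.2 hxz) (by linear_combination hx - hz)
  have h4 : a = 0 := mul_left_cancel₀ (sub_ne_zero.2 hyz) (by linear_combination h1 - h2)
  have h5 : b = 0 := by linear_combination h1 - (x + y) * h4
  exact ⟨h4, h5, by linear_combination hx - x ^ 2 * h4 - x * h5⟩

section
variable {κ₀ : Type} [Field κ₀] [Algebra κ₀ F] (d : Derivation κ₀ F F) (P : Place κ F)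
  (hP : ∀ f ∈ P.O, d f ∈ P.O) {A B : κ} {X Y : F}
  (h : Y ^ 2 = X ^ 3 + algebraMap κ F A * X ^ 2 + algebraMap κ F B)
include hP

theorem X4a_log {π f : F} (hπ : π ≠ 0) (h1 : P.ord π = 1) (hf : f ≠ 0) :
    π * (d f / f) ∈ P.O := by
  obtain ⟨u, hu, e⟩ := Rig_split d P hP hπ h1 hf
  have hm : π ∈ P.O := P.mem_iff.2 (by omega)
  rw [e, mul_add, mul_left_comm, mul_div_cancel₀ _ hπ]
  exact add_mem (mul_mem (P.const _) (hP _ hm)) (mul_mem hm hu)

include h

theorem X4a_pole (hA : A ≠ 0) (hX : X ∉ P.O) : d X / X ^ 2 = 0 ∨ 0 < P.ord (d X / X ^ 2) := by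
  have h0 : P.ord X < 0 := not_le.1 (mt P.mem_iff.2 hX)
  have X0 : X ≠ 0 := fun e => hX (e ▸ zero_mem _)
  have h1 := F1a_le_ord_add P (n := 2 * P.ord X) (f := algebraMap κ F A * X ^ 2)
    (g := algebraMap κ F B) (Or.inr (by
      rw [P.ord_mul ((map_ne_zero _).2 hA) (pow_ne_zero 2 X0), P.ord_algebraMap, P.ord_pow]
      omega)) (Or.inr (by rw [P.ord_algebraMap]; omega))
  have h2 := (P.ord_add_eq (pow_ne_zero 3 X0)
    (h1.imp_right fun e => by rw [P.ord_pow]; omega)).2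
  rw [← add_assoc, ← h, P.ord_pow, P.ord_pow] at h2
  obtain ⟨π, hπ, h3⟩ := P.exists_ord_eq 1
  have h4 : P.O.valuation (π * X)⁻¹ < 1 :=
    P.valuation_lt_one_iff.2 (Or.inr (by rw [P.ord_inv, P.ord_mul hπ X0]; omega))
  have h5 := F1a_val_mul_lt P h4 (X4a_log d P hP hπ h3 X0)
  rw [show (π * X)⁻¹ * (π * (d X / X)) = d X / X ^ 2 by field_simp] at h5
  exact P.valuation_lt_one_iff.1 h5

theorem X4a_root {e : κ} (he : e ^ 3 + A * e ^ 2 + B = 0)
    (hX : 0 < P.ord (X - algebraMap κ F e)) : Y * d Y = 0 ∨ 0 < P.ord (Y * d Y) := by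
  have hc := P.const e
  have h1 : X ∈ P.O := by simpa using add_mem (P.mem_iff.2 hX.le) hc
  have h2 : Y ^ 2 = (X - algebraMap κ F e) * (X * X + X * algebraMap κ F e +
      algebraMap κ F e * algebraMap κ F e + algebraMap κ F A * (X + algebraMap κ F e)) := by
    have := congrArg (algebraMap κ F) he
    simp only [map_add, map_mul, map_pow, map_zero] at this
    linear_combination h + this
  have h3 := F1a_val_mul_lt P (P.valuation_lt_one_iff.2 (Or.inr hX))
    (add_mem (add_mem (add_mem (mul_mem h1 h1) (mul_mem h1 hc)) (mul_mem hc hc))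
      (mul_mem (P.const A) (add_mem h1 hc)))
  rw [← h2, map_pow] at h3
  have h4 : P.O.valuation Y < 1 := lt_of_not_ge fun e => not_le.2 h3 (one_le_pow₀ e)
  exact P.valuation_lt_one_iff.1
    (F1a_val_mul_lt P h4 (hP _ ((P.O.valuation_le_one_iff Y).1 h4.le)))

end

theorem X4a_ev (P : Place κ F) {t : F} (ht : t ∈ P.O) (p : Polynomial κ) :
    P.ev (Polynomial.aeval t p) = p.eval (P.ev t) := by
  have h1 := Polynomial.aeval_algHom_apply P.evH (⟨t, ht⟩ : P.OA) p
  have h2 := Polynomial.aeval_algHom_apply P.OA.val (⟨t, ht⟩ : P.OA) p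
  rw [← Polynomial.coe_aeval_eq_eval]
  exact (congrArg P.ev h2).trans h1.symm

theorem X4a_main {κ₀ : Type} [Field κ₀] [Algebra κ₀ F'] (d : Derivation κ₀ F' F')
    (hP : ∀ (R : Place κ F') (f : F'), f ∈ R.O → d f ∈ R.O) {A B a b : κ}
    (ha : d (algebraMap κ F' A) = algebraMap κ F' a)
    (hb : d (algebraMap κ F' B) = algebraMap κ F' b) (hA : A ≠ 0)
    (hns : B * (4 * A ^ 3 + 27 * B) ≠ 0) (ψ : F →ₐ[κ] F') {T : F}
    (hT : T ∉ (algebraMap κ F).range) (htop : κ⟮T⟯ = ⊤) {Y : F'}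
    (h : Y ^ 2 = ψ T ^ 3 + algebraMap κ F' A * ψ T ^ 2 + algebraMap κ F' B) :
    3 * B * a = A * b := by
  let φ := FHom.ofAlgHom ψ
  have hφ : ∀ x, φ.f x = ψ x := fun _ => rfl
  obtain ⟨c0, c1, hξ⟩ := X4a_lin (g := φ.tr (d (ψ T))) hT htop
    (fun P hm => φ.tr_mem P fun R hR => hP R _ ((φ.map_mem_iff R T).2 (hR ▸ hm)))
    fun P hm => by
      have h1 := φ.tr_ord_pos P (x := φ.f (T ^ 2)⁻¹ * d (ψ T)) fun R hR => by
        rw [hφ, map_inv₀, map_pow, inv_mul_eq_div]
        exact X4a_pole d R (hP R) h hA fun e => hm (hR ▸ (φ.map_mem_iff R T).1 e)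
      rwa [φ.tr_mul, inv_mul_eq_div] at h1
  have e1 : φ.f 2 * (Y * d Y) = φ.f (3 * T ^ 2 + 2 * algebraMap κ F A * T) * d (ψ T) +
      φ.f (algebraMap κ F a * T ^ 2 + algebraMap κ F b) := by
    have h1 := congrArg d h
    simp only [map_add, Derivation.leibniz, Derivation.leibniz_pow, ha, hb, smul_eq_mul,
      nsmul_eq_mul] at h1
    simp only [hφ, map_add, map_mul, map_pow, map_ofNat, AlgHom.commutes]
    norm_num at h1
    linear_combination h1
  have e2 := congrArg φ.tr e1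
  rw [φ.tr_add, φ.tr_mul, φ.tr_mul, φ.tr_map, hξ] at e2
  obtain ⟨h1, h2, h3⟩ := X4a_three (a := 3 * c0 - A * c1 + φ.deg * a) (b := 2 * A * c0)
    (c := φ.deg * b - 3 * c1 * B) hns fun e he => by
      obtain ⟨P, hPe⟩ := exists_place_ev hT e
      have h1 : T ∈ P.O := by simpa using add_mem (P.mem_iff.2 hPe.le) (P.const e)
      have h2 := φ.tr_ord_pos P (x := Y * d Y) fun R hR => X4a_root d R (hP R) h he (by
        rw [← ψ.commutes, ← map_sub, ← hφ, φ.ord_map, hR]
        exact mul_pos (φ.F4_e_pos R) hPe)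
      have h3 : φ.tr (Y * d Y) ∈ P.O := h2.elim (fun e => e ▸ zero_mem _) fun e => P.mem_iff.2 e.le
      have h4 := X4a_ev P h1 (Polynomial.C 2⁻¹ * ((Polynomial.C 3 * Polynomial.X ^ 2 +
        Polynomial.C (2 * A) * Polynomial.X) * (Polynomial.C c0 + Polynomial.C c1 * Polynomial.X) +
        Polynomial.C (φ.deg : κ) * (Polynomial.C a * Polynomial.X ^ 2 + Polynomial.C b)))
      have : CharZero F := charZero_of_injective_algebraMap (algebraMap κ F).injective
      simp only [map_add, map_mul, map_pow, Polynomial.aeval_C, Polynomial.aeval_X, map_ofNat,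
        map_natCast, map_inv₀, Polynomial.eval_add, Polynomial.eval_mul, Polynomial.eval_pow,
        Polynomial.eval_C, Polynomial.eval_X, Polynomial.eval_ofNat, Polynomial.eval_natCast] at h4
      rw [← e2, inv_mul_cancel_left₀ two_ne_zero, (P.ev_eq_zero_iff h3).2 h2,
        P.ev_eq (Or.inr hPe)] at h4
      linear_combination -2 * h4 - 3 * c1 * he
  have h4 : c0 = 0 := (mul_eq_zero.1 h2).resolve_left (mul_ne_zero two_ne_zero hA)
  refine mul_left_cancel₀ (Nat.cast_ne_zero.2 φ.deg_pos.ne' : (φ.deg : κ) ≠ 0) ?_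
  linear_combination 3 * B * h1 - A * h3 - 9 * B * h4

/-- a constant curve has no map to a non isotrivial elliptic curve -/
theorem nomap_FO (o : Place κ F) {Ω : Type} [Field Ω] [IsAlgClosed Ω] [CharZero Ω] [Algebra κ Ω]
    (δ : Derivation κ Ω Ω) {A B : Ω} (hA : A ≠ 0) (hns : B * (4 * A ^ 3 + 27 * B) ≠ 0)
    (hδ : 3 * B * δ A ≠ A * δ B) {X Y : FO o Ω}
    (h : Y ^ 2 = X ^ 3 + algebraMap Ω _ A * X ^ 2 + algebraMap Ω _ B) :
    X ∈ (algebraMap Ω (FO o Ω)).range := by
  by_contra hX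
  obtain ⟨d, h1, -, h2, -⟩ := exists_derF (o := o) δ
  have hi : Function.Injective (Polynomial.aeval X : Polynomial Ω →ₐ[Ω] FO o Ω) :=
    transcendental_iff_injective.1 (transcendental_of_notMem hX)
  let ψ : RatFunc Ω →ₐ[Ω] FO o Ω := IsFractionRing.liftAlgHom hi
  have hψ : ψ RatFunc.X = X :=
    (IsFractionRing.lift_algebraMap (K := RatFunc Ω) hi Polynomial.X).trans (Polynomial.aeval_X X)
  refine hδ (X4a_main d h2 (h1 A) (h1 B) hA hns ψ (T := RatFunc.X) (Y := Y) ?_ RatFunc.adjoin_X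
    (by rwa [hψ]))
  rintro ⟨c, hc⟩
  exact hX ⟨c, by rw [← hψ, ← hc, ψ.commutes]⟩

end

end Pool.Agent.E6b
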