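import Pool.Agent.E6b.XDefs
import Pool.Agent.E6b.M2
import Pool.Agent.E6b.H1c

open scoped NNReal TensorProduct IntermediateField BigOperators Classical Topology
open Filter

namespace Pool.Agent.E6b

theorem X5a_countable (ι : Type) [Fintype ι] : Countable (MvPolynomial ι Qb) := by
  have := H1a_isAlgebraic
  have h1 : Cardinal.mk Qb ≤ Cardinal.aleph0 :=
    (Algebra.IsAlgebraic.cardinalMk_le_max ℚ Qb).trans (by simp)
  exact Cardinal.mk_le_aleph0_iff.1 (MvPolynomial.cardinalMk_le_max.trans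
    (sup_le (sup_le h1 Cardinal.mk_le_aleph0) le_rfl))

theorem X5a_avoid {ι : Type} (p : ℤ) (hp : p ≠ 0) (r : ι → ℤ) {Q : MvPolynomial ι Qb}
    (hQ : Q ≠ 0) : ∃ u : ι → ℤ, (∀ i, p ∣ u i - r i) ∧
      MvPolynomial.eval (fun i => (u i : Qb)) Q ≠ 0 := by
  by_contra h
  push Not at h
  refine hQ (MvPolynomial.funext_set (fun i => Set.range fun k : ℤ => ((r i + p * k : ℤ) : Qb))
    (fun i => Set.infinite_range_of_injective fun k l e => ?_) fun x hx => ?_)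
  · exact mul_left_cancel₀ hp (add_left_cancel (Int.cast_injective (α := Qb) e))
  · choose k hk using fun i => hx i trivial
    rw [map_zero, ← funext hk]
    exact h (fun i => r i + p * k i) fun i => ⟨k i, by ring⟩

/-- integer vectors in given congruence classes avoiding all hypersurfaces eventually -/
theorem exists_generic_seq {ι : Type} [Fintype ι] (p : ℤ) (hp : p ≠ 0) (r : ι → ℤ) :
    ∃ u : ℕ → ι → ℤ, (∀ n i, p ∣ u n i - r i) ∧ ∀ Q : MvPolynomial ι Qb, Q ≠ 0 →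
      ∀ᶠ n in atTop, MvPolynomial.eval (fun i => (u n i : Qb)) Q ≠ 0 := by
  have := X5a_countable ι
  obtain ⟨e, he⟩ := exists_surjective_nat (MvPolynomial ι Qb)
  choose u h1 h2 using fun n => X5a_avoid p hp r
    (Q := ∏ k ∈ (Finset.range n).filter fun k => e k ≠ 0, e k)
    (Finset.prod_ne_zero_iff.2 fun k hk => (Finset.mem_filter.1 hk).2)
  refine ⟨u, h1, fun Q hQ => ?_⟩
  obtain ⟨k, rfl⟩ := he Q
  refine (eventually_gt_atTop k).mono fun n hn => ?_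
  have h3 := h2 n
  rw [map_prod, Finset.prod_ne_zero_iff] at h3
  exact h3 k (Finset.mem_filter.2 ⟨Finset.mem_range.2 hn, hQ⟩)

theorem X5a_dvd {p : ℕ} (hp : p.Prime) {T : Qb} (hT : IsIntegral ℤ T) {c : ℤ}
    (h : p * T = c) : (p : ℤ) ∣ c := by
  by_contra hc
  obtain ⟨v, hv⟩ := exists_isPl (Or.inr hp)
  have h1 := H1a_coprime hv hp.ne_zero hc
  have h2 := hv.le_one_of_isIntegral hp.ne_zero hT
  rw [← h, map_mul, (H1a_prime hv hp.ne_zero).2] at h1
  have h3 : (1 : ℝ) < p := by exact_mod_cast hp.one_lt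
  rw [inv_mul_eq_one₀ (by positivity)] at h1
  linarith

variable {a : ℕ} (Λ : AR a)

theorem X5a_int (m : Fin 5 → ℤ) (s : Fin 5) : IsIntegral ℤ (Λ.pv m s) :=
  IsIntegral.sum _ fun i _ => (isIntegral_algebraMap (x := m i)).mul ((Λ.int s).pow _)

theorem AR.ns {m c : Fin 5 → ℤ} (h : Λ.Adm m c) (s : Fin 5) : (Λ.W m c s).Ns := by
  choose k hk using h.1
  have h1 : Λ.pv m s = 1 + Λ.p * Λ.pv k s := by
    have h2 : ∀ i, (m i : Qb) = (if i = 0 then 1 else 0) + Λ.p * k i := fun i => by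
      have h3 := congrArg (Int.cast : ℤ → Qb) (hk i)
      push_cast at h3
      linear_combination h3
    simp only [AR.pv, h2, Fin.sum_univ_five]
    simp
    ring
  have h0 : Λ.pv m s ≠ 0 := fun e => by
    have h3 := X5a_dvd Λ.prime (X5a_int Λ k s) (c := -1) (by push_cast; linear_combination e - h1)
    exact Λ.prime.one_lt.ne' (Nat.dvd_one.1 (Int.natCast_dvd_natCast.1 (dvd_neg.1 h3)))
  have h4 : 256 * Λ.p ^ 3 * Λ.pv m s + 27 ≠ 0 := fun e => by
    have h3 := X5a_dvd Λ.prime ((isIntegral_algebraMap (x := (256 * Λ.p ^ 2 : ℤ))).mul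
      (X5a_int Λ m s)) (c := -27) (by simp only [eq_intCast]; push_cast; linear_combination e)
    have h5 : Λ.p ∣ 3 ^ 3 := Int.natCast_dvd_natCast.1 (dvd_neg.1 h3)
    have h6 := Nat.le_of_dvd (by norm_num) (Λ.prime.dvd_of_dvd_pow h5)
    have := Λ.big
    omega
  intro e
  refine mul_ne_zero (pow_ne_zero 4 h0) h4 ?_
  simp only [AR.W] at e
  linear_combination e

theorem AR.τ_injective : Function.Injective fun s => Λ.θ s ^ 2 + Λ.k * Λ.θ s := by
  intro s s' e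
  by_contra h
  obtain ⟨v, -, h1, -⟩ := Λ.ram s s' h
  rw [sub_eq_zero.2 e, map_zero] at h1
  exact inv_ne_zero (Nat.cast_ne_zero.2 Λ.prime.ne_zero) h1.symm

open MvPolynomial in
/-- the values `pv m s`, `pv c s` of a generic sequence are independent in the ultrapower -/
theorem AR.indep (U : Ultrafilter ℕ) (hU : (U : Filter ℕ) ≤ atTop) (u : ℕ → Fin 5 ⊕ Fin 5 → ℤ)
    (hu : ∀ Q : MvPolynomial (Fin 5 ⊕ Fin 5) Qb, Q ≠ 0 →
      ∀ᶠ n in atTop, MvPolynomial.eval (fun i => (u n i : Qb)) Q ≠ 0) :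
    AlgebraicIndependent Qb (Sum.elim (fun s => gm U fun n => Λ.pv (fun i => u n (.inl i)) s)
      fun s => gm U fun n => Λ.pv (fun i => u n (.inr i)) s) := by
  let L : Fin 5 ⊕ Fin 5 → MvPolynomial (Fin 5 ⊕ Fin 5) Qb := Sum.elim
    (fun s => ∑ i : Fin 5, X (.inl i) * C (Λ.θ s ^ (i : ℕ)))
    fun s => ∑ i : Fin 5, X (.inr i) * C (Λ.θ s ^ (i : ℕ))
  have hV : Function.Surjective (Matrix.vandermonde Λ.θ).mulVec :=
    Matrix.mulVec_surjective_iff_isUnit.2 ((Matrix.isUnit_iff_isUnit_det _).2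
      (Matrix.det_vandermonde_ne_zero_iff.2 Λ.inj).isUnit)
  refine algebraicIndependent_iff.2 fun P hP => ?_
  by_contra h0
  have h1 : bind₁ L P ≠ 0 := fun e => h0 (MvPolynomial.funext fun b => by
    obtain ⟨a₁, h₁⟩ := hV fun s => b (.inl s)
    obtain ⟨a₂, h₂⟩ := hV fun s => b (.inr s)
    have h2 := congrArg (aeval (Sum.elim a₁ a₂)) e
    rw [aeval_bind₁, map_zero] at h2
    rw [map_zero, ← h2]
    change aeval b P = _
    congr 2
    funext j
    rcases j with s | s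
    · simp [L, ← congrFun h₁ s, Matrix.mulVec, dotProduct, mul_comm]
    · simp [L, ← congrFun h₂ s, Matrix.mulVec, dotProduct, mul_comm])
  have h3 := (gm_ne_iff U _ fun _ => 0).2 (hU (hu _ h1))
  refine h3 (Eq.trans ?_ hP)
  have h4 := gm_aeval U P fun j n => aeval (fun i => (u n i : Qb)) (L j)
  refine Eq.trans ?_ (h4.trans ?_)
  · congr 1
    funext n
    exact aeval_bind₁ (fun i => (u n i : Qb)) L P
  · congr 2
    funext j
    rcases j with s | s <;> simp [L, AR.pv]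

theorem X5a_acl {κ Ω ι : Type} [Field κ] [Field Ω] [Algebra κ Ω] {z : ι → Ω}
    (hz : AlgebraicIndependent κ z) (j : ι) : ∃ K : IntermediateField κ Ω,
      (∀ i, i ≠ j → z i ∈ K) ∧ z j ∉ K ∧ ∀ x, IsAlgebraic K x → x ∈ K := by
  refine ⟨(algebraicClosure (IntermediateField.adjoin κ (z '' {j}ᶜ)) Ω).restrictScalars κ,
    fun i hi => mem_algebraicClosure_iff.2 (isAlgebraic_algebraMap
      (⟨z i, IntermediateField.subset_adjoin κ _ ⟨i, hi, rfl⟩⟩ :
        IntermediateField.adjoin κ (z '' {j}ᶜ))), fun h => ?_, fun x hx => ?_⟩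
  · exact IntermediateField.transcendental_adjoin_iff.2
      (hz.transcendental_adjoin (s := {j}ᶜ) (i := j) fun h => h rfl) (mem_algebraicClosure_iff.1 h)
  · have hx' : IsAlgebraic (algebraicClosure (IntermediateField.adjoin κ (z '' {j}ᶜ)) Ω) x := hx
    exact mem_algebraicClosure_iff.2 (hx'.restrictScalars _)

/-- the equations of a critical point -/
def X5a_Sp {R : Type} [CommRing R] (a p : ℕ) (M x y : R) : Prop :=
  y ^ 2 = x ^ 3 + 4 * p * M * x ^ 2 + M ^ 2 ∧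
    (2 * a + 3) * x ^ 4 + (2 * a + 2) * (4 * p * M) * x ^ 3 + 2 * a * M ^ 2 * x = 0

theorem X5a_map {R S : Type} [CommRing R] [CommRing S] (φ : R →+* S) {a p : ℕ} {M x y : R}
    (h : X5a_Sp a p M x y) : X5a_Sp a p (φ M) (φ x) (φ y) :=
  ⟨by simpa [map_ofNat] using congrArg φ h.1, by simpa [map_ofNat] using congrArg φ h.2⟩

open Polynomial in
theorem X5a_mem {κ Ω : Type} [Field κ] [Field Ω] [CharZero Ω] [Algebra κ Ω]
    {K : IntermediateField κ Ω} (hK : ∀ x, IsAlgebraic K x → x ∈ K) {a p : ℕ} {M x y : Ω}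
    (hM : M ∈ K) (h : X5a_Sp a p M x y) : x ^ a * y ∈ K := by
  have : CharZero K := (algebraMap K Ω).charZero
  have hx : x ∈ K := by
    refine hK x ⟨C (2 * a + 3 : K) * X ^ 4 + C ((2 * a + 2) * (4 * p * ⟨M, hM⟩) : K) * X ^ 3 +
      C (2 * a * ⟨M, hM⟩ ^ 2 : K) * X, fun e => ?_, ?_⟩
    · have h1 := congrArg (coeff · 4) e
      simp only [coeff_add, coeff_C_mul, coeff_X_pow, coeff_X, coeff_zero] at h1
      norm_num at h1
      exact absurd h1 (by exact_mod_cast (by omega : 2 * a + 3 ≠ 0))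
    · simpa [map_ofNat] using h.2
  refine mul_mem (pow_mem hx _) (hK y (IsAlgebraic.of_pow two_pos ?_))
  exact isAlgebraic_algebraMap (A := Ω) (⟨y ^ 2, h.1 ▸ add_mem (add_mem (pow_mem hx _)
    (mul_mem (mul_mem (mul_mem (ofNat_mem K 4) (natCast_mem K p)) hM) (pow_mem hx _)))
    (pow_mem hM _)⟩ : K)

theorem X5a_br {m c : Fin 5 → ℤ} {s : Fin 5} {e : Option Qb} (h : e ∈ (Λ.W m c s).Br a) :
    e = some (Λ.θ s ^ 2 + Λ.k * Λ.θ s) ∨ ∃ x y : Qb, X5a_Sp a Λ.p (Λ.pv m s) x y ∧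
      (x ^ a * y + Λ.pv c s = 0 ∧ e = none ∨ x ^ a * y + Λ.pv c s ≠ 0 ∧
        e = some (Λ.θ s ^ 2 + Λ.k * Λ.θ s + (x ^ a * y + Λ.pv c s)⁻¹)) := by
  refine h.imp_right fun ⟨x, y, h1, h2, h3⟩ => ⟨x, y, ⟨h1, ?_⟩, ?_⟩
  · simp only [WP.f, AR.W, Algebra.algebraMap_self, RingHom.id_apply] at h2
    linear_combination h2
  · split_ifs at h3 with h4
    exacts [Or.inl ⟨h4, h3⟩, Or.inr ⟨h4, h3⟩]

theorem X5a_wit (m c : Fin 5 → ℤ) {s s' : Fin 5} (hs : s ≠ s') : ∃ x y x' y' : Qb,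
    X5a_Sp a Λ.p (Λ.pv m s) x y ∧ X5a_Sp a Λ.p (Λ.pv m s') x' y' ∧
    (¬ Disjoint ((Λ.W m c s).Br a) ((Λ.W m c s').Br a) → ∀ δ u u' : Qb,
      δ = (Λ.θ s ^ 2 + Λ.k * Λ.θ s) - (Λ.θ s' ^ 2 + Λ.k * Λ.θ s') → u = x ^ a * y + Λ.pv c s →
      u' = x' ^ a * y' + Λ.pv c s' →
      (δ * u' - 1) * (δ * u + 1) * (δ * u * u' + u' - u) = 0) := by
  have h0 : ∀ M : Qb, X5a_Sp a Λ.p M 0 M := fun M => ⟨by ring, by ring⟩
  by_cases h : Disjoint ((Λ.W m c s).Br a) ((Λ.W m c s').Br a)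
  · exact ⟨_, _, _, _, h0 _, h0 _, fun h' => absurd h h'⟩
  obtain ⟨e, h1, h2⟩ := Set.not_disjoint_iff.1 h
  rcases X5a_br Λ h1 with rfl | ⟨x, y, a1, a2⟩ <;> rcases X5a_br Λ h2 with h2 | ⟨x', y', b1, b2⟩
  · exact absurd (Λ.τ_injective (Option.some.inj h2)) hs
  · refine ⟨_, _, x', y', h0 _, b1, fun _ δ u u' e1 _ e3 => ?_⟩
    rw [← e3] at b2
    obtain ⟨-, h3⟩ | ⟨h3, h4⟩ := b2
    · cases h3
    have h4 : δ * u' - 1 = 0 := by
      rw [e1, Option.some.inj h4, add_sub_cancel_left, inv_mul_cancel₀ h3, sub_self]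
    rw [h4, zero_mul, zero_mul]
  · refine ⟨x, y, _, _, a1, h0 _, fun _ δ u u' e1 e2 _ => ?_⟩
    rw [← e2, h2] at a2
    obtain ⟨-, h3⟩ | ⟨h3, h4⟩ := a2
    · cases h3
    have h4 : δ * u + 1 = 0 := by
      rw [e1, Option.some.inj h4, sub_add_cancel_left, neg_mul, inv_mul_cancel₀ h3,
        neg_add_cancel]
    rw [h4, mul_zero, zero_mul]
  · refine ⟨x, y, x', y', a1, b1, fun _ δ u u' e1 e2 e3 => mul_eq_zero_of_right _ ?_⟩
    rw [← e2] at a2
    rw [← e3] at b2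
    rcases a2 with ⟨h3, rfl⟩ | ⟨h3, rfl⟩ <;> rcases b2 with ⟨h4, h5⟩ | ⟨h4, h5⟩
    · rw [h3, h4]
      ring
    · cases h5
    · cases h5
    · have h5 : δ = u'⁻¹ - u⁻¹ := by linear_combination e1 + Option.some.inj h5
      rw [h5]
      field_simp
      ring

theorem AR.eventually_br (ha : 1 ≤ a) (U : Ultrafilter ℕ) (m c : ℕ → Fin 5 → ℤ)
    (hi : AlgebraicIndependent Qb (Sum.elim (fun s => gm U fun n => Λ.pv (m n) s)
      fun s => gm U fun n => Λ.pv (c n) s)) :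
    ∀ᶠ n in (U : Filter ℕ), ∀ s s', s ≠ s' →
      Disjoint ((Λ.W (m n) (c n) s).Br a) ((Λ.W (m n) (c n) s').Br a) := by
  have _ := ha
  refine eventually_all.2 fun s => eventually_all.2 fun s' => eventually_all.2 fun hs => ?_
  by_contra h
  choose x y x' y' h1 h2 h3 using fun n => X5a_wit Λ (m n) (c n) hs
  have a1 := X5a_map (U1_hom U) (a := a) (p := Λ.p) (M := fun n => Λ.pv (m n) s) (x := x) (y := y)
    ⟨funext fun n => (h1 n).1, funext fun n => (h1 n).2⟩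
  have a2 := X5a_map (U1_hom U) (a := a) (p := Λ.p) (M := fun n => Λ.pv (m n) s') (x := x')
    (y := y') ⟨funext fun n => (h2 n).1, funext fun n => (h2 n).2⟩
  have a3 := (gm_eq_zero_iff U _).2
    ((Ultrafilter.eventually_not.2 h).mono fun n hn => h3 n hn _ _ _ rfl rfl rfl)
  obtain ⟨δ, hδ⟩ : ∃ δ, δ = (Λ.θ s ^ 2 + Λ.k * Λ.θ s) - (Λ.θ s' ^ 2 + Λ.k * Λ.θ s') := ⟨_, rfl⟩
  rw [← hδ] at a3
  have a4 : ∀ f : ℕ → Qb, U1_hom U f = gm U f := fun _ => rfl
  have a5 : (gm U fun _ => δ) = algebraMap Qb (UP U Qb) δ := rfl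
  have a6 : (gm U fun _ => (1 : Qb)) = 1 := rfl
  simp only [gm_mul, gm_sub, gm_add, gm_pow, a5, a6] at a3
  simp only [a4] at a1 a2
  obtain ⟨K, k1, k2, k3⟩ := X5a_acl hi (.inr s)
  obtain ⟨K', l1, l2, l3⟩ := X5a_acl hi (.inr s')
  have w1 := X5a_mem k3 (k1 (.inl s) (by simp)) a1
  have w2 := X5a_mem l3 (l1 (.inl s) (by simp)) a1
  have w3 := X5a_mem l3 (l1 (.inl s') (by simp)) a2
  have w4 := add_mem w2 (l1 (.inr s) (by simpa using hs))
  have w5 : ¬ _ ∈ K := fun e => k2 ((add_mem_cancel_left w1).1 e)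
  have w6 : ¬ _ ∈ K' := fun e => l2 ((add_mem_cancel_left w3).1 e)
  simp only [Sum.elim_inr] at w4 w5 w6
  generalize gm U x ^ a * gm U y + (gm U fun n => Λ.pv (c n) s) = u at a3 w4 w5
  generalize gm U x' ^ a * gm U y' + (gm U fun n => Λ.pv (c n) s') = u' at a3 w6
  have b1 : algebraMap Qb (UP U Qb) δ * u + 1 ≠ 0 := fun e => w5 (by
    rw [eq_inv_of_mul_eq_one_right (a := -algebraMap Qb (UP U Qb) δ) (b := u)
      (by linear_combination -e)]
    exact inv_mem (neg_mem (K.algebraMap_mem δ)))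
  have b2 : algebraMap Qb (UP U Qb) δ * u' - 1 ≠ 0 := fun e => w6 (by
    rw [eq_inv_of_mul_eq_one_right (sub_eq_zero.1 e)]
    exact inv_mem (K'.algebraMap_mem δ))
  have b3 := (mul_eq_zero.1 a3).resolve_left (mul_ne_zero b2 b1)
  refine w6 ?_
  rw [eq_div_of_mul_eq b1 (show u' * _ = u by linear_combination b3)]
  exact div_mem w4 (add_mem (mul_mem (K'.algebraMap_mem δ) w4) (one_mem _))

end Pool.Agent.E6b
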