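import Pool.Agent.E6b.X3
import Pool.Agent.E6b.X4
import Pool.Agent.E6b.X5a

open scoped NNReal TensorProduct IntermediateField BigOperators Classical Topology
open Filter

namespace Pool.Agent.E6b

/-- the polynomial defining a cover -/
noncomputable def X5_poly {K : Type} [Field K] (a : ℕ) (A B R : K) : Polynomial K :=
  Polynomial.X ^ (2 * a) * (Polynomial.X ^ 3 + Polynomial.C A * Polynomial.X ^ 2 + Polynomial.C B) -
    Polynomial.C R

theorem X5_deg {K : Type} [Field K] (a : ℕ) (A B R : K) : 0 < (X5_poly a A B R).degree := by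
  have h1 : (Polynomial.X ^ 3 + Polynomial.C A * Polynomial.X ^ 2 + Polynomial.C B :
      Polynomial K).degree = 3 := by compute_degree!
  have h2 : 0 < (Polynomial.X ^ (2 * a) * (Polynomial.X ^ 3 + Polynomial.C A * Polynomial.X ^ 2 +
      Polynomial.C B) : Polynomial K).degree := by
    rw [Polynomial.degree_mul, Polynomial.degree_X_pow, h1]
    exact_mod_cast (by omega : 0 < 2 * a + 3)
  rw [X5_poly, Polynomial.degree_sub_C h2]
  exact h2

theorem X5_aeval {K L : Type} [Field K] [Field L] [Algebra K L] (a : ℕ) (A B R : K) (x : L) :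
    Polynomial.aeval x (X5_poly a A B R) =
      x ^ (2 * a) * (x ^ 3 + algebraMap K L A * x ^ 2 + algebraMap K L B) - algebraMap K L R := by
  simp [X5_poly]

theorem X5_alg {κ L : Type} [Field κ] [Field L] [Algebra κ L] (W : WP κ) {a : ℕ} {t x : L}
    (h : W.Rel a t x) : IsAlgebraic κ⟮t⟯ x := by
  let t' : κ⟮t⟯ := ⟨t, IntermediateField.mem_adjoin_simple_self κ t⟩
  refine ⟨X5_poly a (algebraMap κ _ W.A) (algebraMap κ _ W.B)
    (((t' - algebraMap κ _ W.τ)⁻¹ - algebraMap κ _ W.c) ^ 2),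
    Polynomial.ne_zero_of_degree_gt (X5_deg _ _ _ _), ?_⟩
  rw [X5_aeval, map_pow, map_sub, map_inv₀, map_sub, ← IsScalarTower.algebraMap_apply,
    ← IsScalarTower.algebraMap_apply, ← IsScalarTower.algebraMap_apply,
    ← IsScalarTower.algebraMap_apply, sub_eq_zero]
  exact h

theorem X5_root {κ L : Type} [Field κ] [Field L] [IsAlgClosed L] [Algebra κ L] (W : WP κ) (a : ℕ)
    (t : L) : ∃ x : L, W.Rel a t x := by
  obtain ⟨x, hx⟩ := IsAlgClosed.exists_root (X5_poly a (algebraMap κ L W.A) (algebraMap κ L W.B)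
    (((t - algebraMap κ L W.τ)⁻¹ - algebraMap κ L W.c) ^ 2)) (X5_deg _ _ _ _).ne'
  refine ⟨x, ?_⟩
  have h := hx.eq_zero
  rw [← Polynomial.coe_aeval_eq_eval, X5_aeval, sub_eq_zero] at h
  exact h

theorem X5_tX : tX ∉ (algebraMap Qb LX).range := by
  rintro ⟨c, hc⟩
  rw [IsScalarTower.algebraMap_apply Qb (RatFunc Qb) LX] at hc
  have h := (algebraMap (RatFunc Qb) LX).injective hc
  have h2 : RatFunc.intDegree (algebraMap Qb (RatFunc Qb) c) = 0 := RatFunc.intDegree_C c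
  rw [h, RatFunc.intDegree_X] at h2
  exact one_ne_zero h2

/-- bounded representation in the monomials -/
def X5_Rep {κ L : Type} [Field κ] [Field L] (φ : κ →+* L) {N d : ℕ} (J : Finset (Fin 5)) (t : L)
    (x : Fin 5 → L) (X : L) (β : Fin N → κ) (α : (J → Fin d) → Fin N → κ) : Prop :=
  β ≠ 0 ∧ (∑ k, φ (β k) * t ^ (k : ℕ)) * X =
    ∑ μ, (∑ k, φ (α μ k) * t ^ (k : ℕ)) * ∏ s : J, x s ^ (μ s : ℕ)

theorem X5_mem {Ω L : Type} [Field Ω] [IsAlgClosed Ω] [Field L] [Algebra Ω L] {N d : ℕ}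
    {J : Finset (Fin 5)} {t : L} (ht : t ∉ (algebraMap Ω L).range) {x : Fin 5 → L} {X : L}
    {β : Fin N → Ω} {α : (J → Fin d) → Fin N → Ω} (h : X5_Rep (algebraMap Ω L) J t x X β α) :
    X ∈ IntermediateField.adjoin Ω (insert t ((J.image x : Finset L) : Set L)) := by
  set F := IntermediateField.adjoin Ω (insert t ((J.image x : Finset L) : Set L))
  have htF : t ∈ F := IntermediateField.subset_adjoin _ _ (Set.mem_insert _ _)
  have hxF : ∀ s : J, x s ∈ F := fun s => IntermediateField.subset_adjoin _ _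
    (Set.mem_insert_of_mem _ (Finset.mem_coe.2 (Finset.mem_image_of_mem x s.2)))
  have hs : ∀ γ : Fin N → Ω, (∑ k, algebraMap Ω L (γ k) * t ^ (k : ℕ)) ∈ F := fun γ =>
    sum_mem fun k _ => mul_mem (F.algebraMap_mem _) (pow_mem htF _)
  have hne : (∑ k, algebraMap Ω L (β k) * t ^ (k : ℕ)) ≠ 0 := by
    intro h0
    refine F0_transcendental ht ⟨∑ k : Fin N, Polynomial.C (β k) * Polynomial.X ^ (k : ℕ), ?_, ?_⟩
    · intro h1
      refine h.1 (funext fun j => ?_)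
      have h2 := congrArg (fun q : Polynomial Ω => q.coeff j) h1
      simpa [Polynomial.finsetSum_coeff, Polynomial.coeff_C_mul, Polynomial.coeff_X_pow,
        Fin.val_inj] using h2
    · simpa using h0
  have h3 : X = (∑ k, algebraMap Ω L (β k) * t ^ (k : ℕ))⁻¹ *
      ∑ μ, (∑ k, algebraMap Ω L (α μ k) * t ^ (k : ℕ)) * ∏ s : J, x s ^ (μ s : ℕ) := by
    rw [← h.2, ← mul_assoc, inv_mul_cancel₀ hne, one_mul]
  rw [h3]
  exact mul_mem (inv_mem (hs β)) (sum_mem fun μ _ => mul_mem (hs _)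
    (prod_mem fun s _ => pow_mem (hxF s) _))

section
variable {κ L : Type} [Field κ] [IsAlgClosed κ] [CharZero κ] [Field L] [Algebra κ L] {a : ℕ}
  (D : TD κ L a)

theorem X5_rep (J : Finset (Fin 5)) {b : ℕ} (f : D.F J) (hf : deg (dinf κ f) ≤ b) :
    ∃ (β : Fin (b + Fintype.card (J → Fin (2 * a + 3)) * (10 * (2 * a + 3) ^ 5) + 1) → κ)
      (α : (J → Fin (2 * a + 3)) →
        Fin (b + Fintype.card (J → Fin (2 * a + 3)) * (10 * (2 * a + 3) ^ 5) + 1) → κ),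
      X5_Rep (algebraMap κ L) J D.t D.x (f : L) β α := by
  obtain ⟨β, α, h1, h2⟩ := exists_repr_bdd (D.nc_tF J) _ (D.indep_mon J)
    (by rw [D.rk_eq, Fintype.card_fun, Fintype.card_fin, Fintype.card_coe])
    (c := 10 * (2 * a + 3) ^ 5) (b := b) (fun μ => by exact_mod_cast D.deg_mon_le J μ) hf
  refine ⟨β, α, h1, ?_⟩
  have h3 := congrArg (D.F J).val h2
  simp only [map_mul, map_sum, map_pow, map_prod, Algebra.smul_def, AlgHom.commutes] at h3
  exact h3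

theorem X5_extract {s : Fin 5} {J : Finset (Fin 5)} {B : ℕ}
    (h : ¬ NoMap κ (D.F {s}) (D.F J) B) : ∃ X Y : D.F J,
      (X : L) ∉ (algebraMap κ L).range ∧ (Y : L) ^ 2 = (D.W s).f (X : L) ∧
      deg (dinf κ X) ≤ (3 * B : ℕ) ∧ deg (dinf κ Y) ≤ (3 * B : ℕ) := by
  obtain ⟨φ, hφ⟩ := not_forall.1 h
  have hφ' := not_lt.1 hφ
  have w := D.wc s
  set x := D.xF (Finset.mem_singleton_self s)
  set y := (D.W s).y a (D.tF {s}) x
  have hy : y ∉ (algebraMap κ (D.F {s})).range := by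
    rintro ⟨c, hc⟩
    refine F0_transcendental w.x_notMem ⟨X5_poly 0 (D.W s).A (D.W s).B (c ^ 2),
      Polynomial.ne_zero_of_degree_gt (X5_deg _ _ _ _), ?_⟩
    rw [X5_aeval, map_pow, hc, w.y_sq, mul_zero, pow_zero, one_mul]
    exact sub_self _
  obtain ⟨a1, a2⟩ := rk_map (FHom.ofAlgHom φ) w.x_notMem
  obtain ⟨b1, b2⟩ := rk_map (FHom.ofAlgHom φ) hy
  rw [w.rk_x] at a2
  rw [w.rk_y] at b2
  refine ⟨φ x, φ y, ?_, ?_, ?_, ?_⟩
  · rintro ⟨c, hc⟩
    exact a1 ⟨c, Subtype.ext hc⟩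
  · have h1 := congrArg (fun z => (D.F J).val (φ z)) w.y_sq
    simp only [WP.f, map_add, map_mul, map_pow, AlgHom.commutes] at h1
    exact h1
  · refine (deg_dinf_rk a1).trans_le ?_
    rw [a2]
    exact_mod_cast (by omega)
  · refine (deg_dinf_rk b1).trans_le ?_
    rw [b2]
    exact_mod_cast (by omega)

end

theorem X5_core {κ Ω L : Type} [Field κ] [CharZero κ] [Field Ω] [IsAlgClosed Ω] [CharZero Ω]
    [Field L] [Algebra κ Ω] [Algebra Ω L] {v : Fin 5 ⊕ Fin 5 → Ω} (hv : AlgebraicIndependent κ v)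
    {q : κ} (hq : q ≠ 0) (τ : Fin 5 → κ) {a : ℕ} {s : Fin 5} {J : Finset (Fin 5)} (hs : s ∉ J)
    {t : L} (ht : t ∉ (algebraMap Ω L).range) {x : Fin 5 → L}
    (hx : ∀ j ∈ J, (WP.mk (algebraMap κ Ω q * v (.inl j)) (v (.inl j) ^ 2) (v (.inr j))
      (algebraMap κ Ω (τ j))).Rel a t (x j)) {X Y : L}
    (hX : X ∈ IntermediateField.adjoin Ω (insert t ((J.image x : Finset L) : Set L)))
    (hY : Y ∈ IntermediateField.adjoin Ω (insert t ((J.image x : Finset L) : Set L)))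
    (h : Y ^ 2 = X ^ 3 + algebraMap Ω L (algebraMap κ Ω q * v (.inl s)) * X ^ 2 +
      algebraMap Ω L (v (.inl s) ^ 2)) : X ∈ (algebraMap Ω L).range := by
  obtain ⟨K, hK, hmem⟩ := exists_acl (κ := κ) (v '' {i | i ≠ .inl s})
  have : CharZero K := charZero_of_injective_algebraMap (algebraMap κ K).injective
  have hvK : ∀ i, i ≠ .inl s → v i ∈ K := fun i hi => (hmem _).2 (isAlgebraic_algebraMap
    (⟨v i, IntermediateField.subset_adjoin _ _ ⟨i, hi, rfl⟩⟩ :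
      IntermediateField.adjoin κ (v '' {i | i ≠ .inl s})))
  have hM : Transcendental K (v (.inl s)) := by
    refine F0_transcendental ?_
    rintro ⟨c, hc⟩
    have h1 : v (.inl s) ∈ K := hc ▸ c.2
    exact IntermediateField.transcendental_adjoin_iff.2
      (hv.transcendental_adjoin (s := {i | i ≠ .inl s}) (i := .inl s) (fun h => h rfl))
      ((hmem _).1 h1)
  obtain ⟨δ, hδ⟩ := exists_derivation hM
  have hδc : ∀ c : κ, δ (algebraMap κ Ω c) = 0 := fun c => by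
    rw [IsScalarTower.algebraMap_apply κ K Ω]
    exact δ.map_algebraMap _
  have hq' : algebraMap κ Ω q ≠ 0 := (map_ne_zero _).2 hq
  have hM0 : v (.inl s) ≠ 0 := fun h0 => by
    rw [h0, map_zero] at hδ
    exact zero_ne_one hδ
  have hM1 : 4 * algebraMap κ Ω q ^ 3 * v (.inl s) + 27 ≠ 0 := fun h0 => by
    have h1 : algebraMap κ Ω (4 * q ^ 3) * v (.inl s) + algebraMap κ Ω 27 = 0 := by
      rw [map_mul, map_pow, map_ofNat, map_ofNat]
      exact h0
    have h2 := congrArg δ h1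
    rw [map_add, δ.leibniz, hδc, hδc, hδ, map_zero, smul_zero, add_zero, add_zero, smul_eq_mul,
      mul_one, map_eq_zero] at h2
    exact mul_ne_zero (by norm_num) (pow_ne_zero 3 hq) h2
  refine nomap_field δ (mul_ne_zero hq' hM0) ?_ ?_ ht (J.image x) ?_ hX hY h
  · have : v (.inl s) ^ 2 * (4 * (algebraMap κ Ω q * v (.inl s)) ^ 3 + 27 * v (.inl s) ^ 2) =
        v (.inl s) ^ 4 * (4 * algebraMap κ Ω q ^ 3 * v (.inl s) + 27) := by ring
    rw [this]
    exact mul_ne_zero (pow_ne_zero _ hM0) hM1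
  · rw [δ.leibniz, hδc, δ.leibniz_pow, hδ]
    simp only [smul_eq_mul, mul_one, mul_zero, add_zero, nsmul_eq_mul]
    intro h0
    refine mul_ne_zero hq' (pow_ne_zero 2 hM0) ?_
    push_cast at h0
    linear_combination h0
  · intro z hz
    obtain ⟨j, hj, rfl⟩ := Finset.mem_image.1 hz
    have hjs : j ≠ s := fun e => hs (e ▸ hj)
    have m1 : v (.inl j) ∈ K := hvK _ fun e => hjs (Sum.inl_injective e)
    have m2 : v (.inr j) ∈ K := hvK _ Sum.inr_ne_inl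
    exact X5_alg (WP.mk (⟨_, mul_mem (K.algebraMap_mem q) m1⟩ : K) ⟨_, pow_mem m1 2⟩ ⟨_, m2⟩
      ⟨_, K.algebraMap_mem (τ j)⟩) (hx j hj)

section
variable (U : Ultrafilter ℕ) (φ : UP U Qb →+* UP U LX)
  (hφ : ∀ x : ℕ → Qb, φ (gm U x) = gm U fun n => algebraMap Qb LX (x n))

include hφ

theorem X5_lim_rep {N d : ℕ} {J : Finset (Fin 5)} {t : LX} {x : ℕ → Fin 5 → LX} {X : ℕ → LX}
    {β : ℕ → Fin N → Qb} {α : ℕ → (J → Fin d) → Fin N → Qb}
    (h : ∀ᶠ n in (U : Filter ℕ), X5_Rep (algebraMap Qb LX) J t (x n) (X n) (β n) (α n)) :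
    X5_Rep φ J (gm U fun _ => t) (fun j => gm U fun n => x n j) (gm U X)
      (fun k => gm U fun n => β n k) (fun μ k => gm U fun n => α n μ k) := by
  refine ⟨fun h0 => ?_, ?_⟩
  · have h1 : ∀ᶠ n in (U : Filter ℕ), ∀ k, β n k = 0 :=
      eventually_all.2 fun k => (gm_eq_zero_iff U _).1 (congrFun h0 k)
    obtain ⟨n, h2, h3⟩ := (h.and h1).exists
    exact h2.1 (funext h3)
  · have h1 := (gm_eq_iff U _ _).2 (h.mono fun n hn => hn.2)
    have e : ∀ γ : ℕ → Fin N → Qb,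
        (gm U fun n => ∑ k, algebraMap Qb LX (γ n k) * t ^ (k : ℕ)) =
          ∑ k, φ (gm U fun n => γ n k) * (gm U fun _ => t) ^ (k : ℕ) := fun γ => by
      rw [gm_sum U _ fun k n => algebraMap Qb LX (γ n k) * t ^ (k : ℕ)]
      refine Finset.sum_congr rfl fun k _ => ?_
      rw [hφ, ← gm_pow, ← gm_mul]
    rw [gm_mul, e, gm_sum U _ fun μ n => (∑ k, algebraMap Qb LX (α n μ k) * t ^ (k : ℕ)) *
      ∏ s : J, x n s ^ (μ s : ℕ)] at h1
    refine h1.trans (Finset.sum_congr rfl fun μ _ => ?_)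
    rw [gm_mul, e fun n => α n μ, gm_prod U _ fun (s : J) n => x n s ^ (μ s : ℕ)]
    congr 1

theorem X5_lim_f (A B : ℕ → Qb) (X : ℕ → LX) :
    (gm U fun n => X n ^ 3 + algebraMap Qb LX (A n) * X n ^ 2 + algebraMap Qb LX (B n)) =
      gm U X ^ 3 + φ (gm U A) * gm U X ^ 2 + φ (gm U B) := by
  rw [hφ, hφ, ← gm_pow, ← gm_pow, ← gm_mul, ← gm_add, ← gm_add]

theorem X5_lim_nc {X : ℕ → LX} (h : ∀ᶠ n in (U : Filter ℕ), X n ∉ (algebraMap Qb LX).range) :
    gm U X ∉ φ.range := by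
  rintro ⟨c, hc⟩
  obtain ⟨w, rfl⟩ := gm_surj U c
  rw [hφ, gm_eq_iff] at hc
  obtain ⟨n, h1, h2⟩ := (h.and hc).exists
  exact h1 ⟨_, h2⟩

end

variable {a : ℕ} (Λ : AR a)

theorem X5_one (U : Ultrafilter ℕ) (m c : ℕ → Fin 5 → ℤ)
    (hi : AlgebraicIndependent Qb (Sum.elim (fun s => gm U fun n => Λ.pv (m n) s)
      fun s => gm U fun n => Λ.pv (c n) s)) (B : ℕ) {s : Fin 5} {J : Finset (Fin 5)} (hs : s ∉ J) :
    ∀ᶠ n in (U : Filter ℕ), ∀ D : TD Qb LX a, D.W = Λ.W (m n) (c n) → D.t = tX →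
      NoMap Qb (D.F {s}) (D.F J) B := by
  by_contra h0
  set N := 3 * B + Fintype.card (J → Fin (2 * a + 3)) * (10 * (2 * a + 3) ^ 5) + 1 with hN
  have h1 : ∀ᶠ n in (U : Filter ℕ), ∃ (x : Fin 5 → LX) (X Y : LX) (β β' : Fin N → Qb)
      (α α' : (J → Fin (2 * a + 3)) → Fin N → Qb),
      (∀ j, (Λ.W (m n) (c n) j).Rel a tX (x j)) ∧ X ∉ (algebraMap Qb LX).range ∧
      Y ^ 2 = (Λ.W (m n) (c n) s).f X ∧ X5_Rep (algebraMap Qb LX) J tX x X β α ∧
      X5_Rep (algebraMap Qb LX) J tX x Y β' α' := by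
    filter_upwards [Ultrafilter.eventually_not.2 h0] with n hn
    push Not at hn
    obtain ⟨D, hW, ht, hD⟩ := hn
    obtain ⟨X, Y, a1, a2, a3, a4⟩ := X5_extract D hD
    obtain ⟨β, α, b1⟩ := X5_rep D J X a3
    obtain ⟨β', α', b2⟩ := X5_rep D J Y a4
    rw [← hW, ← ht]
    exact ⟨D.x, X, Y, β, β', α, α', D.rel, a1, a2, b1, b2⟩
  obtain ⟨x, h1⟩ := h1.choice
  obtain ⟨X, h1⟩ := h1.choice
  obtain ⟨Y, h1⟩ := h1.choice
  obtain ⟨β, h1⟩ := h1.choice
  obtain ⟨β', h1⟩ := h1.choice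
  obtain ⟨α, h1⟩ := h1.choice
  obtain ⟨α', h1⟩ := h1.choice
  obtain ⟨φ₀, hφ₀⟩ := exists_upMap U (L := Qb) (L' := LX)
  obtain ⟨φ, hφ⟩ : ∃ φ : UP U Qb →+* UP U LX,
      ∀ x : ℕ → Qb, φ (gm U x) = gm U fun n => algebraMap Qb LX (x n) := ⟨φ₀, hφ₀⟩
  let _ : Algebra (UP U Qb) (UP U LX) := φ.toAlgebra
  have ht : (gm U fun _ => tX) ∉ φ.range := X5_lim_nc U φ hφ (Eventually.of_forall fun _ => X5_tX)
  have hA : ∀ j, (gm U fun n => (Λ.W (m n) (c n) j).A) =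
      algebraMap Qb (UP U Qb) (4 * Λ.p) * gm U fun n => Λ.pv (m n) j := fun j => by
    rw [← U2_const, ← gm_mul]
    rfl
  have hB : ∀ j, (gm U fun n => (Λ.W (m n) (c n) j).B) = (gm U fun n => Λ.pv (m n) j) ^ 2 :=
    fun j => gm_pow U _ 2
  refine X5_lim_nc U φ hφ (h1.mono fun n hn => hn.2.1) (X5_core (L := UP U LX) hi (q := 4 * Λ.p)
    (mul_ne_zero (by norm_num) (Nat.cast_ne_zero.2 Λ.prime.ne_zero))
    (fun j => Λ.θ j ^ 2 + Λ.k * Λ.θ j) (a := a) hs ht (x := fun j => gm U fun n => x n j) ?_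
    (X5_mem ht (X5_lim_rep U φ hφ (h1.mono fun n hn => hn.2.2.2.1)))
    (X5_mem ht (X5_lim_rep U φ hφ (h1.mono fun n hn => hn.2.2.2.2))) ?_)
  · intro j _
    have h2 := (gm_eq_iff U _ _).2 (h1.mono fun n hn => hn.1 j)
    simp only [WP.f] at h2
    rw [gm_mul, gm_pow, X5_lim_f U φ hφ, hA, hB, gm_pow, gm_sub, gm_inv, gm_sub, ← hφ, ← hφ] at h2
    exact h2
  · have h2 := (gm_eq_iff U _ _).2 (h1.mono fun n hn => hn.2.2.1)
    simp only [WP.f] at h2
    rw [gm_pow, X5_lim_f U φ hφ, hA, hB] at h2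
    exact h2

theorem AR.eventually_nm (U : Ultrafilter ℕ) (m c : ℕ → Fin 5 → ℤ)
    (hi : AlgebraicIndependent Qb (Sum.elim (fun s => gm U fun n => Λ.pv (m n) s)
      fun s => gm U fun n => Λ.pv (c n) s)) (B : ℕ) :
    ∀ᶠ n in (U : Filter ℕ), ∀ D : TD Qb LX a, D.W = Λ.W (m n) (c n) → D.t = tX → D.NM B := by
  have h : ∀ᶠ n in (U : Filter ℕ), ∀ (s : Fin 5) (J : Finset (Fin 5)), s ∉ J →
      ∀ D : TD Qb LX a, D.W = Λ.W (m n) (c n) → D.t = tX → NoMap Qb (D.F {s}) (D.F J) B := by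
    refine eventually_all.2 fun s => eventually_all.2 fun J => ?_
    by_cases hs : s ∈ J
    · exact Eventually.of_forall fun _ h => absurd hs h
    · exact (X5_one Λ U m c hi B hs).mono fun _ h _ => h
  exact h.mono fun n hn D h1 h2 s J hs => hn s J hs D h1 h2

/-- existence of good parameters -/
theorem AR.exists_td (ha : 1 ≤ a) (B : ℕ) : ∃ (m c : Fin 5 → ℤ) (D : TD Qb LX a),
    Λ.Adm m c ∧ D.W = Λ.W m c ∧ D.NM B := by
  obtain ⟨u, hu1, hu2⟩ := exists_generic_seq (ι := Fin 5 ⊕ Fin 5) (Λ.p : ℤ)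
    (Nat.cast_ne_zero.2 Λ.prime.ne_zero)
    (Sum.elim (fun i => if i = 0 then 1 else 0) fun i => if i = 0 then Λ.cb else 0)
  have hi := Λ.indep (Ultrafilter.of atTop) (Ultrafilter.of_le _) u hu2
  obtain ⟨n, h1, h2⟩ := ((Λ.eventually_br ha _ _ _ hi).and (Λ.eventually_nm _ _ _ hi B)).exists
  have hA : Λ.Adm (fun i => u n (.inl i)) fun i => u n (.inr i) :=
    ⟨fun i => hu1 n (.inl i), fun i => hu1 n (.inr i)⟩
  choose x hx using fun s =>
    X5_root (Λ.W (fun i => u n (.inl i)) (fun i => u n (.inr i)) s) a tX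
  exact ⟨_, _, ⟨_, tX, x, ha, X5_tX, Λ.ns hA, h1, hx⟩, hA, rfl, h2 _ rfl rfl⟩

end Pool.Agent.E6b
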