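import Pool.Agent.E6b.KDefs

open scoped NNReal TensorProduct IntermediateField BigOperators Classical Topology
open Filter

namespace Pool.Agent.E6b

/-- parameters of the cover `t = τ + 1 / (x ^ a y + c)` of the line by `y ^ 2 = x ^ 3 + A x ^ 2 + B` -/
structure WP (κ : Type) where
  A : κ
  B : κ
  c : κ
  τ : κ

namespace WP

variable {κ : Type} [Field κ] (W : WP κ) (a : ℕ)

def f {R : Type} [CommRing R] [Algebra κ R] (x : R) : R :=
  x ^ 3 + algebraMap κ R W.A * x ^ 2 + algebraMap κ R W.B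

def Rel {R : Type} [Field R] [Algebra κ R] (t x : R) : Prop :=
  x ^ (2 * a) * W.f x = ((t - algebraMap κ R W.τ)⁻¹ - algebraMap κ R W.c) ^ 2

def y {R : Type} [Field R] [Algebra κ R] (t x : R) : R :=
  ((t - algebraMap κ R W.τ)⁻¹ - algebraMap κ R W.c) / x ^ a

/-- the cubic is separable -/
def Ns : Prop := W.B * (4 * W.A ^ 3 + 27 * W.B) ≠ 0

/-- a set containing the branch points -/
def Br : Set (Option κ) :=
  {e | e = some W.τ ∨ ∃ x₀ y₀ : κ, y₀ ^ 2 = W.f x₀ ∧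
    x₀ * (2 * a * W.f x₀ + x₀ * (3 * x₀ ^ 2 + 2 * W.A * x₀)) = 0 ∧
    e = if x₀ ^ a * y₀ + W.c = 0 then none else some (W.τ + (x₀ ^ a * y₀ + W.c)⁻¹)}

end WP

/-- five covers inside one field -/
structure TD (κ L : Type) [Field κ] [Field L] [Algebra κ L] (a : ℕ) where
  W : Fin 5 → WP κ
  t : L
  x : Fin 5 → L
  ha : 1 ≤ a
  nc : t ∉ (algebraMap κ L).range
  ns : ∀ s, (W s).Ns
  br : ∀ s s', s ≠ s' → Disjoint ((W s).Br a) ((W s').Br a)
  rel : ∀ s, (W s).Rel a t (x s)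

namespace TD

variable {κ L : Type} [Field κ] [Field L] [Algebra κ L] {a : ℕ} (D : TD κ L a)

noncomputable def F (J : Finset (Fin 5)) : IntermediateField κ L :=
  IntermediateField.adjoin κ (insert D.t (D.x '' J))

theorem t_mem (J : Finset (Fin 5)) : D.t ∈ D.F J :=
  IntermediateField.subset_adjoin _ _ (Set.mem_insert _ _)

theorem x_mem {J : Finset (Fin 5)} {s : Fin 5} (h : s ∈ J) : D.x s ∈ D.F J :=
  IntermediateField.subset_adjoin _ _ (Set.mem_insert_of_mem _ ⟨s, h, rfl⟩)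

noncomputable def tF (J : Finset (Fin 5)) : D.F J := ⟨D.t, D.t_mem J⟩

noncomputable def xF {J : Finset (Fin 5)} {s : Fin 5} (h : s ∈ J) : D.F J := ⟨D.x s, D.x_mem h⟩

/-- no maps of small degree -/
def NM (B : ℕ) : Prop := ∀ s J, s ∉ J → NoMap κ (D.F {s}) (D.F J) B

end TD

/-- arithmetic data: a quintic field with group `S₅` and a suitable prime -/
structure AR (a : ℕ) where
  θ : Fin 5 → Qb
  perm : (Qb ≃ₐ[ℚ] Qb) →* Equiv.Perm (Fin 5)
  p : ℕ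
  k : ℤ
  cb : ℤ
  inj : Function.Injective θ
  int : ∀ s, IsIntegral ℤ (θ s)
  act : ∀ σ s, σ (θ s) = θ (perm σ s)
  surj : Function.Surjective perm
  prime : p.Prime
  big : 2 * a + 3 < p
  sep : ∀ v, IsPl p v → ∀ i j, i ≠ j → v (θ i - θ j) = 1
  ram : ∀ s s', s ≠ s' → ∃ v, IsPl p v ∧
    v ((θ s ^ 2 + k * θ s) - (θ s' ^ 2 + k * θ s')) = (p : ℝ)⁻¹ ∧
    ∀ i j, i ≠ j → ¬ (i = s ∧ j = s') → ¬ (i = s' ∧ j = s) →
      v ((θ i ^ 2 + k * θ i) - (θ j ^ 2 + k * θ j)) = 1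
  unr : ∀ v, IsPl p v → ∀ i j, v ((θ i ^ 2 + k * θ i) - (θ j ^ 2 + k * θ j)) = 1 →
    v (((θ i ^ 2 + k * θ i) - (θ j ^ 2 + k * θ j))⁻¹ - cb) = 1 ∧
    v ((2 * a + 3) ^ (2 * a + 3) * (((θ i ^ 2 + k * θ i) - (θ j ^ 2 + k * θ j))⁻¹ - cb) ^ 6 -
      (2 * a) ^ (2 * a) * 27) = 1

namespace AR

variable {a : ℕ} (Λ : AR a)

noncomputable def pv (u : Fin 5 → ℤ) (s : Fin 5) : Qb := ∑ i : Fin 5, (u i : Qb) * Λ.θ s ^ (i : ℕ)

/-- the five conjugate covers for the integer parameters `m`, `c` -/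
noncomputable def W (m c : Fin 5 → ℤ) (s : Fin 5) : WP Qb where
  A := 4 * Λ.p * Λ.pv m s
  B := Λ.pv m s ^ 2
  c := Λ.pv c s
  τ := Λ.θ s ^ 2 + Λ.k * Λ.θ s

/-- congruence conditions on the parameters -/
def Adm (m c : Fin 5 → ℤ) : Prop :=
  (∀ i, (Λ.p : ℤ) ∣ m i - if i = 0 then 1 else 0) ∧ ∀ i, (Λ.p : ℤ) ∣ c i - if i = 0 then Λ.cb else 0

end AR

/-- the field containing all covers -/
abbrev LX : Type := AlgebraicClosure (RatFunc Qb)

noncomputable def tX : LX := algebraMap (RatFunc Qb) LX RatFunc.X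

end Pool.Agent.E6b
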